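import Mathlib
open MeasureTheory Set Metric
namespace AC
/-- square of the Menger curvature (4 area / product of sides)^2 -/
noncomputable def csq (x y z : ℂ) : ℝ :=
  (2 * ((y - x) * (starRingEnd ℂ) (z - x)).im) ^ 2 / (‖x - y‖ ^ 2 * ‖y - z‖ ^ 2 * ‖x - z‖ ^ 2)

/-- truncated Cauchy integral of `g` at `p`, region `‖z-p‖ ≥ r` -/
noncomputable def far (g : Measure ℂ) (r : ℝ) (p : ℂ) : ℂ := ∫ z in {z : ℂ | r ≤ ‖z - p‖}, (z - p)⁻¹ ∂g

theorem csq_nonneg (x y z : ℂ) : 0 ≤ csq x y z := by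
  unfold csq; positivity

open Classical in
/-- the suffix-minimum (rising sun) lemma -/
theorem sun_aux (f : ℕ → ℝ) (M : ℕ) : ∀ k ≤ M, ∃ b : ℝ, (∀ l, k ≤ l → l ≤ M → b ≤ f l) ∧
    (∃ l, k ≤ l ∧ l ≤ M ∧ f l = b) ∧
    f M - b ≤ ∑ m ∈ (Finset.Ico k M).filter (fun m => ∀ l, m < l → l ≤ M → f m < f l),
      (f (m + 1) - f m) := by
  intro k hk
  induction hd : M - k generalizing k with
  | zero =>
    have : k = M := by omega
    subst this
    refine ⟨f k, ?_, ⟨k, le_rfl, le_rfl, rfl⟩, ?_⟩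
    · intro l h1 h2
      have : l = k := by omega
      rw [this]
    · simp
  | succ d ih =>
    obtain ⟨b, hb1, ⟨l0, hl0, hl0', hl0b⟩, hb2⟩ := ih (k + 1) (by omega) (by omega)
    have hIco : Finset.Ico k M = insert k (Finset.Ico (k + 1) M) := by
      ext m; simp only [Finset.mem_Ico, Finset.mem_insert]; omega
    have hnot : k ∉ Finset.Ico (k + 1) M := by simp
    by_cases hT : ∀ l, k < l → l ≤ M → f k < f l
    · refine ⟨f k, ?_, ⟨k, le_rfl, hk, rfl⟩, ?_⟩
      · intro l h1 h2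
        rcases Nat.eq_or_lt_of_le h1 with h | h
        · rw [h]
        · exact (hT l h h2).le
      · rw [hIco, Finset.filter_insert, if_pos hT, Finset.sum_insert]
        · have : b ≤ f (k + 1) := hb1 (k + 1) le_rfl (by omega)
          linarith
        · simp
    · push Not at hT
      obtain ⟨l1, hl1, hl1', hl1f⟩ := hT
      refine ⟨b, ?_, ⟨l0, by omega, hl0', hl0b⟩, ?_⟩
      · intro l h1 h2
        rcases Nat.eq_or_lt_of_le h1 with h | h
        · rw [← h]
          exact (hb1 l1 (by omega) hl1').trans hl1f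
        · exact hb1 l (by omega) h2
      · rw [hIco, Finset.filter_insert, if_neg]
        · exact hb2
        · push Not
          exact ⟨l1, hl1, hl1', hl1f⟩

open Classical in
theorem sun (f : ℕ → ℝ) (M : ℕ) :
    f M - f 0 ≤ ∑ m ∈ (Finset.range M).filter (fun m => ∀ l, m < l → l ≤ M → f m < f l),
      (f (m + 1) - f m) := by
  obtain ⟨b, hb1, -, hb2⟩ := sun_aux f M 0 (Nat.zero_le _)
  have := hb1 0 le_rfl (Nat.zero_le _)
  rw [← Finset.range_eq_Ico] at hb2
  linarith

/-- Geometry: from a path of balls to a chord-arc family. -/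
theorem geom (d : ℝ) (hd : 0 < d) (u : ℂ) (hu : ‖u‖ = 1)
    (x : ℕ → ℂ) (R : ℕ → ℝ) (J Jg : Finset ℕ)
    (hR : ∀ j ∈ J, 0 < R j)
    (hdisj : ∀ i ∈ J, ∀ j ∈ J, i ≠ j → R i + R j ≤ ‖x i - x j‖)
    (hJg : Jg ⊆ J)
    (htot : ∑ j ∈ J, R j ≤ 257 * d) (hbad : ∑ j ∈ J \ Jg, R j ≤ d / 44)
    (M : ℕ) (jj : ℕ → ℕ) (q : ℕ → ℂ) (hq : ((q M - q 0) * u).re = d)
    (hinj : InjOn jj (Iio M)) (hjJ : ∀ m < M, jj m ∈ J)
    (h6 : ∀ m < M, ‖q m - x (jj m)‖ ≤ 6 * R (jj m))
    (h5 : ∀ m < M, ‖q (m + 1) - x (jj m)‖ ≤ 5 * R (jj m)) :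
    ∃ (T : Finset ℕ) (t : ℕ → ℝ), InjOn jj T ∧ (∀ m ∈ T, jj m ∈ Jg) ∧
      d / 44 ≤ ∑ m ∈ T, R (jj m) ∧
      (∀ m ∈ T, R (jj m) / 2 ≤ t m ∧ t m + R (jj m) / 2 ≤ 257 * d) ∧
      (∀ i ∈ T, ∀ j ∈ T, i ≠ j → (R (jj i) + R (jj j)) / 2 ≤ |t i - t j|) ∧
      (∀ i ∈ T, ∀ j ∈ T, i ≠ j → ‖x (jj i) - x (jj j)‖ ≤ 22 * |t i - t j|) ∧
      (∀ i ∈ T, ∀ j ∈ T, i ≠ j → (1 / 4112) * |t i - t j| ≤ ‖x (jj i) - x (jj j)‖) := by
  classical
  -- cumulative lengths
  set s : ℕ → ℝ := fun m => ∑ l ∈ Finset.range m, R (jj l) with hs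
  have hRpos : ∀ m < M, 0 < R (jj m) := fun m hm => hR _ (hjJ m hm)
  have hsM : s M ≤ 257 * d := by
    refine le_trans ?_ htot
    have hinj' : Set.InjOn jj (Finset.range M : Set ℕ) := by
      intro a ha b hb hab
      exact hinj (by simpa using ha) (by simpa using hb) hab
    rw [hs]
    simp only
    rw [← Finset.sum_image (f := fun j => R j) (s := Finset.range M) (g := jj)
      (fun a ha b hb hab => hinj' ha hb hab)]
    refine Finset.sum_le_sum_of_subset_of_nonneg ?_ ?_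
    · intro j hj
      simp only [Finset.mem_image, Finset.mem_range] at hj
      obtain ⟨m, hm, rfl⟩ := hj
      exact hjJ m hm
    · intro j hj _
      exact (hR j hj).le
  have hs_succ : ∀ m, s (m + 1) = s m + R (jj m) := by
    intro m; simp [hs, Finset.sum_range_succ]
  have hs_mono : ∀ m m', m ≤ m' → m' ≤ M → s m ≤ s m' := by
    intro m m' h1 h2
    refine Finset.sum_le_sum_of_subset_of_nonneg ?_ ?_
    · intro l hl; simp only [Finset.mem_range] at hl ⊢; omega
    · intro l hl _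
      simp only [Finset.mem_range] at hl
      exact (hRpos l (by omega)).le
  set f : ℕ → ℝ := fun m => (q m * u).re - (1 / 514) * s m with hf
  have hstep : ∀ m < M, f (m + 1) - f m ≤ 11 * R (jj m) := by
    intro m hm
    have h1 : ((q (m + 1) - q m) * u).re ≤ 11 * R (jj m) := by
      calc ((q (m + 1) - q m) * u).re ≤ ‖(q (m + 1) - q m) * u‖ := Complex.re_le_norm _
        _ = ‖q (m + 1) - q m‖ := by rw [norm_mul, hu, mul_one]
        _ = ‖(q (m + 1) - x (jj m)) - (q m - x (jj m))‖ := by ring_nf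
        _ ≤ ‖q (m + 1) - x (jj m)‖ + ‖q m - x (jj m)‖ := norm_sub_le _ _
        _ ≤ 11 * R (jj m) := by linarith [h5 m hm, h6 m hm]
    have h2 := hRpos m hm
    simp only [hf, hs_succ]
    have h3 : ((q (m + 1) - q m) * u).re = (q (m + 1) * u).re - (q m * u).re := by
      rw [sub_mul, Complex.sub_re]
    linarith
  have hfM : d / 2 ≤ f M - f 0 := by
    have h3 : ((q M - q 0) * u).re = (q M * u).re - (q 0 * u).re := by
      rw [sub_mul, Complex.sub_re]
    have h0 : s 0 = 0 := by simp [hs]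
    simp only [hf, h0]
    linarith
  set T0 : Finset ℕ := (Finset.range M).filter (fun m => ∀ l, m < l → l ≤ M → f m < f l) with hT0
  have hsun := sun f M
  have hT0sum : d / 22 ≤ ∑ m ∈ T0, R (jj m) := by
    have h1 : f M - f 0 ≤ ∑ m ∈ T0, 11 * R (jj m) := by
      refine hsun.trans (Finset.sum_le_sum ?_)
      intro m hm
      simp only [hT0, Finset.mem_filter, Finset.mem_range] at hm
      exact hstep m hm.1
    rw [← Finset.mul_sum] at h1
    linarith
  set T : Finset ℕ := T0.filter (fun m => jj m ∈ Jg) with hT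
  set t : ℕ → ℝ := fun m => s m + R (jj m) / 2 with ht
  have hTM : ∀ m ∈ T, m < M := by
    intro m hm
    simp only [hT, hT0, Finset.mem_filter, Finset.mem_range] at hm
    exact hm.1.1
  have hTf : ∀ m ∈ T, ∀ l, m < l → l ≤ M → f m < f l := by
    intro m hm
    simp only [hT, hT0, Finset.mem_filter, Finset.mem_range] at hm
    exact hm.1.2
  -- differences of positions for m < m'
  have hpos : ∀ m m', m < m' → m' < M →
      t m' - t m = (s m' - s (m + 1)) + R (jj m) / 2 + R (jj m') / 2 ∧ 0 ≤ s m' - s (m + 1) := by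
    intro m m' h1 h2
    constructor
    · simp only [ht, hs_succ]; ring
    · linarith [hs_mono (m + 1) m' h1 h2.le]
  -- chord bound
  have hchordUp : ∀ m m', m < m' → m' < M →
      ‖x (jj m) - x (jj m')‖ ≤ 5 * R (jj m) + 11 * (s m' - s (m + 1)) + 6 * R (jj m') := by
    intro m m' h1 h2
    have hq' : ∀ k, m + 1 ≤ k → k < M → ‖q k - q (m + 1)‖ ≤ 11 * (s k - s (m + 1)) := by
      intro k hk
      induction k, hk using Nat.le_induction with
      | base => intro _; simp
      | succ k hk ih =>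
        intro hkM
        have h3 : ‖q (k + 1) - q k‖ ≤ 11 * R (jj k) := by
          calc ‖q (k + 1) - q k‖ = ‖(q (k + 1) - x (jj k)) - (q k - x (jj k))‖ := by ring_nf
            _ ≤ ‖q (k + 1) - x (jj k)‖ + ‖q k - x (jj k)‖ := norm_sub_le _ _
            _ ≤ 11 * R (jj k) := by linarith [h5 k (by omega), h6 k (by omega)]
        calc ‖q (k + 1) - q (m + 1)‖ = ‖(q (k + 1) - q k) + (q k - q (m + 1))‖ := by ring_nf
          _ ≤ ‖q (k + 1) - q k‖ + ‖q k - q (m + 1)‖ := norm_add_le _ _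
          _ ≤ 11 * (s (k + 1) - s (m + 1)) := by
            rw [hs_succ k]
            linarith [ih (by omega)]
    calc ‖x (jj m) - x (jj m')‖
        = ‖-(q (m + 1) - x (jj m)) + -(q m' - q (m + 1)) + (q m' - x (jj m'))‖ := by ring_nf
      _ ≤ ‖-(q (m + 1) - x (jj m)) + -(q m' - q (m + 1))‖ + ‖q m' - x (jj m')‖ := norm_add_le _ _
      _ ≤ ‖q (m + 1) - x (jj m)‖ + ‖q m' - q (m + 1)‖ + ‖q m' - x (jj m')‖ := by
          gcongr
          refine (norm_add_le _ _).trans ?_
          rw [norm_neg, norm_neg]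
      _ ≤ 5 * R (jj m) + 11 * (s m' - s (m + 1)) + 6 * R (jj m') := by
          linarith [h5 m (by omega), h6 m' h2, hq' m' (by omega) h2]
  have hchordLow : ∀ m ∈ T, ∀ m' ∈ T, m < m' →
      (1 / 4112) * (t m' - t m) ≤ ‖x (jj m) - x (jj m')‖ := by
    intro m hm m' hm' h1
    have hM := hTM m hm
    have hM' := hTM m' hm'
    have hff := hTf m hm m' h1 hM'.le
    have hd1 : R (jj m) + R (jj m') ≤ ‖x (jj m) - x (jj m')‖ := by
      refine hdisj _ (hjJ m hM) _ (hjJ m' hM') ?_
      intro heq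
      exact absurd (hinj (by simpa using hM) (by simpa using hM') heq) h1.ne
    have h3 : (1 / 514) * (s m' - s m) ≤ ‖q m' - q m‖ := by
      have h4 : ((q m' - q m) * u).re ≤ ‖q m' - q m‖ := by
        calc ((q m' - q m) * u).re ≤ ‖(q m' - q m) * u‖ := Complex.re_le_norm _
          _ = ‖q m' - q m‖ := by rw [norm_mul, hu, mul_one]
      rw [sub_mul, Complex.sub_re] at h4
      simp only [hf] at hff
      linarith
    have h5' : ‖q m' - q m‖ ≤ ‖x (jj m) - x (jj m')‖ + 6 * R (jj m) + 6 * R (jj m') := by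
      calc ‖q m' - q m‖
          = ‖(q m' - x (jj m')) - (x (jj m) - x (jj m')) - (q m - x (jj m))‖ := by ring_nf
        _ ≤ ‖(q m' - x (jj m')) - (x (jj m) - x (jj m'))‖ + ‖q m - x (jj m)‖ := norm_sub_le _ _
        _ ≤ ‖q m' - x (jj m')‖ + ‖x (jj m) - x (jj m')‖ + ‖q m - x (jj m)‖ := by
            gcongr; exact norm_sub_le _ _
        _ ≤ _ := by linarith [h6 m hM, h6 m' hM']
    obtain ⟨h7, h8⟩ := hpos m m' h1 hM'
    have h9 := hs_succ m
    have h10 := hRpos m hM
    have h11 := hRpos m' hM'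
    rw [h7]
    linarith
  refine ⟨T, t, ?_, ?_, ?_, ?_, ?_, ?_, ?_⟩
  · intro a ha b hb hab
    exact hinj (by simpa using hTM a ha) (by simpa using hTM b hb) hab
  · intro m hm
    simp only [hT, Finset.mem_filter] at hm
    exact hm.2
  · have h1 : ∑ m ∈ T0, R (jj m) = ∑ m ∈ T, R (jj m) +
        ∑ m ∈ T0.filter (fun m => ¬ jj m ∈ Jg), R (jj m) := by
      rw [hT, Finset.sum_filter_add_sum_filter_not]
    have h2 : ∑ m ∈ T0.filter (fun m => ¬ jj m ∈ Jg), R (jj m) ≤ d / 44 := by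
      refine le_trans ?_ hbad
      rw [← Finset.sum_image (f := fun j => R j) (s := T0.filter (fun m => ¬ jj m ∈ Jg)) (g := jj)]
      · refine Finset.sum_le_sum_of_subset_of_nonneg ?_ ?_
        · intro j hj
          simp only [Finset.mem_image, Finset.mem_filter, hT0, Finset.mem_range] at hj
          obtain ⟨m, hm, rfl⟩ := hj
          simp only [Finset.mem_sdiff]
          exact ⟨hjJ m hm.1.1, hm.2⟩
        · intro j hj _
          simp only [Finset.mem_sdiff] at hj
          exact (hR j hj.1).le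
      · intro a ha b hb hab
        simp only [Finset.coe_filter, hT0, Finset.mem_filter, Finset.mem_range, mem_setOf_eq] at ha hb
        exact hinj (by simpa using ha.1.1) (by simpa using hb.1.1) hab
    linarith
  · intro m hm
    have hM := hTM m hm
    have h0 : 0 ≤ s m := by
      have := hs_mono 0 m (Nat.zero_le _) hM.le
      simpa [hs] using this
    have h1 := hs_mono (m + 1) M hM le_rfl
    rw [hs_succ] at h1
    constructor
    · simp only [ht]; linarith
    · simp only [ht]; linarith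
  · intro i hi j hj hij
    rcases lt_or_gt_of_ne hij with h | h
    · obtain ⟨h7, h8⟩ := hpos i j h (hTM j hj)
      rw [abs_sub_comm, abs_of_nonneg] <;> rw [h7] <;> linarith [hRpos i (hTM i hi), hRpos j (hTM j hj)]
    · obtain ⟨h7, h8⟩ := hpos j i h (hTM i hi)
      rw [abs_of_nonneg] <;> rw [h7] <;> linarith [hRpos i (hTM i hi), hRpos j (hTM j hj)]
  · intro i hi j hj hij
    rcases lt_or_gt_of_ne hij with h | h
    · obtain ⟨h7, h8⟩ := hpos i j h (hTM j hj)
      have h9 := hchordUp i j h (hTM j hj)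
      rw [abs_sub_comm, abs_of_nonneg]
      · rw [h7]; linarith [hRpos i (hTM i hi), hRpos j (hTM j hj)]
      · rw [h7]; linarith [hRpos i (hTM i hi), hRpos j (hTM j hj)]
    · obtain ⟨h7, h8⟩ := hpos j i h (hTM i hi)
      have h9 := hchordUp j i h (hTM i hi)
      rw [norm_sub_rev, abs_of_nonneg]
      · rw [h7]; linarith [hRpos i (hTM i hi), hRpos j (hTM j hj)]
      · rw [h7]; linarith [hRpos i (hTM i hi), hRpos j (hTM j hj)]
  · intro i hi j hj hij
    rcases lt_or_gt_of_ne hij with h | h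
    · obtain ⟨h7, h8⟩ := hpos i j h (hTM j hj)
      rw [abs_sub_comm, abs_of_nonneg]
      · exact hchordLow i hi j hj h
      · rw [h7]; linarith [hRpos i (hTM i hi), hRpos j (hTM j hj)]
    · obtain ⟨h7, h8⟩ := hpos j i h (hTM i hi)
      rw [norm_sub_rev, abs_of_nonneg]
      · exact hchordLow j hj i hi h
      · rw [h7]; linarith [hRpos i (hTM i hi), hRpos j (hTM j hj)]

end AC
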