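import Mathlib
open MeasureTheory Set
namespace AC
/-- linear growth at the scales ≥ r controls the tail of ∫ |z-x|^{-2} -/
theorem growth_integral (g : Measure ℂ) [IsFiniteMeasure g] (x : ℂ) (r lam : ℝ) (hr : 0 < r)
    (hlam : 0 ≤ lam) (hg : ∀ ρ, r ≤ ρ → g.real (Metric.closedBall x ρ) ≤ lam * ρ) :
    ∫ z in {z : ℂ | r ≤ ‖z - x‖}, (‖z - x‖ ^ 2)⁻¹ ∂g ≤ 2 * lam / r := by
  obtain ⟨S, hS⟩ : ∃ S : Set ℂ, S = {z : ℂ | r ≤ ‖z - x‖} := ⟨_, rfl⟩
  have hSm : MeasurableSet S := by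
    rw [hS]
    exact measurableSet_le measurable_const (by fun_prop)
  rw [← hS]
  have hm : Measurable (fun z : ℂ => (‖z - x‖ ^ 2)⁻¹) := by fun_prop
  have hbd : ∀ z ∈ S, (‖z - x‖ ^ 2)⁻¹ ≤ (r ^ 2)⁻¹ := by
    intro z hz
    rw [hS] at hz
    have hz' : r ≤ ‖z - x‖ := hz
    exact inv_anti₀ (by positivity) (by nlinarith)
  have hint : Integrable (fun z : ℂ => (‖z - x‖ ^ 2)⁻¹) (g.restrict S) := by
    refine Integrable.mono' (integrable_const ((r ^ 2)⁻¹ : ℝ)) hm.aestronglyMeasurable ?_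
    rw [ae_restrict_iff' hSm]
    refine Filter.Eventually.of_forall (fun z hz => ?_)
    rw [Real.norm_of_nonneg (by positivity)]
    exact hbd z hz
  rw [hint.integral_eq_integral_meas_le (Filter.Eventually.of_forall (fun z => by
    show 0 ≤ (‖z - x‖ ^ 2)⁻¹
    positivity))]
  obtain ⟨T, hT⟩ : ∃ T : ℝ, T = (r ^ 2)⁻¹ := ⟨_, rfl⟩
  have hT0 : 0 < T := by rw [hT]; positivity
  have hii : IntervalIntegrable (fun t : ℝ => lam * t ^ (-(1 / 2) : ℝ)) volume 0 T :=
    (intervalIntegral.intervalIntegrable_rpow' (by norm_num)).const_mul lam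
  have hio : IntegrableOn (fun t : ℝ => lam * t ^ (-(1 / 2) : ℝ)) (Ioc 0 T) := by
    rwa [intervalIntegrable_iff_integrableOn_Ioc_of_le hT0.le] at hii
  have hG : Integrable ((Ioc 0 T).indicator (fun t : ℝ => lam * t ^ (-(1 / 2) : ℝ)))
      (volume.restrict (Ioi 0)) :=
    ((integrable_indicator_iff measurableSet_Ioc).mpr hio).restrict
  have hmono : ∫ t in Ioi (0 : ℝ), (g.restrict S).real {a | t ≤ (‖a - x‖ ^ 2)⁻¹} ≤
      ∫ t in Ioi (0 : ℝ), (Ioc 0 T).indicator (fun t : ℝ => lam * t ^ (-(1 / 2) : ℝ)) t := by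
    refine integral_mono_of_nonneg (Filter.Eventually.of_forall (fun t => measureReal_nonneg)) hG ?_
    rw [Filter.EventuallyLE, ae_restrict_iff' measurableSet_Ioi]
    refine Filter.Eventually.of_forall (fun t ht => ?_)
    have ht0 : (0 : ℝ) < t := ht
    rw [measureReal_restrict_apply (measurableSet_le measurable_const hm)]
    by_cases htT : t ≤ T
    · rw [indicator_of_mem (show t ∈ Ioc 0 T from ⟨ht0, htT⟩)]
      have hρ : r ≤ t ^ (-(1 / 2) : ℝ) := by
        have h1 : T ^ (-(1 / 2) : ℝ) = r := by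
          rw [hT, Real.inv_rpow (by positivity), ← Real.rpow_neg (by positivity),
            ← Real.rpow_natCast, ← Real.rpow_mul hr.le]
          norm_num
        rw [← h1]
        exact Real.rpow_le_rpow_of_nonpos ht0 htT (by norm_num)
      refine le_trans (measureReal_mono ?_ (by finiteness)) (hg _ hρ)
      rintro z ⟨hz1, hz2⟩
      rw [Metric.mem_closedBall, dist_eq_norm]
      have hz1' : t ≤ (‖z - x‖ ^ 2)⁻¹ := hz1
      rw [hS] at hz2
      have hz2' : r ≤ ‖z - x‖ := hz2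
      have hz0 : 0 < ‖z - x‖ := lt_of_lt_of_le hr hz2'
      have h2 : ((‖z - x‖ ^ 2)⁻¹) ^ (-(1 / 2) : ℝ) ≤ t ^ (-(1 / 2) : ℝ) :=
        Real.rpow_le_rpow_of_nonpos ht0 hz1' (by norm_num)
      have h3 : ((‖z - x‖ ^ 2)⁻¹) ^ (-(1 / 2) : ℝ) = ‖z - x‖ := by
        rw [Real.inv_rpow (by positivity), ← Real.rpow_neg (by positivity),
          ← Real.rpow_natCast, ← Real.rpow_mul hz0.le]
        norm_num
      rwa [h3] at h2
    · push Not at htT
      rw [indicator_of_notMem (show t ∉ Ioc 0 T from fun h => not_le.mpr htT h.2)]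
      have h4 : {a : ℂ | t ≤ (‖a - x‖ ^ 2)⁻¹} ∩ S = ∅ := by
        ext z
        simp only [mem_inter_iff, mem_empty_iff_false, iff_false, not_and]
        intro hz1 hz2
        have hz1' : t ≤ (‖z - x‖ ^ 2)⁻¹ := hz1
        have := hbd z hz2
        rw [← hT] at this
        linarith
      rw [h4, measureReal_empty]
  refine le_trans hmono ?_
  rw [setIntegral_indicator measurableSet_Ioc]
  have h5 : Ioi (0 : ℝ) ∩ Ioc 0 T = Ioc 0 T := by
    ext t
    constructor
    · exact fun h => h.2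
    · exact fun h => ⟨h.1, h⟩
  rw [h5, ← intervalIntegral.integral_of_le hT0.le, intervalIntegral.integral_const_mul,
    integral_rpow (Or.inl (by norm_num))]
  have h6 : T ^ (-(1 / 2) + 1 : ℝ) = r⁻¹ := by
    rw [hT, Real.inv_rpow (by positivity), ← Real.rpow_natCast, ← Real.rpow_mul hr.le]
    norm_num
  rw [h6, Real.zero_rpow (by norm_num)]
  apply le_of_eq
  field_simp
  ring
end AC
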