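import Mathlib
open Set
namespace AC

theorem chain_path_aux (h : ℝ) (hh : 0 < h) (p : ℕ → ℂ) (n : ℕ)
    (hp : ∀ i < n, ‖p (i + 1) - p i‖ ≤ h) (x : ℕ → ℂ) (R : ℕ → ℝ) (J : Finset ℕ) :
    (∀ j ∈ J, h ≤ R j) → ∀ i0 ≤ n, (∀ i, i0 ≤ i → i ≤ n → ∃ j ∈ J, ‖p i - x j‖ ≤ 5 * R j) →
    ∃ (M : ℕ) (j : ℕ → ℕ) (q : ℕ → ℂ), 0 < M ∧ q 0 = p i0 ∧ q M = p n ∧ InjOn j (Iio M) ∧
      (∀ m < M, j m ∈ J) ∧ ‖q 0 - x (j 0)‖ ≤ 5 * R (j 0) ∧
      (∀ m < M, ‖q m - x (j m)‖ ≤ 6 * R (j m)) ∧
      (∀ m < M, ‖q (m + 1) - x (j m)‖ ≤ 5 * R (j m)) := by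
  induction J using Finset.strongInduction with
  | H J ih =>
    intro hR i0 hi0 hcov
    obtain ⟨j0, hj0, hc0⟩ := hcov i0 le_rfl hi0
    classical
    set S := (Finset.range (n + 1)).filter (fun i => i0 ≤ i ∧ ‖p i - x j0‖ ≤ 5 * R j0) with hS
    have hSne : S.Nonempty := ⟨i0, by
      rw [hS, Finset.mem_filter, Finset.mem_range]; exact ⟨by omega, le_rfl, hc0⟩⟩
    set i1 := S.max' hSne with hi1
    have hi1mem : i1 ∈ S := Finset.max'_mem _ _
    rw [hS, Finset.mem_filter, Finset.mem_range] at hi1mem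
    obtain ⟨hi1n, hi01, hc1⟩ := hi1mem
    have hmax : ∀ i, i1 < i → i ≤ n → ¬ ‖p i - x j0‖ ≤ 5 * R j0 := by
      intro i hi hin hc
      have : i ∈ S := by
        rw [hS, Finset.mem_filter, Finset.mem_range]; exact ⟨by omega, by omega, hc⟩
      have := Finset.le_max' S i this
      omega
    have hRj0 := hR j0 hj0
    rcases Nat.lt_or_ge i1 n with hlt | hge
    · have hsub : J.erase j0 ⊂ J := Finset.erase_ssubset hj0
      obtain ⟨M', j', q', hM', hq0, hqM, hinj, hmem, hfirst, h6, h5⟩ := ih (J.erase j0) hsub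
        (fun j hj => hR j (Finset.mem_of_mem_erase hj)) (i1 + 1) (by omega) (by
          intro i hi hin
          obtain ⟨j, hj, hc⟩ := hcov i (by omega) hin
          refine ⟨j, Finset.mem_erase.2 ⟨?_, hj⟩, hc⟩
          rintro rfl
          exact hmax i (by omega) hin hc)
      let jj : ℕ → ℕ := fun m => Nat.casesOn m j0 (fun k => j' k)
      let qq : ℕ → ℂ := fun m => Nat.casesOn m (p i0) (fun k => Nat.casesOn k (p i1) (fun l => q' (l + 1)))
      refine ⟨M' + 1, jj, qq, by omega, rfl, ?_, ?_, ?_, ?_, ?_, ?_⟩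
      · obtain ⟨k, rfl⟩ : ∃ k, M' = k + 1 := ⟨M' - 1, by omega⟩
        exact hqM
      · intro a ha b hb hab
        rcases a with _ | a <;> rcases b with _ | b
        · rfl
        · exfalso
          have h1 : j0 = j' b := hab
          have h2 := hmem b (by have : b + 1 < M' + 1 := hb; omega)
          rw [← h1] at h2
          exact Finset.notMem_erase _ _ h2
        · exfalso
          have h1 : j' a = j0 := hab
          have h2 := hmem a (by have : a + 1 < M' + 1 := ha; omega)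
          rw [h1] at h2
          exact Finset.notMem_erase _ _ h2
        · have h1 : j' a = j' b := hab
          have h2 := hinj (show a < M' by have : a + 1 < M' + 1 := ha; omega)
            (show b < M' by have : b + 1 < M' + 1 := hb; omega) h1
          rw [h2]
      · intro m hm
        rcases m with _ | m
        · exact hj0
        · exact Finset.mem_of_mem_erase (hmem m (by omega))
      · exact hc0
      · intro m hm
        rcases m with _ | _ | m
        · show ‖p i0 - x j0‖ ≤ 6 * R j0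
          linarith
        · show ‖p i1 - x (j' 0)‖ ≤ 6 * R (j' 0)
          have h1 := hR (j' 0) (Finset.mem_of_mem_erase (hmem 0 hM'))
          rw [hq0] at hfirst
          have h2 := hp i1 hlt
          have h3 : p i1 - x (j' 0) = -(p (i1 + 1) - p i1) + (p (i1 + 1) - x (j' 0)) := by ring
          rw [h3]
          refine (norm_add_le _ _).trans ?_
          rw [norm_neg]
          linarith
        · show ‖q' (m + 1) - x (j' (m + 1))‖ ≤ 6 * R (j' (m + 1))
          exact h6 (m + 1) (by omega)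
      · intro m hm
        rcases m with _ | m
        · show ‖p i1 - x j0‖ ≤ 5 * R j0
          exact hc1
        · show ‖q' (m + 1) - x (j' m)‖ ≤ 5 * R (j' m)
          exact h5 m (by omega)
    · have hin : i1 = n := by omega
      refine ⟨1, fun _ => j0, fun m => if m = 0 then p i0 else p n, one_pos, by simp, by simp, ?_,
        fun _ _ => hj0, ?_, ?_, ?_⟩
      · intro a ha b hb _
        have h1 : a < 1 := ha
        have h2 : b < 1 := hb
        omega
      · simpa using hc0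
      · intro m hm
        have : m = 0 := by omega
        subst this
        simp only [if_true]
        linarith
      · intro m hm
        simp only [Nat.succ_ne_zero, if_false]
        rw [← hin]
        exact hc1

theorem chain_path (h : ℝ) (hh : 0 < h) (p : ℕ → ℂ) (n : ℕ) (hp : ∀ i < n, ‖p (i + 1) - p i‖ ≤ h)
    (J : Finset ℕ) (x : ℕ → ℂ) (R : ℕ → ℝ) (hR : ∀ j ∈ J, h ≤ R j)
    (hcov : ∀ i ≤ n, ∃ j ∈ J, ‖p i - x j‖ ≤ 5 * R j) :
    ∃ (M : ℕ) (j : ℕ → ℕ) (q : ℕ → ℂ), q 0 = p 0 ∧ q M = p n ∧ InjOn j (Iio M) ∧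
      (∀ m < M, j m ∈ J) ∧ (∀ m < M, ‖q m - x (j m)‖ ≤ 6 * R (j m)) ∧
      (∀ m < M, ‖q (m + 1) - x (j m)‖ ≤ 5 * R (j m)) := by
  obtain ⟨M, j, q, -, h1, h2, h3, h4, -, h5, h6⟩ := chain_path_aux h hh p n hp x R J hR 0
    (Nat.zero_le n) (fun i _ hi => hcov i hi)
  exact ⟨M, j, q, h1, h2, h3, h4, h5, h6⟩
end AC
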