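import Pool.Agent.Helper303.Ac0
import Pool.Agent.Helper303.AcB
import Pool.Agent.Helper303.AcC
open MeasureTheory Set Metric
namespace AC

theorem measurableSet_far (r : ℝ) (p : ℂ) : MeasurableSet {z : ℂ | r ≤ ‖z - p‖} :=
  measurableSet_le measurable_const (by fun_prop)

/-- integrability of the Cauchy kernel on a set that stays away from the pole -/
theorem integrableOn_cauchy (g : Measure ℂ) [IsFiniteMeasure g] (r : ℝ) (hr : 0 < r) (p : ℂ)
    (A : Set ℂ) (hA : MeasurableSet A) (hAr : ∀ z ∈ A, r ≤ ‖z - p‖) :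
    IntegrableOn (fun z => (z - p)⁻¹) A g := by
  refine Integrable.mono' (integrable_const (r⁻¹ : ℝ)) ?_ ?_
  · exact (by fun_prop : Measurable fun z : ℂ => (z - p)⁻¹).aestronglyMeasurable
  · refine (ae_restrict_mem hA).mono fun z hz => ?_
    rw [norm_inv]
    exact inv_anti₀ hr (hAr z hz)

theorem norm_setIntegral_cauchy_le (g : Measure ℂ) [IsFiniteMeasure g] (r : ℝ) (hr : 0 < r) (p : ℂ)
    (A : Set ℂ) (hA : MeasurableSet A) (hAr : ∀ z ∈ A, r ≤ ‖z - p‖) :
    ‖∫ z in A, (z - p)⁻¹ ∂g‖ ≤ g.real A / r := by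
  have := norm_setIntegral_le_of_norm_le_const (μ := g) (s := A) (f := fun z => (z - p)⁻¹)
    (C := r⁻¹) (measure_lt_top _ _) (fun z hz => by
      rw [norm_inv]; exact inv_anti₀ hr (hAr z hz))
  rw [div_eq_inv_mul]
  exact this

theorem norm_far_le (g : Measure ℂ) [IsFiniteMeasure g] (r : ℝ) (hr : 0 < r) (p : ℂ) :
    ‖far g r p‖ ≤ g.real univ / r := by
  refine (norm_setIntegral_cauchy_le g r hr p _ (measurableSet_far r p) (fun z hz => hz)).trans ?_
  gcongr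
  · exact measure_ne_top _ _
  · exact subset_univ _

/-- total mass of a family -/
noncomputable def mass {ι : Type} [Fintype ι] (g : ι → Measure ℂ) : ℝ := ∑ k, (g k).real univ

/-- mass in a closed ball -/
noncomputable def bmass {ι : Type} [Fintype ι] (g : ι → Measure ℂ) (p : ℂ) (ρ : ℝ) : ℝ :=
  ∑ k, (g k).real (closedBall p ρ)

/-- the sum of the moduli of the truncated Cauchy integrals -/
noncomputable def sfar {ι : Type} [Fintype ι] (g : ι → Measure ℂ) (r : ℝ) (p : ℂ) : ℝ :=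
  ∑ k, ‖far (g k) r p‖

def cond {ι : Type} [Fintype ι] (g : ι → Measure ℂ) (h : ℝ) (p : ℂ) : Prop :=
  1 ≤ sfar g h p ∨ h ≤ bmass g p (4 * h)

section
variable {ι : Type} [Fintype ι] (g : ι → Measure ℂ) [∀ k, IsFiniteMeasure (g k)]

theorem mass_nonneg : 0 ≤ mass g := Finset.sum_nonneg fun _ _ => measureReal_nonneg
theorem bmass_nonneg (p : ℂ) (ρ : ℝ) : 0 ≤ bmass g p ρ := Finset.sum_nonneg fun _ _ => measureReal_nonneg

theorem bmass_le_mass (p : ℂ) (ρ : ℝ) : bmass g p ρ ≤ mass g := by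
  refine Finset.sum_le_sum fun k _ => ?_
  exact measureReal_mono (subset_univ _) (measure_ne_top _ _)

theorem bmass_mono (p : ℂ) {ρ ρ' : ℝ} (h : ρ ≤ ρ') : bmass g p ρ ≤ bmass g p ρ' := by
  refine Finset.sum_le_sum fun k _ => ?_
  exact measureReal_mono (closedBall_subset_closedBall h) (measure_ne_top _ _)

theorem sfar_le (r : ℝ) (hr : 0 < r) (p : ℂ) : sfar g r p ≤ mass g / r := by
  unfold sfar mass
  rw [Finset.sum_div]
  exact Finset.sum_le_sum fun k _ => norm_far_le (g k) r hr p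

theorem le_mass_of_cond (h : ℝ) (hh : 0 < h) (p : ℂ) (hc : cond g h p) : h ≤ mass g := by
  rcases hc with hc | hc
  · have := hc.trans (sfar_le g h hh p)
    rwa [le_div_iff₀ hh, one_mul] at this
  · exact hc.trans (bmass_le_mass g p _)

/-- one doubling step costs the density -/
theorem sfar_double (r : ℝ) (hr : 0 < r) (p : ℂ) :
    sfar g r p ≤ sfar g (2 * r) p + bmass g p (2 * r) / r := by
  unfold sfar bmass
  rw [Finset.sum_div, ← Finset.sum_add_distrib]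
  refine Finset.sum_le_sum fun k _ => ?_
  have hsplit : {z : ℂ | r ≤ ‖z - p‖} = {z : ℂ | 2 * r ≤ ‖z - p‖} ∪
      ({z : ℂ | r ≤ ‖z - p‖} \ {z : ℂ | 2 * r ≤ ‖z - p‖}) := by
    rw [union_diff_cancel]
    intro z hz
    have hz' : 2 * r ≤ ‖z - p‖ := hz
    show r ≤ ‖z - p‖
    linarith
  have hm1 := measurableSet_far r p
  have hm2 := measurableSet_far (2 * r) p
  have h1 : far (g k) r p = far (g k) (2 * r) p +
      ∫ z in ({z : ℂ | r ≤ ‖z - p‖} \ {z : ℂ | 2 * r ≤ ‖z - p‖}), (z - p)⁻¹ ∂(g k) := by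
    unfold far
    conv_lhs => rw [hsplit]
    refine setIntegral_union disjoint_sdiff_right (hm1.diff hm2) ?_ ?_
    · exact integrableOn_cauchy (g k) (2 * r) (by linarith) p _ hm2 (fun z hz => hz)
    · exact integrableOn_cauchy (g k) r hr p _ (hm1.diff hm2) (fun z hz => hz.1)
  rw [h1]
  refine (norm_add_le _ _).trans ?_
  gcongr
  refine (norm_setIntegral_cauchy_le (g k) r hr p _ (hm1.diff hm2) (fun z hz => hz.1)).trans ?_
  gcongr
  · exact measure_ne_top _ _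
  · intro z hz
    rw [mem_closedBall, dist_eq_norm]
    have : ¬ (2 * r ≤ ‖z - p‖) := hz.2
    linarith

/-- stopping radius -/
theorem exists_stop (lam h : ℝ) (hh : 0 < h) (hlam : lam ≤ 1 / 4) (p : ℂ)
    (hgrow : ∀ ρ, h ≤ ρ → bmass g p ρ ≤ lam * ρ) (h1 : 1 ≤ sfar g h p) :
    ∃ r, h ≤ r ∧ r ≤ 2 * mass g ∧ 1 / 2 ≤ sfar g r p ∧ sfar g r p ≤ 1 ∧
      sfar g (16 * r) p < 1 / 2 := by
  classical
  obtain ⟨n0, hn0⟩ : ∃ n0 : ℕ, ∀ n ≥ n0, sfar g (2 ^ n * h) p < 1 / 2 := by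
    obtain ⟨n0, hn0⟩ := pow_unbounded_of_one_lt (2 * mass g / h + 1) (one_lt_two : (1:ℝ) < 2)
    refine ⟨n0, fun n hn => ?_⟩
    have h2 : (2:ℝ) ^ n0 ≤ 2 ^ n := pow_le_pow_right₀ (by norm_num) hn
    have h3 : 0 < (2:ℝ) ^ n * h := by positivity
    refine (sfar_le g _ h3 p).trans_lt ?_
    rw [div_lt_iff₀ h3]
    have h4 : 2 * mass g / h < 2 ^ n := by linarith
    rw [div_lt_iff₀ hh] at h4
    linarith
  have hex : ∃ n : ℕ, ∀ m, n < m → sfar g (2 ^ m * h) p < 1 / 2 := ⟨n0, fun m hm => hn0 m hm.le⟩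
  set n := Nat.find hex with hn
  have hn1 := Nat.find_spec hex
  rw [← hn] at hn1
  have hge : 1 / 2 ≤ sfar g (2 ^ n * h) p := by
    rcases Nat.eq_zero_or_pos n with h0 | h0
    · rw [h0]; simp only [pow_zero, one_mul]; linarith
    · by_contra hcon
      push Not at hcon
      have := Nat.find_min hex (m := n - 1) (by omega)
      apply this
      intro m hm
      rcases Nat.lt_or_ge n m with h3 | h3
      · exact hn1 m h3
      · have : m = n := by omega
        rw [this]; exact hcon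
  have hrpos : 0 < (2:ℝ) ^ n * h := by positivity
  have hrh : h ≤ 2 ^ n * h := by
    have : (1:ℝ) ≤ 2 ^ n := one_le_pow₀ (by norm_num)
    nlinarith
  refine ⟨2 ^ n * h, hrh, ?_, hge, ?_, ?_⟩
  · have := hge.trans (sfar_le g _ hrpos p)
    rw [le_div_iff₀ hrpos] at this
    linarith
  · have h2 := sfar_double g (2 ^ n * h) hrpos p
    have h3 := hn1 (n + 1) (by omega)
    have h4 : (2:ℝ) ^ (n + 1) * h = 2 * (2 ^ n * h) := by ring
    rw [h4] at h3
    have h5 := hgrow (2 * (2 ^ n * h)) (by linarith)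
    have h6 : bmass g p (2 * (2 ^ n * h)) / (2 ^ n * h) ≤ 2 * lam := by
      rw [div_le_iff₀ hrpos]; linarith
    linarith
  · have h3 := hn1 (n + 4) (by omega)
    have h4 : (2:ℝ) ^ (n + 4) * h = 16 * (2 ^ n * h) := by ring
    rwa [h4] at h3

end

/-- leaving a ball along a chain, one direction -/
theorem exit_fwd (h : ℝ) (hh : 0 ≤ h) (p : ℕ → ℂ) (n : ℕ) (hp : ∀ i < n, ‖p (i + 1) - p i‖ ≤ h)
    (ρ : ℝ) (hρ : 0 ≤ ρ) (hex : ρ < ‖p n - p 0‖) :
    ∃ n' ≤ n, ρ < ‖p n' - p 0‖ ∧ ∀ m ≤ n', ‖p m - p 0‖ ≤ ρ + h := by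
  classical
  have hex' : ∃ k, ρ < ‖p k - p 0‖ := ⟨n, hex⟩
  set n' := Nat.find hex' with hn'
  have h1 := Nat.find_spec hex'
  rw [← hn'] at h1
  have hle : n' ≤ n := Nat.find_min' hex' hex
  have h2 : ∀ m < n', ‖p m - p 0‖ ≤ ρ := fun m hm => not_lt.1 (Nat.find_min hex' hm)
  refine ⟨n', hle, h1, ?_⟩
  intro m hm
  rcases Nat.lt_or_ge m n' with h3 | h3
  · linarith [h2 m h3]
  · have hmn : m = n' := by omega
    rcases Nat.eq_zero_or_pos m with h4 | h4
    · rw [h4]; simp; linarith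
    · obtain ⟨m', rfl⟩ : ∃ m', m = m' + 1 := ⟨m - 1, by omega⟩
      calc ‖p (m' + 1) - p 0‖ = ‖(p (m' + 1) - p m') + (p m' - p 0)‖ := by ring_nf
        _ ≤ ‖p (m' + 1) - p m'‖ + ‖p m' - p 0‖ := norm_add_le _ _
        _ ≤ ρ + h := by linarith [hp m' (by omega), h2 m' (by omega)]

/-- leaving a ball along a chain, in one of the two directions -/
theorem exit_chain (h : ℝ) (hh : 0 ≤ h) (p : ℕ → ℂ) (n : ℕ) (hp : ∀ i < n, ‖p (i + 1) - p i‖ ≤ h)
    (i : ℕ) (hi : i ≤ n) (ρ : ℝ) (hρ : 0 ≤ ρ) (hex : 2 * ρ < ‖p n - p 0‖) :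
    ∃ (n' : ℕ) (p' : ℕ → ℂ), p' 0 = p i ∧ (∀ m < n', ‖p' (m + 1) - p' m‖ ≤ h) ∧
      (∀ m ≤ n', ∃ j ≤ n, p' m = p j) ∧ ρ < ‖p' n' - p' 0‖ ∧ ∀ m ≤ n', ‖p' m - p' 0‖ ≤ ρ + h := by
  have hor : ρ < ‖p n - p i‖ ∨ ρ < ‖p 0 - p i‖ := by
    by_contra hcon
    push Not at hcon
    have : ‖p n - p 0‖ ≤ ‖p n - p i‖ + ‖p 0 - p i‖ := by
      calc ‖p n - p 0‖ = ‖(p n - p i) - (p 0 - p i)‖ := by ring_nf
        _ ≤ _ := norm_sub_le _ _
    linarith [hcon.1, hcon.2]
  rcases hor with hor | hor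
  · obtain ⟨n', hn', h1, h2⟩ := exit_fwd h hh (fun m => p (i + m)) (n - i)
      (fun m hm => by
        have := hp (i + m) (by omega)
        simpa [add_assoc] using this) ρ hρ (by
        simp only [add_zero]
        rw [show i + (n - i) = n by omega]; exact hor)
    refine ⟨n', fun m => p (i + m), by simp, ?_, ?_, h1, h2⟩
    · intro m hm
      have := hp (i + m) (by omega)
      simpa [add_assoc] using this
    · intro m hm
      exact ⟨i + m, by omega, rfl⟩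
  · have hstep : ∀ m < i, ‖p (i - (m + 1)) - p (i - m)‖ ≤ h := by
      intro m hm
      have h3 := hp (i - (m + 1)) (by omega)
      rw [show i - (m + 1) + 1 = i - m by omega] at h3
      rw [norm_sub_rev]; exact h3
    obtain ⟨n', hn', h1, h2⟩ := exit_fwd h hh (fun m => p (i - m)) i hstep ρ hρ (by
        simp only [Nat.sub_zero, Nat.sub_self]; exact hor)
    refine ⟨n', fun m => p (i - m), by simp, ?_, ?_, h1, h2⟩
    · intro m hm
      exact hstep m (by omega)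
    · intro m hm
      exact ⟨i - m, by omega, rfl⟩

end AC
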