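import Pool.Agent.Helper303.Ac1
open MeasureTheory Set Metric
namespace AC

/-- the statement with constant `s` for chains of step `h` and diameter at most `D` -/
def H (ι : Type) [Fintype ι] (h D s : ℝ) : Prop :=
  ∀ (g : ι → Measure ℂ), (∀ k, IsFiniteMeasure (g k)) → ∀ (n : ℕ) (p : ℕ → ℂ),
    (∀ i < n, ‖p (i + 1) - p i‖ ≤ h) → (∀ i ≤ n, cond g h (p i)) → ‖p n - p 0‖ ≤ D →
    s * ‖p n - p 0‖ ≤ mass g

theorem near_mass {ι : Type} [Fintype ι] (h D s : ℝ) (hh : 0 < h) (hs : 0 < s) (hH : H ι h D s)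
    (g : ι → Measure ℂ) [∀ k, IsFiniteMeasure (g k)] (n : ℕ) (p : ℕ → ℂ)
    (hp : ∀ i < n, ‖p (i + 1) - p i‖ ≤ h) (hc : ∀ i ≤ n, cond g h (p i))
    (i : ℕ) (hi : i ≤ n) (lam : ℝ) (hlam : 0 ≤ lam) (hN : (Fintype.card ι : ℝ) * lam ≤ 1)
    (hgrow : ∀ ρ, h ≤ ρ → bmass g (p i) ρ ≤ lam * ρ)
    (r : ℝ) (hr : h ≤ r) (hfar : sfar g (16 * r) (p i) < 1 / 2) (hrd : r < ‖p n - p 0‖)
    (hrD : 3 / 2 * r ≤ D) :
    s * r / 8 ≤ bmass g (p i) (16 * r) := by
  set x := p i with hx
  have hrpos : 0 < r := hh.trans_le hr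
  obtain ⟨n', p', hp0, hp1, hp2, hp3, hp4⟩ := exit_chain h hh.le p n hp i hi (r / 2) (by positivity)
    (by linarith)
  rw [hp0] at hp3 hp4
  set B : Set ℂ := ball x (16 * r) with hB
  have hBm : MeasurableSet B := measurableSet_ball
  set g' : ι → Measure ℂ := fun k => (4 : NNReal) • (g k).restrict B with hg'
  have hfin : ∀ k, IsFiniteMeasure (g' k) := fun k => by
    simp only [hg']; infer_instance
  have hBc : Bᶜ = {z : ℂ | 16 * r ≤ ‖z - x‖} := by
    ext z
    simp [hB, dist_eq_norm]
  have hcond : ∀ m ≤ n', cond g' h (p' m) := by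
    intro m hm
    obtain ⟨j, hj, hpj⟩ := hp2 m hm
    have hyx := hp4 m hm
    set y := p' m with hy
    rw [← hx] at hyx
    have hyx' : ‖y - x‖ ≤ 3 / 2 * r := by linarith
    rcases (hpj ▸ hc j hj : cond g h y) with h1 | h2
    · left
      have hkey : ∀ k, ‖far (g k) h y‖ ≤ ‖far (g' k) h y‖ / 4 + ‖far (g k) (16 * r) x‖ + lam / 4 := by
        intro k
        have hsub : Bᶜ ⊆ {z : ℂ | h ≤ ‖z - y‖} := by
          intro z hz
          rw [hBc] at hz
          have hz' : 16 * r ≤ ‖z - x‖ := hz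
          have : ‖z - x‖ ≤ ‖z - y‖ + ‖y - x‖ := by
            calc ‖z - x‖ = ‖(z - y) + (y - x)‖ := by ring_nf
              _ ≤ _ := norm_add_le _ _
          show h ≤ ‖z - y‖
          linarith
        have hm0 := measurableSet_far h y
        have hsplit : {z : ℂ | h ≤ ‖z - y‖} = ({z : ℂ | h ≤ ‖z - y‖} ∩ B) ∪ Bᶜ := by
          ext z
          constructor
          · intro hz
            by_cases hzB : z ∈ B
            · exact Or.inl ⟨hz, hzB⟩
            · exact Or.inr hzB
          · rintro (hz | hz)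
            · exact hz.1
            · exact hsub hz
        have hint1 : IntegrableOn (fun z => (z - y)⁻¹) ({z : ℂ | h ≤ ‖z - y‖} ∩ B) (g k) :=
          integrableOn_cauchy (g k) h hh y _ (hm0.inter hBm) (fun z hz => hz.1)
        have hint2 : IntegrableOn (fun z => (z - y)⁻¹) Bᶜ (g k) :=
          integrableOn_cauchy (g k) h hh y _ hBm.compl (fun z hz => hsub hz)
        have hint3 : IntegrableOn (fun z => (z - x)⁻¹) Bᶜ (g k) :=
          integrableOn_cauchy (g k) (16 * r) (by positivity) x _ hBm.compl (fun z hz => by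
            rw [hBc] at hz; exact hz)
        have e1 : far (g k) h y = (∫ z in ({z : ℂ | h ≤ ‖z - y‖} ∩ B), (z - y)⁻¹ ∂(g k)) +
            ∫ z in Bᶜ, (z - y)⁻¹ ∂(g k) := by
          unfold far
          conv_lhs => rw [hsplit]
          refine setIntegral_union ?_ hBm.compl hint1 hint2
          exact (disjoint_compl_right (a := B)).mono_left inter_subset_right
        have e2 : far (g' k) h y = (4 : ℝ) • ∫ z in ({z : ℂ | h ≤ ‖z - y‖} ∩ B), (z - y)⁻¹ ∂(g k) := by
          unfold far
          simp only [hg']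
          rw [Measure.restrict_smul, integral_smul_nnreal_measure, Measure.restrict_restrict hm0]
          rfl
        have e3 : ‖∫ z in ({z : ℂ | h ≤ ‖z - y‖} ∩ B), (z - y)⁻¹ ∂(g k)‖ = ‖far (g' k) h y‖ / 4 := by
          rw [e2, norm_smul]
          norm_num
        have e4 : (∫ z in Bᶜ, (z - y)⁻¹ ∂(g k)) = far (g k) (16 * r) x +
            ∫ z in Bᶜ, ((z - y)⁻¹ - (z - x)⁻¹) ∂(g k) := by
          rw [integral_sub hint2 hint3]
          have : far (g k) (16 * r) x = ∫ z in Bᶜ, (z - x)⁻¹ ∂(g k) := by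
            rw [hBc]; rfl
          rw [this]; ring
        have hgr := growth_integral (g k) x (16 * r) lam (by positivity) hlam (fun ρ hρ => by
          refine le_trans ?_ (hgrow ρ (by linarith))
          exact Finset.single_le_sum (f := fun k => (g k).real (closedBall x ρ))
            (fun _ _ => measureReal_nonneg) (Finset.mem_univ k))
        have hptw : ∀ z ∈ Bᶜ, ‖(z - y)⁻¹ - (z - x)⁻¹‖ ≤ 2 * r * (‖z - x‖ ^ 2)⁻¹ := by
          intro z hz
          have hz' : 16 * r ≤ ‖z - x‖ := by rw [hBc] at hz; exact hz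
          have hzx : 0 < ‖z - x‖ := by linarith
          have h5 : ‖z - x‖ ≤ ‖z - y‖ + ‖y - x‖ := by
            calc ‖z - x‖ = ‖(z - y) + (y - x)‖ := by ring_nf
              _ ≤ _ := norm_add_le _ _
          have hzy : 3 / 4 * ‖z - x‖ ≤ ‖z - y‖ := by linarith
          have hzy0 : 0 < ‖z - y‖ := by linarith
          have hne1 : z - x ≠ 0 := norm_pos_iff.1 hzx
          have hne2 : z - y ≠ 0 := norm_pos_iff.1 hzy0
          have e5 : (z - y)⁻¹ - (z - x)⁻¹ = (y - x) * ((z - y)⁻¹ * (z - x)⁻¹) := by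
            field_simp
            ring
          rw [e5, norm_mul, norm_mul, norm_inv, norm_inv]
          have h6 : ‖z - y‖⁻¹ ≤ (3 / 4 * ‖z - x‖)⁻¹ := inv_anti₀ (by positivity) hzy
          calc ‖y - x‖ * (‖z - y‖⁻¹ * ‖z - x‖⁻¹)
              ≤ (3 / 2 * r) * ((3 / 4 * ‖z - x‖)⁻¹ * ‖z - x‖⁻¹) := by gcongr
            _ = 2 * r * (‖z - x‖ ^ 2)⁻¹ := by
                field_simp
                ring
        have hint4 : IntegrableOn (fun z => 2 * r * (‖z - x‖ ^ 2)⁻¹) Bᶜ (g k) := by
          refine Integrable.const_mul ?_ _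
          refine Integrable.mono' (integrable_const (((16 * r) ^ 2)⁻¹ : ℝ)) ?_ ?_
          · exact (by fun_prop : Measurable fun z : ℂ => (‖z - x‖ ^ 2)⁻¹).aestronglyMeasurable
          · refine (ae_restrict_mem hBm.compl).mono fun z hz => ?_
            have hz' : 16 * r ≤ ‖z - x‖ := by rw [hBc] at hz; exact hz
            rw [Real.norm_of_nonneg (by positivity)]
            gcongr
        have e6 : ‖∫ z in Bᶜ, ((z - y)⁻¹ - (z - x)⁻¹) ∂(g k)‖ ≤ lam / 4 := by
          calc ‖∫ z in Bᶜ, ((z - y)⁻¹ - (z - x)⁻¹) ∂(g k)‖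
              ≤ ∫ z in Bᶜ, ‖(z - y)⁻¹ - (z - x)⁻¹‖ ∂(g k) := norm_integral_le_integral_norm _
            _ ≤ ∫ z in Bᶜ, 2 * r * (‖z - x‖ ^ 2)⁻¹ ∂(g k) :=
                setIntegral_mono_on (hint2.sub hint3).norm hint4 hBm.compl hptw
            _ = 2 * r * ∫ z in Bᶜ, (‖z - x‖ ^ 2)⁻¹ ∂(g k) := by rw [integral_const_mul]
            _ ≤ 2 * r * (2 * lam / (16 * r)) := by
                rw [hBc]
                gcongr
            _ = lam / 4 := by field_simp; ring
        calc ‖far (g k) h y‖ ≤ ‖far (g' k) h y‖ / 4 + ‖∫ z in Bᶜ, (z - y)⁻¹ ∂(g k)‖ := by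
              rw [e1, ← e3]; exact norm_add_le _ _
          _ ≤ ‖far (g' k) h y‖ / 4 + (‖far (g k) (16 * r) x‖ + lam / 4) := by
              gcongr
              rw [e4]
              exact (norm_add_le _ _).trans (by gcongr)
          _ = _ := by ring
      have hsum : sfar g h y ≤ sfar g' h y / 4 + sfar g (16 * r) x + (Fintype.card ι : ℝ) * (lam / 4) := by
        unfold sfar
        calc ∑ k, ‖far (g k) h y‖
            ≤ ∑ k, (‖far (g' k) h y‖ / 4 + ‖far (g k) (16 * r) x‖ + lam / 4) :=
              Finset.sum_le_sum fun k _ => hkey k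
          _ = _ := by
              rw [Finset.sum_add_distrib, Finset.sum_add_distrib, Finset.sum_div]
              simp
      linarith
    · right
      refine h2.trans ?_
      unfold bmass
      refine Finset.sum_le_sum fun k _ => ?_
      have hsub : closedBall y (4 * h) ⊆ B := by
        intro z hz
        rw [mem_closedBall, dist_eq_norm] at hz
        rw [hB, mem_ball, dist_eq_norm]
        have : ‖z - x‖ ≤ ‖z - y‖ + ‖y - x‖ := by
          calc ‖z - x‖ = ‖(z - y) + (y - x)‖ := by ring_nf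
            _ ≤ _ := norm_add_le _ _
        linarith
      have e7 : (g' k).real (closedBall y (4 * h)) = 4 * (g k).real (closedBall y (4 * h)) := by
        simp only [hg', Measure.real]
        rw [Measure.smul_apply, Measure.restrict_apply measurableSet_closedBall,
          inter_eq_left.2 hsub]
        simp [ENNReal.smul_def]
      rw [e7]
      have : 0 ≤ (g k).real (closedBall y (4 * h)) := measureReal_nonneg
      linarith
  have hfinal := hH g' hfin n' p' hp1 hcond (by
    rw [hp0]
    have := hp4 n' le_rfl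
    linarith)
  have hmass : mass g' ≤ 4 * bmass g x (16 * r) := by
    unfold mass bmass
    rw [Finset.mul_sum]
    refine Finset.sum_le_sum fun k _ => ?_
    have e8 : (g' k).real univ = 4 * (g k).real B := by
      simp only [hg', Measure.real]
      rw [Measure.smul_apply, Measure.restrict_apply MeasurableSet.univ, univ_inter]
      simp [ENNReal.smul_def]
    rw [e8]
    gcongr
    · exact measure_ne_top _ _
    · exact ball_subset_closedBall
  rw [hp0] at hfinal
  have h9 : s * (r / 2) ≤ s * ‖p' n' - x‖ := by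
    have := hp3.le
    gcongr
  linarith

end AC
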