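import Pool.Agent.Helper303.AcA1
open MeasureTheory Set
namespace AC

theorem csq_swap23 (x y z : ℂ) : csq x z y = csq x y z := by
  unfold csq
  have h1 : ((z - x) * (starRingEnd ℂ) (y - x)).im = -((y - x) * (starRingEnd ℂ) (z - x)).im := by
    simp [Complex.mul_im]; ring
  rw [h1, norm_sub_rev z y]
  congr 1
  · ring
  · ring

theorem csq_swap12 (x y z : ℂ) : csq y x z = csq x y z := by
  unfold csq
  have h1 : ((x - y) * (starRingEnd ℂ) (z - y)).im = -((y - x) * (starRingEnd ℂ) (z - x)).im := by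
    simp [Complex.mul_im]; ring
  rw [h1, norm_sub_rev y x]
  congr 1
  · ring
  · ring

theorem csq_le {c : ℝ} (hc : 0 < c) (x y z : ℂ) {p q : ℝ} (hp : 0 < p) (hq : 0 < q)
    (h1 : 3 * c / 4 * p ≤ ‖x - y‖) (h2 : 3 * c / 4 * (p + q) ≤ ‖x - z‖) :
    csq x y z ≤ 4 * (4 / (3 * c)) ^ 4 *
      (‖(z - y) / ((q : ℝ) : ℂ) - (y - x) / ((p : ℝ) : ℂ)‖ ^ 2 / (p + q) ^ 2) := by
  set D : ℂ := (z - y) / ((q : ℝ) : ℂ) - (y - x) / ((p : ℝ) : ℂ) with hD
  have hpc : ((p : ℝ) : ℂ) ≠ 0 := by exact_mod_cast hp.ne'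
  have hqc : ((q : ℝ) : ℂ) ≠ 0 := by exact_mod_cast hq.ne'
  have hu : y - x = ((p / q : ℝ) : ℂ) * (z - y) - ((p : ℝ) : ℂ) * D := by
    rw [hD]; push_cast; field_simp; ring
  have hN : ((y - x) * (starRingEnd ℂ) (z - x)).im = -(p * (D * (starRingEnd ℂ) (z - y)).im) := by
    have e1 : z - x = (z - y) + (y - x) := by ring
    have e2 : ((y - x) * (starRingEnd ℂ) (z - x)).im = ((y - x) * (starRingEnd ℂ) (z - y)).im := by
      rw [e1]; simp [Complex.mul_im]; ring
    rw [e2]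
    have e3 : ((((p / q : ℝ) : ℂ) * (z - y) - ((p : ℝ) : ℂ) * D) * (starRingEnd ℂ) (z - y)).im =
        -(p * (D * (starRingEnd ℂ) (z - y)).im) := by
      generalize z - y = a
      simp only [Complex.mul_im, Complex.mul_re, Complex.sub_im, Complex.sub_re, Complex.conj_re,
        Complex.conj_im, Complex.ofReal_re, Complex.ofReal_im]
      ring
    rw [← e3, ← hu]
  have hN2 : (((y - x) * (starRingEnd ℂ) (z - x)).im) ^ 2 ≤ p ^ 2 * ‖D‖ ^ 2 * ‖y - z‖ ^ 2 := by
    rw [hN]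
    have e1 : |(D * (starRingEnd ℂ) (z - y)).im| ≤ ‖D‖ * ‖y - z‖ := by
      refine (Complex.abs_im_le_norm _).trans ?_
      rw [norm_mul, RCLike.norm_conj, norm_sub_rev z y]
    have e2 : ((D * (starRingEnd ℂ) (z - y)).im) ^ 2 ≤ (‖D‖ * ‖y - z‖) ^ 2 := by
      rw [← sq_abs]
      exact pow_le_pow_left₀ (abs_nonneg _) e1 2
    have e3 : 0 ≤ p ^ 2 := sq_nonneg p
    nlinarith [mul_le_mul_of_nonneg_left e2 e3]
  have hX : 0 < ‖x - y‖ := lt_of_lt_of_le (by positivity) h1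
  have hZ : 0 < ‖x - z‖ := lt_of_lt_of_le (by positivity) h2
  rcases eq_or_lt_of_le (norm_nonneg (y - z)) with hY | hY
  · have : csq x y z = 0 := by unfold csq; rw [← hY]; simp
    rw [this]; positivity
  unfold csq
  rw [div_le_iff₀ (by positivity)]
  have k1 : (3 * c / 4) ^ 2 * p ^ 2 ≤ ‖x - y‖ ^ 2 := by
    rw [← mul_pow]; exact pow_le_pow_left₀ (by positivity) h1 2
  have k2 : (3 * c / 4) ^ 2 * (p + q) ^ 2 ≤ ‖x - z‖ ^ 2 := by
    rw [← mul_pow]; exact pow_le_pow_left₀ (by positivity) h2 2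
  have k3 : ((3 * c / 4) ^ 2 * p ^ 2) * ((3 * c / 4) ^ 2 * (p + q) ^ 2) ≤
      ‖x - y‖ ^ 2 * ‖x - z‖ ^ 2 := mul_le_mul k1 k2 (by positivity) (by positivity)
  calc (2 * ((y - x) * (starRingEnd ℂ) (z - x)).im) ^ 2
      = 4 * (((y - x) * (starRingEnd ℂ) (z - x)).im) ^ 2 := by ring
    _ ≤ 4 * (p ^ 2 * ‖D‖ ^ 2 * ‖y - z‖ ^ 2) := by linarith
    _ = 4 * (4 / (3 * c)) ^ 4 * (‖D‖ ^ 2 / (p + q) ^ 2) * ‖y - z‖ ^ 2 *
          (((3 * c / 4) ^ 2 * p ^ 2) * ((3 * c / 4) ^ 2 * (p + q) ^ 2)) := by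
        have : p + q ≠ 0 := by positivity
        field_simp
    _ ≤ 4 * (4 / (3 * c)) ^ 4 * (‖D‖ ^ 2 / (p + q) ^ 2) * ‖y - z‖ ^ 2 *
          (‖x - y‖ ^ 2 * ‖x - z‖ ^ 2) := mul_le_mul_of_nonneg_left k3 (by positivity)
    _ = _ := by ring

/-- combinatorial step -/
theorem curv_sum_aux_comb (T : Finset ℕ) (t : ℕ → ℝ) (f : ℕ → ℕ → ℕ → ℝ)
    (hf0 : ∀ i j k, i ∈ T → j ∈ T → k ∈ T → 0 ≤ f i j k)
    (h23 : ∀ i j k, f i k j = f i j k) (h12 : ∀ i j k, f j i k = f i j k)
    (ht : ∀ i ∈ T, ∀ j ∈ T, i ≠ j → t i ≠ t j) :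
    ∑ i ∈ T, ∑ j ∈ T.erase i, ∑ k ∈ (T.erase i).erase j, f i j k ≤
      6 * ∑ i ∈ T, ∑ j ∈ T, ∑ k ∈ T, (if t i < t j ∧ t j < t k then f i j k else 0) := by
  classical
  set g : ℕ → ℕ → ℕ → ℝ := fun i j k => if t i < t j ∧ t j < t k then f i j k else 0 with hg
  have hg0 : ∀ i ∈ T, ∀ j ∈ T, ∀ k ∈ T, 0 ≤ g i j k := by
    intro i hi j hj k hk
    simp only [hg]
    split_ifs
    · exact hf0 i j k hi hj hk
    · exact le_rfl
  set h : ℕ → ℕ → ℕ → ℝ := fun i j k =>
    g i j k + g i k j + g j i k + g j k i + g k i j + g k j i with hh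
  have hh0 : ∀ i ∈ T, ∀ j ∈ T, ∀ k ∈ T, 0 ≤ h i j k := by
    intro i hi j hj k hk
    have e1 := hg0 i hi j hj k hk
    have e2 := hg0 i hi k hk j hj
    have e3 := hg0 j hj i hi k hk
    have e4 := hg0 j hj k hk i hi
    have e5 := hg0 k hk i hi j hj
    have e6 := hg0 k hk j hj i hi
    simp only [hh]
    linarith
  have hle : ∀ i ∈ T, ∀ j ∈ T.erase i, ∀ k ∈ (T.erase i).erase j, f i j k ≤ h i j k := by
    intro i hi j hj k hk
    simp only [Finset.mem_erase] at hj hk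
    obtain ⟨hji, hj⟩ := hj
    obtain ⟨hkj, hki, hk⟩ := hk
    have n1 := ht j hj i hi hji
    have n2 := ht k hk j hj hkj
    have n3 := ht k hk i hi hki
    have e1 := hg0 i hi j hj k hk
    have e2 := hg0 i hi k hk j hj
    have e3 := hg0 j hj i hi k hk
    have e4 := hg0 j hj k hk i hi
    have e5 := hg0 k hk i hi j hj
    have e6 := hg0 k hk j hj i hi
    have s1 : f i k j = f i j k := h23 i j k
    have s2 : f j i k = f i j k := h12 i j k
    have s3 : f j k i = f i j k := by rw [h23 j i k, h12 i j k]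
    have s4 : f k i j = f i j k := by rw [h12 i k j, h23 i j k]
    have s5 : f k j i = f i j k := by rw [h12 j k i, h23 j i k, h12 i j k]
    have key : f i j k = g i j k ∨ f i j k = g i k j ∨ f i j k = g j i k ∨ f i j k = g j k i ∨
        f i j k = g k i j ∨ f i j k = g k j i := by
      simp only [hg, s1, s2, s3, s4, s5]
      rcases lt_or_gt_of_ne n1 with a1 | a1 <;> rcases lt_or_gt_of_ne n2 with a2 | a2 <;>
        rcases lt_or_gt_of_ne n3 with a3 | a3
      · right; right; right; right; right; rw [if_pos ⟨a2, a1⟩]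
      · exfalso; linarith
      · right; right; right; left; rw [if_pos ⟨a2, a3⟩]
      · right; right; left; rw [if_pos ⟨a1, a3⟩]
      · right; right; right; right; left; rw [if_pos ⟨a3, a1⟩]
      · right; left; rw [if_pos ⟨a3, a2⟩]
      · exfalso; linarith
      · left; rw [if_pos ⟨a1, a2⟩]
    simp only [hh]
    rcases key with e | e | e | e | e | e <;> rw [e] <;> linarith
  calc ∑ i ∈ T, ∑ j ∈ T.erase i, ∑ k ∈ (T.erase i).erase j, f i j k
      ≤ ∑ i ∈ T, ∑ j ∈ T.erase i, ∑ k ∈ (T.erase i).erase j, h i j k :=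
        Finset.sum_le_sum fun i hi => Finset.sum_le_sum fun j hj => Finset.sum_le_sum fun k hk =>
          hle i hi j hj k hk
    _ ≤ ∑ i ∈ T, ∑ j ∈ T, ∑ k ∈ T, h i j k := by
        refine Finset.sum_le_sum fun i hi => ?_
        refine (Finset.sum_le_sum (g := fun j => ∑ k ∈ T, h i j k) fun j hj => ?_).trans ?_
        · have hjT : j ∈ T := Finset.mem_of_mem_erase hj
          refine Finset.sum_le_sum_of_subset_of_nonneg ?_ fun k hk _ => hh0 i hi j hjT k hk
          exact (Finset.erase_subset _ _).trans (Finset.erase_subset _ _)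
        · refine Finset.sum_le_sum_of_subset_of_nonneg (Finset.erase_subset _ _) fun j hj _ => ?_
          exact Finset.sum_nonneg fun k hk => hh0 i hi j hj k hk
    _ = 6 * ∑ i ∈ T, ∑ j ∈ T, ∑ k ∈ T, g i j k := by
        simp only [hh, Finset.sum_add_distrib]
        have c1 : ∑ i ∈ T, ∑ j ∈ T, ∑ k ∈ T, g i k j = ∑ i ∈ T, ∑ j ∈ T, ∑ k ∈ T, g i j k :=
          Finset.sum_congr rfl fun i _ => Finset.sum_comm
        have c2 : ∑ i ∈ T, ∑ j ∈ T, ∑ k ∈ T, g j i k = ∑ i ∈ T, ∑ j ∈ T, ∑ k ∈ T, g i j k :=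
          Finset.sum_comm
        have c3 : ∑ i ∈ T, ∑ j ∈ T, ∑ k ∈ T, g j k i = ∑ i ∈ T, ∑ j ∈ T, ∑ k ∈ T, g i j k := by
          rw [Finset.sum_comm]
          exact Finset.sum_congr rfl fun i _ => Finset.sum_comm
        have c4 : ∑ i ∈ T, ∑ j ∈ T, ∑ k ∈ T, g k i j = ∑ i ∈ T, ∑ j ∈ T, ∑ k ∈ T, g i j k := by
          have : ∑ i ∈ T, ∑ j ∈ T, ∑ k ∈ T, g k i j = ∑ i ∈ T, ∑ k ∈ T, ∑ j ∈ T, g k i j :=
            Finset.sum_congr rfl fun i _ => Finset.sum_comm
          rw [this, Finset.sum_comm]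
        have c5 : ∑ i ∈ T, ∑ j ∈ T, ∑ k ∈ T, g k j i = ∑ i ∈ T, ∑ j ∈ T, ∑ k ∈ T, g i j k := by
          have : ∑ i ∈ T, ∑ j ∈ T, ∑ k ∈ T, g k j i = ∑ i ∈ T, ∑ k ∈ T, ∑ j ∈ T, g k j i :=
            Finset.sum_congr rfl fun i _ => Finset.sum_comm
          rw [this, Finset.sum_comm]
          exact Finset.sum_congr rfl fun i _ => Finset.sum_comm
        rw [c1, c2, c3, c4, c5]
        ring


/-- the interval around `t i` -/
def IvA (t l : ℕ → ℝ) (i : ℕ) : Set ℝ := Icc (t i - l i / 2) (t i + l i / 2)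

theorem iv_dist {T : Finset ℕ} {t l : ℕ → ℝ}
    (hsep : ∀ i ∈ T, ∀ j ∈ T, i ≠ j → (3 / 2) * (l i + l j) ≤ |t i - t j|)
    {i j : ℕ} (hi : i ∈ T) (hj : j ∈ T) (hij : i ≠ j) {s u : ℝ} (hs : s ∈ IvA t l i)
    (hu : u ∈ IvA t l j) : 2 / 3 * |t i - t j| ≤ |s - u| ∧ |s - u| ≤ 4 / 3 * |t i - t j| := by
  have h := hsep i hi j hj hij
  obtain ⟨a1, a2⟩ := hs
  obtain ⟨a3, a4⟩ := hu
  have e1 : |(s - u) - (t i - t j)| ≤ (l i + l j) / 2 := abs_le.2 ⟨by linarith, by linarith⟩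
  have e2 : |t i - t j| - |s - u| ≤ |(t i - t j) - (s - u)| := abs_sub_abs_le_abs_sub _ _
  have e3 : |s - u| - |t i - t j| ≤ |(s - u) - (t i - t j)| := abs_sub_abs_le_abs_sub _ _
  rw [abs_sub_comm (t i - t j) (s - u)] at e2
  constructor <;> linarith

theorem iv_disj {T : Finset ℕ} {t l : ℕ → ℝ} (hl : ∀ i ∈ T, 0 < l i)
    (hsep : ∀ i ∈ T, ∀ j ∈ T, i ≠ j → (3 / 2) * (l i + l j) ≤ |t i - t j|)
    {i j : ℕ} (hi : i ∈ T) (hj : j ∈ T) {s : ℝ} (hs : s ∈ IvA t l i)
    (hu : s ∈ IvA t l j) : i = j := by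
  by_contra hij
  have h1 := (iv_dist hsep hi hj hij hs hu).1
  have h2 := hsep i hi j hj hij
  rw [sub_self, abs_zero] at h1
  have := hl i hi
  have := hl j hj
  linarith

theorem iv_lt {T : Finset ℕ} {t l : ℕ → ℝ} (hl : ∀ i ∈ T, 0 < l i)
    (hsep : ∀ i ∈ T, ∀ j ∈ T, i ≠ j → (3 / 2) * (l i + l j) ≤ |t i - t j|)
    {i j : ℕ} (hi : i ∈ T) (hj : j ∈ T) (hij : t i < t j) {s u : ℝ} (hs : s ∈ IvA t l i)
    (hu : u ∈ IvA t l j) : s < u := by
  have hne : i ≠ j := by rintro rfl; exact lt_irrefl _ hij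
  have h := hsep i hi j hj hne
  rw [abs_sub_comm, abs_of_pos (by linarith)] at h
  obtain ⟨a1, a2⟩ := hs
  obtain ⟨a3, a4⟩ := hu
  have := hl i hi
  have := hl j hj
  linarith

/-- the extension -/
theorem exists_ext {T : Finset ℕ} {t l : ℕ → ℝ} {x : ℕ → ℂ} {S L : ℝ} (hL : 0 ≤ L) (hS : 0 < S)
    (hl : ∀ i ∈ T, 0 < l i) (hI : ∀ i ∈ T, 0 ≤ t i - l i / 2 ∧ t i + l i / 2 ≤ S)
    (hsep : ∀ i ∈ T, ∀ j ∈ T, i ≠ j → (3 / 2) * (l i + l j) ≤ |t i - t j|)
    (hlip : ∀ i ∈ T, ∀ j ∈ T, i ≠ j → ‖x i - x j‖ ≤ L * |t i - t j|) :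
    ∃ P : ℝ → ℂ, (∀ s t, ‖P s - P t‖ ≤ 3 * L * |s - t|) ∧ (∀ s ≤ 0, P s = P 0) ∧
      (∀ s, S ≤ s → P s = P S) ∧ ∀ i ∈ T, ∀ s ∈ IvA t l i, P s = x i := by
  classical
  set E : Set ℝ := {s | ∃ i ∈ T, s ∈ IvA t l i} with hE
  let p0 : ℝ → ℂ := fun s => if h : ∃ i ∈ T, s ∈ IvA t l i then x h.choose else 0
  have hp0 : ∀ i ∈ T, ∀ s ∈ IvA t l i, p0 s = x i := by
    intro i hi s hs
    have h : ∃ i ∈ T, s ∈ IvA t l i := ⟨i, hi, hs⟩
    have h1 : h.choose = i := iv_disj hl hsep h.choose_spec.1 hi h.choose_spec.2 hs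
    simp only [p0, dif_pos h, h1]
  have hp0L : ∀ s ∈ E, ∀ u ∈ E, ‖p0 s - p0 u‖ ≤ 3 / 2 * L * |s - u| := by
    rintro s ⟨i, hi, hs⟩ u ⟨j, hj, hu⟩
    rw [hp0 i hi s hs, hp0 j hj u hu]
    by_cases hij : i = j
    · rw [hij, sub_self, norm_zero]; positivity
    · have h1 := (iv_dist hsep hi hj hij hs hu).1
      have h2 := hlip i hi j hj hij
      nlinarith
  let K : NNReal := ⟨3 / 2 * L, by positivity⟩
  have hK : (K : ℝ) = 3 / 2 * L := rfl
  have hre : LipschitzOnWith K (fun s => (p0 s).re) E := by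
    apply LipschitzOnWith.of_dist_le_mul
    intro s hs u hu
    rw [Real.dist_eq, Real.dist_eq, hK, ← Complex.sub_re]
    exact (Complex.abs_re_le_norm _).trans (hp0L s hs u hu)
  have him : LipschitzOnWith K (fun s => (p0 s).im) E := by
    apply LipschitzOnWith.of_dist_le_mul
    intro s hs u hu
    rw [Real.dist_eq, Real.dist_eq, hK, ← Complex.sub_im]
    exact (Complex.abs_im_le_norm _).trans (hp0L s hs u hu)
  obtain ⟨g1, hg1, hg1e⟩ := hre.extend_real
  obtain ⟨g2, hg2, hg2e⟩ := him.extend_real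
  have hg1' : ∀ s u, |g1 s - g1 u| ≤ 3 / 2 * L * |s - u| := fun s u => by
    have := hg1.dist_le_mul s u
    rwa [Real.dist_eq, Real.dist_eq, hK] at this
  have hg2' : ∀ s u, |g2 s - g2 u| ≤ 3 / 2 * L * |s - u| := fun s u => by
    have := hg2.dist_le_mul s u
    rwa [Real.dist_eq, Real.dist_eq, hK] at this
  let pr : ℝ → ℝ := fun s => max 0 (min s S)
  have hpr : ∀ s u, |pr s - pr u| ≤ |s - u| := by
    intro s u
    have e1 := abs_max_sub_max_le_max 0 (min s S) 0 (min u S)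
    have e2 := abs_min_sub_min_le_max s S u S
    simp only [sub_self, abs_zero] at e1 e2
    rw [max_eq_right (abs_nonneg (min s S - min u S))] at e1
    rw [max_eq_left (abs_nonneg (s - u))] at e2
    exact e1.trans e2
  refine ⟨fun s => (⟨g1 (pr s), g2 (pr s)⟩ : ℂ), ?_, ?_, ?_, ?_⟩
  · intro s u
    have e1 : ‖(⟨g1 (pr s), g2 (pr s)⟩ : ℂ) - ⟨g1 (pr u), g2 (pr u)⟩‖ ≤
        |g1 (pr s) - g1 (pr u)| + |g2 (pr s) - g2 (pr u)| := by
      have := Complex.norm_le_abs_re_add_abs_im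
        ((⟨g1 (pr s), g2 (pr s)⟩ : ℂ) - ⟨g1 (pr u), g2 (pr u)⟩)
      simpa using this
    refine e1.trans ?_
    have e2 := hg1' (pr s) (pr u)
    have e3 := hg2' (pr s) (pr u)
    have e4 := mul_le_mul_of_nonneg_left (hpr s u) (show 0 ≤ 3 / 2 * L by positivity)
    linarith
  · intro s hs
    have : pr s = pr 0 := by
      simp only [pr]
      rw [min_eq_left (by linarith), min_eq_left hS.le, max_eq_left hs, max_self]
    simp only [this]
  · intro s hs
    have : pr s = pr S := by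
      simp only [pr]
      rw [min_eq_right hs, min_self]
    simp only [this]
  · intro i hi s hs
    have h1 := hI i hi
    have h2 : pr s = s := by
      simp only [pr]
      rw [min_eq_left (by linarith [hs.2]), max_eq_right (by linarith [hs.1])]
    have hsE : s ∈ E := ⟨i, hi, hs⟩
    have e1 : g1 s = (p0 s).re := (hg1e hsE).symm
    have e2 : g2 s = (p0 s).im := (hg2e hsE).symm
    simp only [h2, e1, e2]
    rw [← hp0 i hi s hs]

/-- integrand in the variables `s`, `w`, `v` -/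
noncomputable def KA (P : ℝ → ℂ) (s w v : ℝ) : ENNReal :=
  ENNReal.ofReal (‖(P w - P v) / (((w - v : ℝ)) : ℂ) - (P v - P s) / ((v - s : ℝ) : ℂ)‖ ^ 2 /
    (w - s) ^ 2)

theorem KA_meas {P : ℝ → ℂ} (hP : Continuous P) :
    Measurable (fun z : ℝ × ℝ × ℝ => KA P z.1 z.2.1 z.2.2) := by
  unfold KA
  have h1 := hP.measurable
  fun_prop

def RA (a b : ℝ) : Set (ℝ × ℝ × ℝ) :=
  {z | a < z.2.1 - z.1 ∧ z.2.1 - z.1 < b ∧ z.1 < z.2.2 ∧ z.2.2 < z.2.1}

theorem RA_meas (a b : ℝ) : MeasurableSet (RA a b) := by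
  have m1 : Measurable (fun z : ℝ × ℝ × ℝ => z.2.1 - z.1) := by fun_prop
  have m2 : Measurable (fun z : ℝ × ℝ × ℝ => z.1) := by fun_prop
  have m3 : Measurable (fun z : ℝ × ℝ × ℝ => z.2.2) := by fun_prop
  have m4 : Measurable (fun z : ℝ × ℝ × ℝ => z.2.1) := by fun_prop
  have s1 := measurableSet_lt (measurable_const (a := a)) m1
  have s2 := measurableSet_lt m1 (measurable_const (a := b))
  have s3 := measurableSet_lt m2 m3
  have s4 := measurableSet_lt m3 m4
  exact s1.inter (s2.inter (s3.inter s4))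

theorem scaleA (H : ℝ → ENNReal) (hH : Measurable H) (β : ℝ) {ε : ℝ} (hε : 0 < ε) :
    ∫⁻ b, H b = ENNReal.ofReal ε * ∫⁻ v, H (β + ε * v) := by
  rw [← lintegral_add_left_eq_self (fun x => H x) β]
  have h1 := Real.smul_map_volume_mul_left hε.ne'
  have hm : Measurable (fun x : ℝ => ε * x) := by fun_prop
  conv_lhs => rw [← h1]
  rw [lintegral_smul_measure, lintegral_map (by fun_prop) hm, abs_of_pos hε]
  rfl

/-- the energy integrand -/
noncomputable def EA (P : ℝ → ℂ) (θ u s : ℝ) : ENNReal :=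
  ENNReal.ofReal (‖(P (s + u) - P (s + θ * u)) / (((1 - θ) * u : ℝ) : ℂ)
          - (P (s + θ * u) - P s) / ((θ * u : ℝ) : ℂ)‖ ^ 2 / u)

theorem change_var {P : ℝ → ℂ} (hP : Continuous P) {a b : ℝ} (ha : 0 < a) :
    ∫⁻ z, (RA a b).indicator (fun z : ℝ × ℝ × ℝ => KA P z.1 z.2.1 z.2.2) z =
      ∫⁻ θ in Ioo (0:ℝ) 1, ∫⁻ u in Ioo a b, ∫⁻ s : ℝ, EA P θ u s := by
  classical
  have hPm := hP.measurable
  have hm1 : Measurable ((RA a b).indicator (fun z : ℝ × ℝ × ℝ => KA P z.1 z.2.1 z.2.2)) :=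
    (KA_meas hP).indicator (RA_meas a b)
  -- the integrand in `s, u, θ`
  let H : ℝ → ℝ → ℝ → ENNReal := fun s u θ =>
    (Ioo (0 : ℝ) 1).indicator (fun θ => (Ioo a b).indicator (fun u => EA P θ u s) u) θ
  have hEm : Measurable (fun z : ℝ × ℝ × ℝ => EA P z.2.2 z.2.1 z.1) := by
    unfold EA
    fun_prop
  have hHm : Measurable (fun z : ℝ × ℝ × ℝ => H z.1 z.2.1 z.2.2) := by
    have e : (fun z : ℝ × ℝ × ℝ => H z.1 z.2.1 z.2.2) =
        {z : ℝ × ℝ × ℝ | z.2.2 ∈ Ioo (0 : ℝ) 1 ∧ z.2.1 ∈ Ioo a b}.indicator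
          (fun z : ℝ × ℝ × ℝ => EA P z.2.2 z.2.1 z.1) := by
      funext z
      by_cases h1 : z.2.2 ∈ Ioo (0 : ℝ) 1
      · by_cases h2 : z.2.1 ∈ Ioo a b
        · simp only [H]
          rw [indicator_of_mem h1, indicator_of_mem h2, indicator_of_mem]
          exact ⟨h1, h2⟩
        · simp only [H]
          rw [indicator_of_mem h1, indicator_of_notMem h2, indicator_of_notMem]
          exact fun h => h2 h.2
      · simp only [H]
        rw [indicator_of_notMem h1, indicator_of_notMem]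
        exact fun h => h1 h.1
    rw [e]
    refine hEm.indicator ?_
    exact MeasurableSet.inter (measurable_snd.snd measurableSet_Ioo)
      (measurable_snd.fst measurableSet_Ioo)
  have step1 : ∫⁻ z, (RA a b).indicator (fun z : ℝ × ℝ × ℝ => KA P z.1 z.2.1 z.2.2) z =
      ∫⁻ s, ∫⁻ u, ∫⁻ θ, H s u θ := by
    rw [Measure.volume_eq_prod, lintegral_prod _ hm1.aemeasurable]
    refine lintegral_congr fun s => ?_
    have hm2 : Measurable (fun y : ℝ × ℝ => (RA a b).indicator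
        (fun z : ℝ × ℝ × ℝ => KA P z.1 z.2.1 z.2.2) (s, y)) := by
      have : Measurable (fun y : ℝ × ℝ => ((s, y) : ℝ × ℝ × ℝ)) := by fun_prop
      exact hm1.comp this
    rw [Measure.volume_eq_prod, lintegral_prod _ hm2.aemeasurable]
    rw [← lintegral_add_left_eq_self (fun w => ∫⁻ v, (RA a b).indicator
        (fun z : ℝ × ℝ × ℝ => KA P z.1 z.2.1 z.2.2) (s, w, v)) s]
    refine lintegral_congr fun u => ?_
    by_cases hu : u ∈ Ioo a b
    · have hu0 : 0 < u := ha.trans hu.1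
      have hm3 : Measurable (fun v : ℝ => (RA a b).indicator
          (fun z : ℝ × ℝ × ℝ => KA P z.1 z.2.1 z.2.2) (s, s + u, v)) := by
        have : Measurable (fun v : ℝ => ((s, s + u, v) : ℝ × ℝ × ℝ)) := by fun_prop
        exact hm1.comp this
      have hm4 : Measurable (fun θ : ℝ => (RA a b).indicator
          (fun z : ℝ × ℝ × ℝ => KA P z.1 z.2.1 z.2.2) (s, s + u, s + u * θ)) := by
        have : Measurable (fun θ : ℝ => s + u * θ) := by fun_prop
        exact hm3.comp this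
      rw [scaleA _ hm3 s hu0, ← lintegral_const_mul _ hm4]
      refine lintegral_congr fun θ => ?_
      by_cases hθ : θ ∈ Ioo (0 : ℝ) 1
      · have hR : ((s, s + u, s + u * θ) : ℝ × ℝ × ℝ) ∈ RA a b := by
          refine ⟨?_, ?_, ?_, ?_⟩
          · show a < s + u - s; linarith [hu.1]
          · show s + u - s < b; linarith [hu.2]
          · show s < s + u * θ; nlinarith [hθ.1]
          · show s + u * θ < s + u; nlinarith [hθ.2]
        simp only [H]
        rw [indicator_of_mem hR, indicator_of_mem hθ, indicator_of_mem hu]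
        unfold KA EA
        rw [← ENNReal.ofReal_mul hu0.le]
        congr 1
        have e1 : s + u - (s + u * θ) = (1 - θ) * u := by ring
        have e2 : s + u * θ - s = θ * u := by ring
        have e3 : s + u - s = u := by ring
        have e4 : s + u * θ = s + θ * u := by ring
        simp only
        rw [e1, e2, e3, e4]
        field_simp
      · have hR : ((s, s + u, s + u * θ) : ℝ × ℝ × ℝ) ∉ RA a b := by
          rintro ⟨-, -, h3, h4⟩
          apply hθ
          have h3' : s < s + u * θ := h3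
          have h4' : s + u * θ < s + u := h4
          constructor
          · by_contra h; rw [not_lt] at h; nlinarith
          · by_contra h; rw [not_lt] at h; nlinarith
        simp only [H]
        rw [indicator_of_notMem hR, indicator_of_notMem hθ, mul_zero]
    · have e1 : ∀ v, (RA a b).indicator
          (fun z : ℝ × ℝ × ℝ => KA P z.1 z.2.1 z.2.2) (s, s + u, v) = 0 := by
        intro v
        rw [indicator_of_notMem]
        rintro ⟨h1, h2, -, -⟩
        have h1' : a < s + u - s := h1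
        have h2' : s + u - s < b := h2
        exact hu ⟨by linarith, by linarith⟩
      have e2 : ∀ θ, H s u θ = 0 := by
        intro θ
        simp only [H]
        by_cases hθ : θ ∈ Ioo (0 : ℝ) 1
        · rw [indicator_of_mem hθ, indicator_of_notMem hu]
        · rw [indicator_of_notMem hθ]
      simp only [e1, e2]
  have step2 : ∫⁻ s, ∫⁻ u, ∫⁻ θ, H s u θ = ∫⁻ θ, ∫⁻ u, ∫⁻ s, H s u θ := by
    have s1 : ∀ s, ∫⁻ u, ∫⁻ θ, H s u θ = ∫⁻ θ, ∫⁻ u, H s u θ := by
      intro s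
      refine lintegral_lintegral_swap (f := fun u θ => H s u θ) ?_
      have : Measurable (fun y : ℝ × ℝ => ((s, y.1, y.2) : ℝ × ℝ × ℝ)) := by fun_prop
      exact (hHm.comp this).aemeasurable
    have s2 : ∫⁻ s, ∫⁻ θ, ∫⁻ u, H s u θ = ∫⁻ θ, ∫⁻ s, ∫⁻ u, H s u θ := by
      refine lintegral_lintegral_swap (f := fun s θ => ∫⁻ u, H s u θ) ?_
      have h1 : Measurable (fun z : (ℝ × ℝ) × ℝ => H z.1.1 z.2 z.1.2) := by
        have : Measurable (fun z : (ℝ × ℝ) × ℝ => ((z.1.1, z.2, z.1.2) : ℝ × ℝ × ℝ)) := by fun_prop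
        exact hHm.comp this
      exact (Measurable.lintegral_prod_right' h1).aemeasurable
    have s3 : ∀ θ, ∫⁻ s, ∫⁻ u, H s u θ = ∫⁻ u, ∫⁻ s, H s u θ := by
      intro θ
      refine lintegral_lintegral_swap (f := fun s u => H s u θ) ?_
      have : Measurable (fun y : ℝ × ℝ => ((y.1, y.2, θ) : ℝ × ℝ × ℝ)) := by fun_prop
      exact (hHm.comp this).aemeasurable
    rw [lintegral_congr s1, s2, lintegral_congr s3]
  rw [step1, step2, ← lintegral_indicator measurableSet_Ioo]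
  refine lintegral_congr fun θ => ?_
  by_cases hθ : θ ∈ Ioo (0 : ℝ) 1
  · rw [indicator_of_mem hθ, ← lintegral_indicator measurableSet_Ioo]
    refine lintegral_congr fun u => ?_
    by_cases hu : u ∈ Ioo a b
    · rw [indicator_of_mem hu]
      refine lintegral_congr fun s => ?_
      simp only [H]
      rw [indicator_of_mem hθ, indicator_of_mem hu]
    · rw [indicator_of_notMem hu]
      have : ∀ s, H s u θ = 0 := by
        intro s
        simp only [H]
        rw [indicator_of_mem hθ, indicator_of_notMem hu]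
      simp only [this, lintegral_zero]
  · rw [indicator_of_notMem hθ]
    have : ∀ u s, H s u θ = 0 := by
      intro u s
      simp only [H]
      rw [indicator_of_notMem hθ]
    simp only [this, lintegral_zero]

theorem box_vol (t l : ℕ → ℝ) (i j k : ℕ) :
    volume (IvA t l i ×ˢ (IvA t l k ×ˢ IvA t l j)) =
      ENNReal.ofReal (l i) * (ENNReal.ofReal (l k) * ENNReal.ofReal (l j)) := by
  unfold IvA
  rw [Measure.volume_eq_prod, Measure.prod_prod, Measure.volume_eq_prod, Measure.prod_prod,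
    Real.volume_Icc, Real.volume_Icc, Real.volume_Icc]
  have e : ∀ i, t i + l i / 2 - (t i - l i / 2) = l i := by intro i; ring
  rw [e, e, e]

theorem box_meas (t l : ℕ → ℝ) (i j k : ℕ) :
    MeasurableSet (IvA t l i ×ˢ (IvA t l k ×ˢ IvA t l j)) :=
  measurableSet_Icc.prod (measurableSet_Icc.prod measurableSet_Icc)

/-- triple curvature sum of a chord-arc family of points, from the continuous energy bound -/
theorem curv_sum
    (energy_bound : ∀ (L S : ℝ) (_ : 0 ≤ L) (_ : 0 < S) (P : ℝ → ℂ)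
      (_ : ∀ s t, ‖P s - P t‖ ≤ L * |s - t|) (_ : ∀ s ≤ 0, P s = P 0) (_ : ∀ s, S ≤ s → P s = P S)
      (a b : ℝ) (_ : 0 < a) (_ : a ≤ S) (_ : a ≤ b),
      ∫⁻ θ in Ioo (0:ℝ) 1, ∫⁻ u in Ioo a b, ∫⁻ s : ℝ,
        ENNReal.ofReal (‖(P (s + u) - P (s + θ * u)) / (((1 - θ) * u : ℝ) : ℂ)
          - (P (s + θ * u) - P s) / ((θ * u : ℝ) : ℂ)‖ ^ 2 / u) ≤ ENNReal.ofReal (8 * L ^ 2 * S))
    (c L : ℝ) (hc : 0 < c) (hL : 0 ≤ L) :
    ∃ C : ℝ, 0 < C ∧ ∀ (S : ℝ) (T : Finset ℕ) (t l : ℕ → ℝ) (x : ℕ → ℂ), 0 < S →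
      (∀ i ∈ T, 0 < l i) → (∀ i ∈ T, 0 ≤ t i - l i / 2 ∧ t i + l i / 2 ≤ S) →
      (∀ i ∈ T, ∀ j ∈ T, i ≠ j → (3 / 2) * (l i + l j) ≤ |t i - t j|) →
      (∀ i ∈ T, ∀ j ∈ T, i ≠ j → ‖x i - x j‖ ≤ L * |t i - t j|) →
      (∀ i ∈ T, ∀ j ∈ T, i ≠ j → c * |t i - t j| ≤ ‖x i - x j‖) →
      ∑ i ∈ T, ∑ j ∈ T.erase i, ∑ k ∈ (T.erase i).erase j,
        l i * l j * l k * csq (x i) (x j) (x k) ≤ C * S := by
  classical
  set C0 : ℝ := 4 * (4 / (3 * c)) ^ 4 with hC0
  have hC0p : 0 < C0 := by positivity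
  refine ⟨6 * (C0 * (8 * (3 * L) ^ 2)) + 1, by positivity, ?_⟩
  intro S T t l x hS hl hI hsep hlip hlow
  rcases T.eq_empty_or_nonempty with rfl | hT
  · simp; positivity
  obtain ⟨i0, hi0, hmin⟩ := T.exists_min_image l hT
  obtain ⟨P, hP1, hP2, hP3, hP4⟩ := exists_ext hL hS hl hI hsep hlip
  have hPc : Continuous P := by
    have : LipschitzWith ⟨3 * L, by positivity⟩ P := by
      apply LipschitzWith.of_dist_le_mul
      intro s u
      rw [dist_eq_norm, Real.dist_eq]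
      exact hP1 s u
    exact this.continuous
  set a : ℝ := min S (l i0) with ha
  have ha0 : 0 < a := lt_min hS (hl i0 hi0)
  have haS : a ≤ S := min_le_left _ _
  have hal : ∀ i ∈ T, a ≤ l i := fun i hi => (min_le_right _ _).trans (hmin i hi)
  have htne : ∀ i ∈ T, ∀ j ∈ T, i ≠ j → t i ≠ t j := by
    intro i hi j hj hij h
    have h1 := hsep i hi j hj hij
    rw [h, sub_self, abs_zero] at h1
    linarith [hl i hi, hl j hj]
  have hcomb := curv_sum_aux_comb T t (fun i j k => l i * l j * l k * csq (x i) (x j) (x k))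
    (fun i j k hi hj hk => by
      have := hl i hi
      have := hl j hj
      have := hl k hk
      have := csq_nonneg (x i) (x j) (x k)
      positivity)
    (fun i j k => by rw [csq_swap23]; ring)
    (fun i j k => by rw [csq_swap12]; ring) htne
  beta_reduce at hcomb
  refine hcomb.trans ?_
  -- the sum over increasing triples
  set G : ℕ × ℕ × ℕ → ℝ := fun τ => if t τ.1 < t τ.2.1 ∧ t τ.2.1 < t τ.2.2 then
    l τ.1 * l τ.2.1 * l τ.2.2 * csq (x τ.1) (x τ.2.1) (x τ.2.2) else 0 with hG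
  set TT : Finset (ℕ × ℕ × ℕ) := T ×ˢ (T ×ˢ T) with hTT
  have hsumG : ∑ i ∈ T, ∑ j ∈ T, ∑ k ∈ T, (if t i < t j ∧ t j < t k then
      l i * l j * l k * csq (x i) (x j) (x k) else 0) = ∑ τ ∈ TT, G τ := by
    rw [hTT, Finset.sum_product]
    refine Finset.sum_congr rfl fun i _ => ?_
    rw [Finset.sum_product]
  rw [hsumG]
  have hG0 : ∀ τ ∈ TT, 0 ≤ G τ := by
    intro τ hτ
    rw [hTT, Finset.mem_product, Finset.mem_product] at hτ
    simp only [hG]
    split_ifs
    · have := hl _ hτ.1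
      have := hl _ hτ.2.1
      have := hl _ hτ.2.2
      have := csq_nonneg (x τ.1) (x τ.2.1) (x τ.2.2)
      positivity
    · exact le_rfl
  let Φ : ℝ × ℝ × ℝ → ENNReal := fun z => KA P z.1 z.2.1 z.2.2
  have hΦm : Measurable Φ := KA_meas hPc
  let Bx : ℕ × ℕ × ℕ → Set (ℝ × ℝ × ℝ) := fun τ =>
    if t τ.1 < t τ.2.1 ∧ t τ.2.1 < t τ.2.2 then
      IvA t l τ.1 ×ˢ (IvA t l τ.2.2 ×ˢ IvA t l τ.2.1) else ∅
  have hBm : ∀ τ, MeasurableSet (Bx τ) := by
    intro τ
    simp only [Bx]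
    split_ifs
    · exact box_meas t l _ _ _
    · exact MeasurableSet.empty
  -- each term
  have hterm : ∀ τ ∈ TT, ENNReal.ofReal (G τ) ≤
      ENNReal.ofReal C0 * ∫⁻ z, (Bx τ).indicator Φ z := by
    intro τ hτ
    rw [hTT, Finset.mem_product, Finset.mem_product] at hτ
    obtain ⟨hi, hj, hk⟩ := hτ
    obtain ⟨i, j, k⟩ := τ
    simp only at hi hj hk
    by_cases hinc : t i < t j ∧ t j < t k
    · have hik : t i < t k := hinc.1.trans hinc.2
      have hli := hl i hi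
      have hlj := hl j hj
      have hlk := hl k hk
      have hGe : G (i, j, k) = l i * l j * l k * csq (x i) (x j) (x k) := by
        simp only [hG, hinc, and_self, if_true]
      have hBe : Bx (i, j, k) = IvA t l i ×ˢ (IvA t l k ×ˢ IvA t l j) := by
        simp only [Bx, hinc, and_self, if_true]
      rw [hGe, ← lintegral_const_mul _ (hΦm.indicator (hBm _)), hBe]
      have e1 : ENNReal.ofReal (l i * l j * l k * csq (x i) (x j) (x k)) =
          ∫⁻ z, (IvA t l i ×ˢ (IvA t l k ×ˢ IvA t l j)).indicator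
            (fun _ => ENNReal.ofReal (csq (x i) (x j) (x k))) z := by
        rw [lintegral_indicator (box_meas t l i j k), lintegral_const, Measure.restrict_apply_univ,
          box_vol, ← ENNReal.ofReal_mul hlk.le, ← ENNReal.ofReal_mul hli.le,
          ← ENNReal.ofReal_mul (csq_nonneg _ _ _)]
        congr 1
        ring
      rw [e1]
      refine lintegral_mono fun z => ?_
      by_cases hz : z ∈ IvA t l i ×ˢ (IvA t l k ×ˢ IvA t l j)
      · rw [indicator_of_mem hz, indicator_of_mem hz]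
        obtain ⟨s, w, v⟩ := z
        obtain ⟨hs, hw, hv⟩ := hz
        simp only at hs hw hv
        have hsv : s < v := iv_lt hl hsep hi hj hinc.1 hs hv
        have hvw : v < w := iv_lt hl hsep hj hk hinc.2 hv hw
        have hneij : i ≠ j := by rintro rfl; exact lt_irrefl _ hinc.1
        have hneik : i ≠ k := by rintro rfl; exact lt_irrefl _ hik
        have d1 := (iv_dist hsep hi hj hneij hs hv).2
        have d2 := (iv_dist hsep hi hk hneik hs hw).2
        rw [abs_sub_comm s v, abs_of_pos (by linarith : 0 < v - s)] at d1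
        rw [abs_sub_comm s w, abs_of_pos (by linarith : 0 < w - s)] at d2
        have k1 : 3 * c / 4 * (v - s) ≤ ‖x i - x j‖ := by
          refine le_trans ?_ (hlow i hi j hj hneij)
          nlinarith
        have k2 : 3 * c / 4 * ((v - s) + (w - v)) ≤ ‖x i - x k‖ := by
          refine le_trans ?_ (hlow i hi k hk hneik)
          nlinarith
        have hcl := csq_le hc (x i) (x j) (x k) (p := v - s) (q := w - v) (by linarith)
          (by linarith) k1 k2
        show ENNReal.ofReal (csq (x i) (x j) (x k)) ≤ ENNReal.ofReal C0 * KA P s w v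
        unfold KA
        rw [← ENNReal.ofReal_mul hC0p.le, hP4 i hi s hs, hP4 j hj v hv, hP4 k hk w hw]
        apply ENNReal.ofReal_le_ofReal
        have e2 : v - s + (w - v) = w - s := by ring
        rw [e2] at hcl
        exact hcl
      · rw [indicator_of_notMem hz]
        exact bot_le
    · have hGe : G (i, j, k) = 0 := by
        simp only [hG, hinc, if_false]
      rw [hGe, ENNReal.ofReal_zero]
      exact bot_le
  -- disjointness
  have hdisj : ∀ z, ∑ τ ∈ TT, (Bx τ).indicator Φ z ≤ (RA a (S + 1)).indicator Φ z := by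
    intro z
    by_cases hex : ∃ τ ∈ TT, z ∈ Bx τ
    · obtain ⟨τ, hτ, hz⟩ := hex
      have huniq : ∀ τ' ∈ TT, τ' ≠ τ → (Bx τ').indicator Φ z = 0 := by
        intro τ' hτ' hne
        rw [indicator_of_notMem]
        intro hz'
        apply hne
        rw [hTT, Finset.mem_product, Finset.mem_product] at hτ hτ'
        simp only [Bx] at hz hz'
        split_ifs at hz with c1
        · split_ifs at hz' with c2
          · have q1 := iv_disj hl hsep hτ'.1 hτ.1 hz'.1 hz.1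
            have q2 := iv_disj hl hsep hτ'.2.2 hτ.2.2 hz'.2.1 hz.2.1
            have q3 := iv_disj hl hsep hτ'.2.1 hτ.2.1 hz'.2.2 hz.2.2
            exact Prod.ext q1 (Prod.ext q3 q2)
          · exact absurd hz' (notMem_empty _)
        · exact absurd hz (notMem_empty _)
      rw [Finset.sum_eq_single_of_mem τ hτ huniq, indicator_of_mem hz]
      rw [hTT, Finset.mem_product, Finset.mem_product] at hτ
      obtain ⟨hi, hj, hk⟩ := hτ
      have hzR : z ∈ RA a (S + 1) := by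
        simp only [Bx] at hz
        split_ifs at hz with hinc
        · obtain ⟨hs, hw, hv⟩ := hz
          have hik := hinc.1.trans hinc.2
          have hsv := iv_lt hl hsep hi hj hinc.1 hs hv
          have hvw := iv_lt hl hsep hj hk hinc.2 hv hw
          have hneik : τ.1 ≠ τ.2.2 := by intro h; rw [h] at hik; exact lt_irrefl _ hik
          have d2 := (iv_dist hsep hi hk hneik hs hw).1
          have d3 := hsep _ hi _ hk hneik
          rw [abs_sub_comm z.1 z.2.1, abs_of_pos (by linarith : 0 < z.2.1 - z.1)] at d2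
          have h1 := hal _ hi
          have h2 := hl _ hk
          have h3 := (hI _ hi).1
          have h4 := (hI _ hk).2
          refine ⟨?_, ?_, hsv, hvw⟩
          · linarith
          · have := hs.1
            have := hw.2
            linarith
        · exact absurd hz (notMem_empty _)
      rw [indicator_of_mem hzR]
    · have : ∀ τ ∈ TT, (Bx τ).indicator Φ z = 0 := by
        intro τ hτ
        rw [indicator_of_notMem]
        exact fun h => hex ⟨τ, hτ, h⟩
      rw [Finset.sum_eq_zero this]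
      exact bot_le
  have hfinal : ENNReal.ofReal (∑ τ ∈ TT, G τ) ≤
      ENNReal.ofReal (C0 * (8 * (3 * L) ^ 2 * S)) := by
    rw [ENNReal.ofReal_sum_of_nonneg hG0]
    calc ∑ τ ∈ TT, ENNReal.ofReal (G τ)
        ≤ ∑ τ ∈ TT, ENNReal.ofReal C0 * ∫⁻ z, (Bx τ).indicator Φ z :=
          Finset.sum_le_sum hterm
      _ = ENNReal.ofReal C0 * ∫⁻ z, ∑ τ ∈ TT, (Bx τ).indicator Φ z := by
          rw [← Finset.mul_sum, lintegral_finsetSum _ (fun τ _ => hΦm.indicator (hBm τ))]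
      _ ≤ ENNReal.ofReal C0 * ∫⁻ z, (RA a (S + 1)).indicator Φ z :=
          mul_le_mul' le_rfl (lintegral_mono hdisj)
      _ ≤ ENNReal.ofReal C0 * ENNReal.ofReal (8 * (3 * L) ^ 2 * S) := by
          refine mul_le_mul' le_rfl ?_
          rw [change_var hPc ha0]
          exact energy_bound (3 * L) S (by positivity) hS P hP1 hP2 hP3 a (S + 1) ha0 haS
            (by linarith)
      _ = _ := by rw [← ENNReal.ofReal_mul hC0p.le]
  have hreal := (ENNReal.ofReal_le_ofReal_iff (by positivity)).1 hfinal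
  nlinarith

theorem curv_sum' (c L : ℝ) (hc : 0 < c) (hL : 0 ≤ L) :
    ∃ C : ℝ, 0 < C ∧ ∀ (S : ℝ) (T : Finset ℕ) (t l : ℕ → ℝ) (x : ℕ → ℂ), 0 < S →
      (∀ i ∈ T, 0 < l i) → (∀ i ∈ T, 0 ≤ t i - l i / 2 ∧ t i + l i / 2 ≤ S) →
      (∀ i ∈ T, ∀ j ∈ T, i ≠ j → (3 / 2) * (l i + l j) ≤ |t i - t j|) →
      (∀ i ∈ T, ∀ j ∈ T, i ≠ j → ‖x i - x j‖ ≤ L * |t i - t j|) →
      (∀ i ∈ T, ∀ j ∈ T, i ≠ j → c * |t i - t j| ≤ ‖x i - x j‖) →
      ∑ i ∈ T, ∑ j ∈ T.erase i, ∑ k ∈ (T.erase i).erase j,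
        l i * l j * l k * csq (x i) (x j) (x k) ≤ C * S :=
  curv_sum A1.energy_bound c L hc hL
end AC
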