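import Pool.Agent.Helper303.Ac0
open MeasureTheory Set
namespace AC


theorem swap2_9711 (S : Finset ℕ) (f : ℕ → ℕ → ℝ) :
    ∑ i ∈ S, ∑ j ∈ S.erase i, f i j = ∑ i ∈ S, ∑ j ∈ S.erase i, f j i := by
  apply Finset.sum_comm'
  intro x y
  simp only [Finset.mem_erase]
  constructor
  · rintro ⟨h1, h2, h3⟩
    exact ⟨⟨Ne.symm h2, h1⟩, h3⟩
  · rintro ⟨⟨h1, h2⟩, h3⟩
    exact ⟨h2, Ne.symm h1, h3⟩

theorem swap3a_9711 (S : Finset ℕ) (f : ℕ → ℕ → ℕ → ℝ) :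
    ∑ i ∈ S, ∑ j ∈ S.erase i, ∑ k ∈ (S.erase i).erase j, f i j k =
      ∑ i ∈ S, ∑ j ∈ S.erase i, ∑ k ∈ (S.erase i).erase j, f i k j :=
  Finset.sum_congr rfl fun i _ => swap2_9711 (S.erase i) (f i)

theorem swap3b_9711 (S : Finset ℕ) (f : ℕ → ℕ → ℕ → ℝ) :
    ∑ i ∈ S, ∑ j ∈ S.erase i, ∑ k ∈ (S.erase i).erase j, f i j k =
      ∑ i ∈ S, ∑ j ∈ S.erase i, ∑ k ∈ (S.erase i).erase j, f j i k := by
  rw [swap2_9711 S (fun i j => ∑ k ∈ (S.erase i).erase j, f i j k)]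
  apply Finset.sum_congr rfl
  intro i _
  apply Finset.sum_congr rfl
  intro j _
  rw [Finset.erase_right_comm]

theorem sqsum_9711 (S : Finset ℕ) (c : ℕ → ℂ) :
    ‖∑ j ∈ S, c j‖ ^ 2 = ∑ j ∈ S, ‖c j‖ ^ 2 +
      ∑ j ∈ S, ∑ k ∈ S.erase j, (c j * (starRingEnd ℂ) (c k)).re := by
  have h1 : ‖∑ j ∈ S, c j‖ ^ 2 = ((∑ j ∈ S, c j) * (starRingEnd ℂ) (∑ j ∈ S, c j)).re := by
    rw [Complex.mul_conj, Complex.ofReal_re, Complex.normSq_eq_norm_sq]
  rw [h1, map_sum, Finset.sum_mul_sum, ← Finset.sum_add_distrib, Complex.re_sum]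
  apply Finset.sum_congr rfl
  intro j hj
  rw [Complex.re_sum, ← Finset.add_sum_erase S _ hj]
  congr 1
  rw [Complex.mul_conj, Complex.ofReal_re, Complex.normSq_eq_norm_sq]

theorem real_mel_9711 (a b c d : ℝ) (h1 : a * a + b * b ≠ 0) (h2 : c * c + d * d ≠ 0)
    (h3 : (a - c) * (a - c) + (b - d) * (b - d) ≠ 0) :
    (2 * (b * c - a * d)) ^ 2 /
      ((a * a + b * b) * ((a - c) * (a - c) + (b - d) * (b - d)) * (c * c + d * d)) =
    2 * ((a * c + b * d) / ((a * a + b * b) * (c * c + d * d))) +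
    2 * ((a * (a - c) + b * (b - d)) /
      ((a * a + b * b) * ((a - c) * (a - c) + (b - d) * (b - d)))) +
    2 * ((-(c * (a - c) + d * (b - d))) /
      ((c * c + d * d) * ((a - c) * (a - c) + (b - d) * (b - d)))) := by
  obtain ⟨N1, hN1⟩ : ∃ N1, N1 = a * a + b * b := ⟨_, rfl⟩
  obtain ⟨N2, hN2⟩ : ∃ N2, N2 = c * c + d * d := ⟨_, rfl⟩
  obtain ⟨N3, hN3⟩ : ∃ N3, N3 = (a - c) * (a - c) + (b - d) * (b - d) := ⟨_, rfl⟩
  rw [← hN1] at h1 ⊢
  rw [← hN2] at h2 ⊢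
  rw [← hN3] at h3 ⊢
  field_simp
  rw [hN1, hN2, hN3]
  ring

theorem melnikov_9711 (z x y : ℂ) (hzx : z ≠ x) (hzy : z ≠ y) (hxy : x ≠ y) :
    csq z x y = 2 * (((z - x) * (starRingEnd ℂ) (z - y))⁻¹).re +
      2 * (((x - z) * (starRingEnd ℂ) (x - y))⁻¹).re +
      2 * (((y - z) * (starRingEnd ℂ) (y - x))⁻¹).re := by
  obtain ⟨u, hu⟩ : ∃ u, u = x - z := ⟨_, rfl⟩
  obtain ⟨v, hv⟩ : ∃ v, v = y - z := ⟨_, rfl⟩
  have hu0 : u ≠ 0 := by rw [hu]; exact sub_ne_zero.2 (Ne.symm hzx)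
  have hv0 : v ≠ 0 := by rw [hv]; exact sub_ne_zero.2 (Ne.symm hzy)
  have huv : u - v ≠ 0 := by
    rw [hu, hv]
    intro h
    apply hxy
    linear_combination h
  unfold csq
  have e1 : z - x = -u := by rw [hu]; ring
  have e2 : z - y = -v := by rw [hv]; ring
  have e3 : x - y = u - v := by rw [hu, hv]; ring
  have e4 : y - x = -(u - v) := by rw [hu, hv]; ring
  rw [e1, e2, e3, e4, ← hu, ← hv, map_neg, map_neg, norm_neg, norm_neg, neg_mul_neg,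
    ← Complex.normSq_eq_norm_sq, ← Complex.normSq_eq_norm_sq, ← Complex.normSq_eq_norm_sq,
    Complex.inv_re, Complex.inv_re, Complex.inv_re, map_mul, map_mul, map_mul,
    Complex.normSq_neg, Complex.normSq_conj, Complex.normSq_conj]
  have n1 : u.re * u.re + u.im * u.im ≠ 0 := by
    rw [← Complex.normSq_apply]; exact (Complex.normSq_pos.2 hu0).ne'
  have n2 : v.re * v.re + v.im * v.im ≠ 0 := by
    rw [← Complex.normSq_apply]; exact (Complex.normSq_pos.2 hv0).ne'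
  have n3 : (u.re - v.re) * (u.re - v.re) + (u.im - v.im) * (u.im - v.im) ≠ 0 := by
    rw [← Complex.sub_re, ← Complex.sub_im, ← Complex.normSq_apply]
    exact (Complex.normSq_pos.2 huv).ne'
  have key := real_mel_9711 u.re u.im v.re v.im n1 n2 n3
  simp only [Complex.normSq_apply, Complex.mul_re, Complex.mul_im, Complex.conj_re,
    Complex.conj_im, Complex.sub_re, Complex.sub_im, Complex.neg_re, Complex.neg_im]
  rw [show u.re * -v.im + u.im * v.re = u.im * v.re - u.re * v.im by ring,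
    show u.re * v.re - u.im * -v.im = u.re * v.re + u.im * v.im by ring,
    show u.re * (u.re - v.re) - u.im * -(u.im - v.im) =
      u.re * (u.re - v.re) + u.im * (u.im - v.im) by ring,
    show v.re * -(u.re - v.re) - v.im * -(-(u.im - v.im)) =
      -(v.re * (u.re - v.re) + v.im * (u.im - v.im)) by ring]
  exact key

/-- truncated kernel -/
noncomputable def FF_9711 (ρ : ℝ) (p z : ℂ) : ℂ := if ρ ≤ ‖z - p‖ then (z - p)⁻¹ else 0

theorem mset_9711 (ρ : ℝ) (p : ℂ) : MeasurableSet {z : ℂ | ρ ≤ ‖z - p‖} :=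
  measurableSet_le measurable_const (by fun_prop)

theorem FF_meas_9711 (ρ : ℝ) (p : ℂ) : Measurable (FF_9711 ρ p) :=
  Measurable.ite (mset_9711 ρ p) (by fun_prop) measurable_const

theorem FF_bound_9711 {ρ : ℝ} (hρ : 0 < ρ) (p z : ℂ) : ‖FF_9711 ρ p z‖ ≤ 1 / ρ := by
  unfold FF_9711
  split_ifs with h
  · rw [norm_inv, ← one_div]
    exact one_div_le_one_div_of_le hρ h
  · rw [norm_zero]
    positivity

theorem FF_int_9711 (g : Measure ℂ) [IsFiniteMeasure g] {ρ : ℝ} (hρ : 0 < ρ) (p : ℂ) :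
    Integrable (FF_9711 ρ p) g :=
  Integrable.of_bound (FF_meas_9711 ρ p).aestronglyMeasurable (1 / ρ)
    (Filter.Eventually.of_forall (FF_bound_9711 hρ p))

theorem FFsq_int_9711 (g : Measure ℂ) [IsFiniteMeasure g] {ρ : ℝ} (hρ : 0 < ρ) (p : ℂ) :
    Integrable (fun z => ‖FF_9711 ρ p z‖ ^ 2) g := by
  refine Integrable.of_bound ((FF_meas_9711 ρ p).norm.pow_const 2).aestronglyMeasurable
    ((1 / ρ) ^ 2) (Filter.Eventually.of_forall fun z => ?_)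
  rw [Real.norm_of_nonneg (by positivity)]
  exact pow_le_pow_left₀ (norm_nonneg _) (FF_bound_9711 hρ p z) 2

theorem far_eq_9711 (g : Measure ℂ) (ρ : ℝ) (p : ℂ) : far g ρ p = ∫ z, FF_9711 ρ p z ∂g := by
  unfold far
  rw [← integral_indicator (mset_9711 ρ p)]
  congr 1

theorem FFsq_eq_9711 (g : Measure ℂ) (ρ : ℝ) (p : ℂ) :
    ∫ z, ‖FF_9711 ρ p z‖ ^ 2 ∂g = ∫ z in {z : ℂ | ρ ≤ ‖z - p‖}, (‖z - p‖ ^ 2)⁻¹ ∂g := by
  rw [← integral_indicator (mset_9711 ρ p)]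
  congr 1
  funext z
  unfold FF_9711
  by_cases h : ρ ≤ ‖z - p‖
  · rw [if_pos h, indicator_of_mem (show z ∈ {z : ℂ | ρ ≤ ‖z - p‖} from h), norm_inv, inv_pow]
  · rw [if_neg h, indicator_of_notMem (show z ∉ {z : ℂ | ρ ≤ ‖z - p‖} from h)]
    simp

/-- the sum over the other points -/
noncomputable def TT_9711 (S : Finset ℕ) (x : ℕ → ℂ) (r : ℕ → ℝ) (i : ℕ) : ℂ :=
  ∑ j ∈ S.erase i, (r j : ℂ) * (x i - x j)⁻¹

theorem T_bound_9711 {A1 A3 : ℝ} (S : Finset ℕ) (x : ℕ → ℂ) (r : ℕ → ℝ)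
    (hr : ∀ i ∈ S, 0 < r i) (hne : ∀ i ∈ S, ∀ j ∈ S, i ≠ j → x i ≠ x j)
    (h1 : ∀ i ∈ S, ∑ j ∈ S.erase i, r j / ‖x i - x j‖ ^ 2 ≤ A1 / r i)
    (h3 : ∑ i ∈ S, ∑ j ∈ S.erase i, ∑ k ∈ (S.erase i).erase j,
        r i * r j * r k * csq (x i) (x j) (x k) ≤ A3 * ∑ i ∈ S, r i) :
    ∑ i ∈ S, r i * ‖TT_9711 S x r i‖ ^ 2 ≤ (A1 + A3 / 6) * ∑ i ∈ S, r i := by
  obtain ⟨h, hh⟩ : ∃ h : ℕ → ℕ → ℕ → ℝ, h = fun i j k =>
    r i * r j * r k * (((x i - x j) * (starRingEnd ℂ) (x i - x k))⁻¹).re := ⟨_, rfl⟩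
  have hexp : ∑ i ∈ S, r i * ‖TT_9711 S x r i‖ ^ 2 =
      ∑ i ∈ S, ∑ j ∈ S.erase i, r i * r j ^ 2 / ‖x i - x j‖ ^ 2 +
      ∑ i ∈ S, ∑ j ∈ S.erase i, ∑ k ∈ (S.erase i).erase j, h i j k := by
    rw [← Finset.sum_add_distrib]
    apply Finset.sum_congr rfl
    intro i hi
    unfold TT_9711
    rw [sqsum_9711, mul_add, Finset.mul_sum, Finset.mul_sum]
    congr 1
    · apply Finset.sum_congr rfl
      intro j _
      rw [norm_mul, norm_inv, Complex.norm_real, mul_pow, Real.norm_eq_abs, sq_abs, inv_pow]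
      ring
    · apply Finset.sum_congr rfl
      intro j _
      rw [Finset.mul_sum]
      apply Finset.sum_congr rfl
      intro k _
      rw [hh]
      simp only
      have e1 : (r j : ℂ) * (x i - x j)⁻¹ * (starRingEnd ℂ) ((r k : ℂ) * (x i - x k)⁻¹) =
        ((r j * r k : ℝ) : ℂ) * ((x i - x j) * (starRingEnd ℂ) (x i - x k))⁻¹ := by
        rw [map_mul, Complex.conj_ofReal, map_inv₀, mul_inv]
        push_cast
        ring
      rw [e1, Complex.re_ofReal_mul]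
      ring
  have hfirst : ∑ i ∈ S, ∑ j ∈ S.erase i, r i * r j ^ 2 / ‖x i - x j‖ ^ 2 ≤
      A1 * ∑ i ∈ S, r i := by
    rw [swap2_9711, Finset.mul_sum]
    apply Finset.sum_le_sum
    intro i hi
    have hri := hr i hi
    have e1 : ∑ j ∈ S.erase i, r j * r i ^ 2 / ‖x j - x i‖ ^ 2 =
      r i ^ 2 * ∑ j ∈ S.erase i, r j / ‖x i - x j‖ ^ 2 := by
      rw [Finset.mul_sum]
      apply Finset.sum_congr rfl
      intro j _
      rw [norm_sub_rev]
      ring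
    rw [e1]
    calc r i ^ 2 * ∑ j ∈ S.erase i, r j / ‖x i - x j‖ ^ 2 ≤ r i ^ 2 * (A1 / r i) :=
          mul_le_mul_of_nonneg_left (h1 i hi) (by positivity)
      _ = A1 * r i := by field_simp
  have hsec : 6 * ∑ i ∈ S, ∑ j ∈ S.erase i, ∑ k ∈ (S.erase i).erase j, h i j k =
      ∑ i ∈ S, ∑ j ∈ S.erase i, ∑ k ∈ (S.erase i).erase j,
        r i * r j * r k * csq (x i) (x j) (x k) := by
    have e0 : ∑ i ∈ S, ∑ j ∈ S.erase i, ∑ k ∈ (S.erase i).erase j,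
        r i * r j * r k * csq (x i) (x j) (x k) =
        ∑ i ∈ S, ∑ j ∈ S.erase i, ∑ k ∈ (S.erase i).erase j,
        (2 * h i j k + 2 * h j i k + 2 * h k i j) := by
      apply Finset.sum_congr rfl
      intro i hi
      apply Finset.sum_congr rfl
      intro j hj
      apply Finset.sum_congr rfl
      intro k hk
      rw [Finset.mem_erase] at hj hk
      rw [Finset.mem_erase] at hk
      rw [melnikov_9711 (x i) (x j) (x k) (hne i hi j hj.2 (Ne.symm hj.1))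
        (hne i hi k hk.2.2 (Ne.symm hk.2.1)) (hne j hj.2 k hk.2.2 (Ne.symm hk.1)), hh]
      simp only
      ring
    have e1 := swap3b_9711 S h
    have e2 := swap3a_9711 S (fun i j k => h j i k)
    rw [e0]
    simp only [Finset.sum_add_distrib, ← Finset.mul_sum]
    rw [← e2, ← e1]
    ring
  rw [hexp]
  linarith

theorem off_9711 (ρ σ : ℝ) (hρ : 0 < ρ) (hσ : 0 < σ) (p q z : ℂ) (hpq : p ≠ q) :
    (FF_9711 ρ p z * (starRingEnd ℂ) (FF_9711 σ q z)).re =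
      (1 / 2) * (if ρ ≤ ‖z - p‖ ∧ σ ≤ ‖z - q‖ then csq z p q else 0) +
      (FF_9711 ρ p z * (starRingEnd ℂ) (p - q)⁻¹).re +
      (FF_9711 σ q z * (starRingEnd ℂ) (q - p)⁻¹).re -
      ((if σ ≤ ‖z - q‖ then 0 else FF_9711 ρ p z) * (starRingEnd ℂ) (p - q)⁻¹).re -
      ((if ρ ≤ ‖z - p‖ then 0 else FF_9711 σ q z) * (starRingEnd ℂ) (q - p)⁻¹).re := by
  by_cases h1 : ρ ≤ ‖z - p‖
  · by_cases h2 : σ ≤ ‖z - q‖
    · have hzp : z ≠ p := by
        rintro rfl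
        rw [sub_self, norm_zero] at h1
        linarith
      have hzq : z ≠ q := by
        rintro rfl
        rw [sub_self, norm_zero] at h2
        linarith
      have hm := melnikov_9711 z p q hzp hzq hpq
      unfold FF_9711
      rw [if_pos h1, if_pos h2, if_pos ⟨h1, h2⟩, if_pos h2, if_pos h1, hm]
      have e1 : (z - p)⁻¹ * (starRingEnd ℂ) (z - q)⁻¹ =
        ((z - p) * (starRingEnd ℂ) (z - q))⁻¹ := by rw [map_inv₀, mul_inv]
      have e2 : (z - p)⁻¹ * (starRingEnd ℂ) (p - q)⁻¹ =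
        -((p - z) * (starRingEnd ℂ) (p - q))⁻¹ := by
        rw [map_inv₀, mul_inv, ← neg_sub z p, inv_neg]; ring
      have e3 : (z - q)⁻¹ * (starRingEnd ℂ) (q - p)⁻¹ =
        -((q - z) * (starRingEnd ℂ) (q - p))⁻¹ := by
        rw [map_inv₀, mul_inv, ← neg_sub z q, inv_neg]; ring
      rw [e1, e2, e3, Complex.neg_re, Complex.neg_re, zero_mul, zero_mul, Complex.zero_re]
      ring
    · have hF : FF_9711 σ q z = 0 := by unfold FF_9711; rw [if_neg h2]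
      rw [hF, if_neg (fun h => h2 h.2), if_neg h2, if_pos h1]
      simp
  · have hF : FF_9711 ρ p z = 0 := by unfold FF_9711; rw [if_neg h1]
    rw [hF, if_neg (fun h => h1 h.1), if_neg h1]
    by_cases h2 : σ ≤ ‖z - q‖
    · rw [if_pos h2]
      simp
    · have hF2 : FF_9711 σ q z = 0 := by unfold FF_9711; rw [if_neg h2]
      rw [hF2, if_neg h2]
      simp

theorem E_bound_9711 {ρ σ : ℝ} (hρ : 0 < ρ) (hσ : 0 < σ) {p q : ℂ} (z : ℂ)
    (h : 2 * (ρ + σ) ≤ ‖p - q‖) :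
    -((if σ ≤ ‖z - q‖ then 0 else FF_9711 ρ p z) * (starRingEnd ℂ) (p - q)⁻¹).re ≤
      if σ ≤ ‖z - q‖ then 0 else 2 / ‖p - q‖ ^ 2 := by
  split_ifs with h2
  · simp
  · push Not at h2
    have hpq : 0 < ‖p - q‖ := by linarith
    have h3 : ‖p - q‖ / 2 ≤ ‖z - p‖ := by
      have h4 : ‖p - q‖ ≤ ‖z - p‖ + ‖z - q‖ := by
        calc ‖p - q‖ = ‖(z - q) - (z - p)‖ := by congr 1; ring
          _ ≤ ‖z - q‖ + ‖z - p‖ := norm_sub_le _ _
          _ = ‖z - p‖ + ‖z - q‖ := add_comm _ _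
      linarith
    have h5 : ‖FF_9711 ρ p z‖ ≤ 2 / ‖p - q‖ := by
      unfold FF_9711
      split_ifs with h6
      · rw [norm_inv, inv_le_comm₀ (by linarith) (by positivity), inv_div]
        exact h3
      · rw [norm_zero]; positivity
    have h7 : ‖FF_9711 ρ p z * (starRingEnd ℂ) (p - q)⁻¹‖ ≤ 2 / ‖p - q‖ ^ 2 := by
      rw [norm_mul, RCLike.norm_conj, norm_inv]
      calc ‖FF_9711 ρ p z‖ * ‖p - q‖⁻¹ ≤ 2 / ‖p - q‖ * ‖p - q‖⁻¹ :=
            mul_le_mul_of_nonneg_right h5 (by positivity)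
        _ = 2 / ‖p - q‖ ^ 2 := by field_simp
    have h8 := (abs_le.1 ((Complex.abs_re_le_norm
      (FF_9711 ρ p z * (starRingEnd ℂ) (p - q)⁻¹)).trans h7)).1
    linarith

theorem one_ball_9711 (S : Finset ℕ) (x : ℕ → ℂ) (r : ℕ → ℝ) (hr : ∀ i ∈ S, 0 < r i)
    (hsep : ∀ i ∈ S, ∀ j ∈ S, i ≠ j → 2 * (r i + r j) ≤ ‖x i - x j‖) (z : ℂ) (c : ℝ)
    (hc : 0 ≤ c) : ∑ j ∈ S, (if r j ≤ ‖z - x j‖ then 0 else c) ≤ c := by
  by_cases hex : ∃ j ∈ S, ‖z - x j‖ < r j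
  · obtain ⟨j, hj, hlt⟩ := hex
    rw [Finset.sum_eq_single j]
    · rw [if_neg (not_le.2 hlt)]
    · intro i hi hij
      rw [if_pos]
      by_contra h
      push Not at h
      have h1 := hsep i hi j hj hij
      have h2 : ‖x i - x j‖ ≤ ‖z - x i‖ + ‖z - x j‖ := by
        calc ‖x i - x j‖ = ‖(z - x j) - (z - x i)‖ := by congr 1; ring
          _ ≤ ‖z - x j‖ + ‖z - x i‖ := norm_sub_le _ _
          _ = ‖z - x i‖ + ‖z - x j‖ := add_comm _ _
      have h3 := hr i hi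
      have h4 := hr j hj
      linarith
    · intro h
      exact absurd hj h
  · push Not at hex
    rw [Finset.sum_eq_zero]
    · exact hc
    · intro j hj
      rw [if_pos (hex j hj)]

theorem PW_9711 {A1 A2 : ℝ} (hA1 : 0 ≤ A1) (S : Finset ℕ) (x : ℕ → ℂ) (r : ℕ → ℝ)
    (hr : ∀ i ∈ S, 0 < r i)
    (hsep : ∀ i ∈ S, ∀ j ∈ S, i ≠ j → 2 * (r i + r j) ≤ ‖x i - x j‖)
    (h1 : ∀ i ∈ S, ∑ j ∈ S.erase i, r j / ‖x i - x j‖ ^ 2 ≤ A1 / r i) (z : ℂ)
    (h2 : ∑ i ∈ S, ∑ j ∈ S.erase i,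
        (if r i ≤ ‖z - x i‖ ∧ r j ≤ ‖z - x j‖ then r i * r j * csq z (x i) (x j) else 0) ≤ A2) :
    ‖∑ i ∈ S, (r i : ℂ) * FF_9711 (r i) (x i) z‖ ^ 2 ≤
      (∑ i ∈ S, r i ^ 2 * ‖FF_9711 (r i) (x i) z‖ ^ 2) + (A2 / 2 + 4 * A1) +
      2 * ∑ i ∈ S, r i * (FF_9711 (r i) (x i) z * (starRingEnd ℂ) (TT_9711 S x r i)).re := by
  rw [sqsum_9711]
  have hne : ∀ i ∈ S, ∀ j ∈ S, i ≠ j → x i ≠ x j := by
    intro i hi j hj hij h
    have := hsep i hi j hj hij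
    rw [h, sub_self, norm_zero] at this
    have h3 := hr i hi
    have h4 := hr j hj
    linarith
  have hdiag : ∑ i ∈ S, ‖(r i : ℂ) * FF_9711 (r i) (x i) z‖ ^ 2 =
      ∑ i ∈ S, r i ^ 2 * ‖FF_9711 (r i) (x i) z‖ ^ 2 := by
    apply Finset.sum_congr rfl
    intro i _
    rw [norm_mul, Complex.norm_real, mul_pow, Real.norm_eq_abs, sq_abs]
  obtain ⟨a, ha⟩ : ∃ a : ℕ → ℕ → ℝ, a = fun i j =>
    if r i ≤ ‖z - x i‖ ∧ r j ≤ ‖z - x j‖ then r i * r j * csq z (x i) (x j) else 0 := ⟨_, rfl⟩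
  obtain ⟨b, hb⟩ : ∃ b : ℕ → ℕ → ℝ, b = fun i j =>
    r i * r j * (FF_9711 (r i) (x i) z * (starRingEnd ℂ) (x i - x j)⁻¹).re := ⟨_, rfl⟩
  obtain ⟨c, hc⟩ : ∃ c : ℕ → ℕ → ℝ, c = fun i j =>
    r i * r j * -((if r j ≤ ‖z - x j‖ then 0 else FF_9711 (r i) (x i) z) *
      (starRingEnd ℂ) (x i - x j)⁻¹).re := ⟨_, rfl⟩
  have hoff : ∑ i ∈ S, ∑ j ∈ S.erase i, ((r i : ℂ) * FF_9711 (r i) (x i) z *
      (starRingEnd ℂ) ((r j : ℂ) * FF_9711 (r j) (x j) z)).re =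
      ∑ i ∈ S, ∑ j ∈ S.erase i, ((1 / 2) * a i j + (b i j + b j i) + (c i j + c j i)) := by
    apply Finset.sum_congr rfl
    intro i hi
    apply Finset.sum_congr rfl
    intro j hj
    rw [Finset.mem_erase] at hj
    have e1 : (r i : ℂ) * FF_9711 (r i) (x i) z *
      (starRingEnd ℂ) ((r j : ℂ) * FF_9711 (r j) (x j) z) =
      ((r i * r j : ℝ) : ℂ) * (FF_9711 (r i) (x i) z * (starRingEnd ℂ) (FF_9711 (r j) (x j) z)) := by
      rw [map_mul, Complex.conj_ofReal]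
      push_cast
      ring
    have e2 : a i j = r i * r j *
      (if r i ≤ ‖z - x i‖ ∧ r j ≤ ‖z - x j‖ then csq z (x i) (x j) else 0) := by
      rw [ha]
      simp only
      split_ifs
      · rfl
      · ring
    rw [e1, Complex.re_ofReal_mul, off_9711 (r i) (r j) (hr i hi) (hr j hj.2) (x i) (x j) z
      (hne i hi j hj.2 (Ne.symm hj.1)), e2, hb, hc]
    simp only
    ring
  have hsum : ∑ i ∈ S, ∑ j ∈ S.erase i, ((1 / 2) * a i j + (b i j + b j i) + (c i j + c j i)) =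
      (1 / 2) * ∑ i ∈ S, ∑ j ∈ S.erase i, a i j + 2 * ∑ i ∈ S, ∑ j ∈ S.erase i, b i j +
      2 * ∑ i ∈ S, ∑ j ∈ S.erase i, c i j := by
    have s1 := swap2_9711 S b
    have s2 := swap2_9711 S c
    simp only [Finset.sum_add_distrib, ← Finset.mul_sum]
    rw [← s1, ← s2]
    ring
  have hbT : ∑ i ∈ S, ∑ j ∈ S.erase i, b i j =
      ∑ i ∈ S, r i * (FF_9711 (r i) (x i) z * (starRingEnd ℂ) (TT_9711 S x r i)).re := by
    apply Finset.sum_congr rfl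
    intro i _
    unfold TT_9711
    rw [map_sum, Finset.mul_sum, Complex.re_sum, Finset.mul_sum]
    apply Finset.sum_congr rfl
    intro j _
    rw [hb]
    simp only
    have e1 : FF_9711 (r i) (x i) z * (starRingEnd ℂ) ((r j : ℂ) * (x i - x j)⁻¹) =
      ((r j : ℝ) : ℂ) * (FF_9711 (r i) (x i) z * (starRingEnd ℂ) (x i - x j)⁻¹) := by
      rw [map_mul, Complex.conj_ofReal]
      ring
    rw [e1, Complex.re_ofReal_mul]
    ring
  have hcb : ∑ i ∈ S, ∑ j ∈ S.erase i, c i j ≤ 2 * A1 := by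
    have e1 : ∑ i ∈ S, ∑ j ∈ S.erase i, c i j ≤ ∑ i ∈ S, ∑ j ∈ S.erase i,
        (r i * r j * if r j ≤ ‖z - x j‖ then 0 else 2 / ‖x i - x j‖ ^ 2) := by
      apply Finset.sum_le_sum
      intro i hi
      apply Finset.sum_le_sum
      intro j hj
      rw [Finset.mem_erase] at hj
      rw [hc]
      simp only
      have hri := hr i hi
      have hrj := hr j hj.2
      exact mul_le_mul_of_nonneg_left (E_bound_9711 hri hrj z
        (hsep i hi j hj.2 (Ne.symm hj.1))) (by positivity)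
    refine e1.trans ?_
    rw [swap2_9711 S (fun i j => r i * r j * if r j ≤ ‖z - x j‖ then 0 else 2 / ‖x i - x j‖ ^ 2)]
    refine le_trans (Finset.sum_le_sum ?_) (one_ball_9711 S x r hr hsep z (2 * A1) (by positivity))
    intro i hi
    have hri := hr i hi
    split_ifs with h
    · apply le_of_eq
      apply Finset.sum_eq_zero
      intro j _
      ring
    · have e2 : ∑ j ∈ S.erase i, r j * r i * (2 / ‖x j - x i‖ ^ 2) =
        2 * r i * ∑ j ∈ S.erase i, r j / ‖x i - x j‖ ^ 2 := by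
        rw [Finset.mul_sum]
        apply Finset.sum_congr rfl
        intro j _
        rw [norm_sub_rev]
        ring
      rw [e2]
      calc 2 * r i * ∑ j ∈ S.erase i, r j / ‖x i - x j‖ ^ 2 ≤ 2 * r i * (A1 / r i) :=
            mul_le_mul_of_nonneg_left (h1 i hi) (by positivity)
        _ = 2 * A1 := by field_simp
  have h2' : ∑ i ∈ S, ∑ j ∈ S.erase i, a i j ≤ A2 := by
    rw [ha]
    exact h2
  rw [hdiag, hoff, hsum, hbT]
  linarith

theorem fin_ineq (a A1 A2 A3 A4 : ℝ) (ha : 0 < a) (hA1 : 0 ≤ A1) (hA2 : 0 ≤ A2) (hA3 : 0 ≤ A3)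
    (hA4 : 0 ≤ A4) :
    ∃ C : ℝ, 0 < C ∧ ∀ (S : Finset ℕ) (x : ℕ → ℂ) (r : ℕ → ℝ) (g : Measure ℂ) [IsFiniteMeasure g]
      (e : ℂ), ‖e‖ = 1 → (∀ i ∈ S, 0 < r i) →
      (∀ i ∈ S, ∀ j ∈ S, i ≠ j → 2 * (r i + r j) ≤ ‖x i - x j‖) →
      (∀ i ∈ S, ∑ j ∈ S.erase i, r j / ‖x i - x j‖ ^ 2 ≤ A1 / r i) →
      (∀ z : ℂ, ∑ i ∈ S, ∑ j ∈ S.erase i,
        (if r i ≤ ‖z - x i‖ ∧ r j ≤ ‖z - x j‖ then r i * r j * csq z (x i) (x j) else 0) ≤ A2) →
      (∑ i ∈ S, ∑ j ∈ S.erase i, ∑ k ∈ (S.erase i).erase j,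
        r i * r j * r k * csq (x i) (x j) (x k) ≤ A3 * ∑ i ∈ S, r i) →
      (∀ i ∈ S, ∫ z in {z : ℂ | r i ≤ ‖z - x i‖}, (‖z - x i‖ ^ 2)⁻¹ ∂g ≤ A4 / r i) →
      (∀ i ∈ S, ‖far g (r i) (x i)‖ ≤ 1) →
      (∀ i ∈ S, a ≤ (e * far g (r i) (x i)).re) →
      ∑ i ∈ S, r i ≤ C * g.real univ := by
  obtain ⟨α, hα⟩ : ∃ α : ℝ, α = A4 + 1 + (A1 + A3 / 6) := ⟨_, rfl⟩
  obtain ⟨β, hβ⟩ : ∃ β : ℝ, β = A2 / 2 + 4 * A1 := ⟨_, rfl⟩
  have hα0 : 0 ≤ α := by rw [hα]; positivity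
  have hβ0 : 0 ≤ β := by rw [hβ]; positivity
  obtain ⟨lam, hlam⟩ : ∃ lam : ℝ, lam = (α + 1) / a := ⟨_, rfl⟩
  have hlam0 : 0 < lam := by rw [hlam]; positivity
  refine ⟨(β / lam + lam) / a, by positivity, ?_⟩
  intro S x r g _ e he hr hsep h1 h2 h3 h4 h5 h6
  obtain ⟨M, hM⟩ : ∃ M : ℝ, M = ∑ i ∈ S, r i := ⟨_, rfl⟩
  obtain ⟨X, hX⟩ : ∃ X : ℝ, X = g.real univ := ⟨_, rfl⟩
  rw [← hM] at h3 ⊢
  rw [← hX]
  have hM0 : 0 ≤ M := by
    rw [hM]; exact Finset.sum_nonneg fun i hi => (hr i hi).le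
  have hne : ∀ i ∈ S, ∀ j ∈ S, i ≠ j → x i ≠ x j := by
    intro i hi j hj hij h
    have := hsep i hi j hj hij
    rw [h, sub_self, norm_zero] at this
    have h3 := hr i hi
    have h4 := hr j hj
    linarith
  have hT := T_bound_9711 S x r hr hne h1 (by rw [← hM]; exact h3)
  rw [← hM] at hT
  -- integrability
  have hFi : ∀ i ∈ S, Integrable (FF_9711 (r i) (x i)) g := fun i hi => FF_int_9711 g (hr i hi) _
  have hFsq : ∀ i ∈ S, Integrable (fun z => ‖FF_9711 (r i) (x i) z‖ ^ 2) g :=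
    fun i hi => FFsq_int_9711 g (hr i hi) _
  have hΘi : Integrable (fun z => ∑ i ∈ S, (r i : ℂ) * FF_9711 (r i) (x i) z) g :=
    integrable_finsetSum _ fun i hi => (hFi i hi).const_mul _
  have hΘ : ∫ z, ∑ i ∈ S, (r i : ℂ) * FF_9711 (r i) (x i) z ∂g =
      ∑ i ∈ S, (r i : ℂ) * far g (r i) (x i) := by
    rw [integral_finsetSum _ fun i hi => (hFi i hi).const_mul _]
    apply Finset.sum_congr rfl
    intro i _
    rw [integral_const_mul, far_eq_9711]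
  -- lower bound
  have hlow : a * M ≤ ∫ z, ‖∑ i ∈ S, (r i : ℂ) * FF_9711 (r i) (x i) z‖ ∂g := by
    refine le_trans ?_ (norm_integral_le_integral_norm _)
    rw [hΘ]
    have e1 : a * M ≤ (e * ∑ i ∈ S, (r i : ℂ) * far g (r i) (x i)).re := by
      rw [Finset.mul_sum, Complex.re_sum, hM, Finset.mul_sum]
      apply Finset.sum_le_sum
      intro i hi
      have e2 : e * ((r i : ℂ) * far g (r i) (x i)) = ((r i : ℝ) : ℂ) * (e * far g (r i) (x i)) := by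
        ring
      rw [e2, Complex.re_ofReal_mul, mul_comm a]
      exact mul_le_mul_of_nonneg_left (h6 i hi) (hr i hi).le
    refine e1.trans ((Complex.re_le_norm _).trans ?_)
    rw [norm_mul, he, one_mul]
  -- upper bound
  obtain ⟨R, hR⟩ : ∃ R : ℂ → ℝ, R = fun z =>
    (∑ i ∈ S, r i ^ 2 * ‖FF_9711 (r i) (x i) z‖ ^ 2) + (A2 / 2 + 4 * A1) +
      2 * ∑ i ∈ S, r i * (FF_9711 (r i) (x i) z * (starRingEnd ℂ) (TT_9711 S x r i)).re :=
    ⟨_, rfl⟩
  have hi1 : Integrable (fun z => ∑ i ∈ S, r i ^ 2 * ‖FF_9711 (r i) (x i) z‖ ^ 2) g :=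
    integrable_finsetSum _ fun i hi => (hFsq i hi).const_mul _
  have hre : ∀ i ∈ S, Integrable (fun z =>
      (FF_9711 (r i) (x i) z * (starRingEnd ℂ) (TT_9711 S x r i)).re) g :=
    fun i hi => ((hFi i hi).mul_const _).re
  have hi2 : Integrable (fun z => ∑ i ∈ S, r i *
      (FF_9711 (r i) (x i) z * (starRingEnd ℂ) (TT_9711 S x r i)).re) g :=
    integrable_finsetSum _ fun i hi => (hre i hi).const_mul _
  have hRi : Integrable R g := by
    rw [hR]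
    exact (hi1.add (integrable_const _)).add (hi2.const_mul 2)
  have hRint : ∫ z, R z ∂g ≤ α * M + β * X := by
    have e0 : ∫ z, R z ∂g = (∑ i ∈ S, r i ^ 2 * ∫ z, ‖FF_9711 (r i) (x i) z‖ ^ 2 ∂g) + β * X +
        2 * ∑ i ∈ S, r i * ((far g (r i) (x i)) * (starRingEnd ℂ) (TT_9711 S x r i)).re := by
      have g1 : ∫ z, R z ∂g = ∫ z, ((∑ i ∈ S, r i ^ 2 * ‖FF_9711 (r i) (x i) z‖ ^ 2) +
          (A2 / 2 + 4 * A1)) ∂g + ∫ z, 2 * ∑ i ∈ S, r i *
          (FF_9711 (r i) (x i) z * (starRingEnd ℂ) (TT_9711 S x r i)).re ∂g := by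
        rw [hR]
        exact integral_add (hi1.add (integrable_const _)) (hi2.const_mul 2)
      have g2 : ∫ z, ((∑ i ∈ S, r i ^ 2 * ‖FF_9711 (r i) (x i) z‖ ^ 2) +
          (A2 / 2 + 4 * A1)) ∂g = ∫ z, (∑ i ∈ S, r i ^ 2 * ‖FF_9711 (r i) (x i) z‖ ^ 2) ∂g +
          ∫ _z, (A2 / 2 + 4 * A1) ∂g :=
        integral_add hi1 (integrable_const _)
      rw [g1, g2, integral_const, integral_const_mul,
        integral_finsetSum _ fun i hi => (hFsq i hi).const_mul _,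
        integral_finsetSum _ fun i hi => (hre i hi).const_mul _]
      congr 1
      · congr 1
        · apply Finset.sum_congr rfl
          intro i _
          rw [integral_const_mul]
        · rw [smul_eq_mul, hβ, hX, mul_comm]
      · congr 1
        apply Finset.sum_congr rfl
        intro i hi
        rw [integral_const_mul, far_eq_9711]
        congr 1
        rw [← integral_mul_const]
        exact Complex.reCLM.integral_comp_comm ((hFi i hi).mul_const _)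
    rw [e0]
    have d1 : ∑ i ∈ S, r i ^ 2 * ∫ z, ‖FF_9711 (r i) (x i) z‖ ^ 2 ∂g ≤ A4 * M := by
      rw [hM, Finset.mul_sum]
      apply Finset.sum_le_sum
      intro i hi
      have hri := hr i hi
      rw [FFsq_eq_9711]
      calc r i ^ 2 * ∫ z in {z : ℂ | r i ≤ ‖z - x i‖}, (‖z - x i‖ ^ 2)⁻¹ ∂g
          ≤ r i ^ 2 * (A4 / r i) := mul_le_mul_of_nonneg_left (h4 i hi) (by positivity)
        _ = A4 * r i := by field_simp
    have d2 : 2 * ∑ i ∈ S, r i * ((far g (r i) (x i)) * (starRingEnd ℂ) (TT_9711 S x r i)).re ≤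
        M + ∑ i ∈ S, r i * ‖TT_9711 S x r i‖ ^ 2 := by
      rw [hM, Finset.mul_sum, ← Finset.sum_add_distrib]
      apply Finset.sum_le_sum
      intro i hi
      have hri := hr i hi
      have f1 : ((far g (r i) (x i)) * (starRingEnd ℂ) (TT_9711 S x r i)).re ≤
          ‖TT_9711 S x r i‖ := by
        refine (Complex.re_le_norm _).trans ?_
        rw [norm_mul, RCLike.norm_conj]
        calc ‖far g (r i) (x i)‖ * ‖TT_9711 S x r i‖ ≤ 1 * ‖TT_9711 S x r i‖ :=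
              mul_le_mul_of_nonneg_right (h5 i hi) (norm_nonneg _)
          _ = ‖TT_9711 S x r i‖ := one_mul _
      have f2 : 2 * ‖TT_9711 S x r i‖ ≤ 1 + ‖TT_9711 S x r i‖ ^ 2 := by
        nlinarith [sq_nonneg (‖TT_9711 S x r i‖ - 1)]
      have f3 : r i * (2 * ((far g (r i) (x i)) * (starRingEnd ℂ) (TT_9711 S x r i)).re) ≤
          r i * (1 + ‖TT_9711 S x r i‖ ^ 2) :=
        mul_le_mul_of_nonneg_left (by linarith) hri.le
      linarith
    rw [hα]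
    linarith
  have hup : ∫ z, ‖∑ i ∈ S, (r i : ℂ) * FF_9711 (r i) (x i) z‖ ∂g ≤
      (α * M + β * X) / (2 * lam) + lam / 2 * X := by
    have e1 : ∫ z, ‖∑ i ∈ S, (r i : ℂ) * FF_9711 (r i) (x i) z‖ ∂g ≤
        ∫ z, (1 / (2 * lam) * R z + lam / 2) ∂g := by
      apply integral_mono hΘi.norm ((hRi.const_mul _).add (integrable_const _))
      intro z
      show ‖∑ i ∈ S, (r i : ℂ) * FF_9711 (r i) (x i) z‖ ≤ 1 / (2 * lam) * R z + lam / 2
      have hp := PW_9711 hA1 S x r hr hsep h1 z (h2 z)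
      have hp' : ‖∑ i ∈ S, (r i : ℂ) * FF_9711 (r i) (x i) z‖ ^ 2 ≤ R z := by
        rw [hR]; exact hp
      obtain ⟨θ, hθ⟩ : ∃ θ, θ = ‖∑ i ∈ S, (r i : ℂ) * FF_9711 (r i) (x i) z‖ := ⟨_, rfl⟩
      rw [← hθ] at hp' ⊢
      have e2 : θ ≤ 1 / (2 * lam) * θ ^ 2 + lam / 2 := by
        have e3 : 1 / (2 * lam) * θ ^ 2 + lam / 2 - θ = (θ - lam) ^ 2 / (2 * lam) := by
          field_simp
          ring
        have e4 : 0 ≤ (θ - lam) ^ 2 / (2 * lam) := by positivity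
        linarith
      have e5 : 1 / (2 * lam) * θ ^ 2 ≤ 1 / (2 * lam) * R z :=
        mul_le_mul_of_nonneg_left hp' (by positivity)
      linarith
    refine e1.trans ?_
    have g3 : ∫ z, (1 / (2 * lam) * R z + lam / 2) ∂g = ∫ z, 1 / (2 * lam) * R z ∂g +
        ∫ _z, lam / 2 ∂g := integral_add (hRi.const_mul _) (integrable_const _)
    rw [g3, integral_const_mul, integral_const, smul_eq_mul, ← hX]
    have e6 : 1 / (2 * lam) * ∫ z, R z ∂g ≤ 1 / (2 * lam) * (α * M + β * X) :=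
      mul_le_mul_of_nonneg_left hRint (by positivity)
    have e7 : 1 / (2 * lam) * (α * M + β * X) = (α * M + β * X) / (2 * lam) := by ring
    linarith
  have hfin := hlow.trans hup
  have hαlam : α * M / (2 * lam) ≤ a * M / 2 := by
    rw [div_le_div_iff₀ (by positivity) (by norm_num)]
    have e1 : a * lam = α + 1 := by rw [hlam]; field_simp
    have e2 : a * M * (2 * lam) = (α + 1) * M * 2 := by
      calc a * M * (2 * lam) = (a * lam) * M * 2 := by ring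
        _ = (α + 1) * M * 2 := by rw [e1]
    rw [e2]
    nlinarith
  have hsplit : (α * M + β * X) / (2 * lam) = α * M / (2 * lam) + β * X / (2 * lam) := by
    rw [add_div]
  rw [hsplit] at hfin
  have hfin2 : a * M ≤ (β / lam + lam) * X := by
    have e1 : β * X / (2 * lam) = β / lam * X / 2 := by field_simp
    rw [e1] at hfin
    linarith
  rw [div_mul_eq_mul_div, le_div_iff₀ ha]
  linarith
end AC
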