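import Pool.Agent.Helper303.Ac0
open MeasureTheory Set
namespace AC.F

/-- antiderivative of `1 / max(ρ,s)^2` on the positive half line -/
noncomputable def ff (ρ u : ℝ) : ℝ := min u ρ / ρ ^ 2 + (1 / ρ - 1 / max ρ u)

theorem ff_diff (ρ a b : ℝ) (hρ : 0 < ρ) (ha : 0 ≤ a) (hab : a ≤ b) :
    (b - a) / (max ρ b) ^ 2 ≤ ff ρ b - ff ρ a := by
  unfold ff
  rcases le_total b ρ with hb | hb
  · have ha' : a ≤ ρ := hab.trans hb
    rw [max_eq_left hb, min_eq_left hb, min_eq_left ha', max_eq_left ha']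
    apply le_of_eq
    ring
  · have hb0 : 0 < b := lt_of_lt_of_le hρ hb
    rcases le_total a ρ with ha' | ha'
    · rw [max_eq_right hb, min_eq_right hb, min_eq_left ha', max_eq_left ha']
      have h1 : ρ / ρ ^ 2 + (1 / ρ - 1 / b) - (a / ρ ^ 2 + (1 / ρ - 1 / ρ)) =
          (ρ - a) / ρ ^ 2 + (b - ρ) / (ρ * b) := by
        field_simp
        ring
      rw [h1]
      have h2 : (ρ - a) / b ^ 2 ≤ (ρ - a) / ρ ^ 2 := by
        apply div_le_div_of_nonneg_left (by linarith) (by positivity)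
        exact pow_le_pow_left₀ hρ.le hb 2
      have h3 : (b - ρ) / b ^ 2 ≤ (b - ρ) / (ρ * b) := by
        apply div_le_div_of_nonneg_left (by linarith) (by positivity)
        rw [sq]
        exact mul_le_mul_of_nonneg_right hb hb0.le
      have h4 : (b - a) / b ^ 2 = (ρ - a) / b ^ 2 + (b - ρ) / b ^ 2 := by
        rw [← add_div]; ring
      linarith
    · have ha0 : 0 < a := lt_of_lt_of_le hρ ha'
      rw [max_eq_right hb, min_eq_right hb, min_eq_right ha', max_eq_right ha']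
      have h1 : ρ / ρ ^ 2 + (1 / ρ - 1 / b) - (ρ / ρ ^ 2 + (1 / ρ - 1 / a)) =
          (b - a) / (a * b) := by
        field_simp
        ring
      rw [h1]
      apply div_le_div_of_nonneg_left (by linarith) (by positivity)
      rw [sq]
      exact mul_le_mul_of_nonneg_right hab hb0.le

theorem ff_mono (ρ a b : ℝ) (hρ : 0 < ρ) (ha : 0 ≤ a) (hab : a ≤ b) : ff ρ a ≤ ff ρ b := by
  have h := ff_diff ρ a b hρ ha hab
  have h2 : 0 ≤ (b - a) / (max ρ b) ^ 2 := div_nonneg (by linarith) (by positivity)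
  linarith

theorem ff_zero (ρ : ℝ) (hρ : 0 < ρ) : ff ρ 0 = 0 := by
  unfold ff
  rw [min_eq_left hρ.le, max_eq_left hρ.le]
  simp

theorem ff_le (ρ u : ℝ) (hρ : 0 < ρ) : ff ρ u ≤ 2 / ρ := by
  unfold ff
  have h1 : min u ρ / ρ ^ 2 ≤ ρ / ρ ^ 2 := div_le_div_of_nonneg_right (min_le_right _ _) (by positivity)
  have h2 : ρ / ρ ^ 2 = 1 / ρ := by field_simp
  have h3 : 0 < max ρ u := lt_of_lt_of_le hρ (le_max_left _ _)
  have h4 : 0 < 1 / max ρ u := by positivity
  have h5 : 2 / ρ = 1 / ρ + 1 / ρ := by ring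
  linarith

theorem half_sum (T : Finset ℕ) (r d : ℕ → ℝ) (hr : ∀ j ∈ T, 0 < r j) (hd : ∀ j ∈ T, r j ≤ d j)
    (hsep : ∀ j ∈ T, ∀ k ∈ T, j ≠ k → r j + r k ≤ |d j - d k|) (ρ : ℝ) (hρ : 0 < ρ) :
    ∑ j ∈ T, r j / (max ρ (d j)) ^ 2 ≤ 9 / 4 * (2 / ρ) := by
  have hdisj : (T : Set ℕ).PairwiseDisjoint
      (fun j => Ioo (ff ρ (d j - r j / 2)) (ff ρ (d j + r j / 2))) := by
    intro j hj k hk hjk
    have hj' : j ∈ T := hj
    have hk' : k ∈ T := hk
    have h1 := hsep j hj' k hk' hjk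
    have rj := hr j hj'
    have rk := hr k hk'
    have dj := hd j hj'
    have dk := hd k hk'
    show Disjoint (Ioo _ _) (Ioo _ _)
    rcases le_total (d j) (d k) with hle | hle
    · rw [abs_of_nonpos (by linarith)] at h1
      have h2 : ff ρ (d j + r j / 2) ≤ ff ρ (d k - r k / 2) :=
        ff_mono ρ _ _ hρ (by linarith) (by linarith)
      rw [Set.disjoint_left]
      rintro x ⟨_, hx⟩ ⟨hx', _⟩
      linarith
    · rw [abs_of_nonneg (by linarith)] at h1
      have h2 : ff ρ (d k + r k / 2) ≤ ff ρ (d j - r j / 2) :=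
        ff_mono ρ _ _ hρ (by linarith) (by linarith)
      rw [Set.disjoint_left]
      rintro x ⟨hx, _⟩ ⟨_, hx'⟩
      linarith
  have hsum : ∑ j ∈ T, (ff ρ (d j + r j / 2) - ff ρ (d j - r j / 2)) ≤ 2 / ρ := by
    have h1 := measure_biUnion_finset (μ := (volume : Measure ℝ)) hdisj (fun j _ => measurableSet_Ioo)
    simp only [Real.volume_Ioo] at h1
    rw [← ENNReal.ofReal_sum_of_nonneg] at h1
    · have h2 : (volume : Measure ℝ) (⋃ j ∈ T, Ioo (ff ρ (d j - r j / 2)) (ff ρ (d j + r j / 2))) ≤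
          volume (Icc (0 : ℝ) (2 / ρ)) := by
        apply measure_mono
        intro x hx
        simp only [mem_iUnion] at hx
        obtain ⟨j, hj, hx1, hx2⟩ := hx
        have rj := hr j hj
        have dj := hd j hj
        constructor
        · have := ff_mono ρ 0 (d j - r j / 2) hρ le_rfl (by linarith)
          rw [ff_zero ρ hρ] at this
          linarith
        · have := ff_le ρ (d j + r j / 2) hρ
          linarith
      rw [h1, Real.volume_Icc, ENNReal.ofReal_le_ofReal_iff (by rw [sub_zero]; positivity)] at h2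
      linarith
    · intro j hj
      have rj := hr j hj
      have dj := hd j hj
      have := ff_mono ρ (d j - r j / 2) (d j + r j / 2) hρ (by linarith) (by linarith)
      linarith
  calc ∑ j ∈ T, r j / (max ρ (d j)) ^ 2 ≤
      ∑ j ∈ T, 9 / 4 * (ff ρ (d j + r j / 2) - ff ρ (d j - r j / 2)) := by
        refine Finset.sum_le_sum fun j hj => ?_
        have rj := hr j hj
        have dj := hd j hj
        have h1 := ff_diff ρ (d j - r j / 2) (d j + r j / 2) hρ (by linarith) (by linarith)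
        have h2 : max ρ (d j + r j / 2) ≤ 3 / 2 * max ρ (d j) := by
          apply max_le
          · have := le_max_left ρ (d j); linarith
          · have := le_max_right ρ (d j); linarith
        have h3 : 0 < max ρ (d j) := lt_of_lt_of_le hρ (le_max_left _ _)
        have h4 : 0 < max ρ (d j + r j / 2) := lt_of_lt_of_le hρ (le_max_left _ _)
        have h5 : (max ρ (d j + r j / 2)) ^ 2 ≤ 9 / 4 * (max ρ (d j)) ^ 2 := by
          have := pow_le_pow_left₀ h4.le h2 2
          nlinarith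
        have h6 : r j / (9 / 4 * (max ρ (d j)) ^ 2) ≤ r j / (max ρ (d j + r j / 2)) ^ 2 :=
          div_le_div_of_nonneg_left rj.le (by positivity) h5
        have h7 : r j / (9 / 4 * (max ρ (d j)) ^ 2) = 4 / 9 * (r j / (max ρ (d j)) ^ 2) := by
          field_simp
        have h8 : (d j + r j / 2 - (d j - r j / 2)) = r j := by ring
        rw [h8] at h1
        linarith
    _ = 9 / 4 * ∑ j ∈ T, (ff ρ (d j + r j / 2) - ff ρ (d j - r j / 2)) := by
        rw [Finset.mul_sum]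
    _ ≤ _ := mul_le_mul_of_nonneg_left hsum (by norm_num)

/-- growth sum on the line -/
theorem growth_sum (S : Finset ℕ) (r t : ℕ → ℝ) (hr : ∀ i ∈ S, 0 < r i)
    (hsep : ∀ i ∈ S, ∀ j ∈ S, i ≠ j → r i + r j ≤ |t i - t j|) (i : ℕ) (hi : i ∈ S)
    (ρ : ℝ) (hρ : 0 < ρ) :
    ∑ j ∈ S.erase i, r j / (max ρ |t i - t j|) ^ 2 ≤ 9 / ρ := by
  classical
  rw [← Finset.sum_filter_add_sum_filter_not (S.erase i) (fun j => t i ≤ t j)]
  have hA : ∑ j ∈ (S.erase i).filter (fun j => t i ≤ t j), r j / (max ρ |t i - t j|) ^ 2 ≤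
      9 / 4 * (2 / ρ) := by
    have h := half_sum ((S.erase i).filter (fun j => t i ≤ t j)) r (fun j => t j - t i)
      (fun j hj => hr j (Finset.mem_of_mem_erase (Finset.mem_filter.1 hj).1))
      (fun j hj => by
        have hj1 := (Finset.mem_filter.1 hj).1
        have hj2 := (Finset.mem_filter.1 hj).2
        have h1 := hsep i hi j (Finset.mem_of_mem_erase hj1) (Finset.ne_of_mem_erase hj1).symm
        rw [abs_of_nonpos (by linarith)] at h1
        have := hr i hi
        show r j ≤ t j - t i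
        linarith)
      (fun j hj k hk hjk => by
        have hj1 := Finset.mem_of_mem_erase (Finset.mem_filter.1 hj).1
        have hk1 := Finset.mem_of_mem_erase (Finset.mem_filter.1 hk).1
        have := hsep j hj1 k hk1 hjk
        show r j + r k ≤ |t j - t i - (t k - t i)|
        rwa [sub_sub_sub_cancel_right]) ρ hρ
    refine le_trans (le_of_eq ?_) h
    refine Finset.sum_congr rfl fun j hj => ?_
    rw [abs_of_nonpos (by linarith [(Finset.mem_filter.1 hj).2]), neg_sub]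
  have hB : ∑ j ∈ (S.erase i).filter (fun j => ¬ t i ≤ t j), r j / (max ρ |t i - t j|) ^ 2 ≤
      9 / 4 * (2 / ρ) := by
    have h := half_sum ((S.erase i).filter (fun j => ¬ t i ≤ t j)) r (fun j => t i - t j)
      (fun j hj => hr j (Finset.mem_of_mem_erase (Finset.mem_filter.1 hj).1))
      (fun j hj => by
        have hj1 := (Finset.mem_filter.1 hj).1
        have hj2 := (Finset.mem_filter.1 hj).2
        push Not at hj2
        have h1 := hsep i hi j (Finset.mem_of_mem_erase hj1) (Finset.ne_of_mem_erase hj1).symm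
        rw [abs_of_nonneg (by linarith)] at h1
        have := hr i hi
        show r j ≤ t i - t j
        linarith)
      (fun j hj k hk hjk => by
        have hj1 := Finset.mem_of_mem_erase (Finset.mem_filter.1 hj).1
        have hk1 := Finset.mem_of_mem_erase (Finset.mem_filter.1 hk).1
        have := hsep j hj1 k hk1 hjk
        show r j + r k ≤ |t i - t j - (t i - t k)|
        rw [sub_sub_sub_cancel_left, abs_sub_comm]
        exact this) ρ hρ
    refine le_trans (le_of_eq ?_) h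
    refine Finset.sum_congr rfl fun j hj => ?_
    have hj2 := (Finset.mem_filter.1 hj).2
    push Not at hj2
    rw [abs_of_nonneg (by linarith)]
  have : 9 / ρ = 9 / 4 * (2 / ρ) + 9 / 4 * (2 / ρ) := by ring
  linarith

theorem csq_nonneg (x y z : ℂ) : 0 ≤ csq x y z := by
  unfold csq; positivity

theorem csq_le (z x y : ℂ) : csq z x y ≤ 4 / ‖x - y‖ ^ 2 := by
  unfold csq
  have h1 : (2 * ((x - z) * (starRingEnd ℂ) (y - z)).im) ^ 2 ≤ 4 * (‖z - x‖ ^ 2 * ‖z - y‖ ^ 2) := by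
    have h2 := Complex.abs_im_le_norm ((x - z) * (starRingEnd ℂ) (y - z))
    rw [norm_mul, RCLike.norm_conj, norm_sub_rev x z, norm_sub_rev y z] at h2
    have h3 := pow_le_pow_left₀ (abs_nonneg _) h2 2
    rw [sq_abs] at h3
    nlinarith
  by_cases hP : ‖z - x‖ = 0
  · rw [hP]; simp; positivity
  by_cases hQ : ‖z - y‖ = 0
  · rw [hQ]; simp; positivity
  by_cases hR : ‖x - y‖ = 0
  · rw [hR]; simp
  have hP' : 0 < ‖z - x‖ := lt_of_le_of_ne (norm_nonneg _) (Ne.symm hP)
  have hQ' : 0 < ‖z - y‖ := lt_of_le_of_ne (norm_nonneg _) (Ne.symm hQ)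
  have hR' : 0 < ‖x - y‖ := lt_of_le_of_ne (norm_nonneg _) (Ne.symm hR)
  rw [div_le_div_iff₀ (by positivity) (by positivity)]
  have h4 := mul_le_mul_of_nonneg_right h1 (by positivity : 0 ≤ ‖x - y‖ ^ 2)
  nlinarith

theorem csq_cmp (z x0 x y : ℂ) (hx : ‖z - x0‖ ≤ ‖z - x‖) (hy : ‖z - x0‖ ≤ ‖z - y‖)
    (h1 : x ≠ x0) (h2 : y ≠ x0) (h3 : x ≠ y) :
    csq z x y ≤ 32 * csq x0 x y + 8 * (‖z - x0‖ ^ 2 / (‖z - x‖ ^ 2 * ‖z - y‖ ^ 2)) := by
  have hP0 : 0 < ‖x0 - x‖ := norm_pos_iff.mpr (sub_ne_zero.mpr (Ne.symm h1))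
  have hQ0 : 0 < ‖x0 - y‖ := norm_pos_iff.mpr (sub_ne_zero.mpr (Ne.symm h2))
  have hR : 0 < ‖x - y‖ := norm_pos_iff.mpr (sub_ne_zero.mpr h3)
  have hP2 : ‖x0 - x‖ ≤ 2 * ‖z - x‖ := by
    have : ‖x0 - x‖ ≤ ‖x0 - z‖ + ‖z - x‖ := by
      have := norm_add_le (x0 - z) (z - x)
      rwa [sub_add_sub_cancel] at this
    rw [norm_sub_rev x0 z] at this
    linarith
  have hQ2 : ‖x0 - y‖ ≤ 2 * ‖z - y‖ := by
    have : ‖x0 - y‖ ≤ ‖x0 - z‖ + ‖z - y‖ := by
      have := norm_add_le (x0 - z) (z - y)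
      rwa [sub_add_sub_cancel] at this
    rw [norm_sub_rev x0 z] at this
    linarith
  have hP : 0 < ‖z - x‖ := by linarith
  have hQ : 0 < ‖z - y‖ := by linarith
  have him : |((x - z) * (starRingEnd ℂ) (y - z)).im| ≤
      |((x - x0) * (starRingEnd ℂ) (y - x0)).im| + ‖x - y‖ * ‖z - x0‖ := by
    have he : ((x - z) * (starRingEnd ℂ) (y - z)).im =
        ((x - x0) * (starRingEnd ℂ) (y - x0)).im + ((y - x) * (starRingEnd ℂ) (z - x0)).im := by
      simp only [Complex.mul_im, Complex.sub_re, Complex.sub_im, map_sub, Complex.conj_re,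
        Complex.conj_im]
      ring
    rw [he]
    refine (abs_add_le _ _).trans (add_le_add le_rfl ?_)
    have h4 := Complex.abs_im_le_norm ((y - x) * (starRingEnd ℂ) (z - x0))
    rwa [norm_mul, RCLike.norm_conj, norm_sub_rev y x] at h4
  have hsq : (((x - z) * (starRingEnd ℂ) (y - z)).im) ^ 2 ≤
      2 * (((x - x0) * (starRingEnd ℂ) (y - x0)).im) ^ 2 + 2 * (‖x - y‖ ^ 2 * ‖z - x0‖ ^ 2) := by
    have h5 := pow_le_pow_left₀ (abs_nonneg _) him 2
    rw [sq_abs] at h5
    have h6 : |((x - x0) * (starRingEnd ℂ) (y - x0)).im| ^ 2 =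
        (((x - x0) * (starRingEnd ℂ) (y - x0)).im) ^ 2 := sq_abs _
    nlinarith [sq_nonneg (|((x - x0) * (starRingEnd ℂ) (y - x0)).im| - ‖x - y‖ * ‖z - x0‖)]
  unfold csq
  generalize ((x - z) * (starRingEnd ℂ) (y - z)).im = m at *
  generalize ((x - x0) * (starRingEnd ℂ) (y - x0)).im = m0 at *
  generalize ‖z - x‖ = P at *
  generalize ‖z - y‖ = Q at *
  generalize ‖x - y‖ = R at *
  generalize ‖x0 - x‖ = P0 at *
  generalize ‖x0 - y‖ = Q0 at *
  generalize ‖z - x0‖ = e at *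
  have hPQ : P0 ^ 2 * Q0 ^ 2 ≤ 16 * (P ^ 2 * Q ^ 2) := by
    have a1 := pow_le_pow_left₀ hP0.le hP2 2
    have a2 := pow_le_pow_left₀ hQ0.le hQ2 2
    have a3 := mul_le_mul a1 a2 (by positivity) (by positivity)
    nlinarith
  calc (2 * m) ^ 2 / (P ^ 2 * R ^ 2 * Q ^ 2) ≤
      (4 * (2 * m0 ^ 2 + 2 * (R ^ 2 * e ^ 2))) / (P ^ 2 * R ^ 2 * Q ^ 2) := by
        apply div_le_div_of_nonneg_right _ (by positivity)
        nlinarith
    _ = 8 * m0 ^ 2 / (R ^ 2 * (P ^ 2 * Q ^ 2)) + 8 * (e ^ 2 / (P ^ 2 * Q ^ 2)) := by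
        field_simp
        ring
    _ ≤ 32 * ((2 * m0) ^ 2 / (P0 ^ 2 * R ^ 2 * Q0 ^ 2)) + 8 * (e ^ 2 / (P ^ 2 * Q ^ 2)) := by
        apply add_le_add _ le_rfl
        have h7 : 32 * ((2 * m0) ^ 2 / (P0 ^ 2 * R ^ 2 * Q0 ^ 2)) =
            8 * m0 ^ 2 / (R ^ 2 * (P0 ^ 2 * Q0 ^ 2 / 16)) := by
          field_simp
          ring
        rw [h7]
        apply div_le_div_of_nonneg_left (by positivity) (by positivity)
        apply mul_le_mul_of_nonneg_left _ (by positivity)
        linarith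

/-- bounded curvature potential at the points of the family implies the same everywhere -/
theorem potential_bound (c A : ℝ) (hc : 0 < c) (hA : 0 ≤ A) :
    ∃ C : ℝ, 0 ≤ C ∧ ∀ (S : Finset ℕ) (x : ℕ → ℂ) (r t : ℕ → ℝ), (∀ i ∈ S, 0 < r i) →
      (∀ i ∈ S, ∀ j ∈ S, i ≠ j → r i + r j ≤ |t i - t j|) →
      (∀ i ∈ S, ∀ j ∈ S, i ≠ j → c * |t i - t j| ≤ ‖x i - x j‖) →
      (∀ i ∈ S, ∑ j ∈ S.erase i, ∑ k ∈ (S.erase i).erase j,
        r j * r k * csq (x i) (x j) (x k) ≤ A) →
      ∀ z : ℂ, ∑ i ∈ S, ∑ j ∈ S.erase i,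
        (if r i ≤ ‖z - x i‖ ∧ r j ≤ ‖z - x j‖ then r i * r j * csq z (x i) (x j) else 0) ≤ C := by
  classical
  have hκ : 0 < min 1 (c / 2) := lt_min one_pos (by linarith)
  set κ := min 1 (c / 2) with hκdef
  have hκ1 : κ ≤ 1 := min_le_left _ _
  have hκ2 : κ ≤ c / 2 := min_le_right _ _
  refine ⟨72 / c ^ 2 + 32 * A + 8 * (9 / κ ^ 2) ^ 2, by positivity, ?_⟩
  intro S x r t hr hsep hx hpot z
  rcases S.eq_empty_or_nonempty with rfl | hne
  · simp only [Finset.sum_empty]; positivity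
  obtain ⟨i0, hi0, hmin⟩ := S.exists_min_image (fun i => ‖z - x i‖) hne
  have hmin' : ∀ i ∈ S, ‖z - x i0‖ ≤ ‖z - x i‖ := hmin
  -- basic facts
  have hne0 : ∀ i ∈ S, ∀ j ∈ S, i ≠ j → 0 < ‖x i - x j‖ := by
    intro i hi j hj hij
    have h1 := hsep i hi j hj hij
    have h2 := hx i hi j hj hij
    have h3 := hr i hi
    have h4 := hr j hj
    have h5 : 0 < |t i - t j| := by linarith
    exact lt_of_lt_of_le (mul_pos hc h5) h2
  have hterm : ∀ i ∈ S, ∀ j ∈ S,
      (if r i ≤ ‖z - x i‖ ∧ r j ≤ ‖z - x j‖ then r i * r j * csq z (x i) (x j) else 0) ≤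
        r i * r j * csq z (x i) (x j) := by
    intro i hi j hj
    have h0 : 0 ≤ r i * r j * csq z (x i) (x j) :=
      mul_nonneg (mul_nonneg (hr i hi).le (hr j hj).le) (csq_nonneg _ _ _)
    split_ifs
    · exact le_rfl
    · exact h0
  have hr0 := hr i0 hi0
  -- terms involving i0
  have hgr : ∑ j ∈ S.erase i0, r j / (max (r i0) |t i0 - t j|) ^ 2 ≤ 9 / r i0 :=
    growth_sum S r t hr hsep i0 hi0 (r i0) hr0
  have hone : ∀ j ∈ S.erase i0, r i0 * r j * (4 / ‖x i0 - x j‖ ^ 2) ≤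
      4 / c ^ 2 * r i0 * (r j / (max (r i0) |t i0 - t j|) ^ 2) := by
    intro j hj
    have hjS := Finset.mem_of_mem_erase hj
    have hji := Finset.ne_of_mem_erase hj
    have rj := hr j hjS
    have h1 := hsep i0 hi0 j hjS hji.symm
    have h2 := hx i0 hi0 j hjS hji.symm
    have h3 : max (r i0) |t i0 - t j| = |t i0 - t j| := max_eq_right (by linarith)
    rw [h3]
    have h5 : 0 < |t i0 - t j| := by linarith
    have h4 : 4 / ‖x i0 - x j‖ ^ 2 ≤ 4 / (c * |t i0 - t j|) ^ 2 := by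
      apply div_le_div_of_nonneg_left (by norm_num) (by positivity)
      exact pow_le_pow_left₀ (by positivity) h2 2
    calc r i0 * r j * (4 / ‖x i0 - x j‖ ^ 2) ≤ r i0 * r j * (4 / (c * |t i0 - t j|) ^ 2) :=
          mul_le_mul_of_nonneg_left h4 (by positivity)
      _ = _ := by field_simp
  have hsum1 : ∑ j ∈ S.erase i0, r i0 * r j * (4 / ‖x i0 - x j‖ ^ 2) ≤ 36 / c ^ 2 := by
    calc _ ≤ ∑ j ∈ S.erase i0, 4 / c ^ 2 * r i0 * (r j / (max (r i0) |t i0 - t j|) ^ 2) :=
          Finset.sum_le_sum hone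
      _ = 4 / c ^ 2 * r i0 * ∑ j ∈ S.erase i0, (r j / (max (r i0) |t i0 - t j|) ^ 2) := by
          rw [Finset.mul_sum]
      _ ≤ 4 / c ^ 2 * r i0 * (9 / r i0) := mul_le_mul_of_nonneg_left hgr (by positivity)
      _ = 36 / c ^ 2 := by field_simp; ring
  -- the remaining decay sum
  have hdecay : ‖z - x i0‖ * ∑ j ∈ S.erase i0, r j / ‖z - x j‖ ^ 2 ≤ 9 / κ ^ 2 := by
    rcases (norm_nonneg (z - x i0)).eq_or_lt with h0 | hρ
    · rw [← h0, zero_mul]; positivity
    have hgr2 := growth_sum S r t hr hsep i0 hi0 (‖z - x i0‖) hρ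
    have hle : ∀ j ∈ S.erase i0, r j / ‖z - x j‖ ^ 2 ≤
        1 / κ ^ 2 * (r j / (max ‖z - x i0‖ |t i0 - t j|) ^ 2) := by
      intro j hj
      have hjS := Finset.mem_of_mem_erase hj
      have hji := Finset.ne_of_mem_erase hj
      have rj := hr j hjS
      have hm := hmin' j hjS
      have h2 := hx i0 hi0 j hjS hji.symm
      have h3 : ‖x i0 - x j‖ ≤ 2 * ‖z - x j‖ := by
        have : ‖x i0 - x j‖ ≤ ‖x i0 - z‖ + ‖z - x j‖ := by
          have := norm_add_le (x i0 - z) (z - x j)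
          rwa [sub_add_sub_cancel] at this
        rw [norm_sub_rev (x i0) z] at this
        linarith
      have h4 : κ * max ‖z - x i0‖ |t i0 - t j| ≤ ‖z - x j‖ := by
        rw [mul_max_of_nonneg _ _ hκ.le]
        apply max_le
        · calc κ * ‖z - x i0‖ ≤ 1 * ‖z - x i0‖ := mul_le_mul_of_nonneg_right hκ1 hρ.le
            _ ≤ _ := by linarith
        · calc κ * |t i0 - t j| ≤ c / 2 * |t i0 - t j| :=
                mul_le_mul_of_nonneg_right hκ2 (abs_nonneg _)
            _ ≤ _ := by linarith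
      have h5 : 0 < max ‖z - x i0‖ |t i0 - t j| := lt_of_lt_of_le hρ (le_max_left _ _)
      calc r j / ‖z - x j‖ ^ 2 ≤ r j / (κ * max ‖z - x i0‖ |t i0 - t j|) ^ 2 := by
            apply div_le_div_of_nonneg_left rj.le (by positivity)
            exact pow_le_pow_left₀ (by positivity) h4 2
        _ = _ := by field_simp
    calc ‖z - x i0‖ * ∑ j ∈ S.erase i0, r j / ‖z - x j‖ ^ 2 ≤
        ‖z - x i0‖ * ∑ j ∈ S.erase i0, 1 / κ ^ 2 * (r j / (max ‖z - x i0‖ |t i0 - t j|) ^ 2) :=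
          mul_le_mul_of_nonneg_left (Finset.sum_le_sum hle) hρ.le
      _ = ‖z - x i0‖ * (1 / κ ^ 2) * ∑ j ∈ S.erase i0, (r j / (max ‖z - x i0‖ |t i0 - t j|) ^ 2) := by
          rw [← Finset.mul_sum]; ring
      _ ≤ ‖z - x i0‖ * (1 / κ ^ 2) * (9 / ‖z - x i0‖) :=
          mul_le_mul_of_nonneg_left hgr2 (by positivity)
      _ = 9 / κ ^ 2 := by field_simp
  -- split the double sum
  rw [← Finset.add_sum_erase S _ hi0]
  have hA1 : ∑ j ∈ S.erase i0, (if r i0 ≤ ‖z - x i0‖ ∧ r j ≤ ‖z - x j‖ then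
      r i0 * r j * csq z (x i0) (x j) else 0) ≤ 36 / c ^ 2 := by
    refine le_trans (Finset.sum_le_sum fun j hj => ?_) hsum1
    have hjS := Finset.mem_of_mem_erase hj
    refine (hterm i0 hi0 j hjS).trans ?_
    exact mul_le_mul_of_nonneg_left (csq_le _ _ _) (mul_nonneg hr0.le (hr j hjS).le)
  have hA2 : ∑ i ∈ S.erase i0, ∑ j ∈ S.erase i, (if r i ≤ ‖z - x i‖ ∧ r j ≤ ‖z - x j‖ then
      r i * r j * csq z (x i) (x j) else 0) ≤
      36 / c ^ 2 + (32 * A + 8 * (9 / κ ^ 2) ^ 2) := by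
    have hsplit : ∀ i ∈ S.erase i0, ∑ j ∈ S.erase i, (if r i ≤ ‖z - x i‖ ∧ r j ≤ ‖z - x j‖ then
        r i * r j * csq z (x i) (x j) else 0) ≤
        r i0 * r i * (4 / ‖x i0 - x i‖ ^ 2) +
          ∑ j ∈ (S.erase i0).erase i, (32 * (r i * r j * csq (x i0) (x i) (x j)) +
            8 * (‖z - x i0‖ * (r i / ‖z - x i‖ ^ 2)) * (‖z - x i0‖ * (r j / ‖z - x j‖ ^ 2))) := by
      intro i hi
      have hiS := Finset.mem_of_mem_erase hi
      have hii := Finset.ne_of_mem_erase hi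
      have ri := hr i hiS
      have hi0m : i0 ∈ S.erase i := Finset.mem_erase.2 ⟨hii.symm, hi0⟩
      rw [← Finset.add_sum_erase (S.erase i) _ hi0m, Finset.erase_right_comm]
      apply add_le_add
      · refine (hterm i hiS i0 hi0).trans ?_
        have h1 := mul_le_mul_of_nonneg_left (csq_le z (x i) (x i0)) (mul_nonneg ri.le hr0.le)
        rw [norm_sub_rev (x i) (x i0)] at h1
        linarith [h1, mul_comm (r i) (r i0), (by rw [mul_comm (r i) (r i0)] :
          r i * r i0 * (4 / ‖x i0 - x i‖ ^ 2) = r i0 * r i * (4 / ‖x i0 - x i‖ ^ 2))]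
      · refine Finset.sum_le_sum fun j hj => ?_
        have hji := Finset.ne_of_mem_erase hj
        have hj' := Finset.mem_of_mem_erase hj
        have hjS := Finset.mem_of_mem_erase hj'
        have hji0 := Finset.ne_of_mem_erase hj'
        have rj := hr j hjS
        refine (hterm i hiS j hjS).trans ?_
        have h1 : x i ≠ x i0 := by
          have := hne0 i hiS i0 hi0 hii
          exact sub_ne_zero.1 (norm_pos_iff.1 this)
        have h2 : x j ≠ x i0 := by
          have := hne0 j hjS i0 hi0 hji0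
          exact sub_ne_zero.1 (norm_pos_iff.1 this)
        have h3 : x i ≠ x j := by
          have := hne0 i hiS j hjS hji.symm
          exact sub_ne_zero.1 (norm_pos_iff.1 this)
        have h4 := mul_le_mul_of_nonneg_left
          (csq_cmp z (x i0) (x i) (x j) (hmin' i hiS) (hmin' j hjS) h1 h2 h3)
          (mul_nonneg ri.le rj.le)
        refine h4.trans (le_of_eq ?_)
        rw [mul_add]
        congr 1
        · ring
        · rw [div_eq_mul_inv, div_eq_mul_inv, div_eq_mul_inv, mul_inv]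
          ring
    refine (Finset.sum_le_sum hsplit).trans ?_
    rw [Finset.sum_add_distrib]
    apply add_le_add hsum1
    have hdist : ∑ i ∈ S.erase i0, ∑ j ∈ (S.erase i0).erase i,
        (32 * (r i * r j * csq (x i0) (x i) (x j)) +
            8 * (‖z - x i0‖ * (r i / ‖z - x i‖ ^ 2)) * (‖z - x i0‖ * (r j / ‖z - x j‖ ^ 2))) =
        32 * ∑ i ∈ S.erase i0, ∑ j ∈ (S.erase i0).erase i, r i * r j * csq (x i0) (x i) (x j) +
        ∑ i ∈ S.erase i0, ∑ j ∈ (S.erase i0).erase i,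
          8 * (‖z - x i0‖ * (r i / ‖z - x i‖ ^ 2)) * (‖z - x i0‖ * (r j / ‖z - x j‖ ^ 2)) := by
      simp only [Finset.sum_add_distrib, Finset.mul_sum]
    rw [hdist]
    apply add_le_add
    · exact mul_le_mul_of_nonneg_left (hpot i0 hi0) (by norm_num)
    · set B := ∑ j ∈ S.erase i0, ‖z - x i0‖ * (r j / ‖z - x j‖ ^ 2) with hB
      have hBle : B ≤ 9 / κ ^ 2 := by
        rw [hB, ← Finset.mul_sum]; exact hdecay
      have hnn : ∀ j ∈ S.erase i0, 0 ≤ ‖z - x i0‖ * (r j / ‖z - x j‖ ^ 2) := by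
        intro j hj
        have := (hr j (Finset.mem_of_mem_erase hj)).le
        positivity
      have hB0 : 0 ≤ B := Finset.sum_nonneg hnn
      calc _ ≤ ∑ i ∈ S.erase i0, 8 * (‖z - x i0‖ * (r i / ‖z - x i‖ ^ 2)) * B := by
            refine Finset.sum_le_sum fun i hi => ?_
            rw [← Finset.mul_sum]
            apply mul_le_mul_of_nonneg_left _ (mul_nonneg (by norm_num) (hnn i hi))
            exact Finset.sum_le_sum_of_subset_of_nonneg (Finset.erase_subset _ _)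
              (fun j hj _ => hnn j hj)
        _ = 8 * (B * B) := by
            rw [← Finset.sum_mul, ← Finset.mul_sum]
            ring
        _ ≤ 8 * (9 / κ ^ 2) ^ 2 := by
            have := mul_le_mul hBle hBle hB0 (hB0.trans hBle)
            nlinarith
  have h36 : (72 : ℝ) / c ^ 2 = 36 / c ^ 2 + 36 / c ^ 2 := by ring
  linarith

end AC.F
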