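import Pool.Agent.Helper303.Ac2
import Pool.Agent.Helper303.AcA2
import Pool.Agent.Helper303.AcE
import Pool.Agent.Helper303.AcF
open MeasureTheory Set Metric
namespace AC

theorem bmass_sum_le {ι : Type} [Fintype ι] (g : ι → Measure ℂ) [∀ k, IsFiniteMeasure (g k)]
    (J : Finset ℕ) (x : ℕ → ℂ) (R : ℕ → ℝ)
    (hdisj : (J : Set ℕ).PairwiseDisjoint fun j => closedBall (x j) (R j)) :
    ∑ j ∈ J, bmass g (x j) (R j) ≤ mass g := by
  unfold bmass mass
  rw [Finset.sum_comm]
  refine Finset.sum_le_sum fun k _ => ?_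
  rw [← measureReal_biUnion_finset hdisj (fun j _ => measurableSet_closedBall)
    (fun j _ => measure_ne_top _ _)]
  exact measureReal_mono (subset_univ _) (measure_ne_top _ _)

/-- one of the four directions captures half of the modulus -/
theorem exists_dir (w : ℂ) : ∃ e : Fin 4, ‖w‖ / 2 ≤ ((![1, -1, Complex.I, -Complex.I] : Fin 4 → ℂ) e * w).re := by
  have h := Complex.norm_le_abs_re_add_abs_im w
  by_cases h1 : ‖w‖ / 2 ≤ |w.re|
  · rcases le_total 0 w.re with h2 | h2
    · refine ⟨0, ?_⟩
      rw [abs_of_nonneg h2] at h1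
      simpa using h1
    · refine ⟨1, ?_⟩
      rw [abs_of_nonpos h2] at h1
      simpa using h1
  · have h3 : ‖w‖ / 2 ≤ |w.im| := by
      push Not at h1
      linarith
    rcases le_total 0 w.im with h2 | h2
    · refine ⟨3, ?_⟩
      rw [abs_of_nonneg h2] at h3
      simpa using h3
    · refine ⟨2, ?_⟩
      rw [abs_of_nonpos h2] at h3
      simpa using h3

theorem norm_dir (e : Fin 4) : ‖(![1, -1, Complex.I, -Complex.I] : Fin 4 → ℂ) e‖ = 1 := by
  fin_cases e <;> simp

set_option maxHeartbeats 4000000 in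
theorem step (ι : Type) [Fintype ι] :
    ∃ ε0 : ℝ, 0 < ε0 ∧ ∀ (h D s : ℝ), 0 < h → 0 < s → H ι h D s → H ι h D (min (2 * s) ε0) := by
  classical
  set N : ℝ := (Fintype.card ι : ℝ) with hNdef
  have hN0 : 0 ≤ N := by positivity
  obtain ⟨C4, hC4, hcurv⟩ := curv_sum' (1 / 4112) 22 (by norm_num) (by norm_num)
  set C5 : ℝ := 257 * C4 with hC5
  have hC5pos : 0 < C5 := by positivity
  set A : ℝ := 1408 * C5 with hA
  have hApos : 0 < A := by positivity
  obtain ⟨C7, hC7, hpot⟩ := F.potential_bound (1 / 4112) A (by norm_num) hApos.le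
  set a : ℝ := 1 / (4 * (N + 1)) with ha
  have hapos : 0 < a := by positivity
  obtain ⟨C6, hC6, hfin⟩ := fin_ineq a (9 * 4112 ^ 2) C7 A 1 hapos (by norm_num) hC7 hApos.le
    (by norm_num)
  refine ⟨min (1 / (5632 * C6)) (1 / (177 * (N + 1))), by positivity, ?_⟩
  set ε0 : ℝ := min (1 / (5632 * C6)) (1 / (177 * (N + 1))) with hε0
  have hε01 : ε0 ≤ 1 / (5632 * C6) := min_le_left _ _
  have hε02 : ε0 ≤ 1 / (177 * (N + 1)) := min_le_right _ _
  have hε0pos : 0 < ε0 := by positivity
  intro h D s hh hs hH g hg n p hp hc hD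
  have := hg
  by_contra hcon
  push Not at hcon
  set d : ℝ := ‖p n - p 0‖ with hd
  have hmh : h ≤ mass g := le_mass_of_cond g h hh (p 0) (hc 0 (Nat.zero_le _))
  have hmpos : 0 < mass g := hh.trans_le hmh
  have hd0 : 0 ≤ d := norm_nonneg _
  have hdpos : 0 < d := by
    rcases hd0.eq_or_lt with h0 | h0
    · rw [← h0] at hcon; simp at hcon; linarith
    · exact h0
  have hm1 : mass g < 2 * s * d := hcon.trans_le (by gcongr; exact min_le_left _ _)
  have hm2 : mass g < ε0 * d := hcon.trans_le (by gcongr; exact min_le_right _ _)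
  set ε : ℝ := mass g / d with hε
  have hεpos : 0 < ε := by positivity
  have hεd : ε * d = mass g := by rw [hε]; field_simp
  have hεs : ε < 2 * s := by rw [hε, div_lt_iff₀ hdpos]; linarith
  have hεε0 : ε < ε0 := by rw [hε, div_lt_iff₀ hdpos]; linarith
  have hε0' : ε0 ≤ 1 / 177 := by
    refine hε02.trans ?_
    gcongr
    linarith
  set lam : ℝ := 44 * ε with hlam
  have hlampos : 0 < lam := by positivity
  have hlam14 : lam < 1 / 4 := by rw [hlam]; linarith
  have hNlam : N * lam ≤ 1 := by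
    have h1 : ε * (177 * (N + 1)) ≤ 1 := by
      have h2 : ε ≤ 1 / (177 * (N + 1)) := hεε0.le.trans hε02
      rwa [le_div_iff₀ (by positivity)] at h2
    have h3 : 0 ≤ ε * N := by positivity
    rw [hlam]
    nlinarith
  have hr2 : ∀ r, r ≤ 2 * mass g → r < d ∧ 3 / 2 * r ≤ D := by
    intro r hr
    have h1 : mass g < d / 177 := hm2.trans_le (by
      rw [div_eq_inv_mul]
      gcongr
      linarith)
    constructor
    · linarith
    · linarith
  -- radii
  have hex : ∀ i, i ≤ n → ∃ R : ℝ, h ≤ R ∧ R ≤ 32 * mass g + d ∧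
      ((∃ r, R = 16 * r ∧ h ≤ r ∧ (∀ ρ, h ≤ ρ → bmass g (p i) ρ ≤ lam * ρ) ∧
        1 / 2 ≤ sfar g r (p i) ∧ sfar g r (p i) ≤ 1 ∧ s * r / 8 ≤ bmass g (p i) (16 * r)) ∨
       lam * R < bmass g (p i) R) := by
    intro i hi
    by_cases hgood : ∀ ρ, h ≤ ρ → bmass g (p i) ρ ≤ lam * ρ
    · have h1 : 1 ≤ sfar g h (p i) := by
        rcases hc i hi with h1 | h1
        · exact h1
        · exfalso
          have h2 := hgood (4 * h) (by linarith)
          nlinarith
      obtain ⟨r, hr1, hr2', hr3, hr4, hr5⟩ := exists_stop g lam h hh hlam14.le (p i) hgood h1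
      obtain ⟨hr6, hr7⟩ := hr2 r hr2'
      have h2 := near_mass h D s hh hs hH g n p hp hc i hi lam hlampos.le hNlam hgood r hr1 hr5 hr6 hr7
      exact ⟨16 * r, by linarith, by linarith, Or.inl ⟨r, rfl, hr1, hgood, hr3, hr4, h2⟩⟩
    · push Not at hgood
      obtain ⟨ρ, hρ1, hρ2⟩ := hgood
      refine ⟨ρ, hρ1, ?_, Or.inr hρ2⟩
      have h3 : lam * ρ < mass g := hρ2.trans_le (bmass_le_mass g _ _)
      have h4 : lam * ρ < ε * d := by rwa [hεd]
      have h5 : 44 * ρ < d := by
        rw [hlam, mul_comm 44 ε, mul_assoc] at h4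
        exact lt_of_mul_lt_mul_left h4 hεpos.le
      have h6 : 0 ≤ mass g := hmpos.le
      linarith
  choose! R hR1 hR2 hR3 using hex
  obtain ⟨u, hut, hudisj, hucov⟩ := Vitali.exists_disjoint_subfamily_covering_enlargement_closedBall
    {i : ℕ | i ≤ n} p R (32 * mass g + d) (fun i hi => hR2 i hi) 5 (by norm_num)
  have hufin : u.Finite := (Set.finite_le_nat n).subset hut
  set J : Finset ℕ := hufin.toFinset with hJ
  have hJmem : ∀ j, j ∈ J ↔ j ∈ u := fun j => by simp [hJ]
  have hJn : ∀ j ∈ J, j ≤ n := fun j hj => hut ((hJmem j).1 hj)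
  have hRh : ∀ j ∈ J, h ≤ R j := fun j hj => hR1 j (hJn j hj)
  have hRpos : ∀ j ∈ J, 0 < R j := fun j hj => hh.trans_le (hRh j hj)
  have hJdisj : (J : Set ℕ).PairwiseDisjoint fun j => closedBall (p j) (R j) := by
    have : (J : Set ℕ) = u := by simp [hJ]
    rw [this]; exact hudisj
  have hdist : ∀ i ∈ J, ∀ j ∈ J, i ≠ j → R i + R j ≤ ‖p i - p j‖ := by
    intro i hi j hj hij
    have h1 := hJdisj (by simpa using hi) (by simpa using hj) hij
    simp only [Function.onFun] at h1
    rw [disjoint_closedBall_closedBall_iff (hRpos i hi).le (hRpos j hj).le, dist_eq_norm] at h1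
    exact h1.le
  set Jg : Finset ℕ := J.filter (fun i => ∃ r, R i = 16 * r ∧ h ≤ r ∧
        (∀ ρ, h ≤ ρ → bmass g (p i) ρ ≤ lam * ρ) ∧
        1 / 2 ≤ sfar g r (p i) ∧ sfar g r (p i) ≤ 1 ∧ s * r / 8 ≤ bmass g (p i) (16 * r)) with hJg
  have hJgJ : Jg ⊆ J := Finset.filter_subset _ _
  have hsummass := bmass_sum_le g J p R hJdisj
  have hsplit : ∑ j ∈ J, bmass g (p j) (R j) =
      ∑ j ∈ J \ Jg, bmass g (p j) (R j) + ∑ j ∈ Jg, bmass g (p j) (R j) :=
    (Finset.sum_sdiff hJgJ).symm
  have hgoodsum : ε / 256 * ∑ j ∈ Jg, R j ≤ ∑ j ∈ Jg, bmass g (p j) (R j) := by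
    rw [Finset.mul_sum]
    refine Finset.sum_le_sum fun j hj => ?_
    simp only [hJg, Finset.mem_filter] at hj
    obtain ⟨hjJ, r, hr1, hr2', -, -, -, hr6⟩ := hj
    rw [hr1]
    refine le_trans ?_ hr6
    have hrpos : 0 < r := hh.trans_le hr2'
    have : ε * r ≤ 2 * s * r := by gcongr
    linarith
  have hbadsum : lam * ∑ j ∈ J \ Jg, R j ≤ ∑ j ∈ J \ Jg, bmass g (p j) (R j) := by
    rw [Finset.mul_sum]
    refine Finset.sum_le_sum fun j hj => ?_
    simp only [Finset.mem_sdiff] at hj
    rcases hR3 j (hJn j hj.1) with h1 | h1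
    · exfalso
      apply hj.2
      simp only [hJg, Finset.mem_filter]
      exact ⟨hj.1, h1⟩
    · exact h1.le
  have hg0 : 0 ≤ ∑ j ∈ Jg, R j := Finset.sum_nonneg fun j hj => (hRpos j (hJgJ hj)).le
  have hb0 : 0 ≤ ∑ j ∈ J \ Jg, R j := Finset.sum_nonneg fun j hj =>
    (hRpos j (Finset.mem_sdiff.1 hj).1).le
  have hall : ε * (1 / 256 * ∑ j ∈ Jg, R j + 44 * ∑ j ∈ J \ Jg, R j) ≤ ε * d := by
    rw [hεd]
    refine le_trans ?_ hsummass
    rw [hsplit]
    have : ε * (1 / 256 * ∑ j ∈ Jg, R j + 44 * ∑ j ∈ J \ Jg, R j) =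
      lam * ∑ j ∈ J \ Jg, R j + ε / 256 * ∑ j ∈ Jg, R j := by rw [hlam]; ring
    rw [this]
    linarith
  have hall' := le_of_mul_le_mul_left hall hεpos
  have hbad : ∑ j ∈ J \ Jg, R j ≤ d / 44 := by linarith
  have htot : ∑ j ∈ J, R j ≤ 257 * d := by
    rw [← Finset.sum_sdiff hJgJ]
    linarith
  obtain ⟨M, jj, q, hq0, hqM, hinj, hjJ, h6, h5⟩ := chain_path h hh p n hp J p R hRh (by
    intro i hi
    obtain ⟨b, hb, hsub⟩ := hucov i hi
    refine ⟨b, (hJmem b).2 hb, ?_⟩
    have h1 : p i ∈ closedBall (p i) (R i) := mem_closedBall_self (hh.le.trans (hR1 i hi))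
    have h2 := hsub h1
    rwa [mem_closedBall, dist_eq_norm] at h2)
  have hunit : ‖(starRingEnd ℂ) (p n - p 0) / (d : ℂ)‖ = 1 := by
    rw [norm_div, RCLike.norm_conj, Complex.norm_real, Real.norm_of_nonneg hd0, ← hd]
    exact div_self hdpos.ne'
  obtain ⟨T, t, hTinj, hTg, hTsum, hTt, hTsep, hTup, hTlow⟩ := geom d hdpos
    ((starRingEnd ℂ) (p n - p 0) / (d : ℂ)) hunit p R J Jg hRpos hdist hJgJ htot hbad M jj q (by
      rw [hqM, hq0, mul_div_assoc', Complex.mul_conj, Complex.normSq_eq_norm_sq, ← hd]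
      have hdC : (d : ℂ) ≠ 0 := by exact_mod_cast hdpos.ne'
      have : ((d ^ 2 : ℝ) : ℂ) / (d : ℂ) = ((d : ℝ) : ℂ) := by
        push_cast; field_simp
      rw [this, Complex.ofReal_re]) hinj hjJ h6 h5
  -- radii r = R/16
  set r : ℕ → ℝ := fun m => R (jj m) / 16 with hr
  set y : ℕ → ℂ := fun m => p (jj m) with hy
  have hTJ : ∀ m ∈ T, jj m ∈ J := fun m hm => hJgJ (hTg m hm)
  have hrpos : ∀ m ∈ T, 0 < r m := fun m hm => by
    have := hRpos _ (hTJ m hm)
    simp only [hr]; positivity
  have hgood : ∀ m ∈ T, h ≤ r m ∧ (∀ ρ, h ≤ ρ → bmass g (y m) ρ ≤ lam * ρ) ∧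
      1 / 2 ≤ sfar g (r m) (y m) ∧ sfar g (r m) (y m) ≤ 1 := by
    intro m hm
    have h1 := hTg m hm
    simp only [hJg, Finset.mem_filter] at h1
    obtain ⟨-, r', hr1, hr2', hr3, hr4, hr5, -⟩ := h1
    have : r m = r' := by simp only [hr]; rw [hr1]; ring
    rw [this]
    exact ⟨hr2', hr3, hr4, hr5⟩
  -- curvature
  have hcurv' := hcurv (257 * d) T t (fun m => R (jj m) / 3) y (by positivity)
    (fun m hm => by have := hRpos _ (hTJ m hm); positivity)
    (fun m hm => by
      have h1 := hTt m hm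
      have h2 := hRpos _ (hTJ m hm)
      constructor <;> linarith)
    (fun i hi j hj hij => by
      have := hTsep i hi j hj hij
      linarith)
    hTup hTlow
  set Q : ℕ → ℝ := fun i => ∑ j ∈ T.erase i, ∑ k ∈ (T.erase i).erase j,
    r j * r k * csq (y i) (y j) (y k) with hQ
  have hQ0 : ∀ i ∈ T, 0 ≤ Q i := by
    intro i hi
    refine Finset.sum_nonneg fun j hj => Finset.sum_nonneg fun k hk => ?_
    have h1 := hrpos j (Finset.mem_of_mem_erase hj)
    have h2 := hrpos k (Finset.mem_of_mem_erase (Finset.mem_of_mem_erase hk))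
    have h3 := csq_nonneg (y i) (y j) (y k)
    positivity
  have hQsum : ∑ i ∈ T, r i * Q i ≤ C5 * d := by
    have h1 : ∑ i ∈ T, r i * Q i = (3 / 16) ^ 3 * ∑ i ∈ T, ∑ j ∈ T.erase i,
        ∑ k ∈ (T.erase i).erase j, R (jj i) / 3 * (R (jj j) / 3) * (R (jj k) / 3) *
          csq (y i) (y j) (y k) := by
      rw [Finset.mul_sum]
      refine Finset.sum_congr rfl fun i _ => ?_
      simp only [hQ]
      rw [Finset.mul_sum, Finset.mul_sum]
      refine Finset.sum_congr rfl fun j _ => ?_
      rw [Finset.mul_sum, Finset.mul_sum]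
      refine Finset.sum_congr rfl fun k _ => ?_
      simp only [hr]
      ring
    rw [h1]
    have h2 : (0:ℝ) ≤ ∑ i ∈ T, ∑ j ∈ T.erase i,
        ∑ k ∈ (T.erase i).erase j, R (jj i) / 3 * (R (jj j) / 3) * (R (jj k) / 3) *
          csq (y i) (y j) (y k) := by
      refine Finset.sum_nonneg fun i hi => Finset.sum_nonneg fun j hj =>
        Finset.sum_nonneg fun k hk => ?_
      have h0 := hRpos _ (hTJ i hi)
      have h1 := hRpos _ (hTJ j (Finset.mem_of_mem_erase hj))
      have h2 := hRpos _ (hTJ k (Finset.mem_of_mem_erase (Finset.mem_of_mem_erase hk)))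
      have h3 := csq_nonneg (y i) (y j) (y k)
      positivity
    rw [hC5]
    nlinarith
  set T' : Finset ℕ := T.filter (fun i => Q i ≤ A) with hT'
  have hT'T : T' ⊆ T := Finset.filter_subset _ _
  have hTr : d / 704 ≤ ∑ m ∈ T, r m := by
    simp only [hr]
    rw [← Finset.sum_div]
    linarith
  have hT'sum : d / 1408 ≤ ∑ m ∈ T', r m := by
    have h1 : ∑ m ∈ T, r m = ∑ m ∈ T', r m + ∑ m ∈ T.filter (fun i => ¬ Q i ≤ A), r m := by
      rw [hT', Finset.sum_filter_add_sum_filter_not]
    have h2 : A * ∑ m ∈ T.filter (fun i => ¬ Q i ≤ A), r m ≤ C5 * d := by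
      refine le_trans ?_ hQsum
      rw [Finset.mul_sum]
      calc ∑ i ∈ T.filter (fun i => ¬ Q i ≤ A), A * r i
          ≤ ∑ i ∈ T.filter (fun i => ¬ Q i ≤ A), r i * Q i := by
            refine Finset.sum_le_sum fun i hi => ?_
            simp only [Finset.mem_filter, not_le] at hi
            have := hrpos i hi.1
            nlinarith [hi.2]
        _ ≤ ∑ i ∈ T, r i * Q i := by
            refine Finset.sum_le_sum_of_subset_of_nonneg (Finset.filter_subset _ _) ?_
            intro i hi _
            exact mul_nonneg (hrpos i hi).le (hQ0 i hi)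
    have h3 : ∑ m ∈ T.filter (fun i => ¬ Q i ≤ A), r m ≤ d / 1408 := by
      rw [hA] at h2
      have h4 : C5 * (1408 * ∑ m ∈ T.filter (fun i => ¬ Q i ≤ 1408 * C5), r m) ≤ C5 * d := by
        linarith
      have h5 := le_of_mul_le_mul_left h4 hC5pos
      rw [hA]
      linarith
    linarith
  -- classes
  have hclass : ∀ (k : ι) (e : Fin 4),
      ∑ m ∈ T'.filter (fun m => a ≤ ((![1, -1, Complex.I, -Complex.I] : Fin 4 → ℂ) e *
        far (g k) (r m) (y m)).re), r m ≤ C6 * (g k).real univ := by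
    intro k e
    set S : Finset ℕ := T'.filter (fun m => a ≤ ((![1, -1, Complex.I, -Complex.I] : Fin 4 → ℂ) e *
        far (g k) (r m) (y m)).re) with hS
    have hST' : S ⊆ T' := Finset.filter_subset _ _
    have hST : S ⊆ T := hST'.trans hT'T
    have hsepS : ∀ i ∈ S, ∀ j ∈ S, i ≠ j → r i + r j ≤ |t i - t j| := by
      intro i hi j hj hij
      have h1 := hTsep i (hST hi) j (hST hj) hij
      have h2 := hRpos _ (hTJ i (hST hi))
      have h3 := hRpos _ (hTJ j (hST hj))
      simp only [hr]
      linarith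
    have hQS : ∀ i ∈ S, ∑ j ∈ S.erase i, ∑ k ∈ (S.erase i).erase j,
        r j * r k * csq (y i) (y j) (y k) ≤ A := by
      intro i hi
      have h1 : Q i ≤ A := (Finset.mem_filter.1 (hST' hi)).2
      refine le_trans ?_ h1
      simp only [hQ]
      calc ∑ j ∈ S.erase i, ∑ k ∈ (S.erase i).erase j, r j * r k * csq (y i) (y j) (y k)
          ≤ ∑ j ∈ S.erase i, ∑ k ∈ (T.erase i).erase j, r j * r k * csq (y i) (y j) (y k) := by
            refine Finset.sum_le_sum fun j hj => ?_
            refine Finset.sum_le_sum_of_subset_of_nonneg ?_ ?_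
            · exact Finset.erase_subset_erase _ (Finset.erase_subset_erase _ hST)
            · intro k' hk' _
              have h2 := hrpos j (hST (Finset.mem_of_mem_erase hj))
              have h3 := hrpos k' (Finset.mem_of_mem_erase (Finset.mem_of_mem_erase hk'))
              have h4 := csq_nonneg (y i) (y j) (y k')
              positivity
        _ ≤ ∑ j ∈ T.erase i, ∑ k ∈ (T.erase i).erase j, r j * r k * csq (y i) (y j) (y k) := by
            refine Finset.sum_le_sum_of_subset_of_nonneg (Finset.erase_subset_erase _ hST) ?_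
            intro j hj _
            refine Finset.sum_nonneg fun k' hk' => ?_
            have h2 := hrpos j (Finset.mem_of_mem_erase hj)
            have h3 := hrpos k' (Finset.mem_of_mem_erase (Finset.mem_of_mem_erase hk'))
            have h4 := csq_nonneg (y i) (y j) (y k')
            positivity
    refine hfin S y r (g k) _ (norm_dir e) (fun i hi => hrpos i (hST hi)) ?_ ?_ ?_ ?_ ?_ ?_ ?_
    · intro i hi j hj hij
      have h1 : jj i ≠ jj j := fun h0 => hij (hTinj (by simpa using hST hi) (by simpa using hST hj) h0)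
      have h2 := hdist _ (hTJ i (hST hi)) _ (hTJ j (hST hj)) h1
      have h3 := hRpos _ (hTJ i (hST hi))
      have h4 := hRpos _ (hTJ j (hST hj))
      simp only [hr, hy]
      linarith
    · intro i hi
      have hri := hrpos i (hST hi)
      have h1 := F.growth_sum S r t (fun i hi => hrpos i (hST hi)) hsepS i hi (r i) hri
      calc ∑ j ∈ S.erase i, r j / ‖y i - y j‖ ^ 2
          ≤ ∑ j ∈ S.erase i, 4112 ^ 2 * (r j / (max (r i) |t i - t j|) ^ 2) := by
            refine Finset.sum_le_sum fun j hj => ?_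
            have hjS := Finset.mem_of_mem_erase hj
            have hij : i ≠ j := fun h0 => by subst h0; simp at hj
            have h2 := hTlow i (hST hi) j (hST hjS) hij
            have h3 := hsepS i hi j hjS hij
            have h4 := hrpos j (hST hjS)
            have h5 : max (r i) |t i - t j| = |t i - t j| := max_eq_right (by linarith)
            rw [h5]
            have h6 : 0 < |t i - t j| := by linarith
            have h7 : 0 < ‖y i - y j‖ := by
              simp only [hy]
              linarith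
            rw [← mul_div_assoc, div_le_div_iff₀ (by positivity) (by positivity)]
            have h8 : |t i - t j| ^ 2 ≤ 4112 ^ 2 * ‖y i - y j‖ ^ 2 := by
              rw [← mul_pow]
              simp only [hy]
              gcongr
              linarith
            nlinarith
        _ = 4112 ^ 2 * ∑ j ∈ S.erase i, r j / (max (r i) |t i - t j|) ^ 2 := by
            rw [Finset.mul_sum]
        _ ≤ 4112 ^ 2 * (9 / r i) := by gcongr
        _ = 9 * 4112 ^ 2 / r i := by ring
    · exact hpot S y r t (fun i hi => hrpos i (hST hi)) hsepS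
        (fun i hi j hj hij => hTlow i (hST hi) j (hST hj) hij) hQS
    · rw [Finset.mul_sum]
      refine Finset.sum_le_sum fun i hi => ?_
      have h1 := hQS i hi
      have h2 := hrpos i (hST hi)
      calc ∑ j ∈ S.erase i, ∑ k ∈ (S.erase i).erase j, r i * r j * r k * csq (y i) (y j) (y k)
          = r i * ∑ j ∈ S.erase i, ∑ k ∈ (S.erase i).erase j, r j * r k * csq (y i) (y j) (y k) := by
            rw [Finset.mul_sum]
            refine Finset.sum_congr rfl fun j _ => ?_
            rw [Finset.mul_sum]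
            refine Finset.sum_congr rfl fun k _ => ?_
            ring
        _ ≤ r i * A := by gcongr
        _ = A * r i := by ring
    · intro i hi
      obtain ⟨h1, h2, -, -⟩ := hgood i (hST hi)
      have h3 := hrpos i (hST hi)
      refine (growth_integral (g k) (y i) (r i) lam h3 hlampos.le (fun ρ hρ => ?_)).trans ?_
      · refine le_trans ?_ (h2 ρ (h1.trans hρ))
        exact Finset.single_le_sum (f := fun k => (g k).real (closedBall (y i) ρ))
          (fun _ _ => measureReal_nonneg) (Finset.mem_univ k)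
      · gcongr
        linarith
    · intro i hi
      obtain ⟨-, -, -, h4⟩ := hgood i (hST hi)
      refine le_trans ?_ h4
      exact Finset.single_le_sum (f := fun k => ‖far (g k) (r i) (y i)‖)
          (fun _ _ => norm_nonneg _) (Finset.mem_univ k)
    · intro i hi
      simp only [hS, Finset.mem_filter] at hi
      exact hi.2
  -- covering by classes
  have hcover : ∑ m ∈ T', r m ≤ ∑ k : ι, ∑ e : Fin 4,
      ∑ m ∈ T'.filter (fun m => a ≤ ((![1, -1, Complex.I, -Complex.I] : Fin 4 → ℂ) e *
        far (g k) (r m) (y m)).re), r m := by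
    have h1 : ∀ m ∈ T', r m ≤ ∑ k : ι, ∑ e : Fin 4,
        (if a ≤ ((![1, -1, Complex.I, -Complex.I] : Fin 4 → ℂ) e *
          far (g k) (r m) (y m)).re then r m else 0) := by
      intro m hm
      obtain ⟨-, -, h3, -⟩ := hgood m (hT'T hm)
      have hrm := hrpos m (hT'T hm)
      obtain ⟨k, hk⟩ : ∃ k, 1 / (2 * (N + 1)) ≤ ‖far (g k) (r m) (y m)‖ := by
        by_contra hno
        push Not at hno
        have h4 : sfar g (r m) (y m) ≤ ∑ k : ι, 1 / (2 * (N + 1)) :=
          Finset.sum_le_sum fun k _ => (hno k).le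
        rw [Finset.sum_const, Finset.card_univ, nsmul_eq_mul, ← hNdef] at h4
        have h5 : N * (1 / (2 * (N + 1))) < 1 / 2 := by
          rw [mul_one_div, div_lt_div_iff₀ (by positivity) (by norm_num)]
          linarith
        linarith
      obtain ⟨e, he⟩ := exists_dir (far (g k) (r m) (y m))
      have h6 : a ≤ ((![1, -1, Complex.I, -Complex.I] : Fin 4 → ℂ) e *
          far (g k) (r m) (y m)).re := by
        refine le_trans ?_ he
        have hNp : N + 1 ≠ 0 := by positivity
        have : a = 1 / (2 * (N + 1)) / 2 := by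
          rw [ha]
          field_simp
          norm_num
        rw [this]
        gcongr
      calc r m = (if a ≤ ((![1, -1, Complex.I, -Complex.I] : Fin 4 → ℂ) e *
          far (g k) (r m) (y m)).re then r m else 0) := by rw [if_pos h6]
        _ ≤ ∑ e : Fin 4, (if a ≤ ((![1, -1, Complex.I, -Complex.I] : Fin 4 → ℂ) e *
          far (g k) (r m) (y m)).re then r m else 0) :=
            Finset.single_le_sum (f := fun e => (if a ≤ ((![1, -1, Complex.I, -Complex.I] : Fin 4 → ℂ) e *
              far (g k) (r m) (y m)).re then r m else 0))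
              (fun e _ => by split_ifs <;> simp [hrm.le]) (Finset.mem_univ e)
        _ ≤ _ := Finset.single_le_sum (f := fun k => ∑ e : Fin 4,
              (if a ≤ ((![1, -1, Complex.I, -Complex.I] : Fin 4 → ℂ) e *
              far (g k) (r m) (y m)).re then r m else 0))
              (fun k _ => Finset.sum_nonneg fun e _ => by split_ifs <;> simp [hrm.le])
              (Finset.mem_univ k)
    refine (Finset.sum_le_sum h1).trans (le_of_eq ?_)
    rw [Finset.sum_comm]
    refine Finset.sum_congr rfl fun k _ => ?_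
    rw [Finset.sum_comm]
    refine Finset.sum_congr rfl fun e _ => ?_
    exact (Finset.sum_filter _ _).symm
  have hfinal : ∑ m ∈ T', r m ≤ 4 * C6 * mass g := by
    refine hcover.trans ?_
    calc ∑ k : ι, ∑ e : Fin 4, ∑ m ∈ T'.filter (fun m => a ≤
          ((![1, -1, Complex.I, -Complex.I] : Fin 4 → ℂ) e * far (g k) (r m) (y m)).re), r m
        ≤ ∑ k : ι, ∑ _e : Fin 4, C6 * (g k).real univ :=
          Finset.sum_le_sum fun k _ => Finset.sum_le_sum fun e _ => hclass k e
      _ = 4 * C6 * mass g := by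
          unfold mass
          simp only [Finset.sum_const, Finset.card_univ, Fintype.card_fin, nsmul_eq_mul]
          rw [Finset.mul_sum]
          refine Finset.sum_congr rfl fun k _ => ?_
          push_cast; ring
  have h1 : ε0 * d ≤ 1 / (5632 * C6) * d := by gcongr
  have h2 : 4 * C6 * mass g < 4 * C6 * (1 / (5632 * C6) * d) := by
    have : mass g < 1 / (5632 * C6) * d := hm2.trans_le h1
    gcongr
  have h3 : 4 * C6 * (1 / (5632 * C6) * d) = d / 1408 := by
    field_simp
    norm_num
  linarith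

/-- base case and iteration: the statement holds with an absolute constant -/
theorem star (ι : Type) [Fintype ι] : ∃ c : ℝ, 0 < c ∧ ∀ (g : ι → Measure ℂ),
    (∀ k, IsFiniteMeasure (g k)) → ∀ (h : ℝ), 0 < h → ∀ (n : ℕ) (p : ℕ → ℂ),
    (∀ i < n, ‖p (i + 1) - p i‖ ≤ h) → (∀ i ≤ n, cond g h (p i)) →
    c * ‖p n - p 0‖ ≤ mass g := by
  obtain ⟨ε0, hε0, hstep⟩ := step ι
  refine ⟨ε0, hε0, ?_⟩
  intro g hg h hh n p hp hc
  rcases (norm_nonneg (p n - p 0)).eq_or_lt with h0 | hd
  · rw [← h0, mul_zero]; exact mass_nonneg g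
  set D : ℝ := ‖p n - p 0‖ with hD
  have hbase : H ι h D (h / D) := by
    intro g' hg' n' p' hp' hc' hD'
    have := hg'
    have h1 := le_mass_of_cond g' h hh (p' 0) (hc' 0 (Nat.zero_le _))
    calc h / D * ‖p' n' - p' 0‖ ≤ h / D * D := by gcongr
      _ = h := by field_simp
      _ ≤ mass g' := h1
  have hiter : ∀ k : ℕ, H ι h D (min (2 ^ k * (h / D)) ε0) := by
    intro k
    induction k with
    | zero =>
      intro g' hg' n' p' hp' hc' hD'
      refine le_trans ?_ (hbase g' hg' n' p' hp' hc' hD')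
      gcongr
      simp
    | succ k ih =>
      have h1 := hstep h D _ hh (by positivity) ih
      have h2 : min (2 * min (2 ^ k * (h / D)) ε0) ε0 = min (2 ^ (k + 1) * (h / D)) ε0 := by
        rcases le_total (2 ^ k * (h / D)) ε0 with h3 | h3
        · rw [min_eq_left h3]; congr 1; ring
        · rw [min_eq_right h3, min_eq_right (by linarith), min_eq_right]
          have : 2 ^ (k + 1) * (h / D) = 2 * (2 ^ k * (h / D)) := by ring
          rw [this]; linarith
      rwa [h2] at h1
  obtain ⟨k, hk⟩ := pow_unbounded_of_one_lt (ε0 / (h / D)) (one_lt_two : (1:ℝ) < 2)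
  have h4 : ε0 ≤ 2 ^ k * (h / D) := by
    rw [div_lt_iff₀ (by positivity)] at hk
    exact hk.le
  have h5 := hiter k
  rw [min_eq_right h4] at h5
  exact h5 g hg n p hp hc le_rfl

end AC
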