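import Mathlib
open MeasureTheory Set Metric Filter Topology
namespace AC

/-- choice of a sub-path -/
theorem exists_subpath (Γ : ℝ → ℂ) (ζ : ℂ) (t0 : ℝ) (ht0 : t0 < 1) (hΓ : ContinuousOn Γ (Ico t0 1))
    (hlim : Tendsto Γ (𝓝[<] 1) (𝓝 ζ)) (ρ : ℝ) (hρ : 0 < ρ) (h2 : 2 * ρ < ‖Γ t0 - ζ‖) :
    ∃ a b, t0 ≤ a ∧ a ≤ b ∧ b < 1 ∧ (∀ t ∈ Icc a b, ‖Γ t - ζ‖ ≤ 2 * ρ) ∧ ρ ≤ ‖Γ a - Γ b‖ := by
  have hev : ∀ᶠ t in 𝓝[<] (1:ℝ), ‖Γ t - ζ‖ < ρ := by
    have := (Metric.tendsto_nhds.1 hlim) ρ hρ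
    simpa [dist_eq_norm] using this
  have hev2 : ∀ᶠ t in 𝓝[<] (1:ℝ), t0 < t := eventually_nhdsWithin_of_eventually_nhds (eventually_gt_nhds ht0)
  have hev3 : ∀ᶠ t in 𝓝[<] (1:ℝ), t < 1 := eventually_mem_nhdsWithin
  obtain ⟨b, hb1, hb2, hb3⟩ := (hev.and (hev2.and hev3)).exists
  set f : ℝ → ℝ := fun t => ‖Γ t - ζ‖ with hf
  have hsub : Icc t0 b ⊆ Ico t0 1 := fun t ht => ⟨ht.1, ht.2.trans_lt hb3⟩
  have hfc : ContinuousOn f (Icc t0 b) := ((hΓ.mono hsub).sub continuousOn_const).norm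
  set K : Set ℝ := Icc t0 b ∩ f ⁻¹' Ici (2 * ρ) with hK
  have hKclosed : IsClosed K := hfc.preimage_isClosed_of_isClosed isClosed_Icc isClosed_Ici
  have hKcomp : IsCompact K := isCompact_Icc.of_isClosed_subset hKclosed inter_subset_left
  have hKne : K.Nonempty := ⟨t0, ⟨le_rfl, hb2.le⟩, h2.le⟩
  obtain ⟨a, haK, hamax⟩ := hKcomp.exists_isGreatest hKne
  have ha1 : t0 ≤ a := haK.1.1
  have ha2 : a ≤ b := haK.1.2
  have ha3 : 2 * ρ ≤ f a := haK.2
  have hfb : f b < ρ := hb1
  have hfa : f a = 2 * ρ := by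
    have hivt := intermediate_value_Icc' ha2 (hfc.mono (Icc_subset_Icc ha1 le_rfl))
    obtain ⟨t, ht, hft⟩ := hivt (⟨by linarith, ha3⟩ : 2 * ρ ∈ Icc (f b) (f a))
    have htK : t ∈ K := ⟨⟨ha1.trans ht.1, ht.2⟩, hft.ge⟩
    have : t = a := le_antisymm (hamax htK) ht.1
    rw [← this, hft]
  refine ⟨a, b, ha1, ha2, hb3, ?_, ?_⟩
  · intro t ht
    by_contra hcon
    push Not at hcon
    have htK : t ∈ K := ⟨⟨ha1.trans ht.1, ht.2⟩, hcon.le⟩
    have : t = a := le_antisymm (hamax htK) ht.1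
    rw [this] at hcon
    exact absurd hfa (ne_of_gt hcon)
  · have h3 : f a ≤ ‖Γ a - Γ b‖ + f b := by
      calc ‖Γ a - ζ‖ = ‖(Γ a - Γ b) + (Γ b - ζ)‖ := by ring_nf
        _ ≤ _ := norm_add_le _ _
    linarith

/-- smallness of the two integrals -/
theorem exists_small (g : ℂ → ℂ) (hg : Integrable g) (ζ : ℂ) (ε r0 : ℝ) (hε : 0 < ε) (hr0 : 0 < r0) :
    ∃ ρ, 0 < ρ ∧ ρ < r0 ∧ ∫ z in ball ζ (8 * ρ), ‖g z‖ < ε ∧
      ρ * ∫ z in (ball ζ (8 * ρ))ᶜ, ‖g z‖ / ‖z - ζ‖ < ε := by
  set r : ℕ → ℝ := fun n => 1 / ((n : ℝ) + 1) with hr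
  have hrpos : ∀ n, 0 < r n := fun n => by positivity
  have hrlim : Tendsto r atTop (𝓝 0) := tendsto_one_div_add_atTop_nhds_zero_nat
  have h1 : Tendsto (fun n => ∫ z in ball ζ (8 * r n), ‖g z‖) atTop (𝓝 0) := by
    have : (0:ℝ) = ∫ _z : ℂ, (0:ℝ) := by simp
    rw [this]
    simp_rw [← integral_indicator (measurableSet_ball (x := ζ) (ε := _))]
    refine tendsto_integral_of_dominated_convergence (fun z => ‖g z‖) ?_ hg.norm ?_ ?_
    · intro n
      exact hg.norm.aestronglyMeasurable.indicator measurableSet_ball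
    · intro n
      refine Eventually.of_forall fun z => ?_
      by_cases hz : z ∈ ball ζ (8 * r n)
      · rw [indicator_of_mem hz, norm_norm]
      · rw [indicator_of_notMem hz]; simp
    · have hae : ∀ᵐ z : ℂ, z ≠ ζ := by
        have : volume ({ζ} : Set ℂ) = 0 := by simp
        exact measure_eq_zero_iff_ae_notMem.1 this |>.mono fun z hz => by simpa using hz
      refine hae.mono fun z hz => ?_
      have hpos : 0 < dist z ζ := dist_pos.2 hz
      have h8 : Tendsto (fun n => 8 * r n) atTop (𝓝 0) := by simpa using hrlim.const_mul 8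
      refine tendsto_const_nhds.congr' ?_
      filter_upwards [h8.eventually_lt_const hpos] with n hn
      rw [indicator_of_notMem]
      simp only [mem_ball, not_lt]
      exact hn.le
  have h2 : Tendsto (fun n => r n * ∫ z in (ball ζ (8 * r n))ᶜ, ‖g z‖ / ‖z - ζ‖) atTop (𝓝 0) := by
    have : (0:ℝ) = ∫ _z : ℂ, (0:ℝ) := by simp
    rw [this]
    have heq : ∀ n, r n * ∫ z in (ball ζ (8 * r n))ᶜ, ‖g z‖ / ‖z - ζ‖ =
        ∫ z, (ball ζ (8 * r n))ᶜ.indicator (fun z => r n * (‖g z‖ / ‖z - ζ‖)) z := by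
      intro n
      rw [integral_indicator measurableSet_ball.compl, integral_const_mul]
    simp_rw [heq]
    refine tendsto_integral_of_dominated_convergence (fun z => ‖g z‖) ?_ hg.norm ?_ ?_
    · intro n
      refine AEStronglyMeasurable.indicator ?_ measurableSet_ball.compl
      refine AEStronglyMeasurable.const_mul ?_ _
      have hm : Measurable fun z : ℂ => ‖z - ζ‖⁻¹ := by fun_prop
      simp_rw [div_eq_mul_inv]
      exact hg.norm.aestronglyMeasurable.mul hm.aestronglyMeasurable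
    · intro n
      refine Eventually.of_forall fun z => ?_
      by_cases hz : z ∈ (ball ζ (8 * r n))ᶜ
      · rw [indicator_of_mem hz]
        have hz' : 8 * r n ≤ ‖z - ζ‖ := by simpa [dist_eq_norm] using hz
        have h0 := hrpos n
        have hzp : 0 < ‖z - ζ‖ := by linarith
        rw [Real.norm_of_nonneg (by positivity), mul_div_assoc', div_le_iff₀ hzp]
        have : 0 ≤ ‖g z‖ := norm_nonneg _
        nlinarith
      · rw [indicator_of_notMem hz]; simp
    · refine Eventually.of_forall fun z => ?_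
      have h3 : Tendsto (fun n => r n * (‖g z‖ / ‖z - ζ‖)) atTop (𝓝 0) := by
        simpa using hrlim.mul_const (‖g z‖ / ‖z - ζ‖)
      refine squeeze_zero_norm (fun n => ?_) h3
      by_cases hz : z ∈ (ball ζ (8 * r n))ᶜ
      · rw [indicator_of_mem hz, Real.norm_of_nonneg]
        have := hrpos n
        positivity
      · rw [indicator_of_notMem hz]
        have := hrpos n
        simp only [norm_zero]
        positivity
  obtain ⟨n, hn1, hn2, hn3⟩ := ((h1.eventually_lt_const hε).and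
    ((h2.eventually_lt_const hε).and (hrlim.eventually_lt_const hr0))).exists
  exact ⟨r n, hrpos n, hn3, hn1, hn2⟩

/-- the contradiction -/
theorem core
    (star2 : ∃ c : ℝ, 0 < c ∧ ∀ (G1 G2 : ℂ → ℂ), Integrable G1 → Integrable G2 → ∀ (N : Set ℂ), IsOpen N →
      (∀ p ∈ N, Integrable (fun z => (‖G1 z‖ + ‖G2 z‖) / ‖z - p‖) →
        1 ≤ ‖∫ z, G1 z / (z - p)‖ + ‖∫ z, G2 z / (z - p)‖) →
      ∀ (γ : ℝ → ℂ) (a b : ℝ), a ≤ b → ContinuousOn γ (Icc a b) → (∀ t ∈ Icc a b, γ t ∈ N) →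
      c * ‖γ a - γ b‖ ≤ (∫ z, ‖G1 z‖) + ∫ z, ‖G2 z‖)
    (V : Set ℂ) (hVo : IsOpen V) (g : ℂ → ℂ) (hg : Integrable g) (hg0 : ∀ z ∉ V, g z = 0)
    (F : ℂ → ℂ) (hF : ContinuousOn F V) (M : ℝ) (hM0 : 0 < M) (hM : ∀ z ∈ V, ‖F z‖ ≤ M)
    (ζ : ℂ) (hζ : ζ ∉ V) (η : ℝ) (hη : 0 < η)
    (hres : ∀ p ∈ V, Integrable (fun z => ‖g z‖ / ‖z - p‖) →
      - F p = (ζ - p) * ((∫ z, F z * g z / (z - p)) - F p * ∫ z, g z / (z - p)))
    (Γ : ℝ → ℂ) (t0 : ℝ) (ht0 : t0 < 1) (hΓ : ContinuousOn Γ (Ico t0 1))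
    (hΓV : ∀ t ∈ Ico t0 1, Γ t ∈ V ∧ η < ‖F (Γ t)‖)
    (hlim : Tendsto Γ (𝓝[<] 1) (𝓝 ζ)) : False := by
  obtain ⟨c, hc, hstar⟩ := star2
  have hFg : Integrable (fun z => F z * g z) := by
    have hmeas : AEStronglyMeasurable (fun z => F z * g z) volume := by
      have h1 : AEStronglyMeasurable (fun z => F z * g z) (volume.restrict V) :=
        (hF.aestronglyMeasurable hVo.measurableSet).mul hg.aestronglyMeasurable.restrict
      have h2 : (fun z => F z * g z) = V.indicator (fun z => F z * g z) := by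
        ext z
        by_cases hz : z ∈ V
        · rw [indicator_of_mem hz]
        · rw [indicator_of_notMem hz, hg0 z hz, mul_zero]
      rw [h2]
      exact (aestronglyMeasurable_indicator_iff hVo.measurableSet).2 h1
    refine Integrable.mono' (hg.norm.const_mul M) hmeas (Eventually.of_forall fun z => ?_)
    by_cases hz : z ∈ V
    · rw [norm_mul]; gcongr; exact hM z hz
    · rw [hg0 z hz]; simp
  have hFgn : ∀ z, ‖F z * g z‖ ≤ M * ‖g z‖ := by
    intro z
    by_cases hz : z ∈ V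
    · rw [norm_mul]; gcongr; exact hM z hz
    · rw [hg0 z hz]; simp
  have hd0 : 0 < ‖Γ t0 - ζ‖ := by
    rw [norm_pos_iff, sub_ne_zero]
    intro h
    exact hζ (h ▸ (hΓV t0 ⟨le_rfl, ht0⟩).1)
  obtain ⟨ρ, hρ, hρr, hs1, hs2⟩ := exists_small g hg ζ (min (c * η / (12 * M)) (η / (24 * M)))
    (‖Γ t0 - ζ‖ / 2) (by positivity) (by positivity)
  have hs1' : ∫ z in ball ζ (8 * ρ), ‖g z‖ < c * η / (12 * M) := hs1.trans_le (min_le_left _ _)
  have hs2' : ρ * ∫ z in (ball ζ (8 * ρ))ᶜ, ‖g z‖ / ‖z - ζ‖ < η / (24 * M) :=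
    hs2.trans_le (min_le_right _ _)
  obtain ⟨a, b, ha, hab, hb, hball, hdist⟩ := exists_subpath Γ ζ t0 ht0 hΓ hlim ρ hρ (by linarith)
  set B : Set ℂ := ball ζ (8 * ρ) with hB
  have hBm : MeasurableSet B := measurableSet_ball
  set s : ℝ := 6 * ρ / η with hs
  have hspos : 0 < s := by positivity
  set G1 : ℂ → ℂ := B.indicator (fun z => (s : ℂ) * (F z * g z)) with hG1
  set G2 : ℂ → ℂ := B.indicator (fun z => ((s * M : ℝ) : ℂ) * g z) with hG2
  have hG1i : Integrable G1 := (hFg.const_mul _).indicator hBm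
  have hG2i : Integrable G2 := (hg.const_mul _).indicator hBm
  set N : Set ℂ := (V ∩ F ⁻¹' {w | η < ‖w‖}) ∩ ball ζ (3 * ρ) with hN
  have hNo : IsOpen N := by
    refine IsOpen.inter ?_ isOpen_ball
    exact hF.isOpen_inter_preimage hVo (isOpen_lt continuous_const continuous_norm)
  have hcond : ∀ p ∈ N, Integrable (fun z => (‖G1 z‖ + ‖G2 z‖) / ‖z - p‖) →
        1 ≤ ‖∫ z, G1 z / (z - p)‖ + ‖∫ z, G2 z / (z - p)‖ := by
    intro p hp hint
    have hpV : p ∈ V := hp.1.1
    have hpη : η < ‖F p‖ := hp.1.2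
    have hpζ : ‖p - ζ‖ < 3 * ρ := by simpa [dist_eq_norm] using hp.2
    have hfar : ∀ z ∈ Bᶜ, ‖z - ζ‖ / 2 ≤ ‖z - p‖ ∧ 8 * ρ ≤ ‖z - ζ‖ := by
      intro z hz
      have hz' : 8 * ρ ≤ ‖z - ζ‖ := by simpa [hB, dist_eq_norm] using hz
      have h3 : ‖z - ζ‖ ≤ ‖z - p‖ + ‖p - ζ‖ := by
        calc ‖z - ζ‖ = ‖(z - p) + (p - ζ)‖ := by ring_nf
          _ ≤ _ := norm_add_le _ _
      exact ⟨by linarith, hz'⟩
    have hminv : Measurable fun z : ℂ => ‖z - p‖⁻¹ := by fun_prop
    have hminv' : Measurable fun z : ℂ => (z - p)⁻¹ := by fun_prop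
    have hminvζ : Measurable fun z : ℂ => ‖z - ζ‖⁻¹ := by fun_prop
    -- integrability on B
    have hiB : IntegrableOn (fun z => ‖g z‖ / ‖z - p‖) B := by
      have h4 : Integrable (fun z => (s * M)⁻¹ * ((‖G1 z‖ + ‖G2 z‖) / ‖z - p‖)) := hint.const_mul _
      refine Integrable.mono' h4.integrableOn ?_ ?_
      · simp_rw [div_eq_mul_inv]
        exact (hg.norm.aestronglyMeasurable.mul hminv.aestronglyMeasurable).restrict
      · refine (ae_restrict_mem hBm).mono fun z hz => ?_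
        rw [Real.norm_of_nonneg (by positivity)]
        have h5 : ‖G2 z‖ = s * M * ‖g z‖ := by
          simp only [hG2]
          rw [indicator_of_mem hz, norm_mul, Complex.norm_real, Real.norm_of_nonneg (by positivity)]
        rw [h5]
        have h6 : 0 ≤ ‖G1 z‖ := norm_nonneg _
        calc ‖g z‖ / ‖z - p‖ = (s * M)⁻¹ * ((s * M * ‖g z‖) / ‖z - p‖) := by
              field_simp
          _ ≤ (s * M)⁻¹ * ((‖G1 z‖ + s * M * ‖g z‖) / ‖z - p‖) := by
              gcongr
              linarith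
    have hiζ : IntegrableOn (fun z => ‖g z‖ / ‖z - ζ‖) Bᶜ := by
      refine Integrable.mono' (hg.norm.const_mul (8 * ρ)⁻¹).integrableOn ?_ ?_
      · simp_rw [div_eq_mul_inv]
        exact (hg.norm.aestronglyMeasurable.mul hminvζ.aestronglyMeasurable).restrict
      · refine (ae_restrict_mem hBm.compl).mono fun z hz => ?_
        rw [Real.norm_of_nonneg (by positivity), div_eq_mul_inv, mul_comm]
        gcongr
        exact (hfar z hz).2
    have hiBc : IntegrableOn (fun z => ‖g z‖ / ‖z - p‖) Bᶜ := by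
      refine Integrable.mono' (hiζ.const_mul 2) ?_ ?_
      · simp_rw [div_eq_mul_inv]
        exact (hg.norm.aestronglyMeasurable.mul hminv.aestronglyMeasurable).restrict
      · refine (ae_restrict_mem hBm.compl).mono fun z hz => ?_
        obtain ⟨h6, h7⟩ := hfar z hz
        rw [Real.norm_of_nonneg (by positivity)]
        have h8 : 0 < ‖z - ζ‖ / 2 := by linarith
        calc ‖g z‖ / ‖z - p‖ ≤ ‖g z‖ / (‖z - ζ‖ / 2) := by gcongr
          _ = 2 * (‖g z‖ / ‖z - ζ‖) := by field_simp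
    have hi : Integrable (fun z => ‖g z‖ / ‖z - p‖) := by
      rw [← integrableOn_univ, ← union_compl_self B]
      exact hiB.union hiBc
    have hres' := hres p hpV hi
    -- complex integrability
    have hcg : Integrable (fun z => g z / (z - p)) := by
      refine Integrable.mono' hi ?_ (Eventually.of_forall fun z => by rw [norm_div])
      simp_rw [div_eq_mul_inv]
      exact hg.aestronglyMeasurable.mul hminv'.aestronglyMeasurable
    have hcFg : Integrable (fun z => F z * g z / (z - p)) := by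
      refine Integrable.mono' (hi.const_mul M) ?_ (Eventually.of_forall fun z => ?_)
      · simp_rw [div_eq_mul_inv]
        exact hFg.aestronglyMeasurable.mul hminv'.aestronglyMeasurable
      · rw [norm_div, ← mul_div_assoc]
        gcongr
        exact hFgn z
    set Ω : ℝ := ∫ z in Bᶜ, ‖g z‖ / ‖z - ζ‖ with hΩ
    have hfar1 : ‖∫ z in Bᶜ, g z / (z - p)‖ ≤ 2 * Ω := by
      calc ‖∫ z in Bᶜ, g z / (z - p)‖ ≤ ∫ z in Bᶜ, ‖g z / (z - p)‖ := norm_integral_le_integral_norm _
        _ ≤ ∫ z in Bᶜ, 2 * (‖g z‖ / ‖z - ζ‖) := by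
            refine setIntegral_mono_on hcg.norm.integrableOn (hiζ.const_mul 2) hBm.compl ?_
            intro z hz
            obtain ⟨h6, h7⟩ := hfar z hz
            have h8 : 0 < ‖z - ζ‖ / 2 := by linarith
            rw [norm_div]
            calc ‖g z‖ / ‖z - p‖ ≤ ‖g z‖ / (‖z - ζ‖ / 2) := by gcongr
              _ = 2 * (‖g z‖ / ‖z - ζ‖) := by field_simp
        _ = 2 * Ω := by rw [integral_const_mul]
    have hfar2 : ‖∫ z in Bᶜ, F z * g z / (z - p)‖ ≤ 2 * M * Ω := by
      calc ‖∫ z in Bᶜ, F z * g z / (z - p)‖ ≤ ∫ z in Bᶜ, ‖F z * g z / (z - p)‖ :=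
            norm_integral_le_integral_norm _
        _ ≤ ∫ z in Bᶜ, 2 * M * (‖g z‖ / ‖z - ζ‖) := by
            refine setIntegral_mono_on hcFg.norm.integrableOn (hiζ.const_mul (2 * M)) hBm.compl ?_
            intro z hz
            obtain ⟨h6, h7⟩ := hfar z hz
            have h8 : 0 < ‖z - ζ‖ / 2 := by linarith
            rw [norm_div]
            calc ‖F z * g z‖ / ‖z - p‖ ≤ (M * ‖g z‖) / (‖z - ζ‖ / 2) := by
                  gcongr; exact hFgn z
              _ = 2 * M * (‖g z‖ / ‖z - ζ‖) := by field_simp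
        _ = 2 * M * Ω := by rw [integral_const_mul]
    have e1 : ∫ z, G1 z / (z - p) = s * ∫ z in B, F z * g z / (z - p) := by
      rw [← integral_const_mul, ← integral_indicator hBm]
      congr 1
      ext z
      by_cases hz : z ∈ B
      · simp only [hG1]
        rw [indicator_of_mem hz, indicator_of_mem hz]; ring
      · simp only [hG1]
        rw [indicator_of_notMem hz, indicator_of_notMem hz, zero_div]
    have e2 : ∫ z, G2 z / (z - p) = ((s * M : ℝ) : ℂ) * ∫ z in B, g z / (z - p) := by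
      rw [← integral_const_mul, ← integral_indicator hBm]
      congr 1
      ext z
      by_cases hz : z ∈ B
      · simp only [hG2]
        rw [indicator_of_mem hz, indicator_of_mem hz]; ring
      · simp only [hG2]
        rw [indicator_of_notMem hz, indicator_of_notMem hz, zero_div]
    have s1 : ∫ z, F z * g z / (z - p) = (∫ z in B, F z * g z / (z - p)) +
        ∫ z in Bᶜ, F z * g z / (z - p) := (integral_add_compl hBm hcFg).symm
    have s2 : ∫ z, g z / (z - p) = (∫ z in B, g z / (z - p)) +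
        ∫ z in Bᶜ, g z / (z - p) := (integral_add_compl hBm hcg).symm
    set I1 := ∫ z in B, F z * g z / (z - p) with hI1
    set I2 := ∫ z in B, g z / (z - p) with hI2
    have hMp := hM p hpV
    have hΩ0 : 0 ≤ Ω := by
      rw [hΩ]
      exact integral_nonneg fun z => by positivity
    have hmain : η < 3 * ρ * (‖I1‖ + M * ‖I2‖ + 4 * M * Ω) := by
      calc η < ‖F p‖ := hpη
        _ = ‖(ζ - p) * ((∫ z, F z * g z / (z - p)) - F p * ∫ z, g z / (z - p))‖ := by
            rw [← hres', norm_neg]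
        _ ≤ (3 * ρ) * (‖I1‖ + M * ‖I2‖ + 4 * M * Ω) := by
            rw [norm_mul, norm_sub_rev]
            gcongr
            rw [s1, s2]
            calc ‖I1 + (∫ z in Bᶜ, F z * g z / (z - p)) - F p * (I2 + ∫ z in Bᶜ, g z / (z - p))‖
                ≤ ‖I1 + (∫ z in Bᶜ, F z * g z / (z - p))‖ +
                  ‖F p * (I2 + ∫ z in Bᶜ, g z / (z - p))‖ := norm_sub_le _ _
              _ ≤ (‖I1‖ + 2 * M * Ω) + M * (‖I2‖ + 2 * Ω) := by
                  rw [norm_mul]
                  gcongr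
                  · exact (norm_add_le _ _).trans (by gcongr)
                  · exact (norm_add_le _ _).trans (by gcongr)
              _ = ‖I1‖ + M * ‖I2‖ + 4 * M * Ω := by ring
    have hΩs : ρ * Ω < η / (24 * M) := hs2'
    rw [lt_div_iff₀ (by positivity)] at hΩs
    have h9 : η / 2 < 3 * ρ * (‖I1‖ + M * ‖I2‖) := by nlinarith
    rw [e1, e2, norm_mul, norm_mul, Complex.norm_real, Complex.norm_real,
      Real.norm_of_nonneg hspos.le, Real.norm_of_nonneg (by positivity)]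
    have h10 : s * ‖I1‖ + s * M * ‖I2‖ = (3 * ρ * (‖I1‖ + M * ‖I2‖)) / (η / 2) := by
      rw [hs]; field_simp; ring
    rw [h10, le_div_iff₀ (by positivity)]
    linarith
  have hfin := hstar G1 G2 hG1i hG2i N hNo hcond Γ a b hab
    (hΓ.mono fun t ht => ⟨ha.trans ht.1, ht.2.trans_lt hb⟩) (by
      intro t ht
      have h1 := hΓV t ⟨ha.trans ht.1, ht.2.trans_lt hb⟩
      refine ⟨⟨h1.1, h1.2⟩, ?_⟩
      rw [mem_ball, dist_eq_norm]
      linarith [hball t ht])
  have n1 : ∫ z, ‖G1 z‖ ≤ s * M * ∫ z in B, ‖g z‖ := by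
    rw [← integral_const_mul, ← integral_indicator hBm]
    refine integral_mono hG1i.norm ((hg.norm.const_mul _).indicator hBm) ?_
    intro z
    by_cases hz : z ∈ B
    · simp only [hG1]
      rw [indicator_of_mem hz, indicator_of_mem hz, norm_mul, Complex.norm_real,
        Real.norm_of_nonneg hspos.le, mul_assoc]
      gcongr
      exact hFgn z
    · simp only [hG1]
      rw [indicator_of_notMem hz, indicator_of_notMem hz, norm_zero]
  have n2 : ∫ z, ‖G2 z‖ ≤ s * M * ∫ z in B, ‖g z‖ := by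
    rw [← integral_const_mul, ← integral_indicator hBm]
    refine integral_mono hG2i.norm ((hg.norm.const_mul _).indicator hBm) ?_
    intro z
    by_cases hz : z ∈ B
    · simp only [hG2]
      rw [indicator_of_mem hz, indicator_of_mem hz, norm_mul, Complex.norm_real,
        Real.norm_of_nonneg (by positivity)]
    · simp only [hG2]
      rw [indicator_of_notMem hz, indicator_of_notMem hz, norm_zero]
  have h11 : c * ρ ≤ 2 * (s * M * ∫ z in B, ‖g z‖) := by
    have : c * ρ ≤ c * ‖Γ a - Γ b‖ := by gcongr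
    linarith
  rw [lt_div_iff₀ (by positivity)] at hs1'
  have h12 : 2 * (s * M * ∫ z in B, ‖g z‖) = (12 * ρ * M * ∫ z in B, ‖g z‖) / η := by
    rw [hs]; field_simp; ring
  rw [h12, le_div_iff₀ hη] at h11
  nlinarith

end AC
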