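import Pool.Agent.Helper303.Ac0
open MeasureTheory Set
namespace AC.A1

theorem stewart (A B C : ℂ) (p q : ℝ) (hp : 0 < p) (hq : 0 < q) :
    ‖(C - B) / (q : ℂ) - (B - A) / (p : ℂ)‖ ^ 2 =
      (‖B - A‖ ^ 2 / p + ‖C - B‖ ^ 2 / q - ‖C - A‖ ^ 2 / (p + q)) * ((p + q) / (p * q)) := by
  have hpq : p + q ≠ 0 := by positivity
  rw [Complex.sq_norm, Complex.sq_norm, Complex.sq_norm, Complex.sq_norm]
  simp only [Complex.normSq_apply, Complex.sub_re, Complex.sub_im, Complex.div_ofReal_re,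
    Complex.div_ofReal_im]
  field_simp
  ring

section
variable {L S : ℝ} {P : ℝ → ℂ}

theorem contP (hL : 0 ≤ L) (hP : ∀ s t, ‖P s - P t‖ ≤ L * |s - t|) : Continuous P := by
  have : LipschitzWith ⟨L, hL⟩ P := by
    apply LipschitzWith.of_dist_le_mul
    intro x y
    rw [dist_eq_norm, Real.dist_eq]
    exact hP x y
  exact this.continuous

/-- squared increment -/
noncomputable def Dd (P : ℝ → ℂ) (r s : ℝ) : ℝ := ‖P (s + r) - P s‖ ^ 2

theorem Dd_nonneg (P : ℝ → ℂ) (r s : ℝ) : 0 ≤ Dd P r s := by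
  unfold Dd
  positivity

theorem Dd_left (h0 : ∀ s ≤ 0, P s = P 0) {r s : ℝ} (hr : 0 ≤ r) (h : s + r ≤ 0) :
    Dd P r s = 0 := by
  unfold Dd
  rw [h0 (s + r) h, h0 s (by linarith)]
  simp

theorem Dd_right (h1 : ∀ s, S ≤ s → P s = P S) {r s : ℝ} (hr : 0 ≤ r) (h : S ≤ s) :
    Dd P r s = 0 := by
  unfold Dd
  rw [h1 (s + r) (by linarith), h1 s h]
  simp

theorem Dd_le (hP : ∀ s t, ‖P s - P t‖ ≤ L * |s - t|) (r s : ℝ) :
    Dd P r s ≤ L ^ 2 * r ^ 2 := by
  unfold Dd
  have h := hP (s + r) s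
  have e : s + r - s = r := by ring
  rw [e] at h
  have := pow_le_pow_left₀ (norm_nonneg _) h 2
  rwa [mul_pow, sq_abs] at this

theorem Dd_cont (hc : Continuous P) : Continuous (fun x : ℝ × ℝ => Dd P x.1 x.2) := by
  unfold Dd
  fun_prop

theorem Dd_int (hc : Continuous P) (h0 : ∀ s ≤ 0, P s = P 0) (h1 : ∀ s, S ≤ s → P s = P S)
    {r : ℝ} (hr : 0 ≤ r) : Integrable (Dd P r) := by
  have hcr : Continuous (Dd P r) := by
    unfold Dd
    fun_prop
  apply hcr.integrable_of_hasCompactSupport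
  apply HasCompactSupport.intro (isCompact_Icc : IsCompact (Icc (-r) S))
  intro x hx
  rw [mem_Icc, not_and_or, not_le, not_le] at hx
  rcases hx with hx | hx
  · exact Dd_left h0 hr (by linarith)
  · exact Dd_right h1 hr hx.le

/-- the integral over a fixed interval -/
noncomputable def JJ (P : ℝ → ℂ) (S b r : ℝ) : ℝ := ∫ s in (-b)..S, Dd P r s

theorem JJ_cont (hc : Continuous P) (b : ℝ) : Continuous (JJ P S b) := by
  unfold JJ
  apply intervalIntegral.continuous_parametric_intervalIntegral_of_continuous'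
  exact Dd_cont hc

theorem JJ_eq (hS : 0 < S) (h0 : ∀ s ≤ 0, P s = P 0) (h1 : ∀ s, S ≤ s → P s = P S)
    {b r : ℝ} (hr : 0 ≤ r) (hrb : r ≤ b) : ∫ s, Dd P r s = JJ P S b r := by
  unfold JJ
  rw [intervalIntegral.integral_of_le (by linarith)]
  symm
  apply setIntegral_eq_integral_of_forall_compl_eq_zero
  intro x hx
  rw [mem_Ioc, not_and_or, not_lt, not_le] at hx
  rcases hx with hx | hx
  · exact Dd_left h0 hr (by linarith)
  · exact Dd_right h1 hr hx.le

theorem JJ_nonneg (hS : 0 < S) {b : ℝ} (hb : 0 ≤ b) (r : ℝ) : 0 ≤ JJ P S b r := by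
  unfold JJ
  apply intervalIntegral.integral_nonneg (by linarith)
  intro s _
  exact Dd_nonneg P r s

theorem JJ_le (hc : Continuous P) (hS : 0 < S) (hP : ∀ s t, ‖P s - P t‖ ≤ L * |s - t|)
    (h0 : ∀ s ≤ 0, P s = P 0) (h1 : ∀ s, S ≤ s → P s = P S)
    {b r : ℝ} (hr : 0 ≤ r) (hrb : r ≤ b) : JJ P S b r ≤ L ^ 2 * r ^ 2 * (S + r) := by
  rw [← JJ_eq hS h0 h1 hr hrb, JJ_eq hS h0 h1 hr le_rfl]
  unfold JJ
  have hcr : Continuous (Dd P r) := by
    unfold Dd
    fun_prop
  calc ∫ s in (-r)..S, Dd P r s ≤ ∫ _s in (-r)..S, L ^ 2 * r ^ 2 := by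
        apply intervalIntegral.integral_mono_on (by linarith) (hcr.intervalIntegrable _ _)
          (continuous_const.intervalIntegrable _ _)
        intro s _
        exact Dd_le hP r s
    _ = L ^ 2 * r ^ 2 * (S + r) := by
        rw [intervalIntegral.integral_const, smul_eq_mul]
        ring

/-- the density -/
noncomputable def ff (P : ℝ → ℂ) (S b v : ℝ) : ℝ := JJ P S b v / v ^ 3

theorem ff_contOn (hc : Continuous P) (b : ℝ) : ContinuousOn (ff P S b) (Ioi 0) := by
  unfold ff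
  apply (JJ_cont hc b).continuousOn.div (continuous_pow 3).continuousOn
  intro x hx
  exact (pow_pos hx 3).ne'

theorem ff_nonneg (hS : 0 < S) {b : ℝ} (hb : 0 ≤ b) {v : ℝ} (hv : 0 < v) : 0 ≤ ff P S b v :=
  div_nonneg (JJ_nonneg hS hb v) (by positivity)

theorem ff_int (hc : Continuous P) (b : ℝ) {c d : ℝ} (h : 0 < c) (h' : 0 < d) :
    IntervalIntegrable (ff P S b) volume c d := by
  apply ContinuousOn.intervalIntegrable
  apply (ff_contOn hc b).mono
  intro x hx
  exact lt_of_lt_of_le (lt_min h h') hx.1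

theorem log_bd {θ : ℝ} (h0 : 0 < θ) (h1 : θ < 1) : -Real.log θ ≤ (1 - θ) / Real.sqrt θ := by
  have hs : 0 < Real.sqrt θ := Real.sqrt_pos.2 h0
  have hlog : Real.log (Real.sqrt θ) = Real.log θ / 2 := Real.log_sqrt h0.le
  have ht : 0 ≤ -(Real.log θ / 2) := by
    have := Real.log_neg h0 h1
    linarith
  have h2 := Real.self_le_sinh_iff.2 ht
  rw [Real.sinh_eq] at h2
  have e1 : Real.exp (-(Real.log θ / 2)) = (Real.sqrt θ)⁻¹ := by
    rw [← hlog, Real.exp_neg, Real.exp_log hs]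
  have e2 : Real.exp (- -(Real.log θ / 2)) = Real.sqrt θ := by
    rw [neg_neg, ← hlog, Real.exp_log hs]
  rw [e1, e2] at h2
  have e3 : (1 - θ) / Real.sqrt θ = (Real.sqrt θ)⁻¹ - Real.sqrt θ := by
    rw [sub_div, one_div]
    congr 1
    rw [div_eq_iff hs.ne']
    exact (Real.mul_self_sqrt h0.le).symm
  rw [e3]
  linarith

/-- one half of the Frullani inequality -/
theorem frul (hc : Continuous P) (_hL : 0 ≤ L) (hS : 0 < S)
    (hP : ∀ s t, ‖P s - P t‖ ≤ L * |s - t|)
    (h0 : ∀ s ≤ 0, P s = P 0) (h1 : ∀ s, S ≤ s → P s = P S)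
    {a b θ : ℝ} (ha : 0 < a) (haS : a ≤ S) (hab : a ≤ b) (hθ0 : 0 < θ) (hθ1 : θ < 1) :
    (∫ v in (θ * a)..(θ * b), ff P S b v) - (∫ v in a..b, ff P S b v) ≤
      2 * L ^ 2 * S * ((1 - θ) / Real.sqrt θ) := by
  have hb : 0 < b := by linarith
  have hθa : 0 < θ * a := by positivity
  have hθb : 0 < θ * b := by positivity
  have hθa' : θ * a ≤ a := by nlinarith
  have hθb' : θ * b ≤ b := by nlinarith
  have e1 : (∫ v in (θ * a)..(θ * b), ff P S b v) - (∫ v in a..b, ff P S b v) =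
      (∫ v in (θ * a)..a, ff P S b v) - (∫ v in (θ * b)..b, ff P S b v) := by
    have k1 := intervalIntegral.integral_add_adjacent_intervals
      (ff_int (S := S) hc b hθa hθb) (ff_int (S := S) hc b hθb hb)
    have k2 := intervalIntegral.integral_add_adjacent_intervals
      (ff_int (S := S) hc b hθa ha) (ff_int (S := S) hc b ha hb)
    linarith
  have e2 : 0 ≤ ∫ v in (θ * b)..b, ff P S b v := by
    apply intervalIntegral.integral_nonneg hθb'
    intro v hv
    exact ff_nonneg hS hb.le (lt_of_lt_of_le hθb hv.1)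
  have e3 : (∫ v in (θ * a)..a, ff P S b v) ≤ ∫ v in (θ * a)..a, 2 * L ^ 2 * S * v⁻¹ := by
    apply intervalIntegral.integral_mono_on hθa' (ff_int hc b hθa ha)
    · apply ContinuousOn.intervalIntegrable
      apply continuousOn_const.mul
      apply continuousOn_inv₀.mono
      intro x hx
      have : 0 < x := lt_of_lt_of_le (lt_min hθa ha) hx.1
      exact this.ne'
    · intro v hv
      have hv0 : 0 < v := lt_of_lt_of_le hθa hv.1
      unfold ff
      rw [div_le_iff₀ (by positivity)]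
      have k := JJ_le hc hS hP h0 h1 hv0.le (hv.2.trans hab)
      refine k.trans ?_
      have k2 : L ^ 2 * v ^ 2 * (S + v) ≤ L ^ 2 * v ^ 2 * (2 * S) := by
        apply mul_le_mul_of_nonneg_left _ (by positivity)
        linarith [hv.2]
      refine k2.trans (le_of_eq ?_)
      field_simp
  have e4 : (∫ v in (θ * a)..a, 2 * L ^ 2 * S * v⁻¹) = 2 * L ^ 2 * S * (-Real.log θ) := by
    rw [intervalIntegral.integral_const_mul, integral_inv_of_pos hθa ha]
    congr 1
    rw [mul_comm θ a, ← div_div, div_self ha.ne', one_div, Real.log_inv]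
  have e5 : 2 * L ^ 2 * S * (-Real.log θ) ≤ 2 * L ^ 2 * S * ((1 - θ) / Real.sqrt θ) :=
    mul_le_mul_of_nonneg_left (log_bd hθ0 hθ1) (by positivity)
  linarith

theorem int3 (f g h : ℝ → ℝ) (i1 : Integrable f) (i2 : Integrable g) (i3 : Integrable h) :
    ∫ s, (f s + g s - h s) = (∫ s, f s) + (∫ s, g s) - ∫ s, h s := by
  have e1 : ∫ s, (f s + g s - h s) = (∫ s, (f s + g s)) - ∫ s, h s :=
    integral_sub (i1.add i2) i3
  rw [e1, integral_add i1 i2]

/-- the inner integral over `s` -/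
theorem inner_s (hc : Continuous P) (hS : 0 < S)
    (h0 : ∀ s ≤ 0, P s = P 0) (h1 : ∀ s, S ≤ s → P s = P S)
    {b θ u : ℝ} (hθ0 : 0 < θ) (hθ1 : θ < 1) (hu : 0 < u) (hub : u ≤ b) :
    ∫⁻ s : ℝ, ENNReal.ofReal (‖(P (s + u) - P (s + θ * u)) / (((1 - θ) * u : ℝ) : ℂ)
        - (P (s + θ * u) - P s) / ((θ * u : ℝ) : ℂ)‖ ^ 2 / u) =
    ENNReal.ofReal ((1 / (θ * (1 - θ))) * (θ * (θ * ff P S b (θ * u)) +
      (1 - θ) * ((1 - θ) * ff P S b ((1 - θ) * u)) - ff P S b u)) := by
  have hθ : 0 < 1 - θ := by linarith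
  have hp : 0 < θ * u := by positivity
  have hq : 0 < (1 - θ) * u := by positivity
  have hpq : θ * u + (1 - θ) * u = u := by ring
  have key : ∀ s, ‖(P (s + u) - P (s + θ * u)) / (((1 - θ) * u : ℝ) : ℂ)
        - (P (s + θ * u) - P s) / ((θ * u : ℝ) : ℂ)‖ ^ 2 / u =
      (1 / (θ * (1 - θ) * u ^ 2)) * (Dd P (θ * u) s / (θ * u) +
        Dd P ((1 - θ) * u) (s + θ * u) / ((1 - θ) * u) - Dd P u s / u) := by
    intro s
    rw [stewart (P s) (P (s + θ * u)) (P (s + u)) (θ * u) ((1 - θ) * u) hp hq, hpq]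
    have e1 : s + θ * u + (1 - θ) * u = s + u := by ring
    unfold Dd
    rw [e1]
    field_simp
  have i1 : Integrable (fun s => Dd P (θ * u) s / (θ * u)) := (Dd_int hc h0 h1 hp.le).div_const _
  have i2 : Integrable (fun s => Dd P ((1 - θ) * u) (s + θ * u) / ((1 - θ) * u)) :=
    ((Dd_int hc h0 h1 hq.le).comp_add_right (θ * u)).div_const _
  have i3 : Integrable (fun s => Dd P u s / u) := (Dd_int hc h0 h1 hu.le).div_const _
  have hint : Integrable (fun s => (1 / (θ * (1 - θ) * u ^ 2)) * (Dd P (θ * u) s / (θ * u) +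
        Dd P ((1 - θ) * u) (s + θ * u) / ((1 - θ) * u) - Dd P u s / u)) :=
    ((i1.add i2).sub i3).const_mul _
  have hval : ∫ s, (1 / (θ * (1 - θ) * u ^ 2)) * (Dd P (θ * u) s / (θ * u) +
        Dd P ((1 - θ) * u) (s + θ * u) / ((1 - θ) * u) - Dd P u s / u) =
      (1 / (θ * (1 - θ))) * (θ * (θ * ff P S b (θ * u)) +
      (1 - θ) * ((1 - θ) * ff P S b ((1 - θ) * u)) - ff P S b u) := by
    rw [integral_const_mul]
    have k1 : (∫ s, (Dd P (θ * u) s / (θ * u) +
        Dd P ((1 - θ) * u) (s + θ * u) / ((1 - θ) * u) - Dd P u s / u)) =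
        (∫ s, Dd P (θ * u) s / (θ * u)) +
        (∫ s, Dd P ((1 - θ) * u) (s + θ * u) / ((1 - θ) * u)) - ∫ s, Dd P u s / u :=
      int3 _ _ _ i1 i2 i3
    have k2 : (∫ s, Dd P ((1 - θ) * u) (s + θ * u) / ((1 - θ) * u)) =
        ∫ s, Dd P ((1 - θ) * u) s / ((1 - θ) * u) :=
      integral_add_right_eq_self (fun s => Dd P ((1 - θ) * u) s / ((1 - θ) * u)) (θ * u)
    rw [k1, k2, integral_div, integral_div, integral_div,
      JJ_eq hS h0 h1 hp.le (by nlinarith : θ * u ≤ b),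
      JJ_eq hS h0 h1 hq.le (by nlinarith : (1 - θ) * u ≤ b),
      JJ_eq hS h0 h1 hu.le hub]
    unfold ff
    field_simp
  rw [← hval, ofReal_integral_eq_lintegral_ofReal hint]
  · apply lintegral_congr
    intro s
    rw [key s]
  · filter_upwards with s
    rw [← key s]
    change 0 ≤ _
    positivity

theorem inner_u (hc : Continuous P) (hL : 0 ≤ L) (hS : 0 < S)
    (hP : ∀ s t, ‖P s - P t‖ ≤ L * |s - t|)
    (h0 : ∀ s ≤ 0, P s = P 0) (h1 : ∀ s, S ≤ s → P s = P S)
    {a b θ : ℝ} (ha : 0 < a) (haS : a ≤ S) (hab : a ≤ b) (hθ0 : 0 < θ) (hθ1 : θ < 1) :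
    ∫⁻ u in Ioo a b, ∫⁻ s : ℝ,
      ENNReal.ofReal (‖(P (s + u) - P (s + θ * u)) / (((1 - θ) * u : ℝ) : ℂ)
        - (P (s + θ * u) - P s) / ((θ * u : ℝ) : ℂ)‖ ^ 2 / u) ≤
    ENNReal.ofReal (2 * L ^ 2 * S * ((Real.sqrt θ)⁻¹ + (Real.sqrt (1 - θ))⁻¹)) := by
  have hθ : 0 < 1 - θ := by linarith
  have hb : 0 < b := by linarith
  set g : ℝ → ℝ := fun u => (1 / (θ * (1 - θ))) * (θ * (θ * ff P S b (θ * u)) +
      (1 - θ) * ((1 - θ) * ff P S b ((1 - θ) * u)) - ff P S b u) with hg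
  have e1 : ∫⁻ u in Ioo a b, ∫⁻ s : ℝ,
      ENNReal.ofReal (‖(P (s + u) - P (s + θ * u)) / (((1 - θ) * u : ℝ) : ℂ)
        - (P (s + θ * u) - P s) / ((θ * u : ℝ) : ℂ)‖ ^ 2 / u) =
      ∫⁻ u in Ioo a b, ENNReal.ofReal (g u) := by
    apply setLIntegral_congr_fun measurableSet_Ioo
    intro u hu
    exact inner_s hc hS h0 h1 hθ0 hθ1 (ha.trans hu.1) hu.2.le
  have cmap : ∀ c : ℝ, 0 < c → ContinuousOn (fun u => ff P S b (c * u)) (Ioi 0) := by
    intro c hc0
    apply (ff_contOn hc b).comp (continuous_const.mul continuous_id).continuousOn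
    intro x hx
    exact mul_pos hc0 hx
  have gc : ContinuousOn g (Ioi 0) := by
    apply continuousOn_const.mul
    apply ContinuousOn.sub
    · apply ContinuousOn.add
      · exact continuousOn_const.mul (continuousOn_const.mul (cmap θ hθ0))
      · exact continuousOn_const.mul (continuousOn_const.mul (cmap (1 - θ) hθ))
    · exact ff_contOn hc b
  have gII : IntervalIntegrable g volume a b := by
    apply ContinuousOn.intervalIntegrable
    apply gc.mono
    intro x hx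
    exact lt_of_lt_of_le (lt_min ha hb) hx.1
  have gI : IntegrableOn g (Ioo a b) := by
    have := (intervalIntegrable_iff_integrableOn_Ioc_of_le hab).1 gII
    exact this.mono_set Ioo_subset_Ioc_self
  have e2 : ∫⁻ u in Ioo a b, ENNReal.ofReal (g u) ≤ ENNReal.ofReal (∫ u in Ioo a b, g u) := by
    by_cases hpos : 0 ≤ᵐ[volume.restrict (Ioo a b)] g
    · rw [ofReal_integral_eq_lintegral_ofReal gI hpos]
    · exfalso
      apply hpos
      rw [Filter.EventuallyLE, ae_restrict_iff' measurableSet_Ioo]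
      filter_upwards with u hu
      have hu0 : 0 < u := ha.trans hu.1
      -- nonnegativity from the integral representation
      have hp : 0 < θ * u := by positivity
      have hq : 0 < (1 - θ) * u := by positivity
      have hpq : θ * u + (1 - θ) * u = u := by ring
      have i1 : Integrable (fun s => Dd P (θ * u) s / (θ * u)) :=
        (Dd_int hc h0 h1 hp.le).div_const _
      have i2 : Integrable (fun s => Dd P ((1 - θ) * u) (s + θ * u) / ((1 - θ) * u)) :=
        ((Dd_int hc h0 h1 hq.le).comp_add_right (θ * u)).div_const _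
      have i3 : Integrable (fun s => Dd P u s / u) := (Dd_int hc h0 h1 hu0.le).div_const _
      have k1 : (∫ s, (Dd P (θ * u) s / (θ * u) +
          Dd P ((1 - θ) * u) (s + θ * u) / ((1 - θ) * u) - Dd P u s / u)) =
          (∫ s, Dd P (θ * u) s / (θ * u)) +
          (∫ s, Dd P ((1 - θ) * u) (s + θ * u) / ((1 - θ) * u)) - ∫ s, Dd P u s / u :=
        int3 _ _ _ i1 i2 i3
      have k2 : (∫ s, Dd P ((1 - θ) * u) (s + θ * u) / ((1 - θ) * u)) =
          ∫ s, Dd P ((1 - θ) * u) s / ((1 - θ) * u) :=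
        integral_add_right_eq_self (fun s => Dd P ((1 - θ) * u) s / ((1 - θ) * u)) (θ * u)
      have k3 : 0 ≤ ∫ s, (Dd P (θ * u) s / (θ * u) +
          Dd P ((1 - θ) * u) (s + θ * u) / ((1 - θ) * u) - Dd P u s / u) := by
        apply integral_nonneg
        intro s
        change 0 ≤ _
        have st := stewart (P s) (P (s + θ * u)) (P (s + u)) (θ * u) ((1 - θ) * u) hp hq
        rw [hpq] at st
        have e1 : s + θ * u + (1 - θ) * u = s + u := by ring
        unfold Dd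
        beta_reduce
        rw [e1]
        have hpos2 : 0 < u / (θ * u * ((1 - θ) * u)) := by positivity
        have hn : 0 ≤ (‖P (s + θ * u) - P s‖ ^ 2 / (θ * u) +
            ‖P (s + u) - P (s + θ * u)‖ ^ 2 / ((1 - θ) * u) -
            ‖P (s + u) - P s‖ ^ 2 / u) * (u / (θ * u * ((1 - θ) * u))) := by
          rw [← st]
          positivity
        exact nonneg_of_mul_nonneg_left hn hpos2
      rw [k1, k2, integral_div, integral_div, integral_div,
        JJ_eq hS h0 h1 hp.le (by nlinarith [hu.2] : θ * u ≤ b),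
        JJ_eq hS h0 h1 hq.le (by nlinarith [hu.2] : (1 - θ) * u ≤ b),
        JJ_eq hS h0 h1 hu0.le hu.2.le] at k3
      change 0 ≤ g u
      rw [hg]
      have k4 : (1 / (θ * (1 - θ))) * (θ * (θ * ff P S b (θ * u)) +
          (1 - θ) * ((1 - θ) * ff P S b ((1 - θ) * u)) - ff P S b u) =
          (JJ P S b (θ * u) / (θ * u) + JJ P S b ((1 - θ) * u) / ((1 - θ) * u) -
            JJ P S b u / u) * (1 / (θ * (1 - θ) * u ^ 2)) := by
        unfold ff
        field_simp
      simp only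
      rw [k4]
      exact mul_nonneg k3 (by positivity)
  rw [e1]
  refine e2.trans (ENNReal.ofReal_le_ofReal ?_)
  rw [← integral_Ioc_eq_integral_Ioo, ← intervalIntegral.integral_of_le hab]
  -- compute the integral
  have cint : ∀ c : ℝ, 0 < c → IntervalIntegrable (fun u => ff P S b (c * u)) volume a b := by
    intro c hc0
    apply ContinuousOn.intervalIntegrable
    apply (cmap c hc0).mono
    intro x hx
    exact lt_of_lt_of_le (lt_min ha hb) hx.1
  have cval : ∀ c : ℝ, 0 < c → c * (∫ u in a..b, ff P S b (c * u)) =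
      ∫ v in (c * a)..(c * b), ff P S b v := by
    intro c hc0
    rw [intervalIntegral.integral_comp_mul_left (fun v => ff P S b v) hc0.ne', smul_eq_mul,
      ← mul_assoc, mul_inv_cancel₀ hc0.ne', one_mul]
  have hval : (∫ u in a..b, g u) = (1 / (θ * (1 - θ))) *
      (θ * ((∫ v in (θ * a)..(θ * b), ff P S b v) - ∫ v in a..b, ff P S b v) +
       (1 - θ) * ((∫ v in ((1 - θ) * a)..((1 - θ) * b), ff P S b v) -
        ∫ v in a..b, ff P S b v)) := by
    have k1 : (∫ u in a..b, g u) = (1 / (θ * (1 - θ))) *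
        (∫ u in a..b, ((θ * (θ * ff P S b (θ * u)) +
          (1 - θ) * ((1 - θ) * ff P S b ((1 - θ) * u))) - ff P S b u)) := by
      rw [← intervalIntegral.integral_const_mul]
    have j1 := ((cint θ hθ0).const_mul θ).const_mul θ
    have j2 := ((cint (1 - θ) hθ).const_mul (1 - θ)).const_mul (1 - θ)
    have j3 : IntervalIntegrable (ff P S b) volume a b := ff_int hc b ha hb
    rw [k1, intervalIntegral.integral_sub (j1.add j2) j3, intervalIntegral.integral_add j1 j2,
      intervalIntegral.integral_const_mul, intervalIntegral.integral_const_mul,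
      intervalIntegral.integral_const_mul, intervalIntegral.integral_const_mul,
      cval θ hθ0, cval (1 - θ) hθ]
    ring
  rw [hval]
  have f1 := frul hc hL hS hP h0 h1 ha haS hab hθ0 hθ1
  have f2 := frul hc hL hS hP h0 h1 ha haS hab hθ (by linarith : 1 - θ < 1)
  have e5 : 1 - (1 - θ) = θ := by ring
  rw [e5] at f2
  have hsq1 : 0 < Real.sqrt θ := Real.sqrt_pos.2 hθ0
  have hsq2 : 0 < Real.sqrt (1 - θ) := Real.sqrt_pos.2 hθ
  have m1 := mul_le_mul_of_nonneg_left f1 hθ0.le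
  have m2 := mul_le_mul_of_nonneg_left f2 hθ.le
  have m3 : (θ * ((∫ v in (θ * a)..(θ * b), ff P S b v) - ∫ v in a..b, ff P S b v) +
       (1 - θ) * ((∫ v in ((1 - θ) * a)..((1 - θ) * b), ff P S b v) -
        ∫ v in a..b, ff P S b v)) ≤
      θ * (2 * L ^ 2 * S * ((1 - θ) / Real.sqrt θ)) +
      (1 - θ) * (2 * L ^ 2 * S * (θ / Real.sqrt (1 - θ))) := by linarith
  have m4 := mul_le_mul_of_nonneg_left m3 (by positivity : 0 ≤ 1 / (θ * (1 - θ)))
  refine m4.trans (le_of_eq ?_)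
  field_simp
end

/-- Stewart + Frullani energy bound for a Lipschitz curve that is constant outside `[0,S]`. -/
theorem energy_bound (L S : ℝ) (hL : 0 ≤ L) (hS : 0 < S) (P : ℝ → ℂ)
    (hP : ∀ s t, ‖P s - P t‖ ≤ L * |s - t|) (h0 : ∀ s ≤ 0, P s = P 0) (h1 : ∀ s, S ≤ s → P s = P S)
    (a b : ℝ) (ha : 0 < a) (haS : a ≤ S) (hab : a ≤ b) :
    ∫⁻ θ in Ioo (0:ℝ) 1, ∫⁻ u in Ioo a b, ∫⁻ s : ℝ,
      ENNReal.ofReal (‖(P (s + u) - P (s + θ * u)) / (((1 - θ) * u : ℝ) : ℂ)
        - (P (s + θ * u) - P s) / ((θ * u : ℝ) : ℂ)‖ ^ 2 / u) ≤ ENNReal.ofReal (8 * L ^ 2 * S) := by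
  have hc := contP hL hP
  have hr : ∀ x : ℝ, 0 ≤ x → (Real.sqrt x)⁻¹ = x ^ (-(1 / 2) : ℝ) := by
    intro x hx
    rw [Real.rpow_neg hx, ← Real.sqrt_eq_rpow]
  have iA : IntervalIntegrable (fun x : ℝ => x ^ (-(1 / 2) : ℝ)) volume 0 1 :=
    intervalIntegral.intervalIntegrable_rpow' (by norm_num)
  have iB : IntervalIntegrable (fun x : ℝ => (1 - x) ^ (-(1 / 2) : ℝ)) volume 0 1 := by
    have := iA.comp_sub_left 1
    simp only [sub_zero, sub_self] at this
    exact this.symm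
  have vA : (∫ x in (0:ℝ)..1, x ^ (-(1 / 2) : ℝ)) = 2 := by
    rw [integral_rpow (Or.inl (by norm_num))]
    norm_num
  have vB : (∫ x in (0:ℝ)..1, (1 - x) ^ (-(1 / 2) : ℝ)) = 2 := by
    rw [intervalIntegral.integral_comp_sub_left (fun x : ℝ => x ^ (-(1 / 2) : ℝ)) 1]
    simp only [sub_zero, sub_self]
    exact vA
  have iC : IntervalIntegrable (fun x : ℝ => 2 * L ^ 2 * S *
      (x ^ (-(1 / 2) : ℝ) + (1 - x) ^ (-(1 / 2) : ℝ))) volume 0 1 := (iA.add iB).const_mul _
  calc ∫⁻ θ in Ioo (0:ℝ) 1, ∫⁻ u in Ioo a b, ∫⁻ s : ℝ,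
      ENNReal.ofReal (‖(P (s + u) - P (s + θ * u)) / (((1 - θ) * u : ℝ) : ℂ)
        - (P (s + θ * u) - P s) / ((θ * u : ℝ) : ℂ)‖ ^ 2 / u)
      ≤ ∫⁻ θ in Ioo (0:ℝ) 1, ENNReal.ofReal (2 * L ^ 2 * S *
        (θ ^ (-(1 / 2) : ℝ) + (1 - θ) ^ (-(1 / 2) : ℝ))) := by
        apply setLIntegral_mono' measurableSet_Ioo
        intro θ hθ
        have := inner_u hc hL hS hP h0 h1 ha haS hab hθ.1 hθ.2
        rw [hr θ hθ.1.le, hr (1 - θ) (by linarith [hθ.2])] at this
        exact this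
    _ = ENNReal.ofReal (∫ θ in Ioo (0:ℝ) 1, 2 * L ^ 2 * S *
        (θ ^ (-(1 / 2) : ℝ) + (1 - θ) ^ (-(1 / 2) : ℝ))) := by
        rw [ofReal_integral_eq_lintegral_ofReal]
        · have := (intervalIntegrable_iff_integrableOn_Ioc_of_le zero_le_one).1 iC
          exact this.mono_set Ioo_subset_Ioc_self
        · rw [Filter.EventuallyLE, ae_restrict_iff' measurableSet_Ioo]
          filter_upwards with θ hθ
          have k1 : 0 ≤ θ ^ (-(1 / 2) : ℝ) := Real.rpow_nonneg hθ.1.le _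
          have k2 : 0 ≤ (1 - θ) ^ (-(1 / 2) : ℝ) := Real.rpow_nonneg (by linarith [hθ.2]) _
          change 0 ≤ _
          positivity
    _ = ENNReal.ofReal (8 * L ^ 2 * S) := by
        congr 1
        rw [← integral_Ioc_eq_integral_Ioo, ← intervalIntegral.integral_of_le zero_le_one,
          intervalIntegral.integral_const_mul, intervalIntegral.integral_add iA iB, vA, vB]
        ring
end AC.A1
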