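import Mathlib
open MeasureTheory Set Metric
namespace AC
open scoped ENNReal

/-- truncated kernel -/
noncomputable def gpk (δ : ℝ) (w : ℂ) : ℝ≥0∞ := (ball (0 : ℂ) δ).indicator (fun w => ENNReal.ofReal ‖w‖⁻¹) w

theorem gpk_meas (δ : ℝ) : Measurable (gpk δ) := by
  unfold gpk
  exact Measurable.indicator (by fun_prop) measurableSet_ball

theorem gpk_int (δ : ℝ) (hδ : 0 < δ) : ∫⁻ w, gpk δ w ≤ ENNReal.ofReal (2 * Real.pi * δ) := by
  rw [← Complex.lintegral_comp_polarCoord_symm]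
  have h1 : ∀ p ∈ polarCoord.target, ENNReal.ofReal p.1 • gpk δ (Complex.polarCoord.symm p) ≤
      (Set.Ioo 0 δ ×ˢ Set.Ioo (-Real.pi) Real.pi).indicator (fun _ => (1 : ℝ≥0∞)) p := by
    intro p hp
    rw [polarCoord_target] at hp
    have hp1 : 0 < p.1 := hp.1
    have hn : ‖Complex.polarCoord.symm p‖ = p.1 := by
      rw [Complex.norm_polarCoord_symm, abs_of_pos hp1]
    unfold gpk
    by_cases hlt : p.1 < δ
    · have hmem : Complex.polarCoord.symm p ∈ ball (0 : ℂ) δ := by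
        rw [mem_ball_zero_iff, hn]; exact hlt
      have hpm : p ∈ Set.Ioo 0 δ ×ˢ Set.Ioo (-Real.pi) Real.pi := ⟨⟨hp1, hlt⟩, hp.2⟩
      rw [Set.indicator_of_mem hmem, Set.indicator_of_mem hpm, hn,
        smul_eq_mul, ← ENNReal.ofReal_mul hp1.le, mul_inv_cancel₀ hp1.ne', ENNReal.ofReal_one]
    · have hmem : Complex.polarCoord.symm p ∉ ball (0 : ℂ) δ := by
        rw [mem_ball_zero_iff, hn]; exact hlt
      rw [Set.indicator_of_notMem hmem, smul_zero]
      exact zero_le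
  calc ∫⁻ p in polarCoord.target, ENNReal.ofReal p.1 • gpk δ (Complex.polarCoord.symm p)
      ≤ ∫⁻ p in polarCoord.target,
        (Set.Ioo 0 δ ×ˢ Set.Ioo (-Real.pi) Real.pi).indicator (fun _ => (1 : ℝ≥0∞)) p :=
        setLIntegral_mono' polarCoord.open_target.measurableSet h1
    _ ≤ ∫⁻ p, (Set.Ioo 0 δ ×ˢ Set.Ioo (-Real.pi) Real.pi).indicator (fun _ => (1 : ℝ≥0∞)) p :=
        setLIntegral_le_lintegral _ _
    _ = volume (Set.Ioo 0 δ ×ˢ Set.Ioo (-Real.pi) Real.pi) := by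
        rw [lintegral_indicator (measurableSet_Ioo.prod measurableSet_Ioo)]
        simp
    _ = ENNReal.ofReal (2 * Real.pi * δ) := by
        rw [Measure.volume_eq_prod, Measure.prod_prod, Real.volume_Ioo, Real.volume_Ioo,
          ← ENNReal.ofReal_mul (by linarith)]
        congr 1
        ring

theorem gp_vol (q : ℂ) (δ : ℝ) (hδ : 0 < δ) : volume (ball q δ) = ENNReal.ofReal (Real.pi * δ ^ 2) := by
  rw [Complex.volume_ball, ← ENNReal.ofReal_coe_nnreal, NNReal.coe_real_pi,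
    ← ENNReal.ofReal_pow hδ.le, ← ENNReal.ofReal_mul (by positivity)]
  congr 1
  ring

theorem gp_kernel (q z : ℂ) (δ : ℝ) (hδ : 0 < δ) :
    ∫⁻ p in ball q δ, ENNReal.ofReal ‖z - p‖⁻¹ ≤ ENNReal.ofReal (3 * Real.pi * δ) := by
  have h1 : ∀ p : ℂ, ENNReal.ofReal ‖z - p‖⁻¹ ≤ gpk δ (z - p) + ENNReal.ofReal δ⁻¹ := by
    intro p
    unfold gpk
    by_cases h : z - p ∈ ball (0 : ℂ) δ
    · rw [Set.indicator_of_mem h]
      exact le_self_add
    · rw [Set.indicator_of_notMem h, zero_add]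
      apply ENNReal.ofReal_le_ofReal
      rw [mem_ball_zero_iff, not_lt] at h
      exact inv_anti₀ hδ h
  calc ∫⁻ p in ball q δ, ENNReal.ofReal ‖z - p‖⁻¹
      ≤ ∫⁻ p in ball q δ, (gpk δ (z - p) + ENNReal.ofReal δ⁻¹) := lintegral_mono h1
    _ = (∫⁻ p in ball q δ, gpk δ (z - p)) + ∫⁻ p in ball q δ, ENNReal.ofReal δ⁻¹ := by
        rw [lintegral_add_right _ measurable_const]
    _ ≤ (∫⁻ p, gpk δ (z - p)) + ENNReal.ofReal δ⁻¹ * volume (ball q δ) := by
        gcongr
        · exact Measure.restrict_le_self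
        · rw [setLIntegral_const]
    _ = (∫⁻ p, gpk δ p) + ENNReal.ofReal δ⁻¹ * volume (ball q δ) := by
        rw [lintegral_sub_left_eq_self (gpk δ) z]
    _ ≤ ENNReal.ofReal (2 * Real.pi * δ) + ENNReal.ofReal δ⁻¹ * ENNReal.ofReal (Real.pi * δ ^ 2) := by
        rw [gp_vol q δ hδ]
        gcongr
        exact gpk_int δ hδ
    _ = ENNReal.ofReal (3 * Real.pi * δ) := by
        rw [← ENNReal.ofReal_mul (by positivity), ← ENNReal.ofReal_add (by positivity) (by positivity)]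
        congr 1
        field_simp
        ring

/-- a point of a small disc at which the local Newton-type potential is controlled by its average -/
theorem good_point (m : ℂ → ℝ) (hm : Integrable m) (hm0 : ∀ z, 0 ≤ m z) (q : ℂ) (δ : ℝ) (hδ : 0 < δ) :
    ∃ p ∈ ball q δ, Integrable (fun z => m z / ‖z - p‖) ∧
      ∫ z in ball p (4 * δ), m z / ‖z - p‖ ≤ 3 / δ * ∫ z in ball q (5 * δ), m z := by
  obtain ⟨g, hg, hmg⟩ : ∃ g : ℂ → ℝ≥0∞, Measurable g ∧ (fun z => ENNReal.ofReal (m z)) =ᵐ[volume] g :=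
    ⟨_, hm.1.aemeasurable.ennreal_ofReal.measurable_mk, hm.1.aemeasurable.ennreal_ofReal.ae_eq_mk⟩
  have hjm : Measurable (fun x : ℂ × ℂ => g x.2 * ENNReal.ofReal ‖x.2 - x.1‖⁻¹) := by fun_prop
  set I : ℝ≥0∞ := ∫⁻ z in ball q (5 * δ), g z with hI
  have hIeq : I = ENNReal.ofReal (∫ z in ball q (5 * δ), m z) := by
    rw [ofReal_integral_eq_lintegral_ofReal hm.integrableOn (Filter.Eventually.of_forall hm0), hI]
    exact lintegral_congr_ae (ae_restrict_of_ae hmg.symm)
  set Φ : ℂ → ℝ≥0∞ := fun p => ∫⁻ z in ball q (5 * δ), g z * ENNReal.ofReal ‖z - p‖⁻¹ with hΦ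
  have hΦm : Measurable Φ := by
    exact Measurable.lintegral_prod_right' (f := fun x : ℂ × ℂ => g x.2 * ENNReal.ofReal ‖x.2 - x.1‖⁻¹) hjm
  have hΦi : ∫⁻ p in ball q δ, Φ p ≤ ENNReal.ofReal (3 * Real.pi * δ) * I := by
    rw [hΦ]
    rw [lintegral_lintegral_swap (f := fun p z => g z * ENNReal.ofReal ‖z - p‖⁻¹) hjm.aemeasurable]
    calc ∫⁻ z in ball q (5 * δ), ∫⁻ p in ball q δ, g z * ENNReal.ofReal ‖z - p‖⁻¹
        = ∫⁻ z in ball q (5 * δ), g z * ∫⁻ p in ball q δ, ENNReal.ofReal ‖z - p‖⁻¹ := by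
          refine lintegral_congr fun z => ?_
          rw [lintegral_const_mul _ (by fun_prop)]
      _ ≤ ∫⁻ z in ball q (5 * δ), g z * ENNReal.ofReal (3 * Real.pi * δ) := by
          refine lintegral_mono fun z => ?_
          exact mul_le_mul_right (gp_kernel q z δ hδ) _
      _ = ENNReal.ofReal (3 * Real.pi * δ) * I := by
          rw [lintegral_mul_const _ hg, mul_comm]
  have hv0 : volume (ball q δ) ≠ 0 := by
    rw [gp_vol q δ hδ]
    exact (ENNReal.ofReal_pos.2 (by positivity)).ne'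
  have hvt : volume (ball q δ) ≠ ⊤ := by
    rw [gp_vol q δ hδ]; exact ENNReal.ofReal_ne_top
  obtain ⟨p, hp, hpΦ⟩ := exists_le_setLAverage hv0 hvt hΦm.aemeasurable
  have hΦp : Φ p ≤ ENNReal.ofReal (3 / δ) * I := by
    refine hpΦ.trans ?_
    rw [setLAverage_eq, gp_vol q δ hδ]
    calc (∫⁻ x in ball q δ, Φ x) / ENNReal.ofReal (Real.pi * δ ^ 2)
        ≤ (ENNReal.ofReal (3 * Real.pi * δ) * I) / ENNReal.ofReal (Real.pi * δ ^ 2) := by
          exact ENNReal.div_le_div_right hΦi _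
      _ = ENNReal.ofReal (3 / δ) * I := by
          rw [mul_comm (ENNReal.ofReal (3 * Real.pi * δ)), mul_div_assoc, mul_comm I]
          congr 1
          rw [← ENNReal.ofReal_div_of_pos (by positivity)]
          congr 1
          field_simp
  have hItop : I ≠ ⊤ := by rw [hIeq]; exact ENNReal.ofReal_ne_top
  have hΦtop : Φ p < ⊤ := lt_of_le_of_lt hΦp (ENNReal.mul_lt_top ENNReal.ofReal_lt_top hItop.lt_top)
  have hsub : ball p (4 * δ) ⊆ ball q (5 * δ) := by
    apply ball_subset_ball'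
    rw [mem_ball] at hp
    linarith
  have hae : ∀ᵐ z, ENNReal.ofReal (m z / ‖z - p‖) = g z * ENNReal.ofReal ‖z - p‖⁻¹ := by
    filter_upwards [hmg] with z hz
    rw [div_eq_mul_inv, ENNReal.ofReal_mul (hm0 z), hz]
  have hmeas : AEStronglyMeasurable (fun z => m z / ‖z - p‖) volume := by
    have h1 : Measurable fun z : ℂ => ‖z - p‖ := by fun_prop
    exact (hm.1.aemeasurable.div h1.aemeasurable).aestronglyMeasurable
  have hnn : ∀ z, 0 ≤ m z / ‖z - p‖ := fun z => div_nonneg (hm0 z) (norm_nonneg _)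
  refine ⟨p, hp, ⟨hmeas, ?_⟩, ?_⟩
  · rw [hasFiniteIntegral_iff_ofReal (Filter.Eventually.of_forall hnn),
      ← lintegral_add_compl _ (measurableSet_ball (x := q) (ε := 5 * δ))]
    refine ENNReal.add_lt_top.2 ⟨?_, ?_⟩
    · rw [lintegral_congr_ae (ae_restrict_of_ae hae)]
      exact hΦtop
    · have h2 : ∀ z ∈ (ball q (5 * δ))ᶜ, ENNReal.ofReal (m z / ‖z - p‖) ≤
          ENNReal.ofReal (m z * (4 * δ)⁻¹) := by
        intro z hz
        apply ENNReal.ofReal_le_ofReal
        rw [div_eq_mul_inv]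
        refine mul_le_mul_of_nonneg_left ?_ (hm0 z)
        refine inv_anti₀ (by positivity) ?_
        have h3 : z ∉ ball p (4 * δ) := fun h => hz (hsub h)
        rw [mem_ball, not_lt, dist_eq_norm] at h3
        exact h3
      refine lt_of_le_of_lt (setLIntegral_mono' measurableSet_ball.compl h2) ?_
      refine lt_of_le_of_lt (setLIntegral_le_lintegral _ _) ?_
      have h4 := (hm.mul_const (4 * δ)⁻¹).2
      rwa [hasFiniteIntegral_iff_ofReal (Filter.Eventually.of_forall fun z =>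
        mul_nonneg (hm0 z) (by positivity))] at h4
  · rw [integral_eq_lintegral_of_nonneg_ae (Filter.Eventually.of_forall hnn) hmeas.restrict]
    have h5 : ∫⁻ z in ball p (4 * δ), ENNReal.ofReal (m z / ‖z - p‖) ≤
        ENNReal.ofReal (3 / δ * ∫ z in ball q (5 * δ), m z) := by
      rw [ENNReal.ofReal_mul (by positivity), ← hIeq]
      refine le_trans ?_ hΦp
      rw [lintegral_congr_ae (ae_restrict_of_ae hae)]
      exact lintegral_mono_set hsub
    have h6 := ENNReal.toReal_mono ENNReal.ofReal_ne_top h5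
    rwa [ENNReal.toReal_ofReal] at h6
    exact mul_nonneg (by positivity) (integral_nonneg fun z => hm0 z)
end AC
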