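import Pool.Agent.Helper303.Ac3
import Pool.Agent.Helper303.AcG
open MeasureTheory Set Metric
namespace AC

/-- the four nonnegative parts of a complex number -/
noncomputable def cpart (e : Fin 4) (w : ℂ) : ℝ :=
  ![max 0 w.re, max 0 (-w.re), max 0 w.im, max 0 (-w.im)] e

lemma cpart_nonneg (e : Fin 4) (w : ℂ) : 0 ≤ cpart e w := by
  fin_cases e <;> simp [cpart]

lemma cpart_le (e : Fin 4) (w : ℂ) : cpart e w ≤ ‖w‖ := by
  have h1 := Complex.abs_re_le_norm w
  have h2 := Complex.abs_im_le_norm w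
  have h3 := norm_nonneg w
  have h4 := abs_le.mp h1
  have h5 := abs_le.mp h2
  fin_cases e <;> simp [cpart] <;> linarith

lemma cpart_cont (e : Fin 4) : Continuous (cpart e) := by
  have h1 := Complex.continuous_re
  have h2 := Complex.continuous_im
  fin_cases e
  · exact continuous_const.max h1
  · exact continuous_const.max h1.neg
  · exact continuous_const.max h2
  · exact continuous_const.max h2.neg

lemma cpart_decomp (w : ℂ) :
    w = ((cpart 0 w : ℝ) : ℂ) - ((cpart 1 w : ℝ) : ℂ) + Complex.I * (((cpart 2 w : ℝ) : ℂ) - ((cpart 3 w : ℝ) : ℂ)) := by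
  have h : ∀ x : ℝ, max 0 x - max 0 (-x) = x := by
    intro x
    rcases le_total 0 x with h | h
    · rw [max_eq_right h, max_eq_left (by linarith)]; ring
    · rw [max_eq_left h, max_eq_right (by linarith)]; ring
  apply Complex.ext
  · simp [cpart]
    exact (h _).symm
  · simp [cpart]
    exact (h _).symm

lemma cpart_sum (w : ℂ) : ∑ e, cpart e w = |w.re| + |w.im| := by
  have h : ∀ x : ℝ, max 0 x + max 0 (-x) = |x| := by
    intro x
    rcases le_total 0 x with h | h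
    · rw [max_eq_right h, max_eq_left (by linarith), abs_of_nonneg h]; ring
    · rw [max_eq_left h, max_eq_right (by linarith), abs_of_nonpos h]; ring
  rw [Fin.sum_univ_four, ← h, ← h]
  simp [cpart]
  ring

lemma cpart_sum_ge (w : ℂ) : ‖w‖ ≤ ∑ e, cpart e w := by
  rw [cpart_sum]
  exact Complex.norm_le_abs_re_add_abs_im w

lemma cpart_sum_le (w : ℂ) : ∑ e, cpart e w ≤ 2 * ‖w‖ := by
  rw [cpart_sum]
  have h1 := Complex.abs_re_le_norm w
  have h2 := Complex.abs_im_le_norm w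
  linarith

lemma int_part {G : ℂ → ℂ} (hG : Integrable G) (K : ℝ) (e : Fin 4) :
    Integrable (fun z => K * cpart e (G z)) := by
  apply Integrable.const_mul
  refine hG.norm.mono' ((cpart_cont e).comp_aestronglyMeasurable hG.1) ?_
  filter_upwards with z
  rw [Real.norm_eq_abs, abs_of_nonneg (cpart_nonneg _ _)]
  exact cpart_le _ _

noncomputable def dens (K : ℝ) (e : Fin 4) (G : ℂ → ℂ) : Measure ℂ :=
  volume.withDensity (fun z => ENNReal.ofReal (K * cpart e (G z)))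

lemma dens_fin {G : ℂ → ℂ} (hG : Integrable G) (K : ℝ) (e : Fin 4) :
    IsFiniteMeasure (dens K e G) :=
  isFiniteMeasure_withDensity_ofReal (int_part hG K e).2

lemma dens_real {G : ℂ → ℂ} (hG : Integrable G) {K : ℝ} (hK : 0 ≤ K) (e : Fin 4) {S : Set ℂ}
    (hS : MeasurableSet S) : (dens K e G).real S = ∫ z in S, K * cpart e (G z) := by
  rw [measureReal_def, dens, withDensity_apply _ hS, integral_eq_lintegral_of_nonneg_ae]
  · filter_upwards with z
    exact mul_nonneg hK (cpart_nonneg _ _)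
  · exact (int_part hG K e).1.restrict

lemma far_dens {G : ℂ → ℂ} (hG : Integrable G) {K : ℝ} (hK : 0 ≤ K) (e : Fin 4) (r : ℝ) (p : ℂ) :
    far (dens K e G) r p = ∫ z in {z : ℂ | r ≤ ‖z - p‖}, ((K * cpart e (G z) : ℝ) : ℂ) * (z - p)⁻¹ := by
  rw [far, dens, setIntegral_withDensity_eq_setIntegral_toReal_smul₀']
  · refine integral_congr_ae ?_
    filter_upwards with z
    rw [ENNReal.toReal_ofReal (mul_nonneg hK (cpart_nonneg _ _)), Complex.real_smul]
  · exact (int_part hG K e).1.restrict.aemeasurable.ennreal_ofReal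
  · filter_upwards with z
    exact ENNReal.ofReal_lt_top

lemma measA (r : ℝ) (p : ℂ) : MeasurableSet {z : ℂ | r ≤ ‖z - p‖} :=
  measurableSet_le measurable_const (by fun_prop)

lemma L1 {G : ℂ → ℂ} (hG : Integrable G) {K : ℝ} (hK : 0 ≤ K) {r : ℝ} (hr : 0 < r) (p : ℂ) :
    K * ‖∫ z in {z : ℂ | r ≤ ‖z - p‖}, G z / (z - p)‖ ≤ ∑ e, ‖far (dens K e G) r p‖ := by
  have hint : ∀ e : Fin 4, IntegrableOn (fun z => ((K * cpart e (G z) : ℝ) : ℂ) * (z - p)⁻¹)
      {z : ℂ | r ≤ ‖z - p‖} := by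
    intro e
    have h1 : Integrable (fun z => r⁻¹ * (K * cpart e (G z))) := (int_part hG K e).const_mul _
    refine h1.integrableOn.mono' ?_ ?_
    · refine AEStronglyMeasurable.mul ?_ ?_
      · exact Complex.continuous_ofReal.comp_aestronglyMeasurable (int_part hG K e).1.restrict
      · exact Measurable.aestronglyMeasurable (by fun_prop)
    · rw [ae_restrict_iff' (measA r p)]
      filter_upwards with z hz
      have hz' : r ≤ ‖z - p‖ := hz
      rw [norm_mul, norm_inv, Complex.norm_real, Real.norm_eq_abs,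
        abs_of_nonneg (mul_nonneg hK (cpart_nonneg _ _)), mul_comm]
      exact mul_le_mul_of_nonneg_right (inv_anti₀ hr hz') (mul_nonneg hK (cpart_nonneg _ _))
  have heq : (K : ℂ) * ∫ z in {z : ℂ | r ≤ ‖z - p‖}, G z / (z - p) =
      far (dens K 0 G) r p - far (dens K 1 G) r p +
        Complex.I * (far (dens K 2 G) r p - far (dens K 3 G) r p) := by
    have hi01 : IntegrableOn (fun z => ((K * cpart 0 (G z) : ℝ) : ℂ) * (z - p)⁻¹ -
        ((K * cpart 1 (G z) : ℝ) : ℂ) * (z - p)⁻¹) {z : ℂ | r ≤ ‖z - p‖} := (hint 0).sub (hint 1)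
    have hi23 : IntegrableOn (fun z => Complex.I * (((K * cpart 2 (G z) : ℝ) : ℂ) * (z - p)⁻¹ -
        ((K * cpart 3 (G z) : ℝ) : ℂ) * (z - p)⁻¹)) {z : ℂ | r ≤ ‖z - p‖} :=
      ((hint 2).sub (hint 3)).const_mul _
    rw [far_dens hG hK, far_dens hG hK, far_dens hG hK, far_dens hG hK,
      ← integral_sub (hint 0) (hint 1), ← integral_sub (hint 2) (hint 3), ← integral_const_mul,
      ← integral_const_mul, ← integral_add hi01 hi23]
    refine integral_congr_ae ?_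
    filter_upwards with z
    conv_lhs => rw [cpart_decomp (G z)]
    push_cast
    ring
  have h2 : K * ‖∫ z in {z : ℂ | r ≤ ‖z - p‖}, G z / (z - p)‖ =
      ‖(K : ℂ) * ∫ z in {z : ℂ | r ≤ ‖z - p‖}, G z / (z - p)‖ := by
    rw [norm_mul, Complex.norm_real, Real.norm_eq_abs, abs_of_nonneg hK]
  rw [h2, heq, Fin.sum_univ_four]
  refine (norm_add_le _ _).trans ?_
  rw [norm_mul, Complex.norm_I, one_mul]
  have h3 := norm_sub_le (far (dens K 0 G) r p) (far (dens K 1 G) r p)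
  have h4 := norm_sub_le (far (dens K 2 G) r p) (far (dens K 3 G) r p)
  linarith

lemma L2 {G : ℂ → ℂ} (hG : Integrable G) {K : ℝ} (hK : 0 ≤ K) :
    ∑ e, (dens K e G).real univ ≤ 2 * K * ∫ z, ‖G z‖ := by
  have h1 : ∑ e, (dens K e G).real univ = ∫ z, ∑ e, K * cpart e (G z) := by
    rw [integral_finsetSum _ (fun e _ => int_part hG K e)]
    refine Finset.sum_congr rfl fun e _ => ?_
    rw [dens_real hG hK e MeasurableSet.univ, setIntegral_univ]
  rw [h1, ← integral_const_mul]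
  refine integral_mono ?_ ?_ ?_
  · exact integrable_finsetSum _ (fun e _ => int_part hG K e)
  · exact hG.norm.const_mul _
  · intro z
    simp only
    rw [← Finset.mul_sum]
    have := mul_le_mul_of_nonneg_left (cpart_sum_le (G z)) hK
    linarith

lemma L3 {G : ℂ → ℂ} (hG : Integrable G) {K : ℝ} (hK : 0 ≤ K) {S : Set ℂ} (hS : MeasurableSet S) :
    K * ∫ z in S, ‖G z‖ ≤ ∑ e, (dens K e G).real S := by
  have h1 : ∑ e, (dens K e G).real S = ∫ z in S, ∑ e, K * cpart e (G z) := by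
    rw [integral_finsetSum _ (fun e _ => (int_part hG K e).integrableOn)]
    refine Finset.sum_congr rfl fun e _ => ?_
    rw [dens_real hG hK e hS]
  rw [h1, ← integral_const_mul]
  refine integral_mono ?_ ?_ ?_
  · exact (hG.norm.const_mul _).integrableOn
  · exact integrable_finsetSum _ (fun e _ => (int_part hG K e).integrableOn)
  · intro z
    simp only
    rw [← Finset.mul_sum]
    exact mul_le_mul_of_nonneg_left (cpart_sum_ge (G z)) hK

/-- the family of measures -/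
noncomputable def fam (K : ℝ) (G1 G2 : ℂ → ℂ) : Fin 2 × Fin 4 → Measure ℂ :=
  fun k => dens K k.2 (![G1, G2] k.1)

lemma sum_fam (F : Measure ℂ → ℝ) (K : ℝ) (G1 G2 : ℂ → ℂ) :
    ∑ k, F (fam K G1 G2 k) = (∑ e, F (dens K e G1)) + ∑ e, F (dens K e G2) := by
  rw [Fintype.sum_prod_type, Fin.sum_univ_two]
  rfl

lemma cond_fam {G1 G2 : ℂ → ℂ} (h1 : Integrable G1) (h2 : Integrable G2) {δ : ℝ} (hδ : 0 < δ)
    {q p : ℂ} (hp : p ∈ ball q δ)
    (hint : Integrable (fun z => (‖G1 z‖ + ‖G2 z‖) / ‖z - p‖))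
    (hle : ∫ z in ball p (4 * δ), (‖G1 z‖ + ‖G2 z‖) / ‖z - p‖ ≤
      3 / δ * ∫ z in ball q (5 * δ), (‖G1 z‖ + ‖G2 z‖))
    (hone : 1 ≤ ‖∫ z, G1 z / (z - p)‖ + ‖∫ z, G2 z / (z - p)‖) :
    cond (fam 24 G1 G2) (4 * δ) p := by
  have hi : ∀ G : ℂ → ℂ, Integrable G → (∀ z, ‖G z‖ ≤ ‖G1 z‖ + ‖G2 z‖) →
      Integrable (fun z => G z / (z - p)) := by
    intro G hG hGle
    refine hint.mono' ?_ ?_
    · exact (hG.1.mul (Measurable.aestronglyMeasurable (f := fun z : ℂ => (z - p)⁻¹) (by fun_prop)))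
    · filter_upwards with z
      rw [norm_div]
      exact div_le_div_of_nonneg_right (hGle z) (norm_nonneg _)
  have hi1 := hi G1 h1 (fun z => by linarith [norm_nonneg (G2 z)])
  have hi2 := hi G2 h2 (fun z => by linarith [norm_nonneg (G1 z)])
  have hA : MeasurableSet {z : ℂ | 4 * δ ≤ ‖z - p‖} := measA _ _
  have hAc : {z : ℂ | 4 * δ ≤ ‖z - p‖}ᶜ = ball p (4 * δ) := by
    ext z
    simp [dist_eq_norm]
  have hsplit : ∀ G : ℂ → ℂ, Integrable (fun z => G z / (z - p)) →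
      ‖∫ z, G z / (z - p)‖ ≤ ‖∫ z in {z : ℂ | 4 * δ ≤ ‖z - p‖}, G z / (z - p)‖ +
        ∫ z in ball p (4 * δ), ‖G z‖ / ‖z - p‖ := by
    intro G hG
    rw [← integral_add_compl hA hG, hAc]
    refine (norm_add_le _ _).trans (add_le_add le_rfl ?_)
    refine (norm_integral_le_integral_norm _).trans (le_of_eq ?_)
    refine integral_congr_ae ?_
    filter_upwards with z
    rw [norm_div]
  have hs1 := hsplit G1 hi1
  have hs2 := hsplit G2 hi2
  have hn1 : IntegrableOn (fun z => ‖G1 z‖ / ‖z - p‖) (ball p (4 * δ)) := by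
    have := hi1.norm.integrableOn (s := ball p (4 * δ))
    simpa only [norm_div] using this
  have hn2 : IntegrableOn (fun z => ‖G2 z‖ / ‖z - p‖) (ball p (4 * δ)) := by
    have := hi2.norm.integrableOn (s := ball p (4 * δ))
    simpa only [norm_div] using this
  have hsum : (∫ z in ball p (4 * δ), ‖G1 z‖ / ‖z - p‖) + ∫ z in ball p (4 * δ), ‖G2 z‖ / ‖z - p‖ =
      ∫ z in ball p (4 * δ), (‖G1 z‖ + ‖G2 z‖) / ‖z - p‖ := by
    rw [← integral_add hn1 hn2]
    refine integral_congr_ae ?_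
    filter_upwards with z
    rw [add_div]
  have hf1 := L1 h1 (K := 24) (by norm_num) (r := 4 * δ) (by linarith) p
  have hf2 := L1 h2 (K := 24) (by norm_num) (r := 4 * δ) (by linarith) p
  by_cases hcase : ∫ z in ball p (4 * δ), (‖G1 z‖ + ‖G2 z‖) / ‖z - p‖ ≤ 1 / 2
  · left
    rw [sfar, sum_fam (fun g => ‖far g (4 * δ) p‖)]
    have : 1 / 2 ≤ ‖∫ z in {z : ℂ | 4 * δ ≤ ‖z - p‖}, G1 z / (z - p)‖ +
        ‖∫ z in {z : ℂ | 4 * δ ≤ ‖z - p‖}, G2 z / (z - p)‖ := by
      linarith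
    linarith
  · right
    rw [bmass, sum_fam (fun g => g.real (closedBall p (4 * (4 * δ))))]
    have hl1 := L3 h1 (K := 24) (by norm_num) (S := closedBall p (4 * (4 * δ))) measurableSet_closedBall
    have hl2 := L3 h2 (K := 24) (by norm_num) (S := closedBall p (4 * (4 * δ))) measurableSet_closedBall
    have hsub : ball q (5 * δ) ⊆ closedBall p (4 * (4 * δ)) := by
      intro z hz
      rw [mem_ball] at hz hp
      rw [mem_closedBall]
      have := dist_triangle z q p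
      rw [dist_comm q p] at this
      linarith
    have hmono : ∫ z in ball q (5 * δ), (‖G1 z‖ + ‖G2 z‖) ≤
        ∫ z in closedBall p (4 * (4 * δ)), (‖G1 z‖ + ‖G2 z‖) := by
      refine setIntegral_mono_set (h1.norm.add h2.norm).integrableOn ?_ hsub.eventuallyLE
      filter_upwards with z
      exact add_nonneg (norm_nonneg _) (norm_nonneg _)
    have hadd : ∫ z in closedBall p (4 * (4 * δ)), (‖G1 z‖ + ‖G2 z‖) =
        (∫ z in closedBall p (4 * (4 * δ)), ‖G1 z‖) + ∫ z in closedBall p (4 * (4 * δ)), ‖G2 z‖ :=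
      integral_add h1.norm.integrableOn h2.norm.integrableOn
    push Not at hcase
    have hgt : 1 / 2 < 3 / δ * ∫ z in ball q (5 * δ), (‖G1 z‖ + ‖G2 z‖) := lt_of_lt_of_le hcase hle
    have hgt2 : δ / 6 < ∫ z in ball q (5 * δ), (‖G1 z‖ + ‖G2 z‖) := by
      have h6 : 1 / 2 * (δ / 3) < (3 / δ * ∫ z in ball q (5 * δ), (‖G1 z‖ + ‖G2 z‖)) * (δ / 3) :=
        mul_lt_mul_of_pos_right hgt (by linarith)
      have h7 : (3 / δ * ∫ z in ball q (5 * δ), (‖G1 z‖ + ‖G2 z‖)) * (δ / 3) =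
          ∫ z in ball q (5 * δ), (‖G1 z‖ + ‖G2 z‖) := by
        field_simp
      rw [h7] at h6
      linarith
    linarith

theorem star2
    (good_point : ∀ (m : ℂ → ℝ) (_ : Integrable m) (_ : ∀ z, 0 ≤ m z) (q : ℂ) (δ : ℝ) (_ : 0 < δ),
      ∃ p ∈ ball q δ, Integrable (fun z => m z / ‖z - p‖) ∧
        ∫ z in ball p (4 * δ), m z / ‖z - p‖ ≤ 3 / δ * ∫ z in ball q (5 * δ), m z)
    (star : ∀ (ι : Type) [Fintype ι], ∃ c : ℝ, 0 < c ∧ ∀ (g : ι → Measure ℂ),
      (∀ k, IsFiniteMeasure (g k)) → ∀ (h : ℝ), 0 < h → ∀ (n : ℕ) (p : ℕ → ℂ),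
      (∀ i < n, ‖p (i + 1) - p i‖ ≤ h) → (∀ i ≤ n, cond g h (p i)) →
      c * ‖p n - p 0‖ ≤ mass g) :
    ∃ c : ℝ, 0 < c ∧ ∀ (G1 G2 : ℂ → ℂ), Integrable G1 → Integrable G2 → ∀ (N : Set ℂ), IsOpen N →
      (∀ p ∈ N, Integrable (fun z => (‖G1 z‖ + ‖G2 z‖) / ‖z - p‖) →
        1 ≤ ‖∫ z, G1 z / (z - p)‖ + ‖∫ z, G2 z / (z - p)‖) →
      ∀ (γ : ℝ → ℂ) (a b : ℝ), a ≤ b → ContinuousOn γ (Icc a b) → (∀ t ∈ Icc a b, γ t ∈ N) →
      c * ‖γ a - γ b‖ ≤ (∫ z, ‖G1 z‖) + ∫ z, ‖G2 z‖ := by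
  obtain ⟨c0, hc0, hstar⟩ := star (Fin 2 × Fin 4)
  refine ⟨c0 / 96, by positivity, ?_⟩
  intro G1 G2 h1 h2 N hN hone γ a b hab hγ hγN
  have hnn1 : 0 ≤ ∫ z, ‖G1 z‖ := integral_nonneg fun z => norm_nonneg _
  have hnn2 : 0 ≤ ∫ z, ‖G2 z‖ := integral_nonneg fun z => norm_nonneg _
  by_cases hD : ‖γ a - γ b‖ = 0
  · rw [hD, mul_zero]; linarith
  have hDpos : 0 < ‖γ a - γ b‖ := lt_of_le_of_ne (norm_nonneg _) (Ne.symm hD)
  have hcpt : IsCompact (γ '' Icc a b) := isCompact_Icc.image_of_continuousOn hγ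
  obtain ⟨h, hh, hthick⟩ := hcpt.exists_thickening_subset_open hN (by
    rintro _ ⟨t, ht, rfl⟩
    exact hγN t ht)
  obtain ⟨δ, hδ, hδh, hδD⟩ : ∃ δ : ℝ, 0 < δ ∧ δ ≤ h ∧ δ ≤ ‖γ a - γ b‖ / 4 :=
    ⟨min h (‖γ a - γ b‖ / 4), lt_min hh (by linarith), min_le_left _ _, min_le_right _ _⟩
  have huc := isCompact_Icc.uniformContinuousOn_of_continuous hγ
  rw [Metric.uniformContinuousOn_iff] at huc
  obtain ⟨η, hη, hucη⟩ := huc δ hδ
  obtain ⟨n, hn⟩ := exists_nat_gt ((b - a) / η)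
  set M : ℝ := (n : ℝ) + 1 with hM
  have hMpos : 0 < M := by positivity
  let t : ℕ → ℝ := fun i => a + i * ((b - a) / M)
  have ht0 : t 0 = a := by simp [t]
  have htn : t (n + 1) = b := by
    simp only [t]
    push_cast
    rw [← hM]
    field_simp
    ring
  have hstep0 : 0 ≤ (b - a) / M := div_nonneg (by linarith) hMpos.le
  have htmem : ∀ i ≤ n + 1, t i ∈ Icc a b := by
    intro i hi
    constructor
    · simp only [t]
      have : 0 ≤ (i : ℝ) * ((b - a) / M) := by positivity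
      linarith
    · rw [← htn]
      simp only [t]
      have : (i : ℝ) ≤ ((n + 1 : ℕ) : ℝ) := by exact_mod_cast hi
      have := mul_le_mul_of_nonneg_right this hstep0
      linarith
  have htstep : ∀ i, dist (t (i + 1)) (t i) < η := by
    intro i
    rw [Real.dist_eq]
    have : t (i + 1) - t i = (b - a) / M := by
      simp only [t]; push_cast; ring
    rw [this, abs_of_nonneg hstep0, div_lt_iff₀ hMpos]
    rw [div_lt_iff₀ hη] at hn
    nlinarith
  have hm : Integrable (fun z => ‖G1 z‖ + ‖G2 z‖) := h1.norm.add h2.norm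
  have hgp := fun i : ℕ => good_point (fun z => ‖G1 z‖ + ‖G2 z‖) hm
    (fun z => add_nonneg (norm_nonneg _) (norm_nonneg _)) (γ (t i)) δ hδ
  choose p hpb hpi hple using hgp
  have hpN : ∀ i ≤ n + 1, p i ∈ N := by
    intro i hi
    apply hthick
    rw [mem_thickening_iff]
    refine ⟨γ (t i), ⟨t i, htmem i hi, rfl⟩, ?_⟩
    have := hpb i
    rw [mem_ball] at this
    linarith
  have hcond : ∀ i ≤ n + 1, cond (fam 24 G1 G2) (4 * δ) (p i) := by
    intro i hi
    exact cond_fam h1 h2 hδ (hpb i) (hpi i) (hple i) (hone _ (hpN i hi) (hpi i))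
  have hstep : ∀ i < n + 1, ‖p (i + 1) - p i‖ ≤ 4 * δ := by
    intro i hi
    have e1 := hpb i
    have e2 := hpb (i + 1)
    rw [mem_ball] at e1 e2
    have e3 := hucη (t (i + 1)) (htmem _ (by omega)) (t i) (htmem _ (by omega)) (htstep i)
    rw [← dist_eq_norm]
    have e4 := dist_triangle4 (p (i + 1)) (γ (t (i + 1))) (γ (t i)) (p i)
    rw [dist_comm (γ (t i)) (p i)] at e4
    linarith
  have hfin : ∀ k, IsFiniteMeasure (fam 24 G1 G2 k) := by
    rintro ⟨i, e⟩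
    fin_cases i
    · exact dens_fin h1 24 e
    · exact dens_fin h2 24 e
  have hmain := hstar (fam 24 G1 G2) hfin (4 * δ) (by linarith) (n + 1) p hstep hcond
  have hmass : mass (fam 24 G1 G2) ≤ 48 * ((∫ z, ‖G1 z‖) + ∫ z, ‖G2 z‖) := by
    rw [mass, sum_fam (fun g => g.real univ)]
    have e1 := L2 h1 (K := 24) (by norm_num)
    have e2 := L2 h2 (K := 24) (by norm_num)
    linarith
  have hdist : ‖γ a - γ b‖ / 2 ≤ ‖p (n + 1) - p 0‖ := by
    have e1 := hpb 0
    have e2 := hpb (n + 1)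
    rw [ht0] at e1
    rw [htn] at e2
    rw [mem_ball] at e1 e2
    rw [← dist_eq_norm, ← dist_eq_norm] at *
    have e4 := dist_triangle4 (γ a) (p 0) (p (n + 1)) (γ b)
    rw [dist_comm (γ a) (p 0), dist_comm (p 0) (p (n + 1))] at e4
    linarith
  have e5 : c0 * (‖γ a - γ b‖ / 2) ≤ 48 * ((∫ z, ‖G1 z‖) + ∫ z, ‖G2 z‖) :=
    ((mul_le_mul_of_nonneg_left hdist hc0.le).trans hmain).trans hmass
  linarith

theorem star2' : ∃ c : ℝ, 0 < c ∧ ∀ (G1 G2 : ℂ → ℂ), Integrable G1 → Integrable G2 → ∀ (N : Set ℂ), IsOpen N →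
      (∀ p ∈ N, Integrable (fun z => (‖G1 z‖ + ‖G2 z‖) / ‖z - p‖) →
        1 ≤ ‖∫ z, G1 z / (z - p)‖ + ‖∫ z, G2 z / (z - p)‖) →
      ∀ (γ : ℝ → ℂ) (a b : ℝ), a ≤ b → ContinuousOn γ (Icc a b) → (∀ t ∈ Icc a b, γ t ∈ N) →
      c * ‖γ a - γ b‖ ≤ (∫ z, ‖G1 z‖) + ∫ z, ‖G2 z‖ :=
  star2 good_point (fun ι _ => star ι)

end AC
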