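import Pool.Agent.Helper303.Domain3

set_option autoImplicit false
open Filter Topology Asymptotics Metric

namespace Pool.Agent.Helper303

/-- The barrier profile. -/
noncomputable def Bar (r : ℝ) (y : ℂ) : ℝ :=
  C1c - Real.log (‖y‖ ^ 2 + r ^ 2) / 2 - Cc * √(‖y‖ ^ 2 + r ^ 2)

lemma bar_lap {r : ℝ} (hr : 0 < r) {f : ℂ → ℂ} {Y : ℂ} (hf : HasTwo f Y) :
    ∃ g l, HasLap (fun k => Bar r (f k)) g l ∧
      ‖g‖ ≤ (1 / √(‖f 0‖ ^ 2 + r ^ 2) + Cc) * ‖Y‖ ∧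
      l ≤ -(Cc * ‖Y‖ ^ 2 / √(‖f 0‖ ^ 2 + r ^ 2)) := by
  set t₀ := ‖f 0‖ ^ 2 with ht₀
  set R := √(t₀ + r ^ 2) with hR
  have ht0 : 0 ≤ t₀ := sq_nonneg _
  have hpos : 0 < t₀ + r ^ 2 := by positivity
  have hR0 : 0 < R := Real.sqrt_pos.2 hpos
  have hR2 : R ^ 2 = t₀ + r ^ 2 := Real.sq_sqrt hpos.le
  have hCc := Cc_pos
  have hder : ∀ t : ℝ, 0 < t + r ^ 2 → HasDerivAt
      (fun t => C1c - Real.log (t + r ^ 2) / 2 - Cc * √(t + r ^ 2))
      (-(1 / (2 * (t + r ^ 2))) - Cc / (2 * √(t + r ^ 2))) t := by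
    intro t ht
    have h1 : HasDerivAt (fun t : ℝ => t + r ^ 2) 1 t := (hasDerivAt_id t).add_const _
    have h2 := (h1.log ht.ne').div_const 2
    have h3 := (h1.sqrt ht.ne').const_mul Cc
    have h4 := (h2.const_sub C1c).sub h3
    refine h4.congr_deriv ?_
    field_simp
  have hder2 : HasDerivAt (fun t => -(1 / (2 * (t + r ^ 2))) - Cc / (2 * √(t + r ^ 2)))
      (1 / (2 * R ^ 4) + Cc / (4 * R ^ 3)) t₀ := by
    have h1 : HasDerivAt (fun t : ℝ => t + r ^ 2) 1 t₀ := (hasDerivAt_id t₀).add_const _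
    have h2 : HasDerivAt (fun t : ℝ => 2 * (t + r ^ 2)) (2 * 1) t₀ := h1.const_mul 2
    have h3 : HasDerivAt (fun t : ℝ => 2 * √(t + r ^ 2)) (2 * (1 / (2 * √(t₀ + r ^ 2)))) t₀ :=
      (h1.sqrt hpos.ne').const_mul 2
    have h2' := h2.inv (by positivity : 2 * (t₀ + r ^ 2) ≠ 0)
    have h3' := h3.inv (by rw [← hR]; positivity : 2 * √(t₀ + r ^ 2) ≠ 0)
    have h4 := (h2'.neg).sub (h3'.const_mul Cc)
    have e1 : (fun t : ℝ => -(1 / (2 * (t + r ^ 2))) - Cc / (2 * √(t + r ^ 2)))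
        = fun t => -((2 * (t + r ^ 2))⁻¹) - Cc * (2 * √(t + r ^ 2))⁻¹ := by
      funext t; rw [one_div, div_eq_mul_inv]
    rw [e1]
    refine h4.congr_deriv ?_
    rw [← hR, ← hR2]
    field_simp
    ring
  have hcomp := hf.normSq.comp (F := fun t => C1c - Real.log (t + r ^ 2) / 2 - Cc * √(t + r ^ 2))
    (taylor_two_real (x := t₀) (F' := fun t => -(1 / (2 * (t + r ^ 2))) - Cc / (2 * √(t + r ^ 2)))
      (F₂ := 1 / (2 * R ^ 4) + Cc / (4 * R ^ 3)) (by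
        have h1 : ∀ᶠ t in 𝓝 t₀, 0 < t + r ^ 2 := by
          have : Continuous fun t : ℝ => t + r ^ 2 := by fun_prop
          exact this.continuousAt.eventually (Ioi_mem_nhds hpos)
        filter_upwards [h1] with t ht
        exact hder t ht) hder2)
  rw [← hR] at hcomp
  refine ⟨_, _, hcomp, ?_, ?_⟩
  · rw [norm_mul, norm_mul, norm_mul, RCLike.norm_conj, Complex.norm_two, Complex.norm_real]
    have h1 : ‖(-(1 / (2 * (t₀ + r ^ 2))) - Cc / (2 * R) : ℝ)‖ = 1 / (2 * R ^ 2) + Cc / (2 * R) := by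
      rw [← hR2, Real.norm_eq_abs, abs_of_nonpos]
      · ring
      · have : 0 ≤ 1 / (2 * R ^ 2) := by positivity
        have : 0 ≤ Cc / (2 * R) := by positivity
        linarith
    rw [h1]
    have h2 : ‖f 0‖ ≤ R := by
      rw [hR]; apply Real.le_sqrt_of_sq_le
      rw [← ht₀]; nlinarith [sq_nonneg r]
    calc (1 / (2 * R ^ 2) + Cc / (2 * R)) * (2 * (‖f 0‖ * ‖Y‖))
        ≤ (1 / (2 * R ^ 2) + Cc / (2 * R)) * (2 * (R * ‖Y‖)) := by gcongr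
      _ = (1 / R + Cc) * ‖Y‖ := by field_simp
  · have h1 : ‖2 * ((starRingEnd ℂ) (f 0) * Y)‖ ^ 2 = 4 * t₀ * ‖Y‖ ^ 2 := by
      rw [norm_mul, norm_mul, RCLike.norm_conj, Complex.norm_two, ht₀]; ring
    rw [h1, ← hR2]
    have h2 : t₀ = R ^ 2 - r ^ 2 := by linarith
    have h3 : (-(1 / (2 * R ^ 2)) - Cc / (2 * R)) * (4 * ‖Y‖ ^ 2)
        + (1 / (2 * R ^ 4) + Cc / (4 * R ^ 3)) * (4 * t₀ * ‖Y‖ ^ 2)
        = -(Cc * ‖Y‖ ^ 2 / R) - r ^ 2 * (4 * ‖Y‖ ^ 2) * (1 / (2 * R ^ 4) + Cc / (4 * R ^ 3)) := by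
      rw [h2]; field_simp; ring
    rw [h3]
    have h4 : 0 ≤ r ^ 2 * (4 * ‖Y‖ ^ 2) * (1 / (2 * R ^ 4) + Cc / (4 * R ^ 3)) := by positivity
    linarith

lemma Bar_le {r : ℝ} (hr : 0 < r) (y : ℂ) : Bar r y ≤ C1c - Real.log r := by
  have h1 : Real.log (r ^ 2) ≤ Real.log (‖y‖ ^ 2 + r ^ 2) := by
    apply Real.log_le_log (by positivity)
    linarith [sq_nonneg ‖y‖]
  rw [Real.log_pow] at h1
  push_cast at h1
  have h2 : 0 ≤ Cc * √(‖y‖ ^ 2 + r ^ 2) := mul_nonneg Cc_pos.le (Real.sqrt_nonneg _)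
  rw [Bar]; linarith

lemma Bar_nonneg {r : ℝ} (hr : 0 < r) (hr1 : r ≤ 1) {y : ℂ} (hy : ‖y‖ ≤ Mc + 1) : 0 ≤ Bar r y := by
  set R := √(‖y‖ ^ 2 + r ^ 2) with hR
  have hpos : 0 < ‖y‖ ^ 2 + r ^ 2 := by positivity
  have hR0 : 0 < R := Real.sqrt_pos.2 hpos
  have hlog : Real.log (‖y‖ ^ 2 + r ^ 2) / 2 = Real.log R := by
    rw [hR, Real.log_sqrt hpos.le]
  have hM := Mc_ge
  have hRle : R ≤ Mc + 2 := by
    rw [hR]
    apply Real.sqrt_le_iff.2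
    refine ⟨by linarith, ?_⟩
    have h1 : ‖y‖ ^ 2 ≤ (Mc + 1) ^ 2 := by gcongr
    have h2 : r ^ 2 ≤ 1 := pow_le_one₀ hr.le hr1
    nlinarith
  have h3 : Real.log R ≤ R := (Real.log_le_sub_one_of_pos hR0).trans (by linarith)
  have hC := Cc_pos
  rw [Bar, hlog, ← hR, C1c]
  nlinarith

lemma Bar_ge_two {g : ℝ} (hg : 0 < g) (hg1 : g ≤ 1) {y : ℂ} (hy : ‖y‖ ≤ 2 * rj g) :
    2 ≤ g * Bar (rj g) y := by
  have hr := rj_pos g
  have hr8 := rj_le hg hg1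
  set r := rj g with hrdef
  set R := √(‖y‖ ^ 2 + r ^ 2) with hR
  have hpos : 0 < ‖y‖ ^ 2 + r ^ 2 := by positivity
  have hR0 : 0 < R := Real.sqrt_pos.2 hpos
  have hlog : Real.log (‖y‖ ^ 2 + r ^ 2) / 2 = Real.log R := by
    rw [hR, Real.log_sqrt hpos.le]
  have hR3 : R ≤ 3 * r := by
    rw [hR]
    apply Real.sqrt_le_iff.2
    refine ⟨by positivity, ?_⟩
    have h1 : ‖y‖ ^ 2 ≤ (2 * r) ^ 2 := by gcongr
    nlinarith
  have h1 : Real.log R ≤ -2 / g := by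
    calc Real.log R ≤ Real.log (3 * r) := Real.log_le_log hR0 hR3
      _ = Real.log 3 + Real.log r := Real.log_mul (by norm_num) hr.ne'
      _ = -2 / g := by rw [hrdef, log_rj]; ring
  have hC := Cc_pos
  have hM := Mc_ge
  have h2 : 0 ≤ C1c - Cc * R := by
    rw [C1c]; nlinarith
  rw [Bar, hlog, ← hR]
  have h3 : 2 / g ≤ C1c - Real.log R - Cc * R := by
    have : -2 / g = -(2 / g) := by ring
    rw [this] at h1; linarith
  calc (2:ℝ) = g * (2 / g) := by field_simp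
    _ ≤ g * (C1c - Real.log R - Cc * R) := by gcongr

lemma exp_bar_lap {r : ℝ} (hr : 0 < r) {f ζf : ℂ → ℂ} {Y : ℂ} (hf : HasTwo f Y)
    (hζ : HasTwo ζf 1) (hb : 0 ≤ Bar r (f 0)) (hY1 : 1 ≤ Mc * ‖Y‖) (hY2 : ‖Y‖ ≤ Mc) :
    ∃ g l, HasLap (fun k => Real.exp (ζf k).im * Bar r (f k)) g l ∧
      ‖g‖ ≤ Real.exp (ζf 0).im * (Bar r (f 0) + (1 / r + Cc) * Mc) ∧
      l ≤ Real.exp (ζf 0).im * Csc := by
  obtain ⟨g, l, h1, h2, h3⟩ := bar_lap hr hf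
  set R := √(‖f 0‖ ^ 2 + r ^ 2) with hR
  have hpos : 0 < ‖f 0‖ ^ 2 + r ^ 2 := by positivity
  have hR0 : 0 < R := Real.sqrt_pos.2 hpos
  have hRr : r ≤ R := by
    rw [hR]; apply Real.le_sqrt_of_sq_le
    linarith [sq_nonneg ‖f 0‖]
  set E := Real.exp (ζf 0).im with hE
  have hE0 : 0 < E := Real.exp_pos _
  have hC := Cc_pos
  have hM := Mc_ge
  have hprod := (hasLap_exp_im hζ).mul h1
  refine ⟨_, _, hprod, ?_, ?_⟩
  · refine (norm_add_le _ _).trans ?_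
    rw [norm_mul, norm_mul, norm_mul, Complex.norm_real, Complex.norm_real,
      norm_mul, norm_neg, Complex.norm_I, norm_one, Real.norm_of_nonneg hE0.le,
      Real.norm_of_nonneg hb]
    have h4 : ‖g‖ ≤ (1 / r + Cc) * Mc := by
      refine h2.trans ?_
      gcongr
    nlinarith [mul_le_mul_of_nonneg_left h4 hE0.le]
  · have h4 : (((E : ℂ) * (-Complex.I * 1)) * (starRingEnd ℂ) g).re ≤ E * ‖g‖ := by
      refine (Complex.re_le_norm _).trans ?_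
      rw [norm_mul, norm_mul, norm_mul, norm_neg, Complex.norm_I, norm_one, RCLike.norm_conj,
        Complex.norm_real, Real.norm_of_nonneg hE0.le]
      simp
    have h5 : Bar r (f 0) ≤ C1c + 1 / R := by
      have hlog : Real.log (‖f 0‖ ^ 2 + r ^ 2) / 2 = Real.log R := by
        rw [hR, Real.log_sqrt hpos.le]
      have h6 : -Real.log R ≤ 1 / R := by
        rw [← Real.log_inv, one_div]
        exact (Real.log_le_sub_one_of_pos (by positivity)).trans (by linarith)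
      rw [Bar, hlog, ← hR]
      have : 0 ≤ Cc * R := by positivity
      linarith
    have h7 : 1 + 2 * ‖Y‖ - Cc * ‖Y‖ ^ 2 ≤ 0 := by
      have h8 : Cc * ‖Y‖ ^ 2 = 3 * (Mc * ‖Y‖) ^ 2 := by rw [Cc]; ring
      have h9 : 2 * ‖Y‖ ≤ 2 * (Mc * ‖Y‖) := by nlinarith [norm_nonneg Y]
      rw [h8]
      nlinarith
    have h10 : (1 + 2 * ‖Y‖ - Cc * ‖Y‖ ^ 2) / R ≤ 0 := div_nonpos_of_nonpos_of_nonneg h7 hR0.le
    have h11 : l + Bar r (f 0) + 2 * ‖g‖ ≤ Csc := by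
      have e1 : (1 + 2 * ‖Y‖ - Cc * ‖Y‖ ^ 2) / R = 1 / R + 2 * (1 / R * ‖Y‖) - Cc * ‖Y‖ ^ 2 / R := by
        ring
      rw [e1] at h10
      have h12 : Cc * ‖Y‖ ≤ Cc * Mc := by gcongr
      rw [Csc]
      nlinarith
    rw [norm_one, one_pow, mul_one]
    have h13 := mul_le_mul_of_nonneg_left h11 hE0.le
    nlinarith

end Pool.Agent.Helper303
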