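import Pool.Agent.Helper303.Hole

set_option autoImplicit false
open Filter Topology Asymptotics Metric

namespace Pool.Agent.Helper303

/-- All the data of the perforated perturbation. -/
structure Cheese where
  c : ℕ → ℂ
  γ : ℕ → ℝ
  κ : ℕ → ℝ
  η : ℂ → ℝ
  u : ℂ → ℂ
  mu : ℂ → ℝ
  γ_pos : ∀ j, 0 < γ j
  γ_sum : ∀ J : Finset ℕ, ∑ j ∈ J, γ j ≤ sigma
  c_bd : ∀ j, |(c j).re| ≤ 8 ∧ |(c j).im| ≤ 8
  net : ∀ ζ : ℂ, |ζ.re| ≤ 7 → |ζ.im| ≤ 7 → ∀ ε : ℝ, 0 < ε →
    ∃ j, γ j ≤ ε ∧ ‖ζ - c j‖ ^ 4 ≤ ε * γ j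
  κ_pos : ∀ j, 0 < κ j
  η_smooth : ContDiff ℝ ((⊤ : ℕ∞) : WithTop ℕ∞) η
  η_small : ∀ z, |η z| ≤ e3
  u_small : ∀ ζ ∈ ball (0:ℂ) 20, ‖u ζ‖ ≤ e3 * Real.exp ζ.im
  lap : ∀ ζ ∈ ball (0:ℂ) 20, |ζ.re| < 7 →
    HasLap (fun k => Real.exp (ζ + k).im * η (Complex.exp (ζ + k))) (2 * u ζ) (4 * mu ζ)
  mu_nonneg : ∀ ζ ∈ ball (0:ℂ) 20, 0 ≤ mu ζ
  mu_ge : ∀ ζ ∈ ball (0:ℂ) 20, ∀ j, κ j * bk (rj (γ j)) (ζ - c j) ≤ mu ζ
  mu_le : ∀ ζ ∈ ball (0:ℂ) 20, ∀ A : ℝ, 0 ≤ A →
    (∀ j, bk (rj (γ j)) (ζ - c j) = 0 ∨ aj (γ j) j ≤ A) → 4 * mu ζ ≤ e3 * A * Real.exp ζ.im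

lemma summable_half : Summable fun j : ℕ => (1 / 2 : ℝ) ^ j :=
  summable_geometric_of_lt_one (by norm_num) (by norm_num)

lemma hasSum_half (a : ℝ) : HasSum (fun j : ℕ => a * (1 / 2 : ℝ) ^ j) (a * 2) := by
  have h := hasSum_geometric_of_lt_one (r := (1 / 2 : ℝ)) (by norm_num) (by norm_num)
  have h2 := h.mul_left a
  norm_num at h2 ⊢
  exact h2

theorem exists_cheese : Nonempty Cheese := by
  obtain ⟨c, γ, hγ, hγs, hcb, hnet⟩ := exists_net sigma_pos
  have hγ1 : ∀ j, γ j ≤ 1 := fun j => by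
    have := hγs {j}
    rw [Finset.sum_singleton] at this
    exact this.trans sigma_le
  choose F B hF1 hF2 hF3 hF4 hB0 hB1 hB2 using fun j =>
    hole (rj_pos (γ j)) (rj_le (hγ j) (hγ1 j)) (c j)
  obtain ⟨κ₀, hκ₀, hκs⟩ := exists_small (fun j => tf (F j)) hF3 hF4
  set δ : ℕ → ℝ := fun j => e3 * aj (γ j) j * (1 / 2) ^ j * Real.exp (-20) / 16 with hδ
  have hδ0 : ∀ j, 0 < δ j := fun j => by
    have := e3_pos
    have := aj_pos (hγ j) j
    simp only [hδ]; positivity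
  set κ : ℕ → ℝ := fun j => min (κ₀ j) (δ j / (1 + B j)) with hκ
  have hκp : ∀ j, 0 < κ j := fun j => by
    have := hB0 j
    exact lt_min (hκ₀ j) (div_pos (hδ0 j) (by linarith))
  have hκB : ∀ j, κ j * B j ≤ δ j := fun j => by
    have h0 := hB0 j
    calc κ j * B j ≤ (δ j / (1 + B j)) * (1 + B j) := by
          gcongr
          · exact (div_pos (hδ0 j) (by linarith)).le
          · exact min_le_right _ _
          · linarith
      _ = δ j := by field_simp
  have haj : ∀ j, aj (γ j) j ≤ 1 := fun j => by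
    refine (aj_le (hγ j) j).trans ?_
    have h1 : (1 / 2 : ℝ) ^ j ≤ 1 := pow_le_one₀ (by norm_num) (by norm_num)
    have h2 : e3 ≤ 1 := by rw [e3]; norm_num
    have h3 : (0:ℝ) ≤ (1 / 2 : ℝ) ^ j := by positivity
    nlinarith [e3_pos]
  have hδ1 : ∀ j, δ j ≤ (e3 * Real.exp (-20) / 16) * (1 / 2) ^ j := fun j => by
    have h0 := e3_pos
    have h1 := haj j
    have h2 : 0 < (1 / 2 : ℝ) ^ j := by positivity
    have h3 := Real.exp_pos (-20)
    simp only [hδ]
    have h4 : e3 * aj (γ j) j * (1 / 2) ^ j * Real.exp (-20) / 16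
        = (e3 * Real.exp (-20) / 16) * (1 / 2) ^ j * aj (γ j) j := by ring
    rw [h4]
    have h5 : 0 ≤ (e3 * Real.exp (-20) / 16) * (1 / 2) ^ j := by positivity
    nlinarith
  have hsum0 := hasSum_half (e3 * Real.exp (-20) / 16)
  have hκBv : ∀ j, κ j * B j ≤ (e3 * Real.exp (-20) / 16) * (1 / 2) ^ j := fun j =>
    (hκB j).trans (hδ1 j)
  -- the derivative of the kernels
  have hcb2 : ∀ x ∈ ball (0:ℂ) 20, x ∈ closedBall (0:ℂ) 20 := fun x hx => ball_subset_closedBall hx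
  have hW : ∀ j x, ∃ α : ℂ, HasFDerivAt (fun x => uk (rj (γ j)) (x - c j))
      (wirt α (bk (rj (γ j)) (x - c j))) x := by
    intro j x
    obtain ⟨α, hα⟩ := hasFDerivAt_uk (rj_pos (γ j)) (rj_le (hγ j) (hγ1 j)) (x - c j)
    have h1 : HasFDerivAt (fun t : ℂ => t - c j) (ContinuousLinearMap.id ℝ ℂ) x :=
      (hasFDerivAt_id x).sub_const (c j)
    have h2 : HasFDerivAt (fun t => uk (rj (γ j)) (t - c j))
        ((wirt α (bk (rj (γ j)) (x - c j))).comp (ContinuousLinearMap.id ℝ ℂ)) x :=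
      HasFDerivAt.comp (g := uk (rj (γ j))) (f := fun t => t - c j) x hα h1
    rw [ContinuousLinearMap.comp_id] at h2
    exact ⟨α, h2⟩
  choose α hα using hW
  have hWn : ∀ j, ∀ x ∈ ball (0:ℂ) 20, ‖wirt (α j x) (bk (rj (γ j)) (x - c j))‖ ≤ B j := by
    intro j x hx
    rw [← (hα j x).fderiv]
    exact (hB2 j x (hcb2 x hx)).2.2.2
  have hbk : ∀ j, ∀ x ∈ ball (0:ℂ) 20, bk (rj (γ j)) (x - c j) ≤ B j := by
    intro j x hx
    have h1 := (wirt_norm_right (α j x) (bk (rj (γ j)) (x - c j))).trans (hWn j x hx)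
    rw [Complex.norm_real, Real.norm_of_nonneg (bk_nonneg _ _)] at h1
    exact h1
  have hα' : ∀ j, ∀ x ∈ ball (0:ℂ) 20, ‖α j x‖ ≤ B j := fun j x hx =>
    (wirt_norm_left (α j x) (bk (rj (γ j)) (x - c j))).trans (hWn j x hx)
  have hκn : ∀ j, ‖(κ j : ℂ)‖ = κ j := fun j => by
    rw [Complex.norm_real, Real.norm_of_nonneg (hκp j).le]
  -- summability
  have hsF : ∀ x ∈ ball (0:ℂ) 20, Summable fun j => κ j * F j x := fun x hx =>
    Summable.of_norm_bounded hsum0.summable fun j => by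
      rw [norm_mul, Real.norm_of_nonneg (hκp j).le]
      refine le_trans ?_ (hκBv j)
      exact mul_le_mul_of_nonneg_left (hB2 j x (hcb2 x hx)).1 (hκp j).le
  have hnu : ∀ x ∈ ball (0:ℂ) 20, ∀ j, ‖(κ j : ℂ) * uk (rj (γ j)) (x - c j)‖
      ≤ (e3 * Real.exp (-20) / 16) * (1 / 2) ^ j := fun x hx j => by
    rw [norm_mul, hκn]
    refine le_trans ?_ (hκBv j)
    exact mul_le_mul_of_nonneg_left (hB2 j x (hcb2 x hx)).2.1 (hκp j).le
  have hsu : ∀ x ∈ ball (0:ℂ) 20, Summable fun j => (κ j : ℂ) * uk (rj (γ j)) (x - c j) :=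
    fun x hx => Summable.of_norm_bounded hsum0.summable (hnu x hx)
  have hnα : ∀ x ∈ ball (0:ℂ) 20, Summable fun j => (κ j : ℂ) * α j x := fun x hx =>
    Summable.of_norm_bounded hsum0.summable fun j => by
      rw [norm_mul, hκn]
      refine le_trans ?_ (hκBv j)
      exact mul_le_mul_of_nonneg_left (hα' j x hx) (hκp j).le
  have hsb : ∀ x ∈ ball (0:ℂ) 20, Summable fun j => κ j * bk (rj (γ j)) (x - c j) :=
    fun x hx => Summable.of_norm_bounded hsum0.summable fun j => by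
      rw [norm_mul, Real.norm_of_nonneg (hκp j).le, Real.norm_of_nonneg (bk_nonneg _ _)]
      refine le_trans ?_ (hκBv j)
      exact mul_le_mul_of_nonneg_left (hbk j x hx) (hκp j).le
  have h0 : (0:ℂ) ∈ ball (0:ℂ) 20 := mem_ball_self (by norm_num)
  have hpre : IsPreconnected (ball (0:ℂ) 20) := (convex_ball (0:ℂ) 20).isPreconnected
  set u : ℂ → ℂ := fun x => ∑' j, (κ j : ℂ) * uk (rj (γ j)) (x - c j) with hu
  set mu : ℂ → ℝ := fun x => ∑' j, κ j * bk (rj (γ j)) (x - c j) with hmu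
  -- first derivative
  have hD1 : ∀ x ∈ ball (0:ℂ) 20, HasFDerivAt (fun y => ∑' j, κ j * F j y) (Lam (u x)) x := by
    intro x hx
    have h1 := hasFDerivAt_tsum_of_isPreconnected (𝕜 := ℝ) (f := fun j y => κ j * F j y)
      (f' := fun j y => κ j • Lam (uk (rj (γ j)) (y - c j))) hsum0.summable isOpen_ball hpre
      (fun j y _ => (hF2 j y).const_mul (κ j))
      (fun j y hy => by
        rw [norm_smul, Real.norm_of_nonneg (hκp j).le]
        refine le_trans ?_ (hκBv j)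
        exact mul_le_mul_of_nonneg_left (hB2 j y (hcb2 y hy)).2.2.1 (hκp j).le)
      h0 (hsF 0 h0) hx
    refine h1.congr_fderiv ?_
    have h2 := Lam.map_tsum (hsu x hx)
    simp only [hu]
    rw [h2]
    refine tsum_congr fun j => ?_
    rw [← Complex.real_smul, map_smul]
  -- second derivative
  have hD2 : ∀ x ∈ ball (0:ℂ) 20, HasFDerivAt u (wirt (∑' j, (κ j : ℂ) * α j x) (mu x)) x := by
    intro x hx
    have h1 := hasFDerivAt_tsum_of_isPreconnected (𝕜 := ℝ)
      (f := fun j y => (κ j : ℂ) * uk (rj (γ j)) (y - c j))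
      (f' := fun j y => (κ j : ℂ) • wirt (α j y) (bk (rj (γ j)) (y - c j)))
      hsum0.summable isOpen_ball hpre
      (fun j y _ => (hα j y).const_mul (κ j : ℂ))
      (fun j y hy => by
        rw [norm_smul, hκn]
        refine le_trans ?_ (hκBv j)
        exact mul_le_mul_of_nonneg_left (hWn j y hy) (hκp j).le)
      h0 (hsu 0 h0) hx
    refine h1.congr_fderiv ?_
    have hsT : Summable fun j => (κ j : ℂ) • wirt (α j x) (bk (rj (γ j)) (x - c j)) :=
      Summable.of_norm_bounded hsum0.summable fun j => by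
        rw [norm_smul, hκn]
        refine le_trans ?_ (hκBv j)
        exact mul_le_mul_of_nonneg_left (hWn j x hx) (hκp j).le
    refine ContinuousLinearMap.ext fun k => ?_
    have h2 := (ContinuousLinearMap.apply ℝ ℂ k).map_tsum hsT
    simp only [ContinuousLinearMap.apply_apply] at h2
    rw [h2, wirt_apply]
    simp only [hmu, smul_apply, smul_eq_mul, wirt_apply]
    rw [Complex.ofReal_tsum, ← tsum_mul_right, ← tsum_mul_right, ← Summable.tsum_add]
    · refine tsum_congr fun j => ?_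
      push_cast
      ring
    · exact (hnα x hx).mul_right k
    · have h3 : Summable fun j => ((κ j * bk (rj (γ j)) (x - c j) : ℝ) : ℂ) :=
        (Complex.summable_ofReal).2 (hsb x hx)
      exact h3.mul_right _
  refine ⟨⟨c, γ, κ, fun z => ∑' j, κ j * tf (F j) z, u, mu, hγ, hγs, hcb, hnet, hκp, ?_, ?_, ?_, ?_,
    ?_, ?_, ?_⟩⟩
  · exact hκs κ fun j => ⟨(hκp j).le, min_le_left _ _⟩
  · intro z
    have h1 : ‖∑' j, κ j * tf (F j) z‖ ≤ (e3 * Real.exp (-20) / 16) * 2 :=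
      tsum_of_norm_bounded hsum0 fun j => by
        rw [norm_mul, Real.norm_of_nonneg (hκp j).le]
        refine le_trans ?_ (hκBv j)
        exact mul_le_mul_of_nonneg_left (hB1 j z) (hκp j).le
    refine h1.trans ?_
    have h2 : Real.exp (-20) ≤ 1 := Real.exp_le_one_iff.2 (by norm_num)
    nlinarith [e3_pos, Real.exp_pos (-20)]
  · intro ζ hζ
    have h1 : ‖u ζ‖ ≤ (e3 * Real.exp (-20) / 16) * 2 := tsum_of_norm_bounded hsum0 (hnu ζ hζ)
    refine h1.trans ?_
    have h2 : Real.exp (-20) ≤ Real.exp ζ.im := by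
      apply Real.exp_le_exp.2
      have h3 : |ζ.im| ≤ ‖ζ‖ := Complex.abs_im_le_norm ζ
      have h4 : ‖ζ‖ < 20 := by simpa using hζ
      linarith [neg_le_of_abs_le h3]
    nlinarith [e3_pos, Real.exp_pos (-20)]
  · intro ζ hζ hre
    have h1 : HasLap (fun k => (fun y => ∑' j, κ j * F j y) (ζ + k)) (2 * u ζ) (4 * ((mu ζ : ℂ)).re) := by
      refine hasLap_of_fderiv (F := fun y => ∑' j, κ j * F j y) (u := u) (x := ζ)
        (α := ∑' j, (κ j : ℂ) * α j ζ) (β := (mu ζ : ℂ)) ?_ ?_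
      · filter_upwards [isOpen_ball.mem_nhds hζ] with y hy
        rw [← Lam_eq]
        exact hD1 y hy
      · have h2 := (hasFDerivAt_iff_isLittleO_nhds_zero.1 (hD2 ζ hζ))
        simpa using h2
    rw [Complex.ofReal_re] at h1
    refine h1.congr ?_
    have hnear : ∀ᶠ k : ℂ in 𝓝 0, |(ζ + k).re| < 7 := by
      have h3 : Continuous fun k : ℂ => |(ζ + k).re| := by fun_prop
      have h4 := h3.tendsto 0
      simp only [add_zero] at h4
      exact h4.eventually (Iio_mem_nhds hre)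
    filter_upwards [hnear] with k hk
    rw [← tsum_mul_left]
    refine tsum_congr fun j => ?_
    have hn : ‖Complex.exp (ζ + k)‖ = Real.exp (ζ + k).re := Complex.norm_exp _
    have hchi : chi (Complex.exp (ζ + k)) = 1 := by
      apply chi_one
      · rw [hn]; exact Real.exp_le_exp.2 (by linarith [(abs_lt.1 hk).1])
      · rw [hn]; exact Real.exp_le_exp.2 (by linarith [(abs_lt.1 hk).2])
    have h5 := descend_eq (hF1 j) (x := Complex.log (Complex.exp (ζ + k))) (y := ζ + k)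
      (by rw [Complex.exp_log (Complex.exp_ne_zero _)])
    simp only [tf]
    rw [hchi, one_mul, h5]
    have h6 : Real.exp (ζ + k).im * Real.exp (-(ζ + k).im) = 1 := by
      rw [← Real.exp_add]; simp
    calc Real.exp (ζ + k).im * (κ j * (Real.exp (-(ζ + k).im) * F j (ζ + k)))
        = (Real.exp (ζ + k).im * Real.exp (-(ζ + k).im)) * (κ j * F j (ζ + k)) := by ring
      _ = κ j * F j (ζ + k) := by rw [h6, one_mul]
  · intro ζ hζ
    exact tsum_nonneg fun j => mul_nonneg (hκp j).le (bk_nonneg _ _)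
  · intro ζ hζ j
    exact (hsb ζ hζ).le_tsum j fun i _ => mul_nonneg (hκp i).le (bk_nonneg _ _)
  · intro ζ hζ A hA hall
    have h1 : ∀ j, κ j * bk (rj (γ j)) (ζ - c j) ≤ (e3 * A * Real.exp (-20) / 16) * (1 / 2) ^ j := by
      intro j
      have hpos : 0 ≤ (e3 * A * Real.exp (-20) / 16) * (1 / 2) ^ j := by
        have := e3_pos; positivity
      rcases hall j with h | h
      · rw [h, mul_zero]; exact hpos
      · calc κ j * bk (rj (γ j)) (ζ - c j) ≤ κ j * B j :=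
              mul_le_mul_of_nonneg_left (hbk j ζ hζ) (hκp j).le
          _ ≤ δ j := hκB j
          _ = e3 * aj (γ j) j * (1 / 2) ^ j * Real.exp (-20) / 16 := rfl
          _ ≤ e3 * A * (1 / 2) ^ j * Real.exp (-20) / 16 := by
              have := e3_pos
              gcongr
          _ = (e3 * A * Real.exp (-20) / 16) * (1 / 2) ^ j := by ring
    have h2 : mu ζ ≤ (e3 * A * Real.exp (-20) / 16) * 2 :=
      hasSum_le h1 (hsb ζ hζ).hasSum (hasSum_half _)
    have h3 : Real.exp (-20) ≤ Real.exp ζ.im := by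
      apply Real.exp_le_exp.2
      have h3 : |ζ.im| ≤ ‖ζ‖ := Complex.abs_im_le_norm ζ
      have h4 : ‖ζ‖ < 20 := by simpa using hζ
      linarith [neg_le_of_abs_le h3]
    have h4 : 0 ≤ e3 * A := mul_nonneg e3_pos.le hA
    have h5 := mul_le_mul_of_nonneg_left h3 h4
    have h6 : 0 ≤ e3 * A * Real.exp (-20) := mul_nonneg h4 (Real.exp_pos _).le
    linarith

end Pool.Agent.Helper303
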