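import Pool.Agent.Helper303.Domain3

set_option autoImplicit false
open Filter Topology Asymptotics Metric

namespace Pool.Agent.Helper303

lemma eta_deriv (Q : Cheese) {ζ : ℂ} (hb : ζ ∈ ball (0:ℂ) 20) (hr : |ζ.re| < 7) :
    HasDerivAt (fun t : ℝ => Q.η (Complex.exp (ζ + t))) (Real.exp (-ζ.im) * (2 * Q.u ζ).re) 0 := by
  have h1 := (Q.lap ζ hb hr).hasFDerivAt
  have h2 : HasDerivAt (fun t : ℝ => (t : ℂ)) 1 0 := Complex.ofRealCLM.hasDerivAt
  have h1' : HasFDerivAt (fun k => Real.exp (ζ + k).im * Q.η (Complex.exp (ζ + k)))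
      (Complex.reCLM.comp ((ContinuousLinearMap.mul ℝ ℂ) (2 * Q.u ζ))) ((0 : ℝ) : ℂ) := by
    simpa using h1
  have h3 := h1'.comp_hasDerivAt (0:ℝ) h2
  have h4 := h3.const_mul (Real.exp (-ζ.im))
  have e : (fun t : ℝ => Real.exp (-ζ.im) *
      ((fun k => Real.exp (ζ + k).im * Q.η (Complex.exp (ζ + k))) ∘ fun t : ℝ => (t : ℂ)) t)
      = fun t : ℝ => Q.η (Complex.exp (ζ + t)) := by
    funext t
    simp only [Function.comp, Complex.add_im, Complex.ofReal_im, add_zero]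
    rw [← mul_assoc, ← Real.exp_add, neg_add_cancel, Real.exp_zero, one_mul]
  rw [e] at h4
  refine h4.congr_deriv ?_
  simp

lemma eta_deriv' (Q : Cheese) {ζ : ℂ} (hi : |ζ.im| ≤ 4) (t : ℝ) (hr : |ζ.re + t| < 7) :
    ∃ d : ℝ, |d| ≤ 2 * e3 ∧
      HasDerivAt (fun t : ℝ => Q.η (Complex.exp (ζ + t))) d t := by
  have hb : ζ + t ∈ ball (0:ℂ) 20 := by
    rw [mem_ball_zero_iff]
    refine (Complex.norm_le_abs_re_add_abs_im _).trans_lt ?_
    simp only [Complex.add_re, Complex.add_im, Complex.ofReal_re, Complex.ofReal_im, add_zero]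
    linarith
  have hr' : |(ζ + t).re| < 7 := by simpa using hr
  have h1 := eta_deriv Q hb hr'
  refine ⟨Real.exp (-(ζ + t).im) * (2 * Q.u (ζ + t)).re, ?_, ?_⟩
  · rw [abs_mul, abs_of_pos (Real.exp_pos _)]
    have h2 := Q.u_small _ hb
    have h3 : |(2 * Q.u (ζ + t)).re| ≤ 2 * ‖Q.u (ζ + t)‖ := by
      refine (Complex.abs_re_le_norm _).trans ?_
      rw [norm_mul]; simp
    have h4 : Real.exp (-(ζ + t).im) * Real.exp (ζ + t).im = 1 := by
      rw [← Real.exp_add]; simp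
    have h5 := (Real.exp_pos (-(ζ + t).im)).le
    calc Real.exp (-(ζ + t).im) * |(2 * Q.u (ζ + t)).re|
        ≤ Real.exp (-(ζ + t).im) * (2 * (e3 * Real.exp (ζ + t).im)) := by gcongr; linarith
      _ = 2 * e3 * (Real.exp (-(ζ + t).im) * Real.exp (ζ + t).im) := by ring
      _ = 2 * e3 := by rw [h4, mul_one]
  · have h2 : HasDerivAt (fun s : ℝ => s - t) 1 t := (hasDerivAt_id t).sub_const t
    have h1' : HasDerivAt (fun s : ℝ => Q.η (Complex.exp ((ζ + t) + s)))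
      (Real.exp (-(ζ + t).im) * (2 * Q.u (ζ + t)).re) (t - t) := by simpa using h1
    have h3 := HasDerivAt.comp (h := fun s : ℝ => s - t)
      (h₂ := fun s : ℝ => Q.η (Complex.exp ((ζ + t) + s))) t h1' h2
    rw [mul_one] at h3
    have e : ((fun s : ℝ => Q.η (Complex.exp ((ζ + t) + s))) ∘ fun s : ℝ => s - t)
        = fun t : ℝ => Q.η (Complex.exp (ζ + t)) := by
      funext s
      simp only [Function.comp]
      congr 2
      push_cast
      ring
    rw [e] at h3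
    exact h3

lemma eta_lip (Q : Cheese) {ζ : ℂ} (hi : |ζ.im| ≤ 4) (hr : |ζ.re| < 6) {s : ℝ} (h0 : 0 ≤ s)
    (h1 : s ≤ 1) :
    |Q.η (Complex.exp (ζ + ((-(s * ζ.re) : ℝ) : ℂ))) - Q.η (Complex.exp ζ)| ≤ 12 * e3 * s := by
  have he : 0 < e3 := by rw [e3]; norm_num
  have hrs : ∀ t ∈ Set.uIcc (0:ℝ) (-(s * ζ.re)), |ζ.re + t| < 7 := by
    intro t ht
    rcases Set.mem_uIcc.1 ht with h | h
    · have h3 : s * ζ.re ≤ 0 := by linarith [h.1, h.2]
      have h4 : ζ.re ≤ s * ζ.re ∨ 0 ≤ ζ.re := by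
        rcases le_total 0 ζ.re with h5 | h5
        · right; exact h5
        · left; nlinarith
      rw [abs_lt] at hr ⊢
      rcases h4 with h4 | h4
      · constructor <;> linarith [h.1, h.2]
      · have h6 : s * ζ.re = 0 := le_antisymm h3 (mul_nonneg h0 h4)
        constructor <;> linarith [h.1, h.2]
    · have h3 : 0 ≤ s * ζ.re := by linarith [h.1, h.2]
      have h4 : s * ζ.re ≤ ζ.re ∨ ζ.re ≤ 0 := by
        rcases le_total ζ.re 0 with h5 | h5
        · right; exact h5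
        · left; nlinarith
      rw [abs_lt] at hr ⊢
      rcases h4 with h4 | h4
      · constructor <;> linarith [h.1, h.2]
      · have h6 : s * ζ.re = 0 := le_antisymm (mul_nonpos_of_nonneg_of_nonpos h0 h4) h3
        constructor <;> linarith [h.1, h.2]
  have key := Convex.norm_image_sub_le_of_norm_hasDerivWithin_le
    (f := fun t : ℝ => Q.η (Complex.exp (ζ + t)))
    (f' := fun t => deriv (fun t : ℝ => Q.η (Complex.exp (ζ + t))) t)
    (s := Set.uIcc (0:ℝ) (-(s * ζ.re))) (x := 0) (y := -(s * ζ.re)) (C := 2 * e3)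
    (fun t ht => by
      obtain ⟨d, _, hd⟩ := eta_deriv' Q hi t (hrs t ht)
      rw [hd.deriv]; exact hd.hasDerivWithinAt)
    (fun t ht => by
      obtain ⟨d, hd1, hd⟩ := eta_deriv' Q hi t (hrs t ht)
      rw [hd.deriv]; exact hd1)
    (convex_uIcc _ _) Set.left_mem_uIcc Set.right_mem_uIcc
  simp only [Complex.ofReal_zero, add_zero, sub_zero, Real.norm_eq_abs] at key
  refine key.trans ?_
  rw [abs_neg, abs_mul, abs_of_nonneg h0]
  nlinarith [mul_nonneg he.le h0, abs_nonneg ζ.re, mul_nonneg (mul_nonneg he.le h0) (sub_nonneg.2 hr.le)]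

lemma fl_mono : Monotone fl :=
  monotone_of_hasDerivAt_nonneg hasDerivAt_fl fun x => fl₁_nonneg x

lemma fl₁_mono : Monotone fl₁ :=
  monotone_of_hasDerivAt_nonneg hasDerivAt_fl₁ fun x =>
    le_trans (by have := fl₁_nonneg x; positivity) (fl₂_ge x)

lemma fl_convex : ConvexOn ℝ Set.univ fl := by
  have h : deriv fl = fl₁ := by funext x; exact (hasDerivAt_fl x).deriv
  refine Monotone.convexOn_univ_of_deriv (fun x => (hasDerivAt_fl x).differentiableAt) ?_
  rw [h]; exact fl₁_mono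

lemma fl_seg {g : ℝ} {g₀ s : ℝ} (h0 : 0 ≤ s) (h1 : s ≤ 1) (hg : g ≤ (1 - s) * g₀) :
    fl g ≤ (1 - s) * fl g₀ := by
  refine (fl_mono hg).trans ?_
  have h2 := fl_convex.2 (Set.mem_univ g₀) (Set.mem_univ (0:ℝ))
    (show (0:ℝ) ≤ 1 - s by linarith) h0 (by ring)
  simpa [fl_zero le_rfl] using h2

/-- The path towards the circle. -/
noncomputable def pth (y : E2) (s : ℝ) : E2 :=
  !₂[Complex.exp (Complex.log (y 0) + ((-(s * Real.log ‖y 0‖) : ℝ) : ℂ)),
    (((1 - s : ℝ) : ℂ) * (y 1 * Complex.exp (-Complex.I * (Real.log ‖y 0‖ : ℝ))) + (s : ℂ)) *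
      Complex.exp (Complex.I * (((1 - s) * Real.log ‖y 0‖ : ℝ) : ℂ))]

noncomputable def crc (θ : ℝ) : E2 := !₂[Complex.exp (θ * Complex.I), 1]

lemma continuous_pth (y : E2) : Continuous (pth y) := by
  unfold pth
  refine (PiLp.continuous_toLp 2 (fun _ : Fin 2 => ℂ)).comp ?_
  refine continuous_pi fun i => ?_
  fin_cases i
  · simp only [Fin.zero_eta, Matrix.cons_val_zero]
    fun_prop
  · simp only [Fin.mk_one, Matrix.cons_val_one]
    fun_prop

lemma continuous_crc : Continuous crc := by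
  unfold crc
  refine (PiLp.continuous_toLp 2 (fun _ : Fin 2 => ℂ)).comp ?_
  refine continuous_pi fun i => ?_
  fin_cases i
  · simp only [Fin.zero_eta, Matrix.cons_val_zero]
    fun_prop
  · simp only [Fin.mk_one, Matrix.cons_val_one]
    fun_prop

lemma pth_zero {y : E2} (hy : y 0 ≠ 0) : pth y 0 = y := by
  ext i
  fin_cases i
  · simp [pth, Complex.exp_log hy]
  · simp [pth]
    rw [mul_assoc, ← Complex.exp_add]
    simp

lemma pth_one {y : E2} (hy : y 0 ≠ 0) : pth y 1 = crc (Complex.arg (y 0)) := by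
  ext i
  fin_cases i
  · simp only [pth, crc, one_mul, Fin.zero_eta]
    have h : Complex.log (y 0) + ((-(Real.log ‖y 0‖) : ℝ) : ℂ) = Complex.arg (y 0) * Complex.I := by
      apply Complex.ext <;> simp [Complex.log_re, Complex.log_im]
    show Complex.exp _ = Complex.exp _
    rw [h]
  · simp [pth, crc]

lemma pth_mem (Q : Cheese) {y : E2} (hy : y ∈ Om Q) {s : ℝ} (h0 : 0 ≤ s) (h1 : s ≤ 1) :
    pth y s ∈ Om Q := by
  rw [mem_Om] at hy ⊢
  obtain ⟨hy0, -, hX, hF⟩ := rho_nonpos Q hy.le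
  set X := Real.log ‖y 0‖ with hXdef
  have he : e3 = 1 / 10 ^ 8 := rfl
  have e0 : (pth y s) 0 = Complex.exp (Complex.log (y 0) + ((-(s * X) : ℝ) : ℂ)) := rfl
  have e1 : (pth y s) 1 = (((1 - s : ℝ) : ℂ) * (y 1 * Complex.exp (-Complex.I * (X : ℝ))) + (s : ℂ)) *
      Complex.exp (Complex.I * (((1 - s) * X : ℝ) : ℂ)) := rfl
  have hn : Real.log ‖(pth y s) 0‖ = (1 - s) * X := by
    rw [e0, Complex.norm_exp, Real.log_exp]
    simp [Complex.log_re, ← hXdef]
    ring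
  have hne : (pth y s) 0 ≠ 0 := by rw [e0]; exact Complex.exp_ne_zero _
  have hle : |(1 - s) * X| ≤ 7 := by
    rw [abs_mul, abs_of_nonneg (by linarith : (0:ℝ) ≤ 1 - s)]
    nlinarith [abs_nonneg X]
  rw [rho_eq Q hne (by rw [hn]; exact hle)]
  rw [hF] at hy
  -- eta estimate
  have hη : |Q.η ((pth y s) 0) - Q.η (y 0)| ≤ 12 * e3 * s := by
    have h2 := eta_lip Q (ζ := Complex.log (y 0))
      (by rw [Complex.log_im]; linarith [Complex.abs_arg_le_pi (y 0), Real.pi_lt_four])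
      (by rw [Complex.log_re]; exact hX) h0 h1
    rw [Complex.log_re, Complex.exp_log hy0] at h2
    rw [e0]
    exact h2
  set v := y 1 * Complex.exp (-Complex.I * (X : ℝ)) with hv
  have hvn : ‖v‖ = ‖y 1‖ := by
    rw [hv, norm_mul, neg_mul, ← mul_neg, mul_comm Complex.I, ← Complex.ofReal_neg,
      Complex.norm_exp_ofReal_mul_I, mul_one]
  have hw : (pth y s) 1 * Complex.exp (-Complex.I * ((1 - s) * X : ℝ))
      = ((1 - s : ℝ) : ℂ) * v + (s : ℂ) := by
    rw [e1, mul_assoc, ← Complex.exp_add]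
    have : Complex.I * (((1 - s) * X : ℝ) : ℂ) + -Complex.I * (((1 - s) * X : ℝ) : ℂ) = 0 := by ring
    rw [this, Complex.exp_zero, mul_one]
  have hwn : ‖(pth y s) 1‖ = ‖((1 - s : ℝ) : ℂ) * v + (s : ℂ)‖ := by
    rw [e1, norm_mul, mul_comm Complex.I, Complex.norm_exp_ofReal_mul_I, mul_one]
  have hfl : fl (‖(pth y s) 1‖ ^ 2 + ((1 - s) * X) ^ 2 / 16 - 1)
      ≤ (1 - s) * fl (‖y 1‖ ^ 2 + X ^ 2 / 16 - 1) := by
    refine fl_seg h0 h1 ?_
    have h3 : ‖((1 - s : ℝ) : ℂ) * v + (s : ℂ)‖ ≤ (1 - s) * ‖v‖ + s := by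
      refine (norm_add_le _ _).trans ?_
      rw [norm_mul, Complex.norm_real, Complex.norm_real, Real.norm_of_nonneg h0,
        Real.norm_of_nonneg (by linarith : (0:ℝ) ≤ 1 - s)]
    have h4 : ‖((1 - s : ℝ) : ℂ) * v + (s : ℂ)‖ ^ 2 ≤ (1 - s) * ‖v‖ ^ 2 + s := by
      have h5 := norm_nonneg (((1 - s : ℝ) : ℂ) * v + (s : ℂ))
      have h6 : ‖((1 - s : ℝ) : ℂ) * v + (s : ℂ)‖ ^ 2 ≤ ((1 - s) * ‖v‖ + s) ^ 2 :=
        pow_le_pow_left₀ h5 h3 2
      have h7 : (1 - s) * ‖v‖ ^ 2 + s - ((1 - s) * ‖v‖ + s) ^ 2 = (1 - s) * s * (‖v‖ - 1) ^ 2 := by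
        ring
      have h8 : 0 ≤ (1 - s) * s * (‖v‖ - 1) ^ 2 := by
        have : 0 ≤ 1 - s := by linarith
        positivity
      linarith
    rw [hwn, ← hvn]
    have h9 : ((1 - s) * X) ^ 2 ≤ (1 - s) * X ^ 2 := by
      have : (1 - s) * X ^ 2 - ((1 - s) * X) ^ 2 = s * (1 - s) * X ^ 2 := by ring
      have h10 : 0 ≤ s * (1 - s) * X ^ 2 := by
        have : 0 ≤ 1 - s := by linarith
        positivity
      linarith
    linarith
  rw [Fd, hn]
  rw [Fd] at hy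
  rw [hw]
  have hre : (((1 - s : ℝ) : ℂ) * v + (s : ℂ)).re = (1 - s) * v.re + s := by simp
  rw [hre]
  have h11 := abs_le.1 hη
  have h12 := abs_le.1 (Q.η_small (y 0))
  rw [← hXdef] at hy
  rw [← hv] at hy
  have h13 : s * Q.η (y 0) ≤ s * e3 := mul_le_mul_of_nonneg_left h12.2 h0
  have h14 : (1 - s) * (-2 * v.re + Q.η (y 0) + fl (‖y 1‖ ^ 2 + X ^ 2 / 16 - 1)) ≤ 0 :=
    mul_nonpos_of_nonneg_of_nonpos (by linarith) hy.le
  rcases h0.eq_or_lt with h | h
  · subst h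
    simp only [sub_zero, one_mul, mul_zero, add_zero] at *
    linarith [h11.2]
  · have h15 : 13 * e3 * s < 2 * s := by rw [he]; nlinarith
    nlinarith [h11.2]

lemma crc_mem (Q : Cheese) (θ : ℝ) : crc θ ∈ Om Q := by
  have e0 : (crc θ) 0 = Complex.exp (θ * Complex.I) := rfl
  have e1 : (crc θ) 1 = 1 := rfl
  rw [mem_Om, rho_eq Q (by rw [e0]; exact Complex.exp_ne_zero _)
    (by rw [e0, Complex.norm_exp_ofReal_mul_I, Real.log_one]; norm_num), Fd, e0, e1,
    Complex.norm_exp_ofReal_mul_I, Real.log_one]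
  have h := (abs_le.1 (Q.η_small (Complex.exp (θ * Complex.I)))).2
  have he : e3 = 1 / 10 ^ 8 := rfl
  have h2 : fl (‖(1:ℂ)‖ ^ 2 + (0:ℝ) ^ 2 / 16 - 1) = 0 := by
    apply fl_zero; simp
  rw [h2]
  simp only [Complex.ofReal_zero, mul_zero, Complex.exp_zero, mul_one, Complex.one_re, add_zero]
  rw [he] at h
  linarith

theorem isConnected_Om (Q : Cheese) : IsConnected (Om Q) := by
  refine ⟨⟨crc 0, crc_mem Q 0⟩, ?_⟩
  refine isPreconnected_of_forall (crc 0) fun y hy => ?_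
  have hy0 : y 0 ≠ 0 := (rho_nonpos Q (le_of_lt ((mem_Om Q y).1 hy))).1
  refine ⟨(pth y '' Set.Icc 0 1) ∪ Set.range crc, ?_, Or.inr ⟨0, rfl⟩,
    Or.inl ⟨0, ⟨le_rfl, zero_le_one⟩, pth_zero hy0⟩, ?_⟩
  · rintro x (⟨s, hs, rfl⟩ | ⟨θ, rfl⟩)
    · exact pth_mem Q hy hs.1 hs.2
    · exact crc_mem Q θ
  · refine IsPreconnected.union (pth y 1) ⟨1, ⟨zero_le_one, le_rfl⟩, rfl⟩
      ⟨Complex.arg (y 0), (pth_one hy0).symm⟩ ?_ ?_
    · exact isPreconnected_Icc.image _ (continuous_pth y).continuousOn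
    · exact isPreconnected_range continuous_crc

end Pool.Agent.Helper303
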