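import Mathlib

open MeasureTheory Set
open scoped ContDiff ComplexConjugate

namespace Pool.Agent.Helper303.Db

/-- smooth transition function -/
noncomputable def th (x : ℝ) : ℝ := Real.smoothTransition x

lemma th_cd : ContDiff ℝ ∞ th := Real.smoothTransition.contDiff

lemma th_zero {x : ℝ} (h : x ≤ 0) : th x = 0 := Real.smoothTransition.zero_of_nonpos h

lemma th_one {x : ℝ} (h : 1 ≤ x) : th x = 1 := Real.smoothTransition.one_of_one_le h

lemma th_nonneg (x : ℝ) : 0 ≤ th x := Real.smoothTransition.nonneg x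

lemma th_le_one (x : ℝ) : th x ≤ 1 := Real.smoothTransition.le_one x

lemma deriv_th_zero {x : ℝ} (h : x ∉ Icc (0 : ℝ) 1) : deriv th x = 0 := by
  rw [mem_Icc, not_and_or, not_le, not_le] at h
  rcases h with h | h
  · have : th =ᶠ[nhds x] fun _ => 0 := by
      filter_upwards [Iio_mem_nhds h] with y hy
      exact th_zero (le_of_lt hy)
    rw [this.deriv_eq]
    simp
  · have : th =ᶠ[nhds x] fun _ => 1 := by
      filter_upwards [Ioi_mem_nhds h] with y hy
      exact th_one (le_of_lt hy)
    rw [this.deriv_eq]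
    simp

lemma continuous_deriv_th : Continuous (deriv th) := th_cd.continuous_deriv (by simp)

lemma hcs_deriv_th : HasCompactSupport (deriv th) :=
  HasCompactSupport.intro isCompact_Icc fun _ h => deriv_th_zero h

lemma integrable_deriv_th : Integrable fun x => |deriv th x| :=
  (continuous_deriv_th.integrable_of_hasCompactSupport hcs_deriv_th).abs

/-- `∫ |θ'|` -/
noncomputable def TT : ℝ := ∫ x, |deriv th x|

lemma TT_nonneg : 0 ≤ TT := integral_nonneg fun _ => abs_nonneg _

lemma diff_th : Differentiable ℝ th := th_cd.differentiable (by simp)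

/-- horizontal cutoff -/
noncomputable def al (ρ x : ℝ) : ℝ := th (x / ρ - 1) * (1 - th (x - 1))

/-- vertical cutoff -/
noncomputable def ga (y : ℝ) : ℝ := th y - th (y - 2 * Real.pi)

lemma al_cd (ρ : ℝ) : ContDiff ℝ ∞ (al ρ) := by
  unfold al
  exact (th_cd.comp (by fun_prop)).mul (contDiff_const.sub (th_cd.comp (by fun_prop)))

lemma ga_cd : ContDiff ℝ ∞ ga := by
  unfold ga
  exact th_cd.sub (th_cd.comp (by fun_prop))

lemma al_zero {ρ x : ℝ} (hρ : 0 < ρ) (h : x ≤ ρ ∨ 2 ≤ x) : al ρ x = 0 := by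
  unfold al
  rcases h with h | h
  · rw [th_zero, zero_mul]
    rw [sub_nonpos, div_le_one hρ]
    exact h
  · rw [th_one (x := x - 1) (by linarith)]
    simp

lemma al_one {ρ x : ℝ} (hρ : 0 < ρ) (h1 : 2 * ρ ≤ x) (h2 : x ≤ 1) : al ρ x = 1 := by
  unfold al
  rw [th_one, th_zero (by linarith)]
  · simp
  · have : 2 ≤ x / ρ := by
      rw [le_div_iff₀ hρ]
      exact h1
    linarith

lemma al_nonneg (ρ x : ℝ) : 0 ≤ al ρ x :=
  mul_nonneg (th_nonneg _) (by linarith [th_le_one (x - 1)])

lemma al_le_one (ρ x : ℝ) : al ρ x ≤ 1 := by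
  unfold al
  nlinarith [th_nonneg (x / ρ - 1), th_le_one (x / ρ - 1), th_nonneg (x - 1), th_le_one (x - 1)]

lemma ga_zero {y : ℝ} (h : y ≤ 0 ∨ 2 * Real.pi + 1 ≤ y) : ga y = 0 := by
  unfold ga
  have := Real.pi_pos
  rcases h with h | h
  · rw [th_zero h, th_zero (by linarith), sub_zero]
  · rw [th_one (by linarith), th_one (by linarith), sub_self]

lemma abs_ga_le (y : ℝ) : |ga y| ≤ 1 := by
  unfold ga
  rw [abs_le]
  constructor <;>
  linarith [th_nonneg y, th_le_one y, th_nonneg (y - 2 * Real.pi), th_le_one (y - 2 * Real.pi)]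

lemma deriv_al {ρ : ℝ} (hρ : 0 < ρ) (x : ℝ) :
    |deriv (al ρ) x| ≤ |deriv th (x / ρ - 1)| / ρ + |deriv th (x - 1)| := by
  have h1 : HasDerivAt (fun x : ℝ => th (x / ρ - 1)) (deriv th (x / ρ - 1) * (1 / ρ)) x := by
    have h : HasDerivAt (fun x : ℝ => x / ρ - 1) (1 / ρ) x :=
      ((hasDerivAt_id x).div_const ρ).sub_const 1
    exact (diff_th _).hasDerivAt.comp x h
  have h2 : HasDerivAt (fun x : ℝ => 1 - th (x - 1)) (-(deriv th (x - 1) * 1)) x := by
    have h : HasDerivAt (fun x : ℝ => x - 1) 1 x := (hasDerivAt_id x).sub_const 1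
    exact ((diff_th _).hasDerivAt.comp x h).const_sub 1
  have h3 : deriv (al ρ) x = _ := (h1.fun_mul h2).deriv
  rw [h3]
  refine (abs_add_le _ _).trans ?_
  rw [abs_mul, abs_mul, abs_mul, abs_neg, mul_one]
  have e1 : |1 / ρ| = 1 / ρ := abs_of_pos (by positivity)
  have e2 : |1 - th (x - 1)| ≤ 1 := by
    rw [abs_le]
    constructor <;> linarith [th_nonneg (x - 1), th_le_one (x - 1)]
  have e3 : |th (x / ρ - 1)| ≤ 1 := by
    rw [abs_le]
    constructor <;> linarith [th_nonneg (x / ρ - 1), th_le_one (x / ρ - 1)]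
  rw [e1]
  have h0 : 0 ≤ |deriv th (x / ρ - 1)| * (1 / ρ) := by positivity
  have h0' := abs_nonneg (deriv th (x - 1))
  calc _ ≤ |deriv th (x / ρ - 1)| * (1 / ρ) * 1 + 1 * |deriv th (x - 1)| := by gcongr
    _ = _ := by ring

lemma deriv_ga (y : ℝ) : |deriv ga y| ≤ |deriv th y| + |deriv th (y - 2 * Real.pi)| := by
  have h2 : HasDerivAt (fun y : ℝ => th (y - 2 * Real.pi)) (deriv th (y - 2 * Real.pi) * 1) y := by
    have h : HasDerivAt (fun y : ℝ => y - 2 * Real.pi) 1 y := (hasDerivAt_id y).sub_const _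
    exact (diff_th _).hasDerivAt.comp y h
  have h3 : deriv ga y = _ := ((diff_th y).hasDerivAt.fun_sub h2).deriv
  rw [h3, mul_one]
  exact abs_sub _ _

lemma hcs_al {ρ : ℝ} (hρ : 0 < ρ) : HasCompactSupport (al ρ) := by
  apply HasCompactSupport.intro (isCompact_Icc (a := ρ) (b := 2))
  intro x hx
  rw [mem_Icc, not_and_or, not_le, not_le] at hx
  exact al_zero hρ (hx.imp le_of_lt le_of_lt)

lemma hcs_ga : HasCompactSupport ga := by
  apply HasCompactSupport.intro (isCompact_Icc (a := 0) (b := 2 * Real.pi + 1))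
  intro x hx
  rw [mem_Icc, not_and_or, not_le, not_le] at hx
  exact ga_zero (hx.imp le_of_lt le_of_lt)

lemma integrable_al {ρ : ℝ} (hρ : 0 < ρ) : Integrable (al ρ) :=
  (al_cd ρ).continuous.integrable_of_hasCompactSupport (hcs_al hρ)

lemma integrable_ga : Integrable ga := ga_cd.continuous.integrable_of_hasCompactSupport hcs_ga

lemma integrable_deriv_al {ρ : ℝ} (hρ : 0 < ρ) : Integrable (deriv (al ρ)) :=
  ((al_cd ρ).continuous_deriv (by simp)).integrable_of_hasCompactSupport (hcs_al hρ).deriv

lemma integrable_deriv_ga : Integrable (deriv ga) :=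
  (ga_cd.continuous_deriv (by simp)).integrable_of_hasCompactSupport hcs_ga.deriv

lemma int_abs_al {ρ : ℝ} (hρ : 0 < ρ) : ∫ x, |al ρ x| ≤ 2 := by
  have h1 : ∫ x, |al ρ x| = ∫ x in Icc (0 : ℝ) 2, |al ρ x| := by
    symm
    apply setIntegral_eq_integral_of_forall_compl_eq_zero
    intro x hx
    rw [mem_Icc, not_and_or, not_le, not_le] at hx
    rw [al_zero hρ, abs_zero]
    rcases hx with h | h
    · left; linarith
    · right; exact h.le
  rw [h1]
  have h2 : ∫ x in Icc (0 : ℝ) 2, |al ρ x| ≤ ∫ x in Icc (0 : ℝ) 2, (1 : ℝ) := by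
    apply setIntegral_mono (integrable_al hρ).abs.integrableOn
    · exact integrableOn_const (by simp)
    · intro x
      simp only
      rw [abs_of_nonneg (al_nonneg _ _)]
      exact al_le_one _ _
  refine h2.trans (le_of_eq ?_)
  rw [setIntegral_const, smul_eq_mul, mul_one, Real.volume_real_Icc]
  norm_num

lemma int_abs_ga : ∫ x, |ga x| ≤ 8 := by
  have hpi := Real.pi_lt_d2
  have hpi0 := Real.pi_pos
  have h1 : ∫ x, |ga x| = ∫ x in Icc (0 : ℝ) (2 * Real.pi + 1), |ga x| := by
    symm
    apply setIntegral_eq_integral_of_forall_compl_eq_zero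
    intro x hx
    rw [mem_Icc, not_and_or, not_le, not_le] at hx
    rw [ga_zero (hx.imp le_of_lt le_of_lt), abs_zero]
  rw [h1]
  have h2 : ∫ x in Icc (0 : ℝ) (2 * Real.pi + 1), |ga x| ≤
      ∫ x in Icc (0 : ℝ) (2 * Real.pi + 1), (1 : ℝ) := by
    apply setIntegral_mono integrable_ga.abs.integrableOn
    · exact integrableOn_const (by simp)
    · intro x
      exact abs_ga_le x
  refine h2.trans ?_
  rw [setIntegral_const, smul_eq_mul, mul_one, Real.volume_real_Icc]
  rw [max_eq_left (by linarith)]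
  linarith

lemma int_abs_deriv_ga : ∫ x, |deriv ga x| ≤ 2 * TT := by
  have hI : Integrable fun y : ℝ => |deriv th (y - 2 * Real.pi)| :=
    integrable_deriv_th.comp_sub_right (2 * Real.pi)
  have h1 : ∫ x, |deriv ga x| ≤ ∫ y, (|deriv th y| + |deriv th (y - 2 * Real.pi)|) := by
    apply integral_mono integrable_deriv_ga.abs (integrable_deriv_th.add hI)
    intro y
    exact deriv_ga y
  refine h1.trans (le_of_eq ?_)
  rw [integral_add integrable_deriv_th hI, integral_sub_right_eq_self (fun y => |deriv th y|)]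
  unfold TT
  ring

lemma int_abs_deriv_al {ρ : ℝ} (hρ : 0 < ρ) : ∫ x, |deriv (al ρ) x| ≤ 2 * TT := by
  have hI : Integrable fun y : ℝ => |deriv th (y - 1)| :=
    integrable_deriv_th.comp_sub_right 1
  have hI2 : Integrable fun y : ℝ => |deriv th (y / ρ - 1)| := by
    have := hI.comp_div hρ.ne'
    exact this
  have h1 : ∫ x, |deriv (al ρ) x| ≤ ∫ y, (|deriv th (y / ρ - 1)| / ρ + |deriv th (y - 1)|) := by
    apply integral_mono (integrable_deriv_al hρ).abs ((hI2.div_const ρ).add hI)
    intro y
    exact deriv_al hρ y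
  refine h1.trans (le_of_eq ?_)
  rw [integral_add (hI2.div_const ρ) hI, integral_sub_right_eq_self (fun y => |deriv th y|),
    integral_div]
  have h2 : ∫ y, |deriv th (y / ρ - 1)| = ρ * TT := by
    rw [Measure.integral_comp_div (fun y => |deriv th (y - 1)|) ρ,
      integral_sub_right_eq_self (fun y => |deriv th y|), abs_of_pos hρ]
    rfl
  rw [h2]
  unfold TT
  field_simp
  ring

/-- exact orthogonality -/
lemma int_ga_exp (k : ℤ) : ∫ y : ℝ, (ga y : ℂ) * Complex.exp (Complex.I * k * y) =
    if k = 0 then (2 * Real.pi : ℂ) else 0 := by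
  have hpi := Real.pi_pos
  have hs : Function.support (fun y : ℝ => (ga y : ℂ) * Complex.exp (Complex.I * k * y)) ⊆
      Ioc (0 : ℝ) (2 * Real.pi + 1) := by
    intro y hy
    by_contra h
    apply hy
    rw [mem_Ioc, not_and_or, not_lt, not_le] at h
    simp only
    rw [ga_zero (h.imp id le_of_lt)]
    simp
  rw [← intervalIntegral.integral_eq_integral_of_support_subset hs]
  set e : ℝ → ℂ := fun y => Complex.exp (Complex.I * k * y) with he
  have hec : Continuous e := by
    rw [he]; fun_prop
  have hthc : Continuous fun y : ℝ => (th y : ℂ) := Complex.continuous_ofReal.comp th_cd.continuous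
  have hper : ∀ y : ℝ, e (y + 2 * Real.pi) = e y := by
    intro y
    simp only [he]
    push_cast
    have : Complex.I * k * (y + 2 * Real.pi) = Complex.I * k * y + k * (2 * Real.pi * Complex.I) := by
      ring
    rw [this, Complex.exp_add, Complex.exp_int_mul_two_pi_mul_I, mul_one]
  have hI1 : IntervalIntegrable (fun y => (th y : ℂ) * e y) volume 0 (2 * Real.pi + 1) :=
    (hthc.mul hec).intervalIntegrable _ _
  have hthc2 : Continuous fun y : ℝ => (th (y - 2 * Real.pi) : ℂ) :=
    hthc.comp (continuous_id.sub continuous_const)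
  have hI2 : IntervalIntegrable (fun y => (th (y - 2 * Real.pi) : ℂ) * e y) volume 0
      (2 * Real.pi + 1) := (hthc2.mul hec).intervalIntegrable _ _
  have h1 : ∫ y in (0 : ℝ)..(2 * Real.pi + 1), (ga y : ℂ) * e y =
      (∫ y in (0 : ℝ)..(2 * Real.pi + 1), (th y : ℂ) * e y) -
        ∫ y in (0 : ℝ)..(2 * Real.pi + 1), (th (y - 2 * Real.pi) : ℂ) * e y := by
    rw [← intervalIntegral.integral_sub hI1 hI2]
    congr 1
    funext y
    unfold ga
    push_cast
    ring
  have h2 : ∫ y in (0 : ℝ)..(2 * Real.pi + 1), (th (y - 2 * Real.pi) : ℂ) * e y =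
      ∫ y in (0 : ℝ)..1, (th y : ℂ) * e y := by
    have h3 : ∀ y : ℝ, (th (y - 2 * Real.pi) : ℂ) * e y =
        (fun y => (th y : ℂ) * e y) (y - 2 * Real.pi) := by
      intro y
      simp only
      rw [← hper (y - 2 * Real.pi), sub_add_cancel]
    simp_rw [h3]
    rw [intervalIntegral.integral_comp_sub_right (fun y => (th y : ℂ) * e y) (2 * Real.pi)]
    have e1 : 2 * Real.pi + 1 - 2 * Real.pi = 1 := by ring
    rw [e1]
    have hc : Continuous fun y : ℝ => (th y : ℂ) * e y := hthc.mul hec
    have h4 := intervalIntegral.integral_add_adjacent_intervals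
      (hc.intervalIntegrable (μ := volume) (0 - 2 * Real.pi) 0) (hc.intervalIntegrable (μ := volume) 0 1)
    rw [← h4]
    have h5 : ∫ y in (0 - 2 * Real.pi)..0, (th y : ℂ) * e y = 0 := by
      have : ∀ y ∈ uIcc (0 - 2 * Real.pi) 0, (th y : ℂ) * e y = (0 : ℂ) := by
        intro y hy
        rw [uIcc_of_le (by linarith)] at hy
        rw [th_zero hy.2]
        simp
      rw [intervalIntegral.integral_congr (g := fun _ => (0 : ℂ)) this]
      simp
    rw [h5, zero_add]
  have h3 : ∫ y in (0 : ℝ)..(2 * Real.pi + 1), (th y : ℂ) * e y =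
      (∫ y in (0 : ℝ)..1, (th y : ℂ) * e y) + ∫ y in (1 : ℝ)..(2 * Real.pi + 1), e y := by
    have hc : Continuous fun y : ℝ => (th y : ℂ) * e y := hthc.mul hec
    rw [← intervalIntegral.integral_add_adjacent_intervals
      (hc.intervalIntegrable (μ := volume) 0 1)
      (hc.intervalIntegrable (μ := volume) 1 (2 * Real.pi + 1))]
    congr 1
    apply intervalIntegral.integral_congr
    intro y hy
    rw [uIcc_of_le (by linarith)] at hy
    simp only
    rw [th_one hy.1]
    simp
  rw [h1, h2, h3, add_sub_cancel_left]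
  split_ifs with hk
  · subst hk
    simp [he]
  · have hc : Complex.I * k ≠ 0 := mul_ne_zero Complex.I_ne_zero (by exact_mod_cast hk)
    simp only [he]
    rw [integral_exp_mul_complex hc]
    have := hper 1
    simp only [he] at this
    have e2 : ((2 * Real.pi + 1 : ℝ) : ℂ) = ((1 + 2 * Real.pi : ℝ) : ℂ) := by
      push_cast
      ring
    rw [e2, this, sub_self, zero_div]

/-- lower bound of the diagonal integrals -/
lemma int_al_low {K j : ℕ} (hj : j < K) {ρ : ℝ} (hρ : 0 < ρ) (hρK : 4 * ρ * 3 ^ K ≤ 1) :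
    Real.exp (-2) / 4 ≤ (3 : ℝ) ^ j * (3 : ℝ) ^ j *
      ∫ x, x * al ρ x * Real.exp (-(2 * 3 ^ j * x)) := by
  set N : ℝ := (3 : ℝ) ^ j with hN
  have hN1 : 1 ≤ N := one_le_pow₀ (by norm_num)
  have hN0 : 0 < N := by positivity
  have hNK : N ≤ 3 ^ K := pow_le_pow_right₀ (by norm_num) hj.le
  have hρN : 4 * ρ * N ≤ 1 := by
    refine le_trans ?_ hρK
    gcongr
  have hcont : Continuous fun x : ℝ => x * al ρ x * Real.exp (-(2 * N * x)) :=
    (continuous_id.mul (al_cd ρ).continuous).mul (by fun_prop)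
  have hcs : HasCompactSupport fun x : ℝ => x * al ρ x * Real.exp (-(2 * N * x)) := by
    have h1 : HasCompactSupport fun x : ℝ => x * al ρ x :=
      (hcs_al hρ).mul_left (f := fun x => x)
    exact h1.mul_right
  have hint := hcont.integrable_of_hasCompactSupport hcs (μ := volume)
  have hnn : ∀ x, 0 ≤ x * al ρ x * Real.exp (-(2 * N * x)) := by
    intro x
    rcases le_or_gt x 0 with h | h
    · rw [al_zero hρ (Or.inl (by linarith))]
      simp
    · have := al_nonneg ρ x
      positivity
  have h1 : ∫ x in Icc (1 / (2 * N)) (1 / N), (Real.exp (-2) / (2 * N)) ≤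
      ∫ x, x * al ρ x * Real.exp (-(2 * N * x)) := by
    refine le_trans ?_ (setIntegral_le_integral (s := Icc (1 / (2 * N)) (1 / N)) hint
      (Filter.Eventually.of_forall hnn))
    apply setIntegral_mono_on
    · exact integrableOn_const (by simp)
    · exact hint.integrableOn
    · exact measurableSet_Icc
    · intro x hx
      have hx1 : 2 * ρ ≤ x := by
        refine le_trans ?_ hx.1
        rw [le_div_iff₀ (by positivity)]
        linarith
      have hx2 : x ≤ 1 := by
        refine hx.2.trans ?_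
        rw [div_le_one hN0]
        exact hN1
      rw [al_one hρ hx1 hx2, mul_one]
      have h3 : Real.exp (-2) ≤ Real.exp (-(2 * N * x)) := by
        apply Real.exp_le_exp.2
        have := hx.2
        rw [le_div_iff₀ hN0] at this
        linarith
      have h4 : 1 / (2 * N) ≤ x := hx.1
      calc Real.exp (-2) / (2 * N) = (1 / (2 * N)) * Real.exp (-2) := by ring
        _ ≤ x * Real.exp (-(2 * N * x)) := by
          apply mul_le_mul h4 h3 (Real.exp_pos _).le
          linarith
  have h2 : ∫ x in Icc (1 / (2 * N)) (1 / N), (Real.exp (-2) / (2 * N)) =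
      Real.exp (-2) / 4 / (N * N) := by
    rw [setIntegral_const, Real.volume_real_Icc, smul_eq_mul]
    have : 1 / N - 1 / (2 * N) = 1 / (2 * N) := by
      field_simp
      ring
    rw [this, max_eq_left (by positivity)]
    field_simp
    ring
  rw [h2, div_le_iff₀ (by positivity)] at h1
  linarith

/-- product integrals over `ℂ` -/
lemma prodInt (F G : ℝ → ℂ) : ∫ z : ℂ, F z.re * G z.im = (∫ x, F x) * ∫ y, G y := by
  rw [← Complex.volume_preserving_equiv_real_prod.symm.integral_comp
    Complex.measurableEquivRealProd.symm.measurableEmbedding]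
  simp only [Complex.measurableEquivRealProd_symm_apply]
  exact integral_prod_mul F G

lemma prodIntegrable {F G : ℝ → ℝ} (hF : Integrable F) (hG : Integrable G) :
    Integrable fun z : ℂ => F z.re * G z.im := by
  rw [← Complex.volume_preserving_equiv_real_prod.symm.integrable_comp_emb
    Complex.measurableEquivRealProd.symm.measurableEmbedding]
  have := hF.mul_prod hG
  exact this

end Pool.Agent.Helper303.Db
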