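import Mathlib

open MeasureTheory Set
open scoped ContDiff

namespace Pool.Agent.Helper303.Db

/-- The open Euclidean unit ball `𝔹_n` of `ℂⁿ`. -/
def unitBall (n : ℕ) : Set (Fin n → ℂ) := {z | ∑ j, ‖z j‖ ^ 2 < 1}

/-- `U` and `V` are biholomorphic: there is a holomorphic map `F` of `U` onto `V` with a
holomorphic inverse `G`. -/
def Biholomorphic {n : ℕ} (U V : Set (Fin n → ℂ)) : Prop :=
  ∃ F G : (Fin n → ℂ) → (Fin n → ℂ), DifferentiableOn ℂ F U ∧ DifferentiableOn ℂ G V ∧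
    MapsTo F U V ∧ MapsTo G V U ∧ (∀ z ∈ U, G (F z) = z) ∧ (∀ w ∈ V, F (G w) = w)

/-- `∂φ/∂z̄_j = (∂φ/∂x_j + i ∂φ/∂y_j)/2`. -/
noncomputable def dbar {n : ℕ} (j : Fin n) (φ : (Fin n → ℂ) → ℂ) (x : Fin n → ℂ) : ℂ :=
  (fderiv ℝ φ x (Pi.single j 1) + Complex.I * fderiv ℝ φ x (Pi.single j Complex.I)) / 2

/-- `φ` is a test function on `Ω`: smooth, with compact support contained in `Ω`. -/
def IsTest {n : ℕ} (Ω : Set (Fin n → ℂ)) (φ : (Fin n → ℂ) → ℂ) : Prop :=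
  ContDiff ℝ ∞ φ ∧ HasCompactSupport φ ∧ tsupport φ ⊆ Ω

/-- The `(0,1)`-form `f = ∑ f_j dz̄_j` (given by its coefficients) has `∂̄f = 0` on `Ω` in the
sense of distributions. -/
def DbarClosed {n : ℕ} (Ω : Set (Fin n → ℂ)) (f : (Fin n → ℂ) → (Fin n → ℂ)) : Prop :=
  ∀ j k : Fin n, ∀ φ, IsTest Ω φ → ∫ x in Ω, f x j * dbar k φ x = ∫ x in Ω, f x k * dbar j φ x

/-- `∂̄u = f` on `Ω` in the sense of distributions. -/
def SolvesDbar {n : ℕ} (Ω : Set (Fin n → ℂ)) (u : (Fin n → ℂ) → ℂ)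
    (f : (Fin n → ℂ) → (Fin n → ℂ)) : Prop :=
  ∀ j : Fin n, ∀ φ, IsTest Ω φ → ∫ x in Ω, u x * dbar j φ x = - ∫ x in Ω, f x j * φ x

/-- `∂̄` satisfies uniform estimates on `Ω`: there is a constant `C` such that every `∂̄`-closed
`(0,1)`-form `f` on `Ω` with (measurable) coefficients in `L^∞` and with
`ess sup (∑ |f_j|²)^{1/2} ≤ M` has a solution `u` of `∂̄u = f` with `ess sup |u| ≤ C M`. -/
def UniformEstimates {n : ℕ} (Ω : Set (Fin n → ℂ)) : Prop :=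
  ∃ C : ℝ, ∀ (f : (Fin n → ℂ) → (Fin n → ℂ)) (M : ℝ),
    AEStronglyMeasurable f (volume.restrict Ω) →
    (∀ᵐ x ∂(volume.restrict Ω), Real.sqrt (∑ j, ‖f x j‖ ^ 2) ≤ M) →
    DbarClosed Ω f →
    ∃ u : (Fin n → ℂ) → ℂ, AEStronglyMeasurable u (volume.restrict Ω) ∧
      (∀ᵐ x ∂(volume.restrict Ω), ‖u x‖ ≤ C * M) ∧ SolvesDbar Ω u f

end Pool.Agent.Helper303.Db
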