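import Pool.Agent.Helper303.DbCalc

open MeasureTheory Set
open scoped ContDiff ComplexConjugate

namespace Pool.Agent.Helper303.Db

variable {m : ℕ}

/-- the domain `{|z|² + |w - b(z)|²/|1 - z|² + |t|² < 1}` -/
def Om (m : ℕ) (b : ℂ → ℂ) : Set (Fin (m + 2) → ℂ) :=
  {p | ‖p 0‖ ^ 2 + (‖(p 1 - b (p 0)) / (1 - p 0)‖ ^ 2 + ∑ j : Fin m, ‖p j.succ.succ‖ ^ 2) < 1}

noncomputable def Fm (m : ℕ) (b : ℂ → ℂ) (p : Fin (m + 2) → ℂ) : Fin (m + 2) → ℂ :=
  Function.update p 1 (b (p 0) + (1 - p 0) * p 1)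

noncomputable def Gm (m : ℕ) (b : ℂ → ℂ) (p : Fin (m + 2) → ℂ) : Fin (m + 2) → ℂ :=
  Function.update p 1 ((p 1 - b (p 0)) / (1 - p 0))

lemma mem_unitBall (p : Fin (m + 2) → ℂ) : p ∈ unitBall (m + 2) ↔
    ‖p 0‖ ^ 2 + (‖p 1‖ ^ 2 + ∑ j : Fin m, ‖p j.succ.succ‖ ^ 2) < 1 := by
  unfold unitBall
  rw [Set.mem_ofPred_eq, Fin.sum_univ_succ, Fin.sum_univ_succ]
  rfl

lemma mem_Om (b : ℂ → ℂ) (p : Fin (m + 2) → ℂ) : p ∈ Om m b ↔
    ‖p 0‖ ^ 2 + (‖(p 1 - b (p 0)) / (1 - p 0)‖ ^ 2 + ∑ j : Fin m, ‖p j.succ.succ‖ ^ 2) < 1 :=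
  Iff.rfl

lemma zero_ne_one' : (0 : Fin (m + 2)) ≠ 1 := by simp

lemma ss_ne_one (j : Fin m) : (j.succ.succ : Fin (m + 2)) ≠ 1 := by
  intro h
  have := congrArg Fin.val h
  simp at this

lemma upd_zero (p : Fin (m + 2) → ℂ) (a : ℂ) : Function.update p 1 a 0 = p 0 :=
  Function.update_of_ne zero_ne_one' _ _

lemma upd_ss (p : Fin (m + 2) → ℂ) (a : ℂ) (j : Fin m) :
    Function.update p 1 a j.succ.succ = p j.succ.succ :=
  Function.update_of_ne (ss_ne_one j) _ _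

lemma upd_one (p : Fin (m + 2) → ℂ) (a : ℂ) : Function.update p 1 a 1 = a :=
  Function.update_self _ _ _

lemma mem_Om_iff_Gm (b : ℂ → ℂ) (p : Fin (m + 2) → ℂ) :
    p ∈ Om m b ↔ Gm m b p ∈ unitBall (m + 2) := by
  rw [mem_unitBall, mem_Om]
  simp only [Gm, upd_zero, upd_one, upd_ss]

lemma sum_nonneg' (p : Fin (m + 2) → ℂ) : 0 ≤ ∑ j : Fin m, ‖p j.succ.succ‖ ^ 2 :=
  Finset.sum_nonneg fun _ _ => by positivity

lemma norm_zero_lt_of_sq {a c d : ℝ} (ha : 0 ≤ a) (hc : 0 ≤ c) (hd : 0 ≤ d)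
    (h : a ^ 2 + (c + d) < 1) : a < 1 := by nlinarith

lemma lt_of_mem_Om {b : ℂ → ℂ} {p : Fin (m + 2) → ℂ} (hp : p ∈ Om m b) : ‖p 0‖ < 1 :=
  norm_zero_lt_of_sq (norm_nonneg _) (by positivity) (sum_nonneg' p) hp

lemma lt_of_mem_ball {p : Fin (m + 2) → ℂ} (hp : p ∈ unitBall (m + 2)) : ‖p 0‖ < 1 :=
  norm_zero_lt_of_sq (norm_nonneg _) (by positivity) (sum_nonneg' p) ((mem_unitBall p).1 hp)

lemma one_sub_ne {z : ℂ} (hz : ‖z‖ < 1) : (1 : ℂ) - z ≠ 0 := by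
  intro h
  have : z = 1 := (sub_eq_zero.1 h).symm
  rw [this, norm_one] at hz
  exact lt_irrefl _ hz

lemma Gm_Fm {b : ℂ → ℂ} {p : Fin (m + 2) → ℂ} (hp : ‖p 0‖ < 1) : Gm m b (Fm m b p) = p := by
  have h := one_sub_ne hp
  unfold Gm Fm
  simp only [upd_zero, upd_one, Function.update_idem]
  have : (b (p 0) + (1 - p 0) * p 1 - b (p 0)) / (1 - p 0) = p 1 := by
    field_simp
    ring
  rw [this, Function.update_eq_self]

lemma Fm_Gm {b : ℂ → ℂ} {p : Fin (m + 2) → ℂ} (hp : ‖p 0‖ < 1) : Fm m b (Gm m b p) = p := by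
  have h := one_sub_ne hp
  unfold Gm Fm
  simp only [upd_zero, upd_one, Function.update_idem]
  have : b (p 0) + (1 - p 0) * ((p 1 - b (p 0)) / (1 - p 0)) = p 1 := by
    field_simp
    ring
  rw [this, Function.update_eq_self]

/-- the half-space `{|z_0| < 1}` -/
def Cyl (m : ℕ) : Set (Fin (m + 2) → ℂ) := {p | ‖p 0‖ < 1}

lemma mem_Cyl (p : Fin (m + 2) → ℂ) : p ∈ Cyl m ↔ ‖p 0‖ < 1 := Iff.rfl

lemma isOpen_Cyl : IsOpen (Cyl m) :=
  isOpen_lt (continuous_apply 0).norm continuous_const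

lemma diff_b {b : ℂ → ℂ} (hb : DifferentiableOn ℂ b (Metric.ball 0 1)) :
    DifferentiableOn ℂ (fun p : Fin (m + 2) → ℂ => b (p 0)) (Cyl m) := by
  have h0 : DifferentiableOn ℂ (fun p : Fin (m + 2) → ℂ => p 0) (Cyl m) :=
    (differentiable_apply (𝕜 := ℂ) (0 : Fin (m + 2))).differentiableOn
  exact hb.comp h0 (fun p hp => by rw [mem_ball_zero_iff]; exact hp)

lemma diff_Gm {b : ℂ → ℂ} (hb : DifferentiableOn ℂ b (Metric.ball 0 1)) :
    DifferentiableOn ℂ (Gm m b) (Cyl m) := by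
  rw [differentiableOn_pi]
  intro j
  have hj : ∀ j : Fin (m + 2), DifferentiableOn ℂ (fun p : Fin (m + 2) → ℂ => p j) (Cyl m) :=
    fun j => (differentiable_apply (𝕜 := ℂ) j).differentiableOn
  by_cases h1 : j = 1
  · subst h1
    have : (fun p : Fin (m + 2) → ℂ => Gm m b p 1) = fun p => (p 1 - b (p 0)) / (1 - p 0) := by
      funext p
      simp only [Gm, upd_one]
    rw [this]
    have h2 : DifferentiableOn ℂ (fun p : Fin (m + 2) → ℂ => (1 - p 0)⁻¹) (Cyl m) := by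
      apply DifferentiableOn.fun_inv
      · exact (differentiableOn_const (1 : ℂ)).fun_sub (hj 0)
      · intro p hp
        exact one_sub_ne hp
    simp_rw [div_eq_mul_inv]
    exact ((hj 1).fun_sub (diff_b hb)).fun_mul h2
  · have : (fun p : Fin (m + 2) → ℂ => Gm m b p j) = fun p => p j := by
      funext p
      simp only [Gm, Function.update_of_ne h1]
    rw [this]
    exact hj j

lemma diff_Fm {b : ℂ → ℂ} (hb : DifferentiableOn ℂ b (Metric.ball 0 1)) :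
    DifferentiableOn ℂ (Fm m b) (Cyl m) := by
  rw [differentiableOn_pi]
  intro j
  have hj : ∀ j : Fin (m + 2), DifferentiableOn ℂ (fun p : Fin (m + 2) → ℂ => p j) (Cyl m) :=
    fun j => (differentiable_apply (𝕜 := ℂ) j).differentiableOn
  by_cases h1 : j = 1
  · subst h1
    have : (fun p : Fin (m + 2) → ℂ => Fm m b p 1) = fun p => b (p 0) + (1 - p 0) * p 1 := by
      funext p
      simp only [Fm, upd_one]
    rw [this]
    exact (diff_b hb).add (((differentiableOn_const _).sub (hj 0)).mul (hj 1))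
  · have : (fun p : Fin (m + 2) → ℂ => Fm m b p j) = fun p => p j := by
      funext p
      simp only [Fm, Function.update_of_ne h1]
    rw [this]
    exact hj j

lemma isOpen_unitBall (n : ℕ) : IsOpen (unitBall n) := by
  unfold unitBall
  exact isOpen_lt (by fun_prop) continuous_const

lemma Om_eq (b : ℂ → ℂ) : Om m b = Cyl m ∩ Gm m b ⁻¹' (unitBall (m + 2)) := by
  ext p
  constructor
  · intro hp
    exact ⟨lt_of_mem_Om hp, (mem_Om_iff_Gm b p).1 hp⟩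
  · intro hp
    exact (mem_Om_iff_Gm b p).2 hp.2

lemma isOpen_Om {b : ℂ → ℂ} (hb : DifferentiableOn ℂ b (Metric.ball 0 1)) : IsOpen (Om m b) := by
  rw [Om_eq]
  exact (diff_Gm hb).continuousOn.isOpen_inter_preimage isOpen_Cyl (isOpen_unitBall _)

lemma Fm_mem {b : ℂ → ℂ} {p : Fin (m + 2) → ℂ} (hp : p ∈ unitBall (m + 2)) :
    Fm m b p ∈ Om m b := by
  rw [mem_Om_iff_Gm, Gm_Fm (lt_of_mem_ball hp)]
  exact hp

lemma biholo {b : ℂ → ℂ} (hb : DifferentiableOn ℂ b (Metric.ball 0 1)) :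
    Biholomorphic (unitBall (m + 2)) (Om m b) := by
  refine ⟨Fm m b, Gm m b, (diff_Fm hb).mono (fun p hp => lt_of_mem_ball hp),
    (diff_Gm hb).mono (fun p hp => lt_of_mem_Om hp), fun p hp => Fm_mem hp,
    fun p hp => (mem_Om_iff_Gm b p).1 hp, fun z hz => Gm_Fm (lt_of_mem_ball hz),
    fun w hw => Fm_Gm (lt_of_mem_Om hw)⟩

lemma isConnected_unitBall (n : ℕ) : IsConnected (unitBall n) := by
  have h0 : (0 : Fin n → ℂ) ∈ unitBall n := by
    unfold unitBall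
    rw [Set.mem_ofPred_eq]
    simp
  have hs : StarConvex ℝ (0 : Fin n → ℂ) (unitBall n) := by
    rw [starConvex_zero_iff]
    intro x hx a ha0 ha1
    unfold unitBall at hx ⊢
    rw [Set.mem_ofPred_eq] at hx ⊢
    refine lt_of_le_of_lt ?_ hx
    apply Finset.sum_le_sum
    intro j _
    have : ‖(a • x) j‖ ≤ ‖x j‖ := by
      rw [Pi.smul_apply, norm_smul, Real.norm_eq_abs, abs_of_nonneg ha0]
      nlinarith [norm_nonneg (x j)]
    gcongr
  exact (hs.isPathConnected h0).isConnected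

lemma isConnected_Om {b : ℂ → ℂ} (hb : DifferentiableOn ℂ b (Metric.ball 0 1)) :
    IsConnected (Om m b) := by
  have : Om m b = Fm m b '' (unitBall (m + 2)) := by
    ext p
    constructor
    · intro hp
      exact ⟨Gm m b p, (mem_Om_iff_Gm b p).1 hp, Fm_Gm (lt_of_mem_Om hp)⟩
    · rintro ⟨q, hq, rfl⟩
      exact Fm_mem hq
  rw [this]
  exact (isConnected_unitBall _).image _
    ((diff_Fm hb).continuousOn.mono (fun p hp => lt_of_mem_ball hp))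

/-- on `Om`, `|w - b(z)| ≤ 2 (1 - Re z)` -/
lemma thin {b : ℂ → ℂ} {p : Fin (m + 2) → ℂ} (hp : p ∈ Om m b) :
    ‖p 1 - b (p 0)‖ ≤ 2 * (1 - (p 0).re) := by
  have h0 := lt_of_mem_Om hp
  have hne := one_sub_ne h0
  rw [mem_Om, norm_div, div_pow] at hp
  have hpos : 0 < ‖(1 : ℂ) - p 0‖ ^ 2 := by positivity
  have h1 : ‖p 1 - b (p 0)‖ ^ 2 / ‖1 - p 0‖ ^ 2 < 1 - ‖p 0‖ ^ 2 := by
    have := sum_nonneg' p
    linarith
  rw [div_lt_iff₀ hpos] at h1
  have h2 : ‖(1 : ℂ) - p 0‖ ^ 2 = 1 - 2 * (p 0).re + ‖p 0‖ ^ 2 := by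
    rw [← Complex.normSq_eq_norm_sq, ← Complex.normSq_eq_norm_sq, Complex.normSq_apply,
      Complex.normSq_apply]
    simp
    ring
  have h3 : (p 0).re ^ 2 ≤ ‖p 0‖ ^ 2 := by
    rw [← Complex.normSq_eq_norm_sq, Complex.normSq_apply]
    nlinarith [sq_nonneg (p 0).im]
  have h4 : ‖p 0‖ ^ 2 < 1 := by nlinarith [norm_nonneg (p 0)]
  have h5 : (p 0).re < 1 := by nlinarith
  rw [h2] at h1
  have h6 : ‖p 1 - b (p 0)‖ ^ 2 ≤ (2 * (1 - (p 0).re)) ^ 2 := by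
    refine h1.le.trans ?_
    have e1 : 1 - ‖p 0‖ ^ 2 ≤ 2 * (1 - (p 0).re) := by nlinarith
    have e2 : 1 - 2 * (p 0).re + ‖p 0‖ ^ 2 ≤ 2 * (1 - (p 0).re) := by nlinarith
    have e3 : 0 ≤ 1 - ‖p 0‖ ^ 2 := by linarith
    have e4 : 0 ≤ 1 - 2 * (p 0).re + ‖p 0‖ ^ 2 := by nlinarith [sq_nonneg (1 - (p 0).re)]
    calc (1 - ‖p 0‖ ^ 2) * (1 - 2 * (p 0).re + ‖p 0‖ ^ 2)
        ≤ (2 * (1 - (p 0).re)) * (2 * (1 - (p 0).re)) := by
          apply mul_le_mul e1 e2 e4 (by linarith)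
      _ = _ := by ring
  exact le_of_sq_le_sq h6 (by linarith)

lemma isBounded_Om {b : ℂ → ℂ} {β : ℝ} (hβ : ∀ z, ‖z‖ < 1 → ‖b z‖ ≤ β) :
    Bornology.IsBounded (Om m b) := by
  rw [isBounded_iff_forall_norm_le]
  have hβ0 : 0 ≤ β := (norm_nonneg _).trans (hβ 0 (by simp))
  refine ⟨β + 4, ?_⟩
  intro p hp
  rw [pi_norm_le_iff_of_nonneg (by linarith)]
  have h0 := lt_of_mem_Om hp
  have hre : -1 < (p 0).re := by
    have := Complex.abs_re_le_norm (p 0)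
    have := abs_le.1 this
    linarith [this.1]
  intro j
  refine Fin.cases ?_ (fun j => ?_) j
  · linarith
  · refine Fin.cases ?_ (fun j => ?_) j
    · have h1 := thin hp
      have h2 : ‖p 1‖ ≤ ‖p 1 - b (p 0)‖ + ‖b (p 0)‖ := by
        have := norm_add_le (p 1 - b (p 0)) (b (p 0))
        rwa [sub_add_cancel] at this
      have h3 := hβ (p 0) h0
      have : ‖p 1‖ ≤ β + 4 := by linarith
      exact this
    · rw [mem_Om] at hp
      have h1 : ‖p j.succ.succ‖ ^ 2 ≤ ∑ j : Fin m, ‖p j.succ.succ‖ ^ 2 :=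
        Finset.single_le_sum (f := fun j : Fin m => ‖p j.succ.succ‖ ^ 2)
          (fun _ _ => by positivity) (Finset.mem_univ j)
      have h2 : 0 ≤ ‖(p 1 - b (p 0)) / (1 - p 0)‖ ^ 2 := by positivity
      have h3 : 0 ≤ ‖p 0‖ ^ 2 := by positivity
      have h4 : ‖p j.succ.succ‖ ^ 2 < 1 := by linarith
      have h5 : ‖p j.succ.succ‖ < 1 := by nlinarith [norm_nonneg (p j.succ.succ)]
      linarith

end Pool.Agent.Helper303.Db
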