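import Pool.Agent.Helper303.DbStar

open MeasureTheory Set
open scoped ContDiff ComplexConjugate

namespace Pool.Agent.Helper303.Db

variable {m : ℕ} {b : ℂ → ℂ} {K : ℕ} {R : ℝ}

lemma dz_eq_zero {η : ℂ → ℂ} {z : ℂ} (hz : z ∉ tsupport η) : dz η z = 0 := by
  have h : fderiv ℝ η z = 0 := by
    by_contra h
    exact hz (support_fderiv_subset ℝ h)
  simp [dz, h]

lemma continuous_dz {η : ℂ → ℂ} (hη : ContDiff ℝ ∞ η) : Continuous (dz η) := by
  have h : ∀ v : ℂ, Continuous fun z => fderiv ℝ η z v := fun v =>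
    (hη.continuous_fderiv (by simp)).clm_apply continuous_const
  exact ((h _).add (continuous_const.mul (h _))).div_const _

lemma shear' {W : (Fin (m + 2) → ℂ) → ℂ} (A : ℂ → ℂ) (B : (Fin (m + 1) → ℂ) → ℂ)
    (hI : Integrable W) (e : ∀ p, W p = A (p 0) * B (vv m b p)) :
    ∫ p : Fin (m + 2) → ℂ, W p = (∫ z, A z) * ∫ q, B q := by
  have : W = fun p => A (p 0) * B (vv m b p) := funext e
  rw [this] at hI ⊢
  exact shear hI

/-- The a priori inequality. -/
theorem star {η : ℂ → ℂ} (hη : ContDiff ℝ ∞ η) (hηc : HasCompactSupport η)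
    (hηs : tsupport η ⊆ Metric.ball 0 1) (hb : DifferentiableOn ℂ b (Metric.ball 0 1))
    {u : (Fin (m + 2) → ℂ) → ℂ} {M : ℝ}
    (hu : AEStronglyMeasurable u (volume.restrict (Om m b)))
    (hM : ∀ᵐ x ∂(volume.restrict (Om m b)), ‖u x‖ ≤ M)
    (hsol : SolvesDbar (Om m b) u (form m b K R)) :
    ‖∫ z, lam K R z * (2 - z - conj z) * (conj (deriv b z) * η z)‖ ≤ M * ∫ z, ‖dz η z‖ := by
  obtain ⟨s, hs0, hs⟩ := exists_small hηc hηs b m
  let ψ : ContDiffBump (0 : Fin (m + 1) → ℂ) := ⟨s / 2, s, by positivity, by linarith⟩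
  have hψ : ContDiff ℝ ∞ (ψ : (Fin (m + 1) → ℂ) → ℝ) := ψ.contDiff
  have hψs : ∀ q, ψ q ≠ 0 → ‖q‖ ≤ s := by
    intro q hq
    by_contra hcon
    apply hq
    apply ψ.zero_of_le_dist
    rw [dist_zero_right]
    exact (not_le.1 hcon).le
  have hΩ := isOpen_Om (m := m) hb
  set Ω := Om m b with hΩdef
  -- the two multipliers
  let a2 : ℂ → ℂ := fun z => conj (deriv b z) * η z
  have ha1 : ContDiffOn ℝ ∞ η (Metric.ball 0 1) := hη.contDiffOn
  have hdb : ContDiffOn ℝ ∞ (fun z => conj (deriv b z)) (Metric.ball 0 1) := by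
    have h1 : ContDiffOn ℂ ∞ (deriv b) (Metric.ball 0 1) :=
      (hb.deriv Metric.isOpen_ball).contDiffOn Metric.isOpen_ball
    exact Complex.conjCLE.contDiff.comp_contDiffOn (h1.restrict_scalars ℝ)
  have ha2 : ContDiffOn ℝ ∞ a2 (Metric.ball 0 1) := hdb.mul ha1
  have ha1s : ∀ z, z ∉ tsupport η → η z = 0 := fun z hz => image_eq_zero_of_notMem_tsupport hz
  have ha2s : ∀ z, z ∉ tsupport η → a2 z = 0 := fun z hz => by
    simp only [a2]
    rw [ha1s z hz, mul_zero]
  have htest : ∀ a : ℂ → ℂ, ContDiffOn ℝ ∞ a (Metric.ball 0 1) →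
      (∀ z, z ∉ tsupport η → a z = 0) → IsTest Ω (ph m b a ψ) := by
    intro a ha has
    refine isTest_of hηc hηs hb hs (contDiff_ph hηs hb ha has hψ) ?_
    intro p hp
    constructor
    · by_contra hcon
      apply hp
      unfold ph
      rw [has _ hcon, zero_mul]
    · apply hψs
      intro h0
      apply hp
      unfold ph
      rw [h0]
      simp
  have ht1 := htest η ha1 ha1s
  have ht2 := htest a2 ha2 ha2s
  have E0 := hsol 0 _ ht1
  have E1 := hsol 1 _ ht2
  -- the sum
  have hsum : ∀ x ∈ Ω, dbar 0 (ph m b η ψ) x + dbar 1 (ph m b a2 ψ) x =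
      dz η (x 0) * ψ (vv m b x) := by
    intro x hx
    have hx0 := lt_of_mem_Om hx
    have hxb : x 0 ∈ Metric.ball (0 : ℂ) 1 := mem_ball_zero_iff.2 hx0
    rw [dbar_ph_zero hb hx0 (hη.differentiable (by simp) _) hψ,
      dbar_ph_one hb hx0 ((ha2.differentiableOn (by simp)).differentiableAt
        (Metric.isOpen_ball.mem_nhds hxb)) hψ]
    simp only [a2]
    ring
  have hint : ∀ g : (Fin (m + 2) → ℂ) → ℂ, Continuous g → HasCompactSupport g →
      Integrable (fun x => u x * g x) (volume.restrict Ω) := by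
    intro g hg hgc
    exact (hg.integrable_of_hasCompactSupport hgc).integrableOn.bdd_mul hu hM
  have hI : ∫ x in Ω, u x * (dz η (x 0) * ψ (vv m b x)) =
      -(∫ x in Ω, form m b K R x 0 * ph m b η ψ x) -
        ∫ x in Ω, form m b K R x 1 * ph m b a2 ψ x := by
    rw [sub_eq_add_neg, ← E0, ← E1, ← integral_add]
    · apply setIntegral_congr_fun hΩ.measurableSet
      intro x hx
      simp only
      rw [← hsum x hx]
      ring
    · exact hint _ (ht1.continuous_dbar 0) (ht1.hcs_dbar 0)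
    · exact hint _ (ht2.continuous_dbar 1) (ht2.hcs_dbar 1)
  -- supports
  have hout : ∀ x ∉ Ω, ∀ a : ℂ → ℂ, (∀ z, z ∉ tsupport η → a z = 0) →
      a (x 0) * (ψ (vv m b x) : ℂ) = 0 := by
    intro x hx a has
    by_contra hcon
    apply hx
    apply hs
    · by_contra h
      apply hcon
      rw [has _ h, zero_mul]
    · apply hψs
      intro h0
      apply hcon
      rw [h0]
      simp
  -- first form integral
  have F0 : ∫ x in Ω, form m b K R x 0 * ph m b η ψ x = 0 := by
    have hI0 : Integrable fun x => form m b K R x 0 * ph m b η ψ x :=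
      integrable_mul_of_cs hΩ ((contDiffOn_form hb 0).continuousOn.mono
        (fun p hp => lt_of_mem_Om hp)) ht1.1.continuous ht1.2.1 ht1.2.2
    have e : ∀ x : Fin (m + 2) → ℂ, form m b K R x 0 * ph m b η ψ x =
        (fun z => -lam K R z * η z) (x 0) * (fun q : Fin (m + 1) → ℂ => conj (q 0) * (ψ q : ℂ))
          (vv m b x) := by
      intro x
      simp only [form_zero, ph, vv_zero]
      ring
    rw [setIntegral_eq_integral_of_forall_compl_eq_zero]
    · rw [shear' (fun z => -lam K R z * η z) (fun q => conj (q 0) * (ψ q : ℂ)) hI0 e]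
      have hodd : ∫ q : Fin (m + 1) → ℂ, conj (q 0) * (ψ q : ℂ) = 0 := by
        have h := integral_neg_eq_self (fun q : Fin (m + 1) → ℂ => conj (q 0) * (ψ q : ℂ)) volume
        have h2 : ∀ q : Fin (m + 1) → ℂ, conj ((-q) 0) * (ψ (-q) : ℂ) =
            -(conj (q 0) * (ψ q : ℂ)) := by
          intro q
          rw [ψ.neg, Pi.neg_apply, map_neg]
          ring
        simp_rw [h2] at h
        rw [integral_neg] at h
        have h3 : (2 : ℂ) * ∫ q : Fin (m + 1) → ℂ, conj (q 0) * (ψ q : ℂ) = 0 := by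
          linear_combination -h
        simpa using h3
      rw [hodd, mul_zero]
    · intro x hx
      unfold ph
      rw [hout x hx η ha1s, mul_zero]
  have F1 : ∫ x in Ω, form m b K R x 1 * ph m b a2 ψ x =
      (∫ z, lam K R z * (2 - z - conj z) * (conj (deriv b z) * η z)) * ∫ q, (ψ q : ℂ) := by
    have hI0 : Integrable fun x => form m b K R x 1 * ph m b a2 ψ x :=
      integrable_mul_of_cs hΩ ((contDiffOn_form hb 1).continuousOn.mono
        (fun p hp => lt_of_mem_Om hp)) ht2.1.continuous ht2.2.1 ht2.2.2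
    have e : ∀ x : Fin (m + 2) → ℂ, form m b K R x 1 * ph m b a2 ψ x =
        (fun z => lam K R z * (2 - z - conj z) * (conj (deriv b z) * η z)) (x 0) *
          (fun q : Fin (m + 1) → ℂ => (ψ q : ℂ)) (vv m b x) := by
      intro x
      simp only [form_one, ph, a2]
      ring
    rw [setIntegral_eq_integral_of_forall_compl_eq_zero]
    · exact shear' (fun z => lam K R z * (2 - z - conj z) * (conj (deriv b z) * η z))
        (fun q => (ψ q : ℂ)) hI0 e
    · intro x hx
      unfold ph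
      rw [hout x hx a2 ha2s, mul_zero]
  -- the norm estimate
  have hdzs : ∀ z, z ∉ tsupport η → dz η z = 0 := fun z hz => dz_eq_zero hz
  have hgc : Continuous fun x : Fin (m + 2) → ℂ => dz η (x 0) * (ψ (vv m b x) : ℂ) := by
    have e : Continuous fun x : Fin (m + 2) → ℂ =>
        (Ω.indicator (fun x => dbar 0 (ph m b η ψ) x + dbar 1 (ph m b a2 ψ) x)) x := by
      have e2 : (Ω.indicator (fun x => dbar 0 (ph m b η ψ) x + dbar 1 (ph m b a2 ψ) x)) =
          fun x => dbar 0 (ph m b η ψ) x + dbar 1 (ph m b a2 ψ) x := by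
        rw [indicator_eq_self]
        intro x hx
        by_contra hcon
        apply hx
        simp only
        rw [dbar_eq_zero_of_notMem (fun h => hcon (ht1.2.2 h)),
          dbar_eq_zero_of_notMem (fun h => hcon (ht2.2.2 h)), add_zero]
      rw [e2]
      exact (ht1.continuous_dbar 0).add (ht2.continuous_dbar 1)
    have e3 : (fun x : Fin (m + 2) → ℂ => dz η (x 0) * (ψ (vv m b x) : ℂ)) = fun x =>
        (Ω.indicator (fun x => dbar 0 (ph m b η ψ) x + dbar 1 (ph m b a2 ψ) x)) x := by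
      funext x
      by_cases hx : x ∈ Ω
      · rw [indicator_of_mem hx, hsum x hx]
      · rw [indicator_of_notMem hx]
        exact hout x hx (dz η) hdzs
    rw [e3]
    exact e
  have hgs : HasCompactSupport fun x : Fin (m + 2) → ℂ => dz η (x 0) * (ψ (vv m b x) : ℂ) := by
    have hK : IsCompact (tsupport (ph m b η ψ) ∪ tsupport (ph m b a2 ψ)) :=
      ht1.2.1.union ht2.2.1
    apply HasCompactSupport.intro hK
    intro x hx
    rw [mem_union, not_or] at hx
    by_cases hxΩ : x ∈ Ω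
    · rw [← hsum x hxΩ, dbar_eq_zero_of_notMem hx.1, dbar_eq_zero_of_notMem hx.2, add_zero]
    · exact hout x hxΩ (dz η) hdzs
  have hgi : Integrable fun x : Fin (m + 2) → ℂ => dz η (x 0) * (ψ (vv m b x) : ℂ) :=
    hgc.integrable_of_hasCompactSupport hgs
  have hN : ‖∫ x in Ω, u x * (dz η (x 0) * ψ (vv m b x))‖ ≤
      M * ∫ x : Fin (m + 2) → ℂ, ‖dz η (x 0) * (ψ (vv m b x) : ℂ)‖ := by
    have h1 : ‖∫ x in Ω, u x * (dz η (x 0) * ψ (vv m b x))‖ ≤
        ∫ x in Ω, M * ‖dz η (x 0) * (ψ (vv m b x) : ℂ)‖ := by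
      apply norm_integral_le_of_norm_le (hgi.norm.integrableOn.const_mul M)
      filter_upwards [hM] with x hx
      rw [norm_mul]
      gcongr
    refine h1.trans (le_of_eq ?_)
    rw [integral_const_mul]
    congr 1
    apply setIntegral_eq_integral_of_forall_compl_eq_zero
    intro x hx
    rw [hout x hx (dz η) hdzs, norm_zero]
  have hprod : ∫ x : Fin (m + 2) → ℂ, ‖dz η (x 0) * (ψ (vv m b x) : ℂ)‖ =
      (∫ z, ‖dz η z‖) * ∫ q, ψ q := by
    have e : ∀ x : Fin (m + 2) → ℂ, ((‖dz η (x 0) * (ψ (vv m b x) : ℂ)‖ : ℝ) : ℂ) =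
        (fun z => ((‖dz η z‖ : ℝ) : ℂ)) (x 0) * (fun q : Fin (m + 1) → ℂ => (ψ q : ℂ))
          (vv m b x) := by
      intro x
      simp only
      rw [norm_mul, Complex.norm_real, Real.norm_eq_abs, abs_of_nonneg ψ.nonneg]
      push_cast
      rfl
    have hI0 : Integrable fun x : Fin (m + 2) → ℂ =>
        ((‖dz η (x 0) * (ψ (vv m b x) : ℂ)‖ : ℝ) : ℂ) := hgi.norm.ofReal
    have h1 : ((∫ x : Fin (m + 2) → ℂ, ‖dz η (x 0) * (ψ (vv m b x) : ℂ)‖ : ℝ) : ℂ) =
        (((∫ z, ‖dz η z‖) * ∫ q, ψ q : ℝ) : ℂ) := by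
      rw [← integral_complex_ofReal, shear' (fun z => ((‖dz η z‖ : ℝ) : ℂ))
        (fun q => (ψ q : ℂ)) hI0 e, integral_complex_ofReal,
        integral_complex_ofReal]
      push_cast
      rfl
    exact_mod_cast h1
  have hψpos : 0 < ∫ q, ψ q := ψ.integral_pos
  rw [hI, F0, F1, hprod, neg_zero, zero_sub, norm_neg, norm_mul, integral_complex_ofReal,
    Complex.norm_real, Real.norm_eq_abs, abs_of_pos hψpos, ← mul_assoc] at hN
  exact le_of_mul_le_mul_right hN hψpos

end Pool.Agent.Helper303.Db
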