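import Pool.Agent.Helper303.DbCut
import Pool.Agent.Helper303.DbStar2

open MeasureTheory Set
open scoped ContDiff ComplexConjugate

namespace Pool.Agent.Helper303.Db

lemma cvx {E : Type*} [NormedAddCommGroup E] [NormedSpace ℝ E] (F : ℝ → E) {R : ℝ} (hR : 0 < R) :
    ∫ x, F (R * (1 - x)) = R⁻¹ • ∫ x, F x := by
  rw [integral_sub_left_eq_self (fun x => F (R * x)) volume 1, Measure.integral_comp_mul_left,
    abs_of_pos (inv_pos.2 hR)]

lemma cvy {E : Type*} [NormedAddCommGroup E] [NormedSpace ℝ E] (F : ℝ → E) {R : ℝ} (hR : 0 < R) :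
    ∫ y, F (-(R * y)) = R⁻¹ • ∫ x, F x := by
  have h := integral_neg_eq_self (fun y => F (R * y)) volume
  have e : ∀ y : ℝ, F (R * -y) = F (-(R * y)) := fun y => by rw [mul_neg]
  simp_rw [e] at h
  rw [h, Measure.integral_comp_mul_left, abs_of_pos (inv_pos.2 hR)]

lemma prodIntR (F G : ℝ → ℝ) : ∫ z : ℂ, F z.re * G z.im = (∫ x, F x) * ∫ y, G y := by
  rw [← Complex.volume_preserving_equiv_real_prod.symm.integral_comp
    Complex.measurableEquivRealProd.symm.measurableEmbedding]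
  simp only [Complex.measurableEquivRealProd_symm_apply]
  exact integral_prod_mul F G

lemma prodIntegrableC {F G : ℝ → ℂ} (hF : Integrable F) (hG : Integrable G) :
    Integrable fun z : ℂ => F z.re * G z.im := by
  rw [← Complex.volume_preserving_equiv_real_prod.symm.integrable_comp_emb
    Complex.measurableEquivRealProd.symm.measurableEmbedding]
  have := hF.mul_prod hG
  exact this

lemma intg_x {E : Type*} [NormedAddCommGroup E] [NormedSpace ℝ E] {F : ℝ → E}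
    (hF : Integrable F) {R : ℝ} (hR : 0 < R) : Integrable fun x => F (R * (1 - x)) := by
  have h1 : Integrable fun x => F (R * x) := hF.comp_mul_left' hR.ne'
  exact h1.comp_sub_left 1

lemma intg_y {E : Type*} [NormedAddCommGroup E] [NormedSpace ℝ E] {F : ℝ → E}
    (hF : Integrable F) {R : ℝ} (hR : 0 < R) : Integrable fun y => F (-(R * y)) := by
  have h1 : Integrable fun x => F (R * x) := hF.comp_mul_left' hR.ne'
  have h2 := h1.comp_neg
  have e : ∀ y : ℝ, F (R * -y) = F (-(R * y)) := fun y => by rw [mul_neg]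
  simp_rw [e] at h2
  exact h2

lemma termInt (F G : ℝ → ℂ) {R : ℝ} (hR : 0 < R) :
    ∫ z : ℂ, F (R * (1 - z.re)) * G (-(R * z.im)) = ((R⁻¹ : ℝ) : ℂ) * ((R⁻¹ : ℝ) : ℂ) *
      ((∫ x, F x) * ∫ y, G y) := by
  rw [prodInt (fun x => F (R * (1 - x))) (fun y => G (-(R * y))), cvx F hR, cvy G hR,
    Complex.real_smul, Complex.real_smul]
  ring

/-- the cutoff `η` -/
noncomputable def et (R ρ : ℝ) (z : ℂ) : ℂ :=
  ((R * (al ρ (R * (1 - z.re)) * ga (-(R * z.im))) : ℝ) : ℂ)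

lemma et_cd (R ρ : ℝ) : ContDiff ℝ ∞ (et R ρ) := by
  unfold et
  have h1 : ContDiff ℝ ∞ fun z : ℂ => R * (1 - z.re) :=
    contDiff_const.mul (contDiff_const.sub Complex.reCLM.contDiff)
  have h2 : ContDiff ℝ ∞ fun z : ℂ => -(R * z.im) :=
    (contDiff_const.mul Complex.imCLM.contDiff).neg
  exact Complex.ofRealCLM.contDiff.comp
    (contDiff_const.mul (((al_cd ρ).comp h1).mul (ga_cd.comp h2)))

lemma et_supp {R ρ : ℝ} (hρ : 0 < ρ) {z : ℂ} (hz : et R ρ z ≠ 0) :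
    (ρ ≤ R * (1 - z.re) ∧ R * (1 - z.re) ≤ 2) ∧ (0 ≤ -(R * z.im) ∧ -(R * z.im) ≤ 2 * Real.pi + 1) := by
  by_contra hcon
  apply hz
  unfold et
  rw [not_and_or, not_and_or, not_and_or, not_le, not_le, not_le, not_le] at hcon
  rcases hcon with h | h
  · rw [al_zero hρ (h.imp le_of_lt le_of_lt)]
    simp
  · rw [ga_zero (h.imp le_of_lt le_of_lt)]
    simp

lemma et_tsupport {R ρ : ℝ} (hρ : 0 < ρ) (hR : 60 / ρ ≤ R) :
    HasCompactSupport (et R ρ) ∧ tsupport (et R ρ) ⊆ Metric.ball 0 1 := by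
  have hpi := Real.pi_lt_d2
  have hpi0 := Real.pi_pos
  have hR60 : 60 ≤ R * ρ := by rwa [div_le_iff₀ hρ] at hR
  have hR0 : 0 < R := by
    rcases le_or_gt R 0 with h | h
    · nlinarith
    · exact h
  let S : Set ℂ := {z | (ρ ≤ R * (1 - z.re) ∧ R * (1 - z.re) ≤ 2) ∧
    (0 ≤ -(R * z.im) ∧ -(R * z.im) ≤ 2 * Real.pi + 1)}
  have hSdef : ∀ z, z ∈ S ↔ (ρ ≤ R * (1 - z.re) ∧ R * (1 - z.re) ≤ 2) ∧
    (0 ≤ -(R * z.im) ∧ -(R * z.im) ≤ 2 * Real.pi + 1) := fun z => Iff.rfl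
  have hSc : IsClosed S := by
    have c1 : Continuous fun z : ℂ => R * (1 - z.re) := by fun_prop
    have c2 : Continuous fun z : ℂ => -(R * z.im) := by fun_prop
    exact ((isClosed_le continuous_const c1).inter (isClosed_le c1 continuous_const)).inter
      ((isClosed_le continuous_const c2).inter (isClosed_le c2 continuous_const))
  have hSb : S ⊆ Metric.ball 0 1 := by
    intro z hz
    rw [hSdef] at hz
    obtain ⟨⟨h1, h2⟩, h3, h4⟩ := hz
    rw [mem_ball_zero_iff]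
    have h5 : R ^ 2 * ‖z‖ ^ 2 < R ^ 2 := by
      rw [← Complex.normSq_eq_norm_sq, Complex.normSq_apply]
      have e : R ^ 2 * (z.re * z.re + z.im * z.im) =
          R ^ 2 - 2 * R * (R * (1 - z.re)) + (R * (1 - z.re)) ^ 2 + (-(R * z.im)) ^ 2 := by ring
      rw [e]
      have h6 : (R * (1 - z.re)) ^ 2 ≤ 4 := by nlinarith
      have h7 : (-(R * z.im)) ^ 2 ≤ 64 := by nlinarith
      have h8 : 60 ≤ R * (R * (1 - z.re)) := by nlinarith
      linarith
    have h6 : ‖z‖ ^ 2 < 1 := by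
      have : 0 < R ^ 2 := by positivity
      nlinarith
    nlinarith [norm_nonneg z]
  have hts : tsupport (et R ρ) ⊆ S := closure_minimal (fun z hz => et_supp hρ hz) hSc
  have hScomp : IsCompact S :=
    (isCompact_closedBall (0 : ℂ) 1).of_isClosed_subset hSc
      (hSb.trans Metric.ball_subset_closedBall)
  exact ⟨hScomp.of_isClosed_subset (isClosed_tsupport _) hts, hts.trans hSb⟩

lemma dz_et {R ρ : ℝ} (hR : 0 < R) (z : ℂ) :
    ‖dz (et R ρ) z‖ ≤ R ^ 2 / 2 * (|deriv (al ρ) (R * (1 - z.re))| * |ga (-(R * z.im))|) +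
      R ^ 2 / 2 * (|al ρ (R * (1 - z.re))| * |deriv ga (-(R * z.im))|) := by
  have hx : HasFDerivAt (fun z : ℂ => R * (1 - z.re)) (R • (-Complex.reCLM)) z := by
    exact ((Complex.reCLM.hasFDerivAt (x := z)).const_sub 1).const_mul R
  have hy : HasFDerivAt (fun z : ℂ => -(R * z.im)) (-(R • Complex.imCLM)) z :=
    ((Complex.imCLM.hasFDerivAt (x := z)).const_mul R).fun_neg
  have hA : HasFDerivAt (fun z : ℂ => al ρ (R * (1 - z.re)))
      (deriv (al ρ) (R * (1 - z.re)) • (R • (-Complex.reCLM))) z :=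
    (((al_cd ρ).differentiable (by simp)) _).hasDerivAt.comp_hasFDerivAt z hx
  have hG : HasFDerivAt (fun z : ℂ => ga (-(R * z.im)))
      (deriv ga (-(R * z.im)) • (-(R • Complex.imCLM))) z :=
    ((ga_cd.differentiable (by simp)) _).hasDerivAt.comp_hasFDerivAt z hy
  have h := Complex.ofRealCLM.hasFDerivAt.comp z ((hA.fun_mul hG).const_mul R)
  have h2 : fderiv ℝ (et R ρ) z = _ := h.fderiv
  have e1 : fderiv ℝ (et R ρ) z 1 =
      ((-(R ^ 2 * (deriv (al ρ) (R * (1 - z.re)) * ga (-(R * z.im)))) : ℝ) : ℂ) := by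
    rw [h2]
    simp
    ring
  have e2 : fderiv ℝ (et R ρ) z Complex.I =
      ((-(R ^ 2 * (al ρ (R * (1 - z.re)) * deriv ga (-(R * z.im)))) : ℝ) : ℂ) := by
    rw [h2]
    simp
    ring
  unfold dz
  rw [e1, e2, norm_div]
  have h3 : ‖(2 : ℂ)‖ = 2 := by simp
  rw [h3]
  have h4 := norm_add_le (((-(R ^ 2 * (deriv (al ρ) (R * (1 - z.re)) * ga (-(R * z.im)))) : ℝ) : ℂ))
    (Complex.I * ((-(R ^ 2 * (al ρ (R * (1 - z.re)) * deriv ga (-(R * z.im)))) : ℝ) : ℂ))
  rw [norm_mul, Complex.norm_I, one_mul, Complex.norm_real, Complex.norm_real, Real.norm_eq_abs,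
    Real.norm_eq_abs, abs_neg, abs_neg, abs_mul, abs_mul, abs_mul, abs_mul,
    abs_of_pos (by positivity : 0 < R ^ 2)] at h4
  rw [div_le_iff₀ (by norm_num)]
  refine h4.trans (le_of_eq ?_)
  ring

lemma int_dz_et {R ρ : ℝ} (hR : 0 < R) (hρ : 0 < ρ) : ∫ z, ‖dz (et R ρ) z‖ ≤ 10 * TT := by
  have i1 : Integrable fun z : ℂ => |deriv (al ρ) (R * (1 - z.re))| * |ga (-(R * z.im))| :=
    prodIntegrable (F := fun x => |deriv (al ρ) (R * (1 - x))|) (G := fun y => |ga (-(R * y))|)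
      (intg_x (integrable_deriv_al hρ) hR).abs (intg_y integrable_ga hR).abs
  have i2 : Integrable fun z : ℂ => |al ρ (R * (1 - z.re))| * |deriv ga (-(R * z.im))| :=
    prodIntegrable (F := fun x => |al ρ (R * (1 - x))|) (G := fun y => |deriv ga (-(R * y))|)
      (intg_x (integrable_al hρ) hR).abs (intg_y integrable_deriv_ga hR).abs
  have h1 : ∫ z, ‖dz (et R ρ) z‖ ≤
      ∫ z : ℂ, (R ^ 2 / 2 * (|deriv (al ρ) (R * (1 - z.re))| * |ga (-(R * z.im))|) +
      R ^ 2 / 2 * (|al ρ (R * (1 - z.re))| * |deriv ga (-(R * z.im))|)) := by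
    apply integral_mono_of_nonneg (Filter.Eventually.of_forall fun z => norm_nonneg _)
      ((i1.const_mul _).add (i2.const_mul _))
    exact Filter.Eventually.of_forall fun z => dz_et hR z
  refine h1.trans ?_
  rw [integral_add (i1.const_mul _) (i2.const_mul _), integral_const_mul, integral_const_mul,
    prodIntR (fun x => |deriv (al ρ) (R * (1 - x))|) (fun y => |ga (-(R * y))|),
    prodIntR (fun x => |al ρ (R * (1 - x))|) (fun y => |deriv ga (-(R * y))|),
    cvx (fun x => |deriv (al ρ) x|) hR, cvy (fun y => |ga y|) hR,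
    cvx (fun x => |al ρ x|) hR, cvy (fun y => |deriv ga y|) hR]
  simp only [smul_eq_mul]
  have e1 : R ^ 2 / 2 * (R⁻¹ * (∫ x, |deriv (al ρ) x|) * (R⁻¹ * ∫ y, |ga y|)) =
      (1 / 2) * ((∫ x, |deriv (al ρ) x|) * ∫ y, |ga y|) := by
    field_simp
  have e2 : R ^ 2 / 2 * (R⁻¹ * (∫ x, |al ρ x|) * (R⁻¹ * ∫ y, |deriv ga y|)) =
      (1 / 2) * ((∫ x, |al ρ x|) * ∫ y, |deriv ga y|) := by
    field_simp
  rw [e1, e2]
  have hT := TT_nonneg
  have a1 := int_abs_deriv_al hρ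
  have a2 := int_abs_ga
  have a3 := int_abs_al hρ
  have a4 := int_abs_deriv_ga
  have b1 : 0 ≤ ∫ x, |deriv (al ρ) x| := integral_nonneg fun _ => abs_nonneg _
  have b2 : 0 ≤ ∫ y, |ga y| := integral_nonneg fun _ => abs_nonneg _
  have b3 : 0 ≤ ∫ x, |al ρ x| := integral_nonneg fun _ => abs_nonneg _
  have b4 : 0 ≤ ∫ y, |deriv ga y| := integral_nonneg fun _ => abs_nonneg _
  have c1 : (∫ x, |deriv (al ρ) x|) * (∫ y, |ga y|) ≤ (2 * TT) * 8 :=
    mul_le_mul a1 a2 b2 (by linarith)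
  have c2 : (∫ x, |al ρ x|) * (∫ y, |deriv ga y|) ≤ 2 * (2 * TT) :=
    mul_le_mul a3 a4 b4 (by norm_num)
  linarith

end Pool.Agent.Helper303.Db
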