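import Mathlib

open Polynomial
open scoped ComplexConjugate

namespace Pool.Agent.Helper303.Db

/-- Fournier / Rudin–Shapiro type polynomials with prescribed coefficients `a` at `3^j` -/
noncomputable def PQ (a : ℝ) : ℕ → ℝ[X] × ℝ[X]
  | 0 => (0, 1)
  | k + 1 => ((PQ a k).1 + C a * reflect (3 ^ k) (PQ a k).2,
      (PQ a k).2 - C a * reflect (3 ^ k) (PQ a k).1)

lemma PQ_deg (a : ℝ) (k : ℕ) : 3 * (PQ a k).1.natDegree ≤ 3 ^ k ∧ 3 * (PQ a k).2.natDegree ≤ 3 ^ k := by
  induction k with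
  | zero => simp [PQ]
  | succ k ih =>
    have h1 : (PQ a k).1.natDegree ≤ 3 ^ k := by omega
    have h2 : (PQ a k).2.natDegree ≤ 3 ^ k := by omega
    have h3 : (reflect (3 ^ k) (PQ a k).2).natDegree ≤ 3 ^ k :=
      natDegree_reflect_le.trans (max_le le_rfl h2)
    have h4 : (reflect (3 ^ k) (PQ a k).1).natDegree ≤ 3 ^ k :=
      natDegree_reflect_le.trans (max_le le_rfl h1)
    have h5 : (PQ a (k + 1)).1.natDegree ≤ 3 ^ k := by
      refine (natDegree_add_le _ _).trans (max_le h1 ?_)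
      exact (natDegree_C_mul_le _ _).trans h3
    have h6 : (PQ a (k + 1)).2.natDegree ≤ 3 ^ k := by
      refine (natDegree_sub_le _ _).trans (max_le h2 ?_)
      exact (natDegree_C_mul_le _ _).trans h4
    rw [pow_succ]
    omega

lemma PQ_coeff (a : ℝ) (k : ℕ) : (PQ a k).2.coeff 0 = 1 ∧ ∀ j < k, (PQ a k).1.coeff (3 ^ j) = a := by
  induction k with
  | zero => simp [PQ]
  | succ k ih =>
    obtain ⟨h1, h2⟩ := PQ_deg a k
    have hpos : 0 < 3 ^ k := by positivity
    have hP : (PQ a k).1.coeff (3 ^ k) = 0 := coeff_eq_zero_of_natDegree_lt (by omega)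
    constructor
    · simp only [PQ]
      rw [coeff_sub, coeff_C_mul, coeff_reflect, revAt_zero, hP, ih.1]
      simp
    · intro j hj
      simp only [PQ]
      rw [coeff_add, coeff_C_mul, coeff_reflect]
      have hle : 3 ^ j ≤ 3 ^ k := Nat.pow_le_pow_right (by norm_num) (by omega)
      rw [revAt_le hle]
      rcases Nat.lt_succ_iff_lt_or_eq.1 hj with h | h
      · have hlt : 3 ^ (j + 1) ≤ 3 ^ k := Nat.pow_le_pow_right (by norm_num) (by omega)
        rw [pow_succ] at hlt
        have : (PQ a k).2.coeff (3 ^ k - 3 ^ j) = 0 := by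
          apply coeff_eq_zero_of_natDegree_lt
          have : 0 < 3 ^ j := by positivity
          omega
        rw [this, ih.2 j h]
        simp
      · rw [h, Nat.sub_self, hP, ih.1]
        simp

lemma reflect_eval {p : ℝ[X]} {N : ℕ} (hN : p.natDegree ≤ N) {z : ℂ} (hz : ‖z‖ = 1) :
    aeval z (reflect N p) = z ^ N * conj (aeval z p) := by
  have hz0 : z ≠ 0 := by
    intro h
    rw [h, norm_zero] at hz
    exact zero_ne_one hz
  have hinv : z⁻¹ = conj z := by
    rw [Complex.inv_def, Complex.normSq_eq_norm_sq, hz]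
    simp
  have : Invertible z⁻¹ := invertibleOfNonzero (inv_ne_zero hz0)
  have h := eval₂_reflect_mul_pow (algebraMap ℝ ℂ) z⁻¹ N p hN
  rw [invOf_eq_inv, inv_inv] at h
  have h2 : aeval z (reflect N p) = z ^ N * aeval z⁻¹ p := by
    rw [aeval_def, aeval_def, ← h, mul_comm (z ^ N), mul_assoc, ← mul_pow, inv_mul_cancel₀ hz0,
      one_pow, mul_one]
  rw [h2, hinv]
  congr 1
  exact (Polynomial.aeval_conj p z)

lemma PQ_norm (a : ℝ) (k : ℕ) {z : ℂ} (hz : ‖z‖ = 1) :
    ‖aeval z (PQ a k).1‖ ^ 2 + ‖aeval z (PQ a k).2‖ ^ 2 = (1 + a ^ 2) ^ k := by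
  induction k with
  | zero => simp [PQ]
  | succ k ih =>
    obtain ⟨h1, h2⟩ := PQ_deg a k
    have e1 : aeval z (PQ a (k + 1)).1 =
        aeval z (PQ a k).1 + a * (z ^ 3 ^ k * conj (aeval z (PQ a k).2)) := by
      simp only [PQ]
      rw [map_add, map_mul, reflect_eval (by omega) hz, aeval_C]
      rfl
    have e2 : aeval z (PQ a (k + 1)).2 =
        aeval z (PQ a k).2 - a * (z ^ 3 ^ k * conj (aeval z (PQ a k).1)) := by
      simp only [PQ]
      rw [map_sub, map_mul, reflect_eval (by omega) hz, aeval_C]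
      rfl
    rw [e1, e2, pow_succ (1 + a ^ 2) k, ← ih]
    set P := aeval z (PQ a k).1
    set Q := aeval z (PQ a k).2
    have hw : ‖z ^ 3 ^ k‖ = 1 := by rw [norm_pow, hz, one_pow]
    generalize z ^ 3 ^ k = w at hw
    have hw2 : w * conj w = 1 := by
      rw [Complex.mul_conj, Complex.normSq_eq_norm_sq, hw]
      simp
    apply Complex.ofReal_injective
    push_cast
    rw [← Complex.mul_conj', ← Complex.mul_conj', ← Complex.mul_conj', ← Complex.mul_conj']
    simp only [map_add, map_sub, map_mul, Complex.conj_conj, Complex.conj_ofReal]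
    linear_combination (a ^ 2 * (Q * conj Q + P * conj P)) * hw2

lemma PQ_bound {K : ℕ} (hK : 0 < K) {z : ℂ} (hz : ‖z‖ ≤ 1) :
    ‖aeval z (PQ (1 / Real.sqrt K) K).1‖ ≤ 2 := by
  have hfr : ∀ w ∈ frontier (Metric.ball (0 : ℂ) 1),
      ‖aeval w (PQ (1 / Real.sqrt K) K).1‖ ≤ 2 := by
    intro w hw
    rw [frontier_ball (0 : ℂ) one_ne_zero, mem_sphere_zero_iff_norm] at hw
    have h1 := PQ_norm (1 / Real.sqrt K) K hw
    have hKr : (0 : ℝ) < K := by exact_mod_cast hK
    have h2 : (1 / Real.sqrt K) ^ 2 = 1 / K := by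
      rw [div_pow, one_pow, Real.sq_sqrt hKr.le]
    rw [h2] at h1
    have h3 : (1 + 1 / (K : ℝ)) ^ K ≤ Real.exp 1 := by
      have := Real.add_one_le_exp (1 / (K : ℝ))
      calc (1 + 1 / (K : ℝ)) ^ K ≤ (Real.exp (1 / K)) ^ K := by
            gcongr
            linarith
        _ = Real.exp 1 := by
            rw [← Real.exp_nat_mul]
            congr 1
            field_simp
    have h4 : Real.exp 1 < 4 := by
      have := Real.exp_one_lt_d9
      linarith
    have h5 : ‖aeval w (PQ (1 / Real.sqrt K) K).1‖ ^ 2 < 4 := by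
      have : 0 ≤ ‖aeval w (PQ (1 / Real.sqrt K) K).2‖ ^ 2 := by positivity
      linarith
    nlinarith [norm_nonneg (aeval w (PQ (1 / Real.sqrt K) K).1)]
  have hd : DiffContOnCl ℂ (fun w : ℂ => aeval w (PQ (1 / Real.sqrt K) K).1) (Metric.ball 0 1) := by
    apply Differentiable.diffContOnCl
    exact Polynomial.differentiable_aeval _
  apply Complex.norm_le_of_forall_mem_frontier_norm_le Metric.isBounded_ball hd hfr
  rw [closure_ball (0 : ℂ) one_ne_zero, mem_closedBall_zero_iff]
  exact hz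

end Pool.Agent.Helper303.Db
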