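import Pool.Agent.Helper303.DbEta
import Pool.Agent.Helper303.DbFour

open MeasureTheory Set Polynomial
open scoped ContDiff ComplexConjugate

namespace Pool.Agent.Helper303.Db

/-- `b(z) = P(exp(-R(1-z)))` -/
noncomputable def bb (R : ℝ) (P : ℝ[X]) (z : ℂ) : ℂ := aeval (Complex.exp (-(R * (1 - z)))) P

lemma bb_eq (R : ℝ) (P : ℝ[X]) (z : ℂ) : bb R P z =
    ∑ i ∈ Finset.range (P.natDegree + 1), (P.coeff i : ℂ) * Complex.exp (-(i * (R * (1 - z)))) := by
  unfold bb
  rw [aeval_eq_sum_range]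
  apply Finset.sum_congr rfl
  intro i _
  rw [← Complex.exp_nat_mul, Complex.real_smul]
  congr 2
  ring

lemma diff_bb (R : ℝ) (P : ℝ[X]) : Differentiable ℂ (bb R P) := by
  have : bb R P = fun z => ∑ i ∈ Finset.range (P.natDegree + 1),
      (P.coeff i : ℂ) * Complex.exp (-(i * (R * (1 - z)))) := funext (bb_eq R P)
  rw [this]
  fun_prop

lemma deriv_bb (R : ℝ) (P : ℝ[X]) (z : ℂ) : deriv (bb R P) z =
    ∑ i ∈ Finset.range (P.natDegree + 1),
      (P.coeff i : ℂ) * (i * R * Complex.exp (-(i * (R * (1 - z))))) := by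
  have h0 : bb R P = fun z => ∑ i ∈ Finset.range (P.natDegree + 1),
      (P.coeff i : ℂ) * Complex.exp (-(i * (R * (1 - z)))) := funext (bb_eq R P)
  rw [h0]
  apply HasDerivAt.deriv
  apply HasDerivAt.fun_sum
  intro i _
  have h1 : HasDerivAt (fun z : ℂ => -((i : ℂ) * (R * (1 - z)))) (i * R) z := by
    have := ((((hasDerivAt_id z).const_sub 1).const_mul (R : ℂ)).const_mul (i : ℂ)).fun_neg
    exact this.congr_deriv (by ring)
  have h2 := (h1.cexp).const_mul (P.coeff i : ℂ)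
  exact h2.congr_deriv (by ring)

/-- the horizontal factor -/
noncomputable def Fx (ρ : ℝ) (j i : ℕ) (x : ℝ) : ℂ :=
  (x * al ρ x : ℝ) * Complex.exp (-((3 ^ j + i) * x))

/-- the vertical factor -/
noncomputable def Gy (j i : ℕ) (y : ℝ) : ℂ :=
  (ga y : ℂ) * Complex.exp (Complex.I * ((i : ℤ) - (3 ^ j : ℤ) : ℤ) * y)

lemma integrable_Fx {ρ : ℝ} (hρ : 0 < ρ) (j i : ℕ) : Integrable (Fx ρ j i) := by
  have hc : Continuous (Fx ρ j i) := by
    unfold Fx
    have h1 : Continuous fun x : ℝ => ((x * al ρ x : ℝ) : ℂ) :=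
      Complex.continuous_ofReal.comp (continuous_id.mul (al_cd ρ).continuous)
    exact h1.mul (by fun_prop)
  apply hc.integrable_of_hasCompactSupport
  apply HasCompactSupport.intro (isCompact_Icc (a := ρ) (b := 2))
  intro x hx
  rw [mem_Icc, not_and_or, not_le, not_le] at hx
  unfold Fx
  rw [al_zero hρ (hx.imp le_of_lt le_of_lt)]
  simp

lemma integrable_Gy (j i : ℕ) : Integrable (Gy j i) := by
  have hc : Continuous (Gy j i) := by
    unfold Gy
    have h1 : Continuous fun x : ℝ => (ga x : ℂ) :=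
      Complex.continuous_ofReal.comp ga_cd.continuous
    exact h1.mul (by fun_prop)
  apply hc.integrable_of_hasCompactSupport
  apply HasCompactSupport.intro (isCompact_Icc (a := 0) (b := 2 * Real.pi + 1))
  intro x hx
  rw [mem_Icc, not_and_or, not_le, not_le] at hx
  unfold Gy
  rw [ga_zero (hx.imp le_of_lt le_of_lt)]
  simp

lemma exp_aux (x y R : ℝ) (i j : ℕ) {z : ℂ} (hz : z = x + y * Complex.I)
    (hcz : conj z = x - y * Complex.I) :
    Complex.exp (-((3 : ℂ) ^ j * (R * (1 - z)))) * Complex.exp (-(i * (R * (1 - conj z)))) =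
      Complex.exp (-((3 ^ j + i) * ((R * (1 - x) : ℝ) : ℂ))) *
        Complex.exp (Complex.I * ((i : ℤ) - (3 ^ j : ℤ) : ℤ) * ((-(R * y) : ℝ) : ℂ)) := by
  rw [← Complex.exp_add, ← Complex.exp_add, hcz, hz]
  congr 1
  push_cast
  ring

lemma two_aux (x y : ℝ) {z : ℂ} (hz : z = x + y * Complex.I)
    (hcz : conj z = x - y * Complex.I) : (2 - z - conj z) = 2 * ((1 - x : ℝ) : ℂ) := by
  rw [hcz, hz]
  push_cast
  ring

lemma integrand_eq (K : ℕ) (R ρ : ℝ) (P : ℝ[X]) (z : ℂ) :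
    lam K R z * (2 - z - conj z) * (conj (deriv (bb R P) z) * et R ρ z) =
    ∑ j ∈ Finset.range K, ∑ i ∈ Finset.range (P.natDegree + 1),
      (P.coeff i * i * 3 ^ j * R ^ 2 : ℂ) *
        (Fx ρ j i (R * (1 - z.re)) * Gy j i (-(R * z.im))) := by
  rw [deriv_bb, map_sum]
  unfold lam et
  rw [Finset.sum_mul (s := Finset.range (P.natDegree + 1)), Finset.mul_sum (s := Finset.range K),
    Finset.sum_mul, Finset.sum_mul]
  apply Finset.sum_congr rfl
  intro j _
  rw [Finset.mul_sum]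
  apply Finset.sum_congr rfl
  intro i _
  simp only [map_mul, Complex.conj_ofReal, Complex.conj_natCast, ← Complex.exp_conj, map_neg,
    map_sub, map_one, Fx, Gy]
  have hz : z = z.re + z.im * Complex.I := (Complex.re_add_im z).symm
  have hcz : conj z = z.re - z.im * Complex.I := by
    apply Complex.ext <;> simp
  have e1 := exp_aux z.re z.im R i j hz hcz
  have e2 := two_aux z.re z.im hz hcz
  rw [e2]
  push_cast at e1 ⊢
  linear_combination ((P.coeff i : ℂ) * i * 3 ^ j * R ^ 2 * (R * (1 - z.re)) *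
    (al ρ (R * (1 - z.re))) * ga (-(R * z.im))) * e1

/-- the value of the functional -/
theorem evalJ (K : ℕ) {R ρ : ℝ} (hR : 0 < R) (hρ : 0 < ρ) (P : ℝ[X]) :
    ∫ z, lam K R z * (2 - z - conj z) * (conj (deriv (bb R P) z) * et R ρ z) =
    ((2 * Real.pi * ∑ j ∈ Finset.range K, P.coeff (3 ^ j) * ((3 : ℝ) ^ j * (3 : ℝ) ^ j *
      ∫ x, x * al ρ x * Real.exp (-(2 * 3 ^ j * x))) : ℝ) : ℂ) := by
  simp_rw [integrand_eq]
  have hint : ∀ j i : ℕ, Integrable fun z : ℂ => (P.coeff i * i * 3 ^ j * R ^ 2 : ℂ) *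
        (Fx ρ j i (R * (1 - z.re)) * Gy j i (-(R * z.im))) := fun j i =>
    (prodIntegrableC (intg_x (integrable_Fx hρ j i) hR) (intg_y (integrable_Gy j i) hR)).const_mul _
  rw [integral_finsetSum _ (fun j _ => integrable_finsetSum _ (fun i _ => hint j i))]
  rw [Finset.mul_sum, Complex.ofReal_sum]
  apply Finset.sum_congr rfl
  intro j _
  rw [integral_finsetSum _ (fun i _ => hint j i)]
  have hterm : ∀ i : ℕ, ∫ z : ℂ, (P.coeff i * i * 3 ^ j * R ^ 2 : ℂ) *
        (Fx ρ j i (R * (1 - z.re)) * Gy j i (-(R * z.im))) =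
      if i = 3 ^ j then (P.coeff (3 ^ j) * (3 ^ j * 3 ^ j) : ℂ) *
        ((∫ x, Fx ρ j (3 ^ j) x) * (2 * Real.pi)) else 0 := by
    intro i
    rw [integral_const_mul, termInt _ _ hR]
    have hG : ∫ y, Gy j i y = if ((i : ℤ) - (3 ^ j : ℤ)) = 0 then (2 * Real.pi : ℂ) else 0 :=
      int_ga_exp _
    rw [hG]
    have hRc : (R : ℂ) ≠ 0 := by exact_mod_cast hR.ne'
    split_ifs with h1 h2 h2
    · subst h2
      push_cast
      field_simp
    · exact absurd (by exact_mod_cast sub_eq_zero.1 h1) h2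
    · exact absurd (by rw [h2]; push_cast; ring) h1
    · simp
  simp_rw [hterm]
  rw [Finset.sum_ite_eq']
  have hF : ∫ x, Fx ρ j (3 ^ j) x = ((∫ x, x * al ρ x * Real.exp (-(2 * 3 ^ j * x)) : ℝ) : ℂ) := by
    rw [← integral_complex_ofReal]
    congr 1
    funext x
    unfold Fx
    push_cast
    congr 2
    ring
  split_ifs with h
  · rw [hF]
    push_cast
    ring
  · have hc : P.coeff (3 ^ j) = 0 := by
      apply coeff_eq_zero_of_natDegree_lt
      rw [Finset.mem_range, not_lt] at h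
      omega
    rw [hc]
    simp

/-- the lower bound -/
theorem low (K : ℕ) (hK : 0 < K) {R ρ : ℝ} (hR : 0 < R) (hρ : 0 < ρ) (hρK : 4 * ρ * 3 ^ K ≤ 1) :
    Real.sqrt K / 10 ≤ ‖∫ z, lam K R z * (2 - z - conj z) *
      (conj (deriv (bb R (PQ (1 / Real.sqrt K) K).1) z) * et R ρ z)‖ := by
  rw [evalJ K hR hρ, Complex.norm_real, Real.norm_eq_abs]
  refine le_trans ?_ (le_abs_self _)
  have hcoef := (PQ_coeff (1 / Real.sqrt K) K).2
  have h1 : ∑ j ∈ Finset.range K, (1 / Real.sqrt K) * (Real.exp (-2) / 4) ≤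
      ∑ j ∈ Finset.range K, (PQ (1 / Real.sqrt K) K).1.coeff (3 ^ j) *
      ((3 : ℝ) ^ j * (3 : ℝ) ^ j * ∫ x, x * al ρ x * Real.exp (-(2 * 3 ^ j * x))) := by
    apply Finset.sum_le_sum
    intro j hj
    rw [Finset.mem_range] at hj
    rw [hcoef j hj]
    exact mul_le_mul_of_nonneg_left (int_al_low hj hρ hρK) (by positivity)
  rw [Finset.sum_const, Finset.card_range, nsmul_eq_mul] at h1
  have hKr : (0 : ℝ) < K := by exact_mod_cast hK
  have hs : (K : ℝ) * (1 / Real.sqrt K) = Real.sqrt K := by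
    rw [mul_one_div, Real.div_sqrt]
  have h2 : (K : ℝ) * ((1 / Real.sqrt K) * (Real.exp (-2) / 4)) = Real.sqrt K * (Real.exp (-2) / 4) := by
    rw [← mul_assoc, hs]
  rw [h2] at h1
  have hpi := Real.pi_gt_three
  have he : (1 : ℝ) / 9 ≤ Real.exp (-2) := by
    have h3 : Real.exp (-2) = (Real.exp 1)⁻¹ ^ 2 := by
      rw [← Real.exp_neg, ← Real.exp_nat_mul]
      norm_num
    rw [h3]
    have h4 := Real.exp_one_lt_d9
    have h5 : (1 : ℝ) / 3 ≤ (Real.exp 1)⁻¹ := by
      rw [one_div]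
      apply inv_anti₀ (Real.exp_pos _)
      linarith
    calc (1 : ℝ) / 9 = (1 / 3) ^ 2 := by norm_num
      _ ≤ _ := by gcongr
  have hsq := Real.sqrt_nonneg (K : ℝ)
  have h6 : Real.sqrt K * (1 / 36) ≤ Real.sqrt K * (Real.exp (-2) / 4) := by
    apply mul_le_mul_of_nonneg_left _ hsq
    linarith
  have h7 := h6.trans h1
  have h8 : 0 ≤ Real.sqrt K * (1 / 36) := by positivity
  nlinarith

end Pool.Agent.Helper303.Db
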