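import Pool.Agent.Helper303.DbDom

open MeasureTheory Set
open scoped ContDiff ComplexConjugate

namespace Pool.Agent.Helper303.Db

/-- lacunary sum bound -/
lemma lac_sum (q : ℝ) (hq0 : 0 ≤ q) (hq1 : q ≤ 1) (K : ℕ) :
    ∑ j ∈ Finset.range (K + 1), (3 : ℝ) ^ j * q ^ (3 ^ j) ≤
      (3 / 2) * ∑ n ∈ Finset.range (3 ^ K), q ^ (n + 1) := by
  induction K with
  | zero => simp; linarith
  | succ K ih =>
    rw [Finset.sum_range_succ]
    have hle : 3 ^ K ≤ 3 ^ (K + 1) := Nat.pow_le_pow_right (by norm_num) (by omega)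
    have h1 : ∑ n ∈ Finset.range (3 ^ (K + 1)), q ^ (n + 1) =
        ∑ n ∈ Finset.range (3 ^ K), q ^ (n + 1) + ∑ n ∈ Finset.Ico (3 ^ K) (3 ^ (K + 1)), q ^ (n + 1) := by
      rw [Finset.range_eq_Ico, Finset.range_eq_Ico]
      exact (Finset.sum_Ico_consecutive _ (Nat.zero_le _) hle).symm
    have h2 : (2 * 3 ^ K : ℝ) * q ^ (3 ^ (K + 1)) ≤
        ∑ n ∈ Finset.Ico (3 ^ K) (3 ^ (K + 1)), q ^ (n + 1) := by
      have := Finset.card_nsmul_le_sum (Finset.Ico (3 ^ K) (3 ^ (K + 1))) (fun n => q ^ (n + 1))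
        (q ^ (3 ^ (K + 1))) (fun n hn => by
          apply pow_le_pow_of_le_one hq0 hq1
          have := (Finset.mem_Ico.1 hn).2
          omega)
      rw [Nat.card_Ico, nsmul_eq_mul] at this
      have e : ((3 ^ (K + 1) - 3 ^ K : ℕ) : ℝ) = 2 * 3 ^ K := by
        have : 3 ^ (K + 1) - 3 ^ K = 2 * 3 ^ K := by
          rw [pow_succ]
          omega
        rw [this]
        push_cast
        ring
      rwa [e] at this
    rw [h1, mul_add]
    have h3 : (3 : ℝ) ^ (K + 1) * q ^ (3 ^ (K + 1)) = (3 / 2) * ((2 * 3 ^ K : ℝ) * q ^ (3 ^ (K + 1))) := by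
      rw [pow_succ]
      ring
    rw [h3]
    linarith

lemma lac_exp (u : ℝ) (hu : 0 < u) (K : ℕ) :
    ∑ j ∈ Finset.range K, (3 : ℝ) ^ j * Real.exp (-(3 ^ j * u)) ≤ (3 / 2) / u := by
  set q := Real.exp (-u) with hq
  have hq0 : 0 < q := Real.exp_pos _
  have hq1 : q < 1 := by
    rw [hq, Real.exp_lt_one_iff]
    linarith
  have e : ∀ j : ℕ, Real.exp (-(3 ^ j * u)) = q ^ (3 ^ j) := by
    intro j
    rw [hq, ← Real.exp_nat_mul]
    congr 1
    push_cast
    ring
  simp_rw [e]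
  have h1 : ∑ j ∈ Finset.range K, (3 : ℝ) ^ j * q ^ (3 ^ j) ≤
      ∑ j ∈ Finset.range (K + 1), (3 : ℝ) ^ j * q ^ (3 ^ j) := by
    rw [Finset.sum_range_succ]
    have : 0 ≤ (3 : ℝ) ^ K * q ^ (3 ^ K) := by positivity
    linarith
  have h2 := lac_sum q hq0.le hq1.le K
  have h3 : ∑ n ∈ Finset.range (3 ^ K), q ^ (n + 1) ≤ 1 / u := by
    have e1 : ∀ n, q ^ (n + 1) = q * q ^ n := fun n => by ring
    simp_rw [e1]
    rw [← Finset.mul_sum, geom_sum_eq hq1.ne]
    have h4 : (q ^ (3 ^ K) - 1) / (q - 1) ≤ 1 / (1 - q) := by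
      rw [← neg_div_neg_eq, neg_sub, neg_sub]
      apply div_le_div_of_nonneg_right _ (by linarith)
      have : 0 ≤ q ^ (3 ^ K) := by positivity
      linarith
    have h5 : q * (1 / (1 - q)) ≤ 1 / u := by
      rw [mul_one_div, div_le_div_iff₀ (by linarith) hu]
      -- q * u ≤ 1 - q  iff  q (1 + u) ≤ 1
      have h6 : 1 + u ≤ Real.exp u := by linarith [Real.add_one_le_exp u]
      have h7 : q * Real.exp u = 1 := by rw [hq, ← Real.exp_add]; simp
      nlinarith
    exact (mul_le_mul_of_nonneg_left h4 hq0.le).trans h5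
  calc _ ≤ _ := h1
    _ ≤ _ := h2
    _ ≤ (3 / 2) * (1 / u) := by gcongr
    _ = _ := by ring

/-- `λ(z) = (R/2) ∑_{j<K} 3^j exp(-3^j R (1-z))` -/
noncomputable def lam (K : ℕ) (R : ℝ) (z : ℂ) : ℂ :=
  (R / 2 : ℂ) * ∑ j ∈ Finset.range K, (3 : ℂ) ^ j * Complex.exp (-((3 : ℂ) ^ j * (R * (1 - z))))

lemma norm_lam {K : ℕ} {R : ℝ} (hR : 0 < R) {z : ℂ} (hz : z.re < 1) :
    ‖lam K R z‖ ≤ (3 / 4) / (1 - z.re) := by
  have hu : 0 < R * (1 - z.re) := mul_pos hR (by linarith)
  have h := lac_exp (R * (1 - z.re)) hu K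
  have h1 : ‖∑ j ∈ Finset.range K, (3 : ℂ) ^ j * Complex.exp (-((3 : ℂ) ^ j * (R * (1 - z))))‖ ≤
      (3 / 2) / (R * (1 - z.re)) := by
    refine (norm_sum_le _ _).trans (le_trans (le_of_eq ?_) h)
    apply Finset.sum_congr rfl
    intro j _
    rw [norm_mul, Complex.norm_exp, norm_pow]
    congr 1
    · simp
    · congr 1
      have : ((3 : ℂ) ^ j * (R * (1 - z))) = ((3 ^ j * R : ℝ) : ℂ) * (1 - z) := by
        push_cast
        ring
      rw [this, Complex.neg_re, Complex.re_ofReal_mul]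
      simp
      ring
  unfold lam
  rw [norm_mul]
  have h2 : ‖(R / 2 : ℂ)‖ = R / 2 := by
    rw [norm_div, Complex.norm_real, Real.norm_eq_abs, abs_of_pos hR]
    simp
  rw [h2]
  calc R / 2 * ‖_‖ ≤ R / 2 * ((3 / 2) / (R * (1 - z.re))) := by gcongr
    _ = (3 / 4) / (1 - z.re) := by
      have : 1 - z.re ≠ 0 := by linarith
      field_simp
      ring

lemma diff_lam (K : ℕ) (R : ℝ) : Differentiable ℂ (lam K R) := by
  unfold lam
  fun_prop

/-- the `(0,1)`-form -/
noncomputable def form (m : ℕ) (b : ℂ → ℂ) (K : ℕ) (R : ℝ) (p : Fin (m + 2) → ℂ)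
    (j : Fin (m + 2)) : ℂ :=
  if j = 0 then -lam K R (p 0) * conj (p 1 - b (p 0))
  else if j = 1 then lam K R (p 0) * (2 - p 0 - conj (p 0)) else 0

variable {m : ℕ} {b : ℂ → ℂ} {K : ℕ} {R : ℝ}

lemma form_zero (p : Fin (m + 2) → ℂ) :
    form m b K R p 0 = -lam K R (p 0) * conj (p 1 - b (p 0)) := by
  simp [form]

lemma form_one (p : Fin (m + 2) → ℂ) :
    form m b K R p 1 = lam K R (p 0) * (2 - p 0 - conj (p 0)) := by
  simp [form]

lemma form_ss (p : Fin (m + 2) → ℂ) (j : Fin m) : form m b K R p j.succ.succ = 0 := by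
  simp only [form]
  rw [if_neg (Fin.succ_ne_zero _), if_neg (ss_ne_one j)]

lemma norm_form (hR : 0 < R) {p : Fin (m + 2) → ℂ} (hp : p ∈ Om m b) :
    Real.sqrt (∑ j, ‖form m b K R p j‖ ^ 2) ≤ 3 := by
  have h0 := lt_of_mem_Om hp
  have hre : (p 0).re < 1 := lt_of_le_of_lt (Complex.re_le_norm _) h0
  have hl := norm_lam (K := K) hR hre
  have ht := thin hp
  have hpos : 0 < 1 - (p 0).re := by linarith
  rw [Fin.sum_univ_succ, Fin.sum_univ_succ]
  have hs : ∑ j : Fin m, ‖form m b K R p j.succ.succ‖ ^ 2 = 0 := by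
    apply Finset.sum_eq_zero
    intro j _
    rw [form_ss]
    simp
  have h1 : ‖form m b K R p 0‖ ≤ 3 / 2 := by
    rw [form_zero, norm_mul, norm_neg, Complex.norm_conj]
    calc ‖lam K R (p 0)‖ * ‖p 1 - b (p 0)‖ ≤ (3 / 4) / (1 - (p 0).re) * (2 * (1 - (p 0).re)) :=
          mul_le_mul hl ht (norm_nonneg _) (by positivity)
      _ = 3 / 2 := by field_simp; ring
  have h2 : ‖form m b K R p 1‖ ≤ 3 / 2 := by
    rw [form_one, norm_mul]
    have e : (2 - p 0 - conj (p 0)) = ((2 * (1 - (p 0).re) : ℝ) : ℂ) := by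
      apply Complex.ext
      · simp
        ring
      · simp
    rw [e, Complex.norm_real, Real.norm_eq_abs, abs_of_pos (by linarith)]
    calc ‖lam K R (p 0)‖ * (2 * (1 - (p 0).re)) ≤
          (3 / 4) / (1 - (p 0).re) * (2 * (1 - (p 0).re)) := by gcongr
      _ = 3 / 2 := by field_simp; ring
  have h2' : ‖form m b K R p (Fin.succ 0)‖ ≤ 3 / 2 := h2
  rw [hs, Real.sqrt_le_left (by norm_num)]
  nlinarith [norm_nonneg (form m b K R p 0), norm_nonneg (form m b K R p (Fin.succ 0))]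

/-- `∂̄_k (C + A conj B) = A conj(∂_k B)` -/
lemma dbar_add_mul_conj {n : ℕ} {A B C : (Fin n → ℂ) → ℂ} {x : Fin n → ℂ}
    (hA : DifferentiableAt ℂ A x) (hB : DifferentiableAt ℂ B x) (hC : DifferentiableAt ℂ C x)
    (k : Fin n) :
    dbar k (fun p => C p + A p * conj (B p)) x = A x * conj (fderiv ℂ B x (Pi.single k 1)) := by
  have hA' := hA.hasFDerivAt.restrictScalars ℝ
  have hB' := hB.hasFDerivAt.restrictScalars ℝ
  have hC' := hC.hasFDerivAt.restrictScalars ℝ
  have hBc : HasFDerivAt (fun p => conj (B p))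
      ((Complex.conjCLE : ℂ →L[ℝ] ℂ).comp ((fderiv ℂ B x).restrictScalars ℝ)) x :=
    (Complex.conjCLE : ℂ →L[ℝ] ℂ).hasFDerivAt.comp x hB'
  have h := (hC'.fun_add (hA'.fun_mul hBc)).fderiv
  unfold dbar
  rw [h]
  have hI : ∀ T : (Fin n → ℂ) →L[ℂ] ℂ, T (Pi.single k Complex.I) =
      Complex.I * T (Pi.single k 1) := by
    intro T
    have : (Pi.single k Complex.I : Fin n → ℂ) = Complex.I • Pi.single k 1 := by
      rw [← Pi.single_smul]
      simp
    rw [this, map_smul, smul_eq_mul]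
  simp only [add_apply, ContinuousLinearMap.coe_restrictScalars', smul_apply, smul_eq_mul,
    ContinuousLinearMap.comp_apply, hI]
  simp only [ContinuousLinearEquiv.coe_coe, Complex.conjCLE_apply, map_mul, Complex.conj_I]
  ring_nf
  simp only [Complex.I_sq]
  ring

lemma dbar_congr {n : ℕ} {f g : (Fin n → ℂ) → ℂ} (k : Fin n) (x : Fin n → ℂ)
    (h : ∀ p, f p = g p) : dbar k f x = dbar k g x := by
  have : f = g := funext h
  rw [this]

lemma dbar_zero {n : ℕ} (k : Fin n) (x : Fin n → ℂ) : dbar k (fun _ : Fin n → ℂ => (0 : ℂ)) x = 0 := by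
  simp [dbar]

section

variable (hb : DifferentiableOn ℂ b (Metric.ball 0 1))

include hb

lemma diffAt_b {x : Fin (m + 2) → ℂ} (hx : ‖x 0‖ < 1) :
    DifferentiableAt ℂ (fun p : Fin (m + 2) → ℂ => b (p 0)) x :=
  (diff_b hb).differentiableAt (isOpen_Cyl.mem_nhds hx)

omit hb in
lemma hasF_apply (j : Fin (m + 2)) (x : Fin (m + 2) → ℂ) :
    HasFDerivAt (𝕜 := ℂ) (fun p : Fin (m + 2) → ℂ => p j)
      (ContinuousLinearMap.proj (R := ℂ) (φ := fun _ : Fin (m + 2) => ℂ) j) x :=
  hasFDerivAt_apply j x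

lemma fderiv_b {x : Fin (m + 2) → ℂ} (hx : ‖x 0‖ < 1) (v : Fin (m + 2) → ℂ) :
    fderiv ℂ (fun p : Fin (m + 2) → ℂ => b (p 0)) x v = deriv b (x 0) * v 0 := by
  have h1 : HasDerivAt b (deriv b (x 0)) (x 0) :=
    (hb.differentiableAt (Metric.isOpen_ball.mem_nhds (by rw [mem_ball_zero_iff]; exact hx))).hasDerivAt
  have h2 := h1.hasFDerivAt.comp x (hasF_apply (m := m) 0 x)
  have h3 : fderiv ℂ (fun p : Fin (m + 2) → ℂ => b (p 0)) x = _ := h2.fderiv
  rw [h3]
  simp
  ring

lemma dbar_form_zero {x : Fin (m + 2) → ℂ} (hx : ‖x 0‖ < 1) (k : Fin (m + 2)) :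
    dbar k (fun p => form m b K R p 0) x =
      -lam K R (x 0) * conj ((Pi.single k (1 : ℂ) : Fin (m + 2) → ℂ) 1 -
        deriv b (x 0) * (Pi.single k (1 : ℂ) : Fin (m + 2) → ℂ) 0) := by
  have hl : DifferentiableAt ℂ (fun p : Fin (m + 2) → ℂ => -lam K R (p 0)) x := by
    have := (diff_lam K R).differentiableAt (x := x 0)
    exact (this.comp x (hasF_apply (m := m) 0 x).differentiableAt).neg
  have hB : DifferentiableAt ℂ (fun p : Fin (m + 2) → ℂ => p 1 - b (p 0)) x :=
    (hasF_apply (m := m) 1 x).differentiableAt.fun_sub (diffAt_b hb hx)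
  have h := dbar_add_mul_conj hl hB (differentiableAt_const (0 : ℂ)) k
  rw [dbar_congr k x (f := fun p => form m b K R p 0)
    (g := fun p => 0 + -lam K R (p 0) * conj (p 1 - b (p 0)))
    (fun p => by rw [form_zero, zero_add]), h]
  congr 2
  rw [fderiv_fun_sub (hasF_apply (m := m) 1 x).differentiableAt (diffAt_b hb hx)]
  rw [sub_apply, fderiv_b hb hx, (hasF_apply (m := m) 1 x).fderiv]
  rfl

omit hb in
lemma dbar_form_one (x : Fin (m + 2) → ℂ) (k : Fin (m + 2)) :
    dbar k (fun p => form m b K R p 1) x =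
      -lam K R (x 0) * conj ((Pi.single k (1 : ℂ) : Fin (m + 2) → ℂ) 0) := by
  have hl : DifferentiableAt ℂ (fun p : Fin (m + 2) → ℂ => -lam K R (p 0)) x := by
    have := (diff_lam K R).differentiableAt (x := x 0)
    exact (this.comp x (hasF_apply (m := m) 0 x).differentiableAt).neg
  have hC : DifferentiableAt ℂ (fun p : Fin (m + 2) → ℂ => lam K R (p 0) * (2 - p 0)) x := by
    have := (diff_lam K R).differentiableAt (x := x 0)
    exact (this.comp x (hasF_apply (m := m) 0 x).differentiableAt).fun_mul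
      ((differentiableAt_const (2 : ℂ)).fun_sub (hasF_apply (m := m) 0 x).differentiableAt)
  have h := dbar_add_mul_conj hl (hasF_apply (m := m) 0 x).differentiableAt hC k
  rw [dbar_congr k x (f := fun p => form m b K R p 1)
    (g := fun p => lam K R (p 0) * (2 - p 0) + -lam K R (p 0) * conj (p 0))
    (fun p => by rw [form_one]; ring), h, (hasF_apply (m := m) 0 x).fderiv]
  rfl

lemma contDiffOn_form (j : Fin (m + 2)) :
    ContDiffOn ℝ ∞ (fun p => form m b K R p j) (Cyl m) := by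
  have h0 : ∀ j : Fin (m + 2), ContDiff ℝ ∞ (fun p : Fin (m + 2) → ℂ => p j) := fun j =>
    contDiff_apply ℝ ℂ j
  have hl : ContDiff ℝ ∞ (fun p : Fin (m + 2) → ℂ => lam K R (p 0)) := by
    have : ContDiff ℂ ∞ (lam K R) := (diff_lam K R).contDiff
    exact (this.restrict_scalars ℝ).comp (h0 0)
  have hbb : ContDiffOn ℝ ∞ (fun p : Fin (m + 2) → ℂ => b (p 0)) (Cyl m) := by
    have : ContDiffOn ℂ ∞ b (Metric.ball 0 1) := hb.contDiffOn Metric.isOpen_ball
    refine (this.restrict_scalars ℝ).comp (h0 0).contDiffOn ?_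
    intro p hp
    exact mem_ball_zero_iff.2 hp
  have hconj : ContDiff ℝ ∞ (fun z : ℂ => conj z) := Complex.conjCLE.contDiff
  refine Fin.cases ?_ (fun j => ?_) j
  · have e : (fun p => form m b K R p 0) = fun p => -lam K R (p 0) * conj (p 1 - b (p 0)) :=
      funext fun p => form_zero p
    rw [e]
    exact hl.neg.contDiffOn.mul (hconj.comp_contDiffOn ((h0 1).contDiffOn.sub hbb))
  · refine Fin.cases ?_ (fun j => ?_) j
    · have e : (fun p => form m b K R p (Fin.succ 0)) =
          fun p => lam K R (p 0) * (2 - p 0 - conj (p 0)) := funext fun p => form_one p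
      rw [e]
      exact (hl.mul ((contDiff_const.sub (h0 0)).sub (hconj.comp (h0 0)))).contDiffOn
    · have e : (fun p => form m b K R p j.succ.succ) = fun p => 0 := funext fun p => form_ss p j
      rw [e]
      exact contDiffOn_const

lemma form_closed : DbarClosed (Om m b) (form m b K R) := by
  apply dbarClosed_of_classical (isOpen_Om hb)
  · intro j
    exact ((contDiffOn_form hb j).mono (fun p hp => lt_of_mem_Om hp)).of_le (by simp)
  · intro x hx
    have hx0 := lt_of_mem_Om hx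
    have hz : ∀ j : Fin m, ∀ k, dbar k (fun p => form m b K R p j.succ.succ) x = 0 := by
      intro j k
      rw [dbar_congr k x (fun p => form_ss p j), dbar_zero]
    have h01 : dbar 1 (fun p => form m b K R p 0) x = dbar 0 (fun p => form m b K R p 1) x := by
      rw [dbar_form_zero hb hx0, dbar_form_one]
      simp
    have h0s : ∀ j : Fin m, dbar j.succ.succ (fun p => form m b K R p 0) x = 0 := by
      intro j
      rw [dbar_form_zero hb hx0]
      rw [Pi.single_eq_of_ne (ss_ne_one j).symm, Pi.single_eq_of_ne (Fin.succ_ne_zero _).symm]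
      simp
    have h1s : ∀ j : Fin m, dbar j.succ.succ (fun p => form m b K R p 1) x = 0 := by
      intro j
      rw [dbar_form_one]
      rw [Pi.single_eq_of_ne (Fin.succ_ne_zero _).symm]
      simp
    intro j k
    refine Fin.cases ?_ (fun j => ?_) j
    · refine Fin.cases rfl (fun k => ?_) k
      refine Fin.cases ?_ (fun k => ?_) k
      · exact h01
      · rw [h0s, hz]
    · refine Fin.cases ?_ (fun j => ?_) j
      · refine Fin.cases ?_ (fun k => ?_) k
        · exact h01.symm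
        · refine Fin.cases rfl (fun k => ?_) k
          rw [hz]
          exact h1s k
      · rw [hz]
        refine Fin.cases ?_ (fun k => ?_) k
        · rw [h0s]
        · refine Fin.cases ?_ (fun k => ?_) k
          · exact (h1s j).symm
          · rw [hz]

lemma aesm_form : AEStronglyMeasurable (form m b K R) (volume.restrict (Om m b)) := by
  have h : ContinuousOn (form m b K R) (Om m b) := by
    rw [continuousOn_pi]
    intro j
    exact (contDiffOn_form hb j).continuousOn.mono (fun p hp => lt_of_mem_Om hp)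
  exact h.aestronglyMeasurable (isOpen_Om hb).measurableSet

end

end Pool.Agent.Helper303.Db
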