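import Pool.Agent.Helper303.DbEval

open MeasureTheory Set
open scoped ContDiff ComplexConjugate BoundedContinuousFunction

namespace Pool.Agent.Helper303.Db

/-- the open unit disc as a type -/
abbrev DD : Type := Metric.ball (0 : ℂ) 1

open Classical in
/-- extension by zero -/
noncomputable def ext (f : DD →ᵇ ℂ) (z : ℂ) : ℂ :=
  if h : z ∈ Metric.ball (0 : ℂ) 1 then f ⟨z, h⟩ else 0

lemma ext_of_mem (f : DD →ᵇ ℂ) {z : ℂ} (h : z ∈ Metric.ball (0 : ℂ) 1) : ext f z = f ⟨z, h⟩ := by
  simp only [ext, dif_pos h]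

lemma ext_add (f g : DD →ᵇ ℂ) : ext (f + g) = fun z => ext f z + ext g z := by
  funext z
  by_cases h : z ∈ Metric.ball (0 : ℂ) 1
  · rw [ext_of_mem _ h, ext_of_mem _ h, ext_of_mem _ h]
    rfl
  · simp only [ext, dif_neg h, add_zero]

lemma ext_smul (c : ℂ) (f : DD →ᵇ ℂ) : ext (c • f) = fun z => c * ext f z := by
  funext z
  by_cases h : z ∈ Metric.ball (0 : ℂ) 1
  · rw [ext_of_mem _ h, ext_of_mem _ h]
    rfl
  · simp only [ext, dif_neg h, mul_zero]

lemma norm_ext_le (f : DD →ᵇ ℂ) (z : ℂ) : ‖ext f z‖ ≤ ‖f‖ := by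
  by_cases h : z ∈ Metric.ball (0 : ℂ) 1
  · rw [ext_of_mem _ h]
    exact f.norm_coe_le_norm _
  · simp only [ext, dif_neg h, norm_zero]
    exact norm_nonneg _

/-- `H^∞` of the disc -/
noncomputable def Hinf : Submodule ℂ (DD →ᵇ ℂ) where
  carrier := {f | DifferentiableOn ℂ (ext f) (Metric.ball 0 1)}
  add_mem' := by
    intro f g hf hg
    show DifferentiableOn ℂ (ext (f + g)) (Metric.ball 0 1)
    rw [ext_add]
    exact DifferentiableOn.fun_add hf hg
  zero_mem' := by
    show DifferentiableOn ℂ (ext 0) (Metric.ball 0 1)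
    have : ext (0 : DD →ᵇ ℂ) = fun _ => 0 := by
      funext z
      by_cases h : z ∈ Metric.ball (0 : ℂ) 1
      · rw [ext_of_mem _ h]
        rfl
      · simp only [ext, dif_neg h]
    rw [this]
    exact differentiableOn_const _
  smul_mem' := by
    intro c f hf
    show DifferentiableOn ℂ (ext (c • f)) (Metric.ball 0 1)
    rw [ext_smul]
    exact DifferentiableOn.const_mul hf c

lemma mem_Hinf (f : DD →ᵇ ℂ) : f ∈ Hinf ↔ DifferentiableOn ℂ (ext f) (Metric.ball 0 1) := Iff.rfl

lemma isClosed_Hinf : IsClosed (Hinf : Set (DD →ᵇ ℂ)) := by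
  rw [← isSeqClosed_iff_isClosed]
  intro u f hu hlim
  show DifferentiableOn ℂ (ext f) (Metric.ball 0 1)
  have h1 : TendstoUniformlyOn (fun n => ext (u n)) (ext f) Filter.atTop (Metric.ball 0 1) := by
    rw [Metric.tendstoUniformlyOn_iff]
    intro ε hε
    filter_upwards [Metric.tendsto_nhds.1 hlim ε hε] with n hn z hz
    rw [ext_of_mem _ hz, ext_of_mem _ hz, dist_comm]
    exact lt_of_le_of_lt (BoundedContinuousFunction.dist_coe_le_dist _) hn
  exact h1.tendstoLocallyUniformlyOn.differentiableOn (Filter.Eventually.of_forall fun n => hu n)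
    Metric.isOpen_ball

instance : CompleteSpace Hinf := isClosed_Hinf.completeSpace_coe

lemma deriv_bound {f : DD →ᵇ ℂ} (hf : f ∈ Hinf) {r : ℝ} (hr1 : r < 1) {z : ℂ}
    (hz : ‖z‖ ≤ r) : ‖deriv (ext f) z‖ ≤ ‖f‖ / ((1 - r) / 2) := by
  have hpos : 0 < (1 - r) / 2 := by linarith
  apply Complex.norm_deriv_le_of_forall_mem_sphere_norm_le hpos
  · apply DifferentiableOn.diffContOnCl_ball ((mem_Hinf f).1 hf)
    intro w hw
    rw [mem_closedBall_iff_norm] at hw
    rw [mem_ball_zero_iff]
    have := norm_add_le (w - z) z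
    rw [sub_add_cancel] at this
    linarith
  · intro w _
    exact norm_ext_le f w

section

variable {g : ℂ → ℂ} (hg : Continuous g) (hc : HasCompactSupport g)
  (hs : tsupport g ⊆ Metric.ball 0 1)

include hg hc hs

lemma integrable_g {f : DD →ᵇ ℂ} (hf : f ∈ Hinf) :
    Integrable fun z => g z * deriv (ext f) z := by
  have h1 : ContinuousOn (deriv (ext f)) (Metric.ball 0 1) :=
    (((mem_Hinf f).1 hf).deriv Metric.isOpen_ball).continuousOn
  have h2 := cont_mul Metric.isOpen_ball h1 hg hs
  have h3 : (fun z => deriv (ext f) z * g z) = fun z => g z * deriv (ext f) z := by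
    funext z
    ring
  rw [h3] at h2
  exact h2.integrable_of_hasCompactSupport hc.mul_right

lemma exists_T : ∃ T : Hinf →L[ℂ] ℂ, ∀ f : Hinf, T f = ∫ z, g z * deriv (ext f.1) z := by
  obtain ⟨r, hr0, hr1, hr⟩ := compact_lt hc hs
  have hpos : 0 < (1 - r) / 2 := by linarith
  let L : Hinf →ₗ[ℂ] ℂ :=
    { toFun := fun f => ∫ z, g z * deriv (ext f.1) z
      map_add' := by
        intro f h
        rw [← integral_add (integrable_g hg hc hs f.2) (integrable_g hg hc hs h.2)]
        congr 1
        funext z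
        by_cases hz : z ∈ tsupport g
        · have hzb := hs hz
          have d1 : DifferentiableAt ℂ (ext f.1) z :=
            ((mem_Hinf _).1 f.2).differentiableAt (Metric.isOpen_ball.mem_nhds hzb)
          have d2 : DifferentiableAt ℂ (ext h.1) z :=
            ((mem_Hinf _).1 h.2).differentiableAt (Metric.isOpen_ball.mem_nhds hzb)
          have : ext (f + h : Hinf).1 = fun z => ext f.1 z + ext h.1 z := ext_add f.1 h.1
          rw [this, deriv_fun_add d1 d2]
          ring
        · rw [image_eq_zero_of_notMem_tsupport hz]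
          simp
      map_smul' := by
        intro c f
        simp only [RingHom.id_apply, smul_eq_mul]
        rw [← integral_const_mul]
        congr 1
        funext z
        by_cases hz : z ∈ tsupport g
        · have hzb := hs hz
          have d1 : DifferentiableAt ℂ (ext f.1) z :=
            ((mem_Hinf _).1 f.2).differentiableAt (Metric.isOpen_ball.mem_nhds hzb)
          have : ext (c • f : Hinf).1 = fun z => c * ext f.1 z := ext_smul c f.1
          rw [this, deriv_const_mul _ d1]
          ring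
        · rw [image_eq_zero_of_notMem_tsupport hz]
          simp }
  refine ⟨L.mkContinuous ((∫ z, ‖g z‖) * (1 / ((1 - r) / 2))) ?_, fun f => rfl⟩
  intro f
  show ‖∫ z, g z * deriv (ext f.1) z‖ ≤ _
  have hgi : Integrable fun z => ‖g z‖ := (hg.integrable_of_hasCompactSupport hc).norm
  have h1 : ‖∫ z, g z * deriv (ext f.1) z‖ ≤ ∫ z, ‖g z‖ * (‖f.1‖ / ((1 - r) / 2)) := by
    apply norm_integral_le_of_norm_le (hgi.mul_const _)
    apply Filter.Eventually.of_forall
    intro z
    rw [norm_mul]
    by_cases hz : z ∈ tsupport g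
    · exact mul_le_mul_of_nonneg_left (deriv_bound f.2 hr1 (hr z hz)) (norm_nonneg _)
    · rw [image_eq_zero_of_notMem_tsupport hz]
      simp
  refine h1.trans (le_of_eq ?_)
  rw [integral_mul_const]
  have : ‖f‖ = ‖f.1‖ := rfl
  rw [this]
  ring

end

end Pool.Agent.Helper303.Db
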