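import Pool.Agent.Helper303.DbHinf

open MeasureTheory Set
open scoped ContDiff ComplexConjugate BoundedContinuousFunction

namespace Pool.Agent.Helper303.Db

/-- parameters -/
noncomputable def rh (K : ℕ) : ℝ := 1 / (4 * 3 ^ K)

noncomputable def RR (K : ℕ) : ℝ := 60 / rh K

lemma rh_pos (K : ℕ) : 0 < rh K := by unfold rh; positivity

lemma rh_le (K : ℕ) : 4 * rh K * 3 ^ K ≤ 1 := by
  unfold rh
  apply le_of_eq
  field_simp

lemma RR_pos (K : ℕ) : 0 < RR K := div_pos (by norm_num) (rh_pos K)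

/-- the kernel of the functional -/
noncomputable def gK (K : ℕ) (z : ℂ) : ℂ :=
  conj (lam K (RR K) z * (2 - z - conj z)) * conj (et (RR K) (rh K) z)

lemma gK_cont (K : ℕ) : Continuous (gK K) := by
  have h1 : Continuous (lam K (RR K)) := (diff_lam K (RR K)).continuous
  have h2 : Continuous (et (RR K) (rh K)) := (et_cd _ _).continuous
  unfold gK
  have h3 : Continuous fun z : ℂ => conj z := Complex.continuous_conj
  exact (h3.comp (h1.mul ((continuous_const.sub continuous_id).sub h3))).mul (h3.comp h2)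

lemma gK_zero (K : ℕ) {z : ℂ} (hz : z ∉ tsupport (et (RR K) (rh K))) : gK K z = 0 := by
  unfold gK
  rw [image_eq_zero_of_notMem_tsupport hz]
  simp

lemma gK_supp (K : ℕ) : HasCompactSupport (gK K) ∧ tsupport (gK K) ⊆ Metric.ball 0 1 := by
  obtain ⟨h1, h2⟩ := et_tsupport (R := RR K) (rh_pos K) le_rfl
  have hsub : tsupport (gK K) ⊆ tsupport (et (RR K) (rh K)) := by
    apply closure_minimal _ (isClosed_tsupport _)
    intro z hz
    by_contra h
    exact hz (gK_zero K h)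
  exact ⟨h1.of_isClosed_subset (isClosed_tsupport _) hsub, hsub.trans h2⟩

lemma gK_int (K : ℕ) (b : ℂ → ℂ) : ∫ z, gK K z * deriv b z =
    conj (∫ z, lam K (RR K) z * (2 - z - conj z) * (conj (deriv b z) * et (RR K) (rh K) z)) := by
  rw [← integral_conj]
  congr 1
  funext z
  unfold gK
  simp only [map_mul, Complex.conj_conj]
  ring

/-- the test functions `b_K` as elements of `H^∞` -/
noncomputable def fK (K : ℕ) (hK : 0 < K) : DD →ᵇ ℂ :=
  BoundedContinuousFunction.ofNormedAddCommGroup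
    (fun z : DD => bb (RR K) (PQ (1 / Real.sqrt K) K).1 z.1)
    ((diff_bb _ _).continuous.comp continuous_subtype_val) 2 (by
      intro z
      unfold bb
      apply PQ_bound hK
      rw [Complex.norm_exp, Real.exp_le_one_iff]
      have hz : ‖z.1‖ < 1 := mem_ball_zero_iff.1 z.2
      have hre : z.1.re < 1 := lt_of_le_of_lt (Complex.re_le_norm _) hz
      have hR := RR_pos K
      rw [Complex.neg_re, Complex.re_ofReal_mul]
      simp only [Complex.sub_re, Complex.one_re]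
      nlinarith)

lemma fK_ext (K : ℕ) (hK : 0 < K) {z : ℂ} (hz : z ∈ Metric.ball (0 : ℂ) 1) :
    ext (fK K hK) z = bb (RR K) (PQ (1 / Real.sqrt K) K).1 z := by
  rw [ext_of_mem _ hz]
  rfl

lemma fK_mem (K : ℕ) (hK : 0 < K) : fK K hK ∈ Hinf := by
  rw [mem_Hinf]
  exact (diff_bb (RR K) (PQ (1 / Real.sqrt K) K).1).differentiableOn.congr
    (fun z hz => fK_ext K hK hz)

lemma fK_norm (K : ℕ) (hK : 0 < K) : ‖fK K hK‖ ≤ 2 :=
  BoundedContinuousFunction.norm_ofNormedAddCommGroup_le _ (by norm_num) _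

lemma fK_deriv (K : ℕ) (hK : 0 < K) {z : ℂ} (hz : z ∈ Metric.ball (0 : ℂ) 1) :
    deriv (ext (fK K hK)) z = deriv (bb (RR K) (PQ (1 / Real.sqrt K) K).1) z := by
  apply Filter.EventuallyEq.deriv_eq
  filter_upwards [Metric.isOpen_ball.mem_nhds hz] with w hw
  exact fK_ext K hK hw

/-- for some bounded holomorphic `b` the domain `Om m b` has no uniform estimates -/
theorem main (m : ℕ) : ∃ b : ℂ → ℂ, DifferentiableOn ℂ b (Metric.ball 0 1) ∧
    (∃ β : ℝ, ∀ z, ‖z‖ < 1 → ‖b z‖ ≤ β) ∧ ¬ UniformEstimates (Om m b) := by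
  by_contra H
  have H' : ∀ b : ℂ → ℂ, DifferentiableOn ℂ b (Metric.ball 0 1) →
      (∃ β : ℝ, ∀ z, ‖z‖ < 1 → ‖b z‖ ≤ β) → UniformEstimates (Om m b) := by
    intro b h1 h2
    by_contra h3
    exact H ⟨b, h1, h2, h3⟩
  have hT : ∀ K : ℕ, ∃ T : Hinf →L[ℂ] ℂ, ∀ f : Hinf, T f = ∫ z, gK K z * deriv (ext f.1) z :=
    fun K => exists_T (gK_cont K) (gK_supp K).1 (gK_supp K).2
  choose T hTf using hT
  have hbd : ∀ f : Hinf, ∃ C, ∀ K : ℕ, ‖T K f‖ ≤ C := by
    intro f
    have hb := (mem_Hinf f.1).1 f.2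
    obtain ⟨C, hC⟩ := H' (ext f.1) hb ⟨‖f.1‖, fun z _ => norm_ext_le _ _⟩
    refine ⟨|C * 3| * (10 * TT), ?_⟩
    intro K
    obtain ⟨u, hu1, hu2, hu3⟩ := hC (form m (ext f.1) K (RR K)) 3 (aesm_form hb)
      (by
        rw [ae_restrict_iff' (isOpen_Om hb).measurableSet]
        exact Filter.Eventually.of_forall fun x hx => norm_form (RR_pos K) hx)
      (form_closed hb)
    obtain ⟨h1, h2⟩ := et_tsupport (R := RR K) (rh_pos K) le_rfl
    have hstar := star (et_cd (RR K) (rh K)) h1 h2 hb hu1 hu2 hu3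
    rw [hTf, gK_int, Complex.norm_conj]
    refine hstar.trans ?_
    have h3 : 0 ≤ ∫ z, ‖dz (et (RR K) (rh K)) z‖ := integral_nonneg fun _ => norm_nonneg _
    calc C * 3 * ∫ z, ‖dz (et (RR K) (rh K)) z‖ ≤ |C * 3| * ∫ z, ‖dz (et (RR K) (rh K)) z‖ :=
          mul_le_mul_of_nonneg_right (le_abs_self _) h3
      _ ≤ |C * 3| * (10 * TT) :=
          mul_le_mul_of_nonneg_left (int_dz_et (RR_pos K) (rh_pos K)) (abs_nonneg _)
  obtain ⟨C', hC'⟩ := banach_steinhaus hbd
  -- large `K`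
  obtain ⟨K, hK⟩ := exists_nat_gt (400 * C' ^ 2 + 1)
  have hK0 : 0 < K := by
    have : (0 : ℝ) < K := by nlinarith [sq_nonneg C']
    exact_mod_cast this
  have h1 : ‖T K ⟨fK K hK0, fK_mem K hK0⟩‖ ≤ C' * 2 := by
    have h2 := (T K).le_opNorm ⟨fK K hK0, fK_mem K hK0⟩
    have h3 : ‖(⟨fK K hK0, fK_mem K hK0⟩ : Hinf)‖ ≤ 2 := fK_norm K hK0
    have h4 : 0 ≤ C' := (norm_nonneg (T K)).trans (hC' K)
    exact h2.trans (mul_le_mul (hC' K) h3 (norm_nonneg _) h4)
  have h2 : T K ⟨fK K hK0, fK_mem K hK0⟩ =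
      conj (∫ z, lam K (RR K) z * (2 - z - conj z) *
        (conj (deriv (bb (RR K) (PQ (1 / Real.sqrt K) K).1) z) * et (RR K) (rh K) z)) := by
    rw [hTf, ← gK_int]
    congr 1
    funext z
    by_cases hz : z ∈ tsupport (gK K)
    · rw [fK_deriv K hK0 ((gK_supp K).2 hz)]
    · rw [image_eq_zero_of_notMem_tsupport hz, zero_mul, zero_mul]
  rw [h2, Complex.norm_conj] at h1
  have h3 := (low K hK0 (RR_pos K) (rh_pos K) (rh_le K)).trans h1
  have h4 : Real.sqrt K ≤ 20 * C' := by linarith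
  have h5 : (K : ℝ) ≤ (20 * C') ^ 2 := by
    have h6 : 0 ≤ Real.sqrt K := Real.sqrt_nonneg _
    calc (K : ℝ) = Real.sqrt K ^ 2 := (Real.sq_sqrt (Nat.cast_nonneg K)).symm
      _ ≤ _ := by gcongr
  nlinarith

end Pool.Agent.Helper303.Db
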