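import Pool.Agent.Helper303.DbTest

open MeasureTheory Set
open scoped ContDiff ComplexConjugate

namespace Pool.Agent.Helper303.Db

variable {m : ℕ} {b : ℂ → ℂ} {K : ℕ} {R : ℝ}

section

variable {η : ℂ → ℂ} (hη : ContDiff ℝ ∞ η) (hηc : HasCompactSupport η)
  (hηs : tsupport η ⊆ Metric.ball 0 1) (hb : DifferentiableOn ℂ b (Metric.ball 0 1))

/-- `φ(p) = a(z) ψ(w - b(z), t)` -/
noncomputable def ph (m : ℕ) (b : ℂ → ℂ) (a : ℂ → ℂ) (ψ : (Fin (m + 1) → ℂ) → ℝ)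
    (p : Fin (m + 2) → ℂ) : ℂ := a (p 0) * (ψ (vv m b p) : ℂ)

include hb

lemma contDiffOn_vv : ContDiffOn ℝ ∞ (vv m b) (Cyl m) := by
  have h0 : ∀ j : Fin (m + 2), ContDiff ℝ ∞ (fun p : Fin (m + 2) → ℂ => p j) := fun j =>
    contDiff_apply ℝ ℂ j
  have hbb : ContDiffOn ℝ ∞ (fun p : Fin (m + 2) → ℂ => b (p 0)) (Cyl m) := by
    have : ContDiffOn ℂ ∞ b (Metric.ball 0 1) := hb.contDiffOn Metric.isOpen_ball
    refine (this.restrict_scalars ℝ).comp (h0 0).contDiffOn ?_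
    intro p hp
    exact mem_ball_zero_iff.2 hp
  rw [contDiffOn_pi]
  intro j
  refine Fin.cases ?_ (fun j => ?_) j
  · simp_rw [vv_zero]
    exact (h0 1).contDiffOn.sub hbb
  · simp_rw [vv_succ]
    exact (h0 _).contDiffOn

include hηs

lemma contDiff_ph {a : ℂ → ℂ} (ha : ContDiffOn ℝ ∞ a (Metric.ball 0 1))
    (has : ∀ z, z ∉ tsupport η → a z = 0)
    {ψ : (Fin (m + 1) → ℂ) → ℝ} (hψ : ContDiff ℝ ∞ ψ) : ContDiff ℝ ∞ (ph m b a ψ) := by
  rw [contDiff_iff_contDiffAt]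
  intro p
  by_cases hp : p 0 ∈ Metric.ball (0 : ℂ) 1
  · have hp' : Cyl m ∈ nhds p := isOpen_Cyl.mem_nhds (mem_ball_zero_iff.1 hp)
    have h1 : ContDiffAt ℝ ∞ (fun p : Fin (m + 2) → ℂ => a (p 0)) p :=
      (ha.contDiffAt (Metric.isOpen_ball.mem_nhds hp)).comp p (contDiff_apply ℝ ℂ 0).contDiffAt
    have h2 : ContDiffAt ℝ ∞ (fun p : Fin (m + 2) → ℂ => ψ (vv m b p)) p :=
      hψ.contDiffAt.comp p ((contDiffOn_vv hb).contDiffAt hp')
    have h3 : ContDiffAt ℝ ∞ (fun p : Fin (m + 2) → ℂ => (ψ (vv m b p) : ℂ)) p :=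
      (Complex.ofRealCLM.contDiff).contDiffAt.comp p h2
    exact h1.mul h3
  · have hp2 : p 0 ∈ (tsupport η)ᶜ := fun h => hp (hηs h)
    have hev : ph m b a ψ =ᶠ[nhds p] fun _ => 0 := by
      have hopen : IsOpen {q : Fin (m + 2) → ℂ | q 0 ∈ (tsupport η)ᶜ} :=
        (isClosed_tsupport η).isOpen_compl.preimage (continuous_apply 0)
      filter_upwards [hopen.mem_nhds hp2] with q hq
      unfold ph
      rw [has _ hq, zero_mul]
    exact contDiffAt_const.congr_of_eventuallyEq hev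

omit hηs in
/-- derivative of `ph` -/
lemma hasF_ph {a : ℂ → ℂ} {p : Fin (m + 2) → ℂ} (hp : ‖p 0‖ < 1)
    (ha : DifferentiableAt ℝ a (p 0))
    {ψ : (Fin (m + 1) → ℂ) → ℝ} (hψ : ContDiff ℝ ∞ ψ) (v : Fin (m + 2) → ℂ) :
    fderiv ℝ (ph m b a ψ) p v = fderiv ℝ a (p 0) (v 0) * ψ (vv m b p) +
      a (p 0) * fderiv ℝ (fun q => (ψ q : ℂ)) (vv m b p)
        (fun j => v j.succ - (Pi.single 0 (deriv b (p 0) * v 0) : Fin (m + 1) → ℂ) j) := by
  have hv0 : ∀ j : Fin (m + 2), HasFDerivAt (𝕜 := ℝ) (fun p : Fin (m + 2) → ℂ => p j)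
      (ContinuousLinearMap.proj (R := ℝ) (φ := fun _ : Fin (m + 2) => ℂ) j) p := fun j =>
    hasFDerivAt_apply j p
  have h1 : HasFDerivAt (fun p : Fin (m + 2) → ℂ => a (p 0))
      ((fderiv ℝ a (p 0)).comp (ContinuousLinearMap.proj (R := ℝ) (φ := fun _ : Fin (m + 2) => ℂ) 0))
      p := HasFDerivAt.comp p ha.hasFDerivAt (hv0 0)
  have hvd : DifferentiableAt ℝ (vv m b) p :=
    ((contDiffOn_vv hb).contDiffAt (isOpen_Cyl.mem_nhds hp)).differentiableAt (by simp)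
  have hψd : DifferentiableAt ℝ (fun q => (ψ q : ℂ)) (vv m b p) := by
    have h : ContDiff ℝ ∞ (fun q => (ψ q : ℂ)) := Complex.ofRealCLM.contDiff.comp hψ
    exact h.differentiable (by simp) _
  have h2 : HasFDerivAt (fun p : Fin (m + 2) → ℂ => (ψ (vv m b p) : ℂ))
      ((fderiv ℝ (fun q => (ψ q : ℂ)) (vv m b p)).comp (fderiv ℝ (vv m b) p)) p :=
    HasFDerivAt.comp p (g := fun q => (ψ q : ℂ)) hψd.hasFDerivAt hvd.hasFDerivAt
  have h3 : fderiv ℝ (ph m b a ψ) p = _ := (h1.fun_mul h2).fderiv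
  have h4 : fderiv ℝ (vv m b) p v =
      fun j => v j.succ - (Pi.single 0 (deriv b (p 0) * v 0) : Fin (m + 1) → ℂ) j := by
    funext j
    have h5 : fderiv ℝ (vv m b) p v j = fderiv ℝ (fun p => vv m b p j) p v := by
      have := (hasFDerivAt_pi'.1 hvd.hasFDerivAt j).fderiv
      rw [this]
      rfl
    rw [h5]
    refine Fin.cases ?_ (fun j => ?_) j
    · simp_rw [vv_zero]
      have hB : HasFDerivAt (𝕜 := ℂ) (fun p : Fin (m + 2) → ℂ => p 1 - b (p 0)) _ p :=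
        (hasF_apply (m := m) 1 p).fun_sub (diffAt_b hb hp).hasFDerivAt
      rw [(hB.restrictScalars ℝ).fderiv]
      simp only [ContinuousLinearMap.coe_restrictScalars', sub_apply, fderiv_b hb hp]
      simp
    · simp_rw [vv_succ]
      rw [(hv0 j.succ.succ).fderiv]
      simp
  rw [h3]
  simp only [add_apply, smul_apply, ContinuousLinearMap.comp_apply, smul_eq_mul, h4]
  rw [add_comm]
  congr 1
  rw [mul_comm]
  rfl

omit hηs in
lemma dbar_ph_zero {a : ℂ → ℂ} {p : Fin (m + 2) → ℂ} (hp : ‖p 0‖ < 1)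
    (ha : DifferentiableAt ℝ a (p 0))
    {ψ : (Fin (m + 1) → ℂ) → ℝ} (hψ : ContDiff ℝ ∞ ψ) :
    dbar 0 (ph m b a ψ) p = dz a (p 0) * ψ (vv m b p) -
      a (p 0) * conj (deriv b (p 0)) *
        ((fderiv ℝ (fun q => (ψ q : ℂ)) (vv m b p) (Pi.single 0 1) +
          Complex.I * fderiv ℝ (fun q => (ψ q : ℂ)) (vv m b p) (Pi.single 0 Complex.I)) / 2) := by
  set T := fderiv ℝ (fun q => (ψ q : ℂ)) (vv m b p) with hT
  have e : ∀ c : ℂ, (fun j : Fin (m + 1) => (Pi.single 0 c : Fin (m + 2) → ℂ) j.succ -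
      (Pi.single 0 (deriv b (p 0) * (Pi.single 0 c : Fin (m + 2) → ℂ) 0) : Fin (m + 1) → ℂ) j) =
      - Pi.single 0 (deriv b (p 0) * c) := by
    intro c
    funext j
    rw [Pi.single_eq_of_ne (Fin.succ_ne_zero _), Pi.single_eq_same]
    simp
  unfold dbar
  rw [hasF_ph hb hp ha hψ, hasF_ph hb hp ha hψ, e, e, ← hT]
  have h1 := lin_conj (T.comp ((ContinuousLinearMap.single ℝ (fun _ : Fin (m + 1) => ℂ) 0)))
    (deriv b (p 0))
  simp only [ContinuousLinearMap.comp_apply, ContinuousLinearMap.single_apply] at h1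
  rw [map_neg, map_neg]
  simp only [Pi.single_eq_same, mul_one]
  unfold dz
  rw [mul_comm (deriv b (p 0)) Complex.I]
  linear_combination (-(a (p 0)) / 2) * h1

omit hηs in
lemma dbar_ph_one {a : ℂ → ℂ} {p : Fin (m + 2) → ℂ} (hp : ‖p 0‖ < 1)
    (ha : DifferentiableAt ℝ a (p 0))
    {ψ : (Fin (m + 1) → ℂ) → ℝ} (hψ : ContDiff ℝ ∞ ψ) :
    dbar 1 (ph m b a ψ) p = a (p 0) *
        ((fderiv ℝ (fun q => (ψ q : ℂ)) (vv m b p) (Pi.single 0 1) +
          Complex.I * fderiv ℝ (fun q => (ψ q : ℂ)) (vv m b p) (Pi.single 0 Complex.I)) / 2) := by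
  set T := fderiv ℝ (fun q => (ψ q : ℂ)) (vv m b p) with hT
  have e : ∀ c : ℂ, (fun j : Fin (m + 1) => (Pi.single 1 c : Fin (m + 2) → ℂ) j.succ -
      (Pi.single 0 (deriv b (p 0) * (Pi.single 1 c : Fin (m + 2) → ℂ) 0) : Fin (m + 1) → ℂ) j) =
      Pi.single 0 c := by
    intro c
    funext j
    rw [Pi.single_eq_of_ne zero_ne_one', mul_zero, Pi.single_zero]
    refine Fin.cases ?_ (fun j => ?_) j
    · have : (Fin.succ 0 : Fin (m + 2)) = 1 := rfl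
      rw [this, Pi.single_eq_same, Pi.single_eq_same]
      simp
    · rw [Pi.single_eq_of_ne (ss_ne_one j), Pi.single_eq_of_ne (Fin.succ_ne_zero _)]
      simp
  unfold dbar
  rw [hasF_ph hb hp ha hψ, hasF_ph hb hp ha hψ, e, e, ← hT]
  rw [Pi.single_eq_of_ne zero_ne_one', Pi.single_eq_of_ne zero_ne_one', map_zero]
  ring

end

end Pool.Agent.Helper303.Db
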