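import Pool.Agent.Helper303.DbForm

open MeasureTheory Set
open scoped ContDiff ComplexConjugate

namespace Pool.Agent.Helper303.Db

variable {m : ℕ} {b : ℂ → ℂ} {K : ℕ} {R : ℝ}

/-- the vertical coordinates `(w - b(z), t)` -/
def vv (m : ℕ) (b : ℂ → ℂ) (p : Fin (m + 2) → ℂ) : Fin (m + 1) → ℂ :=
  fun j => p j.succ - (Pi.single 0 (b (p 0)) : Fin (m + 1) → ℂ) j

lemma vv_zero (p : Fin (m + 2) → ℂ) : vv m b p 0 = p 1 - b (p 0) := by
  simp [vv]

lemma vv_succ (p : Fin (m + 2) → ℂ) (j : Fin m) : vv m b p j.succ = p j.succ.succ := by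
  simp [vv]

/-- shear + Fubini -/
lemma shear {A : ℂ → ℂ} {B : (Fin (m + 1) → ℂ) → ℂ}
    (hI : Integrable fun p : Fin (m + 2) → ℂ => A (p 0) * B (vv m b p)) :
    ∫ p : Fin (m + 2) → ℂ, A (p 0) * B (vv m b p) = (∫ z, A z) * ∫ q, B q := by
  have hmp := volume_preserving_piFinSuccAbove (fun _ : Fin (m + 2) => ℂ) 0
  let W : ℂ × (Fin (m + 1) → ℂ) → ℂ := fun x => A x.1 * B (x.2 - Pi.single 0 (b x.1))
  have hW : ∀ p : Fin (m + 2) → ℂ, A (p 0) * B (vv m b p) =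
      W (MeasurableEquiv.piFinSuccAbove (fun _ : Fin (m + 2) => ℂ) 0 p) := by
    intro p
    simp only [W, MeasurableEquiv.piFinSuccAbove_apply]
    congr 2
  simp_rw [hW] at hI ⊢
  have hI' : Integrable W := (hmp.integrable_comp_emb
    (MeasurableEquiv.measurableEmbedding _)).1 hI
  rw [hmp.integral_comp' W]
  have e1 : ∫ x, W x = ∫ z : ℂ, ∫ q : Fin (m + 1) → ℂ, W (z, q) := integral_prod W hI'
  have e2 : ∀ z : ℂ, ∫ q : Fin (m + 1) → ℂ, W (z, q) = A z * ∫ q, B q := by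
    intro z
    simp only [W]
    rw [integral_const_mul]
    congr 1
    exact integral_sub_right_eq_self B _
  refine Eq.trans e1 ?_
  simp_rw [e2]
  rw [integral_mul_const]

/-- `∂/∂z̄` in one variable -/
noncomputable def dz (η : ℂ → ℂ) (z : ℂ) : ℂ :=
  (fderiv ℝ η z 1 + Complex.I * fderiv ℝ η z Complex.I) / 2

lemma compact_lt {S : Set ℂ} (hS : IsCompact S) (h : S ⊆ Metric.ball 0 1) :
    ∃ r : ℝ, 0 < r ∧ r < 1 ∧ ∀ z ∈ S, ‖z‖ ≤ r := by
  rcases S.eq_empty_or_nonempty with rfl | hne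
  · exact ⟨1 / 2, by norm_num, by norm_num, fun z hz => absurd hz (notMem_empty z)⟩
  · obtain ⟨z0, hz0, hmax⟩ := hS.exists_isMaxOn hne continuous_norm.continuousOn
    refine ⟨max (1 / 2) ‖z0‖, ?_, ?_, ?_⟩
    · exact lt_of_lt_of_le (by norm_num) (le_max_left _ _)
    · exact max_lt (by norm_num) (mem_ball_zero_iff.1 (h hz0))
    · intro z hz
      exact (hmax hz).trans (le_max_right _ _)

section

variable {η : ℂ → ℂ} (hη : ContDiff ℝ ∞ η) (hηc : HasCompactSupport η)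
  (hηs : tsupport η ⊆ Metric.ball 0 1)

/-- the map `(z, q) ↦ (z, q + b(z) e₀)` -/
def HH (m : ℕ) (b : ℂ → ℂ) (x : ℂ × (Fin (m + 1) → ℂ)) : Fin (m + 2) → ℂ :=
  Fin.cons x.1 (x.2 + Pi.single 0 (b x.1))

lemma HH_vv (p : Fin (m + 2) → ℂ) : HH m b (p 0, vv m b p) = p := by
  funext j
  refine Fin.cases ?_ (fun j => ?_) j
  · simp [HH]
  · simp [HH, vv]

lemma vv_HH (x : ℂ × (Fin (m + 1) → ℂ)) : vv m b (HH m b x) = x.2 := by
  funext j
  simp [HH, vv]

lemma HH_zero (x : ℂ × (Fin (m + 1) → ℂ)) : HH m b x 0 = x.1 := by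
  simp [HH]

include hηc hηs

lemma exists_small (b : ℂ → ℂ) (m : ℕ) : ∃ s : ℝ, 0 < s ∧
    ∀ p : Fin (m + 2) → ℂ, p 0 ∈ tsupport η → ‖vv m b p‖ ≤ s → p ∈ Om m b := by
  obtain ⟨r, hr0, hr1, hr⟩ := compact_lt hηc hηs
  have hm : (0 : ℝ) < m + 1 := by positivity
  have h1r : 0 < 1 - r := by linarith
  refine ⟨(1 - r) ^ 2 / (m + 1), by positivity, ?_⟩
  intro p hp0 hv
  set s := (1 - r) ^ 2 / (m + 1) with hs
  have hs0 : 0 < s := by positivity
  rw [mem_Om]
  have hz := hr _ hp0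
  have h1 : ‖p 0‖ ^ 2 ≤ r ^ 2 := by gcongr
  have h1z : 1 - r ≤ ‖1 - p 0‖ := by
    have := norm_sub_norm_le (1 : ℂ) (p 0)
    rw [norm_one] at this
    linarith
  have h2 : ‖(p 1 - b (p 0)) / (1 - p 0)‖ ≤ s / (1 - r) := by
    rw [norm_div, ← vv_zero]
    have := (norm_le_pi_norm (vv m b p) 0).trans hv
    exact div_le_div₀ hs0.le this h1r h1z
  have h3 : ∀ j : Fin m, ‖p j.succ.succ‖ ^ 2 ≤ (s / (1 - r)) ^ 2 := by
    intro j
    have h4 := (norm_le_pi_norm (vv m b p) j.succ).trans hv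
    rw [vv_succ] at h4
    have h5 : s ≤ s / (1 - r) := by
      rw [le_div_iff₀ h1r]
      nlinarith
    have h6 := h4.trans h5
    gcongr
  have h4 : ∑ j : Fin m, ‖p j.succ.succ‖ ^ 2 ≤ m * (s / (1 - r)) ^ 2 := by
    refine (Finset.sum_le_sum fun j _ => h3 j).trans (le_of_eq ?_)
    simp
  have h5 : ‖(p 1 - b (p 0)) / (1 - p 0)‖ ^ 2 ≤ (s / (1 - r)) ^ 2 := by gcongr
  have h6 : s / (1 - r) = (1 - r) / (m + 1) := by
    rw [hs]
    field_simp
  have h7 : (m + 1 : ℝ) * (s / (1 - r)) ^ 2 ≤ (1 - r) ^ 2 := by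
    rw [h6, div_pow]
    rw [← mul_div_assoc, div_le_iff₀ (by positivity)]
    have : (1 : ℝ) ≤ m + 1 := by
      have : (0 : ℝ) ≤ m := Nat.cast_nonneg m
      linarith
    nlinarith [sq_nonneg (1 - r), mul_nonneg (sq_nonneg (1 - r)) hm.le,
      mul_nonneg (mul_nonneg (sq_nonneg (1 - r)) hm.le) (sub_nonneg.2 this)]
  nlinarith

/-- a function `A(z) B(w - b(z), t)` with `A` supported in the support of `η` and `B` supported
in a small ball is a test function -/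
lemma isTest_of (hb : DifferentiableOn ℂ b (Metric.ball 0 1)) {s : ℝ}
    (hs : ∀ p : Fin (m + 2) → ℂ, p 0 ∈ tsupport η → ‖vv m b p‖ ≤ s → p ∈ Om m b)
    {φ : (Fin (m + 2) → ℂ) → ℂ} (hφ : ContDiff ℝ ∞ φ)
    (hsupp : ∀ p, φ p ≠ 0 → p 0 ∈ tsupport η ∧ ‖vv m b p‖ ≤ s) :
    IsTest (Om m b) φ := by
  have hcomp : IsCompact (HH m b '' (tsupport η ×ˢ Metric.closedBall 0 s)) := by
    apply (IsCompact.prod hηc (isCompact_closedBall _ _)).image_of_continuousOn
    rw [continuousOn_pi]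
    intro j
    refine Fin.cases ?_ (fun j => ?_) j
    · simp_rw [HH_zero]
      exact continuous_fst.continuousOn
    · have e : ∀ x : ℂ × (Fin (m + 1) → ℂ), HH m b x j.succ =
          x.2 j + (Pi.single 0 (b x.1) : Fin (m + 1) → ℂ) j := by
        intro x
        simp [HH]
      simp_rw [e]
      apply ContinuousOn.add
      · exact ((continuous_apply j).comp continuous_snd).continuousOn
      · have hbc : ContinuousOn (fun x : ℂ × (Fin (m + 1) → ℂ) => b x.1)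
            (tsupport η ×ˢ Metric.closedBall 0 s) :=
          hb.continuousOn.comp continuous_fst.continuousOn (fun x hx => hηs hx.1)
        refine Fin.cases ?_ (fun j => ?_) j
        · simpa using hbc
        · simp only [Pi.single_eq_of_ne (Fin.succ_ne_zero _)]
          exact continuousOn_const
  have hsub : Function.support φ ⊆ HH m b '' (tsupport η ×ˢ Metric.closedBall 0 s) := by
    intro p hp
    obtain ⟨h1, h2⟩ := hsupp p hp
    exact ⟨(p 0, vv m b p), ⟨h1, by rwa [mem_closedBall_zero_iff]⟩, HH_vv p⟩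
  have hts : tsupport φ ⊆ HH m b '' (tsupport η ×ˢ Metric.closedBall 0 s) :=
    closure_minimal hsub hcomp.isClosed
  refine ⟨hφ, hcomp.of_isClosed_subset (isClosed_tsupport _) hts, hts.trans ?_⟩
  rintro p ⟨x, hx, rfl⟩
  apply hs
  · rw [HH_zero]; exact hx.1
  · rw [vv_HH]; exact mem_closedBall_zero_iff.1 hx.2

end

end Pool.Agent.Helper303.Db
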