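import Pool.Agent.Helper303.Potential

set_option autoImplicit false
open Filter Topology Asymptotics Metric

namespace Pool.Agent.Helper303

section descend

variable {F : ℂ → ℝ}

lemma mult_nat (hF : ∀ x, F (x + 2 * Real.pi * Complex.I) = Real.exp (2 * Real.pi) * F x)
    (n : ℕ) (x : ℂ) : F (x + n * (2 * Real.pi * Complex.I)) = Real.exp (n * (2 * Real.pi)) * F x := by
  induction n with
  | zero => simp
  | succ n ih =>
    have e1 : x + ((n + 1 : ℕ) : ℂ) * (2 * Real.pi * Complex.I)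
        = (x + n * (2 * Real.pi * Complex.I)) + 2 * Real.pi * Complex.I := by push_cast; ring
    rw [e1, hF, ih, ← mul_assoc, ← Real.exp_add]
    congr 2
    push_cast; ring

lemma mult_int (hF : ∀ x, F (x + 2 * Real.pi * Complex.I) = Real.exp (2 * Real.pi) * F x)
    (n : ℤ) (x : ℂ) : F (x + n * (2 * Real.pi * Complex.I)) = Real.exp (n * (2 * Real.pi)) * F x := by
  rcases le_total 0 n with hn | hn
  · obtain ⟨m, rfl⟩ := Int.eq_ofNat_of_zero_le hn
    simpa using mult_nat hF m x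
  · obtain ⟨m, hm⟩ := Int.eq_ofNat_of_zero_le (neg_nonneg.2 hn)
    have hn' : n = -(m : ℤ) := by omega
    subst hn'
    have h1 := mult_nat hF m (x + ((-(m : ℤ) : ℤ) : ℂ) * (2 * Real.pi * Complex.I))
    have e1 : x + ((-(m : ℤ) : ℤ) : ℂ) * (2 * Real.pi * Complex.I)
        + m * (2 * Real.pi * Complex.I) = x := by push_cast; ring
    rw [e1] at h1
    have e2 : Real.exp (((-(m : ℤ) : ℤ) : ℝ) * (2 * Real.pi)) * Real.exp (m * (2 * Real.pi)) = 1 := by
      rw [← Real.exp_add, ← Real.exp_zero]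
      congr 1
      push_cast
      ring
    calc F (x + ((-(m : ℤ) : ℤ) : ℂ) * (2 * Real.pi * Complex.I))
        = (Real.exp (((-(m : ℤ) : ℤ) : ℝ) * (2 * Real.pi)) * Real.exp (m * (2 * Real.pi)))
          * F (x + ((-(m : ℤ) : ℤ) : ℂ) * (2 * Real.pi * Complex.I)) := by rw [e2, one_mul]
      _ = Real.exp (((-(m : ℤ) : ℤ) : ℝ) * (2 * Real.pi)) * F x := by rw [h1]; ring

lemma descend_eq (hF : ∀ x, F (x + 2 * Real.pi * Complex.I) = Real.exp (2 * Real.pi) * F x)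
    {x y : ℂ} (h : Complex.exp x = Complex.exp y) :
    Real.exp (-x.im) * F x = Real.exp (-y.im) * F y := by
  obtain ⟨n, hn⟩ := Complex.exp_eq_exp_iff_exists_int.1 h
  rw [hn, mult_int hF, ← mul_assoc, ← Real.exp_add]
  congr 2
  simp

lemma descend_smooth (hF : ∀ x, F (x + 2 * Real.pi * Complex.I) = Real.exp (2 * Real.pi) * F x)
    (hs : ContDiff ℝ ((⊤ : ℕ∞) : WithTop ℕ∞) F) {z₀ : ℂ} (hz₀ : z₀ ≠ 0) :
    ContDiffAt ℝ ((⊤ : ℕ∞) : WithTop ℕ∞)
      (fun z => Real.exp (-(Complex.log z).im) * F (Complex.log z)) z₀ := by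
  have hL : ContDiffAt ℝ ((⊤ : ℕ∞) : WithTop ℕ∞)
      (fun z => Complex.log z₀ + Complex.log (z * z₀⁻¹)) z₀ := by
    have h1 : ContDiffAt ℝ ((⊤ : ℕ∞) : WithTop ℕ∞) Complex.log (z₀ * z₀⁻¹) := by
      rw [mul_inv_cancel₀ hz₀]
      exact ((Complex.contDiffAt_log (n := ((⊤ : ℕ∞) : WithTop ℕ∞)) (by simp)).restrict_scalars ℝ)
    have h2 : ContDiffAt ℝ ((⊤ : ℕ∞) : WithTop ℕ∞) (fun z : ℂ => z * z₀⁻¹) z₀ :=
      (contDiff_id.mul contDiff_const).contDiffAt
    have h3 : ContDiffAt ℝ ((⊤ : ℕ∞) : WithTop ℕ∞) (fun z : ℂ => Complex.log (z * z₀⁻¹)) z₀ :=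
      ContDiffAt.comp (g := Complex.log) (f := fun z : ℂ => z * z₀⁻¹) z₀ h1 h2
    exact contDiffAt_const.add h3
  have him : ContDiff ℝ ((⊤ : ℕ∞) : WithTop ℕ∞) fun z : ℂ => Real.exp (-z.im) * F z :=
    (Real.contDiff_exp.comp (Complex.imCLM.contDiff.neg)).mul hs
  refine (him.contDiffAt.comp z₀ hL).congr_of_eventuallyEq ?_
  have hne : ∀ᶠ z : ℂ in 𝓝 z₀, z ≠ 0 := isOpen_ne.mem_nhds hz₀
  filter_upwards [hne] with z hz
  simp only [Function.comp]
  apply descend_eq hF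
  rw [Complex.exp_add, Complex.exp_log hz, Complex.exp_log hz₀,
    Complex.exp_log (mul_ne_zero hz (inv_ne_zero hz₀))]
  field_simp

end descend

/-- Cutoff to an annulus. -/
noncomputable def chi (z : ℂ) : ℝ :=
  bt (‖z‖ ^ 2 * Real.exp 14) * (1 - bt (‖z‖ ^ 2 * Real.exp (-15)))

lemma chi_nonneg (z : ℂ) : 0 ≤ chi z :=
  mul_nonneg (bt_nonneg _) (sub_nonneg.2 (bt_le_one _))

lemma chi_le_one (z : ℂ) : chi z ≤ 1 :=
  mul_le_one₀ (bt_le_one _) (sub_nonneg.2 (bt_le_one _)) (by linarith [bt_nonneg (‖z‖ ^ 2 * Real.exp (-15))])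

lemma contDiff_chi : ContDiff ℝ ((⊤ : ℕ∞) : WithTop ℕ∞) chi := by
  have h1 : ∀ a : ℝ, ContDiff ℝ ((⊤ : ℕ∞) : WithTop ℕ∞) fun z : ℂ => bt (‖z‖ ^ 2 * a) := fun a =>
    contDiff_bt.comp ((contDiff_norm_sq ℝ).mul contDiff_const)
  exact (h1 _).mul (contDiff_const.sub (h1 _))

lemma chi_one {z : ℂ} (h1 : Real.exp (-7) ≤ ‖z‖) (h2 : ‖z‖ ≤ Real.exp 7) : chi z = 1 := by
  have e1 : (1:ℝ) ≤ ‖z‖ ^ 2 * Real.exp 14 := by
    calc (1:ℝ) = Real.exp (-7) ^ 2 * Real.exp 14 := by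
          rw [← Real.exp_nat_mul, ← Real.exp_add]; norm_num
      _ ≤ ‖z‖ ^ 2 * Real.exp 14 := by gcongr
  have e2 : ‖z‖ ^ 2 * Real.exp (-15) ≤ 1 / 2 := by
    calc ‖z‖ ^ 2 * Real.exp (-15) ≤ Real.exp 7 ^ 2 * Real.exp (-15) := by gcongr
      _ = Real.exp (-1) := by rw [← Real.exp_nat_mul, ← Real.exp_add]; norm_num
      _ ≤ 1 / 2 := by
          rw [Real.exp_neg, inv_le_comm₀ (Real.exp_pos 1) (by norm_num)]
          have := Real.add_one_le_exp (1:ℝ)
          linarith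
  rw [chi, bt_one e1, bt_zero e2]; norm_num

lemma chi_zero_near : ∀ᶠ z : ℂ in 𝓝 0, chi z = 0 := by
  have h1 : Continuous fun z : ℂ => ‖z‖ ^ 2 * Real.exp 14 := by fun_prop
  have h2 := h1.tendsto 0
  simp only [norm_zero, ne_eq, OfNat.ofNat_ne_zero, not_false_eq_true, zero_pow, zero_mul] at h2
  filter_upwards [h2.eventually (Iio_mem_nhds (show (0:ℝ) < 1 / 2 by norm_num))] with z hz
  rw [chi, bt_zero (le_of_lt hz), zero_mul]

lemma chi_zero_far {z : ℂ} (h : Real.exp 8 ≤ ‖z‖) : chi z = 0 := by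
  have e2 : 1 ≤ ‖z‖ ^ 2 * Real.exp (-15) := by
    calc (1:ℝ) ≤ Real.exp 1 := Real.one_le_exp (by norm_num)
      _ = Real.exp 8 ^ 2 * Real.exp (-15) := by rw [← Real.exp_nat_mul, ← Real.exp_add]; norm_num
      _ ≤ ‖z‖ ^ 2 * Real.exp (-15) := by gcongr
  rw [chi, bt_one e2]; norm_num

lemma hasCompactSupport_chi_mul (g : ℂ → ℝ) : HasCompactSupport fun z => chi z * g z := by
  refine HasCompactSupport.of_support_subset_isCompact (isCompact_closedBall (0:ℂ) (Real.exp 8))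
    fun z hz => ?_
  rw [mem_closedBall_zero_iff]
  by_contra hcon
  push Not at hcon
  exact hz (by simp only; rw [chi_zero_far hcon.le, zero_mul])

lemma contDiff_chi_mul {g : ℂ → ℝ}
    (hg : ∀ z ≠ 0, ContDiffAt ℝ ((⊤ : ℕ∞) : WithTop ℕ∞) g z) :
    ContDiff ℝ ((⊤ : ℕ∞) : WithTop ℕ∞) fun z => chi z * g z := by
  rw [contDiff_iff_contDiffAt]
  intro z
  by_cases hz : z = 0
  · subst hz
    refine (contDiffAt_const (c := (0:ℝ))).congr_of_eventuallyEq ?_
    filter_upwards [chi_zero_near] with z hz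
    rw [hz, zero_mul]
  · exact contDiff_chi.contDiffAt.mul (hg z hz)

/-- Small coefficients make a series of test functions smooth. -/
lemma exists_small (f : ℕ → ℂ → ℝ) (hf : ∀ j, ContDiff ℝ ((⊤ : ℕ∞) : WithTop ℕ∞) (f j))
    (hs : ∀ j, HasCompactSupport (f j)) :
    ∃ κ : ℕ → ℝ, (∀ j, 0 < κ j) ∧ ∀ κ' : ℕ → ℝ, (∀ j, 0 ≤ κ' j ∧ κ' j ≤ κ j) →
      ContDiff ℝ ((⊤ : ℕ∞) : WithTop ℕ∞) fun x => ∑' j, κ' j * f j x := by
  have hB : ∀ j k : ℕ, ∃ B : ℝ, 0 ≤ B ∧ ∀ x, ‖iteratedFDeriv ℝ k (f j) x‖ ≤ B := by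
    intro j k
    have h1 : Continuous (iteratedFDeriv ℝ k (f j)) :=
      (hf j).continuous_iteratedFDeriv (by exact_mod_cast le_top)
    obtain ⟨B, hB⟩ := h1.bounded_above_of_compact_support ((hs j).iteratedFDeriv k)
    exact ⟨B, (norm_nonneg _).trans (hB 0), hB⟩
  choose B hB0 hB using hB
  have hD : ∀ j, 0 < 1 + ∑ k ∈ Finset.range (j + 1), B j k := fun j => by
    have : 0 ≤ ∑ k ∈ Finset.range (j + 1), B j k := Finset.sum_nonneg fun k _ => hB0 j k
    linarith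
  refine ⟨fun j => (1 / 2) ^ j / (1 + ∑ k ∈ Finset.range (j + 1), B j k),
    fun j => div_pos (by positivity) (hD j), fun κ' hκ' => ?_⟩
  refine contDiff_tsum_of_eventually (v := fun _ j => (1 / 2 : ℝ) ^ j)
    (fun j => contDiff_const.mul (hf j)) (fun k _ => summable_geometric_of_lt_one (by norm_num)
      (by norm_num)) fun k _ => ?_
  have : ∀ᶠ j in cofinite, k ≤ j := by
    rw [Nat.cofinite_eq_atTop]; exact eventually_ge_atTop k
  filter_upwards [this] with j hj x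
  have e1 : iteratedFDeriv ℝ k (fun x => κ' j * f j x) x = κ' j • iteratedFDeriv ℝ k (f j) x := by
    have := iteratedFDeriv_const_smul_apply (𝕜 := ℝ) (i := k) (a := κ' j) (f := f j) (x := x)
      ((hf j).of_le (by exact_mod_cast le_top)).contDiffAt
    exact this
  rw [e1, norm_smul, Real.norm_of_nonneg (hκ' j).1]
  calc κ' j * ‖iteratedFDeriv ℝ k (f j) x‖
      ≤ ((1 / 2) ^ j / (1 + ∑ k ∈ Finset.range (j + 1), B j k)) * B j k := by
        gcongr
        · exact (div_pos (by positivity) (hD j)).le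
        · exact (hκ' j).2
        · exact hB j k x
    _ ≤ ((1 / 2) ^ j / (1 + ∑ k ∈ Finset.range (j + 1), B j k))
          * (1 + ∑ k ∈ Finset.range (j + 1), B j k) := by
        gcongr
        · exact (div_pos (by positivity) (hD j)).le
        · have := Finset.single_le_sum (f := fun k => B j k) (fun k _ => hB0 j k)
            (Finset.mem_range.2 (Nat.lt_succ_of_le hj))
          linarith
    _ = (1 / 2) ^ j := by
        have := (hD j).ne'
        field_simp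

end Pool.Agent.Helper303
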