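import Pool.Agent.Helper303.Submean

set_option autoImplicit false
open Filter Topology Asymptotics MeasureTheory Metric

namespace Pool.Agent.Helper303

abbrev E2 := EuclideanSpace ℂ (Fin 2)

/-- Continuous plurisubharmonic functions, as in the frozen statement. -/
def PSH (U : Set E2) (φ : E2 → ℝ) : Prop :=
  ContinuousOn φ U ∧
    ∀ a ∈ U, ∀ v : E2, ∀ r : ℝ, 0 < r →
      (∀ ζ : ℂ, ‖ζ‖ ≤ r → a + ζ • v ∈ U) →
        φ a ≤ (2 * Real.pi)⁻¹ *
          ∫ θ in (0:ℝ)..(2 * Real.pi),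
            φ (a + ((r : ℂ) * Complex.exp ((θ : ℂ) * Complex.I)) • v)

/-- Viscosity plurisubharmonicity. -/
def VP (U : Set E2) (φ : E2 → ℝ) : Prop :=
  ∀ a ∈ U, ∀ v : E2, VSub fun h : ℂ => φ (a + h • v)

theorem psh_of_vp {U : Set E2} {φ : E2 → ℝ} (hc : ContinuousOn φ U) (hv : VP U φ) : PSH U φ := by
  refine ⟨hc, fun a _ v r hr hd => ?_⟩
  have h1 : ContinuousOn (fun h : ℂ => φ (a + h • v)) (closedBall 0 r) := by
    refine hc.comp (by fun_prop) fun h hh => ?_
    exact hd h (by simpa using hh)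
  have h2 := submean_of_vsub (u := fun h : ℂ => φ (a + h • v)) hr h1 (fun x hx => by
    have h3 : a + x • v ∈ U := hd x (by simpa using (mem_ball_zero_iff.1 hx).le)
    have h4 := hv _ h3 v
    refine h4.congr (Eventually.of_forall fun h => ?_)
    rw [add_smul, add_assoc])
  simpa using h2

theorem vp_of_psh {U : Set E2} (hU : IsOpen U) {φ : E2 → ℝ} (h : PSH U φ) : VP U φ := by
  intro a ha v
  have h1 : ∀ᶠ x : ℂ in 𝓝 0, a + x • v ∈ U := by
    have : Continuous fun x : ℂ => a + x • v := by fun_prop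
    have h2 := this.tendsto 0
    simp only [zero_smul, add_zero] at h2
    exact h2.eventually (hU.mem_nhds ha)
  rw [Metric.eventually_nhds_iff_ball] at h1
  obtain ⟨ε, hε, H⟩ := h1
  refine vsub_of_submean hε ?_ fun r hr hrε => ?_
  · exact h.1.comp (by fun_prop) fun x hx => H x hx
  · have := h.2 a ha v r hr fun ζ hζ => H ζ (by simpa using hζ.trans_lt hrε)
    simpa using this

theorem glue {Ω N : Set E2} (hN : IsOpen N) {U : E2 → ℝ}
    (hc : ContinuousOn U (closure N ∩ closure Ω)) (hv : VP (N ∩ Ω) U) {c : ℝ}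
    (hb : ∀ x ∈ frontier N ∩ closure Ω, U x < c) :
    ∃ φ : E2 → ℝ, ContinuousOn φ (closure Ω) ∧ PSH Ω φ ∧ (∀ x ∈ N, φ x = max (U x) c) ∧
      ∀ x ∉ N, φ x = c := by
  classical
  refine ⟨N.piecewise (fun x => max (U x) c) (fun _ => c), ?_, ?_, fun x hx => by simp [hx],
    fun x hx => by simp [hx]⟩
  · refine ContinuousOn.piecewise (fun a ha => ?_) ?_ continuousOn_const
    · exact max_eq_right (hb a ⟨ha.2, ha.1⟩).le
    · rw [Set.inter_comm]
      exact ContinuousOn.sup hc continuousOn_const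
  · have hcont : ContinuousOn (N.piecewise (fun x => max (U x) c) (fun _ => c)) (closure Ω) := by
      refine ContinuousOn.piecewise (fun a ha => ?_) ?_ continuousOn_const
      · exact max_eq_right (hb a ⟨ha.2, ha.1⟩).le
      · rw [Set.inter_comm]
        exact ContinuousOn.sup hc continuousOn_const
    refine psh_of_vp (hcont.mono subset_closure) fun a ha v => ?_
    by_cases haN : a ∈ N
    · have h1 : ∀ᶠ x : ℂ in 𝓝 0, a + x • v ∈ N := by
        have : Continuous fun x : ℂ => a + x • v := by fun_prop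
        have h2 := this.tendsto 0
        simp only [zero_smul, add_zero] at h2
        exact h2.eventually (hN.mem_nhds haN)
      have h3 := VSub.sup_const (a := c) fun _ => hv a ⟨haN, ha⟩ v
      refine h3.congr ?_
      filter_upwards [h1] with x hx
      simp [hx]
    · refine (VSub.const c).of_le ?_ (Eventually.of_forall fun x => ?_)
      · simp [haN]
      · by_cases hx : a + x • v ∈ N
        · simp [hx]
        · simp [hx]

theorem exists_peak {Ω N : Set E2} (hbd : Bornology.IsBounded Ω) (hN : IsOpen N) {p : E2}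
    (hp : p ∈ N) {U : E2 → ℝ}
    (hc : ContinuousOn U (closure N ∩ closure Ω)) (hv : VP (N ∩ Ω) U)
    (hb : ∀ x ∈ frontier N ∩ closure Ω, U x < U p) :
    ∃ φ : E2 → ℝ, ContinuousOn φ (closure Ω) ∧ PSH Ω φ ∧ ∃ c, c < φ p ∧ ∀ x ∉ N, φ x ≤ c := by
  have hK : IsCompact (frontier N ∩ closure Ω) :=
    (hbd.isCompact_closure).inter_left isClosed_frontier
  obtain ⟨c, hc1, hc2⟩ : ∃ c, c < U p ∧ ∀ x ∈ frontier N ∩ closure Ω, U x < c := by
    rcases (frontier N ∩ closure Ω).eq_empty_or_nonempty with he | hne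
    · exact ⟨U p - 1, by linarith, by rw [he]; simp⟩
    · obtain ⟨x₀, hx₀, hmax⟩ := hK.exists_isMaxOn hne
        (hc.mono (Set.inter_subset_inter_left _ frontier_subset_closure))
      have h1 := hb x₀ hx₀
      refine ⟨(U x₀ + U p) / 2, by linarith, fun x hx => ?_⟩
      have := hmax hx
      simp only [Set.mem_ofPred_eq] at this
      linarith
  obtain ⟨φ, h1, h2, h3, h4⟩ := glue hN hc hv hc2
  refine ⟨φ, h1, h2, c, ?_, fun x hx => (h4 x hx).le⟩
  rw [h3 p hp]
  exact lt_max_of_lt_left hc1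

theorem hull_condition {Ω : Set E2}
    (H : ∀ p ∈ frontier Ω, ∀ N₀ : Set E2, IsOpen N₀ → p ∈ N₀ →
      ∃ φ : E2 → ℝ, ContinuousOn φ (closure Ω) ∧ PSH Ω φ ∧ ∃ c, c < φ p ∧ ∀ x ∉ N₀, φ x ≤ c)
    (K : Set E2) (hK : K ⊆ closure Ω) (hKc : IsCompact K) :
    {z | z ∈ closure Ω ∧ ∀ φ : E2 → ℝ, ContinuousOn φ (closure Ω) → PSH Ω φ →
      φ z ≤ sSup (φ '' K)} ∩ frontier Ω = K ∩ frontier Ω := by
  apply Set.Subset.antisymm
  · rintro z ⟨⟨hz, hz2⟩, hzf⟩
    refine ⟨?_, hzf⟩
    by_contra hzK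
    rcases K.eq_empty_or_nonempty with rfl | hne
    · have := hz2 (fun _ => 1) continuousOn_const
        (psh_of_vp continuousOn_const fun a _ v => VSub.const 1)
      simp only [Set.image_empty, Real.sSup_empty] at this
      linarith
    · obtain ⟨φ, h1, h2, c, h3, h4⟩ := H z hzf Kᶜ hKc.isClosed.isOpen_compl hzK
      have h5 := hz2 φ h1 h2
      have h6 : sSup (φ '' K) ≤ c := by
        refine csSup_le (hne.image φ) ?_
        rintro _ ⟨x, hx, rfl⟩
        exact h4 x (by simpa using hx)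
      linarith
  · rintro z ⟨hz, hzf⟩
    refine ⟨⟨hK hz, fun φ h1 _ => ?_⟩, hzf⟩
    exact le_csSup (hKc.image_of_continuousOn (h1.mono hK)).bddAbove (Set.mem_image_of_mem φ hz)

/-- Penalisation lemma. -/
lemma exists_penalty {X : Type*} [TopologicalSpace X] {K : Set X} (hK : IsCompact K)
    {g r : X → ℝ} (hg : ContinuousOn g K) (hr : ContinuousOn r K) (hr0 : ∀ x ∈ K, 0 ≤ r x)
    {c : ℝ} (h : ∀ x ∈ K, r x = 0 → g x < c) :
    ∃ N₀ : ℝ, 0 ≤ N₀ ∧ ∀ N, N₀ ≤ N → ∀ x ∈ K, g x - N * r x < c := by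
  have hK' : IsCompact {x ∈ K | c ≤ g x} := by
    have : {x ∈ K | c ≤ g x} = K ∩ g ⁻¹' Set.Ici c := rfl
    rw [this]
    obtain ⟨u, hu, hu2⟩ := continuousOn_iff_isClosed.1 hg (Set.Ici c) isClosed_Ici
    have h3 : K ∩ g ⁻¹' Set.Ici c = K ∩ u := by
      rw [Set.inter_comm K, hu2, Set.inter_comm]
    rw [h3]
    exact hK.inter_right hu
  rcases ({x ∈ K | c ≤ g x} : Set X).eq_empty_or_nonempty with he | hne
  · refine ⟨0, le_rfl, fun N hN x hx => ?_⟩
    have h1 : g x < c := by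
      by_contra hcon
      push Not at hcon
      have : x ∈ ({x ∈ K | c ≤ g x} : Set X) := ⟨hx, hcon⟩
      rw [he] at this
      exact this
    nlinarith [hr0 x hx, mul_nonneg hN (hr0 x hx)]
  · obtain ⟨x₁, hx₁, hmin⟩ := hK'.exists_isMinOn hne (hr.mono fun x hx => hx.1)
    obtain ⟨x₂, hx₂, hmax⟩ := hK'.exists_isMaxOn hne (hg.mono fun x hx => hx.1)
    have hm : 0 < r x₁ := by
      rcases (hr0 x₁ hx₁.1).lt_or_eq with h1 | h1
      · exact h1
      · exact absurd (h x₁ hx₁.1 h1.symm) (not_lt.2 hx₁.2)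
    have hM : 0 ≤ g x₂ - c := by linarith [hx₂.2]
    refine ⟨(g x₂ - c) / r x₁ + 1, by positivity, fun N hN x hx => ?_⟩
    have hN0 : 0 ≤ N := le_trans (by positivity) hN
    by_cases hxc : c ≤ g x
    · have h1 : r x₁ ≤ r x := hmin ⟨hx, hxc⟩
      have h2 : g x ≤ g x₂ := hmax ⟨hx, hxc⟩
      have h3 : ((g x₂ - c) / r x₁ + 1) * r x₁ ≤ N * r x :=
        mul_le_mul hN h1 hm.le hN0
      have h4 : ((g x₂ - c) / r x₁ + 1) * r x₁ = g x₂ - c + r x₁ := by
        field_simp
      linarith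
    · push Not at hxc
      nlinarith [hr0 x hx, mul_nonneg hN0 (hr0 x hx)]

end Pool.Agent.Helper303
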