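import Pool.Agent.Helper303.Cheese
import Pool.Agent.Helper303.Psh

set_option autoImplicit false
open Filter Topology Asymptotics Metric

namespace Pool.Agent.Helper303

lemma hasTwo_of_hasDerivAt {f : ℂ → ℂ} {f' : ℂ} (hf : AnalyticAt ℂ f 0) (h : HasDerivAt f f' 0) :
    HasTwo f f' := by
  have := HasTwo.of_analyticAt hf
  rwa [h.deriv] at this

lemma HasLap.cast {u : ℂ → ℝ} {g g' : ℂ} {l l' : ℝ} (h : HasLap u g l) (hg : g = g') (hl : l = l') :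
    HasLap u g' l' := by
  subst hg; subst hl; exact h

lemma hasLap_exp_im {ζf : ℂ → ℂ} {α : ℂ} (hζ : HasTwo ζf α) :
    HasLap (fun k => Real.exp (ζf k).im) (Real.exp (ζf 0).im * (-Complex.I * α))
      (Real.exp (ζf 0).im * ‖α‖ ^ 2) := by
  have h1 := hζ.im.comp (F := Real.exp) (F₁ := Real.exp (ζf 0).im) (F₂ := Real.exp (ζf 0).im)
    (taylor_two_real (F' := Real.exp) (Eventually.of_forall Real.hasDerivAt_exp)
      (Real.hasDerivAt_exp _))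
  rw [mul_zero, zero_add, norm_mul, norm_neg, Complex.norm_I, one_mul] at h1
  exact h1

lemma hasLap_re_sq {ζf : ℂ → ℂ} {α : ℂ} (hζ : HasTwo ζf α) :
    HasLap (fun k => (ζf k).re ^ 2) (2 * (ζf 0).re * α) (2 * ‖α‖ ^ 2) := by
  have h := hζ.re.mul hζ.re
  have e1 : (fun h => (ζf h).re * (ζf h).re) = fun h => (ζf h).re ^ 2 := by
    funext h; ring
  rw [e1] at h
  convert h using 1
  · ring
  · rw [Complex.mul_conj, Complex.ofReal_re, Complex.normSq_eq_norm_sq]; ring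

/-- The defining function in logarithmic coordinates. -/
noncomputable def rh (Q : Cheese) (ζ w : ℂ) : ℝ :=
  -2 * (w * Complex.exp (-Complex.I * ζ)).re + Real.exp ζ.im * Q.η (Complex.exp ζ)
    + Real.exp ζ.im * fl (‖w‖ ^ 2 + ζ.re ^ 2 / 16 - 1)

noncomputable def Pp (ζ w : ℂ) : ℝ := ‖w‖ ^ 2 + ζ.re ^ 2 / 16 - 1

noncomputable def gP (ζ w α β : ℂ) : ℂ := 2 * ((starRingEnd ℂ) w * β) + ζ.re / 8 * α

/-- The complex gradient of `rh` in a direction. -/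
noncomputable def gr (Q : Cheese) (ζ w α β : ℂ) : ℂ :=
  -2 * ((β - Complex.I * w * α) * Complex.exp (-Complex.I * ζ)) + 2 * Q.u ζ * α
    + Real.exp ζ.im * (fl₁ (Pp ζ w) * gP ζ w α β - Complex.I * fl (Pp ζ w) * α)

lemma hasLap_Pp {ζf wf : ℂ → ℂ} {α β : ℂ} (hζ : HasTwo ζf α) (hw : HasTwo wf β) :
    HasLap (fun k => Pp (ζf k) (wf k)) (gP (ζf 0) (wf 0) α β) (4 * ‖β‖ ^ 2 + ‖α‖ ^ 2 / 8) := by
  have h1 := (hw.normSq.add ((hasLap_re_sq hζ).const_mul (1 / 16))).add_const (-1)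
  refine (h1.cast ?_ ?_).congr (Eventually.of_forall fun k => ?_)
  · rw [gP]; push_cast; ring
  · ring
  · rw [Pp]; ring

lemma hasTwo_v {ζf wf : ℂ → ℂ} {α β : ℂ} (hζ : AnalyticAt ℂ ζf 0) (hw : AnalyticAt ℂ wf 0)
    (dζ : HasDerivAt ζf α 0) (dw : HasDerivAt wf β 0) :
    HasTwo (fun k => wf k * Complex.exp (-Complex.I * ζf k))
      ((β - Complex.I * wf 0 * α) * Complex.exp (-Complex.I * ζf 0)) := by
  refine hasTwo_of_hasDerivAt (hw.mul ((analyticAt_const.mul hζ).cexp)) ?_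
  have h1 := dw.mul ((dζ.const_mul (-Complex.I)).cexp)
  refine h1.congr_deriv ?_
  ring

lemma lap_rh (Q : Cheese) {ζf wf : ℂ → ℂ} {α β : ℂ} (hζ : AnalyticAt ℂ ζf 0)
    (hw : AnalyticAt ℂ wf 0) (dζ : HasDerivAt ζf α 0) (dw : HasDerivAt wf β 0)
    (hb : ζf 0 ∈ ball (0:ℂ) 20) (hr : |(ζf 0).re| < 7) :
    ∃ l, HasLap (fun k => rh Q (ζf k) (wf k)) (gr Q (ζf 0) (wf 0) α β) l ∧
      4 * Q.mu (ζf 0) * ‖α‖ ^ 2 + Real.exp (ζf 0).im * (4 * fl₁ (Pp (ζf 0) (wf 0)) * ‖β‖ ^ 2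
        + fl (Pp (ζf 0) (wf 0)) * ‖α‖ ^ 2) ≤ l := by
  have tζ := hasTwo_of_hasDerivAt hζ dζ
  have tw := hasTwo_of_hasDerivAt hw dw
  have h1 := ((hasTwo_v hζ hw dζ dw).re).const_mul (-2)
  have h2 := HasLap.comp_hol (u := fun x => Real.exp x.im * Q.η (Complex.exp x)) (f := ζf)
    (Q.lap (ζf 0) hb hr) tζ
  have h3 := (hasLap_Pp tζ tw).comp (fl_taylor (Pp (ζf 0) (wf 0)))
  have h4 := (hasLap_exp_im tζ).mul h3
  have h5 := (h1.add h2).add h4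
  refine ⟨-2 * 0 + 4 * Q.mu (ζf 0) * ‖α‖ ^ 2 + (Real.exp (ζf 0).im *
      (fl₁ (Pp (ζf 0) (wf 0)) * (4 * ‖β‖ ^ 2 + ‖α‖ ^ 2 / 8) +
        fl₂ (Pp (ζf 0) (wf 0)) * ‖gP (ζf 0) (wf 0) α β‖ ^ 2) +
      fl (Pp (ζf 0) (wf 0)) * (Real.exp (ζf 0).im * ‖α‖ ^ 2) +
      2 * ((Real.exp (ζf 0).im * (-Complex.I * α)) *
        (starRingEnd ℂ) (fl₁ (Pp (ζf 0) (wf 0)) * gP (ζf 0) (wf 0) α β)).re), ?_, ?_⟩
  · refine h5.cast ?_ rfl
    rw [gr]; push_cast; ring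
  · set P := Pp (ζf 0) (wf 0)
    set G := gP (ζf 0) (wf 0) α β
    set E := Real.exp (ζf 0).im with hE
    have hE0 : 0 < E := Real.exp_pos _
    have e1 : ((E : ℂ) * (-Complex.I * α) * (starRingEnd ℂ) ((fl₁ P : ℂ) * G))
        = ((E * fl₁ P : ℝ) : ℂ) * (-Complex.I * α * (starRingEnd ℂ) G) := by
      rw [map_mul, Complex.conj_ofReal]; push_cast; ring
    rw [e1, Complex.re_ofReal_mul]
    have e2 : -(‖α‖ * ‖G‖) ≤ (-Complex.I * α * (starRingEnd ℂ) G).re := by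
      have h6 := Complex.abs_re_le_norm (-Complex.I * α * (starRingEnd ℂ) G)
      rw [norm_mul, norm_mul, norm_neg, Complex.norm_I, one_mul, RCLike.norm_conj] at h6
      exact neg_le_of_abs_le h6
    have h7 := fl₁_nonneg P
    have h8 := fl₂_ge P
    have e3 : -(fl₁ P * (‖α‖ ^ 2 / 8 + 8 * ‖G‖ ^ 2)) ≤
        2 * (fl₁ P * (-Complex.I * α * (starRingEnd ℂ) G).re) := by
      have h9 : -(‖α‖ ^ 2 / 8 + 8 * ‖G‖ ^ 2) ≤ 2 * (-Complex.I * α * (starRingEnd ℂ) G).re := by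
        nlinarith [sq_nonneg (‖α‖ - 8 * ‖G‖)]
      nlinarith [mul_le_mul_of_nonneg_left h9 h7]
    have h10 : 8 * fl₁ P * ‖G‖ ^ 2 ≤ fl₂ P * ‖G‖ ^ 2 :=
      mul_le_mul_of_nonneg_right h8 (sq_nonneg _)
    have h11 : fl₁ P * (4 * ‖β‖ ^ 2) ≤ fl₁ P * (4 * ‖β‖ ^ 2 + ‖α‖ ^ 2 / 8) + fl₂ P * ‖G‖ ^ 2
        + 2 * (fl₁ P * (-Complex.I * α * (starRingEnd ℂ) G).re) := by
      nlinarith
    have h12 := mul_le_mul_of_nonneg_left h11 hE0.le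
    nlinarith

end Pool.Agent.Helper303
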