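import Pool.Agent.Helper303.Domain

set_option autoImplicit false
open Filter Topology Asymptotics Metric

namespace Pool.Agent.Helper303

noncomputable def Fd (Q : Cheese) (z w : ℂ) : ℝ :=
  -2 * (w * Complex.exp (-Complex.I * (Real.log ‖z‖ : ℝ))).re + Q.η z
    + fl (‖w‖ ^ 2 + (Real.log ‖z‖) ^ 2 / 16 - 1)

noncomputable def rho (Q : Cheese) (x : E2) : ℝ := chi (x 0) * Fd Q (x 0) (x 1) + (1 - chi (x 0))

lemma exp_split (ζ : ℂ) : Complex.exp (-Complex.I * ζ)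
    = (Real.exp ζ.im : ℂ) * Complex.exp (-Complex.I * (ζ.re : ℂ)) := by
  rw [Complex.ofReal_exp, ← Complex.exp_add]
  congr 1
  apply Complex.ext <;> simp

lemma rh_eq (Q : Cheese) (ζ w : ℂ) : rh Q ζ w = Real.exp ζ.im * Fd Q (Complex.exp ζ) w := by
  have h1 : Real.log ‖Complex.exp ζ‖ = ζ.re := by rw [Complex.norm_exp, Real.log_exp]
  rw [rh, Fd, h1, exp_split]
  have h2 : w * ((Real.exp ζ.im : ℂ) * Complex.exp (-Complex.I * (ζ.re : ℂ)))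
      = (Real.exp ζ.im : ℂ) * (w * Complex.exp (-Complex.I * (ζ.re : ℂ))) := by ring
  rw [h2, Complex.re_ofReal_mul]
  ring

lemma chi_one' {z : ℂ} (hz : z ≠ 0) (h : |Real.log ‖z‖| ≤ 7) : chi z = 1 := by
  have hn : 0 < ‖z‖ := norm_pos_iff.2 hz
  have h1 := (abs_le.1 h).1
  have h2 := (abs_le.1 h).2
  apply chi_one
  · rw [← Real.le_log_iff_exp_le hn]; exact h1
  · rw [← Real.log_le_iff_le_exp hn]; exact h2

lemma rho_eq (Q : Cheese) {x : E2} (hz : x 0 ≠ 0) (h : |Real.log ‖x 0‖| ≤ 7) :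
    rho Q x = Fd Q (x 0) (x 1) := by
  rw [rho, chi_one' hz h]; ring

lemma re_le (z w : ℂ) : |(w * Complex.exp (-Complex.I * (Real.log ‖z‖ : ℝ))).re| ≤ ‖w‖ := by
  refine (Complex.abs_re_le_norm _).trans ?_
  rw [norm_mul, neg_mul, ← mul_neg, mul_comm Complex.I, ← Complex.ofReal_neg,
    Complex.norm_exp_ofReal_mul_I, mul_one]

lemma Fd_nonpos (Q : Cheese) {z w : ℂ} (h : Fd Q z w ≤ 0) :
    ‖w‖ ^ 2 + (Real.log ‖z‖) ^ 2 / 16 < 2 := by
  by_contra hcon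
  push Not at hcon
  have h1 := fl_ge (x := ‖w‖ ^ 2 + (Real.log ‖z‖) ^ 2 / 16 - 1) (by linarith)
  have h2 := re_le z w
  have h3 := Q.η_small z
  have h4 : e3 ≤ 1 := by rw [e3]; norm_num
  rw [Fd] at h
  have h5 := (abs_le.1 h2).2
  have h6 := (abs_le.1 h3).1
  nlinarith [sq_nonneg (‖w‖ - 1), sq_nonneg (Real.log ‖z‖)]

lemma rho_nonpos (Q : Cheese) {x : E2} (h : rho Q x ≤ 0) :
    x 0 ≠ 0 ∧ ‖x 1‖ ^ 2 + (Real.log ‖x 0‖) ^ 2 / 16 < 2 ∧ |Real.log ‖x 0‖| < 6 ∧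
      rho Q x = Fd Q (x 0) (x 1) := by
  have h0 := chi_nonneg (x 0)
  have h1 := chi_le_one (x 0)
  have hchi : 0 < chi (x 0) := by
    rcases h0.lt_or_eq with h2 | h2
    · exact h2
    · rw [rho, ← h2] at h; linarith
  have hx0 : x 0 ≠ 0 := by
    intro hx
    rw [hx, chi_zero_near.self_of_nhds] at hchi
    exact lt_irrefl _ hchi
  have hF : Fd Q (x 0) (x 1) ≤ 0 := by
    by_contra hcon
    push Not at hcon
    rw [rho] at h
    nlinarith [mul_pos hchi hcon]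
  have h2 := Fd_nonpos Q hF
  have h3 : |Real.log ‖x 0‖| < 6 := by
    apply abs_lt_of_sq_lt_sq _ (by norm_num)
    nlinarith [sq_nonneg ‖x 1‖]
  exact ⟨hx0, h2, h3, rho_eq Q hx0 (by linarith)⟩

lemma contDiff_rho (Q : Cheese) : ContDiff ℝ ((⊤ : ℕ∞) : WithTop ℕ∞) (rho Q) := by
  have hp : ∀ i : Fin 2, ContDiff ℝ ((⊤ : ℕ∞) : WithTop ℕ∞) fun x : E2 => x i := fun i =>
    ((EuclideanSpace.proj (𝕜 := ℂ) i : E2 →L[ℂ] ℂ).restrictScalars ℝ).contDiff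
  rw [contDiff_iff_contDiffAt]
  intro x
  by_cases hx : x 0 = 0
  · have h1 : ∀ᶠ y : E2 in 𝓝 x, chi (y 0) = 0 := by
      have h2 : Tendsto (fun y : E2 => y 0) (𝓝 x) (𝓝 0) := by
        rw [← hx]
        exact (hp 0).continuous.continuousAt
      exact h2.eventually chi_zero_near
    refine (contDiffAt_const (c := (1:ℝ))).congr_of_eventuallyEq ?_
    filter_upwards [h1] with y hy
    rw [rho, hy]; ring
  · have hn : ‖x 0‖ ≠ 0 := norm_ne_zero_iff.2 hx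
    have hlog : ContDiffAt ℝ ((⊤ : ℕ∞) : WithTop ℕ∞) (fun y : E2 => Real.log ‖y 0‖) x := by
      have h1 : ContDiffAt ℝ ((⊤ : ℕ∞) : WithTop ℕ∞) (fun y : E2 => ‖y 0‖) x :=
        (hp 0).contDiffAt.norm ℝ hx
      exact h1.log hn
    have hexp : ContDiffAt ℝ ((⊤ : ℕ∞) : WithTop ℕ∞)
        (fun y : E2 => Complex.exp (-Complex.I * (Real.log ‖y 0‖ : ℝ))) x := by
      have he : ContDiff ℝ ((⊤ : ℕ∞) : WithTop ℕ∞) Complex.exp :=
        (Complex.contDiff_exp (𝕜 := ℂ)).restrict_scalars ℝ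
      have h2 : ContDiffAt ℝ ((⊤ : ℕ∞) : WithTop ℕ∞)
          (fun y : E2 => -Complex.I * ((Real.log ‖y 0‖ : ℝ) : ℂ)) x :=
        contDiffAt_const.mul (Complex.ofRealCLM.contDiff.contDiffAt.comp x hlog)
      exact he.contDiffAt.comp x h2
    have hre : ContDiffAt ℝ ((⊤ : ℕ∞) : WithTop ℕ∞)
        (fun y : E2 => (y 1 * Complex.exp (-Complex.I * (Real.log ‖y 0‖ : ℝ))).re) x :=
      Complex.reCLM.contDiff.contDiffAt.comp x ((hp 1).contDiffAt.mul hexp)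
    have hw : ContDiffAt ℝ ((⊤ : ℕ∞) : WithTop ℕ∞) (fun y : E2 => ‖y 1‖ ^ 2) x :=
      ((contDiff_norm_sq ℝ).comp (hp 1)).contDiffAt
    have hfl : ContDiffAt ℝ ((⊤ : ℕ∞) : WithTop ℕ∞)
        (fun y : E2 => fl (‖y 1‖ ^ 2 + (Real.log ‖y 0‖) ^ 2 / 16 - 1)) x :=
      contDiff_fl.contDiffAt.comp x ((hw.add ((hlog.pow 2).div_const 16)).sub contDiffAt_const)
    have hη : ContDiffAt ℝ ((⊤ : ℕ∞) : WithTop ℕ∞) (fun y : E2 => Q.η (y 0)) x :=
      (Q.η_smooth.comp (hp 0)).contDiffAt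
    have hchi : ContDiffAt ℝ ((⊤ : ℕ∞) : WithTop ℕ∞) (fun y : E2 => chi (y 0)) x :=
      (contDiff_chi.comp (hp 0)).contDiffAt
    exact (hchi.mul (((contDiffAt_const.mul hre).add hη).add hfl)).add (contDiffAt_const.sub hchi)

/-- Local branch of the logarithm. -/
noncomputable def LB (z₀ z : ℂ) : ℂ := Complex.log z₀ + Complex.log (z / z₀)

lemma exp_LB {z₀ z : ℂ} (h0 : z₀ ≠ 0) (h : z ≠ 0) : Complex.exp (LB z₀ z) = z := by
  rw [LB, Complex.exp_add, Complex.exp_log h0, Complex.exp_log (div_ne_zero h h0)]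
  field_simp

lemma LB_re {z₀ z : ℂ} (h0 : z₀ ≠ 0) (h : z ≠ 0) : (LB z₀ z).re = Real.log ‖z‖ := by
  have h1 : ‖Complex.exp (LB z₀ z)‖ = ‖z‖ := by rw [exp_LB h0 h]
  rw [Complex.norm_exp] at h1
  rw [← h1, Real.log_exp]

lemma LB_self {z₀ : ℂ} (h0 : z₀ ≠ 0) : LB z₀ z₀ = Complex.log z₀ := by
  rw [LB, div_self h0, Complex.log_one, add_zero]

lemma LB_im_le {z₀ z : ℂ} : |(LB z₀ z).im| ≤ 2 * Real.pi := by
  rw [LB, Complex.add_im]
  refine (abs_add_le _ _).trans ?_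
  have h1 := Complex.abs_arg_le_pi z₀
  have h2 := Complex.abs_arg_le_pi (z / z₀)
  rw [Complex.log_im, Complex.log_im]
  linarith

lemma LB_mem {z₀ z : ℂ} (h0 : z₀ ≠ 0) (h : z ≠ 0) (hs : |Real.log ‖z‖| ≤ 7) :
    LB z₀ z ∈ ball (0:ℂ) 20 := by
  rw [mem_ball_zero_iff]
  refine (Complex.norm_le_abs_re_add_abs_im _).trans_lt ?_
  rw [LB_re h0 h]
  have h1 := @LB_im_le z₀ z
  have h2 := Real.pi_lt_four
  linarith

lemma analyticAt_LB {z₀ z : ℂ} (h0 : z₀ ≠ 0) (h : z / z₀ ∈ Complex.slitPlane) :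
    AnalyticAt ℂ (LB z₀) z := by
  have h1 : AnalyticAt ℂ (fun z : ℂ => z / z₀) z := analyticAt_id.div analyticAt_const h0
  exact analyticAt_const.add (h1.clog h)

lemma line_LB {z₀ a b : ℂ} (h0 : z₀ ≠ 0) (ha : a ≠ 0) (h : a / z₀ ∈ Complex.slitPlane) :
    AnalyticAt ℂ (fun k => LB z₀ (a + k * b)) 0 ∧ HasDerivAt (fun k => LB z₀ (a + k * b)) (b / a) 0 := by
  have hA : AnalyticAt ℂ (LB z₀) (a + 0 * b) := by
    rw [zero_mul, add_zero]; exact analyticAt_LB h0 h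
  have hl : AnalyticAt ℂ (fun k : ℂ => a + k * b) 0 := by fun_prop
  have hcomp : AnalyticAt ℂ (fun k => LB z₀ (a + k * b)) 0 :=
    AnalyticAt.comp (g := LB z₀) (f := fun k : ℂ => a + k * b) hA hl
  refine ⟨hcomp, ?_⟩
  have hd1 : HasDerivAt (fun k : ℂ => (a + k * b) / z₀) (b / z₀) 0 := by
    have := (((hasDerivAt_id (0:ℂ)).mul_const b).const_add a).div_const z₀
    simpa using this
  have hd2 : HasDerivAt Complex.log ((a / z₀)⁻¹) ((a + 0 * b) / z₀) := by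
    rw [zero_mul, add_zero]; exact Complex.hasDerivAt_log h
  have hd3 := HasDerivAt.comp (h₂ := Complex.log) (h := fun k : ℂ => (a + k * b) / z₀) 0 hd2 hd1
  have hd4 := hd3.const_add (Complex.log z₀)
  have e : (a / z₀)⁻¹ * (b / z₀) = b / a := by field_simp
  rw [e] at hd4
  exact hd4

lemma line_w (a b : ℂ) :
    AnalyticAt ℂ (fun k => a + k * b) 0 ∧ HasDerivAt (fun k => a + k * b) b 0 := by
  refine ⟨by fun_prop, ?_⟩
  simpa using ((hasDerivAt_id (0:ℂ)).mul_const b).const_add a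

lemma rho_eq_rh (Q : Cheese) {z₀ : ℂ} (h0 : z₀ ≠ 0) {x : E2} (hz : x 0 ≠ 0)
    (h : |Real.log ‖x 0‖| ≤ 7) : rh Q (LB z₀ (x 0)) (x 1) = Real.exp (LB z₀ (x 0)).im * rho Q x := by
  rw [rh_eq, exp_LB h0 hz, rho_eq Q hz h]

lemma log_norm_near {x : E2} (hx : x 0 ≠ 0) {c : ℝ} (hc : |Real.log ‖x 0‖| < c) :
    ∀ᶠ y : E2 in 𝓝 x, y 0 ≠ 0 ∧ |Real.log ‖y 0‖| < c := by
  have hp : Continuous fun y : E2 => y 0 := by fun_prop
  have h1 : ∀ᶠ y : E2 in 𝓝 x, y 0 ≠ 0 := hp.continuousAt.eventually (isOpen_ne.mem_nhds hx)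
  have h2 : ContinuousAt (fun y : E2 => |Real.log ‖y 0‖|) x := by
    have : ContinuousAt (fun y : E2 => Real.log ‖y 0‖) x :=
      hp.continuousAt.norm.log (norm_ne_zero_iff.2 hx)
    exact this.abs
  exact h1.and (h2.eventually (Iio_mem_nhds hc))

end Pool.Agent.Helper303
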