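import Pool.Agent.Helper303.Domain2

set_option autoImplicit false
open Filter Topology Asymptotics Metric

namespace Pool.Agent.Helper303

lemma HasLap.hasFDerivAt {u : ℂ → ℝ} {g : ℂ} {l : ℝ} (hu : HasLap u g l) :
    HasFDerivAt u (Complex.reCLM.comp ((ContinuousLinearMap.mul ℝ ℂ) g)) 0 := by
  rw [hasFDerivAt_iff_isLittleO_nhds_zero]
  have h1 : (fun h : ℂ => ‖h‖ ^ 2) =o[𝓝 0] fun h : ℂ => h := by
    have h2 : (fun h : ℂ => ‖h‖) =o[𝓝 0] fun _ : ℂ => (1 : ℝ) := by
      rw [isLittleO_one_iff]; exact tendsto_norm_zero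
    have h3 := h2.mul_isBigO (isBigO_refl (fun h : ℂ => ‖h‖) (𝓝 0))
    refine (h3.congr_left fun h => by ring).trans_isBigO ?_
    refine IsBigO.of_bound 1 (Eventually.of_forall fun h => ?_)
    simp
  refine (hu.bigO_two.trans_isLittleO h1).congr_left fun h => ?_
  simp

lemma re_mul_eq_zero {g : ℂ} (h : Complex.reCLM.comp ((ContinuousLinearMap.mul ℝ ℂ) g) = 0) :
    g = 0 := by
  have h1 := congrArg (fun L : ℂ →L[ℝ] ℝ => L ((starRingEnd ℂ) g)) h
  simp only [ContinuousLinearMap.comp_apply, ContinuousLinearMap.mul_apply', Complex.reCLM_apply,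
    zero_apply, Complex.mul_conj, Complex.ofReal_re, Complex.normSq_eq_zero] at h1
  exact h1

lemma near_zero {x v : E2} {p : E2 → Prop} (h : ∀ᶠ y in 𝓝 x, p y) :
    ∀ᶠ k : ℂ in 𝓝 0, p (x + k • v) := by
  have h1 : Continuous fun k : ℂ => x + k • v := by fun_prop
  have h2 := h1.tendsto 0
  rw [zero_smul, add_zero] at h2
  exact h2.eventually h

lemma log_mem {z : ℂ} (hs : |Real.log ‖z‖| ≤ 7) : Complex.log z ∈ ball (0:ℂ) 20 := by
  rw [mem_ball_zero_iff]
  refine (Complex.norm_le_abs_re_add_abs_im _).trans_lt ?_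
  rw [Complex.log_re, Complex.log_im]
  have h1 := Complex.abs_arg_le_pi z
  have h2 := Real.pi_lt_four
  linarith

lemma gr_zero (Q : Cheese) {x : E2} (h0 : rho Q x = 0) (hd : fderiv ℝ (rho Q) x = 0) (α β : ℂ) :
    gr Q (Complex.log (x 0)) (x 1) α β = 0 := by
  obtain ⟨hz, -, hs, -⟩ := rho_nonpos Q h0.le
  set v : E2 := !₂[x 0 * α, β] with hv
  have hv0 : v 0 = x 0 * α := by simp [hv]
  have hv1 : v 1 = β := by simp [hv]
  have hself : x 0 / x 0 ∈ Complex.slitPlane := by rw [div_self hz]; simp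
  obtain ⟨hA, hD⟩ := line_LB (b := v 0) hz hz hself
  obtain ⟨hA', hD'⟩ := line_w (x 1) (v 1)
  have e0 : LB (x 0) (x 0 + 0 * v 0) = Complex.log (x 0) := by
    rw [zero_mul, add_zero, LB_self hz]
  have hre0 : |(LB (x 0) (x 0 + 0 * v 0)).re| < 7 := by
    rw [e0, Complex.log_re]; linarith
  obtain ⟨l, hl, -⟩ := lap_rh Q hA hA' hD hD'
    (by rw [e0]; exact log_mem (by linarith)) hre0
  have hf1 := hl.hasFDerivAt
  have hE := (hasLap_exp_im (hasTwo_of_hasDerivAt hA hD)).hasFDerivAt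
  have hR : HasFDerivAt (fun k : ℂ => rho Q (x + k • v)) (0 : ℂ →L[ℝ] ℝ) 0 := by
    have h1 : HasFDerivAt (rho Q) (0 : E2 →L[ℝ] ℝ) (x + (0:ℂ) • v) := by
      rw [zero_smul, add_zero, ← hd]
      exact ((contDiff_rho Q).differentiable (by simp) x).hasFDerivAt
    have h2 : DifferentiableAt ℝ (fun k : ℂ => x + k • v) 0 := by fun_prop
    have h3 := h1.comp (0:ℂ) h2.hasFDerivAt
    rw [ContinuousLinearMap.zero_comp] at h3
    exact h3
  have hprod := hE.mul hR
  have hzero : HasFDerivAt (fun k : ℂ => rh Q (LB (x 0) (x 0 + k * v 0)) (x 1 + k * v 1))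
      (0 : ℂ →L[ℝ] ℝ) 0 := by
    have h4 : rho Q (x + (0:ℂ) • v) = 0 := by rw [zero_smul, add_zero, h0]
    rw [h4] at hprod
    refine (hprod.congr_of_eventuallyEq ?_).congr_fderiv (by simp)
    filter_upwards [near_zero (v := v) (log_norm_near hz hs)] with k hk
    have e1 : (x + k • v) 0 = x 0 + k * v 0 := by simp
    have e2 : (x + k • v) 1 = x 1 + k * v 1 := by simp
    have h6 := rho_eq_rh Q hz hk.1 (by linarith [hk.2.le] : |Real.log ‖(x + k • v) 0‖| ≤ 7)
    rw [e1, e2] at h6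
    exact h6
  have h7 := hf1.unique hzero
  have h8 := re_mul_eq_zero h7
  rw [e0] at h8
  have e3 : v 0 / x 0 = α := by rw [hv0]; field_simp
  rw [e3, hv1, zero_mul, add_zero] at h8
  exact h8

lemma fderiv_rho_ne (Q : Cheese) {x : E2} (h0 : rho Q x = 0) : fderiv ℝ (rho Q) x ≠ 0 := by
  intro hd
  obtain ⟨hz, hP, hs, hF⟩ := rho_nonpos Q h0.le
  set ζ := Complex.log (x 0) with hζ
  set w := x 1 with hw
  have hre : ζ.re = Real.log ‖x 0‖ := Complex.log_re _
  set s := Real.log ‖x 0‖ with hsdef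
  have g1 := gr_zero Q h0 hd 0 1
  have g2 := gr_zero Q h0 hd 1 0
  rw [← hζ, ← hw] at g1 g2
  set E := Real.exp ζ.im with hE
  have hE0 : 0 < E := Real.exp_pos _
  have hEc : (E : ℂ) ≠ 0 := by exact_mod_cast hE0.ne'
  set ω := Complex.exp (-Complex.I * (s : ℂ)) with hω
  have hωn : ‖ω‖ = 1 := by
    rw [hω, neg_mul, ← mul_neg, mul_comm Complex.I, ← Complex.ofReal_neg,
      Complex.norm_exp_ofReal_mul_I]
  have hsplit : Complex.exp (-Complex.I * ζ) = (E : ℂ) * ω := by
    rw [exp_split, hre]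
  set f₁ := fl₁ (Pp ζ w) with hf₁
  set f := fl (Pp ζ w) with hf
  rw [gr, hsplit, gP] at g1 g2
  rw [hre] at g2
  simp only [mul_zero, mul_one, zero_add, add_zero, sub_zero, zero_sub] at g1 g2
  have k1 : ω = f₁ * (starRingEnd ℂ) w := by
    have : (E : ℂ) * (ω - f₁ * (starRingEnd ℂ) w) = 0 := by linear_combination (-1 / 2) * g1
    rcases mul_eq_zero.1 this with h | h
    · exact absurd h hEc
    · exact sub_eq_zero.1 h
  have k2 : f₁ * ‖w‖ = 1 := by
    have := congrArg norm k1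
    rw [hωn, norm_mul, RCLike.norm_conj, Complex.norm_real,
      Real.norm_of_nonneg (fl₁_nonneg _)] at this
    exact this.symm
  have k3 : w * ω = ((f₁ * ‖w‖ ^ 2 : ℝ) : ℂ) := by
    rw [k1, ← Complex.normSq_eq_norm_sq]
    have := Complex.mul_conj w
    push_cast
    rw [← this]; ring
  have k4 : f₁ * ‖w‖ ^ 2 = ‖w‖ := by
    rw [pow_two, ← mul_assoc, k2, one_mul]
  rw [k4] at k3
  have k5 : 2 * (Q.u ζ).re + E * (f₁ * s / 8) = 0 := by
    have h1 : (2 * Complex.I * E * (w * ω) + 2 * Q.u ζ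
        + E * (f₁ * (s / 8) - Complex.I * f) : ℂ) = 0 := by
      linear_combination g2
    rw [k3] at h1
    have h2 := congrArg Complex.re h1
    simp at h2
    linarith
  have k6 : -2 * ‖w‖ + Q.η (x 0) + f = 0 := by
    rw [hF, Fd] at h0
    have h1 : (w * Complex.exp (-Complex.I * (s : ℂ))).re = ‖w‖ := by
      rw [← hω, k3, Complex.ofReal_re]
    rw [h1] at h0
    have h2 : f = fl (‖w‖ ^ 2 + s ^ 2 / 16 - 1) := by rw [hf, Pp, hre]
    rw [h2]; exact h0
  have k7 : 9 * f ≤ f₁ := fl₁_ge _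
  have k8 := Q.η_small (x 0)
  have k9 : ‖Q.u ζ‖ ≤ e3 * E := Q.u_small ζ (log_mem (by linarith))
  have e3v : e3 = 1 / 10 ^ 8 := rfl
  have hf₁0 : 0 ≤ f₁ := fl₁_nonneg _
  -- first bound on `w`
  have m1 : ‖w‖ < 1 / 2 := by
    by_contra hcon
    push Not at hcon
    have h1 := (abs_le.1 k8).2
    have h2 : 9 * (2 * ‖w‖ - e3) ≤ f₁ := by linarith
    have h3 : 8 ≤ f₁ := by rw [e3v] at h2; norm_num at h2; linarith
    nlinarith
  have m2 : 2 < f₁ := by
    by_contra hcon
    push Not at hcon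
    nlinarith [norm_nonneg w]
  have m3 : |s| ≤ 1 := by
    have h1 : |E * (f₁ * s / 8)| ≤ 2 * (e3 * E) := by
      have h2 : E * (f₁ * s / 8) = -(2 * (Q.u ζ).re) := by linarith
      rw [h2, abs_neg, abs_mul, abs_two]
      have h3 := Complex.abs_re_le_norm (Q.u ζ)
      linarith
    rw [abs_mul, abs_of_pos hE0, abs_div, abs_mul, abs_of_nonneg hf₁0,
      abs_of_pos (by norm_num : (0:ℝ) < 8)] at h1
    have h4 : f₁ * |s| / 8 ≤ 2 * e3 := by
      have : E * (f₁ * |s| / 8) ≤ E * (2 * e3) := by linarith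
      exact le_of_mul_le_mul_left this hE0
    have h5 : 2 * |s| ≤ f₁ * |s| := mul_le_mul_of_nonneg_right m2.le (abs_nonneg s)
    rw [e3v] at h4
    norm_num at h4
    linarith
  have m4 : f₁ = 0 := by
    apply fl₁_zero
    rw [Pp, hre]
    have h1 : s ^ 2 ≤ 1 := by rw [← sq_abs]; nlinarith [abs_nonneg s]
    nlinarith [norm_nonneg w]
  rw [m4] at m2
  norm_num at m2

noncomputable def Om (Q : Cheese) : Set E2 := {x | rho Q x < 0}

lemma mem_Om (Q : Cheese) (x : E2) : x ∈ Om Q ↔ rho Q x < 0 := Iff.rfl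

lemma mem_le (Q : Cheese) (x : E2) (c : ℝ) : x ∈ {x | rho Q x ≤ c} ↔ rho Q x ≤ c := Iff.rfl

lemma continuous_rho (Q : Cheese) : Continuous (rho Q) := (contDiff_rho Q).continuous

lemma isOpen_Om (Q : Cheese) : IsOpen (Om Q) := isOpen_lt (continuous_rho Q) continuous_const

lemma closure_Om (Q : Cheese) : closure (Om Q) = {x | rho Q x ≤ 0} := by
  apply Set.Subset.antisymm
  · exact closure_minimal (fun x hx => (mem_le Q x 0).2 ((mem_Om Q x).1 hx).le)
      (isClosed_le (continuous_rho Q) continuous_const)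
  · intro x hx
    rcases ((mem_le Q x 0).1 hx).lt_or_eq with h | h
    · exact subset_closure h
    · by_contra hcon
      have h1 : ∀ᶠ y in 𝓝 x, rho Q x ≤ rho Q y := by
        filter_upwards [isClosed_closure.isOpen_compl.mem_nhds hcon] with y hy
        rw [h]
        by_contra h2
        push Not at h2
        exact hy (subset_closure h2)
      exact fderiv_rho_ne Q h (IsLocalMin.fderiv_eq_zero h1)

lemma frontier_Om (Q : Cheese) : frontier (Om Q) ⊆ {x | rho Q x = 0} := by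
  intro x hx
  rw [(isOpen_Om Q).frontier_eq, closure_Om] at hx
  have h1 := (mem_le Q x 0).1 hx.1
  have h2 : ¬ rho Q x < 0 := fun h => hx.2 ((mem_Om Q x).2 h)
  exact le_antisymm h1 (not_lt.1 h2)

lemma isBounded_le (Q : Cheese) : Bornology.IsBounded {x : E2 | rho Q x ≤ 0} := by
  refine (isBounded_iff_forall_norm_le).2 ⟨Real.exp 6 + 2, fun x hx => ?_⟩
  obtain ⟨hz, hP, hs, -⟩ := rho_nonpos Q hx
  have h1 : ‖x 0‖ ≤ Real.exp 6 := by
    rw [← Real.log_le_iff_le_exp (norm_pos_iff.2 hz)]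
    exact (le_abs_self _).trans hs.le
  have h2 : ‖x 1‖ ≤ 2 := by
    nlinarith [sq_nonneg (Real.log ‖x 0‖), norm_nonneg (x 1)]
  rw [EuclideanSpace.norm_eq, Fin.sum_univ_two]
  apply Real.sqrt_le_iff.2
  refine ⟨by positivity, ?_⟩
  nlinarith [norm_nonneg (x 0), norm_nonneg (x 1), Real.exp_pos 6]

lemma isCompact_closure_Om (Q : Cheese) : IsCompact (closure (Om Q)) := by
  rw [closure_Om]
  exact Metric.isCompact_of_isClosed_isBounded
    (isClosed_le (continuous_rho Q) continuous_const) (isBounded_le Q)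

/-- Values of the logarithmic defining function along lines. -/
lemma lap_line (Q : Cheese) {z₀ : ℂ} (h0 : z₀ ≠ 0) {a : E2} (ha : a 0 ≠ 0)
    (hs : |Real.log ‖a 0‖| < 7) (hsl : a 0 / z₀ ∈ Complex.slitPlane) (v : E2) :
    ∃ l, HasLap (fun k : ℂ => rh Q (LB z₀ ((a + k • v) 0)) ((a + k • v) 1))
      (gr Q (LB z₀ (a 0)) (a 1) (v 0 / a 0) (v 1)) l ∧
      4 * Q.mu (LB z₀ (a 0)) * ‖v 0 / a 0‖ ^ 2 + Real.exp (LB z₀ (a 0)).im *
        (4 * fl₁ (Pp (LB z₀ (a 0)) (a 1)) * ‖v 1‖ ^ 2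
        + fl (Pp (LB z₀ (a 0)) (a 1)) * ‖v 0 / a 0‖ ^ 2) ≤ l := by
  obtain ⟨hA, hD⟩ := line_LB (b := v 0) h0 ha hsl
  obtain ⟨hA', hD'⟩ := line_w (a 1) (v 1)
  have e0 : a 0 + 0 * v 0 = a 0 := by ring
  have e1 : a 1 + 0 * v 1 = a 1 := by ring
  obtain ⟨l, hl, hl2⟩ := lap_rh Q hA hA' hD hD' (by rw [e0]; exact LB_mem h0 ha hs.le)
    (by rw [e0, LB_re h0 ha]; exact hs)
  rw [e0, e1] at hl hl2
  refine ⟨l, hl.congr (Eventually.of_forall fun k => ?_), hl2⟩
  simp

/-- The exhaustion function. -/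
noncomputable def ex (Q : Cheese) (x : E2) : ℝ := -Real.log (-rho Q x)

lemma ex_psh (Q : Cheese) : PSH (Om Q) (ex Q) := by
  refine psh_of_vp ?_ ?_
  · intro x hx
    have : rho Q x < 0 := hx
    exact (((continuous_rho Q).continuousAt.neg.log (by linarith [this] : -rho Q x ≠ 0)).neg).continuousWithinAt
  · intro a ha v
    have ha' : rho Q a < 0 := ha
    obtain ⟨hz, -, hs, -⟩ := rho_nonpos Q ha'.le
    have hself : a 0 / a 0 ∈ Complex.slitPlane := by rw [div_self hz]; simp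
    obtain ⟨l, hl, hl2⟩ := lap_line Q hz hz (by linarith) hself v
    have hmu := Q.mu_nonneg _ (LB_mem (z₀ := a 0) hz hz (by linarith : |Real.log ‖a 0‖| ≤ 7))
    have hl0 : 0 ≤ l := by
      refine le_trans ?_ hl2
      have h1 := fl_nonneg (Pp (LB (a 0) (a 0)) (a 1))
      have h2 := fl₁_nonneg (Pp (LB (a 0) (a 0)) (a 1))
      positivity
    set t₀ := rh Q (LB (a 0) ((a + (0:ℂ) • v) 0)) ((a + (0:ℂ) • v) 1) with ht₀
    have ht : t₀ < 0 := by
      rw [ht₀, zero_smul, add_zero, rho_eq_rh Q hz hz (by linarith)]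
      exact mul_neg_of_pos_of_neg (Real.exp_pos _) ha'
    have hcomp := hl.comp (F := fun t => -Real.log (-t)) (F₁ := -t₀⁻¹) (F₂ := (t₀ ^ 2)⁻¹) (by
      refine taylor_two_real (F := fun t => -Real.log (-t)) (F' := fun t => -t⁻¹) (x := t₀)
        (F₂ := (t₀ ^ 2)⁻¹) ?_ ?_
      · filter_upwards [Iio_mem_nhds ht] with t ht'
        have ht'' : -t ≠ 0 := by
          have : t < 0 := ht'
          linarith
        have h1 := ((hasDerivAt_neg t).log ht'').neg
        refine h1.congr_deriv ?_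
        have : t ≠ 0 := by
          have : t < 0 := ht'
          exact this.ne
        field_simp
      · have h1 := (hasDerivAt_inv ht.ne).neg
        refine h1.congr_deriv ?_
        rw [neg_neg])
    obtain ⟨hA, hD⟩ := line_LB (b := v 0) hz hz hself
    have him := (hasTwo_of_hasDerivAt hA hD).im
    have hfin := (hcomp.add him).vsub (by
      have h1 : 0 ≤ -t₀⁻¹ := by
        have := inv_neg''.2 ht
        linarith
      have h2 : 0 ≤ (t₀ ^ 2)⁻¹ := by positivity
      positivity)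
    refine hfin.congr ?_
    filter_upwards [near_zero (v := v) (log_norm_near hz hs),
      near_zero (v := v) ((continuous_rho Q).continuousAt.eventually (Iio_mem_nhds ha'))] with k hk hk2
    have h6 := rho_eq_rh Q hz hk.1 (by linarith [hk.2.le] : |Real.log ‖(a + k • v) 0‖| ≤ 7)
    rw [h6]
    have hneg : 0 < -rho Q (a + k • v) := by
      have : rho Q (a + k • v) < 0 := hk2
      linarith
    have e1 : (a + k • v) 0 = a 0 + k * v 0 := by simp
    rw [← mul_neg, Real.log_mul (Real.exp_pos _).ne' hneg.ne', Real.log_exp, ex, e1]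
    ring

lemma ex_compact (Q : Cheese) (c : ℝ) : IsCompact {x | x ∈ Om Q ∧ ex Q x ≤ c} := by
  have h1 : {x | x ∈ Om Q ∧ ex Q x ≤ c} = {x | rho Q x ≤ -Real.exp (-c)} := by
    ext x
    simp only [Set.mem_ofPred_eq, Om, ex]
    constructor
    · rintro ⟨h1, h2⟩
      have h3 : -c ≤ Real.log (-rho Q x) := by linarith
      rw [Real.le_log_iff_exp_le (by linarith)] at h3
      linarith
    · intro h
      have h0 := Real.exp_pos (-c)
      refine ⟨by linarith, ?_⟩
      have h3 : -c ≤ Real.log (-rho Q x) := by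
        rw [Real.le_log_iff_exp_le (by linarith)]; linarith
      linarith
  rw [h1]
  refine Metric.isCompact_of_isClosed_isBounded (isClosed_le (continuous_rho Q) continuous_const) ?_
  refine (isBounded_le Q).subset fun x hx => ?_
  have h0 := Real.exp_pos (-c)
  have : rho Q x ≤ -Real.exp (-c) := hx
  show rho Q x ≤ 0
  linarith

end Pool.Agent.Helper303
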