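import Pool.Agent.Helper303.Lap2

set_option autoImplicit false
open Filter Topology Asymptotics

namespace Pool.Agent.Helper303

/-- Second order Taylor expansion of a real function. -/
lemma taylor_two_real {F F' : ℝ → ℝ} {x F₂ : ℝ} (h1 : ∀ᶠ y in 𝓝 x, HasDerivAt F (F' y) y)
    (h2 : HasDerivAt F' F₂ x) :
    (fun t : ℝ => F (x + t) - F x - F' x * t - F₂ / 2 * t ^ 2) =o[𝓝 0] fun t : ℝ => t ^ 2 := by
  rw [isLittleO_iff]
  intro ε hε
  have h3 := (hasDerivAt_iff_isLittleO_nhds_zero.1 h2).bound hε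
  have h1' : ∀ᶠ t : ℝ in 𝓝 0, HasDerivAt F (F' (x + t)) (x + t) := by
    have : Tendsto (fun t : ℝ => x + t) (𝓝 0) (𝓝 x) := by
      have : Continuous fun t : ℝ => x + t := by fun_prop
      simpa using this.tendsto 0
    exact this.eventually h1
  have h4 := h3.and h1'
  rw [Metric.eventually_nhds_iff_ball] at h4
  obtain ⟨δ, hδ, H⟩ := h4
  filter_upwards [Metric.ball_mem_nhds (0 : ℝ) hδ] with t ht
  have ht' : |t| < δ := by simpa using ht
  have hseg : ∀ s ∈ Set.Icc (0:ℝ) 1, s * t ∈ Metric.ball (0:ℝ) δ := by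
    intro s hs
    rw [mem_ball_zero_iff, Real.norm_eq_abs, abs_mul, abs_of_nonneg hs.1]
    nlinarith [abs_nonneg t, hs.2]
  have key := norm_image_sub_le_of_norm_deriv_le_segment_01'
    (f := fun s : ℝ => F (x + s * t) - s * (F' x * t) - s ^ 2 * (F₂ / 2 * t ^ 2))
    (f' := fun s : ℝ => F' (x + s * t) * t - F' x * t - (2 * s) * (F₂ / 2 * t ^ 2))
    (C := ε * t ^ 2) ?_ ?_
  · simp only [one_mul, zero_mul, add_zero, one_pow, ne_eq, OfNat.ofNat_ne_zero, not_false_eq_true,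
      zero_pow, sub_zero] at key
    rw [Real.norm_of_nonneg (sq_nonneg t)]
    refine le_trans (le_of_eq ?_) key
    congr 1
    ring
  · intro s hs
    apply HasDerivAt.hasDerivWithinAt
    have hd := (H _ (hseg s hs)).2
    have e1 : HasDerivAt (fun s : ℝ => F (x + s * t)) (F' (x + s * t) * t) s := by
      have e2 : HasDerivAt (fun s : ℝ => x + s * t) t s := by
        simpa using ((hasDerivAt_id s).mul_const t).const_add x
      exact hd.comp s e2
    have e3 : HasDerivAt (fun s : ℝ => s * (F' x * t)) (F' x * t) s := by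
      simpa using (hasDerivAt_id s).mul_const (F' x * t)
    have e4 : HasDerivAt (fun s : ℝ => s ^ 2 * (F₂ / 2 * t ^ 2)) ((2 * s) * (F₂ / 2 * t ^ 2)) s := by
      simpa using (hasDerivAt_pow 2 s).mul_const (F₂ / 2 * t ^ 2)
    exact (e1.sub e3).sub e4
  · intro s hs
    have hb := (H _ (hseg s (Set.Ico_subset_Icc_self hs))).1
    have : F' (x + s * t) * t - F' x * t - (2 * s) * (F₂ / 2 * t ^ 2)
        = (F' (x + s * t) - F' x - (s * t) * F₂) * t := by ring
    rw [this, norm_mul]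
    simp only [smul_eq_mul] at hb
    have h5 : ‖s * t‖ ≤ ‖t‖ := by
      rw [norm_mul, Real.norm_of_nonneg hs.1]
      nlinarith [norm_nonneg t, hs.2]
    calc ‖F' (x + s * t) - F' x - (s * t) * F₂‖ * ‖t‖ ≤ (ε * ‖s * t‖) * ‖t‖ := by gcongr
      _ ≤ (ε * ‖t‖) * ‖t‖ := by gcongr
      _ = ε * t ^ 2 := by rw [mul_assoc, ← pow_two, Real.norm_eq_abs, sq_abs]

/-- Second order expansion of a function on the plane from its differential. -/
lemma hasLap_of_fderiv {F : ℂ → ℝ} {u : ℂ → ℂ} {x α β : ℂ}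
    (h1 : ∀ᶠ y in 𝓝 x, HasFDerivAt F (Complex.reCLM.comp
      ((ContinuousLinearMap.mul ℝ ℂ) (2 * u y))) y)
    (h2 : (fun k : ℂ => u (x + k) - u x - (α * k + β * (starRingEnd ℂ) k)) =o[𝓝 0] fun k => k) :
    HasLap (fun k => F (x + k)) (2 * u x) (4 * β.re) := by
  refine ⟨α, ?_⟩
  rw [isLittleO_iff]
  intro ε hε
  have h3 := h2.bound (half_pos hε)
  have h1' : ∀ᶠ t : ℂ in 𝓝 0, HasFDerivAt F (Complex.reCLM.comp
      ((ContinuousLinearMap.mul ℝ ℂ) (2 * u (x + t)))) (x + t) := by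
    have : Tendsto (fun t : ℂ => x + t) (𝓝 0) (𝓝 x) := by
      have : Continuous fun t : ℂ => x + t := by fun_prop
      simpa using this.tendsto 0
    exact this.eventually h1
  have h4 := h3.and h1'
  rw [Metric.eventually_nhds_iff_ball] at h4
  obtain ⟨δ, hδ, H⟩ := h4
  filter_upwards [Metric.ball_mem_nhds (0 : ℂ) hδ] with k hk
  have hk' : ‖k‖ < δ := by simpa using hk
  have hseg : ∀ s ∈ Set.Icc (0:ℝ) 1, (s : ℂ) * k ∈ Metric.ball (0:ℂ) δ := by
    intro s hs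
    rw [mem_ball_zero_iff, norm_mul, Complex.norm_real, Real.norm_of_nonneg hs.1]
    nlinarith [norm_nonneg k, hs.2]
  have key := norm_image_sub_le_of_norm_deriv_le_segment_01'
    (f := fun s : ℝ => F (x + s * k) - s * (2 * u x * k).re
      - s ^ 2 * ((α * k + β * (starRingEnd ℂ) k) * k).re)
    (f' := fun s : ℝ => (2 * u (x + s * k) * k).re - (2 * u x * k).re
      - (2 * s) * ((α * k + β * (starRingEnd ℂ) k) * k).re)
    (C := ε * ‖k‖ ^ 2) ?_ ?_
  · simp only [one_mul, zero_mul, Complex.ofReal_zero, Complex.ofReal_one, add_zero, one_pow, ne_eq,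
      OfNat.ofNat_ne_zero, not_false_eq_true, zero_pow, sub_zero] at key
    rw [Real.norm_of_nonneg (sq_nonneg ‖k‖)]
    refine le_trans (le_of_eq ?_) key
    congr 1
    have e1 : ((α * k + β * (starRingEnd ℂ) k) * k).re = β.re * ‖k‖ ^ 2 + (α * k ^ 2).re := by
      have e2 : (α * k + β * (starRingEnd ℂ) k) * k = β * ((Complex.normSq k : ℝ) : ℂ) + α * k ^ 2 := by
        rw [Complex.normSq_eq_conj_mul_self]; ring
      rw [e2, Complex.add_re, Complex.re_mul_ofReal, Complex.normSq_eq_norm_sq]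
    rw [e1, add_zero]
    ring
  · intro s hs
    apply HasDerivAt.hasDerivWithinAt
    have hd := (H _ (hseg s hs)).2
    have e1 : HasDerivAt (fun s : ℝ => F (x + s * k)) ((2 * u (x + s * k) * k).re) s := by
      have e2 : HasDerivAt (fun s : ℝ => x + (s : ℂ) * k) k s := by
        have := ((Complex.ofRealCLM.hasDerivAt (x := s)).mul_const k).const_add x
        simpa using this
      exact hd.comp_hasDerivAt s e2
    have e3 : HasDerivAt (fun s : ℝ => s * (2 * u x * k).re) ((2 * u x * k).re) s := by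
      simpa using (hasDerivAt_id s).mul_const ((2 * u x * k).re)
    have e4 : HasDerivAt (fun s : ℝ => s ^ 2 * ((α * k + β * (starRingEnd ℂ) k) * k).re)
        ((2 * s) * ((α * k + β * (starRingEnd ℂ) k) * k).re) s := by
      simpa using (hasDerivAt_pow 2 s).mul_const (((α * k + β * (starRingEnd ℂ) k) * k).re)
    exact (e1.sub e3).sub e4
  · intro s hs
    have hb := (H _ (hseg s (Set.Ico_subset_Icc_self hs))).1
    have e5 : (2 * u (x + s * k) * k).re - (2 * u x * k).re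
        - (2 * s) * ((α * k + β * (starRingEnd ℂ) k) * k).re
        = (2 * (u (x + s * k) - u x - (α * (s * k) + β * (starRingEnd ℂ) (s * k))) * k).re := by
      have e6 : 2 * (u (x + s * k) - u x - (α * (s * k) + β * (starRingEnd ℂ) (s * k))) * k
          = 2 * u (x + s * k) * k - 2 * u x * k
            - ((2 * s : ℝ) : ℂ) * ((α * k + β * (starRingEnd ℂ) k) * k) := by
        rw [map_mul, Complex.conj_ofReal]; push_cast; ring
      rw [e6, Complex.sub_re, Complex.sub_re, Complex.re_ofReal_mul]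
    rw [e5]
    have h5 : ‖(s : ℂ) * k‖ ≤ ‖k‖ := by
      rw [norm_mul, Complex.norm_real, Real.norm_of_nonneg hs.1]
      nlinarith [norm_nonneg k, hs.2]
    calc ‖(2 * (u (x + s * k) - u x - (α * (s * k) + β * (starRingEnd ℂ) (s * k))) * k).re‖
        ≤ ‖2 * (u (x + s * k) - u x - (α * (s * k) + β * (starRingEnd ℂ) (s * k))) * k‖ :=
          Complex.abs_re_le_norm _
      _ = 2 * ‖u (x + s * k) - u x - (α * (s * k) + β * (starRingEnd ℂ) (s * k))‖ * ‖k‖ := by
          rw [norm_mul, norm_mul]; simp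
      _ ≤ 2 * (ε / 2 * ‖(s : ℂ) * k‖) * ‖k‖ := by gcongr
      _ ≤ 2 * (ε / 2 * ‖k‖) * ‖k‖ := by gcongr
      _ = ε * ‖k‖ ^ 2 := by ring

/-- The flat convex function. -/
noncomputable def fl (x : ℝ) : ℝ := Real.exp (9 * x) * expNegInvGlue x

noncomputable def fl₁ (x : ℝ) : ℝ := Real.exp (9 * x) * ((9 + x⁻¹ ^ 2) * expNegInvGlue x)

noncomputable def fl₂ (x : ℝ) : ℝ :=
  Real.exp (9 * x) * ((81 + 18 * x⁻¹ ^ 2 - 2 * x⁻¹ ^ 3 + x⁻¹ ^ 4) * expNegInvGlue x)

lemma contDiff_fl : ContDiff ℝ ((⊤ : ℕ∞) : WithTop ℕ∞) fl :=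
  (Real.contDiff_exp.comp (contDiff_const.mul contDiff_id)).mul expNegInvGlue.contDiff

lemma hasDerivAt_fl (x : ℝ) : HasDerivAt fl (fl₁ x) x := by
  have h1 := expNegInvGlue.hasDerivAt_polynomial_eval_inv_mul 1 x
  have h2 : HasDerivAt (fun x : ℝ => Real.exp (9 * x)) (Real.exp (9 * x) * 9) x := by
    simpa using ((hasDerivAt_id x).const_mul 9).exp
  have h3 := h2.mul h1
  simp only [Polynomial.eval_one, one_mul, Polynomial.derivative_one, sub_zero, mul_one,
    Polynomial.eval_pow, Polynomial.eval_X] at h3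
  have e : fl₁ x = Real.exp (9 * x) * 9 * expNegInvGlue x
      + Real.exp (9 * x) * (x⁻¹ ^ 2 * expNegInvGlue x) := by
    rw [fl₁]; ring
  rw [e]
  exact h3

lemma hasDerivAt_fl₁ (x : ℝ) : HasDerivAt fl₁ (fl₂ x) x := by
  have h1 := expNegInvGlue.hasDerivAt_polynomial_eval_inv_mul (Polynomial.C 9 + Polynomial.X ^ 2) x
  have h2 : HasDerivAt (fun x : ℝ => Real.exp (9 * x)) (Real.exp (9 * x) * 9) x := by
    simpa using ((hasDerivAt_id x).const_mul 9).exp
  have h3 := h2.mul h1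
  simp only [Polynomial.eval_add, Polynomial.eval_mul, Polynomial.eval_sub, Polynomial.eval_C,
    Polynomial.eval_pow, Polynomial.eval_X, Polynomial.derivative_add, Polynomial.derivative_C,
    Polynomial.derivative_X_pow, zero_add] at h3
  have e : fl₂ x = Real.exp (9 * x) * 9 * ((9 + x⁻¹ ^ 2) * expNegInvGlue x) +
      Real.exp (9 * x) * (x⁻¹ ^ 2 * (9 + x⁻¹ ^ 2 - (2 : ℕ) * x⁻¹ ^ (2 - 1)) * expNegInvGlue x) := by
    rw [fl₂]
    norm_num
    ring
  rw [e]
  exact h3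

lemma fl_taylor (x : ℝ) :
    (fun t : ℝ => fl (x + t) - fl x - fl₁ x * t - fl₂ x / 2 * t ^ 2) =o[𝓝 0]
      fun t : ℝ => t ^ 2 :=
  taylor_two_real (Eventually.of_forall hasDerivAt_fl) (hasDerivAt_fl₁ x)

lemma fl_zero {x : ℝ} (hx : x ≤ 0) : fl x = 0 := by
  rw [fl, expNegInvGlue.zero_of_nonpos hx, mul_zero]

lemma fl₁_zero {x : ℝ} (hx : x ≤ 0) : fl₁ x = 0 := by
  rw [fl₁, expNegInvGlue.zero_of_nonpos hx, mul_zero, mul_zero]

lemma fl₂_zero {x : ℝ} (hx : x ≤ 0) : fl₂ x = 0 := by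
  rw [fl₂, expNegInvGlue.zero_of_nonpos hx, mul_zero, mul_zero]

lemma fl_nonneg (x : ℝ) : 0 ≤ fl x := mul_nonneg (Real.exp_pos _).le (expNegInvGlue.nonneg x)

lemma fl_pos {x : ℝ} (hx : 0 < x) : 0 < fl x := mul_pos (Real.exp_pos _) (expNegInvGlue.pos_of_pos hx)

lemma fl₁_ge (x : ℝ) : 9 * fl x ≤ fl₁ x := by
  have h1 := expNegInvGlue.nonneg x
  have h2 := (Real.exp_pos (9 * x)).le
  have h3 : fl₁ x - 9 * fl x = Real.exp (9 * x) * (x⁻¹ ^ 2 * expNegInvGlue x) := by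
    rw [fl₁, fl]; ring
  have h4 : 0 ≤ Real.exp (9 * x) * (x⁻¹ ^ 2 * expNegInvGlue x) := by positivity
  linarith

lemma fl₁_nonneg (x : ℝ) : 0 ≤ fl₁ x := le_trans (by have := fl_nonneg x; positivity) (fl₁_ge x)

lemma fl₁_pos {x : ℝ} (hx : 0 < x) : 0 < fl₁ x :=
  lt_of_lt_of_le (by have := fl_pos hx; positivity) (fl₁_ge x)

lemma fl₂_ge (x : ℝ) : 8 * fl₁ x ≤ fl₂ x := by
  have h1 := expNegInvGlue.nonneg x
  have h2 := (Real.exp_pos (9 * x)).le
  have h3 : fl₂ x - 8 * fl₁ x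
      = Real.exp (9 * x) * ((9 + x⁻¹ ^ 2 * (9 + (x⁻¹ - 1) ^ 2)) * expNegInvGlue x) := by
    rw [fl₁, fl₂]; ring
  have h4 : 0 ≤ Real.exp (9 * x) * ((9 + x⁻¹ ^ 2 * (9 + (x⁻¹ - 1) ^ 2)) * expNegInvGlue x) := by
    positivity
  linarith

lemma fl_ge {x : ℝ} (hx : 1 ≤ x) : 9 * x ≤ fl x := by
  have h0 : (0:ℝ) < x := by linarith
  rw [fl, expNegInvGlue, if_neg (not_le.2 h0), ← Real.exp_add]
  have h1 : x⁻¹ ≤ 1 := inv_le_one_of_one_le₀ hx
  have h2 := Real.add_one_le_exp (9 * x + -x⁻¹)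
  linarith

end Pool.Agent.Helper303
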