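import Mathlib

open Complex Set Metric Topology
open scoped Pointwise

namespace Pool.Agent.Helper303.Wind

noncomputable section

/-- continuous periodic logarithm -/
def HasLog (F : ℝ → ℂ) : Prop :=
  ∃ L : ℝ → ℂ, Continuous L ∧ (∀ θ, L (θ + 2 * Real.pi) = L θ) ∧ ∀ θ, Complex.exp (L θ) = F θ

lemma slit_of_near {z : ℂ} (h : ‖z - 1‖ < 1) : z ∈ Complex.slitPlane := by
  left
  have h1 : |(z - 1).re| ≤ ‖z - 1‖ := Complex.abs_re_le_norm _
  have h2 := abs_lt.mp (lt_of_le_of_lt h1 h)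
  simp at h2
  linarith [h2.1]

lemma HasLog.near {F G : ℝ → ℂ} (hF : HasLog F) (hG : Continuous G)
    (hGp : ∀ θ, G (θ + 2 * Real.pi) = G θ) (h : ∀ θ, ‖G θ - F θ‖ < ‖F θ‖) : HasLog G := by
  obtain ⟨L, hL, hLp, hLe⟩ := hF
  have hFc : Continuous F := by
    have : F = fun θ => Complex.exp (L θ) := by funext θ; rw [hLe]
    rw [this]; fun_prop
  have hF0 : ∀ θ, F θ ≠ 0 := fun θ => by rw [← hLe]; exact Complex.exp_ne_zero _
  have hs : ∀ θ, G θ / F θ ∈ Complex.slitPlane := by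
    intro θ
    apply slit_of_near
    have : G θ / F θ - 1 = (G θ - F θ) / F θ := by field_simp [hF0 θ]
    rw [this, norm_div]
    rw [div_lt_one (norm_pos_iff.mpr (hF0 θ))]
    exact h θ
  refine ⟨fun θ => L θ + Complex.log (G θ / F θ), ?_, ?_, ?_⟩
  · apply hL.add
    exact (hG.div hFc hF0).clog hs
  · intro θ
    have hFp : F (θ + 2 * Real.pi) = F θ := by rw [← hLe, ← hLe, hLp]
    simp only [hLp, hGp, hFp]
  · intro θ
    rw [Complex.exp_add, hLe, Complex.exp_log (Complex.slitPlane_ne_zero (hs θ))]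
    field_simp [hF0 θ]

lemma HasLog.homotopy (H : ℝ → ℝ → ℂ) (hc : Continuous (fun p : ℝ × ℝ => H p.1 p.2))
    (hp : ∀ t θ, H t (θ + 2 * Real.pi) = H t θ)
    (h0 : ∀ t θ, 0 ≤ t → t ≤ 1 → H t θ ≠ 0) (hl : HasLog (H 0)) : HasLog (H 1) := by
  set K : Set (ℝ × ℝ) := Icc (0 : ℝ) 1 ×ˢ Icc (0 : ℝ) (2 * Real.pi) with hK
  have hKc : IsCompact K := isCompact_Icc.prod isCompact_Icc
  have hKne : K.Nonempty := ⟨(0, 0), by simp [hK, Real.pi_nonneg]⟩
  obtain ⟨p0, hp0, hmin⟩ := hKc.exists_isMinOn hKne (hc.norm.continuousOn)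
  set m := ‖H p0.1 p0.2‖ with hm
  have hmpos : 0 < m := norm_pos_iff.mpr (h0 _ _ hp0.1.1 hp0.1.2)
  have hu := hKc.uniformContinuousOn_of_continuous hc.continuousOn
  rw [Metric.uniformContinuousOn_iff] at hu
  obtain ⟨δ, hδ, hδ'⟩ := hu m hmpos
  obtain ⟨N, hN⟩ := exists_nat_one_div_lt hδ
  have key : ∀ k : ℕ, k ≤ N + 1 → HasLog (H ((k : ℝ) / (N + 1))) := by
    intro k
    induction k with
    | zero => intro _; simpa using hl
    | succ k ih =>
      intro hk
      have ih' := ih (by omega)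
      have hN1 : (0 : ℝ) < (N : ℝ) + 1 := by positivity
      have hk1 : ((k : ℝ) + 1) ≤ (N : ℝ) + 1 := by exact_mod_cast hk
      apply ih'.near
      · have : Continuous (fun θ : ℝ => ((((k + 1 : ℕ) : ℝ) / ((N : ℝ) + 1), θ) : ℝ × ℝ)) := by fun_prop
        exact hc.comp this
      · intro θ; exact hp _ _
      · intro θ
        obtain ⟨y, hy, hy'⟩ := (show Function.Periodic (fun θ => (H (((k + 1 : ℕ) : ℝ) / (N + 1)) θ, H ((k : ℝ) / (N + 1)) θ)) (2 * Real.pi) from fun θ => by simp only [hp]).exists_mem_Ico₀ (by positivity) θ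
        simp only [Prod.mk.injEq] at hy'
        rw [hy'.1, hy'.2]
        have hA : (((k + 1 : ℕ) : ℝ) / (N + 1), y) ∈ K := by
          refine ⟨⟨by positivity, ?_⟩, hy.1, hy.2.le⟩
          simp only
          rw [div_le_one hN1]; push_cast; exact hk1
        have hB : ((k : ℝ) / (N + 1), y) ∈ K := by
          refine ⟨⟨by positivity, ?_⟩, hy.1, hy.2.le⟩
          simp only
          rw [div_le_one hN1]; linarith
        have hd : dist ((((k + 1 : ℕ) : ℝ) / (N + 1), y) : ℝ × ℝ) ((k : ℝ) / (N + 1), y) < δ := by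
          rw [Prod.dist_eq]
          simp only [dist_self]
          rw [Real.dist_eq]
          have : ((k + 1 : ℕ) : ℝ) / (N + 1) - (k : ℝ) / (N + 1) = 1 / (N + 1) := by
            push_cast; field_simp; ring
          rw [this, abs_of_pos (by positivity)]
          exact max_lt hN hδ
        have h1 := hδ' _ hA _ hB hd
        rw [dist_eq_norm] at h1
        exact lt_of_lt_of_le h1 (hmin hB)
  have := key (N + 1) le_rfl
  have h1 : (((N + 1 : ℕ) : ℝ) / ((N : ℝ) + 1)) = 1 := by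
    push_cast; field_simp
  rwa [h1] at this

lemma const_of_exp_const (D : ℝ → ℂ) (hD : Continuous D) (ζ : ℂ) (h : ∀ θ, Complex.exp (D θ) = ζ)
    (a b : ℝ) : D a = D b := by
  have h1 : ∀ θ, ∃ n : ℤ, D θ = D 0 + n * (2 * Real.pi * Complex.I) := by
    intro θ
    exact Complex.exp_eq_exp_iff_exists_int.mp ((h θ).trans (h 0).symm)
  choose n hn using h1
  have hnc : Continuous n := by
    rw [Int.isClosedEmbedding_coe_real.isEmbedding.continuous_iff]
    have : (((↑) : ℤ → ℝ) ∘ n) = fun θ => ((D θ - D 0) / (2 * Real.pi * Complex.I)).re := by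
      funext θ
      rw [hn θ]
      have hpi : (2 * Real.pi * Complex.I : ℂ) ≠ 0 := by
        simp [Real.pi_ne_zero]
      rw [add_sub_cancel_left, mul_div_assoc, div_self hpi]
      simp
    rw [this]
    fun_prop
  have : n a = n b := PreconnectedSpace.constant inferInstance hnc
  rw [hn a, hn b, this]

lemma HasLog.rot {F : ℝ → ℂ} (hF : HasLog F) (k : ℕ) (hk : 0 < k) (ζ : ℂ)
    (h : ∀ θ, F (θ + 2 * Real.pi / k) = ζ * F θ) : ζ = 1 := by
  obtain ⟨L, hL, hLp, hLe⟩ := hF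
  have hF0 : ∀ θ, F θ ≠ 0 := fun θ => by rw [← hLe]; exact Complex.exp_ne_zero _
  have hD : ∀ θ, Complex.exp (L (θ + 2 * Real.pi / k) - L θ) = ζ := by
    intro θ
    rw [Complex.exp_sub, hLe, hLe, h]
    field_simp [hF0 θ]
  have hc := const_of_exp_const (fun θ => L (θ + 2 * Real.pi / k) - L θ) (by fun_prop) ζ hD
  have hsum : ∀ j : ℕ, L (j * (2 * Real.pi / k)) = L 0 + j * (L (0 + 2 * Real.pi / k) - L 0) := by
    intro j
    induction j with
    | zero => simp
    | succ j ih =>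
      have := hc (j * (2 * Real.pi / k)) 0
      have e : (((j + 1 : ℕ) : ℝ) * (2 * Real.pi / k)) = j * (2 * Real.pi / k) + 2 * Real.pi / k := by
        push_cast; ring
      rw [e]
      have : L (j * (2 * Real.pi / k) + 2 * Real.pi / k) = L (j * (2 * Real.pi / k)) + (L (0 + 2 * Real.pi / k) - L 0) := by
        rw [← this]; ring
      rw [this, ih]; push_cast; ring
  have h2 := hsum k
  have hk' : (k : ℝ) ≠ 0 := by exact_mod_cast hk.ne'
  have e : ((k : ℝ) * (2 * Real.pi / k)) = 0 + 2 * Real.pi := by field_simp; ring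
  rw [e, hLp] at h2
  have h3 : L (0 + 2 * Real.pi / k) - L 0 = 0 := by
    have hkc : (k : ℂ) ≠ 0 := by exact_mod_cast hk.ne'
    have : (k : ℂ) * (L (0 + 2 * Real.pi / k) - L 0) = 0 := by linear_combination -h2
    exact (mul_eq_zero.mp this).resolve_left hkc
  rw [← hD 0, h3, Complex.exp_zero]

lemma HasLog.of_re_pos {F : ℝ → ℂ} (hF : Continuous F) (hp : ∀ θ, F (θ + 2 * Real.pi) = F θ)
    (h : ∀ θ, 0 < (F θ).re) : HasLog F := by
  refine ⟨fun θ => Complex.log (F θ), hF.clog (fun θ => Or.inl (h θ)), ?_, ?_⟩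
  · intro θ; simp only [hp]
  · intro θ
    apply Complex.exp_log
    intro h0
    have := h θ
    rw [h0] at this
    simp at this

/-- the value triple as a point of the plane; zero iff all three agree -/
def Fv (a b c : ℝ) : ℂ := ⟨a - (b + c) / 2, b - c⟩

lemma Fv_ne {a b c : ℝ} (h : ¬ (a = b ∧ b = c)) : Fv a b c ≠ 0 := by
  intro h0
  apply h
  have h1 := congrArg Complex.re h0
  have h2 := congrArg Complex.im h0
  simp [Fv] at h1 h2
  constructor <;> linarith

lemma Fv_cont {X : Type*} [TopologicalSpace X] {a b c : X → ℝ} (ha : Continuous a) (hb : Continuous b)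
    (hc : Continuous c) : Continuous (fun x => Fv (a x) (b x) (c x)) := by
  have : (fun x => Fv (a x) (b x) (c x)) =
      fun x => (((a x - (b x + c x) / 2 : ℝ) : ℂ) + ((b x - c x : ℝ) : ℂ) * Complex.I) := by
    funext x
    apply Complex.ext <;> simp [Fv]
  rw [this]
  fun_prop

end

end Pool.Agent.Helper303.Wind

namespace Pool.Agent.Helper303.Wind

noncomputable section

def Phi (g : ℂ → ℝ) (W1 W2 q : ℂ) (θ : ℝ) : ℂ :=
  Fv (g q) (g (q + Complex.exp (θ * Complex.I) * W1)) (g (q + Complex.exp (θ * Complex.I) * W2))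

lemma exp_periodic (θ : ℝ) : Complex.exp (((θ + 2 * Real.pi : ℝ) : ℂ) * Complex.I) =
    Complex.exp (θ * Complex.I) := by
  rw [Complex.exp_eq_exp_iff_exists_int]
  exact ⟨1, by push_cast; ring⟩

lemma Phi_periodic (g : ℂ → ℝ) (W1 W2 q : ℂ) (θ : ℝ) :
    Phi g W1 W2 q (θ + 2 * Real.pi) = Phi g W1 W2 q θ := by
  unfold Phi
  rw [exp_periodic]

lemma Phi_cont {X : Type*} [TopologicalSpace X] {g : ℂ → ℝ} (hg : Continuous g) (W1 W2 : ℂ)
    {q : X → ℂ} {θ : X → ℝ} (hq : Continuous q) (hθ : Continuous θ) :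
    Continuous (fun x => Phi g W1 W2 (q x) (θ x)) := by
  unfold Phi
  apply Fv_cont
  · exact hg.comp hq
  · exact hg.comp (by fun_prop)
  · exact hg.comp (by fun_prop)

/-- data : K closed, g negative exactly off K, no common level triangle in K -/
structure NoSol (K : Set ℂ) (g : ℂ → ℝ) (W1 W2 : ℂ) : Prop where
  neg : ∀ x, x ∉ K → g x < 0
  nonneg : ∀ x, x ∈ K → 0 ≤ g x
  ns : ∀ (q : ℂ) (θ : ℝ), q ∈ K → q + Complex.exp (θ * Complex.I) * W1 ∈ K →
    q + Complex.exp (θ * Complex.I) * W2 ∈ K →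
    ¬ (g q = g (q + Complex.exp (θ * Complex.I) * W1) ∧
      g (q + Complex.exp (θ * Complex.I) * W1) = g (q + Complex.exp (θ * Complex.I) * W2))

lemma NoSol.mem {K : Set ℂ} {g : ℂ → ℝ} {W1 W2 : ℂ} (h : NoSol K g W1 W2) {x : ℂ} (hx : 0 ≤ g x) :
    x ∈ K := by
  by_contra hc
  exact absurd (h.neg x hc) (not_lt.mpr hx)

lemma NoSol.ne {K : Set ℂ} {g : ℂ → ℝ} {W1 W2 : ℂ} (h : NoSol K g W1 W2) (q : ℂ) (θ : ℝ)
    (hq : q ∈ K ∨ q + Complex.exp (θ * Complex.I) * W1 ∈ K ∨
      q + Complex.exp (θ * Complex.I) * W2 ∈ K) : Phi g W1 W2 q θ ≠ 0 := by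
  apply Fv_ne
  rintro ⟨h1, h2⟩
  have h0 : 0 ≤ g q := by
    rcases hq with hq | hq | hq
    · exact h.nonneg _ hq
    · rw [h1]; exact h.nonneg _ hq
    · rw [h1, h2]; exact h.nonneg _ hq
  exact h.ns q θ (h.mem h0) (h.mem (h1 ▸ h0)) (h.mem (h2 ▸ h1 ▸ h0)) ⟨h1, h2⟩

lemma propB (W : Set ℂ) (hWo : IsOpen W) (hWc : IsPreconnected W) (hWb : IsCompact (closure W))
    (g : ℂ → ℝ) (hg : Continuous g) (hgF : ∀ x ∈ closure W, x ∉ W → g x = 0)
    (hpos : ∃ x ∈ W, 0 < g x) (W1 W2 : ℂ) (hns : NoSol (closure W) g W1 W2) (q1 : ℂ) (hq1 : q1 ∈ W) :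
    HasLog (Phi g W1 W2 q1) := by
  obtain ⟨x0, hx0, hx0'⟩ := hpos
  obtain ⟨q0, hq0, hmax⟩ := hWb.exists_isMaxOn ⟨x0, subset_closure hx0⟩ hg.continuousOn
  have hq0pos : 0 < g q0 := lt_of_lt_of_le hx0' (hmax (subset_closure hx0))
  have hq0W : q0 ∈ W := by
    by_contra hc
    exact absurd (hgF q0 hq0 hc) hq0pos.ne'
  have hglob : ∀ x, g x ≤ g q0 := by
    intro x
    by_cases hx : x ∈ closure W
    · exact hmax hx
    · exact ((hns.neg x hx).trans hq0pos).le
  have hWpc : IsPathConnected W := hWo.isConnected_iff_isPathConnected.mp ⟨⟨q1, hq1⟩, hWc⟩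
  obtain ⟨γ, hγ⟩ := (hWpc.joinedIn q0 hq0W q1 hq1)
  have h0 : HasLog (Phi g W1 W2 q0) := by
    apply HasLog.of_re_pos
    · exact Phi_cont hg W1 W2 continuous_const continuous_id
    · exact Phi_periodic g W1 W2 q0
    · intro θ
      have hne := hns.ne q0 θ (Or.inl hq0)
      have h1 := hglob (q0 + Complex.exp (θ * Complex.I) * W1)
      have h2 := hglob (q0 + Complex.exp (θ * Complex.I) * W2)
      unfold Phi Fv at hne ⊢
      simp only
      by_contra hc
      push Not at hc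
      apply hne
      apply Complex.ext
      · simp only [Complex.zero_re]; linarith
      · simp only [Complex.zero_im]; linarith
  have hh := HasLog.homotopy (fun t θ => Phi g W1 W2 (γ.extend t) θ)
    (Phi_cont hg W1 W2 (γ.continuous_extend.comp continuous_fst) continuous_snd)
    (fun t θ => Phi_periodic g W1 W2 _ θ)
    (by
      intro t θ ht0 ht1
      apply hns.ne
      left
      rw [Path.extend_apply _ ⟨ht0, ht1⟩]
      exact subset_closure (hγ _))
    (by simpa using h0)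
  simpa using hh

end

end Pool.Agent.Helper303.Wind

namespace Pool.Agent.Helper303.Wind

noncomputable section

def med (a b c : ℝ) : ℝ := max (min a b) (min (max a b) c)

lemma med_cont {X : Type*} [TopologicalSpace X] {a b c : X → ℝ} (ha : Continuous a) (hb : Continuous b)
    (hc : Continuous c) : Continuous (fun x => med (a x) (b x) (c x)) := by
  unfold med
  fun_prop

lemma med_cases (a b c : ℝ) : med a b c = a ∨ med a b c = b ∨ med a b c = c := by
  unfold med
  rcases le_total a b with h | h <;> rcases le_total (max a b) c with h' | h' <;>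
    rcases le_total a c with h'' | h'' <;> rcases le_total b c with h3 | h3 <;>
    simp_all [min_def, max_def] <;> split_ifs <;> simp_all <;> grind

lemma med1 {a b c : ℝ} (h1 : b < c) (h2 : c < a) : med a b c = c := by
  unfold med; simp only [min_def, max_def]; split_ifs <;> linarith
lemma med2 {a b c : ℝ} (h1 : a < b) (h2 : b < c) : med a b c = b := by
  unfold med; simp only [min_def, max_def]; split_ifs <;> linarith
lemma med3 {a b c : ℝ} (h1 : c < a) (h2 : a < b) : med a b c = a := by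
  unfold med; simp only [min_def, max_def]; split_ifs <;> linarith
lemma med4 {a b c : ℝ} (h1 : a < c) (h2 : c < b) : med a b c = c := by
  unfold med; simp only [min_def, max_def]; split_ifs <;> linarith
lemma med5 {a b c : ℝ} (h1 : c < b) (h2 : b < a) : med a b c = b := by
  unfold med; simp only [min_def, max_def]; split_ifs <;> linarith
lemma med6 {a b c : ℝ} (h1 : b < a) (h2 : a < c) : med a b c = a := by
  unfold med; simp only [min_def, max_def]; split_ifs <;> linarith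

lemma vcase {xa xb xc ya yb yc a0 L K D s Δ : ℝ} {φ : ℝ → ℝ} (hab : xa < xb) (hbc : xb < xc)
    (hD : xc - xa ≤ D) (hK : 0 ≤ K) (hs0 : 0 ≤ s) (hs1 : s ≤ 1)
    (ht : ∀ d, |d| ≤ D → φ (a0 + d) ≤ φ a0 + L * d + K * d ^ 2)
    (hcr : (xb - xa) * (yc - ya) - (xc - xa) * (yb - ya) = Δ) (hΔ : K * D ^ 3 < Δ)
    (e1 : ya - s * φ (a0 + (xa - xb)) = yb - s * φ a0)
    (e2 : yb - s * φ a0 = yc - s * φ (a0 + (xc - xb))) : False := by
  have h1 := ht (xa - xb) (by rw [abs_le]; constructor <;> linarith)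
  have h3 := ht (xc - xb) (by rw [abs_le]; constructor <;> linarith)
  set fa := φ (a0 + (xa - xb))
  set fb := φ a0
  set fc := φ (a0 + (xc - xb))
  have hB : (xb - xa) * fc + (xc - xb) * fa - (xc - xa) * fb ≤
      K * ((xb - xa) * (xc - xb) * (xc - xa)) := by
    have i1 := mul_le_mul_of_nonneg_left h3 (sub_pos.mpr hab).le
    have i2 := mul_le_mul_of_nonneg_left h1 (sub_pos.mpr hbc).le
    nlinarith [i1, i2]
  have hE : Δ = s * ((xb - xa) * fc + (xc - xb) * fa - (xc - xa) * fb) := by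
    rw [← hcr]
    have q1 : yb = ya - s * fa + s * fb := by linarith
    have q2 : yc = ya - s * fa + s * fc := by linarith
    rw [q1, q2]; ring
  have hp1 : 0 < xb - xa := sub_pos.mpr hab
  have hp2 : 0 < xc - xb := sub_pos.mpr hbc
  have hp3 : 0 < xc - xa := by linarith
  have hPi : (xb - xa) * (xc - xb) * (xc - xa) ≤ D ^ 3 := by
    have a1 : xb - xa ≤ D := by linarith
    have a2 : xc - xb ≤ D := by linarith
    have hD0 : 0 ≤ D := by linarith
    calc (xb - xa) * (xc - xb) * (xc - xa) ≤ D * D * D := by gcongr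
      _ = D ^ 3 := by ring
  have hPi0 : 0 ≤ (xb - xa) * (xc - xb) * (xc - xa) := by positivity
  have : s * ((xb - xa) * fc + (xc - xb) * fa - (xc - xa) * fb) ≤ K * D ^ 3 := by
    calc s * ((xb - xa) * fc + (xc - xb) * fa - (xc - xa) * fb)
        ≤ s * (K * ((xb - xa) * (xc - xb) * (xc - xa))) := by gcongr
      _ ≤ 1 * (K * ((xb - xa) * (xc - xb) * (xc - xa))) := by gcongr
      _ ≤ K * D ^ 3 := by rw [one_mul]; gcongr
  linarith

lemma pairsmall {x x' y y' f f' e δ s : ℝ} (hlen : e ^ 2 ≤ (x - x') ^ 2 + (y - y') ^ 2)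
    (he : 0 < e) (hx : |x - x'| < δ) (hδ : δ ≤ e / 2) (hf : |f - f'| < e / 2) (hs0 : 0 ≤ s)
    (hs1 : s ≤ 1) : y - s * f ≠ y' - s * f' := by
  intro h
  have h1 : y - y' = s * (f - f') := by linarith
  have h2 : (y - y') ^ 2 < (e / 2) ^ 2 := by
    rw [h1, mul_pow, ← sq_abs (f - f')]
    have : |f - f'| ^ 2 < (e / 2) ^ 2 := by
      apply pow_lt_pow_left₀ hf (abs_nonneg _) two_ne_zero
    have hs2 : s ^ 2 ≤ 1 := pow_le_one₀ hs0 hs1
    calc s ^ 2 * |f - f'| ^ 2 ≤ 1 * |f - f'| ^ 2 := by gcongr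
      _ < (e / 2) ^ 2 := by rw [one_mul]; exact this
  have h3 : (x - x') ^ 2 < (e / 2) ^ 2 := by
    rw [← sq_abs (x - x')]
    apply pow_lt_pow_left₀ (lt_of_lt_of_le hx hδ) (abs_nonneg _) two_ne_zero
  nlinarith

lemma claimV {x0 x1 x2 y0 y1 y2 a L K D s Δ m : ℝ} {φ : ℝ → ℝ}
    (h01 : |x0 - x1| ≤ D) (h12 : |x1 - x2| ≤ D) (h20 : |x2 - x0| ≤ D) (hK : 0 ≤ K)
    (hs0 : 0 ≤ s) (hs1 : s ≤ 1)
    (ht : ∀ d, |d| ≤ D → φ (a + d) ≤ φ a + L * d + K * d ^ 2)
    (hcr : (x1 - x0) * (y2 - y0) - (x2 - x0) * (y1 - y0) = Δ) (hΔ : K * D ^ 3 < Δ)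
    (hpos : 0 < (x0 - x1) * (x1 - x2) * (x2 - x0))
    (o1 : x1 < x2 → x2 < x0 → m = x2) (o2 : x0 < x1 → x1 < x2 → m = x1)
    (o3 : x2 < x0 → x0 < x1 → m = x0)
    (e1 : y0 - s * φ (a + x0 - m) = y1 - s * φ (a + x1 - m))
    (e2 : y1 - s * φ (a + x1 - m) = y2 - s * φ (a + x2 - m)) : False := by
  rw [abs_le] at h01 h12 h20
  rcases lt_trichotomy x0 x1 with c1 | c1 | c1
  · rcases lt_trichotomy x1 x2 with c2 | c2 | c2
    · -- 0<1<2
      rw [o2 c1 c2, add_sub_cancel_right, add_sub_assoc] at e1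
      rw [o2 c1 c2, add_sub_cancel_right, add_sub_assoc] at e2
      exact vcase c1 c2 (by linarith) hK hs0 hs1 ht hcr hΔ e1 e2
    · rw [c2] at hpos; simp at hpos
    · rcases lt_trichotomy x2 x0 with c3 | c3 | c3
      · -- 2<0<1
        have hcr' : (x0 - x2) * (y1 - y2) - (x1 - x2) * (y0 - y2) = Δ := by rw [← hcr]; ring
        have e3 := (e1.trans e2).symm
        rw [o3 c3 c1, add_sub_cancel_right, add_sub_assoc] at e3
        rw [o3 c3 c1, add_sub_cancel_right, add_sub_assoc] at e1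
        exact vcase c3 c1 (by linarith) hK hs0 hs1 ht hcr' hΔ e3 e1
      · rw [c3] at hpos; simp at hpos
      · exfalso
        nlinarith [mul_neg_of_neg_of_pos (mul_neg_of_neg_of_pos (sub_neg.mpr c1) (sub_pos.mpr c2)) (sub_pos.mpr c3)]
  · rw [c1] at hpos; simp at hpos
  · rcases lt_trichotomy x1 x2 with c2 | c2 | c2
    · rcases lt_trichotomy x2 x0 with c3 | c3 | c3
      · -- 1<2<0
        have hcr' : (x2 - x1) * (y0 - y1) - (x0 - x1) * (y2 - y1) = Δ := by rw [← hcr]; ring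
        have e3 := (e1.trans e2).symm
        rw [o1 c2 c3, add_sub_cancel_right, add_sub_assoc] at e3
        rw [o1 c2 c3, add_sub_cancel_right, add_sub_assoc] at e2
        exact vcase c2 c3 (by linarith) hK hs0 hs1 ht hcr' hΔ e2 e3
      · rw [c3] at hpos; simp at hpos
      · exfalso
        nlinarith [mul_neg_of_neg_of_pos (mul_neg_of_pos_of_neg (sub_pos.mpr c1) (sub_neg.mpr c2)) (sub_pos.mpr c3)]
    · rw [c2] at hpos; simp at hpos
    · exfalso
      have c3 : x2 < x0 := by linarith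
      nlinarith [mul_pos (mul_pos (sub_pos.mpr c1) (sub_pos.mpr c2)) (sub_pos.mpr c3)]

lemma small_gap {a b c δ : ℝ} (hδ : 0 < δ) (h : |a * b * c| < δ ^ 3) : |a| < δ ∨ |b| < δ ∨ |c| < δ := by
  by_contra hc
  push Not at hc
  obtain ⟨h1, h2, h3⟩ := hc
  rw [abs_mul, abs_mul] at h
  have : δ ^ 3 ≤ |a| * |b| * |c| := by
    calc δ ^ 3 = δ * δ * δ := by ring
      _ ≤ |a| * |b| * |c| := by gcongr
  linarith

lemma claimA {x0 x1 x2 y0 y1 y2 a0 a1 L0 L1 K D s Δ e δ : ℝ} {φ : ℝ → ℝ} {J : Set ℝ}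
    (h01 : |x0 - x1| ≤ D) (h12 : |x1 - x2| ≤ D) (h20 : |x2 - x0| ≤ D) (hK : 0 ≤ K)
    (hs0 : 0 ≤ s) (hs1 : s ≤ 1)
    (ht0 : ∀ d, |d| ≤ D → φ (a0 + d) ≤ φ a0 + L0 * d + K * d ^ 2)
    (ht1 : ∀ d, |d| ≤ D → φ a1 + L1 * d - K * d ^ 2 ≤ φ (a1 + d))
    (hcr : (x1 - x0) * (y2 - y0) - (x2 - x0) * (y1 - y0) = Δ) (hΔ : K * D ^ 3 < Δ)
    (he : 0 < e) (hδ : 0 < δ) (hδe : δ ≤ e / 2)
    (l01 : e ^ 2 ≤ (x0 - x1) ^ 2 + (y0 - y1) ^ 2) (l12 : e ^ 2 ≤ (x1 - x2) ^ 2 + (y1 - y2) ^ 2)
    (l20 : e ^ 2 ≤ (x2 - x0) ^ 2 + (y2 - y0) ^ 2)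
    (hu : ∀ x ∈ J, ∀ x' ∈ J, |x - x'| < δ → |φ x - φ x'| < e / 2)
    (ξ m : ℝ) (hm : m = med x0 x1 x2)
    (hξ : ξ = (a0 + a1) / 2 + max (-1) (min 1 ((x0 - x1) * (x1 - x2) * (x2 - x0) / δ ^ 3)) * ((a0 - a1) / 2))
    (hJ0 : ξ + x0 - m ∈ J) (hJ1 : ξ + x1 - m ∈ J) (hJ2 : ξ + x2 - m ∈ J) :
    ¬ (y0 - s * φ (ξ + x0 - m) = y1 - s * φ (ξ + x1 - m) ∧
      y1 - s * φ (ξ + x1 - m) = y2 - s * φ (ξ + x2 - m)) := by
  rintro ⟨e1, e2⟩
  have hδ3 : 0 < δ ^ 3 := by positivity
  rcases le_or_gt (δ ^ 3) ((x0 - x1) * (x1 - x2) * (x2 - x0)) with hA | hA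
  · have hc : min 1 ((x0 - x1) * (x1 - x2) * (x2 - x0) / δ ^ 3) = 1 := by
      apply min_eq_left; rw [le_div_iff₀ hδ3]; linarith
    rw [hc, max_eq_right (by norm_num)] at hξ
    have hξ' : ξ = a0 := by rw [hξ]; ring
    rw [hξ'] at e1 e2
    exact claimV h01 h12 h20 hK hs0 hs1 ht0 hcr hΔ (lt_of_lt_of_le hδ3 hA)
      (fun p q => by rw [hm]; exact med1 p q) (fun p q => by rw [hm]; exact med2 p q)
      (fun p q => by rw [hm]; exact med3 p q) e1 e2
  · rcases le_or_gt ((x0 - x1) * (x1 - x2) * (x2 - x0)) (-δ ^ 3) with hB | hB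
    · have hc : max (-1) (min 1 ((x0 - x1) * (x1 - x2) * (x2 - x0) / δ ^ 3)) = -1 := by
        have : (x0 - x1) * (x1 - x2) * (x2 - x0) / δ ^ 3 ≤ -1 := by
          rw [div_le_iff₀ hδ3]; linarith
        rw [min_eq_right (by linarith)]
        exact max_eq_left this
      rw [hc] at hξ
      have hξ' : ξ = a1 := by rw [hξ]; ring
      rw [hξ'] at e1 e2
      have h10 : |x0 - x2| ≤ D := by rw [abs_sub_comm]; exact h20
      have h21 : |x2 - x1| ≤ D := by rw [abs_sub_comm]; exact h12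
      have h02 : |x1 - x0| ≤ D := by rw [abs_sub_comm]; exact h01
      refine claimV (x0 := x0) (x1 := x2) (x2 := x1) (y0 := -y0) (y1 := -y2) (y2 := -y1)
        (a := a1) (L := -L1) (K := K) (D := D) (s := s) (Δ := Δ) (m := m) (φ := fun x => -φ x)
        h10 h21 h02 hK hs0 hs1 ?_ ?_ hΔ ?_ ?_ ?_ ?_ ?_ ?_
      · intro d hd
        have := ht1 d hd
        linarith
      · rw [← hcr]; ring
      · have : (x0 - x2) * (x2 - x1) * (x1 - x0) = -((x0 - x1) * (x1 - x2) * (x2 - x0)) := by ring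
        rw [this]; linarith
      · intro p q
        rw [hm]
        exact med5 p q
      · intro p q
        rw [hm]; exact med4 p q
      · intro p q
        rw [hm]; exact med6 p q
      · linarith
      · linarith
    · have habs : |(x0 - x1) * (x1 - x2) * (x2 - x0)| < δ ^ 3 := by
        rw [abs_lt]; constructor <;> linarith
      rcases small_gap hδ habs with h | h | h
      · refine pairsmall l01 he h hδe (hu _ hJ0 _ hJ1 ?_) hs0 hs1 e1
        convert h using 2; ring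
      · refine pairsmall l12 he h hδe (hu _ hJ1 _ hJ2 ?_) hs0 hs1 e2
        convert h using 2; ring
      · refine pairsmall l20 he h hδe (hu _ hJ2 _ hJ0 ?_) hs0 hs1 (e1.trans e2).symm
        convert h using 2; ring

end

end Pool.Agent.Helper303.Wind

namespace Pool.Agent.Helper303.Wind

noncomputable section

/-- near the point `p`, the set `M` is the part of the plane on and above the graph of a
continuous function, in suitable orthonormal coordinates. -/
def GraphAt (M : Set ℂ) (p : ℂ) : Prop :=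
  ∃ (u : ℂ) (η κ : ℝ) (φ : ℝ → ℝ), ‖u‖ = 1 ∧ 0 < η ∧ 0 < κ ∧ ContinuousOn φ (Icc (-η) η) ∧
    φ 0 = 0 ∧ (∀ x ∈ Icc (-η) η, |φ x| < κ) ∧
    ∀ x ∈ Icc (-η) η, ∀ y ∈ Icc (-κ) κ, (p + u * (x + y * Complex.I) ∈ M ↔ φ x ≤ y)

def Zp (p u : ℂ) (x y : ℝ) : ℂ := p + u * (x + y * Complex.I)

lemma Zp_cont {X : Type*} [TopologicalSpace X] (p u : ℂ) {a b : X → ℝ} (ha : Continuous a)
    (hb : Continuous b) : Continuous (fun x => Zp p u (a x) (b x)) := by
  unfold Zp
  fun_prop

/-- coordinates -/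
def cx (p u z : ℂ) : ℝ := ((z - p) * (starRingEnd ℂ) u).re
def cy (p u z : ℂ) : ℝ := ((z - p) * (starRingEnd ℂ) u).im

lemma Zp_coord (p u z : ℂ) (hu : ‖u‖ = 1) : Zp p u (cx p u z) (cy p u z) = z := by
  unfold Zp cx cy
  rw [Complex.re_add_im]
  have : u * (starRingEnd ℂ) u = 1 := by
    rw [Complex.mul_conj, Complex.normSq_eq_norm_sq, hu]; simp
  linear_combination (z - p) * this

lemma coord_Zp (p u : ℂ) (hu : ‖u‖ = 1) (x y : ℝ) : cx p u (Zp p u x y) = x ∧ cy p u (Zp p u x y) = y := by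
  have : u * (starRingEnd ℂ) u = 1 := by
    rw [Complex.mul_conj, Complex.normSq_eq_norm_sq, hu]; simp
  have e : (Zp p u x y - p) * (starRingEnd ℂ) u = x + y * Complex.I := by
    unfold Zp
    linear_combination (x + y * Complex.I : ℂ) * this
  unfold cx cy
  rw [e]
  simp

/-- the open region strictly above the graph inside the box -/
lemma region_open (p u : ℂ) (φ : ℝ → ℝ) (hφ : Continuous φ) (η κ : ℝ) :
    IsOpen {z : ℂ | |cx p u z| < η ∧ φ (cx p u z) < cy p u z ∧ cy p u z < κ} := by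
  have h1 : Continuous (cx p u) := by unfold cx; fun_prop
  have h2 : Continuous (cy p u) := by unfold cy; fun_prop
  exact (isOpen_lt h1.abs continuous_const).inter
    ((isOpen_lt (hφ.comp h1) h2).inter (isOpen_lt h2 continuous_const))

lemma region_preconn (p u : ℂ) (hu : ‖u‖ = 1) (φ : ℝ → ℝ) (hφ : Continuous φ) (η κ : ℝ)
    (hb : ∀ x, |x| < η → φ x < κ) :
    IsPreconnected {z : ℂ | |cx p u z| < η ∧ φ (cx p u z) < cy p u z ∧ cy p u z < κ} := by
  have hS : IsPreconnected ((Ioo (-η) η) ×ˢ (Ioo (0 : ℝ) 1)) :=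
    isPreconnected_Ioo.prod isPreconnected_Ioo
  have himg : {z : ℂ | |cx p u z| < η ∧ φ (cx p u z) < cy p u z ∧ cy p u z < κ} =
      (fun q : ℝ × ℝ => Zp p u q.1 ((1 - q.2) * φ q.1 + q.2 * κ)) '' ((Ioo (-η) η) ×ˢ (Ioo (0 : ℝ) 1)) := by
    ext z
    constructor
    · rintro ⟨h1, h2, h3⟩
      have hk := hb _ h1
      have hk' : 0 < κ - φ (cx p u z) := by linarith
      refine ⟨(cx p u z, (cy p u z - φ (cx p u z)) / (κ - φ (cx p u z))), ⟨abs_lt.mp h1, ?_, ?_⟩, ?_⟩
      · apply div_pos <;> linarith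
      · rw [div_lt_one hk']; linarith
      · simp only
        have : (1 - (cy p u z - φ (cx p u z)) / (κ - φ (cx p u z))) * φ (cx p u z) +
            (cy p u z - φ (cx p u z)) / (κ - φ (cx p u z)) * κ = cy p u z := by
          field_simp
          ring
        rw [this, Zp_coord p u z hu]
    · rintro ⟨⟨x, v⟩, ⟨hx, hv0, hv1⟩, rfl⟩
      simp only at hx hv0 hv1 ⊢
      have hx' : |x| < η := abs_lt.mpr hx
      have hk := hb x hx'
      obtain ⟨e1, e2⟩ := coord_Zp p u hu x ((1 - v) * φ x + v * κ)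
      refine ⟨?_, ?_, ?_⟩
      · rw [e1]; exact hx'
      · rw [e1, e2]; nlinarith
      · rw [e2]; nlinarith
  rw [himg]
  apply hS.image
  apply Continuous.continuousOn
  exact Zp_cont p u (by fun_prop) (by fun_prop)

/-- touching parabola from above -/
lemma touch_above (φ : ℝ → ℝ) (hφ : Continuous φ) (η κ' : ℝ) (hη : 0 < η) (hκ' : 0 ≤ κ')
    (hb : ∀ x ∈ Icc (-η) η, |φ x| ≤ κ') :
    ∃ a : ℝ, |a| ≤ η / 2 ∧ ∀ d, |d| ≤ η / 2 → φ (a + d) ≤ φ a + (2 * (8 * (κ' + 1) / η ^ 2) * a) * d +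
      (8 * (κ' + 1) / η ^ 2) * d ^ 2 := by
  set K := 8 * (κ' + 1) / η ^ 2 with hK
  have hKpos : 0 < K := by positivity
  obtain ⟨a, ha, hmax⟩ := isCompact_Icc.exists_isMaxOn (s := Icc (-η) η) ⟨0, by constructor <;> linarith⟩
    (f := fun x => φ x - K * x ^ 2) (by fun_prop)
  have h0 : φ 0 - K * 0 ^ 2 ≤ φ a - K * a ^ 2 := hmax (show (0 : ℝ) ∈ Icc (-η) η by constructor <;> linarith)
  have hb0 := abs_le.mp (hb 0 (by constructor <;> linarith))
  have hba := abs_le.mp (hb a ha)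
  have hKa : K * a ^ 2 ≤ 2 * κ' := by linarith
  have ha2 : a ^ 2 ≤ (η / 2) ^ 2 := by
    have h1 : K * η ^ 2 = 8 * (κ' + 1) := by rw [hK]; field_simp
    have h2 : K * a ^ 2 ≤ K * (η / 2) ^ 2 := by
      have : K * (η / 2) ^ 2 = 2 * (κ' + 1) := by
        have : K * (η / 2) ^ 2 = (K * η ^ 2) / 4 := by ring
        rw [this, h1]; ring
      rw [this]; linarith
    exact le_of_mul_le_mul_left h2 hKpos
  have ha' : |a| ≤ η / 2 := abs_le_of_sq_le_sq ha2 (by linarith)
  refine ⟨a, ha', ?_⟩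
  intro d hd
  have hd' := abs_le.mp hd
  have ha'' := abs_le.mp ha'
  have hmem : a + d ∈ Icc (-η) η := by constructor <;> linarith
  have := hmax hmem
  simp only [Set.mem_setOf_eq] at this
  nlinarith [this]

end

end Pool.Agent.Helper303.Wind

namespace Pool.Agent.Helper303.Wind

noncomputable section

def rx (A : ℂ) (θ : ℝ) : ℝ := (Complex.exp (θ * Complex.I) * A).re
def ry (A : ℂ) (θ : ℝ) : ℝ := (Complex.exp (θ * Complex.I) * A).im

lemma rx_cont (A : ℂ) : Continuous (rx A) := by unfold rx; fun_prop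
lemma ry_cont (A : ℂ) : Continuous (ry A) := by unfold ry; fun_prop
lemma rx_per (A : ℂ) (θ : ℝ) : rx A (θ + 2 * Real.pi) = rx A θ := by unfold rx; rw [exp_periodic]
lemma ry_per (A : ℂ) (θ : ℝ) : ry A (θ + 2 * Real.pi) = ry A θ := by unfold ry; rw [exp_periodic]

lemma ry_anti (A : ℂ) (θ : ℝ) : ry A (θ + 2 * Real.pi / (2 : ℕ)) = -ry A θ := by
  unfold ry
  have : Complex.exp (((θ + 2 * Real.pi / (2 : ℕ) : ℝ) : ℂ) * Complex.I) =
      -Complex.exp (θ * Complex.I) := by
    have e : (((θ + 2 * Real.pi / (2 : ℕ) : ℝ) : ℂ) * Complex.I) = θ * Complex.I + Real.pi * Complex.I := by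
      push_cast; ring
    rw [e, Complex.exp_add, Complex.exp_pi_mul_I]; ring
  rw [this]; simp

lemma rx_sub (A B : ℂ) (θ : ℝ) : rx A θ - rx B θ = (Complex.exp (θ * Complex.I) * (A - B)).re := by
  unfold rx; rw [mul_sub, Complex.sub_re]
lemma ry_sub (A B : ℂ) (θ : ℝ) : ry A θ - ry B θ = (Complex.exp (θ * Complex.I) * (A - B)).im := by
  unfold ry; rw [mul_sub, Complex.sub_im]

lemma norm_rot (A : ℂ) (θ : ℝ) : ‖Complex.exp (θ * Complex.I) * A‖ = ‖A‖ := by
  rw [norm_mul, Complex.norm_exp_ofReal_mul_I, one_mul]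

lemma rx_le (A B : ℂ) (θ : ℝ) : |rx A θ - rx B θ| ≤ ‖A - B‖ := by
  rw [rx_sub, ← norm_rot (A - B) θ]
  exact Complex.abs_re_le_norm _
lemma ry_le (A B : ℂ) (θ : ℝ) : |ry A θ - ry B θ| ≤ ‖A - B‖ := by
  rw [ry_sub, ← norm_rot (A - B) θ]
  exact Complex.abs_im_le_norm _

lemma r_len (A B : ℂ) (θ : ℝ) : (rx A θ - rx B θ) ^ 2 + (ry A θ - ry B θ) ^ 2 = ‖A - B‖ ^ 2 := by
  rw [rx_sub, ry_sub, ← norm_rot (A - B) θ, Complex.sq_norm, Complex.normSq_apply]
  ring

lemma r_cross (A0 A1 A2 : ℂ) (θ : ℝ) :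
    (rx A1 θ - rx A0 θ) * (ry A2 θ - ry A0 θ) - (rx A2 θ - rx A0 θ) * (ry A1 θ - ry A0 θ) =
    (A1 - A0).re * (A2 - A0).im - (A2 - A0).re * (A1 - A0).im := by
  rw [rx_sub, ry_sub, rx_sub, ry_sub]
  have h : (Complex.exp (θ * Complex.I)).re ^ 2 + (Complex.exp (θ * Complex.I)).im ^ 2 = 1 := by
    have := Complex.norm_exp_ofReal_mul_I θ
    have h2 := Complex.sq_norm (Complex.exp (θ * Complex.I))
    rw [this, Complex.normSq_apply] at h2
    linarith
  simp only [Complex.mul_re, Complex.mul_im]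
  linear_combination ((A1 - A0).re * (A2 - A0).im - (A2 - A0).re * (A1 - A0).im) * h

lemma vert (p u A0 A : ℂ) (a b θ : ℝ) :
    Zp p u a b + Complex.exp (θ * Complex.I) * (u * (A - A0)) =
      Zp p u (a + (rx A θ - rx A0 θ)) (b + (ry A θ - ry A0 θ)) := by
  have h := Complex.re_add_im (Complex.exp (θ * Complex.I) * (A - A0))
  rw [← rx_sub, ← ry_sub] at h
  unfold Zp
  push_cast at h ⊢
  linear_combination (-u) * h

lemma max3 (a b c : ℝ) : max (max a b) c = a ∨ max (max a b) c = b ∨ max (max a b) c = c := by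
  rcases max_choice (max a b) c with h | h
  · rcases max_choice a b with h' | h'
    · left; rw [h, h']
    · right; left; rw [h, h']
  · right; right; exact h
lemma min3 (a b c : ℝ) : min (min a b) c = a ∨ min (min a b) c = b ∨ min (min a b) c = c := by
  rcases min_choice (min a b) c with h | h
  · rcases min_choice a b with h' | h'
    · left; rw [h, h']
    · right; left; rw [h, h']
  · right; right; exact h

lemma Fv_shift (a b c t : ℝ) : Fv (a + t) (b + t) (c + t) = Fv a b c := by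
  unfold Fv; congr 1 <;> ring

lemma assembly (p u : ℂ) (hu : ‖u‖ = 1) (η κ κ' : ℝ) (hη : 0 < η) (hκ' : 0 ≤ κ') (hκ : κ' < κ)
    (φ : ℝ → ℝ) (hφ : Continuous φ) (hφb : ∀ x ∈ Icc (-η) η, |φ x| ≤ κ')
    (W : Set ℂ) (g : ℂ → ℝ) (hg : Continuous g)
    (hW : ∀ x y, |x| < η → φ x < y → y < κ → Zp p u x y ∈ W)
    (hnW : ∀ x y, |x| < η → -κ ≤ y → y < φ x → Zp p u x y ∉ closure W)
    (A0 A1 A2 : ℂ) (D e Δ K a0 a1 L0 L1 : ℝ) (hD : 0 < D) (he : 0 < e)
    (d01 : ‖A0 - A1‖ ≤ D) (d12 : ‖A1 - A2‖ ≤ D) (d20 : ‖A2 - A0‖ ≤ D)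
    (e01 : e ≤ ‖A0 - A1‖) (e12 : e ≤ ‖A1 - A2‖) (e20 : e ≤ ‖A2 - A0‖)
    (hΔ : (A1 - A0).re * (A2 - A0).im - (A2 - A0).re * (A1 - A0).im = Δ) (hK : 0 ≤ K)
    (hKΔ : K * D ^ 3 < Δ) (hDη : D ≤ η / 8) (hDκ : D ≤ (κ - κ') / 4)
    (hosc : ∀ x ∈ Icc (-η) η, ∀ x' ∈ Icc (-η) η, |x - x'| ≤ D → |φ x - φ x'| ≤ (κ - κ') / 4)
    (ha0 : |a0| ≤ η / 2) (ha1 : |a1| ≤ η / 2)
    (ht0 : ∀ d, |d| ≤ D → φ (a0 + d) ≤ φ a0 + L0 * d + K * d ^ 2)
    (ht1 : ∀ d, |d| ≤ D → φ a1 + L1 * d - K * d ^ 2 ≤ φ (a1 + d))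
    (hns : NoSol (closure W) g (u * (A1 - A0)) (u * (A2 - A0)))
    (hlog : HasLog (Phi g (u * (A1 - A0)) (u * (A2 - A0)) (Zp p u 0 ((κ + κ') / 2)))) : False := by
  -- uniform continuity
  have hucs := isCompact_Icc.uniformContinuousOn_of_continuous (s := Icc (-η) η) hφ.continuousOn
  rw [Metric.uniformContinuousOn_iff] at hucs
  obtain ⟨δ2, hδ2, hδ2'⟩ := hucs (e / 2) (by linarith)
  set δ := min (e / 2) δ2 with hδdef
  have hδ : 0 < δ := lt_min (by linarith) hδ2
  have hδe : δ ≤ e / 2 := min_le_left _ _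
  have huJ : ∀ x ∈ Icc (-η) η, ∀ x' ∈ Icc (-η) η, |x - x'| < δ → |φ x - φ x'| < e / 2 := by
    intro x hx x' hx' hd
    have := hδ2' x hx x' hx' (by rw [Real.dist_eq]; exact lt_of_lt_of_le hd (min_le_right _ _))
    rwa [Real.dist_eq] at this
  set m : ℝ → ℝ := fun θ => med (rx A0 θ) (rx A1 θ) (rx A2 θ) with hm
  set c : ℝ → ℝ := fun θ => max (-1) (min 1 ((rx A0 θ - rx A1 θ) * (rx A1 θ - rx A2 θ) *
    (rx A2 θ - rx A0 θ) / δ ^ 3)) with hc
  set ξ : ℝ → ℝ := fun θ => (a0 + a1) / 2 + c θ * ((a0 - a1) / 2) with hξ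
  have hmc : Continuous m := med_cont (rx_cont _) (rx_cont _) (rx_cont _)
  have hcc : Continuous c := by
    have h0 := rx_cont A0
    have h1 := rx_cont A1
    have h2 := rx_cont A2
    rw [hc]
    fun_prop
  have hξc : Continuous ξ := by rw [hξ]; fun_prop
  have hmp : ∀ θ, m (θ + 2 * Real.pi) = m θ := by intro θ; simp only [hm, rx_per]
  have hξp : ∀ θ, ξ (θ + 2 * Real.pi) = ξ θ := by intro θ; simp only [hξ, hc, rx_per]
  have hcb : ∀ θ, -1 ≤ c θ ∧ c θ ≤ 1 := by
    intro θ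
    exact ⟨le_max_left _ _, max_le (by norm_num) (min_le_left _ _)⟩
  have hξb : ∀ θ, |ξ θ| ≤ η / 2 := by
    intro θ
    obtain ⟨h1, h2⟩ := hcb θ
    rw [abs_le] at ha0 ha1 ⊢
    have : ξ θ = a0 * ((1 + c θ) / 2) + a1 * ((1 - c θ) / 2) := by simp only [hξ]; ring
    rw [this]
    constructor <;> nlinarith
  set X : ℂ → ℝ → ℝ := fun A θ => ξ θ + rx A θ - m θ with hX
  have hXc : ∀ A, Continuous (X A) := by
    intro A
    have := rx_cont A
    simp only [hX]; fun_prop
  have hXp : ∀ A θ, X A (θ + 2 * Real.pi) = X A θ := by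
    intro A θ; simp only [hX, hξp, hmp, rx_per]
  have hx01 : ∀ θ, |rx A0 θ - rx A1 θ| ≤ D := fun θ => (rx_le _ _ _).trans d01
  have hx12 : ∀ θ, |rx A1 θ - rx A2 θ| ≤ D := fun θ => (rx_le _ _ _).trans d12
  have hx20 : ∀ θ, |rx A2 θ - rx A0 θ| ≤ D := fun θ => (rx_le _ _ _).trans d20
  have hXm : ∀ θ, |rx A0 θ - m θ| ≤ D ∧ |rx A1 θ - m θ| ≤ D ∧ |rx A2 θ - m θ| ≤ D := by
    intro θ
    have h1 := hx01 θ
    have h2 := hx12 θ
    have h3 := hx20 θ
    have h1' : |rx A1 θ - rx A0 θ| ≤ D := by rw [abs_sub_comm]; exact h1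
    have h2' : |rx A2 θ - rx A1 θ| ≤ D := by rw [abs_sub_comm]; exact h2
    have h3' : |rx A0 θ - rx A2 θ| ≤ D := by rw [abs_sub_comm]; exact h3
    rcases med_cases (rx A0 θ) (rx A1 θ) (rx A2 θ) with h | h | h <;> simp only [hm, h] <;>
      refine ⟨?_, ?_, ?_⟩ <;> first | assumption | (rw [sub_self, abs_zero]; exact hD.le)
  have hXb : ∀ A θ, |rx A θ - m θ| ≤ D → |X A θ| < η := by
    intro A θ h
    have h1 := abs_le.mp (hξb θ)
    have h2 := abs_le.mp h
    rw [abs_lt]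
    simp only [hX]
    constructor <;> linarith
  have hXI : ∀ A θ, |rx A θ - m θ| ≤ D → X A θ ∈ Icc (-η) η := by
    intro A θ h
    have := abs_lt.mp (hXb A θ h)
    exact ⟨this.1.le, this.2.le⟩
  have hCA : ∀ θ s, 0 ≤ s → s ≤ 1 → ¬ (ry A0 θ - s * φ (X A0 θ) = ry A1 θ - s * φ (X A1 θ) ∧
      ry A1 θ - s * φ (X A1 θ) = ry A2 θ - s * φ (X A2 θ)) := by
    intro θ s hs0 hs1
    exact claimA (hx01 θ) (hx12 θ) (hx20 θ) hK hs0 hs1 ht0 ht1
      ((r_cross A0 A1 A2 θ).trans hΔ) hKΔ he hδ hδe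
      (by rw [r_len]; gcongr) (by rw [r_len]; gcongr) (by rw [r_len]; gcongr) huJ (ξ θ) (m θ) rfl rfl
      (hXI A0 θ (hXm θ).1) (hXI A1 θ (hXm θ).2.1) (hXI A2 θ (hXm θ).2.2)
  -- heights above the graph
  set ℓ : ℂ → ℝ → ℝ := fun A θ => ry A θ - φ (X A θ) with hℓ
  have hℓc : ∀ A, Continuous (ℓ A) := by
    intro A
    simp only [hℓ]
    exact (ry_cont A).sub (hφ.comp (hXc A))
  have hℓp : ∀ A θ, ℓ A (θ + 2 * Real.pi) = ℓ A θ := by
    intro A θ; simp only [hℓ, hXp, ry_per]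
  set mx : ℝ → ℝ := fun θ => max (max (ℓ A0 θ) (ℓ A1 θ)) (ℓ A2 θ) with hmx
  set mn : ℝ → ℝ := fun θ => min (min (ℓ A0 θ) (ℓ A1 θ)) (ℓ A2 θ) with hmn
  have hmxc : Continuous mx := ((hℓc A0).max (hℓc A1)).max (hℓc A2)
  have hmnc : Continuous mn := ((hℓc A0).min (hℓc A1)).min (hℓc A2)
  have hlt : ∀ θ, mn θ < mx θ := by
    intro θ
    by_contra hcon
    push Not at hcon
    have h1 := hCA θ 1 (by norm_num) le_rfl
    simp only [one_mul] at h1
    apply h1
    have b0 : ℓ A0 θ ≤ mx θ := (le_max_left _ _).trans (le_max_left _ _)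
    have b1 : ℓ A1 θ ≤ mx θ := (le_max_right _ _).trans (le_max_left _ _)
    have b2 : ℓ A2 θ ≤ mx θ := le_max_right _ _
    have c0 : mn θ ≤ ℓ A0 θ := (min_le_left _ _).trans (min_le_left _ _)
    have c1 : mn θ ≤ ℓ A1 θ := (min_le_left _ _).trans (min_le_right _ _)
    have c2 : mn θ ≤ ℓ A2 θ := min_le_right _ _
    simp only [hℓ] at b0 b1 b2 c0 c1 c2
    constructor <;> linarith
  have hy01 : ∀ θ, |ry A0 θ - ry A1 θ| ≤ D := fun θ => (ry_le _ _ _).trans d01
  have hy12 : ∀ θ, |ry A1 θ - ry A2 θ| ≤ D := fun θ => (ry_le _ _ _).trans d12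
  have hy20 : ∀ θ, |ry A2 θ - ry A0 θ| ≤ D := fun θ => (ry_le _ _ _).trans d20
  have hspread : ∀ θ, mx θ - mn θ ≤ (κ - κ') / 2 := by
    intro θ
    have g01 := hosc _ (hXI A0 θ (hXm θ).1) _ (hXI A1 θ (hXm θ).2.1)
      (by have := hx01 θ; simp only [hX]; convert this using 2; ring)
    have g12 := hosc _ (hXI A1 θ (hXm θ).2.1) _ (hXI A2 θ (hXm θ).2.2)
      (by have := hx12 θ; simp only [hX]; convert this using 2; ring)
    have g20 := hosc _ (hXI A2 θ (hXm θ).2.2) _ (hXI A0 θ (hXm θ).1)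
      (by have := hx20 θ; simp only [hX]; convert this using 2; ring)
    have k01 := abs_le.mp (hy01 θ)
    have k12 := abs_le.mp (hy12 θ)
    have k20 := abs_le.mp (hy20 θ)
    rw [abs_le] at g01 g12 g20
    simp only [hmx, hmn]
    rcases max3 (ℓ A0 θ) (ℓ A1 θ) (ℓ A2 θ) with h | h | h <;>
      rcases min3 (ℓ A0 θ) (ℓ A1 θ) (ℓ A2 θ) with h' | h' | h' <;> rw [h, h'] <;>
      simp only [hℓ] <;> linarith
  set tt : ℝ → ℝ := fun θ => -(mx θ + mn θ) / 2 with htt
  have httc : Continuous tt := by rw [htt]; fun_prop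
  have hmxp : ∀ θ, mx (θ + 2 * Real.pi) = mx θ := by intro θ; simp only [hmx, hℓp]
  have hmnp : ∀ θ, mn (θ + 2 * Real.pi) = mn θ := by intro θ; simp only [hmn, hℓp]
  have http : ∀ θ, tt (θ + 2 * Real.pi) = tt θ := by intro θ; simp only [htt, hmxp, hmnp]
  set W1 := u * (A1 - A0) with hW1
  set W2 := u * (A2 - A0) with hW2
  set ys := (κ + κ') / 2 with hys
  -- step 1 : horizontal motion
  have s1 : HasLog (fun θ => Phi g W1 W2 (Zp p u (X A0 θ) ys) θ) := by
    have hh := HasLog.homotopy (fun t θ => Phi g W1 W2 (Zp p u (t * X A0 θ) ys) θ)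
      (Phi_cont hg W1 W2 (Zp_cont p u (by have := hXc A0; fun_prop) continuous_const) continuous_snd)
      (fun t θ => by simp only [hXp, Phi_periodic])
      (by
        intro t θ ht0' ht1'
        apply hns.ne
        left
        apply subset_closure
        have hb := hXb A0 θ (hXm θ).1
        have hb' : |t * X A0 θ| < η := by
          rw [abs_mul, abs_of_nonneg ht0']
          calc t * |X A0 θ| ≤ 1 * |X A0 θ| := by gcongr
            _ < η := by rw [one_mul]; exact hb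
        apply hW _ _ hb' _ (by rw [hys]; linarith)
        have hb2 := abs_lt.mp hb'
        have := abs_le.mp (hφb _ ⟨hb2.1.le, hb2.2.le⟩)
        rw [hys]; linarith)
      (by simpa using hlog)
    simpa using hh
  -- facts on the special placement
  have hvt : ∀ θ, ∀ A, |rx A θ - m θ| ≤ D → ℓ A θ = mx θ → φ (X A θ) < ry A θ + tt θ ∧
      ry A θ + tt θ ≤ κ' + (κ - κ') / 4 := by
    intro θ A hA h
    have h1 := hlt θ
    have h2 := hspread θ
    have h3 := abs_le.mp (hφb _ (hXI A θ hA))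
    simp only [hℓ] at h
    simp only [htt]
    constructor <;> linarith
  have hvb : ∀ θ, ∀ A, |rx A θ - m θ| ≤ D → ℓ A θ = mn θ → ry A θ + tt θ < φ (X A θ) ∧
      -κ ≤ ry A θ + tt θ := by
    intro θ A hA h
    have h1 := hlt θ
    have h2 := hspread θ
    have h3 := abs_le.mp (hφb _ (hXI A θ hA))
    simp only [hℓ] at h
    simp only [htt]
    constructor <;> linarith
  have hy0 : ∀ θ, ry A0 θ + tt θ ≤ ys := by
    intro θ
    have h2 := hspread θ
    have h1 := hlt θ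
    have h3 := abs_le.mp (hφb _ (hXI A0 θ (hXm θ).1))
    have b0 : ℓ A0 θ ≤ mx θ := (le_max_left _ _).trans (le_max_left _ _)
    simp only [hℓ] at b0
    simp only [htt, hys]
    linarith
  have hXsub : ∀ A B θ, X A θ + (rx B θ - rx A θ) = X B θ := by
    intro A B θ; simp only [hX]; ring
  -- step 2 : vertical motion
  have s2 : HasLog (fun θ => Phi g W1 W2 (Zp p u (X A0 θ) (ry A0 θ + tt θ)) θ) := by
    have hh := HasLog.homotopy
      (fun t θ => Phi g W1 W2 (Zp p u (X A0 θ) ((1 - t) * ys + t * (ry A0 θ + tt θ))) θ)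
      (Phi_cont hg W1 W2 (Zp_cont p u (by have := hXc A0; fun_prop)
        (by have := ry_cont A0; fun_prop)) continuous_snd)
      (fun t θ => by simp only [hXp, http, ry_per, Phi_periodic])
      (by
        intro t θ ht0' ht1'
        apply hns.ne
        have hy := hy0 θ
        have hYb : ry A0 θ + tt θ ≤ (1 - t) * ys + t * (ry A0 θ + tt θ) := by nlinarith
        have hYu : (1 - t) * ys + t * (ry A0 θ + tt θ) ≤ ys := by nlinarith
        have k10 := abs_le.mp (hy01 θ)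
        have k20 := abs_le.mp (hy20 θ)
        have hysκ : ys + D < κ := by rw [hys]; linarith
        rcases max3 (ℓ A0 θ) (ℓ A1 θ) (ℓ A2 θ) with h | h | h
        · left
          apply subset_closure
          have hv := hvt θ A0 (hXm θ).1 h.symm
          apply hW _ _ (hXb A0 θ (hXm θ).1) <;> linarith
        · right; left
          apply subset_closure
          have hv := hvt θ A1 (hXm θ).2.1 h.symm
          rw [hW1, vert, hXsub]
          apply hW _ _ (hXb A1 θ (hXm θ).2.1) <;> linarith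
        · right; right
          apply subset_closure
          have hv := hvt θ A2 (hXm θ).2.2 h.symm
          rw [hW2, vert, hXsub]
          apply hW _ _ (hXb A2 θ (hXm θ).2.2) <;> linarith)
      (by simpa using s1)
    simpa using hh
  -- step 3 : from g to heights
  have hG : ∀ A, Continuous (fun θ => g (Zp p u (X A θ) (ry A θ + tt θ))) := by
    intro A
    apply hg.comp
    exact Zp_cont p u (hXc A) ((ry_cont A).add httc)
  have s2' : HasLog (fun θ => Fv (g (Zp p u (X A0 θ) (ry A0 θ + tt θ)))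
      (g (Zp p u (X A1 θ) (ry A1 θ + tt θ))) (g (Zp p u (X A2 θ) (ry A2 θ + tt θ)))) := by
    convert s2 using 2 with θ
    unfold Phi
    rw [hW1, hW2, vert, vert, hXsub, hXsub]
    have q1 : ry A0 θ + tt θ + (ry A1 θ - ry A0 θ) = ry A1 θ + tt θ := by ring
    have q2 : ry A0 θ + tt θ + (ry A2 θ - ry A0 θ) = ry A2 θ + tt θ := by ring
    rw [q1, q2]
  have s3 : HasLog (fun θ => Fv (ℓ A0 θ + tt θ) (ℓ A1 θ + tt θ) (ℓ A2 θ + tt θ)) := by
    have hh := HasLog.homotopy
      (fun t θ => Fv ((1 - t) * g (Zp p u (X A0 θ) (ry A0 θ + tt θ)) + t * (ℓ A0 θ + tt θ))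
        ((1 - t) * g (Zp p u (X A1 θ) (ry A1 θ + tt θ)) + t * (ℓ A1 θ + tt θ))
        ((1 - t) * g (Zp p u (X A2 θ) (ry A2 θ + tt θ)) + t * (ℓ A2 θ + tt θ)))
      (by
        have i0 := hG A0
        have i1 := hG A1
        have i2 := hG A2
        have j0 := hℓc A0
        have j1 := hℓc A1
        have j2 := hℓc A2
        apply Fv_cont
        · exact (((continuous_const.sub continuous_fst).mul (i0.comp continuous_snd)).add
            (continuous_fst.mul ((j0.add httc).comp continuous_snd)))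
        · exact (((continuous_const.sub continuous_fst).mul (i1.comp continuous_snd)).add
            (continuous_fst.mul ((j1.add httc).comp continuous_snd)))
        · exact (((continuous_const.sub continuous_fst).mul (i2.comp continuous_snd)).add
            (continuous_fst.mul ((j2.add httc).comp continuous_snd))))
      (fun t θ => by simp only [hXp, http, ry_per, hℓp])
      (by
        intro t θ ht0' ht1'
        apply Fv_ne
        rintro ⟨E1, E2⟩
        -- top vertex gives nonneg common value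
        have hlt' := hlt θ
        have htop : ∀ A, |rx A θ - m θ| ≤ D → ℓ A θ = mx θ →
            0 ≤ (1 - t) * g (Zp p u (X A θ) (ry A θ + tt θ)) + t * (ℓ A θ + tt θ) := by
          intro A hA h
          have hv := hvt θ A hA h
          have hmem : Zp p u (X A θ) (ry A θ + tt θ) ∈ closure W :=
            subset_closure (hW _ _ (hXb A θ hA) hv.1 (by linarith))
          have hg0 := hns.nonneg _ hmem
          have hl : 0 ≤ ℓ A θ + tt θ := by rw [h]; simp only [htt]; linarith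
          have : 0 ≤ 1 - t := by linarith
          positivity
        have hbot : ∀ A, |rx A θ - m θ| ≤ D → ℓ A θ = mn θ →
            (1 - t) * g (Zp p u (X A θ) (ry A θ + tt θ)) + t * (ℓ A θ + tt θ) < 0 := by
          intro A hA h
          have hv := hvb θ A hA h
          have hmem : Zp p u (X A θ) (ry A θ + tt θ) ∉ closure W :=
            hnW _ _ (hXb A θ hA) hv.2 hv.1
          have hg0 := hns.neg _ hmem
          have hl : ℓ A θ + tt θ < 0 := by rw [h]; simp only [htt]; linarith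
          rcases eq_or_lt_of_le ht0' with h0 | h0
          · rw [← h0]; simpa using hg0
          · have q1 : (1 - t) * g (Zp p u (X A θ) (ry A θ + tt θ)) ≤ 0 :=
              mul_nonpos_of_nonneg_of_nonpos (by linarith) hg0.le
            have q2 : t * (ℓ A θ + tt θ) < 0 := mul_neg_of_pos_of_neg h0 hl
            linarith
        have T : 0 ≤ (1 - t) * g (Zp p u (X A0 θ) (ry A0 θ + tt θ)) + t * (ℓ A0 θ + tt θ) := by
          rcases max3 (ℓ A0 θ) (ℓ A1 θ) (ℓ A2 θ) with h | h | h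
          · exact htop A0 (hXm θ).1 h.symm
          · rw [E1]; exact htop A1 (hXm θ).2.1 h.symm
          · rw [E1, E2]; exact htop A2 (hXm θ).2.2 h.symm
        have B : (1 - t) * g (Zp p u (X A0 θ) (ry A0 θ + tt θ)) + t * (ℓ A0 θ + tt θ) < 0 := by
          rcases min3 (ℓ A0 θ) (ℓ A1 θ) (ℓ A2 θ) with h | h | h
          · exact hbot A0 (hXm θ).1 h.symm
          · rw [E1]; exact hbot A1 (hXm θ).2.1 h.symm
          · rw [E1, E2]; exact hbot A2 (hXm θ).2.2 h.symm
        linarith)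
      (by simpa using s2')
    simpa using hh
  -- step 4 : straighten the graph
  have s4 : HasLog (fun θ => Fv (ry A0 θ) (ry A1 θ) (ry A2 θ)) := by
    have hh := HasLog.homotopy
      (fun t θ => Fv (ry A0 θ - (1 - t) * φ (X A0 θ)) (ry A1 θ - (1 - t) * φ (X A1 θ))
        (ry A2 θ - (1 - t) * φ (X A2 θ)))
      (by
        have i : ∀ A, Continuous (fun q : ℝ × ℝ => ry A q.2 - (1 - q.1) * φ (X A q.2)) := by
          intro A
          exact ((ry_cont A).comp continuous_snd).sub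
            ((continuous_const.sub continuous_fst).mul ((hφ.comp (hXc A)).comp continuous_snd))
        exact Fv_cont (i A0) (i A1) (i A2))
      (fun t θ => by simp only [hXp, ry_per])
      (by
        intro t θ ht0' ht1'
        exact Fv_ne (hCA θ (1 - t) (by linarith) (by linarith)))
      (by
        convert s3 using 2 with θ
        rw [Fv_shift]
        simp only [hℓ, sub_zero, one_mul])
    simpa using hh
  have hneg : ∀ θ : ℝ, Fv (ry A0 (θ + 2 * Real.pi / (2 : ℕ))) (ry A1 (θ + 2 * Real.pi / (2 : ℕ)))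
      (ry A2 (θ + 2 * Real.pi / (2 : ℕ))) = (-1 : ℂ) * Fv (ry A0 θ) (ry A1 θ) (ry A2 θ) := by
    intro θ
    rw [ry_anti, ry_anti, ry_anti]
    apply Complex.ext
    · simp [Fv]; ring
    · simp [Fv]; ring
  have hfin := s4.rot 2 (by norm_num) (-1) hneg
  norm_num at hfin

end

end Pool.Agent.Helper303.Wind

namespace Pool.Agent.Helper303.Wind

noncomputable section

lemma main_ccw (w0 w1 w2 : ℂ)
    (hcr : 0 < (w1 - w0).re * (w2 - w0).im - (w2 - w0).re * (w1 - w0).im)
    (M : Set ℂ) (hM : IsCompact M) (p : ℂ) (hp : GraphAt M p) :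
    ∃ r0 : ℝ, 0 < r0 ∧ ∀ r : ℝ, 0 < r → r ≤ r0 → ∀ f : ℂ → ℝ, ContinuousOn f M →
      (∀ x ∈ M, 0 ≤ f x) → (∀ x ∈ frontier M, f x = 0) →
      ∃ z v : ℂ, ‖v‖ = r ∧ z + v * w0 ∈ M ∧ z + v * w1 ∈ M ∧ z + v * w2 ∈ M ∧
        f (z + v * w0) = f (z + v * w1) ∧ f (z + v * w1) = f (z + v * w2) := by
  obtain ⟨u, η, κ, φ0, hu, hη, hκ, hφc, hφ0, hφb, hφM⟩ := hp
  have hηη : -η ≤ η := by linarith
  set φ : ℝ → ℝ := Set.IccExtend hηη (Set.restrict (Icc (-η) η) φ0) with hφdef
  have hφ : Continuous φ := hφc.restrict.Icc_extend'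
  have hφe : ∀ x ∈ Icc (-η) η, φ x = φ0 x := by
    intro x hx
    rw [hφdef, Set.IccExtend_of_mem _ _ hx]
    rfl
  obtain ⟨xm, hxm, hmax⟩ := isCompact_Icc.exists_isMaxOn (s := Icc (-η) η) ⟨0, by constructor <;> linarith⟩
    (f := fun x => |φ x|) (by fun_prop)
  set κ' := |φ xm| with hκ'def
  have hκ'0 : 0 ≤ κ' := abs_nonneg _
  have hκ'κ : κ' < κ := by rw [hκ'def, hφe xm hxm]; exact hφb xm hxm
  have hφb' : ∀ x ∈ Icc (-η) η, |φ x| ≤ κ' := fun x hx => hmax hx
  set K := 8 * (κ' + 1) / η ^ 2 with hKdef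
  have hK : 0 < K := by positivity
  obtain ⟨a0, ha0, ht0⟩ := touch_above φ hφ η κ' hη hκ'0 hφb'
  obtain ⟨a1, ha1, ht1⟩ := touch_above (fun x => -φ x) hφ.neg η κ' hη hκ'0
    (fun x hx => by rw [abs_neg]; exact hφb' x hx)
  have hucs := isCompact_Icc.uniformContinuousOn_of_continuous (s := Icc (-η) η) hφ.continuousOn
  rw [Metric.uniformContinuousOn_iff] at hucs
  obtain ⟨δ1, hδ1, hδ1'⟩ := hucs ((κ - κ') / 4) (by linarith)
  set C := (w1 - w0).re * (w2 - w0).im - (w2 - w0).re * (w1 - w0).im with hC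
  have hw01 : w0 ≠ w1 := by
    rintro rfl; simp at hC; linarith
  have hw20 : w2 ≠ w0 := by
    rintro rfl; simp at hC; linarith
  have hw12 : w1 ≠ w2 := by
    rintro rfl
    have : C = 0 := by rw [hC]; ring
    linarith
  have n01 : 0 < ‖w0 - w1‖ := norm_pos_iff.mpr (sub_ne_zero.mpr hw01)
  have n12 : 0 < ‖w1 - w2‖ := norm_pos_iff.mpr (sub_ne_zero.mpr hw12)
  have n20 : 0 < ‖w2 - w0‖ := norm_pos_iff.mpr (sub_ne_zero.mpr hw20)
  set D0 := ‖w0 - w1‖ + ‖w1 - w2‖ + ‖w2 - w0‖ with hD0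
  have hD0p : 0 < D0 := by positivity
  set e0 := min (min ‖w0 - w1‖ ‖w1 - w2‖) ‖w2 - w0‖ with he0
  have he0p : 0 < e0 := lt_min (lt_min n01 n12) n20
  refine ⟨min (min (η / (8 * D0)) ((κ - κ') / (4 * D0))) (min (δ1 / (2 * D0)) (C / (2 * (K + 1) * D0 ^ 3))),
    ?_, ?_⟩
  · have : 0 < κ - κ' := by linarith
    refine lt_min (lt_min (by positivity) (by positivity)) (lt_min (by positivity) (by positivity))
  intro r hr hr0 f hfc hf0 hfF
  by_contra hno
  push Not at hno
  have hr1 : r * D0 ≤ η / 8 := by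
    have : r ≤ η / (8 * D0) := hr0.trans ((min_le_left _ _).trans (min_le_left _ _))
    calc r * D0 ≤ η / (8 * D0) * D0 := by gcongr
      _ = η / 8 := by field_simp
  have hr2 : r * D0 ≤ (κ - κ') / 4 := by
    have : r ≤ (κ - κ') / (4 * D0) := hr0.trans ((min_le_left _ _).trans (min_le_right _ _))
    calc r * D0 ≤ (κ - κ') / (4 * D0) * D0 := by gcongr
      _ = (κ - κ') / 4 := by field_simp
  have hr3 : r * D0 < δ1 := by
    have : r ≤ δ1 / (2 * D0) := hr0.trans ((min_le_right _ _).trans (min_le_left _ _))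
    calc r * D0 ≤ δ1 / (2 * D0) * D0 := by gcongr
      _ = δ1 / 2 := by field_simp
      _ < δ1 := by linarith
  have hr4 : K * (r * D0) ^ 3 < r ^ 2 * C := by
    have h4 : r ≤ C / (2 * (K + 1) * D0 ^ 3) := hr0.trans ((min_le_right _ _).trans (min_le_right _ _))
    have h5 : r * (2 * (K + 1) * D0 ^ 3) ≤ C := by
      rwa [le_div_iff₀ (by positivity)] at h4
    have h6 : K * (r * D0 ^ 3) < C := by
      have : 0 < r * D0 ^ 3 := by positivity
      nlinarith
    calc K * (r * D0) ^ 3 = r ^ 2 * (K * (r * D0 ^ 3)) := by ring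
      _ < r ^ 2 * C := by gcongr
  -- the component
  set ys := (κ + κ') / 2 with hys
  set q1 := Zp p u 0 ys with hq1
  set R : Set ℂ := {z : ℂ | |cx p u z| < η ∧ φ (cx p u z) < cy p u z ∧ cy p u z < κ} with hR
  have hRo : IsOpen R := region_open p u φ hφ η κ
  have hRc : IsPreconnected R := region_preconn p u hu φ hφ η κ (by
    intro x hx
    have hx' := abs_lt.mp hx
    have := abs_le.mp (hφb' x ⟨hx'.1.le, hx'.2.le⟩)
    linarith)
  have hRM : R ⊆ M := by
    intro z hz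
    obtain ⟨h1, h2, h3⟩ := hz
    have h1' := abs_lt.mp h1
    have hx : cx p u z ∈ Icc (-η) η := ⟨h1'.1.le, h1'.2.le⟩
    have h4 := abs_le.mp (hφb' _ hx)
    have := (hφM (cx p u z) hx (cy p u z) ⟨by linarith, h3.le⟩).mpr (by rw [← hφe _ hx]; exact h2.le)
    have hz' := Zp_coord p u z hu
    unfold Zp at hz'
    rwa [hz'] at this
  have hRi : R ⊆ interior M := interior_maximal hRM hRo
  have hZR : ∀ x y, |x| < η → φ x < y → y < κ → Zp p u x y ∈ R := by
    intro x y h1 h2 h3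
    obtain ⟨e1, e2⟩ := coord_Zp p u hu x y
    refine ⟨?_, ?_, ?_⟩
    · rw [e1]; exact h1
    · rw [e1, e2]; exact h2
    · rw [e2]; exact h3
  have hφys : ∀ x, |x| < η → φ x < ys := by
    intro x hx
    have hx' := abs_lt.mp hx
    have := abs_le.mp (hφb' x ⟨hx'.1.le, hx'.2.le⟩)
    rw [hys]; linarith
  have hq1R : q1 ∈ R := hZR 0 ys (by rw [abs_zero]; exact hη) (hφys 0 (by rw [abs_zero]; exact hη))
    (by rw [hys]; linarith)
  set W := connectedComponentIn (interior M) q1 with hWdef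
  have hWo : IsOpen W := isOpen_interior.connectedComponentIn
  have hWc : IsPreconnected W := isPreconnected_connectedComponentIn
  have hRW : R ⊆ W := hRc.subset_connectedComponentIn hq1R hRi
  have hWi : W ⊆ interior M := connectedComponentIn_subset _ _
  have hWM : closure W ⊆ M := closure_minimal (hWi.trans interior_subset) hM.isClosed
  have hWb : IsCompact (closure W) := hM.of_isClosed_subset isClosed_closure hWM
  have hWF : ∀ x ∈ closure W, x ∉ W → x ∈ frontier M := by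
    intro x hx hxW
    rw [frontier, hM.isClosed.closure_eq]
    refine ⟨hWM hx, ?_⟩
    intro hxi
    apply hxW
    have h1 : IsPreconnected (closure W ∩ interior M) :=
      hWc.subset_closure (subset_inter subset_closure hWi) inter_subset_left
    exact h1.subset_connectedComponentIn ⟨subset_closure (hRW hq1R), hRi hq1R⟩ inter_subset_right ⟨hx, hxi⟩
  have hW : ∀ x y, |x| < η → φ x < y → y < κ → Zp p u x y ∈ W :=
    fun x y h1 h2 h3 => hRW (hZR x y h1 h2 h3)
  have hnW : ∀ x y, |x| < η → -κ ≤ y → y < φ x → Zp p u x y ∉ closure W := by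
    intro x y h1 h2 h3 hmem
    have h1' := abs_lt.mp h1
    have hx : x ∈ Icc (-η) η := ⟨h1'.1.le, h1'.2.le⟩
    have h4 := abs_le.mp (hφb' _ hx)
    have := (hφM x hx y ⟨h2, by linarith⟩).mp (hWM hmem)
    rw [← hφe x hx] at this
    linarith
  have hWne : (closure W).Nonempty := ⟨q1, subset_closure (hRW hq1R)⟩
  classical
  set g : ℂ → ℝ := fun x => if x ∈ closure W then f x else -infDist x (closure W) with hgdef
  have hgc : Continuous g := by
    apply continuous_if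
    · intro a ha
      have ha' : a ∈ frontier (closure W) := ha
      have hac : a ∈ closure W := by
        have := frontier_subset_closure ha'
        rwa [closure_closure] at this
      have haW : a ∉ W := by
        intro haW
        apply ha'.2
        exact interior_mono subset_closure (by rw [hWo.interior_eq]; exact haW)
      rw [hfF a (hWF a hac haW), infDist_zero_of_mem hac, neg_zero]
    · have : closure {x | x ∈ closure W} = closure W := closure_closure
      rw [this]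
      exact hfc.mono hWM
    · exact (continuous_infDist_pt _).neg.continuousOn
  have hgin : ∀ x, x ∈ closure W → g x = f x := fun x hx => if_pos hx
  set A0 : ℂ := r * w0 with hA0
  set A1 : ℂ := r * w1 with hA1
  set A2 : ℂ := r * w2 with hA2
  have hns : NoSol (closure W) g (u * (A1 - A0)) (u * (A2 - A0)) := by
    refine ⟨?_, ?_, ?_⟩
    · intro x hx
      have : g x = -infDist x (closure W) := if_neg hx
      rw [this]
      have := (isClosed_closure.notMem_iff_infDist_pos hWne).mp hx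
      linarith
    · intro x hx
      rw [hgin x hx]; exact hf0 x (hWM hx)
    · intro q θ h0 h1 h2
      rintro ⟨E1, E2⟩
      rw [hgin _ h0, hgin _ h1] at E1
      rw [hgin _ h1, hgin _ h2] at E2
      have k0 : (q - Complex.exp (θ * Complex.I) * (u * A0)) + (Complex.exp (θ * Complex.I) * u * r) * w0 = q := by
        rw [hA0]; ring
      have k1 : (q - Complex.exp (θ * Complex.I) * (u * A0)) + (Complex.exp (θ * Complex.I) * u * r) * w1 =
          q + Complex.exp (θ * Complex.I) * (u * (A1 - A0)) := by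
        rw [hA0, hA1]; ring
      have k2 : (q - Complex.exp (θ * Complex.I) * (u * A0)) + (Complex.exp (θ * Complex.I) * u * r) * w2 =
          q + Complex.exp (θ * Complex.I) * (u * (A2 - A0)) := by
        rw [hA0, hA2]; ring
      have hv : ‖Complex.exp (θ * Complex.I) * u * r‖ = r := by
        rw [norm_mul, norm_mul, Complex.norm_exp_ofReal_mul_I, hu, Complex.norm_real, Real.norm_of_nonneg hr.le]
        ring
      have := hno (q - Complex.exp (θ * Complex.I) * (u * A0)) (Complex.exp (θ * Complex.I) * u * r) hv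
      rw [k0, k1, k2] at this
      exact this (hWM h0) (hWM h1) (hWM h2) E1 E2
  have nA : ∀ a b : ℂ, ‖(r : ℂ) * a - r * b‖ = r * ‖a - b‖ := by
    intro a b
    rw [← mul_sub, norm_mul, Complex.norm_real, Real.norm_of_nonneg hr.le]
  have d01 : ‖A0 - A1‖ ≤ r * D0 := by rw [hA0, hA1, nA]; gcongr; linarith
  have d12 : ‖A1 - A2‖ ≤ r * D0 := by rw [hA1, hA2, nA]; gcongr; linarith
  have d20 : ‖A2 - A0‖ ≤ r * D0 := by rw [hA2, hA0, nA]; gcongr; linarith
  have hrD : 0 < r * D0 := by positivity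
  have hpos : ∃ x ∈ W, 0 < g x := by
    by_contra hcon
    push Not at hcon
    have hz : ∀ x ∈ W, g x = 0 := fun x hx => le_antisymm (hcon x hx) (hns.nonneg x (subset_closure hx))
    have hin : ∀ A, ‖A - A0‖ ≤ r * D0 → q1 + Complex.exp (((0 : ℝ) : ℂ) * Complex.I) * (u * (A - A0)) ∈ W := by
      intro A hA
      rw [hq1, vert]
      have b1 := abs_le.mp ((rx_le A A0 0).trans hA)
      have b2 := abs_le.mp ((ry_le A A0 0).trans hA)
      have hxx : |0 + (rx A 0 - rx A0 0)| < η := by rw [abs_lt]; constructor <;> linarith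
      apply hW _ _ hxx
      · have hx' := abs_lt.mp hxx
        have := abs_le.mp (hφb' _ ⟨hx'.1.le, hx'.2.le⟩)
        rw [hys]; linarith
      · rw [hys]; linarith
    have m1 := hin A1 (by rw [norm_sub_rev]; exact d01)
    have m2 := hin A2 d20
    have m0 := hRW hq1R
    refine hns.ns q1 0 (subset_closure m0) (subset_closure m1) (subset_closure m2) ⟨?_, ?_⟩
    · rw [hz _ m0, hz _ m1]
    · rw [hz _ m1, hz _ m2]
  have hlog := propB W hWo hWc hWb g hgc
    (fun x hx hxW => by rw [hgin x hx]; exact hfF x (hWF x hx hxW)) hpos _ _ hns q1 (hRW hq1R)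
  refine assembly p u hu η κ κ' hη hκ'0 hκ'κ φ hφ hφb' W g hgc hW hnW A0 A1 A2 (r * D0) (r * e0)
    (r ^ 2 * C) K a0 a1 (2 * K * a0) (-(2 * K * a1)) hrD (by positivity) d01 d12 d20 ?_ ?_ ?_ ?_ hK.le hr4
    hr1 hr2 ?_ ha0 ha1 ?_ ?_ hns hlog
  · rw [hA0, hA1, nA]; gcongr; exact (min_le_left _ _).trans (min_le_left _ _)
  · rw [hA1, hA2, nA]; gcongr; exact (min_le_left _ _).trans (min_le_right _ _)
  · rw [hA2, hA0, nA]; gcongr; exact min_le_right _ _
  · rw [hA0, hA1, hA2, hC]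
    simp only [← mul_sub, Complex.mul_re, Complex.mul_im, Complex.ofReal_re, Complex.ofReal_im, zero_mul, sub_zero, add_zero]
    ring
  · intro x hx x' hx' hd
    have := hδ1' x hx x' hx' (by rw [Real.dist_eq]; linarith)
    rw [Real.dist_eq] at this
    exact this.le
  · intro d hd
    exact ht0 d (by linarith)
  · intro d hd
    have := ht1 d (by linarith)
    linarith

end

end Pool.Agent.Helper303.Wind

namespace Pool.Agent.Helper303.Wind

noncomputable section

/-- Property (L) of the problem for a triangle with vertices `S 0, S 1, S 2` and a subset `M` of the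
plane. -/
def PropertyL (S : Fin 3 → ℂ) (M : Set ℂ) : Prop :=
  ∃ σ : ℝ, 0 < σ ∧ ∀ τ : ℝ, 0 < τ → τ ≤ σ → ∀ f : ℂ → ℝ, ContinuousOn f M →
    (∀ x ∈ M, 0 ≤ f x) → (∀ x ∈ frontier M, f x = 0) →
    ∃ T : Fin 3 → ℂ, Similar T S ∧ Metric.diam (Set.range T) = τ ∧
      ∃ lam : ℝ, ∀ i, T i ∈ M ∧ f (T i) = lam

/-- working form -/
def Good (w0 w1 w2 : ℂ) (M : Set ℂ) : Prop :=
    ∃ r0 : ℝ, 0 < r0 ∧ ∀ r : ℝ, 0 < r → r ≤ r0 → ∀ f : ℂ → ℝ, ContinuousOn f M →
      (∀ x ∈ M, 0 ≤ f x) → (∀ x ∈ frontier M, f x = 0) →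
      ∃ z v : ℂ, ‖v‖ = r ∧ z + v * w0 ∈ M ∧ z + v * w1 ∈ M ∧ z + v * w2 ∈ M ∧
        f (z + v * w0) = f (z + v * w1) ∧ f (z + v * w1) = f (z + v * w2)

lemma Good.swap {w0 w1 w2 : ℂ} {M : Set ℂ} (h : Good w0 w2 w1 M) : Good w0 w1 w2 M := by
  obtain ⟨r0, hr0, h⟩ := h
  refine ⟨r0, hr0, ?_⟩
  intro r hr hr' f h1 h2 h3
  obtain ⟨z, v, hv, m0, m2, m1, e1, e2⟩ := h r hr hr' f h1 h2 h3
  exact ⟨z, v, hv, m0, m1, m2, e1.trans e2, e2.symm⟩

lemma cross_ne (S : Fin 3 → ℂ) (hS : AffineIndependent ℝ S) :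
    (S 1 - S 0).re * (S 2 - S 0).im - (S 2 - S 0).re * (S 1 - S 0).im ≠ 0 := by
  intro h
  have hcol : Collinear ℝ {S 0, S 1, S 2} := by
    by_cases h10 : S 1 = S 0
    · rw [h10]
      simpa using collinear_pair ℝ (S 0) (S 2)
    · rw [collinear_iff_of_mem (p₀ := S 0) (by simp)]
      refine ⟨S 1 - S 0, ?_⟩
      have hne : (S 1 - S 0).re ^ 2 + (S 1 - S 0).im ^ 2 ≠ 0 := by
        intro h0
        apply h10
        have a1 : (S 1 - S 0).re = 0 := by nlinarith [sq_nonneg (S 1 - S 0).re, sq_nonneg (S 1 - S 0).im]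
        have a2 : (S 1 - S 0).im = 0 := by nlinarith [sq_nonneg (S 1 - S 0).re, sq_nonneg (S 1 - S 0).im]
        have : S 1 - S 0 = 0 := Complex.ext a1 a2
        exact sub_eq_zero.mp this
      intro q hq
      simp only [mem_insert_iff, mem_singleton_iff] at hq
      rcases hq with rfl | rfl | rfl
      · exact ⟨0, by simp⟩
      · exact ⟨1, by simp⟩
      · refine ⟨((S 1 - S 0).re * (S 2 - S 0).re + (S 1 - S 0).im * (S 2 - S 0).im) /
          ((S 1 - S 0).re ^ 2 + (S 1 - S 0).im ^ 2), ?_⟩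
        simp only [vadd_eq_add]
        rw [← sub_eq_iff_eq_add]
        apply Complex.ext
        · rw [Complex.real_smul, Complex.re_ofReal_mul, div_mul_eq_mul_div, eq_div_iff hne]
          linear_combination (-(S 1 - S 0).im) * h
        · rw [Complex.real_smul, Complex.im_ofReal_mul, div_mul_eq_mul_div, eq_div_iff hne]
          linear_combination ((S 1 - S 0).re) * h
  have : (fun i => S i) = ![S 0, S 1, S 2] := by
    funext i; fin_cases i <;> rfl
  have h3 : AffineIndependent ℝ ![S 0, S 1, S 2] := by rw [← this]; exact hS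
  exact (affineIndependent_iff_not_collinear_set.mp h3) hcol

lemma PropertyL_of_good (S : Fin 3 → ℂ) (hS : AffineIndependent ℝ S) (M : Set ℂ)
    (h : ∀ w0 w1 w2 : ℂ, 0 < (w1 - w0).re * (w2 - w0).im - (w2 - w0).re * (w1 - w0).im →
      Good w0 w1 w2 M) : PropertyL S M := by
  have hg : Good (S 0) (S 1) (S 2) M := by
    rcases lt_or_gt_of_ne (cross_ne S hS) with hc | hc
    · apply Good.swap
      apply h
      linarith
    · exact h _ _ _ hc
  obtain ⟨r0, hr0, hg⟩ := hg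
  set d := Metric.diam (Set.range S) with hd
  have h01 : S 0 ≠ S 1 := fun h => by simpa using hS.injective h
  have hdpos : 0 < d := by
    have : dist (S 0) (S 1) ≤ d :=
      Metric.dist_le_diam_of_mem (Set.finite_range S).isBounded ⟨0, rfl⟩ ⟨1, rfl⟩
    exact lt_of_lt_of_le (dist_pos.mpr h01) this
  refine ⟨r0 * d, by positivity, ?_⟩
  intro τ hτ hτ' f h1 h2 h3
  have hr : 0 < τ / d := by positivity
  have hr' : τ / d ≤ r0 := by rw [div_le_iff₀ hdpos]; exact hτ'
  obtain ⟨z, v, hv, m0, m1, m2, e1, e2⟩ := hg (τ / d) hr hr' f h1 h2 h3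
  have hdist : ∀ a b : ℂ, dist (z + v * a) (z + v * b) = ‖v‖ * dist a b := by
    intro a b
    rw [dist_eq_norm, dist_eq_norm, ← norm_mul]
    congr 1; ring
  have hedist : ∀ a b : ℂ, edist (z + v * a) (z + v * b) = ‖v‖₊ * edist a b := by
    intro a b
    rw [edist_dist, edist_dist, hdist, ENNReal.ofReal_mul (norm_nonneg _)]
    congr 1
    exact ofReal_norm v
  have hv0 : v ≠ 0 := by
    rw [← norm_pos_iff, hv]; exact hr
  refine ⟨fun i => z + v * S i, ?_, ?_, f (z + v * S 0), ?_⟩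
  · exact ⟨‖v‖₊, by simpa using hv0, fun i j => hedist _ _⟩
  · have himg : Set.range (fun i => z + v * S i) = (fun x => z + x) '' (v • Set.range S) := by
      ext y
      constructor
      · rintro ⟨i, rfl⟩
        exact ⟨v * S i, ⟨S i, ⟨i, rfl⟩, rfl⟩, rfl⟩
      · rintro ⟨_, ⟨_, ⟨i, rfl⟩, rfl⟩, rfl⟩
        exact ⟨i, rfl⟩
    rw [himg, (isometry_add_left z).diam_image, diam_smul₀, hv]
    field_simp
    rw [hd]
  · intro i
    fin_cases i
    · exact ⟨m0, rfl⟩
    · exact ⟨m1, e1.symm⟩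
    · exact ⟨m2, (e1.trans e2).symm⟩

end

end Pool.Agent.Helper303.Wind
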