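import Mathlib
import Pool.Agent.Helper303.Wind

open Complex Set Metric Topology
open scoped Pointwise unitInterval

namespace Pool.Agent.Helper303.Flat

noncomputable section

lemma log_homotopy {A : Type*} [TopologicalSpace A] (H : ℝ × A → ℂ) (hH : Continuous H)
    (h0 : ∀ t a, 0 ≤ t → t ≤ 1 → H (t, a) ≠ 0) (L0 : A → ℂ) (hL0 : Continuous L0)
    (hL : ∀ a, Complex.exp (L0 a) = H (0, a)) :
    ∃ L1 : A → ℂ, Continuous L1 ∧ ∀ a, Complex.exp (L1 a) = H (1, a) := by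
  let H' : C(I × A, {z : ℂ // z ≠ 0}) :=
    ⟨fun q => ⟨H ((q.1 : ℝ), q.2), h0 _ _ q.1.2.1 q.1.2.2⟩, by
      apply Continuous.subtype_mk
      exact hH.comp (by fun_prop)⟩
  let f : C(A, ℂ) := ⟨L0, hL0⟩
  have hf : ∀ a, H' (0, a) = (fun z : ℂ ↦ (⟨_, z.exp_ne_zero⟩ : {z : ℂ // z ≠ 0})) (f a) := by
    intro a
    apply Subtype.ext
    simp only [H', f, ContinuousMap.coe_mk]
    rw [hL]
    simp
  let G := Complex.isCoveringMap_exp.liftHomotopy H' f hf
  have hG := Complex.isCoveringMap_exp.liftHomotopy_lifts H' f hf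
  refine ⟨fun a => G (1, a), by fun_prop, ?_⟩
  intro a
  have := congrFun hG (1, a)
  have h2 : Complex.exp (G (1, a)) = H (((1 : I) : ℝ), a) := congrArg Subtype.val this
  rw [h2]; simp

/-- logs exist on sets that are continuous images with continuous inverse of a vector space -/
lemma log_of_param {V X : Type*} [NormedAddCommGroup V] [NormedSpace ℝ V] [TopologicalSpace X]
    (S : Set X) (P : V → X) (hP : Continuous P) (hPS : ∀ v, P v ∈ S) (Q : X → V)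
    (hQ : ContinuousOn Q S) (hPQ : ∀ x ∈ S, P (Q x) = x) (G : X → ℂ) (hG : ContinuousOn G S)
    (hG0 : ∀ x ∈ S, G x ≠ 0) : ∃ L : X → ℂ, ContinuousOn L S ∧ ∀ x ∈ S, Complex.exp (L x) = G x := by
  have hGP : Continuous (fun v => G (P v)) := by
    rw [← continuousOn_univ]
    exact hG.comp hP.continuousOn (fun v _ => hPS v)
  obtain ⟨L, hL, hLe⟩ := log_homotopy (A := V) (fun q => G (P (q.1 • q.2)))
    (hGP.comp (by fun_prop)) (fun t a _ _ => hG0 _ (hPS _))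
    (fun _ => Complex.log (G (P 0))) continuous_const
    (fun a => by simp only [zero_smul]; exact Complex.exp_log (hG0 _ (hPS _)))
  refine ⟨fun x => L (Q x), hL.comp_continuousOn hQ, ?_⟩
  intro x hx
  rw [hLe]
  simp only [one_smul]
  rw [hPQ x hx]

lemma int_const {X : Type*} [TopologicalSpace X] [PreconnectedSpace X] (D : X → ℂ)
    (hD : Continuous D) (h : ∀ x, Complex.exp (D x) = 1) (a b : X) : D a = D b := by
  have h1 : ∀ x, ∃ n : ℤ, D x = n * (2 * Real.pi * Complex.I) := by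
    intro x
    exact Complex.exp_eq_one_iff.mp (h x)
  choose n hn using h1
  have hnc : Continuous n := by
    rw [Int.isClosedEmbedding_coe_real.isEmbedding.continuous_iff]
    have : (((↑) : ℤ → ℝ) ∘ n) = fun x => ((D x) / (2 * Real.pi * Complex.I)).re := by
      funext x
      rw [hn x]
      have hpi : (2 * Real.pi * Complex.I : ℂ) ≠ 0 := by
        simp [Real.pi_ne_zero]
      rw [mul_div_assoc, div_self hpi]
      simp
    rw [this]
    fun_prop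
  have : n a = n b := PreconnectedSpace.constant inferInstance hnc
  rw [hn a, hn b, this]

lemma int_const_joined {X : Type*} [TopologicalSpace X] (S : Set X) (D : X → ℂ)
    (hD : ContinuousOn D S) (h : ∀ x ∈ S, Complex.exp (D x) = 1) (a b : X) (hab : JoinedIn S a b) :
    D a = D b := by
  obtain ⟨γ, hγ⟩ := hab
  have := int_const (fun t => D (γ t)) (hD.comp_continuous γ.continuous hγ) (fun t => h _ (hγ t)) 0 1
  simpa using this

end

end Pool.Agent.Helper303.Flat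

namespace Pool.Agent.Helper303.Flat

noncomputable section

open Pool.Agent.Helper303.Wind

lemma log_agree {z d d' lam lam' : ℂ} (h1 : 0 < (z / d).re) (h2 : 0 < (z / d').re)
    (e1 : Complex.exp lam = d) (e2 : Complex.exp lam' = d') (h3 : |lam'.im - lam.im| < Real.pi) :
    Complex.log (z / d) + lam = Complex.log (z / d') + lam' := by
  have hd : d ≠ 0 := by rw [← e1]; exact Complex.exp_ne_zero _
  have hd' : d' ≠ 0 := by rw [← e2]; exact Complex.exp_ne_zero _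
  have hz1 : z / d ≠ 0 := by intro h; rw [h] at h1; simp at h1
  have hz2 : z / d' ≠ 0 := by intro h; rw [h] at h2; simp at h2
  have k1 : Complex.exp (Complex.log (z / d) + lam) = z := by
    rw [Complex.exp_add, Complex.exp_log hz1, e1]; field_simp
  have k2 : Complex.exp (Complex.log (z / d') + lam') = z := by
    rw [Complex.exp_add, Complex.exp_log hz2, e2]; field_simp
  obtain ⟨n, hn⟩ := Complex.exp_eq_exp_iff_exists_int.mp (k1.trans k2.symm)
  have a1 := abs_lt.mp (Complex.abs_arg_lt_pi_div_two_iff.mpr (Or.inl h1))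
  have a2 := abs_lt.mp (Complex.abs_arg_lt_pi_div_two_iff.mpr (Or.inl h2))
  have h3' := abs_lt.mp h3
  have him := congrArg Complex.im hn
  simp only [Complex.add_im, Complex.log_im, Complex.mul_im, Complex.intCast_re, Complex.intCast_im,
    Complex.mul_re, Complex.ofReal_re, Complex.ofReal_im, Complex.I_re, Complex.I_im, Complex.re_ofNat,
    Complex.im_ofNat] at him
  generalize (z / d).arg = al at a1 him
  generalize (z / d').arg = be at a2 him
  ring_nf at him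
  have hn0 : n = 0 := by
    have hpi := Real.pi_pos
    have b1 : ((n : ℝ)) < 1 := by nlinarith
    have b2 : (-1 : ℝ) < n := by nlinarith
    have c1 : n < 1 := by exact_mod_cast b1
    have c2 : -1 < n := by exact_mod_cast b2
    omega
  rw [hn, hn0]; simp

/-- a rotation sending the angle spanned by `p, q` strictly into the half plane of `n` -/
lemma rot_into (p q n : ℂ) (hn : ‖n‖ = 1) (hpq : p.re * q.im - q.re * p.im ≠ 0) :
    ∃ e : ℂ, ‖e‖ = 1 ∧ 0 < (e * p * (starRingEnd ℂ) n).re ∧ 0 < (e * q * (starRingEnd ℂ) n).re := by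
  have hp : p ≠ 0 := by rintro rfl; simp at hpq
  have hq : q ≠ 0 := by rintro rfl; simp at hpq
  have hp' : 0 < ‖p‖ := norm_pos_iff.mpr hp
  have hq' : 0 < ‖q‖ := norm_pos_iff.mpr hq
  set m : ℂ := (‖q‖ : ℂ) * p + (‖p‖ : ℂ) * q with hm
  have hcs : -(‖p‖ * ‖q‖) < p.re * q.re + p.im * q.im := by
    have h1 : (p.re * q.re + p.im * q.im) ^ 2 + (p.re * q.im - q.re * p.im) ^ 2 = (‖p‖ * ‖q‖) ^ 2 := by
      rw [mul_pow, Complex.sq_norm, Complex.sq_norm, Complex.normSq_apply, Complex.normSq_apply]; ring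
    have h2 : 0 < (p.re * q.im - q.re * p.im) ^ 2 := by positivity
    have h3 : (p.re * q.re + p.im * q.im) ^ 2 < (‖p‖ * ‖q‖) ^ 2 := by linarith
    exact (abs_lt.mp (abs_lt_of_sq_lt_sq h3 (by positivity))).1
  have np : p.re ^ 2 + p.im ^ 2 = ‖p‖ ^ 2 := by
    rw [Complex.sq_norm, Complex.normSq_apply]; ring
  have nq : q.re ^ 2 + q.im ^ 2 = ‖q‖ ^ 2 := by
    rw [Complex.sq_norm, Complex.normSq_apply]; ring
  have mp : 0 < (p * (starRingEnd ℂ) m).re := by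
    have : (p * (starRingEnd ℂ) m).re = ‖q‖ * (p.re ^ 2 + p.im ^ 2) + ‖p‖ * (p.re * q.re + p.im * q.im) := by
      simp [hm]; ring
    rw [this, np]
    nlinarith [mul_pos hp' hq']
  have mq : 0 < (q * (starRingEnd ℂ) m).re := by
    have : (q * (starRingEnd ℂ) m).re = ‖p‖ * (q.re ^ 2 + q.im ^ 2) + ‖q‖ * (p.re * q.re + p.im * q.im) := by
      simp [hm]; ring
    rw [this, nq]
    nlinarith [mul_pos hp' hq']
  have hm0 : m ≠ 0 := by
    intro h
    rw [h] at mp; simp at mp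
  have hm' : 0 < ‖m‖ := norm_pos_iff.mpr hm0
  have hnn : n * (starRingEnd ℂ) n = 1 := by
    rw [Complex.mul_conj, Complex.normSq_eq_norm_sq, hn]; simp
  refine ⟨n * (starRingEnd ℂ) m / (‖m‖ : ℂ), ?_, ?_, ?_⟩
  · rw [norm_div, norm_mul, hn, Complex.norm_conj, Complex.norm_real, Real.norm_of_nonneg hm'.le]
    field_simp
  · have : n * (starRingEnd ℂ) m / (‖m‖ : ℂ) * p * (starRingEnd ℂ) n =
        (p * (starRingEnd ℂ) m) / (‖m‖ : ℂ) := by
      have : n * (starRingEnd ℂ) m / (‖m‖ : ℂ) * p * (starRingEnd ℂ) n =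
        (n * (starRingEnd ℂ) n) * ((p * (starRingEnd ℂ) m) / (‖m‖ : ℂ)) := by ring
      rw [this, hnn, one_mul]
    rw [this, Complex.div_ofReal_re]
    positivity
  · have : n * (starRingEnd ℂ) m / (‖m‖ : ℂ) * q * (starRingEnd ℂ) n =
        (q * (starRingEnd ℂ) m) / (‖m‖ : ℂ) := by
      have : n * (starRingEnd ℂ) m / (‖m‖ : ℂ) * q * (starRingEnd ℂ) n =
        (n * (starRingEnd ℂ) n) * ((q * (starRingEnd ℂ) m) / (‖m‖ : ℂ)) := by ring
      rw [this, hnn, one_mul]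
    rw [this, Complex.div_ofReal_re]
    positivity

/-- value map of a placement -/
def Pl (g : ℂ → ℝ) (A0 A1 A2 z u : ℂ) : ℂ := Fv (g (z + u * A0)) (g (z + u * A1)) (g (z + u * A2))

lemma Pl_cont {X : Type*} [TopologicalSpace X] {g : ℂ → ℝ} (hg : Continuous g) (A0 A1 A2 : ℂ)
    {z u : X → ℂ} (hz : Continuous z) (hu : Continuous u) :
    Continuous (fun x => Pl g A0 A1 A2 (z x) (u x)) := by
  unfold Pl
  apply Fv_cont
  · exact hg.comp (by fun_prop)
  · exact hg.comp (by fun_prop)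
  · exact hg.comp (by fun_prop)

structure NS (K : Set ℂ) (g : ℂ → ℝ) (A0 A1 A2 : ℂ) : Prop where
  neg : ∀ x, x ∉ K → g x < 0
  nonneg : ∀ x, x ∈ K → 0 ≤ g x
  ns : ∀ z u : ℂ, ‖u‖ = 1 → z + u * A0 ∈ K → z + u * A1 ∈ K → z + u * A2 ∈ K →
    ¬ (g (z + u * A0) = g (z + u * A1) ∧ g (z + u * A1) = g (z + u * A2))

lemma NS.ne {K : Set ℂ} {g : ℂ → ℝ} {A0 A1 A2 : ℂ} (h : NS K g A0 A1 A2) (z u : ℂ) (hu : ‖u‖ = 1)
    (hq : z + u * A0 ∈ K ∨ z + u * A1 ∈ K ∨ z + u * A2 ∈ K) : Pl g A0 A1 A2 z u ≠ 0 := by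
  have hmem : ∀ x, 0 ≤ g x → x ∈ K := by
    intro x hx
    by_contra hc
    exact absurd (h.neg x hc) (not_lt.mpr hx)
  apply Fv_ne
  rintro ⟨h1, h2⟩
  have h0 : 0 ≤ g (z + u * A0) := by
    rcases hq with hq | hq | hq
    · exact h.nonneg _ hq
    · rw [h1]; exact h.nonneg _ hq
    · rw [h1, h2]; exact h.nonneg _ hq
  exact h.ns z u hu (hmem _ h0) (hmem _ (h1 ▸ h0)) (hmem _ (h2 ▸ h1 ▸ h0)) ⟨h1, h2⟩

end

end Pool.Agent.Helper303.Flat

namespace Pool.Agent.Helper303.Flat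

noncomputable section

lemma RL (Y : Set (ℂ × ℂ))
    (hLP : ∀ G : ℂ × ℂ → ℂ, ContinuousOn G Y → (∀ y ∈ Y, G y ≠ 0) →
      ∃ L : ℂ × ℂ → ℂ, ContinuousOn L Y ∧ ∀ y ∈ Y, Complex.exp (L y) = G y)
    (F : ℂ × ℂ → ℝ) (hF : Continuous F) (l : ℝ) (x x1 : ℂ × ℂ) (hx : x ∈ Y) (hx1 : x1 ∈ Y)
    (hxl : F x = l) (hxl1 : F x1 = l)
    (hm : JoinedIn {y | y ∈ Y ∧ F y ≤ l} x x1) (hp : JoinedIn {y | y ∈ Y ∧ l ≤ F y} x x1)
    (c : ℂ × ℂ → ℂ) (hc : ContinuousOn c {y | y ∈ Y ∧ F y = l})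
    (hc1 : ∀ y ∈ Y, F y = l → Complex.exp (c y) = 1) : c x = c x1 := by
  by_contra hne
  set A : Set (ℂ × ℂ) := {y | (y ∈ Y ∧ F y = l) ∧ c y = c x} with hA
  set B : Set (ℂ × ℂ) := {y | (y ∈ Y ∧ F y = l) ∧ c y ≠ c x} with hB
  have hxA : x ∈ A := ⟨⟨hx, hxl⟩, rfl⟩
  have hxB : x1 ∈ B := ⟨⟨hx1, hxl1⟩, fun h => hne h.symm⟩
  have hFcl : ∀ (S : Set (ℂ × ℂ)) (y : ℂ × ℂ), (∀ z ∈ S, F z = l) → y ∈ closure S → F y = l := by
    intro S y hS hy
    have : closure S ⊆ {z | F z = l} := closure_minimal hS (isClosed_eq hF continuous_const)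
    exact this hy
  have hAcl : ∀ y ∈ Y, y ∈ closure A → y ∈ A := by
    intro y hy hcl
    have hFy := hFcl A y (fun z hz => hz.1.2) hcl
    refine ⟨⟨hy, hFy⟩, ?_⟩
    have h1 : ContinuousWithinAt c A y :=
      (hc y ⟨hy, hFy⟩).mono (fun z hz => hz.1)
    have h2 := h1.mem_closure_image hcl
    have h3 : c '' A ⊆ {c x} := by
      rintro _ ⟨z, hz, rfl⟩; exact hz.2
    have h4 := closure_mono h3 h2
    rw [closure_singleton] at h4
    exact h4
  have hBcl : ∀ y ∈ Y, y ∈ closure B → y ∈ B := by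
    intro y hy hcl
    have hFy := hFcl B y (fun z hz => hz.1.2) hcl
    refine ⟨⟨hy, hFy⟩, ?_⟩
    intro hcy
    have h1 : ContinuousWithinAt c B y :=
      (hc y ⟨hy, hFy⟩).mono (fun z hz => hz.1)
    have h2 := h1.mem_closure_image hcl
    have h3 : c '' B ⊆ {w | 1 ≤ ‖w - c x‖} := by
      rintro _ ⟨z, hz, rfl⟩
      have e1 := hc1 z hz.1.1 hz.1.2
      have e2 := hc1 x hx hxl
      obtain ⟨n, hn⟩ := Complex.exp_eq_exp_iff_exists_int.mp (e1.trans e2.symm)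
      have hn0 : n ≠ 0 := by
        rintro rfl
        apply hz.2
        rw [hn]; simp
      have : c z - c x = n * (2 * Real.pi * Complex.I) := by rw [hn]; ring
      simp only [Set.mem_setOf_eq]
      rw [this, norm_mul, Complex.norm_intCast]
      have : ‖(2 * Real.pi * Complex.I : ℂ)‖ = 2 * Real.pi := by
        simp [abs_of_pos Real.pi_pos]
      rw [this]
      have h1n : (1 : ℝ) ≤ |(n : ℝ)| := by exact_mod_cast Int.one_le_abs hn0
      have hpi := Real.pi_gt_three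
      nlinarith
    have h4 : closure (c '' B) ⊆ {w | 1 ≤ ‖w - c x‖} :=
      closure_minimal h3 (isClosed_le continuous_const (by fun_prop))
    have h5 := h4 h2
    simp only [Set.mem_setOf_eq] at h5
    rw [hcy] at h5
    norm_num at h5
  have hpos : ∀ y ∈ Y, 0 < infDist y A + infDist y B := by
    intro y hy
    have n1 : 0 ≤ infDist y A := infDist_nonneg
    have n2 : 0 ≤ infDist y B := infDist_nonneg
    by_contra hcon
    have z1 : infDist y A = 0 := by linarith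
    have z2 : infDist y B = 0 := by linarith
    have c1 := hAcl y hy ((mem_closure_iff_infDist_zero ⟨x, hxA⟩).mpr z1)
    have c2 := hBcl y hy ((mem_closure_iff_infDist_zero ⟨x1, hxB⟩).mpr z2)
    exact c2.2 c1.2
  set u : ℂ × ℂ → ℝ := fun y => infDist y A / (infDist y A + infDist y B) with hu
  have huc : ContinuousOn u Y :=
    (continuous_infDist_pt A).continuousOn.div
      ((continuous_infDist_pt A).add (continuous_infDist_pt B)).continuousOn
      (fun y hy => (hpos y hy).ne')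
  have huA : ∀ y ∈ A, u y = 0 := by
    intro y hy; simp only [hu]; rw [infDist_zero_of_mem hy]; simp
  have huB : ∀ y ∈ B, u y = 1 := by
    intro y hy
    simp only [hu]
    have := hpos y hy.1.1
    rw [infDist_zero_of_mem hy] at this ⊢
    rw [add_zero] at this ⊢
    exact div_self this.ne'
  set E : ℂ × ℂ → ℂ := fun y => Complex.exp (2 * Real.pi * Complex.I * (u y : ℂ)) with hE
  have hE1 : ∀ y ∈ Y, F y = l → E y = 1 := by
    intro y hy hFy
    by_cases h : c y = c x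
    · simp only [hE]; rw [huA y ⟨⟨hy, hFy⟩, h⟩]; simp
    · simp only [hE]; rw [huB y ⟨⟨hy, hFy⟩, h⟩]
      have : (2 * Real.pi * Complex.I * ((1 : ℝ) : ℂ)) = 2 * Real.pi * Complex.I := by push_cast; ring
      rw [this, Complex.exp_two_pi_mul_I]
  have hEc : ContinuousOn E Y := by
    simp only [hE]
    apply Complex.continuous_exp.comp_continuousOn
    exact continuousOn_const.mul (Complex.continuous_ofReal.comp_continuousOn huc)
  classical
  set G : ℂ × ℂ → ℂ := fun y => if F y ≤ l then E y else 1 with hG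
  have hGc : ContinuousOn G Y := by
    rw [continuousOn_iff_continuous_restrict]
    rw [continuousOn_iff_continuous_restrict] at hEc
    exact Continuous.if_le hEc continuous_const (hF.comp continuous_subtype_val) continuous_const
      (fun y hy => hE1 y y.2 hy)
  have hG0 : ∀ y ∈ Y, G y ≠ 0 := by
    intro y hy
    simp only [hG]
    split_ifs
    · exact Complex.exp_ne_zero _
    · exact one_ne_zero
  obtain ⟨L, hLc, hLe⟩ := hLP G hGc hG0
  have p1 := int_const_joined {y | y ∈ Y ∧ F y ≤ l} (fun y => L y - 2 * Real.pi * Complex.I * (u y : ℂ))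
    ((hLc.mono (fun y hy => hy.1)).sub (continuousOn_const.mul
      (Complex.continuous_ofReal.comp_continuousOn (huc.mono (fun y hy => hy.1)))))
    (fun y hy => by
      rw [Complex.exp_sub, hLe y hy.1]
      simp only [hG]
      rw [if_pos hy.2]
      simp only [hE]
      exact div_self (Complex.exp_ne_zero _)) x x1 hm
  have p2 := int_const_joined {y | y ∈ Y ∧ l ≤ F y} L (hLc.mono (fun y hy => hy.1))
    (fun y hy => by
      rw [hLe y hy.1]
      simp only [hG]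
      split_ifs with h
      · exact hE1 y hy.1 (le_antisymm h hy.2)
      · rfl) x x1 hp
  rw [huA x hxA, huB x1 hxB, p2] at p1
  have : (2 * Real.pi * Complex.I : ℂ) = 0 := by
    have := p1
    push_cast at this
    linear_combination this
  simp [Real.pi_ne_zero] at this

end

end Pool.Agent.Helper303.Flat

namespace Pool.Agent.Helper303.Flat

noncomputable section

def Up (F : ℝ × ℝ → ℂ) : Set ℂ := F '' {q | 0 < q.2}
def Dn (F : ℝ × ℝ → ℂ) : Set ℂ := F '' {q | q.2 < 0}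

lemma Up_open {F : ℝ × ℝ → ℂ} (hF : IsOpenEmbedding F) : IsOpen (Up F) :=
  hF.isOpenMap _ (isOpen_lt continuous_const continuous_snd)
lemma Dn_open {F : ℝ × ℝ → ℂ} (hF : IsOpenEmbedding F) : IsOpen (Dn F) :=
  hF.isOpenMap _ (isOpen_lt continuous_snd continuous_const)

lemma Up_Dn {F : ℝ × ℝ → ℂ} (hF : IsOpenEmbedding F) {z : ℂ} (h1 : z ∈ Up F) (h2 : z ∈ Dn F) : False := by
  obtain ⟨q, hq, rfl⟩ := h1
  obtain ⟨q', hq', he⟩ := h2
  have := hF.injective he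
  rw [this] at hq'
  simp only [Set.mem_setOf_eq] at hq hq'
  linarith

def flip (F : ℝ × ℝ → ℂ) : ℝ × ℝ → ℂ := fun q => F (q.1, -q.2)

lemma flip_emb {F : ℝ × ℝ → ℂ} (hF : IsOpenEmbedding F) : IsOpenEmbedding (flip F) := by
  have h : IsOpenEmbedding (fun q : ℝ × ℝ => (q.1, -q.2)) :=
    ((Homeomorph.refl ℝ).prodCongr (Homeomorph.neg ℝ)).isOpenEmbedding
  exact hF.comp h

lemma Up_flip (F : ℝ × ℝ → ℂ) : Up (flip F) = Dn F := by
  ext z
  constructor
  · rintro ⟨q, hq, rfl⟩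
    exact ⟨(q.1, -q.2), by simpa using hq, rfl⟩
  · rintro ⟨q, hq, rfl⟩
    exact ⟨(q.1, -q.2), by simpa using hq, by simp [flip]⟩

lemma Dn_flip (F : ℝ × ℝ → ℂ) : Dn (flip F) = Up F := by
  ext z
  constructor
  · rintro ⟨q, hq, rfl⟩
    exact ⟨(q.1, -q.2), by simpa using hq, rfl⟩
  · rintro ⟨q, hq, rfl⟩
    exact ⟨(q.1, -q.2), by simpa using hq, by simp [flip]⟩

lemma touch {F : ℝ × ℝ → ℂ} (hF : IsOpenEmbedding F) :
    ∃ (a0 : ℂ) (ρ x : ℝ), 0 < ρ ∧ ball a0 ρ ⊆ Up F ∧ dist a0 (F (x, 0)) = ρ := by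
  set p0 := F (0, 0) with hp0
  have hro : IsOpen (range F) := hF.isOpen_range
  obtain ⟨ε, hε, hεr⟩ := Metric.isOpen_iff.mp hro p0 ⟨_, rfl⟩
  set R := ε / 4 with hR
  have hRp : 0 < R := by positivity
  have hcb : closedBall p0 (2 * R) ⊆ range F := by
    intro z hz
    apply hεr
    rw [mem_closedBall] at hz
    rw [mem_ball]; linarith
  have hUo := Up_open hF
  -- a point a0
  have hlim : Filter.Tendsto (fun s : ℝ => F (0, s)) (nhdsWithin 0 (Ioi 0)) (nhds p0) := by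
    have : Continuous (fun s : ℝ => F (0, s)) := hF.continuous.comp (by fun_prop)
    exact (this.tendsto 0).mono_left nhdsWithin_le_nhds
  have hev := hlim (ball_mem_nhds p0 hRp)
  obtain ⟨s, hs, hs0⟩ := Filter.nonempty_of_mem (Filter.inter_mem (Filter.mem_map.mp hev) self_mem_nhdsWithin)
  set a0 := F (0, s) with ha0
  have ha0U : a0 ∈ Up F := ⟨(0, s), hs0, rfl⟩
  have ha0R : dist a0 p0 < R := hs
  set C := closedBall p0 (2 * R) \ Up F with hC
  have hCc : IsCompact C := (isCompact_closedBall _ _).diff hUo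
  have hp0C : p0 ∈ C := by
    refine ⟨mem_closedBall_self (by positivity), ?_⟩
    rintro ⟨q, hq, he⟩
    have := hF.injective he
    rw [this] at hq
    simp at hq
  obtain ⟨z, hzC, hz⟩ := hCc.exists_infDist_eq_dist ⟨p0, hp0C⟩ a0
  have hmin : ∀ y ∈ C, dist a0 z ≤ dist a0 y := by
    intro y hy; rw [← hz]; exact infDist_le_dist_of_mem hy
  have hzR : dist a0 z < R := lt_of_le_of_lt (hmin p0 hp0C) ha0R
  have hρ : 0 < dist a0 z := by
    rw [dist_pos]
    rintro rfl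
    exact hzC.2 ha0U
  have hball : ball a0 (dist a0 z) ⊆ Up F := by
    intro y hy
    by_contra hyU
    have hyd : dist y a0 < dist a0 z := hy
    have hyC : y ∈ C := by
      refine ⟨?_, hyU⟩
      rw [mem_closedBall]
      have := dist_triangle y a0 p0
      linarith
    have := hmin y hyC
    rw [dist_comm a0 y] at this
    linarith
  obtain ⟨q, hq⟩ := hcb hzC.1
  have hq2 : q.2 = 0 := by
    have hle : q.2 ≤ 0 := by
      by_contra h
      push Not at h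
      exact hzC.2 ⟨q, h, hq⟩
    rcases eq_or_lt_of_le hle with h | h
    · exact h
    · exfalso
      have hzD : z ∈ Dn F := ⟨q, h, hq⟩
      have hzcl : z ∈ closure (ball a0 (dist a0 z)) := by
        rw [closure_ball a0 hρ.ne', mem_closedBall, dist_comm]
      rw [_root_.mem_closure_iff] at hzcl
      obtain ⟨y, hy1, hy2⟩ := hzcl (Dn F) (Dn_open hF) hzD
      exact Up_Dn hF (hball hy2) hy1
  refine ⟨a0, dist a0 z, q.1, hρ, hball, ?_⟩
  rw [show ((q.1, (0 : ℝ)) : ℝ × ℝ) = q from Prod.ext rfl hq2.symm, hq]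

lemma Up_path {F : ℝ × ℝ → ℂ} (hF : IsOpenEmbedding F) : IsPathConnected (Up F) := by
  have h : IsPathConnected {q : ℝ × ℝ | 0 < q.2} := by
    apply Convex.isPathConnected
    · exact convex_halfSpace_gt (LinearMap.snd ℝ ℝ ℝ).isLinear 0
    · exact ⟨(0, 1), by simp⟩
  exact h.image hF.continuous

lemma Dn_path {F : ℝ × ℝ → ℂ} (hF : IsOpenEmbedding F) : IsPathConnected (Dn F) := by
  rw [← Up_flip]; exact Up_path (flip_emb hF)

/-- box around a boundary point -/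
lemma box {F : ℝ × ℝ → ℂ} (hF : IsOpenEmbedding F) (x ε : ℝ) (hε : 0 < ε) :
    ∃ δ > 0, ∀ q : ℝ × ℝ, |q.1 - x| < δ → |q.2| < δ → dist (F q) (F (x, 0)) < ε := by
  have h := Metric.continuous_iff.mp hF.continuous (x, 0) ε hε
  obtain ⟨δ, hδ, h⟩ := h
  refine ⟨δ, hδ, ?_⟩
  intro q h1 h2
  apply h
  rw [Prod.dist_eq, Real.dist_eq, Real.dist_eq]
  simp only [sub_zero]
  exact max_lt h1 h2

lemma box_open (F : ℝ × ℝ → ℂ) (hF : IsOpenEmbedding F) (x δ : ℝ) (hδ : 0 < δ) (a0 : ℂ) (ρ : ℝ) (hρ : 0 < ρ)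
    (hd : dist a0 (F (x, 0)) = ρ) (hb : ball a0 ρ ⊆ Up F) :
    ∃ q : ℝ × ℝ, |q.1 - x| < δ ∧ |q.2| < δ ∧ 0 < q.2 ∧ F q ∈ ball a0 ρ := by
  have hS : IsOpen (F '' {q : ℝ × ℝ | |q.1 - x| < δ ∧ |q.2| < δ}) := by
    apply hF.isOpenMap
    exact (isOpen_lt (f := fun q : ℝ × ℝ => |q.1 - x|) (g := fun _ => δ) (by fun_prop) (by fun_prop)).inter
      (isOpen_lt (f := fun q : ℝ × ℝ => |q.2|) (g := fun _ => δ) (by fun_prop) (by fun_prop))
  have hmem : F (x, 0) ∈ closure (ball a0 ρ) := by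
    rw [closure_ball a0 hρ.ne', mem_closedBall, dist_comm, hd]
  rw [_root_.mem_closure_iff] at hmem
  obtain ⟨y, ⟨q, hq, rfl⟩, hy⟩ := hmem _ hS ⟨(x, 0), by simpa using hδ, rfl⟩
  obtain ⟨q', hq', he⟩ := hb hy
  have : q' = q := hF.injective he
  rw [this] at hq'
  exact ⟨q, hq.1, hq.2, hq', hy⟩

end

end Pool.Agent.Helper303.Flat

namespace Pool.Agent.Helper303.Flat

noncomputable section

def nd (y : ℂ × ℂ) : ℝ := ‖y.1 - y.2‖

lemma nd_cont : Continuous nd := by unfold nd; fun_prop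

lemma seg_mem {a0 : ℂ} {ρ : ℝ} {a b : ℂ} (ha : a ∈ ball a0 ρ) (hb : b ∈ ball a0 ρ) {t : ℝ}
    (ht0 : 0 ≤ t) (ht1 : t ≤ 1) : a + (t : ℂ) * (b - a) ∈ ball a0 ρ := by
  have h := (convex_ball a0 ρ) ha hb (show (0:ℝ) ≤ 1 - t by linarith) ht0 (by ring)
  have e : (1 - t) • a + t • b = a + (t : ℂ) * (b - a) := by
    rw [Complex.real_smul, Complex.real_smul]; push_cast; ring
  rwa [e] at h

/-- moving one point of a pair along a segment -/
lemma joined_line (S : Set (ℂ × ℂ)) (P : ℝ → ℂ × ℂ) (hP : Continuous P)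
    (h : ∀ t, 0 ≤ t → t ≤ 1 → P t ∈ S) : JoinedIn S (P 0) (P 1) := by
  refine JoinedIn.ofLine (f := P) hP.continuousOn rfl rfl ?_
  rintro _ ⟨t, ht, rfl⟩
  exact h t ht.1 ht.2

/-- inner end of the upper path -/
lemma grow {a b a0 : ℂ} {l : ℝ} (hl : ‖a - b‖ = l) (h : l ^ 2 ≤ ((a - b) * (starRingEnd ℂ) (a0 - b)).re)
    {t : ℝ} (ht0 : 0 ≤ t) : l ≤ ‖(a + (t : ℂ) * (a0 - a)) - b‖ := by
  have hl0 : 0 ≤ l := by rw [← hl]; exact norm_nonneg _
  apply le_of_sq_le_sq _ (norm_nonneg _)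
  have e1 : ‖a - b‖ ^ 2 = l ^ 2 := by rw [hl]
  rw [Complex.sq_norm, Complex.normSq_apply] at e1 ⊢
  simp only [Complex.mul_re, Complex.conj_re, Complex.conj_im, Complex.sub_re, Complex.sub_im] at h
  simp only [Complex.add_re, Complex.add_im, Complex.sub_re, Complex.sub_im, Complex.mul_re,
    Complex.mul_im, Complex.ofReal_re, Complex.ofReal_im] at e1 ⊢
  have h2 : 0 ≤ (a.re - b.re) * (a0.re - a.re) + (a.im - b.im) * (a0.im - a.im) := by nlinarith
  nlinarith [mul_nonneg ht0 h2, sq_nonneg (t * (a0.re - a.re)), sq_nonneg (t * (a0.im - a.im))]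

lemma shrink {a a' b : ℂ} {l : ℝ} (h1 : ‖a - b‖ ≤ l) (h2 : ‖a' - b‖ ≤ l) {t : ℝ} (ht0 : 0 ≤ t)
    (ht1 : t ≤ 1) : ‖(a + (t : ℂ) * (a' - a)) - b‖ ≤ l := by
  have e : (a + (t : ℂ) * (a' - a)) - b = ((1 - t : ℝ) : ℂ) * (a - b) + (t : ℂ) * (a' - b) := by
    push_cast; ring
  rw [e]
  calc ‖((1 - t : ℝ) : ℂ) * (a - b) + (t : ℂ) * (a' - b)‖
      ≤ ‖((1 - t : ℝ) : ℂ) * (a - b)‖ + ‖(t : ℂ) * (a' - b)‖ := norm_add_le _ _
    _ = (1 - t) * ‖a - b‖ + t * ‖a' - b‖ := by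
        rw [norm_mul, norm_mul, Complex.norm_real, Complex.norm_real, Real.norm_of_nonneg ht0,
          Real.norm_of_nonneg (by linarith)]
    _ ≤ (1 - t) * l + t * l := by
        have : 0 ≤ 1 - t := by linarith
        gcongr
    _ = l := by ring

lemma JoinedIn.swap' {S : Set (ℂ × ℂ)} {S' : Set (ℂ × ℂ)} {x y : ℂ × ℂ} (h : JoinedIn S x y)
    (hS : ∀ z ∈ S, (z.2, z.1) ∈ S') : JoinedIn S' (x.2, x.1) (y.2, y.1) := by
  obtain ⟨γ, hγ⟩ := h
  refine ⟨⟨⟨fun t => ((γ t).2, (γ t).1), by fun_prop⟩, by simp, by simp⟩, ?_⟩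
  intro t
  exact hS _ (hγ t)

/-- half of the connection with large distance: from an inner configuration to the centre. -/
lemma far_half {F : ℝ × ℝ → ℂ} (hF : IsOpenEmbedding F) {a0 : ℂ} {ρ : ℝ} (hρ : 0 < ρ)
    (hb0 : ball a0 ρ ⊆ Up F) {a b b1 : ℂ} {l : ℝ} (ha : a ∈ ball a0 ρ) (hb : b ∈ Dn F)
    (hb1 : b1 ∈ Dn F) (hl : ‖a - b‖ = l) (hlρ : l ≤ ρ)
    (h : l ^ 2 ≤ ((a - b) * (starRingEnd ℂ) (a0 - b)).re) :
    JoinedIn {y | y ∈ Up F ×ˢ Dn F ∧ l ≤ nd y} (a, b) (a0, b1) := by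
  have ha0 : a0 ∈ ball a0 ρ := mem_ball_self hρ
  have j1 : JoinedIn {y | y ∈ Up F ×ˢ Dn F ∧ l ≤ nd y} (a, b) (a0, b) := by
    have := joined_line {y | y ∈ Up F ×ˢ Dn F ∧ l ≤ nd y} (fun t => (a + (t : ℂ) * (a0 - a), b))
      (by fun_prop) (fun t ht0 ht1 => ⟨⟨hb0 (seg_mem ha ha0 ht0 ht1), hb⟩, grow hl h ht0⟩)
    simpa using this
  have j2 : JoinedIn {y | y ∈ Up F ×ˢ Dn F ∧ l ≤ nd y} (a0, b) (a0, b1) := by
    obtain ⟨γ, hγ⟩ := (Dn_path hF).joinedIn b hb b1 hb1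
    refine ⟨⟨⟨fun t => (a0, γ t), by fun_prop⟩, by simp, by simp⟩, ?_⟩
    intro t
    refine ⟨⟨hb0 ha0, hγ t⟩, ?_⟩
    have h1 : γ t ∉ ball a0 ρ := fun hc => Up_Dn hF (hb0 hc) (hγ t)
    rw [mem_ball, not_lt, dist_comm, dist_eq_norm] at h1
    exact hlρ.trans h1
  exact j1.trans j2

/-- connection with large distance -/
lemma far_joined {F : ℝ × ℝ → ℂ} (hF : IsOpenEmbedding F) {a0 b0 : ℂ} {ρ ρ' : ℝ} (hρ : 0 < ρ) (hρ' : 0 < ρ')
    (hb0 : ball a0 ρ ⊆ Up F) (hb0' : ball b0 ρ' ⊆ Dn F) {a b a' b' : ℂ} {l : ℝ}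
    (ha : a ∈ ball a0 ρ) (hb : b ∈ Dn F) (hl : ‖a - b‖ = l) (hlρ : l ≤ ρ)
    (h : l ^ 2 ≤ ((a - b) * (starRingEnd ℂ) (a0 - b)).re)
    (ha' : a' ∈ Up F) (hb' : b' ∈ ball b0 ρ') (hl' : ‖b' - a'‖ = l) (hlρ' : l ≤ ρ')
    (h' : l ^ 2 ≤ ((b' - a') * (starRingEnd ℂ) (b0 - a')).re) :
    JoinedIn {y | y ∈ Up F ×ˢ Dn F ∧ l ≤ nd y} (a, b) (a', b') := by
  have ha0 : a0 ∈ Up F := hb0 (mem_ball_self hρ)
  have hb00 : b0 ∈ Dn F := hb0' (mem_ball_self hρ')
  have j1 := far_half hF hρ hb0 ha hb hb00 hl hlρ h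
  have j2 := far_half (flip_emb hF) hρ' (by rw [Up_flip]; exact hb0') hb' (by rw [Dn_flip]; exact ha')
    (b1 := a0) (by rw [Dn_flip]; exact ha0) hl' hlρ' h'
  have j3 : JoinedIn {y | y ∈ Up F ×ˢ Dn F ∧ l ≤ nd y} (a', b') (a0, b0) := by
    refine JoinedIn.swap' j2 ?_
    intro z hz
    rw [Up_flip, Dn_flip] at hz
    refine ⟨⟨hz.1.2, hz.1.1⟩, ?_⟩
    have := hz.2
    unfold nd at this ⊢
    rw [norm_sub_rev]; exact this
  exact j1.trans j3.symm

/-- half of the connection with small distance -/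
lemma near_half {F : ℝ × ℝ → ℂ} (hF : IsOpenEmbedding F) {a0 : ℂ} {ρ x δ s l : ℝ} (hρ : 0 < ρ)
    (hb0 : ball a0 ρ ⊆ Up F) (hd : dist a0 (F (x, 0)) = ρ) (hδ : 0 < δ)
    (hbox : ∀ q : ℝ × ℝ, |q.1 - x| < δ → |q.2| < δ → dist (F q) (F (x, 0)) < l / 4)
    (hs0 : 0 < s) (hs : s < δ) {a : ℂ} (ha : a ∈ ball a0 ρ) (hl : ‖a - F (x, -s)‖ = l) (hl0 : 0 < l) :
    JoinedIn {y | y ∈ Up F ×ˢ Dn F ∧ nd y ≤ l} (a, F (x, -s)) (F (x, s), F (x, -s)) := by
  obtain ⟨q, hq1, hq2, hq3, hq4⟩ := box_open F hF x δ hδ a0 ρ hρ hd hb0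
  have hbD : F (x, -s) ∈ Dn F := ⟨(x, -s), by simpa using hs0, rfl⟩
  have hbx : dist (F (x, -s)) (F (x, 0)) < l / 4 :=
    hbox (x, -s) (by simpa using hδ) (by simpa [abs_of_pos hs0] using hs)
  have hbxq : ∀ p : ℝ × ℝ, |p.1 - x| < δ → |p.2| < δ → ‖F p - F (x, -s)‖ ≤ l := by
    intro p h1 h2
    have h3 := hbox p h1 h2
    have := dist_triangle (F p) (F (x, 0)) (F (x, -s))
    rw [← dist_eq_norm]
    rw [dist_comm (F (x, 0)) (F (x, -s))] at this
    linarith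
  have j1 : JoinedIn {y | y ∈ Up F ×ˢ Dn F ∧ nd y ≤ l} (a, F (x, -s)) (F q, F (x, -s)) := by
    have := joined_line {y | y ∈ Up F ×ˢ Dn F ∧ nd y ≤ l} (fun t => (a + (t : ℂ) * (F q - a), F (x, -s)))
      (by fun_prop) (fun t ht0 ht1 => ⟨⟨hb0 (seg_mem ha hq4 ht0 ht1), hbD⟩,
        shrink hl.le (hbxq q hq1 hq2) ht0 ht1⟩)
    simpa using this
  have j2 : JoinedIn {y | y ∈ Up F ×ˢ Dn F ∧ nd y ≤ l} (F q, F (x, -s)) (F (x, s), F (x, -s)) := by
    have := joined_line {y | y ∈ Up F ×ˢ Dn F ∧ nd y ≤ l}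
      (fun t => (F (q.1 + t * (x - q.1), q.2 + t * (s - q.2)), F (x, -s)))
      (by have := hF.continuous; fun_prop)
      (fun t ht0 ht1 => by
        have c1 : |q.1 + t * (x - q.1) - x| < δ := by
          have : q.1 + t * (x - q.1) - x = (1 - t) * (q.1 - x) := by ring
          rw [this, abs_mul, abs_of_nonneg (by linarith : 0 ≤ 1 - t)]
          nlinarith [abs_nonneg (q.1 - x)]
        have hq2' := abs_lt.mp hq2
        have c2 : 0 < q.2 + t * (s - q.2) := by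
          have : q.2 + t * (s - q.2) = (1 - t) * q.2 + t * s := by ring
          rw [this]
          rcases eq_or_lt_of_le ht0 with h | h
          · rw [← h]; simpa using hq3
          · have : 0 ≤ (1 - t) * q.2 := mul_nonneg (by linarith) hq3.le
            have := mul_pos h hs0
            linarith
        have c3 : |q.2 + t * (s - q.2)| < δ := by
          rw [abs_of_pos c2]
          have hm : max q.2 s < δ := max_lt hq2'.2 hs
          have m1 := le_max_left q.2 s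
          have m2 := le_max_right q.2 s
          nlinarith
        exact ⟨⟨⟨_, c2, rfl⟩, hbD⟩, hbxq _ c1 c3⟩)
    simpa using this
  exact j1.trans j2

lemma near_joined {F : ℝ × ℝ → ℂ} (hF : IsOpenEmbedding F) {a0 b0 : ℂ} {ρ ρ' x x' δ s l : ℝ}
    (hρ : 0 < ρ) (hρ' : 0 < ρ') (hb0 : ball a0 ρ ⊆ Up F) (hb0' : ball b0 ρ' ⊆ Dn F)
    (hd : dist a0 (F (x, 0)) = ρ) (hd' : dist b0 (F (x', 0)) = ρ') (hδ : 0 < δ)
    (hbox : ∀ q : ℝ × ℝ, |q.1 - x| < δ → |q.2| < δ → dist (F q) (F (x, 0)) < l / 4)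
    (hbox' : ∀ q : ℝ × ℝ, |q.1 - x'| < δ → |q.2| < δ → dist (F q) (F (x', 0)) < l / 4)
    (hs0 : 0 < s) (hs : s < δ)
    (htube : ∀ t, 0 ≤ t → t ≤ 1 → ‖F (x + t * (x' - x), s) - F (x + t * (x' - x), -s)‖ ≤ l)
    {a b' : ℂ} (ha : a ∈ ball a0 ρ) (hl : ‖a - F (x, -s)‖ = l) (hl0 : 0 < l)
    (hb' : b' ∈ ball b0 ρ') (hl' : ‖b' - F (x', s)‖ = l) :
    JoinedIn {y | y ∈ Up F ×ˢ Dn F ∧ nd y ≤ l} (a, F (x, -s)) (F (x', s), b') := by
  have j1 := near_half hF hρ hb0 hd hδ hbox hs0 hs ha hl hl0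
  have j2 : JoinedIn {y | y ∈ Up F ×ˢ Dn F ∧ nd y ≤ l} (F (x, s), F (x, -s)) (F (x', s), F (x', -s)) := by
    have := joined_line {y | y ∈ Up F ×ˢ Dn F ∧ nd y ≤ l}
      (fun t => (F (x + t * (x' - x), s), F (x + t * (x' - x), -s)))
      (by have := hF.continuous; fun_prop)
      (fun t ht0 ht1 => ⟨⟨⟨_, hs0, rfl⟩, ⟨_, by simpa using hs0, rfl⟩⟩, htube t ht0 ht1⟩)
    simpa using this
  have hd'' : dist b0 (flip F (x', 0)) = ρ' := by simpa [flip] using hd'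
  have j3 := near_half (flip_emb hF) (a0 := b0) (x := x') (δ := δ) (s := s) (l := l) hρ'
    (by rw [Up_flip]; exact hb0') hd'' hδ
    (by
      intro q h1 h2
      have := hbox' (q.1, -q.2) h1 (by simpa using h2)
      simpa [flip] using this)
    hs0 hs hb' (by simpa [flip] using hl') hl0
  have j4 : JoinedIn {y | y ∈ Up F ×ˢ Dn F ∧ nd y ≤ l} (F (x', s), b') (F (x', s), F (x', -s)) := by
    have := JoinedIn.swap' (S' := {y | y ∈ Up F ×ˢ Dn F ∧ nd y ≤ l}) j3 (by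
      intro z hz
      rw [Up_flip, Dn_flip] at hz
      refine ⟨⟨hz.1.2, hz.1.1⟩, ?_⟩
      have := hz.2
      unfold nd at this ⊢
      rw [norm_sub_rev]; exact this)
    simpa [flip] using this
  exact (j1.trans j2).trans j4.symm

end

end Pool.Agent.Helper303.Flat

namespace Pool.Agent.Helper303.Flat

noncomputable section

open Pool.Agent.Helper303.Wind

lemma Up_coord {F : ℝ × ℝ → ℂ} (hF : IsOpenEmbedding F) :
    ∃ Q : ℂ → ℝ × ℝ, ContinuousOn Q (Up F) ∧ ∀ a ∈ Up F, F ((Q a).1, Real.exp (Q a).2) = a := by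
  let e := hF.toOpenPartialHomeomorph F
  have he : ∀ q, e.symm (F q) = q := by
    intro q
    have := e.left_inv (x := q) (by simp [e])
    simpa [e] using this
  have hec : ContinuousOn e.symm (Up F) := by
    apply e.continuousOn_symm.mono
    rintro _ ⟨q, _, rfl⟩
    simp [e]
  refine ⟨fun a => ((e.symm a).1, Real.log (e.symm a).2), ?_, ?_⟩
  · apply ContinuousOn.prodMk
    · exact continuous_fst.comp_continuousOn hec
    · apply ContinuousOn.log
      · exact continuous_snd.comp_continuousOn hec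
      · rintro _ ⟨q, hq, rfl⟩
        rw [he]
        exact ne_of_gt hq
  · rintro _ ⟨q, hq, rfl⟩
    simp only [he]
    rw [Real.exp_log hq]

lemma Up_par {F : ℝ × ℝ → ℂ} (v : ℝ × ℝ) : F (v.1, Real.exp v.2) ∈ Up F :=
  ⟨_, Real.exp_pos _, rfl⟩

/-- logs exist on the product of the two sides -/
lemma LP {F : ℝ × ℝ → ℂ} (hF : IsOpenEmbedding F) (G : ℂ × ℂ → ℂ)
    (hG : ContinuousOn G (Up F ×ˢ Dn F)) (hG0 : ∀ y ∈ Up F ×ˢ Dn F, G y ≠ 0) :
    ∃ L : ℂ × ℂ → ℂ, ContinuousOn L (Up F ×ˢ Dn F) ∧ ∀ y ∈ Up F ×ˢ Dn F, Complex.exp (L y) = G y := by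
  obtain ⟨Q, hQ, hQe⟩ := Up_coord hF
  obtain ⟨Q', hQ', hQe'⟩ := Up_coord (flip_emb hF)
  rw [Up_flip] at hQ' hQe'
  have hFc := hF.continuous
  have hFc' := (flip_emb hF).continuous
  refine log_of_param (V := (ℝ × ℝ) × (ℝ × ℝ)) (Up F ×ˢ Dn F)
    (fun v => (F (v.1.1, Real.exp v.1.2), flip F (v.2.1, Real.exp v.2.2))) (by fun_prop)
    (fun v => ⟨Up_par v.1, by rw [← Up_flip]; exact Up_par v.2⟩)
    (fun x => (Q x.1, Q' x.2)) ?_ ?_ G hG hG0
  · apply ContinuousOn.prodMk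
    · exact hQ.comp continuous_fst.continuousOn (fun x hx => hx.1)
    · exact hQ'.comp continuous_snd.continuousOn (fun x hx => hx.2)
  · intro x hx
    simp only
    rw [hQe x.1 hx.1, hQe' x.2 hx.2]

lemma lift_exists {F : ℝ × ℝ → ℂ} (hF : IsOpenEmbedding F) {a0 : ℂ} {ρ : ℝ} (hρ : 0 < ρ)
    (hb0 : ball a0 ρ ⊆ Up F) (W : Set ℂ) (hWo : IsOpen W) (hWc : IsPreconnected W)
    (hWb : IsCompact (closure W)) (hUW : Up F ⊆ W)
    (g : ℂ → ℝ) (hg : Continuous g) (hgF : ∀ x ∈ closure W, x ∉ W → g x = 0)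
    (hpos : ∃ x ∈ W, 0 < g x) (A0 A1 A2 : ℂ) (hns : NS (closure W) g A0 A1 A2) (X : ℂ)
    (hX : X = A0 ∨ X = A1 ∨ X = A2) (hXd : ‖A0 - X‖ < ρ) :
    ∃ L : ℂ × ℂ → ℂ, ContinuousOn L (Up F ×ˢ sphere (0 : ℂ) 1) ∧
      ∀ a ∈ Up F, ∀ u : ℂ, ‖u‖ = 1 → Complex.exp (L (a, u)) = Pl g A0 A1 A2 (a - u * X) u := by
  obtain ⟨x0, hx0, hx0'⟩ := hpos
  obtain ⟨q0, hq0, hmax⟩ := hWb.exists_isMaxOn ⟨x0, subset_closure hx0⟩ hg.continuousOn
  have hq0pos : 0 < g q0 := lt_of_lt_of_le hx0' (hmax (subset_closure hx0))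
  have hq0W : q0 ∈ W := by
    by_contra hc
    exact absurd (hgF q0 hq0 hc) hq0pos.ne'
  have hglob : ∀ x, g x ≤ g q0 := by
    intro x
    by_cases hx : x ∈ closure W
    · exact hmax hx
    · exact ((hns.neg x hx).trans hq0pos).le
  have ha0U : a0 ∈ Up F := hb0 (mem_ball_self hρ)
  have hWpc : IsPathConnected W := hWo.isConnected_iff_isPathConnected.mp ⟨⟨q0, hq0W⟩, hWc⟩
  obtain ⟨γ, hγ⟩ := (hWpc.joinedIn q0 hq0W a0 (hUW ha0U))
  have hFc := hF.continuous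
  obtain ⟨Q, hQ, hQe⟩ := Up_coord hF
  set v0 := Q a0 with hv0
  -- stage 0 and 1
  obtain ⟨L1, hL1, hL1e⟩ := log_homotopy (A := (ℝ × ℝ) × (sphere (0 : ℂ) 1))
    (fun q => Pl g A0 A1 A2 (γ.extend q.1 - (q.2.2 : ℂ) * A0) (q.2.2 : ℂ))
    (Pl_cont hg _ _ _ (by have := γ.continuous_extend; fun_prop) (by fun_prop))
    (by
      rintro t ⟨v, u⟩ ht0 ht1
      apply hns.ne _ _ (by simpa using u.2)
      left
      simp only
      rw [Path.extend_apply _ ⟨ht0, ht1⟩, sub_add_cancel]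
      exact subset_closure (hγ _))
    (fun q => Complex.log (Pl g A0 A1 A2 (q0 - (q.2 : ℂ) * A0) (q.2 : ℂ)))
    (by
      apply Continuous.clog
      · exact Pl_cont hg _ _ _ (by fun_prop) (by fun_prop)
      · rintro ⟨v, u⟩
        left
        simp only
        have hne := hns.ne (q0 - (u : ℂ) * A0) (u : ℂ) (by simpa using u.2)
          (Or.inl (by rw [sub_add_cancel]; exact hq0))
        have e0 : q0 - (u : ℂ) * A0 + (u : ℂ) * A0 = q0 := sub_add_cancel _ _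
        have h1 := hglob (q0 - (u : ℂ) * A0 + (u : ℂ) * A1)
        have h2 := hglob (q0 - (u : ℂ) * A0 + (u : ℂ) * A2)
        unfold Pl Fv at hne ⊢
        rw [e0] at hne ⊢
        simp only
        by_contra hc
        push Not at hc
        apply hne
        apply Complex.ext
        · simp only [Complex.zero_re]; linarith
        · simp only [Complex.zero_im]; linarith)
    (by
      rintro ⟨v, u⟩
      simp only
      rw [Path.extend_zero]
      apply Complex.exp_log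
      apply hns.ne _ _ (by simpa using u.2)
      left
      rw [sub_add_cancel]; exact hq0)
  -- stage 2
  obtain ⟨L2, hL2, hL2e⟩ := log_homotopy (A := (ℝ × ℝ) × (sphere (0 : ℂ) 1))
    (fun q => Pl g A0 A1 A2 (a0 - (q.2.2 : ℂ) * ((1 - q.1 : ℂ) * A0 + (q.1 : ℂ) * X)) (q.2.2 : ℂ))
    (Pl_cont hg _ _ _ (by fun_prop) (by fun_prop))
    (by
      rintro t ⟨v, u⟩ ht0 ht1
      have hu : ‖(u : ℂ)‖ = 1 := by simpa using u.2
      apply hns.ne _ _ hu
      left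
      apply subset_closure
      apply hUW
      apply hb0
      simp only
      rw [mem_ball, dist_eq_norm]
      have : a0 - (u : ℂ) * ((1 - t : ℂ) * A0 + (t : ℂ) * X) + (u : ℂ) * A0 - a0 =
          (u : ℂ) * ((t : ℂ) * (A0 - X)) := by ring
      rw [this, norm_mul, norm_mul, hu, one_mul, Complex.norm_real, Real.norm_of_nonneg ht0]
      calc t * ‖A0 - X‖ ≤ 1 * ‖A0 - X‖ := by gcongr
        _ < ρ := by rw [one_mul]; exact hXd)
    L1 hL1
    (by
      rintro ⟨v, u⟩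
      rw [hL1e]
      simp)
  -- stage 3
  obtain ⟨L3, hL3, hL3e⟩ := log_homotopy (A := (ℝ × ℝ) × (sphere (0 : ℂ) 1))
    (fun q => Pl g A0 A1 A2 (F (v0.1 + q.1 * (q.2.1.1 - v0.1), Real.exp (v0.2 + q.1 * (q.2.1.2 - v0.2))) -
      (q.2.2 : ℂ) * X) (q.2.2 : ℂ))
    (Pl_cont hg _ _ _ (by fun_prop) (by fun_prop))
    (by
      rintro t ⟨v, u⟩ ht0 ht1
      have hu : ‖(u : ℂ)‖ = 1 := by simpa using u.2
      apply hns.ne _ _ hu
      have hm : F (v0.1 + t * (v.1 - v0.1), Real.exp (v0.2 + t * (v.2 - v0.2))) ∈ closure W :=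
        subset_closure (hUW ⟨_, Real.exp_pos _, rfl⟩)
      rcases hX with h | h | h
      · left; simp only; rw [← h, sub_add_cancel]; exact hm
      · right; left; simp only; rw [← h, sub_add_cancel]; exact hm
      · right; right; simp only; rw [← h, sub_add_cancel]; exact hm)
    L2 hL2
    (by
      rintro ⟨v, u⟩
      rw [hL2e]
      simp only [Complex.ofReal_one, sub_self, zero_mul, zero_add, one_mul, add_zero]
      rw [hv0, hQe a0 ha0U])
  classical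
  refine ⟨fun x => if h : x.2 ∈ sphere (0 : ℂ) 1 then L3 (Q x.1, ⟨x.2, h⟩) else 0, ?_, ?_⟩
  · rw [continuousOn_iff_continuous_restrict]
    have : (Set.domRestrict (Up F ×ˢ sphere (0 : ℂ) 1) fun x : ℂ × ℂ =>
        if h : x.2 ∈ sphere (0 : ℂ) 1 then L3 (Q x.1, ⟨x.2, h⟩) else 0) =
        fun x => L3 (Q x.1.1, ⟨x.1.2, x.2.2⟩) := by
      funext x
      exact dif_pos x.2.2
    rw [this]
    apply hL3.comp
    apply Continuous.prodMk
    · exact hQ.comp_continuous (by fun_prop) (fun x => x.2.1)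
    · apply Continuous.subtype_mk
      fun_prop
  · intro a ha u hu
    have hus : u ∈ sphere (0 : ℂ) 1 := by simpa using hu
    simp only
    rw [dif_pos hus, hL3e]
    simp only [one_mul, add_sub_cancel]
    rw [hQe a ha]

end

end Pool.Agent.Helper303.Flat

namespace Pool.Agent.Helper303.Flat

noncomputable section

open Pool.Agent.Helper303.Wind

/-- the geometric data of a chart with touching discs on both sides -/
structure Geo (F : ℝ × ℝ → ℂ) (a0 b0 : ℂ) (ρ ρ' x x' : ℝ) : Prop where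
  emb : IsOpenEmbedding F
  hρ : 0 < ρ
  hρ' : 0 < ρ'
  ballU : ball a0 ρ ⊆ Up F
  ballD : ball b0 ρ' ⊆ Dn F
  dU : dist a0 (F (x, 0)) = ρ
  dD : dist b0 (F (x', 0)) = ρ'

lemma rod_const {F : ℝ × ℝ → ℂ} {a0 b0 : ℂ} {ρ ρ' x x' : ℝ} (G : Geo F a0 b0 ρ ρ' x x')
    {K : Set ℂ} {g : ℂ → ℝ} (hg : Continuous g) (A0 A1 A2 : ℂ)
    (hU : ∀ z ∈ Up F, 0 ≤ g z) (hD : ∀ z ∈ Dn F, g z < 0)
    {X X' : ℂ} {L : ℂ × ℂ → ℂ} (hL : ContinuousOn L (Up F ×ˢ sphere (0 : ℂ) 1))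
    (hLe : ∀ a ∈ Up F, ∀ u : ℂ, ‖u‖ = 1 → Complex.exp (L (a, u)) = Pl g A0 A1 A2 (a - u * X) u)
    {d : ℂ} (hH : ∀ z u : ℂ, 0 ≤ g (z + u * X) → g (z + u * X') < 0 →
      0 < (Pl g A0 A1 A2 z u / d).re)
    {s δ l : ℝ} (hs0 : 0 < s) (hs : s < δ) (hl0 : 0 < l) (hl : ‖X - X'‖ = l) (hlρ : l ≤ ρ) (hlρ' : l ≤ ρ')
    (hbox : ∀ q : ℝ × ℝ, |q.1 - x| < δ → |q.2| < δ → dist (F q) (F (x, 0)) < l / 4)
    (hbox' : ∀ q : ℝ × ℝ, |q.1 - x'| < δ → |q.2| < δ → dist (F q) (F (x', 0)) < l / 4)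
    (htube : ∀ t, 0 ≤ t → t ≤ 1 → ‖F (x + t * (x' - x), s) - F (x + t * (x' - x), -s)‖ ≤ l)
    {u v : ℂ} (hu : ‖u‖ = 1) (hv : ‖v‖ = 1)
    (hin1 : F (x, -s) + u * (X - X') ∈ ball a0 ρ)
    (hin2 : l ^ 2 ≤ ((u * (X - X')) * (starRingEnd ℂ) (a0 - F (x, -s))).re)
    (hout1 : F (x', s) + v * (X' - X) ∈ ball b0 ρ')
    (hout2 : l ^ 2 ≤ ((v * (X' - X)) * (starRingEnd ℂ) (b0 - F (x', s))).re) :
    L (F (x, -s) + u * (X - X'), u) -
        Complex.log (Pl g A0 A1 A2 (F (x, -s) - u * X') u / d) =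
      L (F (x', s), v) - Complex.log (Pl g A0 A1 A2 (F (x', s) - v * X) v / d) := by
  have hXne : X' - X ≠ 0 := by
    intro h
    have : X - X' = 0 := by rw [← neg_sub, h, neg_zero]
    rw [this, norm_zero] at hl
    linarith
  have hδ : 0 < δ := hs0.trans hs
  have hD' : F (x, -s) ∈ Dn F := ⟨(x, -s), by simpa using hs0, rfl⟩
  have hU' : F (x', s) ∈ Up F := ⟨(x', s), hs0, rfl⟩
  have hla : ‖(F (x, -s) + u * (X - X')) - F (x, -s)‖ = l := by
    rw [add_sub_cancel_left, norm_mul, hu, one_mul, hl]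
  have hlb : ‖(F (x', s) + v * (X' - X)) - F (x', s)‖ = l := by
    rw [add_sub_cancel_left, norm_mul, hv, one_mul, norm_sub_rev, hl]
  set c : ℂ × ℂ → ℂ := fun y => L (y.1, (y.2 - y.1) / (X' - X)) -
    Complex.log (Pl g A0 A1 A2 (y.1 - (y.2 - y.1) / (X' - X) * X) ((y.2 - y.1) / (X' - X)) / d) - Complex.log d
    with hc
  have hd0 : d ≠ 0 := by
    intro h
    have h1 := hH (F (x', s) - v * X) v (by rw [sub_add_cancel]; exact hU _ hU')
      (by
        have : F (x', s) - v * X + v * X' = F (x', s) + v * (X' - X) := by ring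
        rw [this]
        exact hD _ (G.ballD hout1))
    rw [h] at h1
    simp at h1
  have hw : ∀ y : ℂ × ℂ, nd y = l → ‖(y.2 - y.1) / (X' - X)‖ = 1 := by
    intro y hy
    rw [norm_div, norm_sub_rev, norm_sub_rev X' X, hl]
    unfold nd at hy
    rw [hy]
    exact div_self hl0.ne'
  have hpos : ∀ y ∈ Up F ×ˢ Dn F, nd y = l →
      0 < (Pl g A0 A1 A2 (y.1 - (y.2 - y.1) / (X' - X) * X) ((y.2 - y.1) / (X' - X)) / d).re := by
    intro y hy hyl
    apply hH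
    · rw [sub_add_cancel]; exact hU _ hy.1
    · have : y.1 - (y.2 - y.1) / (X' - X) * X + (y.2 - y.1) / (X' - X) * X' = y.2 := by
        field_simp; ring
      rw [this]; exact hD _ hy.2
  have key := RL (Up F ×ˢ Dn F) (LP G.emb) nd nd_cont l (F (x, -s) + u * (X - X'), F (x, -s))
    (F (x', s), F (x', s) + v * (X' - X)) ⟨G.ballU hin1, hD'⟩ ⟨hU', G.ballD hout1⟩ hla
    (by unfold nd; rw [norm_sub_rev]; exact hlb)
    (near_joined G.emb G.hρ G.hρ' G.ballU G.ballD G.dU G.dD hδ hbox hbox' hs0 hs htube hin1 hla hl0 hout1 hlb)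
    (far_joined G.emb G.hρ G.hρ' G.ballU G.ballD hin1 hD' hla hlρ
      (by rw [add_sub_cancel_left]; exact hin2) hU' hout1 hlb hlρ' (by rw [add_sub_cancel_left]; exact hout2))
    c
    (by
      have hwc : Continuous (fun y : ℂ × ℂ => (y.2 - y.1) / (X' - X)) := by fun_prop
      apply ContinuousOn.sub
      · apply ContinuousOn.sub
        · apply hL.comp (f := fun y : ℂ × ℂ => (y.1, (y.2 - y.1) / (X' - X)))
          · exact (continuous_fst.prodMk hwc).continuousOn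
          · intro y hy
            exact ⟨hy.1.1, by simpa using hw y hy.2⟩
        · apply ContinuousOn.clog
          · apply Continuous.continuousOn
            apply Continuous.div_const
            exact Pl_cont hg _ _ _ (continuous_fst.sub (hwc.mul continuous_const)) hwc
          · intro y hy
            exact Or.inl (hpos y hy.1 hy.2)
      · exact continuousOn_const)
    (by
      intro y hy hyl
      have hp := hpos y hy hyl
      have hne : Pl g A0 A1 A2 (y.1 - (y.2 - y.1) / (X' - X) * X) ((y.2 - y.1) / (X' - X)) / d ≠ 0 := by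
        intro h; rw [h] at hp; simp at hp
      simp only [hc]
      rw [Complex.exp_sub, Complex.exp_sub, hLe _ hy.1 _ (hw y hyl), Complex.exp_log hne, Complex.exp_log hd0]
      have hne2 : Pl g A0 A1 A2 (y.1 - (y.2 - y.1) / (X' - X) * X) ((y.2 - y.1) / (X' - X)) ≠ 0 := by
        intro h; rw [h] at hne; simp at hne
      rw [div_div, div_mul_cancel₀ _ hd0, div_self hne2])
  simp only [hc] at key
  have e1 : (F (x, -s) - (F (x, -s) + u * (X - X'))) / (X' - X) = u := by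
    rw [div_eq_iff hXne]; ring
  have e2 : (F (x', s) + v * (X' - X) - F (x', s)) / (X' - X) = v := by
    rw [add_sub_cancel_left, mul_div_assoc, div_self hXne, mul_one]
  rw [e1, e2] at key
  have e3 : F (x, -s) + u * (X - X') - u * X = F (x, -s) - u * X' := by ring
  rw [e3] at key
  exact sub_left_injective key

end

end Pool.Agent.Helper303.Flat

namespace Pool.Agent.Helper303.Flat

noncomputable section

open Pool.Agent.Helper303.Wind

lemma re_div_pos {z d : ℂ} (h : 0 < (z * (starRingEnd ℂ) d).re) : 0 < (z / d).re := by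
  have hd : d ≠ 0 := by rintro rfl; simp at h
  have hn : 0 < Complex.normSq d := Complex.normSq_pos.mpr hd
  rw [Complex.div_re, ← add_div]
  simp only [Complex.mul_re, Complex.conj_re, Complex.conj_im] at h
  apply div_pos _ hn
  linarith

lemma rot_into' (p q N : ℂ) (hN : N ≠ 0) (hpq : p.re * q.im - q.re * p.im ≠ 0) :
    ∃ e : ℂ, ‖e‖ = 1 ∧ 0 < (e * p * (starRingEnd ℂ) N).re ∧ 0 < (e * q * (starRingEnd ℂ) N).re := by
  have hN' : 0 < ‖N‖ := norm_pos_iff.mpr hN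
  have h1 : ‖N / (‖N‖ : ℂ)‖ = 1 := by
    rw [norm_div, Complex.norm_real, norm_norm]; exact div_self hN'.ne'
  obtain ⟨e, he, h2, h3⟩ := rot_into p q (N / (‖N‖ : ℂ)) h1 hpq
  have hNc : (‖N‖ : ℂ) ≠ 0 := by exact_mod_cast hN'.ne'
  refine ⟨e, he, ?_, ?_⟩
  · have : e * p * (starRingEnd ℂ) N = (‖N‖ : ℂ) * (e * p * (starRingEnd ℂ) (N / (‖N‖ : ℂ))) := by
      rw [map_div₀, Complex.conj_ofReal]
      field_simp
    rw [this, Complex.re_ofReal_mul]
    positivity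
  · have : e * q * (starRingEnd ℂ) N = (‖N‖ : ℂ) * (e * q * (starRingEnd ℂ) (N / (‖N‖ : ℂ))) := by
      rw [map_div₀, Complex.conj_ofReal]
      field_simp
    rw [this, Complex.re_ofReal_mul]
    positivity

lemma ev_ball {Z : ℝ → ℂ} (hZ : Continuous Z) {a0 : ℂ} {ρ : ℝ} (hρ : 0 < ρ) (hd : dist a0 (Z 0) = ρ) {v : ℂ}
    (hv : ‖v‖ ^ 2 < (v * (starRingEnd ℂ) (a0 - Z 0)).re) :
    ∀ᶠ s in 𝓝 (0 : ℝ), Z s + v ∈ ball a0 ρ ∧ ‖v‖ ^ 2 ≤ (v * (starRingEnd ℂ) (a0 - Z s)).re := by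
  apply Filter.Eventually.and
  · have h0 : Z 0 + v ∈ ball a0 ρ := by
      rw [mem_ball, dist_eq_norm]
      rw [dist_eq_norm] at hd
      apply lt_of_pow_lt_pow_left₀ 2 hρ.le
      rw [← hd]
      rw [Complex.sq_norm, Complex.sq_norm, Complex.normSq_apply, Complex.normSq_apply]
      rw [Complex.sq_norm, Complex.normSq_apply] at hv
      simp only [Complex.mul_re, Complex.conj_re, Complex.conj_im, Complex.sub_re, Complex.sub_im] at hv
      simp only [Complex.add_re, Complex.add_im, Complex.sub_re, Complex.sub_im]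
      nlinarith [sq_nonneg v.re, sq_nonneg v.im]
    have hc : Continuous (fun s => Z s + v) := by fun_prop
    exact hc.tendsto 0 (isOpen_ball.mem_nhds h0)
  · have hc : Continuous (fun s => (v * (starRingEnd ℂ) (a0 - Z s)).re) := by fun_prop
    have := (hc.tendsto 0).eventually (lt_mem_nhds hv)
    exact this.mono (fun s hs => le_of_lt hs)

lemma deep {F : ℝ × ℝ → ℂ} {a0 : ℂ} {ρ : ℝ} (hρ : 0 < ρ) (hb0 : ball a0 ρ ⊆ Up F)
    {g : ℂ → ℝ} (A0 A1 A2 : ℂ) {X X' : ℂ} {L L' : ℂ × ℂ → ℂ}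
    (hL : ContinuousOn L (Up F ×ˢ sphere (0 : ℂ) 1)) (hL' : ContinuousOn L' (Up F ×ˢ sphere (0 : ℂ) 1))
    (hLe : ∀ a ∈ Up F, ∀ u : ℂ, ‖u‖ = 1 → Complex.exp (L (a, u)) = Pl g A0 A1 A2 (a - u * X) u)
    (hLe' : ∀ a ∈ Up F, ∀ u : ℂ, ‖u‖ = 1 → Complex.exp (L' (a, u)) = Pl g A0 A1 A2 (a - u * X') u)
    (hX : ‖X - A0‖ < ρ) (hX' : ‖X' - A0‖ < ρ) (z u : ℂ) (hu : ‖u‖ = 1)
    (h1 : z + u * X ∈ ball a0 ρ) (h2 : z + u * X' ∈ ball a0 ρ) :
    L (z + u * X, u) - L' (z + u * X', u) =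
      L (a0 + (X - A0), 1) - L' (a0 + (X' - A0), 1) := by
  set S : Set (ℂ × ℂ) := {y | y.1 + y.2 * X ∈ ball a0 ρ ∧ y.1 + y.2 * X' ∈ ball a0 ρ ∧ ‖y.2‖ = 1} with hS
  set D : ℂ × ℂ → ℂ := fun y => L (y.1 + y.2 * X, y.2) - L' (y.1 + y.2 * X', y.2) with hD
  have hDc : ContinuousOn D S := by
    apply ContinuousOn.sub
    · apply hL.comp (f := fun y : ℂ × ℂ => (y.1 + y.2 * X, y.2)) (by fun_prop)
      intro y hy
      exact ⟨hb0 hy.1, by simpa using hy.2.2⟩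
    · apply hL'.comp (f := fun y : ℂ × ℂ => (y.1 + y.2 * X', y.2)) (by fun_prop)
      intro y hy
      exact ⟨hb0 hy.2.1, by simpa using hy.2.2⟩
  have hDe : ∀ y ∈ S, Complex.exp (D y) = 1 := by
    intro y hy
    simp only [hD]
    rw [Complex.exp_sub, hLe _ (hb0 hy.1) _ hy.2.2, hLe' _ (hb0 hy.2.1) _ hy.2.2, add_sub_cancel_right,
      add_sub_cancel_right, div_self]
    have := Complex.exp_ne_zero (L (y.1 + y.2 * X, y.2))
    rw [hLe _ (hb0 hy.1) _ hy.2.2, add_sub_cancel_right] at this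
    exact this
  have hrot : ∀ w : ℂ, ‖w‖ = 1 → a0 - w * A0 + w * X ∈ ball a0 ρ ∧ a0 - w * A0 + w * X' ∈ ball a0 ρ := by
    intro w hw
    constructor
    · rw [mem_ball, dist_eq_norm]
      have : a0 - w * A0 + w * X - a0 = w * (X - A0) := by ring
      rw [this, norm_mul, hw, one_mul]; exact hX
    · rw [mem_ball, dist_eq_norm]
      have : a0 - w * A0 + w * X' - a0 = w * (X' - A0) := by ring
      rw [this, norm_mul, hw, one_mul]; exact hX'
  have j1 : JoinedIn S (z, u) (a0 - u * A0, u) := by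
    have := joined_line S (fun t => (z + (t : ℂ) * (a0 - u * A0 - z), u)) (by fun_prop)
      (fun t ht0 ht1 => by
        refine ⟨?_, ?_, hu⟩
        · have := seg_mem h1 (hrot u hu).1 ht0 ht1
          simp only
          convert this using 1
          ring
        · have := seg_mem h2 (hrot u hu).2 ht0 ht1
          simp only
          convert this using 1
          ring)
    simpa using this
  have j2 : JoinedIn S (a0 - u * A0, u) (a0 - 1 * A0, 1) := by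
    have := joined_line S (fun t => (a0 - Complex.exp (((1 - t) * Complex.arg u : ℝ) * Complex.I) * A0,
      Complex.exp (((1 - t) * Complex.arg u : ℝ) * Complex.I))) (by fun_prop)
      (fun t _ _ => by
        have hn : ‖Complex.exp (((1 - t) * Complex.arg u : ℝ) * Complex.I)‖ = 1 :=
          Complex.norm_exp_ofReal_mul_I _
        exact ⟨(hrot _ hn).1, (hrot _ hn).2, hn⟩)
    have e0 : Complex.exp (((1 - (0 : ℝ)) * Complex.arg u : ℝ) * Complex.I) = u := by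
      have := Complex.norm_mul_exp_arg_mul_I u
      rw [hu] at this
      simpa using this
    have e1 : Complex.exp (((1 - (1 : ℝ)) * Complex.arg u : ℝ) * Complex.I) = 1 := by simp
    simp only [e0, e1] at this
    exact this
  have := int_const_joined S D hDc hDe _ _ (j1.trans j2)
  simp only [hD] at this
  rw [this]
  congr 3
  · ring
  · ring

end

end Pool.Agent.Helper303.Flat

namespace Pool.Agent.Helper303.Flat

noncomputable section

open Pool.Agent.Helper303.Wind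

lemma Fv_re (a b c : ℝ) : (Fv a b c).re = a - (b + c) / 2 := rfl
lemma Fv_im (a b c : ℝ) : (Fv a b c).im = b - c := rfl

/-- the contradiction, for one placement scale and one small parameter `s` -/
lemma chain {F : ℝ × ℝ → ℂ} {a0 b0 : ℂ} {ρ ρ' x x' : ℝ} (G : Geo F a0 b0 ρ ρ' x x')
    {g : ℂ → ℝ} (hg : Continuous g) (A0 A1 A2 : ℂ)
    (hU : ∀ z ∈ Up F, 0 ≤ g z) (hD : ∀ z ∈ Dn F, g z < 0)
    (hlift : ∀ X, (X = A0 ∨ X = A1 ∨ X = A2) → ‖A0 - X‖ < ρ →
      ∃ L : ℂ × ℂ → ℂ, ContinuousOn L (Up F ×ˢ sphere (0 : ℂ) 1) ∧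
      ∀ a ∈ Up F, ∀ u : ℂ, ‖u‖ = 1 → Complex.exp (L (a, u)) = Pl g A0 A1 A2 (a - u * X) u)
    {s δ l : ℝ} (hs0 : 0 < s) (hs : s < δ) (hl : 0 < l)
    (l01 : l ≤ ‖A0 - A1‖) (l12 : l ≤ ‖A1 - A2‖) (l20 : l ≤ ‖A2 - A0‖)
    (m01 : ‖A0 - A1‖ < min ρ ρ') (m12 : ‖A1 - A2‖ < min ρ ρ') (m20 : ‖A2 - A0‖ < min ρ ρ')
    (hbox : ∀ q : ℝ × ℝ, |q.1 - x| < δ → |q.2| < δ → dist (F q) (F (x, 0)) < l / 4)
    (hbox' : ∀ q : ℝ × ℝ, |q.1 - x'| < δ → |q.2| < δ → dist (F q) (F (x', 0)) < l / 4)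
    (htube : ∀ t, 0 ≤ t → t ≤ 1 → ‖F (x + t * (x' - x), s) - F (x + t * (x' - x), -s)‖ ≤ l)
    {u0 u1 u2 v0 v1 v2 : ℂ} (hu0 : ‖u0‖ = 1) (hu1 : ‖u1‖ = 1) (hu2 : ‖u2‖ = 1)
    (hv0 : ‖v0‖ = 1) (hv1 : ‖v1‖ = 1) (hv2 : ‖v2‖ = 1)
    (I10 : F (x, -s) + u0 * (A1 - A0) ∈ ball a0 ρ ∧
      ‖u0 * (A1 - A0)‖ ^ 2 ≤ ((u0 * (A1 - A0)) * (starRingEnd ℂ) (a0 - F (x, -s))).re)
    (I20 : F (x, -s) + u0 * (A2 - A0) ∈ ball a0 ρ ∧
      ‖u0 * (A2 - A0)‖ ^ 2 ≤ ((u0 * (A2 - A0)) * (starRingEnd ℂ) (a0 - F (x, -s))).re)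
    (I01 : F (x, -s) + u1 * (A0 - A1) ∈ ball a0 ρ ∧
      ‖u1 * (A0 - A1)‖ ^ 2 ≤ ((u1 * (A0 - A1)) * (starRingEnd ℂ) (a0 - F (x, -s))).re)
    (I21 : F (x, -s) + u1 * (A2 - A1) ∈ ball a0 ρ ∧
      ‖u1 * (A2 - A1)‖ ^ 2 ≤ ((u1 * (A2 - A1)) * (starRingEnd ℂ) (a0 - F (x, -s))).re)
    (I02 : F (x, -s) + u2 * (A0 - A2) ∈ ball a0 ρ ∧
      ‖u2 * (A0 - A2)‖ ^ 2 ≤ ((u2 * (A0 - A2)) * (starRingEnd ℂ) (a0 - F (x, -s))).re)
    (I12 : F (x, -s) + u2 * (A1 - A2) ∈ ball a0 ρ ∧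
      ‖u2 * (A1 - A2)‖ ^ 2 ≤ ((u2 * (A1 - A2)) * (starRingEnd ℂ) (a0 - F (x, -s))).re)
    (O01 : F (x', s) + v0 * (A1 - A0) ∈ ball b0 ρ' ∧
      ‖v0 * (A1 - A0)‖ ^ 2 ≤ ((v0 * (A1 - A0)) * (starRingEnd ℂ) (b0 - F (x', s))).re)
    (O02 : F (x', s) + v0 * (A2 - A0) ∈ ball b0 ρ' ∧
      ‖v0 * (A2 - A0)‖ ^ 2 ≤ ((v0 * (A2 - A0)) * (starRingEnd ℂ) (b0 - F (x', s))).re)
    (O10 : F (x', s) + v1 * (A0 - A1) ∈ ball b0 ρ' ∧
      ‖v1 * (A0 - A1)‖ ^ 2 ≤ ((v1 * (A0 - A1)) * (starRingEnd ℂ) (b0 - F (x', s))).re)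
    (O12 : F (x', s) + v1 * (A2 - A1) ∈ ball b0 ρ' ∧
      ‖v1 * (A2 - A1)‖ ^ 2 ≤ ((v1 * (A2 - A1)) * (starRingEnd ℂ) (b0 - F (x', s))).re)
    (O20 : F (x', s) + v2 * (A0 - A2) ∈ ball b0 ρ' ∧
      ‖v2 * (A0 - A2)‖ ^ 2 ≤ ((v2 * (A0 - A2)) * (starRingEnd ℂ) (b0 - F (x', s))).re)
    (O21 : F (x', s) + v2 * (A1 - A2) ∈ ball b0 ρ' ∧
      ‖v2 * (A1 - A2)‖ ^ 2 ≤ ((v2 * (A1 - A2)) * (starRingEnd ℂ) (b0 - F (x', s))).re) : False := by
  have r01 : ‖A0 - A1‖ < ρ := lt_of_lt_of_le m01 (min_le_left _ _)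
  have r12 : ‖A1 - A2‖ < ρ := lt_of_lt_of_le m12 (min_le_left _ _)
  have r20 : ‖A2 - A0‖ < ρ := lt_of_lt_of_le m20 (min_le_left _ _)
  have r01' : ‖A0 - A1‖ < ρ' := lt_of_lt_of_le m01 (min_le_right _ _)
  have r12' : ‖A1 - A2‖ < ρ' := lt_of_lt_of_le m12 (min_le_right _ _)
  have r20' : ‖A2 - A0‖ < ρ' := lt_of_lt_of_le m20 (min_le_right _ _)
  obtain ⟨L0, hL0, hL0e⟩ := hlift A0 (Or.inl rfl) (by simpa using G.hρ)
  obtain ⟨L1, hL1, hL1e⟩ := hlift A1 (Or.inr (Or.inl rfl)) r01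
  obtain ⟨L2, hL2, hL2e⟩ := hlift A2 (Or.inr (Or.inr rfl)) (by rw [norm_sub_rev]; exact r20)
  have hFD : F (x, -s) ∈ Dn F := ⟨(x, -s), by simpa using hs0, rfl⟩
  have hFU : F (x', s) ∈ Up F := ⟨(x', s), hs0, rfl⟩
  -- half planes
  have c1 : (1 - Complex.I / 2 : ℂ).re = 1 := by simp
  have c2 : (1 - Complex.I / 2 : ℂ).im = -1 / 2 := by simp; norm_num
  have c3 : (1 + Complex.I / 2 : ℂ).re = 1 := by simp
  have c4 : (1 + Complex.I / 2 : ℂ).im = 1 / 2 := by simp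
  have H01 : ∀ z u : ℂ, 0 ≤ g (z + u * A0) → g (z + u * A1) < 0 →
      0 < (Pl g A0 A1 A2 z u / (1 - Complex.I / 2)).re := by
    intro z u h1 h2
    apply re_div_pos
    have : (Pl g A0 A1 A2 z u * (starRingEnd ℂ) (1 - Complex.I / 2)).re =
        g (z + u * A0) - g (z + u * A1) := by
      rw [Complex.mul_re, Complex.conj_re, Complex.conj_im, c1, c2]
      simp only [Pl, Fv]; ring
    rw [this]; linarith
  have H02 : ∀ z u : ℂ, 0 ≤ g (z + u * A0) → g (z + u * A2) < 0 →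
      0 < (Pl g A0 A1 A2 z u / (1 + Complex.I / 2)).re := by
    intro z u h1 h2
    apply re_div_pos
    have : (Pl g A0 A1 A2 z u * (starRingEnd ℂ) (1 + Complex.I / 2)).re =
        g (z + u * A0) - g (z + u * A2) := by
      rw [Complex.mul_re, Complex.conj_re, Complex.conj_im, c3, c4]
      simp only [Pl, Fv]; ring
    rw [this]; linarith
  have H12 : ∀ z u : ℂ, 0 ≤ g (z + u * A1) → g (z + u * A2) < 0 →
      0 < (Pl g A0 A1 A2 z u / Complex.I).re := by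
    intro z u h1 h2
    apply re_div_pos
    have : (Pl g A0 A1 A2 z u * (starRingEnd ℂ) Complex.I).re =
        g (z + u * A1) - g (z + u * A2) := by
      simp [Pl, Fv]
    rw [this]; linarith
  have H10 : ∀ z u : ℂ, 0 ≤ g (z + u * A1) → g (z + u * A0) < 0 →
      0 < (Pl g A0 A1 A2 z u / (-(1 - Complex.I / 2))).re := by
    intro z u h1 h2
    apply re_div_pos
    have : (Pl g A0 A1 A2 z u * (starRingEnd ℂ) (-(1 - Complex.I / 2))).re =
        g (z + u * A1) - g (z + u * A0) := by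
      rw [Complex.mul_re, Complex.conj_re, Complex.conj_im, Complex.neg_re, Complex.neg_im, c1, c2]
      simp only [Pl, Fv]; ring
    rw [this]; linarith
  have H20 : ∀ z u : ℂ, 0 ≤ g (z + u * A2) → g (z + u * A0) < 0 →
      0 < (Pl g A0 A1 A2 z u / (-(1 + Complex.I / 2))).re := by
    intro z u h1 h2
    apply re_div_pos
    have : (Pl g A0 A1 A2 z u * (starRingEnd ℂ) (-(1 + Complex.I / 2))).re =
        g (z + u * A2) - g (z + u * A0) := by
      rw [Complex.mul_re, Complex.conj_re, Complex.conj_im, Complex.neg_re, Complex.neg_im, c3, c4]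
      simp only [Pl, Fv]; ring
    rw [this]; linarith
  have H21 : ∀ z u : ℂ, 0 ≤ g (z + u * A2) → g (z + u * A1) < 0 →
      0 < (Pl g A0 A1 A2 z u / (-Complex.I)).re := by
    intro z u h1 h2
    apply re_div_pos
    have : (Pl g A0 A1 A2 z u * (starRingEnd ℂ) (-Complex.I)).re =
        g (z + u * A2) - g (z + u * A1) := by
      simp [Pl, Fv]
    rw [this]; linarith
  -- boxes and tubes for larger length
  have bx : ∀ l' : ℝ, l ≤ l' → ∀ q : ℝ × ℝ, |q.1 - x| < δ → |q.2| < δ →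
      dist (F q) (F (x, 0)) < l' / 4 := fun l' h q h1 h2 => by
    have := hbox q h1 h2; linarith
  have bx' : ∀ l' : ℝ, l ≤ l' → ∀ q : ℝ × ℝ, |q.1 - x'| < δ → |q.2| < δ →
      dist (F q) (F (x', 0)) < l' / 4 := fun l' h q h1 h2 => by
    have := hbox' q h1 h2; linarith
  have tb : ∀ l' : ℝ, l ≤ l' → ∀ t, 0 ≤ t → t ≤ 1 →
      ‖F (x + t * (x' - x), s) - F (x + t * (x' - x), -s)‖ ≤ l' := fun l' h t h1 h2 =>
    (htube t h1 h2).trans h
  have sq1 : ∀ {u A B N : ℂ}, ‖u‖ = 1 → ‖u * (A - B)‖ ^ 2 ≤ ((u * (A - B)) * (starRingEnd ℂ) N).re →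
      ‖A - B‖ ^ 2 ≤ ((u * (A - B)) * (starRingEnd ℂ) N).re := by
    intro u A B N h1 h2
    rwa [norm_mul, h1, one_mul] at h2
  have sq2 : ∀ {u A B N : ℂ}, ‖u‖ = 1 → ‖u * (B - A)‖ ^ 2 ≤ ((u * (B - A)) * (starRingEnd ℂ) N).re →
      ‖A - B‖ ^ 2 ≤ ((u * (B - A)) * (starRingEnd ℂ) N).re := by
    intro u A B N h1 h2
    rwa [norm_mul, h1, one_mul, norm_sub_rev] at h2
  -- rods
  have R01 := rod_const (K := univ) G hg A0 A1 A2 hU hD hL0 hL0e H01 hs0 hs (hl.trans_le l01) rfl r01.le r01'.le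
    (bx _ l01) (bx' _ l01) (tb _ l01) hu1 hv0 I01.1 (sq1 hu1 I01.2) O01.1 (sq2 hv0 O01.2)
  have R02 := rod_const (K := univ) G hg A0 A1 A2 hU hD hL0 hL0e H02 hs0 hs
    (by rw [norm_sub_rev]; exact hl.trans_le l20) rfl (by rw [norm_sub_rev]; exact r20.le)
    (by rw [norm_sub_rev]; exact r20'.le)
    (bx _ (by rw [norm_sub_rev]; exact l20)) (bx' _ (by rw [norm_sub_rev]; exact l20))
    (tb _ (by rw [norm_sub_rev]; exact l20)) hu2 hv0 I02.1 (sq1 hu2 I02.2) O02.1 (sq2 hv0 O02.2)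
  have R12 := rod_const (K := univ) G hg A0 A1 A2 hU hD hL1 hL1e H12 hs0 hs (hl.trans_le l12) rfl r12.le r12'.le
    (bx _ l12) (bx' _ l12) (tb _ l12) hu2 hv1 I12.1 (sq1 hu2 I12.2) O12.1 (sq2 hv1 O12.2)
  have R10 := rod_const (K := univ) G hg A0 A1 A2 hU hD hL1 hL1e H10 hs0 hs
    (by rw [norm_sub_rev]; exact hl.trans_le l01) rfl (by rw [norm_sub_rev]; exact r01.le)
    (by rw [norm_sub_rev]; exact r01'.le)
    (bx _ (by rw [norm_sub_rev]; exact l01)) (bx' _ (by rw [norm_sub_rev]; exact l01))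
    (tb _ (by rw [norm_sub_rev]; exact l01)) hu0 hv1 I10.1 (sq1 hu0 I10.2) O10.1 (sq2 hv1 O10.2)
  have R20 := rod_const (K := univ) G hg A0 A1 A2 hU hD hL2 hL2e H20 hs0 hs (hl.trans_le l20) rfl r20.le r20'.le
    (bx _ l20) (bx' _ l20) (tb _ l20) hu0 hv2 I20.1 (sq1 hu0 I20.2) O20.1 (sq2 hv2 O20.2)
  have R21 := rod_const (K := univ) G hg A0 A1 A2 hU hD hL2 hL2e H21 hs0 hs
    (by rw [norm_sub_rev]; exact hl.trans_le l12) rfl (by rw [norm_sub_rev]; exact r12.le)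
    (by rw [norm_sub_rev]; exact r12'.le)
    (bx _ (by rw [norm_sub_rev]; exact l12)) (bx' _ (by rw [norm_sub_rev]; exact l12))
    (tb _ (by rw [norm_sub_rev]; exact l12)) hu1 hv2 I21.1 (sq1 hu1 I21.2) O21.1 (sq2 hv2 O21.2)
  -- identification of lifts inside the disc
  have q00 : ‖A0 - A0‖ < ρ := by simpa using G.hρ
  have q10 : ‖A1 - A0‖ < ρ := by rw [norm_sub_rev]; exact r01
  have D2 := deep G.hρ G.ballU A0 A1 A2 hL0 hL1 hL0e hL1e q00 q10 (F (x, -s) - u2 * A2) u2 hu2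
    (by have := I02.1; convert this using 1; ring) (by have := I12.1; convert this using 1; ring)
  have D0 := deep G.hρ G.ballU A0 A1 A2 hL1 hL2 hL1e hL2e q10 r20 (F (x, -s) - u0 * A0) u0 hu0
    (by have := I10.1; convert this using 1; ring) (by have := I20.1; convert this using 1; ring)
  have D1 := deep G.hρ G.ballU A0 A1 A2 hL2 hL0 hL2e hL0e r20 q00 (F (x, -s) - u1 * A1) u1 hu1
    (by have := I21.1; convert this using 1; ring) (by have := I01.1; convert this using 1; ring)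
  have t1 : ∀ u A B : ℂ, F (x, -s) - u * B + u * A = F (x, -s) + u * (A - B) := by
    intro u A B; ring
  rw [t1, t1] at D0 D1 D2
  -- values
  have gU : ∀ u A B : ℂ, F (x, -s) + u * (A - B) ∈ ball a0 ρ → 0 ≤ g (F (x, -s) - u * B + u * A) := by
    intro u A B h; rw [t1]; exact hU _ (G.ballU h)
  have gD : ∀ u B : ℂ, g (F (x, -s) - u * B + u * B) < 0 := by
    intro u B; rw [sub_add_cancel]; exact hD _ hFD
  have t2 : ∀ u A B : ℂ, F (x', s) - u * B + u * A = F (x', s) + u * (A - B) := by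
    intro u A B; ring
  have gD' : ∀ u A B : ℂ, F (x', s) + u * (A - B) ∈ ball b0 ρ' → g (F (x', s) - u * B + u * A) < 0 := by
    intro u A B h; rw [t2]; exact hD _ (G.ballD h)
  have gU' : ∀ u B : ℂ, 0 ≤ g (F (x', s) - u * B + u * B) := by
    intro u B; rw [sub_add_cancel]; exact hU _ hFU
  -- logs of the directions
  have hd1 : (1 - Complex.I / 2) ≠ 0 := by
    intro h; have := congrArg Complex.re h; simp at this
  have hd2 : (1 + Complex.I / 2) ≠ 0 := by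
    intro h; have := congrArg Complex.re h; simp at this
  have E1 : Complex.exp (Complex.log (1 - Complex.I / 2)) = 1 - Complex.I / 2 := Complex.exp_log hd1
  have E2 : Complex.exp (Complex.log (1 + Complex.I / 2)) = 1 + Complex.I / 2 := Complex.exp_log hd2
  have E3 : Complex.exp (Real.pi / 2 * Complex.I) = Complex.I := Complex.exp_pi_div_two_mul_I
  have E4 : Complex.exp (Complex.log (1 - Complex.I / 2) + Real.pi * Complex.I) = -(1 - Complex.I / 2) := by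
    rw [Complex.exp_add, E1, Complex.exp_pi_mul_I]; ring
  have E5 : Complex.exp (Complex.log (1 + Complex.I / 2) + Real.pi * Complex.I) = -(1 + Complex.I / 2) := by
    rw [Complex.exp_add, E2, Complex.exp_pi_mul_I]; ring
  have E6 : Complex.exp (Real.pi / 2 * Complex.I + Real.pi * Complex.I) = -Complex.I := by
    rw [Complex.exp_add, E3, Complex.exp_pi_mul_I]; ring
  have E7 : Complex.exp (Complex.log (1 - Complex.I / 2) + 2 * Real.pi * Complex.I) = 1 - Complex.I / 2 := by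
    rw [Complex.exp_add, E1, Complex.exp_two_pi_mul_I]; ring
  have a1 := abs_lt.mp (Complex.abs_arg_lt_pi_div_two_iff.mpr (Or.inl (show 0 < (1 - Complex.I / 2).re by simp)))
  have a2 := abs_lt.mp (Complex.abs_arg_lt_pi_div_two_iff.mpr (Or.inl (show 0 < (1 + Complex.I / 2).re by simp)))
  have hpi := Real.pi_pos
  have i1 : (Complex.log (1 - Complex.I / 2)).im = (1 - Complex.I / 2).arg := Complex.log_im _
  have i2 : (Complex.log (1 + Complex.I / 2)).im = (1 + Complex.I / 2).arg := Complex.log_im _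
  -- agreements (out)
  have B0 := log_agree (H01 _ _ (gU' v0 A0) (gD' v0 A1 A0 O01.1)) (H02 _ _ (gU' v0 A0) (gD' v0 A2 A0 O02.1))
    E1 E2 (by rw [i1, i2, abs_lt]; constructor <;> linarith)
  have B1 := log_agree (H12 _ _ (gU' v1 A1) (gD' v1 A2 A1 O12.1)) (H10 _ _ (gU' v1 A1) (gD' v1 A0 A1 O10.1))
    E3 E4 (by simp only [Complex.add_im, i1]; simp; rw [abs_lt]; constructor <;> linarith)
  have B2 := log_agree (H20 _ _ (gU' v2 A2) (gD' v2 A0 A2 O20.1)) (H21 _ _ (gU' v2 A2) (gD' v2 A1 A2 O21.1))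
    E5 E6 (by simp only [Complex.add_im, i2]; simp; rw [abs_lt]; constructor <;> linarith)
  -- agreements (in)
  have C2 := log_agree (H02 _ _ (gU u2 A0 A2 I02.1) (gD u2 A2)) (H12 _ _ (gU u2 A1 A2 I12.1) (gD u2 A2))
    E2 E3 (by rw [i2]; simp; rw [abs_lt]; constructor <;> linarith)
  have C0 := log_agree (H10 _ _ (gU u0 A1 A0 I10.1) (gD u0 A0)) (H20 _ _ (gU u0 A2 A0 I20.1) (gD u0 A0))
    E4 E5 (by simp only [Complex.add_im, i1, i2]; simp; rw [abs_lt]; constructor <;> linarith)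
  have C1 := log_agree (H21 _ _ (gU u1 A2 A1 I21.1) (gD u1 A1)) (H01 _ _ (gU u1 A0 A1 I01.1) (gD u1 A1))
    E6 E7 (by simp only [Complex.add_im, i1]; simp; rw [abs_lt]; constructor <;> linarith)
  have : (2 * Real.pi * Complex.I : ℂ) = 0 := by
    linear_combination R01 - R02 + R12 - R10 + R20 - R21 + D0 + D1 + D2 - B0 - B1 - B2 - C0 - C1 - C2
  simp [Real.pi_ne_zero] at this

end

end Pool.Agent.Helper303.Flat

namespace Pool.Agent.Helper303.Flat

noncomputable section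

open Pool.Agent.Helper303.Wind

/-- `M` is locally flat somewhere: there is a homeomorphism `F` of the plane onto an open subset of
the plane under which `M` corresponds to the closed upper half plane. -/
def FlatSomewhere (M : Set ℂ) : Prop :=
  ∃ F : ℝ × ℝ → ℂ, IsOpenEmbedding F ∧ ∀ q : ℝ × ℝ, F q ∈ M ↔ 0 ≤ q.2

lemma ev_small (k m : ℝ) (hm : 0 < m) : ∀ᶠ r in 𝓝 (0 : ℝ), r * k < m := by
  have hc : Continuous (fun r : ℝ => r * k) := by fun_prop
  have := hc.tendsto 0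
  rw [zero_mul] at this
  exact this.eventually (gt_mem_nhds hm)

lemma ev_tube {F : ℝ × ℝ → ℂ} (hF : Continuous F) (x x' l : ℝ) (hl : 0 < l) :
    ∀ᶠ s in 𝓝 (0 : ℝ), ∀ t ∈ Icc (0 : ℝ) 1,
      ‖F (x + t * (x' - x), s) - F (x + t * (x' - x), -s)‖ ≤ l := by
  apply isCompact_Icc.eventually_forall_of_forall_eventually
    (P := fun s t => ‖F (x + t * (x' - x), s) - F (x + t * (x' - x), -s)‖ ≤ l)
  intro t _
  have hc : Continuous (fun z : ℝ × ℝ =>
      ‖F (x + z.2 * (x' - x), z.1) - F (x + z.2 * (x' - x), -z.1)‖) := by fun_prop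
  have := hc.tendsto (0, t)
  simp only [neg_zero, sub_self, norm_zero] at this
  exact (this.eventually (gt_mem_nhds hl)).mono (fun z hz => le_of_lt hz)

lemma scaled {e p N : ℂ} {r : ℝ} (hr : 0 < r) (he : ‖e‖ = 1)
    (h : r * ‖p‖ ^ 2 < (e * p * (starRingEnd ℂ) N).re) :
    ‖e * ((r : ℂ) * p)‖ ^ 2 < ((e * ((r : ℂ) * p)) * (starRingEnd ℂ) N).re := by
  have e1 : (e * ((r : ℂ) * p)) * (starRingEnd ℂ) N = (r : ℂ) * (e * p * (starRingEnd ℂ) N) := by ring
  rw [e1, Complex.re_ofReal_mul, norm_mul, he, one_mul, norm_mul, Complex.norm_real,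
    Real.norm_of_nonneg hr.le]
  calc (r * ‖p‖) ^ 2 = r * (r * ‖p‖ ^ 2) := by ring
    _ < r * (e * p * (starRingEnd ℂ) N).re := by gcongr

lemma flat_main (w0 w1 w2 : ℂ)
    (hcr : 0 < (w1 - w0).re * (w2 - w0).im - (w2 - w0).re * (w1 - w0).im)
    (M : Set ℂ) (hM : IsCompact M) (hp : FlatSomewhere M) : Good w0 w1 w2 M := by
  obtain ⟨F, hF, hFM⟩ := hp
  obtain ⟨a0, ρ, x, hρ, hbU, hdU⟩ := touch hF
  obtain ⟨b0, ρ', x', hρ', hbD, hdD⟩ := touch (flip_emb hF)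
  rw [Up_flip] at hbD
  have hdD' : dist b0 (F (x', 0)) = ρ' := by simpa [flip] using hdD
  have G : Geo F a0 b0 ρ ρ' x x' := ⟨hF, hρ, hρ', hbU, hbD, hdU, hdD'⟩
  set N := a0 - F (x, 0) with hN
  set N' := b0 - F (x', 0) with hN'
  have hN0 : N ≠ 0 := by
    intro h
    rw [dist_eq_norm, ← hN, h, norm_zero] at hdU
    linarith
  have hN0' : N' ≠ 0 := by
    intro h
    rw [dist_eq_norm, ← hN', h, norm_zero] at hdD'
    linarith
  have c0 : (w1 - w0).re * (w2 - w0).im - (w2 - w0).re * (w1 - w0).im ≠ 0 := hcr.ne'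
  have c1 : (w0 - w1).re * (w2 - w1).im - (w2 - w1).re * (w0 - w1).im ≠ 0 := by
    intro h
    apply c0
    simp only [Complex.sub_re, Complex.sub_im] at h ⊢
    linarith
  have c2 : (w0 - w2).re * (w1 - w2).im - (w1 - w2).re * (w0 - w2).im ≠ 0 := by
    intro h
    apply c0
    simp only [Complex.sub_re, Complex.sub_im] at h ⊢
    linarith
  have hw01 : w0 ≠ w1 := by rintro rfl; simp at c0
  have hw20 : w2 ≠ w0 := by rintro rfl; simp at c0
  have hw12 : w1 ≠ w2 := by rintro rfl; apply c0; ring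
  have n01 : 0 < ‖w0 - w1‖ := norm_pos_iff.mpr (sub_ne_zero.mpr hw01)
  have n12 : 0 < ‖w1 - w2‖ := norm_pos_iff.mpr (sub_ne_zero.mpr hw12)
  have n20 : 0 < ‖w2 - w0‖ := norm_pos_iff.mpr (sub_ne_zero.mpr hw20)
  obtain ⟨u0, hu0, i10, i20⟩ := rot_into' (w1 - w0) (w2 - w0) N hN0 c0
  obtain ⟨u1, hu1, i01, i21⟩ := rot_into' (w0 - w1) (w2 - w1) N hN0 c1
  obtain ⟨u2, hu2, i02, i12⟩ := rot_into' (w0 - w2) (w1 - w2) N hN0 c2
  obtain ⟨v0, hv0, o01, o02⟩ := rot_into' (w1 - w0) (w2 - w0) N' hN0' c0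
  obtain ⟨v1, hv1, o10, o12⟩ := rot_into' (w0 - w1) (w2 - w1) N' hN0' c1
  obtain ⟨v2, hv2, o20, o21⟩ := rot_into' (w0 - w2) (w1 - w2) N' hN0' c2
  have hmin : 0 < min ρ ρ' := lt_min hρ hρ'
  have hev : ∀ᶠ r in 𝓝 (0 : ℝ),
      (r * ‖w1 - w0‖ ^ 2 < (u0 * (w1 - w0) * (starRingEnd ℂ) N).re ∧
       r * ‖w2 - w0‖ ^ 2 < (u0 * (w2 - w0) * (starRingEnd ℂ) N).re ∧
       r * ‖w0 - w1‖ ^ 2 < (u1 * (w0 - w1) * (starRingEnd ℂ) N).re ∧
       r * ‖w2 - w1‖ ^ 2 < (u1 * (w2 - w1) * (starRingEnd ℂ) N).re ∧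
       r * ‖w0 - w2‖ ^ 2 < (u2 * (w0 - w2) * (starRingEnd ℂ) N).re ∧
       r * ‖w1 - w2‖ ^ 2 < (u2 * (w1 - w2) * (starRingEnd ℂ) N).re) ∧
      (r * ‖w1 - w0‖ ^ 2 < (v0 * (w1 - w0) * (starRingEnd ℂ) N').re ∧
       r * ‖w2 - w0‖ ^ 2 < (v0 * (w2 - w0) * (starRingEnd ℂ) N').re ∧
       r * ‖w0 - w1‖ ^ 2 < (v1 * (w0 - w1) * (starRingEnd ℂ) N').re ∧
       r * ‖w2 - w1‖ ^ 2 < (v1 * (w2 - w1) * (starRingEnd ℂ) N').re ∧
       r * ‖w0 - w2‖ ^ 2 < (v2 * (w0 - w2) * (starRingEnd ℂ) N').re ∧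
       r * ‖w1 - w2‖ ^ 2 < (v2 * (w1 - w2) * (starRingEnd ℂ) N').re) ∧
      (r * ‖w0 - w1‖ < min ρ ρ' ∧ r * ‖w1 - w2‖ < min ρ ρ' ∧ r * ‖w2 - w0‖ < min ρ ρ') := by
    filter_upwards [ev_small (‖w1 - w0‖ ^ 2) _ i10, ev_small (‖w2 - w0‖ ^ 2) _ i20,
      ev_small (‖w0 - w1‖ ^ 2) _ i01, ev_small (‖w2 - w1‖ ^ 2) _ i21,
      ev_small (‖w0 - w2‖ ^ 2) _ i02, ev_small (‖w1 - w2‖ ^ 2) _ i12,
      ev_small (‖w1 - w0‖ ^ 2) _ o01, ev_small (‖w2 - w0‖ ^ 2) _ o02,
      ev_small (‖w0 - w1‖ ^ 2) _ o10, ev_small (‖w2 - w1‖ ^ 2) _ o12,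
      ev_small (‖w0 - w2‖ ^ 2) _ o20, ev_small (‖w1 - w2‖ ^ 2) _ o21,
      ev_small ‖w0 - w1‖ _ hmin, ev_small ‖w1 - w2‖ _ hmin, ev_small ‖w2 - w0‖ _ hmin]
      with r h1 h2 h3 h4 h5 h6 h7 h8 h9 h10 h11 h12 h13 h14 h15
    exact ⟨⟨h1, h2, h3, h4, h5, h6⟩, ⟨h7, h8, h9, h10, h11, h12⟩, h13, h14, h15⟩
  obtain ⟨ε, hε, hev⟩ := Metric.eventually_nhds_iff.mp hev
  refine ⟨ε / 2, by positivity, ?_⟩
  intro r hr hr0 f hfc hf0 hfF
  by_contra hno
  push Not at hno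
  obtain ⟨⟨k1, k2, k3, k4, k5, k6⟩, ⟨k7, k8, k9, k10, k11, k12⟩, k13, k14, k15⟩ :=
    hev (y := r) (by rw [Real.dist_eq, sub_zero, abs_of_pos hr]; linarith)
  -- the component
  have hUo : IsOpen (Up F) := Up_open hF
  have hUM : Up F ⊆ interior M := by
    apply interior_maximal _ hUo
    rintro _ ⟨q, hq, rfl⟩
    exact (hFM q).mpr (le_of_lt hq)
  have ha0U : a0 ∈ Up F := hbU (mem_ball_self hρ)
  set W := connectedComponentIn (interior M) a0 with hWdef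
  have hWo : IsOpen W := isOpen_interior.connectedComponentIn
  have hWc : IsPreconnected W := isPreconnected_connectedComponentIn
  have hUW : Up F ⊆ W :=
    (Up_path hF).isConnected.isPreconnected.subset_connectedComponentIn ha0U hUM
  have hWi : W ⊆ interior M := connectedComponentIn_subset _ _
  have hWM : closure W ⊆ M := closure_minimal (hWi.trans interior_subset) hM.isClosed
  have hWb : IsCompact (closure W) := hM.of_isClosed_subset isClosed_closure hWM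
  have hWF : ∀ z ∈ closure W, z ∉ W → z ∈ frontier M := by
    intro z hz hzW
    rw [frontier, hM.isClosed.closure_eq]
    refine ⟨hWM hz, ?_⟩
    intro hzi
    apply hzW
    have h1 : IsPreconnected (closure W ∩ interior M) :=
      hWc.subset_closure (subset_inter subset_closure hWi) inter_subset_left
    exact h1.subset_connectedComponentIn ⟨subset_closure (hUW ha0U), hUM ha0U⟩ inter_subset_right ⟨hz, hzi⟩
  have hDM : ∀ z ∈ Dn F, z ∉ closure W := by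
    rintro _ ⟨q, hq, rfl⟩ hmem
    have h1 := (hFM q).mp (hWM hmem)
    have h2 : q.2 < 0 := hq
    linarith
  have hWne : (closure W).Nonempty := ⟨a0, subset_closure (hUW ha0U)⟩
  classical
  set g : ℂ → ℝ := fun z => if z ∈ closure W then f z else -infDist z (closure W) with hgdef
  have hgc : Continuous g := by
    apply continuous_if
    · intro a ha
      have ha' : a ∈ frontier (closure W) := ha
      have hac : a ∈ closure W := by
        have := frontier_subset_closure ha'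
        rwa [closure_closure] at this
      have haW : a ∉ W := by
        intro haW
        apply ha'.2
        exact interior_mono subset_closure (by rw [hWo.interior_eq]; exact haW)
      rw [hfF a (hWF a hac haW), infDist_zero_of_mem hac, neg_zero]
    · have : closure {z | z ∈ closure W} = closure W := closure_closure
      rw [this]
      exact hfc.mono hWM
    · exact (continuous_infDist_pt _).neg.continuousOn
  have hgin : ∀ z, z ∈ closure W → g z = f z := fun z hz => if_pos hz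
  have hgneg : ∀ z, z ∉ closure W → g z < 0 := by
    intro z hz
    have : g z = -infDist z (closure W) := if_neg hz
    rw [this]
    have := (isClosed_closure.notMem_iff_infDist_pos hWne).mp hz
    linarith
  have hgnn : ∀ z, z ∈ closure W → 0 ≤ g z := by
    intro z hz
    rw [hgin z hz]; exact hf0 z (hWM hz)
  have nA : ∀ a b : ℂ, ‖(r : ℂ) * a - r * b‖ = r * ‖a - b‖ := by
    intro a b
    rw [← mul_sub, norm_mul, Complex.norm_real, Real.norm_of_nonneg hr.le]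
  have hNS : NS (closure W) g (r * w0) (r * w1) (r * w2) := by
    refine ⟨hgneg, hgnn, ?_⟩
    intro z u hu h0 h1 h2
    rintro ⟨E1, E2⟩
    rw [hgin _ h0, hgin _ h1] at E1
    rw [hgin _ h1, hgin _ h2] at E2
    have t : ∀ w : ℂ, z + u * (r * w) = z + (u * r) * w := fun w => by ring
    rw [t] at h0 h1 h2
    rw [t, t] at E1 E2
    have hv : ‖u * (r : ℂ)‖ = r := by
      rw [norm_mul, hu, Complex.norm_real, Real.norm_of_nonneg hr.le, one_mul]
    exact hno z (u * r) hv (hWM h0) (hWM h1) (hWM h2) E1 E2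
  have q01 : ‖(r : ℂ) * w0 - r * w1‖ < min ρ ρ' := by rw [nA]; exact k13
  have q12 : ‖(r : ℂ) * w1 - r * w2‖ < min ρ ρ' := by rw [nA]; exact k14
  have q20 : ‖(r : ℂ) * w2 - r * w0‖ < min ρ ρ' := by rw [nA]; exact k15
  have hpos : ∃ z ∈ W, 0 < g z := by
    by_contra hcon
    push Not at hcon
    have hz : ∀ z ∈ W, g z = 0 := fun z hz => le_antisymm (hcon z hz) (hgnn z (subset_closure hz))
    have hin : ∀ B : ℂ, ‖B - r * w0‖ < ρ → (a0 - r * w0) + 1 * B ∈ W := by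
      intro B hB
      apply hUW
      apply hbU
      rw [mem_ball, dist_eq_norm]
      have : (a0 - r * w0) + 1 * B - a0 = B - r * w0 := by ring
      rw [this]; exact hB
    have m0 := hin (r * w0) (by simpa using hρ)
    have m1 := hin (r * w1) (by rw [norm_sub_rev]; exact lt_of_lt_of_le q01 (min_le_left _ _))
    have m2 := hin (r * w2) (lt_of_lt_of_le q20 (min_le_left _ _))
    refine hNS.ns (a0 - r * w0) 1 norm_one (subset_closure m0) (subset_closure m1) (subset_closure m2) ⟨?_, ?_⟩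
    · rw [hz _ m0, hz _ m1]
    · rw [hz _ m1, hz _ m2]
  have hlift : ∀ X, (X = (r : ℂ) * w0 ∨ X = (r : ℂ) * w1 ∨ X = (r : ℂ) * w2) → ‖(r : ℂ) * w0 - X‖ < ρ →
      ∃ L : ℂ × ℂ → ℂ, ContinuousOn L (Up F ×ˢ sphere (0 : ℂ) 1) ∧
      ∀ a ∈ Up F, ∀ u : ℂ, ‖u‖ = 1 →
        Complex.exp (L (a, u)) = Pl g (r * w0) (r * w1) (r * w2) (a - u * X) u := by
    intro X hX hXd
    exact lift_exists hF hρ hbU W hWo hWc hWb hUW g hgc
      (fun z hz hzW => by rw [hgin z hz]; exact hfF z (hWF z hz hzW)) hpos _ _ _ hNS X hX hXd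
  -- small parameter
  set l := r * min (min ‖w0 - w1‖ ‖w1 - w2‖) ‖w2 - w0‖ with hl
  have hlpos : 0 < l := mul_pos hr (lt_min (lt_min n01 n12) n20)
  obtain ⟨δ1, hδ1, hbox1⟩ := box hF x (l / 4) (by positivity)
  obtain ⟨δ2, hδ2, hbox2⟩ := box hF x' (l / 4) (by positivity)
  have hFc := hF.continuous
  have zc : Continuous (fun s : ℝ => F (x, -s)) := by fun_prop
  have zc' : Continuous (fun s : ℝ => F (x', s)) := by fun_prop
  have zd : dist a0 ((fun s : ℝ => F (x, -s)) 0) = ρ := by simpa using hdU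
  have zd' : dist b0 ((fun s : ℝ => F (x', s)) 0) = ρ' := by simpa using hdD'
  have zN : a0 - (fun s : ℝ => F (x, -s)) 0 = N := by simp [hN]
  have zN' : b0 - (fun s : ℝ => F (x', s)) 0 = N' := by simp [hN']
  have evI : ∀ {u p : ℂ}, ‖u‖ = 1 → r * ‖p‖ ^ 2 < (u * p * (starRingEnd ℂ) N).re →
      ∀ᶠ s in 𝓝 (0 : ℝ), F (x, -s) + u * ((r : ℂ) * p) ∈ ball a0 ρ ∧
        ‖u * ((r : ℂ) * p)‖ ^ 2 ≤ ((u * ((r : ℂ) * p)) * (starRingEnd ℂ) (a0 - F (x, -s))).re := by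
    intro u p hu hp
    exact ev_ball zc hρ zd (by rw [zN]; exact scaled hr hu hp)
  have evO : ∀ {u p : ℂ}, ‖u‖ = 1 → r * ‖p‖ ^ 2 < (u * p * (starRingEnd ℂ) N').re →
      ∀ᶠ s in 𝓝 (0 : ℝ), F (x', s) + u * ((r : ℂ) * p) ∈ ball b0 ρ' ∧
        ‖u * ((r : ℂ) * p)‖ ^ 2 ≤ ((u * ((r : ℂ) * p)) * (starRingEnd ℂ) (b0 - F (x', s))).re := by
    intro u p hu hp
    exact ev_ball zc' hρ' zd' (by rw [zN']; exact scaled hr hu hp)
  have hall : ∀ᶠ s in 𝓝[>] (0 : ℝ), False := by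
    filter_upwards [self_mem_nhdsWithin,
      nhdsWithin_le_nhds (gt_mem_nhds (lt_min hδ1 hδ2)),
      nhdsWithin_le_nhds (ev_tube hFc x x' l hlpos),
      nhdsWithin_le_nhds (evI hu0 k1), nhdsWithin_le_nhds (evI hu0 k2),
      nhdsWithin_le_nhds (evI hu1 k3), nhdsWithin_le_nhds (evI hu1 k4),
      nhdsWithin_le_nhds (evI hu2 k5), nhdsWithin_le_nhds (evI hu2 k6),
      nhdsWithin_le_nhds (evO hv0 k7), nhdsWithin_le_nhds (evO hv0 k8),
      nhdsWithin_le_nhds (evO hv1 k9), nhdsWithin_le_nhds (evO hv1 k10),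
      nhdsWithin_le_nhds (evO hv2 k11), nhdsWithin_le_nhds (evO hv2 k12)]
      with s hs0 hsδ htube j1 j2 j3 j4 j5 j6 j7 j8 j9 j10 j11 j12
    rw [mul_sub (r : ℂ)] at j1 j2 j3 j4 j5 j6 j7 j8 j9 j10 j11 j12
    refine chain G hgc ((r : ℂ) * w0) (r * w1) (r * w2)
      (fun z hz => hgnn z (subset_closure (hUW hz))) (fun z hz => hgneg z (hDM z hz)) hlift
      (s := s) (δ := min δ1 δ2) (l := l) hs0 hsδ hlpos ?_ ?_ ?_ q01 q12 q20
      (fun q h1 h2 => hbox1 q (h1.trans_le (min_le_left _ _)) (h2.trans_le (min_le_left _ _)))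
      (fun q h1 h2 => hbox2 q (h1.trans_le (min_le_right _ _)) (h2.trans_le (min_le_right _ _)))
      (fun t h1 h2 => htube t ⟨h1, h2⟩) hu0 hu1 hu2 hv0 hv1 hv2 j1 j2 j3 j4 j5 j6 j7 j8 j9 j10 j11 j12
    · rw [nA, hl]; gcongr; exact (min_le_left _ _).trans (min_le_left _ _)
    · rw [nA, hl]; gcongr; exact (min_le_left _ _).trans (min_le_right _ _)
    · rw [nA, hl]; gcongr; exact min_le_right _ _
  exact (Filter.eventually_false_iff_eq_bot.mp hall ▸ (inferInstance : (𝓝[>] (0 : ℝ)).NeBot)).ne rfl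

end

end Pool.Agent.Helper303.Flat
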