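import Pool.Agent.Helper303.HoSer

open MeasureTheory Set Complex
open scoped Real Topology ContDiff ComplexConjugate

namespace Pool.Agent.Helper303.Ho

open Pool.Agent.Helper303.Db

variable {m : ℕ}

lemma norm_le_eDist (x y : Fin (m + 3) → ℂ) : ‖x - y‖ ≤ eDist x y := by
  rw [pi_norm_le_iff_of_nonneg (eDist_nonneg _ _)]
  intro j
  exact le_eDist x y j

lemma closure_sub_ball : closure (OmH m) ⊆ Metric.closedBall 0 1 := by
  intro x hx
  rw [mem_closedBall_zero_iff, pi_norm_le_iff_of_nonneg (by norm_num)]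
  exact coord_closure hx

lemma smooth_holder {g : (Fin (m + 3) → ℂ) → ℂ} (hg : ContDiff ℝ ∞ g) {α : ℝ} (hα0 : 0 < α)
    (hα1 : α < 1) : MemHolder (OmH m) α g := by
  have hK : IsCompact (Metric.closedBall (0 : Fin (m + 3) → ℂ) 1) := isCompact_closedBall _ _
  obtain ⟨B, hB⟩ := hK.exists_bound_of_continuousOn hg.continuous.continuousOn
  obtain ⟨C, hC⟩ := hK.exists_bound_of_continuousOn (hg.continuous_fderiv (by simp)).continuousOn
  have hC0 : 0 ≤ C := (norm_nonneg _).trans (hC 0 (Metric.mem_closedBall_self (by norm_num)))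
  have hB0 : 0 ≤ B := (norm_nonneg _).trans (hB 0 (Metric.mem_closedBall_self (by norm_num)))
  refine ⟨B + C * 2, B, C * 2, hB0, by positivity, le_rfl, ?_, ?_⟩
  · intro z hz
    exact hB z (closure_sub_ball hz)
  · intro z hz w hw
    have h1 : ‖g z - g w‖ ≤ C * ‖z - w‖ :=
      Convex.norm_image_sub_le_of_norm_fderiv_le (𝕜 := ℝ)
        (fun x _ => hg.differentiable (by simp) x) hC (convex_closedBall _ _)
        (closure_sub_ball hw) (closure_sub_ball hz)
    have h2 : ‖z - w‖ ≤ 2 := by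
      have a1 := mem_closedBall_zero_iff.1 (closure_sub_ball hz)
      have a2 := mem_closedBall_zero_iff.1 (closure_sub_ball hw)
      have := norm_sub_le z w
      linarith
    have h3 : ‖z - w‖ ≤ 2 * eDist z w ^ α := by
      have h4 : ‖z - w‖ = ‖z - w‖ ^ (1 - α) * ‖z - w‖ ^ α := by
        rcases eq_or_lt_of_le (norm_nonneg (z - w)) with h | h
        · rw [← h, Real.zero_rpow hα0.ne', mul_zero]
        · rw [← Real.rpow_add h]
          simp
      rw [h4]
      have h5 : ‖z - w‖ ^ (1 - α) ≤ 2 := by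
        calc ‖z - w‖ ^ (1 - α) ≤ 2 ^ (1 - α) :=
              Real.rpow_le_rpow (norm_nonneg _) h2 (by linarith)
          _ ≤ 2 ^ (1 : ℝ) := Real.rpow_le_rpow_of_exponent_le (by norm_num) (by linarith)
          _ = 2 := Real.rpow_one _
      have h6 : ‖z - w‖ ^ α ≤ eDist z w ^ α :=
        Real.rpow_le_rpow (norm_nonneg _) (norm_le_eDist z w) hα0.le
      have h7 : 0 ≤ eDist z w ^ α := Real.rpow_nonneg (eDist_nonneg _ _) _
      gcongr
    calc ‖g z - g w‖ ≤ C * ‖z - w‖ := h1
      _ ≤ C * (2 * eDist z w ^ α) := by gcongr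
      _ = _ := by ring

/-- the weights -/
noncomputable def ee (β : ℝ) (j : ℕ) : ℝ := cR j * (qq j : ℝ) ^ (99 * β - 9)

lemma ee_nonneg (β : ℝ) (j : ℕ) : 0 ≤ ee β j :=
  mul_nonneg (cR_nonneg j) (Real.rpow_nonneg (by positivity) _)

lemma summable_ee {β : ℝ} (hβ : β < 1 / 99) : Summable (ee β) := by
  set r : ℝ := (2 : ℝ) ^ (99 * β - 1) with hr
  have hr0 : 0 ≤ r := Real.rpow_nonneg (by norm_num) _
  have hr1 : r < 1 := by
    rw [hr]
    apply Real.rpow_lt_one_of_one_lt_of_neg (by norm_num)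
    linarith
  have h := summable_pow_mul_geometric_of_norm_lt_one (R := ℝ) 1 (r := r) (by
    rwa [Real.norm_eq_abs, abs_of_nonneg hr0])
  have h2 := (summable_nat_add_iff 1).2 h
  refine h2.congr ?_
  intro j
  have hq : (0 : ℝ) < qq j := by
    have := two_le_qq j
    exact_mod_cast (by omega : 0 < qq j)
  have e1 : (qq j : ℝ) ^ (99 * β - 9) * (qq j : ℝ) ^ 8 = r ^ (j + 1) := by
    rw [← Real.rpow_natCast (qq j : ℝ) 8, ← Real.rpow_add hq]
    have e2 : (qq j : ℝ) = (2 : ℝ) ^ ((j + 1 : ℕ) : ℝ) := by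
      unfold qq
      rw [Real.rpow_natCast]
      push_cast
      rfl
    rw [e2, ← Real.rpow_mul (by norm_num), hr, ← Real.rpow_natCast, ← Real.rpow_mul (by norm_num)]
    congr 1
    push_cast
    ring
  unfold ee cR
  rw [pow_one, ← e1]
  push_cast
  ring

lemma norm_tg {β : ℝ} (hβ : 0 < β) (j : ℕ) {x : Fin (m + 3) → ℂ} (hx : x ∈ closure (OmH m)) :
    ‖tg j x‖ ≤ 8 * ee β j := by
  unfold tg ee
  rw [norm_mul, norm_real, Real.norm_eq_abs, abs_of_nonneg (cR_nonneg j)]
  have := gco_sup' (two_le_qq j) hβ hx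
  have hc := cR_nonneg j
  calc cR j * ‖gco (qq j) x‖ ≤ cR j * (8 * (qq j : ℝ) ^ (99 * β - 9)) := by gcongr
    _ = _ := by ring

lemma holder_tg {β : ℝ} (hβ : 0 < β) (hβ1 : β < 1) (j : ℕ) {x y : Fin (m + 3) → ℂ}
    (hx : x ∈ closure (OmH m)) (hy : y ∈ closure (OmH m)) :
    ‖tg j x - tg j y‖ ≤ 144 * eDist x y ^ β * ee β j := by
  unfold tg ee
  rw [← mul_sub, norm_mul, norm_real, Real.norm_eq_abs, abs_of_nonneg (cR_nonneg j)]
  have := gco_holder (two_le_qq j) hβ hβ1 hx hy
  have hc := cR_nonneg j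
  calc cR j * ‖gco (qq j) x - gco (qq j) y‖ ≤
        cR j * (144 * (qq j : ℝ) ^ (99 * β - 9) * eDist x y ^ β) := by gcongr
    _ = _ := by ring

lemma summable_tg {β : ℝ} (hβ : 0 < β) (hβ' : β < 1 / 99) {x : Fin (m + 3) → ℂ}
    (hx : x ∈ closure (OmH m)) : Summable fun j => tg j x :=
  Summable.of_norm_bounded ((summable_ee hβ').mul_left 8) (fun j => norm_tg hβ j hx)

/-- Hölder norm of the tails -/
lemma holder_tail {β : ℝ} (hβ : 0 < β) (hβ' : β < 1 / 99) (N : ℕ) :
    HolderNormLE (closure (OmH m)) β (fun x => ∑' j, tg (j + N) x)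
      (152 * ∑' j, ee β (j + N)) := by
  have hs : Summable fun j => ee β (j + N) := (summable_nat_add_iff N).2 (summable_ee hβ')
  have h0 : 0 ≤ ∑' j, ee β (j + N) := tsum_nonneg fun j => ee_nonneg β _
  refine ⟨8 * ∑' j, ee β (j + N), 144 * ∑' j, ee β (j + N), by positivity, by positivity,
    by linarith, ?_, ?_⟩
  · intro x hx
    have := tsum_of_norm_bounded (f := fun j => tg (j + N) x) (hs.mul_left 8).hasSum
      (fun j => norm_tg hβ (j + N) hx)
    rwa [tsum_mul_left] at this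
  · intro x hx y hy
    have hsx : Summable fun j => tg (j + N) x := (summable_nat_add_iff N).2 (summable_tg hβ hβ' hx)
    have hsy : Summable fun j => tg (j + N) y := (summable_nat_add_iff N).2 (summable_tg hβ hβ' hy)
    rw [← hsx.tsum_sub hsy]
    have := tsum_of_norm_bounded (f := fun j => tg (j + N) x - tg (j + N) y)
      (hs.mul_left (144 * eDist x y ^ β)).hasSum
      (fun j => holder_tg hβ (by linarith) (j + N) hx hy)
    rw [tsum_mul_left] at this
    refine this.trans (le_of_eq ?_)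
    ring

/-- the limiting form -/
noncomputable def ff (x : Fin (m + 3) → ℂ) (i : Fin (m + 3)) : ℂ := if i = 1 then Gg x else 0

/-- the approximating forms -/
noncomputable def FF (N : ℕ) (x : Fin (m + 3) → ℂ) (i : Fin (m + 3)) : ℂ :=
  if i = 1 then ∑ j ∈ Finset.range N, tg j x else 0

lemma holder_neg {Ω : Set (Fin (m + 3) → ℂ)} {β B : ℝ} {g : (Fin (m + 3) → ℂ) → ℂ}
    (h : HolderNormLE Ω β g B) : HolderNormLE Ω β (fun x => -g x) B := by
  obtain ⟨B₁, B₂, h1, h2, h3, h4, h5⟩ := h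
  refine ⟨B₁, B₂, h1, h2, h3, fun z hz => ?_, fun z hz w hw => ?_⟩
  · rw [norm_neg]
    exact h4 z hz
  · have e : -g z - -g w = -(g z - g w) := by ring
    rw [e, norm_neg]
    exact h5 z hz w hw

lemma holder_congr {Ω : Set (Fin (m + 3) → ℂ)} {β B : ℝ} {g g' : (Fin (m + 3) → ℂ) → ℂ}
    (h : HolderNormLE Ω β g B) (he : ∀ x ∈ Ω, g' x = g x) : HolderNormLE Ω β g' B := by
  obtain ⟨B₁, B₂, h1, h2, h3, h4, h5⟩ := h
  refine ⟨B₁, B₂, h1, h2, h3, fun z hz => ?_, fun z hz w hw => ?_⟩
  · rw [he z hz]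
    exact h4 z hz
  · rw [he z hz, he w hw]
    exact h5 z hz w hw

lemma holder_mono {Ω : Set (Fin (m + 3) → ℂ)} {β B B' : ℝ} {g : (Fin (m + 3) → ℂ) → ℂ}
    (h : HolderNormLE Ω β g B) (hB : B ≤ B') : HolderNormLE Ω β g B' := by
  obtain ⟨B₁, B₂, h1, h2, h3, h4, h5⟩ := h
  exact ⟨B₁, B₂, h1, h2, h3.trans hB, h4, h5⟩

lemma holder_zero {Ω : Set (Fin (m + 3) → ℂ)} {β B : ℝ} (hB : 0 ≤ B) :
    HolderNormLE Ω β (fun _ => 0) B := by
  refine ⟨0, 0, le_rfl, le_rfl, by simpa using hB, fun z _ => by simp, fun z _ w _ => by simp⟩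

lemma ff_mem {β : ℝ} (hβ : 0 < β) (hβ' : β < 1 / 99) : MemHolderForm (OmH m) β ff := by
  intro i
  by_cases hi : i = 1
  · have := holder_tail (m := m) hβ hβ' 0
    refine ⟨_, holder_congr this ?_⟩
    intro x _
    simp only [ff, if_pos hi, Gg, add_zero]
  · refine ⟨0, holder_congr (holder_zero le_rfl) ?_⟩
    intro x _
    simp only [ff, if_neg hi]

lemma conv_FF {β : ℝ} (hβ : 0 < β) (hβ' : β < 1 / 99) : HolderConv (OmH m) β FF ff := by
  intro ε hε
  have h3 := (tendsto_sum_nat_add (ee β)).const_mul 152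
  rw [mul_zero] at h3
  obtain ⟨N₀, hN₀⟩ := Filter.eventually_atTop.1 (h3.eventually (gt_mem_nhds hε))
  refine ⟨N₀, fun N hN i => ?_⟩
  by_cases hi : i = 1
  · have h4 := holder_mono (holder_neg (holder_tail (m := m) hβ hβ' N)) (hN₀ N hN).le
    refine holder_congr h4 ?_
    intro x hx
    simp only [ff, FF, if_pos hi, Gg]
    rw [← (summable_tg hβ hβ' hx).sum_add_tsum_nat_add N]
    ring
  · refine holder_congr (holder_zero hε.le) ?_
    intro x _
    simp only [ff, FF, if_neg hi, sub_zero]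

lemma qq_pos (j : ℕ) : (0 : ℝ) < qq j := by
  have := two_le_qq j
  exact_mod_cast (by omega : 0 < qq j)

lemma del_pos (j : ℕ) : 0 < 1 / (qq j : ℝ) ^ 9 := by
  have := qq_pos j
  positivity

lemma contDiff_tu (j : ℕ) : ContDiff ℝ ∞ (tu (m := m) j) :=
  contDiff_const.mul (contDiff_uH _ (del_pos j))

lemma contDiff_tg (j : ℕ) : ContDiff ℝ ∞ (tg (m := m) j) :=
  contDiff_const.mul ((contDiff_AH _).mul ((contDiff_GG (del_pos j)).comp (contDiff_apply ℝ ℂ 1)))

/-- each term solves its equation -/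
lemma tu_solves (j : ℕ) (i : Fin (m + 3)) (φ : (Fin (m + 3) → ℂ) → ℂ) (hφ : IsTest (OmH m) φ) :
    ∫ x in OmH m, tu j x * dbar i φ x = - ∫ x in OmH m, (if i = 1 then tg j x else 0) * φ x := by
  have h := uH_solves (m := m) (2 * qq j ^ 72) (del_pos j) isOpen_OmH i φ hφ
  have e1 : ∀ x, tu (m := m) j x * dbar i φ x =
      (cR j : ℂ) * (uH (2 * qq j ^ 72) (1 / (qq j : ℝ) ^ 9) x * dbar i φ x) := by
    intro x
    unfold tu
    ring
  have e2 : ∀ x : Fin (m + 3) → ℂ, (if i = 1 then tg j x else 0) * φ x =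
      (cR j : ℂ) * (fH (2 * qq j ^ 72) (1 / (qq j : ℝ) ^ 9) x i * φ x) := by
    intro x
    unfold tg fH gco
    split_ifs
    · ring
    · ring
  simp_rw [e1, e2]
  rw [integral_const_mul, integral_const_mul, h]
  ring

lemma SU_solves (N : ℕ) : SolvesDbar (OmH m) (SU N) (FF N) := by
  intro i φ hφ
  induction N with
  | zero => simp [SU, FF]
  | succ N ih =>
    have e1 : ∀ x, SU (m := m) (N + 1) x * dbar i φ x =
        SU N x * dbar i φ x + tu N x * dbar i φ x := by
      intro x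
      unfold SU
      rw [Finset.sum_range_succ]
      ring
    have e2 : ∀ x, FF (m := m) (N + 1) x i * φ x =
        FF N x i * φ x + (if i = 1 then tg N x else 0) * φ x := by
      intro x
      unfold FF
      split_ifs
      · rw [Finset.sum_range_succ]
        ring
      · ring
    simp_rw [e1, e2]
    have i1 : IntegrableOn (fun x => SU (m := m) N x * dbar i φ x) (OmH m) :=
      (integrable_mul_of_cs isOpen_OmH (continuous_SU N).continuousOn (hφ.continuous_dbar i)
        (hφ.hcs_dbar i) (hφ.tsupport_dbar i)).integrableOn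
    have i2 : IntegrableOn (fun x => tu (m := m) N x * dbar i φ x) (OmH m) :=
      (integrable_mul_of_cs isOpen_OmH (continuous_tu N).continuousOn (hφ.continuous_dbar i)
        (hφ.hcs_dbar i) (hφ.tsupport_dbar i)).integrableOn
    have c1 : Continuous fun x => FF (m := m) N x i := by
      unfold FF
      split_ifs
      · exact continuous_finsetSum _ fun j _ => continuous_tg j
      · exact continuous_const
    have c2 : Continuous fun x : Fin (m + 3) → ℂ => (if i = 1 then tg N x else 0) := by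
      split_ifs
      · exact continuous_tg N
      · exact continuous_const
    have i3 : IntegrableOn (fun x => FF (m := m) N x i * φ x) (OmH m) :=
      (integrable_mul_of_cs isOpen_OmH c1.continuousOn hφ.1.continuous
        hφ.2.1 hφ.2.2).integrableOn
    have i4 : IntegrableOn (fun x : Fin (m + 3) → ℂ => (if i = 1 then tg N x else 0) * φ x)
        (OmH m) :=
      (integrable_mul_of_cs isOpen_OmH c2.continuousOn hφ.1.continuous
        hφ.2.1 hφ.2.2).integrableOn
    rw [integral_add i1 i2, integral_add i3 i4, ih, tu_solves N i φ hφ]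
    ring

lemma FF_range {α β : ℝ} (hα : 0 < α) (hα1 : α < 1) (hβ : 0 < β) (hβ' : β < 1) (N : ℕ) :
    InRange (OmH m) α β (FF N) := by
  refine ⟨?_, SU N, ?_, SU_solves N⟩
  · intro i
    apply smooth_holder _ hβ hβ'
    unfold FF
    split_ifs
    · exact ContDiff.sum fun j _ => contDiff_tg j
    · exact contDiff_const
  · apply smooth_holder _ hα hα1
    exact ContDiff.sum fun j _ => contDiff_tu j

/-- interchange of sum and integral -/
lemma hasSum_int {T : ℕ → (Fin (m + 3) → ℂ) → ℂ} (hT : ∀ j, Continuous (T j))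
    {ψ : (Fin (m + 3) → ℂ) → ℂ} (hψ : Continuous ψ) (hψc : HasCompactSupport ψ)
    {Ω : Set (Fin (m + 3) → ℂ)} (hΩ : IsOpen Ω)
    (hψs : tsupport ψ ⊆ Ω) {b : ℕ → ℝ} (hb : Summable b)
    (hbd : ∀ j, ∀ x ∈ tsupport ψ, ‖T j x‖ ≤ b j) :
    HasSum (fun j => ∫ x in Ω, T j x * ψ x) (∫ x in Ω, (∑' j, T j x) * ψ x) := by
  have hint : ∀ j, Integrable (fun x => T j x * ψ x) := fun j =>
    integrable_mul_of_cs hΩ (hT j).continuousOn hψ hψc hψs
  have hψi : Integrable ψ := hψ.integrable_of_hasCompactSupport hψc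
  have h1 : Summable fun j => ∫ x, ‖T j x * ψ x‖ ∂(volume.restrict Ω) := by
    have hs : Summable fun j => b j * ∫ x, ‖ψ x‖ ∂(volume.restrict Ω) := hb.mul_right _
    apply Summable.of_nonneg_of_le (fun j => integral_nonneg fun x => norm_nonneg _) _ hs
    intro j
    rw [← integral_const_mul]
    apply integral_mono (hint j).integrableOn.norm (hψi.integrableOn.norm.const_mul _)
    intro x
    simp only
    rw [norm_mul]
    by_cases hx : x ∈ tsupport ψ
    · exact mul_le_mul_of_nonneg_right (hbd j x hx) (norm_nonneg _)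
    · rw [image_eq_zero_of_notMem_tsupport hx]
      simp
  have h2 := hasSum_integral_of_summable_integral_norm (μ := volume.restrict Ω)
    (F := fun j x => T j x * ψ x) (fun j => (hint j).integrableOn) h1
  have e : ∀ x, ∑' j, T j x * ψ x = (∑' j, T j x) * ψ x := fun x => tsum_mul_right
  simp_rw [e] at h2
  exact h2

lemma UU_solves {β : ℝ} (hβ : 0 < β) (hβ' : β < 1 / 99) : SolvesDbar (OmH m) UU ff := by
  intro i φ hφ
  -- a radius for the support
  obtain ⟨r, hr0, hr1, hr⟩ : ∃ r : ℝ, 0 ≤ r ∧ r < 1 ∧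
      ∀ x ∈ tsupport φ, ‖x (Fin.succ (Fin.succ 0))‖ ≤ r := by
    rcases (tsupport φ).eq_empty_or_nonempty with h | h
    · exact ⟨0, le_rfl, by norm_num, fun x hx => by rw [h] at hx; exact absurd hx (notMem_empty _)⟩
    · have hc : IsCompact (tsupport φ) := hφ.2.1
      obtain ⟨x, hx, hmax⟩ := hc.exists_isMaxOn h
        (f := fun x : Fin (m + 3) → ℂ => ‖x (Fin.succ (Fin.succ 0))‖) (by fun_prop)
      exact ⟨‖x (Fin.succ (Fin.succ 0))‖, norm_nonneg _, two_lt (hφ.2.2 hx), fun y hy => hmax hy⟩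
  have hts : tsupport (dbar i φ) ⊆ tsupport φ := by
    apply closure_minimal _ (isClosed_tsupport φ)
    intro x hx
    by_contra h
    exact hx (dbar_eq_zero_of_notMem h i)
  have s1 := hasSum_int (m := m) (T := tu) continuous_tu (hφ.continuous_dbar i) (hφ.hcs_dbar i)
    isOpen_OmH (hφ.tsupport_dbar i) (summable_geo hr0 hr1) (fun j x hx =>
      norm_tu j hr1.le (coord_closure (subset_closure (hφ.tsupport_dbar i hx)) 0)
        (hr x (hts hx)))
  have s2 := hasSum_int (m := m) (T := fun j x => if i = 1 then tg j x else 0)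
    (fun j => by
      split_ifs
      · exact continuous_tg j
      · exact continuous_const) hφ.1.continuous hφ.2.1
    isOpen_OmH hφ.2.2 ((summable_ee hβ').mul_left 8) (fun j x hx => by
      split_ifs
      · exact norm_tg hβ j (subset_closure (hφ.2.2 hx))
      · rw [norm_zero]
        have := ee_nonneg β j
        positivity)
  have h3 : ∀ x, (∑' j, (if i = 1 then tg (m := m) j x else 0)) = ff x i := by
    intro x
    unfold ff Gg
    split_ifs
    · rfl
    · exact tsum_zero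
  simp_rw [h3] at s2
  have h4 : (fun j => ∫ x in OmH m, tu j x * dbar i φ x) =
      fun j => - ∫ x in OmH m, (if i = 1 then tg j x else 0) * φ x := by
    funext j
    exact tu_solves j i φ hφ
  rw [h4] at s1
  exact s1.unique s2.neg

lemma cont_of_mem {α : ℝ} (hα : 0 < α) {u : (Fin (m + 3) → ℂ) → ℂ}
    (hu : MemHolder (OmH m) α u) : ContinuousOn u (OmH m) ∧ ∃ B, ∀ x ∈ OmH m, ‖u x‖ ≤ B := by
  obtain ⟨B, B₁, B₂, h1, h2, h3, h4, h5⟩ := hu
  exact ⟨(holder_cont hα h5).mono subset_closure, B₁, fun x hx => h4 x (subset_closure hx)⟩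

theorem not_closed (m : ℕ) {α β : ℝ} (hα : 0 < α) (hαβ : α < β) (hβ' : β < 1 / 99) :
    ¬ ClosedRange (OmH m) α β := by
  intro h
  have hβ : 0 < β := hα.trans hαβ
  obtain ⟨-, u, hu, hus⟩ := h FF ff
    (fun N => FF_range hα (by linarith) hβ (by linarith) N) (ff_mem hβ hβ') (conv_FF hβ hβ')
  obtain ⟨huc, B, hB⟩ := cont_of_mem hα hu
  have key : ∀ j : ℕ, ((j : ℝ) + 1) / 16 ≤ B := by
    intro j
    obtain ⟨h1, hρ, hρ4, hr, hρr, hrk, hδρ⟩ := params (two_le_qq j)
    have h0 := vanish (H := fun x => u x - UU x) (huc.sub continuousOn_UU)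
      (weak_diff isOpen_OmH huc continuousOn_UU hus (UU_solves hβ hβ')) hρ hρ4 hr hρr
      (2 * qq j ^ 72)
    rw [Lam_sub huc continuousOn_UU hρ (by linarith) hρr, sub_eq_zero, Lam_UU hρ hr hρr] at h0
    unfold tu at h0
    rw [Lam_smul] at h0
    have h2 := lower (two_le_qq j) (cR_nonneg j) hB h0
    have e : cR j / (16 * (qq j : ℝ) ^ 8) = ((j : ℝ) + 1) / 16 := by
      unfold cR
      have := qq_pos j
      field_simp
    rwa [e] at h2
  obtain ⟨j, hj⟩ := exists_nat_gt (16 * B)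
  have := key j
  linarith

end Pool.Agent.Helper303.Ho
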