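import Pool.Agent.Helper303.HoDefs

open MeasureTheory Set
open scoped ContDiff

namespace Pool.Agent.Helper303.Ho

open Pool.Agent.Helper303.Db

/-- `u ∈ Λ^γ(Ω̄)`, for `0 < γ < 1` -/
def MemHolder {n : ℕ} (Ω : Set (Fin n → ℂ)) (γ : ℝ) (u : (Fin n → ℂ) → ℂ) : Prop :=
  ∃ B : ℝ, HolderNormLE (closure Ω) γ u B

/-- `f ∈ Λ^γ_{(0,1)}(Ω̄)`, for `0 < γ < 1` -/
def MemHolderForm {n : ℕ} (Ω : Set (Fin n → ℂ)) (γ : ℝ) (f : (Fin n → ℂ) → (Fin n → ℂ)) : Prop :=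
  ∀ j, MemHolder Ω γ (fun x => f x j)

/-- `F N → f` in the norm of `Λ^γ_{(0,1)}(Ω̄)`, for `0 < γ < 1` -/
def HolderConv {n : ℕ} (Ω : Set (Fin n → ℂ)) (γ : ℝ) (F : ℕ → (Fin n → ℂ) → (Fin n → ℂ))
    (f : (Fin n → ℂ) → (Fin n → ℂ)) : Prop :=
  ∀ ε : ℝ, 0 < ε → ∃ N₀ : ℕ, ∀ N, N₀ ≤ N → ∀ j,
    HolderNormLE (closure Ω) γ (fun x => F N x j - f x j) ε

/-- `f` belongs to the range of `∂̄ : Λ^α(Ω̄) → Λ^β_{(0,1)}(Ω̄)`, for `0 < α < β < 1` -/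
def InRange {n : ℕ} (Ω : Set (Fin n → ℂ)) (α β : ℝ) (f : (Fin n → ℂ) → (Fin n → ℂ)) : Prop :=
  MemHolderForm Ω β f ∧ ∃ u : (Fin n → ℂ) → ℂ, MemHolder Ω α u ∧ SolvesDbar Ω u f

/-- the operator `∂̄ : Λ^α(Ω̄) → Λ^β_{(0,1)}(Ω̄)` has closed range, for `0 < α < β < 1` -/
def ClosedRange {n : ℕ} (Ω : Set (Fin n → ℂ)) (α β : ℝ) : Prop :=
  ∀ (F : ℕ → (Fin n → ℂ) → (Fin n → ℂ)) (f : (Fin n → ℂ) → (Fin n → ℂ)),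
    (∀ N, InRange Ω α β (F N)) → MemHolderForm Ω β f → HolderConv Ω β F f → InRange Ω α β f

end Pool.Agent.Helper303.Ho
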