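import Pool.Agent.Helper303.DbDefs

open MeasureTheory Set
open scoped ContDiff

namespace Pool.Agent.Helper303.Ho

open Pool.Agent.Helper303.Db

/-- The boundary of `Ω` is a real-analytic hypersurface: near each boundary point, `Ω = {r < 0}`
for a real-analytic function `r` with `dr ≠ 0` on the boundary. -/
def RealAnalyticBoundary {n : ℕ} (Ω : Set (Fin n → ℂ)) : Prop :=
  ∀ p ∈ frontier Ω, ∃ (U : Set (Fin n → ℂ)) (r : (Fin n → ℂ) → ℝ), IsOpen U ∧ p ∈ U ∧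
    AnalyticOnNhd ℝ r U ∧ (∀ x ∈ U, x ∈ Ω ↔ r x < 0) ∧
    ∀ x ∈ U, x ∈ frontier Ω → fderiv ℝ r x ≠ 0

/-- `ψ` satisfies the sub-mean value inequality on every closed complex disc
`{a + ζ v : |ζ| ≤ 1}` contained in `Ω`; for continuous `ψ` this means that `ψ` is
plurisubharmonic on `Ω`. -/
def SubMeanOnDiscs {n : ℕ} (Ω : Set (Fin n → ℂ)) (ψ : (Fin n → ℂ) → ℝ) : Prop :=
  ∀ a v : Fin n → ℂ, (∀ ζ : ℂ, ‖ζ‖ ≤ 1 → a + ζ • v ∈ Ω) →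
    ψ a ≤ (1 / (2 * Real.pi)) *
      ∫ θ in (0 : ℝ)..2 * Real.pi, ψ (a + Complex.exp (θ * Complex.I) • v)

/-- `Ω` is pseudoconvex: it has a continuous plurisubharmonic exhaustion function. -/
def Pseudoconvex {n : ℕ} (Ω : Set (Fin n → ℂ)) : Prop :=
  ∃ ψ : (Fin n → ℂ) → ℝ, ContinuousOn ψ Ω ∧ SubMeanOnDiscs Ω ψ ∧
    ∀ c : ℝ, IsCompact {x | x ∈ Ω ∧ ψ x ≤ c}

/-- Euclidean distance in `ℂⁿ` -/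
noncomputable def eDist {n : ℕ} (z w : Fin n → ℂ) : ℝ := Real.sqrt (∑ j, ‖z j - w j‖ ^ 2)

/-- `‖u‖_{Λ^ε} ≤ B`, where `‖u‖_{Λ^ε} = sup_Ω |u| + sup_{z ≠ w} |u(z) - u(w)|/|z - w|^ε`. -/
def HolderNormLE {n : ℕ} (Ω : Set (Fin n → ℂ)) (ε : ℝ) (u : (Fin n → ℂ) → ℂ) (B : ℝ) : Prop :=
  ∃ B₁ B₂ : ℝ, 0 ≤ B₁ ∧ 0 ≤ B₂ ∧ B₁ + B₂ ≤ B ∧ (∀ z ∈ Ω, ‖u z‖ ≤ B₁) ∧
    ∀ z ∈ Ω, ∀ w ∈ Ω, ‖u z - u w‖ ≤ B₂ * eDist z w ^ ε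

/-- `∂̄` can be solved with Hölder estimates on `Ω`: there are `ε ∈ (0,1)` and `C > 0` such that
every `∂̄`-closed `(0,1)`-form `f` on `Ω` with continuous coefficients and
`sup_Ω (∑ |f_j|²)^{1/2} ≤ M` has a solution `u` of `∂̄u = f` with `‖u‖_{Λ^ε} ≤ C M`. -/
def HolderEstimates {n : ℕ} (Ω : Set (Fin n → ℂ)) : Prop :=
  ∃ ε C : ℝ, 0 < ε ∧ ε < 1 ∧ 0 < C ∧ ∀ (f : (Fin n → ℂ) → (Fin n → ℂ)) (M : ℝ),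
    ContinuousOn f Ω → (∀ x ∈ Ω, Real.sqrt (∑ j, ‖f x j‖ ^ 2) ≤ M) → DbarClosed Ω f →
    ∃ u : (Fin n → ℂ) → ℂ, SolvesDbar Ω u f ∧ HolderNormLE Ω ε u (C * M)

end Pool.Agent.Helper303.Ho
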