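import Pool.Agent.Helper303.HoPsc

open MeasureTheory Set Complex
open scoped Real Topology ContDiff

namespace Pool.Agent.Helper303.Ho

variable {m : ℕ}

/-- the tail `∑_{j ≥ 2} |p_j|²` -/
noncomputable def tail (p : Fin (m + 3) → ℂ) : ℝ := ∑ j : Fin (m + 1), normSq (p j.succ.succ)

/-- the function `|z⁴ - s⁴|² + |z|¹⁸ + |s|¹⁸ + ∑ |w_j|²` -/
noncomputable def SH (p : Fin (m + 3) → ℂ) : ℝ :=
  normSq (p 0 ^ 4 - p 1 ^ 4) + normSq (p 0) ^ 9 + normSq (p 1) ^ 9 + tail p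

/-- the domain -/
def OmH (m : ℕ) : Set (Fin (m + 3) → ℂ) := {p | SH p < 1}

lemma mem_OmH {p : Fin (m + 3) → ℂ} : p ∈ OmH m ↔ SH p < 1 := Iff.rfl

lemma tail_nonneg (p : Fin (m + 3) → ℂ) : 0 ≤ tail p :=
  Finset.sum_nonneg fun _ _ => normSq_nonneg _

lemma le_tail (p : Fin (m + 3) → ℂ) (j : Fin (m + 1)) : normSq (p j.succ.succ) ≤ tail p :=
  Finset.single_le_sum (f := fun j : Fin (m + 1) => normSq (p j.succ.succ))
    (fun _ _ => normSq_nonneg _) (Finset.mem_univ j)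

/-- the family of holomorphic functions -/
noncomputable def gH : Fin 3 ⊕ Fin (m + 1) → (Fin (m + 3) → ℂ) → ℂ
  | Sum.inl 0 => fun p => p 0 ^ 4 - p 1 ^ 4
  | Sum.inl 1 => fun p => p 0 ^ 9
  | Sum.inl 2 => fun p => p 1 ^ 9
  | Sum.inr j => fun p => p j.succ.succ

lemma sum_gH (p : Fin (m + 3) → ℂ) : ∑ i, ‖gH i p‖ ^ 2 = SH p := by
  rw [Fintype.sum_sum_type, Fin.sum_univ_three]
  simp only [gH, SH, tail, normSq_eq_norm_sq, norm_pow]
  ring

lemma diff_gH (i : Fin 3 ⊕ Fin (m + 1)) : Differentiable ℂ (gH (m := m) i) := by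
  rcases i with i | j
  · fin_cases i <;> simp only [gH] <;> fun_prop
  · simp only [gH]
    fun_prop

lemma coord_le {p : Fin (m + 3) → ℂ} (hp : SH p ≤ 1) (j : Fin (m + 3)) : ‖p j‖ ≤ 1 := by
  have h1 := normSq_nonneg (p 0 ^ 4 - p 1 ^ 4)
  have h2 : 0 ≤ normSq (p 0) ^ 9 := pow_nonneg (normSq_nonneg _) _
  have h3 : 0 ≤ normSq (p 1) ^ 9 := pow_nonneg (normSq_nonneg _) _
  have h4 := tail_nonneg p
  unfold SH at hp
  have key : ∀ z : ℂ, normSq z ≤ 1 → ‖z‖ ≤ 1 := by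
    intro z hz
    rw [normSq_eq_norm_sq] at hz
    nlinarith [norm_nonneg z]
  apply key
  refine Fin.cases ?_ (fun j => Fin.cases ?_ (fun j => ?_) j) j
  · have : normSq (p 0) ^ 9 ≤ 1 := by linarith
    exact (pow_le_one_iff_of_nonneg (normSq_nonneg _) (by norm_num)).1 this
  · have : normSq (p 1) ^ 9 ≤ 1 := by linarith
    exact (pow_le_one_iff_of_nonneg (normSq_nonneg _) (by norm_num)).1 this
  · have := le_tail p j
    linarith

lemma bdd_le : Bornology.IsBounded {p : Fin (m + 3) → ℂ | SH p ≤ 1} := by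
  apply Metric.isBounded_closedBall (x := (0 : Fin (m + 3) → ℂ)) (r := 1) |>.subset
  intro p hp
  rw [mem_closedBall_zero_iff, pi_norm_le_iff_of_nonneg (by norm_num)]
  exact coord_le hp

lemma psc_OmH : Pseudoconvex (OmH m) := by
  apply psc gH diff_gH
  · intro x
    rw [sum_gH]
    exact Iff.rfl
  · have : {x : Fin (m + 3) → ℂ | ∑ i, ‖gH i x‖ ^ 2 ≤ 1} = {p | SH p ≤ 1} := by
      ext x
      rw [mem_ofPred_eq, mem_ofPred_eq, sum_gH]
    rw [this]
    exact bdd_le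

lemma bdd_OmH : Bornology.IsBounded (OmH m) :=
  bdd_le.subset fun p hp => (show SH p ≤ 1 from le_of_lt (show SH p < 1 from hp))

lemma SH_smul (t : ℝ) (p : Fin (m + 3) → ℂ) : SH (t • p) =
    t ^ 8 * normSq (p 0 ^ 4 - p 1 ^ 4) + t ^ 18 * (normSq (p 0) ^ 9 + normSq (p 1) ^ 9) +
      t ^ 2 * tail p := by
  unfold SH tail
  simp only [Pi.smul_apply, real_smul]
  have e1 : ((t : ℂ) * p 0) ^ 4 - (t * p 1) ^ 4 = ((t ^ 4 : ℝ) : ℂ) * (p 0 ^ 4 - p 1 ^ 4) := by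
    push_cast
    ring
  rw [e1]
  simp only [map_mul, normSq_ofReal, ← Finset.mul_sum]
  ring

lemma cont_SH : Continuous (SH (m := m)) := by
  unfold SH tail
  have : Continuous normSq := continuous_normSq
  fun_prop

lemma isOpen_OmH : IsOpen (OmH m) := isOpen_lt cont_SH continuous_const

lemma zero_mem : (0 : Fin (m + 3) → ℂ) ∈ OmH m := by
  rw [mem_OmH]
  have := SH_smul 0 (0 : Fin (m + 3) → ℂ)
  rw [zero_smul] at this
  rw [this]
  norm_num

lemma star_OmH : StarConvex ℝ 0 (OmH m) := by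
  rw [starConvex_zero_iff]
  intro p hp t ht0 ht1
  rw [mem_OmH] at hp ⊢
  refine lt_of_le_of_lt ?_ hp
  rw [SH_smul]
  unfold SH
  have h1 := normSq_nonneg (p 0 ^ 4 - p 1 ^ 4)
  have h2 : 0 ≤ normSq (p 0) ^ 9 := pow_nonneg (normSq_nonneg _) _
  have h3 : 0 ≤ normSq (p 1) ^ 9 := pow_nonneg (normSq_nonneg _) _
  have h4 := tail_nonneg p
  have t8 : t ^ 8 ≤ 1 := pow_le_one₀ ht0 ht1
  have t18 : t ^ 18 ≤ 1 := pow_le_one₀ ht0 ht1
  have t2 : t ^ 2 ≤ 1 := pow_le_one₀ ht0 ht1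
  have e1 : t ^ 8 * normSq (p 0 ^ 4 - p 1 ^ 4) ≤ 1 * normSq (p 0 ^ 4 - p 1 ^ 4) := by gcongr
  have e2 : t ^ 18 * (normSq (p 0) ^ 9 + normSq (p 1) ^ 9) ≤
      1 * (normSq (p 0) ^ 9 + normSq (p 1) ^ 9) := by gcongr
  have e3 : t ^ 2 * tail p ≤ 1 * tail p := by gcongr
  linarith

lemma conn_OmH : IsConnected (OmH m) :=
  (star_OmH.isPathConnected zero_mem).isConnected

lemma analytic_SH : AnalyticOnNhd ℝ (SH (m := m)) univ := by
  have hns : AnalyticOnNhd ℝ (fun z : ℂ => normSq z) univ := by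
    have e : (fun z : ℂ => normSq z) = fun z => reCLM z * reCLM z + imCLM z * imCLM z := by
      funext z
      simp [normSq_apply]
    rw [e]
    exact ((reCLM.analyticOnNhd univ).mul (reCLM.analyticOnNhd univ)).add
      ((imCLM.analyticOnNhd univ).mul (imCLM.analyticOnNhd univ))
  have hpr : ∀ j : Fin (m + 3), AnalyticOnNhd ℝ (fun p : Fin (m + 3) → ℂ => p j) univ := fun j =>
    (ContinuousLinearMap.proj (R := ℝ) (φ := fun _ : Fin (m + 3) => ℂ) j).analyticOnNhd univ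
  have hcomp : ∀ g : (Fin (m + 3) → ℂ) → ℂ, AnalyticOnNhd ℝ g univ →
      AnalyticOnNhd ℝ (fun p => normSq (g p)) univ := fun g hg =>
    hns.comp hg (mapsTo_univ _ _)
  have h1 := hcomp _ (((hpr 0).pow 4).sub ((hpr 1).pow 4))
  have h2 := (hcomp _ (hpr 0)).pow 9
  have h3 := (hcomp _ (hpr 1)).pow 9
  have h4 : AnalyticOnNhd ℝ (tail (m := m)) univ := by
    have := Finset.analyticOnNhd_fun_sum (𝕜 := ℝ) (f := fun (j : Fin (m + 1)) (p : Fin (m + 3) → ℂ) =>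
      normSq (p j.succ.succ)) (s := univ) Finset.univ (fun j _ => hcomp _ (hpr _))
    exact this
  exact ((h1.add h2).add h3).add h4

lemma fderiv_ne {p : Fin (m + 3) → ℂ} (hp : SH p = 1) : fderiv ℝ (fun p => SH p - 1) p ≠ 0 := by
  intro h0
  have hd : DifferentiableAt ℝ (fun p : Fin (m + 3) → ℂ => SH p - 1) p :=
    ((analytic_SH p (mem_univ _)).differentiableAt).sub_const 1
  have h1 : HasDerivAt (fun t : ℝ => t • p) p 1 := by
    simpa using (hasDerivAt_id (1 : ℝ)).smul_const p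
  have h2 : HasFDerivAt (fun p : Fin (m + 3) → ℂ => SH p - 1)
      (fderiv ℝ (fun p : Fin (m + 3) → ℂ => SH p - 1) p) ((1 : ℝ) • p) := by
    rw [one_smul]
    exact hd.hasFDerivAt
  have h3 := h2.comp_hasDerivAt (1 : ℝ) h1
  rw [h0] at h3
  have h4 : HasDerivAt (fun t : ℝ => t ^ 8 * normSq (p 0 ^ 4 - p 1 ^ 4) +
      t ^ 18 * (normSq (p 0) ^ 9 + normSq (p 1) ^ 9) + t ^ 2 * tail p - 1)
      (8 * normSq (p 0 ^ 4 - p 1 ^ 4) + 18 * (normSq (p 0) ^ 9 + normSq (p 1) ^ 9) +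
        2 * tail p) 1 := by
    have a1 := ((hasDerivAt_pow 8 (1 : ℝ)).mul_const (normSq (p 0 ^ 4 - p 1 ^ 4)))
    have a2 := ((hasDerivAt_pow 18 (1 : ℝ)).mul_const (normSq (p 0) ^ 9 + normSq (p 1) ^ 9))
    have a3 := ((hasDerivAt_pow 2 (1 : ℝ)).mul_const (tail p))
    have := ((a1.fun_add a2).fun_add a3).sub_const 1
    refine this.congr_deriv ?_
    norm_num
  have e : ((fun p : Fin (m + 3) → ℂ => SH p - 1) ∘ fun t : ℝ => t • p) =
      (fun t : ℝ => t ^ 8 * normSq (p 0 ^ 4 - p 1 ^ 4) +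
      t ^ 18 * (normSq (p 0) ^ 9 + normSq (p 1) ^ 9) + t ^ 2 * tail p - 1) := by
    funext t
    simp only [Function.comp_apply, SH_smul]
  rw [e] at h3
  have h5 := h3.unique h4
  simp only [zero_apply] at h5
  unfold SH at hp
  have b1 := normSq_nonneg (p 0 ^ 4 - p 1 ^ 4)
  have b2 : 0 ≤ normSq (p 0) ^ 9 := pow_nonneg (normSq_nonneg _) _
  have b3 : 0 ≤ normSq (p 1) ^ 9 := pow_nonneg (normSq_nonneg _) _
  have b4 := tail_nonneg p
  linarith

lemma frontier_sub {p : Fin (m + 3) → ℂ} (hp : p ∈ frontier (OmH m)) : SH p = 1 :=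
  frontier_lt_subset_eq cont_SH continuous_const hp

lemma rab_OmH : RealAnalyticBoundary (OmH m) := by
  intro p hp
  refine ⟨univ, fun p => SH p - 1, isOpen_univ, mem_univ _, ?_, ?_, ?_⟩
  · exact analytic_SH.sub analyticOnNhd_const
  · intro x _
    rw [mem_OmH]
    constructor <;> intro h <;> linarith
  · intro x _ hx
    exact fderiv_ne (frontier_sub hx)

end Pool.Agent.Helper303.Ho
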