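import Pool.Agent.Helper303.HoDom
import Pool.Agent.Helper303.DbForm

open MeasureTheory Set Complex
open scoped Real Topology ContDiff ComplexConjugate

namespace Pool.Agent.Helper303.Ho

open Pool.Agent.Helper303.Db

/-- `∂̄_k (A(p) φ(p_l)) = A(p) [k = l] ∂φ/∂s̄` -/
lemma dbar_mul_one {n : ℕ} {A : (Fin n → ℂ) → ℂ} {φ : ℂ → ℂ} {x : Fin n → ℂ} {l : Fin n}
    (hA : DifferentiableAt ℂ A x) {T : ℂ →L[ℝ] ℂ} (hφ : HasFDerivAt φ T (x l)) (k : Fin n) :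
    dbar k (fun p => A p * φ (p l)) x =
      A x * (if k = l then (T 1 + I * T I) / 2 else 0) := by
  have hA' := hA.hasFDerivAt.restrictScalars ℝ
  have hpr : HasFDerivAt (fun p : Fin n → ℂ => p l)
      (ContinuousLinearMap.proj (R := ℝ) (φ := fun _ : Fin n => ℂ) l) x := hasFDerivAt_apply l x
  have hφ' : HasFDerivAt (fun p : Fin n → ℂ => φ (p l))
      (T.comp (ContinuousLinearMap.proj (R := ℝ) (φ := fun _ : Fin n => ℂ) l)) x :=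
    HasFDerivAt.comp x (g := φ) (f := fun p : Fin n → ℂ => p l) hφ hpr
  have h := (hA'.fun_mul hφ').fderiv
  unfold dbar
  rw [h]
  have hI : ∀ T : (Fin n → ℂ) →L[ℂ] ℂ, T (Pi.single k I) = I * T (Pi.single k 1) := by
    intro T
    have : (Pi.single k I : Fin n → ℂ) = I • Pi.single k 1 := by
      rw [← Pi.single_smul]
      simp
    rw [this, map_smul, smul_eq_mul]
  simp only [add_apply, ContinuousLinearMap.coe_restrictScalars', smul_apply, smul_eq_mul,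
    ContinuousLinearMap.comp_apply, hI, ContinuousLinearMap.proj_apply]
  split_ifs with hkl
  · subst hkl
    simp only [Pi.single_eq_same]
    ring_nf
    simp only [Complex.I_sq]
    ring
  · rw [Pi.single_eq_of_ne (Ne.symm hkl), Pi.single_eq_of_ne (Ne.symm hkl)]
    simp only [map_zero, mul_zero, zero_add]
    ring_nf
    simp only [Complex.I_sq]
    ring

/-- `φ(s) = s̄/(|s|² + δ²)` -/
noncomputable def phi (δ : ℝ) (s : ℂ) : ℂ := conj s * (s * conj s + (δ : ℂ) ^ 2)⁻¹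

/-- `G(s) = δ²/(|s|² + δ²)²` -/
noncomputable def GG (δ : ℝ) (s : ℂ) : ℂ := (δ : ℂ) ^ 2 * ((s * conj s + (δ : ℂ) ^ 2) ^ 2)⁻¹

lemma den_eq (δ : ℝ) (s : ℂ) : s * conj s + (δ : ℂ) ^ 2 = ((normSq s + δ ^ 2 : ℝ) : ℂ) := by
  rw [mul_conj]
  push_cast
  ring

lemma den_pos {δ : ℝ} (hδ : 0 < δ) (s : ℂ) : 0 < normSq s + δ ^ 2 := by
  have := normSq_nonneg s
  positivity

lemma den_ne {δ : ℝ} (hδ : 0 < δ) (s : ℂ) : s * conj s + (δ : ℂ) ^ 2 ≠ 0 := by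
  rw [den_eq]
  exact_mod_cast (den_pos hδ s).ne'

lemma contDiff_den (δ : ℝ) : ContDiff ℝ ∞ (fun s : ℂ => s * conj s + (δ : ℂ) ^ 2) := by
  have hconj : ContDiff ℝ ∞ (fun z : ℂ => conj z) := Complex.conjCLE.contDiff
  exact (contDiff_id.mul hconj).add contDiff_const

lemma contDiff_phi {δ : ℝ} (hδ : 0 < δ) : ContDiff ℝ ∞ (phi δ) := by
  have hconj : ContDiff ℝ ∞ (fun z : ℂ => conj z) := Complex.conjCLE.contDiff
  exact hconj.mul ((contDiff_den δ).inv (den_ne hδ))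

lemma contDiff_GG {δ : ℝ} (hδ : 0 < δ) : ContDiff ℝ ∞ (GG δ) := by
  exact contDiff_const.mul (((contDiff_den δ).pow 2).inv (fun s => pow_ne_zero _ (den_ne hδ s)))

lemma wirt_phi {δ : ℝ} (hδ : 0 < δ) (s : ℂ) : ∃ T : ℂ →L[ℝ] ℂ, HasFDerivAt (phi δ) T s ∧
    (T 1 + I * T I) / 2 = GG δ s := by
  have hconj : HasFDerivAt (fun z : ℂ => conj z) (Complex.conjCLE : ℂ →L[ℝ] ℂ) s :=
    Complex.conjCLE.hasFDerivAt
  have hden : HasFDerivAt (fun s : ℂ => s * conj s + (δ : ℂ) ^ 2)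
      (s • (Complex.conjCLE : ℂ →L[ℝ] ℂ) + conj s • (ContinuousLinearMap.id ℝ ℂ)) s :=
    ((hasFDerivAt_id s).fun_mul hconj).add_const _
  have hne := den_ne hδ s
  have hinv0 := (hasDerivAt_inv hne).hasFDerivAt.restrictScalars ℝ
  have hinv := HasFDerivAt.comp s (g := fun y : ℂ => y⁻¹)
    (f := fun s : ℂ => s * conj s + (δ : ℂ) ^ 2) hinv0 hden
  have h := hconj.fun_mul hinv
  refine ⟨_, h, ?_⟩
  simp only [add_apply, smul_apply, smul_eq_mul, ContinuousLinearMap.comp_apply,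
    ContinuousLinearEquiv.coe_coe, Complex.conjCLE_apply, ContinuousLinearMap.id_apply,
    map_one, conj_I]
  simp
  unfold GG
  field_simp
  rw [I_sq]
  ring

variable {m : ℕ}

/-- the holomorphic factor `w^κ z³` -/
noncomputable def AH (κ : ℕ) (p : Fin (m + 3) → ℂ) : ℂ := p (Fin.succ (Fin.succ 0)) ^ κ * p 0 ^ 3

lemma diff_AH (κ : ℕ) : Differentiable ℂ (AH (m := m) κ) := by
  unfold AH
  fun_prop

lemma contDiff_AH (κ : ℕ) : ContDiff ℝ ∞ (AH (m := m) κ) := by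
  have h : ∀ j : Fin (m + 3), ContDiff ℝ ∞ (fun p : Fin (m + 3) → ℂ => p j) := fun j =>
    contDiff_apply ℝ ℂ j
  exact ((h _).pow κ).mul ((h 0).pow 3)

/-- the function `u₀ = w^κ z³ s̄/(|s|² + δ²)` -/
noncomputable def uH (κ : ℕ) (δ : ℝ) (p : Fin (m + 3) → ℂ) : ℂ := AH κ p * phi δ (p 1)

/-- the form `∂̄u₀` -/
noncomputable def fH (κ : ℕ) (δ : ℝ) (p : Fin (m + 3) → ℂ) (j : Fin (m + 3)) : ℂ :=
  if j = 1 then AH κ p * GG δ (p 1) else 0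

lemma contDiff_uH (κ : ℕ) {δ : ℝ} (hδ : 0 < δ) : ContDiff ℝ ∞ (uH (m := m) κ δ) :=
  (contDiff_AH κ).mul ((contDiff_phi hδ).comp (contDiff_apply ℝ ℂ 1))

lemma contDiff_fH (κ : ℕ) {δ : ℝ} (hδ : 0 < δ) (j : Fin (m + 3)) :
    ContDiff ℝ ∞ (fun p => fH (m := m) κ δ p j) := by
  unfold fH
  split_ifs
  · exact (contDiff_AH κ).mul ((contDiff_GG hδ).comp (contDiff_apply ℝ ℂ 1))
  · exact contDiff_const

lemma dbar_uH (κ : ℕ) {δ : ℝ} (hδ : 0 < δ) (p : Fin (m + 3) → ℂ) (k : Fin (m + 3)) :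
    dbar k (uH κ δ) p = fH κ δ p k := by
  obtain ⟨T, hT1, hT2⟩ := wirt_phi hδ (p 1)
  have := dbar_mul_one (l := 1) (diff_AH κ p) hT1 k
  rw [hT2] at this
  unfold fH
  rw [mul_ite, mul_zero] at this
  exact this

lemma dbar_fH (κ : ℕ) {δ : ℝ} (hδ : 0 < δ) (p : Fin (m + 3) → ℂ) (j k : Fin (m + 3)) :
    dbar k (fun p => fH κ δ p j) p = dbar j (fun p => fH κ δ p k) p := by
  have h0 : ∀ j k : Fin (m + 3), ¬ (j = 1 ∧ k = 1) → dbar k (fun p => fH κ δ p j) p = 0 := by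
    intro j k hjk
    by_cases hj : j = 1
    · have hk : k ≠ 1 := fun h => hjk ⟨hj, h⟩
      have hT : HasFDerivAt (GG δ) (fderiv ℝ (GG δ) (p 1)) (p 1) :=
        ((contDiff_GG hδ).differentiable (by simp) _).hasFDerivAt
      have := dbar_mul_one (l := 1) (diff_AH κ p) hT k
      rw [if_neg hk, mul_zero] at this
      have e : (fun p => fH κ δ p j) = fun p : Fin (m + 3) → ℂ => AH κ p * GG δ (p 1) := by
        funext p
        unfold fH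
        rw [if_pos hj]
      rw [e]
      exact this
    · have e : (fun p => fH κ δ p j) = fun p : Fin (m + 3) → ℂ => 0 := by
        funext p
        unfold fH
        rw [if_neg hj]
      rw [e, dbar_zero]
  by_cases h : j = 1 ∧ k = 1
  · rw [h.1, h.2]
  · rw [h0 j k h, h0 k j (fun h' => h ⟨h'.2, h'.1⟩)]

lemma fH_closed (κ : ℕ) {δ : ℝ} (hδ : 0 < δ) {Ω : Set (Fin (m + 3) → ℂ)} (hΩ : IsOpen Ω) :
    DbarClosed Ω (fH κ δ) :=
  dbarClosed_of_classical hΩ (fun j => ((contDiff_fH κ hδ j).of_le (by simp)).contDiffOn)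
    (fun x _ j k => dbar_fH κ hδ x j k)

lemma continuous_fH (κ : ℕ) {δ : ℝ} (hδ : 0 < δ) : Continuous (fH (m := m) κ δ) :=
  continuous_pi fun j => (contDiff_fH κ hδ j).continuous

lemma norm_GG {δ : ℝ} (hδ : 0 < δ) (s : ℂ) : ‖GG δ s‖ = δ ^ 2 / (‖s‖ ^ 2 + δ ^ 2) ^ 2 := by
  unfold GG
  rw [den_eq, norm_mul, norm_inv, norm_pow, norm_pow, norm_real, norm_real, Real.norm_eq_abs,
    Real.norm_eq_abs, abs_of_pos hδ, abs_of_pos (den_pos hδ s), normSq_eq_norm_sq]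
  rw [div_eq_mul_inv]

/-- the uniform bound of the form -/
lemma norm_fH {k : ℕ} {δ : ℝ} (hδ : 0 < δ) (hk : (k : ℝ) * δ ^ 8 = 1) {p : Fin (m + 3) → ℂ}
    (hp : p ∈ OmH m) : ‖AH (2 * k) p * GG δ (p 1)‖ ≤ 8 * δ := by
  rw [mem_OmH] at hp
  set w := p (Fin.succ (Fin.succ 0)) with hw
  have hwt : ‖w‖ ^ 2 ≤ tail p := by
    have := le_tail p 0
    rwa [normSq_eq_norm_sq] at this
  have b2 : 0 ≤ normSq (p 0) ^ 9 := pow_nonneg (normSq_nonneg _) _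
  have b3 : 0 ≤ normSq (p 1) ^ 9 := pow_nonneg (normSq_nonneg _) _
  have hmain : ‖p 0 ^ 4 - p 1 ^ 4‖ ^ 2 + ‖w‖ ^ 2 ≤ 1 := by
    unfold SH at hp
    rw [normSq_eq_norm_sq (p 0 ^ 4 - p 1 ^ 4)] at hp
    linarith
  have hw1 : ‖w‖ ^ 2 ≤ 1 := by
    have : 0 ≤ ‖p 0 ^ 4 - p 1 ^ 4‖ ^ 2 := by positivity
    linarith
  set x := ‖p 0‖ with hx
  set y := ‖p 1‖ with hy
  have hx0 : 0 ≤ x := norm_nonneg _
  have hy0 : 0 ≤ y := norm_nonneg _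
  have hnorm : ‖AH (2 * k) p * GG δ (p 1)‖ =
      (‖w‖ ^ 2) ^ k * x ^ 3 * (δ ^ 2 / (y ^ 2 + δ ^ 2) ^ 2) := by
    rw [norm_mul, norm_GG hδ]
    unfold AH
    rw [norm_mul, norm_pow, norm_pow, pow_mul]
  rw [hnorm]
  have hwk : (‖w‖ ^ 2) ^ k ≤ 1 := pow_le_one₀ (by positivity) hw1
  have hden : 0 < (y ^ 2 + δ ^ 2) ^ 2 := by positivity
  rcases le_or_gt x (2 * y) with hc | hc
  · -- case `|z| ≤ 2|s|`
    have h1 : x ^ 3 ≤ (2 * y) ^ 3 := by gcongr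
    have h2 : x ^ 3 * (δ ^ 2 / (y ^ 2 + δ ^ 2) ^ 2) ≤ 8 * δ := by
      rw [mul_div_assoc', div_le_iff₀ hden]
      have h3 : y ^ 3 * δ ≤ (y ^ 2 + δ ^ 2) ^ 2 := by
        nlinarith [sq_nonneg (y ^ 2 - y * δ), sq_nonneg (δ ^ 2), mul_nonneg hy0 hδ.le,
          sq_nonneg (y * δ)]
      calc x ^ 3 * δ ^ 2 ≤ (2 * y) ^ 3 * δ ^ 2 := by gcongr
        _ = 8 * δ * (y ^ 3 * δ) := by ring
        _ ≤ 8 * δ * (y ^ 2 + δ ^ 2) ^ 2 := by gcongr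
    have h4 : 0 ≤ x ^ 3 * (δ ^ 2 / (y ^ 2 + δ ^ 2) ^ 2) := by positivity
    calc (‖w‖ ^ 2) ^ k * x ^ 3 * (δ ^ 2 / (y ^ 2 + δ ^ 2) ^ 2) =
        (‖w‖ ^ 2) ^ k * (x ^ 3 * (δ ^ 2 / (y ^ 2 + δ ^ 2) ^ 2)) := by ring
      _ ≤ 1 * (x ^ 3 * (δ ^ 2 / (y ^ 2 + δ ^ 2) ^ 2)) := by gcongr
      _ ≤ 8 * δ := by linarith
  · -- case `|z| > 2|s|`
    have h1 : (15 / 16) * x ^ 4 ≤ ‖p 0 ^ 4 - p 1 ^ 4‖ := by
      have h2 := norm_sub_norm_le (p 0 ^ 4) (p 1 ^ 4)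
      rw [norm_pow, norm_pow] at h2
      have h3 : y ^ 4 ≤ (x / 2) ^ 4 := by gcongr; linarith
      have h4 : (x / 2) ^ 4 = x ^ 4 / 16 := by ring
      linarith
    have h2 : x ^ 8 / 2 ≤ ‖p 0 ^ 4 - p 1 ^ 4‖ ^ 2 := by
      have h3 : ((15 / 16) * x ^ 4) ^ 2 ≤ ‖p 0 ^ 4 - p 1 ^ 4‖ ^ 2 := by gcongr
      have h4 : 0 ≤ x ^ 8 := by positivity
      nlinarith
    have h3 : ‖w‖ ^ 2 ≤ 1 - x ^ 8 / 2 := by linarith
    have hq : 0 ≤ ‖w‖ ^ 2 := by positivity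
    have h4 : (‖w‖ ^ 2) ^ k * (1 + k * (x ^ 8 / 2)) ≤ 1 := by
      have h5 : 1 + k * (x ^ 8 / 2) ≤ (1 + x ^ 8 / 2) ^ k :=
        one_add_mul_le_pow (by have : 0 ≤ x ^ 8 := by positivity
                               linarith) k
      calc (‖w‖ ^ 2) ^ k * (1 + k * (x ^ 8 / 2)) ≤ (‖w‖ ^ 2) ^ k * (1 + x ^ 8 / 2) ^ k := by gcongr
        _ = (‖w‖ ^ 2 * (1 + x ^ 8 / 2)) ^ k := by rw [mul_pow]
        _ ≤ 1 := by
          apply pow_le_one₀ (by positivity)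
          have : 0 ≤ x ^ 8 := by positivity
          nlinarith
    have h5 : δ ^ 2 / (y ^ 2 + δ ^ 2) ^ 2 ≤ 1 / δ ^ 2 := by
      rw [div_le_div_iff₀ hden (by positivity)]
      have : (δ ^ 2) ^ 2 ≤ (y ^ 2 + δ ^ 2) ^ 2 := by
        gcongr
        nlinarith
      linarith
    have h6 : (‖w‖ ^ 2) ^ k * x ^ 3 ≤ 8 * δ ^ 3 := by
      -- `x³ ≤ δ³ (1 + x⁸/δ⁸) = δ³ (1 + k x⁸)`
      have hk0 : (0 : ℝ) ≤ k := Nat.cast_nonneg k
      have h7 : x ^ 3 ≤ δ ^ 3 * (1 + k * x ^ 8) := by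
        rcases le_or_gt x δ with hxd | hxd
        · have : x ^ 3 ≤ δ ^ 3 := by gcongr
          have : 0 ≤ δ ^ 3 * (k * x ^ 8) := by positivity
          linarith
        · have e1 : δ ^ 3 * (k * x ^ 8) * δ ^ 5 = x ^ 8 := by
            calc δ ^ 3 * (k * x ^ 8) * δ ^ 5 = (k * δ ^ 8) * x ^ 8 := by ring
              _ = x ^ 8 := by rw [hk, one_mul]
          have e2 : δ ^ 5 ≤ x ^ 5 := by gcongr
          have e3 : x ^ 3 * δ ^ 5 ≤ δ ^ 3 * (k * x ^ 8) * δ ^ 5 := by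
            rw [e1]
            calc x ^ 3 * δ ^ 5 ≤ x ^ 3 * x ^ 5 := by gcongr
              _ = x ^ 8 := by ring
          have e4 : x ^ 3 ≤ δ ^ 3 * (k * x ^ 8) := le_of_mul_le_mul_right e3 (by positivity)
          have : 0 ≤ δ ^ 3 := by positivity
          linarith
      have hWk : 0 ≤ (‖w‖ ^ 2) ^ k := by positivity
      calc (‖w‖ ^ 2) ^ k * x ^ 3 ≤ (‖w‖ ^ 2) ^ k * (δ ^ 3 * (1 + k * x ^ 8)) := by gcongr
        _ ≤ (‖w‖ ^ 2) ^ k * (δ ^ 3 * (2 * (1 + k * (x ^ 8 / 2)))) := by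
          gcongr
          linarith
        _ = 2 * δ ^ 3 * ((‖w‖ ^ 2) ^ k * (1 + k * (x ^ 8 / 2))) := by ring
        _ ≤ 2 * δ ^ 3 * 1 := by gcongr
        _ ≤ 8 * δ ^ 3 := by
          have : 0 ≤ δ ^ 3 := by positivity
          linarith
    calc (‖w‖ ^ 2) ^ k * x ^ 3 * (δ ^ 2 / (y ^ 2 + δ ^ 2) ^ 2) ≤
        (‖w‖ ^ 2) ^ k * x ^ 3 * (1 / δ ^ 2) := by gcongr
      _ ≤ 8 * δ ^ 3 * (1 / δ ^ 2) := by gcongr
      _ = 8 * δ := by field_simp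

lemma sqrt_fH (κ : ℕ) (δ : ℝ) (p : Fin (m + 3) → ℂ) :
    Real.sqrt (∑ j, ‖fH κ δ p j‖ ^ 2) = ‖AH κ p * GG δ (p 1)‖ := by
  rw [Finset.sum_eq_single 1]
  · unfold fH
    rw [if_pos rfl, Real.sqrt_sq (norm_nonneg _)]
  · intro j _ hj
    unfold fH
    rw [if_neg hj]
    simp
  · intro h
    exact absurd (Finset.mem_univ _) h

end Pool.Agent.Helper303.Ho
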