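import Mathlib

open MeasureTheory Set Complex
open scoped Real Topology

namespace Pool.Agent.Helper303.Ho

lemma norm_cm (R : ℝ) (hR : 0 < R) (θ : ℝ) : ‖circleMap 0 R θ‖ = R := by
  simp [circleMap, abs_of_pos hR]

lemma cm_ne (R : ℝ) (hR : 0 < R) (θ : ℝ) : circleMap 0 R θ ≠ 0 := by
  intro h
  have := norm_cm R hR θ
  rw [h, norm_zero] at this
  linarith

lemma interval_swap {F : ℝ → ℝ → ℂ} (hF : Continuous fun x : ℝ × ℝ => F x.1 x.2) :
    ∫ x in (0 : ℝ)..2 * π, ∫ y in (0 : ℝ)..2 * π, F x y =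
      ∫ y in (0 : ℝ)..2 * π, ∫ x in (0 : ℝ)..2 * π, F x y := by
  apply intervalIntegral_intervalIntegral_swap
  have hpi : (0 : ℝ) ≤ 2 * π := by positivity
  rw [uIoc_of_le hpi]
  have h1 : IntegrableOn (fun x : ℝ × ℝ => F x.1 x.2) (Icc 0 (2 * π) ×ˢ Icc 0 (2 * π)) :=
    hF.continuousOn.integrableOn_compact (isCompact_Icc.prod isCompact_Icc)
  exact h1.mono_set (prod_mono Ioc_subset_Icc_self Ioc_subset_Icc_self)

/-- radius independence -/
lemma annulus {g : ℂ → ℂ} {r r0 : ℝ} (h0 : 0 < r0) (hle : r0 ≤ r) (κ : ℕ)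
    (hd : ∀ w, ‖w‖ ≤ r → DifferentiableAt ℂ g w) :
    ∫ φ in (0 : ℝ)..2 * π, (circleMap 0 r φ ^ κ)⁻¹ * g (circleMap 0 r φ) =
      ∫ φ in (0 : ℝ)..2 * π, (circleMap 0 r0 φ ^ κ)⁻¹ * g (circleMap 0 r0 φ) := by
  have hr : 0 < r := h0.trans_le hle
  have h := circleIntegral_sub_center_inv_smul_eq_of_differentiable_on_annulus_off_countable
    (c := 0) (f := fun z => (z ^ κ)⁻¹ * g z) h0 hle (countable_empty)
    (by
      intro z hz
      apply ContinuousAt.continuousWithinAt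
      have hz1 : ‖z‖ ≤ r := mem_closedBall_zero_iff.1 hz.1
      have hz0 : z ≠ 0 := by
        intro h
        apply hz.2
        rw [h]
        exact Metric.mem_ball_self h0
      exact ((continuousAt_id.pow κ).inv₀ (pow_ne_zero _ hz0)).mul (hd z hz1).continuousAt)
    (by
      intro z hz
      have hz1 : ‖z‖ ≤ r := (mem_ball_zero_iff.1 hz.1.1).le
      have hz0 : z ≠ 0 := by
        intro h
        apply hz.1.2
        rw [h]
        exact Metric.mem_closedBall_self h0.le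
      exact ((differentiableAt_id.pow κ).inv (pow_ne_zero _ hz0)).mul (hd z hz1))
  have key : ∀ R : ℝ, 0 < R → (∮ z in C(0, R), (z - 0)⁻¹ • ((z ^ κ)⁻¹ * g z)) =
      I * ∫ φ in (0 : ℝ)..2 * π, (circleMap 0 R φ ^ κ)⁻¹ * g (circleMap 0 R φ) := by
    intro R hR
    rw [circleIntegral, ← intervalIntegral.integral_const_mul]
    apply intervalIntegral.integral_congr
    intro φ _
    simp only [deriv_circleMap, smul_eq_mul, sub_zero]
    have := cm_ne R hR φ
    field_simp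
  rw [key r hr, key r0 h0] at h
  exact mul_left_cancel₀ I_ne_zero h

/-- swapping circle integrals -/
lemma circle_swap {F : ℂ → ℂ → ℂ} {ρ ρ' : ℝ}
    (hF : Continuous fun x : ℝ × ℝ => F (circleMap 0 ρ x.1) (circleMap 0 ρ' x.2)) :
    (∮ t in C(0, ρ), ∮ s in C(0, ρ'), F t s) = ∮ s in C(0, ρ'), ∮ t in C(0, ρ), F t s := by
  have hc : ∀ R : ℝ, Continuous (circleMap 0 R) := fun R => continuous_circleMap 0 R
  simp only [circleIntegral, deriv_circleMap, smul_eq_mul]
  have e1 : ∀ θ : ℝ, (circleMap 0 ρ θ * I) * (∫ φ in (0 : ℝ)..2 * π, (circleMap 0 ρ' φ * I) *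
      F (circleMap 0 ρ θ) (circleMap 0 ρ' φ)) = ∫ φ in (0 : ℝ)..2 * π, (circleMap 0 ρ θ * I) *
      ((circleMap 0 ρ' φ * I) * F (circleMap 0 ρ θ) (circleMap 0 ρ' φ)) := fun θ =>
    (intervalIntegral.integral_const_mul _ _).symm
  have e2 : ∀ φ : ℝ, (circleMap 0 ρ' φ * I) * (∫ θ in (0 : ℝ)..2 * π, (circleMap 0 ρ θ * I) *
      F (circleMap 0 ρ θ) (circleMap 0 ρ' φ)) = ∫ θ in (0 : ℝ)..2 * π, (circleMap 0 ρ θ * I) *
      ((circleMap 0 ρ' φ * I) * F (circleMap 0 ρ θ) (circleMap 0 ρ' φ)) := by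
    intro φ
    rw [← intervalIntegral.integral_const_mul]
    congr 1
    funext θ
    ring
  simp_rw [e1, e2]
  apply interval_swap
  have h1 : Continuous fun x : ℝ × ℝ => circleMap 0 ρ x.1 * I :=
    ((hc ρ).comp continuous_fst).mul continuous_const
  have h2 : Continuous fun x : ℝ × ℝ => circleMap 0 ρ' x.2 * I :=
    ((hc ρ').comp continuous_snd).mul continuous_const
  exact h1.mul (h2.mul hF)

/-- the four-line combination -/
noncomputable def A4 (g : ℂ → ℂ → ℂ) (t : ℂ) : ℂ :=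
  g t t + I * g t (I * t) - g t (-t) - I * g t (-(I * t))

lemma quartic_ne {s t : ℂ} (h : ‖t‖ < ‖s‖) : s ^ 4 - t ^ 4 ≠ 0 := by
  intro h0
  have h1 : ‖s‖ ^ 4 = ‖t‖ ^ 4 := by
    rw [← norm_pow, ← norm_pow, sub_eq_zero.1 h0]
  have h2 : ‖t‖ ^ 4 < ‖s‖ ^ 4 := by
    have := norm_nonneg t
    gcongr
  linarith

lemma pf4 {s t : ℂ} (ht : t ≠ 0) (h1 : s - t ≠ 0) (h2 : s - I * t ≠ 0) (h3 : s + t ≠ 0)
    (h4 : s + I * t ≠ 0) : 4 * (s ^ 4 - t ^ 4)⁻¹ =
    (t ^ 3)⁻¹ * ((s - t)⁻¹ + I * (s - I * t)⁻¹ - (s + t)⁻¹ - I * (s + I * t)⁻¹) := by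
  have h5 : s ^ 2 - t ^ 2 ≠ 0 := by
    have : s ^ 2 - t ^ 2 = (s - t) * (s + t) := by ring
    rw [this]
    exact mul_ne_zero h1 h3
  have h6 : s ^ 2 + t ^ 2 ≠ 0 := by
    have : s ^ 2 + t ^ 2 = (s - I * t) * (s + I * t) := by
      linear_combination (t ^ 2) * I_sq
    rw [this]
    exact mul_ne_zero h2 h4
  have h7 : s ^ 4 - t ^ 4 ≠ 0 := by
    have : s ^ 4 - t ^ 4 = (s ^ 2 - t ^ 2) * (s ^ 2 + t ^ 2) := by ring
    rw [this]
    exact mul_ne_zero h5 h6
  have e1 : (s - t)⁻¹ - (s + t)⁻¹ = 2 * t / (s ^ 2 - t ^ 2) := by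
    rw [eq_div_iff h5]
    have hx : (s - t)⁻¹ * (s - t) = 1 := inv_mul_cancel₀ h1
    have hy : (s + t)⁻¹ * (s + t) = 1 := inv_mul_cancel₀ h3
    linear_combination (s + t) * hx - (s - t) * hy
  have e2 : I * (s - I * t)⁻¹ - I * (s + I * t)⁻¹ = -2 * t / (s ^ 2 + t ^ 2) := by
    rw [eq_div_iff h6]
    have hx : (s - I * t)⁻¹ * (s - I * t) = 1 := inv_mul_cancel₀ h2
    have hy : (s + I * t)⁻¹ * (s + I * t) = 1 := inv_mul_cancel₀ h4
    linear_combination (I * (s + I * t)) * hx - (I * (s - I * t)) * hy +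
      (I * ((s - I * t)⁻¹ - (s + I * t)⁻¹) * t ^ 2 + 2 * t) * I_sq
  have e3 : (s - t)⁻¹ + I * (s - I * t)⁻¹ - (s + t)⁻¹ - I * (s + I * t)⁻¹ =
      2 * t / (s ^ 2 - t ^ 2) + -2 * t / (s ^ 2 + t ^ 2) := by
    rw [← e1, ← e2]
    ring
  rw [e3]
  field_simp
  ring

/-- the relation between the four lines -/
lemma four_lines {g : ℂ → ℂ → ℂ} {ρ ρ' : ℝ} (hρ : 0 < ρ) (hρρ' : ρ < ρ')
    (hc : ContinuousOn (fun x : ℂ × ℂ => g x.1 x.2) (Metric.closedBall 0 ρ' ×ˢ Metric.closedBall 0 ρ'))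
    (hd1 : ∀ t s, ‖t‖ ≤ ρ' → ‖s‖ ≤ ρ' → DifferentiableAt ℂ (fun t => g t s) t)
    (hd2 : ∀ t s, ‖t‖ ≤ ρ' → ‖s‖ ≤ ρ' → DifferentiableAt ℂ (fun s => g t s) s) :
    ∫ θ in (0 : ℝ)..2 * π, (circleMap 0 ρ θ ^ 2)⁻¹ * A4 g (circleMap 0 ρ θ) = 0 := by
  have hρ' : 0 < ρ' := hρ.trans hρρ'
  have hC : ∀ t, ‖t‖ = ρ → ∀ c : ℂ, ‖c‖ = 1 →
      (∮ s in C(0, ρ'), (s - c * t)⁻¹ * g t s) = 2 * π * I * g t (c * t) := by
    intro t ht c hc1
    have hw : c * t ∈ Metric.ball (0 : ℂ) ρ' := by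
      rw [mem_ball_zero_iff, norm_mul, hc1, one_mul, ht]
      exact hρρ'
    have := circleIntegral_sub_inv_smul_of_differentiable_on_off_countable (f := fun s => g t s)
      countable_empty hw
      (fun s hs => (hd2 t s (by rw [ht]; exact hρρ'.le)
        (mem_closedBall_zero_iff.1 hs)).continuousAt.continuousWithinAt)
      (fun s hs => hd2 t s (by rw [ht]; exact hρρ'.le) (mem_ball_zero_iff.1 hs.1).le)
    simpa only [smul_eq_mul] using this
  have hint : ∀ t, ‖t‖ = ρ → ∀ c : ℂ, ‖c‖ = 1 →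
      CircleIntegrable (fun s => (s - c * t)⁻¹ * g t s) 0 ρ' := by
    intro t ht c hc1
    apply ContinuousOn.circleIntegrable hρ'.le
    intro s hs
    have hs' : ‖s‖ = ρ' := mem_sphere_zero_iff_norm.1 hs
    apply ContinuousAt.continuousWithinAt
    have hne : s - c * t ≠ 0 := by
      intro h0
      have : ‖s‖ = ‖c * t‖ := by rw [sub_eq_zero.1 h0]
      rw [norm_mul, hc1, one_mul, ht, hs'] at this
      linarith
    exact ((continuousAt_id.sub continuousAt_const).inv₀ hne).mul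
      (hd2 t s (by rw [ht]; exact hρρ'.le) hs'.le).continuousAt
  -- Cauchy formula for the combination
  have hA : ∀ t, ‖t‖ = ρ → (t ^ 3)⁻¹ * A4 g t =
      (2 * π * I)⁻¹ * ∮ s in C(0, ρ'), 4 * (s ^ 4 - t ^ 4)⁻¹ * g t s := by
    intro t ht
    have ht0 : t ≠ 0 := by
      intro h
      rw [h, norm_zero] at ht
      linarith
    have hI1 : ‖I‖ = 1 := Complex.norm_I
    have n1 : ‖(1 : ℂ)‖ = 1 := norm_one
    have n2 : ‖(-1 : ℂ)‖ = 1 := by simp
    have n3 : ‖-I‖ = 1 := by simp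
    have c1 := hC t ht 1 n1
    have c2 := hC t ht I hI1
    have c3 := hC t ht (-1) n2
    have c4 := hC t ht (-I) n3
    have hsum : (∮ s in C(0, ρ'), 4 * (s ^ 4 - t ^ 4)⁻¹ * g t s) =
        (t ^ 3)⁻¹ * ((∮ s in C(0, ρ'), (s - 1 * t)⁻¹ * g t s) +
          I * (∮ s in C(0, ρ'), (s - I * t)⁻¹ * g t s) -
          (∮ s in C(0, ρ'), (s - (-1) * t)⁻¹ * g t s) -
          I * ∮ s in C(0, ρ'), (s - (-I) * t)⁻¹ * g t s) := by
      rw [← circleIntegral.integral_const_mul, ← circleIntegral.integral_const_mul]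
      have i1 := hint t ht 1 n1
      have i2 : CircleIntegrable (fun s => I * ((s - I * t)⁻¹ * g t s)) 0 ρ' :=
        (hint t ht I hI1).const_mul I
      have i3 := hint t ht (-1) n2
      have i4 : CircleIntegrable (fun s => I * ((s - (-I) * t)⁻¹ * g t s)) 0 ρ' :=
        (hint t ht (-I) n3).const_mul I
      have i12 : CircleIntegrable (fun s => (s - 1 * t)⁻¹ * g t s +
          I * ((s - I * t)⁻¹ * g t s)) 0 ρ' := i1.add i2
      have i123 : CircleIntegrable (fun s => (s - 1 * t)⁻¹ * g t s +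
          I * ((s - I * t)⁻¹ * g t s) - (s - (-1) * t)⁻¹ * g t s) 0 ρ' := i12.sub i3
      rw [← circleIntegral.integral_add i1 i2, ← circleIntegral.integral_sub i12 i3,
        ← circleIntegral.integral_sub i123 i4, ← circleIntegral.integral_const_mul]
      apply circleIntegral.integral_congr hρ'.le
      intro s hs
      have hs' : ‖s‖ = ρ' := mem_sphere_zero_iff_norm.1 hs
      have hne : ∀ c : ℂ, ‖c‖ = 1 → s - c * t ≠ 0 := by
        intro c hc1 h0
        have : ‖s‖ = ‖c * t‖ := by rw [sub_eq_zero.1 h0]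
        rw [norm_mul, hc1, one_mul, ht, hs'] at this
        linarith
      have h1 := hne 1 n1
      have h2 := hne I hI1
      have h3 := hne (-1) n2
      have h4 := hne (-I) n3
      have h5 : s ^ 4 - t ^ 4 ≠ 0 := quartic_ne (by rw [ht, hs']; exact hρρ')
      simp only
      rw [one_mul] at h1
      have e3 : s - (-1) * t = s + t := by ring
      have e4 : s - (-I) * t = s + I * t := by ring
      rw [e3] at h3
      rw [e4] at h4
      rw [pf4 ht0 h1 h2 h3 h4, one_mul, e3, e4]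
      ring
    rw [hsum, c1, c2, c3, c4]
    unfold A4
    have hpi : (2 * π * I : ℂ) ≠ 0 := by
      simp [Real.pi_ne_zero]
    field_simp
  -- the double integral vanishes
  have hcirc : (∮ t in C(0, ρ), (t ^ 3)⁻¹ * A4 g t) = 0 := by
    have e1 : (∮ t in C(0, ρ), (t ^ 3)⁻¹ * A4 g t) =
        (2 * π * I)⁻¹ * ∮ t in C(0, ρ), ∮ s in C(0, ρ'), 4 * (s ^ 4 - t ^ 4)⁻¹ * g t s := by
      rw [← circleIntegral.integral_const_mul]
      apply circleIntegral.integral_congr hρ.le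
      intro t ht
      exact hA t (mem_sphere_zero_iff_norm.1 ht)
    rw [e1, circle_swap]
    · have e2 : (∮ s in C(0, ρ'), ∮ t in C(0, ρ), 4 * (s ^ 4 - t ^ 4)⁻¹ * g t s) =
          ∮ s in C(0, ρ'), (0 : ℂ) := by
        apply circleIntegral.integral_congr hρ'.le
        intro s hs
        have hs' : ‖s‖ = ρ' := mem_sphere_zero_iff_norm.1 hs
        have hdiff : ∀ t, ‖t‖ ≤ ρ →
            DifferentiableAt ℂ (fun t => 4 * (s ^ 4 - t ^ 4)⁻¹ * g t s) t := by
          intro t ht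
          have hne : s ^ 4 - t ^ 4 ≠ 0 := quartic_ne (by rw [hs']; exact ht.trans_lt hρρ')
          have h1 : DifferentiableAt ℂ (fun t : ℂ => 4 * (s ^ 4 - t ^ 4)⁻¹) t := by
            apply DifferentiableAt.const_mul
            exact ((differentiableAt_const _).sub (differentiableAt_id.pow 4)).inv hne
          exact h1.mul (hd1 t s (ht.trans hρρ'.le) hs'.le)
        exact circleIntegral_eq_zero_of_differentiable_on_off_countable hρ.le countable_empty
          (fun t ht => (hdiff t (mem_closedBall_zero_iff.1 ht)).continuousAt.continuousWithinAt)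
          (fun t ht => hdiff t (mem_ball_zero_iff.1 ht.1).le)
      rw [e2]
      simp [circleIntegral]
    · have hcm : ∀ R : ℝ, Continuous (circleMap 0 R) := fun R => continuous_circleMap 0 R
      have h1 : Continuous fun x : ℝ × ℝ => (circleMap 0 ρ' x.2 ^ 4 - circleMap 0 ρ x.1 ^ 4)⁻¹ := by
        apply Continuous.inv₀
        · exact (((hcm ρ').comp continuous_snd).pow 4).sub (((hcm ρ).comp continuous_fst).pow 4)
        · intro x
          apply quartic_ne
          rw [norm_cm _ hρ, norm_cm _ hρ']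
          exact hρρ'
      have h2 : Continuous fun x : ℝ × ℝ => g (circleMap 0 ρ x.1) (circleMap 0 ρ' x.2) := by
        have h3 : Continuous fun x : ℝ × ℝ => (circleMap 0 ρ x.1, circleMap 0 ρ' x.2) :=
          ((hcm ρ).comp continuous_fst).prodMk ((hcm ρ').comp continuous_snd)
        apply hc.comp_continuous h3
        intro x
        refine ⟨?_, ?_⟩
        · rw [mem_closedBall_zero_iff, norm_cm _ hρ]
          exact hρρ'.le
        · rw [mem_closedBall_zero_iff, norm_cm _ hρ']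
      exact (continuous_const.mul h1).mul h2
  rw [circleIntegral] at hcirc
  have e3 : ∀ θ : ℝ, deriv (circleMap 0 ρ) θ • ((circleMap 0 ρ θ ^ 3)⁻¹ * A4 g (circleMap 0 ρ θ)) =
      I * ((circleMap 0 ρ θ ^ 2)⁻¹ * A4 g (circleMap 0 ρ θ)) := by
    intro θ
    have := cm_ne ρ hρ θ
    rw [deriv_circleMap, smul_eq_mul]
    field_simp
  simp_rw [e3] at hcirc
  rw [intervalIntegral.integral_const_mul] at hcirc
  exact (mul_eq_zero.1 hcirc).resolve_left I_ne_zero

end Pool.Agent.Helper303.Ho
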