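import Pool.Agent.Helper303.HoFunc

open MeasureTheory Set Complex
open scoped Real Topology

namespace Pool.Agent.Helper303.Ho

/-- the functional annihilates holomorphic functions -/
theorem func {S : Set (ℂ × ℂ × ℂ)} {h : ℂ → ℂ → ℂ → ℂ}
    (hc : ContinuousOn (fun x : ℂ × ℂ × ℂ => h x.1 x.2.1 x.2.2) S)
    (hd0 : ∀ t s w, (t, s, w) ∈ S → DifferentiableAt ℂ (fun t => h t s w) t)
    (hd1 : ∀ t s w, (t, s, w) ∈ S → DifferentiableAt ℂ (fun s => h t s w) s)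
    (hd2 : ∀ t s w, (t, s, w) ∈ S → DifferentiableAt ℂ (fun w => h t s w) w)
    {ρ ρ' r r0 : ℝ} {κ : ℕ} (hρ : 0 < ρ) (hρρ' : ρ < ρ') (hr0 : 0 < r0) (hr : r0 ≤ r)
    (hS1 : ∀ t s w, ‖t‖ ≤ ρ' → ‖s‖ ≤ ρ' → ‖w‖ ≤ r0 → (t, s, w) ∈ S)
    (hS2 : ∀ t w, ‖t‖ = ρ → ‖w‖ ≤ r →
      (t, t, w) ∈ S ∧ (t, I * t, w) ∈ S ∧ (t, -t, w) ∈ S ∧ (t, -(I * t), w) ∈ S) :
    ∫ θ in (0 : ℝ)..2 * π, (circleMap 0 ρ θ ^ 2)⁻¹ * ∫ φ in (0 : ℝ)..2 * π,
      (circleMap 0 r φ ^ κ)⁻¹ * A4 (fun t s => h t s (circleMap 0 r φ)) (circleMap 0 ρ θ) = 0 := by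
  have hrpos : 0 < r := hr0.trans_le hr
  -- Step 1
  have s1 : ∀ θ : ℝ, ∫ φ in (0 : ℝ)..2 * π,
      (circleMap 0 r φ ^ κ)⁻¹ * A4 (fun t s => h t s (circleMap 0 r φ)) (circleMap 0 ρ θ) =
      ∫ φ in (0 : ℝ)..2 * π,
      (circleMap 0 r0 φ ^ κ)⁻¹ * A4 (fun t s => h t s (circleMap 0 r0 φ)) (circleMap 0 ρ θ) := by
    intro θ
    apply annulus (g := fun w => A4 (fun t s => h t s w) (circleMap 0 ρ θ)) hr0 hr κ
    intro w hw
    obtain ⟨a1, a2, a3, a4⟩ := hS2 (circleMap 0 ρ θ) w (norm_cm ρ hρ θ) hw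
    unfold A4
    exact (((hd2 _ _ _ a1).add ((hd2 _ _ _ a2).const_mul I)).sub (hd2 _ _ _ a3)).sub
      ((hd2 _ _ _ a4).const_mul I)
  simp_rw [s1]
  -- Step 2
  have hcm : ∀ R : ℝ, Continuous (circleMap 0 R) := fun R => continuous_circleMap 0 R
  have hmem : ∀ θ φ : ℝ, (circleMap 0 ρ θ, circleMap 0 ρ θ, circleMap 0 r0 φ) ∈ S ∧
      (circleMap 0 ρ θ, I * circleMap 0 ρ θ, circleMap 0 r0 φ) ∈ S ∧
      (circleMap 0 ρ θ, -circleMap 0 ρ θ, circleMap 0 r0 φ) ∈ S ∧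
      (circleMap 0 ρ θ, -(I * circleMap 0 ρ θ), circleMap 0 r0 φ) ∈ S := by
    intro θ φ
    exact hS2 _ _ (norm_cm ρ hρ θ) (by rw [norm_cm r0 hr0]; exact hr)
  have hcA : Continuous fun x : ℝ × ℝ =>
      A4 (fun t s => h t s (circleMap 0 r0 x.2)) (circleMap 0 ρ x.1) := by
    have k1 : Continuous fun x : ℝ × ℝ => circleMap 0 ρ x.1 := (hcm ρ).comp continuous_fst
    have k2 : Continuous fun x : ℝ × ℝ => circleMap 0 r0 x.2 := (hcm r0).comp continuous_snd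
    unfold A4
    have l1 : Continuous fun x : ℝ × ℝ =>
        h (circleMap 0 ρ x.1) (circleMap 0 ρ x.1) (circleMap 0 r0 x.2) :=
      hc.comp_continuous (k1.prodMk (k1.prodMk k2)) (fun x => (hmem x.1 x.2).1)
    have l2 : Continuous fun x : ℝ × ℝ =>
        h (circleMap 0 ρ x.1) (I * circleMap 0 ρ x.1) (circleMap 0 r0 x.2) :=
      hc.comp_continuous (k1.prodMk ((continuous_const.mul k1).prodMk k2))
        (fun x => (hmem x.1 x.2).2.1)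
    have l3 : Continuous fun x : ℝ × ℝ =>
        h (circleMap 0 ρ x.1) (-circleMap 0 ρ x.1) (circleMap 0 r0 x.2) :=
      hc.comp_continuous (k1.prodMk (k1.neg.prodMk k2)) (fun x => (hmem x.1 x.2).2.2.1)
    have l4 : Continuous fun x : ℝ × ℝ =>
        h (circleMap 0 ρ x.1) (-(I * circleMap 0 ρ x.1)) (circleMap 0 r0 x.2) :=
      hc.comp_continuous (k1.prodMk ((continuous_const.mul k1).neg.prodMk k2))
        (fun x => (hmem x.1 x.2).2.2.2)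
    exact ((l1.add (continuous_const.mul l2)).sub l3).sub (continuous_const.mul l4)
  have hinv1 : Continuous fun x : ℝ × ℝ => (circleMap 0 ρ x.1 ^ 2)⁻¹ :=
    Continuous.inv₀ (((hcm ρ).comp continuous_fst).pow 2)
      (fun x => pow_ne_zero _ (cm_ne ρ hρ _))
  have hinv2 : Continuous fun x : ℝ × ℝ => (circleMap 0 r0 x.2 ^ κ)⁻¹ :=
    Continuous.inv₀ (((hcm r0).comp continuous_snd).pow κ)
      (fun x => pow_ne_zero _ (cm_ne r0 hr0 _))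
  have e1 : ∀ θ : ℝ, (circleMap 0 ρ θ ^ 2)⁻¹ * (∫ φ in (0 : ℝ)..2 * π,
      (circleMap 0 r0 φ ^ κ)⁻¹ * A4 (fun t s => h t s (circleMap 0 r0 φ)) (circleMap 0 ρ θ)) =
      ∫ φ in (0 : ℝ)..2 * π, (circleMap 0 ρ θ ^ 2)⁻¹ * ((circleMap 0 r0 φ ^ κ)⁻¹ *
        A4 (fun t s => h t s (circleMap 0 r0 φ)) (circleMap 0 ρ θ)) := fun θ =>
    (intervalIntegral.integral_const_mul _ _).symm
  simp_rw [e1]
  rw [interval_swap (F := fun θ φ => (circleMap 0 ρ θ ^ 2)⁻¹ * ((circleMap 0 r0 φ ^ κ)⁻¹ *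
        A4 (fun t s => h t s (circleMap 0 r0 φ)) (circleMap 0 ρ θ)))
    (hinv1.mul (hinv2.mul hcA))]
  -- Step 3
  have e2 : ∀ φ : ℝ, ∫ θ in (0 : ℝ)..2 * π, (circleMap 0 ρ θ ^ 2)⁻¹ * ((circleMap 0 r0 φ ^ κ)⁻¹ *
        A4 (fun t s => h t s (circleMap 0 r0 φ)) (circleMap 0 ρ θ)) = 0 := by
    intro φ
    have hw : ‖circleMap 0 r0 φ‖ ≤ r0 := (norm_cm r0 hr0 φ).le
    have h0 := four_lines (g := fun t s => h t s (circleMap 0 r0 φ)) hρ hρρ'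
      (by
        have : ContinuousOn (fun x : ℂ × ℂ => (x.1, x.2, circleMap 0 r0 φ))
            (Metric.closedBall 0 ρ' ×ˢ Metric.closedBall 0 ρ') := by fun_prop
        exact hc.comp this (fun x hx => hS1 _ _ _ (mem_closedBall_zero_iff.1 hx.1)
          (mem_closedBall_zero_iff.1 hx.2) hw))
      (fun t s ht hs => hd0 t s _ (hS1 t s _ ht hs hw))
      (fun t s ht hs => hd1 t s _ (hS1 t s _ ht hs hw))
    have e3 : ∀ θ : ℝ, (circleMap 0 ρ θ ^ 2)⁻¹ * ((circleMap 0 r0 φ ^ κ)⁻¹ *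
        A4 (fun t s => h t s (circleMap 0 r0 φ)) (circleMap 0 ρ θ)) =
        (circleMap 0 r0 φ ^ κ)⁻¹ * ((circleMap 0 ρ θ ^ 2)⁻¹ *
        A4 (fun t s => h t s (circleMap 0 r0 φ)) (circleMap 0 ρ θ)) := fun θ => by ring
    simp_rw [e3]
    rw [intervalIntegral.integral_const_mul, h0, mul_zero]
  simp_rw [e2]
  simp

end Pool.Agent.Helper303.Ho
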