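import Pool.Agent.Helper303.HoMain

open MeasureTheory Set Complex
open scoped Real Topology ContDiff ComplexConjugate

namespace Pool.Agent.Helper303.Ho

open Pool.Agent.Helper303.Db

variable {m : ℕ}

lemma coord_closure {x : Fin (m + 3) → ℂ} (hx : x ∈ closure (OmH m)) (j : Fin (m + 3)) :
    ‖x j‖ ≤ 1 := by
  apply coord_le
  have h : closure (OmH m) ⊆ {p : Fin (m + 3) → ℂ | SH p ≤ 1} := by
    apply closure_minimal
    · intro p hp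
      exact le_of_lt (mem_OmH.1 hp)
    · exact isClosed_le cont_SH continuous_const
  exact h hx

/-- the coefficient of the form -/
noncomputable def gco (q : ℕ) (x : Fin (m + 3) → ℂ) : ℂ :=
  AH (2 * q ^ 72) x * GG (1 / (q : ℝ) ^ 9) (x 1)

lemma gco_sup {q : ℕ} (hq : 2 ≤ q) {x : Fin (m + 3) → ℂ} (hx : x ∈ closure (OmH m)) :
    ‖gco q x‖ ≤ 8 / (q : ℝ) ^ 9 := by
  have hq0 : (0 : ℝ) < q := by
    have : (2 : ℝ) ≤ q := by exact_mod_cast hq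
    linarith
  have hδ : 0 < 1 / (q : ℝ) ^ 9 := by positivity
  have hc : Continuous (gco (m := m) q) :=
    ((contDiff_AH _).mul ((contDiff_GG hδ).comp (contDiff_apply ℝ ℂ 1))).continuous
  have h : closure (OmH m) ⊆ {x : Fin (m + 3) → ℂ | ‖gco q x‖ ≤ 8 / (q : ℝ) ^ 9} := by
    apply closure_minimal
    · intro p hp
      have := norm_fH hδ (params hq).1 hp
      show ‖gco q p‖ ≤ 8 / (q : ℝ) ^ 9
      unfold gco
      calc _ ≤ 8 * (1 / (q : ℝ) ^ 9) := this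
        _ = _ := by ring
    · exact isClosed_le (continuous_norm.comp hc) continuous_const
  exact h hx

lemma pow_lip (κ : ℕ) {a b : ℂ} (ha : ‖a‖ ≤ 1) (hb : ‖b‖ ≤ 1) :
    ‖a ^ κ - b ^ κ‖ ≤ κ * ‖a - b‖ := by
  induction κ with
  | zero => simp
  | succ κ ih =>
    have e : a ^ (κ + 1) - b ^ (κ + 1) = a ^ κ * (a - b) + (a ^ κ - b ^ κ) * b := by ring
    rw [e]
    have h1 : ‖a ^ κ‖ ≤ 1 := by
      rw [norm_pow]
      exact pow_le_one₀ (norm_nonneg _) ha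
    calc ‖a ^ κ * (a - b) + (a ^ κ - b ^ κ) * b‖ ≤ ‖a ^ κ‖ * ‖a - b‖ + ‖a ^ κ - b ^ κ‖ * ‖b‖ := by
          refine (norm_add_le _ _).trans ?_
          rw [norm_mul, norm_mul]
      _ ≤ 1 * ‖a - b‖ + (κ * ‖a - b‖) * 1 := by gcongr
      _ = (κ + 1 : ℕ) * ‖a - b‖ := by
        push_cast
        ring

lemma GG_sup {δ : ℝ} (hδ : 0 < δ) (s : ℂ) : ‖GG δ s‖ ≤ 1 / δ ^ 2 := by
  rw [norm_GG hδ, div_le_div_iff₀ (by positivity) (by positivity)]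
  have : (δ ^ 2) ^ 2 ≤ (‖s‖ ^ 2 + δ ^ 2) ^ 2 := by
    gcongr
    nlinarith [norm_nonneg s]
  linarith

lemma GG_lip {δ : ℝ} (hδ : 0 < δ) {s s' : ℂ} (hs : ‖s‖ ≤ 1) (hs' : ‖s'‖ ≤ 1) :
    ‖GG δ s - GG δ s'‖ ≤ 4 / δ ^ 4 * ‖s - s'‖ := by
  have hG : ∀ s : ℂ, GG δ s = ((δ ^ 2 / (‖s‖ ^ 2 + δ ^ 2) ^ 2 : ℝ) : ℂ) := by
    intro s
    unfold GG
    rw [den_eq, normSq_eq_norm_sq]
    push_cast
    rw [div_eq_mul_inv]
  rw [hG, hG, ← ofReal_sub, norm_real, Real.norm_eq_abs]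
  set a := ‖s‖ ^ 2 with ha
  set b := ‖s'‖ ^ 2 with hb
  have ha0 : 0 ≤ a := by positivity
  have hb0 : 0 ≤ b := by positivity
  have hab : |a - b| ≤ 2 * ‖s - s'‖ := by
    have e : a - b = (‖s‖ - ‖s'‖) * (‖s‖ + ‖s'‖) := by rw [ha, hb]; ring
    rw [e, abs_mul]
    have h1 := abs_norm_sub_norm_le s s'
    have h2 : |‖s‖ + ‖s'‖| ≤ 2 := by
      rw [abs_of_nonneg (by positivity)]
      linarith
    calc |‖s‖ - ‖s'‖| * |‖s‖ + ‖s'‖| ≤ ‖s - s'‖ * 2 := by gcongr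
      _ = _ := by ring
  have hA : 0 < a + δ ^ 2 := by positivity
  have hB : 0 < b + δ ^ 2 := by positivity
  have e : δ ^ 2 / (a + δ ^ 2) ^ 2 - δ ^ 2 / (b + δ ^ 2) ^ 2 =
      (b - a) * (δ ^ 2 * (1 / (a + δ ^ 2) * (1 / (b + δ ^ 2)) ^ 2 +
        (1 / (a + δ ^ 2)) ^ 2 * (1 / (b + δ ^ 2)))) := by
    field_simp
    ring
  have h1 : 1 / (a + δ ^ 2) ≤ 1 / δ ^ 2 := one_div_le_one_div_of_le (by positivity) (by linarith)
  have h2 : 1 / (b + δ ^ 2) ≤ 1 / δ ^ 2 := one_div_le_one_div_of_le (by positivity) (by linarith)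
  have h3 : 0 < 1 / (a + δ ^ 2) := by positivity
  have h4 : 0 < 1 / (b + δ ^ 2) := by positivity
  have h5 : δ ^ 2 * (1 / (a + δ ^ 2) * (1 / (b + δ ^ 2)) ^ 2 +
        (1 / (a + δ ^ 2)) ^ 2 * (1 / (b + δ ^ 2))) ≤ 2 / δ ^ 4 := by
    calc δ ^ 2 * (1 / (a + δ ^ 2) * (1 / (b + δ ^ 2)) ^ 2 +
        (1 / (a + δ ^ 2)) ^ 2 * (1 / (b + δ ^ 2))) ≤
        δ ^ 2 * (1 / δ ^ 2 * (1 / δ ^ 2) ^ 2 + (1 / δ ^ 2) ^ 2 * (1 / δ ^ 2)) := by gcongr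
      _ = 2 / δ ^ 4 := by
        field_simp
        ring
  rw [e, abs_mul, abs_sub_comm]
  have h6 : 0 ≤ δ ^ 2 * (1 / (a + δ ^ 2) * (1 / (b + δ ^ 2)) ^ 2 +
        (1 / (a + δ ^ 2)) ^ 2 * (1 / (b + δ ^ 2))) := by positivity
  rw [abs_of_nonneg h6]
  calc |a - b| * _ ≤ (2 * ‖s - s'‖) * (2 / δ ^ 4) := by gcongr
    _ = 4 / δ ^ 4 * ‖s - s'‖ := by ring

lemma le_eDist (x y : Fin (m + 3) → ℂ) (j : Fin (m + 3)) : ‖x j - y j‖ ≤ eDist x y := by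
  unfold eDist
  apply Real.le_sqrt_of_sq_le
  exact Finset.single_le_sum (f := fun j => ‖x j - y j‖ ^ 2) (fun _ _ => by positivity)
    (Finset.mem_univ j)

lemma eDist_nonneg (x y : Fin (m + 3) → ℂ) : 0 ≤ eDist x y := Real.sqrt_nonneg _

/-- Lipschitz bound of the coefficient -/
lemma gco_lip {q : ℕ} (hq : 2 ≤ q) {x y : Fin (m + 3) → ℂ} (hx : x ∈ closure (OmH m))
    (hy : y ∈ closure (OmH m)) : ‖gco q x - gco q y‖ ≤ 9 * (q : ℝ) ^ 90 * eDist x y := by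
  have hq1 : (1 : ℝ) ≤ q := by
    have : (2 : ℝ) ≤ q := by exact_mod_cast hq
    linarith
  have hq0 : (0 : ℝ) < q := by linarith
  set δ := 1 / (q : ℝ) ^ 9 with hδd
  have hδ : 0 < δ := by positivity
  set d := eDist x y with hd
  have hd0 : 0 ≤ d := eDist_nonneg _ _
  set w := x (Fin.succ (Fin.succ 0))
  set w' := y (Fin.succ (Fin.succ 0))
  have hw : ‖w‖ ≤ 1 := coord_closure hx _
  have hw' : ‖w'‖ ≤ 1 := coord_closure hy _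
  have hz : ‖x 0‖ ≤ 1 := coord_closure hx _
  have hz' : ‖y 0‖ ≤ 1 := coord_closure hy _
  have hs : ‖x 1‖ ≤ 1 := coord_closure hx _
  have hs' : ‖y 1‖ ≤ 1 := coord_closure hy _
  have e : gco q x - gco q y =
      (w ^ (2 * q ^ 72) - w' ^ (2 * q ^ 72)) * x 0 ^ 3 * GG δ (x 1) +
      w' ^ (2 * q ^ 72) * (x 0 ^ 3 - y 0 ^ 3) * GG δ (x 1) +
      w' ^ (2 * q ^ 72) * y 0 ^ 3 * (GG δ (x 1) - GG δ (y 1)) := by
    unfold gco AH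
    ring
  have p1 : ∀ z : ℂ, ‖z‖ ≤ 1 → ∀ k : ℕ, ‖z ^ k‖ ≤ 1 := by
    intro z hz k
    rw [norm_pow]
    exact pow_le_one₀ (norm_nonneg _) hz
  have b1 : ‖w ^ (2 * q ^ 72) - w' ^ (2 * q ^ 72)‖ ≤ (2 * q ^ 72 : ℕ) * d :=
    (pow_lip _ hw hw').trans (by gcongr; exact le_eDist _ _ _)
  have b2 : ‖x 0 ^ 3 - y 0 ^ 3‖ ≤ (3 : ℕ) * d :=
    (pow_lip _ hz hz').trans (by gcongr; exact le_eDist _ _ _)
  have b3 : ‖GG δ (x 1) - GG δ (y 1)‖ ≤ 4 / δ ^ 4 * d :=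
    (GG_lip hδ hs hs').trans (by gcongr; exact le_eDist _ _ _)
  have b4 := GG_sup hδ (x 1)
  have c1 : ‖(w ^ (2 * q ^ 72) - w' ^ (2 * q ^ 72)) * x 0 ^ 3 * GG δ (x 1)‖ ≤
      (2 * q ^ 72 : ℕ) * d * 1 * (1 / δ ^ 2) := by
    rw [norm_mul, norm_mul]
    have := p1 _ hz 3
    gcongr
  have c2 : ‖w' ^ (2 * q ^ 72) * (x 0 ^ 3 - y 0 ^ 3) * GG δ (x 1)‖ ≤
      1 * ((3 : ℕ) * d) * (1 / δ ^ 2) := by
    rw [norm_mul, norm_mul]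
    have := p1 _ hw' (2 * q ^ 72)
    gcongr
  have c3 : ‖w' ^ (2 * q ^ 72) * y 0 ^ 3 * (GG δ (x 1) - GG δ (y 1))‖ ≤
      1 * 1 * (4 / δ ^ 4 * d) := by
    rw [norm_mul, norm_mul]
    have h1 := p1 _ hw' (2 * q ^ 72)
    have h2 := p1 _ hz' 3
    gcongr
  rw [e]
  have hsum := norm_add₃_le (a := (w ^ (2 * q ^ 72) - w' ^ (2 * q ^ 72)) * x 0 ^ 3 * GG δ (x 1))
    (b := w' ^ (2 * q ^ 72) * (x 0 ^ 3 - y 0 ^ 3) * GG δ (x 1))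
    (c := w' ^ (2 * q ^ 72) * y 0 ^ 3 * (GG δ (x 1) - GG δ (y 1)))
  have e1 : 1 / δ ^ 2 = (q : ℝ) ^ 18 := by
    rw [hδd]
    field_simp
  have e2 : 4 / δ ^ 4 = 4 * (q : ℝ) ^ 36 := by
    rw [hδd]
    field_simp
  rw [e1] at c1 c2
  rw [e2] at c3
  push_cast at c1 c2
  have k1 : (q : ℝ) ^ 18 ≤ (q : ℝ) ^ 90 := pow_le_pow_right₀ hq1 (by norm_num)
  have k2 : (q : ℝ) ^ 36 ≤ (q : ℝ) ^ 90 := pow_le_pow_right₀ hq1 (by norm_num)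
  have k3 : 2 * (q : ℝ) ^ 72 * d * 1 * (q : ℝ) ^ 18 = 2 * (q : ℝ) ^ 90 * d := by ring
  have k4 : 1 * (3 * d) * (q : ℝ) ^ 18 ≤ 3 * (q : ℝ) ^ 90 * d := by
    calc 1 * (3 * d) * (q : ℝ) ^ 18 ≤ 1 * (3 * d) * (q : ℝ) ^ 90 := by gcongr
      _ = _ := by ring
  have k5 : 1 * 1 * (4 * (q : ℝ) ^ 36 * d) ≤ 4 * (q : ℝ) ^ 90 * d := by
    calc 1 * 1 * (4 * (q : ℝ) ^ 36 * d) ≤ 1 * 1 * (4 * (q : ℝ) ^ 90 * d) := by gcongr
      _ = _ := by ring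
  linarith

/-- Hölder bound of the coefficient -/
lemma gco_holder {q : ℕ} (hq : 2 ≤ q) {β : ℝ} (hβ0 : 0 < β) (hβ1 : β < 1)
    {x y : Fin (m + 3) → ℂ} (hx : x ∈ closure (OmH m))
    (hy : y ∈ closure (OmH m)) :
    ‖gco q x - gco q y‖ ≤ 144 * (q : ℝ) ^ (99 * β - 9) * eDist x y ^ β := by
  have hq1 : (1 : ℝ) ≤ q := by
    have : (2 : ℝ) ≤ q := by exact_mod_cast hq
    linarith
  have hq0 : (0 : ℝ) < q := by linarith
  set d := eDist x y with hd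
  have hd0 : 0 ≤ d := eDist_nonneg _ _
  set D := ‖gco q x - gco q y‖ with hD
  have hD0 : 0 ≤ D := norm_nonneg _
  have h1 : D ≤ 16 * ((q : ℝ) ^ 9)⁻¹ := by
    have h2 := gco_sup hq hx
    have h3 := gco_sup hq hy
    have h4 := norm_sub_le (gco q x) (gco q y)
    have e : 16 * ((q : ℝ) ^ 9)⁻¹ = 8 / (q : ℝ) ^ 9 + 8 / (q : ℝ) ^ 9 := by ring
    rw [e]
    linarith
  have h2 : D ≤ 9 * (q : ℝ) ^ 90 * d := gco_lip hq hx hy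
  have h3 : D = D ^ (1 - β) * D ^ β := by
    rcases eq_or_lt_of_le hD0 with h | h
    · rw [← h, Real.zero_rpow hβ0.ne', mul_zero]
    · rw [← Real.rpow_add h]
      simp
  rw [h3]
  have h4 : D ^ (1 - β) ≤ (16 * ((q : ℝ) ^ 9)⁻¹) ^ (1 - β) :=
    Real.rpow_le_rpow hD0 h1 (by linarith)
  have h5 : D ^ β ≤ (9 * (q : ℝ) ^ 90 * d) ^ β := Real.rpow_le_rpow hD0 h2 hβ0.le
  have e1 : (16 * ((q : ℝ) ^ 9)⁻¹) ^ (1 - β) ≤ 16 * (q : ℝ) ^ (-(9 * (1 - β))) := by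
    rw [Real.mul_rpow (by norm_num) (by positivity)]
    have a1 : (16 : ℝ) ^ (1 - β) ≤ 16 := by
      calc (16 : ℝ) ^ (1 - β) ≤ (16 : ℝ) ^ (1 : ℝ) :=
            Real.rpow_le_rpow_of_exponent_le (by norm_num) (by linarith)
        _ = 16 := Real.rpow_one _
    have a2 : (((q : ℝ) ^ 9)⁻¹) ^ (1 - β) = (q : ℝ) ^ (-(9 * (1 - β))) := by
      rw [← Real.rpow_natCast, ← Real.rpow_neg hq0.le, ← Real.rpow_mul hq0.le]
      congr 1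
      push_cast
      ring
    rw [a2]
    gcongr
  have e2 : (9 * (q : ℝ) ^ 90 * d) ^ β ≤ 9 * (q : ℝ) ^ (90 * β) * d ^ β := by
    rw [Real.mul_rpow (by positivity) hd0, Real.mul_rpow (by norm_num) (by positivity)]
    have a1 : (9 : ℝ) ^ β ≤ 9 := by
      calc (9 : ℝ) ^ β ≤ (9 : ℝ) ^ (1 : ℝ) :=
            Real.rpow_le_rpow_of_exponent_le (by norm_num) (by linarith)
        _ = 9 := Real.rpow_one _
    have a2 : ((q : ℝ) ^ 90) ^ β = (q : ℝ) ^ (90 * β) := by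
      rw [← Real.rpow_natCast, ← Real.rpow_mul hq0.le]
      congr 1
    rw [a2]
    gcongr
  have e3 : (q : ℝ) ^ (99 * β - 9) = (q : ℝ) ^ (-(9 * (1 - β))) * (q : ℝ) ^ (90 * β) := by
    rw [← Real.rpow_add hq0]
    congr 1
    ring
  calc D ^ (1 - β) * D ^ β ≤ (16 * (q : ℝ) ^ (-(9 * (1 - β)))) *
        (9 * (q : ℝ) ^ (90 * β) * d ^ β) := by
        gcongr
        · exact h4.trans e1
        · exact h5.trans e2
    _ = 144 * (q : ℝ) ^ (99 * β - 9) * d ^ β := by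
        rw [e3]
        ring

lemma gco_sup' {q : ℕ} (hq : 2 ≤ q) {β : ℝ} (hβ0 : 0 < β)
    {x : Fin (m + 3) → ℂ} (hx : x ∈ closure (OmH m)) :
    ‖gco q x‖ ≤ 8 * (q : ℝ) ^ (99 * β - 9) := by
  have hq1 : (1 : ℝ) ≤ q := by
    have : (2 : ℝ) ≤ q := by exact_mod_cast hq
    linarith
  have hq0 : (0 : ℝ) < q := by linarith
  refine (gco_sup hq hx).trans ?_
  rw [div_eq_mul_inv]
  gcongr
  have e : ((q : ℝ) ^ 9)⁻¹ = (q : ℝ) ^ (-9 : ℝ) := by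
    rw [Real.rpow_neg hq0.le]
    norm_cast
  rw [e]
  apply Real.rpow_le_rpow_of_exponent_le hq1
  linarith

end Pool.Agent.Helper303.Ho
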