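import Pool.Agent.Helper303.HoSlice

open MeasureTheory Set Complex
open scoped Real Topology ContDiff ComplexConjugate

namespace Pool.Agent.Helper303.Ho

open Pool.Agent.Helper303.Db

variable {m : ℕ}

/-- joint continuity of the inner integrand -/
lemma cont_inner {u : (Fin (m + 3) → ℂ) → ℂ} (hu : ContinuousOn u (OmH m))
    {ρ r : ℝ} (hρ : 0 < ρ) (hr : 0 < r) (hρr : 2 * ρ ^ 18 + r ^ 2 < 1) (κ : ℕ) :
    Continuous fun x : ℝ × ℝ => (circleMap 0 r x.2 ^ κ)⁻¹ *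
      A4 (fun t s => res u t s (circleMap 0 r x.2)) (circleMap 0 ρ x.1) := by
  have hcm : ∀ R : ℝ, Continuous (circleMap 0 R) := fun R => continuous_circleMap 0 R
  have hmem : ∀ θ φ : ℝ, pt (m := m) (circleMap 0 ρ θ) (circleMap 0 ρ θ) (circleMap 0 r φ) ∈ OmH m ∧
      pt (m := m) (circleMap 0 ρ θ) (I * circleMap 0 ρ θ) (circleMap 0 r φ) ∈ OmH m ∧
      pt (m := m) (circleMap 0 ρ θ) (-circleMap 0 ρ θ) (circleMap 0 r φ) ∈ OmH m ∧
      pt (m := m) (circleMap 0 ρ θ) (-(I * circleMap 0 ρ θ)) (circleMap 0 r φ) ∈ OmH m := by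
    intro θ φ
    exact mem2' hρr (norm_cm ρ hρ θ) (norm_cm r hr φ).le
  have k1 : Continuous fun x : ℝ × ℝ => circleMap 0 ρ x.1 := (hcm ρ).comp continuous_fst
  have k2 : Continuous fun x : ℝ × ℝ => circleMap 0 r x.2 := (hcm r).comp continuous_snd
  have hinv2 : Continuous fun x : ℝ × ℝ => (circleMap 0 r x.2 ^ κ)⁻¹ :=
    Continuous.inv₀ (((hcm r).comp continuous_snd).pow κ)
      (fun x => pow_ne_zero _ (cm_ne r hr _))
  have hp : ∀ g : ℝ × ℝ → ℂ, Continuous g → Continuous fun x : ℝ × ℝ =>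
      pt (m := m) (circleMap 0 ρ x.1) (g x) (circleMap 0 r x.2) := fun g hg =>
    cont_pt.comp (k1.prodMk (hg.prodMk k2))
  refine hinv2.mul ?_
  unfold A4 res
  have l1 := hu.comp_continuous (hp _ k1) (fun x => (hmem x.1 x.2).1)
  have l2 := hu.comp_continuous (hp _ (continuous_const.mul k1)) (fun x => (hmem x.1 x.2).2.1)
  have l3 := hu.comp_continuous (hp _ k1.neg) (fun x => (hmem x.1 x.2).2.2.1)
  have l4 := hu.comp_continuous (hp _ (continuous_const.mul k1).neg)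
    (fun x => (hmem x.1 x.2).2.2.2)
  exact ((l1.add (continuous_const.mul l2)).sub l3).sub (continuous_const.mul l4)

lemma cont_outer {u : (Fin (m + 3) → ℂ) → ℂ} (hu : ContinuousOn u (OmH m))
    {ρ r : ℝ} (hρ : 0 < ρ) (hr : 0 < r) (hρr : 2 * ρ ^ 18 + r ^ 2 < 1) (κ : ℕ) :
    Continuous fun θ : ℝ => (circleMap 0 ρ θ ^ 2)⁻¹ * ∫ φ in (0 : ℝ)..2 * π,
      (circleMap 0 r φ ^ κ)⁻¹ * A4 (fun t s => res u t s (circleMap 0 r φ)) (circleMap 0 ρ θ) := by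
  have h := cont_inner hu hρ hr hρr κ
  have h1 : Continuous fun θ : ℝ => ∫ φ in (0 : ℝ)..2 * π,
      (circleMap 0 r φ ^ κ)⁻¹ * A4 (fun t s => res u t s (circleMap 0 r φ)) (circleMap 0 ρ θ) :=
    intervalIntegral.continuous_parametric_intervalIntegral_of_continuous'
      (f := fun θ φ : ℝ => (circleMap 0 r φ ^ κ)⁻¹ *
        A4 (fun t s => res u t s (circleMap 0 r φ)) (circleMap 0 ρ θ)) h 0 (2 * π)
  have h2 : Continuous fun θ : ℝ => (circleMap 0 ρ θ ^ 2)⁻¹ :=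
    Continuous.inv₀ ((continuous_circleMap 0 ρ).pow 2) (fun x => pow_ne_zero _ (cm_ne ρ hρ _))
  exact h2.mul h1

lemma cont_slice (F : ℝ → ℝ → ℂ) (hF : Continuous fun x : ℝ × ℝ => F x.1 x.2) (θ : ℝ) :
    IntervalIntegrable (fun φ => F θ φ) volume 0 (2 * π) := by
  apply Continuous.intervalIntegrable
  have hpair : Continuous fun φ : ℝ => (θ, φ) := by fun_prop
  exact hF.comp hpair

lemma Lam_sub {u v : (Fin (m + 3) → ℂ) → ℂ} (hu : ContinuousOn u (OmH m))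
    (hv : ContinuousOn v (OmH m))
    {ρ r : ℝ} (hρ : 0 < ρ) (hr : 0 < r) (hρr : 2 * ρ ^ 18 + r ^ 2 < 1) (κ : ℕ) :
    Lam ρ r κ (res fun x => u x - v x) = Lam ρ r κ (res u) - Lam ρ r κ (res v) := by
  have hi : ∀ w : (Fin (m + 3) → ℂ) → ℂ, ContinuousOn w (OmH m) → ∀ θ : ℝ, IntervalIntegrable
      (fun φ => (circleMap 0 r φ ^ κ)⁻¹ *
        A4 (fun t s => res w t s (circleMap 0 r φ)) (circleMap 0 ρ θ)) volume 0 (2 * π) := by
    intro w hw θ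
    exact cont_slice (fun θ φ : ℝ => (circleMap 0 r φ ^ κ)⁻¹ *
        A4 (fun t s => res w t s (circleMap 0 r φ)) (circleMap 0 ρ θ)) (cont_inner hw hρ hr hρr κ) θ
  have h1 : ∀ θ : ℝ, (circleMap 0 ρ θ ^ 2)⁻¹ * ∫ φ in (0 : ℝ)..2 * π, (circleMap 0 r φ ^ κ)⁻¹ *
      A4 (fun t s => res (fun x => u x - v x) t s (circleMap 0 r φ)) (circleMap 0 ρ θ) =
      ((circleMap 0 ρ θ ^ 2)⁻¹ * ∫ φ in (0 : ℝ)..2 * π, (circleMap 0 r φ ^ κ)⁻¹ *
        A4 (fun t s => res u t s (circleMap 0 r φ)) (circleMap 0 ρ θ)) -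
      ((circleMap 0 ρ θ ^ 2)⁻¹ * ∫ φ in (0 : ℝ)..2 * π, (circleMap 0 r φ ^ κ)⁻¹ *
        A4 (fun t s => res v t s (circleMap 0 r φ)) (circleMap 0 ρ θ)) := by
    intro θ
    rw [← mul_sub, ← intervalIntegral.integral_sub (hi u hu θ) (hi v hv θ)]
    congr 1
    apply intervalIntegral.integral_congr
    intro φ _
    simp only [A4, res]
    ring
  unfold Lam
  simp_rw [h1]
  exact intervalIntegral.integral_sub ((cont_outer hu hρ hr hρr κ).intervalIntegrable _ _)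
    ((cont_outer hv hρ hr hρr κ).intervalIntegrable _ _)

/-- the parameters -/
lemma params {q : ℕ} (hq : 2 ≤ q) :
    ((q ^ 72 : ℕ) : ℝ) * (1 / (q : ℝ) ^ 9) ^ 8 = 1 ∧
    0 < 1 / (2 * (q : ℝ) ^ 4) ∧ 1 / (2 * (q : ℝ) ^ 4) < 1 / 4 ∧
    1 / 2 ≤ 1 - 1 / (4 * (q : ℝ) ^ 72) ∧
    2 * (1 / (2 * (q : ℝ) ^ 4)) ^ 18 + (1 - 1 / (4 * (q : ℝ) ^ 72)) ^ 2 < 1 ∧
    1 / 2 ≤ (1 - 1 / (4 * (q : ℝ) ^ 72)) ^ (2 * q ^ 72) ∧
    1 / (q : ℝ) ^ 9 ≤ 1 / (2 * (q : ℝ) ^ 4) := by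
  have hq2 : (2 : ℝ) ≤ q := by exact_mod_cast hq
  have hq0 : (0 : ℝ) < q := by linarith
  have hq1 : (1 : ℝ) ≤ q := by linarith
  have hk1 : (1 : ℝ) ≤ (q : ℝ) ^ 72 := one_le_pow₀ hq1
  have hk0 : (0 : ℝ) < (q : ℝ) ^ 72 := by positivity
  have hki : 1 / (4 * (q : ℝ) ^ 72) ≤ 1 / 4 := by
    apply one_div_le_one_div_of_le (by norm_num)
    linarith
  refine ⟨?_, by positivity, ?_, ?_, ?_, ?_, ?_⟩
  · push_cast
    field_simp
  · apply one_div_lt_one_div_of_lt (by norm_num)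
    have : (2 : ℝ) ^ 4 ≤ (q : ℝ) ^ 4 := by gcongr
    norm_num at this
    linarith
  · linarith
  · set K := (q : ℝ) ^ 72 with hK
    have e1 : (1 / (2 * (q : ℝ) ^ 4)) ^ 18 = 1 / (2 ^ 18 * K) := by
      rw [hK, one_div_pow]
      congr 1
      ring
    rw [e1]
    have e2 : 1 / ((2 : ℝ) ^ 18 * K) = (1 / 2 ^ 18) * (1 / K) := by
      field_simp
    have e3 : 1 / (4 * K) = (1 / 4) * (1 / K) := by field_simp
    rw [e2, e3]
    have h1 : 0 < 1 / K := by positivity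
    have h2 : 1 / K ≤ 1 := by
      rw [div_le_one hk0]
      exact hk1
    nlinarith
  · have h := one_add_mul_le_pow (a := -(1 / (4 * (q : ℝ) ^ 72))) (by linarith) (2 * q ^ 72)
    have e : (1 : ℝ) + ((2 * q ^ 72 : ℕ) : ℝ) * -(1 / (4 * (q : ℝ) ^ 72)) = 1 / 2 := by
      push_cast
      field_simp
      ring
    rw [e] at h
    rw [sub_eq_add_neg]
    exact h
  · apply one_div_le_one_div_of_le (by positivity)
    have h5 : (2 : ℝ) ≤ (q : ℝ) ^ 5 := by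
      calc (2 : ℝ) ≤ q := hq2
        _ = (q : ℝ) ^ 1 := (pow_one _).symm
        _ ≤ (q : ℝ) ^ 5 := pow_le_pow_right₀ hq1 (by norm_num)
    calc 2 * (q : ℝ) ^ 4 ≤ (q : ℝ) ^ 5 * (q : ℝ) ^ 4 := by gcongr
      _ = (q : ℝ) ^ 9 := by ring

/-- the lower bound -/
lemma lower {q : ℕ} (hq : 2 ≤ q) {u : (Fin (m + 3) → ℂ) → ℂ} {B c : ℝ} (hc : 0 ≤ c)
    (hu : ∀ x ∈ OmH m, ‖u x‖ ≤ B)
    (hL : Lam (1 / (2 * (q : ℝ) ^ 4)) (1 - 1 / (4 * (q : ℝ) ^ 72)) (2 * q ^ 72) (res u) =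
      c * Lam (1 / (2 * (q : ℝ) ^ 4)) (1 - 1 / (4 * (q : ℝ) ^ 72)) (2 * q ^ 72)
        (res (uH (m := m) (2 * q ^ 72) (1 / (q : ℝ) ^ 9)))) :
    c / (16 * (q : ℝ) ^ 8) ≤ B := by
  have hq2 : (2 : ℝ) ≤ q := by exact_mod_cast hq
  have hq0 : (0 : ℝ) < q := by linarith
  obtain ⟨h1, hρ, hρ4, hr, hρr, hrk, hδρ⟩ := params hq
  set ρ := 1 / (2 * (q : ℝ) ^ 4) with hρd
  set r := 1 - 1 / (4 * (q : ℝ) ^ 72) with hrd
  set δ := 1 / (q : ℝ) ^ 9 with hδd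
  have hδ0 : 0 < δ := by positivity
  have hr0 : 0 < r := by linarith
  have hb := Lam_bound hu hρ hr hρr (2 * q ^ 72)
  rw [hL, Lam_eval hρ hr0] at hb
  have hB : 0 ≤ B := (norm_nonneg _).trans (hu 0 zero_mem)
  have hn : ‖(c : ℂ) * ((2 * π) ^ 2 * (4 * ρ ^ 2 / (ρ ^ 2 + δ ^ 2) : ℝ))‖ =
      (2 * π) ^ 2 * (4 * (c * (ρ ^ 2 / (ρ ^ 2 + δ ^ 2)))) := by
    rw [norm_mul, norm_mul, norm_real, norm_real, norm_pow, norm_mul, Complex.norm_ofNat, norm_real,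
      Real.norm_eq_abs, Real.norm_eq_abs, Real.norm_eq_abs, abs_of_nonneg hc,
      abs_of_pos Real.pi_pos, abs_of_nonneg (by positivity)]
    ring
  rw [hn] at hb
  have hb2 : 4 * (c * (ρ ^ 2 / (ρ ^ 2 + δ ^ 2))) ≤ 4 * B / (ρ ^ 2 * r ^ (2 * q ^ 72)) :=
    le_of_mul_le_mul_left hb (by positivity)
  have h2 : 1 / 2 ≤ ρ ^ 2 / (ρ ^ 2 + δ ^ 2) := by
    rw [div_le_div_iff₀ (by norm_num) (by positivity)]
    have : δ ^ 2 ≤ ρ ^ 2 := by gcongr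
    linarith
  have h3 : 4 * B / (ρ ^ 2 * r ^ (2 * q ^ 72)) ≤ 4 * B / (ρ ^ 2 * (1 / 2)) := by
    gcongr
  have h4 : 4 * (c * (1 / 2)) ≤ 4 * B / (ρ ^ 2 * (1 / 2)) :=
    le_trans (by gcongr) (hb2.trans h3)
  rw [le_div_iff₀ (by positivity)] at h4
  have h5 : c * ρ ^ 2 / 4 ≤ B := by linarith
  have e : c * ρ ^ 2 / 4 = c / (16 * (q : ℝ) ^ 8) := by
    rw [hρd]
    field_simp
    ring
  rwa [e] at h5

lemma eDist_cont (z : Fin (m + 3) → ℂ) : Continuous fun w => eDist z w := by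
  unfold eDist
  fun_prop

lemma eDist_self (z : Fin (m + 3) → ℂ) : eDist z z = 0 := by
  unfold eDist
  simp

lemma holder_cont {Ω : Set (Fin (m + 3) → ℂ)} {u : (Fin (m + 3) → ℂ) → ℂ} {ε B : ℝ} (hε : 0 < ε)
    (h : ∀ z ∈ Ω, ∀ w ∈ Ω, ‖u z - u w‖ ≤ B * eDist z w ^ ε) : ContinuousOn u Ω := by
  intro z hz
  rw [ContinuousWithinAt, tendsto_iff_norm_sub_tendsto_zero]
  have h0 : Filter.Tendsto (fun w => B * eDist z w ^ ε) (𝓝[Ω] z) (𝓝 0) := by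
    have h1 : Filter.Tendsto (fun w => eDist z w) (𝓝[Ω] z) (𝓝 0) := by
      have := (eDist_cont z).tendsto z
      rw [eDist_self] at this
      exact this.mono_left nhdsWithin_le_nhds
    have h2 := (Real.continuousAt_rpow_const 0 ε (Or.inr hε.le)).tendsto.comp h1
    rw [Real.zero_rpow hε.ne'] at h2
    have h3 := h2.const_mul B
    rw [mul_zero] at h3
    exact h3
  refine squeeze_zero' (Filter.Eventually.of_forall fun _ => norm_nonneg _) ?_ h0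
  filter_upwards [self_mem_nhdsWithin] with w hw
  rw [norm_sub_rev]
  exact h z hz w hw

/-- difference of solutions -/
lemma weak_diff {Ω : Set (Fin (m + 3) → ℂ)} (hΩ : IsOpen Ω) {u v : (Fin (m + 3) → ℂ) → ℂ}
    {f : (Fin (m + 3) → ℂ) → (Fin (m + 3) → ℂ)} (hu : ContinuousOn u Ω) (hv : ContinuousOn v Ω)
    (hus : SolvesDbar Ω u f) (hvs : SolvesDbar Ω v f) (j : Fin (m + 3))
    (φ : (Fin (m + 3) → ℂ) → ℂ) (hφ : IsTest Ω φ) :
    ∫ x in Ω, (u x - v x) * dbar j φ x = 0 := by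
  have i1 : IntegrableOn (fun x => u x * dbar j φ x) Ω :=
    (integrable_mul_of_cs hΩ hu (hφ.continuous_dbar j) (hφ.hcs_dbar j)
      (hφ.tsupport_dbar j)).integrableOn
  have i2 : IntegrableOn (fun x => v x * dbar j φ x) Ω :=
    (integrable_mul_of_cs hΩ hv (hφ.continuous_dbar j) (hφ.hcs_dbar j)
      (hφ.tsupport_dbar j)).integrableOn
  have e : ∀ x, (u x - v x) * dbar j φ x = u x * dbar j φ x - v x * dbar j φ x := fun x => by ring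
  simp_rw [e]
  rw [integral_sub i1 i2, hus j φ hφ, hvs j φ hφ, sub_self]

lemma uH_solves (κ : ℕ) {δ : ℝ} (hδ : 0 < δ) {Ω : Set (Fin (m + 3) → ℂ)} (hΩ : IsOpen Ω) :
    SolvesDbar Ω (uH (m := m) κ δ) (fH κ δ) := by
  intro j φ hφ
  rw [ibp hΩ ((contDiff_uH κ hδ).of_le (by simp)).contDiffOn hφ j]
  congr 1
  apply setIntegral_congr_fun hΩ.measurableSet
  intro x _
  simp only
  rw [dbar_uH κ hδ]

/-- sup-norm lower bound for solutions -/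
theorem sup_lower {q : ℕ} (hq : 2 ≤ q) {u : (Fin (m + 3) → ℂ) → ℂ} {B : ℝ}
    (huc : ContinuousOn u (OmH m)) (hu : ∀ x ∈ OmH m, ‖u x‖ ≤ B)
    (hus : SolvesDbar (OmH m) u (fH (2 * q ^ 72) (1 / (q : ℝ) ^ 9))) :
    1 / (16 * (q : ℝ) ^ 8) ≤ B := by
  have hq0 : (0 : ℝ) < q := by
    have : (2 : ℝ) ≤ q := by exact_mod_cast hq
    linarith
  have hδ : 0 < 1 / (q : ℝ) ^ 9 := by positivity
  obtain ⟨h1, hρ, hρ4, hr, hρr, hrk, hδρ⟩ := params hq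
  have hvc : ContinuousOn (uH (m := m) (2 * q ^ 72) (1 / (q : ℝ) ^ 9)) (OmH m) :=
    (contDiff_uH _ hδ).continuous.continuousOn
  have h0 := vanish (H := fun x => u x - uH (2 * q ^ 72) (1 / (q : ℝ) ^ 9) x)
    (huc.sub hvc) (weak_diff isOpen_OmH huc hvc hus (uH_solves _ hδ isOpen_OmH))
    hρ hρ4 hr hρr (2 * q ^ 72)
  rw [Lam_sub huc hvc hρ (by linarith) hρr, sub_eq_zero] at h0
  apply lower hq (c := 1) (by norm_num) hu
  rw [h0]
  simp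

theorem no_holder (m : ℕ) : ¬ HolderEstimates (OmH m) := by
  rintro ⟨ε, C, hε, _, hC, h⟩
  obtain ⟨q, hq⟩ := exists_nat_gt (max 2 (128 * C))
  have hq2 : 2 ≤ q := by
    have : (2 : ℝ) < q := (le_max_left _ _).trans_lt hq
    exact_mod_cast this.le
  have hqC : 128 * C < q := (le_max_right _ _).trans_lt hq
  have hq0 : (0 : ℝ) < q := by
    have : (2 : ℝ) ≤ q := by exact_mod_cast hq2
    linarith
  have hδ : 0 < 1 / (q : ℝ) ^ 9 := by positivity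
  obtain ⟨h1, hρ, hρ4, hr, hρr, hrk, hδρ⟩ := params hq2
  obtain ⟨u, hus, B₁, B₂, hB1, hB2, hB, hu1, hu2⟩ := h (fH (2 * q ^ 72) (1 / (q : ℝ) ^ 9))
    (8 * (1 / (q : ℝ) ^ 9)) (continuous_fH _ hδ).continuousOn
    (fun x hx => by
      rw [sqrt_fH]
      exact norm_fH hδ h1 hx)
    (fH_closed _ hδ isOpen_OmH)
  have huc : ContinuousOn u (OmH m) := holder_cont hε hu2
  have hl := sup_lower hq2 huc hu1 hus
  have h2 : 1 / (16 * (q : ℝ) ^ 8) ≤ C * (8 * (1 / (q : ℝ) ^ 9)) := by linarith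
  have h3 : 1 / (16 * (q : ℝ) ^ 8) * (16 * (q : ℝ) ^ 9) ≤
      C * (8 * (1 / (q : ℝ) ^ 9)) * (16 * (q : ℝ) ^ 9) := by gcongr
  have e1 : 1 / (16 * (q : ℝ) ^ 8) * (16 * (q : ℝ) ^ 9) = q := by field_simp
  have e2 : C * (8 * (1 / (q : ℝ) ^ 9)) * (16 * (q : ℝ) ^ 9) = 128 * C := by
    field_simp
    ring
  rw [e1, e2] at h3
  linarith

end Pool.Agent.Helper303.Ho
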