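import Pool.Agent.Helper303.HoDefs

open MeasureTheory Set Complex
open scoped Real Topology

namespace Pool.Agent.Helper303.Ho

variable {n : ℕ}

/-- mean value inequality for `|G|²` -/
lemma mv_sq {G : ℂ → ℂ} (hG : Differentiable ℂ G) :
    2 * π * ‖G 0‖ ^ 2 ≤ ∫ θ in (0 : ℝ)..2 * π, ‖G (exp (θ * I))‖ ^ 2 := by
  have hc : Continuous fun θ : ℝ => G (exp (θ * I)) := by
    apply hG.continuous.comp
    fun_prop
  have hmv : ∫ θ in (0 : ℝ)..2 * π, G (exp (θ * I)) = 2 * π * G 0 := by
    have h := (hG.diffContOnCl (s := Metric.ball (0 : ℂ) |1|)).circleAverage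
    rw [Real.circleAverage_def] at h
    have e : ∀ θ : ℝ, circleMap 0 1 θ = exp (θ * I) := by
      intro θ
      simp [circleMap]
    simp_rw [e] at h
    rw [← h, Complex.real_smul]
    push_cast
    have : (2 * π : ℂ) ≠ 0 := by simp [Real.pi_ne_zero]
    rw [← mul_assoc, mul_inv_cancel₀ this, one_mul]
  have hint : ∫ θ in (0 : ℝ)..2 * π, (2 * (starRingEnd ℂ (G 0) * G (exp (θ * I))).re - ‖G 0‖ ^ 2) =
      2 * π * ‖G 0‖ ^ 2 := by
    have h1 : Continuous fun θ : ℝ => starRingEnd ℂ (G 0) * G (exp (θ * I)) :=
      continuous_const.mul hc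
    have h2 : ∫ θ in (0 : ℝ)..2 * π, (starRingEnd ℂ (G 0) * G (exp (θ * I))).re =
        2 * π * ‖G 0‖ ^ 2 := by
      have h3 : ∫ θ in (0 : ℝ)..2 * π, (starRingEnd ℂ (G 0) * G (exp (θ * I))) =
          ((2 * π * ‖G 0‖ ^ 2 : ℝ) : ℂ) := by
        rw [intervalIntegral.integral_const_mul, hmv]
        have : starRingEnd ℂ (G 0) * G 0 = ((‖G 0‖ ^ 2 : ℝ) : ℂ) := by
          rw [mul_comm, Complex.mul_conj, Complex.normSq_eq_norm_sq]
        calc _ = 2 * π * (starRingEnd ℂ (G 0) * G 0) := by ring
          _ = _ := by rw [this]; push_cast; ring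
      have h4 := intervalIntegral.intervalIntegral_re (μ := volume) (a := 0) (b := 2 * π)
        (h1.intervalIntegrable 0 (2 * π))
      simp only [RCLike.re_to_complex] at h4
      rw [h4, h3, Complex.ofReal_re]
    rw [intervalIntegral.integral_sub, intervalIntegral.integral_const_mul, h2,
      intervalIntegral.integral_const]
    · simp
      ring
    · apply Continuous.intervalIntegrable
      exact continuous_const.mul (Complex.continuous_re.comp h1)
    · exact continuous_const.intervalIntegrable _ _
  rw [← hint]
  apply intervalIntegral.integral_mono_on (by positivity)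
  · apply Continuous.intervalIntegrable
    exact (continuous_const.mul (Complex.continuous_re.comp (continuous_const.mul hc))).sub
      continuous_const
  · apply Continuous.intervalIntegrable
    exact (continuous_norm.comp hc).pow 2
  · intro θ _
    set z := G (exp (θ * I))
    have h0 : 0 ≤ ‖z - G 0‖ ^ 2 := by positivity
    rw [← Complex.normSq_eq_norm_sq, ← Complex.normSq_eq_norm_sq] at *
    simp only [Complex.normSq_apply, Complex.sub_re, Complex.sub_im, Complex.mul_re,
      Complex.conj_re, Complex.conj_im] at *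
    nlinarith

/-- `{∑ |g_i|² < 1}` is pseudoconvex when bounded -/
theorem psc {ι : Type*} [Fintype ι] (g : ι → (Fin n → ℂ) → ℂ) (hg : ∀ i, Differentiable ℂ (g i))
    {Ω : Set (Fin n → ℂ)} (hΩ : ∀ x, x ∈ Ω ↔ ∑ i, ‖g i x‖ ^ 2 < 1)
    (hb : Bornology.IsBounded {x | ∑ i, ‖g i x‖ ^ 2 ≤ 1}) : Pseudoconvex Ω := by
  set S : (Fin n → ℂ) → ℝ := fun x => ∑ i, ‖g i x‖ ^ 2 with hS
  have hSc : Continuous S := by
    apply continuous_finsetSum
    intro i _
    exact (continuous_norm.comp (hg i).continuous).pow 2
  refine ⟨fun x => 1 / (1 - S x), ?_, ?_, ?_⟩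
  · apply ContinuousOn.div continuousOn_const
    · exact (continuous_const.sub hSc).continuousOn
    · intro x hx
      have := (hΩ x).1 hx
      have h2 : S x < 1 := this
      linarith
  · intro a v hav
    have hin : ∀ θ : ℝ, S (a + exp (θ * I) • v) < 1 := by
      intro θ
      apply (hΩ _).1
      apply hav
      rw [Complex.norm_exp_ofReal_mul_I]
    have ha : S a < 1 := by
      apply (hΩ _).1
      have := hav 0 (by simp)
      simpa using this
    have hline : Continuous fun θ : ℝ => a + exp (θ * I) • v := by fun_prop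
    have hSline : Continuous fun θ : ℝ => S (a + exp (θ * I) • v) := hSc.comp hline
    have h1 : 2 * π * S a ≤ ∫ θ in (0 : ℝ)..2 * π, S (a + exp (θ * I) • v) := by
      simp only [hS]
      rw [intervalIntegral.integral_finsetSum, Finset.mul_sum]
      · apply Finset.sum_le_sum
        intro i _
        have hG : Differentiable ℂ (fun ζ : ℂ => g i (a + ζ • v)) := by
          apply (hg i).comp
          fun_prop
        have := mv_sq hG
        simpa using this
      · intro i _
        apply Continuous.intervalIntegrable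
        exact (continuous_norm.comp ((hg i).continuous.comp hline)).pow 2
    set y := S a with hy
    have hy1 : 0 < 1 - y := by linarith
    have htan : ∀ x : ℝ, x < 1 → 1 / (1 - y) + (x - y) / (1 - y) ^ 2 ≤ 1 / (1 - x) := by
      intro x hx
      have hx1 : 0 < 1 - x := by linarith
      have : 1 / (1 - x) - (1 / (1 - y) + (x - y) / (1 - y) ^ 2) =
          (x - y) ^ 2 / ((1 - x) * (1 - y) ^ 2) := by
        field_simp
        ring
      have h2 : 0 ≤ (x - y) ^ 2 / ((1 - x) * (1 - y) ^ 2) := by positivity
      linarith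
    have hcc : Continuous fun θ : ℝ => 1 / (1 - S (a + exp (θ * I) • v)) := by
      apply Continuous.div continuous_const (by fun_prop)
      intro θ
      have := hin θ
      have h2 : 0 < 1 - S (a + exp (θ * I) • v) := by linarith
      exact h2.ne'
    have h3 : ∫ θ in (0 : ℝ)..2 * π, (1 / (1 - y) + (S (a + exp (θ * I) • v) - y) / (1 - y) ^ 2) ≤
        ∫ θ in (0 : ℝ)..2 * π, 1 / (1 - S (a + exp (θ * I) • v)) := by
      apply intervalIntegral.integral_mono_on (by positivity)
      · apply Continuous.intervalIntegrable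
        exact continuous_const.add ((hSline.sub continuous_const).div_const _)
      · exact hcc.intervalIntegrable _ _
      · intro θ _
        exact htan _ (hin θ)
    have h4 : ∫ θ in (0 : ℝ)..2 * π, (1 / (1 - y) + (S (a + exp (θ * I) • v) - y) / (1 - y) ^ 2) =
        2 * π * (1 / (1 - y)) +
          ((∫ θ in (0 : ℝ)..2 * π, S (a + exp (θ * I) • v)) - 2 * π * y) / (1 - y) ^ 2 := by
      have i1 : IntervalIntegrable (fun θ : ℝ => (S (a + exp (θ * I) • v) - y) / (1 - y) ^ 2)
          volume 0 (2 * π) := by
        apply Continuous.intervalIntegrable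
        fun_prop
      have i2 : IntervalIntegrable (fun θ : ℝ => S (a + exp (θ * I) • v)) volume 0 (2 * π) :=
        hSline.intervalIntegrable _ _
      rw [intervalIntegral.integral_add (continuous_const.intervalIntegrable _ _) i1,
        intervalIntegral.integral_div (f := fun θ : ℝ => S (a + exp (θ * I) • v) - y),
        intervalIntegral.integral_sub i2 (continuous_const.intervalIntegrable _ _),
        intervalIntegral.integral_const, intervalIntegral.integral_const]
      simp
    have h5 : 2 * π * (1 / (1 - y)) ≤ ∫ θ in (0 : ℝ)..2 * π, 1 / (1 - S (a + exp (θ * I) • v)) := by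
      refine le_trans ?_ h3
      rw [h4]
      have : 0 ≤ ((∫ θ in (0 : ℝ)..2 * π, S (a + exp (θ * I) • v)) - 2 * π * y) / (1 - y) ^ 2 := by
        apply div_nonneg
        · linarith
        · positivity
      linarith
    have hpi : 0 < 2 * π := by positivity
    show 1 / (1 - y) ≤ 1 / (2 * π) * ∫ θ in (0 : ℝ)..2 * π, 1 / (1 - S (a + exp (θ * I) • v))
    rw [one_div (2 * π), le_inv_mul_iff₀ hpi]
    exact h5
  · intro c
    have e : {x | x ∈ Ω ∧ 1 / (1 - S x) ≤ c} = {x | S x ≤ 1 ∧ 1 ≤ c * (1 - S x)} := by
      ext x
      constructor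
      · rintro ⟨h1, h2⟩
        have h3 : S x < 1 := (hΩ x).1 h1
        refine ⟨h3.le, ?_⟩
        rwa [div_le_iff₀ (by linarith)] at h2
      · rintro ⟨h1, h2⟩
        have h3 : S x < 1 := by
          rcases lt_or_eq_of_le h1 with h | h
          · exact h
          · exfalso
            rw [h] at h2
            norm_num at h2
        refine ⟨(hΩ x).2 h3, ?_⟩
        rw [div_le_iff₀ (by linarith)]
        exact h2
    rw [e]
    apply Metric.isCompact_of_isClosed_isBounded
    · apply IsClosed.inter
      · exact isClosed_le hSc continuous_const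
      · exact isClosed_le continuous_const (continuous_const.mul (continuous_const.sub hSc))
    · apply hb.subset
      intro x hx
      exact hx.1

end Pool.Agent.Helper303.Ho
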