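import Pool.Agent.Helper303.HoLip
import Pool.Agent.Helper303.HoCrDefs

open MeasureTheory Set Complex
open scoped Real Topology ContDiff ComplexConjugate

namespace Pool.Agent.Helper303.Ho

open Pool.Agent.Helper303.Db

variable {m : ℕ}

/-- bound of the functional, with less data -/
lemma Lam_bound' {u : (Fin (m + 3) → ℂ) → ℂ} {B : ℝ} {ρ r : ℝ}
    (hu : ∀ x ∈ OmH m, ‖x (Fin.succ (Fin.succ 0))‖ ≤ r → ‖u x‖ ≤ B)
    (hρ : 0 < ρ) (hr : 1 / 2 ≤ r) (hρr : 2 * ρ ^ 18 + r ^ 2 < 1) (κ : ℕ) :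
    ‖Lam ρ r κ (res u)‖ ≤ (2 * π) ^ 2 * (4 * B / (ρ ^ 2 * r ^ κ)) := by
  have hr0 : 0 < r := by linarith
  have hpi : (0 : ℝ) ≤ 2 * π := by positivity
  have h1 : ∀ θ φ : ℝ, ‖(circleMap 0 r φ ^ κ)⁻¹ *
      A4 (fun t s => res u t s (circleMap 0 r φ)) (circleMap 0 ρ θ)‖ ≤ (r ^ κ)⁻¹ * (4 * B) := by
    intro θ φ
    rw [norm_mul, norm_inv, norm_pow, norm_cm r hr0]
    gcongr
    obtain ⟨a1, a2, a3, a4⟩ := mem2' (m := m) hρr (norm_cm ρ hρ θ) (norm_cm r hr0 φ).le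
    have hw := (norm_cm r hr0 φ).le
    exact norm_A4 (hu _ a1 hw) (hu _ a2 hw) (hu _ a3 hw) (hu _ a4 hw)
  have h2 : ∀ θ : ℝ, ‖∫ φ in (0 : ℝ)..2 * π, (circleMap 0 r φ ^ κ)⁻¹ *
      A4 (fun t s => res u t s (circleMap 0 r φ)) (circleMap 0 ρ θ)‖ ≤
      (r ^ κ)⁻¹ * (4 * B) * (2 * π) := by
    intro θ
    have := intervalIntegral.norm_integral_le_of_norm_le_const (a := 0) (b := 2 * π)
      (f := fun φ : ℝ => (circleMap 0 r φ ^ κ)⁻¹ *
        A4 (fun t s => res u t s (circleMap 0 r φ)) (circleMap 0 ρ θ))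
      (C := (r ^ κ)⁻¹ * (4 * B)) (fun φ _ => h1 θ φ)
    rwa [sub_zero, abs_of_nonneg hpi] at this
  have h3 : ∀ θ : ℝ, ‖(circleMap 0 ρ θ ^ 2)⁻¹ * ∫ φ in (0 : ℝ)..2 * π, (circleMap 0 r φ ^ κ)⁻¹ *
      A4 (fun t s => res u t s (circleMap 0 r φ)) (circleMap 0 ρ θ)‖ ≤
      (ρ ^ 2)⁻¹ * ((r ^ κ)⁻¹ * (4 * B) * (2 * π)) := by
    intro θ
    rw [norm_mul, norm_inv, norm_pow, norm_cm ρ hρ]
    gcongr
    exact h2 θ
  have h4 := intervalIntegral.norm_integral_le_of_norm_le_const (a := 0) (b := 2 * π)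
      (f := fun θ : ℝ => (circleMap 0 ρ θ ^ 2)⁻¹ * ∫ φ in (0 : ℝ)..2 * π, (circleMap 0 r φ ^ κ)⁻¹ *
      A4 (fun t s => res u t s (circleMap 0 r φ)) (circleMap 0 ρ θ))
      (C := (ρ ^ 2)⁻¹ * ((r ^ κ)⁻¹ * (4 * B) * (2 * π))) (fun θ _ => h3 θ)
  rw [sub_zero, abs_of_nonneg hpi] at h4
  refine h4.trans (le_of_eq ?_)
  field_simp

lemma Lam_smul (c : ℂ) (u : (Fin (m + 3) → ℂ) → ℂ) (ρ r : ℝ) (κ : ℕ) :
    Lam ρ r κ (res fun x => c * u x) = c * Lam ρ r κ (res u) := by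
  unfold Lam
  rw [← intervalIntegral.integral_const_mul]
  apply intervalIntegral.integral_congr
  intro θ _
  simp only
  have : ∫ φ in (0 : ℝ)..2 * π, (circleMap 0 r φ ^ κ)⁻¹ *
      A4 (fun t s => res (fun x => c * u x) t s (circleMap 0 r φ)) (circleMap 0 ρ θ) =
      c * ∫ φ in (0 : ℝ)..2 * π, (circleMap 0 r φ ^ κ)⁻¹ *
      A4 (fun t s => res u t s (circleMap 0 r φ)) (circleMap 0 ρ θ) := by
    rw [← intervalIntegral.integral_const_mul]
    apply intervalIntegral.integral_congr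
    intro φ _
    simp only [A4, res]
    ring
  rw [this]
  ring

lemma Lam_add {u v : (Fin (m + 3) → ℂ) → ℂ} (hu : ContinuousOn u (OmH m))
    (hv : ContinuousOn v (OmH m))
    {ρ r : ℝ} (hρ : 0 < ρ) (hr : 0 < r) (hρr : 2 * ρ ^ 18 + r ^ 2 < 1) (κ : ℕ) :
    Lam ρ r κ (res fun x => u x + v x) = Lam ρ r κ (res u) + Lam ρ r κ (res v) := by
  have h := Lam_sub hu (v := fun x => (-1) * v x) (continuousOn_const.mul hv) hρ hr hρr κ
  rw [Lam_smul] at h
  have e : (fun x => u x + v x) = fun x => u x - (-1) * v x := by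
    funext x
    ring
  rw [e, h]
  ring

/-- other frequencies are killed -/
lemma Lam_eval' {ρ r δ : ℝ} (hr : 0 < r) {κ κ' : ℕ} (hκ : κ' ≠ κ) :
    Lam ρ r κ (res (uH (m := m) κ' δ)) = 0 := by
  have h1 : ∀ θ φ : ℝ, (circleMap 0 r φ ^ κ)⁻¹ *
      A4 (fun t s => res (uH (m := m) κ' δ) t s (circleMap 0 r φ)) (circleMap 0 ρ θ) =
      ((circleMap 0 r φ ^ κ)⁻¹ * circleMap 0 r φ ^ κ') *
        A4 (fun t s => t ^ 3 * phi δ s) (circleMap 0 ρ θ) := by
    intro θ φ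
    have hres : ∀ t s, res (uH (m := m) κ' δ) t s (circleMap 0 r φ) =
        circleMap 0 r φ ^ κ' * t ^ 3 * phi δ s := by
      intro t s
      rfl
    unfold A4
    simp only [hres]
    ring
  have h2 : ∫ φ in (0 : ℝ)..2 * π, (circleMap 0 r φ ^ κ)⁻¹ * circleMap 0 r φ ^ κ' = 0 := by
    have h3 := circleIntegral.integral_sub_zpow_of_ne (n := (κ' : ℤ) - κ - 1) (by
      intro h
      apply hκ
      omega) 0 0 r
    rw [circleIntegral] at h3
    have e : ∀ φ : ℝ, deriv (circleMap 0 r) φ • (circleMap 0 r φ - 0) ^ ((κ' : ℤ) - κ - 1) =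
        I * ((circleMap 0 r φ ^ κ)⁻¹ * circleMap 0 r φ ^ κ') := by
      intro φ
      have hne := cm_ne r hr φ
      rw [deriv_circleMap, smul_eq_mul, sub_zero, zpow_sub₀ hne, zpow_sub₀ hne, zpow_one,
        zpow_natCast, zpow_natCast]
      field_simp
    simp_rw [e] at h3
    rw [intervalIntegral.integral_const_mul] at h3
    exact (mul_eq_zero.1 h3).resolve_left I_ne_zero
  unfold Lam
  simp_rw [h1]
  have h4 : ∀ θ : ℝ, (circleMap 0 ρ θ ^ 2)⁻¹ * ∫ φ in (0 : ℝ)..2 * π,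
      ((circleMap 0 r φ ^ κ)⁻¹ * circleMap 0 r φ ^ κ') *
        A4 (fun t s => t ^ 3 * phi δ s) (circleMap 0 ρ θ) = 0 := by
    intro θ
    rw [intervalIntegral.integral_mul_const, h2, zero_mul, mul_zero]
  simp_rw [h4]
  simp

/-- the scales -/
def qq (j : ℕ) : ℕ := 2 ^ (j + 1)

lemma two_le_qq (j : ℕ) : 2 ≤ qq j := by
  unfold qq
  calc 2 = 2 ^ 1 := rfl
    _ ≤ 2 ^ (j + 1) := Nat.pow_le_pow_right (by norm_num) (by omega)

lemma qq_inj : Function.Injective qq := by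
  intro i j h
  have := Nat.pow_right_injective (le_refl 2) h
  omega

lemma succ_le_qq (j : ℕ) : j + 1 ≤ qq j := (Nat.lt_two_pow_self).le

/-- the coefficients -/
noncomputable def cR (j : ℕ) : ℝ := ((j : ℝ) + 1) * (qq j : ℝ) ^ 8

lemma cR_nonneg (j : ℕ) : 0 ≤ cR j := by
  unfold cR
  positivity

lemma norm_phi {δ : ℝ} (hδ : 0 < δ) (s : ℂ) : ‖phi δ s‖ ≤ 1 / δ := by
  unfold phi
  rw [den_eq, norm_mul, norm_inv, norm_conj, norm_real, Real.norm_eq_abs,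
    abs_of_pos (den_pos hδ s), normSq_eq_norm_sq, ← div_eq_mul_inv,
    div_le_div_iff₀ (by positivity) hδ]
  nlinarith [norm_nonneg s, sq_nonneg (‖s‖ - δ)]

/-- the terms of the series -/
noncomputable def tu (j : ℕ) (x : Fin (m + 3) → ℂ) : ℂ :=
  (cR j : ℂ) * uH (2 * qq j ^ 72) (1 / (qq j : ℝ) ^ 9) x

noncomputable def tg (j : ℕ) (x : Fin (m + 3) → ℂ) : ℂ := (cR j : ℂ) * gco (qq j) x

lemma norm_tu (j : ℕ) {x : Fin (m + 3) → ℂ} {r : ℝ} (hr1 : r ≤ 1) (h0 : ‖x 0‖ ≤ 1)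
    (h2 : ‖x (Fin.succ (Fin.succ 0))‖ ≤ r) : ‖tu j x‖ ≤ (qq j : ℝ) ^ 18 * r ^ (qq j) := by
  have hr0 : 0 ≤ r := (norm_nonneg _).trans h2
  have hq : (0 : ℝ) < qq j := by
    have := two_le_qq j
    exact_mod_cast (by omega : 0 < qq j)
  have hq1 : 1 ≤ qq j := by
    have := two_le_qq j
    omega
  have hδ : 0 < 1 / (qq j : ℝ) ^ 9 := by positivity
  unfold tu uH AH
  rw [norm_mul, norm_mul, norm_mul, norm_pow, norm_pow, norm_real, Real.norm_eq_abs,
    abs_of_nonneg (cR_nonneg j)]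
  have h3 := norm_phi hδ (x 1)
  rw [one_div_one_div] at h3
  have h4 : ‖x 0‖ ^ 3 ≤ 1 := pow_le_one₀ (norm_nonneg _) h0
  have h5 : ‖x (Fin.succ (Fin.succ 0))‖ ^ (2 * qq j ^ 72) ≤ r ^ (qq j) := by
    calc ‖x (Fin.succ (Fin.succ 0))‖ ^ (2 * qq j ^ 72) ≤ r ^ (2 * qq j ^ 72) := by gcongr
      _ ≤ r ^ (qq j) := by
        apply pow_le_pow_of_le_one hr0 hr1
        calc qq j = qq j ^ 1 := (pow_one _).symm
          _ ≤ qq j ^ 72 := Nat.pow_le_pow_right hq1 (by norm_num)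
          _ ≤ 2 * qq j ^ 72 := by omega
  have h6 : cR j ≤ (qq j : ℝ) ^ 9 := by
    unfold cR
    have : ((j : ℝ) + 1) ≤ qq j := by exact_mod_cast succ_le_qq j
    calc ((j : ℝ) + 1) * (qq j : ℝ) ^ 8 ≤ qq j * (qq j : ℝ) ^ 8 := by gcongr
      _ = _ := by ring
  calc cR j * (‖x (Fin.succ (Fin.succ 0))‖ ^ (2 * qq j ^ 72) * ‖x 0‖ ^ 3 * ‖phi _ (x 1)‖) ≤
      (qq j : ℝ) ^ 9 * (r ^ (qq j) * 1 * (qq j : ℝ) ^ 9) := by gcongr
    _ = _ := by ring

lemma summable_geo {r : ℝ} (hr0 : 0 ≤ r) (hr : r < 1) :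
    Summable fun j => (qq j : ℝ) ^ 18 * r ^ (qq j) := by
  have h := summable_pow_mul_geometric_of_norm_lt_one (R := ℝ) 18 (r := r) (by
    rwa [Real.norm_eq_abs, abs_of_nonneg hr0])
  exact h.comp_injective qq_inj

/-- the sum of the series -/
noncomputable def UU (x : Fin (m + 3) → ℂ) : ℂ := ∑' j, tu j x

noncomputable def Gg (x : Fin (m + 3) → ℂ) : ℂ := ∑' j, tg j x

lemma continuous_tu (j : ℕ) : Continuous (tu (m := m) j) := by
  have hq : (0 : ℝ) < qq j := by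
    have := two_le_qq j
    exact_mod_cast (by omega : 0 < qq j)
  have hδ : 0 < 1 / (qq j : ℝ) ^ 9 := by positivity
  exact continuous_const.mul (contDiff_uH _ hδ).continuous

lemma continuous_tg (j : ℕ) : Continuous (tg (m := m) j) := by
  have hq : (0 : ℝ) < qq j := by
    have := two_le_qq j
    exact_mod_cast (by omega : 0 < qq j)
  have hδ : 0 < 1 / (qq j : ℝ) ^ 9 := by positivity
  exact continuous_const.mul
    ((contDiff_AH _).mul ((contDiff_GG hδ).comp (contDiff_apply ℝ ℂ 1))).continuous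

lemma two_lt {x : Fin (m + 3) → ℂ} (hx : x ∈ OmH m) : ‖x (Fin.succ (Fin.succ 0))‖ < 1 := by
  rw [mem_OmH] at hx
  have h := le_tail x 0
  unfold SH at hx
  have h1 := normSq_nonneg (x 0 ^ 4 - x 1 ^ 4)
  have h2 : 0 ≤ normSq (x 0) ^ 9 := pow_nonneg (normSq_nonneg _) _
  have h3 : 0 ≤ normSq (x 1) ^ 9 := pow_nonneg (normSq_nonneg _) _
  have h4 : normSq (x (Fin.succ (Fin.succ 0))) < 1 := by linarith
  rw [normSq_eq_norm_sq] at h4
  nlinarith [norm_nonneg (x (Fin.succ (Fin.succ 0)))]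

lemma continuousOn_UU : ContinuousOn (UU (m := m)) (OmH m) := by
  intro x hx
  obtain ⟨r, hr1, hr2⟩ := exists_between (two_lt hx)
  have hr0 : 0 ≤ r := (norm_nonneg _).trans hr1.le
  have hc : ContinuousOn (UU (m := m)) {y | y ∈ OmH m ∧ ‖y (Fin.succ (Fin.succ 0))‖ < r} := by
    apply continuousOn_tsum (u := fun j => (qq j : ℝ) ^ 18 * r ^ (qq j))
    · intro j
      exact (continuous_tu j).continuousOn
    · exact summable_geo hr0 hr2
    · intro j y hy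
      exact norm_tu j hr2.le (coord_closure (subset_closure hy.1) 0) hy.2.le
  have ho : IsOpen {y : Fin (m + 3) → ℂ | y ∈ OmH m ∧ ‖y (Fin.succ (Fin.succ 0))‖ < r} := by
    apply isOpen_OmH.inter
    exact isOpen_lt (continuous_norm.comp (continuous_apply _)) continuous_const
  exact (hc.continuousAt (ho.mem_nhds ⟨hx, hr1⟩)).continuousWithinAt

/-- partial sums -/
noncomputable def SU (N : ℕ) (x : Fin (m + 3) → ℂ) : ℂ := ∑ j ∈ Finset.range N, tu j x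

lemma continuous_SU (N : ℕ) : Continuous (SU (m := m) N) :=
  continuous_finsetSum _ fun j _ => continuous_tu j

lemma Lam_SU {ρ r : ℝ} (hρ : 0 < ρ) (hr : 0 < r) (hρr : 2 * ρ ^ 18 + r ^ 2 < 1) (j N : ℕ) :
    Lam ρ r (2 * qq j ^ 72) (res (SU (m := m) N)) =
      if j < N then Lam ρ r (2 * qq j ^ 72) (res (tu (m := m) j)) else 0 := by
  induction N with
  | zero =>
    have e : SU (m := m) 0 = fun x => 0 * (0 : (Fin (m + 3) → ℂ) → ℂ) x := by
      funext x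
      simp [SU]
    rw [e, Lam_smul]
    simp
  | succ N ih =>
    have e : SU (m := m) (N + 1) = fun x => SU N x + tu N x := by
      funext x
      unfold SU
      rw [Finset.sum_range_succ]
    rw [e, Lam_add (continuous_SU N).continuousOn (continuous_tu N).continuousOn hρ hr hρr, ih]
    by_cases hjN : j = N
    · subst hjN
      simp
    · have h0 : Lam ρ r (2 * qq j ^ 72) (res (tu (m := m) N)) = 0 := by
        unfold tu
        rw [Lam_smul, Lam_eval' hr, mul_zero]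
        intro h
        apply hjN
        have h1 : qq N ^ 72 = qq j ^ 72 := by omega
        have h2 : qq N = qq j := Nat.pow_left_injective (by norm_num) h1
        exact (qq_inj h2).symm
      rw [h0, add_zero]
      by_cases h : j < N
      · rw [if_pos h, if_pos (by omega)]
      · rw [if_neg h, if_neg (by omega)]

lemma tail_UU {x : Fin (m + 3) → ℂ} {r : ℝ} (hr1 : r < 1) (h0 : ‖x 0‖ ≤ 1)
    (h2 : ‖x (Fin.succ (Fin.succ 0))‖ ≤ r) (N : ℕ) :
    ‖UU x - SU N x‖ ≤ ∑' j, (qq (j + N) : ℝ) ^ 18 * r ^ (qq (j + N)) := by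
  have hr0 : 0 ≤ r := (norm_nonneg _).trans h2
  have hs := summable_geo hr0 hr1
  have hsu : Summable fun j => tu j x :=
    Summable.of_norm_bounded hs (fun j => norm_tu j hr1.le h0 h2)
  have e : UU x - SU N x = ∑' j, tu (j + N) x := by
    unfold UU SU
    rw [← hsu.sum_add_tsum_nat_add N]
    ring
  rw [e]
  apply tsum_of_norm_bounded ((summable_nat_add_iff N).2 hs).hasSum
  intro j
  exact norm_tu (j + N) hr1.le h0 h2

lemma Lam_UU {ρ r : ℝ} (hρ : 0 < ρ) (hr : 1 / 2 ≤ r) (hρr : 2 * ρ ^ 18 + r ^ 2 < 1) (j : ℕ) :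
    Lam ρ r (2 * qq j ^ 72) (res (UU (m := m))) = Lam ρ r (2 * qq j ^ 72) (res (tu (m := m) j)) := by
  have hr0 : 0 < r := by linarith
  have hr1 : r < 1 := by
    have : 0 < ρ ^ 18 := by positivity
    nlinarith
  have hs := summable_geo hr0.le hr1
  have h1 : ∀ N, j < N → ‖Lam ρ r (2 * qq j ^ 72) (res (UU (m := m))) -
      Lam ρ r (2 * qq j ^ 72) (res (tu (m := m) j))‖ ≤ (2 * π) ^ 2 *
        (4 * (∑' i, (qq (i + N) : ℝ) ^ 18 * r ^ (qq (i + N))) / (ρ ^ 2 * r ^ (2 * qq j ^ 72))) := by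
    intro N hN
    have h2 := Lam_SU (m := m) hρ hr0 hρr j N
    rw [if_pos hN] at h2
    rw [← h2, ← Lam_sub continuousOn_UU (continuous_SU N).continuousOn hρ hr0 hρr]
    apply Lam_bound' _ hρ hr hρr
    intro x hx hx2
    exact tail_UU hr1 (coord_closure (subset_closure hx) 0) hx2 N
  have h2 : Filter.Tendsto (fun N => (2 * π) ^ 2 *
        (4 * (∑' i, (qq (i + N) : ℝ) ^ 18 * r ^ (qq (i + N))) / (ρ ^ 2 * r ^ (2 * qq j ^ 72))))
        Filter.atTop (𝓝 0) := by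
    have h3 := tendsto_sum_nat_add (fun i => (qq i : ℝ) ^ 18 * r ^ (qq i))
    have h4 := (((h3.const_mul 4).div_const (ρ ^ 2 * r ^ (2 * qq j ^ 72))).const_mul ((2 * π) ^ 2))
    simpa using h4
  have h3 : ‖Lam ρ r (2 * qq j ^ 72) (res (UU (m := m))) -
      Lam ρ r (2 * qq j ^ 72) (res (tu (m := m) j))‖ ≤ 0 := by
    apply ge_of_tendsto h2
    filter_upwards [Filter.eventually_gt_atTop j] with N hN
    exact h1 N hN
  exact sub_eq_zero.1 (norm_le_zero_iff.1 h3)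

end Pool.Agent.Helper303.Ho
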