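import Pool.Agent.Helper303.DbCalc

open MeasureTheory Set
open scoped ContDiff ComplexConjugate Convolution Topology

namespace Pool.Agent.Helper303.Ho

open Pool.Agent.Helper303.Db

variable {n : ℕ}

/-- real-linear map which is complex linear on the coordinate vectors -/
lemma complex_lin (D : (Fin n → ℂ) →L[ℝ] ℂ)
    (h : ∀ j, D (Pi.single j Complex.I) = Complex.I * D (Pi.single j 1)) (c : ℂ) (v : Fin n → ℂ) :
    D (c • v) = c * D v := by
  have key : ∀ v : Fin n → ℂ, D v = ∑ j, v j * D (Pi.single j 1) := by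
    intro v
    have e : v = ∑ j, ((v j).re • (Pi.single j 1 : Fin n → ℂ) +
        (v j).im • (Pi.single j Complex.I : Fin n → ℂ)) := by
      funext i
      rw [Finset.sum_apply]
      rw [Finset.sum_eq_single i]
      · simp only [Pi.add_apply, Pi.smul_apply, Pi.single_eq_same, Complex.real_smul, mul_one]
        exact (Complex.re_add_im (v i)).symm
      · intro j _ hj
        simp [Pi.single_eq_of_ne hj.symm]
      · intro h
        exact absurd (Finset.mem_univ i) h
    conv_lhs => rw [e]
    rw [map_sum]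
    apply Finset.sum_congr rfl
    intro j _
    rw [map_add, map_smul, map_smul, h, Complex.real_smul, Complex.real_smul]
    conv_rhs => rw [← Complex.re_add_im (v j)]
    ring
  rw [key, key, Finset.mul_sum]
  apply Finset.sum_congr rfl
  intro j _
  rw [Pi.smul_apply, smul_eq_mul]
  ring

/-- Weyl's lemma for `∂̄` along complex lines, for continuous functions -/
theorem weyl_line {Ω : Set (Fin n → ℂ)} (hΩ : IsOpen Ω) {H : (Fin n → ℂ) → ℂ}
    (hH : ContinuousOn H Ω)
    (hw : ∀ j : Fin n, ∀ φ, IsTest Ω φ → ∫ x in Ω, H x * dbar j φ x = 0)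
    {a : Fin n → ℂ} (ha : a ∈ Ω) (v : Fin n → ℂ) :
    DifferentiableAt ℂ (fun ζ : ℂ => H (a + ζ • v)) 0 := by
  obtain ⟨R, hR0, hR⟩ := Metric.isOpen_iff.1 hΩ a ha
  set r := R / 4 with hr
  have hr0 : 0 < r := by positivity
  have hball : Metric.closedBall a (3 * r) ⊆ Ω :=
    (Metric.closedBall_subset_ball (by rw [hr]; linarith)).trans hR
  let χ : ContDiffBump a := ⟨2 * r, 3 * r, by positivity, by linarith⟩
  have hχs : tsupport χ = Metric.closedBall a (3 * r) := χ.tsupport_eq
  let Ht : (Fin n → ℂ) → ℂ := fun x => H x * (χ x : ℂ)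
  have hχc : Continuous fun x => (χ x : ℂ) := Complex.continuous_ofReal.comp χ.continuous
  have hχts : tsupport (fun x => (χ x : ℂ)) ⊆ Metric.closedBall a (3 * r) := by
    apply closure_minimal _ Metric.isClosed_closedBall
    intro x hx
    by_contra hcon
    apply hx
    simp only
    rw [← hχs] at hcon
    rw [image_eq_zero_of_notMem_tsupport hcon]
    simp
  have hχcs : HasCompactSupport (fun x => (χ x : ℂ)) :=
    (isCompact_closedBall a (3 * r)).of_isClosed_subset (isClosed_tsupport _) hχts
  have hHtc : Continuous Ht := cont_mul hΩ hH hχc (hχts.trans hball)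
  have hHtcs : HasCompactSupport Ht := hχcs.mul_left
  have hHtu : UniformContinuous Ht := hHtc.uniformContinuous_of_tendsto_cocompact hHtcs.is_zero_at_infty
  have hHt_eq : ∀ x ∈ Metric.closedBall a (2 * r), Ht x = H x := by
    intro x hx
    simp only [Ht]
    rw [χ.one_of_mem_closedBall hx]
    simp
  -- mollifiers
  have hδpos : ∀ k : ℕ, 0 < r / (k + 2) := fun k => by positivity
  let φ : ℕ → ContDiffBump (0 : Fin n → ℂ) := fun k =>
    ⟨r / (k + 2) / 2, r / (k + 2), by have := hδpos k; positivity, by have := hδpos k; linarith⟩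
  let L : ℂ →L[ℝ] ℝ →L[ℝ] ℂ := (ContinuousLinearMap.lsmul ℝ ℝ).flip
  let Hk : ℕ → (Fin n → ℂ) → ℂ := fun k => (Ht ⋆[L, volume] (φ k).normed volume)
  have hHk_eq : ∀ k, Hk k = ((φ k).normed volume ⋆[ContinuousLinearMap.lsmul ℝ ℝ, volume] Ht) := by
    intro k
    exact convolution_flip (L := ContinuousLinearMap.lsmul ℝ ℝ)
  -- derivative
  have hder : ∀ k x, HasFDerivAt (Hk k)
      ((Ht ⋆[L.precompR (Fin n → ℂ), volume] fderiv ℝ ((φ k).normed volume)) x) x := by
    intro k x
    exact (φ k).hasCompactSupport_normed.hasFDerivAt_convolution_right L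
      hHtc.locallyIntegrable (φ k).contDiff_normed x
  have hder_app : ∀ k x w, fderiv ℝ (Hk k) x w =
      ∫ y, Ht y * ((fderiv ℝ ((φ k).normed volume) (x - y) w : ℝ) : ℂ) := by
    intro k x w
    have h1 : Continuous (fderiv ℝ ((φ k).normed volume)) :=
      (φ k).contDiff_normed (n := 1) |>.continuous_fderiv (by simp)
    rw [(hder k x).fderiv, convolution_precompR_apply L hHtc.locallyIntegrable
      ((φ k).hasCompactSupport_normed.fderiv ℝ) h1]
    rw [convolution_def]
    congr 1
    funext y
    simp only [L, ContinuousLinearMap.flip_apply, ContinuousLinearMap.lsmul_apply,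
      Complex.real_smul]
    ring
  -- the Cauchy-Riemann equations near `a`
  have hCR : ∀ k, ∀ x ∈ Metric.ball a r, ∀ j, fderiv ℝ (Hk k) x (Pi.single j Complex.I) =
      Complex.I * fderiv ℝ (Hk k) x (Pi.single j 1) := by
    intro k x hx j
    set δ := r / ((k : ℝ) + 2) with hδ
    have hδ0 : 0 < δ := hδpos k
    have hδr : δ < r := by
      rw [hδ, div_lt_iff₀ (by positivity)]
      have : (0 : ℝ) ≤ k := Nat.cast_nonneg k
      nlinarith
    set p := (φ k).normed volume with hp
    have hpcd : ContDiff ℝ ∞ p := (φ k).contDiff_normed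
    let ϕ : (Fin n → ℂ) → ℂ := fun y => ((p (x - y) : ℝ) : ℂ)
    have hϕcd : ContDiff ℝ ∞ ϕ :=
      Complex.ofRealCLM.contDiff.comp (hpcd.comp (contDiff_const.sub contDiff_id))
    have hϕs : ∀ y, y ∉ Metric.closedBall x δ → ϕ y = 0 := by
      intro y hy
      simp only [ϕ]
      have : x - y ∉ tsupport p := by
        rw [hp, (φ k).tsupport_normed_eq, mem_closedBall_zero_iff]
        rw [mem_closedBall_iff_norm] at hy
        rwa [norm_sub_rev]
      rw [image_eq_zero_of_notMem_tsupport this]
      simp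
    have hϕts : tsupport ϕ ⊆ Metric.closedBall x δ := by
      apply closure_minimal _ Metric.isClosed_closedBall
      intro y hy
      by_contra hcon
      exact hy (hϕs y hcon)
    have hsub : Metric.closedBall x δ ⊆ Metric.closedBall a (2 * r) := by
      intro y hy
      rw [Metric.mem_closedBall] at hy ⊢
      rw [Metric.mem_ball] at hx
      have := dist_triangle y x a
      linarith
    have hsubΩ : Metric.closedBall x δ ⊆ Ω := by
      refine (hsub.trans (Metric.closedBall_subset_closedBall ?_)).trans hball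
      linarith
    have hϕt : IsTest Ω ϕ :=
      ⟨hϕcd, (isCompact_closedBall x δ).of_isClosed_subset (isClosed_tsupport _) hϕts,
        hϕts.trans hsubΩ⟩
    have hfd : ∀ y w, fderiv ℝ ϕ y w = -((fderiv ℝ p (x - y) w : ℝ) : ℂ) := by
      intro y w
      have h1 : HasFDerivAt (fun y => x - y) (-(ContinuousLinearMap.id ℝ (Fin n → ℂ))) y :=
        (hasFDerivAt_id y).const_sub x
      have h2 : HasFDerivAt p (fderiv ℝ p (x - y)) (x - y) :=
        (hpcd.differentiable (by simp) _).hasFDerivAt
      have h3 := Complex.ofRealCLM.hasFDerivAt.comp y (h2.comp y h1)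
      have h4 : fderiv ℝ ϕ y = _ := h3.fderiv
      rw [h4]
      simp
    have h0 := hw j ϕ hϕt
    have h1 : ∫ y in Ω, H y * dbar j ϕ y = ∫ y, Ht y * dbar j ϕ y := by
      rw [setIntegral_eq_integral_of_forall_compl_eq_zero]
      · congr 1
        funext y
        by_cases hy : y ∈ Metric.closedBall x δ
        · rw [hHt_eq y (hsub hy)]
        · rw [dbar_eq_zero_of_notMem (fun h => hy (hϕts h)), mul_zero, mul_zero]
      · intro y hy
        rw [dbar_eq_zero_of_notMem (fun h => hy (hϕt.2.2 h)), mul_zero]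
    rw [h1] at h0
    have hint : ∀ w, Integrable fun y => Ht y * ((fderiv ℝ p (x - y) w : ℝ) : ℂ) := by
      intro w
      have hc : Continuous fun y => ((fderiv ℝ p (x - y) w : ℝ) : ℂ) := by
        have := (hpcd.continuous_fderiv (by simp)).clm_apply (continuous_const (y := w))
        exact Complex.continuous_ofReal.comp (this.comp (continuous_const.sub continuous_id))
      exact (hHtc.mul hc).integrable_of_hasCompactSupport hHtcs.mul_right
    have h2 : ∀ y, Ht y * dbar j ϕ y =
        (-1 / 2 : ℂ) * (Ht y * ((fderiv ℝ p (x - y) (Pi.single j 1) : ℝ) : ℂ)) +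
        (-Complex.I / 2) * (Ht y * ((fderiv ℝ p (x - y) (Pi.single j Complex.I) : ℝ) : ℂ)) := by
      intro y
      unfold dbar
      rw [hfd, hfd]
      ring
    simp_rw [h2] at h0
    rw [integral_add ((hint _).const_mul _) ((hint _).const_mul _), integral_const_mul,
      integral_const_mul] at h0
    rw [hder_app, hder_app]
    linear_combination (2 * Complex.I) * h0 +
      (∫ y, Ht y * ((fderiv ℝ p (x - y) (Pi.single j Complex.I) : ℝ) : ℂ)) * Complex.I_sq
  -- complex differentiability of the mollified functions along the line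
  set s := r / (‖v‖ + 1) with hs
  have hv1 : 0 < ‖v‖ + 1 := by positivity
  have hs0 : 0 < s := by positivity
  have hin : ∀ ζ ∈ Metric.ball (0 : ℂ) s, a + ζ • v ∈ Metric.ball a r := by
    intro ζ hζ
    rw [mem_ball_zero_iff] at hζ
    rw [mem_ball_iff_norm, add_sub_cancel_left, norm_smul]
    calc ‖ζ‖ * ‖v‖ ≤ ‖ζ‖ * (‖v‖ + 1) := by gcongr; linarith
      _ < s * (‖v‖ + 1) := by gcongr
      _ = r := by rw [hs]; field_simp
  have hdiff : ∀ k, DifferentiableOn ℂ (fun ζ : ℂ => Hk k (a + ζ • v)) (Metric.ball 0 s) := by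
    intro k ζ hζ
    apply DifferentiableAt.differentiableWithinAt
    rw [differentiableAt_complex_iff_differentiableAt_real]
    have hx := hin ζ hζ
    have h1 : HasFDerivAt (fun ζ : ℂ => a + ζ • v)
        ((ContinuousLinearMap.id ℝ ℂ).smulRight v) ζ := by
      exact ((hasFDerivAt_id (𝕜 := ℝ) ζ).smul_const v).const_add a
    have h2 : HasFDerivAt (Hk k) (fderiv ℝ (Hk k) (a + ζ • v)) (a + ζ • v) :=
      (hder k _).differentiableAt.hasFDerivAt
    have h3 : HasFDerivAt (fun ζ : ℂ => Hk k (a + ζ • v))
        ((fderiv ℝ (Hk k) (a + ζ • v)).comp ((ContinuousLinearMap.id ℝ ℂ).smulRight v)) ζ :=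
      HasFDerivAt.comp ζ (g := Hk k) (f := fun ζ : ℂ => a + ζ • v) h2 h1
    refine ⟨h3.differentiableAt, ?_⟩
    rw [h3.fderiv]
    simp only [ContinuousLinearMap.comp_apply, ContinuousLinearMap.smulRight_apply,
      ContinuousLinearMap.id_apply, one_smul, smul_eq_mul]
    exact complex_lin _ (hCR k _ hx) _ _
  -- uniform convergence
  have hunif : TendstoUniformlyOn (fun k (ζ : ℂ) => Hk k (a + ζ • v))
      (fun ζ => H (a + ζ • v)) Filter.atTop (Metric.ball 0 s) := by
    rw [Metric.tendstoUniformlyOn_iff]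
    intro ε hε
    obtain ⟨δ, hδ0, hδ⟩ := Metric.uniformContinuous_iff.1 hHtu (ε / 2) (by positivity)
    have hlim : Filter.Tendsto (fun k : ℕ => r / ((k : ℝ) + 2)) Filter.atTop (nhds 0) := by
      apply Filter.Tendsto.div_atTop tendsto_const_nhds
      exact Filter.tendsto_atTop_add_const_right _ _ tendsto_natCast_atTop_atTop
    filter_upwards [hlim.eventually (gt_mem_nhds hδ0)] with k hk ζ hζ
    have hx := hin ζ hζ
    have hx2 : a + ζ • v ∈ Metric.closedBall a (2 * r) :=
      Metric.ball_subset_closedBall (Metric.ball_subset_ball (by linarith) hx)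
    rw [← hHt_eq _ hx2, hHk_eq, dist_comm]
    have := (φ k).dist_normed_convolution_le (μ := volume) (x₀ := a + ζ • v) (ε := ε / 2)
      hHtc.aestronglyMeasurable (fun y hy => (hδ (lt_trans hy hk)).le)
    linarith
  have hfin := hunif.tendstoLocallyUniformlyOn.differentiableOn
    (Filter.Eventually.of_forall hdiff) Metric.isOpen_ball
  exact hfin.differentiableAt (Metric.isOpen_ball.mem_nhds (Metric.mem_ball_self hs0))

end Pool.Agent.Helper303.Ho
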