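import Pool.Agent.Helper303.HoForm
import Pool.Agent.Helper303.HoWeyl
import Pool.Agent.Helper303.HoFunc2

open MeasureTheory Set Complex
open scoped Real Topology ContDiff ComplexConjugate

namespace Pool.Agent.Helper303.Ho

open Pool.Agent.Helper303.Db

variable {m : ℕ}

/-- slice point `(t, s, w, 0, …, 0)` -/
def pt (t s w : ℂ) : Fin (m + 3) → ℂ :=
  Fin.cons t (Fin.cons s (Fin.cons w (0 : Fin m → ℂ) : Fin (m + 1) → ℂ) : Fin (m + 2) → ℂ)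

lemma pt_zero (t s w : ℂ) : pt (m := m) t s w 0 = t := rfl

lemma pt_one (t s w : ℂ) : pt (m := m) t s w 1 = s := rfl

lemma pt_two (t s w : ℂ) : pt (m := m) t s w (Fin.succ (Fin.succ 0)) = w := rfl

lemma pt_sss (t s w : ℂ) (j : Fin m) : pt (m := m) t s w j.succ.succ.succ = 0 := rfl

lemma ext3 {x y : Fin (m + 3) → ℂ} (h0 : x 0 = y 0) (h1 : x 1 = y 1)
    (h2 : x (Fin.succ (Fin.succ 0)) = y (Fin.succ (Fin.succ 0)))
    (h3 : ∀ j : Fin m, x j.succ.succ.succ = y j.succ.succ.succ) : x = y := by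
  funext j
  refine Fin.cases h0 (fun j => Fin.cases h1 (fun j => Fin.cases h2 (fun j => h3 j) j) j) j

lemma tail_pt (t s w : ℂ) : tail (pt (m := m) t s w) = normSq w := by
  unfold tail
  rw [Fin.sum_univ_succ]
  have : ∑ i : Fin m, normSq (pt (m := m) t s w i.succ.succ.succ) = 0 := by
    apply Finset.sum_eq_zero
    intro i _
    rw [pt_sss]
    simp
  rw [this, pt_two, add_zero]

lemma SH_pt (t s w : ℂ) : SH (pt (m := m) t s w) =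
    normSq (t ^ 4 - s ^ 4) + normSq t ^ 9 + normSq s ^ 9 + normSq w := by
  unfold SH
  rw [tail_pt, pt_zero, pt_one]

lemma pt_add0 (t s w ζ : ℂ) : pt (m := m) t s w + ζ • pt 1 0 0 = pt (t + ζ) s w := by
  apply ext3
  · simp [pt_zero]
  · simp [pt_one]
  · rw [Pi.add_apply, Pi.smul_apply, pt_two, pt_two, pt_two, smul_zero, add_zero]
  · intro j
    rw [Pi.add_apply, Pi.smul_apply, pt_sss, pt_sss, pt_sss, smul_zero, add_zero]

lemma pt_add1 (t s w ζ : ℂ) : pt (m := m) t s w + ζ • pt 0 1 0 = pt t (s + ζ) w := by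
  apply ext3
  · simp [pt_zero]
  · simp [pt_one]
  · rw [Pi.add_apply, Pi.smul_apply, pt_two, pt_two, pt_two, smul_zero, add_zero]
  · intro j
    rw [Pi.add_apply, Pi.smul_apply, pt_sss, pt_sss, pt_sss, smul_zero, add_zero]

lemma pt_add2 (t s w ζ : ℂ) : pt (m := m) t s w + ζ • pt 0 0 1 = pt t s (w + ζ) := by
  apply ext3
  · simp [pt_zero]
  · simp [pt_one]
  · rw [Pi.add_apply, Pi.smul_apply, pt_two, pt_two, pt_two, smul_eq_mul, mul_one]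
  · intro j
    rw [Pi.add_apply, Pi.smul_apply, pt_sss, pt_sss, pt_sss, smul_zero, add_zero]

lemma cont_pt : Continuous fun x : ℂ × ℂ × ℂ => pt (m := m) x.1 x.2.1 x.2.2 := by
  apply continuous_pi
  intro j
  refine Fin.cases ?_ (fun j => Fin.cases ?_ (fun j => Fin.cases ?_ (fun j => ?_) j) j) j
  · exact continuous_fst
  · exact continuous_fst.comp continuous_snd
  · exact continuous_snd.comp continuous_snd
  · exact continuous_const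

/-- the functional -/
noncomputable def Lam (ρ r : ℝ) (κ : ℕ) (h : ℂ → ℂ → ℂ → ℂ) : ℂ :=
  ∫ θ in (0 : ℝ)..2 * π, (circleMap 0 ρ θ ^ 2)⁻¹ * ∫ φ in (0 : ℝ)..2 * π,
      (circleMap 0 r φ ^ κ)⁻¹ * A4 (fun t s => h t s (circleMap 0 r φ)) (circleMap 0 ρ θ)

/-- restriction to slices -/
def res (H : (Fin (m + 3) → ℂ) → ℂ) (t s w : ℂ) : ℂ := H (pt t s w)

lemma mem1 {t s w : ℂ} (ht : ‖t‖ ≤ 1 / 4) (hs : ‖s‖ ≤ 1 / 4) (hw : ‖w‖ ≤ 1 / 2) :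
    pt (m := m) t s w ∈ OmH m := by
  rw [mem_OmH, SH_pt]
  have h1 : ‖t ^ 4 - s ^ 4‖ ≤ 1 / 128 := by
    refine (norm_sub_le _ _).trans ?_
    rw [norm_pow, norm_pow]
    have h1 : ‖t‖ ^ 4 ≤ (1 / 4) ^ 4 := by gcongr
    have h2 : ‖s‖ ^ 4 ≤ (1 / 4) ^ 4 := by gcongr
    norm_num at h1 h2 ⊢
    linarith
  have h2 : normSq (t ^ 4 - s ^ 4) ≤ 1 / 4 := by
    rw [normSq_eq_norm_sq]
    calc ‖t ^ 4 - s ^ 4‖ ^ 2 ≤ (1 / 128) ^ 2 := by gcongr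
      _ ≤ 1 / 4 := by norm_num
  have h3 : ∀ z : ℂ, ‖z‖ ≤ 1 / 4 → normSq z ^ 9 ≤ 1 / 8 := by
    intro z hz
    rw [normSq_eq_norm_sq]
    calc (‖z‖ ^ 2) ^ 9 ≤ ((1 / 4) ^ 2) ^ 9 := by gcongr
      _ ≤ 1 / 8 := by norm_num
  have h4 := h3 t ht
  have h5 := h3 s hs
  have h6 : normSq w ≤ 1 / 4 := by
    rw [normSq_eq_norm_sq]
    calc ‖w‖ ^ 2 ≤ (1 / 2) ^ 2 := by gcongr
      _ = 1 / 4 := by norm_num
  linarith

lemma mem2 {t s w : ℂ} {ρ r : ℝ} (hρr : 2 * ρ ^ 18 + r ^ 2 < 1) (hst : s ^ 4 = t ^ 4)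
    (ht : ‖t‖ = ρ) (hs : ‖s‖ = ρ) (hw : ‖w‖ ≤ r) : pt (m := m) t s w ∈ OmH m := by
  rw [mem_OmH, SH_pt, hst, sub_self, map_zero, normSq_eq_norm_sq, normSq_eq_norm_sq,
    normSq_eq_norm_sq, ht, hs]
  have : ‖w‖ ^ 2 ≤ r ^ 2 := by gcongr
  have e : (ρ ^ 2) ^ 9 = ρ ^ 18 := by ring
  linarith

lemma mem2' {t w : ℂ} {ρ r : ℝ} (hρr : 2 * ρ ^ 18 + r ^ 2 < 1)
    (ht : ‖t‖ = ρ) (hw : ‖w‖ ≤ r) : pt (m := m) t t w ∈ OmH m ∧ pt (m := m) t (I * t) w ∈ OmH m ∧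
      pt (m := m) t (-t) w ∈ OmH m ∧ pt (m := m) t (-(I * t)) w ∈ OmH m := by
  have hI : (I * t) ^ 4 = t ^ 4 := by
    rw [mul_pow]
    have : I ^ 4 = 1 := I_pow_four
    rw [this, one_mul]
  refine ⟨mem2 hρr rfl ht ht hw, mem2 hρr hI ht ?_ hw, mem2 hρr ?_ ht ?_ hw,
    mem2 hρr ?_ ht ?_ hw⟩
  · rw [norm_mul, norm_I, one_mul, ht]
  · ring
  · rw [norm_neg, ht]
  · rw [← hI]
    ring
  · rw [norm_neg, norm_mul, norm_I, one_mul, ht]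

/-- the functional annihilates continuous weakly holomorphic functions on `Ω` -/
theorem vanish {H : (Fin (m + 3) → ℂ) → ℂ} (hH : ContinuousOn H (OmH m))
    (hw : ∀ j : Fin (m + 3), ∀ φ, IsTest (OmH m) φ → ∫ x in OmH m, H x * dbar j φ x = 0)
    {ρ r : ℝ} (hρ : 0 < ρ) (hρ4 : ρ < 1 / 4) (hr : 1 / 2 ≤ r) (hρr : 2 * ρ ^ 18 + r ^ 2 < 1)
    (κ : ℕ) : Lam ρ r κ (res H) = 0 := by
  refine func (S := {x : ℂ × ℂ × ℂ | pt (m := m) x.1 x.2.1 x.2.2 ∈ OmH m}) (h := res H)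
    (ρ' := 1 / 4) (r0 := 1 / 2) ?_ ?_ ?_ ?_ hρ hρ4 (by norm_num) hr ?_ ?_
  · exact hH.comp cont_pt.continuousOn (fun x hx => hx)
  · intro t s w hx
    have h1 := weyl_line isOpen_OmH hH hw hx (pt 1 0 0)
    have h2 : DifferentiableAt ℂ (fun t' : ℂ => H (pt t s w + (t' - t) • pt 1 0 0)) t := by
      have h3 : DifferentiableAt ℂ (fun ζ : ℂ => H (pt t s w + ζ • pt 1 0 0)) (t - t) := by
        rw [sub_self]
        exact h1
      exact DifferentiableAt.comp t (g := fun ζ : ℂ => H (pt t s w + ζ • pt 1 0 0))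
        (f := fun t' => t' - t) h3 (differentiableAt_id.sub_const t)
    refine h2.congr_of_eventuallyEq (Filter.Eventually.of_forall fun t' => ?_)
    simp only [res]
    rw [pt_add0]
    congr 2
    ring
  · intro t s w hx
    have h1 := weyl_line isOpen_OmH hH hw hx (pt 0 1 0)
    have h2 : DifferentiableAt ℂ (fun s' : ℂ => H (pt t s w + (s' - s) • pt 0 1 0)) s := by
      have h3 : DifferentiableAt ℂ (fun ζ : ℂ => H (pt t s w + ζ • pt 0 1 0)) (s - s) := by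
        rw [sub_self]
        exact h1
      exact DifferentiableAt.comp s (g := fun ζ : ℂ => H (pt t s w + ζ • pt 0 1 0))
        (f := fun s' => s' - s) h3 (differentiableAt_id.sub_const s)
    refine h2.congr_of_eventuallyEq (Filter.Eventually.of_forall fun s' => ?_)
    simp only [res]
    rw [pt_add1]
    congr 2
    ring
  · intro t s w hx
    have h1 := weyl_line isOpen_OmH hH hw hx (pt 0 0 1)
    have h2 : DifferentiableAt ℂ (fun w' : ℂ => H (pt t s w + (w' - w) • pt 0 0 1)) w := by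
      have h3 : DifferentiableAt ℂ (fun ζ : ℂ => H (pt t s w + ζ • pt 0 0 1)) (w - w) := by
        rw [sub_self]
        exact h1
      exact DifferentiableAt.comp w (g := fun ζ : ℂ => H (pt t s w + ζ • pt 0 0 1))
        (f := fun w' => w' - w) h3 (differentiableAt_id.sub_const w)
    refine h2.congr_of_eventuallyEq (Filter.Eventually.of_forall fun w' => ?_)
    simp only [res]
    rw [pt_add2]
    congr 2
    ring
  · intro t s w ht hs hw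
    exact mem1 ht hs hw
  · intro t w ht hw
    exact mem2' hρr ht hw

lemma norm_A4 {g : ℂ → ℂ → ℂ} {t : ℂ} {B : ℝ} (h1 : ‖g t t‖ ≤ B) (h2 : ‖g t (I * t)‖ ≤ B)
    (h3 : ‖g t (-t)‖ ≤ B) (h4 : ‖g t (-(I * t))‖ ≤ B) : ‖A4 g t‖ ≤ 4 * B := by
  unfold A4
  have e1 := norm_sub_le (g t t + I * g t (I * t) - g t (-t)) (I * g t (-(I * t)))
  have e2 := norm_sub_le (g t t + I * g t (I * t)) (g t (-t))
  have e3 := norm_add_le (g t t) (I * g t (I * t))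
  rw [norm_mul, norm_I, one_mul] at e1 e3
  linarith

/-- bound of the functional -/
lemma Lam_bound {u : (Fin (m + 3) → ℂ) → ℂ} {B : ℝ} (hu : ∀ x ∈ OmH m, ‖u x‖ ≤ B)
    {ρ r : ℝ} (hρ : 0 < ρ) (hr : 1 / 2 ≤ r) (hρr : 2 * ρ ^ 18 + r ^ 2 < 1) (κ : ℕ) :
    ‖Lam ρ r κ (res u)‖ ≤ (2 * π) ^ 2 * (4 * B / (ρ ^ 2 * r ^ κ)) := by
  have hr0 : 0 < r := by linarith
  have hpi : (0 : ℝ) ≤ 2 * π := by positivity
  have h1 : ∀ θ φ : ℝ, ‖(circleMap 0 r φ ^ κ)⁻¹ *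
      A4 (fun t s => res u t s (circleMap 0 r φ)) (circleMap 0 ρ θ)‖ ≤ (r ^ κ)⁻¹ * (4 * B) := by
    intro θ φ
    rw [norm_mul, norm_inv, norm_pow, norm_cm r hr0]
    gcongr
    obtain ⟨a1, a2, a3, a4⟩ := mem2' (m := m) hρr (norm_cm ρ hρ θ) (norm_cm r hr0 φ).le
    exact norm_A4 (hu _ a1) (hu _ a2) (hu _ a3) (hu _ a4)
  have h2 : ∀ θ : ℝ, ‖∫ φ in (0 : ℝ)..2 * π, (circleMap 0 r φ ^ κ)⁻¹ *
      A4 (fun t s => res u t s (circleMap 0 r φ)) (circleMap 0 ρ θ)‖ ≤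
      (r ^ κ)⁻¹ * (4 * B) * (2 * π) := by
    intro θ
    have := intervalIntegral.norm_integral_le_of_norm_le_const (a := 0) (b := 2 * π)
      (f := fun φ : ℝ => (circleMap 0 r φ ^ κ)⁻¹ *
        A4 (fun t s => res u t s (circleMap 0 r φ)) (circleMap 0 ρ θ))
      (C := (r ^ κ)⁻¹ * (4 * B)) (fun φ _ => h1 θ φ)
    rwa [sub_zero, abs_of_nonneg hpi] at this
  have h3 : ∀ θ : ℝ, ‖(circleMap 0 ρ θ ^ 2)⁻¹ * ∫ φ in (0 : ℝ)..2 * π, (circleMap 0 r φ ^ κ)⁻¹ *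
      A4 (fun t s => res u t s (circleMap 0 r φ)) (circleMap 0 ρ θ)‖ ≤
      (ρ ^ 2)⁻¹ * ((r ^ κ)⁻¹ * (4 * B) * (2 * π)) := by
    intro θ
    rw [norm_mul, norm_inv, norm_pow, norm_cm ρ hρ]
    gcongr
    exact h2 θ
  have h4 := intervalIntegral.norm_integral_le_of_norm_le_const (a := 0) (b := 2 * π)
      (f := fun θ : ℝ => (circleMap 0 ρ θ ^ 2)⁻¹ * ∫ φ in (0 : ℝ)..2 * π, (circleMap 0 r φ ^ κ)⁻¹ *
      A4 (fun t s => res u t s (circleMap 0 r φ)) (circleMap 0 ρ θ))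
      (C := (ρ ^ 2)⁻¹ * ((r ^ κ)⁻¹ * (4 * B) * (2 * π))) (fun θ _ => h3 θ)
  rw [sub_zero, abs_of_nonneg hpi] at h4
  refine h4.trans (le_of_eq ?_)
  field_simp

/-- values of the functional on the model function -/
lemma Lam_eval {ρ r δ : ℝ} (hρ : 0 < ρ) (hr : 0 < r) (κ : ℕ) :
    Lam ρ r κ (res (uH (m := m) κ δ)) = (2 * π) ^ 2 * (4 * ρ ^ 2 / (ρ ^ 2 + δ ^ 2) : ℝ) := by
  have hphi : ∀ (t c : ℂ), ‖t‖ = ρ → c * conj c = 1 → c * phi δ (c * t) = conj t * ((ρ ^ 2 + δ ^ 2 : ℝ) : ℂ)⁻¹ := by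
    intro t c ht hc
    unfold phi
    have e : c * t * conj (c * t) + (δ : ℂ) ^ 2 = ((ρ ^ 2 + δ ^ 2 : ℝ) : ℂ) := by
      have e1 : t * conj t = ((ρ ^ 2 : ℝ) : ℂ) := by
        rw [mul_conj, normSq_eq_norm_sq, ht]
      rw [map_mul]
      calc c * t * (conj c * conj t) + (δ : ℂ) ^ 2 = (c * conj c) * (t * conj t) + (δ : ℂ) ^ 2 := by
            ring
        _ = _ := by rw [hc, e1]; push_cast; ring
    rw [e, map_mul]
    calc c * (conj c * conj t * ((ρ ^ 2 + δ ^ 2 : ℝ) : ℂ)⁻¹) =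
        (c * conj c) * (conj t * ((ρ ^ 2 + δ ^ 2 : ℝ) : ℂ)⁻¹) := by ring
      _ = _ := by rw [hc, one_mul]
  have h1 : ∀ θ φ : ℝ, (circleMap 0 r φ ^ κ)⁻¹ *
      A4 (fun t s => res (uH (m := m) κ δ) t s (circleMap 0 r φ)) (circleMap 0 ρ θ) =
      circleMap 0 ρ θ ^ 2 * (4 * ρ ^ 2 / (ρ ^ 2 + δ ^ 2) : ℝ) := by
    intro θ φ
    have hw := cm_ne r hr φ
    have ht := norm_cm ρ hρ θ
    set w := circleMap 0 r φ
    set t := circleMap 0 ρ θ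
    have e1 : t * conj t = ((ρ ^ 2 : ℝ) : ℂ) := by
      rw [mul_conj, normSq_eq_norm_sq, ht]
    have p1 := hphi t 1 ht (by simp)
    have p2 := hphi t I ht (by simp)
    have p3 := hphi t (-1) ht (by simp)
    have p4 := hphi t (-I) ht (by simp)
    rw [one_mul, one_mul] at p1
    have q3 : (-1 : ℂ) * t = -t := by ring
    have q4 : (-I) * t = -(I * t) := by ring
    rw [q3] at p3
    rw [q4] at p4
    have hres : ∀ s, res (uH (m := m) κ δ) t s w = w ^ κ * t ^ 3 * phi δ s := by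
      intro s
      rfl
    unfold A4
    simp only [hres]
    have e2 : w ^ κ * t ^ 3 * phi δ t + I * (w ^ κ * t ^ 3 * phi δ (I * t)) -
        w ^ κ * t ^ 3 * phi δ (-t) - I * (w ^ κ * t ^ 3 * phi δ (-(I * t))) =
        w ^ κ * t ^ 3 * (phi δ t + I * phi δ (I * t) + (-1) * phi δ (-t) +
          (-I) * phi δ (-(I * t))) := by ring
    rw [e2, p1, p2, p3, p4]
    have hwk : w ^ κ ≠ 0 := pow_ne_zero _ hw
    calc (w ^ κ)⁻¹ * (w ^ κ * t ^ 3 * (conj t * ((ρ ^ 2 + δ ^ 2 : ℝ) : ℂ)⁻¹ +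
          conj t * ((ρ ^ 2 + δ ^ 2 : ℝ) : ℂ)⁻¹ + conj t * ((ρ ^ 2 + δ ^ 2 : ℝ) : ℂ)⁻¹ +
          conj t * ((ρ ^ 2 + δ ^ 2 : ℝ) : ℂ)⁻¹)) =
        ((w ^ κ)⁻¹ * w ^ κ) * (t ^ 2 * (4 * (t * conj t)) * ((ρ ^ 2 + δ ^ 2 : ℝ) : ℂ)⁻¹) := by ring
      _ = t ^ 2 * (4 * ρ ^ 2 / (ρ ^ 2 + δ ^ 2) : ℝ) := by
        rw [inv_mul_cancel₀ hwk, e1]
        push_cast
        ring
  unfold Lam
  simp_rw [h1]
  have h2 : ∀ θ : ℝ, (circleMap 0 ρ θ ^ 2)⁻¹ * ∫ φ in (0 : ℝ)..2 * π,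
      circleMap 0 ρ θ ^ 2 * ((4 * ρ ^ 2 / (ρ ^ 2 + δ ^ 2) : ℝ) : ℂ) =
      2 * π * ((4 * ρ ^ 2 / (ρ ^ 2 + δ ^ 2) : ℝ) : ℂ) := by
    intro θ
    have hne : circleMap 0 ρ θ ^ 2 ≠ 0 := pow_ne_zero _ (cm_ne ρ hρ θ)
    rw [intervalIntegral.integral_const, sub_zero, real_smul]
    generalize ((4 * ρ ^ 2 / (ρ ^ 2 + δ ^ 2) : ℝ) : ℂ) = c
    push_cast
    calc (circleMap 0 ρ θ ^ 2)⁻¹ * (2 * π * (circleMap 0 ρ θ ^ 2 * c)) =
        ((circleMap 0 ρ θ ^ 2)⁻¹ * circleMap 0 ρ θ ^ 2) * (2 * π * c) := by ring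
      _ = 2 * π * c := by rw [inv_mul_cancel₀ hne, one_mul]
  simp_rw [h2]
  rw [intervalIntegral.integral_const, sub_zero, real_smul]
  push_cast
  ring

end Pool.Agent.Helper303.Ho
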