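import Mathlib

set_option autoImplicit false
open Filter Topology

namespace Pool.Agent.Helper303

abbrev NetIdx := Σ n : ℕ, Fin (16 * 2 ^ n) × Fin (16 * 2 ^ n)

noncomputable def netC (i : NetIdx) : ℂ :=
  ⟨-8 + (i.2.1 : ℕ) / 2 ^ i.1, -8 + (i.2.2 : ℕ) / 2 ^ i.1⟩

noncomputable def netG (i : NetIdx) : ℝ := (1 / 8 : ℝ) ^ i.1

lemma netG_pos (i : NetIdx) : 0 < netG i := by rw [netG]; positivity

lemma summable_netG : Summable netG := by
  rw [summable_sigma_of_nonneg fun i => (netG_pos i).le]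
  constructor
  · intro n
    exact (hasSum_fintype _).summable
  · have : (fun n : ℕ => ∑' y : Fin (16 * 2 ^ n) × Fin (16 * 2 ^ n), netG ⟨n, y⟩)
        = fun n : ℕ => 256 * (1 / 2 : ℝ) ^ n := by
      funext n
      rw [tsum_fintype]
      simp only [netG, Finset.sum_const, Finset.card_univ, Fintype.card_prod, Fintype.card_fin,
        nsmul_eq_mul]
      push_cast
      have h1 : (16 * (2:ℝ) ^ n * (16 * 2 ^ n)) * (1 / 8) ^ n = 256 * (2 * 2 * (1 / 8)) ^ n := by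
        rw [mul_pow, mul_pow]; ring
      rw [h1]
      norm_num
    rw [this]
    exact (summable_geometric_of_lt_one (by norm_num) (by norm_num)).mul_left _

lemma net_bound (i : NetIdx) : |(netC i).re| ≤ 8 ∧ |(netC i).im| ≤ 8 := by
  have h2 : (0:ℝ) < 2 ^ i.1 := by positivity
  have h1 : ∀ k : Fin (16 * 2 ^ i.1), |(-8 + (k : ℕ) / 2 ^ i.1 : ℝ)| ≤ 8 := by
    intro k
    have hk : ((k : ℕ) : ℝ) ≤ 16 * 2 ^ i.1 := by exact_mod_cast k.2.le
    have h3 : ((k : ℕ) : ℝ) / 2 ^ i.1 ≤ 16 := by rw [div_le_iff₀ h2]; exact hk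
    have h4 : (0 : ℝ) ≤ ((k : ℕ) : ℝ) / 2 ^ i.1 := by positivity
    rw [abs_le]; constructor <;> linarith
  exact ⟨h1 _, h1 _⟩

lemma net_dense {ζ : ℂ} (h1 : |ζ.re| ≤ 7) (h2 : |ζ.im| ≤ 7) {ε : ℝ} (hε : 0 < ε) :
    ∃ i : NetIdx, netG i ≤ ε ∧ ‖ζ - netC i‖ ^ 4 ≤ ε * netG i := by
  obtain ⟨n, hn⟩ := exists_pow_lt_of_lt_one (show (0:ℝ) < ε / 16 by positivity)
    (show (1 / 2 : ℝ) < 1 by norm_num)
  have hpn : (0:ℝ) < 2 ^ n := by positivity
  have key : ∀ t : ℝ, |t| ≤ 7 → ∃ k : Fin (16 * 2 ^ n), |t - (-8 + (k : ℕ) / 2 ^ n)| ≤ 1 / 2 ^ n := by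
    intro t ht
    have ht1 := (abs_le.1 ht).1
    have ht2 := (abs_le.1 ht).2
    have h0 : 0 ≤ (t + 8) * 2 ^ n := by
      have : 0 ≤ t + 8 := by linarith
      positivity
    have hlt : ⌊(t + 8) * 2 ^ n⌋₊ < 16 * 2 ^ n := by
      rw [Nat.floor_lt h0]
      push_cast
      nlinarith
    refine ⟨⟨_, hlt⟩, ?_⟩
    have h3 := Nat.floor_le h0
    have h4 := Nat.lt_floor_add_one ((t + 8) * 2 ^ n)
    set m : ℝ := (⌊(t + 8) * 2 ^ n⌋₊ : ℝ) with hm
    have h5 : t - (-8 + m / 2 ^ n) = ((t + 8) * 2 ^ n - m) / 2 ^ n := by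
      field_simp; ring
    rw [h5, abs_div, abs_of_pos hpn]
    gcongr
    rw [abs_le]; constructor <;> linarith
  obtain ⟨k, hk⟩ := key ζ.re h1
  obtain ⟨l, hl⟩ := key ζ.im h2
  refine ⟨⟨n, k, l⟩, ?_, ?_⟩
  · rw [netG]
    calc (1 / 8 : ℝ) ^ n ≤ (1 / 2 : ℝ) ^ n := by gcongr; norm_num
      _ ≤ ε := by linarith
  · have h3 : ‖ζ - netC ⟨n, k, l⟩‖ ≤ 2 * (1 / 2) ^ n := by
      refine (Complex.norm_le_abs_re_add_abs_im _).trans ?_
      have e1 : |(ζ - netC ⟨n, k, l⟩).re| ≤ 1 / 2 ^ n := hk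
      have e2 : |(ζ - netC ⟨n, k, l⟩).im| ≤ 1 / 2 ^ n := hl
      have e3 : (1 / 2 : ℝ) ^ n = 1 / 2 ^ n := by rw [div_pow, one_pow]
      rw [e3]; linarith
    calc ‖ζ - netC ⟨n, k, l⟩‖ ^ 4 ≤ (2 * (1 / 2) ^ n) ^ 4 := by gcongr
      _ = (16 * (1 / 2) ^ n) * (1 / 8) ^ n := by
          rw [mul_pow, ← pow_mul, mul_assoc, ← mul_pow, mul_comm n 4, pow_mul]; norm_num
      _ ≤ ε * (1 / 8) ^ n := by
          gcongr
          linarith
      _ = ε * netG ⟨n, k, l⟩ := rfl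

/-- The net of centres together with summable weights. -/
theorem exists_net {σ : ℝ} (hσ : 0 < σ) :
    ∃ (c : ℕ → ℂ) (γ : ℕ → ℝ), (∀ j, 0 < γ j) ∧ (∀ J : Finset ℕ, ∑ j ∈ J, γ j ≤ σ) ∧
      (∀ j, |(c j).re| ≤ 8 ∧ |(c j).im| ≤ 8) ∧
      ∀ ζ : ℂ, |ζ.re| ≤ 7 → |ζ.im| ≤ 7 → ∀ ε : ℝ, 0 < ε →
        ∃ j, γ j ≤ ε ∧ ‖ζ - c j‖ ^ 4 ≤ ε * γ j := by
  have hinf : Infinite NetIdx := by
    refine Infinite.of_injective (fun n : ℕ => (⟨n, ⟨⟨0, by positivity⟩, ⟨0, by positivity⟩⟩⟩ : NetIdx)) ?_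
    intro a b hab
    exact congrArg Sigma.fst hab
  obtain ⟨hden⟩ := nonempty_denumerable NetIdx
  let e : ℕ ≃ NetIdx := (Denumerable.eqv NetIdx).symm
  have hsum : Summable (netG ∘ e) := (e.summable_iff).2 summable_netG
  set T : ℝ := ∑' j, netG (e j) with hT
  have hT0 : 0 ≤ T := tsum_nonneg fun j => (netG_pos _).le
  set s : ℝ := σ / (T + 1) with hs
  have hs0 : 0 < s := by positivity
  refine ⟨fun j => netC (e j), fun j => s * netG (e j), fun j => mul_pos hs0 (netG_pos _), ?_,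
    fun j => net_bound _, ?_⟩
  · intro J
    rw [← Finset.mul_sum]
    have h1 : ∑ j ∈ J, netG (e j) ≤ T := hsum.sum_le_tsum J fun j _ => (netG_pos _).le
    calc s * ∑ j ∈ J, netG (e j) ≤ s * (T + 1) := by gcongr; linarith
      _ = σ := by rw [hs]; field_simp
  · intro ζ h1 h2 ε hε
    obtain ⟨i, hi1, hi2⟩ := net_dense h1 h2 (show 0 < min (ε / s) (ε * s) by positivity)
    refine ⟨e.symm i, ?_, ?_⟩
    · simp only [Equiv.apply_symm_apply]
      have : netG i ≤ ε / s := hi1.trans (min_le_left _ _)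
      rw [le_div_iff₀ hs0] at this
      linarith
    · simp only [Equiv.apply_symm_apply]
      refine hi2.trans ?_
      calc min (ε / s) (ε * s) * netG i ≤ (ε * s) * netG i := by
            gcongr
            · exact (netG_pos i).le
            · exact min_le_right _ _
        _ = ε * (s * netG i) := by ring

end Pool.Agent.Helper303
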