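import Pool.Agent.Helper303.Descend
import Pool.Agent.Helper303.Net

set_option autoImplicit false
open Filter Topology Asymptotics Metric

namespace Pool.Agent.Helper303

noncomputable def e3 : ℝ := 1 / 10 ^ 8
noncomputable def Mc : ℝ := Real.exp 12
noncomputable def Cc : ℝ := 3 * Mc ^ 2
noncomputable def C1c : ℝ := (Cc + 1) * (Mc + 2)
noncomputable def Csc : ℝ := C1c + 2 * Cc * Mc
noncomputable def sigma : ℝ := 1 / (200 * Csc)
noncomputable def rj (g : ℝ) : ℝ := Real.exp (-2 / g) / 3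
noncomputable def Pj (g : ℝ) : ℝ :=
  g * (C1c - Real.log (rj g)) + g * (1 / rj g + Cc) * Mc
noncomputable def aj (g : ℝ) (j : ℕ) : ℝ := e3 * (1 / 2) ^ j / (2 * (1 + Pj g))

lemma e3_pos : 0 < e3 := by rw [e3]; norm_num
lemma Mc_ge : 13 ≤ Mc := by
  have := Real.add_one_le_exp (12:ℝ)
  rw [Mc]; linarith
lemma Mc_pos : 0 < Mc := by linarith [Mc_ge]
lemma Cc_pos : 0 < Cc := by have := Mc_pos; rw [Cc]; positivity
lemma C1c_pos : 0 < C1c := by have := Mc_pos; have := Cc_pos; rw [C1c]; positivity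
lemma Csc_ge : 1 ≤ Csc := by
  have h1 := Mc_ge
  have h2 := C1c_pos
  have h3 : 1 ≤ Cc := by rw [Cc]; nlinarith
  rw [Csc]; nlinarith
lemma sigma_pos : 0 < sigma := by have := Csc_ge; rw [sigma]; positivity
lemma sigma_le : sigma ≤ 1 := by
  have := Csc_ge
  rw [sigma, div_le_one (by positivity)]; linarith

lemma rj_pos (g : ℝ) : 0 < rj g := by rw [rj]; positivity
lemma rj_le {g : ℝ} (hg : 0 < g) (hg1 : g ≤ 1) : rj g ≤ 1 / 8 := by
  have h1 : Real.exp (-2 / g) ≤ 1 / 3 := by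
    have h2 : -2 / g ≤ -2 := by
      rw [div_le_iff₀ hg]; linarith
    calc Real.exp (-2 / g) ≤ Real.exp (-2) := Real.exp_le_exp.2 h2
      _ = (Real.exp 2)⁻¹ := Real.exp_neg 2
      _ ≤ 1 / 3 := by
          rw [one_div]
          apply inv_anti₀ (by norm_num)
          have := Real.add_one_le_exp (2:ℝ)
          linarith
  rw [rj]; linarith
lemma log_rj (g : ℝ) : Real.log (rj g) = -2 / g - Real.log 3 := by
  rw [rj, Real.log_div (Real.exp_pos _).ne' (by norm_num), Real.log_exp]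
lemma Pj_nonneg {g : ℝ} (hg : 0 < g) : 0 ≤ Pj g := by
  have h1 := rj_pos g
  have h2 := Cc_pos
  have h3 := C1c_pos
  have h4 := Mc_pos
  have h5 : 0 ≤ -Real.log (rj g) := by
    rw [log_rj]
    have : 0 < Real.log 3 := Real.log_pos (by norm_num)
    have : -2 / g = -(2 / g) := by ring
    have : 0 < 2 / g := by positivity
    linarith
  have h6 : 0 ≤ C1c - Real.log (rj g) := by linarith
  rw [Pj]; positivity
lemma aj_pos {g : ℝ} (hg : 0 < g) (j : ℕ) : 0 < aj g j := by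
  have := Pj_nonneg hg
  have := e3_pos
  rw [aj]; positivity
lemma aj_Pj {g : ℝ} (hg : 0 < g) (j : ℕ) : 2 * aj g j * (1 + Pj g) = e3 * (1 / 2) ^ j := by
  have := Pj_nonneg hg
  rw [aj]; field_simp
lemma aj_le {g : ℝ} (hg : 0 < g) (j : ℕ) : aj g j ≤ e3 * (1 / 2) ^ j := by
  have h1 := Pj_nonneg hg
  have h2 := aj_Pj hg j
  have h3 := aj_pos hg j
  nlinarith

lemma wirt_norm_right (α β : ℂ) : ‖β‖ ≤ ‖wirt α β‖ := by
  have h1 := (wirt α β).le_opNorm 1
  have h2 := (wirt α β).le_opNorm Complex.I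
  simp only [wirt_apply, map_one, mul_one, norm_one, Complex.conj_I, Complex.norm_I] at h1 h2
  have h3 : 2 * β = (α + β) + Complex.I * (α * Complex.I + β * -Complex.I) := by
    ring_nf; rw [Complex.I_sq]; ring
  have h4 : ‖2 * β‖ ≤ ‖wirt α β‖ + ‖wirt α β‖ := by
    rw [h3]
    refine (norm_add_le _ _).trans ?_
    rw [norm_mul, Complex.norm_I, one_mul]
    exact add_le_add h1 h2
  rw [norm_mul, Complex.norm_two] at h4
  linarith

lemma wirt_norm_left (α β : ℂ) : ‖α‖ ≤ ‖wirt α β‖ := by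
  have h1 := (wirt α β).le_opNorm 1
  have h2 := (wirt α β).le_opNorm Complex.I
  simp only [wirt_apply, map_one, mul_one, norm_one, Complex.conj_I, Complex.norm_I] at h1 h2
  have h3 : 2 * α = (α + β) - Complex.I * (α * Complex.I + β * -Complex.I) := by
    ring_nf; rw [Complex.I_sq]; ring
  have h4 : ‖2 * α‖ ≤ ‖wirt α β‖ + ‖wirt α β‖ := by
    rw [h3]
    refine (norm_sub_le _ _).trans ?_
    rw [norm_mul, Complex.norm_I, one_mul]
    exact add_le_add h1 h2
  rw [norm_mul, Complex.norm_two] at h4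
  linarith

/-- Test function attached to a multiplicative potential. -/
noncomputable def tf (F : ℂ → ℝ) (z : ℂ) : ℝ :=
  chi z * (Real.exp (-(Complex.log z).im) * F (Complex.log z))

/-- One hole together with all bounds needed later. -/
lemma hole {r : ℝ} (hr : 0 < r) (hr8 : r ≤ 1 / 8) (c : ℂ) :
    ∃ (F : ℂ → ℝ) (B : ℝ),
      (∀ x, F (x + 2 * Real.pi * Complex.I) = Real.exp (2 * Real.pi) * F x) ∧
      (∀ x, HasFDerivAt F (Lam (uk r (x - c))) x) ∧
      ContDiff ℝ ((⊤ : ℕ∞) : WithTop ℕ∞) (tf F) ∧ HasCompactSupport (tf F) ∧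
      0 ≤ B ∧ (∀ z, |tf F z| ≤ B) ∧
      (∀ x ∈ closedBall (0:ℂ) 20, |F x| ≤ B ∧ ‖uk r (x - c)‖ ≤ B ∧ ‖Lam (uk r (x - c))‖ ≤ B ∧
        ‖fderiv ℝ (fun x => uk r (x - c)) x‖ ≤ B) := by
  obtain ⟨H, hH1, hH2, hH3⟩ := exists_pot hr hr8
  have hmult : ∀ x : ℂ, H (x + 2 * Real.pi * Complex.I - c) = Real.exp (2 * Real.pi) * H (x - c) := by
    intro x
    rw [← hH3]; congr 1; ring
  have hsm : ContDiff ℝ ((⊤ : ℕ∞) : WithTop ℕ∞) (fun x => H (x - c)) :=
    hH1.comp (contDiff_id.sub contDiff_const)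
  have hus : ContDiff ℝ ((⊤ : ℕ∞) : WithTop ℕ∞) (fun x => uk r (x - c)) :=
    (contDiff_uk hr hr8).comp (contDiff_id.sub contDiff_const)
  have htf : ContDiff ℝ ((⊤ : ℕ∞) : WithTop ℕ∞) (tf fun x => H (x - c)) :=
    contDiff_chi_mul fun z hz => descend_smooth hmult hsm hz
  have hcs : HasCompactSupport (tf fun x => H (x - c)) := hasCompactSupport_chi_mul _
  obtain ⟨B₀, hB₀⟩ := htf.continuous.bounded_above_of_compact_support hcs
  obtain ⟨B₁, hB₁⟩ := (isCompact_closedBall (0:ℂ) 20).exists_bound_of_continuousOn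
    hsm.continuous.continuousOn
  obtain ⟨B₂, hB₂⟩ := (isCompact_closedBall (0:ℂ) 20).exists_bound_of_continuousOn
    hus.continuous.continuousOn
  obtain ⟨B₃, hB₃⟩ := (isCompact_closedBall (0:ℂ) 20).exists_bound_of_continuousOn
    (Lam.continuous.comp hus.continuous).continuousOn
  obtain ⟨B₄, hB₄⟩ := (isCompact_closedBall (0:ℂ) 20).exists_bound_of_continuousOn
    (hus.continuous_fderiv (by simp)).continuousOn
  refine ⟨fun x => H (x - c), max 0 (max B₀ (max B₁ (max B₂ (max B₃ B₄)))), hmult, fun x => ?_, htf,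
    hcs, le_max_left _ _, fun z => ?_, fun x hx => ⟨?_, ?_, ?_, ?_⟩⟩
  · have h1 : HasFDerivAt (fun t : ℂ => t - c) (ContinuousLinearMap.id ℝ ℂ) x :=
      (hasFDerivAt_id x).sub_const c
    have h2 : HasFDerivAt (fun t => H (t - c))
        ((Lam (uk r (x - c))).comp (ContinuousLinearMap.id ℝ ℂ)) x := (hH2 (x - c)).comp x h1
    rwa [ContinuousLinearMap.comp_id] at h2
  · refine (hB₀ z).trans ?_
    simp
  · refine (hB₁ x hx).trans ?_
    simp
  · refine (hB₂ x hx).trans ?_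
    simp
  · refine (hB₃ x hx).trans ?_
    simp
  · refine (hB₄ x hx).trans ?_
    simp

end Pool.Agent.Helper303
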