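import Pool.Agent.Helper303.Kernel2

set_option autoImplicit false
open Filter Topology Asymptotics Metric

namespace Pool.Agent.Helper303

/-- The integrand `bt (t / r ^ 2) / t`. -/
noncomputable def Gn (r t : ℝ) : ℝ := bt (t / r ^ 2) / t

/-- A smoothed logarithm. -/
noncomputable def Nn (r t : ℝ) : ℝ := 2 * Real.log r + ∫ s in (r ^ 2)..t, Gn r s

lemma Gn_zero_of_le {r t : ℝ} (hr : 0 < r) (ht : t ≤ r ^ 2 / 2) : Gn r t = 0 := by
  have h : t / r ^ 2 ≤ 1 / 2 := by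
    rw [div_le_iff₀ (by positivity)]; linarith
  rw [Gn, bt_zero h, zero_div]

lemma Gn_near_zero {r t : ℝ} (hr : 0 < r) (ht : t < r ^ 2 / 2) : Gn r =ᶠ[𝓝 t] fun _ => 0 := by
  filter_upwards [Iio_mem_nhds ht] with s hs
  exact Gn_zero_of_le hr (le_of_lt hs)

lemma hasDerivAt_Gn {r : ℝ} (hr : 0 < r) (t : ℝ) :
    ∃ d, HasDerivAt (Gn r) d t ∧ Gn r t + t * d = deriv bt (t / r ^ 2) / r ^ 2 := by
  by_cases ht : t < r ^ 2 / 2
  · refine ⟨0, (hasDerivAt_const t (0:ℝ)).congr_of_eventuallyEq (Gn_near_zero hr ht), ?_⟩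
    have h : t / r ^ 2 < 1 / 2 := by
      rw [div_lt_iff₀ (by positivity)]; linarith
    rw [Gn_zero_of_le hr ht.le, deriv_bt_zero_left h]; simp
  · push Not at ht
    have ht0 : 0 < t := lt_of_lt_of_le (by positivity) ht
    have h1 : HasDerivAt (fun t : ℝ => t / r ^ 2) (1 / r ^ 2) t := (hasDerivAt_id t).div_const _
    have h2 := (hasDerivAt_bt (t / r ^ 2)).comp t h1
    have h3 := h2.div (hasDerivAt_id t) ht0.ne'
    refine ⟨_, h3, ?_⟩
    rw [Gn]
    simp only [Function.comp, id]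
    field_simp
    ring

lemma continuous_Gn {r : ℝ} (hr : 0 < r) : Continuous (Gn r) :=
  continuous_iff_continuousAt.2 fun t => by
    obtain ⟨d, hd, -⟩ := hasDerivAt_Gn hr t
    exact hd.continuousAt

lemma hasDerivAt_Nn {r : ℝ} (hr : 0 < r) (t : ℝ) : HasDerivAt (Nn r) (Gn r t) t := by
  have h := intervalIntegral.integral_hasDerivAt_right
    ((continuous_Gn hr).intervalIntegrable (r ^ 2) t)
    ((continuous_Gn hr).stronglyMeasurableAtFilter _ _) (continuous_Gn hr).continuousAt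
  exact h.const_add _

lemma Gn_nonneg {r t : ℝ} (hr : 0 < r) : 0 ≤ Gn r t := by
  rcases le_total t 0 with h | h
  · rw [Gn_zero_of_le hr (h.trans (by positivity))]
  · exact div_nonneg (bt_nonneg _) h

lemma Nn_mono {r : ℝ} (hr : 0 < r) : Monotone (Nn r) :=
  monotone_of_deriv_nonneg (fun t => (hasDerivAt_Nn hr t).differentiableAt) fun t => by
    rw [(hasDerivAt_Nn hr t).deriv]; exact Gn_nonneg hr

lemma Nn_self {r : ℝ} : Nn r (r ^ 2) = 2 * Real.log r := by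
  rw [Nn, intervalIntegral.integral_same, add_zero]

lemma Nn_of_ge {r t : ℝ} (hr : 0 < r) (ht : r ^ 2 ≤ t) : Nn r t = Real.log t := by
  have h1 : ∫ s in (r ^ 2)..t, Gn r s = ∫ s in (r ^ 2)..t, s⁻¹ := by
    refine intervalIntegral.integral_congr fun s hs => ?_
    rw [Set.uIcc_of_le ht] at hs
    have h2 : 1 ≤ s / r ^ 2 := by
      rw [le_div_iff₀ (by positivity)]; linarith [hs.1]
    simp only [Gn, bt_one h2, one_div]
  have hr2 : (0:ℝ) < r ^ 2 := by positivity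
  rw [Nn, h1, integral_inv_of_pos hr2 (lt_of_lt_of_le hr2 ht), Real.log_div (by linarith) hr2.ne',
    Real.log_pow]
  push_cast; ring

lemma Nn_ge {r t : ℝ} (hr : 0 < r) : 2 * Real.log r - Real.log 2 ≤ Nn r t := by
  have hr2 : (0:ℝ) < r ^ 2 := by positivity
  -- value at `r ^ 2 / 2`
  have h1 : 2 * Real.log r - Real.log 2 ≤ Nn r (r ^ 2 / 2) := by
    have h2 : ∫ s in (r ^ 2)..(r ^ 2 / 2), Gn r s = -∫ s in (r ^ 2 / 2)..(r ^ 2), Gn r s :=
      intervalIntegral.integral_symm _ _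
    have h3 : ∫ s in (r ^ 2 / 2)..(r ^ 2), Gn r s ≤ ∫ s in (r ^ 2 / 2)..(r ^ 2), s⁻¹ := by
      refine intervalIntegral.integral_mono_on (by linarith)
        ((continuous_Gn hr).intervalIntegrable _ _) ?_ fun s hs => ?_
      · apply ContinuousOn.intervalIntegrable
        rw [Set.uIcc_of_le (by linarith)]
        intro s hs
        exact (continuousAt_inv₀ (by linarith [hs.1] : s ≠ 0)).continuousWithinAt
      · have hs0 : 0 < s := by linarith [hs.1]
        rw [Gn, ← one_div]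
        exact div_le_div_of_nonneg_right (bt_le_one _) hs0.le
    have h4 : ∫ s in (r ^ 2 / 2)..(r ^ 2), s⁻¹ = Real.log 2 := by
      rw [integral_inv_of_pos (by positivity) hr2]
      congr 1
      field_simp
    rw [Nn, h2]
    linarith
  rcases le_total t (r ^ 2 / 2) with h | h
  · have h5 : Nn r t = Nn r (r ^ 2 / 2) := by
      have h6 : ∫ s in t..(r ^ 2 / 2), Gn r s = 0 := by
        have : ∫ s in t..(r ^ 2 / 2), Gn r s = ∫ s in t..(r ^ 2 / 2), (0:ℝ) := by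
          refine intervalIntegral.integral_congr fun s hs => ?_
          rw [Set.uIcc_of_le h] at hs
          exact Gn_zero_of_le hr hs.2
        rw [this]; simp
      have h7 := intervalIntegral.integral_add_adjacent_intervals
        ((continuous_Gn hr).intervalIntegrable (μ := MeasureTheory.volume) (r ^ 2) t)
        ((continuous_Gn hr).intervalIntegrable t (r ^ 2 / 2))
      rw [h6, add_zero] at h7
      rw [Nn, Nn, h7]
    rw [h5]; exact h1
  · exact h1.trans (Nn_mono hr h)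

/-- The function with a negative bump of its Laplacian. -/
noncomputable def bf (r : ℝ) (x : ℂ) : ℝ := -(1 / 2) * Nn r (‖x‖ ^ 2)

lemma continuous_bf {r : ℝ} (hr : 0 < r) : Continuous (bf r) := by
  have h1 : Continuous (Nn r) := continuous_iff_continuousAt.2 fun t =>
    (hasDerivAt_Nn hr t).continuousAt
  exact continuous_const.mul (h1.comp (by fun_prop))

lemma bf_le {r : ℝ} (hr : 0 < r) (x : ℂ) : bf r x ≤ Real.log 2 / 2 - Real.log r := by
  have := @Nn_ge r (‖x‖ ^ 2) hr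
  rw [bf]; linarith

lemma bf_of_ge {r : ℝ} (hr : 0 < r) {x : ℂ} (h : r ≤ ‖x‖) : bf r x = -Real.log ‖x‖ := by
  rw [bf, Nn_of_ge hr (by gcongr), Real.log_pow]
  push_cast; ring

lemma bf_ge {r : ℝ} (hr : 0 < r) {x : ℂ} {D : ℝ} (h1 : r ≤ D) (h2 : ‖x‖ ≤ D) :
    -Real.log D ≤ bf r x := by
  have h3 : Nn r (‖x‖ ^ 2) ≤ Nn r (D ^ 2) := Nn_mono hr (by gcongr)
  have h4 : Nn r (D ^ 2) = 2 * Real.log D := by
    rw [Nn_of_ge hr (by gcongr), Real.log_pow]
    push_cast; ring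
  rw [h4] at h3
  rw [bf]
  linarith

lemma hasLap_bf {r : ℝ} (hr : 0 < r) {f : ℂ → ℂ} {α : ℂ} (hf : HasTwo f α) :
    ∃ g, HasLap (fun k => bf r (f k)) g (-2 * (deriv bt (‖f 0‖ ^ 2 / r ^ 2) / r ^ 2) * ‖α‖ ^ 2) := by
  obtain ⟨d, hd, hd2⟩ := hasDerivAt_Gn hr (‖f 0‖ ^ 2)
  have h1 := hf.normSq.comp (F := fun t => -(1 / 2) * Nn r t) (F₁ := -(1 / 2) * Gn r (‖f 0‖ ^ 2))
    (F₂ := -(1 / 2) * d) (taylor_two_real (F := fun t => -(1 / 2) * Nn r t)
      (F' := fun t => -(1 / 2) * Gn r t) (x := ‖f 0‖ ^ 2) (F₂ := -(1 / 2) * d)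
      (Eventually.of_forall fun t => (hasDerivAt_Nn hr t).const_mul _)
      (hd.const_mul _))
  refine ⟨((-(1 / 2) * Gn r (‖f 0‖ ^ 2) : ℝ) : ℂ) * (2 * ((starRingEnd ℂ) (f 0) * α)), ?_⟩
  have e : -(1 / 2) * Gn r (‖f 0‖ ^ 2) * (4 * ‖α‖ ^ 2)
      + -(1 / 2) * d * ‖2 * ((starRingEnd ℂ) (f 0) * α)‖ ^ 2
      = -2 * (deriv bt (‖f 0‖ ^ 2 / r ^ 2) / r ^ 2) * ‖α‖ ^ 2 := by
    rw [← hd2, norm_mul, norm_mul, RCLike.norm_conj, Complex.norm_two]
    ring
  rw [e] at h1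
  exact h1

end Pool.Agent.Helper303
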