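import Pool.Agent.Helper303.Domain3
import Pool.Agent.Helper303.NFun

set_option autoImplicit false
open Filter Topology Asymptotics Metric

namespace Pool.Agent.Helper303

lemma continuous_fl : Continuous fl := contDiff_fl.continuous

lemma continuous_fl₁ : Continuous fl₁ :=
  continuous_iff_continuousAt.2 fun x => (hasDerivAt_fl₁ x).continuousAt

lemma continuous_Pp : Continuous fun y : ℂ × ℂ => Pp y.1 y.2 := by
  unfold Pp
  have h1 : Continuous fun y : ℂ × ℂ => y.1.re := Complex.continuous_re.comp continuous_fst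
  fun_prop

lemma continuous_rh (Q : Cheese) : Continuous fun y : ℂ × ℂ => rh Q y.1 y.2 := by
  have h1 : Continuous fun y : ℂ × ℂ => y.1.re := Complex.continuous_re.comp continuous_fst
  have h2 : Continuous fun y : ℂ × ℂ => y.1.im := Complex.continuous_im.comp continuous_fst
  have h3 : Continuous fun y : ℂ × ℂ => (y.2 * Complex.exp (-Complex.I * y.1)).re :=
    Complex.continuous_re.comp (by fun_prop)
  have h4 : Continuous fun y : ℂ × ℂ => Q.η (Complex.exp y.1) :=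
    Q.η_smooth.continuous.comp (by fun_prop)
  have h5 : Continuous fun y : ℂ × ℂ => fl (Pp y.1 y.2) := continuous_fl.comp continuous_Pp
  have h6 : Continuous fun y : ℂ × ℂ => Real.exp y.1.im := Real.continuous_exp.comp h2
  exact ((continuous_const.mul h3).add (h6.mul h4)).add (h6.mul h5)

/-- The chart around a point. -/
noncomputable def ch (z₀ : ℂ) (x : E2) : ℂ × ℂ := (LB z₀ (x 0), x 1)

def Good (z₀ : ℂ) (x : E2) : Prop :=
  x 0 ≠ 0 ∧ |Real.log ‖x 0‖| < 6 ∧ x 0 / z₀ ∈ Complex.slitPlane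

lemma good_near {x : E2} (hz : x 0 ≠ 0) (hs : |Real.log ‖x 0‖| < 6) :
    ∀ᶠ y in 𝓝 x, Good (x 0) y := by
  have h1 := log_norm_near hz hs
  have hp : Continuous fun y : E2 => y 0 / x 0 := by fun_prop
  have h2 : ∀ᶠ y : E2 in 𝓝 x, y 0 / x 0 ∈ Complex.slitPlane := by
    refine hp.continuousAt.eventually (Complex.isOpen_slitPlane.mem_nhds ?_)
    show x 0 / x 0 ∈ Complex.slitPlane
    rw [div_self hz]; simp
  filter_upwards [h1, h2] with y h3 h4
  exact ⟨h3.1, h3.2, h4⟩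

lemma ch_continuousAt {z₀ : ℂ} (h0 : z₀ ≠ 0) {x : E2} (hx : Good z₀ x) :
    ContinuousAt (ch z₀) x := by
  have h1 : ContinuousAt (fun y : E2 => LB z₀ (y 0)) x := by
    have h2 : ContinuousAt (fun y : E2 => y 0) x := by fun_prop
    exact ContinuousAt.comp (g := LB z₀) (f := fun y : E2 => y 0)
      (analyticAt_LB h0 hx.2.2).continuousAt h2
  exact h1.prodMk (by fun_prop)

lemma ch_inj {z₀ : ℂ} (h0 : z₀ ≠ 0) {x y : E2} (hx : x 0 ≠ 0) (hy : y 0 ≠ 0)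
    (h : ch z₀ x = ch z₀ y) : x = y := by
  have h1 : LB z₀ (x 0) = LB z₀ (y 0) := congrArg Prod.fst h
  have h2 : x 1 = y 1 := congrArg Prod.snd h
  have h3 : x 0 = y 0 := by rw [← exp_LB h0 hx, ← exp_LB h0 hy, h1]
  ext i
  fin_cases i
  · exact h3
  · exact h2

lemma chart_line {z₀ : ℂ} (h0 : z₀ ≠ 0) {a : E2} (ha : Good z₀ a) (v : E2) :
    AnalyticAt ℂ (fun k : ℂ => LB z₀ ((a + k • v) 0)) 0 ∧
    HasDerivAt (fun k : ℂ => LB z₀ ((a + k • v) 0)) (v 0 / a 0) 0 ∧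
    AnalyticAt ℂ (fun k : ℂ => (a + k • v) 1) 0 ∧
    HasDerivAt (fun k : ℂ => (a + k • v) 1) (v 1) 0 := by
  have e0 : (fun k : ℂ => LB z₀ ((a + k • v) 0)) = fun k => LB z₀ (a 0 + k * v 0) := by
    funext k; simp
  have e1 : (fun k : ℂ => (a + k • v) 1) = fun k => a 1 + k * v 1 := by
    funext k; simp
  rw [e0, e1]
  obtain ⟨h1, h2⟩ := line_LB (b := v 0) h0 ha.1 ha.2.2
  obtain ⟨h3, h4⟩ := line_w (a 1) (v 1)
  exact ⟨h1, h2, h3, h4⟩

lemma rh_chart (Q : Cheese) {z₀ : ℂ} (h0 : z₀ ≠ 0) {x : E2} (hx : Good z₀ x) :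
    rh Q (ch z₀ x).1 (ch z₀ x).2 = Real.exp (LB z₀ (x 0)).im * rho Q x :=
  rho_eq_rh Q h0 hx.1 (by linarith [hx.2.1])

lemma exp_im_ge {z₀ z : ℂ} : Real.exp (-7) ≤ Real.exp (LB z₀ z).im := by
  apply Real.exp_le_exp.2
  have h1 := @LB_im_le z₀ z
  have h2 := Real.pi_lt_d2
  have h3 := neg_le_of_abs_le h1
  linarith

theorem hull_a (Q : Cheese) {p : E2} (hp : rho Q p = 0) (hP : 0 < Pp (Complex.log (p 0)) (p 1))
    {N₀ : Set E2} (hN₀ : IsOpen N₀) (hpN : p ∈ N₀) :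
    ∃ φ : E2 → ℝ, ContinuousOn φ (closure (Om Q)) ∧ PSH (Om Q) φ ∧
      ∃ c, c < φ p ∧ ∀ x ∉ N₀, φ x ≤ c := by
  obtain ⟨hz, -, hs, -⟩ := rho_nonpos Q hp.le
  set z₀ := p 0 with hz₀
  have hgp : Good z₀ p := (good_near hz hs).self_of_nhds
  have hchp : ch z₀ p = (Complex.log z₀, p 1) := by rw [ch, ← hz₀, LB_self hz]
  have hcc := ch_continuousAt hz hgp
  -- positivity near `p`
  obtain ⟨c, hc0, hc1, hc2⟩ : ∃ c : ℝ, 0 < c ∧ c < fl (Pp (ch z₀ p).1 (ch z₀ p).2) ∧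
      c < fl₁ (Pp (ch z₀ p).1 (ch z₀ p).2) := by
    rw [hchp]
    have h1 := fl_pos hP
    have h2 := fl₁_pos hP
    refine ⟨min (fl (Pp (Complex.log z₀) (p 1))) (fl₁ (Pp (Complex.log z₀) (p 1))) / 2, ?_, ?_, ?_⟩
    · have := lt_min h1 h2; linarith
    · have := lt_min h1 h2
      have h3 := min_le_left (fl (Pp (Complex.log z₀) (p 1))) (fl₁ (Pp (Complex.log z₀) (p 1)))
      show min (fl (Pp (Complex.log z₀) (p 1))) (fl₁ (Pp (Complex.log z₀) (p 1))) / 2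
        < fl (Pp (Complex.log z₀) (p 1))
      linarith
    · have := lt_min h1 h2
      have h3 := min_le_right (fl (Pp (Complex.log z₀) (p 1))) (fl₁ (Pp (Complex.log z₀) (p 1)))
      show min (fl (Pp (Complex.log z₀) (p 1))) (fl₁ (Pp (Complex.log z₀) (p 1))) / 2
        < fl₁ (Pp (Complex.log z₀) (p 1))
      linarith
  have hcP : ContinuousAt (fun x => Pp (ch z₀ x).1 (ch z₀ x).2) p :=
    ContinuousAt.comp (g := fun y : ℂ × ℂ => Pp y.1 y.2) continuous_Pp.continuousAt hcc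
  have he1 : ∀ᶠ x in 𝓝 p, c < fl (Pp (ch z₀ x).1 (ch z₀ x).2) :=
    (ContinuousAt.comp (g := fl) continuous_fl.continuousAt hcP).eventually (Ioi_mem_nhds hc1)
  have he2 : ∀ᶠ x in 𝓝 p, c < fl₁ (Pp (ch z₀ x).1 (ch z₀ x).2) :=
    (ContinuousAt.comp (g := fl₁) continuous_fl₁.continuousAt hcP).eventually (Ioi_mem_nhds hc2)
  have hall := (good_near hz hs).and (he1.and (he2.and (hN₀.mem_nhds hpN)))
  rw [← hz₀] at hall
  obtain ⟨r₀, hr₀, H₀⟩ := Metric.nhds_basis_closedBall.eventually_iff.1 hall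
  have H : ∀ x ∈ closedBall p r₀, Good z₀ x ∧ c < fl (Pp (ch z₀ x).1 (ch z₀ x).2) ∧
      c < fl₁ (Pp (ch z₀ x).1 (ch z₀ x).2) ∧ x ∈ N₀ := fun x hx => H₀ hx
  set ε : ℝ := Real.exp (-7) * c / 4 with hε
  have hε0 : 0 < ε := by positivity
  set U : E2 → ℝ := fun x => rh Q (ch z₀ x).1 (ch z₀ x).2
    - ε * (‖(ch z₀ x).1 - (ch z₀ p).1‖ ^ 2 + ‖(ch z₀ x).2 - (ch z₀ p).2‖ ^ 2) with hU
  have hUp : U p = 0 := by
    simp only [hU]
    rw [rh_chart Q hz hgp, hp]; simp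
  have hcl : closure (ball p r₀) ⊆ closedBall p r₀ := closure_ball_subset_closedBall
  suffices hsuff : ∃ φ : E2 → ℝ, ContinuousOn φ (closure (Om Q)) ∧ PSH (Om Q) φ ∧
      ∃ c, c < φ p ∧ ∀ x ∉ ball p r₀, φ x ≤ c by
    obtain ⟨φ, h1, h2, b, h3, h4⟩ := hsuff
    refine ⟨φ, h1, h2, b, h3, fun x hx => h4 x fun hxb => hx ?_⟩
    exact (H x (ball_subset_closedBall hxb)).2.2.2
  refine exists_peak (Ω := Om Q) (N := ball p r₀) (p := p) (U := U)
    ((isBounded_le Q).subset fun x hx => (mem_le Q x 0).2 ((mem_Om Q x).1 hx).le) isOpen_ball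
    (mem_ball_self hr₀) ?_ ?_ ?_
  · intro x hx
    have hg := (H x (hcl hx.1)).1
    have hcx := ch_continuousAt hz hg
    have hA : ContinuousAt (fun x => rh Q (ch z₀ x).1 (ch z₀ x).2) x :=
      ContinuousAt.comp (g := fun y : ℂ × ℂ => rh Q y.1 y.2) (continuous_rh Q).continuousAt hcx
    have hB : ContinuousAt (fun x => ε * (‖(ch z₀ x).1 - (ch z₀ p).1‖ ^ 2
        + ‖(ch z₀ x).2 - (ch z₀ p).2‖ ^ 2)) x :=
      ContinuousAt.comp (g := fun y : ℂ × ℂ => ε * (‖y.1 - (ch z₀ p).1‖ ^ 2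
        + ‖y.2 - (ch z₀ p).2‖ ^ 2)) (by fun_prop) hcx
    exact (hA.sub hB).continuousWithinAt
  · intro a ha v
    have hab := H a (ball_subset_closedBall ha.1)
    obtain ⟨hg, hf, hf1, -⟩ := hab
    obtain ⟨hA, hD, hA', hD'⟩ := chart_line hz hg v
    obtain ⟨l, hl, hl2⟩ := lap_line Q hz hg.1 (by linarith [hg.2.1]) hg.2.2 v
    have e0 : ((a + (0:ℂ) • v : E2)) = a := by simp
    have hn1 : HasLap (fun k : ℂ => ‖LB z₀ ((a + k • v) 0) - (ch z₀ p).1‖ ^ 2) _ _ :=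
      (hasTwo_of_hasDerivAt (hA.sub analyticAt_const) (hD.sub_const _)).normSq
    have hn2 : HasLap (fun k : ℂ => ‖(a + k • v) 1 - (ch z₀ p).2‖ ^ 2) _ _ :=
      (hasTwo_of_hasDerivAt (hA'.sub analyticAt_const) (hD'.sub_const _)).normSq
    have hfin := hl.sub ((hn1.add hn2).const_mul ε)
    refine hfin.vsub ?_
    have hmu := Q.mu_nonneg _ (LB_mem (z₀ := z₀) hz hg.1 (by linarith [hg.2.1]))
    have hE := @exp_im_ge z₀ (a 0)
    have hE0 := Real.exp_pos (-7)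
    set E := Real.exp (LB z₀ (a 0)).im
    set A := ‖v 0 / a 0‖ ^ 2 with hAdef
    set B := ‖v 1‖ ^ 2 with hBdef
    have hA0 : 0 ≤ A := sq_nonneg _
    have hB0 : 0 ≤ B := sq_nonneg _
    have hfl : c ≤ fl (Pp (LB z₀ (a 0)) (a 1)) := hf.le
    have hfl1 : c ≤ fl₁ (Pp (LB z₀ (a 0)) (a 1)) := hf1.le
    have k1 : Real.exp (-7) * c * (A + B) ≤ E * (4 * fl₁ (Pp (LB z₀ (a 0)) (a 1)) * B
        + fl (Pp (LB z₀ (a 0)) (a 1)) * A) := by
      have h5 : c * (A + B) ≤ 4 * fl₁ (Pp (LB z₀ (a 0)) (a 1)) * B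
          + fl (Pp (LB z₀ (a 0)) (a 1)) * A := by nlinarith
      have h6 : 0 ≤ c * (A + B) := by positivity
      calc Real.exp (-7) * c * (A + B) = Real.exp (-7) * (c * (A + B)) := by ring
        _ ≤ E * (c * (A + B)) := mul_le_mul_of_nonneg_right hE h6
        _ ≤ _ := mul_le_mul_of_nonneg_left h5 (Real.exp_pos _).le
    have k2 : 0 ≤ 4 * Q.mu (LB z₀ (a 0)) * A := by positivity
    have k3 : ε * (4 * A + 4 * B) = Real.exp (-7) * c * (A + B) := by rw [hε]; ring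
    linarith
  · intro x hx
    rw [hUp]
    have hxc := hcl (frontier_subset_closure hx.1)
    have hg := (H x hxc).1
    have hx0 : rho Q x ≤ 0 := by
      have := hx.2
      rw [closure_Om] at this
      exact (mem_le Q x 0).1 this
    have hne : x ≠ p := by
      rintro rfl
      have h5 : x ∉ ball x r₀ := by
        have := hx.1
        rw [isOpen_ball.frontier_eq] at this
        exact this.2
      exact h5 (mem_ball_self hr₀)
    have hne2 : ch z₀ x ≠ ch z₀ p := fun h => hne (ch_inj hz hg.1 hz h)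
    have hpos : 0 < ‖(ch z₀ x).1 - (ch z₀ p).1‖ ^ 2 + ‖(ch z₀ x).2 - (ch z₀ p).2‖ ^ 2 := by
      by_contra hcon
      push Not at hcon
      have h6 : ‖(ch z₀ x).1 - (ch z₀ p).1‖ ^ 2 = 0 := by
        nlinarith [sq_nonneg ‖(ch z₀ x).1 - (ch z₀ p).1‖, sq_nonneg ‖(ch z₀ x).2 - (ch z₀ p).2‖]
      have h7 : ‖(ch z₀ x).2 - (ch z₀ p).2‖ ^ 2 = 0 := by
        nlinarith [sq_nonneg ‖(ch z₀ x).1 - (ch z₀ p).1‖, sq_nonneg ‖(ch z₀ x).2 - (ch z₀ p).2‖]
      apply hne2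
      apply Prod.ext
      · exact sub_eq_zero.1 (norm_eq_zero.1 (pow_eq_zero_iff (by norm_num) |>.1 h6))
      · exact sub_eq_zero.1 (norm_eq_zero.1 (pow_eq_zero_iff (by norm_num) |>.1 h7))
    simp only [hU]
    rw [rh_chart Q hz hg]
    have h8 : Real.exp (LB z₀ (x 0)).im * rho Q x ≤ 0 :=
      mul_nonpos_of_nonneg_of_nonpos (Real.exp_pos _).le hx0
    nlinarith [mul_pos hε0 hpos]

end Pool.Agent.Helper303
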