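import Pool.Agent.Helper303.HullB0

set_option autoImplicit false
open Filter Topology Asymptotics Metric

namespace Pool.Agent.Helper303

lemma rj_le_self {g : ℝ} (hg : 0 < g) : rj g ≤ g := by
  have h1 : Real.exp (-2 / g) ≤ g / 2 := by
    have h2 : -2 / g = -(2 / g) := by ring
    rw [h2, Real.exp_neg, inv_le_comm₀ (Real.exp_pos _) (by positivity)]
    have h3 := Real.add_one_le_exp (2 / g)
    have h4 : (g / 2)⁻¹ = 2 / g := by rw [inv_div]
    rw [h4]; linarith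
  rw [rj]; linarith

/-- Choice of the hole near a point, with all quantitative consequences. -/
lemma choose_hole (Q : Cheese) {ζ₀ : ℂ} (h1 : |ζ₀.re| ≤ 7) (h2 : |ζ₀.im| ≤ 7) {δ τ : ℝ}
    (hδ : 0 < δ) (hδ1 : δ ≤ 1) (hτ : 0 < τ) :
    ∃ j D L, rj (Q.γ j) ≤ D ∧ ‖ζ₀ - Q.c j‖ ≤ D ∧ 0 < D ∧ D ≤ δ ∧
      L = Real.log 2 / 2 - Real.log (rj (Q.γ j)) ∧ 0 < L ∧ (L + 1) * D ^ 4 ≤ τ := by
  obtain ⟨j, hj1, hj2⟩ := Q.net ζ₀ h1 h2 (min (δ ^ 2) (τ / 6)) (by positivity)
  set ε := min (δ ^ 2) (τ / 6) with hε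
  set g := Q.γ j with hg
  have hg0 : 0 < g := Q.γ_pos j
  have hε0 : 0 < ε := by positivity
  have hε1 : ε ≤ δ ^ 2 := min_le_left _ _
  have hε2 : ε ≤ τ / 6 := min_le_right _ _
  have hε3 : ε ≤ 1 := hε1.trans (pow_le_one₀ hδ.le hδ1)
  have hg1 : g ≤ 1 := hj1.trans hε3
  have hr0 := rj_pos g
  have hrg := rj_le_self hg0
  refine ⟨j, max ‖ζ₀ - Q.c j‖ (rj g), Real.log 2 / 2 - Real.log (rj g), le_max_right _ _,
    le_max_left _ _, lt_of_lt_of_le hr0 (le_max_right _ _), ?_, rfl, ?_, ?_⟩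
  all_goals
    have hD4 : (max ‖ζ₀ - Q.c j‖ (rj g)) ^ 4 ≤ ε * g := by
      rcases max_cases ‖ζ₀ - Q.c j‖ (rj g) with ⟨h, -⟩ | ⟨h, -⟩
      · rw [h]; exact hj2
      · rw [h]
        calc rj g ^ 4 ≤ g ^ 4 := by gcongr
          _ = g * (g * g * g) := by ring
          _ ≤ g * (ε * 1 * 1) := by gcongr
          _ = ε * g := by ring
  · have h3 : (max ‖ζ₀ - Q.c j‖ (rj g)) ^ 4 ≤ δ ^ 4 := by
      calc _ ≤ ε * g := hD4
        _ ≤ ε * ε := by gcongr
        _ ≤ δ ^ 2 * δ ^ 2 := by gcongr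
        _ = δ ^ 4 := by ring
    exact le_of_pow_le_pow_left₀ (by norm_num) hδ.le h3
  · rw [log_rj]
    have h3 : 0 < Real.log 2 := Real.log_pos (by norm_num)
    have h4 : 0 < Real.log 3 := Real.log_pos (by norm_num)
    have h5 : -2 / g = -(2 / g) := by ring
    have h6 : 0 < 2 / g := by positivity
    linarith
  · rw [log_rj]
    have h3 : Real.log 2 ≤ 2 - 1 := Real.log_le_sub_one_of_pos (by norm_num)
    have h4 : Real.log 3 ≤ 3 - 1 := Real.log_le_sub_one_of_pos (by norm_num)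
    have h5 : -2 / g = -(2 / g) := by ring
    have h6 : 1 ≤ 1 / g := by rw [le_div_iff₀ hg0]; linarith
    have h7 : Real.log 2 / 2 - (-2 / g - Real.log 3) + 1 ≤ 6 / g := by
      rw [h5]
      have e1 : 2 / g = 2 * (1 / g) := by ring
      have e2 : 6 / g = 6 * (1 / g) := by ring
      rw [e1, e2]; linarith
    have h8 : 0 ≤ Real.log 2 / 2 - (-2 / g - Real.log 3) + 1 := by
      have h9 : 0 < Real.log 2 := Real.log_pos (by norm_num)
      have h10 : 0 < Real.log 3 := Real.log_pos (by norm_num)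
      have h11 : 0 < 2 / g := by positivity
      rw [h5]; linarith
    calc (Real.log 2 / 2 - (-2 / g - Real.log 3) + 1) * (max ‖ζ₀ - Q.c j‖ (rj g)) ^ 4
        ≤ (6 / g) * (ε * g) := by gcongr
      _ = 6 * ε := by field_simp
      _ ≤ τ := by linarith

theorem hull_b (Q : Cheese) {p : E2} (hp : rho Q p = 0) (hP : Pp (Complex.log (p 0)) (p 1) ≤ 0)
    {N₀ : Set E2} (hN₀ : IsOpen N₀) (hpN : p ∈ N₀) :
    ∃ φ : E2 → ℝ, ContinuousOn φ (closure (Om Q)) ∧ PSH (Om Q) φ ∧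
      ∃ c, c < φ p ∧ ∀ x ∉ N₀, φ x ≤ c := by
  obtain ⟨hz, -, hs, -⟩ := rho_nonpos Q hp.le
  set z₀ := p 0 with hz₀
  set ζ₀ := Complex.log z₀ with hζ₀
  set w₀ := p 1 with hw₀
  have hre : ζ₀.re = Real.log ‖z₀‖ := Complex.log_re _
  have him : |ζ₀.im| ≤ Real.pi := by rw [hζ₀, Complex.log_im]; exact Complex.abs_arg_le_pi _
  have hgp : Good z₀ p := (good_near hz hs).self_of_nhds
  have hchp : ch z₀ p = (ζ₀, w₀) := by rw [ch, ← hz₀, LB_self hz]
  have hcc := ch_continuousAt hz hgp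
  have hrh0 : rh Q ζ₀ w₀ = 0 := by
    have := rh_chart Q hz hgp
    rw [hchp, hp, mul_zero] at this
    exact this
  have hpi := Real.pi_lt_four
  obtain ⟨C, hC0, hC⟩ := re_bound Q (log_mem (by linarith : |Real.log ‖z₀‖| ≤ 7))
    (by rw [hre]; linarith) hrh0 hP
  set v₀ := w₀ * Complex.exp (-Complex.I * ζ₀) with hv₀
  set u₀ := Q.u ζ₀ with hu₀
  set V : E2 → ℂ := fun x => VV v₀ u₀ ζ₀ (ch z₀ x) with hVdef
  set Z : E2 → ℝ := fun x => ‖(ch z₀ x).1 - ζ₀‖ with hZdef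
  have hCe : ∀ᶠ x in 𝓝 p, rho Q x = 0 → Good z₀ x → |(V x).re| ≤ C * (Z x ^ 2 + ‖V x‖ ^ 2) := by
    have h1 : Tendsto (ch z₀) (𝓝 p) (𝓝 (ζ₀, w₀)) := by rw [← hchp]; exact hcc
    filter_upwards [h1.eventually hC] with x hx h2 h3
    refine hx ?_
    rw [rh_chart Q hz h3, h2, mul_zero]
  have hall := (good_near hz hs).and (hCe.and (hN₀.mem_nhds hpN))
  rw [← hz₀] at hall
  obtain ⟨r₀, hr₀, H₀⟩ := Metric.nhds_basis_closedBall.eventually_iff.1 hall
  have HG : ∀ x ∈ closedBall p r₀, Good z₀ x := fun x hx => (H₀ hx).1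
  have HC : ∀ x ∈ closedBall p r₀, rho Q x = 0 → |(V x).re| ≤ C * (Z x ^ 2 + ‖V x‖ ^ 2) :=
    fun x hx h => (H₀ hx).2.1 h (HG x hx)
  have HN : ∀ x ∈ closedBall p r₀, x ∈ N₀ := fun x hx => (H₀ hx).2.2
  have hcontch : ∀ x ∈ closedBall p r₀, ContinuousAt (ch z₀) x := fun x hx =>
    ch_continuousAt hz (HG x hx)
  have hcontV : ∀ x ∈ closedBall p r₀, ContinuousAt V x := fun x hx =>
    ContinuousAt.comp (g := VV v₀ u₀ ζ₀) (continuous_VV v₀ u₀ ζ₀).continuousAt (hcontch x hx)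
  have hcontZ : ∀ x ∈ closedBall p r₀, ContinuousAt Z x := fun x hx =>
    ContinuousAt.comp (g := fun y : ℂ × ℂ => ‖y.1 - ζ₀‖) (by fun_prop) (hcontch x hx)
  have hVp : V p = 0 := by
    simp only [hVdef]; rw [hchp, VV, hv₀]; ring
  have hZp : Z p = 0 := by
    simp only [hZdef]; rw [hchp]; simp
  -- lower bound on the sphere
  obtain ⟨m, hm0, hm⟩ := exists_pos_lower (isCompact_sphere p r₀) (f := fun x => Z x + ‖V x‖)
    (fun x hx => ((hcontZ x (sphere_subset_closedBall hx)).add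
      (hcontV x (sphere_subset_closedBall hx)).norm).continuousWithinAt) (fun x hx => by
      have hxc := sphere_subset_closedBall hx
      have hZ0 : 0 ≤ Z x := norm_nonneg _
      have hV0 : 0 ≤ ‖V x‖ := norm_nonneg _
      rcases (add_nonneg hZ0 hV0).lt_or_eq with h | h
      · exact h
      · exfalso
        have h1 : Z x = 0 := by linarith
        have h2 : ‖V x‖ = 0 := by linarith
        have h3 : (ch z₀ x).1 = ζ₀ := sub_eq_zero.1 (norm_eq_zero.1 h1)
        have h4 : V x = 0 := norm_eq_zero.1 h2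
        simp only [hVdef] at h4
        rw [VV, h3, hv₀, sub_self, mul_zero, sub_zero, ← sub_mul] at h4
        have h5 : (ch z₀ x).2 = w₀ := by
          rcases mul_eq_zero.1 h4 with h | h
          · exact sub_eq_zero.1 h
          · exact absurd h (Complex.exp_ne_zero _)
        have h6 : x = p := ch_inj hz (HG x hxc).1 hz (by
          rw [hchp]; exact Prod.ext h3 h5)
        rw [h6] at hx
        simp at hx
        linarith)
  -- radii
  set R₂ : ℝ := min (m / 4) (1 / (4 * C)) with hR₂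
  have hR₂0 : 0 < R₂ := by positivity
  have hR₂m : R₂ ≤ m / 4 := min_le_left _ _
  have hR₂C : 4 * C * R₂ ≤ 1 := by
    calc 4 * C * R₂ ≤ 4 * C * (1 / (4 * C)) := by gcongr; exact min_le_right _ _
      _ = 1 := by field_simp
  obtain ⟨j, D, L, hD1, hD2, hD0, hDδ, hL, hL0, hLD⟩ := choose_hole Q (ζ₀ := ζ₀)
    (by rw [hre]; linarith) (by linarith) (δ := min (m / 16) (1 / 8)) (τ := R₂ ^ 2 / (2048 * C ^ 2))
    (by positivity) (le_trans (min_le_right _ _) (by norm_num)) (by positivity)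
  have hDm : D ≤ m / 16 := hDδ.trans (min_le_left _ _)
  have hD8 : D ≤ 1 / 8 := hDδ.trans (min_le_right _ _)
  set ρ := rj (Q.γ j) with hρ
  have hρ0 : 0 < ρ := rj_pos _
  set A : ℝ := 2 * (L + 1) / R₂ ^ 2 with hA
  have hA0 : 0 < A := by positivity
  have hAR : A * R₂ ^ 2 = 2 * (L + 1) := by rw [hA]; field_simp
  have hAD : 4 * A * C ^ 2 * (4 * D) ^ 4 ≤ 1 := by
    have e1 : 4 * A * C ^ 2 * (4 * D) ^ 4 = (2048 * C ^ 2 / R₂ ^ 2) * ((L + 1) * D ^ 4) := by
      rw [hA]; field_simp; ring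
    rw [e1]
    calc (2048 * C ^ 2 / R₂ ^ 2) * ((L + 1) * D ^ 4)
        ≤ (2048 * C ^ 2 / R₂ ^ 2) * (R₂ ^ 2 / (2048 * C ^ 2)) := by gcongr
      _ = 1 := by field_simp
  set N : Set E2 := ball p r₀ ∩ (Z ⁻¹' Set.Iio (4 * D) ∩ (fun x => ‖V x‖) ⁻¹' Set.Iio R₂) with hN
  have hNo : IsOpen N := by
    have h1 : ContinuousOn (fun x => (Z x, ‖V x‖)) (ball p r₀) := fun x hx =>
      ((hcontZ x (ball_subset_closedBall hx)).prodMk
        (hcontV x (ball_subset_closedBall hx)).norm).continuousWithinAt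
    have h2 := h1.isOpen_inter_preimage isOpen_ball (isOpen_Iio.prod isOpen_Iio :
      IsOpen (Set.Iio (4 * D) ×ˢ Set.Iio R₂))
    exact h2
  have hNb : N ⊆ ball p r₀ := Set.inter_subset_left
  have hcl : closure N ⊆ {x | x ∈ closedBall p r₀ ∧ Z x ≤ 4 * D ∧ ‖V x‖ ≤ R₂} := by
    apply closure_minimal
    · intro x hx
      exact ⟨ball_subset_closedBall hx.1, le_of_lt hx.2.1, le_of_lt hx.2.2⟩
    · have h1 : ContinuousOn (fun x => (Z x, ‖V x‖)) (closedBall p r₀) := fun x hx =>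
        ((hcontZ x hx).prodMk (hcontV x hx).norm).continuousWithinAt
      have h2 := h1.preimage_isClosed_of_isClosed isClosed_closedBall
        (isClosed_Iic.prod isClosed_Iic : IsClosed (Set.Iic (4 * D) ×ˢ Set.Iic R₂))
      exact h2
  have hpN' : p ∈ N := by
    refine ⟨mem_ball_self hr₀, ?_, ?_⟩
    · show Z p < 4 * D
      rw [hZp]; positivity
    · show ‖V p‖ < R₂
      rw [hVp, norm_zero]; exact hR₂0
  have hfr : ∀ x ∈ frontier N, x ∈ closedBall p r₀ ∧ Z x ≤ 4 * D ∧ ‖V x‖ ≤ R₂ ∧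
      (Z x = 4 * D ∨ ‖V x‖ = R₂) := by
    intro x hx
    rw [hNo.frontier_eq] at hx
    obtain ⟨h1, h2, h3⟩ := hcl hx.1
    refine ⟨h1, h2, h3, ?_⟩
    by_contra hcon
    push Not at hcon
    have h4 : Z x < 4 * D := lt_of_le_of_ne h2 hcon.1
    have h5 : ‖V x‖ < R₂ := lt_of_le_of_ne h3 hcon.2
    have h6 : x ∉ ball p r₀ := fun h => hx.2 ⟨h, h4, h5⟩
    have h7 : x ∈ sphere p r₀ := by
      rw [mem_sphere]
      rw [mem_closedBall] at h1
      rw [mem_ball] at h6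
      exact le_antisymm h1 (not_lt.1 h6)
    have h8 := hm x h7
    linarith
  set g₀ : E2 → ℝ := fun x => bf ρ ((ch z₀ x).1 - Q.c j) + A * (V x ^ 2).re with hg₀
  have hcontg : ∀ x ∈ closedBall p r₀, ContinuousAt g₀ x := fun x hx => by
    have h1 : ContinuousAt (fun x => bf ρ ((ch z₀ x).1 - Q.c j)) x :=
      ContinuousAt.comp (g := fun y : ℂ × ℂ => bf ρ (y.1 - Q.c j))
        ((continuous_bf hρ0).comp (by fun_prop)).continuousAt (hcontch x hx)
    have h2 : ContinuousAt (fun x => (V x ^ 2).re) x :=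
      ContinuousAt.comp (g := Complex.re) Complex.continuous_re.continuousAt ((hcontV x hx).pow 2)
    exact h1.add (continuousAt_const.mul h2)
  have hcontr : ∀ x ∈ closedBall p r₀, ContinuousAt (fun x => rh Q (ch z₀ x).1 (ch z₀ x).2) x :=
    fun x hx => ContinuousAt.comp (g := fun y : ℂ × ℂ => rh Q y.1 y.2)
      (continuous_rh Q).continuousAt (hcontch x hx)
  have hg₀p : -Real.log D ≤ g₀ p := by
    simp only [hg₀]
    rw [hVp, hchp]
    have := bf_ge hρ0 hD1 hD2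
    simpa using this
  have hlogD : 0 < -Real.log D := by
    have := Real.log_neg hD0 (by linarith)
    linarith
  -- the boundary inequality on the smooth boundary
  have hbd : ∀ x ∈ frontier N, rho Q x = 0 → g₀ x < g₀ p := by
    intro x hx h0
    obtain ⟨h1, h2, h3, h4⟩ := hfr x hx
    have hZ0 : 0 ≤ Z x := norm_nonneg _
    have h5 := re_sq_le hC0 hR₂C h3 (HC x h1 h0)
    have h6 : 4 * A * C ^ 2 * Z x ^ 4 ≤ 1 := by
      refine le_trans ?_ hAD
      gcongr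
    rcases h4 with h4 | h4
    · -- far in the base direction
      have h7 : 3 * D ≤ ‖(ch z₀ x).1 - Q.c j‖ := by
        have h8 : ‖(ch z₀ x).1 - ζ₀‖ ≤ ‖(ch z₀ x).1 - Q.c j‖ + ‖ζ₀ - Q.c j‖ := by
          have : (ch z₀ x).1 - ζ₀ = ((ch z₀ x).1 - Q.c j) - (ζ₀ - Q.c j) := by ring
          rw [this]; exact norm_sub_le _ _
        have h9 : Z x = ‖(ch z₀ x).1 - ζ₀‖ := rfl
        rw [← h9, h4] at h8
        linarith
      have h8 : bf ρ ((ch z₀ x).1 - Q.c j) ≤ -Real.log (3 * D) := by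
        rw [bf_of_ge hρ0 (by linarith)]
        have := Real.log_le_log (by positivity) h7
        linarith
      have h9 : Real.log (3 * D) = Real.log 3 + Real.log D :=
        Real.log_mul (by norm_num) hD0.ne'
      have h10 : (1:ℝ) < Real.log 3 := by
        rw [Real.lt_log_iff_exp_lt (by norm_num)]
        exact Real.exp_one_lt_three
      have h11 : A * (V x ^ 2).re ≤ 1 := by
        calc A * (V x ^ 2).re ≤ A * (4 * C ^ 2 * Z x ^ 4 - ‖V x‖ ^ 2 / 2) := by gcongr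
          _ ≤ A * (4 * C ^ 2 * Z x ^ 4) := by
              gcongr
              linarith [sq_nonneg ‖V x‖]
          _ = 4 * A * C ^ 2 * Z x ^ 4 := by ring
          _ ≤ 1 := h6
      simp only [hg₀] at hg₀p ⊢
      linarith
    · have h7 : bf ρ ((ch z₀ x).1 - Q.c j) ≤ L := by
        rw [hL]; exact bf_le hρ0 _
      have h8 : A * (V x ^ 2).re ≤ 1 - (L + 1) := by
        calc A * (V x ^ 2).re ≤ A * (4 * C ^ 2 * Z x ^ 4 - ‖V x‖ ^ 2 / 2) := by gcongr
          _ = 4 * A * C ^ 2 * Z x ^ 4 - (A * R₂ ^ 2) / 2 := by rw [h4]; ring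
          _ ≤ 1 - (L + 1) := by rw [hAR]; linarith
      have h9 : g₀ x ≤ 0 := by simp only [hg₀]; linarith
      linarith
  -- compactness
  have hKc : IsCompact (frontier N ∩ closure (Om Q)) :=
    (isCompact_closure_Om Q).inter_left isClosed_frontier
  obtain ⟨M₀, hM₀, hpen⟩ := exists_penalty hKc (g := g₀)
    (r := fun x => -rh Q (ch z₀ x).1 (ch z₀ x).2) (c := g₀ p)
    (fun x hx => (hcontg x (hfr x hx.1).1).continuousWithinAt)
    (fun x hx => (hcontr x (hfr x hx.1).1).neg.continuousWithinAt)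
    (fun x hx => by
      have h1 : rho Q x ≤ 0 := by
        have := hx.2
        rw [closure_Om] at this
        exact (mem_le Q x 0).1 this
      rw [rh_chart Q hz (HG x (hfr x hx.1).1)]
      have := mul_nonpos_of_nonneg_of_nonpos (Real.exp_pos (LB z₀ (x 0)).im).le h1
      linarith)
    (fun x hx h0 => by
      refine hbd x hx.1 ?_
      rw [rh_chart Q hz (HG x (hfr x hx.1).1)] at h0
      have h1 : Real.exp (LB z₀ (x 0)).im * rho Q x = 0 := by linarith
      rcases mul_eq_zero.1 h1 with h | h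
      · exact absurd h (Real.exp_pos _).ne'
      · exact h)
  have hκ := Q.κ_pos j
  set M : ℝ := M₀ + 1 / (2 * Q.κ j) with hM
  have hM1 : 1 ≤ 2 * M * Q.κ j := by
    rw [hM]
    have : 2 * (M₀ + 1 / (2 * Q.κ j)) * Q.κ j = 2 * M₀ * Q.κ j + 1 := by field_simp
    rw [this]
    have : 0 ≤ 2 * M₀ * Q.κ j := by positivity
    linarith
  have hM0 : 0 ≤ M := by rw [hM]; positivity
  suffices hsuff : ∃ φ : E2 → ℝ, ContinuousOn φ (closure (Om Q)) ∧ PSH (Om Q) φ ∧
      ∃ c, c < φ p ∧ ∀ x ∉ N, φ x ≤ c by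
    obtain ⟨φ, h1, h2, b, h3, h4⟩ := hsuff
    refine ⟨φ, h1, h2, b, h3, fun x hx => h4 x fun hxb => hx ?_⟩
    exact HN x (ball_subset_closedBall (hNb hxb))
  refine exists_peak (Ω := Om Q) (N := N) (p := p)
    (U := fun x => g₀ x + M * rh Q (ch z₀ x).1 (ch z₀ x).2)
    ((isBounded_le Q).subset fun x hx => (mem_le Q x 0).2 ((mem_Om Q x).1 hx).le) hNo
    hpN' ?_ ?_ ?_
  · intro x hx
    have hxc := (hcl hx.1).1
    exact ((hcontg x hxc).add (continuousAt_const.mul (hcontr x hxc))).continuousWithinAt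
  · intro a ha v
    have hac : a ∈ closedBall p r₀ := ball_subset_closedBall (hNb ha.1)
    have hg := HG a hac
    obtain ⟨hA1, hD1', hA1', hD1''⟩ := chart_line hz hg v
    obtain ⟨l, hl, hl2⟩ := lap_line Q hz hg.1 (by linarith [hg.2.1]) hg.2.2 v
    have e0 : ((a + (0:ℂ) • v : E2)) = a := by simp
    obtain ⟨gb, hb⟩ := hasLap_bf hρ0 (f := fun k : ℂ => LB z₀ ((a + k • v) 0) - Q.c j)
      (hasTwo_of_hasDerivAt (hA1.sub (analyticAt_const (v := Q.c j))) (hD1'.sub_const (Q.c j)))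
    simp only [e0] at hb
    have hVan : AnalyticAt ℂ (fun k : ℂ => (VV v₀ u₀ ζ₀ (ch z₀ (a + k • v))) ^ 2) 0 := by
      have h1 : AnalyticAt ℂ (fun k : ℂ => VV v₀ u₀ ζ₀ (ch z₀ (a + k • v))) 0 := by
        simp only [VV, ch]
        exact ((hA1'.mul ((analyticAt_const.mul hA1).cexp)).sub analyticAt_const).sub
          (analyticAt_const.mul (hA1.sub analyticAt_const))
      exact h1.pow 2
    have hVl := (HasTwo.of_analyticAt hVan).re
    have hfin := (hb.add (hVl.const_mul A)).add (hl.const_mul M)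
    refine hfin.vsub ?_
    set x₀ : ℂ := LB z₀ (a 0) - Q.c j with hx₀
    have hζa : LB z₀ (a 0) ∈ ball (0:ℂ) 20 := LB_mem hz hg.1 (by linarith [hg.2.1])
    have hnx : ‖x₀‖ < 1 := by
      have h1 : Z a < 4 * D := ha.1.2.1
      have h2 : x₀ = (LB z₀ (a 0) - ζ₀) + (ζ₀ - Q.c j) := by rw [hx₀]; ring
      have h3 : ‖x₀‖ ≤ Z a + ‖ζ₀ - Q.c j‖ := by
        rw [h2]; exact norm_add_le _ _
      linarith
    have hbk : bk ρ x₀ = deriv bt (‖x₀‖ ^ 2 / ρ ^ 2) / ρ ^ 2 := by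
      have h1 : Complex.log (Complex.exp x₀) = x₀ := by
        have h2 := (Complex.abs_im_le_norm x₀).trans_lt hnx
        have h3 := Real.pi_gt_three
        apply Complex.log_exp
        · linarith [neg_lt_of_abs_lt h2]
        · linarith [lt_of_abs_lt h2]
      rw [bk, h1, sub_self, Real.exp_zero, one_mul]
    have hmu := Q.mu_ge _ hζa j
    rw [← hρ, ← hx₀, hbk] at hmu
    set bb := deriv bt (‖x₀‖ ^ 2 / ρ ^ 2) / ρ ^ 2 with hbb
    have hbb0 : 0 ≤ bb := div_nonneg (deriv_bt_nonneg _) (sq_nonneg _)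
    set B := ‖v 0 / a 0‖ ^ 2 with hB
    have hB0 : 0 ≤ B := sq_nonneg _
    have hlower : 4 * (Q.κ j * bb) * B ≤ l := by
      refine le_trans ?_ hl2
      have h1 := fl_nonneg (Pp (LB z₀ (a 0)) (a 1))
      have h2 := fl₁_nonneg (Pp (LB z₀ (a 0)) (a 1))
      have h3 : 0 ≤ Real.exp (LB z₀ (a 0)).im *
        (4 * fl₁ (Pp (LB z₀ (a 0)) (a 1)) * ‖v 1‖ ^ 2 + fl (Pp (LB z₀ (a 0)) (a 1)) * B) := by
        positivity
      have h4 : 4 * (Q.κ j * bb) * B ≤ 4 * Q.mu (LB z₀ (a 0)) * B := by gcongr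
      exact h4.trans (le_add_of_nonneg_right h3)
    have h5 : M * (4 * (Q.κ j * bb) * B) ≤ M * l := mul_le_mul_of_nonneg_left hlower hM0
    have h6 : 2 * bb * B ≤ M * (4 * (Q.κ j * bb) * B) := by
      have h7 : M * (4 * (Q.κ j * bb) * B) = (2 * M * Q.κ j) * (2 * bb * B) := by ring
      rw [h7]
      have h8 : 0 ≤ 2 * bb * B := by positivity
      calc 2 * bb * B = 1 * (2 * bb * B) := by ring
        _ ≤ (2 * M * Q.κ j) * (2 * bb * B) := mul_le_mul_of_nonneg_right hM1 h8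
    have h9 : -2 * bb * B + A * 0 + M * l = M * l - 2 * bb * B := by ring
    rw [h9]
    exact sub_nonneg.2 (h6.trans h5)
  · intro x hx
    have h1 := hpen M (by rw [hM]; have : 0 ≤ 1 / (2 * Q.κ j) := by positivity
                          linarith) x hx
    show g₀ x + M * rh Q (ch z₀ x).1 (ch z₀ x).2 < g₀ p + M * rh Q (ch z₀ p).1 (ch z₀ p).2
    rw [hchp, hrh0]
    linarith

theorem hull_all (Q : Cheese) (K : Set E2) (hK : K ⊆ closure (Om Q)) (hKc : IsCompact K) :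
    {z | z ∈ closure (Om Q) ∧ ∀ φ : E2 → ℝ, ContinuousOn φ (closure (Om Q)) → PSH (Om Q) φ →
      φ z ≤ sSup (φ '' K)} ∩ frontier (Om Q) = K ∩ frontier (Om Q) := by
  refine hull_condition (fun p hp N₀ hN₀ hpN => ?_) K hK hKc
  have h0 : rho Q p = 0 := frontier_Om Q hp
  rcases lt_or_ge 0 (Pp (Complex.log (p 0)) (p 1)) with h | h
  · exact hull_a Q h0 h hN₀ hpN
  · exact hull_b Q h0 h hN₀ hpN

end Pool.Agent.Helper303
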