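import Pool.Agent.Helper303.HullA

set_option autoImplicit false
open Filter Topology Asymptotics Metric

namespace Pool.Agent.Helper303

/-- The coordinate measuring the distance in the leaf direction. -/
noncomputable def VV (v₀ u₀ ζ₀ : ℂ) (y : ℂ × ℂ) : ℂ :=
  y.2 * Complex.exp (-Complex.I * y.1) - v₀ - u₀ * (y.1 - ζ₀)

lemma continuous_VV (v₀ u₀ ζ₀ : ℂ) : Continuous (VV v₀ u₀ ζ₀) := by
  unfold VV; fun_prop

lemma dist_bigO (v₀ u₀ ζ₀ w₀ : ℂ) (hv : v₀ = w₀ * Complex.exp (-Complex.I * ζ₀)) :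
    (fun y : ℂ × ℂ => y - (ζ₀, w₀)) =O[𝓝 (ζ₀, w₀)]
      fun y => ‖y.1 - ζ₀‖ + ‖VV v₀ u₀ ζ₀ y‖ := by
  have h1 : (fun y : ℂ × ℂ => y.1 - ζ₀) =O[𝓝 (ζ₀, w₀)]
      fun y => ‖y.1 - ζ₀‖ + ‖VV v₀ u₀ ζ₀ y‖ := by
    refine IsBigO.of_bound 1 (Eventually.of_forall fun y => ?_)
    rw [one_mul, Real.norm_of_nonneg (by positivity)]
    linarith [norm_nonneg (VV v₀ u₀ ζ₀ y)]
  have h2 : (fun y : ℂ × ℂ => VV v₀ u₀ ζ₀ y) =O[𝓝 (ζ₀, w₀)]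
      fun y => ‖y.1 - ζ₀‖ + ‖VV v₀ u₀ ζ₀ y‖ := by
    refine IsBigO.of_bound 1 (Eventually.of_forall fun y => ?_)
    rw [one_mul, Real.norm_of_nonneg (by positivity)]
    linarith [norm_nonneg (y.1 - ζ₀)]
  have h3 : (fun y : ℂ × ℂ => Complex.exp (Complex.I * y.1)) =O[𝓝 (ζ₀, w₀)]
      fun _ => (1 : ℝ) := by
    refine (ContinuousAt.tendsto ?_).isBigO_one ℝ
    fun_prop
  have h4 : (fun y : ℂ × ℂ => (v₀ + u₀ * (y.1 - ζ₀)) * Complex.exp (Complex.I * y.1) - w₀)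
      =O[𝓝 (ζ₀, w₀)] fun y => y.1 - ζ₀ := by
    have hd : DifferentiableAt ℂ (fun ζ : ℂ => (v₀ + u₀ * (ζ - ζ₀)) * Complex.exp (Complex.I * ζ)) ζ₀ := by
      fun_prop
    have h5 := hd.isBigO_sub
    have h6 : Tendsto (fun y : ℂ × ℂ => y.1) (𝓝 (ζ₀, w₀)) (𝓝 ζ₀) := continuous_fst.continuousAt
    have h7 := h5.comp_tendsto h6
    refine h7.congr_left fun y => ?_
    simp only [Function.comp, sub_self, mul_zero, add_zero]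
    rw [hv, mul_assoc w₀, ← Complex.exp_add]
    simp
  have h8 : (fun y : ℂ × ℂ => y.2 - w₀) =O[𝓝 (ζ₀, w₀)]
      fun y => ‖y.1 - ζ₀‖ + ‖VV v₀ u₀ ζ₀ y‖ := by
    have h9 := (h2.mul h3).congr_right (g₂ := fun y => ‖y.1 - ζ₀‖ + ‖VV v₀ u₀ ζ₀ y‖)
      fun y => by ring
    refine (h9.add (h4.trans h1)).congr_left fun y => ?_
    rw [VV]
    have h10 : Complex.exp (-Complex.I * y.1) * Complex.exp (Complex.I * y.1) = 1 := by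
      rw [← Complex.exp_add]; simp
    linear_combination y.2 * h10
  exact h1.prod_left h8

lemma fl_sq_bigO {P₀ : ℝ} (hP₀ : P₀ ≤ 0) :
    (fun t : ℝ => fl (P₀ + t)) =O[𝓝 0] fun t => t ^ 2 := by
  have h := (fl_taylor P₀).isBigO
  rw [fl_zero hP₀, fl₁_zero hP₀, fl₂_zero hP₀] at h
  simpa using h

lemma re_bound (Q : Cheese) {ζ₀ w₀ : ℂ} (hζ₀ : ζ₀ ∈ ball (0:ℂ) 20) (hre : |ζ₀.re| < 7)
    (h0 : rh Q ζ₀ w₀ = 0) (hP : Pp ζ₀ w₀ ≤ 0) :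
    ∃ C : ℝ, 0 < C ∧ ∀ᶠ y : ℂ × ℂ in 𝓝 (ζ₀, w₀), rh Q y.1 y.2 = 0 →
      |(VV (w₀ * Complex.exp (-Complex.I * ζ₀)) (Q.u ζ₀) ζ₀ y).re| ≤
        C * (‖y.1 - ζ₀‖ ^ 2 + ‖VV (w₀ * Complex.exp (-Complex.I * ζ₀)) (Q.u ζ₀) ζ₀ y‖ ^ 2) := by
  set v₀ := w₀ * Complex.exp (-Complex.I * ζ₀) with hv
  set u₀ := Q.u ζ₀ with hu
  set H : ℂ → ℝ := fun ζ => Real.exp ζ.im * Q.η (Complex.exp ζ) with hH
  -- first part
  have hA := (Q.lap ζ₀ hζ₀ hre).bigO_two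
  have ht : Tendsto (fun y : ℂ × ℂ => y.1 - ζ₀) (𝓝 (ζ₀, w₀)) (𝓝 0) := by
    have : Continuous fun y : ℂ × ℂ => y.1 - ζ₀ := by fun_prop
    have h1 := this.tendsto (ζ₀, w₀)
    simpa using h1
  have hA1 : (fun y : ℂ × ℂ => H y.1 - H ζ₀ - (2 * u₀ * (y.1 - ζ₀)).re) =O[𝓝 (ζ₀, w₀)]
      fun y => ‖y.1 - ζ₀‖ ^ 2 + ‖VV v₀ u₀ ζ₀ y‖ ^ 2 := by
    have h1 := hA.comp_tendsto ht
    refine (h1.congr_left fun y => ?_).trans ?_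
    · simp only [Function.comp, add_zero, hH, add_sub_cancel, hu]
    · refine IsBigO.of_bound 1 (Eventually.of_forall fun y => ?_)
      simp only [Function.comp]
      rw [one_mul, Real.norm_of_nonneg (by positivity), Real.norm_of_nonneg (by positivity)]
      linarith [sq_nonneg ‖VV v₀ u₀ ζ₀ y‖]
  -- second part
  have hB1 : (fun y : ℂ × ℂ => Pp y.1 y.2 - Pp ζ₀ w₀) =O[𝓝 (ζ₀, w₀)] fun y => y - (ζ₀, w₀) := by
    have hd : DifferentiableAt ℝ (fun y : ℂ × ℂ => Pp y.1 y.2) (ζ₀, w₀) := by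
      unfold Pp
      have h1 : DifferentiableAt ℝ (fun y : ℂ × ℂ => ‖y.2‖ ^ 2) (ζ₀, w₀) :=
        ((contDiff_norm_sq ℝ (n := 1)).differentiable (by norm_num) _).comp _
          (by fun_prop : DifferentiableAt ℝ (fun y : ℂ × ℂ => y.2) (ζ₀, w₀))
      have h2 : DifferentiableAt ℝ (fun y : ℂ × ℂ => y.1.re) (ζ₀, w₀) :=
        (Complex.reCLM.differentiableAt).comp _
          (by fun_prop : DifferentiableAt ℝ (fun y : ℂ × ℂ => y.1) (ζ₀, w₀))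
      have h3 : DifferentiableAt ℝ (fun y : ℂ × ℂ => y.1.re ^ 2 / 16) (ζ₀, w₀) := by
        have h4 := (h2.pow 2).const_mul (1 / 16 : ℝ)
        refine h4.congr_of_eventuallyEq (Eventually.of_forall fun y => ?_)
        simp; ring
      exact (h1.add h3).sub_const 1
    exact hd.isBigO_sub
  have hB2 : Tendsto (fun y : ℂ × ℂ => Pp y.1 y.2 - Pp ζ₀ w₀) (𝓝 (ζ₀, w₀)) (𝓝 0) := by
    have : Continuous fun y : ℂ × ℂ => Pp y.1 y.2 - Pp ζ₀ w₀ := continuous_Pp.sub continuous_const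
    have h1 := this.tendsto (ζ₀, w₀)
    simpa using h1
  have hB3 : (fun y : ℂ × ℂ => fl (Pp y.1 y.2)) =O[𝓝 (ζ₀, w₀)]
      fun y => ‖y.1 - ζ₀‖ ^ 2 + ‖VV v₀ u₀ ζ₀ y‖ ^ 2 := by
    have h1 := (fl_sq_bigO hP).comp_tendsto hB2
    have h2 := (hB1.trans (dist_bigO v₀ u₀ ζ₀ w₀ hv)).pow 2
    have h3 : (fun y : ℂ × ℂ => (‖y.1 - ζ₀‖ + ‖VV v₀ u₀ ζ₀ y‖) ^ 2) =O[𝓝 (ζ₀, w₀)]
        fun y => ‖y.1 - ζ₀‖ ^ 2 + ‖VV v₀ u₀ ζ₀ y‖ ^ 2 := by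
      refine IsBigO.of_bound 2 (Eventually.of_forall fun y => ?_)
      rw [Real.norm_of_nonneg (by positivity), Real.norm_of_nonneg (by positivity)]
      nlinarith [sq_nonneg (‖y.1 - ζ₀‖ - ‖VV v₀ u₀ ζ₀ y‖)]
    refine ((h1.congr_left fun y => ?_).trans (h2.congr_left fun y => rfl)).trans h3
    simp [Function.comp]
  have hB4 : (fun y : ℂ × ℂ => Real.exp y.1.im) =O[𝓝 (ζ₀, w₀)] fun _ => (1 : ℝ) := by
    refine (ContinuousAt.tendsto ?_).isBigO_one ℝ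
    have : Continuous fun y : ℂ × ℂ => Real.exp y.1.im :=
      Real.continuous_exp.comp (Complex.continuous_im.comp continuous_fst)
    exact this.continuousAt
  have hB5 := (hB4.mul hB3).congr_right
    (g₂ := fun y => ‖y.1 - ζ₀‖ ^ 2 + ‖VV v₀ u₀ ζ₀ y‖ ^ 2) fun y => by ring
  obtain ⟨C, hC⟩ := (hA1.add hB5).bound
  refine ⟨max C 1, by positivity, ?_⟩
  filter_upwards [hC] with y hy hrh
  have hH0 : 2 * v₀.re = H ζ₀ := by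
    have h1 := h0
    rw [rh] at h1
    have h2 : fl (‖w₀‖ ^ 2 + ζ₀.re ^ 2 / 16 - 1) = 0 := fl_zero hP
    rw [h2, ← hv] at h1
    simp only [hH]; linarith
  have hH1 : 2 * (y.2 * Complex.exp (-Complex.I * y.1)).re = H y.1 + Real.exp y.1.im * fl (Pp y.1 y.2) := by
    have h1 := hrh
    rw [rh] at h1
    simp only [hH, Pp]; linarith
  have hkey : 2 * (VV v₀ u₀ ζ₀ y).re = H y.1 - H ζ₀ - (2 * u₀ * (y.1 - ζ₀)).re
      + Real.exp y.1.im * fl (Pp y.1 y.2) := by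
    rw [VV, Complex.sub_re, Complex.sub_re]
    have h1 : (2 * u₀ * (y.1 - ζ₀)).re = 2 * (u₀ * (y.1 - ζ₀)).re := by
      rw [mul_assoc, show (2:ℂ) = ((2:ℝ):ℂ) by norm_num, Complex.re_ofReal_mul]
    rw [h1]; linarith
  rw [← hkey] at hy
  rw [Real.norm_eq_abs, abs_mul, abs_two, Real.norm_of_nonneg (by positivity)] at hy
  have h5 : 0 ≤ ‖y.1 - ζ₀‖ ^ 2 + ‖VV v₀ u₀ ζ₀ y‖ ^ 2 := by positivity
  have h6 : C * (‖y.1 - ζ₀‖ ^ 2 + ‖VV v₀ u₀ ζ₀ y‖ ^ 2) ≤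
      max C 1 * (‖y.1 - ζ₀‖ ^ 2 + ‖VV v₀ u₀ ζ₀ y‖ ^ 2) :=
    mul_le_mul_of_nonneg_right (le_max_left _ _) h5
  have h7 := abs_nonneg (VV v₀ u₀ ζ₀ y).re
  linarith

lemma exists_pos_lower {X : Type*} [TopologicalSpace X] {K : Set X} (hK : IsCompact K)
    {f : X → ℝ} (hf : ContinuousOn f K) (hpos : ∀ x ∈ K, 0 < f x) :
    ∃ m : ℝ, 0 < m ∧ ∀ x ∈ K, m ≤ f x := by
  rcases K.eq_empty_or_nonempty with rfl | hne
  · exact ⟨1, one_pos, fun x hx => absurd hx (Set.notMem_empty x)⟩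
  · obtain ⟨x₀, hx₀, hmin⟩ := hK.exists_isMinOn hne hf
    exact ⟨f x₀, hpos x₀ hx₀, fun x hx => hmin hx⟩

/-- The algebraic estimate at the boundary. -/
lemma re_sq_le {V : ℂ} {C a R₂ : ℝ} (hC : 0 < C) (hR : 4 * C * R₂ ≤ 1) (hV : ‖V‖ ≤ R₂)
    (h : |V.re| ≤ C * (a ^ 2 + ‖V‖ ^ 2)) :
    (V ^ 2).re ≤ 4 * C ^ 2 * a ^ 4 - ‖V‖ ^ 2 / 2 := by
  have h1 : (V ^ 2).re = 2 * V.re ^ 2 - ‖V‖ ^ 2 := by
    rw [← Complex.normSq_eq_norm_sq, Complex.normSq_apply, pow_two, Complex.mul_re]; ring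
  have h2 : V.re ^ 2 ≤ (C * (a ^ 2 + ‖V‖ ^ 2)) ^ 2 := by
    rw [← sq_abs]
    gcongr
  have h3 : (C * (a ^ 2 + ‖V‖ ^ 2)) ^ 2 ≤ 2 * C ^ 2 * a ^ 4 + 2 * C ^ 2 * ‖V‖ ^ 4 := by
    nlinarith [mul_nonneg (sq_nonneg C) (sq_nonneg (a ^ 2 - ‖V‖ ^ 2))]
  have h4 : 4 * C * ‖V‖ ≤ 1 := by
    have : 4 * C * ‖V‖ ≤ 4 * C * R₂ := by gcongr
    linarith
  have h5 : 4 * C ^ 2 * ‖V‖ ^ 4 ≤ ‖V‖ ^ 2 / 4 := by
    have h6 : (4 * C * ‖V‖) ^ 2 ≤ 1 := by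
      have : 0 ≤ 4 * C * ‖V‖ := by positivity
      nlinarith
    nlinarith [sq_nonneg ‖V‖]
  nlinarith [sq_nonneg ‖V‖]

end Pool.Agent.Helper303
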