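import Pool.Agent.Helper303.Flat

set_option autoImplicit false
open Filter Topology Asymptotics

namespace Pool.Agent.Helper303

/-- A smooth step. -/
noncomputable def bt (s : ℝ) : ℝ := Real.smoothTransition (2 * s - 1)

lemma bt_zero {s : ℝ} (h : s ≤ 1 / 2) : bt s = 0 :=
  Real.smoothTransition.zero_of_nonpos (by linarith)

lemma bt_one {s : ℝ} (h : 1 ≤ s) : bt s = 1 :=
  Real.smoothTransition.one_of_one_le (by linarith)

lemma contDiff_bt : ContDiff ℝ ((⊤ : ℕ∞) : WithTop ℕ∞) bt :=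
  Real.smoothTransition.contDiff.comp ((contDiff_const.mul contDiff_id).sub contDiff_const)

lemma bt_nonneg (s : ℝ) : 0 ≤ bt s := Real.smoothTransition.nonneg _

lemma bt_le_one (s : ℝ) : bt s ≤ 1 := Real.smoothTransition.le_one _

lemma bt_mono : Monotone bt := fun a b hab =>
  Real.smoothTransition.monotone (by linarith)

lemma hasDerivAt_bt (s : ℝ) : HasDerivAt bt (deriv bt s) s :=
  (contDiff_bt.differentiable (by simp) s).hasDerivAt

lemma deriv_bt_nonneg (s : ℝ) : 0 ≤ deriv bt s := bt_mono.deriv_nonneg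

lemma deriv_bt_zero_left {s : ℝ} (h : s < 1 / 2) : deriv bt s = 0 := by
  have : bt =ᶠ[𝓝 s] fun _ => 0 := by
    filter_upwards [Iio_mem_nhds h] with x hx
    exact bt_zero (le_of_lt hx)
  rw [this.deriv_eq]; simp

lemma deriv_bt_zero_right {s : ℝ} (h : 1 < s) : deriv bt s = 0 := by
  have : bt =ᶠ[𝓝 s] fun _ => 1 := by
    filter_upwards [Ioi_mem_nhds h] with x hx
    exact bt_one (le_of_lt hx)
  rw [this.deriv_eq]; simp

/-- Real linear map with given Wirtinger coefficients. -/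
noncomputable def wirt (α β : ℂ) : ℂ →L[ℝ] ℂ :=
  α • (ContinuousLinearMap.id ℝ ℂ) + β • (Complex.conjCLE : ℂ →L[ℝ] ℂ)

@[simp] lemma wirt_apply (α β k : ℂ) : wirt α β k = α * k + β * (starRingEnd ℂ) k := by
  simp [wirt]

lemma hasFDerivAt_wirt_of_hasDerivAt {f : ℂ → ℂ} {f' x : ℂ} (h : HasDerivAt f f' x) :
    HasFDerivAt f (wirt f' 0) x := by
  refine (h.hasFDerivAt.restrictScalars ℝ).congr_fderiv ?_
  refine ContinuousLinearMap.ext fun k => ?_
  simp [mul_comm]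

lemma wirt_add {f g : ℂ → ℂ} {a b c d x : ℂ} (hf : HasFDerivAt f (wirt a b) x)
    (hg : HasFDerivAt g (wirt c d) x) : HasFDerivAt (fun y => f y + g y) (wirt (a + c) (b + d)) x := by
  refine (hf.add hg).congr_fderiv ?_
  refine ContinuousLinearMap.ext fun k => ?_
  simp
  ring

lemma wirt_const_mul {f : ℂ → ℂ} {a b x : ℂ} (k : ℂ) (hf : HasFDerivAt f (wirt a b) x) :
    HasFDerivAt (fun y => k * f y) (wirt (k * a) (k * b)) x := by
  refine (hf.const_mul k).congr_fderiv ?_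
  refine ContinuousLinearMap.ext fun z => ?_
  simp
  ring

/-- Smoothed version of the inverse. -/
noncomputable def kr (r : ℝ) (y : ℂ) : ℂ := (bt (‖y‖ ^ 2 / r ^ 2) : ℂ) * y⁻¹

lemma kr_eventually_zero {r : ℝ} (hr : 0 < r) : ∀ᶠ y : ℂ in 𝓝 0, kr r y = 0 := by
  filter_upwards [Metric.ball_mem_nhds (0:ℂ) (half_pos hr)] with y hy
  have h1 : ‖y‖ < r / 2 := by simpa using hy
  have h2 : ‖y‖ ^ 2 / r ^ 2 ≤ 1 / 2 := by
    rw [div_le_iff₀ (by positivity)]
    nlinarith [norm_nonneg y]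
  rw [kr, bt_zero h2]
  simp

lemma hasFDerivAt_kr {r : ℝ} (hr : 0 < r) (y : ℂ) :
    ∃ α : ℂ, HasFDerivAt (kr r) (wirt α ((deriv bt (‖y‖ ^ 2 / r ^ 2) / r ^ 2 : ℝ) : ℂ)) y := by
  by_cases hy : y = 0
  · subst hy
    refine ⟨0, ?_⟩
    have h1 : deriv bt (‖(0:ℂ)‖ ^ 2 / r ^ 2) = 0 := deriv_bt_zero_left (by simp)
    rw [h1]
    have h2 : wirt 0 (((0:ℝ) / r ^ 2 : ℝ) : ℂ) = 0 := by
      refine ContinuousLinearMap.ext fun k => ?_
      simp
    rw [h2]
    exact (hasFDerivAt_const (0:ℂ) (0:ℂ)).congr_of_eventuallyEq (kr_eventually_zero hr)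
  · refine ⟨(deriv bt (‖y‖ ^ 2 / r ^ 2) / r ^ 2 : ℝ) * (starRingEnd ℂ) y * y⁻¹
        - (bt (‖y‖ ^ 2 / r ^ 2) : ℂ) * (y⁻¹ * y⁻¹), ?_⟩
    have h1 : HasFDerivAt (fun y : ℂ => ‖y‖ ^ 2) (2 • (innerSL ℝ) y) y :=
      (hasStrictFDerivAt_norm_sq y).hasFDerivAt
    have h2 : HasFDerivAt (fun y : ℂ => ‖y‖ ^ 2 / r ^ 2) ((r ^ 2)⁻¹ • (2 • (innerSL ℝ) y)) y := by
      have := h1.const_mul ((r ^ 2)⁻¹)
      refine this.congr_of_eventuallyEq (Eventually.of_forall fun z => ?_)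
      simp only; rw [div_eq_inv_mul]
    have h3 := (hasDerivAt_bt (‖y‖ ^ 2 / r ^ 2)).comp_hasFDerivAt y h2
    have h4 := Complex.ofRealCLM.hasFDerivAt.comp y h3
    have h5 : HasFDerivAt (fun y : ℂ => y⁻¹) (wirt (-(y ^ 2)⁻¹) 0) y :=
      hasFDerivAt_wirt_of_hasDerivAt (hasDerivAt_inv hy)
    have h6 := h4.mul h5
    refine h6.congr_fderiv ?_
    refine ContinuousLinearMap.ext fun k => ?_
    have hyc : (starRingEnd ℂ) y ≠ 0 := by simpa using hy
    have e1 : ((2 * (inner ℝ y k) : ℝ) : ℂ) = (starRingEnd ℂ) y * k + y * (starRingEnd ℂ) k := by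
      rw [Complex.inner]
      apply Complex.ext
      · simp; ring
      · simp; ring
    simp only [add_apply, smul_apply, wirt_apply,
      ContinuousLinearMap.comp_apply, Function.comp, Complex.ofRealCLM_apply, smul_eq_mul,
      innerSL_apply_apply]
    have e2 : ((deriv bt (‖y‖ ^ 2 / r ^ 2) * ((r ^ 2)⁻¹ * (2 • (inner ℝ y k : ℝ))) : ℝ) : ℂ)
        = (deriv bt (‖y‖ ^ 2 / r ^ 2) / r ^ 2 : ℝ) * ((starRingEnd ℂ) y * k + y * (starRingEnd ℂ) k) := by
      rw [← e1]; push_cast; simp only [nsmul_eq_mul]; push_cast; ring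
    rw [e2]
    field_simp
    ring

lemma contDiff_kr {r : ℝ} (hr : 0 < r) : ContDiff ℝ ((⊤ : ℕ∞) : WithTop ℕ∞) (kr r) := by
  rw [contDiff_iff_contDiffAt]
  intro y
  by_cases hy : y = 0
  · subst hy
    exact contDiffAt_const.congr_of_eventuallyEq (kr_eventually_zero hr)
  · have h1 : ContDiffAt ℝ ((⊤ : ℕ∞) : WithTop ℕ∞) (fun y : ℂ => ‖y‖ ^ 2 / r ^ 2) y :=
      ((contDiff_norm_sq ℝ).div_const _).contDiffAt
    have h2 := contDiff_bt.contDiffAt.comp y h1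
    have h3 := Complex.ofRealCLM.contDiff.contDiffAt.comp y h2
    exact h3.mul (contDiffAt_inv ℝ hy)

end Pool.Agent.Helper303
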