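import Pool.Agent.Helper303.Kernel

set_option autoImplicit false
open Filter Topology Asymptotics Metric

namespace Pool.Agent.Helper303

noncomputable def lgq (z : ℂ) : ℂ := dslope Complex.log 1 z

noncomputable def Fq (z : ℂ) : ℂ := z * lgq z - Complex.exp (Complex.I * Complex.log z)

noncomputable def Qf (z : ℂ) : ℂ := dslope Fq 1 z / lgq z

lemma ball_slit {z : ℂ} (hz : z ∈ ball (1:ℂ) 1) : z ∈ Complex.slitPlane := by
  have h := Complex.mem_slitPlane_of_norm_lt_one (z := z - 1) (by simpa [dist_eq_norm] using hz)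
  simpa using h

lemma lgq_one : lgq 1 = 1 := by
  rw [lgq, dslope_same]
  have := (Complex.hasDerivAt_log (z := 1) (by simp)).deriv
  rw [this]; simp

lemma lgq_of_ne {z : ℂ} (hz : z ≠ 1) : lgq z = Complex.log z / (z - 1) := by
  rw [lgq, dslope_of_ne _ hz, slope_def_field]; simp

lemma log_ne {z : ℂ} (hz0 : z ≠ 0) (hz : z ≠ 1) : Complex.log z ≠ 0 := by
  intro h
  have := Complex.exp_log hz0
  rw [h, Complex.exp_zero] at this
  exact hz this.symm

lemma ball_ne_zero {z : ℂ} (hz : z ∈ ball (1:ℂ) 1) : z ≠ 0 := by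
  rintro rfl
  simp at hz

lemma lgq_ne {z : ℂ} (hz : z ∈ ball (1:ℂ) 1) : lgq z ≠ 0 := by
  by_cases h1 : z = 1
  · rw [h1, lgq_one]; exact one_ne_zero
  · rw [lgq_of_ne h1]
    exact div_ne_zero (log_ne (ball_ne_zero hz) h1) (sub_ne_zero.2 h1)

lemma differentiableOn_log_ball : DifferentiableOn ℂ Complex.log (ball (1:ℂ) 1) := fun _ hz =>
  (Complex.differentiableAt_log (ball_slit hz)).differentiableWithinAt

lemma differentiableOn_lgq : DifferentiableOn ℂ lgq (ball (1:ℂ) 1) :=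
  (Complex.differentiableOn_dslope (ball_mem_nhds (1:ℂ) one_pos)).2 differentiableOn_log_ball

lemma differentiableOn_Fq : DifferentiableOn ℂ Fq (ball (1:ℂ) 1) :=
  (differentiableOn_id.mul differentiableOn_lgq).sub
    ((differentiableOn_log_ball.const_mul _).cexp)

lemma differentiableOn_Qf : DifferentiableOn ℂ Qf (ball (1:ℂ) 1) :=
  ((Complex.differentiableOn_dslope (ball_mem_nhds (1:ℂ) one_pos)).2 differentiableOn_Fq).div
    differentiableOn_lgq fun _ hz => lgq_ne hz

lemma Qf_eq {z : ℂ} (hz : z ∈ ball (1:ℂ) 1) (h1 : z ≠ 1) :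
    Qf z = z / (z - 1) - Complex.exp (Complex.I * Complex.log z) * (Complex.log z)⁻¹ := by
  have hF1 : Fq 1 = 0 := by rw [Fq, lgq_one]; simp
  have hl := log_ne (ball_ne_zero hz) h1
  have hz1 : z - 1 ≠ 0 := sub_ne_zero.2 h1
  rw [Qf, dslope_of_ne _ h1, slope_def_field, hF1, sub_zero, Fq, lgq_of_ne h1]
  field_simp

/-- The kernel on the plane of `z = exp x`. -/
noncomputable def Wk (r : ℝ) (z : ℂ) : ℂ :=
  if ‖z - 1‖ < 1 / 2 then Qf z + Complex.exp (Complex.I * Complex.log z) * kr r (Complex.log z)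
  else z / (z - 1)

lemma norm_log_gt {r : ℝ} (hr : 0 < r) (hr8 : r ≤ 1 / 8) {z : ℂ} (hz0 : z ≠ 0)
    (hz : 1 / 4 < ‖z - 1‖) : r < ‖Complex.log z‖ := by
  by_contra hcon
  push Not at hcon
  have h1 := Complex.norm_exp_sub_one_le (x := Complex.log z) (by linarith)
  rw [Complex.exp_log hz0] at h1
  linarith

lemma Wk_near {r : ℝ} {z : ℂ} (hz : ‖z - 1‖ < 1 / 2) :
    Wk r =ᶠ[𝓝 z] fun z => Qf z + Complex.exp (Complex.I * Complex.log z) * kr r (Complex.log z) := by
  have : ∀ᶠ y : ℂ in 𝓝 z, ‖y - 1‖ < 1 / 2 := by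
    have : Continuous fun y : ℂ => ‖y - 1‖ := by fun_prop
    exact this.continuousAt.eventually (Iio_mem_nhds hz)
  filter_upwards [this] with y hy
  rw [Wk, if_pos hy]

lemma Wk_far {r : ℝ} (hr : 0 < r) (hr8 : r ≤ 1 / 8) {z : ℂ} (hz : 1 / 4 < ‖z - 1‖) :
    Wk r z = z / (z - 1) := by
  rw [Wk]
  split_ifs with h
  · have hb : z ∈ ball (1:ℂ) 1 := by
      rw [mem_ball, dist_eq_norm]; linarith
    have h1 : z ≠ 1 := by
      rintro rfl
      simp at hz
      linarith
    have hl := norm_log_gt hr hr8 (ball_ne_zero hb) hz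
    have h2 : 1 ≤ ‖Complex.log z‖ ^ 2 / r ^ 2 := by
      rw [le_div_iff₀ (by positivity)]
      nlinarith
    rw [Qf_eq hb h1, kr, bt_one h2]
    push_cast
    ring
  · rfl

lemma Wk_far_near {r : ℝ} (hr : 0 < r) (hr8 : r ≤ 1 / 8) {z : ℂ} (hz : 1 / 4 < ‖z - 1‖) :
    Wk r =ᶠ[𝓝 z] fun z => z / (z - 1) := by
  have : ∀ᶠ y : ℂ in 𝓝 z, 1 / 4 < ‖y - 1‖ := by
    have : Continuous fun y : ℂ => ‖y - 1‖ := by fun_prop
    exact this.continuousAt.eventually (Ioi_mem_nhds hz)
  filter_upwards [this] with y hy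
  exact Wk_far hr hr8 hy

lemma contDiff_Wk {r : ℝ} (hr : 0 < r) (hr8 : r ≤ 1 / 8) :
    ContDiff ℝ ((⊤ : ℕ∞) : WithTop ℕ∞) (Wk r) := by
  rw [contDiff_iff_contDiffAt]
  intro z
  by_cases hz : ‖z - 1‖ < 1 / 2
  · refine ContDiffAt.congr_of_eventuallyEq ?_ (Wk_near hz)
    have hb : z ∈ ball (1:ℂ) 1 := by
      rw [mem_ball, dist_eq_norm]; linarith
    have hnb : ball (1:ℂ) 1 ∈ 𝓝 z := isOpen_ball.mem_nhds hb
    have hlog : ContDiffAt ℝ ((⊤ : ℕ∞) : WithTop ℕ∞) Complex.log z :=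
      ((Complex.contDiffAt_log (n := ((⊤ : ℕ∞) : WithTop ℕ∞)) (ball_slit hb)).restrict_scalars ℝ)
    have hQ : ContDiffAt ℝ ((⊤ : ℕ∞) : WithTop ℕ∞) Qf z := by
      have := (differentiableOn_Qf.analyticAt hnb).contDiffAt (n := ((⊤ : ℕ∞) : WithTop ℕ∞))
      exact this.restrict_scalars ℝ
    refine hQ.add (ContDiffAt.mul ?_ ((contDiff_kr hr).contDiffAt.comp z hlog))
    have he : ContDiff ℝ ((⊤ : ℕ∞) : WithTop ℕ∞) Complex.exp :=
      (Complex.contDiff_exp (𝕜 := ℂ)).restrict_scalars ℝ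
    exact he.contDiffAt.comp z (contDiffAt_const.mul hlog)
  · have hz' : 1 / 4 < ‖z - 1‖ := by push Not at hz; linarith
    refine ContDiffAt.congr_of_eventuallyEq ?_ (Wk_far_near hr hr8 hz')
    have h1 : z - 1 ≠ 0 := by
      intro h; rw [h] at hz'; simp at hz'; linarith
    have h2 : ContDiffAt ℝ ((⊤ : ℕ∞) : WithTop ℕ∞) (fun z : ℂ => z - 1) z :=
      (contDiff_id.sub contDiff_const).contDiffAt
    have h3 := (contDiffAt_inv ℝ h1 (n := ((⊤ : ℕ∞) : WithTop ℕ∞))).comp z h2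
    have h4 := (contDiff_id (𝕜 := ℝ) (E := ℂ)).contDiffAt.mul h3
    refine h4.congr_of_eventuallyEq (Eventually.of_forall fun t => ?_)
    simp [div_eq_mul_inv]

/-- The smoothed kernel. -/
noncomputable def uk (r : ℝ) (x : ℂ) : ℂ := Complex.exp (-Complex.I * x) * Wk r (Complex.exp x)

/-- The Wirtinger derivative of the smoothed kernel. -/
noncomputable def bk (r : ℝ) (x : ℂ) : ℝ :=
  Real.exp (x.im - (Complex.log (Complex.exp x)).im) *
    (deriv bt (‖Complex.log (Complex.exp x)‖ ^ 2 / r ^ 2) / r ^ 2)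

lemma bk_nonneg (r : ℝ) (x : ℂ) : 0 ≤ bk r x :=
  mul_nonneg (Real.exp_pos _).le (div_nonneg (deriv_bt_nonneg _) (sq_nonneg r))

lemma bk_zero {r : ℝ} (hr : 0 < r) {x : ℂ} (h : r < ‖Complex.log (Complex.exp x)‖) :
    bk r x = 0 := by
  rw [bk, deriv_bt_zero_right]
  · simp
  · rw [lt_div_iff₀ (by positivity)]
    nlinarith

lemma contDiff_uk {r : ℝ} (hr : 0 < r) (hr8 : r ≤ 1 / 8) :
    ContDiff ℝ ((⊤ : ℕ∞) : WithTop ℕ∞) (uk r) := by
  have he : ContDiff ℝ ((⊤ : ℕ∞) : WithTop ℕ∞) Complex.exp :=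
    (Complex.contDiff_exp (𝕜 := ℂ)).restrict_scalars ℝ
  exact (he.comp (contDiff_const.mul contDiff_id)).mul ((contDiff_Wk hr hr8).comp he)

lemma uk_period (r : ℝ) (x : ℂ) :
    uk r (x + 2 * Real.pi * Complex.I) = Real.exp (2 * Real.pi) * uk r x := by
  rw [uk, uk, Complex.exp_add, Complex.exp_two_pi_mul_I, mul_one, mul_add, Complex.exp_add]
  have : -Complex.I * (2 * Real.pi * Complex.I) = ((2 * Real.pi : ℝ) : ℂ) := by
    push_cast
    ring_nf
    rw [Complex.I_sq]; ring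
  rw [this, ← Complex.ofReal_exp]
  ring

lemma hasFDerivAt_uk {r : ℝ} (hr : 0 < r) (hr8 : r ≤ 1 / 8) (x : ℂ) :
    ∃ α : ℂ, HasFDerivAt (uk r) (wirt α (bk r x)) x := by
  by_cases hz : ‖Complex.exp x - 1‖ < 1 / 2
  · have hb : Complex.exp x ∈ ball (1:ℂ) 1 := by
      rw [mem_ball, dist_eq_norm]; linarith
    set y := Complex.log (Complex.exp x) with hy
    obtain ⟨n, hn⟩ : ∃ n : ℤ, x = y + n * (2 * Real.pi * Complex.I) := by
      rw [← Complex.exp_eq_exp_iff_exists_int, hy, Complex.exp_log (Complex.exp_ne_zero x)]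
    set c : ℂ := n * (2 * Real.pi * Complex.I) with hc
    have hyim : |y.im| < Real.pi := by
      rw [hy, Complex.log_im]
      have h1 := Complex.mem_slitPlane_iff_arg.1 (ball_slit hb)
      rw [abs_lt]
      exact ⟨Complex.neg_pi_lt_arg _, lt_of_le_of_ne (Complex.arg_le_pi _) h1.1⟩
    have hlog : ∀ᶠ t in 𝓝 x, Complex.log (Complex.exp t) = t - c := by
      have h1 : ∀ᶠ t in 𝓝 x, |(t - c).im| < Real.pi := by
        have h2 : Continuous fun t : ℂ => |(t - c).im| := by fun_prop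
        refine h2.continuousAt.eventually (Iio_mem_nhds ?_)
        simp only
        rw [show x - c = y by rw [hn]; ring]
        exact hyim
      filter_upwards [h1] with t ht
      have h3 : Complex.exp t = Complex.exp (t - c) := by
        rw [Complex.exp_sub, hc, Complex.exp_int_mul_two_pi_mul_I, div_one]
      rw [h3, Complex.log_exp (neg_lt_of_abs_lt ht) (lt_of_abs_lt ht).le]
    have hcim : x.im - y.im = c.im := by rw [hn]; simp
    have hcre : c.re = 0 := by rw [hc]; simp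
    have hexpc : Complex.exp (-Complex.I * c) = (Real.exp (x.im - y.im) : ℂ) := by
      rw [hcim, Complex.ofReal_exp]
      congr 1
      apply Complex.ext <;> simp [hcre]
    have hW : ∀ᶠ t in 𝓝 x, uk r t = Complex.exp (-Complex.I * t) * Qf (Complex.exp t)
        + Complex.exp (-Complex.I * c) * kr r (t - c) := by
      have h1 : ∀ᶠ t in 𝓝 x, Wk r (Complex.exp t) = Qf (Complex.exp t)
          + Complex.exp (Complex.I * Complex.log (Complex.exp t))
            * kr r (Complex.log (Complex.exp t)) :=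
        Complex.continuous_exp.continuousAt.eventually (Wk_near hz)
      filter_upwards [h1, hlog] with t ht1 ht2
      rw [uk, ht1, ht2, mul_add, ← mul_assoc, ← Complex.exp_add]
      congr 3
      ring
    have hd1 : DifferentiableAt ℂ (fun t => Complex.exp (-Complex.I * t) * Qf (Complex.exp t)) x := by
      have hQ : DifferentiableAt ℂ Qf (Complex.exp x) :=
        (differentiableOn_Qf _ hb).differentiableAt (isOpen_ball.mem_nhds hb)
      exact (by fun_prop : DifferentiableAt ℂ (fun t => Complex.exp (-Complex.I * t)) x).mul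
        (hQ.comp x Complex.differentiableAt_exp)
    obtain ⟨α, hα⟩ := hasFDerivAt_kr hr y
    have hd2 : HasFDerivAt (fun t => kr r (t - c))
        (wirt α ((deriv bt (‖y‖ ^ 2 / r ^ 2) / r ^ 2 : ℝ) : ℂ)) x := by
      have h1 : HasFDerivAt (fun t : ℂ => t - c) (ContinuousLinearMap.id ℝ ℂ) x :=
        (hasFDerivAt_id x).sub_const c
      have h2 : x - c = y := by rw [hn]; ring
      have h3 := HasFDerivAt.comp x (g := kr r) (by rw [h2]; exact hα) h1
      exact h3
    have h5 := wirt_add (hasFDerivAt_wirt_of_hasDerivAt hd1.hasDerivAt)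
      (wirt_const_mul (Complex.exp (-Complex.I * c)) hd2)
    have h6 : (0 : ℂ) + Complex.exp (-Complex.I * c) * ((deriv bt (‖y‖ ^ 2 / r ^ 2) / r ^ 2 : ℝ) : ℂ)
        = (bk r x : ℂ) := by
      rw [zero_add, hexpc, bk, ← hy, ← Complex.ofReal_mul]
    rw [h6] at h5
    exact ⟨_, h5.congr_of_eventuallyEq hW⟩
  · push Not at hz
    have hz' : 1 / 4 < ‖Complex.exp x - 1‖ := by linarith
    have hzero : bk r x = 0 := bk_zero hr (norm_log_gt hr hr8 (Complex.exp_ne_zero x) hz')
    have hW : ∀ᶠ t in 𝓝 x, uk r t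
        = Complex.exp (-Complex.I * t) * (Complex.exp t / (Complex.exp t - 1)) := by
      have h1 := Complex.continuous_exp.continuousAt.eventually (Wk_far_near hr hr8 hz')
      filter_upwards [h1] with t ht
      rw [uk, ht]
    have hne : Complex.exp x - 1 ≠ 0 := by
      intro h; rw [h] at hz'; simp at hz'; linarith
    have hd1 : DifferentiableAt ℂ (fun t => Complex.exp (-Complex.I * t)
        * (Complex.exp t / (Complex.exp t - 1))) x := by
      refine DifferentiableAt.mul (by fun_prop) (DifferentiableAt.div (by fun_prop) (by fun_prop) hne)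
    rw [hzero, Complex.ofReal_zero]
    exact ⟨_, (hasFDerivAt_wirt_of_hasDerivAt hd1.hasDerivAt).congr_of_eventuallyEq hW⟩

end Pool.Agent.Helper303
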