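import Mathlib

set_option autoImplicit false
open Filter Topology Asymptotics

namespace Pool.Agent.Helper303

/-- Second order expansion at the origin with complex gradient `g` and Laplacian `l`. -/
def HasLap (u : ℂ → ℝ) (g : ℂ) (l : ℝ) : Prop :=
  ∃ c : ℂ, (fun h : ℂ => u h - u 0 - (g * h).re - l / 4 * ‖h‖ ^ 2 - (c * h ^ 2).re)
    =o[𝓝 0] fun h : ℂ => ‖h‖ ^ 2

/-- Second order complex expansion at the origin. -/
def HasTwo (f : ℂ → ℂ) (f₁ : ℂ) : Prop :=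
  ∃ c : ℂ, (fun h : ℂ => f h - f 0 - f₁ * h - c * h ^ 2) =o[𝓝 0] fun h : ℂ => ‖h‖ ^ 2

lemma isBigO_re_mul_sq (c : ℂ) : (fun h : ℂ => (c * h ^ 2).re) =O[𝓝 0] fun h : ℂ => ‖h‖ ^ 2 := by
  refine IsBigO.of_bound ‖c‖ (Eventually.of_forall fun h => ?_)
  calc ‖(c * h ^ 2).re‖ ≤ ‖c * h ^ 2‖ := Complex.abs_re_le_norm _
    _ = ‖c‖ * ‖‖h‖ ^ 2‖ := by rw [norm_mul, norm_pow, Real.norm_of_nonneg (by positivity : (0:ℝ) ≤ ‖h‖ ^ 2)]

lemma isBigO_re_mul (c : ℂ) : (fun h : ℂ => (c * h).re) =O[𝓝 0] fun h : ℂ => ‖h‖ := by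
  refine IsBigO.of_bound ‖c‖ (Eventually.of_forall fun h => ?_)
  calc ‖(c * h).re‖ ≤ ‖c * h‖ := Complex.abs_re_le_norm _
    _ = ‖c‖ * ‖‖h‖‖ := by rw [norm_mul, norm_norm]

lemma isBigO_sq_norm : (fun h : ℂ => ‖h‖ ^ 2) =O[𝓝 0] fun h : ℂ => ‖h‖ := by
  refine IsBigO.of_bound 1 ?_
  filter_upwards [Metric.ball_mem_nhds (0 : ℂ) one_pos] with h hh
  have h1 : ‖h‖ < 1 := by simpa using hh
  rw [norm_pow, norm_norm]
  nlinarith [norm_nonneg h]

lemma isLittleO_cube : (fun h : ℂ => ‖h‖ * ‖h‖ ^ 2) =o[𝓝 0] fun h : ℂ => ‖h‖ ^ 2 := by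
  have : (fun h : ℂ => ‖h‖) =o[𝓝 0] fun _ : ℂ => (1 : ℝ) := by
    rw [isLittleO_one_iff]
    exact tendsto_norm_zero
  simpa using this.mul_isBigO (isBigO_refl (fun h : ℂ => ‖h‖ ^ 2) (𝓝 0))

lemma HasLap.bigO_two {u : ℂ → ℝ} {g : ℂ} {l : ℝ} (hu : HasLap u g l) :
    (fun h : ℂ => u h - u 0 - (g * h).re) =O[𝓝 0] fun h : ℂ => ‖h‖ ^ 2 := by
  obtain ⟨c, hc⟩ := hu
  have h1 : (fun h : ℂ => l / 4 * ‖h‖ ^ 2) =O[𝓝 0] fun h : ℂ => ‖h‖ ^ 2 :=
    (isBigO_refl _ _).const_mul_left _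
  have := (hc.isBigO.add h1).add (isBigO_re_mul_sq c)
  refine this.congr_left fun h => ?_
  ring

lemma HasLap.bigO_one {u : ℂ → ℝ} {g : ℂ} {l : ℝ} (hu : HasLap u g l) :
    (fun h : ℂ => u h - u 0) =O[𝓝 0] fun h : ℂ => ‖h‖ := by
  have := (hu.bigO_two.trans isBigO_sq_norm).add (isBigO_re_mul g)
  refine this.congr_left fun h => ?_
  ring

lemma HasLap.congr {u v : ℂ → ℝ} {g : ℂ} {l : ℝ} (hu : HasLap u g l)
    (h : ∀ᶠ x in 𝓝 0, v x = u x) : HasLap v g l := by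
  obtain ⟨c, hc⟩ := hu
  refine ⟨c, hc.congr' ?_ EventuallyEq.rfl⟩
  have h0 : v 0 = u 0 := h.self_of_nhds
  filter_upwards [h] with x hx
  rw [hx, h0]

lemma HasLap.const (a : ℝ) : HasLap (fun _ => a) 0 0 := by
  refine ⟨0, ?_⟩
  simp

lemma HasLap.add {u v : ℂ → ℝ} {g k : ℂ} {l m : ℝ} (hu : HasLap u g l) (hv : HasLap v k m) :
    HasLap (fun h => u h + v h) (g + k) (l + m) := by
  obtain ⟨c, hc⟩ := hu
  obtain ⟨d, hd⟩ := hv
  refine ⟨c + d, (hc.add hd).congr_left fun h => ?_⟩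
  simp only [add_mul, Complex.add_re]
  ring

lemma HasLap.const_mul {u : ℂ → ℝ} {g : ℂ} {l : ℝ} (a : ℝ) (hu : HasLap u g l) :
    HasLap (fun h => a * u h) (a * g) (a * l) := by
  obtain ⟨c, hc⟩ := hu
  refine ⟨a * c, (hc.const_mul_left a).congr_left fun h => ?_⟩
  simp only [mul_assoc, Complex.re_ofReal_mul]
  ring

lemma HasLap.neg {u : ℂ → ℝ} {g : ℂ} {l : ℝ} (hu : HasLap u g l) :
    HasLap (fun h => - u h) (-g) (-l) := by
  have := hu.const_mul (-1)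
  simpa using this

lemma HasLap.sub {u v : ℂ → ℝ} {g k : ℂ} {l m : ℝ} (hu : HasLap u g l) (hv : HasLap v k m) :
    HasLap (fun h => u h - v h) (g - k) (l - m) := by
  have := hu.add hv.neg
  simpa [sub_eq_add_neg] using this

lemma HasLap.add_const {u : ℂ → ℝ} {g : ℂ} {l : ℝ} (hu : HasLap u g l) (a : ℝ) :
    HasLap (fun h => u h + a) g l := by
  have := hu.add (HasLap.const a)
  simpa using this

lemma HasLap.sum {ι : Type*} (s : Finset ι) {u : ι → ℂ → ℝ} {g : ι → ℂ} {l : ι → ℝ}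
    (hu : ∀ i ∈ s, HasLap (u i) (g i) (l i)) :
    HasLap (fun h => ∑ i ∈ s, u i h) (∑ i ∈ s, g i) (∑ i ∈ s, l i) := by
  classical
  induction s using Finset.induction_on with
  | empty => simpa using HasLap.const 0
  | insert a s ha ih =>
    simp only [Finset.sum_insert ha]
    exact (hu a (Finset.mem_insert_self _ _)).add
      (ih fun i hi => hu i (Finset.mem_insert_of_mem hi))

lemma re_mul_re (a b h : ℂ) :
    (a * h).re * (b * h).re = (a * (starRingEnd ℂ) b).re / 2 * ‖h‖ ^ 2 + (a * b / 2 * h ^ 2).re := by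
  have h2 : ‖h‖ ^ 2 = h.re ^ 2 + h.im ^ 2 := by
    rw [← Complex.normSq_eq_norm_sq, Complex.normSq_apply]; ring
  rw [h2]
  have h3 : (a * b / 2 * h ^ 2).re = ((a * b * h ^ 2).re) / 2 := by
    have : a * b / 2 * h ^ 2 = (a * b * h ^ 2) / 2 := by ring
    rw [this]
    simp
  rw [h3]
  simp only [Complex.mul_re, Complex.mul_im, pow_two, Complex.conj_re, Complex.conj_im]
  ring

lemma HasLap.mul_aux {u v : ℂ → ℝ} {g k : ℂ} {l m : ℝ} (hu : HasLap u g l) (hv : HasLap v k m) :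
    (fun h : ℂ => (u h - u 0) * (v h - v 0) - (g * h).re * (k * h).re)
      =o[𝓝 0] fun h : ℂ => ‖h‖ ^ 2 := by
  have h1 := hu.bigO_two.mul hv.bigO_one
  have h2 := (isBigO_re_mul g).mul hv.bigO_two
  have h3 : (fun h : ℂ => ‖h‖ ^ 2 * ‖h‖) =o[𝓝 0] fun h : ℂ => ‖h‖ ^ 2 := by
    refine isLittleO_cube.congr_left fun h => ?_
    ring
  have h4 := (h1.trans_isLittleO h3).add (h2.trans_isLittleO isLittleO_cube)
  refine h4.congr_left fun h => ?_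
  ring

lemma HasLap.mul {u v : ℂ → ℝ} {g k : ℂ} {l m : ℝ} (hu : HasLap u g l) (hv : HasLap v k m) :
    HasLap (fun h => u h * v h) (u 0 * k + v 0 * g)
      (u 0 * m + v 0 * l + 2 * (g * (starRingEnd ℂ) k).re) := by
  have h0 := hu.mul_aux hv
  obtain ⟨c, hc⟩ := hu
  obtain ⟨d, hd⟩ := hv
  refine ⟨u 0 * d + v 0 * c + g * k / 2, ?_⟩
  have := (h0.add (hc.const_mul_left (v 0))).add (hd.const_mul_left (u 0))
  refine this.congr_left fun h => ?_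
  have e := re_mul_re g k h
  simp only [add_mul, Complex.add_re, mul_assoc, Complex.re_ofReal_mul] at *
  linear_combination (-1 : ℝ) * e

/-- Composition with a real function having a second order expansion. -/
lemma HasLap.comp {u : ℂ → ℝ} {g : ℂ} {l : ℝ} (hu : HasLap u g l) {F : ℝ → ℝ} {F₁ F₂ : ℝ}
    (hF : (fun t : ℝ => F (u 0 + t) - F (u 0) - F₁ * t - F₂ / 2 * t ^ 2)
      =o[𝓝 0] fun t : ℝ => t ^ 2) :
    HasLap (fun h => F (u h)) (F₁ * g) (F₁ * l + F₂ * ‖g‖ ^ 2) := by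
  have hlim : Tendsto (fun h : ℂ => u h - u 0) (𝓝 0) (𝓝 0) :=
    hu.bigO_one.trans_tendsto tendsto_norm_zero
  have h1 := hF.comp_tendsto hlim
  have h2 : ((fun t : ℝ => t ^ 2) ∘ fun h : ℂ => u h - u 0) =O[𝓝 0] fun h : ℂ => ‖h‖ ^ 2 :=
    hu.bigO_one.pow 2
  have h3 := h1.trans_isBigO h2
  have h0 := hu.mul_aux hu
  obtain ⟨c, hc⟩ := hu
  refine ⟨F₁ * c + F₂ / 2 * (g * g / 2), ?_⟩
  have := (h3.add (hc.const_mul_left F₁)).add (h0.const_mul_left (F₂ / 2))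
  refine this.congr_left fun h => ?_
  have e := re_mul_re g g h
  have e2 : (g * (starRingEnd ℂ) g).re = ‖g‖ ^ 2 := by
    rw [Complex.mul_conj, Complex.ofReal_re, Complex.normSq_eq_norm_sq]
  rw [e2] at e
  simp only [Function.comp]
  have e3 : (u h : ℝ) = u 0 + (u h - u 0) := by ring
  have e4 : F (u h) = F (u 0 + (u h - u 0)) := by rw [← e3]
  rw [e4]
  have e5 : ((F₁ * c + F₂ / 2 * (g * g / 2)) * h ^ 2).re
      = F₁ * (c * h ^ 2).re + F₂ / 2 * (g * g / 2 * h ^ 2).re := by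
    have : ((F₁ : ℂ) * c + F₂ / 2 * (g * g / 2)) * h ^ 2
        = ((F₁ : ℝ) : ℂ) * (c * h ^ 2) + ((F₂ / 2 : ℝ) : ℂ) * (g * g / 2 * h ^ 2) := by
      push_cast; ring
    rw [this, Complex.add_re, Complex.re_ofReal_mul, Complex.re_ofReal_mul]
  rw [e5, mul_assoc, Complex.re_ofReal_mul]
  linear_combination (-(F₂ / 2) : ℝ) * e

end Pool.Agent.Helper303
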