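import Pool.Agent.Helper303.Lap

set_option autoImplicit false
open Filter Topology Asymptotics

namespace Pool.Agent.Helper303

lemma HasTwo.of_analyticAt {f : ℂ → ℂ} (hf : AnalyticAt ℂ f 0) : HasTwo f (deriv f 0) := by
  obtain ⟨p, hp⟩ := hf
  have h3 := hp.isBigO_sub_partialSum_pow 3
  refine ⟨p.coeff 2, ?_⟩
  have h4 : (fun h : ℂ => ‖h‖ ^ 3) =o[𝓝 0] fun h : ℂ => ‖h‖ ^ 2 := by
    refine isLittleO_cube.congr_left fun h => ?_
    ring
  refine (h3.trans_isLittleO h4).congr_left fun h => ?_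
  have h0 : f 0 = p.coeff 0 := (hp.coeff_zero _).symm
  have h1 : deriv f 0 = p.coeff 1 := hp.deriv
  rw [FormalMultilinearSeries.partialSum, Finset.sum_range_succ, Finset.sum_range_succ,
    Finset.sum_range_succ, Finset.sum_range_zero, zero_add, zero_add]
  simp only [FormalMultilinearSeries.apply_eq_pow_smul_coeff, smul_eq_mul]
  rw [h0, h1]
  ring

lemma HasTwo.bigO_two {f : ℂ → ℂ} {f₁ : ℂ} (hf : HasTwo f f₁) :
    (fun h : ℂ => f h - f 0 - f₁ * h) =O[𝓝 0] fun h : ℂ => ‖h‖ ^ 2 := by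
  obtain ⟨c, hc⟩ := hf
  have h1 : (fun h : ℂ => c * h ^ 2) =O[𝓝 0] fun h : ℂ => ‖h‖ ^ 2 := by
    refine IsBigO.of_bound ‖c‖ (Eventually.of_forall fun h => ?_)
    simp
  exact (hc.isBigO.add h1).congr_left fun h => by ring

lemma HasTwo.bigO_one {f : ℂ → ℂ} {f₁ : ℂ} (hf : HasTwo f f₁) :
    (fun h : ℂ => f h - f 0) =O[𝓝 0] fun h : ℂ => ‖h‖ := by
  have h1 : (fun h : ℂ => f₁ * h) =O[𝓝 0] fun h : ℂ => ‖h‖ := by
    refine IsBigO.of_bound ‖f₁‖ (Eventually.of_forall fun h => ?_)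
    simp
  exact ((hf.bigO_two.trans isBigO_sq_norm).add h1).congr_left fun h => by ring

lemma HasTwo.re {f : ℂ → ℂ} {f₁ : ℂ} (hf : HasTwo f f₁) :
    HasLap (fun h => (f h).re) f₁ 0 := by
  obtain ⟨c, hc⟩ := hf
  refine ⟨c, ?_⟩
  refine IsBigO.trans_isLittleO (IsBigO.of_bound 1 (Eventually.of_forall fun h => ?_)) hc
  rw [one_mul]
  have : (f h).re - (f 0).re - (f₁ * h).re - 0 / 4 * ‖h‖ ^ 2 - (c * h ^ 2).re
      = (f h - f 0 - f₁ * h - c * h ^ 2).re := by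
    simp
  rw [this]
  exact Complex.abs_re_le_norm _

lemma HasTwo.im {f : ℂ → ℂ} {f₁ : ℂ} (hf : HasTwo f f₁) :
    HasLap (fun h => (f h).im) (-Complex.I * f₁) 0 := by
  obtain ⟨c, hc⟩ := hf
  refine ⟨-Complex.I * c, ?_⟩
  refine IsBigO.trans_isLittleO (IsBigO.of_bound 1 (Eventually.of_forall fun h => ?_)) hc
  rw [one_mul]
  have : (f h).im - (f 0).im - (-Complex.I * f₁ * h).re - 0 / 4 * ‖h‖ ^ 2
      - (-Complex.I * c * h ^ 2).re = (f h - f 0 - f₁ * h - c * h ^ 2).im := by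
    simp only [neg_mul, Complex.neg_re, mul_assoc, Complex.I_mul_re, Complex.sub_im]
    ring
  rw [this]
  exact Complex.abs_im_le_norm _

lemma HasTwo.normSq {f : ℂ → ℂ} {f₁ : ℂ} (hf : HasTwo f f₁) :
    HasLap (fun h => ‖f h‖ ^ 2) (2 * ((starRingEnd ℂ) (f 0) * f₁)) (4 * ‖f₁‖ ^ 2) := by
  have h := (hf.re.mul hf.re).add (hf.im.mul hf.im)
  have e1 : (fun h => ‖f h‖ ^ 2) = fun h => (f h).re * (f h).re + (f h).im * (f h).im := by
    funext h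
    rw [← Complex.normSq_eq_norm_sq, Complex.normSq_apply]
  rw [e1]
  convert h using 1
  · apply Complex.ext <;>
    simp <;> ring
  · rw [← Complex.normSq_eq_norm_sq, Complex.normSq_apply]
    simp
    ring

lemma HasLap.comp_hol {u : ℂ → ℝ} {g : ℂ} {l : ℝ} {f : ℂ → ℂ} {f₁ : ℂ}
    (hu : HasLap (fun k => u (f 0 + k)) g l) (hf : HasTwo f f₁) :
    HasLap (fun h => u (f h)) (g * f₁) (l * ‖f₁‖ ^ 2) := by
  have hlim : Tendsto (fun h : ℂ => f h - f 0) (𝓝 0) (𝓝 0) :=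
    hf.bigO_one.trans_tendsto tendsto_norm_zero
  have hO1 := hf.bigO_one
  have hO2 := hf.bigO_two
  obtain ⟨c, hc⟩ := hu
  obtain ⟨d, hd⟩ := hf
  have h1 := hc.comp_tendsto hlim
  have h2 : ((fun h : ℂ => ‖h‖ ^ 2) ∘ fun h : ℂ => f h - f 0) =O[𝓝 0] fun h : ℂ => ‖h‖ ^ 2 :=
    hO1.norm_left.pow 2
  have h3 := h1.trans_isBigO h2
  -- k ^ 2 against its leading term
  have h4 : (fun h : ℂ => (f h - f 0) ^ 2 - f₁ ^ 2 * h ^ 2) =o[𝓝 0] fun h : ℂ => ‖h‖ ^ 2 := by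
    have hl : (fun h : ℂ => f₁ * h) =O[𝓝 0] fun h : ℂ => ‖h‖ :=
      IsBigO.of_bound ‖f₁‖ (Eventually.of_forall fun h => by simp)
    have h5 := hO2.mul (hO1.add hl)
    have h6 : (fun h : ℂ => ‖h‖ ^ 2 * ‖h‖) =o[𝓝 0] fun h : ℂ => ‖h‖ ^ 2 :=
      isLittleO_cube.congr_left fun h => by ring
    exact (h5.trans_isLittleO h6).congr_left fun h => by ring
  have h5 : (fun h : ℂ => ‖f h - f 0‖ ^ 2 - ‖f₁‖ ^ 2 * ‖h‖ ^ 2) =o[𝓝 0] fun h : ℂ => ‖h‖ ^ 2 := by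
    have hl : (fun h : ℂ => ‖f₁‖ * ‖h‖) =O[𝓝 0] fun h : ℂ => ‖h‖ :=
      (isBigO_refl _ _).const_mul_left _
    have hd1 : (fun h : ℂ => ‖f h - f 0‖ - ‖f₁‖ * ‖h‖) =O[𝓝 0] fun h : ℂ => ‖h‖ ^ 2 := by
      refine IsBigO.trans (IsBigO.of_bound 1 (Eventually.of_forall fun h => ?_)) hO2
      rw [one_mul, ← norm_mul]
      exact abs_norm_sub_norm_le _ _
    have h5 := hd1.mul (hO1.norm_left.add hl)
    have h6 : (fun h : ℂ => ‖h‖ ^ 2 * ‖h‖) =o[𝓝 0] fun h : ℂ => ‖h‖ ^ 2 :=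
      isLittleO_cube.congr_left fun h => by ring
    exact (h5.trans_isLittleO h6).congr_left fun h => by ring
  have hre : ∀ {q : ℂ → ℂ} (b : ℂ), (q =o[𝓝 0] fun h : ℂ => ‖h‖ ^ 2) →
      (fun h => (b * q h).re) =o[𝓝 0] fun h : ℂ => ‖h‖ ^ 2 := by
    intro q b hq
    refine IsBigO.trans_isLittleO (IsBigO.of_bound ‖b‖ (Eventually.of_forall fun h => ?_)) hq
    calc ‖(b * q h).re‖ ≤ ‖b * q h‖ := Complex.abs_re_le_norm _
      _ = ‖b‖ * ‖q h‖ := norm_mul _ _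
  refine ⟨g * d + c * f₁ ^ 2, ?_⟩
  have := ((h3.add (hre g hd)).add (hre c h4)).add (h5.const_mul_left (l / 4))
  refine this.congr_left fun h => ?_
  simp only [Function.comp, add_zero, add_sub_cancel]
  have e1 : (g * (f h - f 0 - f₁ * h - d * h ^ 2)).re
      = (g * (f h - f 0)).re - (g * f₁ * h).re - (g * d * h ^ 2).re := by
    rw [← Complex.sub_re, ← Complex.sub_re]; congr 1; ring
  have e2 : (c * ((f h - f 0) ^ 2 - f₁ ^ 2 * h ^ 2)).re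
      = (c * (f h - f 0) ^ 2).re - (c * f₁ ^ 2 * h ^ 2).re := by
    rw [← Complex.sub_re]; congr 1; ring
  have e3 : ((g * d + c * f₁ ^ 2) * h ^ 2).re = (g * d * h ^ 2).re + (c * f₁ ^ 2 * h ^ 2).re := by
    rw [← Complex.add_re]; congr 1; ring
  rw [e1, e2, e3]
  ring

/-- Viscosity form of subharmonicity at the origin. -/
def VSub (u : ℂ → ℝ) : Prop :=
  ∀ (g c : ℂ) (l : ℝ),
    (∀ᶠ h : ℂ in 𝓝 0, u h ≤ u 0 + (g * h).re + (c * h ^ 2).re + l * ‖h‖ ^ 2) → 0 ≤ l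

lemma HasLap.vsub {u : ℂ → ℝ} {g₀ : ℂ} {l₀ : ℝ} (hu : HasLap u g₀ l₀) (h0 : 0 ≤ l₀) :
    VSub u := by
  intro g c l hl
  obtain ⟨c₀, hc⟩ := hu
  by_contra hneg
  push Not at hneg
  have hε : (0 : ℝ) < -l / 2 := by linarith
  have h1 := hc.bound hε
  have h2 := h1.and hl
  rw [Metric.eventually_nhds_iff] at h2
  obtain ⟨ε, hε0, H⟩ := h2
  set t : ℝ := ε / 2 with ht
  have ht0 : 0 < t := by positivity
  have key : ∀ z : ℂ, ‖z‖ = 1 → -(-l / 2 * t ^ 2) ≤ -(g₀ * (t * z)).re - (c₀ * (t * z) ^ 2).re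
      - l₀ / 4 * t ^ 2 + ((g * (t * z)).re + (c * (t * z) ^ 2).re + l * t ^ 2) := by
    intro z hz
    have hn : ‖(t : ℂ) * z‖ = t := by
      rw [norm_mul, hz, mul_one, Complex.norm_real, Real.norm_of_nonneg ht0.le]
    have hd : dist ((t : ℂ) * z) 0 < ε := by
      rw [dist_zero_right, hn]; linarith
    obtain ⟨A, B⟩ := H hd
    rw [hn] at A B
    rw [Real.norm_of_nonneg (by positivity : (0:ℝ) ≤ t ^ 2)] at A
    have A' := neg_le_of_abs_le A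
    linarith
  have k1 := key 1 (by simp)
  have k2 := key (-1) (by simp)
  have k3 := key Complex.I (by simp)
  have k4 := key (-Complex.I) (by simp)
  have s1 : ((t : ℂ) * Complex.I) ^ 2 = -((t : ℂ) ^ 2) := by
    rw [mul_pow, Complex.I_sq]; ring
  have s2 : ((t : ℂ) * -Complex.I) ^ 2 = -((t : ℂ) ^ 2) := by
    rw [mul_pow, neg_sq, Complex.I_sq]; ring
  have s3 : ((t : ℂ) * -1) ^ 2 = (t : ℂ) ^ 2 := by ring
  rw [s1] at k3
  rw [s2] at k4
  rw [s3] at k2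
  rw [mul_one] at k1
  simp only [mul_neg, Complex.neg_re, mul_one] at k1 k2 k3 k4
  nlinarith [sq_nonneg t, mul_pos ht0 ht0]

lemma VSub.of_le {u v : ℂ → ℝ} (hu : VSub u) (h0 : u 0 = v 0) (hle : ∀ᶠ h in 𝓝 0, u h ≤ v h) :
    VSub v := by
  intro g c l hl
  refine hu g c l ?_
  filter_upwards [hl, hle] with h h1 h2
  rw [h0]
  exact h2.trans h1

lemma VSub.congr {u v : ℂ → ℝ} (hu : VSub u) (h : ∀ᶠ x in 𝓝 0, v x = u x) : VSub v := by
  refine hu.of_le h.self_of_nhds.symm ?_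
  filter_upwards [h] with x hx
  exact hx.ge

lemma VSub.sup {u v : ℂ → ℝ} (hu : VSub u) (hv : VSub v) : VSub fun h => max (u h) (v h) := by
  rcases le_total (v 0) (u 0) with h | h
  · exact hu.of_le (by simp [h]) (Eventually.of_forall fun x => le_max_left _ _)
  · exact hv.of_le (by simp [h]) (Eventually.of_forall fun x => le_max_right _ _)

lemma VSub.const (a : ℝ) : VSub fun _ => a := (HasLap.const a).vsub le_rfl

lemma VSub.sup_const {u : ℂ → ℝ} {a : ℝ} (hu : a ≤ u 0 → VSub u) : VSub fun h => max (u h) a := by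
  rcases le_total a (u 0) with h | h
  · exact (hu h).sup (VSub.const a)
  · exact (VSub.const a).of_le (by simp [h]) (Eventually.of_forall fun x => le_max_right _ _)

end Pool.Agent.Helper303
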