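import Pool.Agent.Helper303.MbBound

open MeasureTheory Set Complex
open scoped Real Topology ComplexConjugate ContDiff

set_option linter.unusedSectionVars false

namespace Pool.Agent.Helper303.Lp

open Pool.Agent.Helper303.Mb

variable {ι : Type} [Fintype ι] [DecidableEq ι] {B : Blk ι}

/-- uniform bound for `∂̄u₀`, with explicit conditions -/
theorem form_core {Ct Cs CLJ : ℝ} (hCt0 : 0 ≤ Ct)
    (hCt : ∀ x, |deriv Real.smoothTransition x| ≤ Ct) (hCs0 : 0 ≤ Cs)
    (hCs : ∀ z ∈ CB B, ‖z‖ ≤ 1 → ∀ k : ι,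
      ‖Dz B z ^ 2 * fderiv ℂ (fun z => Ps B z / Dz B z) z (Pi.single k 1)‖ ≤ Cs)
    {J : ℕ} (hJ : 1 ≤ J) (hCLJ0 : 0 ≤ CLJ)
    (hCL : ∀ j ∈ Finset.Icc 1 J, ∀ z ∈ CB B, ‖z‖ ≤ 1 → ∀ k : ι,
      ‖Dz B z ^ 2 * fderiv ℂ (fun z => Pz B 1 j z / Dz B z) z (Pi.single k 1)‖ ≤ CLJ)
    {N : ℕ} (hNε : 1 ≤ (N : ℝ) * (1 / (48 * (J : ℝ) ^ 2)) / 2)
    (hsmall : (J : ℝ) * (1 / 2 * Real.exp (1 - N * (1 / (48 * (J : ℝ) ^ 2)) / 2) *
      (Ct * 2 * Cs + Ct * (2 / (1 / (48 * (J : ℝ) ^ 2))) * CLJ)) ≤ 1) :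
    ∀ z ∈ CB B, ‖z‖ ≤ 1 → ∀ k : ι,
      ‖dbar k (uu B J N) z‖ ≤ 1 / 2 * Real.exp 2 * Ct * Cs + 1 := by
  intro z hz hz1 k
  have hJ0 : (0 : ℝ) < J := by exact_mod_cast hJ
  set ε : ℝ := 1 / (48 * (J : ℝ) ^ 2) with hεd
  have hε : 0 < ε := by positivity
  set K0 : ℝ := Ct * 2 * Cs + Ct * (2 / ε) * CLJ with hK0
  have hK00 : 0 ≤ K0 := by positivity
  have hσ := sg_pos hz
  -- derivative of each term
  have hterm : ∀ j ∈ Finset.Icc 1 J, DifferentiableAt ℝ
      (fun z => Dz B z ^ 2 * EE B N j z * (ww B ε j z : ℂ)) z := by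
    intro j _
    exact (smooth_term hε (N := N) j hz).differentiableAt (by simp)
  have hsum : dbar k (uu B J N) z = ∑ j ∈ Finset.Icc 1 J,
      dbar k (fun z => Dz B z ^ 2 * EE B N j z * (ww B ε j z : ℂ)) z :=
    dbar_finsum _ hterm k
  rw [hsum]
  set σ := sg B z with hσd
  -- pointwise bound
  have hpt : ∀ j ∈ Finset.Icc 1 J,
      ‖dbar k (fun z => Dz B z ^ 2 * EE B N j z * (ww B ε j z : ℂ)) z‖ ≤
      (if lm B j z < ε * σ then 1 / 2 * Real.exp 2 * Ct * Cs else 0) +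
        1 / 2 * Real.exp (1 - N * ε / 2) * K0 := by
    intro j hj
    have hl := lm_pos hz j
    have hA : DifferentiableAt ℂ (fun z => Dz B z ^ 2 * EE B N j z) z :=
      ((contDiff_Dz.differentiable (by simp) z).pow 2).fun_mul (diff_EE hz)
    rw [dbar_comb hA (deriv_ww hε j hz) k]
    rw [← hσd]
    set x1 := σ - 1 with hx1
    set x2 := 2 * lm B j z / (ε * σ) - 1 with hx2
    set S := fderiv ℂ (sz B) z (Pi.single k 1) with hS
    set L := fderiv ℂ (Qz B 1 j) z (Pi.single k 1) with hL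
    set E := EE B N j z with hE
    have bS : ‖Dz B z ^ 2 * S‖ ≤ Cs := hCs z hz hz1 k
    have bL : ‖Dz B z ^ 2 * L‖ ≤ CLJ := hCL j hj z hz hz1 k
    obtain ⟨a1, a2⟩ := st_mem x1
    obtain ⟨b1, b2⟩ := st_mem x2
    set α1 := deriv Real.smoothTransition x1 * (1 - Real.smoothTransition x2) with hα1
    set α2 := Real.smoothTransition x1 *
      (deriv Real.smoothTransition x2 * (2 * lm B j z / (ε * σ ^ 2))) with hα2
    set β := Real.smoothTransition x1 * (deriv Real.smoothTransition x2 * (2 / (ε * σ))) with hβ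
    have key : ‖Dz B z ^ 2 * E * (1 / 2 * (((-α1 - α2 : ℝ) : ℂ) * conj S + (β : ℂ) * conj L))‖ ≤
        1 / 2 * (‖E‖ * |α1|) * Cs + 1 / 2 * ((‖E‖ * |α2|) * Cs + (‖E‖ * |β|) * CLJ) := by
      have e1 : ‖Dz B z ^ 2 * E * (1 / 2 * (((-α1 - α2 : ℝ) : ℂ) * conj S + (β : ℂ) * conj L))‖ =
          1 / 2 * ‖E‖ * (‖Dz B z ^ 2‖ * ‖((-α1 - α2 : ℝ) : ℂ) * conj S + (β : ℂ) * conj L‖) := by
        rw [norm_mul, norm_mul, norm_mul]
        have : ‖(1 / 2 : ℂ)‖ = 1 / 2 := by
          rw [norm_div]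
          simp
        rw [this]
        ring
      rw [e1]
      have e2 : ‖Dz B z ^ 2‖ * ‖((-α1 - α2 : ℝ) : ℂ) * conj S + (β : ℂ) * conj L‖ ≤
          (|α1| + |α2|) * Cs + |β| * CLJ := by
        have e3 : ‖((-α1 - α2 : ℝ) : ℂ) * conj S + (β : ℂ) * conj L‖ ≤
            (|α1| + |α2|) * ‖S‖ + |β| * ‖L‖ := by
          refine (norm_add_le _ _).trans ?_
          rw [norm_mul, norm_mul, norm_conj, norm_conj, norm_real, norm_real, Real.norm_eq_abs,
            Real.norm_eq_abs]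
          have : |-α1 - α2| ≤ |α1| + |α2| := by
            have := abs_sub (-α1) α2
            rwa [abs_neg] at this
          gcongr
        calc ‖Dz B z ^ 2‖ * ‖((-α1 - α2 : ℝ) : ℂ) * conj S + (β : ℂ) * conj L‖ ≤
            ‖Dz B z ^ 2‖ * ((|α1| + |α2|) * ‖S‖ + |β| * ‖L‖) := by gcongr
          _ = (|α1| + |α2|) * ‖Dz B z ^ 2 * S‖ + |β| * ‖Dz B z ^ 2 * L‖ := by
            rw [norm_mul, norm_mul]
            ring
          _ ≤ _ := by gcongr
      calc 1 / 2 * ‖E‖ * (‖Dz B z ^ 2‖ * ‖((-α1 - α2 : ℝ) : ℂ) * conj S + (β : ℂ) * conj L‖) ≤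
          1 / 2 * ‖E‖ * ((|α1| + |α2|) * Cs + |β| * CLJ) := by gcongr
        _ = _ := by ring
    refine key.trans ?_
    -- main part
    have hmain : 1 / 2 * (‖E‖ * |α1|) * Cs ≤
        if lm B j z < ε * σ then 1 / 2 * Real.exp 2 * Ct * Cs else 0 := by
      split_ifs with hlt
      · have h1 : ‖E‖ * |α1| ≤ Real.exp 2 * Ct := by
          rcases le_or_gt σ 2 with h | h
          · have h2 : ‖E‖ ≤ Real.exp 2 := by
              rw [hE, norm_EE]
              apply Real.exp_le_exp.2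
              have : 0 ≤ (N : ℝ) * lm B j z := by positivity
              linarith
            have h3 : |α1| ≤ Ct := by
              rw [hα1, abs_mul]
              have h4 : |1 - Real.smoothTransition x2| ≤ 1 := by
                rw [abs_of_nonneg (by linarith)]
                linarith
              calc |deriv Real.smoothTransition x1| * |1 - Real.smoothTransition x2| ≤ Ct * 1 := by
                    gcongr
                    exact hCt x1
                _ = Ct := mul_one _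
            gcongr
          · have h2 : α1 = 0 := by
              rw [hα1, st_deriv_zero (Or.inr (by rw [hx1]; linarith)), zero_mul]
            rw [h2, abs_zero, mul_zero]
            positivity
        calc 1 / 2 * (‖E‖ * |α1|) * Cs ≤ 1 / 2 * (Real.exp 2 * Ct) * Cs := by gcongr
          _ = _ := by ring
      · have h2 : α1 = 0 := by
          rw [hα1, Real.smoothTransition.one_of_one_le, sub_self, mul_zero]
          rw [hx2]
          push Not at hlt
          have h3 : 2 ≤ 2 * lm B j z / (ε * σ) := by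
            rw [le_div_iff₀ (by positivity)]
            linarith
          linarith
        rw [h2, abs_zero, mul_zero, mul_zero, zero_mul]
    -- the rest
    have hrest : (‖E‖ * |α2|) * Cs + (‖E‖ * |β|) * CLJ ≤ Real.exp (1 - N * ε / 2) * K0 := by
      by_cases hcase : 1 < σ ∧ 0 ≤ x2 ∧ x2 ≤ 1
      · obtain ⟨c1, c2, c3⟩ := hcase
        have hE1 : ‖E‖ ≤ Real.exp (1 - N * ε / 2) := by
          apply EE_small hNε c1.le
          rw [hx2] at c2
          have h3 : 1 ≤ 2 * lm B j z / (ε * σ) := by linarith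
          rw [le_div_iff₀ (by positivity)] at h3
          linarith
        have hlε : lm B j z ≤ ε * σ := by
          rw [hx2] at c3
          have h3 : 2 * lm B j z / (ε * σ) ≤ 2 := by linarith
          rw [div_le_iff₀ (by positivity)] at h3
          linarith
        have g1 : |α2| ≤ Ct * 2 := by
          rw [hα2, abs_mul, abs_mul]
          have h4 : |2 * lm B j z / (ε * σ ^ 2)| ≤ 2 := by
            rw [abs_of_nonneg (by positivity), div_le_iff₀ (by positivity)]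
            have : ε * σ ≤ ε * σ ^ 2 := by
              have : σ ≤ σ ^ 2 := by nlinarith
              gcongr
            linarith
          have h5 : |Real.smoothTransition x1| ≤ 1 := by rwa [abs_of_nonneg a1]
          calc |Real.smoothTransition x1| * (|deriv Real.smoothTransition x2| *
                |2 * lm B j z / (ε * σ ^ 2)|) ≤ 1 * (Ct * 2) := by
                gcongr
                exact hCt x2
            _ = _ := by ring
        have g2 : |β| ≤ Ct * (2 / ε) := by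
          rw [hβ, abs_mul, abs_mul]
          have h4 : |2 / (ε * σ)| ≤ 2 / ε := by
            rw [abs_of_nonneg (by positivity)]
            apply div_le_div_of_nonneg_left (by norm_num) hε
            nlinarith
          have h5 : |Real.smoothTransition x1| ≤ 1 := by rwa [abs_of_nonneg a1]
          calc |Real.smoothTransition x1| * (|deriv Real.smoothTransition x2| *
                |2 / (ε * σ)|) ≤ 1 * (Ct * (2 / ε)) := by
                gcongr
                exact hCt x2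
            _ = _ := by ring
        calc (‖E‖ * |α2|) * Cs + (‖E‖ * |β|) * CLJ ≤
            (Real.exp (1 - N * ε / 2) * (Ct * 2)) * Cs +
              (Real.exp (1 - N * ε / 2) * (Ct * (2 / ε))) * CLJ := by gcongr
          _ = _ := by rw [hK0]; ring
      · have hz0 : Real.smoothTransition x1 * deriv Real.smoothTransition x2 = 0 := by
          by_cases h1 : 1 < σ
          · have h2 : x2 < 0 ∨ 1 < x2 := by
              by_contra h3
              push Not at h3
              exact hcase ⟨h1, h3.1, h3.2⟩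
            rw [st_deriv_zero h2, mul_zero]
          · rw [Real.smoothTransition.zero_of_nonpos (by rw [hx1]; linarith), zero_mul]
        have z1 : α2 = 0 := by
          rw [hα2, ← mul_assoc, hz0, zero_mul]
        have z2 : β = 0 := by
          rw [hβ, ← mul_assoc, hz0, zero_mul]
        rw [z1, z2, abs_zero, mul_zero, zero_mul, zero_mul, add_zero]
        positivity
    linarith
  refine (norm_sum_le _ _).trans ((Finset.sum_le_sum hpt).trans ?_)
  rw [Finset.sum_add_distrib]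
  have h1 : ∑ j ∈ Finset.Icc 1 J, (if lm B j z < ε * σ then 1 / 2 * Real.exp 2 * Ct * Cs else 0) ≤
      1 / 2 * Real.exp 2 * Ct * Cs := by
    rw [← Finset.sum_filter, Finset.sum_const, nsmul_eq_mul]
    have hcard : (Finset.filter (fun j => lm B j z < ε * σ) (Finset.Icc 1 J)).card ≤ 1 := by
      rw [Finset.card_le_one]
      intro i hi j hj
      rw [Finset.mem_filter, Finset.mem_Icc] at hi hj
      by_contra hij
      refine disj (J := J) (i := i) (j := j) hz hJ hi.1.2 hij (σ := σ) (sg_eq z) ?_ ?_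
      · rw [← lm_eq]
        have : σ / (48 * (J : ℝ) ^ 2) = ε * σ := by
          rw [hεd]
          ring
        rw [this]
        exact hi.2.le
      · rw [← lm_eq]
        have : σ / (48 * (J : ℝ) ^ 2) = ε * σ := by
          rw [hεd]
          ring
        rw [this]
        exact hj.2.le
    have hc : ((Finset.filter (fun j => lm B j z < ε * σ) (Finset.Icc 1 J)).card : ℝ) ≤ 1 := by
      exact_mod_cast hcard
    have hnn : 0 ≤ 1 / 2 * Real.exp 2 * Ct * Cs := by positivity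
    nlinarith
  have h2 : ∑ _j ∈ Finset.Icc 1 J, 1 / 2 * Real.exp (1 - N * ε / 2) * K0 ≤ 1 := by
    rw [Finset.sum_const, nsmul_eq_mul]
    simp only [Nat.card_Icc, Nat.add_sub_cancel]
    exact hsmall
  linarith



/-- bound for the derivative of the forms `ℓ_j`, quadratic in `j` -/
lemma CL_bound (B : Blk ι) : ∃ C : ℝ, 0 ≤ C ∧ ∀ j : ℕ, ∀ z ∈ CB B, ‖z‖ ≤ 1 → ∀ k : ι,
    ‖Dz B z ^ 2 * fderiv ℂ (fun z => Pz B 1 j z / Dz B z) z (Pi.single k 1)‖ ≤
      C * (1 + (j : ℝ)) ^ 2 := by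
  obtain ⟨C1, hC10, hC1⟩ := bound_quot (B := B) (contDiff_Pz (B := B) 1 0)
  obtain ⟨C2, hC20, hC2⟩ := bound_quot (B := B) (contDiff_Pz (B := B) 0 1)
  obtain ⟨C3, hC30, hC3⟩ := bound_quot (B := B) (contDiff_Pz (B := B) 1 1)
  refine ⟨C1 + C2 + C3, by positivity, ?_⟩
  intro j z hz hz1 k
  have e : (fun z => Pz B 1 j z / Dz B z) = fun z =>
      (Pz B 1 0 z / Dz B z) + (j : ℂ) * (Pz B 1 1 z / Dz B z - Pz B 1 0 z / Dz B z -
        Pz B 0 1 z / Dz B z) + (j : ℂ) ^ 2 * (Pz B 0 1 z / Dz B z) := by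
    funext z
    unfold Pz Pn
    push_cast
    ring
  have d1 := diff_quot (B := B) (contDiff_Pz (B := B) 1 0) hz
  have d2 := diff_quot (B := B) (contDiff_Pz (B := B) 0 1) hz
  have d3 := diff_quot (B := B) (contDiff_Pz (B := B) 1 1) hz
  have hd := (d1.hasFDerivAt.add (((d3.hasFDerivAt.sub d1.hasFDerivAt).sub
    d2.hasFDerivAt).const_mul (j : ℂ))).add (d2.hasFDerivAt.const_mul ((j : ℂ) ^ 2))
  have hd' : HasFDerivAt (fun z =>
      (Pz B 1 0 z / Dz B z) + (j : ℂ) * (Pz B 1 1 z / Dz B z - Pz B 1 0 z / Dz B z -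
        Pz B 0 1 z / Dz B z) + (j : ℂ) ^ 2 * (Pz B 0 1 z / Dz B z)) _ z := hd
  rw [e, hd'.fderiv]
  have h1 := hC1 z hz hz1 k
  have h2 := hC2 z hz hz1 k
  have h3 := hC3 z hz hz1 k
  simp only [add_apply, smul_apply, sub_apply, smul_eq_mul]
  set a := fderiv ℂ (fun z => Pz B 1 0 z / Dz B z) z (Pi.single k 1)
  set b := fderiv ℂ (fun z => Pz B 0 1 z / Dz B z) z (Pi.single k 1)
  set c := fderiv ℂ (fun z => Pz B 1 1 z / Dz B z) z (Pi.single k 1)
  set D := Dz B z ^ 2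
  have hj0 : (0 : ℝ) ≤ j := Nat.cast_nonneg j
  have e2 : D * (a + (j : ℂ) * (c - a - b) + (j : ℂ) ^ 2 * b) =
      D * a + (j : ℂ) * (D * c - D * a - D * b) + (j : ℂ) ^ 2 * (D * b) := by ring
  rw [e2]
  have n1 : ‖(j : ℂ) * (D * c - D * a - D * b)‖ ≤ j * (C3 + C1 + C2) := by
    rw [norm_mul, norm_natCast]
    have : ‖D * c - D * a - D * b‖ ≤ C3 + C1 + C2 := by
      have t1 := norm_sub_le (D * c - D * a) (D * b)
      have t2 := norm_sub_le (D * c) (D * a)
      linarith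
    gcongr
  have n2 : ‖(j : ℂ) ^ 2 * (D * b)‖ ≤ (j : ℝ) ^ 2 * C2 := by
    rw [norm_mul, norm_pow, norm_natCast]
    gcongr
  have n3 := norm_add_le (D * a + (j : ℂ) * (D * c - D * a - D * b)) ((j : ℂ) ^ 2 * (D * b))
  have n4 := norm_add_le (D * a) ((j : ℂ) * (D * c - D * a - D * b))
  have n5 : C1 + j * (C3 + C1 + C2) + (j : ℝ) ^ 2 * C2 ≤ (C1 + C2 + C3) * (1 + (j : ℝ)) ^ 2 := by
    have : 0 ≤ (j : ℝ) ^ 2 * (C1 + C3) := by positivity
    nlinarith [mul_nonneg hj0 (add_nonneg (add_nonneg hC10 hC20) hC30)]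
  linarith

/-- uniform bound for `∂̄u₀` with `N = J⁴` -/
theorem form_poly (B : Blk ι) : ∃ C : ℝ, 0 ≤ C ∧ ∃ J₀ : ℕ, ∀ J : ℕ, J₀ ≤ J →
    1 ≤ J ∧ 1 ≤ ((J ^ 4 : ℕ) : ℝ) * (1 / (48 * (J : ℝ) ^ 2)) / 2 ∧
    ∀ z ∈ CB B, ‖z‖ ≤ 1 → ∀ k : ι, ‖dbar k (uu B J (J ^ 4)) z‖ ≤ C := by
  obtain ⟨Ct, hCt0, hCt⟩ := st_deriv_bound
  obtain ⟨Cs, hCs0, hCs⟩ := bound_quot (B := B) (contDiff_Ps (B := B))
  obtain ⟨CL, hCL0, hCL⟩ := CL_bound B
  refine ⟨1 / 2 * Real.exp 2 * Ct * Cs + 1, by positivity, ?_⟩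
  -- the growth condition
  have hlim : Filter.Tendsto (fun J : ℕ => (J : ℝ) * (1 / 2 * Real.exp (1 - (J : ℝ) ^ 2 / 96) *
      (Ct * 2 * Cs + Ct * (96 * (J : ℝ) ^ 2) * (CL * (1 + (J : ℝ)) ^ 2)))) Filter.atTop (𝓝 0) := by
    set K := 1 / 2 * Real.exp 1 * (Ct * 2 * Cs + Ct * 96 * (CL * 4)) with hK
    have hK0 : 0 ≤ K := by positivity
    have h1 : Filter.Tendsto (fun J : ℕ => K * (96 ^ 5 * (((J : ℝ) / 96) ^ 5 * Real.exp (-((J : ℝ) / 96)))))
        Filter.atTop (𝓝 0) := by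
      have h2 := Real.tendsto_pow_mul_exp_neg_atTop_nhds_zero 5
      have h3 : Filter.Tendsto (fun J : ℕ => (J : ℝ) / 96) Filter.atTop Filter.atTop :=
        Filter.Tendsto.atTop_div_const (by norm_num) tendsto_natCast_atTop_atTop
      have h4 := ((h2.comp h3).const_mul (96 ^ 5)).const_mul K
      simpa using h4
    apply squeeze_zero' _ _ h1
    · filter_upwards with J
      positivity
    · filter_upwards [Filter.eventually_ge_atTop 1] with J hJ
      have hJ0 : (1 : ℝ) ≤ J := by exact_mod_cast hJ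
      have e1 : Real.exp (1 - (J : ℝ) ^ 2 / 96) ≤ Real.exp 1 * Real.exp (-((J : ℝ) / 96)) := by
        rw [← Real.exp_add]
        apply Real.exp_le_exp.2
        have : (J : ℝ) ≤ (J : ℝ) ^ 2 := by nlinarith
        linarith
      have e2 : Ct * 2 * Cs + Ct * (96 * (J : ℝ) ^ 2) * (CL * (1 + (J : ℝ)) ^ 2) ≤
          (Ct * 2 * Cs + Ct * 96 * (CL * 4)) * (J : ℝ) ^ 4 := by
        have e3 : (1 + (J : ℝ)) ^ 2 ≤ 4 * (J : ℝ) ^ 2 := by nlinarith
        have e4 : (1 : ℝ) ≤ (J : ℝ) ^ 4 := one_le_pow₀ hJ0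
        calc Ct * 2 * Cs + Ct * (96 * (J : ℝ) ^ 2) * (CL * (1 + (J : ℝ)) ^ 2) ≤
            Ct * 2 * Cs * (J : ℝ) ^ 4 + Ct * (96 * (J : ℝ) ^ 2) * (CL * (4 * (J : ℝ) ^ 2)) := by
              refine add_le_add (le_mul_of_one_le_right (by positivity) e4) ?_
              gcongr
          _ = _ := by ring
      calc (J : ℝ) * (1 / 2 * Real.exp (1 - (J : ℝ) ^ 2 / 96) *
            (Ct * 2 * Cs + Ct * (96 * (J : ℝ) ^ 2) * (CL * (1 + (J : ℝ)) ^ 2))) ≤
          (J : ℝ) * (1 / 2 * (Real.exp 1 * Real.exp (-((J : ℝ) / 96))) *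
            ((Ct * 2 * Cs + Ct * 96 * (CL * 4)) * (J : ℝ) ^ 4)) := by gcongr
        _ = K * (96 ^ 5 * (((J : ℝ) / 96) ^ 5 * Real.exp (-((J : ℝ) / 96)))) := by
            rw [hK]
            ring
  obtain ⟨J₀, hJ₀⟩ := Filter.eventually_atTop.1 (hlim.eventually (gt_mem_nhds one_pos))
  refine ⟨max J₀ 10, fun J hJ => ?_⟩
  have hJ1 : J₀ ≤ J := (le_max_left _ _).trans hJ
  have hJ2 : 10 ≤ J := (le_max_right _ _).trans hJ
  have hJ3 : 1 ≤ J := by omega
  have hJr : (10 : ℝ) ≤ J := by exact_mod_cast hJ2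
  have eN : ((J ^ 4 : ℕ) : ℝ) * (1 / (48 * (J : ℝ) ^ 2)) / 2 = (J : ℝ) ^ 2 / 96 := by
    push_cast
    field_simp
    ring
  have hN1 : 1 ≤ ((J ^ 4 : ℕ) : ℝ) * (1 / (48 * (J : ℝ) ^ 2)) / 2 := by
    rw [eN]
    nlinarith
  refine ⟨hJ3, hN1, ?_⟩
  apply form_core hCt0 hCt hCs0 hCs hJ3 (CLJ := CL * (1 + (J : ℝ)) ^ 2) (by positivity) _ hN1
  · rw [eN]
    have e5 : 2 / (1 / (48 * (J : ℝ) ^ 2)) = 96 * (J : ℝ) ^ 2 := by
      field_simp
      ring
    rw [e5]
    exact (hJ₀ J hJ1).le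
  · intro j hj z hz hz1 k
    refine (hCL j z hz hz1 k).trans ?_
    have : (j : ℝ) ≤ J := by exact_mod_cast (Finset.mem_Icc.1 hj).2
    gcongr

end Pool.Agent.Helper303.Lp
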