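import Pool.Agent.Helper303.MbDefs

open MeasureTheory Set
open scoped ContDiff

namespace Pool.Agent.Helper303.Lp

open Pool.Agent.Helper303.Mb

variable {ι : Type} [Fintype ι] [DecidableEq ι]

/-- `Ω` has `C^∞` boundary: `Ω = {r < 0}` for a smooth function `r` on `ℂ^ι` whose differential does
not vanish at any zero of `r`. -/
def SmoothBoundary (Ω : Set (ι → ℂ)) : Prop :=
  ∃ r : (ι → ℂ) → ℝ, ContDiff ℝ ∞ r ∧ Ω = {x | r x < 0} ∧ ∀ x, r x = 0 → fderiv ℝ r x ≠ 0

/-- `∂̄` is solvable on `Ω` with `L^p` estimates in bidegree `(0,1)`: there is a constant `C` such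
that every `∂̄`-closed `(0,1)`-form `f` with coefficients in `L^p(Ω)` of norm at most `M` has a
solution `u ∈ L^p(Ω)` of `∂̄u = f` (in the sense of distributions) of norm at most `C M`. -/
def LpEstimates01 (Ω : Set (ι → ℂ)) (p : ℝ) : Prop :=
  ∃ C : ℝ, ∀ (f : (ι → ℂ) → (ι → ℂ)) (M : ℝ), 0 ≤ M →
    (∀ j, MemLp (fun x => f x j) (ENNReal.ofReal p) (volume.restrict Ω) ∧
      eLpNorm (fun x => f x j) (ENNReal.ofReal p) (volume.restrict Ω) ≤ ENNReal.ofReal M) →
    DbarClosed Ω f →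
    ∃ u : (ι → ℂ) → ℂ, MemLp u (ENNReal.ofReal p) (volume.restrict Ω) ∧
      eLpNorm u (ENNReal.ofReal p) (volume.restrict Ω) ≤ ENNReal.ofReal (C * M) ∧
      SolvesDbar Ω u f

end Pool.Agent.Helper303.Lp
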