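import Pool.Agent.Helper303.MbWeyl2

open MeasureTheory Set
open scoped ContDiff ComplexConjugate Convolution Topology Real

set_option linter.unusedSectionVars false

namespace Pool.Agent.Helper303.Lp

open Pool.Agent.Helper303.Mb

variable {ι : Type} [Fintype ι] [DecidableEq ι]

/-- local Weyl lemma -/
theorem weyl_local' {Ω : Set (ι → ℂ)} (hΩ : IsOpen Ω) {u : (ι → ℂ) → ℂ}
    (hloc : ∀ a r, Metric.closedBall a r ⊆ Ω → IntegrableOn u (Metric.closedBall a r))
    (hw : ∀ j : ι, ∀ φ, IsTest Ω φ → ∫ x in Ω, u x * dbar j φ x = 0)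
    {a : ι → ℂ} (ha : a ∈ Ω) : ∃ r > 0, ∃ h : (ι → ℂ) → ℂ, Metric.ball a r ⊆ Ω ∧
      (∀ x ∈ Metric.ball a r, DifferentiableAt ℂ h x ∧ ContDiffAt ℝ 1 h x) ∧
      ∀ᵐ x ∂(volume.restrict (Metric.ball a r)), u x = h x := by
  obtain ⟨R, hR0, hR⟩ := Metric.isOpen_iff.1 hΩ a ha
  set r := R / 8 with hr
  have hr0 : 0 < r := by positivity
  have hball : Metric.closedBall a (4 * r) ⊆ Ω :=
    (Metric.closedBall_subset_ball (by rw [hr]; linarith)).trans hR
  set g : (ι → ℂ) → ℂ := (Metric.closedBall a (4 * r)).indicator u with hg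
  have hgu : ∀ y ∈ Metric.closedBall a (4 * r), g y = u y := fun y hy => indicator_of_mem hy u
  have hgi : Integrable g := by
    rw [hg, integrable_indicator_iff Metric.isClosed_closedBall.measurableSet]
    exact hloc _ _ hball
  have hgl : LocallyIntegrable g := hgi.locallyIntegrable
  -- radial kernel
  set I := ∫ y : ι → ℂ, ker0 r y with hI
  have hI0 : 0 < I := ker0_pos hr0
  let χ : (ι → ℂ) → ℝ := fun y => ker0 r y * I⁻¹
  have hχcd : ContDiff ℝ ∞ χ := (ker0_smooth r).mul contDiff_const
  have hχcs : HasCompactSupport χ := (ker0_hcs hr0).mul_right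
  have hχts : tsupport χ ⊆ Metric.closedBall 0 r :=
    (tsupport_mul_subset_left (f := ker0 r) (g := fun _ => I⁻¹)).trans (ker0_tsupport hr0)
  have hχ1 : ∫ y, χ y = 1 := by
    simp only [χ]
    rw [integral_mul_const, ← hI, mul_inv_cancel₀ hI0.ne']
  let h : (ι → ℂ) → ℂ := fun x => ∫ y, g y * ((χ (x - y) : ℝ) : ℂ)
  have hdh : ∀ x ∈ Metric.ball a r, DifferentiableAt ℂ h x := by
    intro x hx
    have hsub : Metric.closedBall x r ⊆ Metric.closedBall a (4 * r) := by
      intro y hy
      rw [Metric.mem_closedBall] at hy ⊢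
      rw [Metric.mem_ball] at hx
      have := dist_triangle y x a
      linarith
    exact conv_hol hw hgl hχcd hχcs hχts (hsub.trans hball) (fun y hy => hgu y (hsub hy))
  have hsmooth : ContDiff ℝ 1 h := by
    have e : h = (g ⋆[(ContinuousLinearMap.lsmul ℝ ℝ).flip, volume] χ) := by
      funext x
      rw [convolution_def]
      simp only [h]
      congr 1
      funext y
      rw [ContinuousLinearMap.flip_apply, ContinuousLinearMap.lsmul_apply, Complex.real_smul]
      ring
    rw [e]
    exact hχcs.contDiff_convolution_right _ hgl (hχcd.of_le (by norm_cast))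
  -- mollifiers
  have hδpos : ∀ k : ℕ, 0 < r / (k + 2) := fun k => by positivity
  let φ : ℕ → ContDiffBump (0 : ι → ℂ) := fun k =>
    ⟨r / (k + 2) / 2, r / (k + 2), by have := hδpos k; positivity, by have := hδpos k; linarith⟩
  let H : ℕ → (ι → ℂ) → ℂ := fun k x => ∫ y, g y * (((φ k).normed volume (x - y) : ℝ) : ℂ)
  have hδr : ∀ k : ℕ, r / ((k : ℝ) + 2) ≤ r := by
    intro k
    rw [div_le_iff₀ (by positivity)]
    have : (0 : ℝ) ≤ k := Nat.cast_nonneg k
    nlinarith
  have hdH : ∀ k, ∀ x ∈ Metric.closedBall a (2 * r), DifferentiableAt ℂ (H k) x := by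
    intro k x hx
    have hsub : Metric.closedBall x r ⊆ Metric.closedBall a (4 * r) := by
      intro y hy
      rw [Metric.mem_closedBall] at hy hx ⊢
      have := dist_triangle y x a
      linarith
    have hts : tsupport ((φ k).normed volume) ⊆ Metric.closedBall (0 : ι → ℂ) r := by
      rw [(φ k).tsupport_normed_eq]
      exact Metric.closedBall_subset_closedBall (hδr k)
    exact conv_hol hw hgl (φ k).contDiff_normed (φ k).hasCompactSupport_normed hts
      (hsub.trans hball) (fun y hy => hgu y (hsub hy))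
  have hHconv : ∀ k x, H k x = ((φ k).normed volume ⋆[ContinuousLinearMap.lsmul ℝ ℝ, volume] g) x := by
    intro k x
    rw [convolution_eq_swap]
    simp only [H]
    congr 1
    funext y
    rw [ContinuousLinearMap.lsmul_apply, Complex.real_smul]
    ring
  have hlim : Filter.Tendsto (fun k : ℕ => r / ((k : ℝ) + 2)) Filter.atTop (nhds 0) := by
    apply Filter.Tendsto.div_atTop tendsto_const_nhds
    exact Filter.tendsto_atTop_add_const_right _ _ tendsto_natCast_atTop_atTop
  have hae : ∀ᵐ x, Filter.Tendsto (fun k => H k x) Filter.atTop (𝓝 (g x)) := by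
    have := ContDiffBump.ae_convolution_tendsto_right_of_locallyIntegrable (μ := volume)
      (φ := φ) (l := Filter.atTop) (K := 2) hlim (Filter.Eventually.of_forall fun k => by
        show r / ((k : ℝ) + 2) ≤ 2 * (r / (k + 2) / 2)
        linarith) hgl
    filter_upwards [this] with x hx
    simp_rw [hHconv]
    exact hx
  refine ⟨r, hr0, h, (Metric.ball_subset_closedBall.trans
    (Metric.closedBall_subset_closedBall (by linarith))).trans hball,
    fun x hx => ⟨hdh x hx, hsmooth.contDiffAt⟩, ?_⟩
  rw [ae_restrict_iff' Metric.isOpen_ball.measurableSet]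
  filter_upwards [hae] with x hx hxb
  have hxu : g x = u x := by
    apply hgu
    have := Metric.mem_ball.1 hxb
    rw [Metric.mem_closedBall]
    linarith
  rw [← hxu]
  apply tendsto_nhds_unique hx
  -- mean value property
  have hmv : ∀ k, H k x = ∫ y, H k (x - y) * ((χ y : ℝ) : ℂ) := by
    intro k
    have hsub : Metric.closedBall x r ⊆ Metric.closedBall a (2 * r) := by
      intro y hy
      rw [Metric.mem_closedBall] at hy ⊢
      rw [Metric.mem_ball] at hxb
      have := dist_triangle y x a
      linarith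
    exact (mean_val (fun y hy => hdH k y (hsub hy)) hχcd.continuous hχcs hχts
      (fun θ y => by simp only [χ, ker0_rot]) hχ1).symm
  have hχc := hχcd.continuous
  have hχi : Integrable χ := hχcd.continuous.integrable_of_hasCompactSupport hχcs
  have hχ0 : ∀ y, 0 ≤ χ y := fun y => mul_nonneg (Real.smoothTransition.nonneg _) (by positivity)
  obtain ⟨Cχ, hCχ⟩ := hχcs.exists_bound_of_continuous hχc
  -- Fubini
  have hfub : ∀ k, H k x = ∫ s, g s * (((∫ y, (φ k).normed volume (x - s - y) * χ y : ℝ)) : ℂ) := by
    intro k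
    rw [hmv k]
    have hφc := (φ k).continuous_normed (μ := volume)
    obtain ⟨Cφ, hCφ⟩ := (φ k).hasCompactSupport_normed.exists_bound_of_continuous hφc
    have hint : Integrable (Function.uncurry fun (y s : ι → ℂ) =>
        g s * (((φ k).normed volume (x - y - s) : ℝ) : ℂ) * ((χ y : ℝ) : ℂ)) (volume.prod volume) := by
      have h1 : Integrable (fun q : (ι → ℂ) × (ι → ℂ) => ‖χ q.1‖ * (Cφ * ‖g q.2‖))
          (volume.prod volume) := hχi.norm.mul_prod (hgi.norm.const_mul Cφ)
      apply h1.mono'
      · have m1 : AEStronglyMeasurable (fun q : (ι → ℂ) × (ι → ℂ) => g q.2) (volume.prod volume) :=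
          hgi.aestronglyMeasurable.comp_snd
        have m2 : Continuous (fun q : (ι → ℂ) × (ι → ℂ) =>
            (((φ k).normed volume (x - q.1 - q.2) : ℝ) : ℂ) * ((χ q.1 : ℝ) : ℂ)) := by
          have e1 : Continuous fun q : (ι → ℂ) × (ι → ℂ) => (φ k).normed volume (x - q.1 - q.2) :=
            hφc.comp (by fun_prop)
          have e2 : Continuous fun q : (ι → ℂ) × (ι → ℂ) => χ q.1 := hχc.comp continuous_fst
          exact (Complex.continuous_ofReal.comp e1).mul (Complex.continuous_ofReal.comp e2)
        have m3 := m1.mul m2.aestronglyMeasurable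
        refine m3.congr (Filter.Eventually.of_forall fun q => ?_)
        simp only [Function.uncurry, Pi.mul_apply]
        ring
      · filter_upwards with q
        simp only [Function.uncurry]
        rw [norm_mul, norm_mul, Complex.norm_real, Complex.norm_real]
        have := hCφ (x - q.1 - q.2)
        calc ‖g q.2‖ * ‖(φ k).normed volume (x - q.1 - q.2)‖ * ‖χ q.1‖ ≤ ‖g q.2‖ * Cφ * ‖χ q.1‖ := by
              gcongr
          _ = _ := by ring
    have h2 := integral_integral_swap hint
    have h3 : ∀ y, H k (x - y) * ((χ y : ℝ) : ℂ) =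
        ∫ s, g s * (((φ k).normed volume (x - y - s) : ℝ) : ℂ) * ((χ y : ℝ) : ℂ) := by
      intro y
      rw [integral_mul_const]
    simp_rw [h3]
    rw [h2]
    congr 1
    funext s
    have h4 : ∀ y, g s * (((φ k).normed volume (x - y - s) : ℝ) : ℂ) * ((χ y : ℝ) : ℂ) =
        g s * (((φ k).normed volume (x - s - y) * χ y : ℝ) : ℂ) := by
      intro y
      rw [sub_right_comm]
      push_cast
      ring
    simp_rw [h4]
    rw [integral_const_mul, integral_complex_ofReal]
  simp_rw [hfub]
  -- dominated convergence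
  have hψ : ∀ z, Filter.Tendsto (fun k => ∫ y, (φ k).normed volume (z - y) * χ y) Filter.atTop
      (𝓝 (χ z)) := by
    intro z
    have := ContDiffBump.convolution_tendsto_right_of_continuous (μ := volume) (φ := φ)
      (l := Filter.atTop) hlim hχc z
    refine this.congr fun k => ?_
    rw [convolution_eq_swap]
    rfl
  have hψb : ∀ k z, ‖∫ y, (φ k).normed volume (z - y) * χ y‖ ≤ Cχ := by
    intro k z
    have h1 : ∀ᵐ y, ‖(φ k).normed volume (z - y) * χ y‖ ≤ (φ k).normed volume (z - y) * Cχ := by
      filter_upwards with y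
      rw [norm_mul, Real.norm_eq_abs, abs_of_nonneg ((φ k).nonneg_normed _)]
      exact mul_le_mul_of_nonneg_left (hCχ y) ((φ k).nonneg_normed _)
    have h2 : Integrable fun y => (φ k).normed volume (z - y) * Cχ := by
      apply Integrable.mul_const
      exact ((φ k).integrable_normed).comp_sub_left z
    have h3 := norm_integral_le_of_norm_le h2 h1
    rw [integral_mul_const, integral_sub_left_eq_self (fun y => (φ k).normed volume y) volume z,
      (φ k).integral_normed, one_mul] at h3
    exact h3
  apply tendsto_integral_of_dominated_convergence (fun s => ‖g s‖ * Cχ)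
  · intro k
    have hc : Continuous fun s => ∫ y, (φ k).normed volume (x - s - y) * χ y := by
      have e : (fun z => ∫ y, (φ k).normed volume (z - y) * χ y) =
          ((φ k).normed volume ⋆[ContinuousLinearMap.lsmul ℝ ℝ, volume] χ) := by
        funext z
        rw [convolution_eq_swap]
        rfl
      have h1 : Continuous (fun z => ∫ y, (φ k).normed volume (z - y) * χ y) := by
        rw [e]
        exact hχcs.continuous_convolution_right _ ((φ k).continuous_normed.locallyIntegrable) hχc
      exact h1.comp (continuous_const.sub continuous_id)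
    exact hgi.aestronglyMeasurable.mul (Complex.continuous_ofReal.comp hc).aestronglyMeasurable
  · exact hgi.norm.mul_const _
  · intro k
    filter_upwards with s
    rw [norm_mul, Complex.norm_real]
    exact mul_le_mul_of_nonneg_left (hψb k _) (norm_nonneg _)
  · filter_upwards with s
    exact ((Complex.continuous_ofReal.tendsto _).comp (hψ (x - s))).const_mul _

/-- Weyl's lemma: locally integrable weakly holomorphic functions are holomorphic -/
theorem weyl' {Ω : Set (ι → ℂ)} (hΩ : IsOpen Ω) {u : (ι → ℂ) → ℂ}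
    (hloc : ∀ a r, Metric.closedBall a r ⊆ Ω → IntegrableOn u (Metric.closedBall a r))
    (hw : ∀ j : ι, ∀ φ, IsTest Ω φ → ∫ x in Ω, u x * dbar j φ x = 0) :
    ∃ H : (ι → ℂ) → ℂ, (∀ x ∈ Ω, DifferentiableAt ℂ H x ∧ ContDiffAt ℝ 1 H x) ∧
      ∀ᵐ x ∂(volume.restrict Ω), u x = H x := by
  choose! r hr0 h hsub hd hae using fun a (ha : a ∈ Ω) => weyl_local' hΩ hloc hw ha
  -- compatibility
  have hcomp : ∀ a ∈ Ω, ∀ b ∈ Ω, ∀ x ∈ Metric.ball a (r a) ∩ Metric.ball b (r b), h a x = h b x := by
    intro a ha b hb
    have ho : IsOpen (Metric.ball a (r a) ∩ Metric.ball b (r b)) :=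
      Metric.isOpen_ball.inter Metric.isOpen_ball
    have h1 : ∀ᵐ x ∂(volume.restrict (Metric.ball a (r a) ∩ Metric.ball b (r b))), h a x = h b x := by
      have e1 := ae_mono (Measure.restrict_mono (inter_subset_left :
        Metric.ball a (r a) ∩ Metric.ball b (r b) ⊆ _) le_rfl) (hae a ha)
      have e2 := ae_mono (Measure.restrict_mono (inter_subset_right :
        Metric.ball a (r a) ∩ Metric.ball b (r b) ⊆ _) le_rfl) (hae b hb)
      filter_upwards [e1, e2] with x hx1 hx2
      rw [← hx1, ← hx2]
    have c1 : ContinuousOn (h a) (Metric.ball a (r a) ∩ Metric.ball b (r b)) := fun x hx =>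
      (hd a ha x hx.1).1.continuousAt.continuousWithinAt
    have c2 : ContinuousOn (h b) (Metric.ball a (r a) ∩ Metric.ball b (r b)) := fun x hx =>
      (hd b hb x hx.2).1.continuousAt.continuousWithinAt
    exact Measure.eqOn_open_of_ae_eq h1 ho c1 c2
  have hHa : ∀ a ∈ Ω, ∀ x ∈ Metric.ball a (r a), h x x = h a x := by
    intro a ha x hx
    have hxΩ := hsub a ha hx
    exact hcomp x hxΩ a ha x ⟨Metric.mem_ball_self (hr0 x hxΩ), hx⟩
  refine ⟨fun x => h x x, ?_, ?_⟩
  · intro a ha
    have hnb : Metric.ball a (r a) ∈ 𝓝 a := Metric.ball_mem_nhds a (hr0 a ha)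
    have heq : (fun x => h x x) =ᶠ[𝓝 a] h a := by
      filter_upwards [hnb] with x hx
      exact hHa a ha x hx
    have h2 := hd a ha a (Metric.mem_ball_self (hr0 a ha))
    exact ⟨h2.1.congr_of_eventuallyEq heq, h2.2.congr_of_eventuallyEq heq⟩
  · rw [ae_restrict_iff' hΩ.measurableSet]
    have h0 : volume {x | x ∈ Ω ∧ u x ≠ h x x} = 0 := by
      apply measure_null_of_locally_null
      rintro a ⟨ha, -⟩
      refine ⟨{x | x ∈ Ω ∧ u x ≠ h x x} ∩ Metric.ball a (r a), ?_, ?_⟩
      · exact Filter.inter_mem self_mem_nhdsWithin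
          (mem_nhdsWithin_of_mem_nhds (Metric.ball_mem_nhds a (hr0 a ha)))
      · have h1 := hae a ha
        rw [ae_restrict_iff' Metric.isOpen_ball.measurableSet, ae_iff] at h1
        apply measure_mono_null _ h1
        rintro x ⟨⟨hx1, hx2⟩, hx3⟩
        show ¬ (x ∈ Metric.ball a (r a) → u x = h a x)
        intro hcon
        exact hx2 ((hcon hx3).trans (hHa a ha x hx3).symm)
    rw [ae_iff]
    apply measure_mono_null _ h0
    intro x hx
    have hx' : ¬ (x ∈ Ω → u x = h x x) := hx
    push Not at hx'
    exact hx'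

end Pool.Agent.Helper303.Lp
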