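import Pool.Agent.Helper303.MbMean

open MeasureTheory Set
open scoped ContDiff ComplexConjugate Convolution Topology Real

set_option linter.unusedSectionVars false

namespace Pool.Agent.Helper303.Mb

variable {ι : Type} [Fintype ι] [DecidableEq ι]

/-- radial kernel -/
noncomputable def ker0 (ρ : ℝ) (y : ι → ℂ) : ℝ :=
  Real.smoothTransition (1 - (∑ i, Complex.normSq (y i)) / ρ ^ 2)

lemma normSq_smooth : ContDiff ℝ ∞ (fun z : ℂ => Complex.normSq z) := by
  have e : (fun z : ℂ => Complex.normSq z) =
      fun z => Complex.reCLM z * Complex.reCLM z + Complex.imCLM z * Complex.imCLM z := by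
    funext z
    simp [Complex.normSq_apply]
  rw [e]
  exact (Complex.reCLM.contDiff.mul Complex.reCLM.contDiff).add
    (Complex.imCLM.contDiff.mul Complex.imCLM.contDiff)

lemma ker0_smooth (ρ : ℝ) : ContDiff ℝ ∞ (ker0 (ι := ι) ρ) := by
  unfold ker0
  apply Real.smoothTransition.contDiff.comp
  apply contDiff_const.sub
  apply ContDiff.div_const
  apply ContDiff.sum
  intro i _
  exact normSq_smooth.comp (contDiff_apply ℝ ℂ i)

lemma ker0_zero_of {ρ : ℝ} (hρ : 0 < ρ) {y : ι → ℂ} (hy : ρ < ‖y‖) : ker0 ρ y = 0 := by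
  unfold ker0
  apply Real.smoothTransition.zero_of_nonpos
  obtain ⟨i, hi⟩ : ∃ i, ρ < ‖y i‖ := by
    by_contra h
    push Not at h
    have := (pi_norm_le_iff_of_nonneg hρ.le).2 h
    linarith
  have h1 : ρ ^ 2 ≤ ∑ i, Complex.normSq (y i) := by
    have h2 : Complex.normSq (y i) ≤ ∑ i, Complex.normSq (y i) :=
      Finset.single_le_sum (f := fun i => Complex.normSq (y i))
        (fun _ _ => Complex.normSq_nonneg _) (Finset.mem_univ i)
    rw [Complex.normSq_eq_norm_sq] at h2
    have h3 : ρ ^ 2 ≤ ‖y i‖ ^ 2 := by gcongr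
    linarith
  have h4 : 1 ≤ (∑ i, Complex.normSq (y i)) / ρ ^ 2 := by
    rw [le_div_iff₀ (by positivity)]
    linarith
  linarith

lemma ker0_tsupport {ρ : ℝ} (hρ : 0 < ρ) : tsupport (ker0 (ι := ι) ρ) ⊆ Metric.closedBall 0 ρ := by
  apply closure_minimal _ Metric.isClosed_closedBall
  intro y hy
  rw [mem_closedBall_zero_iff]
  by_contra h
  exact hy (ker0_zero_of hρ (not_le.1 h))

lemma ker0_hcs {ρ : ℝ} (hρ : 0 < ρ) : HasCompactSupport (ker0 (ι := ι) ρ) :=
  (isCompact_closedBall 0 ρ).of_isClosed_subset (isClosed_tsupport _) (ker0_tsupport hρ)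

lemma ker0_rot (ρ θ : ℝ) (y : ι → ℂ) : ker0 ρ (rot θ y) = ker0 ρ y := by
  unfold ker0
  congr 3
  apply Finset.sum_congr rfl
  intro i _
  rw [Complex.normSq_eq_norm_sq, Complex.normSq_eq_norm_sq]
  simp [rot, Complex.norm_exp_ofReal_mul_I]

lemma ker0_pos {ρ : ℝ} (hρ : 0 < ρ) : 0 < ∫ y : ι → ℂ, ker0 ρ y := by
  apply (ker0_smooth ρ).continuous.integral_pos_of_hasCompactSupport_nonneg_nonzero (ker0_hcs hρ)
    (fun y => Real.smoothTransition.nonneg _) (x := 0)
  unfold ker0
  simp

/-- local Weyl lemma -/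
theorem weyl_local {Ω : Set (ι → ℂ)} (hΩ : IsOpen Ω) {u : (ι → ℂ) → ℂ} {B : ℝ}
    (hum : AEStronglyMeasurable u (volume.restrict Ω))
    (hB : ∀ᵐ x ∂(volume.restrict Ω), ‖u x‖ ≤ B)
    (hw : ∀ j : ι, ∀ φ, IsTest Ω φ → ∫ x in Ω, u x * dbar j φ x = 0)
    {a : ι → ℂ} (ha : a ∈ Ω) : ∃ r > 0, ∃ h : (ι → ℂ) → ℂ, Metric.ball a r ⊆ Ω ∧
      (∀ x ∈ Metric.ball a r, DifferentiableAt ℂ h x) ∧
      ∀ᵐ x ∂(volume.restrict (Metric.ball a r)), u x = h x := by
  obtain ⟨R, hR0, hR⟩ := Metric.isOpen_iff.1 hΩ a ha
  set r := R / 8 with hr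
  have hr0 : 0 < r := by positivity
  have hball : Metric.closedBall a (4 * r) ⊆ Ω :=
    (Metric.closedBall_subset_ball (by rw [hr]; linarith)).trans hR
  set g : (ι → ℂ) → ℂ := (Metric.closedBall a (4 * r)).indicator u with hg
  have hgu : ∀ y ∈ Metric.closedBall a (4 * r), g y = u y := fun y hy => indicator_of_mem hy u
  have hum' : AEStronglyMeasurable u (volume.restrict (Metric.closedBall a (4 * r))) :=
    hum.mono_set hball
  have hgm : AEStronglyMeasurable g := by
    rw [hg, aestronglyMeasurable_indicator_iff Metric.isClosed_closedBall.measurableSet]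
    exact hum'
  set B' := max B 0 with hB'
  have hB'0 : 0 ≤ B' := le_max_right _ _
  have hgB : ∀ᵐ y, ‖g y‖ ≤ B' := by
    have h1 : ∀ᵐ y ∂(volume.restrict (Metric.closedBall a (4 * r))), ‖u y‖ ≤ B :=
      ae_mono (Measure.restrict_mono hball le_rfl) hB
    rw [ae_restrict_iff' Metric.isClosed_closedBall.measurableSet] at h1
    filter_upwards [h1] with y hy
    by_cases hyb : y ∈ Metric.closedBall a (4 * r)
    · rw [hgu y hyb]
      exact (hy hyb).trans (le_max_left _ _)
    · rw [hg, indicator_of_notMem hyb, norm_zero]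
      exact hB'0
  have hgl : LocallyIntegrable g := by
    apply MeasureTheory.Integrable.locallyIntegrable
    have hfin : IntegrableOn g (Metric.closedBall a (4 * r)) := by
      apply Measure.integrableOn_of_bounded (M := B')
      · exact (isCompact_closedBall _ _).measure_lt_top.ne
      · exact hgm
      · exact ae_restrict_of_ae hgB
    apply hfin.integrable_of_forall_notMem_eq_zero
    intro y hy
    rw [hg, indicator_of_notMem hy]
  -- radial kernel
  set I := ∫ y : ι → ℂ, ker0 r y with hI
  have hI0 : 0 < I := ker0_pos hr0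
  let χ : (ι → ℂ) → ℝ := fun y => ker0 r y * I⁻¹
  have hχcd : ContDiff ℝ ∞ χ := (ker0_smooth r).mul contDiff_const
  have hχcs : HasCompactSupport χ := (ker0_hcs hr0).mul_right
  have hχts : tsupport χ ⊆ Metric.closedBall 0 r :=
    (tsupport_mul_subset_left (f := ker0 r) (g := fun _ => I⁻¹)).trans (ker0_tsupport hr0)
  have hχ1 : ∫ y, χ y = 1 := by
    simp only [χ]
    rw [integral_mul_const, ← hI, mul_inv_cancel₀ hI0.ne']
  let h : (ι → ℂ) → ℂ := fun x => ∫ y, g y * ((χ (x - y) : ℝ) : ℂ)
  have hdh : ∀ x ∈ Metric.ball a r, DifferentiableAt ℂ h x := by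
    intro x hx
    have hsub : Metric.closedBall x r ⊆ Metric.closedBall a (4 * r) := by
      intro y hy
      rw [Metric.mem_closedBall] at hy ⊢
      rw [Metric.mem_ball] at hx
      have := dist_triangle y x a
      linarith
    exact conv_hol hw hgl hχcd hχcs hχts (hsub.trans hball) (fun y hy => hgu y (hsub hy))
  -- mollifiers
  have hδpos : ∀ k : ℕ, 0 < r / (k + 2) := fun k => by positivity
  let φ : ℕ → ContDiffBump (0 : ι → ℂ) := fun k =>
    ⟨r / (k + 2) / 2, r / (k + 2), by have := hδpos k; positivity, by have := hδpos k; linarith⟩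
  let H : ℕ → (ι → ℂ) → ℂ := fun k x => ∫ y, g y * (((φ k).normed volume (x - y) : ℝ) : ℂ)
  have hδr : ∀ k : ℕ, r / ((k : ℝ) + 2) ≤ r := by
    intro k
    rw [div_le_iff₀ (by positivity)]
    have : (0 : ℝ) ≤ k := Nat.cast_nonneg k
    nlinarith
  have hdH : ∀ k, ∀ x ∈ Metric.closedBall a (2 * r), DifferentiableAt ℂ (H k) x := by
    intro k x hx
    have hsub : Metric.closedBall x r ⊆ Metric.closedBall a (4 * r) := by
      intro y hy
      rw [Metric.mem_closedBall] at hy hx ⊢
      have := dist_triangle y x a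
      linarith
    have hts : tsupport ((φ k).normed volume) ⊆ Metric.closedBall (0 : ι → ℂ) r := by
      rw [(φ k).tsupport_normed_eq]
      exact Metric.closedBall_subset_closedBall (hδr k)
    exact conv_hol hw hgl (φ k).contDiff_normed (φ k).hasCompactSupport_normed hts
      (hsub.trans hball) (fun y hy => hgu y (hsub hy))
  have hHconv : ∀ k x, H k x = ((φ k).normed volume ⋆[ContinuousLinearMap.lsmul ℝ ℝ, volume] g) x := by
    intro k x
    rw [convolution_eq_swap]
    simp only [H]
    congr 1
    funext y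
    rw [ContinuousLinearMap.lsmul_apply, Complex.real_smul]
    ring
  have hlim : Filter.Tendsto (fun k : ℕ => r / ((k : ℝ) + 2)) Filter.atTop (nhds 0) := by
    apply Filter.Tendsto.div_atTop tendsto_const_nhds
    exact Filter.tendsto_atTop_add_const_right _ _ tendsto_natCast_atTop_atTop
  have hae : ∀ᵐ x, Filter.Tendsto (fun k => H k x) Filter.atTop (𝓝 (g x)) := by
    have := ContDiffBump.ae_convolution_tendsto_right_of_locallyIntegrable (μ := volume)
      (φ := φ) (l := Filter.atTop) (K := 2) hlim (Filter.Eventually.of_forall fun k => by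
        show r / ((k : ℝ) + 2) ≤ 2 * (r / (k + 2) / 2)
        linarith) hgl
    filter_upwards [this] with x hx
    simp_rw [hHconv]
    exact hx
  have hHB : ∀ k x, ‖H k x‖ ≤ B' := by
    intro k x
    have h1 : ∀ᵐ y, ‖g y * (((φ k).normed volume (x - y) : ℝ) : ℂ)‖ ≤
        B' * (φ k).normed volume (x - y) := by
      filter_upwards [hgB] with y hy
      rw [norm_mul, Complex.norm_real, Real.norm_eq_abs, abs_of_nonneg ((φ k).nonneg_normed _)]
      exact mul_le_mul_of_nonneg_right hy ((φ k).nonneg_normed _)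
    have h2 : Integrable fun y => B' * (φ k).normed volume (x - y) := by
      apply Integrable.const_mul
      exact ((φ k).integrable_normed).comp_sub_left x
    have h3 : ‖H k x‖ ≤ ∫ y, B' * (φ k).normed volume (x - y) :=
      norm_integral_le_of_norm_le h2 h1
    rw [integral_const_mul, integral_sub_left_eq_self (fun y => (φ k).normed volume y) volume x,
      (φ k).integral_normed, mul_one] at h3
    exact h3
  refine ⟨r, hr0, h, (Metric.ball_subset_closedBall.trans
    (Metric.closedBall_subset_closedBall (by linarith))).trans hball, hdh, ?_⟩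
  rw [ae_restrict_iff' Metric.isOpen_ball.measurableSet]
  filter_upwards [hae] with x hx hxb
  have hxu : g x = u x := by
    apply hgu
    have := Metric.mem_ball.1 hxb
    rw [Metric.mem_closedBall]
    linarith
  rw [← hxu]
  apply tendsto_nhds_unique hx
  -- mean value property
  have hmv : ∀ k, H k x = ∫ y, H k (x - y) * ((χ y : ℝ) : ℂ) := by
    intro k
    have hsub : Metric.closedBall x r ⊆ Metric.closedBall a (2 * r) := by
      intro y hy
      rw [Metric.mem_closedBall] at hy ⊢
      rw [Metric.mem_ball] at hxb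
      have := dist_triangle y x a
      linarith
    exact (mean_val (fun y hy => hdH k y (hsub hy)) hχcd.continuous hχcs hχts
      (fun θ y => by simp only [χ, ker0_rot]) hχ1).symm
  have hh : h x = ∫ y, g (x - y) * ((χ y : ℝ) : ℂ) := by
    simp only [h]
    have := integral_sub_left_eq_self (fun y => g (x - y) * ((χ y : ℝ) : ℂ)) volume x
    rw [← this]
    congr 1
    funext y
    rw [sub_sub_cancel]
  rw [hh]
  simp_rw [hmv]
  have hχi : Integrable χ := hχcd.continuous.integrable_of_hasCompactSupport hχcs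
  have hχ0 : ∀ y, 0 ≤ χ y := fun y => mul_nonneg (Real.smoothTransition.nonneg _) (by positivity)
  apply tendsto_integral_of_dominated_convergence (fun y => B' * χ y)
  · intro k
    have hHm : AEStronglyMeasurable (fun y => H k (x - y)) := by
      have hc : Continuous (H k) := by
        have : H k = (g ⋆[(ContinuousLinearMap.lsmul ℝ ℝ).flip, volume] (φ k).normed volume) := by
          funext x
          rw [convolution_def]
          simp only [H]
          congr 1
          funext y
          rw [ContinuousLinearMap.flip_apply, ContinuousLinearMap.lsmul_apply, Complex.real_smul]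
          ring
        rw [this]
        exact (φ k).hasCompactSupport_normed.continuous_convolution_right _ hgl
          (φ k).continuous_normed
      exact (hc.comp (continuous_const.sub continuous_id)).aestronglyMeasurable
    exact hHm.mul (Complex.continuous_ofReal.comp hχcd.continuous).aestronglyMeasurable
  · exact hχi.const_mul _
  · intro k
    filter_upwards with y
    rw [norm_mul, Complex.norm_real, Real.norm_eq_abs, abs_of_nonneg (hχ0 y)]
    exact mul_le_mul_of_nonneg_right (hHB k _) (hχ0 y)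
  · have hq : ∀ᵐ y, Filter.Tendsto (fun k => H k (x - y)) Filter.atTop (𝓝 (g (x - y))) :=
      (Measure.measurePreserving_sub_left volume x).quasiMeasurePreserving.ae hae
    filter_upwards [hq] with y hy
    exact hy.mul_const _

/-- Weyl's lemma: bounded weakly holomorphic functions are holomorphic -/
theorem weyl {Ω : Set (ι → ℂ)} (hΩ : IsOpen Ω) {u : (ι → ℂ) → ℂ} {B : ℝ}
    (hum : AEStronglyMeasurable u (volume.restrict Ω))
    (hB : ∀ᵐ x ∂(volume.restrict Ω), ‖u x‖ ≤ B)
    (hw : ∀ j : ι, ∀ φ, IsTest Ω φ → ∫ x in Ω, u x * dbar j φ x = 0) :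
    ∃ H : (ι → ℂ) → ℂ, (∀ x ∈ Ω, DifferentiableAt ℂ H x) ∧
      ∀ᵐ x ∂(volume.restrict Ω), u x = H x := by
  choose! r hr0 h hsub hd hae using fun a (ha : a ∈ Ω) => weyl_local hΩ hum hB hw ha
  -- compatibility
  have hcomp : ∀ a ∈ Ω, ∀ b ∈ Ω, ∀ x ∈ Metric.ball a (r a) ∩ Metric.ball b (r b), h a x = h b x := by
    intro a ha b hb
    have ho : IsOpen (Metric.ball a (r a) ∩ Metric.ball b (r b)) :=
      Metric.isOpen_ball.inter Metric.isOpen_ball
    have h1 : ∀ᵐ x ∂(volume.restrict (Metric.ball a (r a) ∩ Metric.ball b (r b))), h a x = h b x := by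
      have e1 := ae_mono (Measure.restrict_mono (inter_subset_left :
        Metric.ball a (r a) ∩ Metric.ball b (r b) ⊆ _) le_rfl) (hae a ha)
      have e2 := ae_mono (Measure.restrict_mono (inter_subset_right :
        Metric.ball a (r a) ∩ Metric.ball b (r b) ⊆ _) le_rfl) (hae b hb)
      filter_upwards [e1, e2] with x hx1 hx2
      rw [← hx1, ← hx2]
    have c1 : ContinuousOn (h a) (Metric.ball a (r a) ∩ Metric.ball b (r b)) := fun x hx =>
      (hd a ha x hx.1).continuousAt.continuousWithinAt
    have c2 : ContinuousOn (h b) (Metric.ball a (r a) ∩ Metric.ball b (r b)) := fun x hx =>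
      (hd b hb x hx.2).continuousAt.continuousWithinAt
    exact Measure.eqOn_open_of_ae_eq h1 ho c1 c2
  have hHa : ∀ a ∈ Ω, ∀ x ∈ Metric.ball a (r a), h x x = h a x := by
    intro a ha x hx
    have hxΩ := hsub a ha hx
    exact hcomp x hxΩ a ha x ⟨Metric.mem_ball_self (hr0 x hxΩ), hx⟩
  refine ⟨fun x => h x x, ?_, ?_⟩
  · intro a ha
    have hnb : Metric.ball a (r a) ∈ 𝓝 a := Metric.ball_mem_nhds a (hr0 a ha)
    apply (hd a ha a (Metric.mem_ball_self (hr0 a ha))).congr_of_eventuallyEq
    filter_upwards [hnb] with x hx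
    exact hHa a ha x hx
  · rw [ae_restrict_iff' hΩ.measurableSet]
    have h0 : volume {x | x ∈ Ω ∧ u x ≠ h x x} = 0 := by
      apply measure_null_of_locally_null
      rintro a ⟨ha, -⟩
      refine ⟨{x | x ∈ Ω ∧ u x ≠ h x x} ∩ Metric.ball a (r a), ?_, ?_⟩
      · exact Filter.inter_mem self_mem_nhdsWithin
          (mem_nhdsWithin_of_mem_nhds (Metric.ball_mem_nhds a (hr0 a ha)))
      · have h1 := hae a ha
        rw [ae_restrict_iff' Metric.isOpen_ball.measurableSet, ae_iff] at h1
        apply measure_mono_null _ h1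
        rintro x ⟨⟨hx1, hx2⟩, hx3⟩
        show ¬ (x ∈ Metric.ball a (r a) → u x = h a x)
        intro hcon
        exact hx2 ((hcon hx3).trans (hHa a ha x hx3).symm)
    rw [ae_iff]
    apply measure_mono_null _ h0
    intro x hx
    have hx' : ¬ (x ∈ Ω → u x = h x x) := hx
    push Not at hx'
    exact hx'

end Pool.Agent.Helper303.Mb
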