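import Pool.Agent.Helper303.MbVal
import Pool.Agent.Helper303.MbWeyl2

open MeasureTheory Set Complex
open scoped Real Topology ComplexConjugate ContDiff

set_option linter.unusedSectionVars false

namespace Pool.Agent.Helper303.Mb

variable {ι : Type} [Fintype ι] [DecidableEq ι] {B : Blk ι}

lemma ae_to_all {D : Set (ι → ℂ)} (hD : IsOpen D) {U : (ι → ℂ) → ℂ} (hU : ∀ z ∈ D, ContinuousAt U z)
    {b : ℝ} (h : ∀ᵐ z ∂(volume.restrict D), ‖U z‖ ≤ b) : ∀ z ∈ D, ‖U z‖ ≤ b := by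
  by_contra hne
  push Not at hne
  obtain ⟨z, hz, hzb⟩ := hne
  have hc : ContinuousOn (fun z => ‖U z‖) D := fun z hz => (hU z hz).norm.continuousWithinAt
  have ho : IsOpen (D ∩ (fun z => ‖U z‖) ⁻¹' Ioi b) := hc.isOpen_inter_preimage hD isOpen_Ioi
  have hpos : 0 < volume (D ∩ (fun z => ‖U z‖) ⁻¹' Ioi b) := ho.measure_pos volume ⟨z, hz, hzb⟩
  rw [ae_restrict_iff' hD.measurableSet, ae_iff] at h
  have hsub : D ∩ (fun z => ‖U z‖) ⁻¹' Ioi b ⊆ {a | ¬(a ∈ D → ‖U a‖ ≤ b)} := by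
    rintro x ⟨hx1, hx2⟩ hx3
    exact absurd (hx3 hx1) (not_le.2 hx2)
  exact absurd (measure_mono_null hsub h) hpos.ne'

lemma contDiffOn_dbar {D : Set (ι → ℂ)} (hD : IsOpen D) {φ : (ι → ℂ) → ℂ}
    (h : ContDiffOn ℝ ∞ φ D) (k : ι) : ContDiffOn ℝ ∞ (dbar k φ) D := by
  have h1 : ContDiffOn ℝ ∞ (fderiv ℝ φ) D := h.fderiv_of_isOpen hD (by simp)
  unfold dbar
  exact ((h1.clm_apply contDiffOn_const).add
    (contDiffOn_const.mul (h1.clm_apply contDiffOn_const))).div_const _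

theorem not_bounded (B : Blk ι) : ∃ C₀ : ℝ, 0 ≤ C₀ ∧ ∀ D : Set (ι → ℂ), IsOpen D → D ⊆ CB B →
    (∀ z ∈ D, ‖z‖ ≤ 1) → (∀ z0 zi z1, Pos z0 zi z1 → sl B z0 zi z1 ∈ D) → ∀ K : ℝ,
    ∃ g : (ι → ℂ) → (ι → ℂ), (∀ k, ContDiffOn ℝ ∞ (fun x => g x k) D) ∧
      (∀ x ∈ D, ∀ j k, dbar k (fun x => g x j) x = dbar j (fun x => g x k) x) ∧
      (∀ x ∈ D, ∀ k, ‖g x k‖ ≤ C₀) ∧
      ∀ (u : (ι → ℂ) → ℂ) (b : ℝ), AEStronglyMeasurable u (volume.restrict D) →
        (∀ᵐ x ∂(volume.restrict D), ‖u x‖ ≤ b) → SolvesDbar D u g → K < b := by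
  obtain ⟨C₀, hC0, hform⟩ := form_bound B
  refine ⟨C₀, hC0, ?_⟩
  intro D hDo hDC hD1 hD K
  -- choice of `J`
  set κ := Real.exp (-1) * (∫ x, kap x ^ 6) ^ 3 with hκ
  have hκ0 : 0 < κ := mul_pos (Real.exp_pos _) (pow_pos kap_six_pos 3)
  obtain ⟨m, hm⟩ := exists_nat_gt (|K| * |Kc| / κ)
  set J := (m + 1) ^ 2 with hJd
  have hJ : 1 ≤ J := Nat.one_le_pow _ _ (by omega)
  have hsq : Real.sqrt J = m + 1 := by
    rw [hJd]
    push_cast
    exact Real.sqrt_sq (by positivity)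
  obtain ⟨N₀, hN₀⟩ := hform J hJ
  set N := max N₀ (96 * J ^ 2) with hN
  have hN1 : N₀ ≤ N := le_max_left _ _
  have hN2 : 96 * J ^ 2 ≤ N := le_max_right _ _
  have hJ2 : 1 ≤ J ^ 2 := Nat.one_le_pow _ _ hJ
  have hN3 : 1 ≤ N := by omega
  have hN4 : 1 ≤ (N : ℝ) * (1 / (48 * (J : ℝ) ^ 2)) / 2 := by
    have h1 : (96 * (J : ℝ) ^ 2) ≤ N := by exact_mod_cast hN2
    have hJpos : (0 : ℝ) < J := by exact_mod_cast hJ
    have e : (N : ℝ) * (1 / (48 * (J : ℝ) ^ 2)) / 2 = N / (96 * (J : ℝ) ^ 2) := by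
      field_simp
      ring
    rw [e, le_div_iff₀ (by positivity)]
    linarith
  have hsm : ContDiffOn ℝ ∞ (uu B J N) D := fun z hz => (smooth_uu hJ (hDC hz)).contDiffWithinAt
  have hgs : ∀ k, ContDiffOn ℝ ∞ (dbar k (uu B J N)) D := fun k => contDiffOn_dbar hDo hsm k
  refine ⟨fun z k => dbar k (uu B J N) z, hgs, ?_, ?_, ?_⟩
  · intro x hx j k
    have h2 : ContDiffAt ℝ 2 (uu B J N) x := (smooth_uu hJ (hDC hx)).of_le (by norm_cast)
    exact dbar_comm h2 k j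
  · intro x hx k
    exact hN₀ N hN1 x (hDC hx) (hD1 x hx) k
  · intro u b hum hub hsol
    -- bounded holomorphic difference
    have huuc : ContinuousOn (uu B J N) D := hsm.continuousOn
    have hdiffm : AEStronglyMeasurable (fun z => u z - uu B J N z) (volume.restrict D) :=
      hum.sub (huuc.aestronglyMeasurable hDo.measurableSet)
    have hb1 : ∀ᵐ x ∂(volume.restrict D), ‖u x - uu B J N x‖ ≤ b + J * (25 * Real.exp 2) := by
      filter_upwards [hub, ae_restrict_mem hDo.measurableSet] with x hx hxD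
      exact (norm_sub_le _ _).trans (add_le_add hx (uu_bound hJ hN4 (hDC hxD)))
    have hw : ∀ j : ι, ∀ φ, IsTest D φ → ∫ x in D, (u x - uu B J N x) * dbar j φ x = 0 := by
      intro j φ hφ
      have i1 : Integrable (fun x => u x * dbar j φ x) (volume.restrict D) :=
        ((hφ.continuous_dbar j).integrable_of_hasCompactSupport
          (hφ.hcs_dbar j)).integrableOn.bdd_mul hum hub
      have i2 : Integrable (fun x => uu B J N x * dbar j φ x) (volume.restrict D) :=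
        (integrable_mul_of_cs hDo huuc (hφ.continuous_dbar j) (hφ.hcs_dbar j)
          (hφ.tsupport_dbar j)).integrableOn
      have e1 := hsol j φ hφ
      have e2 := ibp hDo (hsm.of_le (by norm_cast)) hφ j
      have : ∫ x in D, (u x - uu B J N x) * dbar j φ x =
          (∫ x in D, u x * dbar j φ x) - ∫ x in D, uu B J N x * dbar j φ x := by
        rw [← integral_sub i1 i2]
        apply integral_congr_ae
        filter_upwards with x
        ring
      rw [this, e1, e2]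
      ring
    obtain ⟨H, hH, hHae⟩ := weyl hDo hdiffm hb1 hw
    have hHb : ∀ z ∈ D, ‖H z‖ ≤ b + J * (25 * Real.exp 2) := by
      apply ae_to_all hDo (fun z hz => (hH z hz).continuousAt)
      filter_upwards [hHae, hb1] with x h1 h2
      rw [← h1]
      exact h2
    have hUb : ∀ z ∈ D, ‖uu B J N z + H z‖ ≤ b := by
      apply ae_to_all hDo (fun z hz => (smooth_uu hJ (hDC hz)).continuousAt.add
        (hH z hz).continuousAt)
      filter_upwards [hHae, hub] with x h1 h2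
      show ‖uu B J N x + H x‖ ≤ b
      rw [← h1]
      simpa using h2
    have hz0 : sl B 1 1 1 ∈ D := hD 1 1 1 ⟨by simp, by norm_num⟩
    have hb0 : 0 ≤ b := (norm_nonneg _).trans (hUb _ hz0)
    have hM0 : 0 ≤ b + J * (25 * Real.exp 2) := by positivity
    have hmain := main_ineq hD hDC hH hM0 hHb hJ hN3 hb0 hUb
    by_contra hKb
    push Not at hKb
    have hr : Real.sqrt J * Real.sqrt J = J := Real.mul_self_sqrt (by positivity)
    have hr0 : 0 < Real.sqrt J := by rw [hsq]; positivity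
    have h1 : (Real.sqrt J) * (Real.sqrt J * κ) ≤ Real.sqrt J * (|K| * |Kc|) := by
      calc (Real.sqrt J) * (Real.sqrt J * κ) = J * κ := by rw [← mul_assoc, hr]
        _ ≤ b * (Real.sqrt J * Kc) := hmain
        _ ≤ b * (Real.sqrt J * |Kc|) :=
            mul_le_mul_of_nonneg_left (mul_le_mul_of_nonneg_left (le_abs_self Kc) hr0.le) hb0
        _ ≤ |K| * (Real.sqrt J * |Kc|) := by
            have hbK : b ≤ |K| := hKb.trans (le_abs_self K)
            gcongr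
        _ = Real.sqrt J * (|K| * |Kc|) := by ring
    have h2 : Real.sqrt J * κ ≤ |K| * |Kc| := le_of_mul_le_mul_left h1 hr0
    rw [div_lt_iff₀ hκ0] at hm
    rw [hsq] at h2
    nlinarith

/-- failure of the uniform estimates of the second kind -/
theorem not_uniform (B : Blk ι) {D : Set (ι → ℂ)} (hDo : IsOpen D) (hDC : D ⊆ CB B)
    (hD1 : ∀ z ∈ D, ‖z‖ ≤ 1) (hD : ∀ z0 zi z1, Pos z0 zi z1 → sl B z0 zi z1 ∈ D) :
    ¬ UniformEstimates01 D := by
  rintro ⟨C, hC⟩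
  obtain ⟨C₀, hC0, h⟩ := not_bounded B
  obtain ⟨g, h1, h2, h3, h4⟩ := h D hDo hDC hD1 hD (C * C₀)
  obtain ⟨f, hf1, hf2, hf3⟩ := hC g C₀ h1 h2 h3
  exact lt_irrefl _ (h4 f _ hf1 hf2 hf3)

/-- failure of the sup norm estimates -/
theorem not_sup (B : Blk ι) {D : Set (ι → ℂ)} (hDo : IsOpen D) (hDC : D ⊆ CB B)
    (hD1 : ∀ z ∈ D, ‖z‖ ≤ 1) (hD : ∀ z0 zi z1, Pos z0 zi z1 → sl B z0 zi z1 ∈ D) :
    ¬ SupNormEstimates D := by
  rintro ⟨C, hC⟩
  obtain ⟨C₀, hC0, h⟩ := not_bounded B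
  set M := Real.sqrt (∑ _j : ι, C₀ ^ 2) with hM
  obtain ⟨g, h1, h2, h3, h4⟩ := h D hDo hDC hD1 hD (C * M)
  have hgc : ContinuousOn g D := continuousOn_pi.2 fun k => (h1 k).continuousOn
  obtain ⟨f, hf1, hf2, hf3⟩ := hC g M (hgc.aestronglyMeasurable hDo.measurableSet)
    (by
      filter_upwards [ae_restrict_mem hDo.measurableSet] with x hx
      apply Real.sqrt_le_sqrt
      apply Finset.sum_le_sum
      intro j _
      have := h3 x hx j
      gcongr)
    (dbarClosed_of_classical hDo (fun j => (h1 j).of_le (by norm_cast)) h2)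
  exact lt_irrefl _ (h4 f _ hf1 hf2 hf3)

end Pool.Agent.Helper303.Mb
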