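import Pool.Agent.Helper303.LpV
import Pool.Agent.Helper303.LpWeyl
import Pool.Agent.Helper303.MbMain

open MeasureTheory Set Complex
open scoped Real Topology ComplexConjugate ContDiff

set_option linter.unusedSectionVars false

namespace Pool.Agent.Helper303.Lp

open Pool.Agent.Helper303.Mb

/-- the function whose `∂̄` is the form -/
noncomputable def V0 (m : ℕ) (v : (Fin 4 → ℂ) → ℂ) (x : Fin 5 → ℂ) : ℂ := x 0 ^ m * v (tl x)

lemma V0_smooth (m : ℕ) {v : (Fin 4 → ℂ) → ℂ} (hv : ContDiff ℝ ∞ v) : ContDiff ℝ ∞ (V0 m v) :=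
  ((contDiff_apply ℝ ℂ 0).pow m).mul (hv.comp tl_smooth)

/-- the projection as a linear map -/
noncomputable def tlL : (Fin 5 → ℂ) →L[ℝ] (Fin 4 → ℂ) :=
  ContinuousLinearMap.pi fun i => ContinuousLinearMap.proj (Fin.succ i)

lemma tlL_apply (x : Fin 5 → ℂ) : tlL x = tl x := rfl

lemma tlL_zero (c : ℂ) : tlL (Pi.single 0 c) = 0 := by
  funext i
  show (Pi.single 0 c : Fin 5 → ℂ) (Fin.succ i) = 0
  rw [Pi.single_eq_of_ne (Fin.succ_ne_zero i)]

lemma tlL_succ (k : Fin 4) (c : ℂ) : tlL (Pi.single (Fin.succ k) c) = Pi.single k c := by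
  funext i
  show (Pi.single (Fin.succ k) c : Fin 5 → ℂ) (Fin.succ i) = (Pi.single k c : Fin 4 → ℂ) i
  by_cases h : i = k
  · subst h
    rw [Pi.single_eq_same, Pi.single_eq_same]
  · rw [Pi.single_eq_of_ne h, Pi.single_eq_of_ne (fun h' => h (Fin.succ_injective _ h'))]

lemma V0_deriv (m : ℕ) {v : (Fin 4 → ℂ) → ℂ} (hv : ContDiff ℝ ∞ v) (x : Fin 5 → ℂ) :
    ∃ c : ℂ, HasFDerivAt (V0 m v) (x 0 ^ m • ((fderiv ℝ v (tl x)).comp tlL) +
      v (tl x) • (c • (ContinuousLinearMap.proj 0 : (Fin 5 → ℂ) →L[ℝ] ℂ))) x := by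
  have h1 : HasFDerivAt v (fderiv ℝ v (tl x)) (tlL x) :=
    (hv.differentiable (by simp) (tl x)).hasFDerivAt
  have h2 : HasFDerivAt (fun x => v (tl x)) ((fderiv ℝ v (tl x)).comp tlL) x :=
    HasFDerivAt.comp x (g := v) (f := tlL) h1 tlL.hasFDerivAt
  have h3 : HasDerivAt (fun w : ℂ => w ^ m) (m * x 0 ^ (m - 1)) (x 0) := hasDerivAt_pow m (x 0)
  have h4 : HasFDerivAt (fun x : Fin 5 → ℂ => x 0)
      (ContinuousLinearMap.proj 0 : (Fin 5 → ℂ) →L[ℝ] ℂ) x :=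
    (ContinuousLinearMap.proj 0 : (Fin 5 → ℂ) →L[ℝ] ℂ).hasFDerivAt
  have h5 : HasFDerivAt (fun w : ℂ => w ^ m)
      ((m * x 0 ^ (m - 1)) • (1 : ℂ →L[ℝ] ℂ)) (x 0) := by
    have h6 := h3.hasFDerivAt.restrictScalars ℝ
    refine h6.congr_fderiv ?_
    ext y
    simp
    ring
  have h7 : HasFDerivAt (fun x : Fin 5 → ℂ => x 0 ^ m)
      (((m * x 0 ^ (m - 1)) • (1 : ℂ →L[ℝ] ℂ)).comp
        (ContinuousLinearMap.proj 0 : (Fin 5 → ℂ) →L[ℝ] ℂ)) x :=
    HasFDerivAt.comp x (g := fun w : ℂ => w ^ m) (f := fun x : Fin 5 → ℂ => x 0) h5 h4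
  refine ⟨m * x 0 ^ (m - 1), ?_⟩
  have h8 := h7.fun_mul h2
  refine h8.congr_fderiv ?_
  ext y
  simp

lemma dbar_V0_zero (m : ℕ) {v : (Fin 4 → ℂ) → ℂ} (hv : ContDiff ℝ ∞ v) (x : Fin 5 → ℂ) :
    dbar 0 (V0 m v) x = 0 := by
  obtain ⟨c, hc⟩ := V0_deriv m hv x
  unfold dbar
  rw [hc.fderiv]
  simp only [add_apply, smul_apply, ContinuousLinearMap.comp_apply, tlL_zero, map_zero,
    ContinuousLinearMap.proj_apply, Pi.single_eq_same, smul_eq_mul]
  ring_nf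
  simp only [Complex.I_sq]
  ring

lemma dbar_V0_succ (m : ℕ) {v : (Fin 4 → ℂ) → ℂ} (hv : ContDiff ℝ ∞ v) (x : Fin 5 → ℂ) (k : Fin 4) :
    dbar (Fin.succ k) (V0 m v) x = x 0 ^ m * dbar k v (tl x) := by
  obtain ⟨c, hc⟩ := V0_deriv m hv x
  unfold dbar
  rw [hc.fderiv]
  simp only [add_apply, smul_apply, ContinuousLinearMap.comp_apply,
    ContinuousLinearMap.proj_apply, smul_eq_mul]
  rw [tlL_succ k 1, tlL_succ k I, Pi.single_eq_of_ne (Fin.succ_ne_zero k).symm,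
    Pi.single_eq_of_ne (Fin.succ_ne_zero k).symm]
  ring

lemma cns_fderiv (w : ℂ) (z : Fin 4 → ℂ) : ∃ T : (Fin 4 → ℂ) →L[ℂ] (Fin 5 → ℂ),
    HasFDerivAt (fun z => cns w z) T z := by
  refine ⟨ContinuousLinearMap.pi fun i => Fin.cases (motive := fun _ => (Fin 4 → ℂ) →L[ℂ] ℂ) 0
    (fun j => ContinuousLinearMap.proj j) i, ?_⟩
  rw [hasFDerivAt_pi]
  intro i
  refine Fin.cases ?_ (fun j => ?_) i
  · exact hasFDerivAt_const w z
  · exact (ContinuousLinearMap.proj j : (Fin 4 → ℂ) →L[ℂ] ℂ).hasFDerivAt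

lemma cns_contDiff (w : ℂ) : ContDiff ℝ ∞ (fun z : Fin 4 → ℂ => cns w z) := by
  rw [contDiff_pi]
  intro i
  refine Fin.cases ?_ (fun j => ?_) i
  · exact contDiff_const
  · exact contDiff_apply ℝ ℂ j

lemma cns_mem {w : ℂ} (hw : w ∈ Metric.ball (0 : ℂ) 1) {z : Fin 4 → ℂ} (hz : z ∈ CB B4) :
    cns w z ∈ Om := by
  rw [mem_Om_iff]
  have : Rz z = 1 := by
    unfold Rz
    rw [hh_zero (CB_sub_CBc hz)]
    simp
  rwa [this]

lemma dbar_hol {H : (Fin 4 → ℂ) → ℂ} {z : Fin 4 → ℂ} (hH : DifferentiableAt ℂ H z) (k : Fin 4) :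
    dbar k H z = 0 := by
  unfold dbar
  have h1 : fderiv ℝ H z = (fderiv ℂ H z).restrictScalars ℝ :=
    (hH.hasFDerivAt.restrictScalars ℝ).fderiv
  rw [h1]
  simp only [ContinuousLinearMap.coe_restrictScalars']
  have : (Pi.single k I : Fin 4 → ℂ) = I • Pi.single k 1 := by
    rw [← Pi.single_smul]
    simp
  rw [this, map_smul, smul_eq_mul]
  ring_nf
  simp only [Complex.I_sq]
  ring

lemma Kd_nonneg : 0 ≤ Kd := by
  unfold Kd
  have h1 : 0 ≤ ∫ X, mj X := integral_nonneg mj_nonneg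
  have h2 : 0 ≤ ∫ x, kav x ^ 2 := integral_nonneg fun x => by positivity
  positivity

/-- the estimate on one fibre -/
lemma fibre {p : ℝ} (hp : 200 ≤ p) {l : ℝ} (hl0 : 0 < l) (hl1 : l < 1) {J N : ℕ} (hJ : 1 ≤ J)
    (hN : 1 ≤ N) (hNε : 1 ≤ N * (1 / (48 * (J : ℝ) ^ 2)) / 2) {δ : ℝ} (hδ0 : 0 < δ)
    (hδ1 : δ ≤ 1 / 4) {v : (Fin 4 → ℂ) → ℂ} (hv : ContDiff ℝ ∞ v)
    (hvu : ∀ z ∈ CBc B4, v =ᶠ[𝓝 z] fun z => uu B4 J N (l • z)) {C0 : ℝ} (hC0 : 0 ≤ C0)
    (hvC : ∀ z ∈ CBc B4, ∀ k, ‖dbar k v z‖ ≤ C0) {m : ℕ} {H : (Fin 5 → ℂ) → ℂ}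
    (hH : ∀ x ∈ Om, DifferentiableAt ℂ H x ∧ ContDiffAt ℝ 1 H x) {w : ℂ}
    (hw : w ∈ Metric.ball (0 : ℂ) 1) (hw0 : w ≠ 0)
    (hint : Integrable (fun z => Om.indicator (fun x => ‖V0 m v x + H x‖ ^ p) (cns w z)))
    {τ : ℝ} (hτ : 0 < τ) :
    (‖w‖ ^ m) ^ p * ‖Lam B4 δ J N (fun z => uu B4 J N ((l * l) • z))‖ ≤
      ((τ + C0) * (‖w‖ ^ m) ^ p + τ ^ (1 - p) * ((40 ^ 8 / (δ ^ 8 * κ0)) *
        ∫ z, Om.indicator (fun x => ‖V0 m v x + H x‖ ^ p) (cns w z))) * (Real.sqrt J * Kd) := by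
  set G : (Fin 4 → ℂ) → ℂ := fun z => w ^ m * v z + H (cns w z) with hG
  set Ψ := ∫ z, Om.indicator (fun x => ‖V0 m v x + H x‖ ^ p) (cns w z) with hΨ
  have hw' : 0 < ‖w‖ := norm_pos_iff.2 hw0
  set a := ‖w‖ ^ m with ha
  have ha0 : 0 < a := pow_pos hw' m
  have hGF : ∀ z ∈ CB B4, Om.indicator (fun x => ‖V0 m v x + H x‖ ^ p) (cns w z) = ‖G z‖ ^ p := by
    intro z hz
    rw [indicator_of_mem (cns_mem hw hz)]
    simp only [hG, V0, cns_zero, tl_cns]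
  have hHd : ∀ z ∈ CB B4, DifferentiableAt ℂ (fun z => H (cns w z)) z := by
    intro z hz
    obtain ⟨T, hT⟩ := cns_fderiv w z
    exact DifferentiableAt.comp z (g := H) (f := fun z => cns w z)
      (hH _ (cns_mem hw hz)).1 hT.differentiableAt
  have hHc : ∀ z ∈ CB B4, ContDiffAt ℝ 1 (fun z => H (cns w z)) z := by
    intro z hz
    exact ContDiffAt.comp z (g := H) (f := fun z => cns w z) (hH _ (cns_mem hw hz)).2
      ((cns_contDiff w).contDiffAt.of_le (by norm_cast))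
  have hvc1 : ContDiff ℝ 1 v := hv.of_le (by norm_cast)
  have hG1 : ∀ y ∈ CB B4, ContDiffAt ℝ 1 G y := fun y hy =>
    (contDiffAt_const.mul hvc1.contDiffAt).add (hHc y hy)
  have hG2 : ∀ y ∈ CB B4, ∀ k, ‖dbar k G y‖ ≤ a * C0 := by
    intro y hy k
    have e1 : fderiv ℝ G y = w ^ m • fderiv ℝ v y + fderiv ℝ (fun z => H (cns w z)) y := by
      have d1 : HasFDerivAt v (fderiv ℝ v y) y := (hvc1.differentiable (by simp) y).hasFDerivAt
      have d2 : HasFDerivAt (fun z => H (cns w z)) (fderiv ℝ (fun z => H (cns w z)) y) y :=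
        ((hHc y hy).differentiableAt (by simp)).hasFDerivAt
      exact ((d1.const_mul (w ^ m)).add d2).fderiv
    have e2 : dbar k G y = w ^ m * dbar k v y + dbar k (fun z => H (cns w z)) y := by
      unfold dbar
      rw [e1]
      simp only [add_apply, smul_apply, smul_eq_mul]
      ring
    rw [e2, dbar_hol (hHd y hy) k, add_zero, norm_mul, norm_pow]
    have := hvC y (CB_sub_CBc hy) k
    gcongr
  have hG3 : IntegrableOn (fun z => ‖G z‖ ^ p) (CB B4) :=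
    hint.integrableOn.congr_fun (fun z hz => hGF z hz) isOpen_CB.measurableSet
  have hG4 : ∫ z in CB B4, ‖G z‖ ^ p ≤ Ψ := by
    have e1 : ∫ z in CB B4, ‖G z‖ ^ p =
        ∫ z in CB B4, Om.indicator (fun x => ‖V0 m v x + H x‖ ^ p) (cns w z) :=
      (setIntegral_congr_fun isOpen_CB.measurableSet fun z hz => hGF z hz).symm
    rw [e1]
    exact setIntegral_le_integral hint (Filter.Eventually.of_forall fun z =>
      indicator_nonneg (fun x _ => by positivity) _)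
  have hmain := Lam_lp hG1 (C1 := a * C0) (by positivity) hG2 (show 16 ≤ p by linarith) hG3 hG4 hδ0
    hδ1 hJ hN hl0.le hl1.le (τ := τ * a) (by positivity)
  -- splitting
  have hlCB : ∀ z ∈ CB B4, l • z ∈ CB B4 := fun z hz => smul_CB hz hl0.le hl1.le
  have hllCB : ∀ z ∈ CB B4, (l * l) • z ∈ CB B4 := fun z hz =>
    smul_CB hz (by positivity) (by nlinarith)
  have hD : ∀ z0 zi z1, Pos z0 zi z1 → sl B4 z0 zi z1 ∈ CB B4 := fun _ _ _ h => sl_D h
  have hU1c : ∀ z ∈ CB B4, ContinuousAt (fun z => uu B4 J N ((l * l) • z)) z := by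
    intro z hz
    exact ContinuousAt.comp (g := uu B4 J N) (f := fun z => (l * l) • z)
      (smooth_uu hJ (hllCB z hz)).continuousAt (continuous_const_smul _).continuousAt
  have hU1b : ∀ z ∈ CB B4, ‖uu B4 J N ((l * l) • z)‖ ≤ J * (25 * Real.exp 2) := fun z hz =>
    uu_bound hJ hNε (hllCB z hz)
  have hU2d : ∀ z ∈ CB B4, DifferentiableAt ℂ (fun z => H (cns w (l • z))) z := by
    intro z hz
    have h1 : DifferentiableAt ℂ (fun z : Fin 4 → ℂ => l • z) z := by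
      have : (fun z : Fin 4 → ℂ => l • z) = fun z => (l : ℂ) • z := by
        funext z
        simp
      rw [this]
      fun_prop
    exact DifferentiableAt.comp z (g := fun z => H (cns w z)) (f := fun z => l • z)
      (hHd _ (hlCB z hz)) h1
  obtain ⟨M2, hM2⟩ : ∃ M2 : ℝ, ∀ z ∈ CB B4, ‖H (cns w (l • z))‖ ≤ M2 := by
    have hK : IsCompact ((fun z : Fin 4 → ℂ => l • z) '' CBc B4) := by
      apply IsCompact.image _ (continuous_const_smul l)
      apply (isCompact_closedBall (0 : Fin 4 → ℂ) 2).of_isClosed_subset isClosed_CBc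
      intro z hz
      rw [mem_closedBall_zero_iff]
      exact hh_lt (by rw [hh_zero hz]; norm_num)
    have hc : ContinuousOn (fun z => H (cns w z)) ((fun z : Fin 4 → ℂ => l • z) '' CBc B4) := by
      rintro _ ⟨z, hz, rfl⟩
      exact (hHd _ (smul_CBc hz hl0.le hl1)).continuousAt.continuousWithinAt
    obtain ⟨M2, hM2⟩ := hK.exists_bound_of_continuousOn hc
    exact ⟨M2, fun z hz => hM2 _ ⟨z, CB_sub_CBc hz, rfl⟩⟩
  have hM20 : 0 ≤ M2 := (norm_nonneg _).trans (hM2 _ (sl_D (Pos_X hδ0 (0, 0, 0))))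
  have hz2 := Lam_hol hD hU2d hM20 hM2 hδ0 hδ1 J N
  have i1 := Lam_integrable hD hU1c (by positivity) hU1b hδ0 hδ1 J N
  have i2 := Lam_integrable hD (fun z hz => (hU2d z hz).continuousAt) hM20 hM2 hδ0 hδ1 J N
  have hsplit : Lam B4 δ J N (fun z => G (l • z)) =
      w ^ m * Lam B4 δ J N (fun z => uu B4 J N ((l * l) • z)) := by
    have e1 : Lam B4 δ J N (fun z => G (l • z)) =
        w ^ m * Lam B4 δ J N (fun z => uu B4 J N ((l * l) • z)) +
          Lam B4 δ J N (fun z => H (cns w (l • z))) := by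
      unfold Lam
      rw [← integral_const_mul, ← integral_add (i1.const_mul _) i2]
      congr 1
      funext X
      have hX : slX B4 δ X ∈ CB B4 := sl_D (Pos_X hδ0 X)
      have h1 : v (l • slX B4 δ X) = uu B4 J N ((l * l) • slX B4 δ X) := by
        rw [(hvu _ (CB_sub_CBc (hlCB _ hX))).eq_of_nhds, smul_smul]
      simp only [hG]
      rw [h1]
      ring
    rw [e1, hz2, add_zero]
  rw [hsplit, norm_mul, norm_pow, ← ha] at hmain
  set L := ‖Lam B4 δ J N (fun z => uu B4 J N ((l * l) • z))‖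
  set κ' := 40 ^ 8 / (δ ^ 8 * κ0)
  have e3 : (τ * a) ^ (1 - p) = τ ^ (1 - p) * a ^ (1 - p) := Real.mul_rpow hτ.le ha0.le
  have e4 : a ^ (p - 1) * a = a ^ p := by
    have := Real.rpow_add ha0 (p - 1) 1
    rw [Real.rpow_one, sub_add_cancel] at this
    exact this.symm
  have e5 : a ^ (p - 1) * a ^ (1 - p) = 1 := by
    rw [← Real.rpow_add ha0]
    simp
  calc a ^ p * L = a ^ (p - 1) * (a * L) := by rw [← e4]; ring
    _ ≤ a ^ (p - 1) * ((τ * a + (τ * a) ^ (1 - p) * (κ' * Ψ) + a * C0) * (Real.sqrt J * Kd)) := by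
        gcongr
    _ = ((τ + C0) * (a ^ (p - 1) * a) + τ ^ (1 - p) * (a ^ (p - 1) * a ^ (1 - p)) * (κ' * Ψ)) *
          (Real.sqrt J * Kd) := by
        rw [e3]
        ring
    _ = _ := by
        rw [e4, e5]
        ring

end Pool.Agent.Helper303.Lp
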