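import Pool.Agent.Helper303.MbVal

open MeasureTheory Set Complex
open scoped Real Topology ComplexConjugate ContDiff

set_option linter.unusedSectionVars false

namespace Pool.Agent.Helper303.Lp

open Pool.Agent.Helper303.Mb

noncomputable def KV (ζ : ℂ) : ℂ := KK (ζ / 2)

noncomputable def kav (x : ℝ) : ℝ := kap (x / 2)

lemma KV_diff : Differentiable ℂ KV := fun ζ =>
  DifferentiableAt.comp ζ (g := KK) (f := fun ζ => ζ / 2) (KK_diff _) (by fun_prop)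

lemma KV_bound {ζ : ℂ} (h : 0 ≤ ζ.re) : ‖KV ζ‖ ≤ 16 / (1 + ‖ζ‖) := by
  have h1 : 0 ≤ (ζ / 2).re := by
    have : (ζ / 2).re = ζ.re / 2 := by simp
    rw [this]
    positivity
  have h2 := KK_bound h1
  unfold KV
  refine h2.trans ?_
  rw [norm_div]
  have : ‖(2 : ℂ)‖ = 2 := by simp
  rw [this, div_le_div_iff₀ (by positivity) (by positivity)]
  nlinarith [norm_nonneg ζ]

lemma KV_kav (x : ℝ) : KV (-(x : ℂ) * I) = exp ((x / 12 : ℝ) * I) * (kav x : ℂ) := by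
  unfold KV kav
  have e : (-(x : ℂ) * I) / 2 = -((x / 2 : ℝ) : ℂ) * I := by
    push_cast
    ring
  rw [e, KK_kap]
  congr 2
  push_cast
  ring

lemma kav_cont : Continuous kav := kap_cont.comp (by fun_prop)

lemma kav_bound (x : ℝ) : |kav x| ≤ 16 / (1 + |x|) := by
  have h := KV_bound (ζ := -(x : ℂ) * I) (by simp)
  rw [KV_kav, norm_mul, norm_exp_ofReal_mul_I, one_mul, norm_real, Real.norm_eq_abs] at h
  have e : ‖-(x : ℂ) * I‖ = |x| := by simp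
  rwa [e] at h

lemma kav_pow_bound (x : ℝ) (k : ℕ) (hk : 2 ≤ k) : |kav x| ^ k ≤ 16 ^ k * (1 + x ^ 2)⁻¹ := by
  have h := kav_bound x
  have h1 : |kav x| ^ k ≤ (16 / (1 + |x|)) ^ k := by gcongr
  refine h1.trans ?_
  rw [div_pow, div_eq_mul_inv]
  gcongr
  have h2 : (1 : ℝ) ≤ 1 + |x| := by linarith [abs_nonneg x]
  calc 1 + x ^ 2 ≤ (1 + |x|) ^ 2 := by
        have : |x| ^ 2 = x ^ 2 := sq_abs x
        nlinarith [abs_nonneg x]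
    _ ≤ (1 + |x|) ^ k := pow_le_pow_right₀ h2 hk

lemma kav_fourier_pos (k : ℕ) (hk : 2 ≤ k) (hk6 : k ≤ 12) (c : ℝ) (hc : 1 ≤ c) :
    ∫ x : ℝ, ((kav x ^ k : ℝ) : ℂ) * exp (c * x * I) = 0 := by
  have hdiff : Differentiable ℂ (fun ζ : ℂ => KV ζ ^ k * exp (((k : ℂ) / 12 - c) * ζ)) := by
    apply Differentiable.mul (KV_diff.pow k)
    fun_prop
  have h := half_plane (g := fun ζ => KV ζ ^ k * exp (((k : ℂ) / 12 - c) * ζ)) (C := 16 ^ k)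
    (by positivity)
    (fun ζ _ => hdiff ζ)
    (by
      intro ζ hζ
      rw [norm_mul, norm_pow]
      have h1 := KV_bound hζ
      have h2 : ‖exp (((k : ℂ) / 12 - c) * ζ)‖ ≤ 1 := by
        rw [norm_exp]
        apply Real.exp_le_one_iff.2
        have e : (((k : ℂ) / 12 - c) * ζ).re = ((k : ℝ) / 12 - c) * ζ.re := by
          have : ((k : ℂ) / 12 - c) = (((k : ℝ) / 12 - c : ℝ) : ℂ) := by push_cast; ring
          rw [this, Complex.re_ofReal_mul]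
        rw [e]
        have : (k : ℝ) ≤ 12 := by exact_mod_cast hk6
        apply mul_nonpos_of_nonpos_of_nonneg _ hζ
        linarith
      have h3 : (1 : ℝ) ≤ 1 + ‖ζ‖ := by linarith [norm_nonneg ζ]
      calc ‖KV ζ‖ ^ k * ‖exp (((k : ℂ) / 12 - c) * ζ)‖ ≤ (16 / (1 + ‖ζ‖)) ^ k * 1 := by gcongr
        _ = 16 ^ k / (1 + ‖ζ‖) ^ k := by rw [mul_one, div_pow]
        _ ≤ 16 ^ k / (1 + ‖ζ‖) ^ 2 := by
          gcongr)
  have hneg := integral_neg_eq_self (fun x : ℝ => KV (x * I) ^ k *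
    exp (((k : ℂ) / 12 - c) * (x * I))) volume
  rw [h] at hneg
  rw [← hneg]
  congr 1
  funext x
  have e0 : (((-x : ℝ) : ℂ) * I) = -(x : ℂ) * I := by push_cast; ring
  rw [e0, KV_kav, mul_pow, ← exp_nat_mul]
  have e1 : exp ((k : ℂ) * (((x / 12 : ℝ) : ℂ) * I)) * (kav x : ℂ) ^ k *
      exp (((k : ℂ) / 12 - c) * (-(x : ℂ) * I)) =
      (kav x : ℂ) ^ k * (exp ((k : ℂ) * (((x / 12 : ℝ) : ℂ) * I)) *
      exp (((k : ℂ) / 12 - c) * (-(x : ℂ) * I))) := by ring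
  rw [e1, ← exp_add]
  push_cast
  congr 2
  ring

lemma kav_fourier (k : ℕ) (hk : 2 ≤ k) (hk6 : k ≤ 12) (c : ℝ) (hc : 1 ≤ |c|) :
    ∫ x : ℝ, ((kav x ^ k : ℝ) : ℂ) * exp (c * x * I) = 0 := by
  rcases le_or_gt 0 c with h | h
  · rw [abs_of_nonneg h] at hc
    exact kav_fourier_pos k hk hk6 c hc
  · rw [abs_of_neg h] at hc
    have h1 := kav_fourier_pos k hk hk6 (-c) hc
    have h2 := congrArg (starRingEnd ℂ) h1
    rw [← integral_conj, map_zero] at h2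
    rw [← h2]
    congr 1
    funext x
    rw [map_mul, conj_ofReal, ← exp_conj]
    congr 2
    rw [map_mul, map_mul, conj_I, conj_ofReal, conj_ofReal]
    push_cast
    ring

lemma kav_pow_integrable (k : ℕ) (hk : 2 ≤ k) : Integrable fun x : ℝ => kav x ^ k := by
  apply (integrable_inv_one_add_sq.const_mul (16 ^ k)).mono' (kav_cont.pow k).aestronglyMeasurable
  filter_upwards with x
  show ‖kav x ^ k‖ ≤ 16 ^ k * (1 + x ^ 2)⁻¹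
  rw [norm_pow, Real.norm_eq_abs]
  exact kav_pow_bound x k hk

lemma kav_pos : 0 < ∫ x : ℝ, kav x ^ 12 := by
  have hnn : ∀ x, 0 ≤ kav x ^ 12 := fun x => by positivity
  rw [integral_pos_iff_support_of_nonneg hnn (kav_pow_integrable 12 (by norm_num))]
  have ho : IsOpen (Function.support fun x : ℝ => kav x ^ 12) :=
    isOpen_ne_fun (kav_cont.pow 12) continuous_const
  apply ho.measure_pos volume
  refine ⟨0, ?_⟩
  simp [kav, kap]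

variable {ι : Type} [Fintype ι] [DecidableEq ι] {B : Blk ι}

/-- the weight -/
noncomputable def PhV (δ : ℝ) (η0 ηi η1 : ℂ) : ℂ :=
  Gam (δ + η0) (δ + ηi) (2 * δ + η1) ^ 2 / 16 * KV η0 ^ 12 * KV ηi ^ 12 * KV η1 ^ 12

lemma KV_prod_bound {η0 ηi η1 : ℂ} (h0 : 0 ≤ η0.re) (hi : 0 ≤ ηi.re) (h1 : 0 ≤ η1.re) (k : ℕ) :
    ‖KV η0‖ ^ k * ‖KV ηi‖ ^ k * ‖KV η1‖ ^ k ≤ 16 ^ (3 * k) / PP η0 ηi η1 ^ k := by
  have a0 := KV_bound h0
  have ai := KV_bound hi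
  have a1 := KV_bound h1
  calc ‖KV η0‖ ^ k * ‖KV ηi‖ ^ k * ‖KV η1‖ ^ k ≤
      (16 / (1 + ‖η0‖)) ^ k * (16 / (1 + ‖ηi‖)) ^ k * (16 / (1 + ‖η1‖)) ^ k := by gcongr
    _ = 16 ^ (3 * k) / PP η0 ηi η1 ^ k := by
      unfold PP
      rw [← mul_pow, ← mul_pow, div_mul_div_comm, div_mul_div_comm, div_pow, pow_mul]
      norm_num

lemma PhV_bound {δ : ℝ} (hδ0 : 0 ≤ δ) (hδ1 : δ ≤ 1 / 4) {η0 ηi η1 : ℂ} (h0 : 0 ≤ η0.re)
    (hi : 0 ≤ ηi.re) (h1 : 0 ≤ η1.re) :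
    ‖PhV δ η0 ηi η1‖ ≤ 2 * 16 ^ 36 / PP η0 ηi η1 ^ 2 := by
  have hP := (PP_ge η0 ηi η1).1
  have hG := Gam_bound hδ0 hδ1 η0 ηi η1
  have hK := KV_prod_bound h0 hi h1 12
  set P := PP η0 ηi η1
  unfold PhV
  rw [norm_mul, norm_mul, norm_mul, norm_div, norm_pow, norm_pow, norm_pow, norm_pow]
  have h16 : ‖(16 : ℂ)‖ = 16 := by simp
  rw [h16]
  have hP6 : (1 : ℝ) / P ^ 8 ≤ 1 / P ^ 2 := by
    apply one_div_le_one_div_of_le (by positivity)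
    exact pow_le_pow_right₀ hP (by norm_num)
  calc ‖Gam (δ + η0) (δ + ηi) (2 * δ + η1)‖ ^ 2 / 16 * ‖KV η0‖ ^ 12 * ‖KV ηi‖ ^ 12 * ‖KV η1‖ ^ 12 =
      ‖Gam (δ + η0) (δ + ηi) (2 * δ + η1)‖ ^ 2 / 16 *
        (‖KV η0‖ ^ 12 * ‖KV ηi‖ ^ 12 * ‖KV η1‖ ^ 12) := by ring
    _ ≤ (5 * P ^ 2) ^ 2 / 16 * (16 ^ (3 * 12) / P ^ 12) := by gcongr
    _ = (25 / 16) * 16 ^ 36 * (1 / P ^ 8) := by
      field_simp
      ring
    _ ≤ 2 * 16 ^ 36 * (1 / P ^ 2) := by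
      have : (25 / 16 : ℝ) * 16 ^ 36 ≤ 2 * 16 ^ 36 := by norm_num
      gcongr
    _ = 2 * 16 ^ 36 / P ^ 2 := by ring

/-- the integrand of the functionals -/
noncomputable def G3 (B : Blk ι) (δ : ℝ) (N j : ℕ) (H : (ι → ℂ) → ℂ) (η0 ηi η1 : ℂ) : ℂ :=
  H (sl B (δ + η0) (δ + ηi) (2 * δ + η1)) * PhV δ η0 ηi η1 * exp (N * lj j η0 ηi η1)

/-- integral along the direction `P_j` -/
lemma dir_zero {D : Set (ι → ℂ)} (hD : ∀ z0 zi z1, Pos z0 zi z1 → sl B z0 zi z1 ∈ D)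
    {H : (ι → ℂ) → ℂ} (hH : ∀ z ∈ D, DifferentiableAt ℂ H z) {M : ℝ} (hM0 : 0 ≤ M)
    (hM : ∀ z ∈ D, ‖H z‖ ≤ M) {δ : ℝ} (hδ0 : 0 < δ) (hδ1 : δ ≤ 1 / 4) (N j : ℕ) (α β : ℝ) :
    ∫ t : ℝ, G3 B δ N j H (-((α + (j : ℝ) ^ 2 * t : ℝ) : ℂ) * I) (-(t : ℂ) * I)
      (-((β + ((j : ℝ) - 1) ^ 2 * t : ℝ) : ℂ) * I) = 0 := by
  set e0 : ℂ → ℂ := fun τ => -(α : ℂ) * I + (j : ℂ) ^ 2 * τ with he0
  set e1 : ℂ → ℂ := fun τ => -(β : ℂ) * I + ((j : ℂ) - 1) ^ 2 * τ with he1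
  have hre0 : ∀ τ : ℂ, 0 ≤ τ.re → 0 ≤ (e0 τ).re := by
    intro τ hτ
    have : (e0 τ).re = (j : ℝ) ^ 2 * τ.re := by
      have h1 : (j : ℂ) ^ 2 = (((j : ℝ) ^ 2 : ℝ) : ℂ) := by push_cast; ring
      simp only [he0]
      rw [h1, add_re, re_ofReal_mul]
      simp
    rw [this]
    positivity
  have hre1 : ∀ τ : ℂ, 0 ≤ τ.re → 0 ≤ (e1 τ).re := by
    intro τ hτ
    have : (e1 τ).re = ((j : ℝ) - 1) ^ 2 * τ.re := by
      have h1 : ((j : ℂ) - 1) ^ 2 = ((((j : ℝ) - 1) ^ 2 : ℝ) : ℂ) := by push_cast; ring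
      simp only [he1]
      rw [h1, add_re, re_ofReal_mul]
      simp
    rw [this]
    positivity
  have hpos : ∀ τ : ℂ, 0 ≤ τ.re → Pos (δ + e0 τ) (δ + τ) (2 * δ + e1 τ) := by
    intro τ hτ
    have := Pos_dir (z0 := δ - α * I) (zi := δ) (z1 := 2 * δ - β * I) hδ0 (by simp) (by simp)
      (by
        have : (2 : ℂ) * δ = ((2 * δ : ℝ) : ℂ) := by push_cast; ring
        rw [this, sub_re, ofReal_re]
        simp) j hτ
    have a1 : (δ : ℂ) + e0 τ = δ - α * I + (j : ℂ) ^ 2 * τ := by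
      simp only [he0]
      ring
    have a2 : (2 : ℂ) * δ + e1 τ = 2 * δ - β * I + ((j : ℂ) - 1) ^ 2 * τ := by
      simp only [he1]
      ring
    rw [a1, a2]
    exact this
  have hlj : ∀ τ : ℂ, lj j (e0 τ) τ (e1 τ) = ((-(α : ℝ) + j * (α - β) : ℝ) : ℂ) * I := by
    intro τ
    unfold lj
    simp only [he0, he1]
    push_cast
    ring
  have h := half_plane (g := fun τ => G3 B δ N j H (e0 τ) τ (e1 τ)) (C := M * (2 * 16 ^ 36))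
    (by positivity)
    (by
      intro τ hτ
      have hs := sl_diff (B := B) (z0 := fun τ => δ + e0 τ) (zi := fun τ => δ + τ)
        (z1 := fun τ => 2 * δ + e1 τ) (τ := τ) (by fun_prop) (by fun_prop) (by fun_prop) (hpos τ hτ)
      have hH' : DifferentiableAt ℂ (fun τ => H (sl B (δ + e0 τ) (δ + τ) (2 * δ + e1 τ))) τ :=
        DifferentiableAt.comp τ (g := H) (f := fun τ => sl B (δ + e0 τ) (δ + τ) (2 * δ + e1 τ))
          (hH _ (hD _ _ _ (hpos τ hτ))) hs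
      have hK0 : DifferentiableAt ℂ (fun τ => KV (e0 τ)) τ :=
        DifferentiableAt.comp τ (g := KV) (f := e0) (KV_diff _) (by fun_prop)
      have hK1 : DifferentiableAt ℂ (fun τ => KV (e1 τ)) τ :=
        DifferentiableAt.comp τ (g := KV) (f := e1) (KV_diff _) (by fun_prop)
      have hKi : DifferentiableAt ℂ (fun τ => KV τ) τ := KV_diff τ
      have hG : DifferentiableAt ℂ (fun τ => Gam (δ + e0 τ) (δ + τ) (2 * δ + e1 τ)) τ := by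
        unfold Gam
        fun_prop
      unfold G3 PhV
      simp only [hlj]
      exact ((hH'.fun_mul (((((hG.fun_pow 2).div_const 16).fun_mul (hK0.fun_pow 12)).fun_mul
        (hKi.fun_pow 12)).fun_mul (hK1.fun_pow 12))).mul_const _))
    (by
      intro τ hτ
      unfold G3
      rw [norm_mul, norm_mul, hlj]
      have h1 : ‖exp ((N : ℂ) * (((-(α : ℝ) + j * (α - β) : ℝ) : ℂ) * I))‖ = 1 := by
        have : (N : ℂ) * (((-(α : ℝ) + j * (α - β) : ℝ) : ℂ) * I) =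
            (((N : ℝ) * (-(α : ℝ) + j * (α - β)) : ℝ) : ℂ) * I := by
          push_cast
          ring
        rw [this, norm_exp_ofReal_mul_I]
      rw [h1, mul_one]
      have h2 := hM _ (hD _ _ _ (hpos τ hτ))
      have h3 := PhV_bound hδ0.le hδ1 (hre0 τ hτ) hτ (hre1 τ hτ)
      have h4 : 2 * 16 ^ 36 / PP (e0 τ) τ (e1 τ) ^ 2 ≤ 2 * 16 ^ 36 / (1 + ‖τ‖) ^ 2 := by
        gcongr
        exact (PP_ge (e0 τ) τ (e1 τ)).2.2.2
      calc ‖H (sl B (δ + e0 τ) (δ + τ) (2 * δ + e1 τ))‖ * ‖PhV δ (e0 τ) τ (e1 τ)‖ ≤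
          M * (2 * 16 ^ 36 / (1 + ‖τ‖) ^ 2) := by
            gcongr
            exact h3.trans h4
        _ = M * (2 * 16 ^ 36) / (1 + ‖τ‖) ^ 2 := by ring)
  have hneg := integral_neg_eq_self (fun t : ℝ => G3 B δ N j H (e0 (t * I)) (t * I) (e1 (t * I)))
    volume
  rw [h] at hneg
  rw [← hneg]
  congr 1
  funext t
  have a1 : (-((α + (j : ℝ) ^ 2 * t : ℝ) : ℂ) * I) = e0 (((-t : ℝ) : ℂ) * I) := by
    simp only [he0]
    push_cast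
    ring
  have a2 : (-(t : ℂ) * I) = ((-t : ℝ) : ℂ) * I := by push_cast; ring
  have a3 : (-((β + ((j : ℝ) - 1) ^ 2 * t : ℝ) : ℂ) * I) = e1 (((-t : ℝ) : ℂ) * I) := by
    simp only [he1]
    push_cast
    ring
  rw [a1, a2, a3]

/-- product weights -/
noncomputable def kvp (k : ℕ) (X : ℝ × ℝ × ℝ) : ℝ := kav X.1 ^ k * (kav X.2.1 ^ k * kav X.2.2 ^ k)

lemma kvp_cont (k : ℕ) : Continuous (kvp k) := by
  have := kav_cont
  unfold kvp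
  fun_prop

lemma kvp_integrable (k : ℕ) (hk : 2 ≤ k) : Integrable (kvp k) := by
  have h := kav_pow_integrable k hk
  exact h.mul_prod (h.mul_prod h)

lemma orthV (k : ℕ) (hk : 2 ≤ k) (hk6 : k ≤ 12) {N : ℕ} (hN : 1 ≤ N) (i j : ℕ) :
    ∫ X : ℝ × ℝ × ℝ, (kvp k X : ℂ) * exp (((N * (La i X - La j X) : ℝ) : ℂ) * I) =
      if i = j then (((∫ x, kav x ^ k) ^ 3 : ℝ) : ℂ) else 0 := by
  have key : ∀ X : ℝ × ℝ × ℝ, (kvp k X : ℂ) * exp (((N * (La i X - La j X) : ℝ) : ℂ) * I) =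
      (((kav X.1 ^ k : ℝ) : ℂ) * exp (((N * (((i : ℝ) ^ 2 - j ^ 2) - (i - j)) : ℝ) : ℂ) * (X.1 : ℝ) * I)) *
      ((((kav X.2.1 ^ k : ℝ) : ℂ) * exp (((-(N * ((i : ℝ) - j)) : ℝ) : ℂ) * (X.2.1 : ℝ) * I)) *
       (((kav X.2.2 ^ k : ℝ) : ℂ) * exp (((N * ((i : ℝ) - j) : ℝ) : ℂ) * (X.2.2 : ℝ) * I))) := by
    intro X
    have e : (((N * (La i X - La j X) : ℝ) : ℂ) * I) =
        ((N * (((i : ℝ) ^ 2 - j ^ 2) - (i - j)) : ℝ) : ℂ) * (X.1 : ℝ) * I +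
        (((-(N * ((i : ℝ) - j)) : ℝ) : ℂ) * (X.2.1 : ℝ) * I +
        ((N * ((i : ℝ) - j) : ℝ) : ℂ) * (X.2.2 : ℝ) * I) := by
      unfold La
      push_cast
      ring
    rw [e, exp_add, exp_add]
    unfold kvp
    push_cast
    ring
  simp only [key]
  have h1 := integral_prod_mul (μ := (volume : Measure ℝ)) (ν := (volume : Measure (ℝ × ℝ)))
    (fun x : ℝ => (((kav x ^ k : ℝ) : ℂ) * exp (((N * (((i : ℝ) ^ 2 - j ^ 2) - (i - j)) : ℝ) : ℂ) * (x : ℝ) * I)))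
    (fun Y : ℝ × ℝ => ((((kav Y.1 ^ k : ℝ) : ℂ) * exp (((-(N * ((i : ℝ) - j)) : ℝ) : ℂ) * (Y.1 : ℝ) * I)) *
       (((kav Y.2 ^ k : ℝ) : ℂ) * exp (((N * ((i : ℝ) - j) : ℝ) : ℂ) * (Y.2 : ℝ) * I))))
  have h2 := integral_prod_mul (μ := (volume : Measure ℝ)) (ν := (volume : Measure ℝ))
    (fun x : ℝ => (((kav x ^ k : ℝ) : ℂ) * exp (((-(N * ((i : ℝ) - j)) : ℝ) : ℂ) * (x : ℝ) * I)))
    (fun x : ℝ => (((kav x ^ k : ℝ) : ℂ) * exp (((N * ((i : ℝ) - j) : ℝ) : ℂ) * (x : ℝ) * I)))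
  rw [Measure.volume_eq_prod]
  rw [h1]
  rw [Measure.volume_eq_prod]
  rw [h2]
  split_ifs with hij
  · subst hij
    simp only [sub_self, mul_zero, neg_zero, ofReal_zero, zero_mul, exp_zero, mul_one]
    have e : ∫ x : ℝ, ((kav x ^ k : ℝ) : ℂ) = ((∫ x, kav x ^ k : ℝ) : ℂ) := integral_ofReal
    rw [e]
    push_cast
    ring
  · have hc : 1 ≤ |(-(N * ((i : ℝ) - j)))| := by
      rw [abs_neg, abs_mul]
      have hN' : (1 : ℝ) ≤ |(N : ℝ)| := by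
        rw [abs_of_nonneg (Nat.cast_nonneg N)]
        exact_mod_cast hN
      have hd : (1 : ℝ) ≤ |(i : ℝ) - j| := by
        have : (1 : ℤ) ≤ |(i : ℤ) - j| := by
          apply Int.one_le_abs
          omega
        exact_mod_cast this
      calc (1 : ℝ) = 1 * 1 := by ring
        _ ≤ _ := by gcongr
    rw [kav_fourier k hk hk6 _ hc]
    simp

/-- the weight -/
noncomputable def PhY (δ : ℝ) (X : ℝ × ℝ × ℝ) : ℂ :=
  PhV δ (-(X.2.1 : ℂ) * I) (-(X.1 : ℂ) * I) (-(X.2.2 : ℂ) * I)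

lemma PhY_cont (δ : ℝ) : Continuous (PhY δ) := by
  have hK := KV_diff.continuous
  unfold PhY PhV Gam
  fun_prop

lemma PhY_bound {δ : ℝ} (hδ0 : 0 ≤ δ) (hδ1 : δ ≤ 1 / 4) (X : ℝ × ℝ × ℝ) :
    ‖PhY δ X‖ ≤ 2 * 16 ^ 36 * mj X := by
  have h := PhV_bound hδ0 hδ1 (η0 := -(X.2.1 : ℂ) * I) (ηi := -(X.1 : ℂ) * I)
    (η1 := -(X.2.2 : ℂ) * I) (by simp) (by simp) (by simp)
  unfold PhY
  refine h.trans ?_
  rw [div_eq_mul_one_div]
  gcongr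
  exact PP_mj X

/-- the integrand of the functional `Λ_j` -/
noncomputable def F3 (B : Blk ι) (δ : ℝ) (N j : ℕ) (H : (ι → ℂ) → ℂ) (X : ℝ × ℝ × ℝ) : ℂ :=
  H (slX B δ X) * PhY δ X * exp (-((N * La j X : ℝ) : ℂ) * I)

lemma F3_G3 (δ : ℝ) (N j : ℕ) (H : (ι → ℂ) → ℂ) (X : ℝ × ℝ × ℝ) :
    F3 B δ N j H X = G3 B δ N j H (-(X.2.1 : ℂ) * I) (-(X.1 : ℂ) * I) (-(X.2.2 : ℂ) * I) := by
  unfold F3 G3
  rw [lj_La]
  congr 2
  push_cast
  ring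

lemma norm_F3 (δ : ℝ) (N j : ℕ) (H : (ι → ℂ) → ℂ) (X : ℝ × ℝ × ℝ) :
    ‖F3 B δ N j H X‖ = ‖H (slX B δ X)‖ * ‖PhY δ X‖ := by
  unfold F3
  rw [norm_mul, norm_mul]
  have : (-((N * La j X : ℝ) : ℂ) * I) = ((-(N * La j X) : ℝ) : ℂ) * I := by push_cast; ring
  rw [this, norm_exp_ofReal_mul_I, mul_one]

lemma F3_cont {D : Set (ι → ℂ)} (hD : ∀ z0 zi z1, Pos z0 zi z1 → sl B z0 zi z1 ∈ D)
    {H : (ι → ℂ) → ℂ} (hH : ∀ z ∈ D, ContinuousAt H z) {δ : ℝ} (hδ0 : 0 < δ) (N j : ℕ) :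
    Continuous (F3 B δ N j H) := by
  unfold F3
  apply Continuous.mul
  · apply Continuous.mul
    · rw [continuous_iff_continuousAt]
      intro X
      exact ContinuousAt.comp (g := H) (f := slX B δ) (hH _ (hD _ _ _ (Pos_X hδ0 X)))
        (slX_cont hδ0).continuousAt
    · exact PhY_cont δ
  · have := La_cont j
    fun_prop

lemma F3_integrable {D : Set (ι → ℂ)} (hD : ∀ z0 zi z1, Pos z0 zi z1 → sl B z0 zi z1 ∈ D)
    {H : (ι → ℂ) → ℂ} (hH : ∀ z ∈ D, ContinuousAt H z) {M : ℝ} (hM0 : 0 ≤ M)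
    (hM : ∀ z ∈ D, ‖H z‖ ≤ M) {δ : ℝ} (hδ0 : 0 < δ) (hδ1 : δ ≤ 1 / 4) (N j : ℕ) :
    Integrable (F3 B δ N j H) := by
  apply (mj_integrable.const_mul (M * (2 * 16 ^ 36))).mono'
    (F3_cont hD hH hδ0 N j).aestronglyMeasurable
  filter_upwards with X
  rw [norm_F3]
  calc ‖H (slX B δ X)‖ * ‖PhY δ X‖ ≤ M * (2 * 16 ^ 36 * mj X) := by
        gcongr
        · exact hM _ (hD _ _ _ (Pos_X hδ0 X))
        · exact PhY_bound hδ0.le hδ1 X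
    _ = _ := by ring

theorem Lam_zero {D : Set (ι → ℂ)} (hD : ∀ z0 zi z1, Pos z0 zi z1 → sl B z0 zi z1 ∈ D)
    {H : (ι → ℂ) → ℂ} (hH : ∀ z ∈ D, DifferentiableAt ℂ H z) {M : ℝ} (hM0 : 0 ≤ M)
    (hM : ∀ z ∈ D, ‖H z‖ ≤ M) {δ : ℝ} (hδ0 : 0 < δ) (hδ1 : δ ≤ 1 / 4) (N j : ℕ) :
    ∫ X, F3 B δ N j H X = 0 := by
  have hHc : ∀ z ∈ D, ContinuousAt H z := fun z hz => (hH z hz).continuousAt
  have hcont := F3_cont hD hHc hδ0 N j
  have hint := F3_integrable hD hHc hM0 hM hδ0 hδ1 N j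
  have hmp := shear_mp j
  have h1 : ∫ X, F3 B δ N j H X = ∫ X, F3 B δ N j H (shear j X) := by
    have := integral_map (μ := (volume : Measure (ℝ × ℝ × ℝ))) (φ := shear j)
      hmp.measurable.aemeasurable (f := F3 B δ N j H) hcont.aestronglyMeasurable
    rw [hmp.map_eq] at this
    exact this
  rw [h1]
  have hint2 : Integrable (fun X => F3 B δ N j H (shear j X)) :=
    hmp.integrable_comp_of_integrable hint
  rw [Measure.volume_eq_prod] at hint2 ⊢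
  rw [integral_prod_symm _ hint2]
  have h2 : ∀ Y : ℝ × ℝ, ∫ x : ℝ, F3 B δ N j H (shear j (x, Y)) = 0 := by
    intro Y
    have := dir_zero hD hH hM0 hM hδ0 hδ1 N j Y.1 Y.2
    rw [← this]
    congr 1
    funext t
    rw [F3_G3]
    simp only [shear]
  simp only [h2, integral_zero]

lemma KV_prod (X : ℝ × ℝ × ℝ) :
    KV (-(X.2.1 : ℂ) * I) ^ 12 * KV (-(X.1 : ℂ) * I) ^ 12 * KV (-(X.2.2 : ℂ) * I) ^ 12 =
      exp (((X.2.1 + X.1 + X.2.2 : ℝ) : ℂ) * I) * (kvp 12 X : ℂ) := by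
  rw [KV_kav, KV_kav, KV_kav]
  unfold kvp
  have e : exp (((X.2.1 + X.1 + X.2.2 : ℝ) : ℂ) * I) =
      exp (((X.2.1 / 12 : ℝ) : ℂ) * I) ^ 12 * exp (((X.1 / 12 : ℝ) : ℂ) * I) ^ 12 *
        exp (((X.2.2 / 12 : ℝ) : ℂ) * I) ^ 12 := by
    rw [← exp_nat_mul, ← exp_nat_mul, ← exp_nat_mul, ← exp_add, ← exp_add]
    congr 1
    push_cast
    ring
  rw [e]
  push_cast
  ring

lemma term_val {δ : ℝ} (hδ0 : 0 < δ) (hδ1 : δ ≤ 1 / 4) (ε : ℝ) (N i j : ℕ) (X : ℝ × ℝ × ℝ) :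
    Dz B (slX B δ X) ^ 2 * EE B N i (slX B δ X) * (ww B ε i (slX B δ X) : ℂ) * PhY δ X *
      exp (-((N * La j X : ℝ) : ℂ) * I) =
    (Real.exp (4 * δ - N * (δ * (1 + (i : ℝ) ^ 2))) : ℂ) *
      ((kvp 12 X : ℂ) * exp (((N * (La i X - La j X) : ℝ) : ℂ) * I)) := by
  have hP := Pos_X hδ0 X
  have hs : sz B (slX B δ X) = ((4 * δ : ℝ) : ℂ) - ((X.2.1 + X.1 + X.2.2 : ℝ) : ℂ) * I := by
    unfold slX
    rw [sz_sl hP]
    push_cast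
    ring
  have hsg : sg B (slX B δ X) = 4 * δ := by
    unfold sg
    rw [hs, sub_re, ofReal_re]
    have : (((X.2.1 + X.1 + X.2.2 : ℝ) : ℂ) * I).re = 0 := by simp
    rw [this, sub_zero]
  have hw : ww B ε i (slX B δ X) = 1 := by
    unfold ww
    rw [hsg, Real.smoothTransition.zero_of_nonpos (by linarith)]
    ring
  have hQ : Qz B 1 i (slX B δ X) = ((δ * (1 + (i : ℝ) ^ 2) : ℝ) : ℂ) - (La i X : ℂ) * I := by
    unfold slX
    rw [Qz_sl hP]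
    unfold La
    push_cast
    ring
  have hE : EE B N i (slX B δ X) = (Real.exp (4 * δ - N * (δ * (1 + (i : ℝ) ^ 2))) : ℂ) *
      (exp (((N * La i X : ℝ) : ℂ) * I) * exp (-(((X.2.1 + X.1 + X.2.2 : ℝ) : ℂ) * I))) := by
    unfold EE
    rw [hQ, hs, ofReal_exp, ← exp_add, ← exp_add]
    congr 1
    push_cast
    ring
  have hDz : Dz B (slX B δ X) ^ 2 * (Gam (δ + -(X.2.1 : ℂ) * I) (δ + -(X.1 : ℂ) * I)
      (2 * δ + -(X.2.2 : ℂ) * I) ^ 2 / 16) = 1 := by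
    unfold slX
    rw [Dz_sl hP]
    have := Gam_ne hP
    set G := Gam (δ + -(X.2.1 : ℂ) * I) (δ + -(X.1 : ℂ) * I) (2 * δ + -(X.2.2 : ℂ) * I)
    field_simp
    norm_num
  have hPh : PhY δ X = (Gam (δ + -(X.2.1 : ℂ) * I) (δ + -(X.1 : ℂ) * I)
      (2 * δ + -(X.2.2 : ℂ) * I) ^ 2 / 16) *
        (exp (((X.2.1 + X.1 + X.2.2 : ℝ) : ℂ) * I) * (kvp 12 X : ℂ)) := by
    rw [← KV_prod]
    unfold PhY PhV
    ring
  have hcancel : exp (-(((X.2.1 + X.1 + X.2.2 : ℝ) : ℂ) * I)) *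
      exp (((X.2.1 + X.1 + X.2.2 : ℝ) : ℂ) * I) = 1 := by
    rw [← exp_add, neg_add_cancel, exp_zero]
  have hexp : exp (((N * (La i X - La j X) : ℝ) : ℂ) * I) =
      exp (((N * La i X : ℝ) : ℂ) * I) * exp (-((N * La j X : ℝ) : ℂ) * I) := by
    rw [← exp_add]
    congr 1
    push_cast
    ring
  rw [hw, hE, hPh, hexp, ofReal_one, mul_one]
  set G := Gam (δ + -(X.2.1 : ℂ) * I) (δ + -(X.1 : ℂ) * I) (2 * δ + -(X.2.2 : ℂ) * I) ^ 2 / 16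
  set A := (Real.exp (4 * δ - N * (δ * (1 + (i : ℝ) ^ 2))) : ℂ)
  set E1 := exp (((N * La i X : ℝ) : ℂ) * I)
  set E2 := exp (-((N * La j X : ℝ) : ℂ) * I)
  set c1 := exp (-(((X.2.1 + X.1 + X.2.2 : ℝ) : ℂ) * I))
  set c2 := exp (((X.2.1 + X.1 + X.2.2 : ℝ) : ℂ) * I)
  set K := (kvp 12 X : ℂ)
  calc Dz B (slX B δ X) ^ 2 * (A * (E1 * c1)) * (G * (c2 * K)) * E2 =
      (Dz B (slX B δ X) ^ 2 * G) * (c1 * c2) * (A * (K * (E1 * E2))) := by ring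
    _ = _ := by rw [hDz, hcancel]; ring

lemma kvpexp_integrable (k : ℕ) (hk : 2 ≤ k) (N i j : ℕ) : Integrable
    (fun X : ℝ × ℝ × ℝ => (kvp k X : ℂ) * exp (((N * (La i X - La j X) : ℝ) : ℂ) * I)) := by
  have h := (kvp_integrable k hk).ofReal (𝕜 := ℂ)
  apply h.norm.mono'
  · have h1 := kvp_cont k
    have h2 := La_cont i
    have h3 := La_cont j
    apply Continuous.aestronglyMeasurable
    fun_prop
  · filter_upwards with X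
    rw [norm_mul, norm_exp_ofReal_mul_I, mul_one]
    rfl

lemma uu_val {δ : ℝ} (hδ0 : 0 < δ) (hδ1 : δ ≤ 1 / 4) {J N : ℕ} (hN : 1 ≤ N) {j : ℕ}
    (hj : j ∈ Finset.Icc 1 J) :
    Integrable (F3 B δ N j (uu B J N)) ∧
    ∫ X, F3 B δ N j (uu B J N) X =
      (Real.exp (4 * δ - N * (δ * (1 + (j : ℝ) ^ 2))) * (∫ x, kav x ^ 12) ^ 3 : ℝ) := by
  have e : F3 B δ N j (uu B J N) = fun X => ∑ i ∈ Finset.Icc 1 J,
      (Real.exp (4 * δ - N * (δ * (1 + (i : ℝ) ^ 2))) : ℂ) *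
      ((kvp 12 X : ℂ) * exp (((N * (La i X - La j X) : ℝ) : ℂ) * I)) := by
    funext X
    unfold F3 uu
    rw [Finset.sum_mul, Finset.sum_mul]
    apply Finset.sum_congr rfl
    intro i _
    exact term_val hδ0 hδ1 _ N i j X
  rw [e]
  refine ⟨integrable_finsetSum _ fun i _ => (kvpexp_integrable 12 (by norm_num) N i j).const_mul _, ?_⟩
  rw [integral_finsetSum _ fun i _ => (kvpexp_integrable 12 (by norm_num) N i j).const_mul _]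
  have h1 : ∀ i ∈ Finset.Icc 1 J, ∫ X, (Real.exp (4 * δ - N * (δ * (1 + (i : ℝ) ^ 2))) : ℂ) *
      ((kvp 12 X : ℂ) * exp (((N * (La i X - La j X) : ℝ) : ℂ) * I)) =
      if i = j then ((Real.exp (4 * δ - N * (δ * (1 + (j : ℝ) ^ 2))) *
        (∫ x, kav x ^ 12) ^ 3 : ℝ) : ℂ) else 0 := by
    intro i _
    rw [integral_const_mul, orthV 12 (by norm_num) le_rfl hN]
    split_ifs with h
    · subst h
      push_cast
      ring
    · simp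
  rw [Finset.sum_congr rfl h1, Finset.sum_ite_eq' _ j, if_pos hj]

lemma SS_sq (J N : ℕ) (X : ℝ × ℝ × ℝ) : ((kvp 2 X * ‖SS J N X‖ ^ 2 : ℝ) : ℂ) =
    ∑ i ∈ Finset.Icc 1 J, ∑ j ∈ Finset.Icc 1 J,
      (kvp 2 X : ℂ) * exp (((N * (La i X - La j X) : ℝ) : ℂ) * I) := by
  have h1 : ((‖SS J N X‖ ^ 2 : ℝ) : ℂ) = conj (SS J N X) * SS J N X := by
    rw [mul_comm, mul_conj, normSq_eq_norm_sq]
  rw [ofReal_mul, h1]
  unfold SS
  rw [map_sum, Finset.sum_mul_sum, Finset.mul_sum]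
  apply Finset.sum_congr rfl
  intro i _
  rw [Finset.mul_sum]
  apply Finset.sum_congr rfl
  intro j _
  congr 1
  rw [← exp_conj, ← exp_add]
  congr 1
  rw [map_mul, map_neg, conj_ofReal, conj_I]
  push_cast
  ring

lemma SS_int {J N : ℕ} (hN : 1 ≤ N) :
    Integrable (fun X => kvp 2 X * ‖SS J N X‖ ^ 2) ∧
    ∫ X, kvp 2 X * ‖SS J N X‖ ^ 2 = J * (∫ x, kav x ^ 2) ^ 3 := by
  have hint : Integrable (fun X => ((kvp 2 X * ‖SS J N X‖ ^ 2 : ℝ) : ℂ)) := by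
    have e : (fun X => ((kvp 2 X * ‖SS J N X‖ ^ 2 : ℝ) : ℂ)) = fun X =>
      ∑ i ∈ Finset.Icc 1 J, ∑ j ∈ Finset.Icc 1 J,
      (kvp 2 X : ℂ) * exp (((N * (La i X - La j X) : ℝ) : ℂ) * I) := by
      funext X
      exact SS_sq J N X
    rw [e]
    exact integrable_finsetSum _ fun i _ => integrable_finsetSum _ fun j _ =>
      kvpexp_integrable 2 le_rfl N i j
  have hint' : Integrable (fun X => kvp 2 X * ‖SS J N X‖ ^ 2) := by
    have := hint.re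
    refine this.congr (Filter.Eventually.of_forall fun X => ?_)
    exact ofReal_re _
  refine ⟨hint', ?_⟩
  have h1 : ((∫ X, kvp 2 X * ‖SS J N X‖ ^ 2 : ℝ) : ℂ) = ((J * (∫ x, kav x ^ 2) ^ 3 : ℝ) : ℂ) := by
    refine (integral_ofReal (𝕜 := ℂ) (f := fun X => kvp 2 X * ‖SS J N X‖ ^ 2)).symm.trans ?_
    have e : ∀ X, ((kvp 2 X * ‖SS J N X‖ ^ 2 : ℝ) : ℂ) = ∑ i ∈ Finset.Icc 1 J, ∑ j ∈ Finset.Icc 1 J,
      (kvp 2 X : ℂ) * exp (((N * (La i X - La j X) : ℝ) : ℂ) * I) := SS_sq J N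
    refine (integral_congr_ae (Filter.Eventually.of_forall e)).trans ?_
    rw [integral_finsetSum _ fun i _ => integrable_finsetSum _ fun j _ =>
      kvpexp_integrable 2 le_rfl N i j]
    have h2 : ∀ i ∈ Finset.Icc 1 J, ∫ X, ∑ j ∈ Finset.Icc 1 J,
      (kvp 2 X : ℂ) * exp (((N * (La i X - La j X) : ℝ) : ℂ) * I) =
        (((∫ x, kav x ^ 2) ^ 3 : ℝ) : ℂ) := by
      intro i hi
      rw [integral_finsetSum _ fun j _ => kvpexp_integrable 2 le_rfl N i j]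
      simp only [orthV 2 le_rfl (by norm_num) hN]
      rw [Finset.sum_ite_eq, if_pos hi]
    rw [Finset.sum_congr rfl h2, Finset.sum_const, Nat.card_Icc]
    simp
  exact_mod_cast h1

/-- `PP` at the point `X` -/
noncomputable def PX (X : ℝ × ℝ × ℝ) : ℝ := PP (-(X.2.1 : ℂ) * I) (-(X.1 : ℂ) * I) (-(X.2.2 : ℂ) * I)

lemma PX_ge (X : ℝ × ℝ × ℝ) : 1 ≤ PX X := (PP_ge _ _ _).1

lemma PX_cont : Continuous PX := by
  unfold PX PP
  fun_prop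

lemma PhY_bound' {δ : ℝ} (hδ0 : 0 ≤ δ) (hδ1 : δ ≤ 1 / 4) (X : ℝ × ℝ × ℝ) :
    PX X * ‖PhY δ X‖ ≤ 2 * 16 ^ 33 * (1 / PX X) * |kav X.1 * (kav X.2.1 * kav X.2.2)| := by
  have hG := Gam_bound hδ0 hδ1 (-(X.2.1 : ℂ) * I) (-(X.1 : ℂ) * I) (-(X.2.2 : ℂ) * I)
  have hK := KV_prod_bound (η0 := -(X.2.1 : ℂ) * I) (ηi := -(X.1 : ℂ) * I)
    (η1 := -(X.2.2 : ℂ) * I) (by simp) (by simp) (by simp) 11
  have hP := (PP_ge (-(X.2.1 : ℂ) * I) (-(X.1 : ℂ) * I) (-(X.2.2 : ℂ) * I)).1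
  have hk : ∀ x : ℝ, ‖KV (-(x : ℂ) * I)‖ = |kav x| := by
    intro x
    rw [KV_kav, norm_mul, norm_exp_ofReal_mul_I, one_mul, norm_real, Real.norm_eq_abs]
  unfold PX PhY PhV
  set P := PP (-(X.2.1 : ℂ) * I) (-(X.1 : ℂ) * I) (-(X.2.2 : ℂ) * I)
  rw [norm_mul, norm_mul, norm_mul, norm_div, norm_pow, norm_pow, norm_pow, norm_pow]
  have h16 : ‖(16 : ℂ)‖ = 16 := by simp
  rw [h16]
  set G := ‖Gam (δ + -(X.2.1 : ℂ) * I) (δ + -(X.1 : ℂ) * I) (2 * δ + -(X.2.2 : ℂ) * I)‖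
  set a := ‖KV (-(X.2.1 : ℂ) * I)‖ with ha
  set b := ‖KV (-(X.1 : ℂ) * I)‖ with hb
  set c := ‖KV (-(X.2.2 : ℂ) * I)‖ with hc
  have e1 : |kav X.1 * (kav X.2.1 * kav X.2.2)| = b * (a * c) := by
    rw [abs_mul, abs_mul, ha, hb, hc, hk, hk, hk]
  rw [e1]
  have ha0 : 0 ≤ a := norm_nonneg _
  have hb0 : 0 ≤ b := norm_nonneg _
  have hc0 : 0 ≤ c := norm_nonneg _
  have hG0 : 0 ≤ G := norm_nonneg _
  have hP6 : (1 : ℝ) / P ^ 6 ≤ 1 / P := by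
    apply one_div_le_one_div_of_le (by positivity)
    calc P = P ^ 1 := (pow_one P).symm
      _ ≤ P ^ 6 := pow_le_pow_right₀ hP (by norm_num)
  calc P * (G ^ 2 / 16 * a ^ 12 * b ^ 12 * c ^ 12) =
      P * (G ^ 2 / 16 * (a ^ 11 * b ^ 11 * c ^ 11)) * (b * (a * c)) := by
        ring
    _ ≤ P * ((5 * P ^ 2) ^ 2 / 16 * (16 ^ (3 * 11) / P ^ 11)) * (b * (a * c)) := by
        gcongr
    _ = (25 / 16) * 16 ^ 33 * (1 / P ^ 6) * (b * (a * c)) := by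
        field_simp
        ring
    _ ≤ 2 * 16 ^ 33 * (1 / P) * (b * (a * c)) := by
        have : (25 / 16 : ℝ) * 16 ^ 33 ≤ 2 * 16 ^ 33 := by norm_num
        gcongr

/-- the constant -/
noncomputable def Kd : ℝ := (4 * 16 ^ 66 * (∫ X, mj X) + (∫ x, kav x ^ 2) ^ 3) / 2

/-- the majorant -/
noncomputable def Mj (J N : ℕ) (X : ℝ × ℝ × ℝ) : ℝ :=
  (Real.sqrt J * (4 * 16 ^ 66 * mj X) + (kvp 2 X * ‖SS J N X‖ ^ 2) / Real.sqrt J) / 2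

lemma pt_bound {δ : ℝ} (hδ0 : 0 ≤ δ) (hδ1 : δ ≤ 1 / 4) {J N : ℕ} (hJ : 1 ≤ J) (X : ℝ × ℝ × ℝ) :
    PX X * (‖PhY δ X‖ * ‖SS J N X‖) ≤ Mj J N X := by
  have h1 := PhY_bound' hδ0 hδ1 X
  have h2 : (1 : ℝ) / PX X ^ 2 ≤ mj X := PP_mj X
  have hP : 1 ≤ PX X := PX_ge X
  set P := PX X
  set κ := |kav X.1 * (kav X.2.1 * kav X.2.2)| with hκ
  have hκ2 : κ ^ 2 = kvp 2 X := by
    rw [hκ, sq_abs]
    unfold kvp
    ring
  have hκ0 : 0 ≤ κ := abs_nonneg _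
  unfold Mj
  set r := Real.sqrt J with hr
  have hr1 : 0 < r := by
    rw [hr]
    apply Real.sqrt_pos.2
    exact_mod_cast hJ
  set S := ‖SS J N X‖
  have hS : 0 ≤ S := norm_nonneg _
  set p := 1 / P with hp
  have hp0 : 0 ≤ p := by positivity
  have hp2 : p ^ 2 ≤ mj X := by
    rw [hp, div_pow, one_pow]
    exact h2
  rw [← hκ2]
  calc P * (‖PhY δ X‖ * S) = (P * ‖PhY δ X‖) * S := by ring
    _ ≤ (2 * 16 ^ 33 * p * κ) * S := by gcongr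
    _ ≤ (r * (4 * 16 ^ 66 * p ^ 2) + (κ ^ 2 * S ^ 2) / r) / 2 := by
        rw [le_div_iff₀ (by norm_num : (0 : ℝ) < 2)]
        have e : (r * (4 * 16 ^ 66 * p ^ 2) + (κ ^ 2 * S ^ 2) / r) - (2 * 16 ^ 33 * p * κ) * S * 2 =
            (r * (2 * 16 ^ 33 * p) - κ * S) ^ 2 / r := by
          field_simp
          ring
        have : 0 ≤ (r * (2 * 16 ^ 33 * p) - κ * S) ^ 2 / r := by positivity
        linarith
    _ ≤ _ := by gcongr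

lemma Mj_int {J N : ℕ} (hJ : 1 ≤ J) (hN : 1 ≤ N) :
    Integrable (Mj J N) ∧ ∫ X, Mj J N X = Real.sqrt J * Kd := by
  have hi : Integrable (Mj J N) := (((mj_integrable.const_mul _).const_mul _).add
    ((SS_int hN).1.div_const _)).div_const 2
  refine ⟨hi, ?_⟩
  unfold Mj
  rw [integral_div, integral_add ((mj_integrable.const_mul _).const_mul _)
    ((SS_int hN).1.div_const _), integral_const_mul, integral_const_mul, integral_div, (SS_int hN).2]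
  unfold Kd
  have hJ0 : (1 : ℝ) ≤ J := by exact_mod_cast hJ
  have hr : Real.sqrt J * Real.sqrt J = J := Real.mul_self_sqrt (by positivity)
  have hr0 : 0 < Real.sqrt J := Real.sqrt_pos.2 (by positivity)
  have e2 : (J : ℝ) * (∫ x, kav x ^ 2) ^ 3 / Real.sqrt J = Real.sqrt J * (∫ x, kav x ^ 2) ^ 3 := by
    rw [div_eq_iff hr0.ne']
    calc (J : ℝ) * (∫ x, kav x ^ 2) ^ 3 = (Real.sqrt J * Real.sqrt J) * (∫ x, kav x ^ 2) ^ 3 := by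
          rw [hr]
      _ = _ := by ring
  rw [e2]
  ring

/-- the functional -/
noncomputable def Lam (B : Blk ι) (δ : ℝ) (J N : ℕ) (U : (ι → ℂ) → ℂ) : ℂ :=
  ∫ X, U (slX B δ X) * (PhY δ X * SS J N X)

lemma Lam_sum {D : Set (ι → ℂ)} (hD : ∀ z0 zi z1, Pos z0 zi z1 → sl B z0 zi z1 ∈ D)
    {H : (ι → ℂ) → ℂ} (hH : ∀ z ∈ D, ContinuousAt H z) {M : ℝ} (hM0 : 0 ≤ M)
    (hM : ∀ z ∈ D, ‖H z‖ ≤ M) {δ : ℝ} (hδ0 : 0 < δ) (hδ1 : δ ≤ 1 / 4) (J N : ℕ) :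
    Lam B δ J N H = ∑ j ∈ Finset.Icc 1 J, ∫ X, F3 B δ N j H X := by
  unfold Lam
  rw [← integral_finsetSum _ fun j _ => F3_integrable hD hH hM0 hM hδ0 hδ1 N j]
  congr 1
  funext X
  unfold F3 SS
  rw [Finset.mul_sum, Finset.mul_sum]
  apply Finset.sum_congr rfl
  intro j _
  ring

/-- the functional kills bounded holomorphic functions -/
theorem Lam_hol {D : Set (ι → ℂ)} (hD : ∀ z0 zi z1, Pos z0 zi z1 → sl B z0 zi z1 ∈ D)
    {H : (ι → ℂ) → ℂ} (hH : ∀ z ∈ D, DifferentiableAt ℂ H z) {M : ℝ} (hM0 : 0 ≤ M)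
    (hM : ∀ z ∈ D, ‖H z‖ ≤ M) {δ : ℝ} (hδ0 : 0 < δ) (hδ1 : δ ≤ 1 / 4) (J N : ℕ) :
    Lam B δ J N H = 0 := by
  rw [Lam_sum hD (fun z hz => (hH z hz).continuousAt) hM0 hM hδ0 hδ1]
  apply Finset.sum_eq_zero
  intro j _
  exact Lam_zero hD hH hM0 hM hδ0 hδ1 N j

/-- integrability of the integrand of the functional -/
lemma Lam_integrable {D : Set (ι → ℂ)} (hD : ∀ z0 zi z1, Pos z0 zi z1 → sl B z0 zi z1 ∈ D)
    {H : (ι → ℂ) → ℂ} (hH : ∀ z ∈ D, ContinuousAt H z) {M : ℝ} (hM0 : 0 ≤ M)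
    (hM : ∀ z ∈ D, ‖H z‖ ≤ M) {δ : ℝ} (hδ0 : 0 < δ) (hδ1 : δ ≤ 1 / 4) (J N : ℕ) :
    Integrable (fun X => H (slX B δ X) * (PhY δ X * SS J N X)) := by
  have e : (fun X => H (slX B δ X) * (PhY δ X * SS J N X)) = fun X =>
      ∑ j ∈ Finset.Icc 1 J, F3 B δ N j H X := by
    funext X
    unfold F3 SS
    rw [Finset.mul_sum, Finset.mul_sum]
    apply Finset.sum_congr rfl
    intro j _
    ring
  rw [e]
  exact integrable_finsetSum _ fun j _ => F3_integrable hD hH hM0 hM hδ0 hδ1 N j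

/-- value on the model function -/
theorem Lam_uu {D : Set (ι → ℂ)} (hD : ∀ z0 zi z1, Pos z0 zi z1 → sl B z0 zi z1 ∈ D)
    {δ : ℝ} (hδ0 : 0 < δ) (hδ1 : δ ≤ 1 / 4) {J N : ℕ} (hN : 1 ≤ N)
    (hδN : N * (δ * (1 + (J : ℝ) ^ 2)) ≤ 1) (hJ : 1 ≤ J) (hDC : D ⊆ CB B)
    (hNε : 1 ≤ N * (1 / (48 * (J : ℝ) ^ 2)) / 2) :
    J * (Real.exp (-1) * (∫ x, kav x ^ 12) ^ 3) ≤ ‖Lam B δ J N (uu B J N)‖ := by
  set κ3 := (∫ x, kav x ^ 12) ^ 3 with hκ3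
  have hκ0 : 0 < κ3 := pow_pos kav_pos 3
  have hUc : ∀ z ∈ D, ContinuousAt (uu B J N) z := fun z hz => (smooth_uu hJ (hDC hz)).continuousAt
  rw [Lam_sum (M := J * (25 * Real.exp 2)) hD hUc (by positivity)
    (fun z hz => uu_bound hJ hNε (hDC hz)) hδ0 hδ1]
  have hge : (J : ℝ) * (Real.exp (-1) * κ3) ≤
      ∑ j ∈ Finset.Icc 1 J, Real.exp (4 * δ - N * (δ * (1 + (j : ℝ) ^ 2))) * κ3 := by
    have h1 : ∀ j ∈ Finset.Icc 1 J, Real.exp (-1) * κ3 ≤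
        Real.exp (4 * δ - N * (δ * (1 + (j : ℝ) ^ 2))) * κ3 := by
      intro j hj
      have hjJ : (j : ℝ) ≤ J := by exact_mod_cast (Finset.mem_Icc.1 hj).2
      have hj0 : (0 : ℝ) ≤ j := Nat.cast_nonneg j
      gcongr
      have h2 : (N : ℝ) * (δ * (1 + (j : ℝ) ^ 2)) ≤ N * (δ * (1 + (J : ℝ) ^ 2)) := by gcongr
      linarith
    have h2 := Finset.sum_le_sum h1
    rw [Finset.sum_const, Nat.card_Icc, nsmul_eq_mul] at h2
    simpa using h2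
  have hsum : ∑ j ∈ Finset.Icc 1 J, ∫ X, F3 B δ N j (uu B J N) X =
      ((∑ j ∈ Finset.Icc 1 J, Real.exp (4 * δ - N * (δ * (1 + (j : ℝ) ^ 2))) * κ3 : ℝ) : ℂ) := by
    rw [Finset.sum_congr rfl fun j hj => (uu_val hδ0 hδ1 hN hj).2, hκ3]
    push_cast
    rfl
  rw [hsum, norm_real, Real.norm_eq_abs, abs_of_nonneg (by positivity)]
  exact hge

end Pool.Agent.Helper303.Lp
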