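import Pool.Agent.Helper303.LpFunc

open MeasureTheory Set Complex
open scoped Real Topology ComplexConjugate ContDiff

set_option linter.unusedSectionVars false

namespace Pool.Agent.Helper303.Lp

open Pool.Agent.Helper303.Mb

lemma Z_quant {z0 zi z1 : ℂ} (h : Pos z0 zi z1) {δ A : ℝ} (h0 : z0.re = δ) (hi : zi.re = δ)
    (h1 : z1.re = 2 * δ) (hA : 0 < A) (a0 : ‖1 + z0‖ ≤ A) (ai : ‖1 + zi‖ ≤ A)
    (ap : ‖(z1 - z0 - zi) / 2‖ ≤ A) (hδ : 0 < δ) (y1 y2 : ℂ) :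
    ‖Za z0 zi z1 * y1 + Zb z0 zi z1 * y2‖ ^ 2 + ‖Zb z0 zi z1 * y1 + Zd z0 zi z1 * y2‖ ^ 2 ≤
      (1 - δ / A ^ 2) * (‖y1‖ ^ 2 + ‖y2‖ ^ 2) := by
  have hG := Gam_ne h
  set p := (z1 - z0 - zi) / 2 with hp
  set G := Gam z0 zi z1 with hGd
  have hGe : G = (1 + z0) * (1 + zi) - p ^ 2 := rfl
  set u := ((1 + zi) * y1 - p * y2) / G with hu
  set v := (-p * y1 + (1 + z0) * y2) / G with hv
  have e1 : y1 = (1 + z0) * u + p * v := by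
    rw [hu, hv]
    field_simp
    rw [hGe]
    ring
  have e2 : y2 = p * u + (1 + zi) * v := by
    rw [hu, hv]
    field_simp
    rw [hGe]
    ring
  have e3 : Za z0 zi z1 * y1 + Zb z0 zi z1 * y2 = u - (z0 * u + p * v) := by
    have : Za z0 zi z1 * y1 + Zb z0 zi z1 * y2 = 2 * u - y1 := by
      unfold Za Zb
      rw [← hGd, hu]
      field_simp
      rw [hp]
      ring
    rw [this]
    conv_lhs => rw [e1]
    ring
  have e4 : Zb z0 zi z1 * y1 + Zd z0 zi z1 * y2 = v - (p * u + zi * v) := by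
    have : Zb z0 zi z1 * y1 + Zd z0 zi z1 * y2 = 2 * v - y2 := by
      unfold Zd Zb
      rw [← hGd, hv]
      field_simp
      rw [hp]
      ring
    rw [this]
    conv_lhs => rw [e2]
    ring
  have hpre : p.re = 0 := by
    have : p.re = (z1.re - z0.re - zi.re) / 2 := by
      rw [hp]
      have e2 : (z1 - z0 - zi) / 2 = ((1 / 2 : ℝ) : ℂ) * (z1 - z0 - zi) := by push_cast; ring
      rw [e2, re_ofReal_mul, sub_re, sub_re]
      ring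
    rw [this, h0, hi, h1]
    ring
  have key : ‖y1‖ ^ 2 + ‖y2‖ ^ 2 - (‖Za z0 zi z1 * y1 + Zb z0 zi z1 * y2‖ ^ 2 +
      ‖Zb z0 zi z1 * y1 + Zd z0 zi z1 * y2‖ ^ 2) = 4 * δ * (‖u‖ ^ 2 + ‖v‖ ^ 2) := by
    rw [e3, e4]
    have e5 : ‖y1‖ ^ 2 = ‖u + (z0 * u + p * v)‖ ^ 2 := by
      conv_lhs => rw [e1]
      congr 2
      ring
    have e6 : ‖y2‖ ^ 2 = ‖v + (p * u + zi * v)‖ ^ 2 := by
      conv_lhs => rw [e2]
      congr 2
      ring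
    rw [e5, e6]
    simp only [← normSq_eq_norm_sq, normSq_apply, add_re, add_im, sub_re, sub_im, mul_re, mul_im,
      hpre, h0, hi]
    ring
  have hy : ‖y1‖ ^ 2 + ‖y2‖ ^ 2 ≤ 4 * A ^ 2 * (‖u‖ ^ 2 + ‖v‖ ^ 2) := by
    have n1 : ‖y1‖ ≤ A * ‖u‖ + A * ‖v‖ := by
      rw [e1]
      refine (norm_add_le _ _).trans ?_
      rw [norm_mul, norm_mul]
      gcongr
    have n2 : ‖y2‖ ≤ A * ‖u‖ + A * ‖v‖ := by
      rw [e2]
      refine (norm_add_le _ _).trans ?_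
      rw [norm_mul, norm_mul]
      gcongr
    have n3 : ‖y1‖ ^ 2 ≤ (A * ‖u‖ + A * ‖v‖) ^ 2 := by gcongr
    have n4 : ‖y2‖ ^ 2 ≤ (A * ‖u‖ + A * ‖v‖) ^ 2 := by gcongr
    nlinarith [sq_nonneg (A * ‖u‖ - A * ‖v‖)]
  have hfin : δ / A ^ 2 * (‖y1‖ ^ 2 + ‖y2‖ ^ 2) ≤ 4 * δ * (‖u‖ ^ 2 + ‖v‖ ^ 2) := by
    rw [div_mul_eq_mul_div, div_le_iff₀ (by positivity)]
    calc δ * (‖y1‖ ^ 2 + ‖y2‖ ^ 2) ≤ δ * (4 * A ^ 2 * (‖u‖ ^ 2 + ‖v‖ ^ 2)) := by gcongr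
      _ = _ := by ring
  linarith

variable {ι : Type} [Fintype ι] [DecidableEq ι] {B : Blk ι}

/-- polydiscs around the points of the slices -/
lemma ball_sub {δ : ℝ} (hδ0 : 0 < δ) (hδ1 : δ ≤ 1 / 4) (X : ℝ × ℝ × ℝ) {t : ℝ} (ht0 : 0 ≤ t)
    (ht1 : t ≤ 1) :
    Metric.ball (t • slX B δ X) (δ / (20 * PX X ^ 2)) ⊆ CB B := by
  intro w hw
  have hP := Pos_X hδ0 X
  have hPX : 1 ≤ PX X := PX_ge X
  set P := PX X with hPd
  obtain ⟨p1, p2, p3, p4⟩ := PP_ge (-(X.2.1 : ℂ) * I) (-(X.1 : ℂ) * I) (-(X.2.2 : ℂ) * I)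
  have hPe : PP (-(X.2.1 : ℂ) * I) (-(X.1 : ℂ) * I) (-(X.2.2 : ℂ) * I) = P := rfl
  rw [hPe] at p1 p2 p3 p4
  set η0 : ℂ := -(X.2.1 : ℂ) * I with hη0
  set ηi : ℂ := -(X.1 : ℂ) * I with hηi
  set η1 : ℂ := -(X.2.2 : ℂ) * I with hη1
  have hd : ‖(δ : ℂ)‖ = δ := by rw [norm_real, Real.norm_eq_abs, abs_of_nonneg hδ0.le]
  have n0 := norm_nonneg η0
  have ni := norm_nonneg ηi
  have n1 := norm_nonneg η1
  have q0 : 1 + ‖η0‖ ≤ P := by nlinarith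
  have qi : 1 + ‖ηi‖ ≤ P := p4
  have a0 : ‖1 + ((δ : ℂ) + η0)‖ ≤ 2 * P := by
    refine (norm_add_le _ _).trans ?_
    have := norm_add_le (δ : ℂ) η0
    rw [hd] at this
    rw [norm_one]
    linarith
  have ai : ‖1 + ((δ : ℂ) + ηi)‖ ≤ 2 * P := by
    refine (norm_add_le _ _).trans ?_
    have := norm_add_le (δ : ℂ) ηi
    rw [hd] at this
    rw [norm_one]
    linarith
  have ap : ‖((2 * δ + η1) - (δ + η0) - (δ + ηi)) / 2‖ ≤ 2 * P := by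
    have e1 : (((2 * δ + η1) - (δ + η0) - (δ + ηi)) / 2 : ℂ) = (η1 - η0 - ηi) / 2 := by ring
    rw [e1, norm_div]
    have h2 : ‖(2 : ℂ)‖ = 2 := by simp
    rw [h2]
    have t1 := norm_sub_le (η1 - η0) ηi
    have t2 := norm_sub_le η1 η0
    linarith
  have r0 : ((δ : ℂ) + η0).re = δ := by simp [hη0]
  have ri : ((δ : ℂ) + ηi).re = δ := by simp [hηi]
  have r1 : ((2 : ℂ) * δ + η1).re = 2 * δ := by
    have : (2 : ℂ) * δ = ((2 * δ : ℝ) : ℂ) := by push_cast; ring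
    rw [this, add_re, ofReal_re]
    simp [hη1]
  have hq := Z_quant hP r0 ri r1 (A := 2 * P) (by positivity) a0 ai ap hδ0
  set θ := δ / (2 * P) ^ 2 with hθ
  have hθ0 : 0 < θ := by positivity
  have hθ1 : θ ≤ 1 := by
    rw [hθ, div_le_one (by positivity)]
    nlinarith
  set ρ := δ / (20 * P ^ 2) with hρ
  have hρ0 : 0 < ρ := by positivity
  have hρθ : ρ = θ / 5 := by
    rw [hρ, hθ]
    field_simp
    ring
  rw [mem_ball_iff_norm] at hw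
  have hE : ∀ k, ‖w k - t • slX B δ X k‖ ≤ ρ := fun k =>
    (norm_le_pi_norm (w - t • slX B δ X) k).trans hw.le
  have e11 := hE B.k11
  have e12 := hE B.k12
  have e21 := hE B.k21
  have e22 := hE B.k22
  have s11 : slX B δ X B.k11 = Za (δ + η0) (δ + ηi) (2 * δ + η1) := sl_11 _ _ _
  have s12 : slX B δ X B.k12 = Zb (δ + η0) (δ + ηi) (2 * δ + η1) := sl_12 _ _ _
  have s21 : slX B δ X B.k21 = Zb (δ + η0) (δ + ηi) (2 * δ + η1) := sl_21 _ _ _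
  have s22 : slX B δ X B.k22 = Zd (δ + η0) (δ + ηi) (2 * δ + η1) := sl_22 _ _ _
  rw [s11] at e11
  rw [s12] at e12
  rw [s21] at e21
  rw [s22] at e22
  set a := Za (δ + η0) (δ + ηi) (2 * δ + η1)
  set b := Zb (δ + η0) (δ + ηi) (2 * δ + η1)
  set d := Zd (δ + η0) (δ + ηi) (2 * δ + η1)
  rw [mem_CB]
  intro y1 y2 hy
  have hY : 0 < ‖y1‖ ^ 2 + ‖y2‖ ^ 2 := by
    rcases hy with h | h
    · have : 0 < ‖y1‖ := norm_pos_iff.2 h
      positivity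
    · have : 0 < ‖y2‖ := norm_pos_iff.2 h
      positivity
  have hZ := hq y1 y2
  have gen : ∀ (A E : ℂ), ‖A + E‖ ^ 2 ≤ (1 + θ / 2) * ‖A‖ ^ 2 + (1 + 2 / θ) * ‖E‖ ^ 2 := by
    intro A E
    have h1 : ‖A + E‖ ^ 2 ≤ (‖A‖ + ‖E‖) ^ 2 := by
      gcongr
      exact norm_add_le A E
    have h2 : 2 * ‖A‖ * ‖E‖ ≤ θ / 2 * ‖A‖ ^ 2 + 2 / θ * ‖E‖ ^ 2 := by
      have : 0 ≤ (θ / 2 * ‖A‖ - ‖E‖) ^ 2 * (2 / θ) := by positivity
      have e : (θ / 2 * ‖A‖ - ‖E‖) ^ 2 * (2 / θ) =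
          θ / 2 * ‖A‖ ^ 2 + 2 / θ * ‖E‖ ^ 2 - 2 * ‖A‖ * ‖E‖ := by
        field_simp
        ring
      linarith
    nlinarith
  have gE : ∀ (e f : ℂ), ‖e‖ ≤ ρ → ‖f‖ ≤ ρ → ‖e * y1 + f * y2‖ ^ 2 ≤
      2 * ρ ^ 2 * (‖y1‖ ^ 2 + ‖y2‖ ^ 2) := by
    intro e f he hf
    have h1 : ‖e * y1 + f * y2‖ ≤ ρ * ‖y1‖ + ρ * ‖y2‖ := by
      refine (norm_add_le _ _).trans ?_
      rw [norm_mul, norm_mul]
      gcongr
    have h2 : ‖e * y1 + f * y2‖ ^ 2 ≤ (ρ * ‖y1‖ + ρ * ‖y2‖) ^ 2 := by gcongr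
    nlinarith [sq_nonneg (ρ * ‖y1‖ - ρ * ‖y2‖)]
  have d1 : w B.k11 * y1 + w B.k12 * y2 = t • (a * y1 + b * y2) +
      ((w B.k11 - t • a) * y1 + (w B.k12 - t • b) * y2) := by
    simp only [real_smul]
    ring
  have d2 : w B.k21 * y1 + w B.k22 * y2 = t • (b * y1 + d * y2) +
      ((w B.k21 - t • b) * y1 + (w B.k22 - t • d) * y2) := by
    simp only [real_smul]
    ring
  rw [d1, d2]
  have g1 := gen (t • (a * y1 + b * y2)) ((w B.k11 - t • a) * y1 + (w B.k12 - t • b) * y2)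
  have g2 := gen (t • (b * y1 + d * y2)) ((w B.k21 - t • b) * y1 + (w B.k22 - t • d) * y2)
  have g3 := gE _ _ e11 e12
  have g4 := gE _ _ e21 e22
  have g5 : ‖t • (a * y1 + b * y2)‖ ^ 2 ≤ ‖a * y1 + b * y2‖ ^ 2 := by
    rw [norm_smul, Real.norm_eq_abs, abs_of_nonneg ht0, mul_pow]
    have : t ^ 2 ≤ 1 := by nlinarith
    nlinarith [sq_nonneg ‖a * y1 + b * y2‖]
  have g6 : ‖t • (b * y1 + d * y2)‖ ^ 2 ≤ ‖b * y1 + d * y2‖ ^ 2 := by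
    rw [norm_smul, Real.norm_eq_abs, abs_of_nonneg ht0, mul_pow]
    have : t ^ 2 ≤ 1 := by nlinarith
    nlinarith [sq_nonneg ‖b * y1 + d * y2‖]
  set Y := ‖y1‖ ^ 2 + ‖y2‖ ^ 2
  set A1 := ‖a * y1 + b * y2‖ ^ 2
  set A2 := ‖b * y1 + d * y2‖ ^ 2
  set E1 := ‖(w B.k11 - t • a) * y1 + (w B.k12 - t • b) * y2‖ ^ 2
  set E2 := ‖(w B.k21 - t • b) * y1 + (w B.k22 - t • d) * y2‖ ^ 2
  have c1 : (1 + θ / 2) * ‖t • (a * y1 + b * y2)‖ ^ 2 + (1 + θ / 2) * ‖t • (b * y1 + d * y2)‖ ^ 2 ≤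
      (1 + θ / 2) * ((1 - θ) * Y) := by
    have : ‖t • (a * y1 + b * y2)‖ ^ 2 + ‖t • (b * y1 + d * y2)‖ ^ 2 ≤ (1 - θ) * Y := by linarith
    nlinarith
  have c2 : (1 + 2 / θ) * E1 + (1 + 2 / θ) * E2 ≤ (1 + 2 / θ) * (4 * ρ ^ 2 * Y) := by
    have : E1 + E2 ≤ 4 * ρ ^ 2 * Y := by linarith
    have h0 : 0 ≤ 1 + 2 / θ := by positivity
    nlinarith
  have c3 : (1 + 2 / θ) * (4 * ρ ^ 2 * Y) ≤ 12 / 25 * θ * Y := by
    rw [hρθ]
    have e : (1 + 2 / θ) * (4 * (θ / 5) ^ 2 * Y) = (4 / 25 * θ ^ 2 + 8 / 25 * θ) * Y := by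
      field_simp
      ring
    rw [e]
    have : 4 / 25 * θ ^ 2 + 8 / 25 * θ ≤ 12 / 25 * θ := by nlinarith
    gcongr
  have c4 : (1 + θ / 2) * ((1 - θ) * Y) ≤ (1 - θ / 2) * Y := by
    have : (1 + θ / 2) * (1 - θ) ≤ 1 - θ / 2 := by nlinarith
    nlinarith
  have c5 : 0 < θ * Y := by positivity
  nlinarith

lemma isOpen_CB : IsOpen (CB B) := by
  set S : Set (ℂ × ℂ) := {x | ‖x.1‖ ^ 2 + ‖x.2‖ ^ 2 = 1} with hS
  have hScl : IsClosed S := isClosed_eq (by fun_prop) continuous_const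
  have hSb : S ⊆ Metric.closedBall 0 1 := by
    rintro ⟨v, w⟩ hx
    have hx' : ‖v‖ ^ 2 + ‖w‖ ^ 2 = 1 := hx
    rw [mem_closedBall_zero_iff, Prod.norm_def]
    apply max_le
    · show ‖v‖ ≤ 1
      nlinarith [norm_nonneg v, sq_nonneg ‖w‖]
    · show ‖w‖ ≤ 1
      nlinarith [norm_nonneg w, sq_nonneg ‖v‖]
  have hSc : IsCompact S := (isCompact_closedBall 0 1).of_isClosed_subset hScl hSb
  have hiff : ∀ z : ι → ℂ, z ∈ CB B ↔
      ∀ x ∈ S, ‖z B.k11 * x.1 + z B.k12 * x.2‖ ^ 2 + ‖z B.k21 * x.1 + z B.k22 * x.2‖ ^ 2 < 1 := by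
    intro z
    rw [mem_CB]
    constructor
    · rintro h ⟨v, w⟩ hx
      have hx' : ‖v‖ ^ 2 + ‖w‖ ^ 2 = 1 := hx
      have hx0 : v ≠ 0 ∨ w ≠ 0 := by
        by_contra hcon
        push Not at hcon
        rw [hcon.1, hcon.2] at hx'
        simp at hx'
      have := h v w hx0
      rwa [hx'] at this
    · intro h v w hvw
      have hpos : 0 < ‖v‖ ^ 2 + ‖w‖ ^ 2 := by
        rcases hvw with h | h
        · have : 0 < ‖v‖ := norm_pos_iff.2 h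
          positivity
        · have : 0 < ‖w‖ := norm_pos_iff.2 h
          positivity
      set r := Real.sqrt (‖v‖ ^ 2 + ‖w‖ ^ 2) with hr
      have hr0 : 0 < r := Real.sqrt_pos.2 hpos
      have hr2 : r ^ 2 = ‖v‖ ^ 2 + ‖w‖ ^ 2 := Real.sq_sqrt hpos.le
      have hrc : (r : ℂ) ≠ 0 := by exact_mod_cast hr0.ne'
      have hn : ∀ x : ℂ, ‖x / (r : ℂ)‖ ^ 2 = ‖x‖ ^ 2 / r ^ 2 := by
        intro x
        rw [norm_div, norm_real, Real.norm_eq_abs, abs_of_pos hr0, div_pow]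
      have hy : (v / (r : ℂ), w / (r : ℂ)) ∈ S := by
        show ‖v / (r : ℂ)‖ ^ 2 + ‖w / (r : ℂ)‖ ^ 2 = 1
        rw [hn, hn, ← add_div, hr2, div_self hpos.ne']
      have h1 := h _ hy
      have e1 : z B.k11 * (v / (r : ℂ)) + z B.k12 * (w / (r : ℂ)) =
          (z B.k11 * v + z B.k12 * w) / (r : ℂ) := by
        field_simp
      have e2 : z B.k21 * (v / (r : ℂ)) + z B.k22 * (w / (r : ℂ)) =
          (z B.k21 * v + z B.k22 * w) / (r : ℂ) := by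
        field_simp
      simp only at h1
      rw [e1, e2, hn, hn, ← add_div, hr2, div_lt_one hpos] at h1
      exact h1
  rw [isOpen_iff_mem_nhds]
  intro z hz
  rw [hiff] at hz
  have hev := hSc.eventually_forall_of_forall_eventually (x₀ := z)
    (P := fun z x => ‖z B.k11 * x.1 + z B.k12 * x.2‖ ^ 2 +
      ‖z B.k21 * x.1 + z B.k22 * x.2‖ ^ 2 < 1) (fun x hx => by
      have hc : Continuous fun w : (ι → ℂ) × (ℂ × ℂ) =>
          ‖w.1 B.k11 * w.2.1 + w.1 B.k12 * w.2.2‖ ^ 2 +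
          ‖w.1 B.k21 * w.2.1 + w.1 B.k22 * w.2.2‖ ^ 2 := by fun_prop
      exact hc.continuousAt.eventually_lt continuousAt_const (hz x hx))
  filter_upwards [hev] with w hw
  rw [hiff]
  exact hw

/-- closed version -/
def CBc (B : Blk ι) : Set (ι → ℂ) := {z | ∀ v w : ℂ,
  ‖z B.k11 * v + z B.k12 * w‖ ^ 2 + ‖z B.k21 * v + z B.k22 * w‖ ^ 2 ≤ ‖v‖ ^ 2 + ‖w‖ ^ 2}

lemma isClosed_CBc : IsClosed (CBc B) := by
  unfold CBc
  simp only [ofPred_forall]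
  apply isClosed_iInter
  intro v
  apply isClosed_iInter
  intro w
  exact isClosed_le (by fun_prop) continuous_const

lemma CB_sub_CBc : CB B ⊆ CBc B := by
  intro z hz v w
  by_cases h : v ≠ 0 ∨ w ≠ 0
  · exact (hz v w h).le
  · push Not at h
    rw [h.1, h.2]
    simp

lemma smul_CBc {z : ι → ℂ} (hz : z ∈ CBc B) {s : ℝ} (hs0 : 0 ≤ s) (hs1 : s < 1) : s • z ∈ CB B := by
  rw [mem_CB]
  intro v w hvw
  have h := hz v w
  have e1 : (s • z) B.k11 * v + (s • z) B.k12 * w = (s : ℂ) * (z B.k11 * v + z B.k12 * w) := by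
    simp only [Pi.smul_apply, real_smul]
    ring
  have e2 : (s • z) B.k21 * v + (s • z) B.k22 * w = (s : ℂ) * (z B.k21 * v + z B.k22 * w) := by
    simp only [Pi.smul_apply, real_smul]
    ring
  have hpos : 0 < ‖v‖ ^ 2 + ‖w‖ ^ 2 := by
    rcases hvw with h | h
    · have : 0 < ‖v‖ := norm_pos_iff.2 h
      positivity
    · have : 0 < ‖w‖ := norm_pos_iff.2 h
      positivity
  rw [e1, e2, norm_mul, norm_mul, norm_real, Real.norm_eq_abs, abs_of_nonneg hs0, mul_pow, mul_pow,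
    ← mul_add]
  have hs2 : s ^ 2 < 1 := by nlinarith
  have h0 : 0 ≤ ‖z B.k11 * v + z B.k12 * w‖ ^ 2 + ‖z B.k21 * v + z B.k22 * w‖ ^ 2 := by positivity
  calc s ^ 2 * (‖z B.k11 * v + z B.k12 * w‖ ^ 2 + ‖z B.k21 * v + z B.k22 * w‖ ^ 2) ≤
      s ^ 2 * (‖v‖ ^ 2 + ‖w‖ ^ 2) := by gcongr
    _ < 1 * (‖v‖ ^ 2 + ‖w‖ ^ 2) := by gcongr
    _ = _ := one_mul _

end Pool.Agent.Helper303.Lp
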