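import Pool.Agent.Helper303.LpDefs
import Pool.Agent.Helper303.LpSlice
import Pool.Agent.Helper303.MbWeyl2

open MeasureTheory Set Complex
open scoped Real Topology ComplexConjugate ContDiff Convolution

set_option linter.unusedSectionVars false

namespace Pool.Agent.Helper303.Lp

open Pool.Agent.Helper303.Mb

/-- the flat convex function `t e^{-1/t}` -/
noncomputable def gg (t : ℝ) : ℝ := t * expNegInvGlue t

lemma gg_smooth : ContDiff ℝ ∞ gg := contDiff_id.mul expNegInvGlue.contDiff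

lemma gg_zero {t : ℝ} (h : t ≤ 0) : gg t = 0 := by
  unfold gg
  rw [expNegInvGlue.zero_of_nonpos h, mul_zero]

lemma gg_pos {t : ℝ} (h : 0 < t) : 0 < gg t := mul_pos h (expNegInvGlue.pos_of_pos h)

lemma gg_nonneg (t : ℝ) : 0 ≤ gg t := by
  rcases le_or_gt t 0 with h | h
  · rw [gg_zero h]
  · exact (gg_pos h).le

lemma gg_deriv_neg {t : ℝ} (h : t < 0) : deriv gg t = 0 := by
  have h1 : gg =ᶠ[𝓝 t] fun _ => 0 := by
    filter_upwards [gt_mem_nhds h] with y hy
    exact gg_zero hy.le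
  rw [h1.deriv_eq]
  simp

lemma gg_deriv_zero : deriv gg 0 = 0 := by
  have hc : Continuous (deriv gg) := gg_smooth.continuous_deriv (by simp)
  have h1 : Filter.Tendsto (deriv gg) (𝓝[<] 0) (𝓝 (deriv gg 0)) := hc.continuousWithinAt
  have h2 : Filter.Tendsto (deriv gg) (𝓝[<] 0) (𝓝 0) := by
    refine tendsto_const_nhds.congr' ?_
    filter_upwards [self_mem_nhdsWithin] with y hy
    exact (gg_deriv_neg hy).symm
  exact tendsto_nhds_unique h1 h2

lemma gg_deriv_pos {t : ℝ} (h : 0 < t) : deriv gg t = Real.exp (-t⁻¹) * (1 + t⁻¹) := by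
  have h1 : gg =ᶠ[𝓝 t] fun y => y * Real.exp (-y⁻¹) := by
    filter_upwards [lt_mem_nhds h] with y hy
    unfold gg expNegInvGlue
    rw [if_neg (not_le.2 hy)]
  rw [h1.deriv_eq]
  have h2 : HasDerivAt (fun y : ℝ => y * Real.exp (-y⁻¹))
      (1 * Real.exp (-t⁻¹) + t * (Real.exp (-t⁻¹) * (-(-(t ^ 2)⁻¹)))) t :=
    (hasDerivAt_id t).mul ((hasDerivAt_inv h.ne').neg.exp)
  rw [h2.deriv]
  field_simp

lemma gg_deriv_mono : Monotone (deriv gg) := by
  intro s t hst
  rcases lt_or_ge t 0 with ht | ht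
  · rw [gg_deriv_neg ht, gg_deriv_neg (lt_of_le_of_lt hst ht)]
  rcases eq_or_lt_of_le ht with ht | ht
  · rw [← ht, gg_deriv_zero]
    rcases lt_or_ge s 0 with hs | hs
    · rw [gg_deriv_neg hs]
    · have : s = 0 := le_antisymm (by linarith) hs
      rw [this, gg_deriv_zero]
  · have h0 : 0 ≤ Real.exp (-t⁻¹) * (1 + t⁻¹) := by positivity
    rw [gg_deriv_pos ht]
    rcases lt_or_ge s 0 with hs | hs
    · rwa [gg_deriv_neg hs]
    rcases eq_or_lt_of_le hs with hs | hs
    · rw [← hs, gg_deriv_zero]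
      exact h0
    · rw [gg_deriv_pos hs]
      set a := s⁻¹ with ha
      set b := t⁻¹ with hb
      have hab : b ≤ a := inv_anti₀ hs hst
      have hb0 : 0 < b := by positivity
      have h1 : (a - b) + 1 ≤ Real.exp (a - b) := Real.add_one_le_exp _
      have h2 : 1 + a ≤ Real.exp (a - b) * (1 + b) := by
        have : ((a - b) + 1) * (1 + b) ≤ Real.exp (a - b) * (1 + b) := by gcongr
        nlinarith
      calc Real.exp (-a) * (1 + a) ≤ Real.exp (-a) * (Real.exp (a - b) * (1 + b)) := by gcongr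
        _ = Real.exp (-b) * (1 + b) := by
          rw [← mul_assoc, ← Real.exp_add]
          congr 2
          ring

lemma gg_convex : ConvexOn ℝ univ gg :=
  gg_deriv_mono.convexOn_univ_of_deriv (gg_smooth.differentiable (by simp))

lemma gg_mono : Monotone gg := by
  apply monotone_of_deriv_nonneg (gg_smooth.differentiable (by simp))
  intro t
  have h := gg_deriv_mono (min_le_left t (-1))
  rw [gg_deriv_neg (lt_of_le_of_lt (min_le_right t (-1)) (by norm_num))] at h
  exact h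

lemma gg_two : 1 ≤ gg 2 := by
  unfold gg expNegInvGlue
  rw [if_neg (by norm_num)]
  have := Real.add_one_le_exp (-(2 : ℝ)⁻¹)
  norm_num at this ⊢
  linarith

/-- convexity in the form used below -/
lemma gg_conv {a b : ℝ} (ha : 0 ≤ a) (hb : 0 ≤ b) (hab : a + b = 1) {s t u : ℝ}
    (h : u ≤ a * s + b * t) : gg u ≤ a * gg s + b * gg t :=
  (gg_mono h).trans (by
    have := gg_convex.2 (mem_univ s) (mem_univ t) ha hb hab
    simpa using this)

/-- the block of `Fin 4` -/
def B4 : Blk (Fin 4) where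
  k11 := 0
  k12 := 1
  k21 := 2
  k22 := 3
  h1 := by decide
  h2 := by decide
  h3 := by decide
  h4 := by decide
  h5 := by decide
  h6 := by decide

/-- `|Zx|²` -/
noncomputable def Q4 (z : Fin 4 → ℂ) (x : Fin 2 → ℂ) : ℝ :=
  normSq (z 0 * x 0 + z 1 * x 1) + normSq (z 2 * x 0 + z 3 * x 1)

/-- `|Z|²` -/
noncomputable def Fr (z : Fin 4 → ℂ) : ℝ := ∑ i, normSq (z i)

/-- the smooth convex function vanishing exactly on the closed matrix ball -/
noncomputable def hh (z : Fin 4 → ℂ) : ℝ :=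
  gg (Fr z - 2) + ∫ x : Fin 2 → ℂ, gg (Q4 z x - 1) * ker0 1 x

lemma Q4_smooth : ContDiff ℝ ∞ (fun q : (Fin 4 → ℂ) × (Fin 2 → ℂ) => Q4 q.1 q.2) := by
  have h1 : ∀ i, ContDiff ℝ ∞ (fun q : (Fin 4 → ℂ) × (Fin 2 → ℂ) => q.1 i) := fun i =>
    (contDiff_apply ℝ ℂ i).comp contDiff_fst
  have h2 : ∀ i, ContDiff ℝ ∞ (fun q : (Fin 4 → ℂ) × (Fin 2 → ℂ) => q.2 i) := fun i =>
    (contDiff_apply ℝ ℂ i).comp contDiff_snd
  unfold Q4
  exact (normSq_smooth.comp (((h1 0).mul (h2 0)).add ((h1 1).mul (h2 1)))).add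
    (normSq_smooth.comp (((h1 2).mul (h2 0)).add ((h1 3).mul (h2 1))))

lemma Fr_smooth : ContDiff ℝ ∞ Fr := by
  unfold Fr
  apply ContDiff.sum
  intro i _
  exact normSq_smooth.comp (contDiff_apply ℝ ℂ i)

lemma integrand_smooth : ContDiff ℝ ∞
    (fun q : (Fin 4 → ℂ) × (Fin 2 → ℂ) => gg (Q4 q.1 q.2 - 1) * ker0 1 q.2) :=
  (gg_smooth.comp (Q4_smooth.sub contDiff_const)).mul ((ker0_smooth 1).comp contDiff_snd)

lemma hh_smooth : ContDiff ℝ ∞ hh := by
  have h1 : ContDiff ℝ ∞ (fun z => gg (Fr z - 2)) := gg_smooth.comp (Fr_smooth.sub contDiff_const)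
  have h2 : ContDiff ℝ ∞ (fun z : Fin 4 → ℂ => ∫ x : Fin 2 → ℂ, gg (Q4 z x - 1) * ker0 1 x) := by
    have h3 := contDiffOn_convolution_right_with_param (n := ⊤) (μ := (volume : Measure (Fin 2 → ℂ)))
      (f := fun _ : Fin 2 → ℂ => (1 : ℝ)) (ContinuousLinearMap.mul ℝ ℝ)
      (g := fun (z : Fin 4 → ℂ) (x : Fin 2 → ℂ) => gg (Q4 z x - 1) * ker0 1 x)
      (s := univ) (k := Metric.closedBall 0 1) isOpen_univ (isCompact_closedBall _ _)
      (by
        intro p x _ hx
        have : 1 < ‖x‖ := by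
          rw [mem_closedBall_zero_iff, not_le] at hx
          exact hx
        rw [ker0_zero_of one_pos this, mul_zero])
      (locallyIntegrable_const _)
      (by
        exact integrand_smooth.contDiffOn)
    have h4 : ContDiff ℝ ∞ (fun z : Fin 4 → ℂ => (z, (0 : Fin 2 → ℂ))) :=
      contDiff_id.prodMk contDiff_const
    rw [univ_prod_univ, contDiffOn_univ] at h3
    have h5 := h3.comp h4
    have e : (fun z : Fin 4 → ℂ => ∫ x : Fin 2 → ℂ, gg (Q4 z x - 1) * ker0 1 x) =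
        ((fun q : (Fin 4 → ℂ) × (Fin 2 → ℂ) => ((fun _ : Fin 2 → ℂ => (1 : ℝ))
          ⋆[ContinuousLinearMap.mul ℝ ℝ, volume] (fun x => gg (Q4 q.1 x - 1) * ker0 1 x)) q.2) ∘
        fun z : Fin 4 → ℂ => (z, (0 : Fin 2 → ℂ))) := by
      funext z
      simp only [Function.comp_apply]
      rw [convolution_def]
      simp only [ContinuousLinearMap.mul_apply', one_mul, zero_sub]
      exact (integral_neg_eq_self (fun x : Fin 2 → ℂ => gg (Q4 z x - 1) * ker0 1 x) volume).symm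
    rw [e]
    exact h5
  exact h1.add h2

lemma ker0_nonneg' (x : Fin 2 → ℂ) : 0 ≤ ker0 1 x := Real.smoothTransition.nonneg _

lemma integrand_cont (z : Fin 4 → ℂ) : Continuous (fun x : Fin 2 → ℂ => gg (Q4 z x - 1) * ker0 1 x) :=
  integrand_smooth.continuous.comp (continuous_const.prodMk continuous_id)

lemma integrand_hcs (z : Fin 4 → ℂ) :
    HasCompactSupport (fun x : Fin 2 → ℂ => gg (Q4 z x - 1) * ker0 1 x) :=
  (ker0_hcs one_pos).mul_left

lemma integrand_int (z : Fin 4 → ℂ) :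
    Integrable (fun x : Fin 2 → ℂ => gg (Q4 z x - 1) * ker0 1 x) :=
  (integrand_cont z).integrable_of_hasCompactSupport (integrand_hcs z)

lemma integrand_nonneg (z : Fin 4 → ℂ) (x : Fin 2 → ℂ) : 0 ≤ gg (Q4 z x - 1) * ker0 1 x :=
  mul_nonneg (gg_nonneg _) (ker0_nonneg' x)

lemma hh_nonneg (z : Fin 4 → ℂ) : 0 ≤ hh z :=
  add_nonneg (gg_nonneg _) (integral_nonneg (integrand_nonneg z))

lemma normSq_conv {a b : ℝ} (ha : 0 ≤ a) (hb : 0 ≤ b) (hab : a + b = 1) (v u : ℂ) :
    normSq ((a : ℂ) * v + (b : ℂ) * u) ≤ a * normSq v + b * normSq u := by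
  have e : a * normSq v + b * normSq u - normSq ((a : ℂ) * v + (b : ℂ) * u) =
      a * b * normSq (v - u) := by
    have hb' : b = 1 - a := by linarith
    subst hb'
    simp only [normSq_apply, add_re, add_im, mul_re, mul_im, ofReal_re, ofReal_im, sub_re, sub_im]
    ring
  have : 0 ≤ a * b * normSq (v - u) := mul_nonneg (mul_nonneg ha hb) (normSq_nonneg _)
  linarith

lemma hh_convex : ConvexOn ℝ univ hh := by
  refine ⟨convex_univ, ?_⟩
  intro z _ w _ a b ha hb hab
  simp only [smul_eq_mul]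
  have hF : Fr (a • z + b • w) ≤ a * Fr z + b * Fr w := by
    unfold Fr
    rw [Finset.mul_sum, Finset.mul_sum, ← Finset.sum_add_distrib]
    apply Finset.sum_le_sum
    intro i _
    have := normSq_conv ha hb hab (z i) (w i)
    simpa only [Pi.add_apply, Pi.smul_apply, real_smul] using this
  have hQ : ∀ x, Q4 (a • z + b • w) x ≤ a * Q4 z x + b * Q4 w x := by
    intro x
    unfold Q4
    have h1 := normSq_conv ha hb hab (z 0 * x 0 + z 1 * x 1) (w 0 * x 0 + w 1 * x 1)
    have h2 := normSq_conv ha hb hab (z 2 * x 0 + z 3 * x 1) (w 2 * x 0 + w 3 * x 1)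
    have e1 : (a • z + b • w) 0 * x 0 + (a • z + b • w) 1 * x 1 =
        (a : ℂ) * (z 0 * x 0 + z 1 * x 1) + (b : ℂ) * (w 0 * x 0 + w 1 * x 1) := by
      simp only [Pi.add_apply, Pi.smul_apply, real_smul]
      ring
    have e2 : (a • z + b • w) 2 * x 0 + (a • z + b • w) 3 * x 1 =
        (a : ℂ) * (z 2 * x 0 + z 3 * x 1) + (b : ℂ) * (w 2 * x 0 + w 3 * x 1) := by
      simp only [Pi.add_apply, Pi.smul_apply, real_smul]
      ring
    rw [e1, e2]
    linarith
  unfold hh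
  have h1 : gg (Fr (a • z + b • w) - 2) ≤ a * gg (Fr z - 2) + b * gg (Fr w - 2) :=
    gg_conv ha hb hab (by
      have hb' : b = 1 - a := by linarith
      subst hb'
      linarith)
  have h2 : ∫ x, gg (Q4 (a • z + b • w) x - 1) * ker0 1 x ≤
      a * (∫ x, gg (Q4 z x - 1) * ker0 1 x) + b * ∫ x, gg (Q4 w x - 1) * ker0 1 x := by
    rw [← integral_const_mul, ← integral_const_mul,
      ← integral_add ((integrand_int z).const_mul a) ((integrand_int w).const_mul b)]
    apply integral_mono (integrand_int _)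
      (((integrand_int z).const_mul a).add ((integrand_int w).const_mul b))
    intro x
    have h3 : gg (Q4 (a • z + b • w) x - 1) ≤ a * gg (Q4 z x - 1) + b * gg (Q4 w x - 1) :=
      gg_conv ha hb hab (by
        have := hQ x
        have hb' : b = 1 - a := by linarith
        subst hb'
        linarith)
    have h4 := mul_le_mul_of_nonneg_right h3 (ker0_nonneg' x)
    show gg (Q4 (a • z + b • w) x - 1) * ker0 1 x ≤
      a * (gg (Q4 z x - 1) * ker0 1 x) + b * (gg (Q4 w x - 1) * ker0 1 x)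
    linarith
  linarith

lemma ker0_ne {x : Fin 2 → ℂ} (h : ker0 1 x ≠ 0) : normSq (x 0) + normSq (x 1) < 1 := by
  by_contra hcon
  push Not at hcon
  apply h
  unfold ker0
  apply Real.smoothTransition.zero_of_nonpos
  rw [Fin.sum_univ_two]
  norm_num
  exact hcon

lemma ker0_pos' {x : Fin 2 → ℂ} (h : normSq (x 0) + normSq (x 1) < 1) : 0 < ker0 1 x := by
  unfold ker0
  apply Real.smoothTransition.pos_of_pos
  rw [Fin.sum_univ_two]
  norm_num
  exact h

lemma hh_zero {z : Fin 4 → ℂ} (hz : z ∈ CBc B4) : hh z = 0 := by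
  have hz' : ∀ v w : ℂ, ‖z 0 * v + z 1 * w‖ ^ 2 + ‖z 2 * v + z 3 * w‖ ^ 2 ≤ ‖v‖ ^ 2 + ‖w‖ ^ 2 := hz
  have h1 : Fr z ≤ 2 := by
    have a1 := hz' 1 0
    have a2 := hz' 0 1
    simp only [mul_one, mul_zero, add_zero, zero_add, norm_one, norm_zero] at a1 a2
    unfold Fr
    rw [Fin.sum_univ_four]
    simp only [normSq_eq_norm_sq]
    norm_num at a1 a2
    linarith
  have h2 : ∀ x : Fin 2 → ℂ, gg (Q4 z x - 1) * ker0 1 x = 0 := by
    intro x
    by_cases hx : ker0 1 x = 0
    · rw [hx, mul_zero]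
    · have h3 := ker0_ne hx
      have h4 : Q4 z x ≤ 1 := by
        have := hz' (x 0) (x 1)
        unfold Q4
        simp only [normSq_eq_norm_sq] at h3 ⊢
        linarith
      rw [gg_zero (by linarith), zero_mul]
  unfold hh
  simp only [h2, integral_zero, add_zero]
  exact gg_zero (by linarith)

lemma hh_pos {z : Fin 4 → ℂ} (hz : z ∉ CBc B4) : 0 < hh z := by
  have hz' : ¬ ∀ v w : ℂ, ‖z 0 * v + z 1 * w‖ ^ 2 + ‖z 2 * v + z 3 * w‖ ^ 2 ≤
    ‖v‖ ^ 2 + ‖w‖ ^ 2 := hz
  push Not at hz'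
  obtain ⟨v, w, hvw⟩ := hz'
  set n := ‖v‖ ^ 2 + ‖w‖ ^ 2 with hn
  set q := ‖z 0 * v + z 1 * w‖ ^ 2 + ‖z 2 * v + z 3 * w‖ ^ 2 with hq
  have hn0 : 0 ≤ n := by positivity
  have hn1 : 0 < n := by
    rcases hn0.eq_or_lt with h | h
    · exfalso
      have hv : v = 0 := by
        have : ‖v‖ ^ 2 = 0 := by nlinarith [sq_nonneg ‖v‖, sq_nonneg ‖w‖]
        simpa using this
      have hw : w = 0 := by
        have : ‖w‖ ^ 2 = 0 := by nlinarith [sq_nonneg ‖v‖, sq_nonneg ‖w‖]
        simpa using this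
      rw [hq, hv, hw] at hvw
      simp at hvw
      linarith
    · exact h
  -- scaling with `s² n < 1 < s² q`
  set s := Real.sqrt (2 / (n + q)) with hs
  have hs2 : s ^ 2 = 2 / (n + q) := Real.sq_sqrt (by positivity)
  have h1 : s ^ 2 * n < 1 := by
    rw [hs2, div_mul_eq_mul_div, div_lt_one (by positivity)]
    linarith
  have h2 : 1 < s ^ 2 * q := by
    rw [hs2, div_mul_eq_mul_div, one_lt_div (by positivity)]
    linarith
  set x : Fin 2 → ℂ := ![s * v, s * w] with hx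
  have x0 : x 0 = s * v := rfl
  have x1 : x 1 = s * w := rfl
  have hk : 0 < ker0 1 x := by
    apply ker0_pos'
    rw [x0, x1, normSq_mul, normSq_mul, normSq_ofReal, normSq_eq_norm_sq, normSq_eq_norm_sq]
    nlinarith
  have hQ : 1 < Q4 z x := by
    unfold Q4
    rw [x0, x1]
    have e1 : z 0 * (s * v) + z 1 * (s * w) = (s : ℂ) * (z 0 * v + z 1 * w) := by ring
    have e2 : z 2 * (s * v) + z 3 * (s * w) = (s : ℂ) * (z 2 * v + z 3 * w) := by ring
    rw [e1, e2, normSq_mul, normSq_mul, normSq_ofReal, normSq_eq_norm_sq, normSq_eq_norm_sq]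
    nlinarith
  have hpos : 0 < ∫ x : Fin 2 → ℂ, gg (Q4 z x - 1) * ker0 1 x := by
    apply (integrand_cont z).integral_pos_of_hasCompactSupport_nonneg_nonzero (integrand_hcs z)
      (fun x => integrand_nonneg z x) (x := x)
    exact (mul_pos (gg_pos (by linarith)) hk).ne'
  unfold hh
  have := gg_nonneg (Fr z - 2)
  linarith

lemma hh_lt {z : Fin 4 → ℂ} (hz : hh z < 1) : ‖z‖ ≤ 2 := by
  have h1 : gg (Fr z - 2) < 1 := by
    have : 0 ≤ ∫ x : Fin 2 → ℂ, gg (Q4 z x - 1) * ker0 1 x := integral_nonneg (integrand_nonneg z)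
    unfold hh at hz
    linarith
  have h2 : Fr z - 2 < 2 := by
    by_contra hcon
    push Not at hcon
    have := gg_mono hcon
    have := gg_two
    linarith
  rw [pi_norm_le_iff_of_nonneg (by norm_num)]
  intro i
  have h3 : normSq (z i) ≤ Fr z :=
    Finset.single_le_sum (f := fun i => normSq (z i)) (fun _ _ => normSq_nonneg _) (Finset.mem_univ i)
  rw [normSq_eq_norm_sq] at h3
  nlinarith [norm_nonneg (z i)]

/-- the last four coordinates -/
def tl (x : Fin 5 → ℂ) : Fin 4 → ℂ := fun i => x (Fin.succ i)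

/-- the defining function -/
noncomputable def rr (x : Fin 5 → ℂ) : ℝ := normSq (x 0) + hh (tl x) - 1

/-- the domain -/
def Om : Set (Fin 5 → ℂ) := {x | rr x < 0}

lemma tl_smooth : ContDiff ℝ ∞ tl := contDiff_pi.2 fun i => contDiff_apply ℝ ℂ (Fin.succ i)

lemma rr_smooth : ContDiff ℝ ∞ rr :=
  ((normSq_smooth.comp (contDiff_apply ℝ ℂ 0)).add (hh_smooth.comp tl_smooth)).sub contDiff_const

lemma rr_convex : ConvexOn ℝ univ rr := by
  refine ⟨convex_univ, ?_⟩
  intro z _ w _ a b ha hb hab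
  simp only [smul_eq_mul]
  have h1 := normSq_conv ha hb hab (z 0) (w 0)
  have h2 := hh_convex.2 (mem_univ (tl z)) (mem_univ (tl w)) ha hb hab
  have e1 : (a • z + b • w) 0 = (a : ℂ) * z 0 + (b : ℂ) * w 0 := by
    simp only [Pi.add_apply, Pi.smul_apply, real_smul]
  have e2 : tl (a • z + b • w) = a • tl z + b • tl w := rfl
  unfold rr
  rw [e1, e2]
  simp only [smul_eq_mul] at h2
  have hb' : b = 1 - a := by linarith
  subst hb'
  linarith

lemma isOpen_Om : IsOpen Om := isOpen_lt rr_smooth.continuous continuous_const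

lemma convex_Om : Convex ℝ Om := by
  have := rr_convex.convex_lt 0
  simpa [Om] using this

lemma bdd_Om : Bornology.IsBounded Om := by
  apply (Metric.isBounded_closedBall (x := (0 : Fin 5 → ℂ)) (r := 2)).subset
  intro x hx
  have hx' : normSq (x 0) + hh (tl x) - 1 < 0 := hx
  have h0 := hh_nonneg (tl x)
  have h1 := normSq_nonneg (x 0)
  rw [mem_closedBall_zero_iff, pi_norm_le_iff_of_nonneg (by norm_num)]
  intro i
  refine Fin.cases ?_ (fun j => ?_) i
  · rw [normSq_eq_norm_sq] at hx'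
    nlinarith [norm_nonneg (x 0)]
  · exact (norm_le_pi_norm (tl x) j).trans (hh_lt (by linarith))

lemma zero_mem_CBc : (0 : Fin 4 → ℂ) ∈ CBc B4 := by
  intro v w
  simp
  positivity

lemma zero_mem_Om : (0 : Fin 5 → ℂ) ∈ Om := by
  show normSq ((0 : Fin 5 → ℂ) 0) + hh (tl 0) - 1 < 0
  have : tl (0 : Fin 5 → ℂ) = 0 := rfl
  rw [this, hh_zero zero_mem_CBc]
  simp

lemma smooth_Om : SmoothBoundary Om := by
  refine ⟨rr, rr_smooth, rfl, ?_⟩
  intro x hx h0
  have hd : HasFDerivAt rr (fderiv ℝ rr x) x :=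
    (rr_smooth.differentiable (by simp) x).hasFDerivAt
  have hd1 : HasDerivAt (fun s : ℝ => s • x) x 1 := by
    have := (hasDerivAt_id (1 : ℝ)).smul_const x
    simpa using this
  have hd' : HasFDerivAt rr (fderiv ℝ rr x) ((1 : ℝ) • x) := by rw [one_smul]; exact hd
  have hc : HasDerivAt (fun s : ℝ => rr (s • x)) (fderiv ℝ rr x x) 1 :=
    HasFDerivAt.comp_hasDerivAt (l := rr) (f := fun s : ℝ => s • x) (1 : ℝ) hd' hd1
  rw [h0] at hc
  have hr0 : rr 0 = -1 := by
    show normSq ((0 : Fin 5 → ℂ) 0) + hh (tl 0) - 1 = -1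
    have : tl (0 : Fin 5 → ℂ) = 0 := rfl
    rw [this, hh_zero zero_mem_CBc]
    simp
  have hle : ∀ s ∈ Ioo (0 : ℝ) 1, 1 ≤ slope (fun s : ℝ => rr (s • x)) 1 s := by
    intro s hs
    have h1 := rr_convex.2 (mem_univ x) (mem_univ (0 : Fin 5 → ℂ)) hs.1.le (by linarith [hs.2] : 0 ≤ 1 - s)
      (by ring)
    rw [smul_zero, add_zero, hx, hr0] at h1
    simp only [smul_eq_mul, mul_zero, zero_add] at h1
    rw [slope_def_field]
    simp only [one_smul]
    rw [hx, sub_zero, le_div_iff_of_neg (by linarith [hs.2])]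
    linarith
  have hlim := hc.tendsto_slope
  have hlim2 : Filter.Tendsto (slope (fun s : ℝ => rr (s • x)) 1) (𝓝[<] 1)
      (𝓝 ((0 : (Fin 5 → ℂ) →L[ℝ] ℝ) x)) :=
    hlim.mono_left (nhdsWithin_mono _ (fun y hy => ne_of_lt hy))
  have hge : (1 : ℝ) ≤ (0 : (Fin 5 → ℂ) →L[ℝ] ℝ) x := by
    apply ge_of_tendsto hlim2
    filter_upwards [Ioo_mem_nhdsLT (show (0 : ℝ) < 1 by norm_num)] with s hs
    exact hle s hs
  simp at hge
  linarith

end Pool.Agent.Helper303.Lp
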