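import Pool.Agent.Helper303.LpFin

open MeasureTheory Set Complex
open scoped Real Topology ComplexConjugate ContDiff

set_option linter.unusedSectionVars false

namespace Pool.Agent.Helper303.Lp

open Pool.Agent.Helper303.Mb

lemma finite_Om : IsFiniteMeasure (volume.restrict Om) :=
  ⟨by
    rw [Measure.restrict_apply_univ]
    exact bdd_Om.measure_lt_top⟩

lemma memLp_cont {g : (Fin 5 → ℂ) → ℂ} (hg : Continuous g) (p : ℝ) :
    MemLp g (ENNReal.ofReal p) (volume.restrict Om) := by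
  have := finite_Om
  obtain ⟨K, hK⟩ := bdd_Om.isCompact_closure.exists_bound_of_continuousOn hg.continuousOn
  apply MemLp.of_bound hg.aestronglyMeasurable K
  filter_upwards [ae_restrict_mem isOpen_Om.measurableSet] with x hx
  exact hK x (subset_closure hx)

lemma eLp_eq {g : (Fin 5 → ℂ) → ℂ} {p : ℝ} (hp : 0 < p)
    (hg : MemLp g (ENNReal.ofReal p) (volume.restrict Om)) :
    eLpNorm g (ENNReal.ofReal p) (volume.restrict Om) =
      ENNReal.ofReal ((∫ x in Om, ‖g x‖ ^ p) ^ p⁻¹) := by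
  have h := hg.eLpNorm_eq_integral_rpow_norm (by simpa using hp) ENNReal.ofReal_ne_top
  rwa [ENNReal.toReal_ofReal hp.le] at h

/-- the constants -/
lemma const_ineq {p : ℝ} (hp : 200 ≤ p) {i : ℕ} (hi : 1 ≤ i) {δ : ℝ}
    (hδ : δ = 1 / (4 * ((((i ^ 4) ^ 4 : ℕ) : ℝ) * (1 + ((i ^ 4 : ℕ) : ℝ) ^ 2)))) {T : ℝ} (hT : 0 ≤ T) :
    (i : ℝ) ^ (1 - p) * ((40 ^ 8 / (δ ^ 8 * κ0)) * T) ≤ 40 ^ 8 * 8 ^ 8 / κ0 * T := by
  have hi1 : (1 : ℝ) ≤ i := by exact_mod_cast hi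
  have hκ := κ0_pos
  have hδ0 : 0 < δ := by rw [hδ]; positivity
  have h1 : 1 / δ ≤ 8 * (i : ℝ) ^ 24 := by
    rw [hδ, one_div_one_div]
    push_cast
    have h2 : (1 : ℝ) ≤ (i : ℝ) ^ 8 := one_le_pow₀ hi1
    have h3 : (0 : ℝ) ≤ (i : ℝ) ^ 16 := by positivity
    calc 4 * (((i : ℝ) ^ 4) ^ 4 * (1 + ((i : ℝ) ^ 4) ^ 2)) = 4 * (i : ℝ) ^ 16 * (1 + (i : ℝ) ^ 8) := by
          ring
      _ ≤ 4 * (i : ℝ) ^ 16 * ((i : ℝ) ^ 8 + (i : ℝ) ^ 8) := by gcongr
      _ = 8 * (i : ℝ) ^ 24 := by ring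
  have h2 : 40 ^ 8 / (δ ^ 8 * κ0) ≤ 40 ^ 8 * 8 ^ 8 / κ0 * (i : ℝ) ^ 192 := by
    have e : 40 ^ 8 / (δ ^ 8 * κ0) = 40 ^ 8 / κ0 * (1 / δ) ^ 8 := by
      field_simp
    rw [e]
    calc 40 ^ 8 / κ0 * (1 / δ) ^ 8 ≤ 40 ^ 8 / κ0 * (8 * (i : ℝ) ^ 24) ^ 8 := by gcongr
      _ = _ := by ring
  have h3 : (i : ℝ) ^ (1 - p) * (i : ℝ) ^ 192 ≤ 1 := by
    rw [← Real.rpow_natCast (i : ℝ) 192, ← Real.rpow_add (by positivity)]
    calc (i : ℝ) ^ (1 - p + ((192 : ℕ) : ℝ)) ≤ (i : ℝ) ^ (0 : ℝ) :=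
          Real.rpow_le_rpow_of_exponent_le hi1 (by push_cast; linarith)
      _ = 1 := Real.rpow_zero _
  calc (i : ℝ) ^ (1 - p) * ((40 ^ 8 / (δ ^ 8 * κ0)) * T) ≤
      (i : ℝ) ^ (1 - p) * ((40 ^ 8 * 8 ^ 8 / κ0 * (i : ℝ) ^ 192) * T) := by gcongr
    _ = ((i : ℝ) ^ (1 - p) * (i : ℝ) ^ 192) * (40 ^ 8 * 8 ^ 8 / κ0 * T) := by ring
    _ ≤ 1 * (40 ^ 8 * 8 ^ 8 / κ0 * T) := by gcongr
    _ = _ := one_mul _

theorem main {p : ℝ} (hp : 200 ≤ p) : ¬ LpEstimates01 Om p := by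
  rintro ⟨C, hC⟩
  have hp0 : 0 < p := by linarith
  have := finite_Om
  obtain ⟨C0, hC0, J0, hform⟩ := form_poly B4
  obtain ⟨c3, hc3⟩ : ∃ c3, c3 = Real.exp (-1) * (∫ x, kav x ^ 12) ^ 3 := ⟨_, rfl⟩
  have hc30 : 0 < c3 := by
    rw [hc3]
    exact mul_pos (Real.exp_pos _) (pow_pos kav_pos 3)
  obtain ⟨V, hV⟩ : ∃ V, V = (volume (CBc B4)).toReal := ⟨_, rfl⟩
  have hV0 : 0 ≤ V := by rw [hV]; exact ENNReal.toReal_nonneg
  obtain ⟨T, hT⟩ : ∃ T, T = |C| ^ p * (C0 ^ p * V + 1) := ⟨_, rfl⟩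
  have hT0 : 0 ≤ T := by rw [hT]; positivity
  have hκ := κ0_pos
  obtain ⟨K5, hK5⟩ : ∃ K5 : ℝ, K5 = 40 ^ 8 * 8 ^ 8 / κ0 := ⟨_, rfl⟩
  have hK50 : 0 < K5 := by rw [hK5]; positivity
  have hKd := Kd_nonneg
  -- choice of `i`
  obtain ⟨i, hi⟩ := exists_nat_gt (max (max 1 (J0 : ℝ)) (2 * (Kd * (1 + C0 + K5 * T)) / c3))
  have hi1 : (1 : ℝ) < i := lt_of_le_of_lt ((le_max_left _ _).trans (le_max_left _ _)) hi
  have hiJ : (J0 : ℝ) < i := lt_of_le_of_lt ((le_max_right _ _).trans (le_max_left _ _)) hi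
  have hiK : 2 * (Kd * (1 + C0 + K5 * T)) / c3 < i := lt_of_le_of_lt (le_max_right _ _) hi
  have hi1' : 1 ≤ i := by exact_mod_cast hi1.le
  obtain ⟨J, hJd⟩ : ∃ J, J = i ^ 4 := ⟨_, rfl⟩
  have hJ0J : J0 ≤ J := by
    rw [hJd]
    have h1 : J0 ≤ i := by exact_mod_cast hiJ.le
    have h2 : i ≤ i ^ 4 := Nat.le_self_pow (by norm_num) i
    exact h1.trans h2
  obtain ⟨hJ, hNε, hfb⟩ := hform J hJ0J
  obtain ⟨N, hNd⟩ : ∃ N, N = J ^ 4 := ⟨_, rfl⟩
  rw [← hNd] at hNε hfb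
  have hN : 1 ≤ N := by rw [hNd]; exact Nat.one_le_pow _ _ hJ
  have hJr : (1 : ℝ) ≤ J := by exact_mod_cast hJ
  have hNr : (1 : ℝ) ≤ N := by exact_mod_cast hN
  obtain ⟨δ, hδ⟩ : ∃ δ : ℝ, δ = 1 / (4 * ((N : ℝ) * (1 + (J : ℝ) ^ 2))) := ⟨_, rfl⟩
  have hq1 : 1 ≤ (N : ℝ) * (1 + (J : ℝ) ^ 2) := by nlinarith [sq_nonneg (J : ℝ)]
  have hδ0 : 0 < δ := by rw [hδ]; positivity
  have hδ1 : δ ≤ 1 / 4 := by
    rw [hδ, div_le_div_iff₀ (by positivity) (by norm_num)]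
    linarith
  have hδN : (N : ℝ) * (δ * (1 + (J : ℝ) ^ 2)) ≤ 1 := by
    have : (N : ℝ) * (δ * (1 + (J : ℝ) ^ 2)) = 1 / 4 := by
      rw [hδ]
      field_simp
    rw [this]
    norm_num
  have hD : ∀ z0 zi z1, Pos z0 zi z1 → sl B4 z0 zi z1 ∈ CB B4 := fun _ _ _ h => sl_D h
  have hval := Lam_uu hD hδ0 hδ1 hN hδN hJ subset_rfl hNε
  rw [← hc3] at hval
  -- choice of `l`
  have hlim := (Lam_lim hδ0 hδ1 hJ hNε).norm
  have hgt : J * c3 / 2 < ‖Lam B4 δ J N (uu B4 J N)‖ := by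
    have : 0 < (J : ℝ) * c3 := by positivity
    linarith
  obtain ⟨n, hn⟩ := (hlim.eventually (lt_mem_nhds hgt)).exists
  obtain ⟨l, hl⟩ : ∃ l : ℝ, l = 1 - 1 / ((n : ℝ) + 2) := ⟨_, rfl⟩
  rw [← hl] at hn
  have hl0 : 0 < l := by
    rw [hl]
    have : 1 / ((n : ℝ) + 2) < 1 := by
      rw [div_lt_one (by positivity)]
      have : (0 : ℝ) ≤ n := Nat.cast_nonneg n
      linarith
    linarith
  have hl1 : l < 1 := by
    rw [hl]
    have : 0 < 1 / ((n : ℝ) + 2) := by positivity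
    linarith
  -- the cut off function
  obtain ⟨v, hv, hvc, hvu⟩ := exists_v hl0 hl1 hJ N
  have hbC : ∀ z ∈ CBc B4, ∀ k, ‖dbar k v z‖ ≤ C0 := by
    intro z hz k
    have hlz : l • z ∈ CB B4 := smul_CBc hz hl0.le hl1
    rw [dbar_v hJ (hvu z hz) hlz k, norm_mul, norm_real, Real.norm_eq_abs, abs_of_pos hl0]
    have := hfb _ hlz (norm_CB hlz) k
    calc l * ‖dbar k (uu B4 J N) (l • z)‖ ≤ 1 * C0 := by gcongr
      _ = C0 := one_mul _
  have hbcont : ∀ k, Continuous (dbar k v) := by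
    intro k
    have h1 : Continuous (fderiv ℝ v) := hv.continuous_fderiv (by simp)
    unfold dbar
    exact ((h1.clm_apply continuous_const).add
      (continuous_const.mul (h1.clm_apply continuous_const))).div_const _
  have hbcs : ∀ k, HasCompactSupport (dbar k v) := fun k =>
    HasCompactSupport.intro hvc fun x hx => dbar_eq_zero_of_notMem hx k
  -- choice of `m`
  have hall : ∀ᶠ m : ℕ in Filter.atTop, ∀ k : Fin 4,
      ∫ x in Om, ‖x 0 ^ m * dbar k v (tl x)‖ ^ p ≤ (C0 ^ p * V + 1) * Wm m p :=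
    Filter.eventually_all.2 fun k => by
      rw [hV]
      exact form_small hp0 (hbcont k) (hbcs k) hC0 (fun z hz => hbC z hz k)
  obtain ⟨m, hm⟩ := hall.exists
  obtain ⟨W, hW⟩ : ∃ W, W = Wm m p := ⟨_, rfl⟩
  have hW0 : 0 < W := by rw [hW]; exact Wm_pos m hp0
  rw [← hW] at hm
  have hV0s := V0_smooth m hv
  obtain ⟨A, hA⟩ : ∃ A, A = (C0 ^ p * V + 1) * W := ⟨_, rfl⟩
  have hA0 : 0 ≤ A := by rw [hA]; positivity
  -- the form
  set f : (Fin 5 → ℂ) → (Fin 5 → ℂ) := fun x j => dbar j (V0 m v) x with hf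
  have hfs : ∀ j, ContDiff ℝ ∞ (fun x => f x j) := by
    intro j
    have := contDiffOn_dbar isOpen_univ hV0s.contDiffOn j
    exact contDiffOn_univ.1 this
  have hfint : ∀ j, ∫ x in Om, ‖f x j‖ ^ p ≤ A := by
    intro j
    refine Fin.cases ?_ (fun k => ?_) j
    · have : ∀ x, f x 0 = 0 := fun x => dbar_V0_zero m hv x
      simp only [this, norm_zero, Real.zero_rpow hp0.ne', integral_zero]
      exact hA0
    · have : ∀ x, f x (Fin.succ k) = x 0 ^ m * dbar k v (tl x) := fun x => dbar_V0_succ m hv x k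
      simp only [this]
      rw [hA]
      exact hm k
  obtain ⟨M, hM⟩ : ∃ M, M = A ^ p⁻¹ := ⟨_, rfl⟩
  have hM0 : 0 ≤ M := by rw [hM]; positivity
  have hMp : M ^ p = A := by
    rw [hM, ← Real.rpow_mul hA0, inv_mul_cancel₀ hp0.ne', Real.rpow_one]
  have hclosed : DbarClosed Om f := by
    apply dbarClosed_of_classical isOpen_Om
    · intro j
      exact ((hfs j).of_le (by norm_cast)).contDiffOn
    · intro x _ j k
      have h2 : ContDiffAt ℝ 2 (V0 m v) x := hV0s.contDiffAt.of_le (by norm_cast)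
      exact dbar_comm h2 k j
  obtain ⟨u, hu1, hu2, hu3⟩ := hC f M hM0 (fun j => by
    have h1 := memLp_cont (hfs j).continuous p
    refine ⟨h1, ?_⟩
    rw [eLp_eq hp0 h1]
    apply ENNReal.ofReal_le_ofReal
    rw [hM]
    exact Real.rpow_le_rpow (integral_nonneg fun x => by positivity) (hfint j)
      (by positivity)) hclosed
  have huint : ∫ x in Om, ‖u x‖ ^ p ≤ T * W := by
    rw [eLp_eq hp0 hu1] at hu2
    have h1 : ENNReal.ofReal (C * M) ≤ ENNReal.ofReal (|C| * M) :=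
      ENNReal.ofReal_le_ofReal (mul_le_mul_of_nonneg_right (le_abs_self C) hM0)
    have h2 := (ENNReal.ofReal_le_ofReal_iff (by positivity)).1 (hu2.trans h1)
    have hI0 : 0 ≤ ∫ x in Om, ‖u x‖ ^ p := integral_nonneg fun x => by positivity
    have h3 : ((∫ x in Om, ‖u x‖ ^ p) ^ p⁻¹) ^ p ≤ (|C| * M) ^ p :=
      Real.rpow_le_rpow (by positivity) h2 hp0.le
    rw [← Real.rpow_mul hI0, inv_mul_cancel₀ hp0.ne', Real.rpow_one,
      Real.mul_rpow (abs_nonneg C) hM0, hMp, hA] at h3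
    calc ∫ x in Om, ‖u x‖ ^ p ≤ |C| ^ p * ((C0 ^ p * V + 1) * W) := h3
      _ = T * W := by rw [hT]; ring
  -- the holomorphic difference
  have hp1 : (1 : ENNReal) ≤ ENNReal.ofReal p := by
    rw [ENNReal.one_le_ofReal]
    linarith
  have hui : Integrable u (volume.restrict Om) := hu1.integrable hp1
  have hdiffi : Integrable (fun x => u x - V0 m v x) (volume.restrict Om) :=
    hui.sub ((memLp_cont hV0s.continuous p).integrable hp1)
  have hw : ∀ j : Fin 5, ∀ φ, IsTest Om φ → ∫ x in Om, (u x - V0 m v x) * dbar j φ x = 0 := by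
    intro j φ hφ
    obtain ⟨Kφ, hKφ⟩ := (hφ.hcs_dbar j).exists_bound_of_continuous (hφ.continuous_dbar j)
    have i1 : Integrable (fun x => u x * dbar j φ x) (volume.restrict Om) := by
      have := hui.bdd_mul (hφ.continuous_dbar j).aestronglyMeasurable
        (Filter.Eventually.of_forall hKφ)
      refine this.congr (Filter.Eventually.of_forall fun x => ?_)
      exact mul_comm _ _
    have i2 : Integrable (fun x => V0 m v x * dbar j φ x) (volume.restrict Om) :=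
      (integrable_mul_of_cs isOpen_Om hV0s.continuous.continuousOn (hφ.continuous_dbar j)
        (hφ.hcs_dbar j) (hφ.tsupport_dbar j)).integrableOn
    have e1 := hu3 j φ hφ
    have e2 := ibp isOpen_Om ((hV0s.of_le (by norm_cast)).contDiffOn) hφ j
    have : ∫ x in Om, (u x - V0 m v x) * dbar j φ x =
        (∫ x in Om, u x * dbar j φ x) - ∫ x in Om, V0 m v x * dbar j φ x := by
      rw [← integral_sub i1 i2]
      apply integral_congr_ae
      filter_upwards with x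
      ring
    rw [this, e1, e2]
    ring
  obtain ⟨H, hH, hHae⟩ := weyl' isOpen_Om (u := fun x => u x - V0 m v x) (by
    intro a r hsub
    have : IntegrableOn (fun x => u x - V0 m v x) Om := hdiffi
    exact this.mono_set hsub) hw
  -- the fibre integrals
  set gF : (Fin 5 → ℂ) → ℝ := Om.indicator (fun x => ‖V0 m v x + H x‖ ^ p) with hgF
  have haeF : ∀ᵐ x ∂(volume.restrict Om), ‖u x‖ ^ p = ‖V0 m v x + H x‖ ^ p := by
    filter_upwards [hHae] with x hx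
    rw [← hx]
    congr 2
    ring
  have hup : Integrable (fun x => ‖u x‖ ^ p) (volume.restrict Om) := by
    have := hu1.integrable_norm_rpow (by simpa using hp0) ENNReal.ofReal_ne_top
    rwa [ENNReal.toReal_ofReal hp0.le] at this
  have hFi : Integrable gF :=
    (integrable_indicator_iff isOpen_Om.measurableSet).2 (hup.congr haeF)
  have hgFint : ∫ x, gF x ≤ T * W := by
    rw [hgF, integral_indicator isOpen_Om.measurableSet, ← integral_congr_ae haeF]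
    exact huint
  have hFi2 : Integrable (fun q : ℂ × (Fin 4 → ℂ) => gF (cns q.1 q.2)) (volume.prod volume) :=
    integrable_cns.1 hFi
  have hae1 : ∀ᵐ w : ℂ, Integrable (fun z => gF (cns w z)) := hFi2.prod_right_ae
  have hΨi : Integrable (fun w : ℂ => ∫ z, gF (cns w z)) := hFi2.integral_prod_left
  have hΨint : ∫ w : ℂ, ∫ z, gF (cns w z) = ∫ x, gF x := by
    rw [int_cns gF, Measure.volume_eq_prod, integral_prod _ hFi2]
  have hgF0 : ∀ x, 0 ≤ gF x := fun x => indicator_nonneg (fun x _ => by positivity) x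
  obtain ⟨L, hL⟩ : ∃ L, L = ‖Lam B4 δ J N (fun z => uu B4 J N ((l * l) • z))‖ := ⟨_, rfl⟩
  rw [← hL] at hn
  obtain ⟨κ', hκ'⟩ : ∃ κ', κ' = 40 ^ 8 / (δ ^ 8 * κ0) := ⟨_, rfl⟩
  obtain ⟨P, hP⟩ : ∃ P, P = Real.sqrt J * Kd := ⟨_, rfl⟩
  have hP0 : 0 ≤ P := by rw [hP]; positivity
  have hi0 : (0 : ℝ) < i := by linarith
  have hfib : ∀ᵐ w ∂(volume.restrict (Metric.ball (0 : ℂ) 1)),
      (‖w‖ ^ m) ^ p * L ≤ ((i + C0) * (‖w‖ ^ m) ^ p + (i : ℝ) ^ (1 - p) * (κ' *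
        ∫ z, gF (cns w z))) * P := by
    have hne : ∀ᵐ w : ℂ, w ≠ 0 := by
      rw [ae_iff]
      simp
    filter_upwards [ae_restrict_of_ae hae1, ae_restrict_of_ae hne,
      ae_restrict_mem Metric.isOpen_ball.measurableSet] with w hw1 hw2 hw3
    rw [hL, hκ', hP]
    exact fibre hp hl0 hl1 hJ hN hNε hδ0 hδ1 hv hvu hC0 hbC hH hw3 hw2 hw1 hi0
  have hint1 : IntegrableOn (fun w : ℂ => (‖w‖ ^ m) ^ p) (Metric.ball 0 1) := Wm_intOn m hp0 1
  have hI := integral_mono_ae (hint1.mul_const L)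
    (((hint1.const_mul (i + C0)).add ((hΨi.integrableOn.const_mul κ').const_mul
      ((i : ℝ) ^ (1 - p)))).mul_const P) hfib
  have eL : ∫ w in Metric.ball (0 : ℂ) 1, (‖w‖ ^ m) ^ p * L = W * L := by
    rw [integral_mul_const, hW]
    rfl
  have eR : ∫ w in Metric.ball (0 : ℂ) 1, ((i + C0) * (‖w‖ ^ m) ^ p + (i : ℝ) ^ (1 - p) * (κ' *
      ∫ z, gF (cns w z))) * P = ((i + C0) * W + (i : ℝ) ^ (1 - p) * (κ' *
        ∫ w in Metric.ball (0 : ℂ) 1, ∫ z, gF (cns w z))) * P := by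
    rw [integral_mul_const, integral_add (hint1.const_mul (i + C0))
      ((hΨi.integrableOn.const_mul κ').const_mul ((i : ℝ) ^ (1 - p))), integral_const_mul,
      integral_const_mul, integral_const_mul, hW]
    rfl
  have hI2 : W * L ≤ ((i + C0) * W + (i : ℝ) ^ (1 - p) * (κ' *
        ∫ w in Metric.ball (0 : ℂ) 1, ∫ z, gF (cns w z))) * P := by
    rw [← eL, ← eR]
    exact hI
  have hΨle : ∫ w in Metric.ball (0 : ℂ) 1, ∫ z, gF (cns w z) ≤ T * W := by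
    refine (setIntegral_le_integral hΨi (Filter.Eventually.of_forall fun w =>
      integral_nonneg fun z => hgF0 _)).trans ?_
    rw [hΨint]
    exact hgFint
  have hκ'0 : 0 ≤ κ' := by rw [hκ']; positivity
  have hI3 : W * L ≤ W * (((i + C0) + (i : ℝ) ^ (1 - p) * (κ' * T)) * P) := by
    refine hI2.trans ?_
    calc ((i + C0) * W + (i : ℝ) ^ (1 - p) * (κ' *
        ∫ w in Metric.ball (0 : ℂ) 1, ∫ z, gF (cns w z))) * P ≤
        ((i + C0) * W + (i : ℝ) ^ (1 - p) * (κ' * (T * W))) * P := by gcongr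
      _ = _ := by ring
  have hI4 : L ≤ ((i + C0) + (i : ℝ) ^ (1 - p) * (κ' * T)) * P := le_of_mul_le_mul_left hI3 hW0
  have hcst : (i : ℝ) ^ (1 - p) * (κ' * T) ≤ K5 * T := by
    rw [hκ', hK5]
    exact const_ineq hp hi1' (by rw [hδ, hNd, hJd]) hT0
  have hsq : Real.sqrt J = (i : ℝ) ^ 2 := by
    rw [hJd]
    push_cast
    rw [show (i : ℝ) ^ 4 = ((i : ℝ) ^ 2) ^ 2 by ring]
    exact Real.sqrt_sq (by positivity)
  have hJi : (J : ℝ) = (i : ℝ) ^ 4 := by rw [hJd]; push_cast; ring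
  have hfin1 : (i : ℝ) ^ 4 * c3 / 2 < ((i + C0) + K5 * T) * ((i : ℝ) ^ 2 * Kd) := by
    have h1 : ((i + C0) + (i : ℝ) ^ (1 - p) * (κ' * T)) * P ≤ ((i + C0) + K5 * T) * P := by gcongr
    rw [hP, hsq] at h1 hI4
    rw [← hJi]
    exact hn.trans_le (hI4.trans h1)
  -- contradiction
  rw [div_lt_iff₀ hc30] at hiK
  have h5 : ((i + C0) + K5 * T) ≤ i * (1 + C0 + K5 * T) := by
    have : 0 ≤ K5 * T := by positivity
    nlinarith
  have h6 : ((i + C0) + K5 * T) * ((i : ℝ) ^ 2 * Kd) ≤ (i : ℝ) ^ 3 * (Kd * (1 + C0 + K5 * T)) := by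
    calc ((i + C0) + K5 * T) * ((i : ℝ) ^ 2 * Kd) ≤ (i * (1 + C0 + K5 * T)) * ((i : ℝ) ^ 2 * Kd) := by
          gcongr
      _ = _ := by ring
  have h7 : (i : ℝ) ^ 3 * (2 * (Kd * (1 + C0 + K5 * T))) < (i : ℝ) ^ 3 * (i * c3) := by gcongr
  nlinarith

end Pool.Agent.Helper303.Lp
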