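import Pool.Agent.Helper303.MbDefs

open MeasureTheory Set
open scoped ContDiff ComplexConjugate

set_option linter.unusedSectionVars false

namespace Pool.Agent.Helper303.Mb

/-- a real-linear map `T`: `T β + i T (iβ) = conj β (T 1 + i T i)` -/
lemma lin_conj (T : ℂ →L[ℝ] ℂ) (β : ℂ) :
    T β + Complex.I * T (Complex.I * β) = conj β * (T 1 + Complex.I * T Complex.I) := by
  have h1 : β = β.re • (1 : ℂ) + β.im • Complex.I := by
    apply Complex.ext <;> simp
  have h2 : Complex.I * β = (-β.im) • (1 : ℂ) + β.re • Complex.I := by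
    apply Complex.ext <;> simp
  have e1 : T β = β.re * T 1 + β.im * T Complex.I := by
    conv_lhs => rw [h1]
    rw [map_add, map_smul, map_smul]
    simp
  have e2 : T (Complex.I * β) = -β.im * T 1 + β.re * T Complex.I := by
    rw [h2, map_add, map_smul, map_smul]
    simp
  rw [e1, e2]
  have h3 : conj β = β.re - β.im * Complex.I := by
    apply Complex.ext <;> simp
  rw [h3]
  ring_nf
  rw [Complex.I_sq]
  ring

lemma cont_mul {X : Type*} [TopologicalSpace X] {Ω : Set X} (hΩ : IsOpen Ω) {f g : X → ℂ}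
    (hf : ContinuousOn f Ω) (hg : Continuous g) (hs : tsupport g ⊆ Ω) :
    Continuous (fun x => f x * g x) := by
  rw [continuous_iff_continuousAt]
  intro x
  by_cases hx : x ∈ Ω
  · exact (hf.continuousAt (hΩ.mem_nhds hx)).mul hg.continuousAt
  · have hx' : x ∈ (tsupport g)ᶜ := fun h => hx (hs h)
    have hev : (fun y => f y * g y) =ᶠ[nhds x] fun _ => 0 := by
      filter_upwards [(isClosed_tsupport g).isOpen_compl.mem_nhds hx'] with y hy
      rw [image_eq_zero_of_notMem_tsupport hy, mul_zero]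
    exact continuousAt_const.congr hev.symm

lemma integrable_mul_of_cs {ι : Type} [Fintype ι] {Ω : Set (ι → ℂ)} (hΩ : IsOpen Ω)
    {f g : (ι → ℂ) → ℂ}
    (hf : ContinuousOn f Ω) (hg : Continuous g) (hc : HasCompactSupport g) (hs : tsupport g ⊆ Ω) :
    Integrable (fun x => f x * g x) :=
  (cont_mul hΩ hf hg hs).integrable_of_hasCompactSupport (hc.mul_left (f := f))

variable {ι : Type} [Fintype ι] [DecidableEq ι]

lemma IsTest.continuous_fderiv {Ω : Set (ι → ℂ)} {φ : (ι → ℂ) → ℂ} (hφ : IsTest Ω φ)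
    (v : ι → ℂ) : Continuous fun x => fderiv ℝ φ x v :=
  (hφ.1.continuous_fderiv (by simp)).clm_apply continuous_const

lemma IsTest.hcs_fderiv {Ω : Set (ι → ℂ)} {φ : (ι → ℂ) → ℂ} (hφ : IsTest Ω φ)
    (v : ι → ℂ) : HasCompactSupport fun x => fderiv ℝ φ x v :=
  hφ.2.1.fderiv_apply (𝕜 := ℝ) v

lemma IsTest.tsupport_fderiv {Ω : Set (ι → ℂ)} {φ : (ι → ℂ) → ℂ} (hφ : IsTest Ω φ)
    (v : ι → ℂ) : tsupport (fun x => fderiv ℝ φ x v) ⊆ Ω :=
  (tsupport_fderiv_apply_subset ℝ v).trans hφ.2.2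

lemma IsTest.continuous_dbar {Ω : Set (ι → ℂ)} {φ : (ι → ℂ) → ℂ} (hφ : IsTest Ω φ)
    (k : ι) : Continuous (dbar k φ) :=
  ((hφ.continuous_fderiv _).add (continuous_const.mul (hφ.continuous_fderiv _))).div_const _

lemma dbar_eq_zero_of_notMem {φ : (ι → ℂ) → ℂ} {x : ι → ℂ} (hx : x ∉ tsupport φ)
    (k : ι) : dbar k φ x = 0 := by
  have h : fderiv ℝ φ x = 0 := by
    by_contra h
    exact hx (support_fderiv_subset ℝ h)
  simp [dbar, h]

lemma IsTest.tsupport_dbar {Ω : Set (ι → ℂ)} {φ : (ι → ℂ) → ℂ} (hφ : IsTest Ω φ)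
    (k : ι) : tsupport (dbar k φ) ⊆ Ω := by
  refine Subset.trans ?_ hφ.2.2
  apply closure_minimal _ (isClosed_tsupport φ)
  intro x hx
  by_contra h
  exact hx (dbar_eq_zero_of_notMem h k)

lemma IsTest.hcs_dbar {Ω : Set (ι → ℂ)} {φ : (ι → ℂ) → ℂ} (hφ : IsTest Ω φ)
    (k : ι) : HasCompactSupport (dbar k φ) := by
  apply HasCompactSupport.intro hφ.2.1
  intro x hx
  exact dbar_eq_zero_of_notMem hx k

/-- integration by parts -/
lemma ibp {Ω : Set (ι → ℂ)} (hΩ : IsOpen Ω) {f : (ι → ℂ) → ℂ}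
    (hf : ContDiffOn ℝ 1 f Ω) {φ : (ι → ℂ) → ℂ} (hφ : IsTest Ω φ) (k : ι) :
    ∫ x in Ω, f x * dbar k φ x = - ∫ x in Ω, dbar k f x * φ x := by
  have hfc : ContinuousOn f Ω := hf.continuousOn
  have hfd : ∀ v, ContinuousOn (fun x => fderiv ℝ f x v) Ω := fun v =>
    (hf.continuousOn_fderiv_of_isOpen hΩ le_rfl).clm_apply continuousOn_const
  have hI1 : ∀ v, Integrable fun x => f x * fderiv ℝ φ x v := fun v =>
    integrable_mul_of_cs hΩ hfc (hφ.continuous_fderiv v) (hφ.hcs_fderiv v) (hφ.tsupport_fderiv v)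
  have hI2 : ∀ v, Integrable fun x => fderiv ℝ f x v * φ x := fun v =>
    integrable_mul_of_cs hΩ (hfd v) hφ.1.continuous hφ.2.1 hφ.2.2
  have hI3 : Integrable fun x => f x * φ x :=
    integrable_mul_of_cs hΩ hfc hφ.1.continuous hφ.2.1 hφ.2.2
  have key : ∀ v, ∫ x, f x * fderiv ℝ φ x v = - ∫ x, fderiv ℝ f x v * φ x := fun v =>
    integral_mul_fderiv_eq_neg_fderiv_mul_of_integrable (hI2 v) (hI1 v) hI3
      (fun x hx => (hf.differentiableOn (by simp)).differentiableAt (hΩ.mem_nhds (hφ.2.2 hx)))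
      (fun x _ => hφ.1.differentiable (by simp) x)
  have h1 : ∫ x in Ω, f x * dbar k φ x = ∫ x, f x * dbar k φ x := by
    apply setIntegral_eq_integral_of_forall_compl_eq_zero
    intro x hx
    rw [dbar_eq_zero_of_notMem (fun h => hx (hφ.2.2 h)), mul_zero]
  have h2 : ∫ x in Ω, dbar k f x * φ x = ∫ x, dbar k f x * φ x := by
    apply setIntegral_eq_integral_of_forall_compl_eq_zero
    intro x hx
    rw [image_eq_zero_of_notMem_tsupport (fun h => hx (hφ.2.2 h)), mul_zero]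
  rw [h1, h2]
  have e1 : ∀ x, f x * dbar k φ x = (1 / 2 : ℂ) * (f x * fderiv ℝ φ x (Pi.single k 1)) +
      (Complex.I / 2) * (f x * fderiv ℝ φ x (Pi.single k Complex.I)) := by
    intro x
    simp only [dbar]
    ring
  have e2 : ∀ x, dbar k f x * φ x = (1 / 2 : ℂ) * (fderiv ℝ f x (Pi.single k 1) * φ x) +
      (Complex.I / 2) * (fderiv ℝ f x (Pi.single k Complex.I) * φ x) := by
    intro x
    simp only [dbar]
    ring
  simp_rw [e1, e2]
  rw [integral_add ((hI1 _).const_mul _) ((hI1 _).const_mul _),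
    integral_add ((hI2 _).const_mul _) ((hI2 _).const_mul _),
    integral_const_mul, integral_const_mul, integral_const_mul, integral_const_mul, key, key]
  ring

/-- classical closed forms are weakly closed -/
lemma dbarClosed_of_classical {Ω : Set (ι → ℂ)} (hΩ : IsOpen Ω)
    {f : (ι → ℂ) → (ι → ℂ)} (hf : ∀ j, ContDiffOn ℝ 1 (fun x => f x j) Ω)
    (h : ∀ x ∈ Ω, ∀ j k, dbar k (fun x => f x j) x = dbar j (fun x => f x k) x) :
    DbarClosed Ω f := by
  intro j k φ hφ
  rw [ibp hΩ (hf j) hφ k, ibp hΩ (hf k) hφ j]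
  congr 1
  apply setIntegral_congr_fun hΩ.measurableSet
  intro x hx
  simp only
  rw [h x hx j k]

/-- symmetry of second derivatives -/
lemma dbar_comm {φ : (ι → ℂ) → ℂ} {x : ι → ℂ} (h : ContDiffAt ℝ 2 φ x) (j k : ι) :
    dbar j (dbar k φ) x = dbar k (dbar j φ) x := by
  have hs : IsSymmSndFDerivAt ℝ φ x := h.isSymmSndFDerivAt (by simp)
  have hd : DifferentiableAt ℝ (fderiv ℝ φ) x :=
    (h.fderiv_right (m := 1) (by norm_num)).differentiableAt (by simp)
  have h1 : ∀ v w : ι → ℂ, fderiv ℝ (fun y => fderiv ℝ φ y v) x w =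
      fderiv ℝ (fderiv ℝ φ) x w v := by
    intro v w
    have := (hd.hasFDerivAt.clm_apply (hasFDerivAt_const v x)).fderiv
    rw [this]
    simp
  have h2 : ∀ k : ι, ∀ w, fderiv ℝ (dbar k φ) x w =
      (fderiv ℝ (fderiv ℝ φ) x w (Pi.single k 1) +
        Complex.I * fderiv ℝ (fderiv ℝ φ) x w (Pi.single k Complex.I)) / 2 := by
    intro k w
    have hv : ∀ v : ι → ℂ, DifferentiableAt ℝ (fun y => fderiv ℝ φ y v) x := fun v =>
      hd.clm_apply (differentiableAt_const v)
    have e : dbar k φ = fun y => (1 / 2 : ℂ) * (fderiv ℝ φ y (Pi.single k 1) +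
        Complex.I * fderiv ℝ φ y (Pi.single k Complex.I)) := by
      funext y
      unfold dbar
      ring
    rw [e]
    have := (((hv (Pi.single k 1)).hasFDerivAt.fun_add
      ((hv (Pi.single k Complex.I)).hasFDerivAt.const_mul Complex.I)).const_mul (1 / 2 : ℂ)).fderiv
    rw [this]
    simp only [smul_apply, add_apply, smul_eq_mul, h1]
    ring
  have h3 : ∀ v w, fderiv ℝ (fderiv ℝ φ) x v w = fderiv ℝ (fderiv ℝ φ) x w v := fun v w => hs v w
  conv_lhs => unfold dbar
  conv_rhs => unfold dbar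
  simp only [← show dbar k φ = fun x => (fderiv ℝ φ x (Pi.single k 1) + Complex.I * fderiv ℝ φ x (Pi.single k Complex.I)) / 2 from rfl,
    ← show dbar j φ = fun x => (fderiv ℝ φ x (Pi.single j 1) + Complex.I * fderiv ℝ φ x (Pi.single j Complex.I)) / 2 from rfl]
  rw [h2, h2, h2, h2, h3 (Pi.single j 1) (Pi.single k 1), h3 (Pi.single j 1) (Pi.single k Complex.I),
    h3 (Pi.single j Complex.I) (Pi.single k 1), h3 (Pi.single j Complex.I) (Pi.single k Complex.I)]
  ring

end Pool.Agent.Helper303.Mb
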