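import Pool.Agent.Helper303.MbMean
import Pool.Agent.Helper303.MbCalc

open MeasureTheory Set Complex
open scoped ContDiff ComplexConjugate Topology Real

set_option linter.unusedSectionVars false

namespace Pool.Agent.Helper303.Lp

open Pool.Agent.Helper303.Mb

/-- circle mean inequality -/
lemma circ_ineq {f : ℂ → ℂ} {R : ℝ} (hR : 1 < R)
    (hf : ∀ ζ ∈ Metric.ball (0 : ℂ) R, ContDiffAt ℝ 1 f ζ) {c : ℝ}
    (hc : ∀ ζ ∈ Metric.ball (0 : ℂ) R, ‖fderiv ℝ f ζ 1 + I * fderiv ℝ f ζ I‖ ≤ 2 * c) :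
    ‖(∫ θ in (0 : ℝ)..(2 * π), f (exp (θ * I))) - 2 * π * f 0‖ ≤ 2 * π * (2 * c) := by
  set R1 := (1 + R) / 2 with hR1
  have hR11 : 1 < R1 := by rw [hR1]; linarith
  have hR1R : R1 < R := by rw [hR1]; linarith
  have hpi : (0 : ℝ) < 2 * π := by positivity
  have hmem : ∀ {s : ℝ}, |s| ≤ R1 → ∀ θ : ℝ, (s : ℂ) * exp (θ * I) ∈ Metric.closedBall (0 : ℂ) R1 := by
    intro s hs θ
    rw [mem_closedBall_zero_iff, norm_mul, norm_exp_ofReal_mul_I, mul_one, norm_real]
    exact hs
  have hsub : Metric.closedBall (0 : ℂ) R1 ⊆ Metric.ball 0 R := Metric.closedBall_subset_ball hR1R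
  have hfc : ContinuousOn f (Metric.ball 0 R) := fun ζ hζ => (hf ζ hζ).continuousAt.continuousWithinAt
  have hcd : ContDiffOn ℝ 1 f (Metric.ball 0 R) := fun ζ hζ => (hf ζ hζ).contDiffWithinAt
  have hfd : ContinuousOn (fderiv ℝ f) (Metric.ball 0 R) :=
    hcd.continuousOn_fderiv_of_isOpen Metric.isOpen_ball le_rfl
  obtain ⟨K, hK⟩ := (isCompact_closedBall (0 : ℂ) R1).exists_bound_of_continuousOn (hfd.mono hsub)
  have hec : Continuous fun θ : ℝ => exp (θ * I) := by fun_prop
  -- continuity in θ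
  have hcθ : ∀ {s : ℝ}, |s| ≤ R1 → Continuous fun θ : ℝ => f ((s : ℂ) * exp (θ * I)) := by
    intro s hs
    exact hfc.comp_continuous (by fun_prop) (fun θ => hsub (hmem hs θ))
  have hcθ' : ∀ {s : ℝ}, |s| ≤ R1 → ∀ v : ℝ → ℂ, Continuous v →
      Continuous fun θ : ℝ => fderiv ℝ f ((s : ℂ) * exp (θ * I)) (v θ) := by
    intro s hs v hv
    have h1 : Continuous fun θ : ℝ => fderiv ℝ f ((s : ℂ) * exp (θ * I)) :=
      hfd.comp_continuous (by fun_prop) (fun θ => hsub (hmem hs θ))
    exact h1.clm_apply hv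
  set M : ℝ → ℂ := fun s => ∫ θ in (0 : ℝ)..(2 * π), f ((s : ℂ) * exp (θ * I)) with hM
  have hderiv : ∀ s ∈ Ioo (-R1) R1, HasDerivAt M
      (∫ θ in (0 : ℝ)..(2 * π), fderiv ℝ f ((s : ℂ) * exp (θ * I)) (exp (θ * I))) s := by
    intro s hs
    have habs : ∀ t ∈ Ioo (-R1) R1, |t| ≤ R1 := fun t ht => (abs_lt.2 ht).le
    have h := intervalIntegral.hasDerivAt_integral_of_dominated_loc_of_deriv_le (μ := volume)
      (F := fun (s : ℝ) (θ : ℝ) => f ((s : ℂ) * exp (θ * I)))
      (F' := fun (s : ℝ) (θ : ℝ) => fderiv ℝ f ((s : ℂ) * exp (θ * I)) (exp (θ * I)))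
      (x₀ := s) (a := 0) (b := 2 * π) (bound := fun _ => K) (s := Ioo (-R1) R1)
      (isOpen_Ioo.mem_nhds hs)
      (by
        filter_upwards [isOpen_Ioo.mem_nhds hs] with t ht
        exact (hcθ (habs t ht)).aestronglyMeasurable)
      ((hcθ (habs s hs)).intervalIntegrable _ _)
      ((hcθ' (habs s hs) _ hec).aestronglyMeasurable)
      (by
        filter_upwards with θ _ t ht
        refine ((fderiv ℝ f ((t : ℂ) * exp (θ * I))).le_opNorm _).trans ?_
        rw [norm_exp_ofReal_mul_I, mul_one]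
        exact hK _ (hmem (habs t ht) θ))
      (by simp)
      (by
        filter_upwards with θ _ t ht
        have h1 : HasFDerivAt f (fderiv ℝ f ((t : ℂ) * exp (θ * I))) ((t : ℂ) * exp (θ * I)) :=
          ((hf _ (hsub (hmem (habs t ht) θ))).differentiableAt (by simp)).hasFDerivAt
        have h2 : HasDerivAt (fun t : ℝ => (t : ℂ) * exp (θ * I)) (exp (θ * I)) t := by
          have := (ofRealCLM.hasDerivAt (x := t)).mul_const (exp (θ * I))
          simpa using this
        exact h1.comp_hasDerivAt t h2)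
    exact h.2
  -- the angular part
  have hang : ∀ s ∈ Icc (0 : ℝ) 1,
      ∫ θ in (0 : ℝ)..(2 * π), fderiv ℝ f ((s : ℂ) * exp (θ * I)) (I * exp (θ * I)) = 0 := by
    intro s hs
    have habs : |s| ≤ R1 := by rw [abs_of_nonneg hs.1]; linarith [hs.2]
    rcases eq_or_ne s 0 with h0 | h0
    · subst h0
      simp only [ofReal_zero, zero_mul]
      rw [ContinuousLinearMap.intervalIntegral_comp_comm (μ := volume) (fderiv ℝ f 0)
        (f := fun θ : ℝ => I * exp (θ * I)) (by
          apply Continuous.intervalIntegrable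
          fun_prop)]
      have : ∫ θ in (0 : ℝ)..(2 * π), I * exp (θ * I) = 0 := by
        have h1 : ∀ θ ∈ uIcc (0 : ℝ) (2 * π), HasDerivAt (fun θ : ℝ => exp (θ * I))
            (I * exp (θ * I)) θ := by
          intro θ _
          have h2 := ((ofRealCLM.hasDerivAt (x := θ)).mul_const I).cexp
          simp only [ofRealCLM_apply, ofReal_one, one_mul] at h2
          rw [mul_comm]
          exact h2
        rw [intervalIntegral.integral_eq_sub_of_hasDerivAt h1
          (by apply Continuous.intervalIntegrable; fun_prop)]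
        push_cast
        rw [exp_two_pi_mul_I]
        simp
      rw [this, map_zero]
    · have h1 : ∀ θ ∈ uIcc (0 : ℝ) (2 * π), HasDerivAt (fun θ : ℝ => f ((s : ℂ) * exp (θ * I)))
          (fderiv ℝ f ((s : ℂ) * exp (θ * I)) (s * (I * exp (θ * I)))) θ := by
        intro θ _
        have h1 : HasFDerivAt f (fderiv ℝ f ((s : ℂ) * exp (θ * I))) ((s : ℂ) * exp (θ * I)) :=
          ((hf _ (hsub (hmem habs θ))).differentiableAt (by simp)).hasFDerivAt
        have h2 : HasDerivAt (fun θ : ℝ => (s : ℂ) * exp (θ * I)) (s * (I * exp (θ * I))) θ := by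
          have h3 := ((ofRealCLM.hasDerivAt (x := θ)).mul_const I).cexp.const_mul (s : ℂ)
          simp only [ofRealCLM_apply, ofReal_one, one_mul] at h3
          rw [mul_comm I]
          exact h3
        exact h1.comp_hasDerivAt θ h2
      have h2 := intervalIntegral.integral_eq_sub_of_hasDerivAt h1
        ((hcθ' habs _ (by fun_prop)).intervalIntegrable _ _)
      have h3 : f ((s : ℂ) * exp (((2 * π : ℝ) : ℂ) * I)) - f ((s : ℂ) * exp (((0 : ℝ) : ℂ) * I)) = 0 := by
        push_cast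
        rw [exp_two_pi_mul_I]
        simp
      rw [h3] at h2
      have h4 : ∀ θ : ℝ, fderiv ℝ f ((s : ℂ) * exp (θ * I)) (s * (I * exp (θ * I))) =
          (s : ℂ) * fderiv ℝ f ((s : ℂ) * exp (θ * I)) (I * exp (θ * I)) := by
        intro θ
        have : (s : ℂ) * (I * exp (θ * I)) = s • (I * exp (θ * I)) := by rw [real_smul]
        rw [this, map_smul, real_smul]
      simp only [h4] at h2
      rw [intervalIntegral.integral_const_mul] at h2
      rcases mul_eq_zero.1 h2 with h5 | h5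
      · exact absurd (by exact_mod_cast h5) h0
      · exact h5
  have hMbound : ∀ s ∈ Ico (0 : ℝ) 1,
      ‖∫ θ in (0 : ℝ)..(2 * π), fderiv ℝ f ((s : ℂ) * exp (θ * I)) (exp (θ * I))‖ ≤
        2 * π * (2 * c) := by
    intro s hs
    have habs : |s| ≤ R1 := by rw [abs_of_nonneg hs.1]; linarith [hs.2]
    have h1 : ∀ θ : ℝ, fderiv ℝ f ((s : ℂ) * exp (θ * I)) (exp (θ * I)) =
        conj (exp (θ * I)) * (fderiv ℝ f ((s : ℂ) * exp (θ * I)) 1 +
          I * fderiv ℝ f ((s : ℂ) * exp (θ * I)) I) -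
        I * fderiv ℝ f ((s : ℂ) * exp (θ * I)) (I * exp (θ * I)) := by
      intro θ
      rw [← lin_conj]
      ring
    simp only [h1]
    have hc1 := hcθ' habs _ (continuous_const (y := (1 : ℂ)))
    have hc2 := hcθ' habs _ (continuous_const (y := I))
    have hc3 := hcθ' habs (fun θ : ℝ => I * exp (θ * I)) (by fun_prop)
    have hc4 : Continuous fun θ : ℝ => conj (exp (θ * I)) := continuous_conj.comp hec
    rw [intervalIntegral.integral_sub, intervalIntegral.integral_const_mul, hang s ⟨hs.1, hs.2.le⟩,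
      mul_zero, sub_zero]
    · have h2 := intervalIntegral.norm_integral_le_of_norm_le_const (a := 0) (b := 2 * π) (C := 2 * c)
        (f := fun θ : ℝ => conj (exp (θ * I)) * (fderiv ℝ f ((s : ℂ) * exp (θ * I)) 1 +
          I * fderiv ℝ f ((s : ℂ) * exp (θ * I)) I)) (by
          intro θ _
          rw [norm_mul, norm_conj, norm_exp_ofReal_mul_I, one_mul]
          exact hc _ (hsub (hmem habs θ)))
      rw [sub_zero, abs_of_pos hpi] at h2
      linarith
    · exact (hc4.mul (hc1.add (continuous_const.mul hc2))).intervalIntegrable _ _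
    · exact (continuous_const.mul hc3).intervalIntegrable _ _
  have hfin := norm_image_sub_le_of_norm_deriv_right_le_segment (f := M)
    (f' := fun s => ∫ θ in (0 : ℝ)..(2 * π), fderiv ℝ f ((s : ℂ) * exp (θ * I)) (exp (θ * I)))
    (a := 0) (b := 1) (C := 2 * π * (2 * c))
    (fun s hs => (hderiv s ⟨by linarith [hs.1], by linarith [hs.2]⟩).continuousAt.continuousWithinAt)
    (fun s hs => (hderiv s ⟨by linarith [hs.1], by linarith [hs.2]⟩).hasDerivWithinAt)
    (fun s hs => hMbound s hs) 1 ⟨zero_le_one, le_rfl⟩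
  have e1 : M 1 = ∫ θ in (0 : ℝ)..(2 * π), f (exp (θ * I)) := by
    simp only [hM, ofReal_one, one_mul]
  have e0 : M 0 = 2 * π * f 0 := by
    simp only [hM, ofReal_zero, zero_mul, intervalIntegral.integral_const, sub_zero, real_smul]
    push_cast
    ring
  rw [e1, e0, sub_zero, mul_one] at hfin
  exact hfin

variable {ι : Type} [Fintype ι] [DecidableEq ι]

/-- directional form of `∂̄` -/
lemma dbar_dir (F : (ι → ℂ) → ℂ) (z v : ι → ℂ) :
    fderiv ℝ F z v + I * fderiv ℝ F z (I • v) = ∑ k, conj (v k) * (2 * dbar k F z) := by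
  have e : ∀ w : ι → ℂ, w = ∑ k, Pi.single k (w k) := fun w => (Finset.univ_sum_single w).symm
  have h1 : fderiv ℝ F z v = ∑ k, fderiv ℝ F z (Pi.single k (v k)) := by
    conv_lhs => rw [e v]
    rw [map_sum]
  have h2 : fderiv ℝ F z (I • v) = ∑ k, fderiv ℝ F z (Pi.single k (I * v k)) := by
    conv_lhs => rw [e (I • v)]
    rw [map_sum]
    rfl
  rw [h1, h2, Finset.mul_sum, ← Finset.sum_add_distrib]
  apply Finset.sum_congr rfl
  intro k _
  have h3 := lin_conj ((fderiv ℝ F z).comp (ContinuousLinearMap.single ℝ (fun _ : ι => ℂ) k)) (v k)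
  simp only [ContinuousLinearMap.comp_apply, ContinuousLinearMap.single_apply] at h3
  rw [h3]
  unfold dbar
  ring

/-- mean value inequality for functions with bounded `∂̄` -/
lemma mv_ineq {F : (ι → ℂ) → ℂ} {x : ι → ℂ} {r r' : ℝ} (hr : 0 < r) (hr' : r < r')
    (hF : ∀ y ∈ Metric.ball x r', ContDiffAt ℝ 1 F y) {C1 : ℝ}
    (hC1 : ∀ y ∈ Metric.ball x r', ∀ k, ‖dbar k F y‖ ≤ C1) {χ : (ι → ℂ) → ℝ}
    (hχ : Continuous χ) (hχc : HasCompactSupport χ) (hχs : tsupport χ ⊆ Metric.closedBall 0 r)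
    (hχ0 : ∀ y, 0 ≤ χ y)
    (hχr : ∀ (θ : ℝ) y, χ (rot θ y) = χ y) (hχ1 : ∫ y, χ y = 1) :
    ‖(∫ y, F (x - y) * ((χ y : ℝ) : ℂ)) - F x‖ ≤ 2 * (r * Fintype.card ι * C1) := by
  have hsubr : Metric.closedBall x r ⊆ Metric.ball x r' := Metric.closedBall_subset_ball hr'
  let K : ℝ × (ι → ℂ) → ℂ := fun q => F (x - rot q.1 q.2) * ((χ q.2 : ℝ) : ℂ)
  have hrc : Continuous fun q : ℝ × (ι → ℂ) => rot q.1 q.2 := by
    unfold rot
    fun_prop
  have hKc : Continuous K := by
    rw [continuous_iff_continuousAt]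
    rintro ⟨θ, y⟩
    by_cases hy : y ∈ tsupport χ
    · have h1 : x - rot θ y ∈ Metric.closedBall x r := by
        rw [mem_closedBall_iff_norm, sub_sub_cancel_left, norm_neg, rot_norm]
        exact mem_closedBall_zero_iff.1 (hχs hy)
      have h2 : ContinuousAt F (x - rot θ y) := (hF _ (hsubr h1)).continuousAt
      have h3 : ContinuousAt (fun q : ℝ × (ι → ℂ) => F (x - rot q.1 q.2)) (θ, y) :=
        ContinuousAt.comp (g := F) (f := fun q : ℝ × (ι → ℂ) => x - rot q.1 q.2) h2
          (continuous_const.sub hrc).continuousAt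
      exact h3.mul (Complex.continuous_ofReal.comp (hχ.comp continuous_snd)).continuousAt
    · have hev : K =ᶠ[𝓝 (θ, y)] fun _ => 0 := by
        have ho : IsOpen {q : ℝ × (ι → ℂ) | q.2 ∈ (tsupport χ)ᶜ} :=
          (isClosed_tsupport χ).isOpen_compl.preimage continuous_snd
        filter_upwards [ho.mem_nhds hy] with q hq
        simp only [K]
        rw [image_eq_zero_of_notMem_tsupport hq]
        simp
      exact continuousAt_const.congr hev.symm
  have hpi : (0 : ℝ) ≤ 2 * π := by positivity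
  have hKi : Integrable K ((volume.restrict (Ioc 0 (2 * π))).prod volume) := by
    have h1 : IntegrableOn K (Icc 0 (2 * π) ×ˢ tsupport χ) (volume.prod volume) :=
      hKc.continuousOn.integrableOn_compact (isCompact_Icc.prod hχc)
    have h2 : IntegrableOn K (Ioc 0 (2 * π) ×ˢ tsupport χ) (volume.prod volume) :=
      h1.mono_set (prod_mono Ioc_subset_Icc_self subset_rfl)
    have h3 : IntegrableOn K (Ioc 0 (2 * π) ×ˢ (univ : Set (ι → ℂ))) (volume.prod volume) := by
      apply h2.of_forall_sdiff_eq_zero (measurableSet_Ioc.prod MeasurableSet.univ)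
      rintro ⟨θ, y⟩ hy
      have hy' : y ∉ tsupport χ := fun h => hy.2 ⟨hy.1.1, h⟩
      simp only [K]
      rw [image_eq_zero_of_notMem_tsupport hy']
      simp
    unfold IntegrableOn at h3
    rwa [← Measure.prod_restrict, Measure.restrict_univ] at h3
  -- all rotations give the same integral
  have hA : ∀ θ : ℝ, ∫ y, K (θ, y) = ∫ y, F (x - y) * ((χ y : ℝ) : ℂ) := by
    intro θ
    have h := (rot_mp (ι := ι) θ).integral_comp (rot_emb θ) (fun y => F (x - y) * ((χ y : ℝ) : ℂ))
    rw [← h]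
    simp only [K]
    congr 1
    funext y
    rw [hχr]
  -- average over the circle
  have hB : ∀ y, ‖(∫ θ in Ioc 0 (2 * π), K (θ, y)) - 2 * π * F x * ((χ y : ℝ) : ℂ)‖ ≤
      2 * π * (2 * (r * Fintype.card ι * C1)) * χ y := by
    intro y
    by_cases hy : y ∈ tsupport χ
    · have hyr : ‖y‖ ≤ r := mem_closedBall_zero_iff.1 (hχs hy)
      have hR : 1 < r' / r := by rwa [one_lt_div hr]
      have hball : ∀ ζ ∈ Metric.ball (0 : ℂ) (r' / r), x - ζ • y ∈ Metric.ball x r' := by
        intro ζ hζ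
        rw [mem_ball_iff_norm, sub_sub_cancel_left, norm_neg, norm_smul]
        have h3 := mem_ball_zero_iff.1 hζ
        rw [lt_div_iff₀ hr] at h3
        calc ‖ζ‖ * ‖y‖ ≤ ‖ζ‖ * r := by gcongr
          _ < r' := h3
      have hlin : ∀ ζ : ℂ, HasFDerivAt (fun ζ : ℂ => x - ζ • y)
          (-(ContinuousLinearMap.smulRight (1 : ℂ →L[ℝ] ℂ) y)) ζ := by
        intro ζ
        have h1 : HasFDerivAt (fun ζ : ℂ => ζ • y)
            (ContinuousLinearMap.smulRight (1 : ℂ →L[ℝ] ℂ) y) ζ :=
          (ContinuousLinearMap.smulRight (1 : ℂ →L[ℝ] ℂ) y).hasFDerivAt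
        exact h1.const_sub x
      have hdf : ∀ ζ ∈ Metric.ball (0 : ℂ) (r' / r), ContDiffAt ℝ 1 (fun ζ : ℂ => F (x - ζ • y)) ζ := by
        intro ζ hζ
        have h1 : ContDiffAt ℝ 1 (fun ζ : ℂ => x - ζ • y) ζ :=
          contDiffAt_const.sub (contDiffAt_id.smul contDiffAt_const)
        exact ContDiffAt.comp ζ (g := F) (f := fun ζ : ℂ => x - ζ • y) (hF _ (hball ζ hζ)) h1
      have hdc : ∀ ζ ∈ Metric.ball (0 : ℂ) (r' / r),
          ‖fderiv ℝ (fun ζ : ℂ => F (x - ζ • y)) ζ 1 +
            I * fderiv ℝ (fun ζ : ℂ => F (x - ζ • y)) ζ I‖ ≤ 2 * (r * Fintype.card ι * C1) := by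
        intro ζ hζ
        have h1 : HasFDerivAt F (fderiv ℝ F (x - ζ • y)) (x - ζ • y) :=
          ((hF _ (hball ζ hζ)).differentiableAt (by simp)).hasFDerivAt
        have h2 : HasFDerivAt (fun ζ : ℂ => F (x - ζ • y)) ((fderiv ℝ F (x - ζ • y)).comp
          (-(ContinuousLinearMap.smulRight (1 : ℂ →L[ℝ] ℂ) y))) ζ :=
          HasFDerivAt.comp ζ (g := F) (f := fun ζ : ℂ => x - ζ • y) h1 (hlin ζ)
        rw [h2.fderiv]
        have h3 : ((fderiv ℝ F (x - ζ • y)).comp
            (-(ContinuousLinearMap.smulRight (1 : ℂ →L[ℝ] ℂ) y))) 1 = fderiv ℝ F (x - ζ • y) (-y) := by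
          simp
        have h4 : ((fderiv ℝ F (x - ζ • y)).comp
            (-(ContinuousLinearMap.smulRight (1 : ℂ →L[ℝ] ℂ) y))) I =
            fderiv ℝ F (x - ζ • y) (I • (-y)) := by
          simp
        rw [h3, h4, dbar_dir]
        refine (norm_sum_le _ _).trans ?_
        have h5 : ∀ k ∈ (Finset.univ : Finset ι),
            ‖conj ((-y) k) * (2 * dbar k F (x - ζ • y))‖ ≤ r * (2 * C1) := by
          intro k _
          rw [norm_mul, norm_conj, norm_mul]
          have h6 : ‖(-y) k‖ ≤ r := (norm_le_pi_norm (-y) k).trans (by rwa [norm_neg])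
          have h7 : ‖(2 : ℂ)‖ = 2 := by simp
          rw [h7]
          have h8 := hC1 _ (hball ζ hζ) k
          gcongr
        refine (Finset.sum_le_sum h5).trans (le_of_eq ?_)
        rw [Finset.sum_const, nsmul_eq_mul, Finset.card_univ]
        ring
      have h := circ_ineq hR hdf hdc
      rw [zero_smul, sub_zero] at h
      have e2 : ∫ θ in Ioc 0 (2 * π), K (θ, y) =
          (∫ θ in (0 : ℝ)..2 * π, F (x - Complex.exp (θ * Complex.I) • y)) * ((χ y : ℝ) : ℂ) := by
        rw [intervalIntegral.integral_of_le hpi, ← integral_mul_const]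
        rfl
      rw [e2, ← sub_mul, norm_mul, norm_real, Real.norm_eq_abs, abs_of_nonneg (hχ0 y)]
      exact mul_le_mul_of_nonneg_right h (hχ0 y)
    · simp only [K]
      rw [image_eq_zero_of_notMem_tsupport hy]
      simp
  have hswap := integral_integral_swap (f := fun θ y => K (θ, y)) hKi
  simp_rw [hA] at hswap
  rw [integral_const] at hswap
  simp only [MeasurableSet.univ, measureReal_restrict_apply, univ_inter, Real.volume_real_Ioc,
    sub_zero] at hswap
  rw [max_eq_left hpi, Complex.real_smul] at hswap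
  have hχi : Integrable χ := hχ.integrable_of_hasCompactSupport hχc
  have hχiC : Integrable (fun y => 2 * π * F x * ((χ y : ℝ) : ℂ)) := (hχi.ofReal).const_mul _
  have hKi2 : Integrable (fun y => ∫ θ in Ioc 0 (2 * π), K (θ, y)) := hKi.integral_prod_right
  have h4 : ∫ y, 2 * π * F x * ((χ y : ℝ) : ℂ) = 2 * π * F x := by
    rw [integral_const_mul, integral_complex_ofReal, hχ1]
    simp
  have h5 : ‖(∫ y, ∫ θ in Ioc 0 (2 * π), K (θ, y)) - 2 * π * F x‖ ≤
      2 * π * (2 * (r * Fintype.card ι * C1)) := by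
    rw [← h4, ← integral_sub hKi2 hχiC]
    refine (norm_integral_le_of_norm_le (hχi.const_mul _) (Filter.Eventually.of_forall hB)).trans ?_
    rw [integral_const_mul, hχ1, mul_one]
  rw [← hswap] at h5
  have h6 : ((2 * π : ℝ) : ℂ) * (∫ y, F (x - y) * ((χ y : ℝ) : ℂ)) - 2 * π * F x =
      ((2 * π : ℝ) : ℂ) * ((∫ y, F (x - y) * ((χ y : ℝ) : ℂ)) - F x) := by
    push_cast
    ring
  rw [h6, norm_mul, norm_real, Real.norm_eq_abs, abs_of_nonneg hpi] at h5
  exact le_of_mul_le_mul_left h5 (by positivity)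

end Pool.Agent.Helper303.Lp
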