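import Pool.Agent.Helper303.LpH

open MeasureTheory Set Complex
open scoped Real Topology ComplexConjugate ContDiff

set_option linter.unusedSectionVars false

namespace Pool.Agent.Helper303.Lp

open Pool.Agent.Helper303.Mb

/-- put the first coordinate in front -/
def cns (w : ℂ) (z : Fin 4 → ℂ) : Fin 5 → ℂ := Fin.cons w z

lemma cns_zero (w : ℂ) (z : Fin 4 → ℂ) : cns w z 0 = w := rfl

lemma tl_cns (w : ℂ) (z : Fin 4 → ℂ) : tl (cns w z) = z := rfl

lemma cns_tl (x : Fin 5 → ℂ) : cns (x 0) (tl x) = x := Fin.cons_self_tail x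

lemma cns_cont : Continuous fun q : ℂ × (Fin 4 → ℂ) => cns q.1 q.2 := by
  apply continuous_pi
  intro i
  refine Fin.cases ?_ (fun j => ?_) i
  · exact continuous_fst
  · exact (continuous_apply j).comp continuous_snd

lemma mp_cns : MeasurePreserving (fun x : Fin 5 → ℂ => (x 0, tl x))
    volume (volume : Measure (ℂ × (Fin 4 → ℂ))) :=
  volume_preserving_piFinSuccAbove (fun _ : Fin 5 => ℂ) 0

lemma emb_cns : MeasurableEmbedding (fun x : Fin 5 → ℂ => (x 0, tl x)) :=
  (MeasurableEquiv.piFinSuccAbove (fun _ : Fin 5 => ℂ) 0).measurableEmbedding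

lemma int_cns {E : Type*} [NormedAddCommGroup E] [NormedSpace ℝ E] (f : (Fin 5 → ℂ) → E) :
    ∫ x, f x = ∫ q : ℂ × (Fin 4 → ℂ), f (cns q.1 q.2) := by
  rw [← mp_cns.integral_comp emb_cns]
  simp only [cns_tl]

lemma integrable_cns {E : Type*} [NormedAddCommGroup E] {f : (Fin 5 → ℂ) → E} :
    Integrable f ↔ Integrable (fun q : ℂ × (Fin 4 → ℂ) => f (cns q.1 q.2)) := by
  rw [← mp_cns.integrable_comp_emb emb_cns]
  have : ((fun q : ℂ × (Fin 4 → ℂ) => f (cns q.1 q.2)) ∘ fun x : Fin 5 → ℂ => (x 0, tl x)) = f := by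
    funext x
    simp only [Function.comp_apply, cns_tl]
  rw [this]

/-- radius of the fibre -/
noncomputable def Rz (z : Fin 4 → ℂ) : ℝ := Real.sqrt (1 - hh z)

lemma Rz_nonneg (z : Fin 4 → ℂ) : 0 ≤ Rz z := Real.sqrt_nonneg _

lemma Rz_le (z : Fin 4 → ℂ) : Rz z ≤ 1 := by
  unfold Rz
  rw [Real.sqrt_le_iff]
  exact ⟨zero_le_one, by linarith [hh_nonneg z]⟩

lemma Rz_cont : Continuous Rz :=
  Real.continuous_sqrt.comp (continuous_const.sub hh_smooth.continuous)

lemma mem_Om_iff (w : ℂ) (z : Fin 4 → ℂ) : cns w z ∈ Om ↔ w ∈ Metric.ball (0 : ℂ) (Rz z) := by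
  rw [mem_ball_zero_iff]
  unfold Rz
  rw [Real.lt_sqrt (norm_nonneg w)]
  show normSq (cns w z 0) + hh (tl (cns w z)) - 1 < 0 ↔ _
  rw [cns_zero, tl_cns, normSq_eq_norm_sq]
  constructor
  · intro h
    linarith
  · intro h
    linarith

/-- the mass of `|w|^{mp}` in the disc -/
noncomputable def Wm (m : ℕ) (p : ℝ) : ℝ := ∫ w in Metric.ball (0 : ℂ) 1, (‖w‖ ^ m) ^ p

lemma wpow_cont (m : ℕ) {p : ℝ} (hp : 0 < p) : Continuous fun w : ℂ => (‖w‖ ^ m) ^ p :=
  (Real.continuous_rpow_const hp.le).comp (continuous_norm.pow m)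

lemma Wm_intOn (m : ℕ) {p : ℝ} (hp : 0 < p) (R : ℝ) :
    IntegrableOn (fun w : ℂ => (‖w‖ ^ m) ^ p) (Metric.ball 0 R) :=
  ((wpow_cont m hp).continuousOn.integrableOn_compact (isCompact_closedBall (0 : ℂ) R)).mono_set
    Metric.ball_subset_closedBall

lemma Wm_pos (m : ℕ) {p : ℝ} (hp : 0 < p) : 0 < Wm m p := by
  unfold Wm
  rw [setIntegral_pos_iff_support_of_nonneg_ae _ (Wm_intOn m hp 1)]
  · have ho : IsOpen (Function.support (fun w : ℂ => (‖w‖ ^ m) ^ p) ∩ Metric.ball 0 1) :=
      (isOpen_ne_fun (wpow_cont m hp) continuous_const).inter Metric.isOpen_ball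
    apply ho.measure_pos volume
    refine ⟨(1 / 2 : ℂ), ?_, ?_⟩
    · rw [Function.mem_support]
      have : ‖(1 / 2 : ℂ)‖ = 1 / 2 := by simp
      rw [this]
      positivity
    · rw [mem_ball_zero_iff]
      have : ‖(1 / 2 : ℂ)‖ = 1 / 2 := by simp
      rw [this]
      norm_num
  · filter_upwards with w
    positivity

lemma Wm_scale (m : ℕ) {p : ℝ} {R : ℝ} (hR : 0 ≤ R) :
    ∫ w in Metric.ball (0 : ℂ) R, (‖w‖ ^ m) ^ p = R ^ 2 * (R ^ m) ^ p * Wm m p := by
  rcases hR.eq_or_lt with h | h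
  · subst h
    simp
  · unfold Wm
    rw [← integral_indicator Metric.isOpen_ball.measurableSet,
      ← integral_indicator Metric.isOpen_ball.measurableSet]
    have h1 := Measure.integral_comp_smul (volume : Measure ℂ)
      ((Metric.ball (0 : ℂ) R).indicator fun w => (‖w‖ ^ m) ^ p) R
    have h2 : ∀ w : ℂ, (Metric.ball (0 : ℂ) R).indicator (fun w => (‖w‖ ^ m) ^ p) (R • w) =
        (R ^ m) ^ p * (Metric.ball (0 : ℂ) 1).indicator (fun w => (‖w‖ ^ m) ^ p) w := by
      intro w
      by_cases hw : w ∈ Metric.ball (0 : ℂ) 1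
      · have hw' : R • w ∈ Metric.ball (0 : ℂ) R := by
          rw [mem_ball_zero_iff] at hw ⊢
          rw [norm_smul, Real.norm_eq_abs, abs_of_pos h]
          nlinarith
        rw [indicator_of_mem hw, indicator_of_mem hw', norm_smul, Real.norm_eq_abs, abs_of_pos h,
          mul_pow, Real.mul_rpow (by positivity) (by positivity)]
      · have hw' : R • w ∉ Metric.ball (0 : ℂ) R := by
          rw [mem_ball_zero_iff, not_lt] at hw ⊢
          rw [norm_smul, Real.norm_eq_abs, abs_of_pos h]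
          nlinarith
        rw [indicator_of_notMem hw, indicator_of_notMem hw', mul_zero]
    simp only [h2] at h1
    rw [integral_const_mul, Complex.finrank_real_complex, smul_eq_mul,
      abs_of_pos (by positivity)] at h1
    field_simp at h1
    linarith

/-- `L^p` mass of the forms -/
lemma form_eq (m : ℕ) {p : ℝ} (hp : 0 < p) {b : (Fin 4 → ℂ) → ℂ} (hb : Continuous b)
    (hbc : HasCompactSupport b) :
    ∫ x in Om, ‖x 0 ^ m * b (tl x)‖ ^ p =
      (∫ z, ‖b z‖ ^ p * (Rz z ^ 2 * (Rz z ^ m) ^ p)) * Wm m p := by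
  rw [← integral_indicator isOpen_Om.measurableSet, int_cns]
  set g : ℂ × (Fin 4 → ℂ) → ℝ := fun q =>
    Om.indicator (fun x => ‖x 0 ^ m * b (tl x)‖ ^ p) (cns q.1 q.2) with hg
  have hcont : Continuous fun x : Fin 5 → ℂ => ‖x 0 ^ m * b (tl x)‖ ^ p :=
    (Real.continuous_rpow_const hp.le).comp (((continuous_apply 0).pow m).mul
      (hb.comp tl_smooth.continuous)).norm
  have hint : Integrable g (volume.prod volume) := by
    have h1 : IntegrableOn (fun x : Fin 5 → ℂ => ‖x 0 ^ m * b (tl x)‖ ^ p) Om := by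
      have hc : IsCompact (closure Om) := bdd_Om.isCompact_closure
      exact (hcont.continuousOn.integrableOn_compact hc).mono_set subset_closure
    have h2 := (integrable_indicator_iff isOpen_Om.measurableSet).2 h1
    exact integrable_cns.1 h2
  rw [Measure.volume_eq_prod, integral_prod_symm _ hint, ← integral_mul_const]
  congr 1
  funext z
  have h3 : ∀ w : ℂ, g (w, z) = ‖b z‖ ^ p *
      (Metric.ball (0 : ℂ) (Rz z)).indicator (fun w => (‖w‖ ^ m) ^ p) w := by
    intro w
    simp only [hg]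
    by_cases hw : w ∈ Metric.ball (0 : ℂ) (Rz z)
    · rw [indicator_of_mem hw, indicator_of_mem ((mem_Om_iff w z).2 hw), cns_zero, tl_cns, norm_mul,
        norm_pow, Real.mul_rpow (by positivity) (norm_nonneg _)]
      ring
    · rw [indicator_of_notMem hw, indicator_of_notMem (fun h => hw ((mem_Om_iff w z).1 h)), mul_zero]
  simp only [h3]
  rw [integral_const_mul, integral_indicator Metric.isOpen_ball.measurableSet,
    Wm_scale m (Rz_nonneg z)]
  ring

lemma form_small {p : ℝ} (hp : 0 < p) {b : (Fin 4 → ℂ) → ℂ} (hb : Continuous b)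
    (hbc : HasCompactSupport b) {C0 : ℝ} (hC0 : 0 ≤ C0) (hbC : ∀ z ∈ CBc B4, ‖b z‖ ≤ C0) :
    ∀ᶠ m : ℕ in Filter.atTop, ∫ x in Om, ‖x 0 ^ m * b (tl x)‖ ^ p ≤
      (C0 ^ p * (volume (CBc B4)).toReal + 1) * Wm m p := by
  have hlim : Filter.Tendsto (fun m : ℕ => ∫ z, ‖b z‖ ^ p * (Rz z ^ 2 * (Rz z ^ m) ^ p))
      Filter.atTop (𝓝 (∫ z, (CBc B4).indicator (fun z => ‖b z‖ ^ p) z)) := by
    have hbp : Continuous fun z => ‖b z‖ ^ p := (Real.continuous_rpow_const hp.le).comp hb.norm
    apply tendsto_integral_of_dominated_convergence (fun z => ‖b z‖ ^ p)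
    · intro m
      apply Continuous.aestronglyMeasurable
      exact hbp.mul ((Rz_cont.pow 2).mul ((Real.continuous_rpow_const hp.le).comp (Rz_cont.pow m)))
    · apply hbp.integrable_of_hasCompactSupport
      apply HasCompactSupport.intro hbc
      intro z hz
      rw [image_eq_zero_of_notMem_tsupport hz, norm_zero, Real.zero_rpow hp.ne']
    · intro m
      filter_upwards with z
      rw [Real.norm_eq_abs, abs_of_nonneg (by have := Rz_nonneg z; positivity)]
      have h0 := Rz_nonneg z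
      have h1 : Rz z ^ 2 ≤ 1 := pow_le_one₀ h0 (Rz_le z)
      have h2 : (Rz z ^ m) ^ p ≤ 1 :=
        Real.rpow_le_one (by positivity) (pow_le_one₀ h0 (Rz_le z)) hp.le
      have h3 : Rz z ^ 2 * (Rz z ^ m) ^ p ≤ 1 * 1 := by gcongr
      calc ‖b z‖ ^ p * (Rz z ^ 2 * (Rz z ^ m) ^ p) ≤ ‖b z‖ ^ p * (1 * 1) := by gcongr
        _ = ‖b z‖ ^ p := by ring
    · filter_upwards with z
      by_cases hz : z ∈ CBc B4
      · rw [indicator_of_mem hz]
        have : Rz z = 1 := by
          unfold Rz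
          rw [hh_zero hz]
          simp
        simp only [this, one_pow, Real.one_rpow, mul_one]
        exact tendsto_const_nhds
      · rw [indicator_of_notMem hz]
        have h1 : Rz z < 1 := by
          unfold Rz
          rw [Real.sqrt_lt' one_pos]
          linarith [hh_pos hz]
        have h0 := Rz_nonneg z
        have h2 : Filter.Tendsto (fun m : ℕ => (Rz z ^ p) ^ m) Filter.atTop (𝓝 0) :=
          tendsto_pow_atTop_nhds_zero_of_lt_one (by positivity) (Real.rpow_lt_one h0 h1 hp)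
        have h3 : ∀ m : ℕ, (Rz z ^ m) ^ p = (Rz z ^ p) ^ m := by
          intro m
          rw [← Real.rpow_natCast, ← Real.rpow_natCast, ← Real.rpow_mul h0, ← Real.rpow_mul h0,
            mul_comm]
        simp only [h3]
        have h4 := (h2.const_mul (Rz z ^ 2)).const_mul (‖b z‖ ^ p)
        simpa using h4
  have hle : ∫ z, (CBc B4).indicator (fun z => ‖b z‖ ^ p) z ≤ C0 ^ p * (volume (CBc B4)).toReal := by
    rw [integral_indicator isClosed_CBc.measurableSet]
    have hcomp : IsCompact (CBc B4) := by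
      apply (isCompact_closedBall (0 : Fin 4 → ℂ) 2).of_isClosed_subset isClosed_CBc
      intro z hz
      rw [mem_closedBall_zero_iff]
      exact hh_lt (by rw [hh_zero hz]; norm_num)
    have h1 := norm_setIntegral_le_of_norm_le_const (μ := volume) (s := CBc B4)
      (f := fun z => ‖b z‖ ^ p) (C := C0 ^ p) hcomp.measure_lt_top (by
        intro z hz
        rw [Real.norm_eq_abs, abs_of_nonneg (by positivity)]
        exact Real.rpow_le_rpow (norm_nonneg _) (hbC z hz) hp.le)
    exact (le_abs_self _).trans h1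
  have hev := hlim.eventually (gt_mem_nhds (show ∫ z, (CBc B4).indicator (fun z => ‖b z‖ ^ p) z <
    C0 ^ p * (volume (CBc B4)).toReal + 1 by linarith))
  filter_upwards [hev] with m hm
  rw [form_eq m hp hb hbc]
  exact mul_le_mul_of_nonneg_right hm.le (Wm_pos m hp).le

end Pool.Agent.Helper303.Lp
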