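import Pool.Agent.Helper303.LpMeas
import Pool.Agent.Helper303.LpMean

open MeasureTheory Set Complex
open scoped Real Topology ComplexConjugate ContDiff

set_option linter.unusedSectionVars false

namespace Pool.Agent.Helper303.Lp

open Pool.Agent.Helper303.Mb

lemma elem_ineq {x c p : ℝ} (hx : 0 ≤ x) (hc : 0 < c) (hp : 1 ≤ p) : x ≤ c + c ^ (1 - p) * x ^ p := by
  rcases le_or_gt x c with h | h
  · have : 0 ≤ c ^ (1 - p) * x ^ p := by positivity
    linarith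
  · have hx0 : 0 < x := hc.trans h
    have h1 : x ^ (1 - p) ≤ c ^ (1 - p) :=
      Real.rpow_le_rpow_of_nonpos hc h.le (by linarith)
    have h2 : x = x ^ (1 - p) * x ^ p := by
      rw [← Real.rpow_add hx0]
      simp
    calc x = x ^ (1 - p) * x ^ p := h2
      _ ≤ c ^ (1 - p) * x ^ p := by gcongr
      _ ≤ c + c ^ (1 - p) * x ^ p := by linarith

/-- mass of the kernel -/
noncomputable def κ0 : ℝ := ∫ y : Fin 4 → ℂ, ker0 1 y

lemma κ0_pos : 0 < κ0 := ker0_pos one_pos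

lemma finrank4 : Module.finrank ℝ (Fin 4 → ℂ) = 8 := by
  rw [Module.finrank_pi_fintype]
  simp [Complex.finrank_real_complex]

lemma ker0_scale {ρ : ℝ} (hρ : 0 < ρ) : ∫ y : Fin 4 → ℂ, ker0 ρ y = ρ ^ 8 * κ0 := by
  have h1 := Measure.integral_comp_smul (volume : Measure (Fin 4 → ℂ)) (fun y => ker0 ρ y) ρ
  have h2 : ∀ y : Fin 4 → ℂ, ker0 ρ (ρ • y) = ker0 1 y := by
    intro y
    unfold ker0
    congr 2
    rw [one_pow, div_one, Finset.sum_div]
    apply Finset.sum_congr rfl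
    intro i _
    rw [Pi.smul_apply, real_smul, normSq_mul, normSq_ofReal]
    field_simp
  simp only [h2] at h1
  rw [finrank4, smul_eq_mul, abs_of_pos (by positivity)] at h1
  unfold κ0
  rw [h1]
  field_simp

/-- pointwise bound by the `L^p` norm -/
lemma pt_lp {G : (Fin 4 → ℂ) → ℂ} {a : Fin 4 → ℂ} {ρ : ℝ} (hρ : 0 < ρ)
    (hG : ∀ y ∈ Metric.ball a (2 * ρ), ContDiffAt ℝ 1 G y) {C1 : ℝ}
    (hC1 : ∀ y ∈ Metric.ball a (2 * ρ), ∀ k, ‖dbar k G y‖ ≤ C1) {p : ℝ} (hp : 1 ≤ p) {c : ℝ}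
    (hc : 0 < c) (hint : IntegrableOn (fun z => ‖G z‖ ^ p) (Metric.ball a (2 * ρ))) :
    ‖G a‖ ≤ c + c ^ (1 - p) * ((ρ ^ 8 * κ0)⁻¹ * ∫ z in Metric.ball a (2 * ρ), ‖G z‖ ^ p) +
      8 * ρ * C1 := by
  set I0 := ∫ y : Fin 4 → ℂ, ker0 ρ y with hI
  have hI0 : 0 < I0 := ker0_pos hρ
  let χ : (Fin 4 → ℂ) → ℝ := fun y => ker0 ρ y * I0⁻¹
  have hχcd : ContDiff ℝ ∞ χ := (ker0_smooth ρ).mul contDiff_const
  have hχcs : HasCompactSupport χ := (ker0_hcs hρ).mul_right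
  have hχts : tsupport χ ⊆ Metric.closedBall 0 ρ :=
    (tsupport_mul_subset_left (f := ker0 ρ) (g := fun _ => I0⁻¹)).trans (ker0_tsupport hρ)
  have hχ1 : ∫ y, χ y = 1 := by
    simp only [χ]
    rw [integral_mul_const, ← hI, mul_inv_cancel₀ hI0.ne']
  have hχ0 : ∀ y, 0 ≤ χ y := fun y => mul_nonneg (Real.smoothTransition.nonneg _) (by positivity)
  have hχle : ∀ y, χ y ≤ (ρ ^ 8 * κ0)⁻¹ := by
    intro y
    simp only [χ]
    rw [hI, ker0_scale hρ]
    have := κ0_pos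
    calc ker0 ρ y * (ρ ^ 8 * κ0)⁻¹ ≤ 1 * (ρ ^ 8 * κ0)⁻¹ := by
          gcongr
          exact Real.smoothTransition.le_one _
      _ = _ := one_mul _
  have hmv := mv_ineq hρ (show ρ < 2 * ρ by linarith) hG hC1 hχcd.continuous hχcs hχts hχ0
    (fun θ y => by simp only [χ, ker0_rot]) hχ1
  have hχi : Integrable χ := hχcd.continuous.integrable_of_hasCompactSupport hχcs
  set g1 : (Fin 4 → ℂ) → ℝ := (Metric.ball a (2 * ρ)).indicator (fun z => ‖G z‖ ^ p) with hg1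
  have hg1i : Integrable g1 := (integrable_indicator_iff Metric.isOpen_ball.measurableSet).2 hint
  have hg1i' : Integrable (fun y => g1 (a - y)) := hg1i.comp_sub_left a
  have hbound : ∀ y, ‖G (a - y) * ((χ y : ℝ) : ℂ)‖ ≤
      c * χ y + c ^ (1 - p) * ((ρ ^ 8 * κ0)⁻¹ * g1 (a - y)) := by
    intro y
    rw [norm_mul, norm_real, Real.norm_eq_abs, abs_of_nonneg (hχ0 y)]
    by_cases hy : y ∈ tsupport χ
    · have hyb : a - y ∈ Metric.ball a (2 * ρ) := by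
        rw [mem_ball_iff_norm, sub_sub_cancel_left, norm_neg]
        have := mem_closedBall_zero_iff.1 (hχts hy)
        linarith
      rw [hg1, indicator_of_mem hyb]
      have h1 := elem_ineq (norm_nonneg (G (a - y))) hc hp
      have h2 := hχle y
      have h3 := hχ0 y
      calc ‖G (a - y)‖ * χ y ≤ (c + c ^ (1 - p) * ‖G (a - y)‖ ^ p) * χ y := by gcongr
        _ = c * χ y + c ^ (1 - p) * (χ y * ‖G (a - y)‖ ^ p) := by ring
        _ ≤ c * χ y + c ^ (1 - p) * ((ρ ^ 8 * κ0)⁻¹ * ‖G (a - y)‖ ^ p) := by gcongr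
    · rw [image_eq_zero_of_notMem_tsupport hy, mul_zero, mul_zero, zero_add]
      have h0 : 0 ≤ g1 (a - y) := indicator_nonneg (fun z _ => by positivity) _
      have := κ0_pos
      positivity
  have hI1 : Integrable (fun y => c * χ y + c ^ (1 - p) * ((ρ ^ 8 * κ0)⁻¹ * g1 (a - y))) :=
    (hχi.const_mul c).add ((hg1i'.const_mul _).const_mul _)
  have h2 := norm_integral_le_of_norm_le hI1 (Filter.Eventually.of_forall hbound)
  rw [integral_add (hχi.const_mul c) ((hg1i'.const_mul _).const_mul _), integral_const_mul, hχ1,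
    mul_one, integral_const_mul, integral_const_mul,
    integral_sub_left_eq_self (fun y => g1 y) volume a, hg1,
    integral_indicator Metric.isOpen_ball.measurableSet] at h2
  have hcard : ((Fintype.card (Fin 4) : ℕ) : ℝ) = 4 := by simp
  rw [hcard] at hmv
  have h3 := norm_sub_norm_le (G a) (∫ y, G (a - y) * ((χ y : ℝ) : ℂ))
  rw [norm_sub_rev] at hmv
  linarith

/-- bound of the functional by the `L^p` norm -/
theorem Lam_lp {G : (Fin 4 → ℂ) → ℂ} (hG : ∀ y ∈ CB B4, ContDiffAt ℝ 1 G y) {C1 : ℝ} (hC10 : 0 ≤ C1)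
    (hC1 : ∀ y ∈ CB B4, ∀ k, ‖dbar k G y‖ ≤ C1) {p : ℝ} (hp : 16 ≤ p)
    (hint : IntegrableOn (fun z => ‖G z‖ ^ p) (CB B4)) {Ψ : ℝ}
    (hΨ : ∫ z in CB B4, ‖G z‖ ^ p ≤ Ψ) {δ : ℝ} (hδ0 : 0 < δ) (hδ1 : δ ≤ 1 / 4) {J N : ℕ} (hJ : 1 ≤ J)
    (hN : 1 ≤ N) {t : ℝ} (ht0 : 0 ≤ t) (ht1 : t ≤ 1) {τ : ℝ} (hτ : 0 < τ) :
    ‖Lam B4 δ J N (fun z => G (t • z))‖ ≤
      (τ + τ ^ (1 - p) * ((40 ^ 8 / (δ ^ 8 * κ0)) * Ψ) + C1) * (Real.sqrt J * Kd) := by
  have hκ := κ0_pos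
  set A := τ + τ ^ (1 - p) * ((40 ^ 8 / (δ ^ 8 * κ0)) * Ψ) + C1 with hA
  have hΨ0 : 0 ≤ Ψ := (integral_nonneg fun z => by positivity).trans hΨ
  have hA0 : 0 ≤ A := by positivity
  have hpt : ∀ X, ‖G (t • slX B4 δ X)‖ ≤ A * PX X := by
    intro X
    have hP := PX_ge X
    set P := PX X with hPd
    set ρ := δ / (40 * P ^ 2) with hρ
    have hρ0 : 0 < ρ := by positivity
    have h2ρ : 2 * ρ = δ / (20 * P ^ 2) := by
      rw [hρ]
      field_simp
      ring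
    have hsub : Metric.ball (t • slX B4 δ X) (2 * ρ) ⊆ CB B4 := by
      rw [h2ρ]
      exact ball_sub hδ0 hδ1 X ht0 ht1
    have h := pt_lp hρ0 (fun y hy => hG y (hsub hy)) (fun y hy => hC1 y (hsub hy))
      (show 1 ≤ p by linarith) (c := τ * P) (by positivity) (hint.mono_set hsub)
    have hmono : ∫ z in Metric.ball (t • slX B4 δ X) (2 * ρ), ‖G z‖ ^ p ≤ Ψ :=
      (setIntegral_mono_set hint (Filter.Eventually.of_forall fun z => by positivity)
        hsub.eventuallyLE).trans hΨ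
    have e1 : (ρ ^ 8 * κ0)⁻¹ = 40 ^ 8 / (δ ^ 8 * κ0) * P ^ 16 := by
      rw [hρ]
      field_simp
    have e2 : (τ * P) ^ (1 - p) * P ^ 16 ≤ τ ^ (1 - p) * P := by
      rw [Real.mul_rpow hτ.le (by positivity), mul_assoc]
      have h3 : P ^ (1 - p) * P ^ 16 ≤ P := by
        rw [← Real.rpow_natCast P 16, ← Real.rpow_add (by positivity)]
        calc P ^ (1 - p + ((16 : ℕ) : ℝ)) ≤ P ^ (1 : ℝ) :=
              Real.rpow_le_rpow_of_exponent_le hP (by push_cast; linarith)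
          _ = P := Real.rpow_one P
      gcongr
    have e3 : 8 * ρ * C1 ≤ C1 * P := by
      have h4 : 8 * ρ ≤ 1 := by
        rw [hρ, ← mul_div_assoc, div_le_one (by positivity)]
        nlinarith
      calc 8 * ρ * C1 ≤ 1 * C1 := by gcongr
        _ = C1 * 1 := by ring
        _ ≤ C1 * P := by gcongr
    calc ‖G (t • slX B4 δ X)‖ ≤ τ * P + (τ * P) ^ (1 - p) * ((ρ ^ 8 * κ0)⁻¹ *
          ∫ z in Metric.ball (t • slX B4 δ X) (2 * ρ), ‖G z‖ ^ p) + 8 * ρ * C1 := h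
      _ ≤ τ * P + (τ * P) ^ (1 - p) * ((ρ ^ 8 * κ0)⁻¹ * Ψ) + C1 * P := by gcongr
      _ = τ * P + ((τ * P) ^ (1 - p) * P ^ 16) * (40 ^ 8 / (δ ^ 8 * κ0) * Ψ) + C1 * P := by
          rw [e1]
          ring
      _ ≤ τ * P + (τ ^ (1 - p) * P) * (40 ^ 8 / (δ ^ 8 * κ0) * Ψ) + C1 * P := by gcongr
      _ = A * P := by
          rw [hA]
          ring
  obtain ⟨hMi, hMe⟩ := Mj_int hJ hN
  unfold Lam
  have h2 : ∀ X, ‖G (t • slX B4 δ X) * (PhY δ X * SS J N X)‖ ≤ A * Mj J N X := by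
    intro X
    rw [norm_mul, norm_mul]
    have h3 := pt_bound hδ0.le hδ1 hJ X (N := N)
    calc ‖G (t • slX B4 δ X)‖ * (‖PhY δ X‖ * ‖SS J N X‖) ≤
        (A * PX X) * (‖PhY δ X‖ * ‖SS J N X‖) := by
          gcongr
          exact hpt X
      _ = A * (PX X * (‖PhY δ X‖ * ‖SS J N X‖)) := by ring
      _ ≤ A * Mj J N X := by gcongr
  have h4 := norm_integral_le_of_norm_le (hMi.const_mul A) (Filter.Eventually.of_forall h2)
  rw [integral_const_mul, hMe] at h4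
  exact h4

end Pool.Agent.Helper303.Lp
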