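import Pool.Agent.Helper303.LpPt
import Pool.Agent.Helper303.LpBound

open MeasureTheory Set Complex
open scoped Real Topology ComplexConjugate ContDiff Manifold

set_option linter.unusedSectionVars false

namespace Pool.Agent.Helper303.Lp

open Pool.Agent.Helper303.Mb

lemma norm_CB {z : Fin 4 → ℂ} (hz : z ∈ CB B4) : ‖z‖ ≤ 1 := by
  obtain ⟨h1, h2, h3, h4⟩ := Ctr.lt hz
  rw [pi_norm_le_iff_of_nonneg zero_le_one]
  intro i
  fin_cases i
  · exact h1.le
  · exact h2.le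
  · exact h3.le
  · exact h4.le

lemma smul_CB {z : Fin 4 → ℂ} (hz : z ∈ CB B4) {s : ℝ} (hs0 : 0 ≤ s) (hs1 : s ≤ 1) :
    s • z ∈ CB B4 := by
  rcases hs1.eq_or_lt with h | h
  · rw [h, one_smul]
    exact hz
  · exact smul_CBc (CB_sub_CBc hz) hs0 h

lemma sl_D {z0 zi z1 : ℂ} (h : Pos z0 zi z1) : sl B4 z0 zi z1 ∈ CB B4 := sl_CB h

/-- the cut off function -/
lemma exists_v {l : ℝ} (hl0 : 0 < l) (hl1 : l < 1) {J : ℕ} (hJ : 1 ≤ J) (N : ℕ) :
    ∃ v : (Fin 4 → ℂ) → ℂ, ContDiff ℝ ∞ v ∧ HasCompactSupport v ∧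
      ∀ z ∈ CBc B4, v =ᶠ[𝓝 z] fun z => uu B4 J N (l • z) := by
  set s : Set (Fin 4 → ℂ) := {z | l • z ∉ CB B4} with hs
  have hsc : IsClosed s := by
    have : s = ((fun z : Fin 4 → ℂ => l • z) ⁻¹' CB B4)ᶜ := rfl
    rw [this]
    exact (isOpen_CB.preimage (continuous_const_smul l)).isClosed_compl
  have hdisj : Disjoint s (CBc B4) := by
    rw [Set.disjoint_left]
    intro z hz hz2
    exact hz (smul_CBc hz2 hl0.le hl1)
  obtain ⟨f, hf0, hf1, -⟩ := exists_contMDiffMap_zero_one_nhds_of_isClosed (n := (⊤ : ℕ∞))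
    𝓘(ℝ, Fin 4 → ℂ) hsc (isClosed_CBc (B := B4)) hdisj
  have hfs : ContDiff ℝ ∞ f := f.contMDiff.contDiff
  refine ⟨fun z => (f z : ℂ) * uu B4 J N (l • z), ?_, ?_, ?_⟩
  · rw [contDiff_iff_contDiffAt]
    intro z
    by_cases hz : z ∈ s
    · have h1 : ∀ᶠ y in 𝓝 z, f y = 0 := hf0.filter_mono (nhds_le_nhdsSet hz)
      have h2 : (fun z => (f z : ℂ) * uu B4 J N (l • z)) =ᶠ[𝓝 z] fun _ => 0 := by
        filter_upwards [h1] with y hy
        rw [hy]
        simp
      exact contDiffAt_const.congr_of_eventuallyEq h2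
    · have hz' : l • z ∈ CB B4 := by
        by_contra hcon
        exact hz hcon
      have h1 : ContDiffAt ℝ ∞ (uu B4 J N) (l • z) := smooth_uu hJ hz'
      have h2 : ContDiffAt ℝ ∞ (fun z : Fin 4 → ℂ => l • z) z := (contDiff_const_smul l).contDiffAt
      have h3 : ContDiffAt ℝ ∞ (fun z => uu B4 J N (l • z)) z :=
        ContDiffAt.comp z (g := uu B4 J N) (f := fun z => l • z) h1 h2
      exact (ofRealCLM.contDiff.comp hfs).contDiffAt.mul h3
  · apply HasCompactSupport.intro (isCompact_closedBall (0 : Fin 4 → ℂ) (1 / l))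
    intro z hz
    have hzs : z ∈ s := by
      intro hcon
      apply hz
      have h1 := norm_CB hcon
      rw [norm_smul, Real.norm_eq_abs, abs_of_pos hl0] at h1
      rw [mem_closedBall_zero_iff, le_div_iff₀ hl0]
      linarith
    have h0 : f z = 0 := hf0.self_of_nhdsSet z hzs
    rw [h0]
    simp
  · intro z hz
    have h1 : ∀ᶠ y in 𝓝 z, f y = 1 := hf1.filter_mono (nhds_le_nhdsSet hz)
    filter_upwards [h1] with y hy
    rw [hy]
    simp

lemma dbar_v {l : ℝ} {J N : ℕ} (hJ : 1 ≤ J) {v : (Fin 4 → ℂ) → ℂ} {z : Fin 4 → ℂ}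
    (hv : v =ᶠ[𝓝 z] fun z => uu B4 J N (l • z)) (hz : l • z ∈ CB B4) (k : Fin 4) :
    dbar k v z = l * dbar k (uu B4 J N) (l • z) := by
  have h1 : HasFDerivAt (uu B4 J N) (fderiv ℝ (uu B4 J N) (l • z)) (l • z) :=
    ((smooth_uu hJ hz).differentiableAt (by simp)).hasFDerivAt
  have h2 : HasFDerivAt (fun z : Fin 4 → ℂ => l • z)
      (l • ContinuousLinearMap.id ℝ (Fin 4 → ℂ)) z := (hasFDerivAt_id z).const_smul l
  have h3 : HasFDerivAt (fun z => uu B4 J N (l • z))
      ((fderiv ℝ (uu B4 J N) (l • z)).comp (l • ContinuousLinearMap.id ℝ (Fin 4 → ℂ))) z :=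
    HasFDerivAt.comp z (g := uu B4 J N) (f := fun z => l • z) h1 h2
  unfold dbar
  rw [hv.fderiv_eq, h3.fderiv]
  simp only [ContinuousLinearMap.comp_apply, smul_apply,
    ContinuousLinearMap.id_apply, map_smul, real_smul]
  ring

lemma wt_int {δ : ℝ} (hδ0 : 0 < δ) (hδ1 : δ ≤ 1 / 4) (J N : ℕ) :
    Integrable (fun X => PhY δ X * SS J N X) := by
  have h := Lam_integrable (B := B4) (D := CB B4) (fun _ _ _ h => sl_D h) (H := fun _ => 1) (M := 1)
    (fun z _ => continuousAt_const) zero_le_one (fun z _ => by simp) hδ0 hδ1 J N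
  simpa using h

/-- limit of the functional -/
lemma Lam_lim {δ : ℝ} (hδ0 : 0 < δ) (hδ1 : δ ≤ 1 / 4) {J N : ℕ} (hJ : 1 ≤ J)
    (hNε : 1 ≤ N * (1 / (48 * (J : ℝ) ^ 2)) / 2) :
    Filter.Tendsto (fun n : ℕ => Lam B4 δ J N (fun z => uu B4 J N
      (((1 - 1 / ((n : ℝ) + 2)) * (1 - 1 / ((n : ℝ) + 2))) • z))) Filter.atTop
      (𝓝 (Lam B4 δ J N (uu B4 J N))) := by
  set s : ℕ → ℝ := fun n => (1 - 1 / ((n : ℝ) + 2)) * (1 - 1 / ((n : ℝ) + 2)) with hs
  have hsl : Filter.Tendsto s Filter.atTop (𝓝 1) := by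
    have h1 : Filter.Tendsto (fun n : ℕ => 1 / ((n : ℝ) + 2)) Filter.atTop (𝓝 0) := by
      apply Filter.Tendsto.div_atTop tendsto_const_nhds
      exact Filter.tendsto_atTop_add_const_right _ _ tendsto_natCast_atTop_atTop
    have h2 := (h1.const_sub 1).mul (h1.const_sub 1)
    rw [sub_zero, mul_one] at h2
    exact h2
  have hs01 : ∀ n, 0 ≤ s n ∧ s n ≤ 1 := by
    intro n
    have h1 : (0 : ℝ) ≤ n := Nat.cast_nonneg n
    have h2 : 1 / ((n : ℝ) + 2) ≤ 1 := by
      rw [div_le_one (by positivity)]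
      linarith
    have h3 : 0 ≤ 1 / ((n : ℝ) + 2) := by positivity
    constructor
    · apply mul_nonneg <;> linarith
    · simp only [hs]
      nlinarith
  have hw := wt_int hδ0 hδ1 J N
  have hsD : ∀ X, slX B4 δ X ∈ CB B4 := fun X => sl_D (Pos_X hδ0 X)
  unfold Lam
  apply tendsto_integral_of_dominated_convergence
    (fun X => (J * (25 * Real.exp 2)) * ‖PhY δ X * SS J N X‖)
  · intro n
    apply Continuous.aestronglyMeasurable
    apply Continuous.mul
    · rw [continuous_iff_continuousAt]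
      intro X
      have h1 : ContinuousAt (uu B4 J N) (s n • slX B4 δ X) :=
        (smooth_uu hJ (smul_CB (hsD X) (hs01 n).1 (hs01 n).2)).continuousAt
      exact ContinuousAt.comp (g := uu B4 J N) (f := fun X => s n • slX B4 δ X) h1
        ((slX_cont hδ0).const_smul (s n)).continuousAt
    · exact (PhY_cont δ).mul (SS_cont J N)
  · exact hw.norm.const_mul _
  · intro n
    filter_upwards with X
    rw [norm_mul]
    exact mul_le_mul_of_nonneg_right
      (uu_bound hJ hNε (smul_CB (hsD X) (hs01 n).1 (hs01 n).2)) (norm_nonneg _)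
  · filter_upwards with X
    apply Filter.Tendsto.mul_const
    have h1 : ContinuousAt (uu B4 J N) (slX B4 δ X) := (smooth_uu hJ (hsD X)).continuousAt
    have h2 : Filter.Tendsto (fun n => s n • slX B4 δ X) Filter.atTop (𝓝 (slX B4 δ X)) := by
      have := hsl.smul_const (slX B4 δ X)
      rwa [one_smul] at this
    exact h1.tendsto.comp h2

end Pool.Agent.Helper303.Lp
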