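import Mathlib

open Set Complex
open scoped Real Topology ComplexConjugate

namespace Pool.Agent.Helper303.Mb

/-- the `2 × 2` matrix `(a b; c d)` is a strict contraction -/
def Ctr (a b c d : ℂ) : Prop := ∀ v w : ℂ, (v ≠ 0 ∨ w ≠ 0) →
  ‖a * v + b * w‖ ^ 2 + ‖c * v + d * w‖ ^ 2 < ‖v‖ ^ 2 + ‖w‖ ^ 2

lemma Ctr.lt {a b c d : ℂ} (h : Ctr a b c d) : ‖a‖ < 1 ∧ ‖b‖ < 1 ∧ ‖c‖ < 1 ∧ ‖d‖ < 1 := by
  have h1 := h 1 0 (Or.inl one_ne_zero)
  have h2 := h 0 1 (Or.inr one_ne_zero)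
  simp only [mul_one, mul_zero, add_zero, zero_add, norm_one, norm_zero, one_pow] at h1 h2
  norm_num at h1 h2
  refine ⟨?_, ?_, ?_, ?_⟩ <;> nlinarith [norm_nonneg a, norm_nonneg b, norm_nonneg c, norm_nonneg d]

/-- `det(I + Z)` -/
def Dt (a b c d : ℂ) : ℂ := (1 + a) * (1 + d) - b * c

lemma Dt_ne {a b c d : ℂ} (h : Ctr a b c d) : Dt a b c d ≠ 0 := by
  intro h0
  unfold Dt at h0
  have ha := h.lt.1
  have h1 : (1 + a) ≠ 0 := by
    intro h1
    have : a = -1 := by linear_combination h1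
    rw [this] at ha
    simp at ha
  have h2 := h b (-(1 + a)) (Or.inr (neg_ne_zero.2 h1))
  have e1 : a * b + b * -(1 + a) = -b := by ring
  have e2 : c * b + d * -(1 + a) = 1 + a := by linear_combination -h0
  rw [e1, e2, norm_neg, norm_neg] at h2
  exact lt_irrefl _ h2

/-- numerator of the quadratic form of the Cayley transform `(I - Z)(I + Z)⁻¹` -/
def Pn (x y : ℝ) (a b c d : ℂ) : ℂ :=
  2 * ((1 + d) * x ^ 2 - (b + c) * x * y + (1 + a) * y ^ 2) - (x ^ 2 + y ^ 2) * Dt a b c d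

/-- the quadratic form of the Cayley transform `(I - Z)(I + Z)⁻¹` -/
noncomputable def Qf (x y : ℝ) (a b c d : ℂ) : ℂ := Pn x y a b c d / Dt a b c d

lemma Qf_pos {a b c d : ℂ} (h : Ctr a b c d) {x y : ℝ} (hxy : x ≠ 0 ∨ y ≠ 0) :
    0 < (Qf x y a b c d).re := by
  have hD := Dt_ne h
  set v := ((1 + d) * x - b * y) / Dt a b c d with hv
  set w := (-c * x + (1 + a) * y) / Dt a b c d with hw
  have e1 : a * v + b * w = x - v := by
    rw [hv, hw]
    field_simp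
    unfold Dt
    ring
  have e2 : c * v + d * w = y - w := by
    rw [hv, hw]
    field_simp
    unfold Dt
    ring
  have hvw : v ≠ 0 ∨ w ≠ 0 := by
    by_contra hcon
    push Not at hcon
    rw [hcon.1, hcon.2] at e1 e2
    simp only [mul_zero, add_zero, sub_zero] at e1 e2
    rcases hxy with hx | hy
    · exact hx (by exact_mod_cast e1.symm)
    · exact hy (by exact_mod_cast e2.symm)
  have h1 := h v w hvw
  rw [e1, e2] at h1
  have e3 : Qf x y a b c d = 2 * (x * v + y * w) - (x ^ 2 + y ^ 2) := by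
    rw [hv, hw]
    unfold Qf Pn
    field_simp
    ring
  rw [e3]
  rw [← normSq_eq_norm_sq, ← normSq_eq_norm_sq, ← normSq_eq_norm_sq, ← normSq_eq_norm_sq] at h1
  simp only [normSq_apply, sub_re, sub_im, ofReal_re, ofReal_im] at h1
  have e4 : (2 * (x * v + y * w) - ((x : ℂ) ^ 2 + (y : ℂ) ^ 2)).re =
      2 * (x * v.re + y * w.re) - (x ^ 2 + y ^ 2) := by
    have : ((x : ℂ) ^ 2 + (y : ℂ) ^ 2) = ((x ^ 2 + y ^ 2 : ℝ) : ℂ) := by push_cast; ring
    rw [this, sub_re, ofReal_re]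
    simp
  rw [e4]
  nlinarith

lemma Qf_exp {a b c d : ℂ} (h : Ctr a b c d) (x y : ℝ) : Qf x y a b c d =
    x ^ 2 * Qf 1 0 a b c d + x * y * (Qf 1 1 a b c d - Qf 1 0 a b c d - Qf 0 1 a b c d) +
      y ^ 2 * Qf 0 1 a b c d := by
  have hD := Dt_ne h
  unfold Qf Pn
  push_cast
  field_simp
  ring

/-- real part of the quadratic form -/
noncomputable def qr (x y : ℝ) (a b c d : ℂ) : ℝ := (Qf x y a b c d).re

lemma qr_exp {a b c d : ℂ} (h : Ctr a b c d) (x y : ℝ) : qr x y a b c d =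
    x ^ 2 * qr 1 0 a b c d + x * y * (qr 1 1 a b c d - qr 1 0 a b c d - qr 0 1 a b c d) +
      y ^ 2 * qr 0 1 a b c d := by
  unfold qr
  conv_lhs => rw [Qf_exp h x y]
  have e : ∀ (r : ℝ) (z : ℂ), ((r : ℂ) * z).re = r * z.re := fun r z => re_ofReal_mul r z
  have e1 : (x : ℂ) ^ 2 = ((x ^ 2 : ℝ) : ℂ) := by push_cast; ring
  have e2 : (y : ℂ) ^ 2 = ((y ^ 2 : ℝ) : ℂ) := by push_cast; ring
  have e3 : (x : ℂ) * y = ((x * y : ℝ) : ℂ) := by push_cast; ring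
  rw [e1, e2, e3, add_re, add_re, e, e, e, sub_re, sub_re]

/-- disjointness of the sectors -/
lemma disj {a b c d : ℂ} (h : Ctr a b c d) {J i j : ℕ} (hJ : 1 ≤ J) (hi : i ≤ J)
    (hij : i ≠ j) {σ : ℝ} (hσ : σ = qr 1 0 a b c d + qr 0 1 a b c d + qr 1 1 a b c d)
    (h1 : qr 1 i a b c d ≤ σ / (48 * J ^ 2)) (h2 : qr 1 j a b c d ≤ σ / (48 * J ^ 2)) : False := by
  set A := qr 1 0 a b c d with hA
  set B := qr 0 1 a b c d with hB
  set C := qr 1 1 a b c d with hC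
  have hexp := qr_exp h
  have hA0 : 0 < A := Qf_pos h (Or.inl one_ne_zero)
  have hB0 : 0 < B := Qf_pos h (Or.inr one_ne_zero)
  have hσ0 : 0 < σ := by
    have : 0 < C := Qf_pos h (Or.inl one_ne_zero)
    linarith
  have hJ' : (1 : ℝ) ≤ J := by exact_mod_cast hJ
  set τ := σ / (48 * (J : ℝ) ^ 2) with hτ
  have hτ0 : 0 < τ := by positivity
  have hστ : σ = 48 * (J : ℝ) ^ 2 * τ := by
    rw [hτ]
    field_simp
  -- `r∞`
  have e1 := hexp 1 i
  have e2 := hexp 1 j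
  have hp1 : 0 < qr 2 (i + j) a b c d := Qf_pos h (Or.inl two_ne_zero)
  have e3 := hexp 2 (i + j)
  rw [← hA, ← hB, ← hC] at e1 e2 e3
  have hij' : (1 : ℝ) ≤ ((j : ℝ) - i) ^ 2 := by
    have : (1 : ℤ) ≤ ((j : ℤ) - i) ^ 2 := by
      have h0 : ((j : ℤ) - i) ≠ 0 := by
        intro h0
        apply hij
        omega
      have := sq_pos_of_ne_zero h0
      omega
    exact_mod_cast this
  have hBle : B ≤ 4 * τ := by
    have : ((j : ℝ) - i) ^ 2 * B + qr 2 (i + j) a b c d = 2 * qr 1 i a b c d + 2 * qr 1 j a b c d := by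
      rw [e1, e2, e3]
      ring
    nlinarith
  -- `r0`
  have hp2 : 0 < qr 1 (2 * i) a b c d := Qf_pos h (Or.inl one_ne_zero)
  have e4 := hexp 1 (2 * i)
  rw [← hA, ← hB, ← hC] at e4
  have hAle : A ≤ 2 * τ + 2 * (J : ℝ) ^ 2 * (4 * τ) := by
    have h3 : A + qr 1 (2 * i) a b c d = 2 * qr 1 i a b c d + 2 * (i : ℝ) ^ 2 * B := by
      rw [e1, e4]
      ring
    have h4 : (i : ℝ) ^ 2 ≤ (J : ℝ) ^ 2 := by
      have : (i : ℝ) ≤ J := by exact_mod_cast hi
      gcongr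
    have h5 : (i : ℝ) ^ 2 * B ≤ (J : ℝ) ^ 2 * (4 * τ) := by gcongr
    linarith
  -- `r1`
  have hp3 : 0 < qr 1 (-1) a b c d := Qf_pos h (Or.inl one_ne_zero)
  have e5 := hexp 1 (-1)
  rw [← hA, ← hB, ← hC] at e5
  have hCle : C ≤ 2 * A + 2 * B := by
    rw [e5] at hp3
    linarith
  have hJ2 : (1 : ℝ) ≤ (J : ℝ) ^ 2 := by nlinarith
  nlinarith

/-! ### Slices -/

/-- `det(I + V)` in the coordinates `ζ` -/
noncomputable def Gam (z0 zi z1 : ℂ) : ℂ := (1 + z0) * (1 + zi) - ((z1 - z0 - zi) / 2) ^ 2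

/-- positivity of the real part of `V` -/
def Pos (z0 zi z1 : ℂ) : Prop :=
  0 < z0.re ∧ ((z1.re - z0.re - zi.re) / 2) ^ 2 < z0.re * zi.re

lemma Pos.form {z0 zi z1 : ℂ} (h : Pos z0 zi z1) {u v : ℂ} (huv : u ≠ 0 ∨ v ≠ 0) :
    0 < (conj u * (z0 * u + (z1 - z0 - zi) / 2 * v) +
      conj v * ((z1 - z0 - zi) / 2 * u + zi * v)).re := by
  obtain ⟨h1, h2⟩ := h
  set p := (z1.re - z0.re - zi.re) / 2 with hp
  have e : (conj u * (z0 * u + (z1 - z0 - zi) / 2 * v) +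
      conj v * ((z1 - z0 - zi) / 2 * u + zi * v)).re =
      z0.re * normSq u + 2 * p * (u.re * v.re + u.im * v.im) + zi.re * normSq v := by
    rw [hp]
    have e2 : (z1 - z0 - zi) / 2 = ((1 / 2 : ℝ) : ℂ) * (z1 - z0 - zi) := by push_cast; ring
    rw [e2]
    simp only [normSq_apply, add_re, mul_re, conj_re, conj_im, add_im, mul_im, ofReal_re, ofReal_im,
      sub_re, sub_im]
    ring
  rw [e]
  have hzi : 0 < zi.re := by nlinarith [sq_nonneg p]
  -- complete the square: `z0 (u + (p/z0) v)² + (zi - p²/z0) |v|²`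
  have e3 : z0.re * (z0.re * normSq u + 2 * p * (u.re * v.re + u.im * v.im) + zi.re * normSq v) =
      (z0.re * u.re + p * v.re) ^ 2 + (z0.re * u.im + p * v.im) ^ 2 +
      (z0.re * zi.re - p ^ 2) * normSq v := by
    simp only [normSq_apply]
    ring
  have h4 : 0 < z0.re * (z0.re * normSq u + 2 * p * (u.re * v.re + u.im * v.im) +
      zi.re * normSq v) := by
    rw [e3]
    by_cases hv : v = 0
    · subst hv
      have hu : u ≠ 0 := by
        rcases huv with h | h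
        · exact h
        · exact absurd rfl h
      have : 0 < normSq u := normSq_pos.2 hu
      simp only [zero_re, zero_im, mul_zero, add_zero, map_zero]
      have h5 : 0 < z0.re ^ 2 * normSq u := by positivity
      rw [normSq_apply] at h5
      nlinarith
    · have : 0 < normSq v := normSq_pos.2 hv
      have h6 : 0 < (z0.re * zi.re - p ^ 2) * normSq v := mul_pos (by linarith) this
      positivity
  exact (mul_pos_iff_of_pos_left h1).1 h4

lemma Gam_ne {z0 zi z1 : ℂ} (h : Pos z0 zi z1) : Gam z0 zi z1 ≠ 0 := by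
  intro h0
  unfold Gam at h0
  set p := (z1 - z0 - zi) / 2 with hp
  have h1 : 1 + z0 ≠ 0 := by
    intro h1
    have h2 := h.1
    have : z0 = -1 := by linear_combination h1
    rw [this] at h2
    simp at h2
    linarith
  have h2 := h.form (u := p) (v := -(1 + z0)) (Or.inr (neg_ne_zero.2 h1))
  rw [← hp] at h2
  have e1 : z0 * p + p * -(1 + z0) = -p := by ring
  have e2 : p * p + zi * -(1 + z0) = 1 + z0 := by linear_combination -h0
  rw [e1, e2] at h2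
  have e3 : (conj p * -p + conj (-(1 + z0)) * (1 + z0)) = -((normSq p + normSq (1 + z0) : ℝ) : ℂ) := by
    push_cast
    rw [map_neg, ← mul_conj p, ← mul_conj (1 + z0)]
    ring
  rw [e3, neg_re, ofReal_re] at h2
  have := normSq_nonneg p
  have := normSq_nonneg (1 + z0)
  linarith

/-- entries of the inverse Cayley transform -/
noncomputable def Za (z0 zi z1 : ℂ) : ℂ := 2 * (1 + zi) / Gam z0 zi z1 - 1
noncomputable def Zd (z0 zi z1 : ℂ) : ℂ := 2 * (1 + z0) / Gam z0 zi z1 - 1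
noncomputable def Zb (z0 zi z1 : ℂ) : ℂ := -(z1 - z0 - zi) / Gam z0 zi z1

lemma Z_ctr {z0 zi z1 : ℂ} (h : Pos z0 zi z1) :
    Ctr (Za z0 zi z1) (Zb z0 zi z1) (Zb z0 zi z1) (Zd z0 zi z1) := by
  intro y1 y2 hy
  have hG := Gam_ne h
  set p := (z1 - z0 - zi) / 2 with hp
  set G := Gam z0 zi z1 with hGd
  have hGe : G = (1 + z0) * (1 + zi) - p ^ 2 := rfl
  set u := ((1 + zi) * y1 - p * y2) / G with hu
  set v := (-p * y1 + (1 + z0) * y2) / G with hv
  have e1 : y1 = (1 + z0) * u + p * v := by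
    rw [hu, hv]
    field_simp
    rw [hGe]
    ring
  have e2 : y2 = p * u + (1 + zi) * v := by
    rw [hu, hv]
    field_simp
    rw [hGe]
    ring
  have huv : u ≠ 0 ∨ v ≠ 0 := by
    by_contra hcon
    push Not at hcon
    rw [hcon.1, hcon.2] at e1 e2
    simp only [mul_zero, add_zero] at e1 e2
    rcases hy with h | h
    · exact h e1
    · exact h e2
  have e3 : Za z0 zi z1 * y1 + Zb z0 zi z1 * y2 = u - (z0 * u + p * v) := by
    have : Za z0 zi z1 * y1 + Zb z0 zi z1 * y2 = 2 * u - y1 := by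
      unfold Za Zb
      rw [← hGd, hu]
      field_simp
      rw [hp]
      ring
    rw [this]
    conv_lhs => rw [e1]
    ring
  have e4 : Zb z0 zi z1 * y1 + Zd z0 zi z1 * y2 = v - (p * u + zi * v) := by
    have : Zb z0 zi z1 * y1 + Zd z0 zi z1 * y2 = 2 * v - y2 := by
      unfold Zd Zb
      rw [← hGd, hv]
      field_simp
      rw [hp]
      ring
    rw [this]
    conv_lhs => rw [e2]
    ring
  rw [e3, e4]
  have e5 : ‖y1‖ ^ 2 = ‖u + (z0 * u + p * v)‖ ^ 2 := by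
    conv_lhs => rw [e1]
    congr 2
    ring
  have e6 : ‖y2‖ ^ 2 = ‖v + (p * u + zi * v)‖ ^ 2 := by
    conv_lhs => rw [e2]
    congr 2
    ring
  rw [e5, e6]
  have hpos := h.form huv
  rw [← hp] at hpos
  set s := z0 * u + p * v
  set t := p * u + zi * v
  rw [← normSq_eq_norm_sq, ← normSq_eq_norm_sq, ← normSq_eq_norm_sq, ← normSq_eq_norm_sq]
  simp only [normSq_apply, add_re, add_im, sub_re, sub_im, mul_re, conj_re, conj_im] at hpos ⊢
  nlinarith

lemma Dt_Z {z0 zi z1 : ℂ} (h : Pos z0 zi z1) :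
    Dt (Za z0 zi z1) (Zb z0 zi z1) (Zb z0 zi z1) (Zd z0 zi z1) = 4 / Gam z0 zi z1 := by
  have hG := Gam_ne h
  unfold Dt Za Zb Zd
  field_simp
  unfold Gam
  ring

lemma Qf_Z {z0 zi z1 : ℂ} (h : Pos z0 zi z1) (x y : ℝ) :
    Qf x y (Za z0 zi z1) (Zb z0 zi z1) (Zb z0 zi z1) (Zd z0 zi z1) =
      x ^ 2 * z0 + x * y * (z1 - z0 - zi) + y ^ 2 * zi := by
  have hG := Gam_ne h
  have hD := Dt_ne (Z_ctr h)
  have e : Qf x y (Za z0 zi z1) (Zb z0 zi z1) (Zb z0 zi z1) (Zd z0 zi z1) =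
      2 * ((1 + Zd z0 zi z1) * x ^ 2 - (Zb z0 zi z1 + Zb z0 zi z1) * x * y +
        (1 + Za z0 zi z1) * y ^ 2) * (Gam z0 zi z1 / 4) - (x ^ 2 + y ^ 2) := by
    unfold Qf Pn
    rw [Dt_Z h]
    field_simp
  rw [e]
  unfold Za Zb Zd
  field_simp
  ring

lemma Pos_real {δ x0 xi x1 : ℝ} (hδ : 0 < δ) :
    Pos (δ - x0 * I) (δ - xi * I) (2 * δ - x1 * I) := by
  have e : ((2 : ℂ) * δ - x1 * I).re = 2 * δ := by
    have : (2 : ℂ) * δ = ((2 * δ : ℝ) : ℂ) := by push_cast; ring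
    rw [this, sub_re, ofReal_re]
    simp
  refine ⟨by simpa using hδ, ?_⟩
  rw [e]
  simp only [sub_re, ofReal_re, mul_re, I_re, mul_zero, ofReal_im, I_im, mul_one, sub_self,
    sub_zero]
  nlinarith

/-- positivity along the directions `P_j` -/
lemma Pos_dir {z0 zi z1 : ℂ} {δ : ℝ} (hδ : 0 < δ) (h0 : z0.re = δ) (hi : zi.re = δ)
    (h1 : z1.re = 2 * δ) (j : ℕ) {τ : ℂ} (hτ : 0 ≤ τ.re) :
    Pos (z0 + (j : ℂ) ^ 2 * τ) (zi + τ) (z1 + ((j : ℂ) - 1) ^ 2 * τ) := by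
  have e1 : ((j : ℂ) ^ 2 * τ).re = (j : ℝ) ^ 2 * τ.re := by
    have : (j : ℂ) ^ 2 = (((j : ℝ) ^ 2 : ℝ) : ℂ) := by push_cast; ring
    rw [this, re_ofReal_mul]
  have e2 : (((j : ℂ) - 1) ^ 2 * τ).re = ((j : ℝ) - 1) ^ 2 * τ.re := by
    have : ((j : ℂ) - 1) ^ 2 = ((((j : ℝ) - 1) ^ 2 : ℝ) : ℂ) := by push_cast; ring
    rw [this, re_ofReal_mul]
  unfold Pos
  rw [add_re, add_re, add_re, e1, e2, h0, hi, h1]
  have hj : (0 : ℝ) ≤ (j : ℝ) ^ 2 := by positivity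
  constructor
  · positivity
  · have e3 : ((2 * δ + ((j : ℝ) - 1) ^ 2 * τ.re - (δ + (j : ℝ) ^ 2 * τ.re) - (δ + τ.re)) / 2) =
        -(j : ℝ) * τ.re := by ring
    rw [e3]
    have h2 : 0 ≤ δ * τ.re := by positivity
    have h3 : 0 ≤ (j : ℝ) ^ 2 * (δ * τ.re) := by positivity
    nlinarith

end Pool.Agent.Helper303.Mb
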