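import Pool.Agent.Helper303.MbU

open MeasureTheory Set Complex
open scoped Real Topology ComplexConjugate ContDiff

set_option linter.unusedSectionVars false

namespace Pool.Agent.Helper303.Mb

variable {ι : Type} [Fintype ι] [DecidableEq ι] {B : Blk ι}

lemma dbar_finsum {α : Type*} (s : Finset α) {F : α → (ι → ℂ) → ℂ} {z : ι → ℂ}
    (h : ∀ i ∈ s, DifferentiableAt ℝ (F i) z) (k : ι) :
    dbar k (fun z => ∑ i ∈ s, F i z) z = ∑ i ∈ s, dbar k (F i) z := by
  unfold dbar
  have h1 : fderiv ℝ (fun z => ∑ i ∈ s, F i z) z = ∑ i ∈ s, fderiv ℝ (F i) z :=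
    fderiv_fun_sum h
  rw [h1, _root_.sum_apply, _root_.sum_apply, Finset.mul_sum,
    ← Finset.sum_add_distrib, Finset.sum_div]

lemma smooth_term {N : ℕ} {ε : ℝ} (hε : 0 < ε) (j : ℕ) {z : ι → ℂ} (hz : z ∈ CB B) :
    ContDiffAt ℝ ∞ (fun z => Dz B z ^ 2 * EE B N j z * (ww B ε j z : ℂ)) z :=
  (((contDiff_Dz.contDiffAt.restrict_scalars ℝ).pow 2).mul (smooth_EE hz)).mul
    (ofRealCLM.contDiff.contDiffAt.comp z (smooth_ww hε j hz))

lemma st_mem (x : ℝ) : 0 ≤ Real.smoothTransition x ∧ Real.smoothTransition x ≤ 1 :=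
  ⟨Real.smoothTransition.nonneg x, Real.smoothTransition.le_one x⟩

/-- bound for `|E_j|` away from the core of the sector -/
lemma EE_small {N j : ℕ} {ε : ℝ} {z : ι → ℂ} (hN : 1 ≤ N * ε / 2)
    (h1 : 1 ≤ sg B z) (h2 : ε * sg B z / 2 ≤ lm B j z) :
    ‖EE B N j z‖ ≤ Real.exp (1 - N * ε / 2) := by
  rw [norm_EE]
  apply Real.exp_le_exp.2
  have hN0 : (0 : ℝ) ≤ N := Nat.cast_nonneg N
  have h3 : (N : ℝ) * (ε * sg B z / 2) ≤ N * lm B j z := by gcongr
  nlinarith

/-- bound for the function itself -/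
lemma EEww_bound {N j : ℕ} {ε : ℝ} (hε : 0 < ε) {z : ι → ℂ} (hz : z ∈ CB B)
    (hN : 1 ≤ N * ε / 2) : ‖EE B N j z‖ * |ww B ε j z| ≤ Real.exp 2 := by
  have hs := sg_pos hz
  have hl := lm_pos hz j
  have hw : 0 ≤ ww B ε j z ∧ ww B ε j z ≤ 1 := by
    obtain ⟨a1, a2⟩ := st_mem (sg B z - 1)
    obtain ⟨b1, b2⟩ := st_mem (2 * lm B j z / (ε * sg B z) - 1)
    unfold ww
    constructor
    · have : Real.smoothTransition (sg B z - 1) *
        (1 - Real.smoothTransition (2 * lm B j z / (ε * sg B z) - 1)) ≤ 1 * 1 := by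
        gcongr
        linarith
      linarith
    · have : 0 ≤ Real.smoothTransition (sg B z - 1) *
        (1 - Real.smoothTransition (2 * lm B j z / (ε * sg B z) - 1)) := by
        apply mul_nonneg a1
        linarith
      linarith
  rw [abs_of_nonneg hw.1]
  rcases le_or_gt (sg B z) 2 with h | h
  · have h1 : ‖EE B N j z‖ ≤ Real.exp 2 := by
      rw [norm_EE]
      apply Real.exp_le_exp.2
      have : 0 ≤ (N : ℝ) * lm B j z := by positivity
      linarith
    calc ‖EE B N j z‖ * ww B ε j z ≤ Real.exp 2 * 1 :=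
          mul_le_mul h1 hw.2 hw.1 (Real.exp_pos _).le
      _ = Real.exp 2 := mul_one _
  · by_cases h2 : ε * sg B z / 2 ≤ lm B j z
    · have h3 := EE_small (B := B) (j := j) hN (by linarith) h2
      have h4 : Real.exp (1 - N * ε / 2) ≤ Real.exp 2 := Real.exp_le_exp.2 (by linarith)
      calc ‖EE B N j z‖ * ww B ε j z ≤ Real.exp 2 * 1 :=
            mul_le_mul (h3.trans h4) hw.2 hw.1 (Real.exp_pos _).le
        _ = Real.exp 2 := mul_one _
    · have h0 : ww B ε j z = 0 := by
        unfold ww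
        rw [Real.smoothTransition.one_of_one_le (by linarith),
          Real.smoothTransition.zero_of_nonpos]
        · ring
        · push Not at h2
          rw [sub_nonpos, div_le_one (by positivity)]
          linarith
      rw [h0, mul_zero]
      positivity

lemma norm_Dz {z : ι → ℂ} (hz : z ∈ CB B) : ‖Dz B z‖ ≤ 5 := by
  obtain ⟨h1, h2, h3, h4⟩ := Ctr.lt hz
  unfold Dz Dt
  refine (norm_sub_le _ _).trans ?_
  rw [norm_mul, norm_mul]
  have e1 : ‖1 + z B.k11‖ ≤ 2 := (norm_add_le _ _).trans (by rw [norm_one]; linarith)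
  have e2 : ‖1 + z B.k22‖ ≤ 2 := (norm_add_le _ _).trans (by rw [norm_one]; linarith)
  calc ‖1 + z B.k11‖ * ‖1 + z B.k22‖ + ‖z B.k12‖ * ‖z B.k21‖ ≤ 2 * 2 + 1 * 1 := by gcongr
    _ = 5 := by norm_num

lemma uu_bound {J N : ℕ} (hJ : 1 ≤ J) (hN : 1 ≤ N * (1 / (48 * (J : ℝ) ^ 2)) / 2) {z : ι → ℂ}
    (hz : z ∈ CB B) : ‖uu B J N z‖ ≤ J * (25 * Real.exp 2) := by
  have hε : (0 : ℝ) < 1 / (48 * J ^ 2) := by
    have : (0 : ℝ) < J := by exact_mod_cast hJ
    positivity
  unfold uu
  refine (norm_sum_le _ _).trans ?_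
  have h1 : ∀ j ∈ Finset.Icc 1 J,
      ‖Dz B z ^ 2 * EE B N j z * (ww B (1 / (48 * J ^ 2)) j z : ℂ)‖ ≤ 25 * Real.exp 2 := by
    intro j _
    rw [norm_mul, norm_mul, norm_pow, norm_real, Real.norm_eq_abs, mul_assoc]
    have h2 := EEww_bound (j := j) hε hz hN
    have h3 := norm_Dz hz
    calc ‖Dz B z‖ ^ 2 * (‖EE B N j z‖ * |ww B (1 / (48 * J ^ 2)) j z|) ≤ 5 ^ 2 * Real.exp 2 := by
          gcongr
      _ = 25 * Real.exp 2 := by norm_num
  refine (Finset.sum_le_sum h1).trans (le_of_eq ?_)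
  simp

/-- uniform bound for `∂̄u₀` -/
theorem form_bound (B : Blk ι) : ∃ C : ℝ, 0 ≤ C ∧ ∀ J : ℕ, 1 ≤ J → ∃ N₀ : ℕ, ∀ N : ℕ, N₀ ≤ N →
    ∀ z ∈ CB B, ‖z‖ ≤ 1 → ∀ k : ι, ‖dbar k (uu B J N) z‖ ≤ C := by
  obtain ⟨Ct, hCt0, hCt⟩ := st_deriv_bound
  obtain ⟨Cs, hCs0, hCs⟩ := bound_quot (B := B) contDiff_Ps
  choose CL hCL0 hCL using fun j : ℕ => bound_quot (B := B) (contDiff_Pz (B := B) 1 j)
  refine ⟨1 / 2 * Real.exp 2 * Ct * Cs + 1, by positivity, ?_⟩
  intro J hJ
  have hJ0 : (0 : ℝ) < J := by exact_mod_cast hJ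
  set ε : ℝ := 1 / (48 * (J : ℝ) ^ 2) with hεd
  have hε : 0 < ε := by positivity
  set CLJ : ℝ := ∑ j ∈ Finset.Icc 1 J, CL j with hCLJ
  have hCLJ0 : 0 ≤ CLJ := Finset.sum_nonneg fun j _ => hCL0 j
  have hCLj : ∀ j ∈ Finset.Icc 1 J, CL j ≤ CLJ := fun j hj =>
    Finset.single_le_sum (f := CL) (fun j _ => hCL0 j) hj
  set K0 : ℝ := Ct * 2 * Cs + Ct * (2 / ε) * CLJ with hK0
  have hK00 : 0 ≤ K0 := by positivity
  have hlim : Filter.Tendsto (fun N : ℕ => J * (1 / 2 * Real.exp (1 - N * ε / 2) * K0))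
      Filter.atTop (𝓝 0) := by
    have h1 : Filter.Tendsto (fun N : ℕ => 1 - (N : ℝ) * ε / 2) Filter.atTop Filter.atBot := by
      have h2 : Filter.Tendsto (fun N : ℕ => (N : ℝ) * (ε / 2)) Filter.atTop Filter.atTop :=
        Filter.Tendsto.atTop_mul_const (by positivity) tendsto_natCast_atTop_atTop
      have h3 := Filter.tendsto_atBot_add_const_left Filter.atTop (1 : ℝ)
        (Filter.tendsto_neg_atTop_atBot.comp h2)
      refine h3.congr ?_
      intro N
      simp only [Function.comp_apply]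
      ring
    have h2 := Real.tendsto_exp_atBot.comp h1
    have h3 := ((h2.const_mul (1 / 2)).mul_const K0).const_mul (J : ℝ)
    simp only [mul_zero, zero_mul] at h3
    exact h3
  have hbig : ∀ᶠ N : ℕ in Filter.atTop, 1 ≤ (N : ℝ) * ε / 2 := by
    have h2 : Filter.Tendsto (fun N : ℕ => (N : ℝ) * (ε / 2)) Filter.atTop Filter.atTop :=
      Filter.Tendsto.atTop_mul_const (by positivity) tendsto_natCast_atTop_atTop
    filter_upwards [h2.eventually_ge_atTop 1] with N hN
    linarith
  obtain ⟨N₀, hN₀⟩ := Filter.eventually_atTop.1 ((hlim.eventually (gt_mem_nhds one_pos)).and hbig)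
  refine ⟨N₀, fun N hN z hz hz1 k => ?_⟩
  obtain ⟨hsmall, hNε⟩ := hN₀ N hN
  have hσ := sg_pos hz
  -- derivative of each term
  have hterm : ∀ j ∈ Finset.Icc 1 J, DifferentiableAt ℝ
      (fun z => Dz B z ^ 2 * EE B N j z * (ww B ε j z : ℂ)) z := by
    intro j _
    exact (smooth_term hε (N := N) j hz).differentiableAt (by simp)
  have hsum : dbar k (uu B J N) z = ∑ j ∈ Finset.Icc 1 J,
      dbar k (fun z => Dz B z ^ 2 * EE B N j z * (ww B ε j z : ℂ)) z :=
    dbar_finsum _ hterm k
  rw [hsum]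
  set σ := sg B z with hσd
  -- pointwise bound
  have hpt : ∀ j ∈ Finset.Icc 1 J,
      ‖dbar k (fun z => Dz B z ^ 2 * EE B N j z * (ww B ε j z : ℂ)) z‖ ≤
      (if lm B j z < ε * σ then 1 / 2 * Real.exp 2 * Ct * Cs else 0) +
        1 / 2 * Real.exp (1 - N * ε / 2) * K0 := by
    intro j hj
    have hl := lm_pos hz j
    have hA : DifferentiableAt ℂ (fun z => Dz B z ^ 2 * EE B N j z) z :=
      ((contDiff_Dz.differentiable (by simp) z).pow 2).fun_mul (diff_EE hz)
    rw [dbar_comb hA (deriv_ww hε j hz) k]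
    rw [← hσd]
    set x1 := σ - 1 with hx1
    set x2 := 2 * lm B j z / (ε * σ) - 1 with hx2
    set S := fderiv ℂ (sz B) z (Pi.single k 1) with hS
    set L := fderiv ℂ (Qz B 1 j) z (Pi.single k 1) with hL
    set E := EE B N j z with hE
    have bS : ‖Dz B z ^ 2 * S‖ ≤ Cs := hCs z hz hz1 k
    have bL : ‖Dz B z ^ 2 * L‖ ≤ CLJ := (hCL j z hz hz1 k).trans (hCLj j hj)
    obtain ⟨a1, a2⟩ := st_mem x1
    obtain ⟨b1, b2⟩ := st_mem x2
    set α1 := deriv Real.smoothTransition x1 * (1 - Real.smoothTransition x2) with hα1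
    set α2 := Real.smoothTransition x1 *
      (deriv Real.smoothTransition x2 * (2 * lm B j z / (ε * σ ^ 2))) with hα2
    set β := Real.smoothTransition x1 * (deriv Real.smoothTransition x2 * (2 / (ε * σ))) with hβ
    have key : ‖Dz B z ^ 2 * E * (1 / 2 * (((-α1 - α2 : ℝ) : ℂ) * conj S + (β : ℂ) * conj L))‖ ≤
        1 / 2 * (‖E‖ * |α1|) * Cs + 1 / 2 * ((‖E‖ * |α2|) * Cs + (‖E‖ * |β|) * CLJ) := by
      have e1 : ‖Dz B z ^ 2 * E * (1 / 2 * (((-α1 - α2 : ℝ) : ℂ) * conj S + (β : ℂ) * conj L))‖ =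
          1 / 2 * ‖E‖ * (‖Dz B z ^ 2‖ * ‖((-α1 - α2 : ℝ) : ℂ) * conj S + (β : ℂ) * conj L‖) := by
        rw [norm_mul, norm_mul, norm_mul]
        have : ‖(1 / 2 : ℂ)‖ = 1 / 2 := by
          rw [norm_div]
          simp
        rw [this]
        ring
      rw [e1]
      have e2 : ‖Dz B z ^ 2‖ * ‖((-α1 - α2 : ℝ) : ℂ) * conj S + (β : ℂ) * conj L‖ ≤
          (|α1| + |α2|) * Cs + |β| * CLJ := by
        have e3 : ‖((-α1 - α2 : ℝ) : ℂ) * conj S + (β : ℂ) * conj L‖ ≤
            (|α1| + |α2|) * ‖S‖ + |β| * ‖L‖ := by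
          refine (norm_add_le _ _).trans ?_
          rw [norm_mul, norm_mul, norm_conj, norm_conj, norm_real, norm_real, Real.norm_eq_abs,
            Real.norm_eq_abs]
          have : |-α1 - α2| ≤ |α1| + |α2| := by
            have := abs_sub (-α1) α2
            rwa [abs_neg] at this
          gcongr
        calc ‖Dz B z ^ 2‖ * ‖((-α1 - α2 : ℝ) : ℂ) * conj S + (β : ℂ) * conj L‖ ≤
            ‖Dz B z ^ 2‖ * ((|α1| + |α2|) * ‖S‖ + |β| * ‖L‖) := by gcongr
          _ = (|α1| + |α2|) * ‖Dz B z ^ 2 * S‖ + |β| * ‖Dz B z ^ 2 * L‖ := by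
            rw [norm_mul, norm_mul]
            ring
          _ ≤ _ := by gcongr
      calc 1 / 2 * ‖E‖ * (‖Dz B z ^ 2‖ * ‖((-α1 - α2 : ℝ) : ℂ) * conj S + (β : ℂ) * conj L‖) ≤
          1 / 2 * ‖E‖ * ((|α1| + |α2|) * Cs + |β| * CLJ) := by gcongr
        _ = _ := by ring
    refine key.trans ?_
    -- main part
    have hmain : 1 / 2 * (‖E‖ * |α1|) * Cs ≤
        if lm B j z < ε * σ then 1 / 2 * Real.exp 2 * Ct * Cs else 0 := by
      split_ifs with hlt
      · have h1 : ‖E‖ * |α1| ≤ Real.exp 2 * Ct := by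
          rcases le_or_gt σ 2 with h | h
          · have h2 : ‖E‖ ≤ Real.exp 2 := by
              rw [hE, norm_EE]
              apply Real.exp_le_exp.2
              have : 0 ≤ (N : ℝ) * lm B j z := by positivity
              linarith
            have h3 : |α1| ≤ Ct := by
              rw [hα1, abs_mul]
              have h4 : |1 - Real.smoothTransition x2| ≤ 1 := by
                rw [abs_of_nonneg (by linarith)]
                linarith
              calc |deriv Real.smoothTransition x1| * |1 - Real.smoothTransition x2| ≤ Ct * 1 := by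
                    gcongr
                    exact hCt x1
                _ = Ct := mul_one _
            gcongr
          · have h2 : α1 = 0 := by
              rw [hα1, st_deriv_zero (Or.inr (by rw [hx1]; linarith)), zero_mul]
            rw [h2, abs_zero, mul_zero]
            positivity
        calc 1 / 2 * (‖E‖ * |α1|) * Cs ≤ 1 / 2 * (Real.exp 2 * Ct) * Cs := by gcongr
          _ = _ := by ring
      · have h2 : α1 = 0 := by
          rw [hα1, Real.smoothTransition.one_of_one_le, sub_self, mul_zero]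
          rw [hx2]
          push Not at hlt
          have h3 : 2 ≤ 2 * lm B j z / (ε * σ) := by
            rw [le_div_iff₀ (by positivity)]
            linarith
          linarith
        rw [h2, abs_zero, mul_zero, mul_zero, zero_mul]
    -- the rest
    have hrest : (‖E‖ * |α2|) * Cs + (‖E‖ * |β|) * CLJ ≤ Real.exp (1 - N * ε / 2) * K0 := by
      by_cases hcase : 1 < σ ∧ 0 ≤ x2 ∧ x2 ≤ 1
      · obtain ⟨c1, c2, c3⟩ := hcase
        have hE1 : ‖E‖ ≤ Real.exp (1 - N * ε / 2) := by
          apply EE_small hNε c1.le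
          rw [hx2] at c2
          have h3 : 1 ≤ 2 * lm B j z / (ε * σ) := by linarith
          rw [le_div_iff₀ (by positivity)] at h3
          linarith
        have hlε : lm B j z ≤ ε * σ := by
          rw [hx2] at c3
          have h3 : 2 * lm B j z / (ε * σ) ≤ 2 := by linarith
          rw [div_le_iff₀ (by positivity)] at h3
          linarith
        have g1 : |α2| ≤ Ct * 2 := by
          rw [hα2, abs_mul, abs_mul]
          have h4 : |2 * lm B j z / (ε * σ ^ 2)| ≤ 2 := by
            rw [abs_of_nonneg (by positivity), div_le_iff₀ (by positivity)]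
            have : ε * σ ≤ ε * σ ^ 2 := by
              have : σ ≤ σ ^ 2 := by nlinarith
              gcongr
            linarith
          have h5 : |Real.smoothTransition x1| ≤ 1 := by rwa [abs_of_nonneg a1]
          calc |Real.smoothTransition x1| * (|deriv Real.smoothTransition x2| *
                |2 * lm B j z / (ε * σ ^ 2)|) ≤ 1 * (Ct * 2) := by
                gcongr
                exact hCt x2
            _ = _ := by ring
        have g2 : |β| ≤ Ct * (2 / ε) := by
          rw [hβ, abs_mul, abs_mul]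
          have h4 : |2 / (ε * σ)| ≤ 2 / ε := by
            rw [abs_of_nonneg (by positivity)]
            apply div_le_div_of_nonneg_left (by norm_num) hε
            nlinarith
          have h5 : |Real.smoothTransition x1| ≤ 1 := by rwa [abs_of_nonneg a1]
          calc |Real.smoothTransition x1| * (|deriv Real.smoothTransition x2| *
                |2 / (ε * σ)|) ≤ 1 * (Ct * (2 / ε)) := by
                gcongr
                exact hCt x2
            _ = _ := by ring
        calc (‖E‖ * |α2|) * Cs + (‖E‖ * |β|) * CLJ ≤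
            (Real.exp (1 - N * ε / 2) * (Ct * 2)) * Cs +
              (Real.exp (1 - N * ε / 2) * (Ct * (2 / ε))) * CLJ := by gcongr
          _ = _ := by rw [hK0]; ring
      · have hz0 : Real.smoothTransition x1 * deriv Real.smoothTransition x2 = 0 := by
          by_cases h1 : 1 < σ
          · have h2 : x2 < 0 ∨ 1 < x2 := by
              by_contra h3
              push Not at h3
              exact hcase ⟨h1, h3.1, h3.2⟩
            rw [st_deriv_zero h2, mul_zero]
          · rw [Real.smoothTransition.zero_of_nonpos (by rw [hx1]; linarith), zero_mul]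
        have z1 : α2 = 0 := by
          rw [hα2, ← mul_assoc, hz0, zero_mul]
        have z2 : β = 0 := by
          rw [hβ, ← mul_assoc, hz0, zero_mul]
        rw [z1, z2, abs_zero, mul_zero, zero_mul, zero_mul, add_zero]
        positivity
    linarith
  refine (norm_sum_le _ _).trans ((Finset.sum_le_sum hpt).trans ?_)
  rw [Finset.sum_add_distrib]
  have h1 : ∑ j ∈ Finset.Icc 1 J, (if lm B j z < ε * σ then 1 / 2 * Real.exp 2 * Ct * Cs else 0) ≤
      1 / 2 * Real.exp 2 * Ct * Cs := by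
    rw [← Finset.sum_filter, Finset.sum_const, nsmul_eq_mul]
    have hcard : (Finset.filter (fun j => lm B j z < ε * σ) (Finset.Icc 1 J)).card ≤ 1 := by
      rw [Finset.card_le_one]
      intro i hi j hj
      rw [Finset.mem_filter, Finset.mem_Icc] at hi hj
      by_contra hij
      refine disj (J := J) (i := i) (j := j) hz hJ hi.1.2 hij (σ := σ) (sg_eq z) ?_ ?_
      · rw [← lm_eq]
        have : σ / (48 * (J : ℝ) ^ 2) = ε * σ := by
          rw [hεd]
          ring
        rw [this]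
        exact hi.2.le
      · rw [← lm_eq]
        have : σ / (48 * (J : ℝ) ^ 2) = ε * σ := by
          rw [hεd]
          ring
        rw [this]
        exact hj.2.le
    have hc : ((Finset.filter (fun j => lm B j z < ε * σ) (Finset.Icc 1 J)).card : ℝ) ≤ 1 := by
      exact_mod_cast hcard
    have hnn : 0 ≤ 1 / 2 * Real.exp 2 * Ct * Cs := by positivity
    nlinarith
  have h2 : ∑ _j ∈ Finset.Icc 1 J, 1 / 2 * Real.exp (1 - N * ε / 2) * K0 ≤ 1 := by
    rw [Finset.sum_const, nsmul_eq_mul]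
    simp only [Nat.card_Icc, Nat.add_sub_cancel]
    exact hsmall.le
  linarith

end Pool.Agent.Helper303.Mb
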