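import Mathlib

open MeasureTheory Set
open scoped ContDiff ComplexOrder

namespace Pool.Agent.Helper303.Mb

variable {ι : Type} [Fintype ι] [DecidableEq ι]

/-- `∂φ/∂z̄_k = (∂φ/∂x_k + i ∂φ/∂y_k)/2`, for functions on `ℂ^ι` (`ι` a finite index set). -/
noncomputable def dbar (k : ι) (φ : (ι → ℂ) → ℂ) (x : ι → ℂ) : ℂ :=
  (fderiv ℝ φ x (Pi.single k 1) + Complex.I * fderiv ℝ φ x (Pi.single k Complex.I)) / 2

/-- `φ` is a test function on `Ω`: smooth, with compact support contained in `Ω`. -/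
def IsTest (Ω : Set (ι → ℂ)) (φ : (ι → ℂ) → ℂ) : Prop :=
  ContDiff ℝ ∞ φ ∧ HasCompactSupport φ ∧ tsupport φ ⊆ Ω

/-- The `(0,1)`-form `f = ∑ f_k dz̄_k` (given by its coefficients) has `∂̄f = 0` on `Ω` in the
sense of distributions. -/
def DbarClosed (Ω : Set (ι → ℂ)) (f : (ι → ℂ) → (ι → ℂ)) : Prop :=
  ∀ j k : ι, ∀ φ, IsTest Ω φ → ∫ x in Ω, f x j * dbar k φ x = ∫ x in Ω, f x k * dbar j φ x

/-- `∂̄u = f` on `Ω` in the sense of distributions. -/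
def SolvesDbar (Ω : Set (ι → ℂ)) (u : (ι → ℂ) → ℂ) (f : (ι → ℂ) → (ι → ℂ)) : Prop :=
  ∀ j : ι, ∀ φ, IsTest Ω φ → ∫ x in Ω, u x * dbar j φ x = - ∫ x in Ω, f x j * φ x

/-- `Ω` admits sup-norm estimates for `∂̄`: there is a constant `c` such that every `∂̄`-closed
`(0,1)`-form `f` on `Ω` with (measurable) coefficients in `L^∞` and with
`ess sup (∑ |f_j|²)^{1/2} ≤ M` has a solution `u` of `∂̄u = f` with `ess sup |u| ≤ c M`. -/
def SupNormEstimates (Ω : Set (ι → ℂ)) : Prop :=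
  ∃ c : ℝ, ∀ (f : (ι → ℂ) → (ι → ℂ)) (M : ℝ),
    AEStronglyMeasurable f (volume.restrict Ω) →
    (∀ᵐ x ∂(volume.restrict Ω), Real.sqrt (∑ j, ‖f x j‖ ^ 2) ≤ M) →
    DbarClosed Ω f →
    ∃ u : (ι → ℂ) → ℂ, AEStronglyMeasurable u (volume.restrict Ω) ∧
      (∀ᵐ x ∂(volume.restrict Ω), ‖u x‖ ≤ c * M) ∧ SolvesDbar Ω u f

/-- The `∂̄`-equation in bidegree `(0,1)` admits uniform estimates on `Ω`: there is a constant `C`
such that for every smooth `∂̄`-closed `(0,1)`-form `g = ∑ g_k dz̄_k` on `Ω` with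
`sup_Ω max_k |g_k| ≤ M` there is a bounded measurable function `f` with `∂̄f = g` in the sense of
distributions and `|f| ≤ C M`. -/
def UniformEstimates01 (Ω : Set (ι → ℂ)) : Prop :=
  ∃ C : ℝ, ∀ (g : (ι → ℂ) → (ι → ℂ)) (M : ℝ),
    (∀ k, ContDiffOn ℝ ∞ (fun x => g x k) Ω) →
    (∀ x ∈ Ω, ∀ j k, dbar k (fun x => g x j) x = dbar j (fun x => g x k) x) →
    (∀ x ∈ Ω, ∀ k, ‖g x k‖ ≤ M) →
    ∃ f : (ι → ℂ) → ℂ, AEStronglyMeasurable f (volume.restrict Ω) ∧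
      (∀ᵐ x ∂(volume.restrict Ω), ‖f x‖ ≤ C * M) ∧ SolvesDbar Ω f g

/-- the `p × q` matrix with entries `z (i, j)` -/
def toMat {p q : ℕ} (z : Fin p × Fin q → ℂ) : Matrix (Fin p) (Fin q) ℂ := Matrix.of fun i j => z (i, j)

/-- The matrix ball `{Z ∈ ℂ^{p×q} : I_q - Z^* Z > 0}`. -/
def matrixBall (p q : ℕ) : Set (Fin p × Fin q → ℂ) :=
  {z | (1 - (toMat z).conjTranspose * toMat z).PosDef}

/-- The generalized unit disc `{Z ∈ M_n(ℂ) : I - Z Z^* > 0}`. -/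
def genDisc (n : ℕ) : Set (Fin n × Fin n → ℂ) :=
  {z | (1 - toMat z * (toMat z).conjTranspose).PosDef}

end Pool.Agent.Helper303.Mb
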