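import Pool.Agent.Helper303.MbMain

open MeasureTheory Set Complex
open scoped Real Topology ComplexConjugate ContDiff ComplexOrder

set_option linter.unusedSectionVars false

namespace Pool.Agent.Helper303.Mb

/-- strict contractions -/
def Con {p q : ℕ} (z : Fin p × Fin q → ℂ) : Prop :=
  ∀ x : Fin q → ℂ, x ≠ 0 → ∑ i, ‖∑ j, z (i, j) * x j‖ ^ 2 < ∑ j, ‖x j‖ ^ 2

lemma quad_eq {p q : ℕ} (z : Fin p × Fin q → ℂ) (x : Fin q → ℂ) :
    star x ⬝ᵥ Matrix.mulVec (1 - (toMat z).conjTranspose * toMat z) x =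
      ((∑ j, ‖x j‖ ^ 2 - ∑ i, ‖∑ j, z (i, j) * x j‖ ^ 2 : ℝ) : ℂ) := by
  rw [Matrix.sub_mulVec, Matrix.one_mulVec, dotProduct_sub, ← Matrix.mulVec_mulVec,
    Matrix.dotProduct_mulVec, ← Matrix.star_mulVec]
  have h : ∀ {m : ℕ} (y : Fin m → ℂ), star y ⬝ᵥ y = ((∑ j, ‖y j‖ ^ 2 : ℝ) : ℂ) := by
    intro m y
    unfold dotProduct
    push_cast
    apply Finset.sum_congr rfl
    intro i _
    rw [Pi.star_apply, Complex.star_def, mul_comm, mul_conj, normSq_eq_norm_sq]
    push_cast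
    rfl
  rw [h, h, ofReal_sub]
  rfl

lemma mem_matrixBall {p q : ℕ} (z : Fin p × Fin q → ℂ) : z ∈ matrixBall p q ↔ Con z := by
  unfold matrixBall
  rw [mem_ofPred_eq, Matrix.posDef_iff_dotProduct_mulVec]
  constructor
  · rintro ⟨_, h⟩ x hx
    have := h hx
    rw [quad_eq] at this
    have h2 : (0 : ℝ) < ∑ j, ‖x j‖ ^ 2 - ∑ i, ‖∑ j, z (i, j) * x j‖ ^ 2 := by exact_mod_cast this
    linarith
  · intro h
    refine ⟨?_, ?_⟩
    · apply Matrix.IsHermitian.sub Matrix.isHermitian_one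
      exact Matrix.isHermitian_conjTranspose_mul_self _
    · intro x hx
      rw [quad_eq]
      have := h x hx
      have h2 : (0 : ℝ) < ∑ j, ‖x j‖ ^ 2 - ∑ i, ‖∑ j, z (i, j) * x j‖ ^ 2 := by linarith
      exact_mod_cast h2

lemma mem_genDisc {n : ℕ} (z : Fin n × Fin n → ℂ) :
    z ∈ genDisc n ↔ (fun k : Fin n × Fin n => z (k.2, k.1)) ∈ matrixBall n n := by
  unfold genDisc matrixBall
  rw [mem_ofPred_eq, mem_ofPred_eq, ← Matrix.PosDef.transpose_iff]
  have e : (1 - toMat z * (toMat z).conjTranspose).transpose =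
      1 - (toMat (fun k : Fin n × Fin n => z (k.2, k.1))).conjTranspose *
        toMat (fun k : Fin n × Fin n => z (k.2, k.1)) := by
    rw [Matrix.transpose_sub, Matrix.transpose_one, Matrix.transpose_mul]
    rfl
  rw [e]

lemma isOpen_matrixBall (p q : ℕ) : IsOpen (matrixBall p q) := by
  set S : Set (Fin q → ℂ) := {x | ∑ j, ‖x j‖ ^ 2 = 1} with hS
  have hScl : IsClosed S := isClosed_eq (by fun_prop) continuous_const
  have hSb : S ⊆ Metric.closedBall 0 1 := by
    intro x hx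
    rw [mem_closedBall_zero_iff, pi_norm_le_iff_of_nonneg zero_le_one]
    intro i
    have h1 : ‖x i‖ ^ 2 ≤ ∑ j, ‖x j‖ ^ 2 :=
      Finset.single_le_sum (f := fun j => ‖x j‖ ^ 2) (fun j _ => by positivity) (Finset.mem_univ i)
    rw [hx] at h1
    nlinarith [norm_nonneg (x i)]
  have hSc : IsCompact S := (isCompact_closedBall 0 1).of_isClosed_subset hScl hSb
  have hiff : ∀ z : Fin p × Fin q → ℂ, z ∈ matrixBall p q ↔
      ∀ x ∈ S, ∑ i, ‖∑ j, z (i, j) * x j‖ ^ 2 < 1 := by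
    intro z
    rw [mem_matrixBall]
    constructor
    · intro h x hx
      have hx0 : x ≠ 0 := by
        rintro rfl
        simp [hS] at hx
      have := h x hx0
      rwa [hx] at this
    · intro h x hx
      have hpos : 0 < ∑ j, ‖x j‖ ^ 2 := by
        obtain ⟨j, hj⟩ := Function.ne_iff.1 hx
        apply Finset.sum_pos' (fun j _ => by positivity)
        exact ⟨j, Finset.mem_univ j, by
          have : 0 < ‖x j‖ := norm_pos_iff.2 hj
          positivity⟩
      set r := Real.sqrt (∑ j, ‖x j‖ ^ 2) with hr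
      have hr0 : 0 < r := Real.sqrt_pos.2 hpos
      have hr2 : r ^ 2 = ∑ j, ‖x j‖ ^ 2 := Real.sq_sqrt hpos.le
      have hy : (fun j => x j / (r : ℂ)) ∈ S := by
        show ∑ j, ‖x j / (r : ℂ)‖ ^ 2 = 1
        have : ∀ j, ‖x j / (r : ℂ)‖ ^ 2 = ‖x j‖ ^ 2 / r ^ 2 := by
          intro j
          rw [norm_div, norm_real, Real.norm_eq_abs, abs_of_pos hr0, div_pow]
        simp only [this]
        rw [← Finset.sum_div, hr2, div_self hpos.ne']
      have h1 := h _ hy
      have h2 : ∀ i, ‖∑ j, z (i, j) * (x j / (r : ℂ))‖ ^ 2 = ‖∑ j, z (i, j) * x j‖ ^ 2 / r ^ 2 := by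
        intro i
        have : ∑ j, z (i, j) * (x j / (r : ℂ)) = (∑ j, z (i, j) * x j) / (r : ℂ) := by
          rw [Finset.sum_div]
          apply Finset.sum_congr rfl
          intro j _
          ring
        rw [this, norm_div, norm_real, Real.norm_eq_abs, abs_of_pos hr0, div_pow]
      simp only [h2] at h1
      rw [← Finset.sum_div, hr2, div_lt_one hpos] at h1
      exact h1
  rw [isOpen_iff_mem_nhds]
  intro z hz
  rw [hiff] at hz
  have hev := hSc.eventually_forall_of_forall_eventually (x₀ := z)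
    (P := fun z x => ∑ i, ‖∑ j, z (i, j) * x j‖ ^ 2 < 1) (fun x hx => by
      have hc : Continuous fun w : (Fin p × Fin q → ℂ) × (Fin q → ℂ) =>
          ∑ i, ‖∑ j, w.1 (i, j) * w.2 j‖ ^ 2 := by fun_prop
      exact hc.continuousAt.eventually_lt continuousAt_const (hz x hx))
  filter_upwards [hev] with w hw
  rw [hiff]
  exact hw

lemma norm_le_matrixBall {p q : ℕ} {z : Fin p × Fin q → ℂ} (hz : z ∈ matrixBall p q) : ‖z‖ ≤ 1 := by
  rw [mem_matrixBall] at hz
  rw [pi_norm_le_iff_of_nonneg zero_le_one]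
  rintro ⟨i, j⟩
  have h := hz (Pi.single j 1) (by simp)
  have e1 : ∀ i, ∑ j', z (i, j') * (Pi.single j (1 : ℂ) : Fin q → ℂ) j' = z (i, j) := by
    intro i
    simp [Pi.single_apply]
  have e2 : ∑ j', ‖(Pi.single j (1 : ℂ) : Fin q → ℂ) j'‖ ^ 2 = 1 := by
    rw [Finset.sum_eq_single j]
    · simp
    · intro b _ hb
      simp [hb]
    · simp
  simp only [e1, e2] at h
  have h1 : ‖z (i, j)‖ ^ 2 ≤ ∑ i, ‖z (i, j)‖ ^ 2 :=
    Finset.single_le_sum (f := fun i => ‖z (i, j)‖ ^ 2) (fun j _ => by positivity) (Finset.mem_univ i)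
  nlinarith [norm_nonneg (z (i, j))]

/-- the block -/
def blk (p q : ℕ) : Blk (Fin (p + 2) × Fin (q + 2)) where
  k11 := (0, 0)
  k12 := (0, 1)
  k21 := (1, 0)
  k22 := (1, 1)
  h1 := by simp
  h2 := by simp
  h3 := by simp
  h4 := by simp
  h5 := by simp
  h6 := by simp

/-- the transposed block -/
def blkT (n : ℕ) : Blk (Fin (n + 2) × Fin (n + 2)) where
  k11 := (0, 0)
  k12 := (1, 0)
  k21 := (0, 1)
  k22 := (1, 1)
  h1 := by simp
  h2 := by simp
  h3 := by simp
  h4 := by simp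
  h5 := by simp
  h6 := by simp

lemma matrixBall_CB (p q : ℕ) : matrixBall (p + 2) (q + 2) ⊆ CB (blk p q) := by
  intro z hz
  rw [mem_matrixBall] at hz
  rw [mem_CB]
  show Ctr (z (0, 0)) (z (0, 1)) (z (1, 0)) (z (1, 1))
  intro v w hvw
  set x : Fin (q + 2) → ℂ := Pi.single 0 v + Pi.single 1 w with hx
  have h01 : (0 : Fin (q + 2)) ≠ 1 := by simp
  have x0 : x 0 = v := by simp [hx, h01]
  have x1 : x 1 = w := by simp [hx, h01.symm]
  have hxne : x ≠ 0 := by
    rintro h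
    rcases hvw with hv | hw
    · exact hv (by rw [← x0, h]; rfl)
    · exact hw (by rw [← x1, h]; rfl)
  have h := hz x hxne
  have e1 : ∀ i, ∑ j, z (i, j) * x j = z (i, 0) * v + z (i, 1) * w := by
    intro i
    simp only [hx, Pi.add_apply, mul_add, Finset.sum_add_distrib]
    simp [Pi.single_apply]
  have e2 : ∑ j, ‖x j‖ ^ 2 = ‖v‖ ^ 2 + ‖w‖ ^ 2 := by
    rw [Fin.sum_univ_succ, Fin.sum_univ_succ]
    have : ∀ j : Fin q, ‖x (Fin.succ (Fin.succ j))‖ ^ 2 = 0 := by
      intro j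
      have a0 : (Fin.succ (Fin.succ j) : Fin (q + 2)) ≠ 0 := Fin.succ_ne_zero _
      have a1 : (Fin.succ (Fin.succ j) : Fin (q + 2)) ≠ 1 := by
        intro h
        have := congrArg Fin.val h
        simp at this
      simp [hx, a0, a1]
    simp only [this, Finset.sum_const_zero, add_zero]
    rw [x0]
    have : (Fin.succ 0 : Fin (q + 2)) = 1 := rfl
    rw [this, x1]
  simp only [e1, e2] at h
  rw [Fin.sum_univ_succ, Fin.sum_univ_succ] at h
  have h3 : 0 ≤ ∑ i : Fin p, ‖z (Fin.succ (Fin.succ i), 0) * v + z (Fin.succ (Fin.succ i), 1) * w‖ ^ 2 :=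
    Finset.sum_nonneg fun i _ => by positivity
  have h4 : (Fin.succ 0 : Fin (p + 2)) = 1 := rfl
  rw [h4] at h
  linarith

lemma slice_matrixBall (p q : ℕ) {z0 zi z1 : ℂ} (hP : Pos z0 zi z1) :
    sl (blk p q) z0 zi z1 ∈ matrixBall (p + 2) (q + 2) := by
  rw [mem_matrixBall]
  have hC := Z_ctr hP
  intro x hx
  have e0 : ∀ i : Fin p, ∀ j, sl (blk p q) z0 zi z1 (Fin.succ (Fin.succ i), j) = 0 := by
    intro i j
    have a0 : (Fin.succ (Fin.succ i) : Fin (p + 2)) ≠ 0 := Fin.succ_ne_zero _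
    have a1 : (Fin.succ (Fin.succ i) : Fin (p + 2)) ≠ 1 := by
      intro h
      have := congrArg Fin.val h
      simp at this
    simp [sl, blk, a0, a1]
  have e0' : ∀ i, ∀ j : Fin q, sl (blk p q) z0 zi z1 (i, Fin.succ (Fin.succ j)) = 0 := by
    intro i j
    have a0 : (Fin.succ (Fin.succ j) : Fin (q + 2)) ≠ 0 := Fin.succ_ne_zero _
    have a1 : (Fin.succ (Fin.succ j) : Fin (q + 2)) ≠ 1 := by
      intro h
      have := congrArg Fin.val h
      simp at this
    simp [sl, blk, a0, a1]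
  have h4 : (Fin.succ 0 : Fin (p + 2)) = 1 := rfl
  have h5 : (Fin.succ 0 : Fin (q + 2)) = 1 := rfl
  have r0 : ∑ j, sl (blk p q) z0 zi z1 (0, j) * x j = Za z0 zi z1 * x 0 + Zb z0 zi z1 * x 1 := by
    rw [Fin.sum_univ_succ, Fin.sum_univ_succ]
    simp only [e0', zero_mul, Finset.sum_const_zero, add_zero]
    rw [h5]
    have s1 := sl_11 (B := blk p q) z0 zi z1
    have s2 := sl_12 (B := blk p q) z0 zi z1
    rw [show (blk p q).k11 = (0, 0) from rfl] at s1
    rw [show (blk p q).k12 = (0, 1) from rfl] at s2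
    rw [s1, s2]
  have r1 : ∑ j, sl (blk p q) z0 zi z1 (1, j) * x j = Zb z0 zi z1 * x 0 + Zd z0 zi z1 * x 1 := by
    rw [Fin.sum_univ_succ, Fin.sum_univ_succ]
    simp only [e0', zero_mul, Finset.sum_const_zero, add_zero]
    rw [h5]
    have s1 := sl_21 (B := blk p q) z0 zi z1
    have s2 := sl_22 (B := blk p q) z0 zi z1
    rw [show (blk p q).k21 = (1, 0) from rfl] at s1
    rw [show (blk p q).k22 = (1, 1) from rfl] at s2
    rw [s1, s2]
  have lhs : ∑ i, ‖∑ j, sl (blk p q) z0 zi z1 (i, j) * x j‖ ^ 2 =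
      ‖Za z0 zi z1 * x 0 + Zb z0 zi z1 * x 1‖ ^ 2 + ‖Zb z0 zi z1 * x 0 + Zd z0 zi z1 * x 1‖ ^ 2 := by
    have hs : ∀ f : Fin (p + 2) → ℝ, ∑ i, f i = f 0 + f 1 + ∑ i : Fin p, f (Fin.succ (Fin.succ i)) := by
      intro f
      rw [Fin.sum_univ_succ, Fin.sum_univ_succ, h4]
      ring
    rw [hs, r0, r1]
    simp only [e0, zero_mul, Finset.sum_const_zero, norm_zero]
    simp
  rw [lhs]
  have rhs : ∑ j, ‖x j‖ ^ 2 = ‖x 0‖ ^ 2 + ‖x 1‖ ^ 2 + ∑ j : Fin q, ‖x (Fin.succ (Fin.succ j))‖ ^ 2 := by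
    rw [Fin.sum_univ_succ, Fin.sum_univ_succ, h5]
    ring
  by_cases h : x 0 ≠ 0 ∨ x 1 ≠ 0
  · have h1 := hC (x 0) (x 1) h
    have h2 : 0 ≤ ∑ j : Fin q, ‖x (Fin.succ (Fin.succ j))‖ ^ 2 :=
      Finset.sum_nonneg fun i _ => by positivity
    rw [rhs]
    linarith
  · push Not at h
    rw [h.1, h.2]
    simp only [mul_zero, add_zero, norm_zero]
    have hpos : 0 < ∑ j, ‖x j‖ ^ 2 := by
      obtain ⟨j, hj⟩ := Function.ne_iff.1 hx
      apply Finset.sum_pos' (fun j _ => by positivity)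
      exact ⟨j, Finset.mem_univ j, by
        have : 0 < ‖x j‖ := norm_pos_iff.2 hj
        positivity⟩
    simpa using hpos

theorem matrixBall_sup (p q : ℕ) : ¬ SupNormEstimates (matrixBall (p + 2) (q + 2)) :=
  not_sup (blk p q) (isOpen_matrixBall _ _) (matrixBall_CB p q) (fun _ hz => norm_le_matrixBall hz)
    (fun _ _ _ h => slice_matrixBall p q h)

lemma isOpen_genDisc (n : ℕ) : IsOpen (genDisc n) := by
  have e : genDisc n = (fun (z : Fin n × Fin n → ℂ) (k : Fin n × Fin n) => z (k.2, k.1)) ⁻¹'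
      matrixBall n n := by
    ext z
    exact mem_genDisc z
  rw [e]
  exact (isOpen_matrixBall n n).preimage (by fun_prop)

theorem genDisc_uniform (n : ℕ) : ¬ UniformEstimates01 (genDisc (n + 2)) := by
  apply not_uniform (blkT n) (isOpen_genDisc _)
  · intro z hz
    rw [mem_genDisc] at hz
    exact matrixBall_CB n n hz
  · intro z hz
    rw [mem_genDisc] at hz
    have h := norm_le_matrixBall hz
    rw [pi_norm_le_iff_of_nonneg zero_le_one] at h ⊢
    rintro ⟨i, j⟩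
    exact h (j, i)
  · intro z0 zi z1 hP
    rw [mem_genDisc]
    have h := slice_matrixBall n n hP
    have e : (fun k : Fin (n + 2) × Fin (n + 2) => sl (blkT n) z0 zi z1 (k.2, k.1)) =
        sl (blk n n) z0 zi z1 := by
      funext k
      obtain ⟨i, j⟩ := k
      simp only [sl, blk, blkT, Prod.mk.injEq]
      congr 1
      · simp [and_comm]
      congr 1
      · simp [and_comm]
      congr 1
      simp [and_comm]
    rw [e]
    exact h

end Pool.Agent.Helper303.Mb
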