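import Pool.Agent.Helper303.MbDom

open MeasureTheory Set Complex
open scoped Real Topology ComplexConjugate ContDiff ComplexOrder

set_option linter.unusedSectionVars false

namespace Pool.Agent.Helper303.Mb

lemma convex_sq {a b : ℝ} (ha : 0 ≤ a) (hb : 0 ≤ b) (hab : a + b = 1) (v u : ℂ) :
    ‖(a : ℂ) * v + (b : ℂ) * u‖ ^ 2 ≤ a * ‖v‖ ^ 2 + b * ‖u‖ ^ 2 := by
  have h1 : ‖(a : ℂ) * v + (b : ℂ) * u‖ ≤ a * ‖v‖ + b * ‖u‖ := by
    refine (norm_add_le _ _).trans ?_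
    rw [norm_mul, norm_mul, norm_real, norm_real, Real.norm_eq_abs, Real.norm_eq_abs,
      abs_of_nonneg ha, abs_of_nonneg hb]
  have h2 : ‖(a : ℂ) * v + (b : ℂ) * u‖ ^ 2 ≤ (a * ‖v‖ + b * ‖u‖) ^ 2 := by gcongr
  refine h2.trans ?_
  have e : a * ‖v‖ ^ 2 + b * ‖u‖ ^ 2 - (a * ‖v‖ + b * ‖u‖) ^ 2 = a * b * (‖v‖ - ‖u‖) ^ 2 := by
    have hb' : b = 1 - a := by linarith
    subst hb'
    ring
  have : 0 ≤ a * b * (‖v‖ - ‖u‖) ^ 2 := by positivity
  linarith

lemma convex_matrixBall (p q : ℕ) : Convex ℝ (matrixBall p q) := by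
  intro z hz w hw a b ha hb hab
  rw [mem_matrixBall] at hz hw ⊢
  intro x hx
  have h1 := hz x hx
  have h2 := hw x hx
  have e : ∀ i, ∑ j, (a • z + b • w) (i, j) * x j =
      (a : ℂ) * (∑ j, z (i, j) * x j) + (b : ℂ) * ∑ j, w (i, j) * x j := by
    intro i
    rw [Finset.mul_sum, Finset.mul_sum, ← Finset.sum_add_distrib]
    apply Finset.sum_congr rfl
    intro j _
    simp only [Pi.add_apply, Pi.smul_apply, Complex.real_smul]
    ring
  simp only [e]
  calc ∑ i, ‖(a : ℂ) * (∑ j, z (i, j) * x j) + (b : ℂ) * ∑ j, w (i, j) * x j‖ ^ 2 ≤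
      ∑ i, (a * ‖∑ j, z (i, j) * x j‖ ^ 2 + b * ‖∑ j, w (i, j) * x j‖ ^ 2) :=
        Finset.sum_le_sum fun i _ => convex_sq ha hb hab _ _
    _ = a * (∑ i, ‖∑ j, z (i, j) * x j‖ ^ 2) + b * ∑ i, ‖∑ j, w (i, j) * x j‖ ^ 2 := by
        rw [Finset.sum_add_distrib, Finset.mul_sum, Finset.mul_sum]
    _ < a * (∑ j, ‖x j‖ ^ 2) + b * ∑ j, ‖x j‖ ^ 2 := by
        rcases ha.eq_or_lt with h | h
        · have hb1 : b = 1 := by linarith
          rw [← h, hb1]
          linarith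
        · have := mul_lt_mul_of_pos_left h1 h
          have := mul_le_mul_of_nonneg_left h2.le hb
          linarith
    _ = ∑ j, ‖x j‖ ^ 2 := by rw [← add_mul, hab, one_mul]

lemma zero_mem_matrixBall (p q : ℕ) : (0 : Fin p × Fin q → ℂ) ∈ matrixBall p q := by
  rw [mem_matrixBall]
  intro x hx
  have hpos : 0 < ∑ j, ‖x j‖ ^ 2 := by
    obtain ⟨j, hj⟩ := Function.ne_iff.1 hx
    apply Finset.sum_pos' (fun j _ => by positivity)
    exact ⟨j, Finset.mem_univ j, by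
      have : 0 < ‖x j‖ := norm_pos_iff.2 hj
      positivity⟩
  simpa using hpos

lemma circular_matrixBall {p q : ℕ} {z : Fin p × Fin q → ℂ} (hz : z ∈ matrixBall p q) {c : ℂ}
    (hc : ‖c‖ = 1) : (fun k => c * z k) ∈ matrixBall p q := by
  rw [mem_matrixBall] at hz ⊢
  intro x hx
  have h := hz x hx
  have e : ∀ i, ‖∑ j, c * z (i, j) * x j‖ = ‖∑ j, z (i, j) * x j‖ := by
    intro i
    have : ∑ j, c * z (i, j) * x j = c * ∑ j, z (i, j) * x j := by
      rw [Finset.mul_sum]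
      apply Finset.sum_congr rfl
      intro j _
      ring
    rw [this, norm_mul, hc, one_mul]
  simp only [e]
  exact h

lemma bounded_matrixBall (p q : ℕ) : Bornology.IsBounded (matrixBall p q) := by
  apply (Metric.isBounded_closedBall (x := (0 : Fin p × Fin q → ℂ)) (r := 1)).subset
  intro z hz
  rw [mem_closedBall_zero_iff]
  exact norm_le_matrixBall hz

end Pool.Agent.Helper303.Mb
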