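import Pool.Agent.Helper303.MbAlg
import Pool.Agent.Helper303.MbCalc

open MeasureTheory Set Complex
open scoped Real Topology ComplexConjugate ContDiff

set_option linter.unusedSectionVars false

namespace Pool.Agent.Helper303.Mb

variable {ι : Type} [Fintype ι] [DecidableEq ι]

/-- positions of a `2 × 2` block -/
structure Blk (ι : Type) where
  k11 : ι
  k12 : ι
  k21 : ι
  k22 : ι
  h1 : k11 ≠ k12
  h2 : k11 ≠ k21
  h3 : k11 ≠ k22
  h4 : k12 ≠ k21
  h5 : k12 ≠ k22
  h6 : k21 ≠ k22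

variable (B : Blk ι)

def Dz (z : ι → ℂ) : ℂ := Dt (z B.k11) (z B.k12) (z B.k21) (z B.k22)

def Pz (x y : ℝ) (z : ι → ℂ) : ℂ := Pn x y (z B.k11) (z B.k12) (z B.k21) (z B.k22)

noncomputable def Qz (x y : ℝ) (z : ι → ℂ) : ℂ := Qf x y (z B.k11) (z B.k12) (z B.k21) (z B.k22)

/-- the block is a strict contraction -/
def CB : Set (ι → ℂ) := {z | Ctr (z B.k11) (z B.k12) (z B.k21) (z B.k22)}

variable {B}

lemma mem_CB {z : ι → ℂ} : z ∈ CB B ↔ Ctr (z B.k11) (z B.k12) (z B.k21) (z B.k22) := Iff.rfl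

lemma Dz_ne {z : ι → ℂ} (h : z ∈ CB B) : Dz B z ≠ 0 := Dt_ne h

lemma contDiff_Dz : ContDiff ℂ ∞ (Dz B) := by
  have h : ∀ j : ι, ContDiff ℂ ∞ (fun p : ι → ℂ => p j) := fun j => contDiff_apply ℂ ℂ j
  have h1 := h B.k11
  have h2 := h B.k12
  have h3 := h B.k21
  have h4 := h B.k22
  unfold Dz Dt
  exact ((contDiff_const.add h1).mul (contDiff_const.add h4)).sub (h2.mul h3)

lemma contDiff_Pz (x y : ℝ) : ContDiff ℂ ∞ (Pz B x y) := by
  have h : ∀ j : ι, ContDiff ℂ ∞ (fun p : ι → ℂ => p j) := fun j => contDiff_apply ℂ ℂ j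
  have h1 := h B.k11
  have h2 := h B.k12
  have h3 := h B.k21
  have h4 := h B.k22
  unfold Pz Pn
  exact (contDiff_const.mul ((((contDiff_const.add h4).mul contDiff_const).sub
    (((h2.add h3).mul contDiff_const).mul contDiff_const)).add
    ((contDiff_const.add h1).mul contDiff_const))).sub (contDiff_const.mul contDiff_Dz)

lemma Qz_eq (x y : ℝ) (z : ι → ℂ) : Qz B x y z = Pz B x y z / Dz B z := rfl

/-- holomorphic functions of the form `P/Δ` -/
lemma diff_quot {P : (ι → ℂ) → ℂ} (hP : ContDiff ℂ ∞ P) {z : ι → ℂ} (hz : z ∈ CB B) :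
    DifferentiableAt ℂ (fun z => P z / Dz B z) z := by
  simp only [div_eq_mul_inv]
  exact (hP.differentiable (by simp) z).fun_mul
    ((contDiff_Dz.differentiable (by simp) z).fun_inv (Dz_ne hz))

lemma smooth_quot {P : (ι → ℂ) → ℂ} (hP : ContDiff ℂ ∞ P) {z : ι → ℂ} (hz : z ∈ CB B) :
    ContDiffAt ℝ ∞ (fun z => P z / Dz B z) z := by
  simp only [div_eq_mul_inv]
  exact (hP.contDiffAt.restrict_scalars ℝ).mul
    ((contDiff_Dz.contDiffAt.restrict_scalars ℝ).inv (Dz_ne hz))

lemma bound_quot {P : (ι → ℂ) → ℂ} (hP : ContDiff ℂ ∞ P) : ∃ C : ℝ, 0 ≤ C ∧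
    ∀ z ∈ CB B, ‖z‖ ≤ 1 → ∀ k : ι,
      ‖Dz B z ^ 2 * fderiv ℂ (fun z => P z / Dz B z) z (Pi.single k 1)‖ ≤ C := by
  have hK : IsCompact (Metric.closedBall (0 : ι → ℂ) 1) := isCompact_closedBall _ _
  obtain ⟨C1, hC1⟩ := hK.exists_bound_of_continuousOn hP.continuous.continuousOn
  obtain ⟨C2, hC2⟩ := hK.exists_bound_of_continuousOn
    (hP.continuous_fderiv (by simp)).continuousOn
  obtain ⟨C3, hC3⟩ := hK.exists_bound_of_continuousOn
    (contDiff_Dz (B := B)).continuous.continuousOn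
  obtain ⟨C4, hC4⟩ := hK.exists_bound_of_continuousOn
    ((contDiff_Dz (B := B)).continuous_fderiv (by simp)).continuousOn
  have h00 : (0 : ι → ℂ) ∈ Metric.closedBall (0 : ι → ℂ) 1 :=
    Metric.mem_closedBall_self (by norm_num)
  have p1 : 0 ≤ C1 := (norm_nonneg _).trans (hC1 0 h00)
  have p2 : 0 ≤ C2 := (norm_nonneg _).trans (hC2 0 h00)
  have p3 : 0 ≤ C3 := (norm_nonneg _).trans (hC3 0 h00)
  have p4 : 0 ≤ C4 := (norm_nonneg _).trans (hC4 0 h00)
  refine ⟨C3 * C2 + C1 * C4, by positivity, ?_⟩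
  intro z hz hz1 k
  have hzb : z ∈ Metric.closedBall (0 : ι → ℂ) 1 := mem_closedBall_zero_iff.2 hz1
  have hD := Dz_ne hz
  set g := fun z => P z / Dz B z with hg
  have hgd : DifferentiableAt ℂ g z := diff_quot hP hz
  have hPd : DifferentiableAt ℂ P z := hP.differentiable (by simp) z
  have hDd : DifferentiableAt ℂ (Dz B) z := contDiff_Dz.differentiable (by simp) z
  have hne : ∀ᶠ y in 𝓝 z, Dz B y ≠ 0 := contDiff_Dz.continuous.continuousAt.eventually_ne hD
  have heq : P =ᶠ[𝓝 z] fun y => g y * Dz B y := by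
    filter_upwards [hne] with y hy
    simp only [hg]
    rw [div_mul_cancel₀ _ hy]
  have h1 : fderiv ℂ P z = g z • fderiv ℂ (Dz B) z + Dz B z • fderiv ℂ g z := by
    rw [heq.fderiv_eq, fderiv_fun_mul hgd hDd]
  set v : ι → ℂ := Pi.single k 1 with hv
  have hv1 : ‖v‖ ≤ 1 := by
    rw [pi_norm_le_iff_of_nonneg (by norm_num)]
    intro i
    rw [hv]
    by_cases hik : i = k
    · subst hik
      rw [Pi.single_eq_same, norm_one]
    · rw [Pi.single_eq_of_ne hik, norm_zero]
      norm_num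
  have h2 : Dz B z ^ 2 * fderiv ℂ g z v =
      Dz B z * fderiv ℂ P z v - P z * fderiv ℂ (Dz B) z v := by
    rw [h1]
    simp only [add_apply, smul_apply, smul_eq_mul]
    have h3 : P z = g z * Dz B z := by
      simp only [hg]
      rw [div_mul_cancel₀ _ hD]
    rw [h3]
    ring
  rw [h2]
  refine (norm_sub_le _ _).trans ?_
  rw [norm_mul, norm_mul]
  have b2 : ‖fderiv ℂ P z v‖ ≤ C2 :=
    ((fderiv ℂ P z).le_opNorm v).trans (by
      calc ‖fderiv ℂ P z‖ * ‖v‖ ≤ C2 * 1 := by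
            gcongr
            exact hC2 z hzb
        _ = C2 := mul_one _)
  have b4 : ‖fderiv ℂ (Dz B) z v‖ ≤ C4 :=
    ((fderiv ℂ (Dz B) z).le_opNorm v).trans (by
      calc ‖fderiv ℂ (Dz B) z‖ * ‖v‖ ≤ C4 * 1 := by
            gcongr
            exact hC4 z hzb
        _ = C4 := mul_one _)
  have b1 := hC1 z hzb
  have b3 := hC3 z hzb
  gcongr

/-- `∂̄_k (A w)` for `A` holomorphic and `w` real with derivative `α Re ds + β Re dℓ` -/
lemma dbar_comb {A : (ι → ℂ) → ℂ} {w : (ι → ℂ) → ℝ} {z : ι → ℂ} (hA : DifferentiableAt ℂ A z)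
    {S L : (ι → ℂ) →L[ℂ] ℂ} {α β : ℝ}
    (hw : HasFDerivAt w (α • (reCLM.comp (S.restrictScalars ℝ)) +
      β • (reCLM.comp (L.restrictScalars ℝ))) z) (k : ι) :
    dbar k (fun z => A z * (w z : ℂ)) z =
      A z * ((1 / 2) * (α * conj (S (Pi.single k 1)) + β * conj (L (Pi.single k 1)))) := by
  have hA' := hA.hasFDerivAt.restrictScalars ℝ
  have hw' : HasFDerivAt (fun z => (w z : ℂ)) (ofRealCLM.comp (α • (reCLM.comp (S.restrictScalars ℝ)) +
      β • (reCLM.comp (L.restrictScalars ℝ)))) z := ofRealCLM.hasFDerivAt.comp z hw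
  have h := (hA'.fun_mul hw').fderiv
  unfold dbar
  rw [h]
  have hI : ∀ T : (ι → ℂ) →L[ℂ] ℂ, T (Pi.single k I) = I * T (Pi.single k 1) := by
    intro T
    have : (Pi.single k I : ι → ℂ) = I • Pi.single k 1 := by
      rw [← Pi.single_smul]
      simp
    rw [this, map_smul, smul_eq_mul]
  simp only [add_apply, ContinuousLinearMap.coe_restrictScalars', smul_apply, smul_eq_mul,
    ContinuousLinearMap.comp_apply, hI, reCLM_apply, ofRealCLM_apply]
  set s := S (Pi.single k 1)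
  set l := L (Pi.single k 1)
  set a := (fderiv ℂ A z) (Pi.single k 1)
  have e1 : (I * s).re = -s.im := by simp
  have e2 : (I * l).re = -l.im := by simp
  rw [e1, e2]
  have e3 : conj s = s.re - s.im * I := by
    apply Complex.ext <;> simp
  have e4 : conj l = l.re - l.im * I := by
    apply Complex.ext <;> simp
  rw [e3, e4]
  push_cast
  ring_nf
  simp only [Complex.I_sq]
  ring

/-- bound for the derivative of the smooth step -/
lemma st_deriv_bound : ∃ C : ℝ, 0 ≤ C ∧ ∀ x, |deriv Real.smoothTransition x| ≤ C := by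
  have hcd : ContDiff ℝ ∞ Real.smoothTransition := Real.smoothTransition.contDiff
  have hc : Continuous (deriv Real.smoothTransition) := hcd.continuous_deriv (by simp)
  obtain ⟨C, hC⟩ := (isCompact_Icc (a := (0 : ℝ)) (b := 1)).exists_bound_of_continuousOn
    hc.continuousOn
  refine ⟨C, (norm_nonneg _).trans (hC 0 ⟨le_rfl, by norm_num⟩), fun x => ?_⟩
  have hC0 : 0 ≤ C := (norm_nonneg _).trans (hC 0 ⟨le_rfl, by norm_num⟩)
  by_cases hx : x ∈ Icc (0 : ℝ) 1
  · exact hC x hx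
  · have h0 : deriv Real.smoothTransition x = 0 := by
      rcases not_and_or.1 hx with h | h
      · have h1 : Real.smoothTransition =ᶠ[𝓝 x] fun _ => 0 := by
          filter_upwards [gt_mem_nhds (not_le.1 h)] with y hy
          exact Real.smoothTransition.zero_of_nonpos hy.le
        rw [h1.deriv_eq]
        simp
      · have h1 : Real.smoothTransition =ᶠ[𝓝 x] fun _ => 1 := by
          filter_upwards [lt_mem_nhds (not_le.1 h)] with y hy
          exact Real.smoothTransition.one_of_one_le hy.le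
        rw [h1.deriv_eq]
        simp
    rw [h0, abs_zero]
    exact hC0

lemma st_deriv_zero {x : ℝ} (h : x < 0 ∨ 1 < x) : deriv Real.smoothTransition x = 0 := by
  rcases h with h | h
  · have h1 : Real.smoothTransition =ᶠ[𝓝 x] fun _ => 0 := by
      filter_upwards [gt_mem_nhds h] with y hy
      exact Real.smoothTransition.zero_of_nonpos hy.le
    rw [h1.deriv_eq]
    simp
  · have h1 : Real.smoothTransition =ᶠ[𝓝 x] fun _ => 1 := by
      filter_upwards [lt_mem_nhds h] with y hy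
      exact Real.smoothTransition.one_of_one_le hy.le
    rw [h1.deriv_eq]
    simp

end Pool.Agent.Helper303.Mb
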