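import Mathlib

open MeasureTheory Set Complex
open scoped Real Topology ComplexConjugate

namespace Pool.Agent.Helper303.Mb

/-- integrals over the imaginary axis of functions holomorphic in the right half-plane -/
lemma half_plane {g : ℂ → ℂ} {C : ℝ} (hC : 0 ≤ C) (hd : ∀ ζ : ℂ, 0 ≤ ζ.re → DifferentiableAt ℂ g ζ)
    (hb : ∀ ζ : ℂ, 0 ≤ ζ.re → ‖g ζ‖ ≤ C / (1 + ‖ζ‖) ^ 2) : ∫ x : ℝ, g (x * I) = 0 := by
  have hcont : Continuous fun x : ℝ => g (x * I) := by
    rw [continuous_iff_continuousAt]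
    intro x
    have h1 : ContinuousAt g (x * I) := (hd _ (by simp)).continuousAt
    exact ContinuousAt.comp (g := g) (f := fun x : ℝ => (x : ℂ) * I) h1 (by fun_prop)
  have hint : Integrable fun x : ℝ => g (x * I) := by
    apply (integrable_inv_one_add_sq.const_mul C).mono' hcont.aestronglyMeasurable
    filter_upwards with x
    have h1 := hb (x * I) (by simp)
    have h2 : ‖(x : ℂ) * I‖ = |x| := by simp
    rw [h2] at h1
    refine h1.trans ?_
    rw [div_eq_mul_inv]
    gcongr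
    have : |x| ^ 2 = x ^ 2 := sq_abs x
    nlinarith [abs_nonneg x]
  have hlim := intervalIntegral_tendsto_integral hint
    (Filter.tendsto_neg_atTop_atBot) (Filter.tendsto_id (α := ℝ) (x := Filter.atTop))
  have hsmall : ∀ R : ℝ, 0 < R → ‖∫ x in (-R)..R, g (x * I)‖ ≤ 4 * C / R := by
    intro R hR
    have h := integral_boundary_rect_eq_zero_of_differentiableOn g (-(R : ℂ) * I) (R + R * I) (by
      intro ζ hζ
      apply DifferentiableAt.differentiableWithinAt
      apply hd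
      have h1 := hζ.1
      simp only [neg_mul, neg_re, mul_re, ofReal_re, I_re, mul_zero, ofReal_im, I_im, mul_one,
        sub_self, neg_zero, add_re, add_zero, mem_preimage] at h1
      rw [uIcc_of_le hR.le] at h1
      exact h1.1)
    simp only [neg_mul, neg_re, mul_re, ofReal_re, I_re, mul_zero, ofReal_im, I_im, mul_one,
        sub_self, neg_zero, add_re, add_zero, neg_im, mul_im, zero_add, add_im, ofReal_neg,
        ofReal_zero] at h
    have hbound : ∀ ζ : ℂ, 0 ≤ ζ.re → R ≤ ‖ζ‖ → ‖g ζ‖ ≤ C / R ^ 2 := by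
      intro ζ h1 h2
      refine (hb ζ h1).trans ?_
      gcongr
      linarith
    have b1 : ‖∫ x in (0 : ℝ)..R, g (x + -(R * I))‖ ≤ C / R := by
      have := intervalIntegral.norm_integral_le_of_norm_le_const (a := 0) (b := R)
        (f := fun x : ℝ => g (x + -(R * I))) (C := C / R ^ 2) (by
          intro x hx
          rw [uIoc_of_le hR.le] at hx
          apply hbound
          · simp [hx.1.le]
          · have h3 := abs_im_le_norm ((x : ℂ) + -(R * I))
            simp [abs_of_pos hR] at h3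
            exact h3)
      rw [sub_zero, abs_of_pos hR] at this
      refine this.trans (le_of_eq ?_)
      field_simp
    have b2 : ‖∫ x in (0 : ℝ)..R, g (x + R * I)‖ ≤ C / R := by
      have := intervalIntegral.norm_integral_le_of_norm_le_const (a := 0) (b := R)
        (f := fun x : ℝ => g (x + R * I)) (C := C / R ^ 2) (by
          intro x hx
          rw [uIoc_of_le hR.le] at hx
          apply hbound
          · simp [hx.1.le]
          · have h3 := abs_im_le_norm ((x : ℂ) + R * I)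
            simp [abs_of_pos hR] at h3
            exact h3)
      rw [sub_zero, abs_of_pos hR] at this
      refine this.trans (le_of_eq ?_)
      field_simp
    have b3 : ‖∫ y in (-R)..R, g (R + y * I)‖ ≤ 2 * C / R := by
      have := intervalIntegral.norm_integral_le_of_norm_le_const (a := -R) (b := R)
        (f := fun y : ℝ => g (R + y * I)) (C := C / R ^ 2) (by
          intro y hy
          apply hbound
          · simp [hR.le]
          · have h3 := abs_re_le_norm ((R : ℂ) + y * I)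
            simp [abs_of_pos hR] at h3
            exact h3)
      rw [sub_neg_eq_add, abs_of_pos (by linarith)] at this
      refine this.trans (le_of_eq ?_)
      field_simp
      ring
    have e : I * (∫ x in (-R)..R, g (x * I)) = (∫ x in (0 : ℝ)..R, g (x + -(R * I))) -
        (∫ x in (0 : ℝ)..R, g (x + R * I)) + I * ∫ y in (-R)..R, g (R + y * I) := by
      simp only [smul_eq_mul] at h
      linear_combination -h
    have e2 : ‖∫ x in (-R)..R, g (x * I)‖ = ‖I * (∫ x in (-R)..R, g (x * I))‖ := by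
      rw [norm_mul, norm_I, one_mul]
    rw [e2, e]
    refine (norm_add_le _ _).trans ?_
    rw [norm_mul, norm_I, one_mul]
    have := norm_sub_le (∫ x in (0 : ℝ)..R, g (x + -(R * I))) (∫ x in (0 : ℝ)..R, g (x + R * I))
    have e3 : 4 * C / R = C / R + C / R + 2 * C / R := by ring
    rw [e3]
    linarith
  have h0 : Filter.Tendsto (fun R : ℝ => ∫ x in (-R)..R, g (x * I)) Filter.atTop (𝓝 0) := by
    rw [tendsto_zero_iff_norm_tendsto_zero]
    have h1 : Filter.Tendsto (fun R : ℝ => 4 * C / R) Filter.atTop (𝓝 0) :=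
      tendsto_const_nhds.div_atTop Filter.tendsto_id
    refine squeeze_zero' (Filter.Eventually.of_forall fun _ => norm_nonneg _) ?_ h1
    filter_upwards [Filter.eventually_gt_atTop 0] with R hR
    exact hsmall R hR
  exact tendsto_nhds_unique hlim h0

/-- `K(ζ) = (1 - e^{-ζ/3})/(ζ/3)` -/
noncomputable def KK : ℂ → ℂ := dslope (fun ζ => -3 * exp (-ζ / 3)) 0

lemma KK_ne {ζ : ℂ} (h : ζ ≠ 0) : KK ζ = (3 - 3 * exp (-ζ / 3)) / ζ := by
  unfold KK
  rw [dslope_of_ne _ h, slope_def_field]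
  simp
  ring

lemma KK_zero : KK 0 = 1 := by
  unfold KK
  rw [dslope_same]
  have h1 : HasDerivAt (fun ζ : ℂ => -3 * exp (-ζ / 3)) (-3 * (exp (-0 / 3) * (-1 / 3))) 0 := by
    apply HasDerivAt.const_mul
    apply HasDerivAt.cexp
    exact (hasDerivAt_neg (0 : ℂ)).div_const 3
  rw [h1.deriv]
  simp
  norm_num

lemma KK_diff : Differentiable ℂ KK := by
  have h : DifferentiableOn ℂ KK univ := by
    unfold KK
    rw [differentiableOn_dslope Filter.univ_mem]
    apply Differentiable.differentiableOn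
    fun_prop
  intro ζ
  exact h.differentiableAt Filter.univ_mem

lemma KK_bound {ζ : ℂ} (h : 0 ≤ ζ.re) : ‖KK ζ‖ ≤ 8 / (1 + ‖ζ‖) := by
  by_cases h0 : ζ = 0
  · subst h0
    rw [KK_zero]
    simp
  have hn : 0 < ‖ζ‖ := norm_pos_iff.2 h0
  rw [KK_ne h0, norm_div, div_le_div_iff₀ hn (by positivity)]
  rcases le_or_gt ‖ζ‖ 3 with h3 | h3
  · have h4 : ‖-ζ / 3‖ ≤ 1 := by
      rw [norm_div, norm_neg]
      simp
      linarith
    have h5 := norm_exp_sub_one_le h4
    have h6 : ‖(3 : ℂ) - 3 * exp (-ζ / 3)‖ ≤ 2 * ‖ζ‖ := by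
      have e : (3 : ℂ) - 3 * exp (-ζ / 3) = -3 * (exp (-ζ / 3) - 1) := by ring
      rw [e, norm_mul]
      have e2 : ‖-ζ / 3‖ = ‖ζ‖ / 3 := by
        rw [norm_div, norm_neg]
        simp
      rw [e2] at h5
      simp only [norm_neg]
      have e3 : ‖(3 : ℂ)‖ = 3 := by simp
      rw [e3]
      linarith
    nlinarith
  · have h5 : ‖exp (-ζ / 3)‖ ≤ 1 := by
      rw [norm_exp]
      apply Real.exp_le_one_iff.2
      simp
      linarith
    have h6 : ‖(3 : ℂ) - 3 * exp (-ζ / 3)‖ ≤ 6 := by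
      refine (norm_sub_le _ _).trans ?_
      rw [norm_mul]
      have e3 : ‖(3 : ℂ)‖ = 3 := by simp
      rw [e3]
      linarith
    nlinarith

/-- `κ(x) = sin(x/6)/(x/6)` -/
noncomputable def kap (x : ℝ) : ℝ := if x = 0 then 1 else 6 * Real.sin (x / 6) / x

lemma KK_kap (x : ℝ) : KK (-(x : ℂ) * I) = exp ((x / 6 : ℝ) * I) * (kap x : ℂ) := by
  by_cases h : x = 0
  · subst h
    simp [KK_zero, kap]
  · have h1 : (-(x : ℂ) * I) ≠ 0 := by
      simp [h]
    rw [KK_ne h1]
    have hx : (x : ℂ) ≠ 0 := by exact_mod_cast h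
    have e1 : (kap x : ℂ) = 6 * Complex.sin ((x / 6 : ℝ) : ℂ) / x := by
      unfold kap
      rw [if_neg h]
      push_cast
      ring
    rw [e1, Complex.sin]
    have e2 : -(-(x : ℂ) * I) / 3 = (x / 6 : ℝ) * I + (x / 6 : ℝ) * I := by
      push_cast
      ring
    rw [e2, Complex.exp_add]
    have e3 : Complex.exp (-((x / 6 : ℝ) : ℂ) * I) * Complex.exp (((x / 6 : ℝ) : ℂ) * I) = 1 := by
      rw [← Complex.exp_add]
      simp
    have e4 : Complex.exp (-((x / 6 : ℝ) : ℂ) * I) = (Complex.exp (((x / 6 : ℝ) : ℂ) * I))⁻¹ :=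
      eq_inv_of_mul_eq_one_left e3
    rw [e4]
    have hE : Complex.exp (((x / 6 : ℝ) : ℂ) * I) ≠ 0 := Complex.exp_ne_zero _
    field_simp
    rw [I_sq]
    ring

lemma kap_cont : Continuous kap := by
  have h : Continuous fun x : ℝ => (exp ((x / 6 : ℝ) * I))⁻¹ * KK (-(x : ℂ) * I) := by
    apply Continuous.mul
    · apply Continuous.inv₀
      · fun_prop
      · intro x
        exact exp_ne_zero _
    · exact KK_diff.continuous.comp (by fun_prop)
  have e : (fun x : ℝ => (exp ((x / 6 : ℝ) * I))⁻¹ * KK (-(x : ℂ) * I)) = fun x => (kap x : ℂ) := by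
    funext x
    rw [KK_kap, ← mul_assoc, inv_mul_cancel₀ (exp_ne_zero _), one_mul]
  rw [e] at h
  have h2 := Complex.continuous_re.comp h
  exact h2

lemma kap_bound (x : ℝ) : |kap x| ≤ 8 / (1 + |x|) := by
  have h := KK_bound (ζ := -(x : ℂ) * I) (by simp)
  rw [KK_kap, norm_mul, norm_exp_ofReal_mul_I, one_mul, norm_real, Real.norm_eq_abs] at h
  have e : ‖-(x : ℂ) * I‖ = |x| := by simp
  rwa [e] at h

lemma kap_pow_bound (x : ℝ) (k : ℕ) (hk : 2 ≤ k) : |kap x| ^ k ≤ 8 ^ k * (1 + x ^ 2)⁻¹ := by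
  have h := kap_bound x
  have h1 : |kap x| ^ k ≤ (8 / (1 + |x|)) ^ k := by gcongr
  refine h1.trans ?_
  rw [div_pow, div_eq_mul_inv]
  gcongr
  have h2 : (1 : ℝ) ≤ 1 + |x| := by linarith [abs_nonneg x]
  calc 1 + x ^ 2 ≤ (1 + |x|) ^ 2 := by
        have : |x| ^ 2 = x ^ 2 := sq_abs x
        nlinarith [abs_nonneg x]
    _ ≤ (1 + |x|) ^ k := pow_le_pow_right₀ h2 hk

/-- Fourier integrals of `κ^k` vanish for high frequencies (`k = 2` or `k = 6`) -/
lemma kap_fourier_pos (k : ℕ) (hk : 2 ≤ k) (hk6 : k ≤ 6) (c : ℝ) (hc : 1 ≤ c) :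
    ∫ x : ℝ, ((kap x ^ k : ℝ) : ℂ) * exp (c * x * I) = 0 := by
  -- `κ(x)^k e^{icx} = K(ζ)^k e^{(k/6 - c) ζ}`, `ζ = -ix`
  have hdiff : Differentiable ℂ (fun ζ : ℂ => KK ζ ^ k * exp (((k : ℂ) / 6 - c) * ζ)) := by
    apply Differentiable.mul (KK_diff.pow k)
    fun_prop
  have h := half_plane (g := fun ζ => KK ζ ^ k * exp (((k : ℂ) / 6 - c) * ζ)) (C := 8 ^ k)
    (by positivity)
    (fun ζ _ => hdiff ζ)
    (by
      intro ζ hζ
      rw [norm_mul, norm_pow]
      have h1 := KK_bound hζ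
      have h2 : ‖exp (((k : ℂ) / 6 - c) * ζ)‖ ≤ 1 := by
        rw [norm_exp]
        apply Real.exp_le_one_iff.2
        have e : (((k : ℂ) / 6 - c) * ζ).re = ((k : ℝ) / 6 - c) * ζ.re := by
          have : ((k : ℂ) / 6 - c) = (((k : ℝ) / 6 - c : ℝ) : ℂ) := by push_cast; ring
          rw [this, Complex.re_ofReal_mul]
        rw [e]
        have : (k : ℝ) ≤ 6 := by exact_mod_cast hk6
        apply mul_nonpos_of_nonpos_of_nonneg _ hζ
        linarith
      have h3 : (1 : ℝ) ≤ 1 + ‖ζ‖ := by linarith [norm_nonneg ζ]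
      calc ‖KK ζ‖ ^ k * ‖exp (((k : ℂ) / 6 - c) * ζ)‖ ≤ (8 / (1 + ‖ζ‖)) ^ k * 1 := by gcongr
        _ = 8 ^ k / (1 + ‖ζ‖) ^ k := by rw [mul_one, div_pow]
        _ ≤ 8 ^ k / (1 + ‖ζ‖) ^ 2 := by
          gcongr)
  have hneg := integral_neg_eq_self (fun x : ℝ => KK (x * I) ^ k *
    exp (((k : ℂ) / 6 - c) * (x * I))) volume
  rw [h] at hneg
  rw [← hneg]
  congr 1
  funext x
  have e0 : (((-x : ℝ) : ℂ) * I) = -(x : ℂ) * I := by push_cast; ring
  rw [e0, KK_kap, mul_pow, ← exp_nat_mul]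
  have e1 : exp ((k : ℂ) * (((x / 6 : ℝ) : ℂ) * I)) * (kap x : ℂ) ^ k *
      exp (((k : ℂ) / 6 - c) * (-(x : ℂ) * I)) =
      (kap x : ℂ) ^ k * (exp ((k : ℂ) * (((x / 6 : ℝ) : ℂ) * I)) *
      exp (((k : ℂ) / 6 - c) * (-(x : ℂ) * I))) := by ring
  rw [e1, ← exp_add]
  push_cast
  congr 2
  ring

lemma kap_fourier (k : ℕ) (hk : 2 ≤ k) (hk6 : k ≤ 6) (c : ℝ) (hc : 1 ≤ |c|) :
    ∫ x : ℝ, ((kap x ^ k : ℝ) : ℂ) * exp (c * x * I) = 0 := by
  rcases le_or_gt 0 c with h | h
  · rw [abs_of_nonneg h] at hc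
    exact kap_fourier_pos k hk hk6 c hc
  · rw [abs_of_neg h] at hc
    have h1 := kap_fourier_pos k hk hk6 (-c) hc
    have h2 := congrArg (starRingEnd ℂ) h1
    rw [← integral_conj, map_zero] at h2
    rw [← h2]
    congr 1
    funext x
    rw [map_mul, conj_ofReal, ← exp_conj]
    congr 2
    rw [map_mul, map_mul, conj_I, conj_ofReal, conj_ofReal]
    push_cast
    ring

lemma kap_pow_integrable (k : ℕ) (hk : 2 ≤ k) : Integrable fun x : ℝ => kap x ^ k := by
  apply (integrable_inv_one_add_sq.const_mul (8 ^ k)).mono' (kap_cont.pow k).aestronglyMeasurable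
  filter_upwards with x
  show ‖kap x ^ k‖ ≤ 8 ^ k * (1 + x ^ 2)⁻¹
  rw [norm_pow, Real.norm_eq_abs]
  exact kap_pow_bound x k hk

lemma kap_six_pos : 0 < ∫ x : ℝ, kap x ^ 6 := by
  have hnn : ∀ x, 0 ≤ kap x ^ 6 := fun x => by positivity
  rw [integral_pos_iff_support_of_nonneg hnn (kap_pow_integrable 6 (by norm_num))]
  have ho : IsOpen (Function.support fun x : ℝ => kap x ^ 6) :=
    isOpen_ne_fun (kap_cont.pow 6) continuous_const
  apply ho.measure_pos volume
  refine ⟨0, ?_⟩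
  simp [kap]

end Pool.Agent.Helper303.Mb
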