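import Pool.Agent.Helper303.MbBound
import Pool.Agent.Helper303.MbK

open MeasureTheory Set Complex
open scoped Real Topology ComplexConjugate ContDiff

set_option linter.unusedSectionVars false

namespace Pool.Agent.Helper303.Mb

variable {ι : Type} [Fintype ι] [DecidableEq ι]

/-- slices -/
noncomputable def sl (B : Blk ι) (z0 zi z1 : ℂ) : ι → ℂ := fun k =>
  if k = B.k11 then Za z0 zi z1 else if k = B.k22 then Zd z0 zi z1 else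
    if k = B.k12 ∨ k = B.k21 then Zb z0 zi z1 else 0

variable {B : Blk ι}

lemma sl_11 (z0 zi z1 : ℂ) : sl B z0 zi z1 B.k11 = Za z0 zi z1 := by simp [sl]

lemma sl_22 (z0 zi z1 : ℂ) : sl B z0 zi z1 B.k22 = Zd z0 zi z1 := by simp [sl, B.h3.symm]

lemma sl_12 (z0 zi z1 : ℂ) : sl B z0 zi z1 B.k12 = Zb z0 zi z1 := by
  simp [sl, B.h1.symm, B.h5]

lemma sl_21 (z0 zi z1 : ℂ) : sl B z0 zi z1 B.k21 = Zb z0 zi z1 := by
  simp [sl, B.h2.symm, B.h6]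

lemma sl_CB {z0 zi z1 : ℂ} (h : Pos z0 zi z1) : sl B z0 zi z1 ∈ CB B := by
  rw [mem_CB, sl_11, sl_12, sl_21, sl_22]
  exact Z_ctr h

lemma sl_diff {z0 zi z1 : ℂ → ℂ} {τ : ℂ} (h0 : DifferentiableAt ℂ z0 τ)
    (hi : DifferentiableAt ℂ zi τ) (h1 : DifferentiableAt ℂ z1 τ)
    (hP : Pos (z0 τ) (zi τ) (z1 τ)) :
    DifferentiableAt ℂ (fun τ => sl B (z0 τ) (zi τ) (z1 τ)) τ := by
  have hG : DifferentiableAt ℂ (fun τ => Gam (z0 τ) (zi τ) (z1 τ)) τ := by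
    unfold Gam
    fun_prop
  have hne := Gam_ne hP
  rw [differentiableAt_pi]
  intro k
  unfold sl
  split_ifs
  · unfold Za
    exact ((((differentiableAt_const _).add hi).const_mul 2).fun_div hG hne).sub_const 1
  · unfold Zd
    exact ((((differentiableAt_const _).add h0).const_mul 2).fun_div hG hne).sub_const 1
  · unfold Zb
    exact (((h1.sub h0).sub hi).neg).fun_div hG hne
  · exact differentiableAt_const _

lemma sl_cont {α : Type*} [TopologicalSpace α] {z0 zi z1 : α → ℂ} (h0 : Continuous z0)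
    (hi : Continuous zi) (h1 : Continuous z1) (hP : ∀ x, Pos (z0 x) (zi x) (z1 x)) :
    Continuous (fun x => sl B (z0 x) (zi x) (z1 x)) := by
  have hG : Continuous (fun x => Gam (z0 x) (zi x) (z1 x)) := by
    unfold Gam
    fun_prop
  have hne := fun x => Gam_ne (hP x)
  apply continuous_pi
  intro k
  unfold sl
  split_ifs
  · unfold Za
    exact ((continuous_const.mul (continuous_const.add hi)).div hG hne).sub continuous_const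
  · unfold Zd
    exact ((continuous_const.mul (continuous_const.add h0)).div hG hne).sub continuous_const
  · unfold Zb
    exact (((h1.sub h0).sub hi).neg).div hG hne
  · exact continuous_const

/-- the weight -/
noncomputable def PhiW (δ : ℝ) (η0 ηi η1 : ℂ) : ℂ :=
  Gam (δ + η0) (δ + ηi) (2 * δ + η1) ^ 2 / 16 * KK η0 ^ 6 * KK ηi ^ 6 * KK η1 ^ 6

/-- the linear forms -/
noncomputable def lj (j : ℕ) (η0 ηi η1 : ℂ) : ℂ := η0 + j * (η1 - η0 - ηi) + (j : ℂ) ^ 2 * ηi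

/-- product of the `1 + |η|` -/
noncomputable def PP (η0 ηi η1 : ℂ) : ℝ := (1 + ‖η0‖) * (1 + ‖ηi‖) * (1 + ‖η1‖)

lemma PP_ge (η0 ηi η1 : ℂ) : 1 ≤ PP η0 ηi η1 ∧ (1 + ‖η0‖) * (1 + ‖ηi‖) ≤ PP η0 ηi η1 ∧
    ‖η0‖ + ‖ηi‖ + ‖η1‖ ≤ PP η0 ηi η1 ∧ 1 + ‖ηi‖ ≤ PP η0 ηi η1 := by
  have h0 := norm_nonneg η0
  have hi := norm_nonneg ηi
  have h1 := norm_nonneg η1
  have a := mul_nonneg h0 hi
  have b := mul_nonneg h0 h1
  have c := mul_nonneg hi h1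
  have d := mul_nonneg a h1
  unfold PP
  refine ⟨by nlinarith, by nlinarith, by nlinarith, by nlinarith⟩

lemma Gam_bound {δ : ℝ} (hδ0 : 0 ≤ δ) (hδ1 : δ ≤ 1 / 4) (η0 ηi η1 : ℂ) :
    ‖Gam (δ + η0) (δ + ηi) (2 * δ + η1)‖ ≤ 5 * PP η0 ηi η1 ^ 2 := by
  obtain ⟨p1, p2, p3, p4⟩ := PP_ge η0 ηi η1
  set P := PP η0 ηi η1
  unfold Gam
  have e1 : ((2 * δ + η1 - (δ + η0) - (δ + ηi)) / 2 : ℂ) = (η1 - η0 - ηi) / 2 := by ring
  rw [e1]
  refine (norm_sub_le _ _).trans ?_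
  rw [norm_mul, norm_pow, norm_div]
  have hd : ‖(δ : ℂ)‖ = δ := by rw [norm_real, Real.norm_eq_abs, abs_of_nonneg hδ0]
  have a0 : ‖1 + ((δ : ℂ) + η0)‖ ≤ 2 * (1 + ‖η0‖) := by
    refine (norm_add_le _ _).trans ?_
    have := norm_add_le (δ : ℂ) η0
    rw [hd] at this
    rw [norm_one]
    have := norm_nonneg η0
    linarith
  have ai : ‖1 + ((δ : ℂ) + ηi)‖ ≤ 2 * (1 + ‖ηi‖) := by
    refine (norm_add_le _ _).trans ?_
    have := norm_add_le (δ : ℂ) ηi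
    rw [hd] at this
    rw [norm_one]
    have := norm_nonneg ηi
    linarith
  have a1 : ‖η1 - η0 - ηi‖ ≤ P := by
    refine (norm_sub_le _ _).trans ?_
    have := norm_sub_le η1 η0
    linarith
  have h2 : ‖(2 : ℂ)‖ = 2 := by simp
  rw [h2]
  calc ‖1 + ((δ : ℂ) + η0)‖ * ‖1 + ((δ : ℂ) + ηi)‖ + (‖η1 - η0 - ηi‖ / 2) ^ 2 ≤
      (2 * (1 + ‖η0‖)) * (2 * (1 + ‖ηi‖)) + (P / 2) ^ 2 := by gcongr
    _ = 4 * ((1 + ‖η0‖) * (1 + ‖ηi‖)) + P ^ 2 / 4 := by ring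
    _ ≤ 4 * P + P ^ 2 / 4 := by gcongr
    _ ≤ 5 * P ^ 2 := by nlinarith

lemma KK_prod_bound {η0 ηi η1 : ℂ} (h0 : 0 ≤ η0.re) (hi : 0 ≤ ηi.re) (h1 : 0 ≤ η1.re) (k : ℕ) :
    ‖KK η0‖ ^ k * ‖KK ηi‖ ^ k * ‖KK η1‖ ^ k ≤ 8 ^ (3 * k) / PP η0 ηi η1 ^ k := by
  have a0 := KK_bound h0
  have ai := KK_bound hi
  have a1 := KK_bound h1
  calc ‖KK η0‖ ^ k * ‖KK ηi‖ ^ k * ‖KK η1‖ ^ k ≤
      (8 / (1 + ‖η0‖)) ^ k * (8 / (1 + ‖ηi‖)) ^ k * (8 / (1 + ‖η1‖)) ^ k := by gcongr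
    _ = 8 ^ (3 * k) / PP η0 ηi η1 ^ k := by
      unfold PP
      rw [← mul_pow, ← mul_pow, div_mul_div_comm, div_mul_div_comm, div_pow, pow_mul]
      norm_num

lemma PhiW_bound {δ : ℝ} (hδ0 : 0 ≤ δ) (hδ1 : δ ≤ 1 / 4) {η0 ηi η1 : ℂ} (h0 : 0 ≤ η0.re)
    (hi : 0 ≤ ηi.re) (h1 : 0 ≤ η1.re) :
    ‖PhiW δ η0 ηi η1‖ ≤ 2 * 8 ^ 18 / PP η0 ηi η1 ^ 2 := by
  have hP := (PP_ge η0 ηi η1).1
  have hG := Gam_bound hδ0 hδ1 η0 ηi η1
  have hK := KK_prod_bound h0 hi h1 6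
  set P := PP η0 ηi η1
  unfold PhiW
  rw [norm_mul, norm_mul, norm_mul, norm_div, norm_pow, norm_pow, norm_pow, norm_pow]
  have h16 : ‖(16 : ℂ)‖ = 16 := by simp
  rw [h16]
  calc ‖Gam (δ + η0) (δ + ηi) (2 * δ + η1)‖ ^ 2 / 16 * ‖KK η0‖ ^ 6 * ‖KK ηi‖ ^ 6 * ‖KK η1‖ ^ 6 =
      ‖Gam (δ + η0) (δ + ηi) (2 * δ + η1)‖ ^ 2 / 16 *
        (‖KK η0‖ ^ 6 * ‖KK ηi‖ ^ 6 * ‖KK η1‖ ^ 6) := by ring
    _ ≤ (5 * P ^ 2) ^ 2 / 16 * (8 ^ (3 * 6) / P ^ 6) := by gcongr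
    _ = (25 / 16) * 8 ^ 18 / P ^ 2 := by
      field_simp
      norm_num
    _ ≤ 2 * 8 ^ 18 / P ^ 2 := by
      gcongr
      norm_num

lemma PP_dir {η0 ηi η1 : ℂ} : PP η0 ηi η1 ^ 2 ≥ (1 + ‖ηi‖) ^ 2 := by
  have := (PP_ge η0 ηi η1).2.2.2
  have := norm_nonneg ηi
  gcongr

/-- the integrand of the functionals -/
noncomputable def G3 (B : Blk ι) (δ : ℝ) (N j : ℕ) (H : (ι → ℂ) → ℂ) (η0 ηi η1 : ℂ) : ℂ :=
  H (sl B (δ + η0) (δ + ηi) (2 * δ + η1)) * PhiW δ η0 ηi η1 * exp (N * lj j η0 ηi η1)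

/-- integral along the direction `P_j` -/
lemma dir_zero {D : Set (ι → ℂ)} (hD : ∀ z0 zi z1, Pos z0 zi z1 → sl B z0 zi z1 ∈ D)
    {H : (ι → ℂ) → ℂ} (hH : ∀ z ∈ D, DifferentiableAt ℂ H z) {M : ℝ} (hM0 : 0 ≤ M)
    (hM : ∀ z ∈ D, ‖H z‖ ≤ M) {δ : ℝ} (hδ0 : 0 < δ) (hδ1 : δ ≤ 1 / 4) (N j : ℕ) (α β : ℝ) :
    ∫ t : ℝ, G3 B δ N j H (-((α + (j : ℝ) ^ 2 * t : ℝ) : ℂ) * I) (-(t : ℂ) * I)
      (-((β + ((j : ℝ) - 1) ^ 2 * t : ℝ) : ℂ) * I) = 0 := by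
  set e0 : ℂ → ℂ := fun τ => -(α : ℂ) * I + (j : ℂ) ^ 2 * τ with he0
  set e1 : ℂ → ℂ := fun τ => -(β : ℂ) * I + ((j : ℂ) - 1) ^ 2 * τ with he1
  have hre0 : ∀ τ : ℂ, 0 ≤ τ.re → 0 ≤ (e0 τ).re := by
    intro τ hτ
    have : (e0 τ).re = (j : ℝ) ^ 2 * τ.re := by
      have h1 : (j : ℂ) ^ 2 = (((j : ℝ) ^ 2 : ℝ) : ℂ) := by push_cast; ring
      simp only [he0]
      rw [h1, add_re, re_ofReal_mul]
      simp
    rw [this]
    positivity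
  have hre1 : ∀ τ : ℂ, 0 ≤ τ.re → 0 ≤ (e1 τ).re := by
    intro τ hτ
    have : (e1 τ).re = ((j : ℝ) - 1) ^ 2 * τ.re := by
      have h1 : ((j : ℂ) - 1) ^ 2 = ((((j : ℝ) - 1) ^ 2 : ℝ) : ℂ) := by push_cast; ring
      simp only [he1]
      rw [h1, add_re, re_ofReal_mul]
      simp
    rw [this]
    positivity
  have hpos : ∀ τ : ℂ, 0 ≤ τ.re → Pos (δ + e0 τ) (δ + τ) (2 * δ + e1 τ) := by
    intro τ hτ
    have := Pos_dir (z0 := δ - α * I) (zi := δ) (z1 := 2 * δ - β * I) hδ0 (by simp) (by simp)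
      (by
        have : (2 : ℂ) * δ = ((2 * δ : ℝ) : ℂ) := by push_cast; ring
        rw [this, sub_re, ofReal_re]
        simp) j hτ
    have a1 : (δ : ℂ) + e0 τ = δ - α * I + (j : ℂ) ^ 2 * τ := by
      simp only [he0]
      ring
    have a2 : (2 : ℂ) * δ + e1 τ = 2 * δ - β * I + ((j : ℂ) - 1) ^ 2 * τ := by
      simp only [he1]
      ring
    rw [a1, a2]
    exact this
  have hlj : ∀ τ : ℂ, lj j (e0 τ) τ (e1 τ) = ((-(α : ℝ) + j * (α - β) : ℝ) : ℂ) * I := by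
    intro τ
    unfold lj
    simp only [he0, he1]
    push_cast
    ring
  have h := half_plane (g := fun τ => G3 B δ N j H (e0 τ) τ (e1 τ)) (C := M * (2 * 8 ^ 18))
    (by positivity)
    (by
      intro τ hτ
      have hs := sl_diff (B := B) (z0 := fun τ => δ + e0 τ) (zi := fun τ => δ + τ)
        (z1 := fun τ => 2 * δ + e1 τ) (τ := τ) (by fun_prop) (by fun_prop) (by fun_prop) (hpos τ hτ)
      have hH' : DifferentiableAt ℂ (fun τ => H (sl B (δ + e0 τ) (δ + τ) (2 * δ + e1 τ))) τ :=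
        DifferentiableAt.comp τ (g := H) (f := fun τ => sl B (δ + e0 τ) (δ + τ) (2 * δ + e1 τ))
          (hH _ (hD _ _ _ (hpos τ hτ))) hs
      have hK0 : DifferentiableAt ℂ (fun τ => KK (e0 τ)) τ :=
        DifferentiableAt.comp τ (g := KK) (f := e0) (KK_diff _) (by fun_prop)
      have hK1 : DifferentiableAt ℂ (fun τ => KK (e1 τ)) τ :=
        DifferentiableAt.comp τ (g := KK) (f := e1) (KK_diff _) (by fun_prop)
      have hKi : DifferentiableAt ℂ (fun τ => KK τ) τ := KK_diff τ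
      have hG : DifferentiableAt ℂ (fun τ => Gam (δ + e0 τ) (δ + τ) (2 * δ + e1 τ)) τ := by
        unfold Gam
        fun_prop
      unfold G3 PhiW
      simp only [hlj]
      exact ((hH'.fun_mul (((((hG.fun_pow 2).div_const 16).fun_mul (hK0.fun_pow 6)).fun_mul
        (hKi.fun_pow 6)).fun_mul (hK1.fun_pow 6))).mul_const _))
    (by
      intro τ hτ
      unfold G3
      rw [norm_mul, norm_mul, hlj]
      have h1 : ‖exp ((N : ℂ) * (((-(α : ℝ) + j * (α - β) : ℝ) : ℂ) * I))‖ = 1 := by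
        have : (N : ℂ) * (((-(α : ℝ) + j * (α - β) : ℝ) : ℂ) * I) =
            (((N : ℝ) * (-(α : ℝ) + j * (α - β)) : ℝ) : ℂ) * I := by
          push_cast
          ring
        rw [this, norm_exp_ofReal_mul_I]
      rw [h1, mul_one]
      have h2 := hM _ (hD _ _ _ (hpos τ hτ))
      have h3 := PhiW_bound hδ0.le hδ1 (hre0 τ hτ) hτ (hre1 τ hτ)
      have h4 : 2 * 8 ^ 18 / PP (e0 τ) τ (e1 τ) ^ 2 ≤ 2 * 8 ^ 18 / (1 + ‖τ‖) ^ 2 := by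
        gcongr
        exact (PP_ge (e0 τ) τ (e1 τ)).2.2.2
      calc ‖H (sl B (δ + e0 τ) (δ + τ) (2 * δ + e1 τ))‖ * ‖PhiW δ (e0 τ) τ (e1 τ)‖ ≤
          M * (2 * 8 ^ 18 / (1 + ‖τ‖) ^ 2) := by
            gcongr
            exact h3.trans h4
        _ = M * (2 * 8 ^ 18) / (1 + ‖τ‖) ^ 2 := by ring)
  have hneg := integral_neg_eq_self (fun t : ℝ => G3 B δ N j H (e0 (t * I)) (t * I) (e1 (t * I)))
    volume
  rw [h] at hneg
  rw [← hneg]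
  congr 1
  funext t
  have a1 : (-((α + (j : ℝ) ^ 2 * t : ℝ) : ℂ) * I) = e0 (((-t : ℝ) : ℂ) * I) := by
    simp only [he0]
    push_cast
    ring
  have a2 : (-(t : ℂ) * I) = ((-t : ℝ) : ℂ) * I := by push_cast; ring
  have a3 : (-((β + ((j : ℝ) - 1) ^ 2 * t : ℝ) : ℂ) * I) = e1 (((-t : ℝ) : ℂ) * I) := by
    simp only [he1]
    push_cast
    ring
  rw [a1, a2, a3]

end Pool.Agent.Helper303.Mb
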