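import Pool.Agent.Helper303.MbFunc

open MeasureTheory Set Complex
open scoped Real Topology ComplexConjugate ContDiff

set_option linter.unusedSectionVars false

namespace Pool.Agent.Helper303.Mb

variable {ι : Type} [Fintype ι] [DecidableEq ι]

/-- the phases -/
def La (j : ℕ) (X : ℝ × ℝ × ℝ) : ℝ := X.2.1 + j * (X.2.2 - X.2.1 - X.1) + (j : ℝ) ^ 2 * X.1

lemma lj_La (j : ℕ) (X : ℝ × ℝ × ℝ) :
    lj j (-(X.2.1 : ℂ) * I) (-(X.1 : ℂ) * I) (-(X.2.2 : ℂ) * I) = -(La j X : ℂ) * I := by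
  unfold lj La
  push_cast
  ring

/-- product weights -/
noncomputable def kp (k : ℕ) (X : ℝ × ℝ × ℝ) : ℝ := kap X.1 ^ k * (kap X.2.1 ^ k * kap X.2.2 ^ k)

lemma kp_cont (k : ℕ) : Continuous (kp k) := by
  have := kap_cont
  unfold kp
  fun_prop

lemma La_cont (j : ℕ) : Continuous (La j) := by
  unfold La
  fun_prop

lemma kp_integrable (k : ℕ) (hk : 2 ≤ k) : Integrable (kp k) := by
  have h := kap_pow_integrable k hk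
  exact h.mul_prod (h.mul_prod h)

lemma orth (k : ℕ) (hk : 2 ≤ k) (hk6 : k ≤ 6) {N : ℕ} (hN : 1 ≤ N) (i j : ℕ) :
    ∫ X : ℝ × ℝ × ℝ, (kp k X : ℂ) * exp (((N * (La i X - La j X) : ℝ) : ℂ) * I) =
      if i = j then (((∫ x, kap x ^ k) ^ 3 : ℝ) : ℂ) else 0 := by
  have key : ∀ X : ℝ × ℝ × ℝ, (kp k X : ℂ) * exp (((N * (La i X - La j X) : ℝ) : ℂ) * I) =
      (((kap X.1 ^ k : ℝ) : ℂ) * exp (((N * (((i : ℝ) ^ 2 - j ^ 2) - (i - j)) : ℝ) : ℂ) * (X.1 : ℝ) * I)) *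
      ((((kap X.2.1 ^ k : ℝ) : ℂ) * exp (((-(N * ((i : ℝ) - j)) : ℝ) : ℂ) * (X.2.1 : ℝ) * I)) *
       (((kap X.2.2 ^ k : ℝ) : ℂ) * exp (((N * ((i : ℝ) - j) : ℝ) : ℂ) * (X.2.2 : ℝ) * I))) := by
    intro X
    have e : (((N * (La i X - La j X) : ℝ) : ℂ) * I) =
        ((N * (((i : ℝ) ^ 2 - j ^ 2) - (i - j)) : ℝ) : ℂ) * (X.1 : ℝ) * I +
        (((-(N * ((i : ℝ) - j)) : ℝ) : ℂ) * (X.2.1 : ℝ) * I +
        ((N * ((i : ℝ) - j) : ℝ) : ℂ) * (X.2.2 : ℝ) * I) := by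
      unfold La
      push_cast
      ring
    rw [e, exp_add, exp_add]
    unfold kp
    push_cast
    ring
  simp only [key]
  have h1 := integral_prod_mul (μ := (volume : Measure ℝ)) (ν := (volume : Measure (ℝ × ℝ)))
    (fun x : ℝ => (((kap x ^ k : ℝ) : ℂ) * exp (((N * (((i : ℝ) ^ 2 - j ^ 2) - (i - j)) : ℝ) : ℂ) * (x : ℝ) * I)))
    (fun Y : ℝ × ℝ => ((((kap Y.1 ^ k : ℝ) : ℂ) * exp (((-(N * ((i : ℝ) - j)) : ℝ) : ℂ) * (Y.1 : ℝ) * I)) *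
       (((kap Y.2 ^ k : ℝ) : ℂ) * exp (((N * ((i : ℝ) - j) : ℝ) : ℂ) * (Y.2 : ℝ) * I))))
  have h2 := integral_prod_mul (μ := (volume : Measure ℝ)) (ν := (volume : Measure ℝ))
    (fun x : ℝ => (((kap x ^ k : ℝ) : ℂ) * exp (((-(N * ((i : ℝ) - j)) : ℝ) : ℂ) * (x : ℝ) * I)))
    (fun x : ℝ => (((kap x ^ k : ℝ) : ℂ) * exp (((N * ((i : ℝ) - j) : ℝ) : ℂ) * (x : ℝ) * I)))
  rw [Measure.volume_eq_prod]
  rw [h1]
  rw [Measure.volume_eq_prod]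
  rw [h2]
  split_ifs with hij
  · subst hij
    simp only [sub_self, mul_zero, neg_zero, ofReal_zero, zero_mul, exp_zero, mul_one]
    have e : ∫ x : ℝ, ((kap x ^ k : ℝ) : ℂ) = ((∫ x, kap x ^ k : ℝ) : ℂ) := integral_ofReal
    rw [e]
    push_cast
    ring
  · have hc : 1 ≤ |(-(N * ((i : ℝ) - j)))| := by
      rw [abs_neg, abs_mul]
      have hN' : (1 : ℝ) ≤ |(N : ℝ)| := by
        rw [abs_of_nonneg (Nat.cast_nonneg N)]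
        exact_mod_cast hN
      have hd : (1 : ℝ) ≤ |(i : ℝ) - j| := by
        have : (1 : ℤ) ≤ |(i : ℤ) - j| := by
          apply Int.one_le_abs
          omega
        exact_mod_cast this
      calc (1 : ℝ) = 1 * 1 := by ring
        _ ≤ _ := by gcongr
    rw [kap_fourier k hk hk6 _ hc]
    simp

/-- the majorant -/
noncomputable def mj (X : ℝ × ℝ × ℝ) : ℝ := (1 + X.1 ^ 2)⁻¹ * ((1 + X.2.1 ^ 2)⁻¹ * (1 + X.2.2 ^ 2)⁻¹)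

lemma mj_integrable : Integrable mj :=
  integrable_inv_one_add_sq.mul_prod (integrable_inv_one_add_sq.mul_prod integrable_inv_one_add_sq)

lemma mj_nonneg (X : ℝ × ℝ × ℝ) : 0 ≤ mj X := by
  unfold mj
  positivity

lemma PP_mj (X : ℝ × ℝ × ℝ) :
    (1 : ℝ) / PP (-(X.2.1 : ℂ) * I) (-(X.1 : ℂ) * I) (-(X.2.2 : ℂ) * I) ^ 2 ≤ mj X := by
  have e : ∀ x : ℝ, ‖-(x : ℂ) * I‖ = |x| := fun x => by simp
  have h : ∀ x : ℝ, 1 + x ^ 2 ≤ (1 + |x|) ^ 2 := fun x => by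
    have : |x| ^ 2 = x ^ 2 := sq_abs x
    nlinarith [abs_nonneg x]
  unfold PP mj
  rw [e, e, e, mul_pow, mul_pow, one_div, mul_inv, mul_inv]
  have h1 : ((1 + |X.1|) ^ 2)⁻¹ ≤ (1 + X.1 ^ 2)⁻¹ := by
    gcongr
    exact h _
  have h2 : ((1 + |X.2.1|) ^ 2)⁻¹ ≤ (1 + X.2.1 ^ 2)⁻¹ := by
    gcongr
    exact h _
  have h3 : ((1 + |X.2.2|) ^ 2)⁻¹ ≤ (1 + X.2.2 ^ 2)⁻¹ := by
    gcongr
    exact h _
  calc ((1 + |X.2.1|) ^ 2)⁻¹ * ((1 + |X.1|) ^ 2)⁻¹ * ((1 + |X.2.2|) ^ 2)⁻¹ =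
      ((1 + |X.1|) ^ 2)⁻¹ * (((1 + |X.2.1|) ^ 2)⁻¹ * ((1 + |X.2.2|) ^ 2)⁻¹) := by ring
    _ ≤ _ := by gcongr

variable {B : Blk ι}

lemma Pos_X {δ : ℝ} (hδ : 0 < δ) (X : ℝ × ℝ × ℝ) :
    Pos (δ + -(X.2.1 : ℂ) * I) (δ + -(X.1 : ℂ) * I) (2 * δ + -(X.2.2 : ℂ) * I) := by
  have := Pos_real (δ := δ) (x0 := X.2.1) (xi := X.1) (x1 := X.2.2) hδ
  have e1 : (δ : ℂ) + -(X.2.1 : ℂ) * I = δ - X.2.1 * I := by ring
  have e2 : (δ : ℂ) + -(X.1 : ℂ) * I = δ - X.1 * I := by ring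
  have e3 : (2 : ℂ) * δ + -(X.2.2 : ℂ) * I = 2 * δ - X.2.2 * I := by ring
  rw [e1, e2, e3]
  exact this

/-- the slice -/
noncomputable def slX (B : Blk ι) (δ : ℝ) (X : ℝ × ℝ × ℝ) : ι → ℂ :=
  sl B (δ + -(X.2.1 : ℂ) * I) (δ + -(X.1 : ℂ) * I) (2 * δ + -(X.2.2 : ℂ) * I)

lemma slX_cont {δ : ℝ} (hδ : 0 < δ) : Continuous (slX B δ) := by
  unfold slX
  exact sl_cont (by fun_prop) (by fun_prop) (by fun_prop) (fun X => Pos_X hδ X)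

/-- the weight -/
noncomputable def PhX (δ : ℝ) (X : ℝ × ℝ × ℝ) : ℂ :=
  PhiW δ (-(X.2.1 : ℂ) * I) (-(X.1 : ℂ) * I) (-(X.2.2 : ℂ) * I)

lemma PhX_cont (δ : ℝ) : Continuous (PhX δ) := by
  have hK := KK_diff.continuous
  unfold PhX PhiW Gam
  fun_prop

lemma PhX_bound {δ : ℝ} (hδ0 : 0 ≤ δ) (hδ1 : δ ≤ 1 / 4) (X : ℝ × ℝ × ℝ) :
    ‖PhX δ X‖ ≤ 2 * 8 ^ 18 * mj X := by
  have h := PhiW_bound hδ0 hδ1 (η0 := -(X.2.1 : ℂ) * I) (ηi := -(X.1 : ℂ) * I)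
    (η1 := -(X.2.2 : ℂ) * I) (by simp) (by simp) (by simp)
  unfold PhX
  refine h.trans ?_
  rw [div_eq_mul_one_div]
  gcongr
  exact PP_mj X

/-- the integrand of the functional `Λ_j` -/
noncomputable def F3 (B : Blk ι) (δ : ℝ) (N j : ℕ) (H : (ι → ℂ) → ℂ) (X : ℝ × ℝ × ℝ) : ℂ :=
  H (slX B δ X) * PhX δ X * exp (-((N * La j X : ℝ) : ℂ) * I)

lemma F3_G3 (δ : ℝ) (N j : ℕ) (H : (ι → ℂ) → ℂ) (X : ℝ × ℝ × ℝ) :
    F3 B δ N j H X = G3 B δ N j H (-(X.2.1 : ℂ) * I) (-(X.1 : ℂ) * I) (-(X.2.2 : ℂ) * I) := by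
  unfold F3 G3
  rw [lj_La]
  congr 2
  push_cast
  ring

lemma norm_F3 (δ : ℝ) (N j : ℕ) (H : (ι → ℂ) → ℂ) (X : ℝ × ℝ × ℝ) :
    ‖F3 B δ N j H X‖ = ‖H (slX B δ X)‖ * ‖PhX δ X‖ := by
  unfold F3
  rw [norm_mul, norm_mul]
  have : (-((N * La j X : ℝ) : ℂ) * I) = ((-(N * La j X) : ℝ) : ℂ) * I := by push_cast; ring
  rw [this, norm_exp_ofReal_mul_I, mul_one]

lemma F3_cont {D : Set (ι → ℂ)} (hD : ∀ z0 zi z1, Pos z0 zi z1 → sl B z0 zi z1 ∈ D)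
    {H : (ι → ℂ) → ℂ} (hH : ∀ z ∈ D, ContinuousAt H z) {δ : ℝ} (hδ0 : 0 < δ) (N j : ℕ) :
    Continuous (F3 B δ N j H) := by
  unfold F3
  apply Continuous.mul
  · apply Continuous.mul
    · rw [continuous_iff_continuousAt]
      intro X
      exact ContinuousAt.comp (g := H) (f := slX B δ) (hH _ (hD _ _ _ (Pos_X hδ0 X)))
        (slX_cont hδ0).continuousAt
    · exact PhX_cont δ
  · have := La_cont j
    fun_prop

lemma F3_integrable {D : Set (ι → ℂ)} (hD : ∀ z0 zi z1, Pos z0 zi z1 → sl B z0 zi z1 ∈ D)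
    {H : (ι → ℂ) → ℂ} (hH : ∀ z ∈ D, ContinuousAt H z) {M : ℝ} (hM0 : 0 ≤ M)
    (hM : ∀ z ∈ D, ‖H z‖ ≤ M) {δ : ℝ} (hδ0 : 0 < δ) (hδ1 : δ ≤ 1 / 4) (N j : ℕ) :
    Integrable (F3 B δ N j H) := by
  apply (mj_integrable.const_mul (M * (2 * 8 ^ 18))).mono'
    (F3_cont hD hH hδ0 N j).aestronglyMeasurable
  filter_upwards with X
  rw [norm_F3]
  calc ‖H (slX B δ X)‖ * ‖PhX δ X‖ ≤ M * (2 * 8 ^ 18 * mj X) := by
        gcongr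
        · exact hM _ (hD _ _ _ (Pos_X hδ0 X))
        · exact PhX_bound hδ0.le hδ1 X
    _ = _ := by ring

/-- the shear -/
def shear (j : ℕ) (X : ℝ × ℝ × ℝ) : ℝ × ℝ × ℝ :=
  (X.1, (X.2.1 + (j : ℝ) ^ 2 * X.1, X.2.2 + ((j : ℝ) - 1) ^ 2 * X.1))

lemma shear_mp (j : ℕ) : MeasurePreserving (shear j) := by
  have h := MeasurePreserving.skew_product (μa := (volume : Measure ℝ)) (μb := (volume : Measure ℝ))
    (μc := (volume : Measure (ℝ × ℝ))) (μd := (volume : Measure (ℝ × ℝ)))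
    (f := id) (g := fun (t : ℝ) (Y : ℝ × ℝ) => Y + ((j : ℝ) ^ 2 * t, ((j : ℝ) - 1) ^ 2 * t))
    (MeasurePreserving.id _)
    (by
      apply Continuous.measurable
      fun_prop)
    (by
      filter_upwards with t
      exact map_add_right_eq_self volume _)
  exact h

theorem Lam_zero {D : Set (ι → ℂ)} (hD : ∀ z0 zi z1, Pos z0 zi z1 → sl B z0 zi z1 ∈ D)
    {H : (ι → ℂ) → ℂ} (hH : ∀ z ∈ D, DifferentiableAt ℂ H z) {M : ℝ} (hM0 : 0 ≤ M)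
    (hM : ∀ z ∈ D, ‖H z‖ ≤ M) {δ : ℝ} (hδ0 : 0 < δ) (hδ1 : δ ≤ 1 / 4) (N j : ℕ) :
    ∫ X, F3 B δ N j H X = 0 := by
  have hHc : ∀ z ∈ D, ContinuousAt H z := fun z hz => (hH z hz).continuousAt
  have hcont := F3_cont hD hHc hδ0 N j
  have hint := F3_integrable hD hHc hM0 hM hδ0 hδ1 N j
  have hmp := shear_mp j
  have h1 : ∫ X, F3 B δ N j H X = ∫ X, F3 B δ N j H (shear j X) := by
    have := integral_map (μ := (volume : Measure (ℝ × ℝ × ℝ))) (φ := shear j)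
      hmp.measurable.aemeasurable (f := F3 B δ N j H) hcont.aestronglyMeasurable
    rw [hmp.map_eq] at this
    exact this
  rw [h1]
  have hint2 : Integrable (fun X => F3 B δ N j H (shear j X)) :=
    hmp.integrable_comp_of_integrable hint
  rw [Measure.volume_eq_prod] at hint2 ⊢
  rw [integral_prod_symm _ hint2]
  have h2 : ∀ Y : ℝ × ℝ, ∫ x : ℝ, F3 B δ N j H (shear j (x, Y)) = 0 := by
    intro Y
    have := dir_zero hD hH hM0 hM hδ0 hδ1 N j Y.1 Y.2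
    rw [← this]
    congr 1
    funext t
    rw [F3_G3]
    simp only [shear]
  simp only [h2, integral_zero]

end Pool.Agent.Helper303.Mb
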