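import Pool.Agent.Helper303.MbWeyl

open MeasureTheory Set
open scoped ContDiff ComplexConjugate Convolution Topology Real

set_option linter.unusedSectionVars false

namespace Pool.Agent.Helper303.Mb

variable {ι : Type} [Fintype ι] [DecidableEq ι]

/-- rotation of `ℂ^ι` -/
noncomputable def rot (θ : ℝ) : (ι → ℂ) → (ι → ℂ) := fun y => Complex.exp (θ * Complex.I) • y

lemma rot_mp (θ : ℝ) : MeasurePreserving (rot (ι := ι) θ) := by
  have h := volume_preserving_pi (ι := ι) (α' := fun _ => ℂ) (β' := fun _ => ℂ)
    (f := fun _ => rotation (Circle.exp θ)) (fun _ => (rotation (Circle.exp θ)).measurePreserving)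
  have e : (fun (a : ι → ℂ) (i : ι) => rotation (Circle.exp θ) (a i)) = rot θ := by
    funext a i
    simp [rot, rotation_apply, Circle.coe_exp]
  rwa [e] at h

lemma rot_cont (θ : ℝ) : Continuous (rot (ι := ι) θ) := continuous_const_smul _

lemma rot_norm (θ : ℝ) (y : ι → ℂ) : ‖rot θ y‖ = ‖y‖ := by
  unfold rot
  rw [norm_smul, Complex.norm_exp_ofReal_mul_I, one_mul]

lemma rot_emb (θ : ℝ) : MeasurableEmbedding (rot (ι := ι) θ) := by
  have hinj : Function.Injective (rot (ι := ι) θ) := by
    intro a b h
    have h1 : Complex.exp (θ * Complex.I) ≠ 0 := Complex.exp_ne_zero _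
    exact smul_right_injective _ h1 h
  exact (rot_cont θ).measurableEmbedding hinj

/-- mean value property against a rotation invariant kernel -/
lemma mean_val {F : (ι → ℂ) → ℂ} {x : ι → ℂ} {r : ℝ}
    (hF : ∀ y ∈ Metric.closedBall x r, DifferentiableAt ℂ F y) {χ : (ι → ℂ) → ℝ}
    (hχ : Continuous χ) (hχc : HasCompactSupport χ) (hχs : tsupport χ ⊆ Metric.closedBall 0 r)
    (hχr : ∀ (θ : ℝ) y, χ (rot θ y) = χ y) (hχ1 : ∫ y, χ y = 1) :
    ∫ y, F (x - y) * ((χ y : ℝ) : ℂ) = F x := by
  let K : ℝ × (ι → ℂ) → ℂ := fun q => F (x - rot q.1 q.2) * ((χ q.2 : ℝ) : ℂ)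
  have hrc : Continuous fun q : ℝ × (ι → ℂ) => rot q.1 q.2 := by
    unfold rot
    fun_prop
  have hKc : Continuous K := by
    rw [continuous_iff_continuousAt]
    rintro ⟨θ, y⟩
    by_cases hy : y ∈ tsupport χ
    · have h1 : x - rot θ y ∈ Metric.closedBall x r := by
        rw [mem_closedBall_iff_norm, sub_sub_cancel_left, norm_neg, rot_norm]
        exact mem_closedBall_zero_iff.1 (hχs hy)
      have h2 : ContinuousAt F (x - rot θ y) := (hF _ h1).continuousAt
      have h3 : ContinuousAt (fun q : ℝ × (ι → ℂ) => F (x - rot q.1 q.2)) (θ, y) :=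
        ContinuousAt.comp (g := F) (f := fun q : ℝ × (ι → ℂ) => x - rot q.1 q.2) h2
          (continuous_const.sub hrc).continuousAt
      exact h3.mul (Complex.continuous_ofReal.comp (hχ.comp continuous_snd)).continuousAt
    · have hev : K =ᶠ[𝓝 (θ, y)] fun _ => 0 := by
        have ho : IsOpen {q : ℝ × (ι → ℂ) | q.2 ∈ (tsupport χ)ᶜ} :=
          (isClosed_tsupport χ).isOpen_compl.preimage continuous_snd
        filter_upwards [ho.mem_nhds hy] with q hq
        simp only [K]
        rw [image_eq_zero_of_notMem_tsupport hq]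
        simp
      exact continuousAt_const.congr hev.symm
  have hpi : (0 : ℝ) ≤ 2 * π := by positivity
  have hKi : Integrable K ((volume.restrict (Ioc 0 (2 * π))).prod volume) := by
    have h1 : IntegrableOn K (Icc 0 (2 * π) ×ˢ tsupport χ) (volume.prod volume) :=
      hKc.continuousOn.integrableOn_compact (isCompact_Icc.prod hχc)
    have h2 : IntegrableOn K (Ioc 0 (2 * π) ×ˢ tsupport χ) (volume.prod volume) :=
      h1.mono_set (prod_mono Ioc_subset_Icc_self subset_rfl)
    have h3 : IntegrableOn K (Ioc 0 (2 * π) ×ˢ (univ : Set (ι → ℂ))) (volume.prod volume) := by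
      apply h2.of_forall_sdiff_eq_zero (measurableSet_Ioc.prod MeasurableSet.univ)
      rintro ⟨θ, y⟩ hy
      have hy' : y ∉ tsupport χ := fun h => hy.2 ⟨hy.1.1, h⟩
      simp only [K]
      rw [image_eq_zero_of_notMem_tsupport hy']
      simp
    unfold IntegrableOn at h3
    rwa [← Measure.prod_restrict, Measure.restrict_univ] at h3
  -- all rotations give the same integral
  have hA : ∀ θ : ℝ, ∫ y, K (θ, y) = ∫ y, F (x - y) * ((χ y : ℝ) : ℂ) := by
    intro θ
    have h := (rot_mp (ι := ι) θ).integral_comp (rot_emb θ) (fun y => F (x - y) * ((χ y : ℝ) : ℂ))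
    rw [← h]
    simp only [K]
    congr 1
    funext y
    rw [hχr]
  -- average over the circle
  have hB : ∀ y, ∫ θ in Ioc 0 (2 * π), K (θ, y) = 2 * π * F x * ((χ y : ℝ) : ℂ) := by
    intro y
    by_cases hy : y ∈ tsupport χ
    · have hd : ∀ ζ ∈ Metric.closedBall (0 : ℂ) 1, DifferentiableAt ℂ (fun ζ : ℂ => F (x - ζ • y)) ζ := by
        intro ζ hζ
        have h1 : x - ζ • y ∈ Metric.closedBall x r := by
          rw [mem_closedBall_iff_norm, sub_sub_cancel_left, norm_neg, norm_smul]
          have h2 := mem_closedBall_zero_iff.1 (hχs hy)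
          have h3 := mem_closedBall_zero_iff.1 hζ
          calc ‖ζ‖ * ‖y‖ ≤ 1 * ‖y‖ := by gcongr
            _ ≤ r := by rwa [one_mul]
        exact DifferentiableAt.comp ζ (g := F) (f := fun ζ : ℂ => x - ζ • y) (hF _ h1) (by fun_prop)
      have h := circleAverage_of_differentiable_on_off_countable (f := fun ζ : ℂ => F (x - ζ • y))
        (c := 0) (R := 1) countable_empty
        (by
          rw [abs_one]
          intro ζ hζ
          exact (hd ζ hζ).continuousAt.continuousWithinAt)
        (by
          rw [abs_one]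
          intro ζ hζ
          exact hd ζ (Metric.ball_subset_closedBall hζ.1))
      rw [Real.circleAverage_def] at h
      have e : ∀ θ : ℝ, circleMap 0 1 θ = Complex.exp (θ * Complex.I) := by
        intro θ
        simp [circleMap]
      simp_rw [e] at h
      rw [zero_smul, sub_zero] at h
      have e2 : ∫ θ in Ioc 0 (2 * π), K (θ, y) =
          (∫ θ in (0 : ℝ)..2 * π, F (x - Complex.exp (θ * Complex.I) • y)) * ((χ y : ℝ) : ℂ) := by
        rw [intervalIntegral.integral_of_le hpi, ← integral_mul_const]
        rfl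
      rw [e2, ← h, Complex.real_smul]
      push_cast
      have : (2 * π : ℂ) ≠ 0 := by simp [Real.pi_ne_zero]
      rw [← mul_assoc, mul_inv_cancel₀ this, one_mul]
    · simp only [K]
      rw [image_eq_zero_of_notMem_tsupport hy]
      simp
  have hswap := integral_integral_swap (f := fun θ y => K (θ, y)) hKi
  simp_rw [hA, hB] at hswap
  rw [integral_const_mul] at hswap
  have h4 : ∫ y, ((χ y : ℝ) : ℂ) = 1 := by
    rw [integral_complex_ofReal, hχ1]
    simp
  rw [h4, mul_one, integral_const] at hswap
  simp only [MeasurableSet.univ, measureReal_restrict_apply, univ_inter, Real.volume_real_Ioc,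
    sub_zero] at hswap
  rw [max_eq_left hpi, Complex.real_smul] at hswap
  push_cast at hswap
  have : (2 * π : ℂ) ≠ 0 := by simp [Real.pi_ne_zero]
  exact mul_left_cancel₀ this hswap

end Pool.Agent.Helper303.Mb
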