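import Pool.Agent.Helper303.MbForm

open MeasureTheory Set Complex
open scoped Real Topology ComplexConjugate ContDiff

set_option linter.unusedSectionVars false

namespace Pool.Agent.Helper303.Mb

variable {ι : Type} [Fintype ι] [DecidableEq ι]

/-- numerator of `s` -/
noncomputable def Ps (B : Blk ι) (z : ι → ℂ) : ℂ := Pz B 1 0 z + Pz B 0 1 z + Pz B 1 1 z

/-- the holomorphic function `s` -/
noncomputable def sz (B : Blk ι) (z : ι → ℂ) : ℂ := Ps B z / Dz B z

/-- its real part -/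
noncomputable def sg (B : Blk ι) (z : ι → ℂ) : ℝ := (sz B z).re

/-- `Re ℓ_j` -/
noncomputable def lm (B : Blk ι) (j : ℕ) (z : ι → ℂ) : ℝ := (Qz B 1 j z).re

/-- `E_j = exp(-N ℓ_j + s)` -/
noncomputable def EE (B : Blk ι) (N j : ℕ) (z : ι → ℂ) : ℂ := exp (-(N : ℂ) * Qz B 1 j z + sz B z)

/-- the cutoff -/
noncomputable def ww (B : Blk ι) (ε : ℝ) (j : ℕ) (z : ι → ℂ) : ℝ :=
  1 - Real.smoothTransition (sg B z - 1) *
    (1 - Real.smoothTransition (2 * lm B j z / (ε * sg B z) - 1))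

/-- the function `u₀` -/
noncomputable def uu (B : Blk ι) (J N : ℕ) (z : ι → ℂ) : ℂ :=
  ∑ j ∈ Finset.Icc 1 J, Dz B z ^ 2 * EE B N j z * (ww B (1 / (48 * J ^ 2)) j z : ℂ)

variable {B : Blk ι}

lemma contDiff_Ps : ContDiff ℂ ∞ (Ps B) :=
  ((contDiff_Pz 1 0).add (contDiff_Pz 0 1)).add (contDiff_Pz 1 1)

lemma sg_eq (z : ι → ℂ) : sg B z = qr 1 0 (z B.k11) (z B.k12) (z B.k21) (z B.k22) +
    qr 0 1 (z B.k11) (z B.k12) (z B.k21) (z B.k22) +
    qr 1 1 (z B.k11) (z B.k12) (z B.k21) (z B.k22) := by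
  unfold sg sz Ps qr Qf
  rw [add_div, add_div, add_re, add_re]
  rfl

lemma lm_eq (j : ℕ) (z : ι → ℂ) :
    lm B j z = qr 1 j (z B.k11) (z B.k12) (z B.k21) (z B.k22) := rfl

lemma sg_pos {z : ι → ℂ} (hz : z ∈ CB B) : 0 < sg B z := by
  rw [sg_eq]
  have h1 : 0 < qr 1 0 (z B.k11) (z B.k12) (z B.k21) (z B.k22) :=
    Qf_pos hz (Or.inl one_ne_zero)
  have h2 : 0 < qr 0 1 (z B.k11) (z B.k12) (z B.k21) (z B.k22) :=
    Qf_pos hz (Or.inr one_ne_zero)
  have h3 : 0 < qr 1 1 (z B.k11) (z B.k12) (z B.k21) (z B.k22) :=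
    Qf_pos hz (Or.inl one_ne_zero)
  linarith

lemma lm_pos {z : ι → ℂ} (hz : z ∈ CB B) (j : ℕ) : 0 < lm B j z :=
  Qf_pos hz (Or.inl one_ne_zero)

lemma norm_EE (N j : ℕ) (z : ι → ℂ) : ‖EE B N j z‖ = Real.exp (-(N * lm B j z) + sg B z) := by
  unfold EE
  rw [norm_exp]
  congr 1
  rw [add_re]
  congr 1
  have : (-(N : ℂ) * Qz B 1 j z) = ((-(N : ℝ) : ℝ) : ℂ) * Qz B 1 j z := by push_cast; ring
  rw [this, re_ofReal_mul]
  unfold lm
  ring

lemma diff_EE {N j : ℕ} {z : ι → ℂ} (hz : z ∈ CB B) : DifferentiableAt ℂ (EE B N j) z := by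
  unfold EE
  apply DifferentiableAt.cexp
  exact ((diff_quot (contDiff_Pz 1 j) hz).const_mul _).add (diff_quot contDiff_Ps hz)

lemma smooth_EE {N j : ℕ} {z : ι → ℂ} (hz : z ∈ CB B) : ContDiffAt ℝ ∞ (EE B N j) z := by
  unfold EE
  apply ContDiffAt.cexp
  exact (contDiffAt_const.mul (smooth_quot (contDiff_Pz 1 j) hz)).add (smooth_quot contDiff_Ps hz)

lemma smooth_sg {z : ι → ℂ} (hz : z ∈ CB B) : ContDiffAt ℝ ∞ (sg B) z :=
  reCLM.contDiff.contDiffAt.comp z (smooth_quot contDiff_Ps hz)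

lemma smooth_lm (j : ℕ) {z : ι → ℂ} (hz : z ∈ CB B) : ContDiffAt ℝ ∞ (lm B j) z :=
  reCLM.contDiff.contDiffAt.comp z (smooth_quot (contDiff_Pz 1 j) hz)

lemma smooth_ww {ε : ℝ} (hε : 0 < ε) (j : ℕ) {z : ι → ℂ} (hz : z ∈ CB B) :
    ContDiffAt ℝ ∞ (ww B ε j) z := by
  have hst : ∀ y, ContDiffAt ℝ ∞ Real.smoothTransition y := fun y =>
    Real.smoothTransition.contDiff.contDiffAt
  have h1 := smooth_sg hz
  have h2 := smooth_lm j hz
  have h3 : ε * sg B z ≠ 0 := (mul_pos hε (sg_pos hz)).ne'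
  unfold ww
  apply contDiffAt_const.sub
  apply ContDiffAt.mul
  · exact (hst _).comp z (h1.sub contDiffAt_const)
  · apply contDiffAt_const.sub
    exact (hst _).comp z (((contDiffAt_const.mul h2).div (contDiffAt_const.mul h1) h3).sub
      contDiffAt_const)

lemma smooth_uu {J N : ℕ} (hJ : 1 ≤ J) {z : ι → ℂ} (hz : z ∈ CB B) :
    ContDiffAt ℝ ∞ (uu B J N) z := by
  have hε : (0 : ℝ) < 1 / (48 * J ^ 2) := by
    have : (0 : ℝ) < J := by exact_mod_cast hJ
    positivity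
  unfold uu
  apply ContDiffAt.sum
  intro j _
  exact (((contDiff_Dz.contDiffAt.restrict_scalars ℝ).pow 2).mul (smooth_EE hz)).mul
    (ofRealCLM.contDiff.contDiffAt.comp z (smooth_ww hε j hz))

/-- derivative of the cutoff -/
lemma deriv_ww {ε : ℝ} (hε : 0 < ε) (j : ℕ) {z : ι → ℂ} (hz : z ∈ CB B) :
    HasFDerivAt (ww B ε j)
      ((-(deriv Real.smoothTransition (sg B z - 1) *
          (1 - Real.smoothTransition (2 * lm B j z / (ε * sg B z) - 1))) -
        Real.smoothTransition (sg B z - 1) *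
          (deriv Real.smoothTransition (2 * lm B j z / (ε * sg B z) - 1) *
            (2 * lm B j z / (ε * sg B z ^ 2)))) •
        (reCLM.comp ((fderiv ℂ (sz B) z).restrictScalars ℝ)) +
       (Real.smoothTransition (sg B z - 1) *
          (deriv Real.smoothTransition (2 * lm B j z / (ε * sg B z) - 1) *
            (2 / (ε * sg B z)))) •
        (reCLM.comp ((fderiv ℂ (Qz B 1 j) z).restrictScalars ℝ))) z := by
  have hs : HasFDerivAt (sg B) (reCLM.comp ((fderiv ℂ (sz B) z).restrictScalars ℝ)) z :=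
    reCLM.hasFDerivAt.comp z ((diff_quot contDiff_Ps hz).hasFDerivAt.restrictScalars ℝ)
  have hl : HasFDerivAt (lm B j) (reCLM.comp ((fderiv ℂ (Qz B 1 j) z).restrictScalars ℝ)) z :=
    reCLM.hasFDerivAt.comp z ((diff_quot (contDiff_Pz 1 j) hz).hasFDerivAt.restrictScalars ℝ)
  set dS := reCLM.comp ((fderiv ℂ (sz B) z).restrictScalars ℝ)
  set dL := reCLM.comp ((fderiv ℂ (Qz B 1 j) z).restrictScalars ℝ)
  have hpos := sg_pos hz
  have hst : ∀ y, HasDerivAt Real.smoothTransition (deriv Real.smoothTransition y) y := fun y =>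
    ((Real.smoothTransition.contDiff (n := 1)).differentiable (by simp) y).hasDerivAt
  have h1 : HasFDerivAt (fun z => Real.smoothTransition (sg B z - 1))
      (deriv Real.smoothTransition (sg B z - 1) • dS) z :=
    HasDerivAt.comp_hasFDerivAt (h₂ := Real.smoothTransition) (f := fun z => sg B z - 1) z
      (hst (sg B z - 1)) (hs.sub_const 1)
  have h2 : HasFDerivAt (fun z => 2 * lm B j z / (ε * sg B z) - 1)
      ((2 / (ε * sg B z)) • dL - (2 * lm B j z / (ε * sg B z ^ 2)) • dS) z := by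
    have hinv : HasFDerivAt (fun z => (ε * sg B z)⁻¹) (-((ε * sg B z) ^ 2)⁻¹ • (ε • dS)) z :=
      (hasDerivAt_inv (mul_pos hε hpos).ne').comp_hasFDerivAt z (hs.const_mul ε)
    have h0 := ((hl.const_mul 2).fun_mul hinv).sub_const 1
    have e : (2 * lm B j z) • (-((ε * sg B z) ^ 2)⁻¹ • (ε • dS)) + (ε * sg B z)⁻¹ • ((2 : ℝ) • dL) =
        (2 / (ε * sg B z)) • dL - (2 * lm B j z / (ε * sg B z ^ 2)) • dS := by
      ext v
      simp only [add_apply, smul_apply, sub_apply, smul_eq_mul]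
      field_simp
      ring
    rw [← e]
    exact h0
  have h3 : HasFDerivAt (fun z => Real.smoothTransition (2 * lm B j z / (ε * sg B z) - 1))
      (deriv Real.smoothTransition (2 * lm B j z / (ε * sg B z) - 1) •
        ((2 / (ε * sg B z)) • dL - (2 * lm B j z / (ε * sg B z ^ 2)) • dS)) z :=
    HasDerivAt.comp_hasFDerivAt (h₂ := Real.smoothTransition)
      (f := fun z => 2 * lm B j z / (ε * sg B z) - 1) z (hst _) h2
  have h4 := (h1.fun_mul (h3.const_sub 1)).const_sub 1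
  refine HasFDerivAt.congr_fderiv h4 ?_
  ext v
  simp only [add_apply, smul_apply, sub_apply, smul_eq_mul, neg_apply]
  ring

end Pool.Agent.Helper303.Mb
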