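import Pool.Agent.Helper303.MbInt

open MeasureTheory Set Complex
open scoped Real Topology ComplexConjugate ContDiff

set_option linter.unusedSectionVars false

namespace Pool.Agent.Helper303.Mb

variable {ι : Type} [Fintype ι] [DecidableEq ι] {B : Blk ι}

lemma Dz_sl {z0 zi z1 : ℂ} (h : Pos z0 zi z1) : Dz B (sl B z0 zi z1) = 4 / Gam z0 zi z1 := by
  unfold Dz
  rw [sl_11, sl_12, sl_21, sl_22]
  exact Dt_Z h

lemma Qz_sl {z0 zi z1 : ℂ} (h : Pos z0 zi z1) (x y : ℝ) : Qz B x y (sl B z0 zi z1) =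
    x ^ 2 * z0 + x * y * (z1 - z0 - zi) + y ^ 2 * zi := by
  unfold Qz
  rw [sl_11, sl_12, sl_21, sl_22]
  exact Qf_Z h x y

lemma sz_sl {z0 zi z1 : ℂ} (h : Pos z0 zi z1) : sz B (sl B z0 zi z1) = z0 + zi + z1 := by
  have h1 : sz B (sl B z0 zi z1) = Qz B 1 0 (sl B z0 zi z1) + Qz B 0 1 (sl B z0 zi z1) +
      Qz B 1 1 (sl B z0 zi z1) := by
    unfold sz Ps
    rw [add_div, add_div]
    rfl
  rw [h1, Qz_sl h, Qz_sl h, Qz_sl h]
  push_cast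
  ring

lemma KK_prod (X : ℝ × ℝ × ℝ) :
    KK (-(X.2.1 : ℂ) * I) ^ 6 * KK (-(X.1 : ℂ) * I) ^ 6 * KK (-(X.2.2 : ℂ) * I) ^ 6 =
      exp (((X.2.1 + X.1 + X.2.2 : ℝ) : ℂ) * I) * (kp 6 X : ℂ) := by
  rw [KK_kap, KK_kap, KK_kap]
  unfold kp
  have e : exp (((X.2.1 + X.1 + X.2.2 : ℝ) : ℂ) * I) =
      exp (((X.2.1 / 6 : ℝ) : ℂ) * I) ^ 6 * exp (((X.1 / 6 : ℝ) : ℂ) * I) ^ 6 *
        exp (((X.2.2 / 6 : ℝ) : ℂ) * I) ^ 6 := by
    rw [← exp_nat_mul, ← exp_nat_mul, ← exp_nat_mul, ← exp_add, ← exp_add]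
    congr 1
    push_cast
    ring
  rw [e]
  push_cast
  ring

lemma term_val {δ : ℝ} (hδ0 : 0 < δ) (hδ1 : δ ≤ 1 / 4) (ε : ℝ) (N i j : ℕ) (X : ℝ × ℝ × ℝ) :
    Dz B (slX B δ X) ^ 2 * EE B N i (slX B δ X) * (ww B ε i (slX B δ X) : ℂ) * PhX δ X *
      exp (-((N * La j X : ℝ) : ℂ) * I) =
    (Real.exp (4 * δ - N * (δ * (1 + (i : ℝ) ^ 2))) : ℂ) *
      ((kp 6 X : ℂ) * exp (((N * (La i X - La j X) : ℝ) : ℂ) * I)) := by
  have hP := Pos_X hδ0 X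
  have hs : sz B (slX B δ X) = ((4 * δ : ℝ) : ℂ) - ((X.2.1 + X.1 + X.2.2 : ℝ) : ℂ) * I := by
    unfold slX
    rw [sz_sl hP]
    push_cast
    ring
  have hsg : sg B (slX B δ X) = 4 * δ := by
    unfold sg
    rw [hs, sub_re, ofReal_re]
    have : (((X.2.1 + X.1 + X.2.2 : ℝ) : ℂ) * I).re = 0 := by simp
    rw [this, sub_zero]
  have hw : ww B ε i (slX B δ X) = 1 := by
    unfold ww
    rw [hsg, Real.smoothTransition.zero_of_nonpos (by linarith)]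
    ring
  have hQ : Qz B 1 i (slX B δ X) = ((δ * (1 + (i : ℝ) ^ 2) : ℝ) : ℂ) - (La i X : ℂ) * I := by
    unfold slX
    rw [Qz_sl hP]
    unfold La
    push_cast
    ring
  have hE : EE B N i (slX B δ X) = (Real.exp (4 * δ - N * (δ * (1 + (i : ℝ) ^ 2))) : ℂ) *
      (exp (((N * La i X : ℝ) : ℂ) * I) * exp (-(((X.2.1 + X.1 + X.2.2 : ℝ) : ℂ) * I))) := by
    unfold EE
    rw [hQ, hs, ofReal_exp, ← exp_add, ← exp_add]
    congr 1
    push_cast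
    ring
  have hDz : Dz B (slX B δ X) ^ 2 * (Gam (δ + -(X.2.1 : ℂ) * I) (δ + -(X.1 : ℂ) * I)
      (2 * δ + -(X.2.2 : ℂ) * I) ^ 2 / 16) = 1 := by
    unfold slX
    rw [Dz_sl hP]
    have := Gam_ne hP
    set G := Gam (δ + -(X.2.1 : ℂ) * I) (δ + -(X.1 : ℂ) * I) (2 * δ + -(X.2.2 : ℂ) * I)
    field_simp
    norm_num
  have hPh : PhX δ X = (Gam (δ + -(X.2.1 : ℂ) * I) (δ + -(X.1 : ℂ) * I)
      (2 * δ + -(X.2.2 : ℂ) * I) ^ 2 / 16) *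
        (exp (((X.2.1 + X.1 + X.2.2 : ℝ) : ℂ) * I) * (kp 6 X : ℂ)) := by
    rw [← KK_prod]
    unfold PhX PhiW
    ring
  have hcancel : exp (-(((X.2.1 + X.1 + X.2.2 : ℝ) : ℂ) * I)) *
      exp (((X.2.1 + X.1 + X.2.2 : ℝ) : ℂ) * I) = 1 := by
    rw [← exp_add, neg_add_cancel, exp_zero]
  have hexp : exp (((N * (La i X - La j X) : ℝ) : ℂ) * I) =
      exp (((N * La i X : ℝ) : ℂ) * I) * exp (-((N * La j X : ℝ) : ℂ) * I) := by
    rw [← exp_add]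
    congr 1
    push_cast
    ring
  rw [hw, hE, hPh, hexp, ofReal_one, mul_one]
  set G := Gam (δ + -(X.2.1 : ℂ) * I) (δ + -(X.1 : ℂ) * I) (2 * δ + -(X.2.2 : ℂ) * I) ^ 2 / 16
  set A := (Real.exp (4 * δ - N * (δ * (1 + (i : ℝ) ^ 2))) : ℂ)
  set E1 := exp (((N * La i X : ℝ) : ℂ) * I)
  set E2 := exp (-((N * La j X : ℝ) : ℂ) * I)
  set c1 := exp (-(((X.2.1 + X.1 + X.2.2 : ℝ) : ℂ) * I))
  set c2 := exp (((X.2.1 + X.1 + X.2.2 : ℝ) : ℂ) * I)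
  set K := (kp 6 X : ℂ)
  calc Dz B (slX B δ X) ^ 2 * (A * (E1 * c1)) * (G * (c2 * K)) * E2 =
      (Dz B (slX B δ X) ^ 2 * G) * (c1 * c2) * (A * (K * (E1 * E2))) := by ring
    _ = _ := by rw [hDz, hcancel]; ring

lemma kpexp_integrable (k : ℕ) (hk : 2 ≤ k) (N i j : ℕ) : Integrable
    (fun X : ℝ × ℝ × ℝ => (kp k X : ℂ) * exp (((N * (La i X - La j X) : ℝ) : ℂ) * I)) := by
  have h := (kp_integrable k hk).ofReal (𝕜 := ℂ)
  apply h.norm.mono'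
  · have h1 := kp_cont k
    have h2 := La_cont i
    have h3 := La_cont j
    apply Continuous.aestronglyMeasurable
    fun_prop
  · filter_upwards with X
    rw [norm_mul, norm_exp_ofReal_mul_I, mul_one]
    rfl

lemma uu_val {δ : ℝ} (hδ0 : 0 < δ) (hδ1 : δ ≤ 1 / 4) {J N : ℕ} (hN : 1 ≤ N) {j : ℕ}
    (hj : j ∈ Finset.Icc 1 J) :
    Integrable (F3 B δ N j (uu B J N)) ∧
    ∫ X, F3 B δ N j (uu B J N) X =
      (Real.exp (4 * δ - N * (δ * (1 + (j : ℝ) ^ 2))) * (∫ x, kap x ^ 6) ^ 3 : ℝ) := by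
  have e : F3 B δ N j (uu B J N) = fun X => ∑ i ∈ Finset.Icc 1 J,
      (Real.exp (4 * δ - N * (δ * (1 + (i : ℝ) ^ 2))) : ℂ) *
      ((kp 6 X : ℂ) * exp (((N * (La i X - La j X) : ℝ) : ℂ) * I)) := by
    funext X
    unfold F3 uu
    rw [Finset.sum_mul, Finset.sum_mul]
    apply Finset.sum_congr rfl
    intro i _
    exact term_val hδ0 hδ1 _ N i j X
  rw [e]
  refine ⟨integrable_finsetSum _ fun i _ => (kpexp_integrable 6 (by norm_num) N i j).const_mul _, ?_⟩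
  rw [integral_finsetSum _ fun i _ => (kpexp_integrable 6 (by norm_num) N i j).const_mul _]
  have h1 : ∀ i ∈ Finset.Icc 1 J, ∫ X, (Real.exp (4 * δ - N * (δ * (1 + (i : ℝ) ^ 2))) : ℂ) *
      ((kp 6 X : ℂ) * exp (((N * (La i X - La j X) : ℝ) : ℂ) * I)) =
      if i = j then ((Real.exp (4 * δ - N * (δ * (1 + (j : ℝ) ^ 2))) *
        (∫ x, kap x ^ 6) ^ 3 : ℝ) : ℂ) else 0 := by
    intro i _
    rw [integral_const_mul, orth 6 (by norm_num) le_rfl hN]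
    split_ifs with h
    · subst h
      push_cast
      ring
    · simp
  rw [Finset.sum_congr rfl h1, Finset.sum_ite_eq' _ j, if_pos hj]

/-- the sum of exponentials -/
noncomputable def SS (J N : ℕ) (X : ℝ × ℝ × ℝ) : ℂ :=
  ∑ j ∈ Finset.Icc 1 J, exp (-((N * La j X : ℝ) : ℂ) * I)

lemma SS_cont (J N : ℕ) : Continuous (SS J N) := by
  unfold SS
  apply continuous_finsetSum
  intro j _
  have := La_cont j
  fun_prop

lemma SS_sq (J N : ℕ) (X : ℝ × ℝ × ℝ) : ((kp 2 X * ‖SS J N X‖ ^ 2 : ℝ) : ℂ) =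
    ∑ i ∈ Finset.Icc 1 J, ∑ j ∈ Finset.Icc 1 J,
      (kp 2 X : ℂ) * exp (((N * (La i X - La j X) : ℝ) : ℂ) * I) := by
  have h1 : ((‖SS J N X‖ ^ 2 : ℝ) : ℂ) = conj (SS J N X) * SS J N X := by
    rw [mul_comm, mul_conj, normSq_eq_norm_sq]
  rw [ofReal_mul, h1]
  unfold SS
  rw [map_sum, Finset.sum_mul_sum, Finset.mul_sum]
  apply Finset.sum_congr rfl
  intro i _
  rw [Finset.mul_sum]
  apply Finset.sum_congr rfl
  intro j _
  congr 1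
  rw [← exp_conj, ← exp_add]
  congr 1
  rw [map_mul, map_neg, conj_ofReal, conj_I]
  push_cast
  ring

lemma SS_int {J N : ℕ} (hN : 1 ≤ N) :
    Integrable (fun X => kp 2 X * ‖SS J N X‖ ^ 2) ∧
    ∫ X, kp 2 X * ‖SS J N X‖ ^ 2 = J * (∫ x, kap x ^ 2) ^ 3 := by
  have hint : Integrable (fun X => ((kp 2 X * ‖SS J N X‖ ^ 2 : ℝ) : ℂ)) := by
    have e : (fun X => ((kp 2 X * ‖SS J N X‖ ^ 2 : ℝ) : ℂ)) = fun X =>
      ∑ i ∈ Finset.Icc 1 J, ∑ j ∈ Finset.Icc 1 J,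
      (kp 2 X : ℂ) * exp (((N * (La i X - La j X) : ℝ) : ℂ) * I) := by
      funext X
      exact SS_sq J N X
    rw [e]
    exact integrable_finsetSum _ fun i _ => integrable_finsetSum _ fun j _ =>
      kpexp_integrable 2 le_rfl N i j
  have hint' : Integrable (fun X => kp 2 X * ‖SS J N X‖ ^ 2) := by
    have := hint.re
    refine this.congr (Filter.Eventually.of_forall fun X => ?_)
    exact ofReal_re _
  refine ⟨hint', ?_⟩
  have h1 : ((∫ X, kp 2 X * ‖SS J N X‖ ^ 2 : ℝ) : ℂ) = ((J * (∫ x, kap x ^ 2) ^ 3 : ℝ) : ℂ) := by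
    refine (integral_ofReal (𝕜 := ℂ) (f := fun X => kp 2 X * ‖SS J N X‖ ^ 2)).symm.trans ?_
    have e : ∀ X, ((kp 2 X * ‖SS J N X‖ ^ 2 : ℝ) : ℂ) = ∑ i ∈ Finset.Icc 1 J, ∑ j ∈ Finset.Icc 1 J,
      (kp 2 X : ℂ) * exp (((N * (La i X - La j X) : ℝ) : ℂ) * I) := SS_sq J N
    refine (integral_congr_ae (Filter.Eventually.of_forall e)).trans ?_
    rw [integral_finsetSum _ fun i _ => integrable_finsetSum _ fun j _ =>
      kpexp_integrable 2 le_rfl N i j]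
    have h2 : ∀ i ∈ Finset.Icc 1 J, ∫ X, ∑ j ∈ Finset.Icc 1 J,
      (kp 2 X : ℂ) * exp (((N * (La i X - La j X) : ℝ) : ℂ) * I) =
        (((∫ x, kap x ^ 2) ^ 3 : ℝ) : ℂ) := by
      intro i hi
      rw [integral_finsetSum _ fun j _ => kpexp_integrable 2 le_rfl N i j]
      simp only [orth 2 le_rfl (by norm_num) hN]
      rw [Finset.sum_ite_eq, if_pos hi]
    rw [Finset.sum_congr rfl h2, Finset.sum_const, Nat.card_Icc]
    simp
  exact_mod_cast h1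

lemma PhX_bound' {δ : ℝ} (hδ0 : 0 ≤ δ) (hδ1 : δ ≤ 1 / 4) (X : ℝ × ℝ × ℝ) :
    ‖PhX δ X‖ ≤ 2 * 8 ^ 15 * (1 / PP (-(X.2.1 : ℂ) * I) (-(X.1 : ℂ) * I) (-(X.2.2 : ℂ) * I)) *
      |kap X.1 * (kap X.2.1 * kap X.2.2)| := by
  have hG := Gam_bound hδ0 hδ1 (-(X.2.1 : ℂ) * I) (-(X.1 : ℂ) * I) (-(X.2.2 : ℂ) * I)
  have hK := KK_prod_bound (η0 := -(X.2.1 : ℂ) * I) (ηi := -(X.1 : ℂ) * I)
    (η1 := -(X.2.2 : ℂ) * I) (by simp) (by simp) (by simp) 5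
  have hP := (PP_ge (-(X.2.1 : ℂ) * I) (-(X.1 : ℂ) * I) (-(X.2.2 : ℂ) * I)).1
  have hk : ∀ x : ℝ, ‖KK (-(x : ℂ) * I)‖ = |kap x| := by
    intro x
    rw [KK_kap, norm_mul, norm_exp_ofReal_mul_I, one_mul, norm_real, Real.norm_eq_abs]
  unfold PhX PhiW
  set P := PP (-(X.2.1 : ℂ) * I) (-(X.1 : ℂ) * I) (-(X.2.2 : ℂ) * I)
  rw [norm_mul, norm_mul, norm_mul, norm_div, norm_pow, norm_pow, norm_pow, norm_pow]
  have h16 : ‖(16 : ℂ)‖ = 16 := by simp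
  rw [h16]
  set G := ‖Gam (δ + -(X.2.1 : ℂ) * I) (δ + -(X.1 : ℂ) * I) (2 * δ + -(X.2.2 : ℂ) * I)‖
  set a := ‖KK (-(X.2.1 : ℂ) * I)‖ with ha
  set b := ‖KK (-(X.1 : ℂ) * I)‖ with hb
  set c := ‖KK (-(X.2.2 : ℂ) * I)‖ with hc
  have e1 : |kap X.1 * (kap X.2.1 * kap X.2.2)| = b * (a * c) := by
    rw [abs_mul, abs_mul, ha, hb, hc, hk, hk, hk]
  rw [e1]
  have ha0 : 0 ≤ a := norm_nonneg _
  have hb0 : 0 ≤ b := norm_nonneg _
  have hc0 : 0 ≤ c := norm_nonneg _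
  have hG0 : 0 ≤ G := norm_nonneg _
  calc G ^ 2 / 16 * a ^ 6 * b ^ 6 * c ^ 6 = G ^ 2 / 16 * (a ^ 5 * b ^ 5 * c ^ 5) * (b * (a * c)) := by
        ring
    _ ≤ (5 * P ^ 2) ^ 2 / 16 * (8 ^ (3 * 5) / P ^ 5) * (b * (a * c)) := by
        gcongr
    _ = (25 / 16) * 8 ^ 15 * (1 / P) * (b * (a * c)) := by
        field_simp
        ring
    _ ≤ 2 * 8 ^ 15 * (1 / P) * (b * (a * c)) := by
        gcongr
        norm_num

/-- the constant -/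
noncomputable def Kc : ℝ := (4 * 8 ^ 30 * (∫ X, mj X) + (∫ x, kap x ^ 2) ^ 3) / 2

lemma pt_bound {δ : ℝ} (hδ0 : 0 ≤ δ) (hδ1 : δ ≤ 1 / 4) {J N : ℕ} (hJ : 1 ≤ J) (X : ℝ × ℝ × ℝ) :
    ‖PhX δ X‖ * ‖SS J N X‖ ≤
      (Real.sqrt J * (4 * 8 ^ 30 * mj X) + (kp 2 X * ‖SS J N X‖ ^ 2) / Real.sqrt J) / 2 := by
  have h1 := PhX_bound' hδ0 hδ1 X
  have h2 := PP_mj X
  have hP := (PP_ge (-(X.2.1 : ℂ) * I) (-(X.1 : ℂ) * I) (-(X.2.2 : ℂ) * I)).1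
  set P := PP (-(X.2.1 : ℂ) * I) (-(X.1 : ℂ) * I) (-(X.2.2 : ℂ) * I)
  set κ := |kap X.1 * (kap X.2.1 * kap X.2.2)| with hκ
  have hκ2 : κ ^ 2 = kp 2 X := by
    rw [hκ, sq_abs]
    unfold kp
    ring
  have hκ0 : 0 ≤ κ := abs_nonneg _
  set r := Real.sqrt J with hr
  have hr1 : 0 < r := by
    rw [hr]
    apply Real.sqrt_pos.2
    exact_mod_cast hJ
  set S := ‖SS J N X‖
  have hS : 0 ≤ S := norm_nonneg _
  set p := 1 / P with hp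
  have hp0 : 0 ≤ p := by positivity
  have hp2 : p ^ 2 ≤ mj X := by
    rw [hp, div_pow, one_pow]
    exact h2
  rw [← hκ2]
  calc ‖PhX δ X‖ * S ≤ (2 * 8 ^ 15 * p * κ) * S := by gcongr
    _ ≤ (r * (4 * 8 ^ 30 * p ^ 2) + (κ ^ 2 * S ^ 2) / r) / 2 := by
        rw [le_div_iff₀ (by norm_num : (0 : ℝ) < 2)]
        have e : (r * (4 * 8 ^ 30 * p ^ 2) + (κ ^ 2 * S ^ 2) / r) - (2 * 8 ^ 15 * p * κ) * S * 2 =
            (r * (2 * 8 ^ 15 * p) - κ * S) ^ 2 / r := by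
          field_simp
          ring
        have : 0 ≤ (r * (2 * 8 ^ 15 * p) - κ * S) ^ 2 / r := by positivity
        linarith
    _ ≤ _ := by gcongr

theorem main_ineq {D : Set (ι → ℂ)} (hD : ∀ z0 zi z1, Pos z0 zi z1 → sl B z0 zi z1 ∈ D)
    (hDC : D ⊆ CB B) {H : (ι → ℂ) → ℂ} (hH : ∀ z ∈ D, DifferentiableAt ℂ H z) {M : ℝ} (hM0 : 0 ≤ M)
    (hM : ∀ z ∈ D, ‖H z‖ ≤ M) {J N : ℕ} (hJ : 1 ≤ J) (hN : 1 ≤ N) {b : ℝ} (hb0 : 0 ≤ b)
    (hb : ∀ z ∈ D, ‖uu B J N z + H z‖ ≤ b) :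
    J * (Real.exp (-1) * (∫ x, kap x ^ 6) ^ 3) ≤ b * (Real.sqrt J * Kc) := by
  have hJ0 : (1 : ℝ) ≤ J := by exact_mod_cast hJ
  have hN0 : (1 : ℝ) ≤ N := by exact_mod_cast hN
  set κ3 := (∫ x, kap x ^ 6) ^ 3 with hκ3
  have hκ0 : 0 < κ3 := pow_pos kap_six_pos 3
  set δ : ℝ := 1 / (4 * (N * (1 + (J : ℝ) ^ 2))) with hδ
  have hq1 : 1 ≤ (N : ℝ) * (1 + (J : ℝ) ^ 2) := by nlinarith [sq_nonneg (J : ℝ)]
  have hδ0 : 0 < δ := by positivity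
  have hδ1 : δ ≤ 1 / 4 := by
    rw [hδ, div_le_div_iff₀ (by positivity) (by norm_num)]
    linarith
  have hHc : ∀ z ∈ D, ContinuousAt H z := fun z hz => (hH z hz).continuousAt
  have hUc : ∀ z ∈ D, ContinuousAt (fun z => uu B J N z + H z) z := fun z hz =>
    (smooth_uu hJ (hDC hz)).continuousAt.add (hHc z hz)
  have hval : ∀ j ∈ Finset.Icc 1 J, ∫ X, F3 B δ N j (fun z => uu B J N z + H z) X =
      (Real.exp (4 * δ - N * (δ * (1 + (j : ℝ) ^ 2))) * κ3 : ℝ) := by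
    intro j hj
    have e : F3 B δ N j (fun z => uu B J N z + H z) = fun X =>
        F3 B δ N j (uu B J N) X + F3 B δ N j H X := by
      funext X
      unfold F3
      ring
    obtain ⟨i1, v1⟩ := uu_val (B := B) hδ0 hδ1 hN hj
    rw [e, integral_add i1 (F3_integrable hD hHc hM0 hM hδ0 hδ1 N j), v1,
      Lam_zero hD hH hM0 hM hδ0 hδ1 N j, add_zero]
  have hge : (J : ℝ) * (Real.exp (-1) * κ3) ≤
      ∑ j ∈ Finset.Icc 1 J, Real.exp (4 * δ - N * (δ * (1 + (j : ℝ) ^ 2))) * κ3 := by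
    have h1 : ∀ j ∈ Finset.Icc 1 J, Real.exp (-1) * κ3 ≤
        Real.exp (4 * δ - N * (δ * (1 + (j : ℝ) ^ 2))) * κ3 := by
      intro j hj
      have hjJ : (j : ℝ) ≤ J := by exact_mod_cast (Finset.mem_Icc.1 hj).2
      have hj0 : (0 : ℝ) ≤ j := Nat.cast_nonneg j
      gcongr
      have h2 : (N : ℝ) * (δ * (1 + (j : ℝ) ^ 2)) ≤ N * (δ * (1 + (J : ℝ) ^ 2)) := by gcongr
      have h3 : (N : ℝ) * (δ * (1 + (J : ℝ) ^ 2)) = 1 / 4 := by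
        rw [hδ]
        field_simp
      linarith
    have h2 := Finset.sum_le_sum h1
    rw [Finset.sum_const, Nat.card_Icc, nsmul_eq_mul] at h2
    simpa using h2
  have hsum : ∑ j ∈ Finset.Icc 1 J, ∫ X, F3 B δ N j (fun z => uu B J N z + H z) X =
      ((∑ j ∈ Finset.Icc 1 J, Real.exp (4 * δ - N * (δ * (1 + (j : ℝ) ^ 2))) * κ3 : ℝ) : ℂ) := by
    rw [Finset.sum_congr rfl hval]
    push_cast
    rfl
  have hint : ∀ j ∈ Finset.Icc 1 J, Integrable (F3 B δ N j (fun z => uu B J N z + H z)) :=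
    fun j _ => F3_integrable hD hUc hb0 hb hδ0 hδ1 N j
  rw [← integral_finsetSum _ hint] at hsum
  have hnorm : ‖∫ X, ∑ j ∈ Finset.Icc 1 J, F3 B δ N j (fun z => uu B J N z + H z) X‖ ≤
      ∫ X, b * ((Real.sqrt J * (4 * 8 ^ 30 * mj X) + (kp 2 X * ‖SS J N X‖ ^ 2) / Real.sqrt J) / 2) := by
    apply norm_integral_le_of_norm_le
    · exact ((((mj_integrable.const_mul _).const_mul _).add
        ((SS_int hN).1.div_const _)).div_const 2).const_mul b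
    · filter_upwards with X
      have e : ∑ j ∈ Finset.Icc 1 J, F3 B δ N j (fun z => uu B J N z + H z) X =
          (uu B J N (slX B δ X) + H (slX B δ X)) * (PhX δ X * SS J N X) := by
        unfold F3 SS
        rw [Finset.mul_sum, Finset.mul_sum]
        apply Finset.sum_congr rfl
        intro j _
        ring
      rw [e, norm_mul, norm_mul]
      exact mul_le_mul (hb _ (hD _ _ _ (Pos_X hδ0 X))) (pt_bound hδ0.le hδ1 hJ X) (by positivity) hb0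
  rw [hsum, norm_real, Real.norm_eq_abs, abs_of_nonneg (by positivity)] at hnorm
  refine hge.trans (hnorm.trans (le_of_eq ?_))
  rw [integral_const_mul, integral_div, integral_add ((mj_integrable.const_mul _).const_mul _)
    ((SS_int hN).1.div_const _), integral_const_mul, integral_const_mul, integral_div, (SS_int hN).2]
  unfold Kc
  have hr : Real.sqrt J * Real.sqrt J = J := Real.mul_self_sqrt (by positivity)
  have hr0 : 0 < Real.sqrt J := Real.sqrt_pos.2 (by positivity)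
  have e2 : (J : ℝ) * (∫ x, kap x ^ 2) ^ 3 / Real.sqrt J = Real.sqrt J * (∫ x, kap x ^ 2) ^ 3 := by
    rw [div_eq_iff hr0.ne']
    calc (J : ℝ) * (∫ x, kap x ^ 2) ^ 3 = (Real.sqrt J * Real.sqrt J) * (∫ x, kap x ^ 2) ^ 3 := by
          rw [hr]
      _ = _ := by ring
  rw [e2]
  ring

end Pool.Agent.Helper303.Mb
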