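import Pool.Agent.Helper303.MbCalc

open MeasureTheory Set
open scoped ContDiff ComplexConjugate Convolution Topology

set_option linter.unusedSectionVars false

namespace Pool.Agent.Helper303.Mb

variable {ι : Type} [Fintype ι] [DecidableEq ι]

/-- real-linear map which is complex linear on the coordinate vectors -/
lemma complex_lin (D : (ι → ℂ) →L[ℝ] ℂ)
    (h : ∀ j, D (Pi.single j Complex.I) = Complex.I * D (Pi.single j 1)) (c : ℂ) (v : ι → ℂ) :
    D (c • v) = c * D v := by
  have key : ∀ v : ι → ℂ, D v = ∑ j, v j * D (Pi.single j 1) := by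
    intro v
    have e : v = ∑ j, ((v j).re • (Pi.single j 1 : ι → ℂ) +
        (v j).im • (Pi.single j Complex.I : ι → ℂ)) := by
      funext i
      rw [Finset.sum_apply]
      rw [Finset.sum_eq_single i]
      · simp only [Pi.add_apply, Pi.smul_apply, Pi.single_eq_same, Complex.real_smul, mul_one]
        exact (Complex.re_add_im (v i)).symm
      · intro j _ hj
        simp [Pi.single_eq_of_ne hj.symm]
      · intro h
        exact absurd (Finset.mem_univ i) h
    conv_lhs => rw [e]
    rw [map_sum]
    apply Finset.sum_congr rfl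
    intro j _
    rw [map_add, map_smul, map_smul, h, Complex.real_smul, Complex.real_smul]
    conv_rhs => rw [← Complex.re_add_im (v j)]
    ring
  rw [key, key, Finset.mul_sum]
  apply Finset.sum_congr rfl
  intro j _
  rw [Pi.smul_apply, smul_eq_mul]
  ring

/-- a real differentiable function satisfying the Cauchy-Riemann equations at a point is
complex differentiable there -/
lemma diffC_of_CR {F : (ι → ℂ) → ℂ} {x : ι → ℂ} (hF : DifferentiableAt ℝ F x)
    (h : ∀ j, fderiv ℝ F x (Pi.single j Complex.I) =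
      Complex.I * fderiv ℝ F x (Pi.single j 1)) : DifferentiableAt ℂ F x := by
  rw [differentiableAt_iff_restrictScalars ℝ hF]
  let L : (ι → ℂ) →ₗ[ℂ] ℂ :=
    { toFun := fderiv ℝ F x
      map_add' := fun a b => map_add _ a b
      map_smul' := fun c v => by
        rw [complex_lin _ h]
        simp }
  refine ⟨⟨L, (fderiv ℝ F x).continuous⟩, ?_⟩
  ext v
  rfl

/-- convolutions of weakly holomorphic functions are holomorphic -/
lemma conv_hol {Ω : Set (ι → ℂ)} {u g : (ι → ℂ) → ℂ}
    (hw : ∀ j : ι, ∀ φ, IsTest Ω φ → ∫ x in Ω, u x * dbar j φ x = 0)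
    (hg : LocallyIntegrable g) {p : (ι → ℂ) → ℝ} (hp : ContDiff ℝ ∞ p) (hpc : HasCompactSupport p)
    {δ : ℝ} (hps : tsupport p ⊆ Metric.closedBall 0 δ) {x : ι → ℂ}
    (hx : Metric.closedBall x δ ⊆ Ω) (hgu : ∀ y ∈ Metric.closedBall x δ, g y = u y) :
    DifferentiableAt ℂ (fun x => ∫ y, g y * ((p (x - y) : ℝ) : ℂ)) x := by
  let L : ℂ →L[ℝ] ℝ →L[ℝ] ℂ := (ContinuousLinearMap.lsmul ℝ ℝ).flip
  let Hk : (ι → ℂ) → ℂ := (g ⋆[L, volume] p)
  have hHk : (fun x => ∫ y, g y * ((p (x - y) : ℝ) : ℂ)) = Hk := by
    funext x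
    simp only [Hk]
    rw [convolution_def]
    congr 1
    funext y
    simp only [L, ContinuousLinearMap.flip_apply, ContinuousLinearMap.lsmul_apply,
      Complex.real_smul]
    ring
  rw [hHk]
  have hder : ∀ x, HasFDerivAt Hk ((g ⋆[L.precompR (ι → ℂ), volume] fderiv ℝ p) x) x := by
    intro x
    exact hpc.hasFDerivAt_convolution_right L hg (hp.of_le (by simp)) x
  have hder_app : ∀ w, fderiv ℝ Hk x w =
      ∫ y, g y * ((fderiv ℝ p (x - y) w : ℝ) : ℂ) := by
    intro w
    have h1 : Continuous (fderiv ℝ p) := hp.continuous_fderiv (by simp)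
    rw [(hder x).fderiv, convolution_precompR_apply L hg (hpc.fderiv ℝ) h1]
    rw [convolution_def]
    congr 1
    funext y
    simp only [L, ContinuousLinearMap.flip_apply, ContinuousLinearMap.lsmul_apply,
      Complex.real_smul]
    ring
  apply diffC_of_CR (hder x).differentiableAt
  intro j
  let ϕ : (ι → ℂ) → ℂ := fun y => ((p (x - y) : ℝ) : ℂ)
  have hϕcd : ContDiff ℝ ∞ ϕ :=
    Complex.ofRealCLM.contDiff.comp (hp.comp (contDiff_const.sub contDiff_id))
  have hϕs : ∀ y, y ∉ Metric.closedBall x δ → ϕ y = 0 := by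
    intro y hy
    simp only [ϕ]
    have : x - y ∉ tsupport p := by
      intro h
      apply hy
      have h2 := hps h
      rw [mem_closedBall_zero_iff] at h2
      rw [mem_closedBall_iff_norm]
      rwa [norm_sub_rev]
    rw [image_eq_zero_of_notMem_tsupport this]
    simp
  have hϕts : tsupport ϕ ⊆ Metric.closedBall x δ := by
    apply closure_minimal _ Metric.isClosed_closedBall
    intro y hy
    by_contra hcon
    exact hy (hϕs y hcon)
  have hϕt : IsTest Ω ϕ :=
    ⟨hϕcd, (isCompact_closedBall x δ).of_isClosed_subset (isClosed_tsupport _) hϕts,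
      hϕts.trans hx⟩
  have hfd : ∀ y w, fderiv ℝ ϕ y w = -((fderiv ℝ p (x - y) w : ℝ) : ℂ) := by
    intro y w
    have h1 : HasFDerivAt (fun y => x - y) (-(ContinuousLinearMap.id ℝ (ι → ℂ))) y :=
      (hasFDerivAt_id y).const_sub x
    have h2 : HasFDerivAt p (fderiv ℝ p (x - y)) (x - y) :=
      (hp.differentiable (by simp) _).hasFDerivAt
    have h3 := Complex.ofRealCLM.hasFDerivAt.comp y (h2.comp y h1)
    have h4 : fderiv ℝ ϕ y = _ := h3.fderiv
    rw [h4]
    simp
  have h0 := hw j ϕ hϕt
  have h1 : ∫ y in Ω, u y * dbar j ϕ y = ∫ y, g y * dbar j ϕ y := by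
    rw [setIntegral_eq_integral_of_forall_compl_eq_zero]
    · congr 1
      funext y
      by_cases hy : y ∈ Metric.closedBall x δ
      · rw [hgu y hy]
      · rw [dbar_eq_zero_of_notMem (fun h => hy (hϕts h)), mul_zero, mul_zero]
    · intro y hy
      rw [dbar_eq_zero_of_notMem (fun h => hy (hϕt.2.2 h)), mul_zero]
  rw [h1] at h0
  have hint : ∀ w, Integrable fun y => g y * ((fderiv ℝ p (x - y) w : ℝ) : ℂ) := by
    intro w
    have hc : Continuous fun y => ((fderiv ℝ p (x - y) w : ℝ) : ℂ) := by
      have := (hp.continuous_fderiv (by simp)).clm_apply (continuous_const (y := w))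
      exact Complex.continuous_ofReal.comp (this.comp (continuous_const.sub continuous_id))
    have hcs : HasCompactSupport fun y => ((fderiv ℝ p (x - y) w : ℝ) : ℂ) := by
      apply HasCompactSupport.intro (isCompact_closedBall x δ)
      intro y hy
      have h3 : x - y ∉ tsupport p := by
        intro h
        apply hy
        have h2 := hps h
        rw [mem_closedBall_zero_iff] at h2
        rw [mem_closedBall_iff_norm]
        rwa [norm_sub_rev]
      have h4 : fderiv ℝ p (x - y) = 0 := by
        by_contra h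
        exact h3 (support_fderiv_subset ℝ h)
      rw [h4]
      simp
    have := (hg.integrable_smul_right_of_hasCompactSupport hc hcs)
    refine this.congr (Filter.Eventually.of_forall fun y => ?_)
    simp [mul_comm]
  have h2 : ∀ y, g y * dbar j ϕ y =
      (-1 / 2 : ℂ) * (g y * ((fderiv ℝ p (x - y) (Pi.single j 1) : ℝ) : ℂ)) +
      (-Complex.I / 2) * (g y * ((fderiv ℝ p (x - y) (Pi.single j Complex.I) : ℝ) : ℂ)) := by
    intro y
    unfold dbar
    rw [hfd, hfd]
    ring
  simp_rw [h2] at h0
  rw [integral_add ((hint _).const_mul _) ((hint _).const_mul _), integral_const_mul,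
    integral_const_mul] at h0
  rw [hder_app, hder_app]
  linear_combination (2 * Complex.I) * h0 +
    (∫ y, g y * ((fderiv ℝ p (x - y) (Pi.single j Complex.I) : ℝ) : ℂ)) * Complex.I_sq

end Pool.Agent.Helper303.Mb
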