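import Pool.Agent.Helper243.SemiSymAll

set_option autoImplicit false

namespace Pool.Agent.Helper303.Mend

open Finset
open Pool.Agent.Helper243.SemiSymAll (birkhoff transport array_lemma exists_of_sum_one
  not_of_sum_zero sum_isLeft ind_unique ind_compl inout exists_between colour_lemma)

/-- idempotent and `x(yx) = y` -/
def Mend {V : Type*} (f : V → V → V) : Prop := (∀ x, f x x = x) ∧ ∀ x y, f x (f y x) = y

theorem glue {A B : Type*} (G : A → A → A → Prop) (C : A → A → B → Prop) (M : B → B → A → Prop)
    (R : B → B → B → Prop)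
    (hG : ∀ a b c, G a b c → G b c a) (hR : ∀ a b c, R a b c → R b c a)
    (h1 : ∀ a b, ∃! t : A ⊕ B, Sum.elim (fun c => G a b c) (fun u => C a b u) t)
    (h2 : ∀ a u, ∃! t : A ⊕ B, Sum.elim (fun b => C b a u) (fun c => M u c a) t)
    (h3 : ∀ u a, ∃! t : A ⊕ B, Sum.elim (fun b => C a b u) (fun c => M c u a) t)
    (h4 : ∀ b c, ∃! t : A ⊕ B, Sum.elim (fun a => M b c a) (fun d => R b c d) t)
    (hGi : ∀ a, G a a a) (hRi : ∀ b, R b b b) :
    ∃ f : A ⊕ B → A ⊕ B → A ⊕ B, Mend f ∧
      ∀ a b c, G a b c → f (Sum.inl a) (Sum.inl b) = Sum.inl c := by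
  set T : A ⊕ B → A ⊕ B → A ⊕ B → Prop := fun x y t =>
    match x, y, t with
    | Sum.inl a, Sum.inl b, Sum.inl c => G a b c
    | Sum.inl a, Sum.inl b, Sum.inr u => C a b u
    | Sum.inl a, Sum.inr u, Sum.inl b => C b a u
    | Sum.inr u, Sum.inl a, Sum.inl b => C a b u
    | Sum.inl a, Sum.inr b, Sum.inr c => M b c a
    | Sum.inr b, Sum.inr c, Sum.inl a => M b c a
    | Sum.inr c, Sum.inl a, Sum.inr b => M b c a
    | Sum.inr b, Sum.inr c, Sum.inr d => R b c d with hT
  have hrot : ∀ x y t, T x y t → T y t x := by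
    rintro (a | a) (b | b) (c | c) h
    · exact hG _ _ _ h
    · exact h
    · exact h
    · exact h
    · exact h
    · exact h
    · exact h
    · exact hR _ _ _ h
  have hex : ∀ x y, ∃! t, T x y t := by
    rintro (a | a) (b | b)
    · obtain ⟨t, ht, hu⟩ := h1 a b
      refine ⟨t, ?_, fun t' ht' => hu t' ?_⟩
      · rcases t with t | t <;> exact ht
      · rcases t' with t' | t' <;> exact ht'
    · obtain ⟨t, ht, hu⟩ := h2 a b
      refine ⟨t, ?_, fun t' ht' => hu t' ?_⟩
      · rcases t with t | t <;> exact ht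
      · rcases t' with t' | t' <;> exact ht'
    · obtain ⟨t, ht, hu⟩ := h3 a b
      refine ⟨t, ?_, fun t' ht' => hu t' ?_⟩
      · rcases t with t | t <;> exact ht
      · rcases t' with t' | t' <;> exact ht'
    · obtain ⟨t, ht, hu⟩ := h4 a b
      refine ⟨t, ?_, fun t' ht' => hu t' ?_⟩
      · rcases t with t | t <;> exact ht
      · rcases t' with t' | t' <;> exact ht'
  choose f hf hfu using hex
  refine ⟨f, ⟨?_, ?_⟩, ?_⟩
  · rintro (a | b)
    · exact (hfu (Sum.inl a) (Sum.inl a) (Sum.inl a) (hGi a)).symm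
    · exact (hfu (Sum.inr b) (Sum.inr b) (Sum.inr b) (hRi b)).symm
  · intro x y
    have h := hrot _ _ _ (hf y x)
    exact (hfu x (f y x) y h).symm
  · intro a b c h
    exact (hfu (Sum.inl a) (Sum.inl b) (Sum.inl c) h).symm

/-- colouring of the undefined pairs, separate out- and in-degrees -/
theorem colour2 {A : Type*} [Fintype A] [DecidableEq A] (w z : ℕ)
    (hN : Fintype.card A = w + z) (D : A → A → Prop) [∀ v v', Decidable (D v v')]
    (dout din : A → ℕ) (hdo : ∀ v, dout v ≤ w) (hdi : ∀ v, din v ≤ w)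
    (hout : ∀ v, ∑ v', (if D v v' then 1 else 0) = dout v)
    (hin : ∀ v', ∑ v, (if D v v' then 1 else 0) = din v')
    (htot : ∑ v, dout v = w * w) :
    ∃ σ : Fin w → (A ⊕ Fin z ≃ A ⊕ Fin z),
      (∀ v v', (∑ c, if σ c (Sum.inl v) = Sum.inl v' then 1 else 0) = if D v v' then 1 else 0) ∧
      (∀ c i j, σ c (Sum.inr i) ≠ Sum.inr j) := by
  have htot' : ∑ v, din v = w * w := by
    rw [← htot, Finset.sum_congr rfl (fun v _ => (hin v).symm),
      Finset.sum_congr rfl (fun v _ => (hout v).symm), Finset.sum_comm]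
  have key : ∀ d : A → ℕ, (∀ v, d v ≤ w) → ∑ v, d v = w * w →
      ∑ v : A, (w - d v) = ∑ _i : Fin z, w := by
    intro d hd ht
    have e1 : ∑ v : A, (w - d v) + ∑ v, d v = Fintype.card A * w := by
      rw [← Finset.sum_add_distrib, Finset.sum_congr rfl (fun v _ => Nat.sub_add_cancel (hd v))]
      simp
    rw [Finset.sum_const, card_univ, Fintype.card_fin, smul_eq_mul]
    have e3 : Fintype.card A * w = w * w + z * w := by
      rw [hN, add_mul]
    omega
  obtain ⟨α, hα1, hα2⟩ := transport (fun v : A => w - dout v) (fun _ : Fin z => w) (key dout hdo htot)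
  obtain ⟨β, hβ1, hβ2⟩ := transport (fun v : A => w - din v) (fun _ : Fin z => w) (key din hdi htot')
  set m : A ⊕ Fin z → A ⊕ Fin z → ℕ := fun x y =>
    match x, y with
    | Sum.inl v, Sum.inl v' => if D v v' then 1 else 0
    | Sum.inl v, Sum.inr i => α v i
    | Sum.inr i, Sum.inl v => β v i
    | Sum.inr _, Sum.inr _ => 0 with hm
  have hmr : ∀ x, ∑ y, m x y = w := by
    rintro (v | s)
    · rw [Fintype.sum_sum_type]
      simp only [hm]
      rw [hout, hα1, Nat.add_sub_cancel' (hdo v)]
    · rw [Fintype.sum_sum_type]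
      simp only [hm]
      rw [hβ2]
      simp
  have hmc : ∀ y, ∑ x, m x y = w := by
    rintro (v | s)
    · rw [Fintype.sum_sum_type]
      simp only [hm]
      rw [hin, hβ1, Nat.add_sub_cancel' (hdi v)]
    · rw [Fintype.sum_sum_type]
      simp only [hm]
      rw [hα2]
      simp
  obtain ⟨σ, hσ⟩ := birkhoff w m hmr hmc
  refine ⟨σ, fun v v' => hσ _ _, fun c i j h => ?_⟩
  have := hσ (Sum.inr i) (Sum.inr j)
  simp only [hm] at this
  exact not_of_sum_zero _ this c h

theorem mend_third {V : Type*} (f : V → V → V) (hf : Mend f) :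
    (∀ a b c, f a b = c → f b c = a) := by
  intro a b c h
  rw [← h]
  exact hf.2 b a

/-- completion, odd order -/
theorem completion_odd {A : Type*} [Fintype A] [DecidableEq A] (w z : ℕ) (hεz : 1 ≤ z)
    (hN : Fintype.card A + 1 = w + z) (G : A → A → A → Prop)
    (hrot : ∀ a b c, G a b c → G b c a) (hfun : ∀ a b c c', G a b c → G a b c' → c = c')
    (hid : ∀ a, G a a a) (h0 : Fin w → Fin w → Fin w) (hh : Mend h0)
    (d : A → ℕ) (hdw : ∀ v, d v ≤ w) (hdz : ∀ v, w ≤ d v + z)
    (D : A → A → Prop) [∀ v v', Decidable (D v v')] (hD : ∀ a b, D a b ↔ ¬ ∃ c, G a b c)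
    (hout : ∀ v, ∑ v', (if D v v' then 1 else 0) = d v)
    (hin : ∀ v', ∑ v, (if D v v' then 1 else 0) = d v')
    (htot : ∑ v, d v + w = w * w) :
    ∃ f : A ⊕ (Fin w ⊕ Fin z) → A ⊕ (Fin w ⊕ Fin z) → A ⊕ (Fin w ⊕ Fin z),
      Mend f ∧ ∀ a b c, G a b c → f (Sum.inl a) (Sum.inl b) = Sum.inl c := by
  obtain ⟨κ, hκ1, hκ2⟩ := colour_lemma w z 1 hN D d hdw hout hin (by rw [one_mul]; exact htot)
  -- tails and heads
  have tl1 : ∀ u, ∑ v : A, (if (κ u (Sum.inl v)).isLeft then 0 else 1) = z := by
    intro u
    have e1 : ∑ x : A ⊕ Fin z, (if (κ u x).isLeft then 0 else 1) = z := by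
      rw [Equiv.sum_comp (κ u) (fun y => if y.isLeft then 0 else 1), Fintype.sum_sum_type]
      simp
    rw [Fintype.sum_sum_type] at e1
    have e2 : ∑ i : Fin z, (if (κ u (Sum.inr i)).isLeft then 0 else 1) = 0 := by
      refine Finset.sum_eq_zero (fun i _ => ?_)
      rcases h : κ u (Sum.inr i) with u0 | ζ0
      · simp
      · exact absurd h (hκ2 _ _ _)
    rw [e2] at e1
    exact e1
  have hd1 : ∀ u, ∑ v : A, (if ((κ u).symm (Sum.inl v)).isLeft then 0 else 1) = z := by
    intro u
    have e1 : ∑ x : A ⊕ Fin z, (if ((κ u).symm x).isLeft then 0 else 1) = z := by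
      rw [Equiv.sum_comp (κ u).symm (fun y => if y.isLeft then 0 else 1), Fintype.sum_sum_type]
      simp
    rw [Fintype.sum_sum_type] at e1
    have e2 : ∑ i : Fin z, (if ((κ u).symm (Sum.inr i)).isLeft then 0 else 1) = 0 := by
      refine Finset.sum_eq_zero (fun i _ => ?_)
      rcases h : (κ u).symm (Sum.inr i) with u0 | ζ0
      · simp
      · rw [Equiv.symm_apply_eq] at h
        exact absurd h.symm (hκ2 _ _ _)
    rw [e2] at e1
    exact e1
  have tl2 : ∀ v, ∑ u, (if (κ u (Sum.inl v)).isLeft then 0 else 1) = w - d v := by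
    intro v
    have e1 : ∑ u, (if (κ u (Sum.inl v)).isLeft then 1 else 0) = d v := by
      rw [← hout v, ← Finset.sum_congr rfl (fun v' _ => hκ1 v v'), Finset.sum_comm]
      exact Finset.sum_congr rfl (fun u _ => (sum_isLeft _).symm)
    have e2 : ∑ u : Fin w, ((if (κ u (Sum.inl v)).isLeft then 1 else 0) +
        (if (κ u (Sum.inl v)).isLeft then 0 else 1)) = w := by
      have : ∀ u : Fin w, ((if (κ u (Sum.inl v)).isLeft then 1 else 0) +
        (if (κ u (Sum.inl v)).isLeft then 0 else 1)) = 1 := by
        intro u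
        split_ifs <;> rfl
      rw [Finset.sum_congr rfl (fun u _ => this u)]
      simp
    rw [Finset.sum_add_distrib, e1] at e2
    omega
  have hd2 : ∀ v, ∑ u, (if ((κ u).symm (Sum.inl v)).isLeft then 0 else 1) = w - d v := by
    intro v
    have e1 : ∑ u, (if ((κ u).symm (Sum.inl v)).isLeft then 1 else 0) = d v := by
      rw [← hin v, ← Finset.sum_congr rfl (fun v' _ => hκ1 v' v), Finset.sum_comm]
      refine Finset.sum_congr rfl (fun u _ => ?_)
      rw [← sum_isLeft]
      refine Finset.sum_congr rfl (fun a _ => ?_)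
      simp only [Equiv.symm_apply_eq]
      simp only [eq_comm]
    have e2 : ∑ u : Fin w, ((if ((κ u).symm (Sum.inl v)).isLeft then 1 else 0) +
        (if ((κ u).symm (Sum.inl v)).isLeft then 0 else 1)) = w := by
      have : ∀ u : Fin w, ((if ((κ u).symm (Sum.inl v)).isLeft then 1 else 0) +
        (if ((κ u).symm (Sum.inl v)).isLeft then 0 else 1)) = 1 := by
        intro u
        split_ifs <;> rfl
      rw [Finset.sum_congr rfl (fun u _ => this u)]
      simp
    rw [Finset.sum_add_distrib, e1] at e2
    omega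
  obtain ⟨σ, τ, hσ1, hσ2, hτ1, hτ2, hτ3⟩ := array_lemma w z 1 le_rfl hεz hN
    (fun v u => ((κ u).symm (Sum.inl v)).isLeft = true) (fun v u => (κ u (Sum.inl v)).isLeft = true)
    (fun v => w - d v) (fun v => by have := hdz v; omega) hd1 tl1 hd2 tl2
  set C : A → A → Fin w ⊕ Fin z → Prop := fun a b x =>
    match x with
    | Sum.inl u => κ u (Sum.inl a) = Sum.inl b
    | Sum.inr _ => False with hC
  set M : Fin w ⊕ Fin z → Fin w ⊕ Fin z → A → Prop := fun x y a =>
    match x, y with
    | Sum.inl _, Sum.inl _ => False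
    | Sum.inl u, Sum.inr ζ => σ ζ (Sum.inl a) = Sum.inl u
    | Sum.inr ζ, Sum.inl u => τ ζ (Sum.inl a) = Sum.inl u
    | Sum.inr ζ, Sum.inr ζ' => τ ζ (Sum.inl a) = Sum.inr ζ' with hM
  set R : Fin w ⊕ Fin z → Fin w ⊕ Fin z → Fin w ⊕ Fin z → Prop := fun x y t =>
    match x, y, t with
    | Sum.inl a, Sum.inl b, Sum.inl c => h0 a b = c
    | Sum.inr a, Sum.inr b, Sum.inr c => a = b ∧ b = c
    | _, _, _ => False with hR
  have hRrot : ∀ a b c, R a b c → R b c a := by
    rintro (a | a) (b | b) (c | c) h
    · exact mend_third h0 hh a b c h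
    · exact h.elim
    · exact h.elim
    · exact h.elim
    · exact h.elim
    · exact h.elim
    · exact h.elim
    · obtain ⟨h2, h3⟩ := h
      exact ⟨h3, h3.symm.trans h2.symm⟩
  refine glue G C M R hrot hRrot ?_ ?_ ?_ ?_ hid ?_
  · intro a b
    by_cases h : D a b
    · have hk := hκ1 a b
      rw [if_pos h] at hk
      obtain ⟨u, hu, huu⟩ := exists_of_sum_one _ hk
      refine ⟨Sum.inr (Sum.inl u), hu, ?_⟩
      rintro (c | x | x) ht
      · exact absurd ⟨c, ht⟩ ((hD a b).1 h)
      · rw [huu x ht]
      · exact ht.elim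
    · have hk := hκ1 a b
      rw [if_neg h] at hk
      have hn := not_of_sum_zero _ hk
      have hc : ∃ c, G a b c := by
        by_contra hc
        exact h ((hD a b).2 hc)
      obtain ⟨c, hc⟩ := hc
      refine ⟨Sum.inl c, hc, ?_⟩
      rintro (c' | x | x) ht
      · rw [hfun _ _ _ _ hc ht]
      · exact absurd ht (hn x)
      · exact ht.elim
  · intro a b
    rcases b with u | ζ
    · have hs := hσ1 a u
      rcases h : (κ u).symm (Sum.inl a) with v | i
      · rw [h] at hs
        simp only [Sum.isLeft_inl, if_true] at hs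
        have hn := not_of_sum_zero _ hs
        refine ⟨Sum.inl v, ?_, ?_⟩
        · show κ u (Sum.inl v) = Sum.inl a
          rw [← h, Equiv.apply_symm_apply]
        · rintro (v' | x | x) ht
          · have ht' : κ u (Sum.inl v') = Sum.inl a := ht
            rw [← ht', Equiv.symm_apply_apply] at h
            rw [Sum.inl.inj h]
          · exact ht.elim
          · exact absurd ht (hn x)
      · rw [h] at hs
        simp only [Sum.isLeft_inr, Bool.false_eq_true, if_false] at hs
        obtain ⟨ζ, hζ, hζu⟩ := exists_of_sum_one _ hs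
        refine ⟨Sum.inr (Sum.inr ζ), hζ, ?_⟩
        rintro (v' | x | x) ht
        · have ht' : κ u (Sum.inl v') = Sum.inl a := ht
          rw [← ht', Equiv.symm_apply_apply] at h
          cases h
        · exact ht.elim
        · rw [hζu x ht]
    · refine ⟨Sum.inr (τ ζ (Sum.inl a)), ?_, ?_⟩
      · show M (Sum.inr ζ) (τ ζ (Sum.inl a)) a
        rcases h : τ ζ (Sum.inl a) with x | x
        · exact h
        · exact h
      · rintro (v' | x | x) ht
        · exact ht.elim
        · have ht' : τ ζ (Sum.inl a) = Sum.inl x := ht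
          rw [ht']
        · have ht' : τ ζ (Sum.inl a) = Sum.inr x := ht
          rw [ht']
  · intro b a
    rcases b with u | ζ
    · have hs := hτ1 a u
      rcases h : κ u (Sum.inl a) with v | i
      · rw [h] at hs
        simp only [Sum.isLeft_inl, if_true] at hs
        have hn := not_of_sum_zero _ hs
        refine ⟨Sum.inl v, h, ?_⟩
        rintro (v' | x | x) ht
        · have ht' : κ u (Sum.inl a) = Sum.inl v' := ht
          rw [h] at ht'
          rw [Sum.inl.inj ht']
        · exact ht.elim
        · exact absurd ht (hn x)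
      · rw [h] at hs
        simp only [Sum.isLeft_inr, Bool.false_eq_true, if_false] at hs
        obtain ⟨ζ, hζ, hζu⟩ := exists_of_sum_one _ hs
        refine ⟨Sum.inr (Sum.inr ζ), hζ, ?_⟩
        rintro (v' | x | x) ht
        · have ht' : κ u (Sum.inl a) = Sum.inl v' := ht
          rw [ht'] at h
          cases h
        · exact ht.elim
        · rw [hζu x ht]
    · have hs := hτ2 a ζ
      rcases h : σ ζ (Sum.inl a) with u | ζ'
      · rw [h] at hs
        simp only [Sum.isRight_inl, Bool.false_eq_true, if_false] at hs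
        have hn := not_of_sum_zero _ hs
        refine ⟨Sum.inr (Sum.inl u), h, ?_⟩
        rintro (v' | x | x) ht
        · exact ht.elim
        · have ht' : σ ζ (Sum.inl a) = Sum.inl x := ht
          rw [h] at ht'
          rw [Sum.inl.inj ht']
        · exact absurd ht (hn x)
      · rw [h] at hs
        simp only [Sum.isRight_inr, if_true] at hs
        obtain ⟨ξ, hξ, hξu⟩ := exists_of_sum_one _ hs
        refine ⟨Sum.inr (Sum.inr ξ), hξ, ?_⟩
        rintro (v' | x | x) ht
        · exact ht.elim
        · have ht' : σ ζ (Sum.inl a) = Sum.inl x := ht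
          rw [h] at ht'
          cases ht'
        · rw [hξu x ht]
  · intro b c
    rcases b with u | ζ
    · rcases c with u' | ζ'
      · refine ⟨Sum.inr (Sum.inl (h0 u u')), rfl, ?_⟩
        rintro (v' | x | x) ht'
        · exact ht'.elim
        · have ht'' : h0 u u' = x := ht'
          rw [ht'']
        · exact ht'.elim
      · rcases h : (σ ζ').symm (Sum.inl u) with v | s
        · refine ⟨Sum.inl v, ?_, ?_⟩
          · show σ ζ' (Sum.inl v) = Sum.inl u
            rw [← h, Equiv.apply_symm_apply]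
          · rintro (v' | x | x) ht'
            · have ht'' : σ ζ' (Sum.inl v') = Sum.inl u := ht'
              rw [← ht'', Equiv.symm_apply_apply] at h
              rw [Sum.inl.inj h]
            · exact ht'.elim
            · exact ht'.elim
        · rw [Equiv.symm_apply_eq] at h
          exact absurd h.symm (hσ2 _ _ _)
    · rcases c with u' | ζ'
      · rcases h : (τ ζ).symm (Sum.inl u') with v | s
        · refine ⟨Sum.inl v, ?_, ?_⟩
          · show τ ζ (Sum.inl v) = Sum.inl u'
            rw [← h, Equiv.apply_symm_apply]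
          · rintro (v' | x | x) ht'
            · have ht'' : τ ζ (Sum.inl v') = Sum.inl u' := ht'
              rw [← ht'', Equiv.symm_apply_apply] at h
              rw [Sum.inl.inj h]
            · exact ht'.elim
            · exact ht'.elim
        · rw [Equiv.symm_apply_eq, hτ3] at h
          cases h
      · rcases h : (τ ζ).symm (Sum.inr ζ') with v | s
        · have hne : ¬ (ζ = ζ') := by
            rintro rfl
            rw [← hτ3 ζ 0, Equiv.symm_apply_apply] at h
            cases h
          refine ⟨Sum.inl v, ?_, ?_⟩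
          · show τ ζ (Sum.inl v) = Sum.inr ζ'
            rw [← h, Equiv.apply_symm_apply]
          · rintro (v' | x | x) ht'
            · have ht'' : τ ζ (Sum.inl v') = Sum.inr ζ' := ht'
              rw [← ht'', Equiv.symm_apply_apply] at h
              rw [Sum.inl.inj h]
            · exact ht'.elim
            · exact absurd ht'.1 hne
        · rw [Equiv.symm_apply_eq, hτ3] at h
          have hz : ζ' = ζ := Sum.inr.inj h
          subst hz
          refine ⟨Sum.inr (Sum.inr ζ'), ⟨rfl, rfl⟩, ?_⟩
          rintro (v' | x | x) ht'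
          · have ht'' : τ ζ' (Sum.inl v') = Sum.inr ζ' := ht'
            rw [← hτ3 ζ' s] at ht''
            have := (τ ζ').injective ht''
            cases this
          · exact ht'.elim
          · rw [ht'.2]
  · rintro (b | b)
    · exact hh.1 b
    · exact ⟨rfl, rfl⟩

end Pool.Agent.Helper303.Mend
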