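import Pool.Agent.Helper303.MendA

set_option autoImplicit false

namespace Pool.Agent.Helper303.Mend

open Finset
open Pool.Agent.Helper243.SemiSymAll (birkhoff transport array_lemma exists_of_sum_one
  not_of_sum_zero sum_isLeft ind_unique ind_compl inout exists_between colour_lemma)

theorem array_even {A : Type*} [Fintype A] [DecidableEq A] (w z' : ℕ)
    (hN : Fintype.card A = w + (z' + 1))
    (hd tl : A → Fin w → Prop) [∀ v u, Decidable (hd v u)] [∀ v u, Decidable (tl v u)]
    (s : A) (p : Fin (z' + 1) → A) (hp : Function.Injective p) (hps : ∀ i, p i ≠ s)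
    (q : A → ℕ)
    (hd1 : ∀ u, ∑ v, (if hd v u then 0 else 1) = z' + 1)
    (tl1 : ∀ u, ∑ v, (if tl v u then 0 else 1) = z' + 1)
    (hd2 : ∀ v, ∑ u, (if hd v u then 0 else 1) = q v)
    (tl2 : ∀ v, v ≠ s → ∑ u, (if tl v u then 0 else 1) = q v + (if ∃ i, p i = v then 1 else 0))
    (tls : ∀ u, tl s u) (hqs : q s = z' + 1)
    (hq : ∀ v, q v + (if ∃ i, p i = v then 1 else 0) ≤ z' + 1) :
    ∃ (σ τ : Fin (z' + 1) → (A ≃ Fin w ⊕ Fin (z' + 1))) (r : Fin (z' + 1) ≃ Fin (z' + 1)),
      (∀ v u, ∑ c, (if σ c v = Sum.inl u then 1 else 0) = if hd v u then 0 else 1) ∧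
      (∀ v u, ∑ c, (if τ c v = Sum.inl u then 1 else 0) = if tl v u then 0 else 1) ∧
      (∀ c, (σ c (p (r c))).isRight) ∧
      (∀ v ζ, ∑ c, (if τ c v = Sum.inr ζ then 1 else 0) =
        if v = s ∨ ((σ ζ v).isRight ∧ v ≠ p (r ζ)) then 1 else 0) ∧
      (∀ c, τ c s = Sum.inr c) := by
  have hsum_e : ∑ v, (if ∃ i, p i = v then 1 else 0) = z' + 1 := by
    rw [← Finset.card_filter]
    have h1 : univ.filter (fun v => ∃ i, p i = v) = univ.image p := by
      ext v
      simp
    rw [h1, Finset.card_image_of_injective _ hp, Finset.card_univ, Fintype.card_fin]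
  have tot : ∑ v : A, (z' + 1 - q v - (if ∃ i, p i = v then 1 else 0)) = ∑ _ζ : Fin z', (z' + 1) := by
    have e1 : ∑ v : A, (z' + 1 - q v - (if ∃ i, p i = v then 1 else 0)) + (∑ v, q v +
        ∑ v, (if ∃ i, p i = v then 1 else 0)) = Fintype.card A * (z' + 1) := by
      rw [← Finset.sum_add_distrib, ← Finset.sum_add_distrib]
      have : ∀ v ∈ (univ : Finset A), (z' + 1 - q v - (if ∃ i, p i = v then 1 else 0)) +
          (q v + (if ∃ i, p i = v then 1 else 0)) = z' + 1 := by
        intro v _
        have := hq v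
        omega
      rw [Finset.sum_congr rfl this]
      simp
    have e2 : ∑ v, q v = w * (z' + 1) := by
      rw [← Finset.sum_congr rfl (fun v _ => hd2 v), Finset.sum_comm,
        Finset.sum_congr rfl (fun u _ => hd1 u)]
      simp
    rw [e2, hsum_e, hN] at e1
    rw [Finset.sum_const, card_univ, Fintype.card_fin, smul_eq_mul]
    have e3 : (w + (z' + 1)) * (z' + 1) = w * (z' + 1) + (z' * (z' + 1) + (z' + 1)) := by ring
    rw [e3] at e1
    omega
  obtain ⟨β, hβ1, hβ2⟩ := Pool.Agent.Helper243.SemiSymAll.transport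
    (fun v : A => z' + 1 - q v - (if ∃ i, p i = v then 1 else 0)) (fun _ : Fin z' => z' + 1) tot
  set m : A → Fin w ⊕ Fin (z' + 1) → ℕ := fun v y =>
    match y with
    | Sum.inl u => if hd v u then 0 else 1
    | Sum.inr ζ => Fin.cases (if ∃ i, p i = v then 1 else 0) (β v) ζ with hm
  have hmr : ∀ x, ∑ y, m x y = z' + 1 := by
    intro v
    rw [Fintype.sum_sum_type]
    simp only [hm]
    rw [hd2, Fin.sum_univ_succ]
    simp only [Fin.cases_zero, Fin.cases_succ]
    rw [hβ1]
    have := hq v
    omega
  have hmc : ∀ y, ∑ x, m x y = z' + 1 := by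
    rintro (u | ζ)
    · simp only [hm]
      rw [hd1]
    · simp only [hm]
      refine Fin.cases ?_ (fun i => ?_) ζ
      · simp only [Fin.cases_zero]
        exact hsum_e
      · simp only [Fin.cases_succ]
        exact hβ2 i
  obtain ⟨σ, hσ⟩ := Pool.Agent.Helper243.SemiSymAll.birkhoff (z' + 1) m hmr hmc
  have hex0 : ∀ c, ∃ i, p i = (σ c).symm (Sum.inr 0) := by
    intro c
    by_contra hcon
    have h1 := hσ ((σ c).symm (Sum.inr 0)) (Sum.inr 0)
    simp only [hm, Fin.cases_zero] at h1
    rw [if_neg hcon] at h1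
    exact Pool.Agent.Helper243.SemiSymAll.not_of_sum_zero _ h1 c ((σ c).apply_symm_apply _)
  choose r0 hr0 using hex0
  have hr1 : ∀ c, σ c (p (r0 c)) = Sum.inr 0 := by
    intro c
    rw [hr0, Equiv.apply_symm_apply]
  have hr0inj : Function.Injective r0 := by
    intro c c' hcc
    have h1 := hσ (p (r0 c)) (Sum.inr 0)
    simp only [hm, Fin.cases_zero] at h1
    rw [if_pos ⟨r0 c, rfl⟩] at h1
    obtain ⟨c0, _, hc0⟩ := Pool.Agent.Helper243.SemiSymAll.exists_of_sum_one _ h1
    have e1 := hc0 c (hr1 c)
    have e2 := hc0 c' (by rw [hcc]; exact hr1 c')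
    rw [e1, e2]
  have hr0bij : Function.Bijective r0 := Finite.injective_iff_bijective.1 hr0inj
  set r : Fin (z' + 1) ≃ Fin (z' + 1) := Equiv.ofBijective r0 hr0bij with hr
  have hr2 : ∀ c, σ c (p (r c)) = Sum.inr 0 := hr1
  have hleft : ∀ v, q v = ∑ ζ, (if (σ ζ v).isRight then 0 else 1) := by
    intro v
    rw [← hd2 v]
    have : ∀ u, (if hd v u then 0 else 1) = ∑ c, (if σ c v = Sum.inl u then 1 else 0) := by
      intro u
      rw [hσ]
    rw [Finset.sum_congr rfl (fun u _ => this u), Finset.sum_comm]
    refine Finset.sum_congr rfl (fun c _ => ?_)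
    rcases h : σ c v with u0 | ζ0
    · simp
    · simp
  have hcompl : ∀ v, q v + ∑ ζ, (if (σ ζ v).isRight then 1 else 0) = z' + 1 := by
    intro v
    rw [hleft v, ← Finset.sum_add_distrib]
    have : ∀ ζ ∈ (univ : Finset (Fin (z' + 1))), (if (σ ζ v).isRight then 0 else 1) +
        (if (σ ζ v).isRight then 1 else 0) = 1 := by
      intro ζ _
      split_ifs <;> rfl
    rw [Finset.sum_congr rfl this]
    simp
  have hsR : ∀ ζ, ¬ ((σ ζ s).isRight = true) := by
    have h1 := hcompl s
    rw [hqs] at h1
    have h2 : ∑ ζ, (if (σ ζ s).isRight then 1 else 0) = 0 := by omega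
    exact Pool.Agent.Helper243.SemiSymAll.not_of_sum_zero _ h2
  set γ : A → Fin (z' + 1) → ℕ := fun v ζ =>
    if v = s ∨ ((σ ζ v).isRight ∧ v ≠ p (r ζ)) then 1 else 0 with hγ
  have hγ0 : ∀ v ζ, γ v ζ + (if v = p (r ζ) then 1 else 0) =
      (if (σ ζ v).isRight then 1 else 0) + (if v = s then 1 else 0) := by
    intro v ζ
    simp only [hγ]
    by_cases hv : v = s
    · subst hv
      have h1 : v ≠ p (r ζ) := fun h => hps (r ζ) h.symm
      have h2 : ¬ ((σ ζ v).isRight = true) := hsR ζ
      rw [if_pos (Or.inl rfl), if_neg h1, if_neg h2, if_pos rfl]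
    · by_cases hv2 : v = p (r ζ)
      · have h1 : (σ ζ v).isRight = true := by rw [hv2, hr2]; rfl
        rw [if_neg (by
          rintro (h | ⟨_, h⟩)
          · exact hv h
          · exact h hv2), if_pos hv2, if_pos h1, if_neg hv]
      · by_cases h1 : (σ ζ v).isRight = true
        · rw [if_pos (Or.inr ⟨h1, hv2⟩), if_neg hv2, if_pos h1, if_neg hv]
        · rw [if_neg (by
            rintro (h | ⟨h, _⟩)
            · exact hv h
            · exact h1 h), if_neg hv2, if_neg h1, if_neg hv]
  have hpr : ∀ v, ∑ ζ, (if v = p (r ζ) then 1 else 0) = if ∃ i, p i = v then 1 else 0 := by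
    intro v
    rw [Equiv.sum_comp r (fun i => if v = p i then 1 else 0)]
    by_cases h : ∃ i, p i = v
    · obtain ⟨i, hi⟩ := h
      rw [if_pos ⟨i, hi⟩, Finset.sum_eq_single i]
      · rw [if_pos hi.symm]
      · intro j _ hj
        rw [if_neg (fun h => hj (hp (h.symm.trans hi.symm)))]
      · intro h; exact absurd (mem_univ _) h
    · rw [if_neg h]
      refine Finset.sum_eq_zero (fun i _ => ?_)
      rw [if_neg (fun h' => h ⟨i, h'.symm⟩)]
  set m2 : A → Fin w ⊕ Fin (z' + 1) → ℕ := fun v y =>
    match y with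
    | Sum.inl u => if tl v u then 0 else 1
    | Sum.inr ζ => γ v ζ with hm2
  have hm2r : ∀ x, ∑ y, m2 x y = z' + 1 := by
    intro v
    rw [Fintype.sum_sum_type]
    simp only [hm2]
    have h1 : ∑ ζ, γ v ζ + (if ∃ i, p i = v then 1 else 0) =
        ∑ ζ, (if (σ ζ v).isRight then 1 else 0) + ∑ _ζ : Fin (z' + 1), (if v = s then 1 else 0) := by
      rw [← hpr v, ← Finset.sum_add_distrib, ← Finset.sum_add_distrib]
      exact Finset.sum_congr rfl (fun ζ _ => hγ0 v ζ)
    have h2 := hcompl v
    by_cases hv : v = s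
    · subst hv
      have h3 : ¬ ∃ i, p i = v := fun ⟨i, hi⟩ => hps i hi
      have h4 : ∑ u, (if tl v u then 0 else 1) = 0 :=
        Finset.sum_eq_zero (fun u _ => by rw [if_pos (tls u)])
      rw [if_neg h3] at h1
      rw [h4]
      simp only [if_true, Finset.sum_const, card_univ, Fintype.card_fin, smul_eq_mul, mul_one] at h1
      omega
    · rw [tl2 v hv]
      simp only [hv, if_false, Finset.sum_const_zero, add_zero] at h1
      omega
  have hm2c : ∀ y, ∑ x, m2 x y = z' + 1 := by
    rintro (u | ζ)
    · simp only [hm2]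
      rw [tl1]
    · simp only [hm2]
      have h1 : ∑ v, γ v ζ + ∑ v, (if v = p (r ζ) then 1 else 0) =
          ∑ v, (if (σ ζ v).isRight then 1 else 0) + ∑ v, (if v = s then 1 else 0) := by
        rw [← Finset.sum_add_distrib, ← Finset.sum_add_distrib]
        exact Finset.sum_congr rfl (fun v _ => hγ0 v ζ)
      have h2 : ∑ v : A, (if (σ ζ v).isRight then 1 else 0) = z' + 1 := by
        rw [Equiv.sum_comp (σ ζ) (fun y => if y.isRight then 1 else 0), Fintype.sum_sum_type]
        simp
      rw [h2, Finset.sum_ite_eq', Finset.sum_ite_eq', if_pos (mem_univ _), if_pos (mem_univ _)] at h1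
      omega
  obtain ⟨τ, hτ⟩ := Pool.Agent.Helper243.SemiSymAll.birkhoff (z' + 1) m2 hm2r hm2c
  have hex : ∀ c, ∃ ζ, τ c s = Sum.inr ζ := by
    intro c
    rcases h : τ c s with u0 | ζ0
    · exfalso
      have h1 := hτ s (Sum.inl u0)
      simp only [hm2] at h1
      rw [if_pos (tls u0)] at h1
      exact Pool.Agent.Helper243.SemiSymAll.not_of_sum_zero _ h1 c h
    · exact ⟨ζ0, rfl⟩
  choose g hg using hex
  have hinj : Function.Injective g := by
    intro c c' hcc
    have h1 := hτ s (Sum.inr (g c))
    simp only [hm2, hγ] at h1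
    rw [if_pos (Or.inl trivial)] at h1
    obtain ⟨c0, _, hc0⟩ := Pool.Agent.Helper243.SemiSymAll.exists_of_sum_one _ h1
    have e1 := hc0 c (hg c)
    have e2 := hc0 c' (by rw [hg c', hcc])
    rw [e1, e2]
  have hbij : Function.Bijective g := Finite.injective_iff_bijective.1 hinj
  set ρ : Fin (z' + 1) ≃ Fin (z' + 1) := (Equiv.ofBijective g hbij).symm with hρ
  refine ⟨σ, fun c => τ (ρ c), r, ?_, ?_, ?_, ?_, ?_⟩
  · intro v u
    rw [hσ]
  · intro v u
    rw [Equiv.sum_comp ρ (fun c => if τ c v = Sum.inl u then 1 else 0), hτ]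
  · intro c
    rw [hr2]
    rfl
  · intro v ζ
    rw [Equiv.sum_comp ρ (fun c => if τ c v = Sum.inr ζ then 1 else 0), hτ]
  · intro c
    show τ (ρ c) s = Sum.inr c
    rw [hg]
    congr 1
    exact (Equiv.ofBijective g hbij).apply_symm_apply c

/-- completion, even order. `s` is a special vertex, `p i → s` are reserved undefined pairs -/
theorem completion_even {A : Type*} [Fintype A] [DecidableEq A] (w z' : ℕ)
    (hN : Fintype.card A = w + (z' + 1)) (G : A → A → A → Prop)
    (hrot : ∀ a b c, G a b c → G b c a) (hfun : ∀ a b c c', G a b c → G a b c' → c = c')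
    (hid : ∀ a, G a a a) (h0 : Fin w → Fin w → Fin w) (hh : Mend h0)
    (d : A → ℕ) (hdw : ∀ v, d v ≤ w) 
    (s : A) (p : Fin (z' + 1) → A) (hp : Function.Injective p) (hds : d s = w)
    (hdz : ∀ v, w ≤ d v + (z' + 1)) (hdp : ∀ i, w ≤ d (p i) + z')
    (D : A → A → Prop) [∀ v v', Decidable (D v v')] (hD : ∀ a b, D a b ↔ ¬ ∃ c, G a b c)
    (hDp : ∀ i, D (p i) s)
    (hout : ∀ v, ∑ v', (if D v v' then 1 else 0) = d v)
    (hin : ∀ v', ∑ v, (if D v v' then 1 else 0) = d v')
    (htot : ∑ v, d v = w * w + (z' + 1)) :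
    ∃ f : A ⊕ (Fin w ⊕ Fin (z' + 1)) → A ⊕ (Fin w ⊕ Fin (z' + 1)) → A ⊕ (Fin w ⊕ Fin (z' + 1)),
      Mend f ∧ ∀ a b c, G a b c → f (Sum.inl a) (Sum.inl b) = Sum.inl c := by
  classical
  have hps : ∀ i, p i ≠ s := by
    intro i h
    have := (hD _ _).1 (hDp i)
    rw [h] at this
    exact this ⟨s, hid s⟩
  set D' : A → A → Prop := fun a b => D a b ∧ ¬ (b = s ∧ ∃ i, p i = a) with hD'
  set e : A → ℕ := fun v => if ∃ i, p i = v then 1 else 0 with he
  set dout : A → ℕ := fun v => d v - e v with hdout
  set din : A → ℕ := fun v => if v = s then w - (z' + 1) else d v with hdin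
  -- D s-column
  have he1 : ∀ v, e v = if ∃ i, p i = v then 1 else 0 := fun v => rfl
  have hesum : ∑ v, e v = z' + 1 := by
    have h1 : ∀ v, e v = ∑ i, (if p i = v then 1 else 0) := by
      intro v
      rw [ind_unique (fun i => p i = v) (fun i i' h h' => hp (h.trans h'.symm))]
    rw [Finset.sum_congr rfl (fun v _ => h1 v), Finset.sum_comm]
    simp
  have hes : e s = 0 := by
    rw [he1, if_neg]
    rintro ⟨i, hi⟩
    exact hps i hi
  have hout' : ∀ v, ∑ v', (if D' v v' then 1 else 0) = dout v := by
    intro v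
    have h1 : ∀ v', (if D v v' then 1 else 0) = (if D' v v' then 1 else 0) +
        (if v' = s ∧ ∃ i, p i = v then 1 else 0) := by
      intro v'
      by_cases hv : v' = s ∧ ∃ i, p i = v
      · obtain ⟨hv1, i, hi⟩ := hv
        have h2 : D v v' := by rw [hv1, ← hi]; exact hDp i
        have h3 : ¬ D' v v' := fun h => h.2 ⟨hv1, i, hi⟩
        rw [if_pos h2, if_neg h3, if_pos ⟨hv1, i, hi⟩]
      · by_cases h2 : D v v'
        · rw [if_pos h2, if_pos (show D' v v' from ⟨h2, hv⟩), if_neg hv]
        · rw [if_neg h2, if_neg (fun h => h2 h.1), if_neg hv]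
    have h4 := hout v
    rw [Finset.sum_congr rfl (fun v' _ => h1 v'), Finset.sum_add_distrib] at h4
    have h5 : ∑ v', (if v' = s ∧ ∃ i, p i = v then 1 else 0) = e v := by
      rw [he1]
      by_cases hv : ∃ i, p i = v
      · simp [hv]
      · simp [hv]
    rw [h5] at h4
    simp only [hdout]
    omega
  have hin' : ∀ v', ∑ v, (if D' v v' then 1 else 0) = din v' := by
    intro v'
    by_cases hs : v' = s
    · subst hs
      have h1 : ∀ v, (if D v v' then 1 else 0) = (if D' v v' then 1 else 0) + e v := by
        intro v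
        rw [he1]
        by_cases hv : ∃ i, p i = v
        · obtain ⟨i, hi⟩ := hv
          have h2 : D v v' := by rw [← hi]; exact hDp i
          have h3 : ¬ D' v v' := fun h => h.2 ⟨rfl, i, hi⟩
          rw [if_pos h2, if_neg h3, if_pos ⟨i, hi⟩]
        · by_cases h2 : D v v'
          · rw [if_pos h2, if_pos (show D' v v' from ⟨h2, fun h => hv h.2⟩), if_neg hv]
          · rw [if_neg h2, if_neg (fun h => h2 h.1), if_neg hv]
      have h4 := hin v'
      rw [Finset.sum_congr rfl (fun v _ => h1 v), Finset.sum_add_distrib, hesum, hds] at h4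
      simp only [hdin, if_true]
      omega
    · have h1 : ∀ v, (if D' v v' then 1 else 0) = (if D v v' then 1 else 0) := by
        intro v
        by_cases h2 : D v v'
        · rw [if_pos h2, if_pos (show D' v v' from ⟨h2, fun h => hs h.1⟩)]
        · rw [if_neg h2, if_neg (fun h => h2 h.1)]
      rw [Finset.sum_congr rfl (fun v _ => h1 v), hin]
      simp only [hdin, if_neg hs]
  have hde : ∀ v, e v ≤ d v := by
    intro v
    rw [he1]
    split_ifs with hv
    · obtain ⟨i, hi⟩ := hv
      rw [← hout v]
      have h2 : D v s := by rw [← hi]; exact hDp i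
      calc 1 = (if D v s then 1 else 0) := by rw [if_pos h2]
        _ ≤ _ := Finset.single_le_sum (f := fun v' => if D v v' then 1 else 0)
          (fun _ _ => Nat.zero_le _) (mem_univ s)
    · exact Nat.zero_le _
  have htot' : ∑ v, dout v = w * w := by
    have h1 : ∑ v, dout v + ∑ v, e v = ∑ v, d v := by
      rw [← Finset.sum_add_distrib]
      exact Finset.sum_congr rfl (fun v _ => Nat.sub_add_cancel (hde v))
    omega
  have hzw : z' + 1 ≤ w := by
    have h1 := hin s
    have h2 : ∑ v, e v ≤ ∑ v, (if D v s then 1 else 0) := by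
      refine Finset.sum_le_sum (fun v _ => ?_)
      rw [he1]
      by_cases hv : ∃ i, p i = v
      · obtain ⟨i, hi⟩ := hv
        have h2 : D v s := by rw [← hi]; exact hDp i
        rw [if_pos h2]
        split_ifs <;> omega
      · rw [if_neg hv]
        exact Nat.zero_le _
    rw [hesum, h1, hds] at h2
    exact h2
  obtain ⟨κ, hκ1, hκ2⟩ := colour2 w (z' + 1) hN D' dout din
    (fun v => by have := hdw v; simp only [hdout]; omega)
    (fun v => by
      have := hdw v
      simp only [hdin]
      split_ifs <;> omega) hout' hin' htot'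
  -- tails and heads
  have tl1 : ∀ u, ∑ v : A, (if (κ u (Sum.inl v)).isLeft then 0 else 1) = z' + 1 := by
    intro u
    have e1 : ∑ x : A ⊕ Fin (z' + 1), (if (κ u x).isLeft then 0 else 1) = z' + 1 := by
      rw [Equiv.sum_comp (κ u) (fun y => if y.isLeft then 0 else 1), Fintype.sum_sum_type]
      simp
    rw [Fintype.sum_sum_type] at e1
    have e2 : ∑ i : Fin (z' + 1), (if (κ u (Sum.inr i)).isLeft then 0 else 1) = 0 := by
      refine Finset.sum_eq_zero (fun i _ => ?_)
      rcases h : κ u (Sum.inr i) with u0 | ζ0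
      · simp
      · exact absurd h (hκ2 _ _ _)
    rw [e2] at e1
    exact e1
  have hd1 : ∀ u, ∑ v : A, (if ((κ u).symm (Sum.inl v)).isLeft then 0 else 1) = z' + 1 := by
    intro u
    have e1 : ∑ x : A ⊕ Fin (z' + 1), (if ((κ u).symm x).isLeft then 0 else 1) = z' + 1 := by
      rw [Equiv.sum_comp (κ u).symm (fun y => if y.isLeft then 0 else 1), Fintype.sum_sum_type]
      simp
    rw [Fintype.sum_sum_type] at e1
    have e2 : ∑ i : Fin (z' + 1), (if ((κ u).symm (Sum.inr i)).isLeft then 0 else 1) = 0 := by
      refine Finset.sum_eq_zero (fun i _ => ?_)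
      rcases h : (κ u).symm (Sum.inr i) with u0 | ζ0
      · simp
      · rw [Equiv.symm_apply_eq] at h
        exact absurd h.symm (hκ2 _ _ _)
    rw [e2] at e1
    exact e1
  have tl2 : ∀ v, ∑ u, (if (κ u (Sum.inl v)).isLeft then 0 else 1) = w - dout v := by
    intro v
    have e1 : ∑ u, (if (κ u (Sum.inl v)).isLeft then 1 else 0) = dout v := by
      rw [← hout' v, ← Finset.sum_congr rfl (fun v' _ => hκ1 v v'), Finset.sum_comm]
      exact Finset.sum_congr rfl (fun u _ => (sum_isLeft _).symm)
    have e2 : ∑ u : Fin w, ((if (κ u (Sum.inl v)).isLeft then 1 else 0) +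
        (if (κ u (Sum.inl v)).isLeft then 0 else 1)) = w := by
      have : ∀ u : Fin w, ((if (κ u (Sum.inl v)).isLeft then 1 else 0) +
        (if (κ u (Sum.inl v)).isLeft then 0 else 1)) = 1 := by
        intro u
        split_ifs <;> rfl
      rw [Finset.sum_congr rfl (fun u _ => this u)]
      simp
    rw [Finset.sum_add_distrib, e1] at e2
    omega
  have hd2 : ∀ v, ∑ u, (if ((κ u).symm (Sum.inl v)).isLeft then 0 else 1) = w - din v := by
    intro v
    have e1 : ∑ u, (if ((κ u).symm (Sum.inl v)).isLeft then 1 else 0) = din v := by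
      rw [← hin' v, ← Finset.sum_congr rfl (fun v' _ => hκ1 v' v), Finset.sum_comm]
      refine Finset.sum_congr rfl (fun u _ => ?_)
      rw [← sum_isLeft]
      refine Finset.sum_congr rfl (fun a _ => ?_)
      simp only [Equiv.symm_apply_eq]
      simp only [eq_comm]
    have e2 : ∑ u : Fin w, ((if ((κ u).symm (Sum.inl v)).isLeft then 1 else 0) +
        (if ((κ u).symm (Sum.inl v)).isLeft then 0 else 1)) = w := by
      have : ∀ u : Fin w, ((if ((κ u).symm (Sum.inl v)).isLeft then 1 else 0) +
        (if ((κ u).symm (Sum.inl v)).isLeft then 0 else 1)) = 1 := by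
        intro u
        split_ifs <;> rfl
      rw [Finset.sum_congr rfl (fun u _ => this u)]
      simp
    rw [Finset.sum_add_distrib, e1] at e2
    omega
  have tls : ∀ u, (κ u (Sum.inl s)).isLeft = true := by
    intro u
    have h1 := tl2 s
    have h2 : w - dout s = 0 := by
      simp only [hdout, hes, hds]
      omega
    rw [h2] at h1
    by_contra hc
    rw [Finset.sum_eq_zero_iff] at h1
    have := h1 u (mem_univ u)
    rw [if_neg hc] at this
    omega
  obtain ⟨σ, τ, r, hσ1, hτ1, hσ2, hτ2, hτ3⟩ := array_even w z' hN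
    (fun v u => ((κ u).symm (Sum.inl v)).isLeft = true) (fun v u => (κ u (Sum.inl v)).isLeft = true)
    s p hp hps (fun v => w - din v) hd1 tl1 hd2
    (fun v hv => by
      rw [tl2 v]
      have h1 := hde v
      have h2 := hdw v
      change w - (d v - e v) = (w - (if v = s then w - (z' + 1) else d v)) + e v
      rw [if_neg hv]
      omega) tls
    (by simp only [hdin, if_true]; omega)
    (fun v => by
      change (w - (if v = s then w - (z' + 1) else d v)) + e v ≤ z' + 1
      by_cases hv : v = s
      · rw [if_pos hv, hv, hes]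
        omega
      · rw [if_neg hv]
        by_cases hv' : ∃ i, p i = v
        · obtain ⟨i, hi⟩ := hv'
          have h1 := hdp i
          rw [hi] at h1
          have h2 : e v = 1 := by rw [he1, if_pos ⟨i, hi⟩]
          omega
        · have h2 : e v = 0 := by rw [he1, if_neg hv']
          have h1 := hdz v
          omega)
  set P : Fin (z' + 1) → A := fun c => p (r c) with hP
  have hPinj : Function.Injective P := fun a b h => r.injective (hp h)
  have hPs : ∀ c, P c ≠ s := fun c => hps _
  set C : A → A → Fin w ⊕ Fin (z' + 1) → Prop := fun a b x =>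
    match x with
    | Sum.inl u => κ u (Sum.inl a) = Sum.inl b
    | Sum.inr ζ => a = P ζ ∧ b = s with hC
  set M : Fin w ⊕ Fin (z' + 1) → Fin w ⊕ Fin (z' + 1) → A → Prop := fun x y a =>
    match x, y with
    | Sum.inl _, Sum.inl _ => False
    | Sum.inl u, Sum.inr ζ => σ ζ a = Sum.inl u
    | Sum.inr ζ, Sum.inl u => τ ζ a = Sum.inl u
    | Sum.inr ζ, Sum.inr ζ' => τ ζ a = Sum.inr ζ' ∧ a ≠ s with hM
  set R : Fin w ⊕ Fin (z' + 1) → Fin w ⊕ Fin (z' + 1) → Fin w ⊕ Fin (z' + 1) → Prop := fun x y t =>
    match x, y, t with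
    | Sum.inl a, Sum.inl b, Sum.inl c => h0 a b = c
    | Sum.inr a, Sum.inr b, Sum.inr c => a = b ∧ b = c
    | _, _, _ => False with hR
  have hRrot : ∀ a b c, R a b c → R b c a := by
    rintro (a | a) (b | b) (c | c) h
    · exact mend_third h0 hh a b c h
    · exact h.elim
    · exact h.elim
    · exact h.elim
    · exact h.elim
    · exact h.elim
    · exact h.elim
    · obtain ⟨h2, h3⟩ := h
      exact ⟨h3, h3.symm.trans h2.symm⟩
  refine glue G C M R hrot hRrot ?_ ?_ ?_ ?_ hid ?_
  · intro a b
    by_cases h : D a b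
    · by_cases hs : b = s ∧ ∃ i, p i = a
      · obtain ⟨hb, i, hi⟩ := hs
        have hk := hκ1 a b
        rw [if_neg (fun h' : D' a b => h'.2 ⟨hb, i, hi⟩)] at hk
        have hn := not_of_sum_zero _ hk
        refine ⟨Sum.inr (Sum.inr (r.symm i)), ⟨?_, hb⟩, ?_⟩
        · rw [hP]
          simp only [Equiv.apply_symm_apply]
          exact hi.symm
        · rintro (c | x | x) ht
          · exact absurd ⟨c, ht⟩ ((hD a b).1 h)
          · exact absurd ht (hn x)
          · have ht' : a = P x := ht.1
            have : P x = P (r.symm i) := by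
              rw [← ht', ← hi]
              simp [hP]
            rw [hPinj this]
      · have hk := hκ1 a b
        rw [if_pos (show D' a b from ⟨h, hs⟩)] at hk
        obtain ⟨u, hu, huu⟩ := exists_of_sum_one _ hk
        refine ⟨Sum.inr (Sum.inl u), hu, ?_⟩
        rintro (c | x | x) ht
        · exact absurd ⟨c, ht⟩ ((hD a b).1 h)
        · rw [huu x ht]
        · exact absurd ⟨ht.2, r x, ht.1.symm⟩ hs
    · have hk := hκ1 a b
      rw [if_neg (fun h' : D' a b => h h'.1)] at hk
      have hn := not_of_sum_zero _ hk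
      have hc : ∃ c, G a b c := by
        by_contra hc
        exact h ((hD a b).2 hc)
      obtain ⟨c, hc⟩ := hc
      refine ⟨Sum.inl c, hc, ?_⟩
      rintro (c' | x | x) ht
      · rw [hfun _ _ _ _ hc ht]
      · exact absurd ht (hn x)
      · exfalso
        apply h
        rw [ht.1, ht.2]
        exact hDp _
  · intro a b
    rcases b with u | ζ
    · have hs := hσ1 a u
      rcases h : (κ u).symm (Sum.inl a) with v | i
      · rw [h] at hs
        simp only [Sum.isLeft_inl, if_true] at hs
        have hn := not_of_sum_zero _ hs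
        refine ⟨Sum.inl v, ?_, ?_⟩
        · show κ u (Sum.inl v) = Sum.inl a
          rw [← h, Equiv.apply_symm_apply]
        · rintro (v' | x | x) ht
          · have ht' : κ u (Sum.inl v') = Sum.inl a := ht
            rw [← ht', Equiv.symm_apply_apply] at h
            rw [Sum.inl.inj h]
          · exact ht.elim
          · exact absurd ht (hn x)
      · rw [h] at hs
        simp only [Sum.isLeft_inr, Bool.false_eq_true, if_false] at hs
        obtain ⟨ζ, hζ, hζu⟩ := exists_of_sum_one _ hs
        refine ⟨Sum.inr (Sum.inr ζ), hζ, ?_⟩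
        rintro (v' | x | x) ht
        · have ht' : κ u (Sum.inl v') = Sum.inl a := ht
          rw [← ht', Equiv.symm_apply_apply] at h
          cases h
        · exact ht.elim
        · rw [hζu x ht]
    · by_cases ha : a = s
      · refine ⟨Sum.inl (P ζ), ⟨rfl, ha⟩, ?_⟩
        rintro (v' | x | x) ht
        · have ht' : v' = P ζ := ht.1
          rw [ht']
        · have ht' : τ ζ a = Sum.inl x := ht
          rw [ha, hτ3] at ht'
          cases ht'
        · exact absurd ha ht.2
      · refine ⟨Sum.inr (τ ζ a), ?_, ?_⟩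
        · show M (Sum.inr ζ) (τ ζ a) a
          rcases h : τ ζ a with x | x
          · exact h
          · exact ⟨h, ha⟩
        · rintro (v' | x | x) ht
          · exact absurd ht.2 ha
          · have ht' : τ ζ a = Sum.inl x := ht
            rw [ht']
          · have ht' : τ ζ a = Sum.inr x := ht.1
            rw [ht']
  · intro b a
    rcases b with u | ζ
    · have hs := hτ1 a u
      rcases h : κ u (Sum.inl a) with v | i
      · rw [h] at hs
        simp only [Sum.isLeft_inl, if_true] at hs
        have hn := not_of_sum_zero _ hs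
        refine ⟨Sum.inl v, h, ?_⟩
        rintro (v' | x | x) ht
        · have ht' : κ u (Sum.inl a) = Sum.inl v' := ht
          rw [h] at ht'
          rw [Sum.inl.inj ht']
        · exact ht.elim
        · exact absurd ht (hn x)
      · rw [h] at hs
        simp only [Sum.isLeft_inr, Bool.false_eq_true, if_false] at hs
        obtain ⟨ζ, hζ, hζu⟩ := exists_of_sum_one _ hs
        refine ⟨Sum.inr (Sum.inr ζ), hζ, ?_⟩
        rintro (v' | x | x) ht
        · have ht' : κ u (Sum.inl a) = Sum.inl v' := ht
          rw [ht'] at h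
          cases h
        · exact ht.elim
        · rw [hζu x ht]
    · have hs := hτ2 a ζ
      by_cases hap : a = P ζ
      · have has : a ≠ s := by rw [hap]; exact hPs ζ
        rw [if_neg (by
          rintro (h | ⟨_, h⟩)
          · exact has h
          · exact h hap)] at hs
        have hn := not_of_sum_zero _ hs
        refine ⟨Sum.inl s, ⟨hap, rfl⟩, ?_⟩
        rintro (v' | x | x) ht
        · have ht' : v' = s := ht.2
          rw [ht']
        · have ht' : σ ζ a = Sum.inl x := ht
          have h2 := hσ2 ζ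
          change (σ ζ (P ζ)).isRight = true at h2
          rw [← hap, ht'] at h2
          simp at h2
        · exact absurd ht.1 (hn x)
      · rcases h : σ ζ a with u | ζ'
        · refine ⟨Sum.inr (Sum.inl u), h, ?_⟩
          rintro (v' | x | x) ht
          · exact absurd ht.1 hap
          · have ht' : σ ζ a = Sum.inl x := ht
            rw [h] at ht'
            rw [Sum.inl.inj ht']
          · have ht1 : τ x a = Sum.inr ζ := ht.1
            have ht2 : a ≠ s := ht.2
            rw [h] at hs
            rw [if_neg (by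
              rintro (h' | ⟨h', _⟩)
              · exact ht2 h'
              · simp at h')] at hs
            exact absurd ht1 (not_of_sum_zero _ hs x)
        · have has : a ≠ s := by
            intro has
            -- all classes at s are left
            have h1 : ∑ u, ∑ c, (if σ c s = Sum.inl u then 1 else 0) = z' + 1 := by
              rw [Finset.sum_congr rfl (fun u _ => hσ1 s u), hd2 s]
              simp only [hdin, if_true]
              omega
            rw [Finset.sum_comm] at h1
            have h3 : ∀ c, ∑ u, (if σ c s = Sum.inl u then 1 else 0) ≤ 1 := by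
              intro c
              rcases hc : σ c s with x | x
              · simp
              · simp
            have h4 : ∑ c : Fin (z' + 1), (1 : ℕ) = z' + 1 := by simp
            have h5 : ∀ c ∈ (univ : Finset (Fin (z' + 1))),
                ∑ u, (if σ c s = Sum.inl u then 1 else 0) = 1 := by
              have := (Finset.sum_eq_sum_iff_of_le (fun c _ => h3 c)).1 (h1.trans h4.symm)
              exact this
            have h6 := h5 ζ (mem_univ _)
            rw [← has, h] at h6
            simp at h6
          rw [h] at hs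
          rw [if_pos (Or.inr ⟨by simp, hap⟩)] at hs
          obtain ⟨ξ, hξ, hξu⟩ := exists_of_sum_one _ hs
          refine ⟨Sum.inr (Sum.inr ξ), ⟨hξ, has⟩, ?_⟩
          rintro (v' | x | x) ht
          · exact absurd ht.1 hap
          · have ht' : σ ζ a = Sum.inl x := ht
            rw [h] at ht'
            cases ht'
          · rw [hξu x ht.1]
  · intro b c
    rcases b with u | ζ
    · rcases c with u' | ζ'
      · refine ⟨Sum.inr (Sum.inl (h0 u u')), rfl, ?_⟩
        rintro (v' | x | x) ht'
        · exact ht'.elim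
        · have ht'' : h0 u u' = x := ht'
          rw [ht'']
        · exact ht'.elim
      · refine ⟨Sum.inl ((σ ζ').symm (Sum.inl u)), ?_, ?_⟩
        · show σ ζ' ((σ ζ').symm (Sum.inl u)) = Sum.inl u
          rw [Equiv.apply_symm_apply]
        · rintro (v' | x | x) ht'
          · have ht'' : σ ζ' v' = Sum.inl u := ht'
            rw [← ht'', Equiv.symm_apply_apply]
          · exact ht'.elim
          · exact ht'.elim
    · rcases c with u' | ζ'
      · refine ⟨Sum.inl ((τ ζ).symm (Sum.inl u')), ?_, ?_⟩
        · show τ ζ ((τ ζ).symm (Sum.inl u')) = Sum.inl u'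
          rw [Equiv.apply_symm_apply]
        · rintro (v' | x | x) ht'
          · have ht'' : τ ζ v' = Sum.inl u' := ht'
            rw [← ht'', Equiv.symm_apply_apply]
          · exact ht'.elim
          · exact ht'.elim
      · by_cases hz : ζ = ζ'
        · refine ⟨Sum.inr (Sum.inr ζ'), ⟨hz, rfl⟩, ?_⟩
          rintro (v' | x | x) ht'
          · have h1 : τ ζ v' = Sum.inr ζ' := ht'.1
            have h2 : v' ≠ s := ht'.2
            rw [← hz, ← hτ3 ζ] at h1
            exact absurd ((τ ζ).injective h1) h2
          · exact ht'.elim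
          · rw [ht'.2]
        · refine ⟨Sum.inl ((τ ζ).symm (Sum.inr ζ')), ⟨?_, ?_⟩, ?_⟩
          · rw [Equiv.apply_symm_apply]
          · intro h
            rw [Equiv.symm_apply_eq, hτ3] at h
            exact hz (Sum.inr.inj h).symm
          · rintro (v' | x | x) ht'
            · have h1 : τ ζ v' = Sum.inr ζ' := ht'.1
              rw [← h1, Equiv.symm_apply_apply]
            · exact ht'.elim
            · exact absurd ht'.1 hz
  · rintro (b | b)
    · exact hh.1 b
    · exact ⟨rfl, rfl⟩

end Pool.Agent.Helper303.Mend
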