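import Pool.Agent.Helper303.MendB

set_option autoImplicit false

namespace Pool.Agent.Helper303.Mend

open Finset
open Pool.Agent.Helper243.SemiSymAll (birkhoff transport array_lemma exists_of_sum_one
  not_of_sum_zero sum_isLeft ind_unique ind_compl inout exists_between colour_lemma)

/-- a fixed point free permutation has, through every point, a set `U` disjoint from its image and
containing a third of all points -/
theorem indep {Y : Type*} [Fintype Y] [DecidableEq Y] (π : Equiv.Perm Y) (hπ : ∀ y, π y ≠ y) (y0 : Y) :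
    ∃ U : Finset Y, y0 ∈ U ∧ (∀ y ∈ U, π y ∉ U) ∧ Fintype.card Y ≤ 3 * U.card := by
  classical
  obtain ⟨U, hU, hmax⟩ := Finset.exists_max_image
    ((univ : Finset (Finset Y)).filter (fun U => y0 ∈ U ∧ ∀ y ∈ U, π y ∉ U)) (fun U => U.card)
    ⟨{y0}, by
      rw [mem_filter]
      refine ⟨mem_univ _, mem_singleton_self _, ?_⟩
      intro y hy
      rw [mem_singleton] at hy ⊢
      rw [hy]
      exact hπ y0⟩
  rw [mem_filter] at hU
  obtain ⟨-, hy0, hind⟩ := hU
  refine ⟨U, hy0, hind, ?_⟩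
  have hcov : (univ : Finset Y) ⊆ (U ∪ U.image π) ∪ U.image π.symm := by
    intro y _
    by_contra hcon
    rw [mem_union, mem_union, not_or, not_or] at hcon
    obtain ⟨⟨h1, h2⟩, h3⟩ := hcon
    have h4 : insert y U ∈ (univ : Finset (Finset Y)).filter
        (fun U => y0 ∈ U ∧ ∀ y ∈ U, π y ∉ U) := by
      rw [mem_filter]
      refine ⟨mem_univ _, mem_insert_of_mem hy0, ?_⟩
      intro x hx hx2
      rw [mem_insert] at hx hx2
      rcases hx with rfl | hx
      · rcases hx2 with hx2 | hx2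
        · exact hπ x hx2
        · exact h3 (mem_image.2 ⟨π x, hx2, π.symm_apply_apply x⟩)
      · rcases hx2 with hx2 | hx2
        · exact h2 (mem_image.2 ⟨x, hx, hx2⟩)
        · exact hind x hx hx2
    have h5 := hmax _ h4
    have h6 : (insert y U).card = U.card + 1 := card_insert_of_notMem h1
    have h7 : (insert y U).card ≤ U.card := h5
    omega
  have h1 := card_le_card hcov
  have h2 : ((U ∪ U.image π) ∪ U.image π.symm).card ≤ (U ∪ U.image π).card + (U.image π.symm).card :=
    card_union_le _ _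
  have h3 : (U ∪ U.image π).card ≤ U.card + (U.image π).card := card_union_le _ _
  have h4 : (U.image π).card ≤ U.card := card_image_le
  have h5 : (U.image π.symm).card ≤ U.card := card_image_le
  rw [card_univ] at h1
  omega

theorem undef_mod_aux {α : Type*} [Fintype α] [DecidableEq α] (f : α → α)
    (h3 : ∀ a, f (f (f a)) = a) (h1 : ∀ a, f a ≠ a) : 3 ∣ Fintype.card α := by
  classical
  have : Fact (Nat.Prime 3) := ⟨Nat.prime_three⟩
  let g : Function.End α := f
  have hg : g ^ 3 ^ 1 = 1 := by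
    funext a
    show (g ^ 3) a = a
    exact h3 a
  have h := Equiv.Perm.card_fixedPoints_modEq (f := g) hg
  have h0 : Fintype.card (Function.fixedPoints g) = 0 := by
    rw [Fintype.card_eq_zero_iff]
    exact ⟨fun a => h1 a.1 a.2⟩
  rw [h0] at h
  exact (Nat.modEq_zero_iff_dvd).mp h

/-- the number of undefined ordered pairs of a partial Mendelsohn quasigroup on `m` points is
congruent to `m(m-1)` modulo 3 -/
theorem undef_mod (m : ℕ) (G0 : Fin m → Fin m → Fin m → Prop)
    (rot0 : ∀ a b c, G0 a b c → G0 b c a) (fun0 : ∀ a b c c', G0 a b c → G0 a b c' → c = c')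
    (id0 : ∀ a, G0 a a a)
    (D0 : Fin m → Fin m → Prop) [∀ v v', Decidable (D0 v v')] (hD0 : ∀ a b, D0 a b ↔ ¬ ∃ c, G0 a b c) :
    ∃ k : ℕ, ∑ x, ∑ y, (if D0 x y then 1 else 0) + 3 * k = m * (m - 1) := by
  classical
  let S : Finset (Fin m × Fin m) := univ.filter (fun p => p.1 ≠ p.2 ∧ ¬ D0 p.1 p.2)
  have hS : ∀ p, p ∈ S ↔ p.1 ≠ p.2 ∧ ¬ D0 p.1 p.2 := fun p => by simp [S]
  have hz : ∀ a : S, ∃ z, G0 a.1.1 a.1.2 z := by
    intro a
    have := ((hS _).mp a.2).2
    rw [hD0, not_not] at this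
    exact this
  choose z hz using hz
  have hmem : ∀ a : S, (a.1.2, z a) ∈ S := by
    intro a
    rw [hS]
    refine ⟨?_, ?_⟩
    · intro h
      have h1 := hz a
      have h2 : a.1.2 = z a := h
      rw [← h2] at h1
      exact ((hS _).mp a.2).1 (fun0 _ _ _ _ (rot0 _ _ _ h1) (id0 _))
    · rw [hD0, not_not]
      exact ⟨_, rot0 _ _ _ (hz a)⟩
  let f : S → S := fun a => ⟨(a.1.2, z a), hmem a⟩
  have hf : ∀ a : S, (f a).1 = (a.1.2, z a) := fun a => rfl
  have hff : ∀ a : S, z (f a) = a.1.1 := by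
    intro a
    exact fun0 _ _ _ _ (hz (f a)) (rot0 _ _ _ (hz a))
  have hdvd : 3 ∣ Fintype.card S := by
    apply undef_mod_aux f
    · intro a
      apply Subtype.ext
      have h1 : (f (f (f a))).1 = (z (f a), z (f (f a))) := rfl
      have h2 : z (f (f a)) = (f a).1.1 := hff (f a)
      rw [h1, h2, hff a]
    · intro a h
      have h1 : (a.1.2, z a) = a.1 := congrArg Subtype.val h
      exact ((hS _).mp a.2).1 (congrArg Prod.fst h1).symm
  rw [Fintype.card_coe] at hdvd
  obtain ⟨k, hk⟩ := hdvd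
  refine ⟨k, ?_⟩
  have h1 : ∑ x, ∑ y, (if D0 x y then 1 else 0) =
      (univ.filter (fun p : Fin m × Fin m => D0 p.1 p.2)).card := by
    rw [card_filter, Fintype.sum_prod_type]
  have hdisj : Disjoint (univ.filter (fun p : Fin m × Fin m => D0 p.1 p.2)) S := by
    rw [Finset.disjoint_left]
    intro p hp hp'
    exact ((hS _).mp hp').2 (mem_filter.mp hp).2
  have h2 : (univ.filter (fun p : Fin m × Fin m => D0 p.1 p.2)) ∪ S =
      (univ : Finset (Fin m)).offDiag := by
    ext p
    rw [mem_union, hS, mem_filter, mem_offDiag]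
    constructor
    · rintro (⟨_, h⟩ | ⟨h, _⟩)
      · refine ⟨mem_univ _, mem_univ _, ?_⟩
        intro he
        rw [hD0] at h
        apply h
        rw [← he]
        exact ⟨_, id0 _⟩
      · exact ⟨mem_univ _, mem_univ _, h⟩
    · rintro ⟨_, _, h⟩
      by_cases hD : D0 p.1 p.2
      · exact Or.inl ⟨mem_univ _, hD⟩
      · exact Or.inr ⟨h, hD⟩
  rw [h1, ← hk, ← card_union_of_disjoint hdisj, h2, offDiag_card, card_univ, Fintype.card_fin]
  rw [Nat.mul_sub, mul_one]

/-- the differences used by the points of `Fin m` -/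
def cx (m e : ℕ) (x : Fin m) : Fin (m + 1 + e) := Fin.castAdd e x.succ

theorem cx_inj (m e : ℕ) : Function.Injective (cx m e) := fun a b h =>
  Fin.succ_injective _ (Fin.castAdd_injective _ _ h)

theorem cx_ne (m e : ℕ) (x : Fin m) : cx m e x ≠ 0 := by
  intro h
  have := congrArg Fin.val h
  simp [cx] at this

theorem ext_lemma (m e : ℕ) (G0 : Fin m → Fin m → Fin m → Prop)
    (rot0 : ∀ a b c, G0 a b c → G0 b c a) (fun0 : ∀ a b c c', G0 a b c → G0 a b c' → c = c')
    (id0 : ∀ a, G0 a a a)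
    (D0 : Fin m → Fin m → Prop) [∀ v v', Decidable (D0 v v')] (hD0 : ∀ a b, D0 a b ↔ ¬ ∃ c, G0 a b c)
    (R : Fin m → Finset (Fin (m + 1 + e))) (hR : ∀ x y, y ∈ R x → y + cx m e x ∉ R x) :
    ∃ (G : Fin m ⊕ Fin (m + 1 + e) → Fin m ⊕ Fin (m + 1 + e) → Fin m ⊕ Fin (m + 1 + e) → Prop)
      (D : Fin m ⊕ Fin (m + 1 + e) → Fin m ⊕ Fin (m + 1 + e) → Prop)
      (_ : ∀ v v', Decidable (D v v')) (d : Fin m ⊕ Fin (m + 1 + e) → ℕ),
      (∀ a b c, G a b c → G b c a) ∧ (∀ a b c c', G a b c → G a b c' → c = c') ∧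
      (∀ a, G a a a) ∧ (∀ a b c, G0 a b c → G (Sum.inl a) (Sum.inl b) (Sum.inl c)) ∧
      (∀ a b, D a b ↔ ¬ ∃ c, G a b c) ∧
      (∀ v, ∑ v', (if D v v' then 1 else 0) = d v) ∧
      (∀ v', ∑ v, (if D v v' then 1 else 0) = d v') ∧
      (∀ x, d (Sum.inl x) = ∑ y, (if D0 x y then 1 else 0) + (R x).card) ∧
      (∀ y, e ≤ d (Sum.inr y)) ∧ (∀ y, d (Sum.inr y) ≤ m + e) ∧
      (∑ v, d v = ∑ x, ∑ y, (if D0 x y then 1 else 0) + 3 * ∑ x, (R x).card + (m + 1 + e) * e) ∧
      ((∀ x, 0 - cx m e x ∈ R x) → d (Sum.inr 0) = m + e ∧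
        ∀ y, y ≠ 0 → D (Sum.inr y) (Sum.inr 0)) := by
  classical
  set c := cx m e with hc
  have c_inj : Function.Injective c := cx_inj m e
  have c_ne : ∀ x, c x ≠ 0 := cx_ne m e
  set L : Fin (m + 1 + e) → Fin (m + 1 + e) → Fin m → Prop := fun y y' x =>
    y + c x = y' ∧ y ∉ R x with hL
  set G : Fin m ⊕ Fin (m + 1 + e) → Fin m ⊕ Fin (m + 1 + e) → Fin m ⊕ Fin (m + 1 + e) → Prop :=
    fun p q t =>
    match p, q, t with
    | Sum.inl x, Sum.inl y, Sum.inl z => G0 x y z
    | Sum.inl x, Sum.inr y, Sum.inr y' => L y y' x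
    | Sum.inr y, Sum.inr y', Sum.inl x => L y y' x
    | Sum.inr y', Sum.inl x, Sum.inr y => L y y' x
    | Sum.inr y, Sum.inr y', Sum.inr y'' => y = y' ∧ y' = y''
    | _, _, _ => False with hG
  have rotG : ∀ a b c, G a b c → G b c a := by
    rintro (a | a) (b | b) (c | c) h
    · exact rot0 _ _ _ h
    · exact h.elim
    · exact h.elim
    · exact h
    · exact h.elim
    · exact h
    · exact h
    · obtain ⟨h1, h2⟩ := h
      exact ⟨h2, h2.symm.trans h1.symm⟩
  have funG : ∀ a b c c', G a b c → G a b c' → c = c' := by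
    rintro (a | a) (b | b) (t | t) (t' | t') h h'
    · rw [fun0 _ _ _ _ h h']
    · exact h'.elim
    · exact h.elim
    · exact h.elim
    · exact h.elim
    · exact h.elim
    · exact h'.elim
    · have h1 : b + c a = t := h.1
      have h2 : b + c a = t' := h'.1
      rw [← h1, ← h2]
    · exact h.elim
    · exact h.elim
    · exact h'.elim
    · have h1 : t + c b = a := h.1
      have h2 : t' + c b = a := h'.1
      rw [add_right_cancel (h1.trans h2.symm)]
    · have h1 : a + c t = b := h.1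
      have h2 : a + c t' = b := h'.1
      rw [c_inj (add_left_cancel (h1.trans h2.symm))]
    · have h1 : a + c t = b := h.1
      have h2 : a = b := h'.1
      rw [← h2] at h1
      exact absurd (left_eq_add.1 h1.symm) (c_ne t)
    · have h1 : a + c t' = b := h'.1
      have h2 : a = b := h.1
      rw [← h2] at h1
      exact absurd (left_eq_add.1 h1.symm) (c_ne t')
    · rw [← h.2, ← h'.2]
  have idG : ∀ a, G a a a := by
    rintro (a | a)
    · exact id0 a
    · exact ⟨rfl, rfl⟩
  set D : Fin m ⊕ Fin (m + 1 + e) → Fin m ⊕ Fin (m + 1 + e) → Prop := fun p q => ¬ ∃ t, G p q t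
    with hD
  set δ : Fin m → ℕ := fun x => ∑ y, (if D0 x y then 1 else 0) with hδ
  have hRsum : ∀ x, ∑ y, (if y ∈ R x then 1 else 0) = (R x).card := by
    intro x
    simp
  have hRsum' : ∀ x, ∑ y, (if y - c x ∈ R x then 1 else 0) = (R x).card := by
    intro x
    rw [← hRsum x]
    exact Equiv.sum_comp (Equiv.subRight (c x)) (fun y => if y ∈ R x then 1 else 0)
  set A1 : Fin (m + 1 + e) → ℕ := fun y => ∑ x, (if y - c x ∈ R x then 1 else 0) with hA1
  set A2 : Fin (m + 1 + e) → ℕ := fun y => ∑ x, (if y ∈ R x then 1 else 0) with hA2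
  have sA1 : ∑ y, A1 y = ∑ x, (R x).card := by
    rw [hA1, Finset.sum_comm, Finset.sum_congr rfl (fun x _ => hRsum' x)]
  have sA2 : ∑ y, A2 y = ∑ x, (R x).card := by
    rw [hA2, Finset.sum_comm, Finset.sum_congr rfl (fun x _ => hRsum x)]
  set d : Fin m ⊕ Fin (m + 1 + e) → ℕ := fun p =>
    match p with
    | Sum.inl x => δ x + (R x).card
    | Sum.inr y => A1 y + (A2 y + e) with hd
  have dLL : ∀ x y, D (Sum.inl x) (Sum.inl y) ↔ D0 x y := by
    intro x y
    rw [hD0]
    constructor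
    · rintro h ⟨z, hz⟩
      exact h ⟨Sum.inl z, hz⟩
    · rintro h ⟨t, ht⟩
      rcases t with z | z
      · exact h ⟨z, ht⟩
      · exact ht
  have dLR : ∀ x y, D (Sum.inl x) (Sum.inr y) ↔ y ∈ R x := by
    intro x y
    constructor
    · intro h
      by_contra hcon
      exact h ⟨Sum.inr (y + c x), rfl, hcon⟩
    · rintro h ⟨t, ht⟩
      rcases t with z | z
      · exact ht
      · exact ht.2 h
  have dRL : ∀ x y, D (Sum.inr y) (Sum.inl x) ↔ y - c x ∈ R x := by
    intro x y
    constructor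
    · intro h
      by_contra hcon
      exact h ⟨Sum.inr (y - c x), sub_add_cancel _ _, hcon⟩
    · rintro h ⟨t, ht⟩
      rcases t with z | z
      · exact ht
      · obtain ⟨h1, h2⟩ := ht
        rw [← h1, add_sub_cancel_right] at h
        exact h2 h
  have dRR0 : ∀ y, ¬ D (Sum.inr y) (Sum.inr y) := fun y h => h ⟨Sum.inr y, rfl, rfl⟩
  have dRR1 : ∀ x y, D (Sum.inr y) (Sum.inr (y + c x)) ↔ y ∈ R x := by
    intro x y
    constructor
    · intro h
      by_contra hcon
      exact h ⟨Sum.inl x, rfl, hcon⟩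
    · rintro h ⟨t, ht⟩
      rcases t with z | z
      · obtain ⟨h1, h2⟩ := ht
        rw [c_inj (add_left_cancel h1)] at h2
        exact h2 h
      · exact c_ne x (left_eq_add.1 ht.1)
  have dRR2 : ∀ (i : Fin e) y, D (Sum.inr y) (Sum.inr (y + Fin.natAdd (m + 1) i)) := by
    rintro i y ⟨t, ht⟩
    rcases t with z | z
    · have h1 := add_left_cancel ht.1
      have h2 := congrArg Fin.val h1
      simp only [hc, cx, Fin.val_castAdd, Fin.val_succ, Fin.val_natAdd] at h2
      omega
    · have h1 := left_eq_add.1 ht.1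
      have h2 := congrArg Fin.val h1
      simp at h2
  have hout : ∀ v, ∑ v', (if D v v' then 1 else 0) = d v := by
    rintro (x | y)
    · rw [Fintype.sum_sum_type]
      have e1 : ∑ y, (if D (Sum.inl x) (Sum.inl y) then 1 else 0) = δ x := by
        rw [hδ]
        refine Finset.sum_congr rfl (fun y _ => ?_)
        simp only [dLL]
      have e2 : ∑ y, (if D (Sum.inl x) (Sum.inr y) then 1 else 0) = (R x).card := by
        rw [← hRsum x]
        refine Finset.sum_congr rfl (fun y _ => ?_)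
        simp only [dLR]
      rw [e1, e2]
    · rw [Fintype.sum_sum_type]
      have e1 : ∑ x, (if D (Sum.inr y) (Sum.inl x) then 1 else 0) = A1 y := by
        rw [hA1]
        refine Finset.sum_congr rfl (fun x _ => ?_)
        simp only [dRL]
      have e2 : ∑ y', (if D (Sum.inr y) (Sum.inr y') then 1 else 0) = A2 y + e := by
        rw [← Equiv.sum_comp (Equiv.addLeft y) (fun y' => if D (Sum.inr y) (Sum.inr y') then 1 else 0),
          Fin.sum_univ_add, Fin.sum_univ_succ]
        have e3 : (if D (Sum.inr y) (Sum.inr ((Equiv.addLeft y) (Fin.castAdd e 0))) then 1 else 0) = 0 := by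
          rw [if_neg]
          have : (Equiv.addLeft y) (Fin.castAdd e 0) = y := by
            rw [Equiv.coe_addLeft]
            have h0 : (Fin.castAdd e (0 : Fin (m + 1))) = 0 := by
              apply Fin.ext
              simp
            rw [h0]
            exact add_zero y
          rw [this]
          exact dRR0 y
        have e4 : ∑ i : Fin m, (if D (Sum.inr y) (Sum.inr ((Equiv.addLeft y) (Fin.castAdd e i.succ)))
            then 1 else 0) = A2 y := by
          refine Finset.sum_congr rfl (fun x _ => ?_)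
          have : (Equiv.addLeft y) (Fin.castAdd e x.succ) = y + c x := rfl
          rw [this]
          simp only [dRR1]
        have e5 : ∑ i : Fin e, (if D (Sum.inr y) (Sum.inr ((Equiv.addLeft y) (Fin.natAdd (m + 1) i)))
            then 1 else 0) = e := by
          have : ∀ i : Fin e, (if D (Sum.inr y) (Sum.inr ((Equiv.addLeft y) (Fin.natAdd (m + 1) i)))
            then 1 else 0) = 1 := by
            intro i
            rw [if_pos]
            exact dRR2 i y
          rw [Finset.sum_congr rfl (fun i _ => this i)]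
          simp
        rw [e3, e4, e5, Nat.zero_add]
      rw [e1, e2]
  have hin : ∀ v', ∑ v, (if D v v' then 1 else 0) = d v' := by
    intro v'
    rw [← hout v']
    exact inout G rotG funG D (fun a b => Iff.rfl) v'
  refine ⟨G, D, inferInstance, d, rotG, funG, idG, fun a b c h => h, fun a b => Iff.rfl, hout, hin,
    fun x => rfl, ?_, ?_, ?_, ?_⟩
  · intro y
    change e ≤ A1 y + (A2 y + e)
    omega
  · intro y
    have h1 : A1 y + A2 y ≤ ∑ x : Fin m, 1 := by
      rw [hA1, hA2, ← Finset.sum_add_distrib]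
      refine Finset.sum_le_sum (fun x _ => ?_)
      by_cases c1 : y - c x ∈ R x
      · have c2 := hR x _ c1
        rw [sub_add_cancel] at c2
        rw [if_pos c1, if_neg c2]
      · rw [if_neg c1]
        split_ifs <;> omega
    simp only [sum_const, card_univ, Fintype.card_fin, smul_eq_mul, mul_one] at h1
    change A1 y + (A2 y + e) ≤ m + e
    omega
  · rw [Fintype.sum_sum_type]
    have e1 : ∑ x : Fin m, d (Sum.inl x) = ∑ x, δ x + ∑ x, (R x).card := by
      change ∑ x, (δ x + (R x).card) = _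
      rw [Finset.sum_add_distrib]
    have e2 : ∑ y : Fin (m + 1 + e), d (Sum.inr y) =
        ∑ x, (R x).card + (∑ x, (R x).card + (m + 1 + e) * e) := by
      change ∑ y, (A1 y + (A2 y + e)) = _
      rw [Finset.sum_add_distrib, Finset.sum_add_distrib, sA1, sA2]
      simp
    rw [e1, e2]
    change ∑ x, δ x + ∑ x, (R x).card + _ = ∑ x, δ x + 3 * ∑ x, (R x).card + (m + 1 + e) * e
    omega
  · intro hs
    refine ⟨?_, ?_⟩
    · change A1 0 + (A2 0 + e) = m + e
      have h1 : A1 0 = m := by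
        rw [hA1]
        simp only
        rw [Finset.sum_congr rfl (fun x _ => if_pos (hs x))]
        simp
      have h2 : A2 0 = 0 := by
        rw [hA2]
        simp only
        refine Finset.sum_eq_zero (fun x _ => ?_)
        rw [if_neg]
        have := hR x _ (hs x)
        change 0 - c x + c x ∉ R x at this
        rw [sub_add_cancel] at this
        exact this
      omega
    · rintro y hy ⟨t, ht⟩
      rcases t with z | z
      · obtain ⟨h1, h2⟩ := ht
        apply h2
        have h3 : y = 0 - c z := eq_sub_of_add_eq h1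
        rw [h3]
        exact hs z
      · exact hy ht.1

/-- choice of the removed triples -/
theorem ext2 (m e q : ℕ) (G0 : Fin m → Fin m → Fin m → Prop)
    (rot0 : ∀ a b c, G0 a b c → G0 b c a) (fun0 : ∀ a b c c', G0 a b c → G0 a b c' → c = c')
    (id0 : ∀ a, G0 a a a)
    (D0 : Fin m → Fin m → Prop) [∀ v v', Decidable (D0 v v')] (hD0 : ∀ a b, D0 a b ↔ ¬ ∃ c, G0 a b c)
    (l : Fin m → ℕ) (hl1 : ∀ x, 3 * l x ≤ m + e + 3)
    (hl2 : ∀ x, l x + ∑ y, (if D0 x y then 1 else 0) ≤ m + e)
    (hlq : ∑ x, l x ≤ q)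
    (hq : 3 * q + ∑ x, ∑ y, (if D0 x y then 1 else 0) ≤ m * (m + 1 + e)) :
    ∃ (G : Fin m ⊕ Fin (m + 1 + e) → Fin m ⊕ Fin (m + 1 + e) → Fin m ⊕ Fin (m + 1 + e) → Prop)
      (D : Fin m ⊕ Fin (m + 1 + e) → Fin m ⊕ Fin (m + 1 + e) → Prop)
      (_ : ∀ v v', Decidable (D v v')) (d : Fin m ⊕ Fin (m + 1 + e) → ℕ),
      (∀ a b c, G a b c → G b c a) ∧ (∀ a b c c', G a b c → G a b c' → c = c') ∧
      (∀ a, G a a a) ∧ (∀ a b c, G0 a b c → G (Sum.inl a) (Sum.inl b) (Sum.inl c)) ∧
      (∀ a b, D a b ↔ ¬ ∃ c, G a b c) ∧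
      (∀ v, ∑ v', (if D v v' then 1 else 0) = d v) ∧
      (∀ v', ∑ v, (if D v v' then 1 else 0) = d v') ∧
      (∀ x, ∑ y, (if D0 x y then 1 else 0) + l x ≤ d (Sum.inl x)) ∧
      (∀ y, e ≤ d (Sum.inr y)) ∧ (∀ v, d v ≤ m + e) ∧
      (∑ v, d v = ∑ x, ∑ y, (if D0 x y then 1 else 0) + 3 * q + (m + 1 + e) * e) ∧
      ((∀ x, 1 ≤ l x) → d (Sum.inr 0) = m + e ∧
        ∀ y, y ≠ 0 → D (Sum.inr y) (Sum.inr 0)) := by
  classical
  set δ : Fin m → ℕ := fun x => ∑ y, (if D0 x y then 1 else 0) with hδ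
  have hδm : ∀ x, δ x + 1 ≤ m := by
    intro x
    have hn : ¬ D0 x x := fun hd => (hD0 x x).1 hd ⟨x, id0 x⟩
    have h1 : δ x + ∑ y : Fin m, (if x = y then 1 else 0) ≤ ∑ y : Fin m, 1 := by
      rw [hδ, ← Finset.sum_add_distrib]
      refine Finset.sum_le_sum (fun y _ => ?_)
      by_cases hxy : x = y
      · subst hxy
        simp [hn]
      · simp only [if_neg hxy]
        split_ifs <;> omega
    simpa using h1
  have hUex : ∀ x : Fin m, ∃ U : Finset (Fin (m + 1 + e)), (0 - cx m e x) ∈ U ∧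
      (∀ y ∈ U, y + cx m e x ∉ U) ∧ m + 1 + e ≤ 3 * U.card := by
    intro x
    obtain ⟨U, h1, h2, h3⟩ := indep (Equiv.addRight (cx m e x))
      (fun y h => cx_ne m e x (add_eq_left.1 h)) (0 - cx m e x)
    rw [Fintype.card_fin] at h3
    exact ⟨U, h1, h2, h3⟩
  choose U hU0 hUi hUc using hUex
  set u : Fin m → ℕ := fun x => min (m + e - δ x) (U x).card with hu
  have hlu : ∀ x, l x ≤ u x := by
    intro x
    have h1 := hl1 x
    have h2 := hl2 x
    have h3 := hUc x
    refine le_min ?_ ?_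
    · change l x + δ x ≤ m + e at h2
      omega
    · omega
  have hqu : q ≤ ∑ x, u x := by
    have h1 : ∀ x, m + 1 + e ≤ 3 * u x + δ x := by
      intro x
      have h1 := hδm x
      have h3 := hUc x
      simp only [hu]
      rcases min_choice (m + e - δ x) (U x).card with h4 | h4
      · rw [h4]
        omega
      · rw [h4]
        omega
    have h2 : ∑ x : Fin m, (m + 1 + e) ≤ ∑ x, (3 * u x + δ x) := Finset.sum_le_sum (fun x _ => h1 x)
    have h3 : ∑ x : Fin m, (m + 1 + e) = m * (m + 1 + e) := by simp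
    rw [h3, Finset.sum_add_distrib, ← Finset.mul_sum] at h2
    change 3 * q + ∑ x, δ x ≤ _ at hq
    omega
  obtain ⟨ρ, hρ, hρs⟩ := exists_between l u hlu q hlq hqu
  have hRex : ∀ x, ∃ R : Finset (Fin (m + 1 + e)), R ⊆ U x ∧ R.card = ρ x ∧
      (1 ≤ ρ x → 0 - cx m e x ∈ R) := by
    intro x
    have h1 : ρ x ≤ (U x).card := (hρ x).2.trans (min_le_right _ _)
    by_cases h2 : 1 ≤ ρ x
    · obtain ⟨R, hR1, hR2, hR3⟩ := Finset.exists_subsuperset_card_eq
        (Finset.singleton_subset_iff.2 (hU0 x)) (by rw [card_singleton]; exact h2) h1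
      exact ⟨R, hR2, hR3, fun _ => hR1 (mem_singleton_self _)⟩
    · obtain ⟨R, hR1, hR2⟩ := Finset.exists_subset_card_eq h1
      exact ⟨R, hR1, hR2, fun h => absurd h h2⟩
  choose R hRU hRc hR1 using hRex
  obtain ⟨G, D, hDec, d, g1, g2, g3, g4, g5, g6, g7, g8, g9, g10, g11, g12⟩ :=
    ext_lemma m e G0 rot0 fun0 id0 D0 hD0 R (fun x y hy hy' => hUi x y (hRU x hy) (hRU x hy'))
  have hsum : ∑ x, (R x).card = q := by
    rw [Finset.sum_congr rfl (fun x _ => hRc x), hρs]
  refine ⟨G, D, hDec, d, g1, g2, g3, g4, g5, g6, g7, ?_, g9, ?_, ?_, ?_⟩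
  · intro x
    rw [g8, hRc]
    have := (hρ x).1
    omega
  · rintro (x | y)
    · rw [g8, hRc]
      have h1 := (hρ x).2
      have h2 : u x ≤ m + e - δ x := min_le_left _ _
      have h3 := hδm x
      change δ x + ρ x ≤ m + e
      omega
    · exact g10 y
  · rw [g11, hsum]
  · intro h
    exact g12 (fun x => hR1 x ((h x).trans (hρ x).1))

end Pool.Agent.Helper303.Mend
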