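import Pool.Agent.Helper303.MendC

set_option autoImplicit false

namespace Pool.Agent.Helper303.Mend

open Finset
open Pool.Agent.Helper243.SemiSymAll (birkhoff transport array_lemma exists_of_sum_one
  not_of_sum_zero sum_isLeft ind_unique ind_compl inout exists_between colour_lemma)

/-- degree bound for the undefined pairs -/
theorem delta_le (m : ℕ) (G0 : Fin m → Fin m → Fin m → Prop) (id0 : ∀ a, G0 a a a)
    (D0 : Fin m → Fin m → Prop) [∀ v v', Decidable (D0 v v')] (hD0 : ∀ a b, D0 a b ↔ ¬ ∃ c, G0 a b c)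
    (x : Fin m) : ∑ y, (if D0 x y then 1 else 0) + 1 ≤ m := by
  have hn : ¬ D0 x x := fun hd => (hD0 x x).1 hd ⟨x, id0 x⟩
  have h1 : ∑ y, (if D0 x y then 1 else 0) + ∑ y : Fin m, (if x = y then 1 else 0) ≤ ∑ y : Fin m, 1 := by
    rw [← Finset.sum_add_distrib]
    refine Finset.sum_le_sum (fun y _ => ?_)
    by_cases hxy : x = y
    · subst hxy
      simp [hn]
    · simp only [if_neg hxy]
      split_ifs <;> omega
  simpa using h1

/-- odd orders `t = 4m + 2e + 3` -/
theorem odd_case (m e : ℕ) (hm : 2 ≤ m) (h3 : e = 3 → 3 ≤ m) (he : e ≤ 3)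
    (hmod : (e * (m - 2)) % 3 = 0)
    (G0 : Fin m → Fin m → Fin m → Prop)
    (rot0 : ∀ a b c, G0 a b c → G0 b c a) (fun0 : ∀ a b c c', G0 a b c → G0 a b c' → c = c')
    (id0 : ∀ a, G0 a a a) (h0 : Fin (m + e) → Fin (m + e) → Fin (m + e)) (hh : Mend h0) :
    ∃ f : (Fin m ⊕ Fin (m + 1 + e)) ⊕ (Fin (m + e) ⊕ Fin (m + 2)) →
        (Fin m ⊕ Fin (m + 1 + e)) ⊕ (Fin (m + e) ⊕ Fin (m + 2)) →
        (Fin m ⊕ Fin (m + 1 + e)) ⊕ (Fin (m + e) ⊕ Fin (m + 2)),
      Mend f ∧
      ∀ a b c, G0 a b c → f (Sum.inl (Sum.inl a)) (Sum.inl (Sum.inl b)) = Sum.inl (Sum.inl c) := by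
  classical
  set D0 : Fin m → Fin m → Prop := fun x y => ¬ ∃ z, G0 x y z with hD0
  have hδ := delta_le m G0 id0 D0 (fun _ _ => Iff.rfl)
  obtain ⟨k, hk⟩ := undef_mod m G0 rot0 fun0 id0 D0 (fun _ _ => Iff.rfl)
  obtain ⟨n, rfl⟩ : ∃ n, m = n + 2 := ⟨m - 2, by omega⟩
  simp only [Nat.add_sub_cancel] at hmod
  have hmm : (n + 2) * (n + 2 - 1) = n * n + 3 * n + 2 := by
    have : n + 2 - 1 = n + 1 := by omega
    rw [this]
    ring
  rw [hmm] at hk
  obtain ⟨j, hj⟩ : ∃ j, e * n = 3 * j := ⟨e * n / 3, by omega⟩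
  -- 3 q + Δ = m(m-1) + e(m-2)
  set l : Fin (n + 2) → ℕ := fun x =>
    if e = 3 ∧ ∑ y, (if D0 x y then 1 else 0) = 0 then 1 else 0 with hl
  have hq1 : 3 * (k + j) + ∑ x, ∑ y, (if D0 x y then 1 else 0) = n * n + 3 * n + 2 + e * n := by
    omega
  have hlq : ∑ x, l x ≤ k + j := by
    by_cases he3 : e = 3
    · have h4 : ∑ x, (3 * l x + ∑ y, (if D0 x y then 1 else 0)) ≤ ∑ x : Fin (n + 2), (n + 2) := by
        refine Finset.sum_le_sum (fun x _ => ?_)
        have := hδ x
        simp only [hl]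
        have h3' := h3 he3
        split_ifs with h5
        · rw [h5.2]
          omega
        · omega
      rw [Finset.sum_add_distrib, ← Finset.mul_sum] at h4
      have h5 : ∑ x : Fin (n + 2), (n + 2) = n * n + 4 * n + 4 := by
        simp
        ring
      rw [h5] at h4
      have h3' := h3 he3
      subst he3
      omega
    · have : ∑ x, l x = 0 := by
        refine Finset.sum_eq_zero (fun x _ => ?_)
        simp only [hl]
        rw [if_neg (fun h => he3 h.1)]
      omega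
  obtain ⟨G, D, hDec, d, g1, g2, g3, g4, g5, g6, g7, g8, g9, g10, g11, -⟩ :=
    ext2 (n + 2) e (k + j) G0 rot0 fun0 id0 D0 (fun _ _ => Iff.rfl) l
      (fun x => by
        simp only [hl]
        split_ifs <;> omega)
      (fun x => by
        have := hδ x
        simp only [hl]
        split_ifs with h5
        · rw [h5.2]
          omega
        · omega) hlq
      (by
        rw [hq1]
        have : (n + 2) * (n + 2 + 1 + e) = n * n + 5 * n + 6 + e * n + 2 * e := by ring
        omega)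
  obtain ⟨f, hf1, hf2⟩ := completion_odd (n + 2 + e) (n + 2 + 2) (by omega)
    (by simp only [Fintype.card_sum, Fintype.card_fin]; omega) G g1 g2 g3 h0 hh d g10
    (by
      rintro (x | y)
      · have h1 := g8 x
        simp only [hl] at h1
        by_cases h5 : e = 3 ∧ ∑ y, (if D0 x y then 1 else 0) = 0
        · rw [if_pos h5] at h1
          omega
        · by_cases h6 : e = 3
          · have h7 : ∑ y, (if D0 x y then 1 else 0) ≠ 0 := fun h => h5 ⟨h6, h⟩
            omega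
          · omega
      · have h1 := g9 y
        omega) D g5 g6 g7
    (by
      rw [g11]
      have e1 : (n + 2 + e) * (n + 2 + e) = n * n + 4 * n + 4 + 2 * (e * n) + 4 * e + e * e := by ring
      have e2 : (n + 2 + 1 + e) * e = e * n + 3 * e + e * e := by ring
      rw [e1, e2]
      omega)
  exact ⟨f, hf1, fun a b c h => hf2 _ _ _ (g4 a b c h)⟩

/-- even orders `t = 4m + 2e + 2` -/
theorem even_case (m e : ℕ) (hm : 1 ≤ m) (he1 : 1 ≤ e) (he : e ≤ 4) (h3 : e = 3 → 4 ≤ m)
    (h4 : e = 4 → 5 ≤ m)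
    (hmod : ((2 + e) * (m - 1)) % 3 = 0)
    (G0 : Fin m → Fin m → Fin m → Prop)
    (rot0 : ∀ a b c, G0 a b c → G0 b c a) (fun0 : ∀ a b c c', G0 a b c → G0 a b c' → c = c')
    (id0 : ∀ a, G0 a a a) (h0 : Fin (m + e) → Fin (m + e) → Fin (m + e)) (hh : Mend h0) :
    ∃ f : (Fin m ⊕ Fin (m + 1 + e)) ⊕ (Fin (m + e) ⊕ Fin (m + 1)) →
        (Fin m ⊕ Fin (m + 1 + e)) ⊕ (Fin (m + e) ⊕ Fin (m + 1)) →
        (Fin m ⊕ Fin (m + 1 + e)) ⊕ (Fin (m + e) ⊕ Fin (m + 1)),
      Mend f ∧
      ∀ a b c, G0 a b c → f (Sum.inl (Sum.inl a)) (Sum.inl (Sum.inl b)) = Sum.inl (Sum.inl c) := by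
  classical
  set D0 : Fin m → Fin m → Prop := fun x y => ¬ ∃ z, G0 x y z with hD0
  have hδ := delta_le m G0 id0 D0 (fun _ _ => Iff.rfl)
  obtain ⟨k, hk⟩ := undef_mod m G0 rot0 fun0 id0 D0 (fun _ _ => Iff.rfl)
  obtain ⟨n, rfl⟩ : ∃ n, m = n + 1 := ⟨m - 1, by omega⟩
  simp only [Nat.add_sub_cancel] at hmod
  have hmm : (n + 1) * (n + 1 - 1) = n * n + n := by
    have : n + 1 - 1 = n := by omega
    rw [this]
    ring
  rw [hmm] at hk
  -- Δ + 3 q = m² + m + 1 + e (m - 1) = n² + 3 n + 3 + e n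
  obtain ⟨j, hj⟩ : ∃ j, 2 * n + 3 + e * n = 3 * j := by
    have : (2 + e) * n = 2 * n + e * n := by ring
    rw [this] at hmod
    exact ⟨(2 * n + 3 + e * n) / 3, by omega⟩
  set l : Fin (n + 1) → ℕ := fun x =>
    max 1 (e - 1 - ∑ y, (if D0 x y then 1 else 0)) with hl
  have hq1 : 3 * (k + j) + ∑ x, ∑ y, (if D0 x y then 1 else 0) = n * n + 3 * n + 3 + e * n := by
    omega
  have hlq : ∑ x, l x ≤ k + j := by
    have key : ∀ K : ℕ, (∀ x, 3 * l x + ∑ y, (if D0 x y then 1 else 0) ≤ K) →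
        (n + 1) * K ≤ n * n + 3 * n + 3 + e * n → ∑ x, l x ≤ k + j := by
      intro K hK hK2
      have h4 : ∑ x, (3 * l x + ∑ y, (if D0 x y then 1 else 0)) ≤ ∑ x : Fin (n + 1), K :=
        Finset.sum_le_sum (fun x _ => hK x)
      rw [Finset.sum_add_distrib, ← Finset.mul_sum] at h4
      have h5 : ∑ x : Fin (n + 1), K = (n + 1) * K := by simp
      rw [h5] at h4
      omega
    by_cases hc : e = 4 ∧ n ≤ 5
    · obtain ⟨rfl, hn⟩ := hc
      have := h4 rfl
      refine key 9 (fun x => ?_) (by nlinarith)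
      have := hδ x
      simp only [hl]
      rcases max_choice 1 (4 - 1 - ∑ y, (if D0 x y then 1 else 0)) with h5 | h5 <;> rw [h5] <;> omega
    · refine key (n + 3) (fun x => ?_) ?_
      · have := hδ x
        simp only [hl]
        rcases max_choice 1 (e - 1 - ∑ y, (if D0 x y then 1 else 0)) with h5 | h5 <;> rw [h5] <;> omega
      · have : n * 1 ≤ e * n := by rw [mul_comm e n]; exact Nat.mul_le_mul_left n he1
        have : (n + 1) * (n + 3) = n * n + 4 * n + 3 := by ring
        omega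
  obtain ⟨G, D, hDec, d, g1, g2, g3, g4, g5, g6, g7, g8, g9, g10, g11, g12⟩ :=
    ext2 (n + 1) e (k + j) G0 rot0 fun0 id0 D0 (fun _ _ => Iff.rfl) l
      (fun x => by
        simp only [hl]
        rcases max_choice 1 (e - 1 - ∑ y, (if D0 x y then 1 else 0)) with h5 | h5 <;> rw [h5] <;> omega)
      (fun x => by
        have := hδ x
        simp only [hl]
        rcases max_choice 1 (e - 1 - ∑ y, (if D0 x y then 1 else 0)) with h5 | h5 <;> rw [h5] <;> omega)
      hlq
      (by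
        rw [hq1]
        have : (n + 1) * (n + 1 + 1 + e) = n * n + 3 * n + 2 + e * n + e := by ring
        omega)
  obtain ⟨hs1, hs2⟩ := g12 (fun x => le_max_left _ _)
  obtain ⟨f, hf1, hf2⟩ := completion_even (n + 1 + e) (n + 1)
    (by simp only [Fintype.card_sum, Fintype.card_fin]; omega) G g1 g2 g3 h0 hh d g10
    (Sum.inr 0) (fun i => Sum.inr ⟨i + 1, by omega⟩)
    (fun i i' h => by
      have := Sum.inr.inj h
      simp only [Fin.mk.injEq, add_left_inj] at this
      exact Fin.ext this) hs1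
    (by
      rintro (x | y)
      · have h1 := g8 x
        simp only [hl] at h1
        have h5 := le_max_right 1 (e - 1 - ∑ y, (if D0 x y then 1 else 0))
        omega
      · have h1 := g9 y
        omega)
    (fun i => by
      have h1 := g9 ⟨i + 1, by omega⟩
      omega) D g5
    (fun i => hs2 _ (by
      intro h
      have := congrArg Fin.val h
      simp at this)) g6 g7
    (by
      rw [g11]
      have e1 : (n + 1 + e) * (n + 1 + e) = n * n + 2 * n + 1 + 2 * (e * n) + 2 * e + e * e := by ring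
      have e2 : (n + 1 + 1 + e) * e = e * n + 2 * e + e * e := by ring
      rw [e1, e2]
      omega)
  exact ⟨f, hf1, fun a b c h => hf2 _ _ _ (g4 a b c h)⟩

end Pool.Agent.Helper303.Mend
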