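import Pool.Agent.Helper303.MendE
import Pool.Agent.Helper303.MendT

set_option autoImplicit false

namespace Pool.Agent.Helper303.Mend

open Finset

/-- transport to `Fin t` -/
theorem to_fin {m t : ℕ} {V : Type*} [Fintype V] (hV : Fintype.card V = t) (i : Fin m → V)
    (hi : Function.Injective i)
    (G0 : Fin m → Fin m → Fin m → Prop) (f : V → V → V) (hf : Mend f)
    (h : ∀ a b c, G0 a b c → f (i a) (i b) = i c) :
    ∃ (F : Fin t → Fin t → Fin t) (φ : Fin m → Fin t), Mend F ∧ Function.Injective φ ∧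
      ∀ a b c, G0 a b c → F (φ a) (φ b) = φ c := by
  classical
  set E := Fintype.equivFinOfCardEq hV with hE
  refine ⟨fun x y => E (f (E.symm x) (E.symm y)), fun a => E (i a), ⟨?_, ?_⟩, ?_, ?_⟩
  · intro x
    simp only [hf.1, Equiv.apply_symm_apply]
  · intro x y
    simp only [Equiv.symm_apply_apply, hf.2, Equiv.apply_symm_apply]
  · exact fun a a' haa => hi (E.injective haa)
  · intro a b c hh
    simp only [Equiv.symm_apply_apply, h a b c hh]

theorem step (t : ℕ) (ht : 23 ≤ t) (hmod : t % 3 = 0 ∨ t % 3 = 1)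
    (IH : ∀ w, w < t → (w % 3 = 0 ∨ w % 3 = 1) → w ≠ 6 → ∃ f : Fin w → Fin w → Fin w, Mend f) :
    ∃ m, t ≤ 4 * m + 10 ∧ ∀ (G0 : Fin m → Fin m → Fin m → Prop),
      (∀ a b c, G0 a b c → G0 b c a) → (∀ a b c c', G0 a b c → G0 a b c' → c = c') →
      (∀ a, G0 a a a) → ∃ (F : Fin t → Fin t → Fin t) (φ : Fin m → Fin t), Mend F ∧
        Function.Injective φ ∧ ∀ a b c, G0 a b c → F (φ a) (φ b) = φ c := by
  have odd : ∀ m e, t = 4 * m + 2 * e + 3 → 2 ≤ m → (e = 3 → 3 ≤ m) → e ≤ 3 →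
      (e * (m - 2)) % 3 = 0 → ((m + e) % 3 = 0 ∨ (m + e) % 3 = 1) → m + e ≠ 6 →
      ∀ (G0 : Fin m → Fin m → Fin m → Prop),
      (∀ a b c, G0 a b c → G0 b c a) → (∀ a b c c', G0 a b c → G0 a b c' → c = c') →
      (∀ a, G0 a a a) → ∃ (F : Fin t → Fin t → Fin t) (φ : Fin m → Fin t), Mend F ∧
        Function.Injective φ ∧ ∀ a b c, G0 a b c → F (φ a) (φ b) = φ c := by
    intro m e hte h1 h2 h3 h4 h5 h6 G0 rot0 fun0 id0
    obtain ⟨h0, hh⟩ := IH (m + e) (by omega) h5 h6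
    obtain ⟨f, hf1, hf2⟩ := odd_case m e h1 h2 h3 h4 G0 rot0 fun0 id0 h0 hh
    exact to_fin (by simp only [Fintype.card_sum, Fintype.card_fin]; omega)
      (fun a => Sum.inl (Sum.inl a)) (fun a a' h => Sum.inl.inj (Sum.inl.inj h)) G0 f hf1 hf2
  have even : ∀ m e, t = 4 * m + 2 * e + 2 → 1 ≤ m → 1 ≤ e → e ≤ 4 → (e = 3 → 4 ≤ m) →
      (e = 4 → 5 ≤ m) → ((2 + e) * (m - 1)) % 3 = 0 → ((m + e) % 3 = 0 ∨ (m + e) % 3 = 1) →
      m + e ≠ 6 →
      ∀ (G0 : Fin m → Fin m → Fin m → Prop),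
      (∀ a b c, G0 a b c → G0 b c a) → (∀ a b c c', G0 a b c → G0 a b c' → c = c') →
      (∀ a, G0 a a a) → ∃ (F : Fin t → Fin t → Fin t) (φ : Fin m → Fin t), Mend F ∧
        Function.Injective φ ∧ ∀ a b c, G0 a b c → F (φ a) (φ b) = φ c := by
    intro m e hte h1 h1' h1'' h2 h3 h4 h5 h6 G0 rot0 fun0 id0
    obtain ⟨h0, hh⟩ := IH (m + e) (by omega) h5 h6
    obtain ⟨f, hf1, hf2⟩ := even_case m e h1 h1' h1'' h2 h3 h4 G0 rot0 fun0 id0 h0 hh
    exact to_fin (by simp only [Fintype.card_sum, Fintype.card_fin]; omega)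
      (fun a => Sum.inl (Sum.inl a)) (fun a a' h => Sum.inl.inj (Sum.inl.inj h)) G0 f hf1 hf2
  by_cases h24 : t = 24
  · exact ⟨4, by omega, even 4 3 (by omega) (by omega) (by omega) (by omega) (by omega) (by omega)
      (by norm_num) (by norm_num) (by norm_num)⟩
  by_cases h25 : t = 25
  · exact ⟨4, by omega, odd 4 3 (by omega) (by omega) (by omega) (by omega) (by norm_num)
      (by norm_num) (by norm_num)⟩
  by_cases h27 : t = 27
  · exact ⟨5, by omega, odd 5 2 (by omega) (by omega) (by omega) (by omega) (by norm_num)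
      (by norm_num) (by norm_num)⟩
  have h12 : t % 12 = 0 ∨ t % 12 = 1 ∨ t % 12 = 3 ∨ t % 12 = 4 ∨ t % 12 = 6 ∨ t % 12 = 7 ∨
      t % 12 = 9 ∨ t % 12 = 10 := by omega
  rcases h12 with h | h | h | h | h | h | h | h
  · exact ⟨(t - 4) / 4, by omega, even ((t - 4) / 4) 1 (by omega) (by omega) (by omega) (by omega)
      (by omega) (by omega) (by omega) (by omega) (by omega)⟩
  · exact ⟨(t - 5) / 4, by omega, odd ((t - 5) / 4) 1 (by omega) (by omega) (by omega) (by omega)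
      (by omega) (by omega) (by omega)⟩
  · exact ⟨(t - 3) / 4, by omega, odd ((t - 3) / 4) 0 (by omega) (by omega) (by omega) (by omega)
      (by omega) (by omega) (by omega)⟩
  · exact ⟨(t - 4) / 4, by omega, even ((t - 4) / 4) 1 (by omega) (by omega) (by omega) (by omega)
      (by omega) (by omega) (by omega) (by omega) (by omega)⟩
  · exact ⟨(t - 10) / 4, by omega, even ((t - 10) / 4) 4 (by omega) (by omega) (by omega) (by omega)
      (by omega) (by omega) (by omega) (by omega) (by omega)⟩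
  · exact ⟨(t - 3) / 4, by omega, odd ((t - 3) / 4) 0 (by omega) (by omega) (by omega) (by omega)
      (by omega) (by omega) (by omega)⟩
  · exact ⟨(t - 9) / 4, by omega, odd ((t - 9) / 4) 3 (by omega) (by omega) (by omega) (by omega)
      (by omega) (by omega) (by omega)⟩
  · exact ⟨(t - 6) / 4, by omega, even ((t - 6) / 4) 2 (by omega) (by omega) (by omega) (by omega)
      (by omega) (by omega) (by omega) (by omega) (by omega)⟩

/-- existence of Mendelsohn quasigroups of all admissible orders -/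
theorem mend_exists : ∀ t : ℕ, (t % 3 = 0 ∨ t % 3 = 1) → t ≠ 6 →
    ∃ f : Fin t → Fin t → Fin t, Mend f := by
  intro t
  induction t using Nat.strong_induction_on with
  | _ t IH =>
    intro h1 h2
    by_cases h3 : t < 23
    · exact small_exists t h3 h1 h2
    · obtain ⟨m, -, hm⟩ := step t (by omega) h1 IH
      obtain ⟨F, -, hF, -, -⟩ := hm (fun a b c => a = b ∧ b = c)
        (fun a b c h => ⟨h.2, h.2.symm.trans h.1.symm⟩)
        (fun a b c c' h h' => h.2.symm.trans h'.2) (fun a => ⟨rfl, rfl⟩)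
      exact ⟨F, hF⟩

theorem main (n : ℕ) (p : Fin n → Fin n → Option (Fin n))
    (hidem : ∀ x z : Fin n, p x x = some z → z = x)
    (hcyc : ∀ x y z : Fin n, p x y = some z → p y z = some x)
    (t : ℕ) (ht : 4 * n + 7 ≤ t) (ht' : 23 ≤ t) (hmod : t % 3 = 0 ∨ t % 3 = 1) :
    ∃ op : Fin t → Fin t → Fin t,
      (∀ x : Fin t, op x x = x) ∧ (∀ x y : Fin t, op x (op y x) = y) ∧
      ∃ f : Fin n ↪ Fin t, ∀ x y z : Fin n, p x y = some z → op (f x) (f y) = f z := by
  obtain ⟨m, htm, hm⟩ := step t ht' hmod (fun w _ h1 h2 => mend_exists w h1 h2)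
  have hnm : n ≤ m := by omega
  set ι : Fin n → Fin m := Fin.castLE hnm with hι
  have hιi : Function.Injective ι := Fin.castLE_injective hnm
  set P' : Fin m → Fin m → Fin m → Prop := fun x y z =>
    ∃ a b c, p a b = some c ∧ ι a = x ∧ ι b = y ∧ ι c = z with hP'
  have rotP : ∀ a b c, P' a b c → P' b c a := by
    rintro _ _ _ ⟨a, b, c, h, rfl, rfl, rfl⟩
    exact ⟨b, c, a, hcyc a b c h, rfl, rfl, rfl⟩
  have funP : ∀ a b c c', P' a b c → P' a b c' → c = c' := by
    rintro _ _ _ _ ⟨a, b, c, h, rfl, rfl, rfl⟩ ⟨a', b', c', h', ha, hb, rfl⟩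
    have ha' := hιi ha
    have hb' := hιi hb
    subst ha' hb'
    rw [h] at h'
    rw [Option.some.inj h']
  have idP : ∀ a c, P' a a c → c = a := by
    rintro _ _ ⟨a, b, c, h, rfl, hb, rfl⟩
    have hb' := hιi hb
    subst hb'
    rw [hidem _ _ h]
  obtain ⟨F, φ, hF, hφ, hFφ⟩ := hm (fun x y z => P' x y z ∨ (x = y ∧ y = z))
    (by
      rintro a b c (h | h)
      · exact Or.inl (rotP _ _ _ h)
      · exact Or.inr ⟨h.2, h.2.symm.trans h.1.symm⟩)
    (by
      rintro a b c c' (h | h) (h' | h')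
      · exact funP _ _ _ _ h h'
      · obtain ⟨rfl, rfl⟩ := h'
        exact idP _ _ h
      · obtain ⟨rfl, rfl⟩ := h
        exact (idP _ _ h').symm
      · exact h.2.symm.trans h'.2)
    (fun a => Or.inr ⟨rfl, rfl⟩)
  exact ⟨F, hF.1, hF.2, ⟨fun a => φ (ι a), fun a a' h => hιi (hφ h)⟩,
    fun x y z h => hFφ _ _ _ (Or.inl ⟨x, y, z, h, rfl, rfl, rfl⟩)⟩

end Pool.Agent.Helper303.Mend
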