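import Pool.Agent.Helper303.MendF

set_option autoImplicit false

namespace Pool.Agent.Helper303.Mend

theorem three_19 : ∃ f : Fin 19 → Fin 19 → Fin 19,
    ((∀ x, f x x = x) ∧ ∀ x y, f x (f y x) = y) ∧
    ∀ x y z : Fin 3, x ≠ y → z ≠ x → z ≠ y →
      f (Fin.castLE (by norm_num) x) (Fin.castLE (by norm_num) y) = Fin.castLE (by norm_num) z :=
  ⟨small_tab 19 422354728115323969791567076677894456972591466895053117396109118022265705657196467800873702652144876149682670739404952225026247528303618627363952998365313484402049372759616234308791514867561963278345630153256405724056388880266050603600587886901761547371070780849417142710996947006571639621987976661523888062913592049838186640196071370321571455920867928988927869060666235196852945701647159694967893294914846078859416190505488800673617071972976529725469156160281509 (by norm_num), by decide +kernel, by decide +kernel⟩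

theorem three_21 : ∃ f : Fin 21 → Fin 21 → Fin 21,
    ((∀ x, f x x = x) ∧ ∀ x y, f x (f y x) = y) ∧
    ∀ x y z : Fin 3, x ≠ y → z ≠ x → z ≠ y →
      f (Fin.castLE (by norm_num) x) (Fin.castLE (by norm_num) y) = Fin.castLE (by norm_num) z :=
  ⟨small_tab 21 12416509150184874110339117642409379075881013021843646312051869331526064430061096235291756013049073978078980046513561542078981716825708658403237982384305509078628798548385577985138514112080950216066159852868442962532405195256507566148027533198873188471781689606482902864007086587459659758936433944032219853770935343050813977928199290210671306845289995897260521613647780953465519898896164715897353207751544602335361155925528688309584559520436415005041950433419582728078549819465833165198871055213099885742326740844561360734477094579376591529090862421611943967921579237215710038917231210 (by norm_num), by decide +kernel, by decide +kernel⟩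

theorem three_22 : ∃ f : Fin 22 → Fin 22 → Fin 22,
    ((∀ x, f x x = x) ∧ ∀ x y, f x (f y x) = y) ∧
    ∀ x y z : Fin 3, x ≠ y → z ≠ x → z ≠ y →
      f (Fin.castLE (by norm_num) x) (Fin.castLE (by norm_num) y) = Fin.castLE (by norm_num) z :=
  ⟨small_tab 22 53077049576218268219214996780896987937724030460030398306643601163939149440684421545569963889584886666372721922959129187209882315479871577146818855324739367444363840429932342548123826579598534013141090895098953273445460127318866287983399370755601934980161092675313514527569087328845253388159215351964091914267820403188824284482822502076570025186352149797368160178322389280561975075850774294004823543237938089674703741164773268332698510918269540053603405404498934061141517442576628115462278966195297222560793057146404360922956783736555543335561319320560819238642780566114676671577090529109747524555567192210041720407043805008809415984512051651843410576 (by norm_num), by decide +kernel, by decide +kernel⟩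

/-- every order at least `4n+7` -/
theorem main_all (n : ℕ) (p : Fin n → Fin n → Option (Fin n))
    (hidem : ∀ x z : Fin n, p x x = some z → z = x)
    (hcyc : ∀ x y z : Fin n, p x y = some z → p y z = some x)
    (t : ℕ) (ht : 4 * n + 7 ≤ t) (hmod : t % 3 = 0 ∨ t % 3 = 1) :
    ∃ op : Fin t → Fin t → Fin t,
      (∀ x : Fin t, op x x = x) ∧ (∀ x y : Fin t, op x (op y x) = y) ∧
      ∃ f : Fin n ↪ Fin t, ∀ x y z : Fin n, p x y = some z → op (f x) (f y) = f z := by
  by_cases ht' : 23 ≤ t
  · exact main n p hidem hcyc t ht ht' hmod
  have hne1 : ∀ x y z : Fin n, p x y = some z → x ≠ y → z ≠ x := by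
    rintro x y z h hxy rfl
    exact hxy (hidem _ _ (hcyc _ _ _ (hcyc _ _ _ h))).symm
  have hne2 : ∀ x y z : Fin n, p x y = some z → x ≠ y → z ≠ y := by
    rintro x y z h hxy rfl
    exact hxy (hidem _ _ (hcyc _ _ _ h))
  have hnt : n ≤ t := by omega
  by_cases hn : n ≤ 2
  · obtain ⟨op, hop⟩ := mend_exists t hmod (by omega)
    refine ⟨op, hop.1, hop.2, ⟨Fin.castLE hnt, Fin.castLE_injective hnt⟩, ?_⟩
    intro x y z h
    by_cases hxy : x = y
    · subst hxy
      rw [hidem _ _ h]
      exact hop.1 _
    · have h1 := hne1 _ _ _ h hxy
      have h2 := hne2 _ _ _ h hxy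
      exfalso
      have hx := x.2
      have hy := y.2
      have hz := z.2
      rw [Fin.ext_iff] at hxy
      rw [ne_eq, Fin.ext_iff] at h1 h2
      omega
  · have hn3 : n = 3 := by omega
    subst hn3
    have key : ∀ (hnt : 3 ≤ t), (∃ f : Fin t → Fin t → Fin t,
        ((∀ x, f x x = x) ∧ ∀ x y, f x (f y x) = y) ∧
        ∀ x y z : Fin 3, x ≠ y → z ≠ x → z ≠ y →
          f (Fin.castLE hnt x) (Fin.castLE hnt y) = Fin.castLE hnt z) →
        ∃ op : Fin t → Fin t → Fin t,
          (∀ x : Fin t, op x x = x) ∧ (∀ x y : Fin t, op x (op y x) = y) ∧
          ∃ f : Fin 3 ↪ Fin t, ∀ x y z : Fin 3, p x y = some z → op (f x) (f y) = f z := by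
      rintro hnt ⟨f, hf, h3⟩
      refine ⟨f, hf.1, hf.2, ⟨Fin.castLE hnt, Fin.castLE_injective hnt⟩, ?_⟩
      intro x y z h
      by_cases hxy : x = y
      · subst hxy
        rw [hidem _ _ h]
        exact hf.1 _
      · exact h3 x y z hxy (hne1 _ _ _ h hxy) (hne2 _ _ _ h hxy)
    have h5 : t = 19 ∨ t = 21 ∨ t = 22 := by omega
    rcases h5 with rfl | rfl | rfl
    · exact key (by norm_num) three_19
    · exact key (by norm_num) three_21
    · exact key (by norm_num) three_22

end Pool.Agent.Helper303.Mend
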