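import Pool.Agent.Helper303.Kernel2

set_option autoImplicit false
open Filter Topology Asymptotics Metric

namespace Pool.Agent.Helper303

/-- The real linear form `b ↦ Re (2 a b)`, depending linearly on `a`. -/
noncomputable def Lam : ℂ →L[ℝ] (ℂ →L[ℝ] ℝ) :=
  (ContinuousLinearMap.compL ℝ ℂ ℂ ℝ Complex.reCLM).comp
    ((ContinuousLinearMap.mul ℝ ℂ).comp ((2:ℝ) • ContinuousLinearMap.id ℝ ℂ))

lemma Lam_apply (a b : ℂ) : Lam a b = (2 * a * b).re := by
  simp [Lam]
  ring

lemma Lam_eq (a : ℂ) : Lam a = Complex.reCLM.comp ((ContinuousLinearMap.mul ℝ ℂ) (2 * a)) := by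
  refine ContinuousLinearMap.ext fun b => ?_
  rw [Lam_apply]
  rfl

theorem exists_pot {r : ℝ} (hr : 0 < r) (hr8 : r ≤ 1 / 8) :
    ∃ H : ℂ → ℝ, ContDiff ℝ ((⊤ : ℕ∞) : WithTop ℕ∞) H ∧ (∀ x, HasFDerivAt H (Lam (uk r x)) x) ∧
      ∀ x, H (x + 2 * Real.pi * Complex.I) = Real.exp (2 * Real.pi) * H x := by
  have hder : ∀ x, ∃ α : ℂ, HasFDerivAt (fun x => Lam (uk r x)) (Lam.comp (wirt α (bk r x))) x := by
    intro x
    obtain ⟨α, hα⟩ := hasFDerivAt_uk hr hr8 x
    exact ⟨α, Lam.hasFDerivAt.comp x hα⟩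
  obtain ⟨H₀, hH₀⟩ := (convex_univ (𝕜 := ℝ) (E := ℂ)).exists_forall_hasFDerivAt_of_fderiv_symmetric
    isOpen_univ (ω := fun x => Lam (uk r x))
    (fun x _ => by
      obtain ⟨α, hα⟩ := hder x
      exact hα.differentiableAt.differentiableWithinAt)
    (fun x _ a b => by
      obtain ⟨α, hα⟩ := hder x
      rw [hα.fderiv]
      simp only [ContinuousLinearMap.comp_apply, Lam_apply, wirt_apply]
      simp only [Complex.mul_re, Complex.mul_im, Complex.add_re, Complex.add_im, Complex.conj_re,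
        Complex.conj_im, Complex.ofReal_re, Complex.ofReal_im]
      norm_num
      ring)
  have hH₀' : ∀ x, HasFDerivAt H₀ (Lam (uk r x)) x := fun x => hH₀ x trivial
  -- multiplicativity up to a constant
  have hconst : ∀ x y : ℂ, H₀ (x + 2 * Real.pi * Complex.I) - Real.exp (2 * Real.pi) * H₀ x
      = H₀ (y + 2 * Real.pi * Complex.I) - Real.exp (2 * Real.pi) * H₀ y := by
    have hd : ∀ x : ℂ, HasFDerivAt (fun x => H₀ (x + 2 * Real.pi * Complex.I)
        - Real.exp (2 * Real.pi) * H₀ x) (0 : ℂ →L[ℝ] ℝ) x := by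
      intro x
      have h1 : HasFDerivAt (fun t : ℂ => t + 2 * Real.pi * Complex.I)
          (ContinuousLinearMap.id ℝ ℂ) x := (hasFDerivAt_id x).add_const _
      have h2 := (hH₀' (x + 2 * Real.pi * Complex.I)).comp x h1
      have h3 := h2.sub ((hH₀' x).const_mul (Real.exp (2 * Real.pi)))
      refine h3.congr_fderiv ?_
      refine ContinuousLinearMap.ext fun b => ?_
      rw [uk_period]
      simp only [sub_apply, ContinuousLinearMap.comp_apply, Lam_apply, smul_apply,
        ContinuousLinearMap.id_apply, smul_eq_mul, zero_apply]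
      have : (2 * ((Real.exp (2 * Real.pi) : ℂ) * uk r x) * b)
          = (Real.exp (2 * Real.pi) : ℂ) * (2 * uk r x * b) := by ring
      rw [this, Complex.re_ofReal_mul, sub_self]
    exact is_const_of_fderiv_eq_zero (fun x => (hd x).differentiableAt) fun x => (hd x).fderiv
  have hE : Real.exp (2 * Real.pi) - 1 ≠ 0 := by
    have : 1 < Real.exp (2 * Real.pi) := Real.one_lt_exp_iff.2 Real.two_pi_pos
    linarith
  set C : ℝ := H₀ (0 + 2 * Real.pi * Complex.I) - Real.exp (2 * Real.pi) * H₀ 0 with hC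
  refine ⟨fun x => H₀ x + C / (Real.exp (2 * Real.pi) - 1), ?_, fun x => (hH₀' x).add_const _, ?_⟩
  · refine ContDiff.add ?_ contDiff_const
    rw [contDiff_infty_iff_fderiv]
    refine ⟨fun x => (hH₀' x).differentiableAt, ?_⟩
    have : fderiv ℝ H₀ = fun x => Lam (uk r x) := funext fun x => (hH₀' x).fderiv
    rw [this]
    exact Lam.contDiff.comp (contDiff_uk hr hr8)
  · intro x
    have h1 := hconst x 0
    rw [← hC] at h1
    have h2 : H₀ (x + 2 * Real.pi * Complex.I) = C + Real.exp (2 * Real.pi) * H₀ x := by linarith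
    simp only
    rw [h2]
    field_simp
    ring

end Pool.Agent.Helper303
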