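import Mathlib

set_option autoImplicit false

namespace Pool.Agent.Helper303

/-- The radial profile. -/
noncomputable def Bq (t : ℝ) : ℝ := 1 - 5 * t + 4 * t ^ 2

lemma Bq_bounds {t : ℝ} (h0 : 0 ≤ t) (h1 : t ≤ 1 / 4) : 0 ≤ Bq t ∧ Bq t ≤ 1 := by
  rw [Bq]; constructor <;> nlinarith

lemma main_pos {t c : ℝ} (h0 : 0 ≤ t) (h1 : t ≤ 1 / 4) (hc : c * Bq t > 1 / 20) :
    1 / 10 ≤ Bq t + 32 * t ^ 2 * c := by
  obtain ⟨hB0, hB1⟩ := Bq_bounds h0 h1
  have hc0 : 0 < c := by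
    by_contra hcon
    push Not at hcon
    nlinarith
  rcases le_total (1 / 10) (Bq t) with h | h
  · have : 0 ≤ 32 * t ^ 2 * c := by positivity
    linarith
  · have ht : 1 / 5 ≤ t := by
      by_contra hcon
      push Not at hcon
      rw [Bq] at h
      nlinarith
    have hc3 : 1 / 2 < c := by
      by_contra hcon
      push Not at hcon
      nlinarith
    have ht2 : 1 / 25 ≤ t ^ 2 := by nlinarith
    have h3 : 1 / 25 * (1 / 2) ≤ t ^ 2 * c := by
      have := mul_le_mul ht2 hc3.le (by norm_num) (by positivity)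
      linarith
    nlinarith

/-- The estimate of the Laplacian in the direction `I w + y`. -/
lemma lap_alg {E t : ℝ} {w ω y : ℂ} (hE : 0 < E) (hω : ‖ω‖ = E) (ht : t = ‖w‖ ^ 2)
    (hw : ‖w‖ ≤ 1 / 2) :
    E * Bq t + (E + ω.re) * (32 * t ^ 2) - E * (60 * ‖y‖ + 40 * ‖y‖ ^ 2) ≤
      (E + ω.re) * ((8 * t - 5) * (4 * ‖Complex.I * w + y‖ ^ 2)
        + 8 * ‖2 * ((starRingEnd ℂ) w * (Complex.I * w + y))‖ ^ 2) + Bq t * E
      + 2 * ((E * (-Complex.I) + -Complex.I * ω) *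
        (starRingEnd ℂ) (((8 * t - 5 : ℝ) : ℂ) * (2 * ((starRingEnd ℂ) w * (Complex.I * w + y))))).re := by
  have hre : |ω.re| ≤ E := by rw [← hω]; exact Complex.abs_re_le_norm ω
  obtain ⟨hre1, hre2⟩ := abs_le.1 hre
  have ht0 : 0 ≤ t := by rw [ht]; positivity
  have ht1 : t ≤ 1 / 4 := by rw [ht]; nlinarith [norm_nonneg w]
  have hy0 := norm_nonneg y
  -- norm of the direction
  set d : ℝ := 2 * ((starRingEnd ℂ) (Complex.I * w) * y).re + ‖y‖ ^ 2 with hd
  have hn : ‖Complex.I * w + y‖ ^ 2 = t + d := by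
    have h1 : ‖Complex.I * w + y‖ ^ 2 = ‖Complex.I * w‖ ^ 2 + ‖y‖ ^ 2
        + 2 * ((starRingEnd ℂ) (Complex.I * w) * y).re := by
      rw [← Complex.normSq_eq_norm_sq, ← Complex.normSq_eq_norm_sq, ← Complex.normSq_eq_norm_sq,
        Complex.normSq_add]
      congr 2
      have : ((Complex.I * w) * (starRingEnd ℂ) y).re = ((starRingEnd ℂ) ((starRingEnd ℂ) (Complex.I * w) * y)).re := by
        rw [map_mul, Complex.conj_conj]
      rw [this, Complex.conj_re]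
    rw [h1, norm_mul, Complex.norm_I, one_mul, ← ht, hd]; ring
  have hdle : d ≤ ‖y‖ + ‖y‖ ^ 2 := by
    have h1 : ((starRingEnd ℂ) (Complex.I * w) * y).re ≤ 1 / 2 * ‖y‖ := by
      refine (Complex.re_le_norm _).trans ?_
      rw [norm_mul, RCLike.norm_conj, norm_mul, Complex.norm_I, one_mul]
      gcongr
    rw [hd]; linarith
  have hn2 : ‖2 * ((starRingEnd ℂ) w * (Complex.I * w + y))‖ ^ 2 = 4 * t * (t + d) := by
    rw [norm_mul, norm_mul, RCLike.norm_conj, Complex.norm_two, mul_pow, mul_pow, hn, ← ht]; ring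
  rw [hn, hn2]
  -- the cross term
  have hcross : ((E * (-Complex.I) + -Complex.I * ω) *
        (starRingEnd ℂ) (((8 * t - 5 : ℝ) : ℂ) * (2 * ((starRingEnd ℂ) w * (Complex.I * w + y))))).re
      = -2 * (8 * t - 5) * t * (E + ω.re)
        + 2 * (8 * t - 5) * (-Complex.I * (E + ω) * (w * (starRingEnd ℂ) y)).re := by
    have hwt : w * (starRingEnd ℂ) w = (t : ℂ) := by
      rw [Complex.mul_conj, Complex.normSq_eq_norm_sq, ht]
    have h1 : (E * (-Complex.I) + -Complex.I * ω) *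
        (starRingEnd ℂ) (((8 * t - 5 : ℝ) : ℂ) * (2 * ((starRingEnd ℂ) w * (Complex.I * w + y))))
        = ((-2 * (8 * t - 5) * t : ℝ) : ℂ) * (E + ω)
          + ((2 * (8 * t - 5) : ℝ) : ℂ) * (-Complex.I * (E + ω) * (w * (starRingEnd ℂ) y)) := by
      simp only [map_mul, map_add, Complex.conj_ofReal, Complex.conj_conj, Complex.conj_I, map_ofNat]
      push_cast
      have hI : Complex.I * Complex.I = -1 := Complex.I_mul_I
      have hI2 : Complex.I ^ 2 = -1 := Complex.I_sq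
      linear_combination ((E + ω) * (8 * (t:ℂ) - 5) * 2 * w * (starRingEnd ℂ) w) * hI
        - (2 * (8 * (t:ℂ) - 5) * (E + ω)) * hwt
    rw [h1, Complex.add_re, Complex.re_ofReal_mul, Complex.re_ofReal_mul]
    simp
  rw [hcross]
  set X := (-Complex.I * (E + ω) * (w * (starRingEnd ℂ) y)).re with hX
  have hXle : |X| ≤ E * ‖y‖ := by
    refine (Complex.abs_re_le_norm _).trans ?_
    rw [norm_mul, norm_mul, norm_mul, norm_neg, Complex.norm_I, one_mul, RCLike.norm_conj]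
    have h1 : ‖(E : ℂ) + ω‖ ≤ 2 * E := by
      refine (norm_add_le _ _).trans ?_
      rw [Complex.norm_real, Real.norm_of_nonneg hE.le, hω]; linarith
    calc ‖(E : ℂ) + ω‖ * (‖w‖ * ‖y‖) ≤ (2 * E) * (1 / 2 * ‖y‖) := by gcongr
      _ = E * ‖y‖ := by ring
  have hT : 0 ≤ 5 - 8 * t := by linarith
  have hT5 : 5 - 8 * t ≤ 5 := by linarith
  have hcr : -(20 * (E * ‖y‖)) ≤ 2 * (2 * (8 * t - 5) * X) := by
    have h1 : (5 - 8 * t) * X ≤ 5 * (E * ‖y‖) := by
      calc (5 - 8 * t) * X ≤ (5 - 8 * t) * (E * ‖y‖) := by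
            gcongr; exact (le_abs_self X).trans hXle
        _ ≤ 5 * (E * ‖y‖) := by gcongr
    linarith
  have hA0 : 0 ≤ E + ω.re := by linarith
  have hA2 : E + ω.re ≤ 2 * E := by linarith
  have hd2 : (E + ω.re) * ((20 - 64 * t) * d) ≤ 2 * E * (20 * (‖y‖ + ‖y‖ ^ 2)) := by
    have h20 : 0 ≤ 20 - 64 * t := by linarith
    have hyy : 0 ≤ ‖y‖ + ‖y‖ ^ 2 := by positivity
    calc (E + ω.re) * ((20 - 64 * t) * d) ≤ (E + ω.re) * ((20 - 64 * t) * (‖y‖ + ‖y‖ ^ 2)) := by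
          gcongr
      _ ≤ (2 * E) * (20 * (‖y‖ + ‖y‖ ^ 2)) := by
          gcongr
          linarith
  nlinarith

end Pool.Agent.Helper303
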