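import Pool.Agent.Helper303.HullA
import Pool.Agent.Helper303.Barrier
import Pool.Agent.Helper303.SlideAlg

set_option autoImplicit false
open Filter Topology Asymptotics Metric

namespace Pool.Agent.Helper303

noncomputable def a1c : ℝ := 1 / 200000

/-- The centre of a hole in the plane of `z`. -/
noncomputable def zc (Q : Cheese) (j : ℕ) : ℂ := Complex.exp (Q.c j)

/-- The barrier of a hole. -/
noncomputable def pj (Q : Cheese) (j : ℕ) (z : ℂ) : ℝ :=
  Q.γ j * Bar (rj (Q.γ j)) (z / zc Q j - 1)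

noncomputable def wt (Q : Cheese) (a : ℝ) (j : ℕ) : ℝ := min a (2 * aj (Q.γ j) j)

/-- The bump function. -/
noncomputable def Xi (Q : Cheese) (J : Finset ℕ) (a : ℝ) (x : E2) : ℝ :=
  a * ((1 + Real.cos (Real.log ‖x 0‖)) * Bq (‖x 1‖ ^ 2) - 1 / 20)
    - ∑ j ∈ J, wt Q a j * pj Q j (x 0)

/-- The defining function of the bumped domain in the chart. -/
noncomputable def Rh (Q : Cheese) (J : Finset ℕ) (a : ℝ) (z₀ : ℂ) (x : E2) : ℝ :=
  -rh Q (ch z₀ x).1 (ch z₀ x).2 + 2 * (Real.exp (LB z₀ (x 0)).im * Xi Q J a x)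

lemma γ_le_one (Q : Cheese) (j : ℕ) : Q.γ j ≤ 1 := by
  have := Q.γ_sum {j}
  rw [Finset.sum_singleton] at this
  exact this.trans sigma_le

lemma zc_ne (Q : Cheese) (j : ℕ) : zc Q j ≠ 0 := Complex.exp_ne_zero _

lemma norm_quot (Q : Cheese) (j : ℕ) {z : ℂ} (hz : z ≠ 0) (hs : |Real.log ‖z‖| ≤ Real.pi) :
    1 ≤ Mc * ‖z / zc Q j‖ ∧ ‖z / zc Q j‖ ≤ Mc := by
  have hn : 0 < ‖z‖ := norm_pos_iff.2 hz
  have h1 : ‖z / zc Q j‖ = Real.exp (Real.log ‖z‖ - (Q.c j).re) := by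
    rw [norm_div, zc, Complex.norm_exp, Real.exp_sub, Real.exp_log hn]
  have h2 := abs_le.1 (Q.c_bd j).1
  have h3 := abs_le.1 hs
  have h4 := Real.pi_lt_four
  rw [h1, Mc]
  constructor
  · rw [← Real.exp_add]
    apply Real.one_le_exp; linarith
  · apply Real.exp_le_exp.2; linarith

lemma pj_nonneg (Q : Cheese) (j : ℕ) {z : ℂ} (hz : z ≠ 0) (hs : |Real.log ‖z‖| ≤ Real.pi) :
    0 ≤ pj Q j z := by
  have h1 := (norm_quot Q j hz hs).2
  have hγ := Q.γ_pos j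
  refine mul_nonneg hγ.le (Bar_nonneg (rj_pos _) ?_ ?_)
  · exact (rj_le hγ (γ_le_one Q j)).trans (by norm_num)
  · refine (norm_sub_le _ _).trans ?_
    rw [norm_one]; linarith

lemma wt_pos (Q : Cheese) {a : ℝ} (ha : 0 < a) (j : ℕ) : 0 < wt Q a j :=
  lt_min ha (by have := aj_pos (Q.γ_pos j) j; linarith)

lemma Xi_le (Q : Cheese) (J : Finset ℕ) {a : ℝ} (ha : 0 < a) {x : E2} (hz : x 0 ≠ 0)
    (hs : |Real.log ‖x 0‖| ≤ Real.pi) {j : ℕ} (hj : j ∈ J) :
    Xi Q J a x ≤ a * ((1 + Real.cos (Real.log ‖x 0‖)) * Bq (‖x 1‖ ^ 2) - 1 / 20)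
      - wt Q a j * pj Q j (x 0) := by
  rw [Xi]
  have := Finset.single_le_sum (f := fun j => wt Q a j * pj Q j (x 0))
    (fun i _ => mul_nonneg (wt_pos Q ha i).le (pj_nonneg Q i hz hs)) hj
  linarith

lemma Xi_le' (Q : Cheese) (J : Finset ℕ) {a : ℝ} (ha : 0 < a) {x : E2} (hz : x 0 ≠ 0)
    (hs : |Real.log ‖x 0‖| ≤ Real.pi) :
    Xi Q J a x ≤ a * ((1 + Real.cos (Real.log ‖x 0‖)) * Bq (‖x 1‖ ^ 2) - 1 / 20) := by
  rw [Xi]
  have : 0 ≤ ∑ j ∈ J, wt Q a j * pj Q j (x 0) :=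
    Finset.sum_nonneg fun i _ => mul_nonneg (wt_pos Q ha i).le (pj_nonneg Q i hz hs)
  linarith

/-- The mass is small where the bump is positive. -/
lemma mu_small (Q : Cheese) (J : Finset ℕ) {a : ℝ} (ha : 0 < a) (hJ : ∀ j ∉ J, aj (Q.γ j) j ≤ a)
    {z₀ : ℂ} (h0 : z₀ ≠ 0) {x : E2} (hg : Good z₀ x) (hs : |Real.log ‖x 0‖| ≤ Real.pi)
    (hw : ‖x 1‖ ≤ 1 / 2) (hXi : 0 < Xi Q J a x) :
    4 * Q.mu (LB z₀ (x 0)) ≤ e3 * a * Real.exp (LB z₀ (x 0)).im := by
  refine Q.mu_le _ (LB_mem h0 hg.1 (by linarith [hg.2.1])) a ha.le fun j => ?_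
  by_cases hja : aj (Q.γ j) j ≤ a
  · exact Or.inr hja
  · left
    push Not at hja
    have hjJ : j ∈ J := by
      by_contra hcon
      exact absurd (hJ j hcon) (not_le.2 hja)
    by_contra hbk
    have hr := rj_pos (Q.γ j)
    have hγ := Q.γ_pos j
    have hr8 := rj_le hγ (γ_le_one Q j)
    have h1 : ‖Complex.log (Complex.exp (LB z₀ (x 0) - Q.c j))‖ ≤ rj (Q.γ j) := by
      by_contra hcon
      push Not at hcon
      exact hbk (bk_zero hr hcon)
    have h2 : Complex.exp (LB z₀ (x 0) - Q.c j) = x 0 / zc Q j := by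
      rw [Complex.exp_sub, exp_LB h0 hg.1, zc]
    rw [h2] at h1
    have h3 := Complex.norm_exp_sub_one_le (x := Complex.log (x 0 / zc Q j)) (by linarith)
    rw [Complex.exp_log (div_ne_zero hg.1 (zc_ne Q j))] at h3
    have h4 : 2 ≤ pj Q j (x 0) := Bar_ge_two hγ (γ_le_one Q j) (by linarith)
    have h5 := Xi_le Q J ha hg.1 hs hjJ
    have hwt : wt Q a j = a := min_eq_left (by linarith)
    rw [hwt] at h5
    have hB := Bq_bounds (t := ‖x 1‖ ^ 2) (by positivity) (by nlinarith [norm_nonneg (x 1)])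
    have hc := Real.cos_le_one (Real.log ‖x 0‖)
    have h6 : (1 + Real.cos (Real.log ‖x 0‖)) * Bq (‖x 1‖ ^ 2) ≤ 2 := by
      have h7 := Real.neg_one_le_cos (Real.log ‖x 0‖)
      nlinarith
    nlinarith

lemma sum_half_le (J : Finset ℕ) : ∑ j ∈ J, e3 * (1 / 2 : ℝ) ^ j ≤ 2 * e3 := by
  have h := (hasSum_half e3).summable.sum_le_tsum J fun j _ => by
    have := e3_pos; positivity
  rw [(hasSum_half e3).tsum_eq] at h
  linarith

/-- The Laplacian of the barrier part. -/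
lemma barrier_part (Q : Cheese) (J : Finset ℕ) {a : ℝ} (ha : 0 < a) {x : E2} (hz : x 0 ≠ 0)
    (hs : |Real.log ‖x 0‖| ≤ Real.pi) {ζf : ℂ → ℂ} (hζ : HasTwo ζf 1) {v : E2} (hv : v 0 = x 0) :
    ∃ S l, HasLap (fun k : ℂ => ∑ j ∈ J, wt Q a j * (Real.exp (ζf k).im * pj Q j ((x + k • v) 0)))
      S l ∧ ‖S‖ ≤ 2 * e3 * Real.exp (ζf 0).im ∧ l ≤ a * Real.exp (ζf 0).im / 200 := by
  set E := Real.exp (ζf 0).im with hE
  have hE0 : 0 < E := Real.exp_pos _
  have hone : ∀ j, ∃ g l, HasLap (fun k : ℂ => Real.exp (ζf k).im *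
      Bar (rj (Q.γ j)) ((x + k • v) 0 / zc Q j - 1)) g l ∧
      ‖g‖ ≤ E * (Bar (rj (Q.γ j)) (x 0 / zc Q j - 1) + (1 / rj (Q.γ j) + Cc) * Mc) ∧
      l ≤ E * Csc := by
    intro j
    obtain ⟨hY1, hY2⟩ := norm_quot Q j hz hs
    have hf : HasTwo (fun k : ℂ => (x + k • v) 0 / zc Q j - 1) (x 0 / zc Q j) := by
      refine ⟨0, ?_⟩
      have : (fun h : ℂ => (x + h • v) 0 / zc Q j - 1 - ((x + (0:ℂ) • v) 0 / zc Q j - 1)
          - x 0 / zc Q j * h - 0 * h ^ 2) = fun _ => 0 := by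
        funext h
        simp [hv]
        ring
      rw [this]
      exact isLittleO_zero _ _
    have e0 : (x + (0:ℂ) • v) 0 / zc Q j - 1 = x 0 / zc Q j - 1 := by simp
    have hb : 0 ≤ Bar (rj (Q.γ j)) ((x + (0:ℂ) • v) 0 / zc Q j - 1) := by
      rw [e0]
      refine Bar_nonneg (rj_pos _) ?_ ?_
      · exact (rj_le (Q.γ_pos j) (γ_le_one Q j)).trans (by norm_num)
      · refine (norm_sub_le _ _).trans ?_
        rw [norm_one]; linarith
    obtain ⟨g, l, h1, h2, h3⟩ := exp_bar_lap (rj_pos (Q.γ j)) hf hζ hb hY1 hY2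
    rw [e0] at h2
    exact ⟨g, l, h1, h2, h3⟩
  choose g l h1 h2 h3 using hone
  refine ⟨∑ j ∈ J, ((wt Q a j * Q.γ j : ℝ) : ℂ) * g j, ∑ j ∈ J, (wt Q a j * Q.γ j) * l j, ?_, ?_, ?_⟩
  · refine (HasLap.sum J fun j _ => (h1 j).const_mul (wt Q a j * Q.γ j)).congr
      (Eventually.of_forall fun k => ?_)
    refine Finset.sum_congr rfl fun j _ => ?_
    rw [pj]; ring
  · calc ‖∑ j ∈ J, ((wt Q a j * Q.γ j : ℝ) : ℂ) * g j‖
        ≤ ∑ j ∈ J, ‖((wt Q a j * Q.γ j : ℝ) : ℂ) * g j‖ := norm_sum_le _ _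
      _ ≤ ∑ j ∈ J, (e3 * (1 / 2 : ℝ) ^ j) * E := by
          refine Finset.sum_le_sum fun j _ => ?_
          have hγ := Q.γ_pos j
          have hw := wt_pos Q ha j
          have haj := aj_pos hγ j
          have hM := Mc_pos
          have hC := Cc_pos
          have hr := rj_pos (Q.γ j)
          rw [norm_mul, Complex.norm_real, Real.norm_of_nonneg (by positivity)]
          have h4 : Q.γ j * ‖g j‖ ≤ E * Pj (Q.γ j) := by
            have h5 := Bar_le hr (x 0 / zc Q j - 1)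
            calc Q.γ j * ‖g j‖ ≤ Q.γ j * (E * (Bar (rj (Q.γ j)) (x 0 / zc Q j - 1)
                  + (1 / rj (Q.γ j) + Cc) * Mc)) := by gcongr; exact h2 j
              _ ≤ Q.γ j * (E * ((C1c - Real.log (rj (Q.γ j))) + (1 / rj (Q.γ j) + Cc) * Mc)) := by
                  gcongr
              _ = E * Pj (Q.γ j) := by rw [Pj]; ring
          have h6 : wt Q a j ≤ 2 * aj (Q.γ j) j := min_le_right _ _
          have hP := Pj_nonneg hγ
          calc wt Q a j * Q.γ j * ‖g j‖ = wt Q a j * (Q.γ j * ‖g j‖) := by ring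
            _ ≤ (2 * aj (Q.γ j) j) * (E * Pj (Q.γ j)) := by gcongr
            _ ≤ (2 * aj (Q.γ j) j) * (E * (1 + Pj (Q.γ j))) := by gcongr; linarith
            _ = (2 * aj (Q.γ j) j * (1 + Pj (Q.γ j))) * E := by ring
            _ = (e3 * (1 / 2 : ℝ) ^ j) * E := by rw [aj_Pj hγ j]
      _ = (∑ j ∈ J, e3 * (1 / 2 : ℝ) ^ j) * E := by rw [Finset.sum_mul]
      _ ≤ 2 * e3 * E := by gcongr; exact sum_half_le J
  · calc ∑ j ∈ J, (wt Q a j * Q.γ j) * l j ≤ ∑ j ∈ J, (a * E * Csc) * Q.γ j := by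
          refine Finset.sum_le_sum fun j _ => ?_
          have hγ := Q.γ_pos j
          have hw := wt_pos Q ha j
          have hCs := Csc_ge
          calc (wt Q a j * Q.γ j) * l j ≤ (wt Q a j * Q.γ j) * (E * Csc) := by
                gcongr; exact h3 j
            _ ≤ (a * Q.γ j) * (E * Csc) := by
                gcongr; exact min_le_left _ _
            _ = (a * E * Csc) * Q.γ j := by ring
      _ = (a * E * Csc) * ∑ j ∈ J, Q.γ j := by rw [Finset.mul_sum]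
      _ ≤ (a * E * Csc) * sigma := by
          have hCs := Csc_ge
          gcongr
          exact Q.γ_sum J
      _ = a * E / 200 := by
          have hCs := Csc_ge
          rw [sigma]; field_simp

end Pool.Agent.Helper303
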