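import Pool.Agent.Helper303.Slide1

set_option autoImplicit false
open Filter Topology Asymptotics Metric

namespace Pool.Agent.Helper303

lemma lap_rh_flat (Q : Cheese) {ζf wf : ℂ → ℂ} {α β : ℂ} (hζ : AnalyticAt ℂ ζf 0)
    (hw : AnalyticAt ℂ wf 0) (dζ : HasDerivAt ζf α 0) (dw : HasDerivAt wf β 0)
    (hb : ζf 0 ∈ ball (0:ℂ) 20) (hr : |(ζf 0).re| < 7) (hP : Pp (ζf 0) (wf 0) < 0) :
    HasLap (fun k => rh Q (ζf k) (wf k))
      (-2 * ((β - Complex.I * wf 0 * α) * Complex.exp (-Complex.I * ζf 0)) + 2 * Q.u (ζf 0) * α)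
      (4 * Q.mu (ζf 0) * ‖α‖ ^ 2) := by
  have tζ := hasTwo_of_hasDerivAt hζ dζ
  have h1 := ((hasTwo_v hζ hw dζ dw).re).const_mul (-2)
  have h2 := HasLap.comp_hol (u := fun x => Real.exp x.im * Q.η (Complex.exp x)) (f := ζf)
    (Q.lap (ζf 0) hb hr) tζ
  refine ((h1.add h2).cast ?_ ?_).congr ?_
  · push_cast; ring
  · ring
  · have hc : ContinuousAt (fun k => Pp (ζf k) (wf k)) 0 :=
      ContinuousAt.comp (g := fun y : ℂ × ℂ => Pp y.1 y.2) (f := fun k => (ζf k, wf k))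
        continuous_Pp.continuousAt (hζ.continuousAt.prodMk hw.continuousAt)
    filter_upwards [hc.eventually (Iio_mem_nhds hP)] with k hk
    have hk' : ‖wf k‖ ^ 2 + (ζf k).re ^ 2 / 16 - 1 ≤ 0 := le_of_lt hk
    rw [rh, fl_zero hk']
    ring

lemma lap_X {ζf wf : ℂ → ℂ} {β : ℂ} (hζ : AnalyticAt ℂ ζf 0)
    (hw : AnalyticAt ℂ wf 0) (dζ : HasDerivAt ζf 1 0) (dw : HasDerivAt wf β 0) :
    HasLap (fun k => (Real.exp (ζf k).im + (Complex.exp (-Complex.I * ζf k)).re) * Bq (‖wf k‖ ^ 2))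
      ((Real.exp (ζf 0).im + (Complex.exp (-Complex.I * ζf 0)).re : ℝ) *
          (((8 * ‖wf 0‖ ^ 2 - 5 : ℝ) : ℂ) * (2 * ((starRingEnd ℂ) (wf 0) * β)))
        + (Bq (‖wf 0‖ ^ 2) : ℝ) *
          (Real.exp (ζf 0).im * (-Complex.I) + -Complex.I * Complex.exp (-Complex.I * ζf 0)))
      ((Real.exp (ζf 0).im + (Complex.exp (-Complex.I * ζf 0)).re) *
          ((8 * ‖wf 0‖ ^ 2 - 5) * (4 * ‖β‖ ^ 2) + 8 * ‖2 * ((starRingEnd ℂ) (wf 0) * β)‖ ^ 2)
        + Bq (‖wf 0‖ ^ 2) * Real.exp (ζf 0).im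
        + 2 * ((Real.exp (ζf 0).im * (-Complex.I) + -Complex.I * Complex.exp (-Complex.I * ζf 0)) *
          (starRingEnd ℂ) (((8 * ‖wf 0‖ ^ 2 - 5 : ℝ) : ℂ) *
            (2 * ((starRingEnd ℂ) (wf 0) * β)))).re) := by
  have tζ := hasTwo_of_hasDerivAt hζ dζ
  have tw := hasTwo_of_hasDerivAt hw dw
  have hexp : HasTwo (fun k => Complex.exp (-Complex.I * ζf k))
      (-Complex.I * Complex.exp (-Complex.I * ζf 0)) := by
    refine hasTwo_of_hasDerivAt ((analyticAt_const.mul hζ).cexp) ?_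
    refine ((dζ.const_mul (-Complex.I)).cexp).congr_deriv ?_
    ring
  have hA := (hasLap_exp_im tζ).add hexp.re
  have hB := tw.normSq.comp (F := Bq) (F₁ := 8 * ‖wf 0‖ ^ 2 - 5) (F₂ := 8) (by
    have : (fun t : ℝ => Bq (‖wf 0‖ ^ 2 + t) - Bq (‖wf 0‖ ^ 2) - (8 * ‖wf 0‖ ^ 2 - 5) * t
        - 8 / 2 * t ^ 2) = fun _ => 0 := by
      funext t; rw [Bq, Bq]; ring
    rw [this]
    exact isLittleO_zero _ _)
  refine (hA.mul hB).cast ?_ ?_
  · push_cast; ring
  · push_cast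
    rw [norm_one]
    ring_nf

lemma exp_re (ζ : ℂ) : (Complex.exp (-Complex.I * ζ)).re = Real.exp ζ.im * Real.cos ζ.re := by
  rw [exp_split, Complex.re_ofReal_mul]
  congr 1
  rw [neg_mul, ← mul_neg, mul_comm Complex.I, ← Complex.ofReal_neg, Complex.exp_ofReal_mul_I_re,
    Real.cos_neg]

/-- The main computation: a tangential direction with nonnegative Laplacian. -/
theorem tangential (Q : Cheese) (J : Finset ℕ) {a : ℝ} (ha : 0 < a) (ha1 : a ≤ a1c)
    (hJ : ∀ j ∉ J, aj (Q.γ j) j ≤ a) {z₀ : ℂ} (h0 : z₀ ≠ 0) {x : E2} (hg : Good z₀ x)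
    (hs : |Real.log ‖x 0‖| < Real.pi) (hw : ‖x 1‖ < 1 / 2) (hXi : 0 < Xi Q J a x) :
    ∃ v : E2, 0 < ‖v 0‖ ∧ ∃ l, 0 ≤ l ∧ HasLap (fun k : ℂ => Rh Q J a z₀ (x + k • v)) 0 l := by
  set ζ := LB z₀ (x 0) with hζ
  have hζre : ζ.re = Real.log ‖x 0‖ := LB_re h0 hg.1
  set E := Real.exp ζ.im with hE
  have hE0 : 0 < E := Real.exp_pos _
  set ω := Complex.exp (-Complex.I * ζ) with hω
  have hωn : ‖ω‖ = E := by
    rw [hω, Complex.norm_exp, hE]; congr 1; simp
  set w := x 1 with hwdef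
  set t := ‖w‖ ^ 2 with ht
  have ht0 : 0 ≤ t := by rw [ht]; positivity
  have ht1 : t ≤ 1 / 4 := by rw [ht]; nlinarith [norm_nonneg w]
  set c := 1 + Real.cos (Real.log ‖x 0‖) with hc
  have hAc : E + ω.re = E * c := by rw [hω, exp_re, hζre, hc]; ring
  have hpi := Real.pi_lt_four
  have hζb : ζ ∈ ball (0:ℂ) 20 := LB_mem h0 hg.1 (by linarith)
  have hu : ‖Q.u ζ‖ ≤ e3 * E := Q.u_small ζ hζb
  have he3 : e3 = 1 / 10 ^ 8 := rfl
  have ha1' : a ≤ 1 / 200000 := ha1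
  have hre : |ω.re| ≤ E := by rw [← hωn]; exact Complex.abs_re_le_norm ω
  obtain ⟨hre1, hre2⟩ := abs_le.1 hre
  obtain ⟨hB0, hB1⟩ := Bq_bounds ht0 ht1
  -- the barrier part does not depend on the second component of the direction
  have hline0 := chart_line h0 hg (!₂[x 0, 0] : E2)
  have hv0 : (!₂[x 0, (0:ℂ)] : E2) 0 = x 0 := by simp
  have hζ1 : HasTwo (fun k : ℂ => LB z₀ (x 0 + k * x 0)) 1 := by
    obtain ⟨hA, hD⟩ := line_LB (b := x 0) h0 hg.1 hg.2.2
    rw [div_self hg.1] at hD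
    exact hasTwo_of_hasDerivAt hA hD
  obtain ⟨S, lS, hS1, hS2, hS3⟩ := barrier_part Q J ha hg.1 hs.le hζ1 hv0
  rw [zero_mul, add_zero, ← hζ, ← hE] at hS2 hS3
  -- the linear equation
  set den : ℂ := 2 * ω + ((4 * a * (E + ω.re) * (8 * t - 5) : ℝ) : ℂ) * (starRingEnd ℂ) w with hden
  set num : ℂ := 2 * Q.u ζ - ((4 * a * (E + ω.re) * (8 * t - 5) * t : ℝ) : ℂ) * Complex.I
    + ((2 * a * Bq t : ℝ) : ℂ) * (Complex.I * (E + ω)) - ((a / 10 * E : ℝ) : ℂ) * Complex.I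
    + 2 * S with hnum
  have hcoef : ‖((4 * a * (E + ω.re) * (8 * t - 5) : ℝ) : ℂ)‖ ≤ 40 * a * E := by
    rw [Complex.norm_real, Real.norm_eq_abs, abs_mul, abs_of_nonneg (by
      have : 0 ≤ E + ω.re := by linarith
      positivity)]
    have h1 : |8 * t - 5| ≤ 5 := by rw [abs_le]; constructor <;> linarith
    calc 4 * a * (E + ω.re) * |8 * t - 5| ≤ 4 * a * (2 * E) * 5 := by
          gcongr
          linarith
      _ = 40 * a * E := by ring
  have hden1 : E ≤ ‖den‖ := by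
    have h1 : ‖2 * ω‖ = 2 * E := by rw [norm_mul, hωn, Complex.norm_two]
    have h2 : ‖((4 * a * (E + ω.re) * (8 * t - 5) : ℝ) : ℂ) * (starRingEnd ℂ) w‖ ≤ 20 * a * E := by
      rw [norm_mul, RCLike.norm_conj]
      calc _ ≤ (40 * a * E) * (1 / 2) := by gcongr
        _ = 20 * a * E := by ring
    have h3 : ‖2 * ω‖ - ‖((4 * a * (E + ω.re) * (8 * t - 5) : ℝ) : ℂ) * (starRingEnd ℂ) w‖ ≤ ‖den‖ := by
      rw [hden]
      have := norm_sub_norm_le (2 * ω) (-(((4 * a * (E + ω.re) * (8 * t - 5) : ℝ) : ℂ) * (starRingEnd ℂ) w))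
      rw [norm_neg, sub_neg_eq_add] at this
      exact this
    have h4 : 20 * a * E ≤ E := by nlinarith
    linarith
  have hden0 : den ≠ 0 := by
    intro h; rw [h, norm_zero] at hden1; linarith
  set y : ℂ := num / den with hy
  have hyden : y * den = num := by rw [hy]; field_simp
  have hnum1 : ‖num‖ ≤ E / 10000 := by
    have n1 : ‖2 * Q.u ζ‖ ≤ 2 * (e3 * E) := by
      rw [norm_mul, Complex.norm_two]; gcongr
    have n2 : ‖((4 * a * (E + ω.re) * (8 * t - 5) * t : ℝ) : ℂ) * Complex.I‖ ≤ 10 * a * E := by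
      rw [norm_mul, Complex.norm_I, mul_one, Complex.ofReal_mul, norm_mul, Complex.norm_real t,
        Real.norm_of_nonneg ht0]
      calc _ ≤ (40 * a * E) * (1 / 4) := by gcongr
        _ = 10 * a * E := by ring
    have n3 : ‖((2 * a * Bq t : ℝ) : ℂ) * (Complex.I * (E + ω))‖ ≤ 4 * a * E := by
      rw [norm_mul, norm_mul, Complex.norm_I, one_mul, Complex.norm_real,
        Real.norm_of_nonneg (by positivity)]
      have : ‖(E : ℂ) + ω‖ ≤ 2 * E := by
        refine (norm_add_le _ _).trans ?_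
        rw [Complex.norm_real, Real.norm_of_nonneg hE0.le, hωn]; linarith
      calc 2 * a * Bq t * ‖(E : ℂ) + ω‖ ≤ 2 * a * 1 * (2 * E) := by gcongr
        _ = 4 * a * E := by ring
    have n4 : ‖((a / 10 * E : ℝ) : ℂ) * Complex.I‖ ≤ a / 10 * E := by
      rw [norm_mul, Complex.norm_I, mul_one, Complex.norm_real, Real.norm_of_nonneg (by positivity)]
    have n5 : ‖2 * S‖ ≤ 2 * (2 * e3 * E) := by
      rw [norm_mul, Complex.norm_two]; gcongr
    have n6 : ‖num‖ ≤ 2 * (e3 * E) + 10 * a * E + 4 * a * E + a / 10 * E + 2 * (2 * e3 * E) := by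
      rw [hnum]
      refine (norm_add_le _ _).trans (add_le_add ?_ n5)
      refine (norm_sub_le _ _).trans (add_le_add ?_ n4)
      refine (norm_add_le _ _).trans (add_le_add ?_ n3)
      exact (norm_sub_le _ _).trans (add_le_add n1 n2)
    have n7 : a * E ≤ 1 / 200000 * E := by gcongr
    rw [he3] at n6
    nlinarith
  have hy1 : ‖y‖ ≤ 1 / 10000 := by
    rw [hy, norm_div, div_le_iff₀ (lt_of_lt_of_le hE0 hden1)]
    calc ‖num‖ ≤ 1 / 10000 * E := by linarith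
      _ ≤ 1 / 10000 * ‖den‖ := by gcongr
  -- the direction
  set β : ℂ := Complex.I * w + y with hβ
  set v : E2 := !₂[x 0, β] with hv
  have hvv0 : v 0 = x 0 := by simp [hv]
  have hvv1 : v 1 = β := by simp [hv]
  obtain ⟨hA, hD, hA', hD'⟩ := chart_line h0 hg v
  rw [hvv0, div_self hg.1] at hD
  rw [hvv1] at hD'
  have e0 : ((x + (0:ℂ) • v : E2)) = x := by simp
  have hPneg : Pp ζ w < 0 := by
    rw [Pp, hζre]
    have h1 : (Real.log ‖x 0‖) ^ 2 < Real.pi ^ 2 := sq_lt_sq' (by linarith [(abs_lt.1 hs).1]) (abs_lt.1 hs).2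
    have h2 : Real.pi ^ 2 < 10 := by nlinarith [Real.pi_lt_d2, Real.pi_gt_three]
    nlinarith [norm_nonneg w]
  have hF := lap_rh_flat Q hA hA' hD hD' (by simp only [e0]; exact hζb)
    (by simp only [e0]; rw [← hζ, hζre]; linarith) (by simp only [e0]; exact hPneg)
  have hX := lap_X hA hA' hD hD'
  have tζ := hasTwo_of_hasDerivAt hA hD
  obtain ⟨S', lS', hS1', hS2', hS3'⟩ := barrier_part Q J ha hg.1 hs.le tζ hvv0
  have hEl := hasLap_exp_im tζ
  simp only [e0] at hF hX hEl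
  rw [← hζ, ← hω, ← hwdef] at hF
  rw [← hζ, ← hω, ← hwdef, ← hE, ← ht] at hX
  rw [← hζ, ← hE, norm_one] at hEl
  -- use the barrier expansion already computed
  have hbar : HasLap (fun k : ℂ => ∑ j ∈ J, wt Q a j *
      (Real.exp (LB z₀ ((x + k • v) 0)).im * pj Q j ((x + k • v) 0))) S lS := by
    refine hS1.congr (Eventually.of_forall fun k => ?_)
    have e1 : (x + k • v) 0 = x 0 + k * x 0 := by simp [hvv0]
    have e2 : (x + k • (!₂[x 0, (0:ℂ)] : E2)) 0 = x 0 + k * x 0 := by simp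
    rw [e1, e2]
  have htot := hF.neg.add ((((hX.sub (hEl.const_mul (1 / 20))).const_mul a).sub hbar).const_mul 2)
  refine ⟨v, by rw [hvv0]; exact norm_pos_iff.2 hg.1, _, ?_, (htot.cast ?_ rfl).congr ?_⟩
  · -- nonnegativity
    have hmu := mu_small Q J ha hJ h0 hg hs.le hw.le hXi
    rw [← hζ, ← hE] at hmu
    have hXi2 := hXi.trans_le (Xi_le' Q J ha hg.1 hs.le)
    rw [← hc, ← hwdef, ← ht] at hXi2
    have hcB : c * Bq t > 1 / 20 := by
      have := pos_of_mul_pos_right hXi2 ha.le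
      linarith
    have hmain := main_pos ht0 ht1 hcB
    have halg := lap_alg (y := y) hE0 hωn ht hw.le
    rw [← hβ, hAc] at halg
    rw [hAc]
    rw [norm_one, one_pow, mul_one, mul_one]
    set LX := (E * c) * ((8 * t - 5) * (4 * ‖β‖ ^ 2) + 8 * ‖2 * ((starRingEnd ℂ) w * β)‖ ^ 2)
      + Bq t * E + 2 * (((E : ℂ) * (-Complex.I) + -Complex.I * ω) *
        (starRingEnd ℂ) (((8 * t - 5 : ℝ) : ℂ) * (2 * ((starRingEnd ℂ) w * β)))).re with hLX
    have hyy : 60 * ‖y‖ + 40 * ‖y‖ ^ 2 ≤ 61 / 10000 := by nlinarith [norm_nonneg y]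
    have k1 : E * (1 / 10 - 61 / 10000) ≤ LX := by
      have k2 : E * (1 / 10) ≤ E * (Bq t + 32 * t ^ 2 * c) := by gcongr
      have k3 : E * (60 * ‖y‖ + 40 * ‖y‖ ^ 2) ≤ E * (61 / 10000) := by gcongr
      have k4 : E * Bq t + E * c * (32 * t ^ 2) = E * (Bq t + 32 * t ^ 2 * c) := by ring
      linarith
    have k5 : a * (E * (1 / 10 - 61 / 10000)) ≤ a * LX := by gcongr
    have haE : 0 < a * E := by positivity
    rw [he3] at hmu
    nlinarith
  · -- the gradient vanishes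
    have key : y * den - num = 0 := by rw [hyden]; ring
    rw [hden, hnum] at key
    have hwt : (starRingEnd ℂ) w * w = (t : ℂ) := by
      rw [mul_comm, Complex.mul_conj, Complex.normSq_eq_norm_sq, ht]
    have hI : Complex.I * Complex.I = -1 := Complex.I_mul_I
    push_cast at key ⊢
    rw [hβ]
    linear_combination key + 4 * (a:ℂ) * (E + ω.re) * (8 * (t:ℂ) - 5) * Complex.I * hwt
  · filter_upwards [near_zero (v := v) (log_norm_near hg.1 hg.2.1)] with k hk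
    have hre' : (LB z₀ ((x + k • v) 0)).re = Real.log ‖(x + k • v) 0‖ := LB_re h0 hk.1
    have hsum : ∑ j ∈ J, wt Q a j * (Real.exp (LB z₀ ((x + k • v) 0)).im * pj Q j ((x + k • v) 0))
        = Real.exp (LB z₀ ((x + k • v) 0)).im * ∑ j ∈ J, wt Q a j * pj Q j ((x + k • v) 0) := by
      rw [Finset.mul_sum]
      refine Finset.sum_congr rfl fun j _ => by ring
    rw [Rh, Xi, hsum, exp_re, hre']
    simp only [ch]
    ring

end Pool.Agent.Helper303
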