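import Pool.Agent.Helper303.Slide2

set_option autoImplicit false
open Filter Topology Asymptotics Metric

namespace Pool.Agent.Helper303

lemma VSub.touch {u q : ℂ → ℝ} {g : ℂ} {l : ℝ} (hu : VSub u) (hq : HasLap q g l)
    (h : ∀ᶠ k in 𝓝 0, u k ≤ u 0 + q k - q 0) : 0 ≤ l := by
  obtain ⟨c, hc⟩ := hq
  refine le_of_forall_pos_le_add fun δ hδ => ?_
  have h1 := hc.bound (show (0:ℝ) < δ / 4 by positivity)
  have h2 := hu g c (l / 4 + δ / 4) (by
    filter_upwards [h, h1] with k hk1 hk2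
    rw [Real.norm_of_nonneg (sq_nonneg ‖k‖)] at hk2
    have h3 := (abs_le.1 hk2).2
    linarith)
  linarith

lemma continuous_Bar {r : ℝ} (hr : 0 < r) : Continuous (Bar r) := by
  unfold Bar
  have h1 : Continuous fun y : ℂ => ‖y‖ ^ 2 + r ^ 2 := by fun_prop
  have h2 : Continuous fun y : ℂ => Real.log (‖y‖ ^ 2 + r ^ 2) :=
    h1.log fun y => by positivity
  exact (continuous_const.sub (h2.div_const 2)).sub (continuous_const.mul h1.sqrt)

lemma continuous_pj (Q : Cheese) (j : ℕ) : Continuous (pj Q j) :=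
  continuous_const.mul ((continuous_Bar (rj_pos _)).comp (by fun_prop))

lemma continuousAt_Xi (Q : Cheese) (J : Finset ℕ) (a : ℝ) {x : E2} (hx : x 0 ≠ 0) :
    ContinuousAt (fun p : ℝ × E2 => Xi Q J p.1 p.2) (a, x) := by
  unfold Xi
  have hp : ∀ i : Fin 2, Continuous fun p : ℝ × E2 => p.2 i := fun i => by fun_prop
  have hlog : ContinuousAt (fun p : ℝ × E2 => Real.log ‖p.2 0‖) (a, x) :=
    ((hp 0).continuousAt.norm).log (norm_ne_zero_iff.2 hx)
  have hcos : ContinuousAt (fun p : ℝ × E2 => Real.cos (Real.log ‖p.2 0‖)) (a, x) :=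
    ContinuousAt.comp (g := Real.cos) Real.continuous_cos.continuousAt hlog
  have hBq : Continuous fun p : ℝ × E2 => Bq (‖p.2 1‖ ^ 2) := by
    unfold Bq
    have := (hp 1).norm
    fun_prop
  have hsum : Continuous fun p : ℝ × E2 => ∑ j ∈ J, wt Q p.1 j * pj Q j (p.2 0) := by
    refine continuous_finsetSum J fun j _ => ?_
    have h1 : Continuous fun p : ℝ × E2 => wt Q p.1 j := by
      unfold wt
      exact continuous_fst.min continuous_const
    exact h1.mul ((continuous_pj Q j).comp (hp 0))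
  exact ((continuous_fst.continuousAt).mul
    (((continuousAt_const.add hcos).mul hBq.continuousAt).sub continuousAt_const)).sub
    hsum.continuousAt

lemma continuousAt_Xi' (Q : Cheese) (J : Finset ℕ) (a : ℝ) {x : E2} (hx : x 0 ≠ 0) :
    ContinuousAt (Xi Q J a) x :=
  ContinuousAt.comp (g := fun p : ℝ × E2 => Xi Q J p.1 p.2) (f := fun y : E2 => (a, y))
    (continuousAt_Xi Q J a hx) (by fun_prop)

/-- The compact piece containing the bumps. -/
def Kpi : Set E2 := {x | Real.exp (-Real.pi) ≤ ‖x 0‖ ∧ ‖x 0‖ ≤ Real.exp Real.pi ∧ ‖x 1‖ ≤ 1 / 2}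

lemma mem_Kpi {x : E2} : x ∈ Kpi ↔
    Real.exp (-Real.pi) ≤ ‖x 0‖ ∧ ‖x 0‖ ≤ Real.exp Real.pi ∧ ‖x 1‖ ≤ 1 / 2 := Iff.rfl

lemma Kpi_log {x : E2} (hx : x ∈ Kpi) : x 0 ≠ 0 ∧ |Real.log ‖x 0‖| ≤ Real.pi := by
  have hn : 0 < ‖x 0‖ := lt_of_lt_of_le (Real.exp_pos _) hx.1
  refine ⟨norm_pos_iff.1 hn, ?_⟩
  rw [abs_le]
  constructor
  · rw [Real.le_log_iff_exp_le hn]; exact hx.1
  · rw [Real.log_le_iff_le_exp hn]; exact hx.2.1

lemma log_Kpi {x : E2} (h0 : x 0 ≠ 0) (hs : |Real.log ‖x 0‖| ≤ Real.pi) (hw : ‖x 1‖ ≤ 1 / 2) :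
    x ∈ Kpi := by
  have hn : 0 < ‖x 0‖ := norm_pos_iff.2 h0
  obtain ⟨h1, h2⟩ := abs_le.1 hs
  refine ⟨?_, ?_, hw⟩
  · rw [← Real.le_log_iff_exp_le hn]; exact h1
  · rw [← Real.log_le_iff_le_exp hn]; exact h2

lemma isCompact_Kpi : IsCompact Kpi := by
  refine Metric.isCompact_of_isClosed_isBounded ?_ ?_
  · have h0 : Continuous fun x : E2 => ‖x 0‖ := by fun_prop
    have h1 : Continuous fun x : E2 => ‖x 1‖ := by fun_prop
    exact (isClosed_le continuous_const h0).inter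
      ((isClosed_le h0 continuous_const).inter (isClosed_le h1 continuous_const))
  · refine (isBounded_iff_forall_norm_le).2 ⟨Real.exp Real.pi + 1, fun x hx => ?_⟩
    obtain ⟨h1, h2, h3⟩ := mem_Kpi.1 hx
    rw [EuclideanSpace.norm_eq, Fin.sum_univ_two]
    apply Real.sqrt_le_iff.2
    refine ⟨by positivity, ?_⟩
    nlinarith [norm_nonneg (x 0), norm_nonneg (x 1), Real.exp_pos Real.pi]

/-- The bumped closed domain. -/
def Ca (Q : Cheese) (J : Finset ℕ) (a : ℝ) : Set E2 :=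
  closure (Om Q) ∪ {x | x ∈ Kpi ∧ 0 ≤ Xi Q J a x ∧ rho Q x ≤ 2 * Xi Q J a x}

lemma mem_Ca {Q : Cheese} {J : Finset ℕ} {a : ℝ} {x : E2} : x ∈ Ca Q J a ↔
    x ∈ closure (Om Q) ∨ (x ∈ Kpi ∧ 0 ≤ Xi Q J a x ∧ rho Q x ≤ 2 * Xi Q J a x) := Iff.rfl

lemma isCompact_Ca (Q : Cheese) (J : Finset ℕ) (a : ℝ) : IsCompact (Ca Q J a) := by
  refine (isCompact_closure_Om Q).union ?_
  have h1 : ContinuousOn (fun x => (Xi Q J a x, 2 * Xi Q J a x - rho Q x)) Kpi := fun x hx => by
    have h2 := continuousAt_Xi' Q J a (Kpi_log hx).1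
    exact (h2.prodMk ((continuousAt_const.mul h2).sub (continuous_rho Q).continuousAt)).continuousWithinAt
  have h3 := h1.preimage_isClosed_of_isClosed isCompact_Kpi.isClosed
    (isClosed_Ici.prod isClosed_Ici : IsClosed (Set.Ici (0:ℝ) ×ˢ Set.Ici (0:ℝ)))
  have h4 : {x | x ∈ Kpi ∧ 0 ≤ Xi Q J a x ∧ rho Q x ≤ 2 * Xi Q J a x}
      = Kpi ∩ (fun x => (Xi Q J a x, 2 * Xi Q J a x - rho Q x)) ⁻¹' (Set.Ici 0 ×ˢ Set.Ici 0) := by
    ext x
    simp only [Set.mem_ofPred_eq, Set.mem_inter_iff, Set.mem_preimage, Set.mem_prod, Set.mem_Ici,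
      sub_nonneg]
  rw [h4]
  exact isCompact_Kpi.of_isClosed_subset h3 Set.inter_subset_left

/-- Strictness at points of positive bump. -/
lemma strict_of_pos (Q : Cheese) (J : Finset ℕ) {a : ℝ} (ha : 0 < a) {x : E2} (hx : x ∈ Kpi)
    (h : 0 < Xi Q J a x) : |Real.log ‖x 0‖| < Real.pi ∧ ‖x 1‖ < 1 / 2 := by
  obtain ⟨h0, hs⟩ := Kpi_log hx
  have h1 := h.trans_le (Xi_le' Q J ha h0 hs)
  have h2 := pos_of_mul_pos_right h1 ha.le
  constructor
  · refine lt_of_le_of_ne hs fun heq => ?_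
    have h3 : Real.cos (Real.log ‖x 0‖) = -1 := by
      rw [← Real.cos_abs, heq, Real.cos_pi]
    rw [h3] at h2
    norm_num at h2
  · refine lt_of_le_of_ne hx.2.2 fun heq => ?_
    rw [heq, Bq] at h2
    norm_num at h2

noncomputable def nsq (x : E2) : ℝ := ‖x 0‖ ^ 2 + ‖x 1‖ ^ 2

lemma continuous_nsq : Continuous nsq := by unfold nsq; fun_prop

lemma nsq_nonneg (x : E2) : 0 ≤ nsq x := by unfold nsq; positivity

lemma nsq_pos {x : E2} (hx : x ≠ 0) : 0 < nsq x := by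
  rcases (nsq_nonneg x).lt_or_eq with h | h
  · exact h
  · exfalso
    apply hx
    unfold nsq at h
    have h0 : ‖x 0‖ ^ 2 = 0 := by nlinarith [sq_nonneg ‖x 0‖, sq_nonneg ‖x 1‖]
    have h1 : ‖x 1‖ ^ 2 = 0 := by nlinarith [sq_nonneg ‖x 0‖, sq_nonneg ‖x 1‖]
    ext i
    fin_cases i
    · exact norm_eq_zero.1 (pow_eq_zero_iff (by norm_num) |>.1 h0)
    · exact norm_eq_zero.1 (pow_eq_zero_iff (by norm_num) |>.1 h1)

lemma lap_nsq (a b v : E2) :
    ∃ g, HasLap (fun k : ℂ => nsq (a + k • v - b)) g (4 * (‖v 0‖ ^ 2 + ‖v 1‖ ^ 2)) := by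
  have h : ∀ i : Fin 2, HasTwo (fun k : ℂ => (a + k • v - b) i) (v i) := fun i => by
    refine ⟨0, ?_⟩
    have : (fun h : ℂ => (a + h • v - b) i - (a + (0:ℂ) • v - b) i - v i * h - 0 * h ^ 2)
        = fun _ => 0 := by
      funext h
      simp
      ring
    rw [this]
    exact isLittleO_zero _ _
  have h1 := (h 0).normSq.add (h 1).normSq
  exact ⟨_, h1.cast rfl (by ring)⟩

theorem no_max (Q : Cheese) (J : Finset ℕ) {a : ℝ} (ha : 0 < a) (ha1 : a ≤ a1c)
    (hJ : ∀ j ∉ J, aj (Q.γ j) j ≤ a) {V : Set E2} (hV : IsOpen V) {ψ : E2 → ℝ} (hψ : PSH V ψ)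
    (hCV : Ca Q J a ⊆ V) {ε : ℝ} (hε : 0 < ε) {p : E2} (hp : p ∈ Ca Q J a)
    (hp2 : p ∉ closure (Om Q)) (hmax : ∀ x ∈ Ca Q J a, ψ x + ε * nsq x ≤ ψ p + ε * nsq p) :
    False := by
  obtain ⟨hpK, hpX, hpr⟩ : p ∈ Kpi ∧ 0 ≤ Xi Q J a p ∧ rho Q p ≤ 2 * Xi Q J a p := by
    rcases mem_Ca.1 hp with h | h
    · exact absurd h hp2
    · exact h
  have hρp : 0 < rho Q p := by
    rw [closure_Om, mem_le] at hp2
    exact not_le.1 hp2
  have hXp : 0 < Xi Q J a p := by linarith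
  obtain ⟨hs, hw⟩ := strict_of_pos Q J ha hpK hXp
  obtain ⟨hz, -⟩ := Kpi_log hpK
  have hpi := Real.pi_lt_four
  have hs6 : |Real.log ‖p 0‖| < 6 := by linarith
  set z₀ := p 0 with hz₀
  have hgp : Good z₀ p := (good_near hz hs6).self_of_nhds
  have e1 : ∀ᶠ x in 𝓝 p, Good z₀ x := good_near hz hs6
  have e2 : ∀ᶠ x : E2 in 𝓝 p, x 0 ≠ 0 ∧ |Real.log ‖x 0‖| < Real.pi := log_norm_near hz hs
  have e3' : ∀ᶠ x : E2 in 𝓝 p, ‖x 1‖ < 1 / 2 := by
    have : Continuous fun x : E2 => ‖x 1‖ := by fun_prop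
    exact this.continuousAt.eventually (Iio_mem_nhds hw)
  have e4 : ∀ᶠ x in 𝓝 p, 0 < Xi Q J a x :=
    (continuousAt_Xi' Q J a hz).eventually (Ioi_mem_nhds hXp)
  have e5 : ∀ᶠ x in 𝓝 p, x ∈ V := hV.mem_nhds (hCV hp)
  obtain ⟨r₀, hr₀, H₀⟩ := Metric.nhds_basis_closedBall.eventually_iff.1
    (e1.and (e2.and (e3'.and (e4.and e5))))
  have HG : ∀ x ∈ closedBall p r₀, Good z₀ x := fun x hx => (H₀ hx).1
  have Hs : ∀ x ∈ closedBall p r₀, |Real.log ‖x 0‖| < Real.pi := fun x hx => (H₀ hx).2.1.2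
  have Hw : ∀ x ∈ closedBall p r₀, ‖x 1‖ < 1 / 2 := fun x hx => (H₀ hx).2.2.1
  have HX : ∀ x ∈ closedBall p r₀, 0 < Xi Q J a x := fun x hx => (H₀ hx).2.2.2.1
  have HV : ∀ x ∈ closedBall p r₀, x ∈ V := fun x hx => (H₀ hx).2.2.2.2
  set R : E2 → ℝ := Rh Q J a z₀ with hR
  have hRval : ∀ x ∈ closedBall p r₀,
      R x = Real.exp (LB z₀ (x 0)).im * (2 * Xi Q J a x - rho Q x) := by
    intro x hx
    rw [hR, Rh, rh_chart Q hz (HG x hx)]; ring
  have hRC : ∀ x ∈ closedBall p r₀, 0 ≤ R x → x ∈ Ca Q J a := by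
    intro x hx h
    rw [hRval x hx] at h
    have h1 := nonneg_of_mul_nonneg_right h (Real.exp_pos _)
    exact mem_Ca.2 (Or.inr ⟨log_Kpi (HG x hx).1 (Hs x hx).le (Hw x hx).le, (HX x hx).le, by linarith⟩)
  have hRcont : ∀ x ∈ closedBall p r₀, ContinuousAt R x := by
    intro x hx
    have hcx := ch_continuousAt hz (HG x hx)
    have h1 : ContinuousAt (fun x => rh Q (ch z₀ x).1 (ch z₀ x).2) x :=
      ContinuousAt.comp (g := fun y : ℂ × ℂ => rh Q y.1 y.2) (continuous_rh Q).continuousAt hcx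
    have h2 : ContinuousAt (fun x : E2 => Real.exp (LB z₀ (x 0)).im) x :=
      ContinuousAt.comp (g := fun y : ℂ × ℂ => Real.exp y.1.im)
        (Real.continuous_exp.comp (Complex.continuous_im.comp continuous_fst)).continuousAt hcx
    exact h1.neg.add (continuousAt_const.mul (h2.mul (continuousAt_Xi' Q J a (HG x hx).1)))
  have hψc : ContinuousOn ψ (closedBall p r₀) := hψ.1.mono fun x hx => HV x hx
  set g : E2 → ℝ := fun x => ψ x + ε * nsq x - ε / 2 * nsq (x - p) with hg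
  set r : E2 → ℝ := fun x => (min (R x) 0) ^ 2 with hr
  have hgc : ContinuousOn g (closedBall p r₀) := by
    refine (hψc.add ?_).sub ?_
    · exact (continuous_const.mul continuous_nsq).continuousOn
    · exact (continuous_const.mul (continuous_nsq.comp (by fun_prop))).continuousOn
  have hrc : ContinuousOn r (closedBall p r₀) := fun x hx => by
    have h1 : ContinuousAt (fun x => (min (R x) 0) ^ 2) x :=
      ((hRcont x hx).min continuousAt_const).pow 2
    exact h1.continuousWithinAt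
  have hnp : nsq (p - p) = 0 := by unfold nsq; simp
  have hgp0 : g p = ψ p + ε * nsq p := by simp only [hg]; rw [hnp]; ring
  have hRp : 0 ≤ R p := by
    rw [hRval p (mem_closedBall_self hr₀.le)]
    have := Real.exp_pos (LB z₀ (p 0)).im
    apply mul_nonneg this.le; linarith
  obtain ⟨M₀, hM₀, hpen⟩ := exists_penalty (isCompact_sphere p r₀) (g := g) (r := r) (c := g p)
    (hgc.mono sphere_subset_closedBall) (hrc.mono sphere_subset_closedBall)
    (fun x _ => sq_nonneg _) (fun x hx h => by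
      have hxc := sphere_subset_closedBall hx
      have h1 : min (R x) 0 = 0 := pow_eq_zero_iff (by norm_num) |>.1 h
      have h2 : 0 ≤ R x := by
        by_contra hcon
        push Not at hcon
        rw [min_eq_left hcon.le] at h1
        linarith
      have h3 := hmax x (hRC x hxc h2)
      have hne : x - p ≠ 0 := by
        intro h4
        rw [sub_eq_zero] at h4
        rw [h4] at hx
        simp at hx
        linarith
      have h5 := nsq_pos hne
      rw [hgp0]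
      simp only [hg]
      have : 0 < ε / 2 * nsq (x - p) := by positivity
      linarith)
  set G : E2 → ℝ := fun x => g x - M₀ * r x with hG
  obtain ⟨q, hq, hqmax⟩ := (isCompact_closedBall p r₀).exists_isMaxOn
    ⟨p, mem_closedBall_self hr₀.le⟩ (hgc.sub (continuousOn_const.mul hrc) : ContinuousOn G _)
  have hrp : r p = 0 := by simp only [hr]; rw [min_eq_right hRp]; norm_num
  have hGq : g p ≤ G q := by
    have h1 : G p ≤ G q := hqmax (mem_closedBall_self hr₀.le)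
    simp only [hG] at h1 ⊢
    rw [hrp] at h1
    linarith
  have hqb : q ∈ ball p r₀ := by
    rcases (mem_closedBall.1 hq).lt_or_eq with h | h
    · exact mem_ball.2 h
    · have h1 := hpen M₀ le_rfl q (mem_sphere.2 h)
      simp only [hG] at hGq
      linarith
  -- tangential direction at `q`
  obtain ⟨v, hv, l, hl0, hl⟩ := tangential Q J ha ha1 hJ hz (HG q hq) (Hs q hq) (Hw q hq) (HX q hq)
  have hVP := vp_of_psh hV hψ q (HV q hq) v
  obtain ⟨g1, hn1⟩ := lap_nsq q 0 v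
  obtain ⟨g2, hn2⟩ := lap_nsq q p v
  have hnv : 0 < ‖v 0‖ ^ 2 + ‖v 1‖ ^ 2 := by
    have : 0 < ‖v 0‖ ^ 2 := by positivity
    linarith [sq_nonneg ‖v 1‖]
  set nv := ‖v 0‖ ^ 2 + ‖v 1‖ ^ 2 with hnvdef
  have hq0 : q + (0:ℂ) • v = q := by simp
  have hball : ∀ᶠ k : ℂ in 𝓝 0, q + k • v ∈ closedBall p r₀ :=
    near_zero (v := v) (p := fun y => y ∈ closedBall p r₀)
      (Filter.mem_of_superset (isOpen_ball.mem_nhds hqb) ball_subset_closedBall)
  have hstep : ∀ᶠ k : ℂ in 𝓝 0, ψ (q + k • v) ≤ ψ q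
      + (-ε * nsq (q + k • v) + ε / 2 * nsq (q + k • v - p) + M₀ * r (q + k • v))
      - (-ε * nsq q + ε / 2 * nsq (q - p) + M₀ * r q) := by
    filter_upwards [hball] with k hk
    have h1 : G (q + k • v) ≤ G q := hqmax hk
    simp only [hG, hg] at h1
    linarith
  rcases lt_or_ge 0 (R q) with hRq | hRq
  · have h1 : ∀ᶠ k : ℂ in 𝓝 0, 0 < R (q + k • v) :=
      near_zero (v := v) ((hRcont q hq).eventually (Ioi_mem_nhds hRq))
    have hlap := ((hn1.const_mul (-ε)).add (hn2.const_mul (ε / 2)))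
    have h2 := hVP.touch hlap (by
      filter_upwards [hstep, h1] with k hk1 hk2
      have h3 : r (q + k • v) = 0 := by simp only [hr]; rw [min_eq_right hk2.le]; norm_num
      have h4 : r q = 0 := by simp only [hr]; rw [min_eq_right hRq.le]; norm_num
      rw [h3, h4] at hk1
      simp only [hq0, sub_zero]
      linarith)
    have : 0 < ε * nv := by positivity
    linarith
  · have hRl : HasLap (fun k : ℂ => R (q + k • v) * R (q + k • v)) 0
        (R q * l + R q * l) := by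
      have := hl.mul hl
      simp only [hq0] at this
      exact this.cast (by rw [mul_zero, add_zero]) (by rw [zero_mul, Complex.zero_re, mul_zero, add_zero])
    have hlap := ((hn1.const_mul (-ε)).add (hn2.const_mul (ε / 2))).add (hRl.const_mul M₀)
    have h2 := hVP.touch hlap (by
      filter_upwards [hstep] with k hk1
      have h3 : r (q + k • v) ≤ R (q + k • v) * R (q + k • v) := by
        simp only [hr]
        rcases min_cases (R (q + k • v)) 0 with ⟨h, -⟩ | ⟨h, -⟩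
        · rw [h, pow_two]
        · rw [h]; simpa using mul_self_nonneg _
      have h4 : r q = R q * R q := by simp only [hr]; rw [min_eq_left hRq, pow_two]
      have h5 : M₀ * r (q + k • v) ≤ M₀ * (R (q + k • v) * R (q + k • v)) :=
        mul_le_mul_of_nonneg_left h3 hM₀
      rw [h4] at hk1
      simp only [hq0, sub_zero]
      linarith)
    have h6 : 0 < ε * nv := by positivity
    have h7 : R q * l ≤ 0 := mul_nonpos_of_nonpos_of_nonneg hRq hl0
    have h8 : M₀ * (R q * l + R q * l) ≤ 0 :=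
      mul_nonpos_of_nonneg_of_nonpos hM₀ (by linarith)
    linarith

theorem max_principle_Ca (Q : Cheese) (J : Finset ℕ) {a : ℝ} (ha : 0 < a) (ha1 : a ≤ a1c)
    (hJ : ∀ j ∉ J, aj (Q.γ j) j ≤ a) {V : Set E2} (hV : IsOpen V) {ψ : E2 → ℝ} (hψ : PSH V ψ)
    (hCV : Ca Q J a ⊆ V) {B₀ : ℝ} (hB : ∀ x ∈ closure (Om Q), ψ x ≤ B₀) :
    ∀ x ∈ Ca Q J a, ψ x ≤ B₀ := by
  intro x hx
  have hC := isCompact_Ca Q J a
  obtain ⟨m, hm, hmmax⟩ := hC.exists_isMaxOn ⟨x, hx⟩ continuous_nsq.continuousOn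
  set Rm := nsq m with hRm
  have hRm0 : 0 ≤ Rm := nsq_nonneg m
  refine le_of_forall_pos_le_add fun δ hδ => ?_
  set ε := δ / (Rm + 1) with hε
  have hε0 : 0 < ε := by positivity
  obtain ⟨p, hp, hpmax⟩ := hC.exists_isMaxOn ⟨x, hx⟩
    ((hψ.1.mono hCV).add (continuous_const.mul continuous_nsq).continuousOn :
      ContinuousOn (fun x => ψ x + ε * nsq x) (Ca Q J a))
  have hpcl : p ∈ closure (Om Q) := by
    by_contra hcon
    exact no_max Q J ha ha1 hJ hV hψ hCV hε0 hp hcon fun y hy => hpmax hy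
  have h1 : ψ x + ε * nsq x ≤ ψ p + ε * nsq p := hpmax hx
  have h2 : nsq p ≤ Rm := hmmax hp
  have h3 : ε * nsq p ≤ δ := by
    calc ε * nsq p ≤ ε * (Rm + 1) := by gcongr; linarith
      _ = δ := by rw [hε]; field_simp
  have h4 := hB p hpcl
  have h5 : 0 ≤ ε * nsq x := mul_nonneg hε0.le (nsq_nonneg x)
  linarith

end Pool.Agent.Helper303
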