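import Pool.Agent.Helper303.Slide3
import Pool.Agent.Helper303.HullB0

set_option autoImplicit false
open Filter Topology Asymptotics Metric

namespace Pool.Agent.Helper303

lemma rho_flat (Q : Cheese) {x : E2} (hx : x ∈ Kpi) :
    rho Q x = -2 * (x 1 * Complex.exp (-Complex.I * (Real.log ‖x 0‖ : ℝ))).re + Q.η (x 0) := by
  obtain ⟨h0, hs⟩ := Kpi_log hx
  have hpi := Real.pi_lt_four
  rw [rho_eq Q h0 (by linarith), Fd]
  have h1 : (Real.log ‖x 0‖) ^ 2 ≤ Real.pi ^ 2 := sq_le_sq' (abs_le.1 hs).1 (abs_le.1 hs).2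
  have h2 : Real.pi ^ 2 < 10 := by nlinarith [Real.pi_lt_d2, Real.pi_gt_three]
  have h3 : ‖x 1‖ ≤ 1 / 2 := hx.2.2
  rw [fl_zero (by nlinarith [norm_nonneg (x 1)])]
  ring

/-- Pushing a boundary point of the bumped domain inwards. -/
lemma push_in (Q : Cheese) (J : Finset ℕ) {a : ℝ} (ha : 0 < a) (ha1 : a ≤ a1c) {x : E2}
    (hx : x ∈ Kpi) (hX : 0 < Xi Q J a x) (hr : rho Q x ≤ 2 * Xi Q J a x) :
    ∃ e : E2, ∀ᶠ t : ℝ in 𝓝[>] 0, x + t • e ∈ Kpi ∧ 0 < Xi Q J a (x + t • e) ∧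
      rho Q (x + t • e) < 2 * Xi Q J a (x + t • e) := by
  obtain ⟨hs, hw⟩ := strict_of_pos Q J ha hx hX
  obtain ⟨h0, hs'⟩ := Kpi_log hx
  set s := Real.log ‖x 0‖ with hsdef
  set ω : ℂ := Complex.exp (Complex.I * s) with hω
  have hωn : ‖ω‖ = 1 := by rw [hω, mul_comm, Complex.norm_exp_ofReal_mul_I]
  refine ⟨!₂[0, ω], ?_⟩
  have e0 : ∀ t : ℝ, (x + t • (!₂[0, ω] : E2)) 0 = x 0 := fun t => by simp
  have e1 : ∀ t : ℝ, (x + t • (!₂[0, ω] : E2)) 1 = x 1 + t * ω := fun t => by simp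
  have hc : Continuous fun t : ℝ => x + t • (!₂[0, ω] : E2) := by fun_prop
  have hc0 : Tendsto (fun t : ℝ => x + t • (!₂[0, ω] : E2)) (𝓝[>] 0) (𝓝 x) := by
    have h1 := hc.tendsto 0
    rw [zero_smul, add_zero] at h1
    exact h1.mono_left nhdsWithin_le_nhds
  have k1 : ∀ᶠ t : ℝ in 𝓝[>] 0, ‖(x + t • (!₂[0, ω] : E2)) 1‖ < 1 / 2 := by
    have : Continuous fun y : E2 => ‖y 1‖ := by fun_prop
    exact hc0.eventually (this.continuousAt.eventually (Iio_mem_nhds hw))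
  have k2 : ∀ᶠ t : ℝ in 𝓝[>] 0, 0 < Xi Q J a (x + t • (!₂[0, ω] : E2)) :=
    hc0.eventually ((continuousAt_Xi' Q J a h0).eventually (Ioi_mem_nhds hX))
  filter_upwards [k1, k2, self_mem_nhdsWithin] with t ht1 ht2 ht3
  have ht0 : 0 < t := ht3
  have hK : x + t • (!₂[0, ω] : E2) ∈ Kpi :=
    log_Kpi (by rw [e0]; exact h0) (by rw [e0]; exact hs') ht1.le
  refine ⟨hK, ht2, ?_⟩
  rw [rho_flat Q hK, e0, e1, ← hsdef]
  have hr1 := rho_flat Q hx
  rw [← hsdef] at hr1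
  have hωω : ω * Complex.exp (-Complex.I * s) = 1 := by
    rw [hω, ← Complex.exp_add]; simp
  have hre : ((x 1 + t * ω) * Complex.exp (-Complex.I * s)).re
      = (x 1 * Complex.exp (-Complex.I * s)).re + t := by
    have : (x 1 + t * ω) * Complex.exp (-Complex.I * s)
        = x 1 * Complex.exp (-Complex.I * s) + t * (ω * Complex.exp (-Complex.I * s)) := by ring
    rw [this, hωω, mul_one, Complex.add_re, Complex.ofReal_re]
  rw [hre]
  -- variation of the bump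
  have hXi1 : Xi Q J a (x + t • (!₂[0, ω] : E2)) - Xi Q J a x
      = a * (1 + Real.cos s) * (Bq (‖x 1 + t * ω‖ ^ 2) - Bq (‖x 1‖ ^ 2)) := by
    rw [Xi, Xi, e0, e1, ← hsdef]; ring
  have hn1 : |‖x 1 + t * ω‖ - ‖x 1‖| ≤ t := by
    refine (abs_norm_sub_norm_le _ _).trans ?_
    rw [add_sub_cancel_left, norm_mul, hωn, mul_one, Complex.norm_real, Real.norm_of_nonneg ht0.le]
  have hn2 : ‖x 1 + t * ω‖ ≤ 1 / 2 := by rw [← e1]; exact ht1.le
  have hn3 : |Bq (‖x 1 + t * ω‖ ^ 2) - Bq (‖x 1‖ ^ 2)| ≤ 5 * t := by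
    set α := ‖x 1 + t * ω‖ with hα
    set β := ‖x 1‖ with hβ
    have hα0 : 0 ≤ α := norm_nonneg _
    have hβ0 : 0 ≤ β := norm_nonneg _
    have h1 : Bq (α ^ 2) - Bq (β ^ 2) = (α - β) * ((α + β) * (4 * (α ^ 2 + β ^ 2) - 5)) := by
      rw [Bq, Bq]; ring
    rw [h1, abs_mul]
    have h2 : |(α + β) * (4 * (α ^ 2 + β ^ 2) - 5)| ≤ 5 := by
      have hα2 : α ^ 2 ≤ 1 / 4 := by nlinarith
      have hβ2 : β ^ 2 ≤ 1 / 4 := by nlinarith
      have h3 : |4 * (α ^ 2 + β ^ 2) - 5| ≤ 5 := by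
        rw [abs_le]; constructor <;> nlinarith
      rw [abs_mul, abs_of_nonneg (by positivity : 0 ≤ α + β)]
      calc (α + β) * |4 * (α ^ 2 + β ^ 2) - 5| ≤ 1 * 5 := by
            gcongr
            linarith
        _ = 5 := by norm_num
    calc |α - β| * |(α + β) * (4 * (α ^ 2 + β ^ 2) - 5)| ≤ t * 5 := by gcongr
      _ = 5 * t := by ring
  have hcos1 := Real.neg_one_le_cos s
  have hcos2 := Real.cos_le_one s
  have hXi2 : -(10 * a * t) ≤ Xi Q J a (x + t • (!₂[0, ω] : E2)) - Xi Q J a x := by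
    rw [hXi1]
    have h3 := (abs_le.1 hn3).1
    have h4 : 0 ≤ a * (1 + Real.cos s) := mul_nonneg ha.le (by linarith)
    have h5 : a * (1 + Real.cos s) ≤ a * 2 := by gcongr; linarith
    calc -(10 * a * t) = -((a * 2) * (5 * t)) := by ring
      _ ≤ -((a * (1 + Real.cos s)) * (5 * t)) := by gcongr
      _ = (a * (1 + Real.cos s)) * (-(5 * t)) := by ring
      _ ≤ _ := mul_le_mul_of_nonneg_left h3 h4
  have ha1' : a ≤ 1 / 200000 := ha1
  have hat : 20 * a * t < t := by nlinarith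
  linarith

theorem all_in (Q : Cheese) {V : Set E2} (hV : IsOpen V) (hcl : closure (Om Q) ⊆ V) {ψ : E2 → ℝ}
    (hψ : PSH V ψ) (hcomp : ∀ c : ℝ, IsCompact {z | z ∈ V ∧ ψ z ≤ c}) :
    ∃ J : Finset ℕ, Ca Q J a1c ⊆ V := by
  have ha1pos : 0 < a1c := by rw [a1c]; norm_num
  obtain ⟨B₀, hB₀⟩ := (isCompact_closure_Om Q).exists_bound_of_continuousOn (hψ.1.mono hcl)
  have hB : ∀ x ∈ closure (Om Q), ψ x ≤ B₀ := fun x hx => (le_abs_self _).trans (hB₀ x hx)
  set L : Set E2 := {z | z ∈ V ∧ ψ z ≤ B₀} with hL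
  have hLc : IsClosed L := (hcomp B₀).isClosed
  have hmemL : ∀ x, x ∈ L ↔ (x ∈ V ∧ ψ x ≤ B₀) := fun x => Iff.rfl
  have hclL : closure (Om Q) ⊆ L := fun x hx => (hmemL x).2 ⟨hcl hx, hB x hx⟩
  -- the complement inside the compact piece
  have hK' : IsCompact (Kpi \ V) := isCompact_Kpi.diff hV
  obtain ⟨m₀, hm₀, hm⟩ := exists_pos_lower hK' (f := rho Q) (continuous_rho Q).continuousOn
    (fun x hx => by
      by_contra hcon
      push Not at hcon
      have : x ∈ closure (Om Q) := by rw [closure_Om]; exact (mem_le Q x 0).2 hcon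
      exact hx.2 (hcl this))
  set κ' : ℝ := min a1c (m₀ / 8) with hκ'
  have hκ0 : 0 < κ' := by positivity
  have hκ1 : κ' ≤ a1c := min_le_left _ _
  have hκm : 4 * κ' < m₀ := by
    have : κ' ≤ m₀ / 8 := min_le_right _ _
    linarith
  obtain ⟨n, hn⟩ := exists_pow_lt_of_lt_one hκ0 (show (1 / 2 : ℝ) < 1 by norm_num)
  set J : Finset ℕ := Finset.range n with hJdef
  have hJ : ∀ a, κ' ≤ a → ∀ j ∉ J, aj (Q.γ j) j ≤ a := by
    intro a ha j hj
    have hj' : n ≤ j := by simpa [hJdef] using hj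
    have h1 := aj_le (Q.γ_pos j) j
    have h2 : (1 / 2 : ℝ) ^ j ≤ (1 / 2) ^ n := pow_le_pow_of_le_one (by norm_num) (by norm_num) hj'
    have h3 : e3 ≤ 1 := by rw [e3]; norm_num
    have h4 : 0 < (1 / 2 : ℝ) ^ j := by positivity
    nlinarith [e3_pos]
  have hmax : ∀ a, κ' ≤ a → a ≤ a1c → Ca Q J a ⊆ V → Ca Q J a ⊆ L := by
    intro a h1 h2 h3 x hx
    exact (hmemL x).2 ⟨h3 hx, max_principle_Ca Q J (hκ0.trans_le h1) h2 (hJ a h1) hV hψ h3 hB x hx⟩
  refine ⟨J, ?_⟩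
  set S : Set ℝ := {a | Ca Q J a ⊆ L} with hS
  have hmemS : ∀ a, a ∈ S ↔ Ca Q J a ⊆ L := fun a => Iff.rfl
  have hall : Set.Icc κ' a1c ⊆ S := by
    apply IsClosed.Icc_subset_of_forall_mem_nhdsWithin
    · -- closedness
      rw [← closure_subset_iff_isClosed]
      intro a haS
      have haI : a ∈ Set.Icc κ' a1c := by
        have : closure (S ∩ Set.Icc κ' a1c) ⊆ Set.Icc κ' a1c :=
          closure_minimal Set.inter_subset_right isClosed_Icc
        exact this haS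
      have ha0 : 0 < a := hκ0.trans_le haI.1
      refine ⟨(hmemS a).2 ?_, haI⟩
      have hstrict : ∀ x ∈ Kpi, 0 < Xi Q J a x → rho Q x < 2 * Xi Q J a x → x ∈ L := by
        intro x hx h1 h2
        have hcont := continuousAt_Xi Q J a (Kpi_log hx).1
        have hcont' : ContinuousAt (fun b => Xi Q J b x) a :=
          ContinuousAt.comp (g := fun p : ℝ × E2 => Xi Q J p.1 p.2) (f := fun b : ℝ => (b, x))
            hcont (by fun_prop)
        have h3 : ∀ᶠ b in 𝓝 a, 0 < Xi Q J b x := hcont'.eventually (Ioi_mem_nhds h1)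
        have h4 : ∀ᶠ b in 𝓝 a, rho Q x / 2 < Xi Q J b x :=
          hcont'.eventually (Ioi_mem_nhds (by linarith))
        have h5 := mem_closure_iff_frequently.1 haS
        obtain ⟨b, hb1, hb2, hb3⟩ := (h5.and_eventually (h3.and h4)).exists
        exact hb1.1 (mem_Ca.2 (Or.inr ⟨hx, hb2.le, by linarith⟩))
      intro x hx
      rcases mem_Ca.1 hx with h | ⟨hxK, hX0, hr⟩
      · exact hclL h
      · rcases hX0.lt_or_eq with hX | hX
        · obtain ⟨e, he⟩ := push_in Q J ha0 haI.2 hxK hX hr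
          have hc : Continuous fun t : ℝ => x + t • e := by fun_prop
          have hc0 : Tendsto (fun t : ℝ => x + t • e) (𝓝[>] 0) (𝓝 x) := by
            have h1 := hc.tendsto 0
            rw [zero_smul, add_zero] at h1
            exact h1.mono_left nhdsWithin_le_nhds
          refine hLc.mem_of_tendsto hc0 ?_
          filter_upwards [he] with t ht
          exact hstrict _ ht.1 ht.2.1 ht.2.2
        · apply hclL
          rw [closure_Om]
          exact (mem_le Q x 0).2 (by linarith)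
    · -- the start
      refine (hmemS κ').2 (hmax κ' le_rfl hκ1 ?_)
      intro x hx
      rcases mem_Ca.1 hx with h | ⟨hxK, hX0, hr⟩
      · exact hcl h
      · by_contra hxV
        have h1 := hm x ⟨hxK, hxV⟩
        obtain ⟨hx0, hxs⟩ := Kpi_log hxK
        have h2 := Xi_le' Q J hκ0 hx0 hxs
        have hB := Bq_bounds (t := ‖x 1‖ ^ 2) (by positivity)
          (by have := hxK.2.2; nlinarith [norm_nonneg (x 1)])
        have hc1 := Real.cos_le_one (Real.log ‖x 0‖)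
        have hc2 := Real.neg_one_le_cos (Real.log ‖x 0‖)
        have h3 : (1 + Real.cos (Real.log ‖x 0‖)) * Bq (‖x 1‖ ^ 2) ≤ 2 := by nlinarith
        have h4 : κ' * ((1 + Real.cos (Real.log ‖x 0‖)) * Bq (‖x 1‖ ^ 2) - 1 / 20) ≤ κ' * 2 := by
          gcongr; linarith
        linarith
    · -- openness
      rintro a ⟨haS, haI⟩
      have haV : Ca Q J a ⊆ V := fun x hx => ((hmemL x).1 ((hmemS a).1 haS hx)).1
      have hev : ∀ᶠ b in 𝓝 a, ∀ y ∈ Kpi \ V, Xi Q J b y < 0 ∨ 2 * Xi Q J b y < rho Q y := by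
        refine hK'.eventually_forall_of_forall_eventually fun y hy => ?_
        have hcont := continuousAt_Xi Q J a (Kpi_log hy.1).1
        have hnot : Xi Q J a y < 0 ∨ 2 * Xi Q J a y < rho Q y := by
          by_contra hcon
          push Not at hcon
          exact hy.2 (haV (mem_Ca.2 (Or.inr ⟨hy.1, hcon.1, hcon.2⟩)))
        rcases hnot with h | h
        · filter_upwards [hcont.eventually (Iio_mem_nhds h)] with z hz
          exact Or.inl hz
        · have hcont2 : ContinuousAt (fun p : ℝ × E2 => rho Q p.2 - 2 * Xi Q J p.1 p.2) (a, y) :=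
            ((continuous_rho Q).comp continuous_snd).continuousAt.sub (continuousAt_const.mul hcont)
          filter_upwards [hcont2.eventually (Ioi_mem_nhds (by simpa using h :
            (0:ℝ) < rho Q y - 2 * Xi Q J a y))] with z hz
          right
          have : 0 < rho Q z.2 - 2 * Xi Q J z.1 z.2 := hz
          linarith
      have h1 : ∀ᶠ b in 𝓝[>] a, ∀ y ∈ Kpi \ V, Xi Q J b y < 0 ∨ 2 * Xi Q J b y < rho Q y :=
        nhdsWithin_le_nhds hev
      have h2 : ∀ᶠ b in 𝓝[>] a, b < a1c := nhdsWithin_le_nhds (Iio_mem_nhds haI.2)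
      filter_upwards [h1, h2, self_mem_nhdsWithin] with b hb1 hb2 hb3
      have hb3' : a < b := hb3
      refine (hmemS b).2 (hmax b (haI.1.trans hb3'.le) hb2.le ?_)
      intro x hx
      rcases mem_Ca.1 hx with h | ⟨hxK, hX0, hr⟩
      · exact hcl h
      · by_contra hxV
        rcases hb1 x ⟨hxK, hxV⟩ with h | h <;> linarith
  intro x hx
  exact ((hmemL x).1 ((hmemS a1c).1 (hall ⟨hκ1, le_rfl⟩) hx)).1

lemma point_in (Q : Cheese) (J : Finset ℕ) :
    (!₂[1, ((-(a1c / 2) : ℝ) : ℂ)] : E2) ∈ Ca Q J a1c ∧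
      a1c / 4 ≤ rho Q (!₂[1, ((-(a1c / 2) : ℝ) : ℂ)] : E2) := by
  set x : E2 := !₂[1, ((-(a1c / 2) : ℝ) : ℂ)] with hx
  have hx0 : x 0 = 1 := by simp [hx]
  have hx1 : x 1 = ((-(a1c / 2) : ℝ) : ℂ) := by simp [hx]
  have ha1 : a1c = 1 / 200000 := rfl
  have he3 : e3 = 1 / 10 ^ 8 := rfl
  have ha1pos : 0 < a1c := by rw [ha1]; norm_num
  have hn1 : ‖x 1‖ = a1c / 2 := by
    rw [hx1, Complex.norm_real, Real.norm_eq_abs, abs_neg, abs_of_pos (by positivity)]
  have hlog : Real.log ‖x 0‖ = 0 := by rw [hx0]; simp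
  have hpi := Real.pi_pos
  have hK : x ∈ Kpi := log_Kpi (by rw [hx0]; exact one_ne_zero) (by rw [hlog]; simpa using hpi.le)
    (by rw [hn1, ha1]; norm_num)
  have hrho : rho Q x = a1c + Q.η (x 0) := by
    rw [rho_flat Q hK, hlog, hx1]
    simp
    ring
  have hη := abs_le.1 (Q.η_small (x 0))
  have hsum : ∑ j ∈ J, wt Q a1c j * pj Q j (x 0) ≤ 2 * e3 := by
    refine le_trans (Finset.sum_le_sum fun j _ => ?_) (sum_half_le J)
    have hγ := Q.γ_pos j
    have h1 : wt Q a1c j ≤ 2 * aj (Q.γ j) j := min_le_right _ _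
    have haj := aj_pos hγ j
    have hp0 : 0 ≤ pj Q j (x 0) := pj_nonneg Q j (by rw [hx0]; exact one_ne_zero)
      (by rw [hlog]; simpa using hpi.le)
    have h2 : pj Q j (x 0) ≤ 1 + Pj (Q.γ j) := by
      have h3 := Bar_le (rj_pos (Q.γ j)) (x 0 / zc Q j - 1)
      have hM := Mc_pos
      have hC := Cc_pos
      have hr := rj_pos (Q.γ j)
      rw [pj, Pj]
      have h4 : Q.γ j * Bar (rj (Q.γ j)) (x 0 / zc Q j - 1) ≤ Q.γ j * (C1c - Real.log (rj (Q.γ j))) := by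
        gcongr
      have h5 : 0 ≤ Q.γ j * (1 / rj (Q.γ j) + Cc) * Mc := by positivity
      linarith
    calc wt Q a1c j * pj Q j (x 0) ≤ (2 * aj (Q.γ j) j) * (1 + Pj (Q.γ j)) := by gcongr
      _ = e3 * (1 / 2) ^ j := aj_Pj hγ j
  have hXi : a1c * (17 / 10) - 2 * e3 ≤ Xi Q J a1c x := by
    rw [Xi, hlog, Real.cos_zero, hn1]
    have h1 : 9 / 10 ≤ Bq ((a1c / 2) ^ 2) := by
      rw [Bq, ha1]; norm_num
    have h2 : a1c * (17 / 10) ≤ a1c * ((1 + 1) * Bq ((a1c / 2) ^ 2) - 1 / 20) := by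
      gcongr; linarith
    linarith
  refine ⟨mem_Ca.2 (Or.inr ⟨hK, ?_, ?_⟩), ?_⟩
  · refine le_trans ?_ hXi
    rw [ha1, he3]; norm_num
  · rw [hrho]
    rw [ha1, he3] at *
    linarith [hη.2]
  · rw [hrho]
    rw [ha1, he3] at *
    linarith [hη.1]

theorem no_stein (Q : Cheese) {V : Set E2} (hV : IsOpen V) (hcl : closure (Om Q) ⊆ V)
    (hVU : V ⊆ {x | rho Q x < a1c / 4}) {ψ : E2 → ℝ} (hψ : PSH V ψ)
    (hcomp : ∀ c : ℝ, IsCompact {z | z ∈ V ∧ ψ z ≤ c}) : False := by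
  obtain ⟨J, hJ⟩ := all_in Q hV hcl hψ hcomp
  obtain ⟨h1, h2⟩ := point_in Q J
  have h3 := hVU (hJ h1)
  exact absurd (h3 : rho Q _ < a1c / 4) (not_lt.2 h2)

end Pool.Agent.Helper303
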