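import Pool.Agent.Helper303.Lap2

set_option autoImplicit false
open Filter Topology Asymptotics MeasureTheory Metric

namespace Pool.Agent.Helper303

/-- Comparison with the real part of an entire function on a disc. -/
lemma max_principle {u : ℂ → ℝ} {r : ℝ} (hr : 0 < r) (hc : ContinuousOn u (closedBall 0 r))
    (hv : ∀ x ∈ ball (0 : ℂ) r, VSub fun h => u (x + h)) {P : ℂ → ℂ} (hP : Differentiable ℂ P)
    {δ : ℝ} (hb : ∀ x ∈ sphere (0 : ℂ) r, u x ≤ (P x).re + δ) : u 0 ≤ (P 0).re + δ := by
  by_contra hneg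
  push Not at hneg
  obtain ⟨ε, hε0, hε⟩ : ∃ ε : ℝ, 0 < ε ∧ (P 0).re + δ + ε * r ^ 2 < u 0 := by
    refine ⟨(u 0 - (P 0).re - δ) / (2 * r ^ 2), by
      apply div_pos <;> [linarith; positivity], ?_⟩
    have : (u 0 - (P 0).re - δ) / (2 * r ^ 2) * r ^ 2 = (u 0 - (P 0).re - δ) / 2 := by
      field_simp
    rw [this]; linarith
  have hG : ContinuousOn (fun x => u x - (P x).re + ε * ‖x‖ ^ 2) (closedBall (0:ℂ) r) := by
    refine (hc.sub ?_).add ?_
    · exact (Complex.continuous_re.comp hP.continuous).continuousOn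
    · fun_prop
  obtain ⟨x₀, hx₀, hmax⟩ := (isCompact_closedBall (0:ℂ) r).exists_isMaxOn
    ⟨0, mem_closedBall_self hr.le⟩ hG
  have h00 := hmax (mem_closedBall_self hr.le)
  simp only [Set.mem_ofPred_eq, norm_zero, ne_eq, OfNat.ofNat_ne_zero, not_false_eq_true, zero_pow,
    mul_zero, add_zero] at h00
  have hx₀r : ‖x₀‖ ≤ r := by simpa using hx₀
  rcases hx₀r.lt_or_eq with hlt | heq
  · have hball : x₀ ∈ ball (0:ℂ) r := by simpa using hlt
    have hP2 : HasTwo (fun h => P (x₀ + h)) (deriv (fun h => P (x₀ + h)) 0) := by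
      refine HasTwo.of_analyticAt ?_
      have : Differentiable ℂ (fun h => P (x₀ + h)) := hP.comp (by fun_prop)
      exact this.analyticAt 0
    have hL := hP2.re
    have hN : HasLap (fun h => ε * ‖x₀ + h‖ ^ 2) _ _ :=
      (HasTwo.normSq (f := fun h : ℂ => x₀ + h) (f₁ := 1) ⟨0, by simp⟩).const_mul ε
    have hD := hL.sub hN
    obtain ⟨c, hcc⟩ := hD
    have hb2 := hcc.bound (show (0:ℝ) < ε / 2 by positivity)
    have := hv x₀ hball (((deriv (fun h => P (x₀ + h)) 0))
      - ε * (2 * ((starRingEnd ℂ) (x₀ + 0) * 1))) c (-(ε / 2)) ?_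
    · linarith
    · have hnear : ∀ᶠ h : ℂ in 𝓝 0, x₀ + h ∈ closedBall (0:ℂ) r := by
        have : Tendsto (fun h : ℂ => x₀ + h) (𝓝 0) (𝓝 x₀) := by
          have : Continuous fun h : ℂ => x₀ + h := by fun_prop
          simpa using this.tendsto 0
        exact (this.eventually (isOpen_ball.mem_nhds hball)).mono fun _ hx => ball_subset_closedBall hx
      filter_upwards [hb2, hnear] with h h1 h2
      have h3 := hmax h2
      simp only [Set.mem_ofPred_eq] at h3
      rw [Real.norm_of_nonneg (by positivity : (0:ℝ) ≤ ‖h‖ ^ 2)] at h1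
      have h4 := (abs_le.1 h1).2
      simp only [add_zero] at h4 h3 ⊢
      norm_num at h4 ⊢
      linarith
  · have h5 := hb x₀ (by simpa using heq)
    rw [heq] at h00
    linarith

/-- The real part of an entire function has the mean value property. -/
lemma mean_re {P : ℂ → ℂ} (hP : Differentiable ℂ P) (r : ℝ) :
    (2 * Real.pi)⁻¹ * ∫ θ in (0:ℝ)..(2 * Real.pi), (P (r * Complex.exp (θ * Complex.I))).re
      = (P 0).re := by
  have h1 : Real.circleAverage P 0 r = P 0 := by
    apply DiffContOnCl.circleAverage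
    exact hP.diffContOnCl
  rw [Real.circleAverage_def] at h1
  have h2 := congrArg Complex.re h1
  have hi : IntervalIntegrable (fun θ : ℝ => P (circleMap 0 r θ)) volume 0 (2 * Real.pi) := by
    apply Continuous.intervalIntegrable
    exact hP.continuous.comp (continuous_circleMap 0 r)
  rw [Complex.real_smul, Complex.re_ofReal_mul] at h2
  rw [← h2]
  congr 1
  have h3 := Complex.reCLM.intervalIntegral_comp_comm hi
  simp only [Complex.reCLM_apply] at h3
  rw [← h3]
  simp [circleMap]

lemma exists_poly_approx {T : ℝ → ℝ} (hT : Continuous T) (hper : Function.Periodic T (2 * Real.pi))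
    {r : ℝ} (hr : 0 < r) {δ : ℝ} (hδ : 0 < δ) :
    ∃ P : ℂ → ℂ, Differentiable ℂ P ∧
      ∀ θ : ℝ, |T θ - (P (r * Complex.exp (θ * Complex.I))).re| ≤ δ := by
  have : Fact (0 < 2 * Real.pi) := ⟨Real.two_pi_pos⟩
  -- lift to the circle
  have hper2 : Function.Periodic (fun θ => (T θ : ℂ)) (2 * Real.pi) := fun x => by
    simp only; rw [hper x]
  let f : C(AddCircle (2 * Real.pi), ℂ) :=
    ⟨hper2.lift, by
      have : Continuous (fun θ : ℝ => (T θ : ℂ)) := Complex.continuous_ofReal.comp hT
      exact continuous_coinduced_dom.mpr this⟩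
  have hf : ∀ θ : ℝ, f (θ : AddCircle (2 * Real.pi)) = (T θ : ℂ) := fun θ => rfl
  have hmem : f ∈ (Submodule.span ℂ (Set.range (@fourier (2 * Real.pi)))).topologicalClosure := by
    rw [span_fourier_closure_eq_top]; trivial
  rw [← SetLike.mem_coe, Submodule.topologicalClosure_coe, Metric.mem_closure_iff] at hmem
  obtain ⟨g, hg, hfg⟩ := hmem δ hδ
  have key : ∀ g ∈ Submodule.span ℂ (Set.range (@fourier (2 * Real.pi))),
      ∃ P₁ P₂ : ℂ → ℂ, Differentiable ℂ P₁ ∧ Differentiable ℂ P₂ ∧ ∀ θ : ℝ,
        g (θ : AddCircle (2 * Real.pi)) = P₁ (r * Complex.exp (θ * Complex.I))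
          + (starRingEnd ℂ) (P₂ (r * Complex.exp (θ * Complex.I))) := by
    intro g hg
    induction hg using Submodule.span_induction with
    | mem x hx =>
      obtain ⟨n, rfl⟩ := hx
      have hrc : (r : ℂ) ≠ 0 := by exact_mod_cast hr.ne'
      have hfour : ∀ θ : ℝ, (fourier n : C(AddCircle (2 * Real.pi), ℂ))
          (θ : AddCircle (2 * Real.pi)) = Complex.exp (n * (θ * Complex.I)) := by
        intro θ
        rw [fourier_coe_apply]
        congr 1
        have : (Real.pi : ℂ) ≠ 0 := by exact_mod_cast Real.pi_ne_zero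
        push_cast
        field_simp
      rcases le_total 0 n with hn | hn
      · obtain ⟨m, rfl⟩ := Int.eq_ofNat_of_zero_le hn
        refine ⟨fun x => (x / r) ^ m, fun _ => 0, by fun_prop, by fun_prop, fun θ => ?_⟩
        rw [hfour]
        simp only [map_zero, add_zero]
        rw [mul_div_cancel_left₀ _ hrc, ← Complex.exp_nat_mul]
        push_cast
        rfl
      · obtain ⟨m, hm⟩ := Int.eq_ofNat_of_zero_le (neg_nonneg.2 hn)
        have hn' : n = -(m : ℤ) := by omega
        subst hn'
        refine ⟨fun _ => 0, fun x => (x / r) ^ m, by fun_prop, by fun_prop, fun θ => ?_⟩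
        rw [hfour]
        simp only [zero_add]
        rw [mul_div_cancel_left₀ _ hrc, ← Complex.exp_nat_mul, ← Complex.exp_conj]
        congr 1
        simp
    | zero => exact ⟨fun _ => 0, fun _ => 0, by fun_prop, by fun_prop, fun θ => by simp⟩
    | add x y _ _ hx hy =>
      obtain ⟨P₁, P₂, h1, h2, h3⟩ := hx
      obtain ⟨Q₁, Q₂, k1, k2, k3⟩ := hy
      refine ⟨fun x => P₁ x + Q₁ x, fun x => P₂ x + Q₂ x, h1.add k1, h2.add k2, fun θ => ?_⟩
      rw [ContinuousMap.add_apply, h3, k3, map_add]; ring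
    | smul a x _ hx =>
      obtain ⟨P₁, P₂, h1, h2, h3⟩ := hx
      refine ⟨fun x => a * P₁ x, fun x => (starRingEnd ℂ) a * P₂ x, h1.const_mul a,
        h2.const_mul _, fun θ => ?_⟩
      rw [ContinuousMap.smul_apply, h3, map_mul]
      simp only [smul_eq_mul, Complex.conj_conj]
      ring
  obtain ⟨P₁, P₂, h1, h2, h3⟩ := key g hg
  refine ⟨fun x => P₁ x + P₂ x, h1.add h2, fun θ => ?_⟩
  have h4 : dist (f (θ : AddCircle (2 * Real.pi))) (g (θ : AddCircle (2 * Real.pi))) ≤ δ :=
    (ContinuousMap.dist_apply_le_dist _).trans hfg.le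
  rw [hf, h3, dist_eq_norm] at h4
  refine le_trans ?_ h4
  refine le_trans (le_of_eq ?_) (Complex.abs_re_le_norm _)
  congr 1

/-- The viscosity property implies the sub-mean value inequality. -/
theorem submean_of_vsub {u : ℂ → ℝ} {r : ℝ} (hr : 0 < r) (hc : ContinuousOn u (closedBall 0 r))
    (hv : ∀ x ∈ ball (0 : ℂ) r, VSub fun h => u (x + h)) :
    u 0 ≤ (2 * Real.pi)⁻¹ * ∫ θ in (0:ℝ)..(2 * Real.pi), u (r * Complex.exp (θ * Complex.I)) := by
  have hcirc : Continuous fun θ : ℝ => u (r * Complex.exp (θ * Complex.I)) := by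
    refine hc.comp_continuous (by fun_prop) fun θ => ?_
    simp [Complex.norm_exp_ofReal_mul_I, abs_of_pos hr]
  have hper : Function.Periodic (fun θ : ℝ => u (r * Complex.exp (θ * Complex.I)))
      (2 * Real.pi) := by
    intro θ
    simp only
    congr 2
    push_cast
    rw [add_mul, Complex.exp_add, Complex.exp_two_pi_mul_I, mul_one]
  refine le_of_forall_pos_le_add fun δ hδ => ?_
  obtain ⟨P, hP, hPu⟩ := exists_poly_approx hcirc hper hr (half_pos hδ)
  have h1 : u 0 ≤ (P 0).re + δ / 2 := by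
    refine max_principle hr hc hv hP fun x hx => ?_
    have hx' : ‖x‖ = r := by simpa using hx
    have := hPu x.arg
    have hxe : (r : ℂ) * Complex.exp (x.arg * Complex.I) = x := by
      rw [← hx']; exact Complex.norm_mul_exp_arg_mul_I x
    rw [hxe] at this
    linarith [(abs_le.1 this).2]
  have h2 : (P 0).re ≤ (2 * Real.pi)⁻¹ * ∫ θ in (0:ℝ)..(2 * Real.pi),
      (u (r * Complex.exp (θ * Complex.I)) + δ / 2) := by
    rw [← mean_re hP r]
    refine mul_le_mul_of_nonneg_left ?_ (by positivity)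
    refine intervalIntegral.integral_mono_on Real.two_pi_pos.le ?_ ?_ ?_
    · apply Continuous.intervalIntegrable
      exact Complex.continuous_re.comp (hP.continuous.comp (by fun_prop))
    · exact (hcirc.add continuous_const).intervalIntegrable _ _
    · intro θ _
      linarith [(abs_le.1 (hPu θ)).1]
  have h3 : (2 * Real.pi)⁻¹ * ∫ θ in (0:ℝ)..(2 * Real.pi),
      (u (r * Complex.exp (θ * Complex.I)) + δ / 2)
      = (2 * Real.pi)⁻¹ * (∫ θ in (0:ℝ)..(2 * Real.pi), u (r * Complex.exp (θ * Complex.I)))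
        + δ / 2 := by
    rw [intervalIntegral.integral_add (hcirc.intervalIntegrable _ _)
      (continuous_const.intervalIntegrable _ _), intervalIntegral.integral_const, mul_add]
    congr 1
    have : (Real.pi : ℝ) ≠ 0 := Real.pi_ne_zero
    simp only [sub_zero, smul_eq_mul]
    field_simp
  linarith

/-- The sub-mean value inequality on small circles implies the viscosity property. -/
theorem vsub_of_submean {u : ℂ → ℝ} {ε : ℝ} (hε : 0 < ε) (hc : ContinuousOn u (ball 0 ε))
    (hs : ∀ r : ℝ, 0 < r → r < ε →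
      u 0 ≤ (2 * Real.pi)⁻¹ * ∫ θ in (0:ℝ)..(2 * Real.pi), u (r * Complex.exp (θ * Complex.I))) :
    VSub u := by
  intro g c l hl
  rw [Metric.eventually_nhds_iff] at hl
  obtain ⟨ε₁, hε₁, H⟩ := hl
  set r := min ε ε₁ / 2 with hrdef
  have hr : 0 < r := by positivity
  have hr1 : r < ε := by have := min_le_left ε ε₁; have h2 : 0 < min ε ε₁ := by positivity
                         linarith
  have hr2 : r < ε₁ := by have := min_le_right ε ε₁; have h2 : 0 < min ε ε₁ := by positivity
                          linarith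
  have hcirc : Continuous fun θ : ℝ => u (r * Complex.exp (θ * Complex.I)) := by
    refine hc.comp_continuous (by fun_prop) fun θ => ?_
    simp [Complex.norm_exp_ofReal_mul_I, abs_of_pos hr, hr1]
  have hP : Differentiable ℂ fun h : ℂ => (u 0 : ℂ) + g * h + c * h ^ 2 + ((l * r ^ 2 : ℝ) : ℂ) := by
    fun_prop
  have h1 := mean_re hP r
  have h2 : u 0 ≤ (2 * Real.pi)⁻¹ * ∫ θ in (0:ℝ)..(2 * Real.pi),
      ((u 0 : ℂ) + g * (r * Complex.exp (θ * Complex.I))
        + c * (r * Complex.exp (θ * Complex.I)) ^ 2 + ((l * r ^ 2 : ℝ) : ℂ)).re := by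
    refine (hs r hr hr1).trans (mul_le_mul_of_nonneg_left ?_ (by positivity))
    refine intervalIntegral.integral_mono_on Real.two_pi_pos.le (hcirc.intervalIntegrable _ _) ?_ ?_
    · apply Continuous.intervalIntegrable
      exact Complex.continuous_re.comp (by fun_prop)
    · intro θ _
      have hn : ‖(r : ℂ) * Complex.exp (θ * Complex.I)‖ = r := by
        simp [Complex.norm_exp_ofReal_mul_I, abs_of_pos hr]
      have := H (y := (r : ℂ) * Complex.exp (θ * Complex.I)) (by rw [dist_zero_right, hn]; exact hr2)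
      rw [hn] at this
      simp only [Complex.add_re, Complex.ofReal_re]
      exact this
  rw [h1] at h2
  simp only [mul_zero, add_zero, ne_eq, OfNat.ofNat_ne_zero, not_false_eq_true, zero_pow,
    Complex.add_re, Complex.ofReal_re] at h2
  have : 0 ≤ l * r ^ 2 := by linarith
  exact nonneg_of_mul_nonneg_left this (by positivity)

end Pool.Agent.Helper303
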